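import Mathlib

set_option autoImplicit false

namespace Pool.Agent.H68.Cay

open Pointwise

variable {G : Type} [Group G]

def cay (S : Finset G) : SimpleGraph G := SimpleGraph.fromRel (fun g h : G => g⁻¹ * h ∈ S)

variable {S : Finset G}

theorem adj_iff {g h : G} : (cay S).Adj g h ↔ g ≠ h ∧ (g⁻¹ * h ∈ S ∨ h⁻¹ * g ∈ S) := by
  simp [cay, SimpleGraph.fromRel_adj]

def lmul (S : Finset G) (a : G) : cay S →g cay S where
  toFun g := a * g
  map_rel' {g h} e := by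
    rw [adj_iff] at e ⊢
    refine ⟨fun h' => e.1 (mul_left_cancel h'), ?_⟩
    simpa [mul_assoc] using e.2

theorem reach_one (hS : Subgroup.closure (S : Set G) = ⊤) (g : G) : (cay S).Reachable 1 g := by
  have hg : g ∈ Subgroup.closure (S : Set G) := hS ▸ Subgroup.mem_top g
  induction hg using Subgroup.closure_induction with
  | mem x hx =>
    by_cases h : 1 = x
    · rw [← h]
    · exact (adj_iff.2 ⟨h, Or.inl (by simpa using hx)⟩).reachable
  | one => rfl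
  | mul x y _ _ h1 h2 =>
    have := h2.map (lmul S x)
    exact h1.trans (by simpa [lmul] using this)
  | inv x _ h =>
    have := h.map (lmul S x⁻¹)
    exact (by simpa [lmul] using this : (cay S).Reachable x⁻¹ 1).symm

theorem reach (hS : Subgroup.closure (S : Set G) = ⊤) (g h : G) : (cay S).Reachable g h :=
  (reach_one hS g).symm.trans (reach_one hS h)

theorem dist_mul_le (hS : Subgroup.closure (S : Set G) = ⊤) (a g h : G) :
    (cay S).dist (a * g) (a * h) ≤ (cay S).dist g h := by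
  obtain ⟨p, hp⟩ := (reach hS g h).exists_walk_length_eq_dist
  have := SimpleGraph.dist_le (p.map (lmul S a))
  rw [SimpleGraph.Walk.length_map, hp] at this
  exact this

theorem dist_eq (hS : Subgroup.closure (S : Set G) = ⊤) (g h : G) :
    (cay S).dist g h = (cay S).dist 1 (g⁻¹ * h) := by
  apply le_antisymm
  · simpa using dist_mul_le hS g 1 (g⁻¹ * h)
  · simpa using dist_mul_le hS g⁻¹ g h

theorem dist_tri (hS : Subgroup.closure (S : Set G) = ⊤) (a b c : G) :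
    (cay S).dist a c ≤ (cay S).dist a b + (cay S).dist b c :=
  (SimpleGraph.Connected.mk (reach hS)).dist_triangle

theorem ball_fin (hS : Subgroup.closure (S : Set G) = ⊤) (n : ℕ) :
    {g | (cay S).dist 1 g ≤ n}.Finite := by
  have : ∀ n : ℕ, {g | ∃ p : (cay S).Walk g 1, p.length ≤ n}.Finite := by
    intro n
    induction n with
    | zero =>
      refine (Set.finite_singleton 1).subset ?_
      rintro g ⟨p, hp⟩
      exact p.eq_of_length_eq_zero (Nat.le_zero.1 hp)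
    | succ n ih =>
      refine ((Set.finite_singleton 1).union
        (ih.mul (S.finite_toSet.union S.finite_toSet.inv))).subset ?_
      rintro g ⟨p, hp⟩
      cases p with
      | nil => exact Or.inl rfl
      | @cons _ h _ e p =>
        refine Or.inr ⟨h, ⟨p, by simpa using hp⟩, h⁻¹ * g, ?_, by simp⟩
        rcases (adj_iff.1 e).2 with e | e
        · right; simpa using e
        · left; exact e
  refine (this n).subset fun g hg => ?_
  obtain ⟨p, hp⟩ := (reach hS g 1).exists_walk_length_eq_dist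
  exact ⟨p, by rw [hp, SimpleGraph.dist_comm]; exact hg⟩

theorem bdd_of_fin {T : Set G} (hT : T.Finite) : ∃ D, ∀ g ∈ T, (cay S).dist 1 g ≤ D := by
  obtain ⟨D, hD⟩ := (hT.image ((cay S).dist 1)).bddAbove
  exact ⟨D, fun g hg => hD ⟨g, hg, rfl⟩⟩

def AsLE (S : Finset G) (Y : Set G) (k : ℕ) : Prop :=
  ∀ R : ℕ, ∃ 𝒰 : Set (Set G), (∀ U ∈ 𝒰, U ⊆ Y) ∧ Y ⊆ ⋃₀ 𝒰 ∧
    (∃ D : ℕ, ∀ U ∈ 𝒰, ∀ a ∈ U, ∀ b ∈ U, (cay S).dist a b ≤ D) ∧
    ∀ y ∈ Y, {U ∈ 𝒰 | ∃ z ∈ U, (cay S).dist y z ≤ R}.encard ≤ (k + 1 : ℕ∞)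

theorem asLE_of_labels (Y : Set G) (k : ℕ) {α : Type}
    (h : ∀ R : ℕ, ∃ lab : G → α, (∃ D : ℕ, ∀ a ∈ Y, ∀ b ∈ Y, lab a = lab b →
      (cay S).dist a b ≤ D) ∧
      ∀ y ∈ Y, (lab '' {z | z ∈ Y ∧ (cay S).dist y z ≤ R}).encard ≤ (k + 1 : ℕ∞)) :
    AsLE S Y k := by
  intro R
  obtain ⟨lab, ⟨D, hD⟩, hm⟩ := h R
  refine ⟨Set.range fun x : α => {z | z ∈ Y ∧ lab z = x}, ?_, ?_, ⟨D, ?_⟩, ?_⟩
  · rintro _ ⟨x, rfl⟩ z hz; exact hz.1
  · intro y hy; exact ⟨_, ⟨lab y, rfl⟩, hy, rfl⟩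
  · rintro _ ⟨x, rfl⟩ a ha b hb; exact hD a ha.1 b hb.1 (ha.2.trans hb.2.symm)
  · intro y hy
    refine le_trans ?_ (hm y hy)
    refine le_trans (Set.encard_le_encard ?_)
      (Set.encard_image_le (fun x : α => {z | z ∈ Y ∧ lab z = x}) _)
    rintro _ ⟨⟨x, rfl⟩, z, hz, hd⟩
    exact ⟨lab z, ⟨z, ⟨hz.1, hd⟩, rfl⟩, by rw [hz.2]⟩

end Pool.Agent.H68.Cay
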