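import Mathlib

set_option autoImplicit false

namespace Pool.Agent.H68.RF

open Polynomial

theorem pow_le' (K : ℕ) : ∃ C : ℕ, 1 ≤ C ∧ ∀ r : ℕ, r ^ K ≤ C * 2 ^ r := by
  obtain ⟨C, hC⟩ := (tendsto_pow_const_div_const_pow_of_one_lt K
    (show (1 : ℝ) < 2 by norm_num)).bddAbove_range
  obtain ⟨C', hC'⟩ := exists_nat_ge C
  refine ⟨C' + 1, by omega, fun r => ?_⟩
  have := (hC ⟨r, rfl⟩).trans hC'
  rw [div_le_iff₀ (by positivity)] at this
  have h : r ^ K ≤ C' * 2 ^ r := by exact_mod_cast this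
  exact h.trans (Nat.mul_le_mul_right _ (by omega))

theorem div_bound (k : ℕ) (hk : 0 < k) : ∃ C : ℕ, 1 ≤ C ∧ ∀ n, n.divisors.card ^ k ≤ C ^ k * n := by
  obtain ⟨c, hc1, hc⟩ := pow_le' k
  refine ⟨(2 * c) ^ (2 ^ k), Nat.one_le_pow _ _ (by omega), fun n => ?_⟩
  rcases Nat.eq_zero_or_pos n with rfl | hn
  · simp [hk.ne']
  refine le_trans ?_ (Nat.mul_le_mul_right n (Nat.le_self_pow hk.ne' _))
  rw [Nat.card_divisors hn.ne', ← Finset.prod_pow]
  have h1 : ∀ p ∈ n.primeFactors, (n.factorization p + 1) ^ k ≤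
      (if p < 2 ^ k then 2 * c else 1) * p ^ n.factorization p := by
    intro p hp
    have h2 := (Nat.prime_of_mem_primeFactors hp).two_le
    generalize n.factorization p = e
    split_ifs with h
    · calc _ ≤ c * 2 ^ (e + 1) := hc _
        _ = 2 * c * 2 ^ e := by ring
        _ ≤ _ := Nat.mul_le_mul_left _ (Nat.pow_le_pow_left h2 e)
    · calc _ ≤ (2 ^ e) ^ k := Nat.pow_le_pow_left Nat.lt_two_pow_self k
        _ = (2 ^ k) ^ e := by ring
        _ ≤ _ := by rw [one_mul]; exact Nat.pow_le_pow_left (by omega) e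
  refine (Finset.prod_le_prod' h1).trans ?_
  rw [Finset.prod_mul_distrib, Finset.prod_ite, Finset.prod_const_one, mul_one, Finset.prod_const]
  refine Nat.mul_le_mul (Nat.pow_le_pow_right (by omega) ?_) (le_of_eq ?_)
  · refine (Finset.card_le_card (t := Finset.range (2 ^ k)) fun p hp => ?_).trans (by simp)
    simpa using (Finset.mem_filter.1 hp).2
  · exact Nat.prod_factorization_pow_eq_self hn.ne'

theorem exists_rough (T : ℕ) : ∃ a : ℕ, 0 < a ∧ (∀ p, p.Prime → p ∣ a → T ≤ p) ∧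
    3 * a.totient ≤ 2 * a := by
  have h := one_half_le_sum_primes_ge_one_div T
  generalize (4 ^ (T.primesBelow.card + 1)).succ = N at h
  have hp : ∀ p ∈ N.primesBelow \ T.primesBelow, p.Prime := fun p hp =>
    Nat.prime_of_mem_primesBelow (Finset.mem_sdiff.1 hp).1
  have ha : 0 < ∏ p ∈ N.primesBelow \ T.primesBelow, p := Finset.prod_pos fun p h => (hp p h).pos
  refine ⟨_, ha, fun p h1 h2 => ?_, ?_⟩
  · have : p ∈ N.primesBelow \ T.primesBelow := by
      rw [← Nat.primeFactors_prod hp]; exact Nat.mem_primeFactors.2 ⟨h1, h2, ha.ne'⟩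
    by_contra hc
    exact (Finset.mem_sdiff.1 this).2 (Nat.mem_primesBelow.2 ⟨by omega, h1⟩)
  · have h1 := Nat.totient_eq_mul_prod_factors (∏ p ∈ N.primesBelow \ T.primesBelow, p)
    rw [Nat.primeFactors_prod hp] at h1
    generalize ∏ p ∈ N.primesBelow \ T.primesBelow, p = a at *
    have h2 := congrArg (Rat.cast : ℚ → ℝ) h1
    push_cast at h2
    have h3 : ∏ p ∈ N.primesBelow \ T.primesBelow, (1 - (p : ℝ)⁻¹) ≤ Real.exp (-(1 / 2)) := by
      refine le_trans (Finset.prod_le_prod (g := fun p : ℕ => Real.exp (-(1 / p : ℝ))) ?_ ?_) ?_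
      · intro p h
        have : (1 : ℝ) ≤ p := by exact_mod_cast (hp p h).pos
        have := inv_le_one_of_one_le₀ this
        linarith
      · intro p _
        have := Real.add_one_le_exp (-(1 / p : ℝ))
        rw [one_div] at this ⊢; linarith
      · rw [← Real.exp_sum, Finset.sum_neg_distrib]
        exact Real.exp_le_exp.2 (by linarith)
    have h4 : Real.exp (-(1 / 2)) ≤ 2 / 3 := by
      have := Real.add_one_le_exp (1 / 2 : ℝ)
      rw [Real.exp_neg, inv_le_comm₀ (Real.exp_pos _) (by norm_num)]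
      linarith
    have : (3 : ℝ) * a.totient ≤ 2 * a := by
      rw [h2]
      have : (0 : ℝ) ≤ a := by positivity
      nlinarith
    exact_mod_cast this

theorem exists_U (T : ℕ) (hT : 0 < T) : ∀ B : ℕ, ∃ d : ℕ, d ≠ 0 ∧ B ≤ 2 ^ d - 1 ∧
    ∃ U : Finset (GaloisField 2 d)ˣ, 2 ^ d - 1 ≤ 4 * U.card ∧
      ∀ ζ ∈ U, orderOf ζ ≤ (2 ^ d - 1) / T := by
  classical
  intro B
  obtain ⟨a, ha, h1, h2⟩ := exists_rough (T + 3)
  have hco : Nat.Coprime 2 a := by
    rw [Nat.Prime.coprime_iff_not_dvd Nat.prime_two]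
    intro h; have := h1 2 Nat.prime_two h; omega
  have hφ := Nat.totient_pos.2 ha
  obtain ⟨d, hd⟩ : ∃ d, d = a.totient * (B + 12 * a) := ⟨_, rfl⟩
  have hd1 : B + 12 * a ≤ d := hd ▸ Nat.le_mul_of_pos_left _ hφ
  have hd2 := Nat.lt_two_pow_self (n := d)
  have hdv : a ∣ 2 ^ d - 1 := by
    have := (Nat.ModEq.pow_totient hco).pow (B + 12 * a)
    rw [← pow_mul, one_pow, ← hd] at this
    exact (Nat.modEq_iff_dvd' (by omega)).1 this.symm
  have hd0 : d ≠ 0 := by omega
  obtain ⟨g, hg⟩ := IsCyclic.exists_ofOrder_eq_natCard (α := (GaloisField 2 d)ˣ)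
  rw [Nat.card_units, GaloisField.card 2 d hd0] at hg
  refine ⟨d, hd0, by omega, ?_⟩
  have hM : 12 * a ≤ 2 ^ d - 1 := by omega
  generalize 2 ^ d - 1 = M at *
  refine ⟨((Finset.Ico 0 (0 + M)).filter fun x => ¬ a.Coprime x).image (g ^ ·), ?_, ?_⟩
  · rw [Finset.card_image_of_injOn]
    · have a1 := Nat.Ico_filter_coprime_le 0 M ha.ne'
      have a2 := Finset.card_filter_add_card_filter_not (s := Finset.Ico 0 (0 + M))
        (fun x => a.Coprime x)
      obtain ⟨c, rfl⟩ := hdv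
      rw [Nat.mul_div_cancel_left _ ha] at a1
      have a3 := Nat.totient_le a
      simp only [Nat.card_Ico] at a2
      have a4 := Nat.mul_le_mul_right (c + 1) h2
      rw [mul_assoc, mul_assoc, mul_add a c 1] at a4
      omega
    · refine pow_injOn_Iio_orderOf.mono fun x hx => ?_
      simp only [Finset.coe_filter, Finset.mem_Ico, Set.mem_ofPred_eq] at hx
      rw [hg]; simpa using hx.1.2
  · intro ζ hζ
    obtain ⟨x, hx, rfl⟩ := Finset.mem_image.1 hζ
    obtain ⟨p, hp, b1, b2⟩ := Nat.Prime.not_coprime_iff_dvd.1 (Finset.mem_filter.1 hx).2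
    rw [orderOf_pow, hg]
    have hM : 0 < M := hg ▸ orderOf_pos g
    have := Nat.le_of_dvd (Nat.gcd_pos_of_pos_left x hM) (Nat.dvd_gcd (b1.trans hdv) b2)
    have := h1 p hp b1
    exact Nat.div_le_div_left (by omega) hT

theorem nilp_pow {A : Type} [CommRing A] [Finite A] [Algebra (ZMod 2) A] {w : A}
    (h : IsNilpotent w) {E : ℕ} (hE : Nat.card A ≤ 2 ^ E) : w ^ E = 0 := by
  have h1 : Nat.card A = 2 ^ Module.finrank (ZMod 2) A := by
    rw [Module.natCard_eq_pow_finrank (K := ZMod 2)]; simp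
  have h2 : Module.finrank (ZMod 2) A ≤ E := by
    rw [h1] at hE; exact (Nat.pow_le_pow_iff_right (by norm_num)).1 hE
  have h3 := LinearMap.aeval_self_charpoly (Algebra.lmul (ZMod 2) A w)
  rw [(h.map (Algebra.lmul (ZMod 2) A)).charpoly_eq_X_pow_finrank, map_pow, aeval_X,
    ← map_pow] at h3
  have h4 : w ^ Module.finrank (ZMod 2) A = 0 := by simpa using congrArg (· 1) h3
  exact pow_eq_zero_of_le h2 h4

noncomputable def P0 (E : ℕ) : (ZMod 2)[X] :=
  ∏ d ∈ Finset.range (E + 1), ∏ r ∈ (2 ^ d - 1).divisors.filter (fun r => r * 2 ^ d ≤ 2 ^ E),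
    (X ^ r - 1)

theorem P0_monic (E : ℕ) : (P0 E).Monic := by
  refine monic_prod_of_monic _ _ fun d _ => monic_prod_of_monic _ _ fun r hr => ?_
  exact monic_X_pow_sub_C 1 (Nat.pos_of_mem_divisors (Finset.mem_filter.1 hr).1).ne'

theorem P0_deg (j t : ℕ) (ht : ∀ m, m ≤ 2 ^ (2 * j) → m.divisors.card ≤ t) :
    (P0 (2 * j)).natDegree ≤ (2 * j + 1) * (t * 2 ^ j) := by
  refine (natDegree_prod_le _ _).trans ?_
  refine (Finset.sum_le_card_nsmul _ _ (t * 2 ^ j) fun d hd => ?_).trans (by simp)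
  refine (natDegree_prod_le _ _).trans ?_
  refine (Finset.sum_le_card_nsmul _ _ (2 ^ j) fun r hr => ?_).trans ?_
  · obtain ⟨h1, h2⟩ := Finset.mem_filter.1 hr
    refine le_trans (le_of_eq natDegree_X_pow_sub_C) ?_
    have h3 := Nat.divisor_le h1
    by_contra hc
    have : 2 ^ j * 2 ^ j < r * 2 ^ d := Nat.mul_lt_mul'' (not_le.1 hc)
      ((not_le.1 hc).trans_le (h3.trans (Nat.sub_le _ _)))
    rw [← pow_add, ← two_mul] at this
    omega
  · refine Nat.mul_le_mul_right _ ((Finset.card_filter_le _ _).trans (ht _ ?_))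
    exact (Nat.sub_le _ _).trans
      (Nat.pow_le_pow_right two_pos (show d ≤ 2 * j by simpa [Nat.lt_succ_iff] using hd))

theorem P0_kill {A : Type} [CommRing A] [Finite A] [Algebra (ZMod 2) A] (x : A) (m E : ℕ)
    (hm : 0 < m) (hx : x ^ m = 1) (h : Nat.card A * m ≤ 2 ^ E) : aeval x (P0 E ^ E) = 0 := by
  have hA : Nat.card A ≤ 2 ^ E := le_trans (Nat.le_mul_of_pos_right _ hm) h
  rw [map_pow]
  refine nilp_pow (nilpotent_iff_mem_prime.2 fun J hJ => ?_) hA
  haveI : Finite (A ⧸ J) := Finite.of_surjective _ Ideal.Quotient.mk_surjective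
  letI : Field (A ⧸ J) := (Finite.isField_of_domain _).toField
  have h1 : Nat.card (A ⧸ J) = 2 ^ Module.finrank (ZMod 2) (A ⧸ J) := by
    rw [Module.natCard_eq_pow_finrank (K := ZMod 2)]; simp
  have h2 : Nat.card (A ⧸ J) ≤ Nat.card A :=
    Nat.card_le_card_of_surjective _ Ideal.Quotient.mk_surjective
  generalize Module.finrank (ZMod 2) (A ⧸ J) = d at h1
  have hy : (Ideal.Quotient.mk J x) ^ m = 1 := by rw [← map_pow, hx, map_one]
  let u : (A ⧸ J)ˣ := Units.ofPowEqOne _ m hy hm.ne'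
  have hu : orderOf u ∣ m := orderOf_dvd_of_pow_eq_one (Units.ext (by simpa [u] using hy))
  have h3 : orderOf u ∣ 2 ^ d - 1 := by
    rw [← h1, ← Nat.card_units]; exact orderOf_dvd_natCard u
  have h4 : 1 < Nat.card (A ⧸ J) := Finite.one_lt_card
  have h5 : (X ^ orderOf u - 1 : (ZMod 2)[X]) ∣ P0 E := by
    refine Dvd.dvd.trans ?_ (Finset.dvd_prod_of_mem _ (a := d) ?_)
    · refine Finset.dvd_prod_of_mem (fun r => (X ^ r - 1 : (ZMod 2)[X])) ?_
      refine Finset.mem_filter.2 ⟨Nat.mem_divisors.2 ⟨h3, by omega⟩, le_trans ?_ h⟩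
      rw [mul_comm, ← h1]
      exact Nat.mul_le_mul h2 (Nat.le_of_dvd hm hu)
    · rw [Finset.mem_range, Nat.lt_succ_iff, ← Nat.pow_le_pow_iff_right (a := 2) (by norm_num)]
      omega
  refine J.mem_of_dvd (map_dvd (aeval x) h5) ?_
  rw [← Ideal.Quotient.eq_zero_iff_mem]
  have := congrArg Units.val (pow_orderOf_eq_one u)
  rw [Units.val_pow_eq_pow_val] at this
  simp only [map_sub, map_pow, aeval_X, map_one, sub_eq_zero]
  exact this

end Pool.Agent.H68.RF
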