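import Mathlib

set_option autoImplicit false

namespace Pool.Agent.H68.Amalg

variable {G : Type} [Group G]

inductive Alt (K : Bool → Subgroup G) (H : Subgroup G) : Bool → Bool → ℕ → G → Prop
  | one (b : Bool) (x : G) : x ∈ K b → x ∉ H → Alt K H b b 1 x
  | cons (b e : Bool) (n : ℕ) (x g : G) : x ∈ K b → x ∉ H → Alt K H (!b) e n g →
      Alt K H b e (n + 1) (x * g)

variable {K : Bool → Subgroup G} {H : Subgroup G}

theorem Alt.append {b e e' : Bool} {n m : ℕ} {g g' : G} (h : Alt K H b e n g)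
    (h' : Alt K H (!e) e' m g') : Alt K H b e' (n + m) (g * g') := by
  induction h with
  | one b x hx hx' => rw [add_comm]; exact Alt.cons b e' m x g' hx hx' h'
  | cons b e n x g hx hx' _ ih =>
    have := Alt.cons b e' _ x _ hx hx' (ih h')
    rw [mul_assoc, show n + 1 + m = n + m + 1 by ring]; exact this

theorem Alt.mul_left (hle : ∀ b, H ≤ K b) {b e : Bool} {n : ℕ} {g h : G} (hh : h ∈ H)
    (hg : Alt K H b e n g) : Alt K H b e n (h * g) := by
  cases hg with
  | one b x hx hx' =>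
    exact Alt.one _ _ ((K _).mul_mem (hle _ hh) hx) (fun h' => hx' ((H.mul_mem_cancel_left hh).1 h'))
  | cons b e n x g hx hx' hg =>
    rw [← mul_assoc]
    exact Alt.cons _ _ _ _ _ ((K _).mul_mem (hle _ hh) hx)
      (fun h' => hx' ((H.mul_mem_cancel_left hh).1 h')) hg

theorem Alt.mul_right (hle : ∀ b, H ≤ K b) {b e : Bool} {n : ℕ} {g h : G} (hh : h ∈ H)
    (hg : Alt K H b e n g) : Alt K H b e n (g * h) := by
  induction hg with
  | one b x hx hx' =>
    exact Alt.one _ _ ((K _).mul_mem hx (hle _ hh))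
      (fun h' => hx' ((H.mul_mem_cancel_right hh).1 h'))
  | cons b e n x g hx hx' _ ih =>
    rw [mul_assoc]; exact Alt.cons _ _ _ _ _ hx hx' ih

theorem Alt.pos {b e : Bool} {n : ℕ} {g : G} (hg : Alt K H b e n g) : 1 ≤ n := by
  cases hg <;> omega

theorem Alt.snoc {b e : Bool} {n : ℕ} {g : G} (hg : Alt K H b e n g) :
    (n = 1 ∧ b = e ∧ g ∈ K b ∧ g ∉ H) ∨
      ∃ g' y, y ∈ K e ∧ y ∉ H ∧ Alt K H b (!e) (n - 1) g' ∧ g = g' * y := by
  induction hg with
  | one b x hx hx' => exact Or.inl ⟨rfl, rfl, hx, hx'⟩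
  | cons b e n x g hx hx' hg ih =>
    right
    rcases ih with ⟨rfl, rfl, h1, h2⟩ | ⟨g', y, h1, h2, h3, rfl⟩
    · exact ⟨x, g, h1, h2, by simpa using Alt.one b x hx hx', rfl⟩
    · refine ⟨x * g', y, h1, h2, ?_, by rw [mul_assoc]⟩
      have h4 := Alt.cons _ _ _ _ _ hx hx' h3
      have h5 := hg.pos
      rwa [show n - 1 + 1 = n + 1 - 1 by omega] at h4

theorem Alt.not_fin (hK : ∀ b e n g, Alt K H b e n g → g ∉ H) {b : Bool} {n : ℕ} {g : G}
    (hg : Alt K H b (!b) n g) : ¬ IsOfFinOrder g := by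
  intro h
  obtain ⟨k, hk, h1⟩ := isOfFinOrder_iff_pow_eq_one.1 h
  have : ∀ k : ℕ, ∃ m, Alt K H b (!b) m (g ^ (k + 1)) := by
    intro k
    induction k with
    | zero => exact ⟨n, by simpa using hg⟩
    | succ k ih =>
      obtain ⟨m, hm⟩ := ih
      exact ⟨_, by rw [pow_succ]; exact hm.append (by simpa using hg)⟩
  obtain ⟨m, hm⟩ := this (k - 1)
  rw [show k - 1 + 1 = k by omega, h1] at hm
  exact hK _ _ _ _ hm H.one_mem

theorem fin_conj {g : G} (a : G) (h : IsOfFinOrder g) : IsOfFinOrder (a⁻¹ * g * a) := by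
  have := (MulAut.conj a⁻¹).toMonoidHom.isOfFinOrder h
  simpa using this

theorem sandwich (hK : ∀ b e n g, Alt K H b e n g → g ∉ H) {b : Bool} {n : ℕ} {a w c : G}
    (ha : a ∈ K b) (hc : c ∈ K b) (hw : Alt K H (!b) (!b) n w) (h : IsOfFinOrder (a * w * c)) :
    c * a ∈ H := by
  by_contra hca
  have h1 := fin_conj a h
  have h2 : a⁻¹ * (a * w * c) * a = w * (c * a) := by group
  rw [h2] at h1
  have h3 := hw.append (Alt.one (K := K) (H := H) (!!b) (c * a)
    (by simpa using (K b).mul_mem hc ha) hca)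
  exact h3.not_fin hK h1

theorem Alt.split {b : Bool} {n : ℕ} {g : G} (hg : Alt K H b b n g) (hn : 2 ≤ n) :
    ∃ a w c, a ∈ K b ∧ c ∈ K b ∧ Alt K H (!b) (!b) (n - 2) w ∧ g = a * w * c := by
  cases hg with
  | one b x hx hx' => omega
  | cons b e n x g hx hx' hg =>
    rcases hg.snoc with ⟨_, h, _⟩ | ⟨g', y, h1, _, h3, rfl⟩
    · simp at h
    · exact ⟨x, g', y, hx, h1, by rwa [show n + 1 - 2 = n - 1 by omega], by rw [mul_assoc]⟩

theorem exists_alt (hle : ∀ b, H ≤ K b) (hgen : K false ⊔ K true = ⊤) (g : G) :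
    g ∈ H ∨ ∃ b e n, Alt K H b e n g := by
  have step : ∀ b x, x ∈ K b → ∀ g, (g ∈ H ∨ ∃ b e n, Alt K H b e n g) →
      (x * g ∈ H ∨ ∃ b e n, Alt K H b e n (x * g)) := by
    intro b x hx g hg
    have hKb : ∀ y ∈ K b, y ∈ H ∨ ∃ b e n, Alt K H b e n y := fun y hy => by
      by_cases h : y ∈ H
      · exact Or.inl h
      · exact Or.inr ⟨_, _, _, Alt.one b y hy h⟩
    rcases hg with hg | ⟨b', e, n, hg⟩
    · exact hKb _ ((K b).mul_mem hx (hle b hg))
    by_cases hxH : x ∈ H
    · exact Or.inr ⟨_, _, _, hg.mul_left hle hxH⟩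
    by_cases hb : b' = b
    · subst hb
      cases hg with
      | one b y hy hy' => exact hKb _ ((K _).mul_mem hx hy)
      | cons b e n y g hy hy' hg =>
        rw [← mul_assoc]
        by_cases hxy : x * y ∈ H
        · exact Or.inr ⟨_, _, _, hg.mul_left hle hxy⟩
        · exact Or.inr ⟨_, _, _, Alt.cons _ _ _ _ _ ((K _).mul_mem hx hy) hxy hg⟩
    · have : b' = !b := by cases b <;> cases b' <;> simp_all
      subst this
      exact Or.inr ⟨_, _, _, Alt.cons _ _ _ _ _ hx hxH hg⟩
  have hg : g ∈ Subgroup.closure ((K false : Set G) ∪ K true) := by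
    rw [Subgroup.closure_union, Subgroup.closure_eq, Subgroup.closure_eq, hgen]; trivial
  induction hg using Subgroup.closure_induction_left with
  | one => exact Or.inl H.one_mem
  | mul_left x hx y _ ih =>
    rcases hx with hx | hx
    · exact step _ x hx y ih
    · exact step _ x hx y ih
  | inv_mul_cancel x hx y _ ih =>
    rcases hx with hx | hx
    · exact step _ _ ((K _).inv_mem hx) y ih
    · exact step _ _ ((K _).inv_mem hx) y ih

theorem serre_aux (hle : ∀ b, H ≤ K b) (hK : ∀ b e n g, Alt K H b e n g → g ∉ H)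
    {ι : Type} (N : ℕ) : ∀ s : ι → G, (∀ i, IsOfFinOrder (s i)) →
      (∀ i j, IsOfFinOrder (s i * s j)) → Subgroup.closure (Set.range s) = ⊤ →
      (∀ i, s i ∈ H ∨ ∃ b e n, n ≤ N ∧ Alt K H b e n (s i)) → ∃ b, K b = ⊤ := by
  induction N using Nat.strong_induction_on with
  | _ N ih =>
  intro s h1 h2 hgen hrep
  have hbe : ∀ {i b e n}, Alt K H b e n (s i) → e = b := by
    intro i b e n h
    by_contra hne
    have : e = !b := by cases b <;> cases e <;> simp_all
    subst this
    exact h.not_fin hK (h1 i)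
  have hbb : ∀ {i j b b' n n'}, Alt K H b b n (s i) → Alt K H b' b' n' (s j) → b' = b := by
    intro i j b b' n n' h h'
    by_contra hne
    have : b' = !b := by cases b <;> cases b' <;> simp_all
    subst this
    exact (h.append h').not_fin hK (h2 i j)
  have hone : ∀ {j b}, Alt K H b b 1 (s j) → s j ∈ K b := by
    intro j b h
    rcases h.snoc with ⟨_, _, h, _⟩ | ⟨_, _, _, _, h, _⟩
    · exact h
    · have := h.pos; omega
  by_cases hex : ∃ i b n, 2 ≤ n ∧ n ≤ N ∧ Alt K H b b n (s i)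
  · obtain ⟨i, b, n, hn, hnN, hi⟩ := hex
    obtain ⟨a, w, c, ha, hc, hw, hs⟩ := hi.split hn
    have hca := sandwich hK ha hc hw (hs ▸ h1 i)
    apply ih (N - 1) (by omega) (fun j => a⁻¹ * s j * a) (fun j => fin_conj a (h1 j))
    · intro j k
      have := fin_conj a (h2 j k)
      convert this using 1; group
    · have : Set.range (fun j => a⁻¹ * s j * a) =
          (MulAut.conj a⁻¹).toMonoidHom '' Set.range s := by
        rw [← Set.range_comp]; congr 1; funext j; simp
      rw [this, ← MonoidHom.map_closure, hgen]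
      exact Subgroup.map_top_of_surjective _ (MulAut.conj a⁻¹).surjective
    · intro j
      have hKb : s j ∈ K b → a⁻¹ * s j * a ∈ H ∨
          ∃ b e n, n ≤ N - 1 ∧ Alt K H b e n (a⁻¹ * s j * a) := fun hy => by
        by_cases h : a⁻¹ * s j * a ∈ H
        · exact Or.inl h
        · exact Or.inr ⟨_, _, 1, by omega, Alt.one b _
            ((K b).mul_mem ((K b).mul_mem ((K b).inv_mem ha) hy) ha) h⟩
      rcases hrep j with hj | ⟨b', e, m, hm, hj⟩
      · exact hKb (hle b hj)
      obtain rfl := hbe hj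
      obtain rfl := hbb hi hj
      by_cases hm2 : 2 ≤ m
      · obtain ⟨a', w', c', ha', hc', hw', hs'⟩ := hj.split hm2
        have hca' := sandwich hK ha' hc' hw' (hs' ▸ h1 j)
        have haa : a⁻¹ * a' ∈ H := by
          by_cases h : c * a' ∈ H
          · have := H.mul_mem (H.inv_mem hca) h
            convert this using 1; group
          · have h3 := hw.append (Alt.cons (K := K) (H := H) (!!e) _ _ (c * a') w'
              (by simpa using (K e).mul_mem hc ha') h (by simpa using hw'))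
            have h4 := sandwich hK ha hc' h3 (by
              have := h2 i j
              rw [hs, hs'] at this
              convert this using 1; group)
            have := H.mul_mem (H.inv_mem h4) hca'
            convert this using 1; group
        refine Or.inr ⟨!e, !e, m - 2, by omega, ?_⟩
        have h5 := (hw'.mul_left hle haa).mul_right hle (H.mul_mem hca' (H.inv_mem haa))
        convert h5 using 1
        rw [hs']; group
      · have := hj.pos
        obtain rfl : m = 1 := by omega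
        exact hKb (hone hj)
  · have hall : ∀ j, s j ∈ H ∨ ∃ b, Alt K H b b 1 (s j) := by
      intro j
      rcases hrep j with hj | ⟨b', e, m, hm, hj⟩
      · exact Or.inl hj
      obtain rfl := hbe hj
      have := hj.pos
      by_cases hm2 : 2 ≤ m
      · exact absurd ⟨j, _, m, hm2, hm, hj⟩ hex
      · obtain rfl : m = 1 := by omega
        exact Or.inr ⟨_, hj⟩
    have : ∃ b, ∀ j, s j ∈ K b := by
      by_cases h : ∃ i b, Alt K H b b 1 (s i)
      · obtain ⟨i, b, hi⟩ := h
        refine ⟨b, fun j => ?_⟩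
        rcases hall j with hj | ⟨b', hj⟩
        · exact hle b hj
        · obtain rfl := hbb hi hj
          exact hone hj
      · refine ⟨true, fun j => ?_⟩
        rcases hall j with hj | ⟨b', hj⟩
        · exact hle _ hj
        · exact absurd ⟨j, b', hj⟩ h
    obtain ⟨b, hb⟩ := this
    refine ⟨b, top_le_iff.1 ?_⟩
    rw [← hgen, Subgroup.closure_le]
    rintro _ ⟨j, rfl⟩
    exact hb j

/-- Serre's lemma in amalgam form. -/
theorem serre (hle : ∀ b, H ≤ K b) (hK : ∀ b e n g, Alt K H b e n g → g ∉ H)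
    (hgen : K false ⊔ K true = ⊤) {ι : Type} [Finite ι] (s : ι → G)
    (h1 : ∀ i, IsOfFinOrder (s i)) (h2 : ∀ i j, IsOfFinOrder (s i * s j))
    (h3 : Subgroup.closure (Set.range s) = ⊤) : ∃ b, K b = ⊤ ∧ K (!b) ≤ H := by
  have hrep : ∀ i, ∃ N, s i ∈ H ∨ ∃ b e n, n ≤ N ∧ Alt K H b e n (s i) := by
    intro i
    rcases exists_alt hle hgen (s i) with h | ⟨b, e, n, h⟩
    · exact ⟨0, Or.inl h⟩
    · exact ⟨n, Or.inr ⟨b, e, n, le_rfl, h⟩⟩
  choose N hN using hrep
  obtain ⟨M, hM⟩ := (Set.finite_range N).bddAbove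
  obtain ⟨b, hb⟩ := serre_aux hle hK M s h1 h2 h3 (fun i => by
    rcases hN i with h | ⟨b, e, n, hn, h⟩
    · exact Or.inl h
    · exact Or.inr ⟨b, e, n, hn.trans (hM ⟨i, rfl⟩), h⟩)
  refine ⟨b, hb, fun x hx => ?_⟩
  by_contra hxH
  have h4 := Alt.cons (K := K) (H := H) b _ _ x⁻¹ x (by rw [hb]; trivial)
    (fun h => hxH (H.inv_mem_iff.1 h)) (Alt.one _ x hx hxH)
  exact hK _ _ _ _ h4 (by simp)

open Monoid in
/-- Serre's lemma for `PushoutI`. -/
theorem serre_pushout {A : Bool → Type} [∀ i, Group (A i)] {C : Type} [Group C]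
    (f : ∀ i, C →* A i) (hf : ∀ i, Function.Injective (f i)) (e : PushoutI f ≃* G)
    {ι : Type} [Finite ι] (s : ι → G)
    (h1 : ∀ i, IsOfFinOrder (s i)) (h2 : ∀ i j, IsOfFinOrder (s i * s j))
    (h3 : Subgroup.closure (Set.range s) = ⊤) :
    ∃ b, (∀ g : G, ∃ k : A b, e (PushoutI.of (φ := f) b k) = g) ∧
      Function.Surjective (f (!b)) := by
  let K : Bool → Subgroup G := fun b => (e.toMonoidHom.comp (PushoutI.of (φ := f) b)).range
  let H : Subgroup G := (e.toMonoidHom.comp (PushoutI.base f)).range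
  have hle : ∀ b, H ≤ K b := by
    rintro b _ ⟨c, rfl⟩
    exact ⟨f b c, by simp [PushoutI.of_apply_eq_base]⟩
  have hnot : ∀ b (k : A b), e (PushoutI.of (φ := f) b k) ∉ H → k ∉ (f b).range := by
    rintro b _ h ⟨c, rfl⟩
    exact h ⟨c, by simp [PushoutI.of_apply_eq_base]⟩
  have hword : ∀ b e' n g, Alt K H b e' n g → ∃ w : CoprodI.Word A, PushoutI.Reduced f w ∧
      w.fstIdx = some b ∧ e (PushoutI.ofCoprodI w.prod) = g := by
    intro b e' n g h
    induction h with
    | one b x hx hx' =>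
      obtain ⟨k, rfl⟩ := hx
      have hk := hnot b k hx'
      have he : (CoprodI.Word.empty : CoprodI.Word A).fstIdx ≠ some b := by
        simp [CoprodI.Word.fstIdx, CoprodI.Word.empty]
      refine ⟨CoprodI.Word.cons k CoprodI.Word.empty he (fun h => hk (h ▸ (f b).range.one_mem)),
        ?_, CoprodI.Word.fstIdx_cons _ _ _ _, ?_⟩
      · intro g hg
        have hg' : g ∈ [(⟨b, k⟩ : Σ i, A i)] := hg
        rw [List.mem_singleton] at hg'
        subst hg'; exact hk
      · rw [CoprodI.Word.prod_cons]; simp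
    | cons b e' n x g hx hx' _ ih =>
      obtain ⟨k, rfl⟩ := hx
      have hk := hnot b k hx'
      obtain ⟨w, hw1, hw2, hw3⟩ := ih
      refine ⟨CoprodI.Word.cons k w (by rw [hw2]; cases b <;> simp)
        (fun h => hk (h ▸ (f b).range.one_mem)), ?_, by simp, by simp [hw3]⟩
      intro g hg
      simp only [CoprodI.Word.cons_toList, List.mem_cons] at hg
      rcases hg with rfl | hg
      · exact hk
      · exact hw1 g hg
  have hK : ∀ b e' n g, Alt K H b e' n g → g ∉ H := by
    rintro b e' n g h ⟨c, hc⟩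
    obtain ⟨w, hw1, hw2, hw3⟩ := hword b e' n g h
    have := hw1.eq_empty_of_mem_range hf ⟨c, e.injective (by rw [hw3]; exact hc)⟩
    rw [this] at hw2
    simp [CoprodI.Word.fstIdx, CoprodI.Word.empty] at hw2
  have hgen : K false ⊔ K true = ⊤ := by
    rw [eq_top_iff]
    intro g _
    obtain ⟨x, rfl⟩ := e.surjective g
    induction x using PushoutI.induction_on with
    | of i g =>
      cases i
      · exact Subgroup.mem_sup_left ⟨g, rfl⟩
      · exact Subgroup.mem_sup_right ⟨g, rfl⟩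
    | base h => exact Subgroup.mem_sup_left (hle false ⟨h, rfl⟩)
    | mul x y hx hy => rw [map_mul]; exact Subgroup.mul_mem _ (hx trivial) (hy trivial)
  obtain ⟨b, hb1, hb2⟩ := serre hle hK hgen s h1 h2 h3
  refine ⟨b, fun g => ?_, fun k => ?_⟩
  · have : g ∈ K b := by rw [hb1]; trivial
    exact this
  · obtain ⟨c, hc⟩ := hb2 (⟨k, rfl⟩ : e (PushoutI.of (φ := f) (!b) k) ∈ K (!b))
    refine ⟨c, PushoutI.of_injective hf (!b) (e.injective ?_)⟩
    rw [PushoutI.of_apply_eq_base]; exact hc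

/-- A group generated by elements of finite order is not an HNN extension. -/
theorem no_hnn {A : Type} [Group A] {B₁ B₂ : Subgroup A} {φ : B₁ ≃* B₂}
    (e : HNNExtension A B₁ B₂ φ ≃* G) {ι : Type} (s : ι → G)
    (h1 : ∀ i, IsOfFinOrder (s i)) (h3 : Subgroup.closure (Set.range s) = ⊤) : False := by
  let χ : HNNExtension A B₁ B₂ φ →* Multiplicative ℤ :=
    HNNExtension.lift 1 (Multiplicative.ofAdd 1) (by simp)
  let ψ : G →* Multiplicative ℤ := χ.comp e.symm.toMonoidHom
  have hψ : ψ = 1 := by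
    apply MonoidHom.eq_of_eqOn_dense h3
    rintro _ ⟨i, rfl⟩
    have := ψ.isOfFinOrder (h1 i)
    simpa using (isOfFinOrder_iff_eq_one _).1 this
  have : ψ (e HNNExtension.t) = Multiplicative.ofAdd 1 := by simp [ψ, χ]
  rw [hψ] at this
  exact absurd (show (1 : Multiplicative ℤ) = Multiplicative.ofAdd 1 from this) (by decide)

end Pool.Agent.H68.Amalg
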