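import Mathlib

set_option autoImplicit false

namespace Pool.Agent.H68.Auto

variable {G : Type} [Group G]

/-- The group element represented by a word over `A`. -/
def ev {A : Finset G} (w : List A) : G := (w.map Subtype.val).prod

/-- The synchronous padded pair of two words (`none` is the padding symbol). -/
def pad {α : Type} (u v : List α) : List (Option α × Option α) := List.zipWithAll Prod.mk u v

/-- The padded pairs `(u, v)` of words of `L` with `ev u * x = ev v`. -/
def mult {A : Finset G} (L : Language A) (x : G) : Language (Option A × Option A) :=
  {p | ∃ u ∈ L, ∃ v ∈ L, ev u * x = ev v ∧ p = pad u v}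

/-- `L` is the language of an automatic structure on `G` over `A`. -/
def IsAutomatic (A : Finset G) (L : Language A) : Prop :=
  L.IsRegular ∧ (∀ g : G, ∃ w ∈ L, ev w = g) ∧ (mult L 1).IsRegular ∧
    ∀ a ∈ A, (mult L a).IsRegular

/-- `w` is a shortest word for the element it represents. -/
def IsGeodesic {A : Finset G} (w : List A) : Prop :=
  ∀ w' : List A, ev w' = ev w → w.length ≤ w'.length

/-- The words that are ShortLex-least among the words representing the same element. -/
def shortLex (A : Finset G) (o : LinearOrder A) : Language A :=
  {w | ∀ w' : List A, ev w' = ev w → w' ≠ w → List.Shortlex o.lt w w'}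

end Pool.Agent.H68.Auto
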