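import Mathlib
import Pool.Agent.H68.AutoDefs

set_option autoImplicit false

namespace Pool.Agent.H68.Auto

variable {G : Type} [Group G] {A : Finset G}

theorem ev_nil : ev ([] : List A) = 1 := rfl
theorem ev_cons (a : A) (w : List A) : ev (a :: w) = a * ev w := by simp [ev]
theorem ev_append (u v : List A) : ev (u ++ v) = ev u * ev v := by simp [ev]

section pad
variable {α : Type}

theorem pad_nil_nil : pad ([] : List α) [] = [] := rfl
theorem pad_cons_cons (a b : α) (u v : List α) :
    pad (a :: u) (b :: v) = (some a, some b) :: pad u v := rfl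
theorem pad_cons_nil (a : α) (u : List α) : pad (a :: u) [] = (some a, none) :: pad u [] := by
  simp [pad]
theorem pad_nil_cons (b : α) (v : List α) : pad [] (b :: v) = (none, some b) :: pad [] v := by
  simp [pad]

theorem pad_append (u0 v0 u v : List α) (r : List (Option α × Option α)) :
    pad u0 v0 ++ r = pad u v ↔ ∃ u' v', u = u0 ++ u' ∧ v = v0 ++ v' ∧
      (u0.length < v0.length → u' = []) ∧ (v0.length < u0.length → v' = []) ∧ r = pad u' v' := by
  induction u0 generalizing v0 u v with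
  | nil =>
    induction v0 generalizing u v with
    | nil => simp [pad_nil_nil]
    | cons b v0 ih =>
      rcases u with _ | ⟨c, u⟩ <;> rcases v with _ | ⟨d, v⟩
      · simp [pad_nil_cons, pad_nil_nil]
      · simp only [pad_nil_cons, List.cons_append, List.cons.injEq, ih, List.nil_append,
          Prod.mk.injEq, Option.some.injEq, true_and]
        constructor
        · rintro ⟨rfl, u', v', rfl, rfl, -, -, rfl⟩
          exact ⟨[], v', rfl, ⟨rfl, rfl⟩, fun _ => rfl, by simp, rfl⟩
        · rintro ⟨u', v', rfl, ⟨rfl, rfl⟩, -, -, rfl⟩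
          exact ⟨rfl, [], v', rfl, rfl, fun _ => rfl, by simp, rfl⟩
      · simp [pad_nil_cons, pad_cons_nil]
      · simp [pad_nil_cons, pad_cons_cons]
  | cons a u0 ih =>
    rcases v0 with _ | ⟨b, v0⟩ <;> rcases u with _ | ⟨c, u⟩ <;> rcases v with _ | ⟨d, v⟩
    · simp [pad_cons_nil, pad_nil_nil]
    · simp [pad_cons_nil, pad_nil_cons]
    · simp only [pad_cons_nil, List.cons_append, List.cons.injEq, ih, List.nil_append,
          Prod.mk.injEq, Option.some.injEq, and_true]
      constructor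
      · rintro ⟨rfl, u', v', rfl, rfl, -, -, rfl⟩
        exact ⟨u', [], ⟨rfl, rfl⟩, rfl, by simp, fun _ => rfl, rfl⟩
      · rintro ⟨u', v', ⟨rfl, rfl⟩, rfl, -, -, rfl⟩
        exact ⟨rfl, u', [], rfl, rfl, by simp, fun _ => rfl, rfl⟩
    · simp [pad_cons_nil, pad_cons_cons]
    · simp [pad_cons_cons, pad_nil_nil]
    · simp [pad_cons_cons, pad_nil_cons]
    · simp [pad_cons_cons, pad_cons_nil]
    · simp only [pad_cons_cons, List.cons_append, List.cons.injEq, ih, List.length_cons,
        Nat.add_lt_add_iff_right, Prod.mk.injEq, Option.some.injEq]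
      constructor
      · rintro ⟨⟨rfl, rfl⟩, u', v', h⟩
        exact ⟨u', v', by tauto⟩
      · rintro ⟨u', v', ⟨rfl, h1⟩, ⟨rfl, h2⟩, h⟩
        exact ⟨⟨rfl, rfl⟩, u', v', h1, h2, h⟩

theorem pad_take (t : ℕ) (u v : List α) : (pad u v).take t = pad (u.take t) (v.take t) := by
  induction t generalizing u v with
  | zero => simp [pad_nil_nil]
  | succ t ih =>
    rcases u with _ | ⟨c, u⟩ <;> rcases v with _ | ⟨d, v⟩
    · simp [pad_nil_nil]
    · simp [pad_nil_cons, ih]
    · simp [pad_cons_nil, ih]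
    · simp [pad_cons_cons, ih]

theorem pad_len (u v : List α) : (pad u v).length = max u.length v.length := by
  induction u generalizing v with
  | nil => simp [pad]
  | cons a u ih => cases v <;> simp [pad_cons_nil, pad_cons_cons, ih]

end pad

theorem mult_regular {L : Language A} (hL : L.IsRegular) (x : G) (D : Set G) (hD : D.Finite)
    (h : ∀ u ∈ L, ∀ v ∈ L, ev u * x = ev v → ∀ t, (ev (u.take t))⁻¹ * ev (v.take t) ∈ D) :
    (mult L x).IsRegular := by
  apply Language.IsRegular.of_finite_range_leftQuotient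
  let Φ : Language A × Language A × G × Prop × Prop → Language (Option A × Option A) := fun q =>
    {r | ∃ u' ∈ q.1, ∃ v' ∈ q.2.1, (q.2.2.2.1 → u' = []) ∧ (q.2.2.2.2 → v' = []) ∧
      ev u' * x = q.2.2.1 * ev v' ∧ r = pad u' v'}
  have hf := hL.finite_range_leftQuotient
  refine (((hf.prod (hf.prod (hD.prod (Set.finite_univ (α := Prop × Prop))))).image Φ).insert
    0).subset ?_
  rintro _ ⟨p, rfl⟩
  by_cases hp : ∃ r, r ∈ (mult L x).leftQuotient p
  · obtain ⟨r, u, hu, v, hv, e1, e2⟩ := hp
    have e3 : p = pad (u.take p.length) (v.take p.length) := by rw [← pad_take, ← e2]; simp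
    have hd := h u hu v hv e1 p.length
    generalize u.take p.length = u0 at e3 hd
    generalize v.take p.length = v0 at e3 hd
    refine Or.inr ⟨(L.leftQuotient u0, L.leftQuotient v0, (ev u0)⁻¹ * ev v0,
      u0.length < v0.length, v0.length < u0.length), ⟨⟨_, rfl⟩, ⟨_, rfl⟩, hd, trivial⟩, ?_⟩
    ext r
    rw [e3]
    constructor
    · rintro ⟨u', hu', v', hv', a, b, c, d⟩
      refine ⟨u0 ++ u', hu', v0 ++ v', hv', ?_, (pad_append _ _ _ _ _).2 ⟨u', v', rfl, rfl, a, b, d⟩⟩
      rw [ev_append, ev_append, mul_assoc, c]; group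
    · rintro ⟨u, hu, v, hv, c, d⟩
      obtain ⟨u', v', rfl, rfl, a, b, d⟩ := (pad_append _ _ _ _ _).1 d
      refine ⟨u', hu, v', hv, a, b, ?_, d⟩
      rw [ev_append, ev_append, mul_assoc] at c
      rw [mul_assoc, ← c]; group
  · left
    ext r
    exact ⟨fun h => (hp ⟨r, h⟩).elim, fun h => h.elim⟩

theorem fellow {L : Language A} {x : G} (h : (mult L x).IsRegular) : ∃ B : ℕ,
    ∀ u ∈ L, ∀ v ∈ L, ev u * x = ev v → ∀ t, ∃ u' v' : List A, u'.length ≤ B ∧ v'.length ≤ B ∧
      ev (u.take t) * ev u' * x = ev (v.take t) * ev v' := by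
  classical
  let c : Language (Option A × Option A) → ℕ := fun Q =>
    if hQ : ∃ r, r ∈ Q then hQ.choose.length else 0
  obtain ⟨B, hB⟩ := (h.finite_range_leftQuotient.image c).bddAbove
  refine ⟨B, fun u hu v hv e t => ?_⟩
  have hQ : ∃ r, r ∈ (mult L x).leftQuotient (pad (u.take t) (v.take t)) :=
    ⟨(pad u v).drop t, u, hu, v, hv, e, by rw [← pad_take]; simp⟩
  have h1 : c _ ≤ B := hB ⟨_, ⟨pad (u.take t) (v.take t), rfl⟩, rfl⟩
  simp only [c, dif_pos hQ] at h1
  obtain ⟨u1, -, v1, -, e1, e2⟩ := hQ.choose_spec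
  obtain ⟨u', v', rfl, rfl, -, -, d⟩ := (pad_append _ _ _ _ _).1 e2
  rw [d, pad_len] at h1
  exact ⟨u', v', by omega, by omega, by rwa [ev_append, ev_append] at e1⟩

end Pool.Agent.H68.Auto
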