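import Mathlib

set_option autoImplicit false

namespace Pool.Agent.H68.BSStab

open Equiv

section Ham
variable {X : Type} [Fintype X] [DecidableEq X]

def d (s t : Perm X) : ℕ := (Finset.univ.filter (fun i => s i ≠ t i)).card

theorem d_tri (s t u : Perm X) : d s u ≤ d s t + d t u := by
  unfold d
  refine le_trans (Finset.card_le_card ?_) (Finset.card_union_le _ _)
  intro i
  simp only [Finset.mem_filter, Finset.mem_univ, true_and, Finset.mem_union]
  intro h
  by_contra h'
  push Not at h'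
  exact h (h'.1.trans h'.2)

theorem d_symm (s t : Perm X) : d s t = d t s := by
  unfold d; congr 1; ext i; simp [ne_comm]

theorem d_left (u s t : Perm X) : d (u * s) (u * t) = d s t := by
  unfold d; congr 1; ext i; simp

theorem d_right (u s t : Perm X) : d (s * u) (t * u) = d s t := by
  unfold d
  apply Finset.card_bij (fun i _ => u i)
  · intro i hi
    exact Finset.mem_filter.2 ⟨Finset.mem_univ _, (Finset.mem_filter.1 hi).2⟩
  · intro i _ j _ h; exact u.injective h
  · intro j hj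
    refine ⟨u.symm j, Finset.mem_filter.2 ⟨Finset.mem_univ _, ?_⟩, by simp⟩
    simpa using (Finset.mem_filter.1 hj).2

theorem d_mul (s s' t t' : Perm X) : d (s * t) (s' * t') ≤ d s s' + d t t' := by
  have h := d_tri (s * t) (s' * t) (s' * t')
  rwa [d_right, d_left] at h

theorem d_inv (s t : Perm X) : d s⁻¹ t⁻¹ = d s t := by
  have h1 := d_left s s⁻¹ t⁻¹
  have h2 := d_right t (s * s⁻¹) (s * t⁻¹)
  rw [← h1, ← h2, d_symm]; congr 1 <;> group

theorem d_pow (s t : Perm X) (n : ℕ) : d (s ^ n) (t ^ n) ≤ n * d s t := by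
  induction n with
  | zero => simp [d]
  | succ n ih =>
    rw [pow_succ, pow_succ]
    have := d_mul (s ^ n) (t ^ n) s t
    nlinarith

theorem d_congr {Y : Type} [Fintype Y] [DecidableEq Y] (e : X ≃ Y) (s t : Perm X) :
    d (e.permCongr s) (e.permCongr t) = d s t := by
  unfold d
  symm
  apply Finset.card_bij (fun i _ => e i)
  · intro i hi; simpa using hi
  · intro i _ j _ h; exact e.injective h
  · intro j hj; exact ⟨e.symm j, by simpa using hj, by simp⟩

end Ham

def W {G : Type} [Group G] (c r : G) : G := c * (r⁻¹ * c * r) * c⁻¹ * (r⁻¹ * c * r)⁻¹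

theorem d_W {X : Type} [Fintype X] [DecidableEq X] (c r c' r' : Perm X) :
    d (W c r) (W c' r') ≤ 4 * d c c' + 4 * d r r' := by
  have h1 : d (r⁻¹ * c * r) (r'⁻¹ * c' * r') ≤ d c c' + 2 * d r r' := by
    have a1 := d_mul (r⁻¹ * c) (r'⁻¹ * c') r r'
    have a2 := d_mul r⁻¹ r'⁻¹ c c'
    rw [d_inv] at a2; omega
  have a1 := d_mul (c * (r⁻¹ * c * r) * c⁻¹) (c' * (r'⁻¹ * c' * r') * c'⁻¹) (r⁻¹ * c * r)⁻¹
    (r'⁻¹ * c' * r')⁻¹
  have a2 := d_mul (c * (r⁻¹ * c * r)) (c' * (r'⁻¹ * c' * r')) c⁻¹ c'⁻¹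
  have a3 := d_mul c c' (r⁻¹ * c * r) (r'⁻¹ * c' * r')
  rw [d_inv] at a1 a2
  unfold W; omega

theorem W_exact {G : Type} [Group G] [Finite G] (n : ℕ) (a b c : G) (h1 : b⁻¹ * a * b = a ^ n)
    (h2 : a⁻¹ * c * a = c ^ n) : W c (b * a * b⁻¹) = 1 := by
  set r := b * a * b⁻¹ with hr
  have hra : r ^ n = a := by
    rw [hr, conj_pow, ← h1]; group
  have hle : Subgroup.zpowers a ≤ Subgroup.zpowers r := by
    rw [Subgroup.zpowers_le, ← hra]; exact Subgroup.npow_mem_zpowers r n
  have hord : orderOf r = orderOf a := by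
    have := (MulAut.conj b).orderOf_eq a
    simpa [hr] using this
  have heq : Subgroup.zpowers a = Subgroup.zpowers r :=
    Subgroup.eq_of_le_of_card_ge hle (by rw [Nat.card_zpowers, Nat.card_zpowers, hord])
  have hm : r ∈ Submonoid.powers a := by
    rw [mem_powers_iff_mem_zpowers, heq]; exact Subgroup.mem_zpowers r
  obtain ⟨k, hk⟩ := hm
  have hc : ∀ k : ℕ, (a ^ k)⁻¹ * c * a ^ k = c ^ (n ^ k) := by
    intro k
    induction k with
    | zero => simp
    | succ k ih =>
      have : (a ^ (k + 1))⁻¹ * c * a ^ (k + 1) = a⁻¹ * ((a ^ k)⁻¹ * c * a ^ k) * a⁻¹⁻¹ := by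
        rw [pow_succ]; group
      rw [this, ih, ← conj_pow, inv_inv, h2, ← pow_mul, pow_succ, mul_comm]
  simp only at hk
  unfold W
  rw [← hk, hc]; group

section Model
variable (p L : ℕ) [NeZero p] [NeZero L]

abbrev X := (ZMod p × ZMod p) × ZMod L

def cc (α β : ZMod L → ZMod p) : Perm (X p L) where
  toFun x := ((x.1.1 + α x.2, x.1.2 + β x.2 * x.1.1), x.2)
  invFun x := ((x.1.1 - α x.2, x.1.2 - β x.2 * (x.1.1 - α x.2)), x.2)
  left_inv x := by simp
  right_inv x := by simp

def lift (s : Perm (ZMod L)) : Perm (X p L) := Equiv.prodCongr (Equiv.refl _) s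

theorem cc_pow (α β : ZMod L → ZMod p) (h : ∀ k, α k * β k = 0) (n : ℕ) :
    cc p L α β ^ n = cc p L (fun k => n * α k) (fun k => n * β k) := by
  induction n with
  | zero => ext x <;> simp [cc]
  | succ n ih =>
    rw [pow_succ, ih]
    ext x
    · simp [cc]; ring
    · simp only [cc, Perm.coe_mul, Equiv.coe_fn_mk, Function.comp_apply]
      push_cast
      linear_combination (n : ZMod p) * h x.2
    · simp [cc]

theorem cc_conj (α β : ZMod L → ZMod p) (s : Perm (ZMod L)) :
    (lift p L s)⁻¹ * cc p L α β * lift p L s = cc p L (fun k => α (s k)) (fun k => β (s k)) := by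
  rw [mul_assoc, inv_mul_eq_iff_eq_mul]
  ext x <;> simp [cc, lift]

theorem d_lift (s t : Perm (ZMod L)) : d (lift p L s) (lift p L t) = p * p * d s t := by
  unfold d
  have : (Finset.univ.filter (fun i : X p L => lift p L s i ≠ lift p L t i)) =
      (Finset.univ : Finset (ZMod p × ZMod p)) ×ˢ (Finset.univ.filter (fun i => s i ≠ t i)) := by
    ext x; simp [lift, Prod.ext_iff]
  rw [this, Finset.card_product]; simp [ZMod.card]

theorem lift_mul (s t : Perm (ZMod L)) : lift p L (s * t) = lift p L s * lift p L t := by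
  ext x <;> simp [lift]

theorem lift_pow (s : Perm (ZMod L)) (n : ℕ) : lift p L (s ^ n) = lift p L s ^ n := by
  induction n with
  | zero => ext x <;> simp [lift]
  | succ n ih => rw [pow_succ, pow_succ, lift_mul, ih]

end Model

theorem model (n p M : ℕ) (hn : 2 ≤ n) [hp : Fact p.Prime] (hpn : n < p) (hM : 0 < M)
    (hdiv : (p - 1) ∣ M) [NeZero (n * M)] :
    ∃ ρ b c : Perm (X p (n * M)), (ρ ^ n)⁻¹ * c * ρ ^ n = c ^ n ∧
      d (b * ρ ^ n) (ρ * b) ≤ p * p * n ∧ p * p * M ≤ d (W c ρ) 1 := by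
  have hn0 : (n : ZMod p) ≠ 0 := by
    rw [Ne, ZMod.natCast_eq_zero_iff]
    exact Nat.not_dvd_of_pos_of_lt (by omega) hpn
  have hnM : (n : ZMod p) ^ M = 1 := by
    obtain ⟨t, rfl⟩ := hdiv
    rw [pow_mul, ZMod.pow_card_sub_one_eq_one hn0, one_pow]
  let sh : Perm (ZMod (n * M)) := Equiv.addRight 1
  have sh_pow : ∀ (j : ℕ) k, (sh ^ j) k = k + j := by
    intro j k
    induction j with
    | zero => simp
    | succ j ih => rw [pow_succ', Perm.mul_apply, ih]; simp [sh]; ring
  let α : ZMod (n * M) → ZMod p := fun k => if k.val % n = 0 then (n : ZMod p) ^ (k.val / n) else 0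
  let β : ZMod (n * M) → ZMod p := fun k => if k.val % n = 1 then (n : ZMod p) ^ (k.val / n) else 0
  have hαβ : ∀ k, α k * β k = 0 := by
    intro k; simp only [α, β]; split_ifs <;> simp; omega
  have hval : ∀ k : ZMod (n * M), ((k + (n : ℕ)).val % n = k.val % n) ∧
      (n : ZMod p) ^ ((k + (n : ℕ)).val / n) = n * (n : ZMod p) ^ (k.val / n) := by
    intro k
    have h0 : (k + (n : ℕ)).val = (k.val + n) % (n * M) := by
      rw [ZMod.val_add, ZMod.val_natCast]; simp
    rw [h0]
    refine ⟨by rw [Nat.mod_mul_right_mod]; simp, ?_⟩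
    rw [Nat.mod_mul_right_div_self, Nat.add_div_right _ (by omega), ← pow_succ']
    conv_rhs => rw [← Nat.mod_add_div (k.val / n + 1) M, pow_add, pow_mul, hnM, one_pow, mul_one]
  have hklt : ∀ k : ZMod (n * M), k.val / n < M := fun k =>
    Nat.div_lt_of_lt_mul (ZMod.val_lt k)
  have hblt : ∀ k : ZMod (n * M), k.val / n + M * (k.val % n) < n * M := by
    intro k
    have h1 := hklt k
    have h2 : k.val % n < n := Nat.mod_lt _ (by omega)
    nlinarith
  let b0 : ZMod (n * M) → ZMod (n * M) := fun k => ((k.val / n + M * (k.val % n) : ℕ) : ZMod (n * M))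
  have hb0 : Function.Injective b0 := by
    intro k k' h
    have h1 := congrArg ZMod.val h
    simp only [b0] at h1
    rw [ZMod.val_cast_of_lt (hblt k), ZMod.val_cast_of_lt (hblt k')] at h1
    have h2 := congrArg (· % M) h1
    have h3 := congrArg (· / M) h1
    simp only [Nat.add_mul_mod_self_left, Nat.mod_eq_of_lt (hklt k), Nat.mod_eq_of_lt (hklt k'),
      Nat.add_mul_div_left _ _ hM, Nat.div_eq_of_lt (hklt k), Nat.div_eq_of_lt (hklt k'),
      zero_add] at h2 h3
    apply ZMod.val_injective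
    rw [← Nat.div_add_mod k.val n, ← Nat.div_add_mod k'.val n, h2, h3]
  let b : Perm (ZMod (n * M)) := Equiv.ofBijective b0 (Finite.injective_iff_bijective.1 hb0)
  refine ⟨lift p _ sh, lift p _ b, cc p _ α β, ?_, ?_, ?_⟩
  · rw [← lift_pow, cc_conj, cc_pow _ _ _ _ hαβ]
    congr 1
    · funext k; simp only [sh_pow, α, (hval k).1, (hval k).2]; split_ifs <;> simp
    · funext k; simp only [sh_pow, β, (hval k).1, (hval k).2]; split_ifs <;> simp
  · rw [← lift_pow, ← lift_mul, ← lift_mul, d_lift]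
    apply Nat.mul_le_mul_left
    unfold d
    have : (Finset.univ.filter (fun i => (b * sh ^ n) i ≠ (sh * b) i)).card ≤
        (Finset.Ico (n * M - n) (n * M)).card := by
      apply Finset.card_le_card_of_injOn ZMod.val
      · intro k hk
        simp only [Finset.coe_filter, Finset.mem_univ, true_and, Set.mem_setOf_eq] at hk
        simp only [Finset.coe_Ico, Set.mem_Ico]
        refine ⟨?_, ZMod.val_lt k⟩
        by_contra hlt
        apply hk
        have h0 : (k + (n : ℕ)).val = k.val + n := by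
          rw [ZMod.val_add, ZMod.val_natCast]; simp only [Nat.add_mod_mod]
          apply Nat.mod_eq_of_lt; omega
        simp only [Perm.mul_apply, sh_pow, b, Equiv.ofBijective_apply, b0, h0, sh,
          Equiv.coe_addRight, Nat.add_mod_right, Nat.add_div_right _ (show 0 < n by omega)]
        push_cast; ring
      · exact (ZMod.val_injective _).injOn
    rw [Nat.card_Ico] at this
    have h2 : n ≤ n * M := Nat.le_mul_of_pos_right n hM
    omega
  · unfold d
    have hcard : p * p * M = ((Finset.univ : Finset (ZMod p × ZMod p)) ×ˢ Finset.range M).card := by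
      rw [Finset.card_product]; simp [ZMod.card]
    rw [hcard]
    have hlt : ∀ j, j < M → n * j + 1 < n * M := fun j hj => by nlinarith
    apply Finset.card_le_card_of_injOn (fun y => (y.1, ((n * y.2 : ℕ) : ZMod (n * M))))
    · rintro ⟨⟨u, v⟩, j⟩ hj
      simp only [Finset.coe_product, Finset.coe_univ, Finset.coe_range, Set.mem_prod, Set.mem_univ,
        Set.mem_Iio, true_and] at hj
      simp only [Finset.coe_filter, Finset.mem_univ, true_and, Set.mem_setOf_eq]
      set k : ZMod (n * M) := ((n * j : ℕ) : ZMod (n * M)) with hk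
      have hkv : k.val = n * j := ZMod.val_cast_of_lt (by have := hlt j hj; omega)
      have hkv1 : (sh k).val = n * j + 1 := by
        have : sh k = ((n * j + 1 : ℕ) : ZMod (n * M)) := by simp [sh, hk]
        rw [this]; exact ZMod.val_cast_of_lt (hlt j hj)
      have e1 : (n * j + 1) % n = 1 := by
        rw [Nat.mul_add_mod]; exact Nat.mod_eq_of_lt (by omega)
      have e2 : (n * j + 1) / n = j := by
        rw [Nat.add_comm, Nat.add_mul_div_left _ _ (by omega), Nat.div_eq_of_lt (by omega)]; simp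
      have e3 : n * j / n = j := Nat.mul_div_cancel_left _ (by omega)
      have a1 : α k = (n : ZMod p) ^ j := by simp [α, hkv, e3]
      have a2 : β k = 0 := by simp [β, hkv]
      have a3 : α (sh k) = 0 := by simp [α, hkv1, e1]
      have a4 : β (sh k) = (n : ZMod p) ^ j := by simp [β, hkv1, e1, e2]
      unfold W
      rw [cc_conj]
      intro h
      have h2 := congrArg (fun x => x.1.2) h
      simp only [cc, Perm.inv_def, Perm.coe_mul, Equiv.coe_fn_mk, Function.comp_apply,
        Equiv.coe_fn_symm_mk, a1, a2, a3, a4, Perm.coe_one, id_eq] at h2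
      have h3 : (n : ZMod p) ^ j * (n : ZMod p) ^ j = 0 := by linear_combination (-1 : ZMod p) * h2
      exact mul_ne_zero (pow_ne_zero _ hn0) (pow_ne_zero _ hn0) h3
    · rintro ⟨y, j⟩ hj ⟨y', j'⟩ hj' h
      simp only [Finset.coe_product, Finset.coe_univ, Finset.coe_range, Set.mem_prod, Set.mem_univ,
        Set.mem_Iio, true_and] at hj hj'
      simp only [Prod.mk.injEq] at h ⊢
      refine ⟨h.1, ?_⟩
      have h1 := congrArg ZMod.val h.2
      rw [ZMod.val_cast_of_lt (by have := hlt j hj; omega),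
        ZMod.val_cast_of_lt (by have := hlt j' hj'; omega)] at h1
      exact Nat.eq_of_mul_eq_mul_left (by omega) h1

theorem not_stable (n : ℕ) (hn : 2 ≤ n) :
    ¬ (∀ ε : ℝ, 0 < ε → ∃ δ : ℝ, 0 < δ ∧
      ∀ N : ℕ, ∀ a b c : Equiv.Perm (Fin N),
        ((Finset.univ.filter (fun i => (b⁻¹ * a * b) i ≠ (a ^ n) i)).card : ℝ) / N < δ →
        ((Finset.univ.filter (fun i => (a⁻¹ * c * a) i ≠ (c ^ n) i)).card : ℝ) / N < δ →
        ∃ a' b' c' : Equiv.Perm (Fin N),
          b'⁻¹ * a' * b' = a' ^ n ∧ a'⁻¹ * c' * a' = c' ^ n ∧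
          ((Finset.univ.filter (fun i => a i ≠ a' i)).card : ℝ) / N < ε ∧
          ((Finset.univ.filter (fun i => b i ≠ b' i)).card : ℝ) / N < ε ∧
          ((Finset.univ.filter (fun i => c i ≠ c' i)).card : ℝ) / N < ε) := by
  intro H
  have hnr : (0 : ℝ) < n := by exact_mod_cast (show 0 < n by omega)
  obtain ⟨δ, hδ, H⟩ := H (1 / (32 * n)) (by positivity)
  obtain ⟨p, hpn, hp⟩ := Nat.exists_infinite_primes (n + 1)
  haveI : Fact p.Prime := ⟨hp⟩
  obtain ⟨t, ht⟩ := exists_nat_gt (n / δ)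
  set M := (p - 1) * (t + 8 * n + 1) with hMdef
  have hMge : t + 8 * n + 1 ≤ M := Nat.le_mul_of_pos_left _ (by omega)
  have hM : 0 < M := by omega
  haveI : NeZero (n * M) := ⟨Nat.mul_ne_zero (by omega) (by omega)⟩
  obtain ⟨ρ, b, c, h1, h2, h3⟩ := model n p M hn (by omega) hM ⟨_, rfl⟩
  set N := p * p * (n * M) with hN
  have hcard : Fintype.card (X p (n * M)) = N := by simp [ZMod.card, hN]
  let e : X p (n * M) ≃ Fin N := Fintype.equivFinOfCardEq hcard
  let E := e.permCongrHom
  have hE : ∀ s t, d (E s) (E t) = d s t := fun s t => d_congr e s t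
  have hp0 : 0 < p := hp.pos
  have hNpos : (0 : ℝ) < N := by rw [hN]; positivity
  have hr : d ρ (b * ρ ^ n * b⁻¹) ≤ p * p * n := by
    rw [← d_right b, d_symm]; simpa using h2
  have hab : d (b⁻¹ * ρ ^ n * b) ((ρ ^ n) ^ n) ≤ n * (p * p * n) := by
    have : (ρ ^ n) ^ n = b⁻¹ * (b * ρ ^ n * b⁻¹) ^ n * b := by rw [conj_pow]; group
    rw [this, d_right, d_left]
    exact (d_pow _ _ n).trans (Nat.mul_le_mul_left _ hr)
  obtain ⟨a', b', c', e1, e2, e3, e4, e5⟩ := H N (E (ρ ^ n)) (E b) (E c) (by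
    change (d _ _ : ℝ) / N < δ
    rw [← map_inv, ← map_mul, ← map_mul, ← map_pow, hE, div_lt_iff₀ hNpos]
    have h4 : (d (b⁻¹ * ρ ^ n * b) ((ρ ^ n) ^ n) : ℝ) ≤ n * (p * p * n) := by exact_mod_cast hab
    have h5 : (t : ℝ) ≤ M := by exact_mod_cast (show t ≤ M by omega)
    rw [div_lt_iff₀ hδ] at ht
    have h6 : (n : ℝ) < δ * M := by nlinarith
    have h7 : (0 : ℝ) < p * p * n := by positivity
    rw [hN]; push_cast; nlinarith) (by
    change (d _ _ : ℝ) / N < δ
    rw [← map_inv, ← map_mul, ← map_mul, ← map_pow, hE, h1]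
    simp [d, hδ])
  change (d _ _ : ℝ) / N < _ at e3 e4 e5
  have key : ∀ x : ℕ, (x : ℝ) / N < 1 / (32 * n) → 32 * x < p * p * M := by
    intro x hx
    rw [div_lt_div_iff₀ hNpos (by positivity), hN] at hx
    push_cast at hx
    have : (32 * x : ℝ) < p * p * M := by nlinarith
    exact_mod_cast this
  have f3 := key _ e3
  have f4 := key _ e4
  have f5 := key _ e5
  have g1 := W_exact n a' b' c' e1 e2
  have g2 := d_W (E c) (E ρ) c' (b' * a' * b'⁻¹)
  have g3 : W (E c) (E ρ) = E (W c ρ) := by simp [W]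
  rw [g1, g3, ← map_one E, hE] at g2
  have g4 := d_tri (E ρ) (E (b * ρ ^ n * b⁻¹)) (b' * a' * b'⁻¹)
  rw [hE, map_mul, map_mul, map_inv] at g4
  have g5 := d_mul (E b * E (ρ ^ n)) (b' * a') (E b)⁻¹ b'⁻¹
  have g6 := d_mul (E b) b' (E (ρ ^ n)) a'
  rw [d_inv] at g5
  have g7 : p * p * (8 * n) < p * p * M := Nat.mul_lt_mul_of_pos_left (by omega) (by positivity)
  have g8 : p * p * (8 * n) = 8 * (p * p * n) := by ring
  omega

end Pool.Agent.H68.BSStab
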