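import Mathlib
import Pool.Agent.H68.Cay

set_option autoImplicit false

namespace Pool.Agent.H68.Cay

open scoped commutatorElement

variable {G : Type} [Group G] {S : Finset G}

theorem prod_fp [Group.IsFinitelyPresented G] (hS : Subgroup.closure (S : Set G) = ⊤) :
    Group.IsFinitelyPresented (G × G) := by
  let R : Set (Monoid.Coprod G G) :=
    (fun p : G × G => ⁅(Monoid.Coprod.inl p.1 : Monoid.Coprod G G), Monoid.Coprod.inr p.2⁆) ''
      ((S : Set G) ×ˢ (S : Set G))
  refine Group.IsFinitelyPresented.of_surjective Monoid.Coprod.toProd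
    Monoid.Coprod.toProd_surjective ⟨R, (S.finite_toSet.prod S.finite_toSet).image _, ?_⟩
  apply le_antisymm
  · apply Subgroup.normalClosure_le_normal
    rintro _ ⟨p, -, rfl⟩
    simp [commutatorElement_def, Prod.ext_iff]
  · let N := Subgroup.normalClosure R
    let f := (QuotientGroup.mk' N).comp (Monoid.Coprod.inl : G →* Monoid.Coprod G G)
    let g := (QuotientGroup.mk' N).comp (Monoid.Coprod.inr : G →* Monoid.Coprod G G)
    have h0 : ∀ x ∈ S, ∀ y ∈ S, Commute (f x) (g y) := by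
      intro x hx y hy
      rw [← commutatorElement_eq_one_iff_commute]
      simp only [f, g, MonoidHom.comp_apply, ← map_commutatorElement]
      exact (QuotientGroup.eq_one_iff _).2 (Subgroup.subset_normalClosure ⟨(x, y), ⟨hx, hy⟩, rfl⟩)
    have h1 : ∀ x y, Commute (f x) (g y) := by
      intro x y
      have hx : x ∈ Subgroup.closure (S : Set G) := hS ▸ Subgroup.mem_top x
      have hy : y ∈ Subgroup.closure (S : Set G) := hS ▸ Subgroup.mem_top y
      induction hx using Subgroup.closure_induction with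
      | mem x hx =>
        induction hy using Subgroup.closure_induction with
        | mem y hy => exact h0 x hx y hy
        | one => simp
        | mul _ _ _ _ a b => rw [map_mul]; exact a.mul_right b
        | inv _ _ a => rw [map_inv]; exact a.inv_right
      | one => simp
      | mul _ _ _ _ a b => rw [map_mul]; exact a.mul_left b
      | inv _ _ a => rw [map_inv]; exact a.inv_left
    have h2 : (f.noncommCoprod g h1).comp Monoid.Coprod.toProd = QuotientGroup.mk' N := by
      apply Monoid.Coprod.hom_ext <;> ext x <;> simp [f, g]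
    intro x hx
    rw [← QuotientGroup.eq_one_iff, ← QuotientGroup.mk'_apply, ← h2, MonoidHom.comp_apply,
      (MonoidHom.mem_ker).1 hx, map_one]

theorem le_dist_of (hS : Subgroup.closure (S : Set G) = ⊤) (Φ : G → ℕ) (h1 : Φ 1 = 0)
    (h : ∀ g h, (cay S).Adj g h → Φ g ≤ Φ h + 1) (g : G) : Φ g ≤ (cay S).dist 1 g := by
  obtain ⟨p, hp⟩ := (reach hS g 1).exists_walk_length_eq_dist
  rw [SimpleGraph.dist_comm, ← hp]
  clear hp
  generalize (1 : G) = o at p h1
  induction p with
  | nil => simp [h1]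
  | cons e p ih => exact (h _ _ e).trans (by simpa using ih h1)

theorem dist_adj (hS : Subgroup.closure (S : Set G) = ⊤) {g h : G} (e : (cay S).Adj g h) :
    (cay S).dist 1 g ≤ (cay S).dist 1 h + 1 := by
  have := dist_tri hS 1 h g
  rwa [SimpleGraph.dist_eq_one_iff_adj.2 e.symm] at this

theorem dist_step (hS : Subgroup.closure (S : Set G) = ⊤) (g x : G)
    (hx : x = 1 ∨ x ∈ S ∨ x⁻¹ ∈ S) : (cay S).dist 1 (g * x) ≤ (cay S).dist 1 g + 1 := by
  by_cases h : x = 1
  · simp [h]
  · refine dist_adj hS (adj_iff.2 ⟨by simpa using h, ?_⟩)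
    simpa [or_comm] using hx.resolve_left h

theorem pred (hS : Subgroup.closure (S : Set G) = ⊤) (n : ℕ) (g : G)
    (h : (cay S).dist 1 g ≤ n + 1) :
    ∃ g' x, (cay S).dist 1 g' ≤ n ∧ (x = 1 ∨ x ∈ S ∨ x⁻¹ ∈ S) ∧ g = g' * x := by
  obtain ⟨p, hp⟩ := (reach hS g 1).exists_walk_length_eq_dist
  cases p with
  | nil => exact ⟨1, 1, by simp, Or.inl rfl, by simp⟩
  | @cons _ g' _ e p =>
    refine ⟨g', g'⁻¹ * g, ?_, Or.inr ?_, by simp⟩
    · have := SimpleGraph.dist_le p
      rw [SimpleGraph.dist_comm] at this hp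
      simp at hp; omega
    · simpa [or_comm] using (adj_iff.1 e).2

open Classical in
noncomputable def perp (S : Finset G) : Finset (G × G) :=
  S.image (fun x => (x, 1)) ∪ S.image (fun x => (1, x))

open Classical in
noncomputable def vee (S : Finset G) : Finset (G × G) :=
  insert 1 (S ∪ S.image (·⁻¹)) ×ˢ insert 1 (S ∪ S.image (·⁻¹))

theorem mem_perp (p : G × G) : p ∈ perp S ↔ (p.1 ∈ S ∧ p.2 = 1) ∨ (p.1 = 1 ∧ p.2 ∈ S) := by
  obtain ⟨a, b⟩ := p
  simp only [perp, Finset.mem_union, Finset.mem_image, Prod.mk.injEq]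
  aesop

theorem mem_vee (p : G × G) : p ∈ vee S ↔
    (p.1 = 1 ∨ p.1 ∈ S ∨ p.1⁻¹ ∈ S) ∧ (p.2 = 1 ∨ p.2 ∈ S ∨ p.2⁻¹ ∈ S) := by
  have : ∀ x : G, (∃ a ∈ S, a⁻¹ = x) ↔ x⁻¹ ∈ S := fun x =>
    ⟨by rintro ⟨a, h, rfl⟩; simpa using h, fun h => ⟨_, h, by simp⟩⟩
  simp only [vee, Finset.mem_product, Finset.mem_insert, Finset.mem_union, Finset.mem_image, this]

theorem perp_gen (hS : Subgroup.closure (S : Set G) = ⊤) :
    Subgroup.closure (perp S : Set (G × G)) = ⊤ := by
  rw [eq_top_iff]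
  rintro ⟨a, b⟩ -
  have h1 : Subgroup.closure (S : Set G) ≤
      (Subgroup.closure (perp S : Set (G × G))).comap (MonoidHom.inl G G) :=
    (Subgroup.closure_le _).2 fun x hx =>
      Subgroup.subset_closure ((mem_perp _).2 (Or.inl ⟨hx, rfl⟩))
  have h2 : Subgroup.closure (S : Set G) ≤
      (Subgroup.closure (perp S : Set (G × G))).comap (MonoidHom.inr G G) :=
    (Subgroup.closure_le _).2 fun x hx =>
      Subgroup.subset_closure ((mem_perp _).2 (Or.inr ⟨rfl, hx⟩))
  have a1 := Subgroup.mem_comap.1 (h1 (hS ▸ Subgroup.mem_top a))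
  have a2 := Subgroup.mem_comap.1 (h2 (hS ▸ Subgroup.mem_top b))
  simpa using Subgroup.mul_mem _ a1 a2

theorem vee_gen (hS : Subgroup.closure (S : Set G) = ⊤) :
    Subgroup.closure (vee S : Set (G × G)) = ⊤ := by
  rw [eq_top_iff, ← perp_gen hS]
  refine Subgroup.closure_mono fun p hp => (mem_vee p).2 ?_
  rcases (mem_perp p).1 hp with h | h <;> simp [h]

theorem perp_adj {p q : G × G} (e : (cay (perp S)).Adj p q) :
    ((cay S).Adj p.1 q.1 ∧ p.2 = q.2) ∨ (p.1 = q.1 ∧ (cay S).Adj p.2 q.2) := by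
  obtain ⟨h1, h2⟩ := adj_iff.1 e
  simp only [mem_perp, Prod.fst_mul, Prod.snd_mul, Prod.fst_inv, Prod.snd_inv,
    inv_mul_eq_one] at h2
  rcases h2 with (⟨a, b⟩ | ⟨a, b⟩) | (⟨a, b⟩ | ⟨a, b⟩)
  · exact Or.inl ⟨adj_iff.2 ⟨fun h => h1 (Prod.ext h b), Or.inl a⟩, b⟩
  · exact Or.inr ⟨a, adj_iff.2 ⟨fun h => h1 (Prod.ext a h), Or.inl b⟩⟩
  · exact Or.inl ⟨adj_iff.2 ⟨fun h => h1 (Prod.ext h b.symm), Or.inr a⟩, b.symm⟩
  · exact Or.inr ⟨a.symm, adj_iff.2 ⟨fun h => h1 (Prod.ext a.symm h), Or.inr b⟩⟩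

theorem perp_dist (hS : Subgroup.closure (S : Set G) = ⊤) (p : G × G) :
    (cay (perp S)).dist 1 p = (cay S).dist 1 p.1 + (cay S).dist 1 p.2 := by
  apply le_antisymm
  · have key : ∀ n m (g h : G), (cay S).dist 1 g ≤ n → (cay S).dist 1 h ≤ m →
        (cay (perp S)).dist 1 (g, h) ≤ n + m := by
      intro n
      induction n with
      | zero =>
        intro m
        induction m with
        | zero =>
          intro g h a b
          rw [← (reach hS 1 g).dist_eq_zero_iff.1 (Nat.le_zero.1 a),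
            ← (reach hS 1 h).dist_eq_zero_iff.1 (Nat.le_zero.1 b)]
          exact (SimpleGraph.dist_self).le
        | succ m ih =>
          intro g h a b
          obtain ⟨h', x, c, d, rfl⟩ := pred hS m h b
          have := dist_step (perp_gen hS) (g, h') (1, x) (by simpa [mem_perp] using by tauto)
          have := ih g h' a c
          simp only [Prod.mk_mul_mk, mul_one] at *
          omega
      | succ n ih =>
        intro m g h a b
        obtain ⟨g', x, c, d, rfl⟩ := pred hS n g a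
        have := dist_step (perp_gen hS) (g', h) (x, 1) (by simpa [mem_perp] using by tauto)
        have := ih m g' h c b
        simp only [Prod.mk_mul_mk, mul_one] at *
        omega
    exact key _ _ _ _ le_rfl le_rfl
  · refine le_dist_of (perp_gen hS) (fun p => (cay S).dist 1 p.1 + (cay S).dist 1 p.2) (by simp)
      (fun p q e => ?_) p
    rcases perp_adj e with ⟨a, b⟩ | ⟨a, b⟩
    · have := dist_adj hS a; rw [b]; omega
    · have := dist_adj hS b; rw [a]; omega

theorem vee_dist (hS : Subgroup.closure (S : Set G) = ⊤) (p : G × G) :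
    (cay (vee S)).dist 1 p = max ((cay S).dist 1 p.1) ((cay S).dist 1 p.2) := by
  apply le_antisymm
  · have key : ∀ n (g h : G), (cay S).dist 1 g ≤ n → (cay S).dist 1 h ≤ n →
        (cay (vee S)).dist 1 (g, h) ≤ n := by
      intro n
      induction n with
      | zero =>
        intro g h a b
        rw [← (reach hS 1 g).dist_eq_zero_iff.1 (Nat.le_zero.1 a),
          ← (reach hS 1 h).dist_eq_zero_iff.1 (Nat.le_zero.1 b)]
        exact (SimpleGraph.dist_self).le
      | succ n ih =>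
        intro g h a b
        obtain ⟨g', x, c, d, rfl⟩ := pred hS n g a
        obtain ⟨h', y, c', d', rfl⟩ := pred hS n h b
        have := dist_step (vee_gen hS) (g', h') (x, y) (Or.inr (Or.inl ((mem_vee _).2 ⟨d, d'⟩)))
        have := ih g' h' c c'
        simp only [Prod.mk_mul_mk] at *
        omega
    exact key _ _ _ (le_max_left _ _) (le_max_right _ _)
  · refine le_dist_of (vee_gen hS) (fun p => max ((cay S).dist 1 p.1) ((cay S).dist 1 p.2))
      (by simp) (fun p q e => ?_) p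
    have h : q⁻¹ * p ∈ vee S := by
      rcases (adj_iff.1 e).2 with h | h
      · rw [mem_vee] at h ⊢
        simp only [Prod.fst_mul, Prod.snd_mul, Prod.fst_inv, Prod.snd_inv, mul_inv_rev, inv_inv,
          inv_mul_eq_one] at h ⊢
        tauto
      · exact h
    rw [mem_vee] at h
    have a := dist_step hS q.1 _ h.1
    have b := dist_step hS q.2 _ h.2
    simp only [Prod.fst_mul, Prod.snd_mul, Prod.fst_inv, Prod.snd_inv, mul_inv_cancel_left] at a b
    omega

def BRD (S : Finset G) : Prop :=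
  ∃ D : ℕ, ∀ g : G, ∀ R : ℕ, ∃ h : G, R ≤ (cay S).dist 1 h ∧ ∃ p : (cay S).Walk g h,
    ∀ v ∈ p.support, (cay S).dist 1 g ≤ (cay S).dist 1 v + D

theorem brd_vee (hS : Subgroup.closure (S : Set G) = ⊤) (hinf : ∀ R, ∃ h, R ≤ (cay S).dist 1 h) :
    BRD (vee S) := by
  refine ⟨0, fun ⟨g, h⟩ R => ?_⟩
  obtain ⟨k, hk⟩ := hinf R
  rcases le_total ((cay S).dist 1 h) ((cay S).dist 1 g) with c | c
  · let f : cay S →g cay (vee S) := ⟨fun x => (g, x), fun {a b} e => by
      rw [adj_iff] at e ⊢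
      refine ⟨fun h => e.1 (congrArg Prod.snd h), Or.inl ?_⟩
      simpa [mem_vee] using Or.inr e.2⟩
    obtain ⟨p⟩ := reach hS h k
    refine ⟨(g, k), by rw [vee_dist hS]; exact le_max_of_le_right hk, p.map f, fun v hv => ?_⟩
    rw [SimpleGraph.Walk.support_map] at hv
    obtain ⟨x, -, rfl⟩ := List.mem_map.1 hv
    rw [vee_dist hS, vee_dist hS]
    exact max_le (le_max_left _ _) (le_max_of_le_left c)
  · let f : cay S →g cay (vee S) := ⟨fun x => (x, h), fun {a b} e => by
      rw [adj_iff] at e ⊢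
      refine ⟨fun h => e.1 (congrArg Prod.fst h), Or.inl ?_⟩
      simpa [mem_vee] using Or.inr e.2⟩
    obtain ⟨p⟩ := reach hS g k
    refine ⟨(k, h), by rw [vee_dist hS]; exact le_max_of_le_left hk, p.map f, fun v hv => ?_⟩
    rw [SimpleGraph.Walk.support_map] at hv
    obtain ⟨x, -, rfl⟩ := List.mem_map.1 hv
    rw [vee_dist hS, vee_dist hS]
    exact max_le (le_max_of_le_right c) (le_max_right _ _)

theorem not_brd_perp (hS : Subgroup.closure (S : Set G) = ⊤)
    (H : ∀ D : ℕ, ∃ (X : Set G) (m K : ℕ), (∀ x ∈ X, (cay S).dist 1 x ≤ K) ∧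
      (∃ g ∈ X, m + D < (cay S).dist 1 g) ∧
      ∀ x ∈ X, ∀ y ∉ X, (cay S).Adj x y → (cay S).dist 1 x ≤ m) : ¬ BRD (perp S) := by
  rintro ⟨D, hD⟩
  obtain ⟨X, m, K, h1, ⟨g0, hg0, h2⟩, h3⟩ := H D
  have bdd : BddAbove ((cay S).dist 1 '' X) := ⟨K, by rintro _ ⟨x, hx, rfl⟩; exact h1 x hx⟩
  obtain ⟨g, hg, hM⟩ := Nat.sSup_mem (Set.Nonempty.image _ ⟨g0, hg0⟩) bdd
  have hmax : ∀ x ∈ X, (cay S).dist 1 x ≤ (cay S).dist 1 g := fun x hx =>
    hM ▸ le_csSup bdd ⟨x, hx, rfl⟩
  obtain ⟨h, hh, p, hp⟩ := hD (g, g) (2 * K + 1)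
  obtain ⟨d, hd, d1, d2⟩ := p.exists_boundary_dart (X ×ˢ X) ⟨hg, hg⟩ (by
    rintro ⟨a, b⟩
    have := h1 _ a
    have := h1 _ b
    rw [perp_dist hS] at hh; omega)
  have := hp _ (p.dart_fst_mem_support_of_mem_darts hd)
  rw [perp_dist hS, perp_dist hS] at this
  have a1 := hmax _ hg0
  have a2 := hmax _ d1.1
  have a3 := hmax _ d1.2
  rcases perp_adj d.adj with ⟨a, b⟩ | ⟨a, b⟩
  · have := h3 _ d1.1 _ (fun h => d2 ⟨h, b ▸ d1.2⟩) a
    simp only at *; omega
  · have := h3 _ d1.2 _ (fun h => d2 ⟨a ▸ d1.1, h⟩) b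
    simp only at *; omega

end Pool.Agent.H68.Cay
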