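import Mathlib
import Pool.Agent.H68.CayProd

set_option autoImplicit false

namespace Pool.Agent.H68.Baum

open Pool.Agent.H68.Cay

open FreeGroup in
def rels : Set (FreeGroup (Fin 3)) :=
  {of 0 * of 0, of 1 * of 2 * (of 2 * of 1)⁻¹,
    of 0 * (of 2 * of 0 * (of 2)⁻¹) * ((of 2 * of 0 * (of 2)⁻¹) * of 0)⁻¹,
    of 1 * of 0 * (of 1)⁻¹ * (of 0 * (of 2 * of 0 * (of 2)⁻¹))⁻¹}

instance : Finite rels := by unfold rels; infer_instance

abbrev G := PresentedGroup rels

def a : G := PresentedGroup.of 0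
def s : G := PresentedGroup.of 1
def t : G := PresentedGroup.of 2

theorem mk_rel {w : FreeGroup (Fin 3)} (h : w ∈ rels) : PresentedGroup.mk rels w = 1 :=
  PresentedGroup.one_of_mem h

theorem aa : a * a = 1 := mk_rel (Or.inl rfl)
theorem st : Commute s t := mul_inv_eq_one.1 (mk_rel (Or.inr (Or.inl rfl)))
theorem at' : Commute a (t * a * t⁻¹) := mul_inv_eq_one.1 (mk_rel (Or.inr (Or.inr (Or.inl rfl))))
theorem sa : s * a * s⁻¹ = a * (t * a * t⁻¹) :=
  mul_inv_eq_one.1 (mk_rel (Or.inr (Or.inr (Or.inr rfl))))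

def pos (i j : ℤ) : G := t ^ i * s ^ j

theorem pos_add (i j k l : ℤ) : pos (i + k) (j + l) = pos i j * pos k l := by
  simp only [pos, zpow_add]
  have := (st.zpow_zpow j k).eq
  calc _ = t ^ i * (t ^ k * s ^ j) * s ^ l := by group
    _ = _ := by rw [← this]; group

def mm (i j : ℤ) : G := pos i j * a * (pos i j)⁻¹

theorem mm_add (i j k l : ℤ) : mm (i + k) (j + l) = pos i j * mm k l * (pos i j)⁻¹ := by
  simp only [mm, pos_add]; group

theorem mm_sq (i j : ℤ) : mm i j * mm i j = 1 := by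
  have : mm i j * mm i j = pos i j * (a * a) * (pos i j)⁻¹ := by simp only [mm]; group
  rw [this, aa]; group

theorem pascal (i j : ℤ) : mm i (j + 1) = mm i j * mm (i + 1) j := by
  have h1 := mm_add i j 0 1
  have h2 := mm_add i j 1 0
  rw [add_zero] at h1 h2
  rw [h1, h2]
  have : mm 0 1 = a * mm 1 0 := by simpa [mm, pos] using sa
  rw [this]; simp only [mm]; group

theorem conj_comm {x y : G} (g : G) (h : Commute x y) :
    Commute (g * x * g⁻¹) (g * y * g⁻¹) := h.map (MulAut.conj g).toMonoidHom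

theorem comm0 (n : ℕ) : ∀ k : ℕ, k ≤ n + 1 → ∀ i : ℤ, Commute (mm i 0) (mm (i + k) 0) := by
  have red : ∀ k : ℤ, Commute (mm 0 0) (mm k 0) → ∀ i : ℤ, Commute (mm i 0) (mm (i + k) 0) := by
    intro k h i
    have := conj_comm (pos i 0) h
    rw [← mm_add, ← mm_add] at this
    simpa using this
  induction n with
  | zero =>
    intro k hk
    apply red
    interval_cases k
    · exact Commute.refl _
    · simpa [mm, pos] using at'
  | succ n ih =>
    intro k hk
    rcases hk.eq_or_lt with rfl | hk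
    · apply red
      have h := conj_comm (pos 0 1) (ih (n + 1) le_rfl 0)
      rw [← mm_add, ← mm_add] at h
      have p1 := pascal 0 0
      have p2 := pascal (n + 1 : ℕ) 0
      simp only [zero_add, add_zero] at h p1 p2
      rw [p1, p2] at h
      have b1 := ih n (by omega) 1
      have b2 := ih (n + 1) le_rfl 1
      have b3 := ih (n + 1) le_rfl 0
      rw [show (1 : ℤ) + (n : ℕ) = (n + 1 : ℕ) by push_cast; ring] at b1
      rw [add_comm] at b2
      rw [zero_add] at b3
      have c1 := h.mul_left (b1.mul_right b2).inv_left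
      rw [mul_inv_cancel_right] at c1
      have c2 := b3.inv_right.mul_right c1
      rw [inv_mul_cancel_left] at c2
      exact_mod_cast c2
    · exact ih k (by omega)

theorem comm1 (i k : ℤ) : Commute (mm i 0) (mm k 0) := by
  rcases le_total i k with h | h
  · obtain ⟨n, rfl⟩ := Int.le.dest h
    exact comm0 n n (by omega) i
  · obtain ⟨n, rfl⟩ := Int.le.dest h
    exact (comm0 n n (by omega) k).symm

theorem comm2 (n : ℕ) : ∀ i k : ℤ, Commute (mm i 0) (mm k n) := by
  induction n with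
  | zero => exact comm1
  | succ n ih => intro i k; push_cast; rw [pascal]; exact (ih i k).mul_right (ih i _)

theorem comm (i j k l : ℤ) : Commute (mm i j) (mm k l) := by
  have key : ∀ i j k l : ℤ, j ≤ l → Commute (mm i j) (mm k l) := by
    intro i j k l h
    obtain ⟨n, rfl⟩ := Int.le.dest h
    have := conj_comm (pos 0 j) (comm2 n i k)
    rw [← mm_add, ← mm_add] at this
    simpa using this
  rcases le_total j l with h | h
  · exact key _ _ _ _ h
  · exact (key _ _ _ _ h).symm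

def V (A B C : ℤ) : Subgroup G :=
  Subgroup.closure {g | ∃ i j, A ≤ i ∧ B ≤ j ∧ i + j ≤ C ∧ g = mm i j}

theorem mm_mem {A B C i j : ℤ} (h1 : A ≤ i) (h2 : B ≤ j) (h3 : i + j ≤ C) : mm i j ∈ V A B C :=
  Subgroup.subset_closure ⟨i, j, h1, h2, h3, rfl⟩

theorem V_mono {A B C A' B' C' : ℤ} (h1 : A' ≤ A) (h2 : B' ≤ B) (h3 : C ≤ C') :
    V A B C ≤ V A' B' C' := by
  apply Subgroup.closure_mono
  rintro _ ⟨i, j, a, b, c, rfl⟩
  exact ⟨i, j, by omega, by omega, by omega, rfl⟩

theorem V_comm {A B C : ℤ} {f : G} (hf : f ∈ V A B C) (i j : ℤ) : Commute f (mm i j) := by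
  induction hf using Subgroup.closure_induction with
  | mem x hx => obtain ⟨k, l, -, -, -, rfl⟩ := hx; exact comm _ _ _ _
  | one => simp
  | mul _ _ _ _ a b => exact a.mul_left b
  | inv _ _ a => exact a.inv_left

/-- the subgroup `V ∪ V m` -/
def Vm (A B C i j : ℤ) : Subgroup G where
  carrier := {f | f ∈ V A B C ∨ f * mm i j ∈ V A B C}
  one_mem' := Or.inl (one_mem _)
  mul_mem' := by
    rintro x y (hx | hx) (hy | hy)
    · exact Or.inl (mul_mem hx hy)
    · exact Or.inr (by rw [mul_assoc]; exact mul_mem hx hy)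
    · exact Or.inr (by rw [mul_assoc, (V_comm hy i j).eq, ← mul_assoc]; exact mul_mem hx hy)
    · left
      have := mul_mem hx hy
      rwa [mul_assoc x, ← (V_comm hy i j).eq, mul_assoc y, mm_sq, mul_one] at this
  inv_mem' := by
    rintro x (hx | hx)
    · exact Or.inl (inv_mem hx)
    · right
      have h1 := inv_mem hx
      have h2 := (V_comm h1 i j).eq
      rw [mul_inv_rev, inv_eq_of_mul_eq_one_right (mm_sq i j)] at h1 h2
      rw [← mul_assoc, mm_sq, one_mul] at h2
      have : x⁻¹ * mm i j = mm i j * x⁻¹ := by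
        conv_rhs => rw [← h2, ← mul_assoc, ← mul_assoc, mm_sq, one_mul]
      rwa [this]

theorem line (H : Subgroup G) (u : ℤ → G) (lo hi k : ℤ) (h0 : u k ∈ H) (h1 : lo ≤ k) (h2 : k ≤ hi)
    (h : ∀ n, lo ≤ n → n + 1 ≤ hi → (u n ∈ H ↔ u (n + 1) ∈ H)) (n : ℤ) (a : lo ≤ n)
    (b : n ≤ hi) : u n ∈ H := by
  induction n using Int.inductionOn' (b := k) with
  | zero => exact h0
  | succ n hn ih => exact (h n (by omega) b).1 (ih (by omega) (by omega))
  | pred n hn ih =>
    refine (h (n - 1) a (by omega)).2 ?_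
    rw [sub_add_cancel]; exact ih (by omega) (by omega)

theorem le_Vm (A B C i j : ℤ) : V A B C ≤ Vm A B C i j := fun _ h => Or.inl h
theorem mem_Vm (A B C i j : ℤ) : mm i j ∈ Vm A B C i j := Or.inr (by rw [mm_sq]; exact one_mem _)

theorem stepC (A B C i j : ℤ) (h1 : A ≤ i) (h2 : B ≤ j) (h3 : i + j = C + 1) :
    V A B (C + 1) ≤ Vm A B C i j := by
  rw [V, Subgroup.closure_le]
  rintro _ ⟨k, l, a, b, c, rfl⟩
  rcases c.eq_or_lt with c | c
  · have := line (Vm A B C i j) (fun n => mm n (C + 1 - n)) A (C + 1 - B) i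
      (by simpa [show C + 1 - i = j by omega] using mem_Vm A B C i j) h1 (by omega) ?_ k a
      (by omega)
    · simpa [show C + 1 - k = l by omega] using this
    · intro n a b
      have := pascal n (C - n)
      simp only [show C + 1 - n = C - n + 1 by ring, show C + 1 - (n + 1) = C - n by ring, this]
      exact Subgroup.mul_mem_cancel_left _ (le_Vm _ _ _ _ _ (mm_mem a (by omega) (by omega)))
  · exact le_Vm _ _ _ _ _ (mm_mem a b (by omega))

theorem stepA (A B C j : ℤ) (h2 : B ≤ j) (h3 : A - 1 + j ≤ C) :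
    V (A - 1) B C ≤ Vm A B C (A - 1) j := by
  rw [V, Subgroup.closure_le]
  rintro _ ⟨k, l, a, b, c, rfl⟩
  rcases a.eq_or_lt with rfl | a
  · refine line (Vm A B C (A - 1) j) (fun n => mm (A - 1) n) B (C + 1 - A) j
      (mem_Vm _ _ _ _ _) h2 (by omega) ?_ l b (by omega)
    intro n a b
    simp only [pascal, sub_add_cancel]
    exact (Subgroup.mul_mem_cancel_right _
      (le_Vm _ _ _ _ _ (mm_mem le_rfl a (by omega)))).symm
  · exact le_Vm _ _ _ _ _ (mm_mem (by omega) b c)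

theorem stepB (A B C i : ℤ) (h2 : A ≤ i) (h3 : i + (B - 1) ≤ C) :
    V A (B - 1) C ≤ Vm A B C i (B - 1) := by
  rw [V, Subgroup.closure_le]
  rintro _ ⟨k, l, a, b, c, rfl⟩
  rcases b.eq_or_lt with rfl | b
  · refine line (Vm A B C i (B - 1)) (fun n => mm n (B - 1)) A (C + 1 - B) i
      (mem_Vm _ _ _ _ _) h2 (by omega) ?_ k a (by omega)
    intro n a b
    have h := pascal n (B - 1)
    rw [sub_add_cancel] at h
    have h' : mm n B ∈ Vm A B C i (B - 1) := le_Vm _ _ _ _ _ (mm_mem a le_rfl (by omega))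
    rw [h] at h'
    exact ⟨fun e => (Subgroup.mul_mem_cancel_left _ e).1 h',
      fun e => (Subgroup.mul_mem_cancel_right _ e).1 h'⟩
  · exact le_Vm _ _ _ _ _ (mm_mem a (by omega) c)

open Classical in
noncomputable def S : Finset G := {a, s, t, s * a, t * a, s⁻¹ * a, t⁻¹ * a}

theorem mem_S (x : G) : x ∈ S ↔ x = a ∨ x = s ∨ x = t ∨ x = s * a ∨ x = t * a ∨ x = s⁻¹ * a ∨
    x = t⁻¹ * a := by simp [S]

theorem S_gen : Subgroup.closure (S : Set G) = ⊤ := by
  rw [eq_top_iff, ← PresentedGroup.closure_range_of rels]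
  refine Subgroup.closure_mono ?_
  rintro _ ⟨i, rfl⟩
  fin_cases i <;> simp [mem_S, a, s, t]

def Q (L : ℕ) (i j A B C : ℤ) : Prop :=
  A ≤ i ∧ B ≤ j ∧ i + j ≤ C ∧ ∀ f ∈ V A B C, (cay S).dist 1 (f * pos i j) ≤ L

theorem Q_step {L : ℕ} {i j A B C : ℤ} (h : Q L i j A B C) (di dj A' B' C' : ℤ)
    (hu : pos di dj ∈ S ∨ (pos di dj)⁻¹ ∈ S) (hu' : pos di dj * a ∈ S)
    (h1 : A' ≤ i + di) (h2 : B' ≤ j + dj) (h3 : i + di + (j + dj) ≤ C')
    (hV : V A' B' C' ≤ Vm A B C (i + di) (j + dj)) : Q (L + 1) (i + di) (j + dj) A' B' C' := by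
  refine ⟨h1, h2, h3, fun f hf => ?_⟩
  rcases hV hf with e | e
  · have := dist_step S_gen (f * pos i j) _ (Or.inr hu)
    have := h.2.2.2 f e
    rw [pos_add, ← mul_assoc]; omega
  · have := dist_step S_gen (f * mm (i + di) (j + dj) * pos i j) _ (Or.inr (Or.inl hu'))
    have := h.2.2.2 _ e
    have e2 : f * mm (i + di) (j + dj) * pos i j * (pos di dj * a) = f * pos (i + di) (j + dj) := by
      have : f * mm (i + di) (j + dj) * pos i j * (pos di dj * a) =
        f * pos (i + di) (j + dj) * (a * a) := by simp only [mm, pos_add]; group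
      rw [this, aa, mul_one]
    rw [← e2]; omega

theorem Q_right {L : ℕ} {i j A B C : ℤ} (h : Q L i j A B C) (k : ℕ) :
    Q (L + k) (i + k) j A B (max C (i + k + j)) := by
  induction k with
  | zero => simpa [max_eq_left h.2.2.1] using h
  | succ k ih =>
    have := Q_step ih 1 0 A B (max C (i + k + 1 + j)) (by simp [pos, mem_S]) (by simp [pos, mem_S])
      (by have := h.1; omega) (by have := h.2.1; omega) (by omega) (by
        rcases le_or_gt (i + k + 1 + j) C with c | c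
        · rw [max_eq_left c]; exact (V_mono le_rfl le_rfl (by omega)).trans (le_Vm _ _ _ _ _)
        · have := h.1; have := h.2.1; have := h.2.2.1
          rw [show max C (i + k + 1 + j) = max C (i + k + j) + 1 by omega]
          exact stepC _ _ _ _ _ (by omega) (by omega) (by omega))
    simpa [add_assoc] using this

theorem Q_up {L : ℕ} {i j A B C : ℤ} (h : Q L i j A B C) (k : ℕ) :
    Q (L + k) i (j + k) A B (max C (i + (j + k))) := by
  induction k with
  | zero => simpa [max_eq_left h.2.2.1] using h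
  | succ k ih =>
    have := Q_step ih 0 1 A B (max C (i + (j + k + 1))) (by simp [pos, mem_S])
      (by simp [pos, mem_S])
      (by have := h.1; omega) (by have := h.2.1; omega) (by omega) (by
        rcases le_or_gt (i + (j + k + 1)) C with c | c
        · rw [max_eq_left c]; exact (V_mono le_rfl le_rfl (by omega)).trans (le_Vm _ _ _ _ _)
        · have := h.1; have := h.2.1; have := h.2.2.1
          rw [show max C (i + (j + k + 1)) = max C (i + (j + k)) + 1 by omega]
          exact stepC _ _ _ _ _ (by omega) (by omega) (by omega))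
    simpa [add_assoc] using this

theorem Q_left {L : ℕ} {i j A B C : ℤ} (h : Q L i j A B C) (k : ℕ) :
    Q (L + k) (i - k) j (min A (i - k)) B C := by
  induction k with
  | zero => simpa [min_eq_left h.1] using h
  | succ k ih =>
    have := Q_step ih (-1) 0 (min A (i - k + -1)) B C (by simp [pos, mem_S])
      (by simp [pos, mem_S])
      (by omega) (by have := h.2.1; omega) (by have := h.2.2.1; omega) (by
        rcases le_or_gt A (i - k + -1) with c | c
        · rw [min_eq_left c]; exact (V_mono (by omega) le_rfl le_rfl).trans (le_Vm _ _ _ _ _)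
        · have := h.1; have := h.2.1; have := h.2.2.1
          rw [show min A (i - k + -1) = min A (i - k) - 1 by omega,
            show i - k + -1 = min A (i - k) - 1 by omega]
          exact stepA _ _ _ _ (by omega) (by omega))
    rw [show i - k + -1 = i - (k + 1 : ℕ) by push_cast; ring, add_zero] at this
    exact this

theorem Q_down {L : ℕ} {i j A B C : ℤ} (h : Q L i j A B C) (k : ℕ) :
    Q (L + k) i (j - k) A (min B (j - k)) C := by
  induction k with
  | zero => simpa [min_eq_left h.2.1] using h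
  | succ k ih =>
    have := Q_step ih 0 (-1) A (min B (j - k + -1)) C (by simp [pos, mem_S])
      (by simp [pos, mem_S])
      (by have := h.1; omega) (by omega) (by have := h.2.2.1; omega) (by
        rcases le_or_gt B (j - k + -1) with c | c
        · rw [min_eq_left c]; exact (V_mono le_rfl (by omega) le_rfl).trans (le_Vm _ _ _ _ _)
        · have := h.1; have := h.2.1; have := h.2.2.1
          rw [show min B (j - k + -1) = min B (j - k) - 1 by omega,
            show j - k + -1 = min B (j - k) - 1 by omega]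
          exact stepB _ _ _ _ (by omega) (by omega))
    rw [show j - k + -1 = j - (k + 1 : ℕ) by push_cast; ring, add_zero] at this
    exact this

theorem Q_h {L : ℕ} {i j A B C : ℤ} (h : Q L i j A B C) (i' : ℤ) :
    Q (L + (i' - i).natAbs) i' j (min A i') B (max C (i' + j)) := by
  rcases le_total i i' with c | c
  · obtain ⟨k, rfl⟩ := Int.le.dest c
    have := h.1
    rw [show min A (i + k) = A by omega, show (i + k - i).natAbs = k by omega]
    exact Q_right h k
  · obtain ⟨k, hk⟩ := Int.le.dest c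
    obtain rfl : i' = i - k := by omega
    have := h.2.2.1
    rw [show max C (i - k + j) = C by omega, show (i - k - i).natAbs = k by omega]
    exact Q_left h k

theorem Q_v {L : ℕ} {i j A B C : ℤ} (h : Q L i j A B C) (j' : ℤ) :
    Q (L + (j' - j).natAbs) i j' A (min B j') (max C (i + j')) := by
  rcases le_total j j' with c | c
  · obtain ⟨k, rfl⟩ := Int.le.dest c
    have := h.2.1
    rw [show min B (j + k) = B by omega, show (j + k - j).natAbs = k by omega]
    exact Q_up h k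
  · obtain ⟨k, hk⟩ := Int.le.dest c
    obtain rfl : j' = j - k := by omega
    have := h.2.2.1
    rw [show max C (i + (j - k)) = C by omega, show (j - k - j).natAbs = k by omega]
    exact Q_down h k

theorem Q0 : Q 1 0 0 0 0 0 := by
  refine ⟨le_rfl, le_rfl, le_rfl, fun f hf => ?_⟩
  have h1 : V 0 0 0 ≤ Vm 1 0 0 0 0 := by simpa using stepA 1 0 0 0 le_rfl (by simp)
  have h2 : V 1 0 0 = ⊥ := by
    rw [V, Subgroup.closure_eq_bot_iff]
    rintro _ ⟨i, j, a, b, c, rfl⟩; omega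
  rcases h1 hf with e | e <;> rw [h2, Subgroup.mem_bot] at e
  · simp [e, pos]
  · have : f = 1 * a := by
      rw [one_mul, eq_inv_of_mul_eq_one_left e, inv_eq_of_mul_eq_one_right (mm_sq 0 0)]
      simp [mm, pos]
    have h := dist_step S_gen 1 a (by simp [mem_S])
    simpa [this, pos] using h

theorem Q_use {L L' : ℕ} {i j A B C A' B' C' : ℤ} (h : Q L i j A B C) (h0 : L ≤ L') (h1 : A ≤ A')
    (h2 : B ≤ B') (h3 : C' ≤ C) {f : G} (hf : f ∈ V A' B' C') :
    (cay S).dist 1 (f * pos i j) ≤ L' := (h.2.2.2 f (V_mono h1 h2 h3 hf)).trans h0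

theorem upper_all (n : ℕ) (i j : ℤ) (h1 : -n ≤ i) (h2 : -n ≤ j) (h3 : i + j ≤ n) {f : G}
    (hf : f ∈ V (-n) (-n) n) : (cay S).dist 1 (f * pos i j) ≤ 7 * n + 1 :=
  Q_use (Q_v (Q_h (Q_v (Q_h (Q_h Q0 n) (-n)) (-n)) i) j) (by omega) (by omega) (by omega)
    (by omega) hf

theorem upper_bd (n : ℕ) (i j : ℤ) (h1 : -n ≤ i) (h2 : -n ≤ j) (h3 : i + j ≤ n)
    (h : i = -n ∨ j = -n ∨ i + j = n) {f : G}
    (hf : f ∈ V (-n) (-n) n) : (cay S).dist 1 (f * pos i j) ≤ 5 * n + 1 := by
  rcases h with h | h | h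
  · rcases le_total 0 j with c | c
    · exact Q_use (Q_v (Q_h (Q_v (Q_v Q0 (-n)) (max j n)) i) j) (by omega) (by omega) (by omega)
        (by omega) hf
    · exact Q_use (Q_v (Q_h (Q_v (Q_h Q0 n) (-n)) i) j) (by omega) (by omega) (by omega)
        (by omega) hf
  · rcases le_total 0 i with c | c
    · exact Q_use (Q_h (Q_v (Q_h (Q_h Q0 (-n)) (max i n)) j) i) (by omega) (by omega) (by omega)
        (by omega) hf
    · exact Q_use (Q_h (Q_v (Q_h (Q_v Q0 n) (-n)) j) i) (by omega) (by omega) (by omega)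
        (by omega) hf
  · exact Q_use (Q_v (Q_h (Q_v (Q_h Q0 (-n)) (-n)) i) j) (by omega) (by omega) (by omega)
      (by omega) hf

theorem adj_form {g h : G} (e : (cay S).Adj g h) : ∃ (e1 e2 : G) (di dj : ℤ),
    (e1 = 1 ∨ e1 = a) ∧ (e2 = 1 ∨ e2 = a) ∧ di.natAbs + dj.natAbs ≤ 1 ∧
      h = g * (e1 * pos di dj * e2) := by
  have ai : a⁻¹ = a := inv_eq_of_mul_eq_one_right aa
  rcases (adj_iff.1 e).2 with e | e
  · rw [mem_S] at e
    simp only [inv_mul_eq_iff_eq_mul] at e
    rcases e with rfl | rfl | rfl | rfl | rfl | rfl | rfl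
    exacts [⟨1, a, 0, 0, by simp [pos]⟩, ⟨1, 1, 0, 1, by simp [pos]⟩, ⟨1, 1, 1, 0, by simp [pos]⟩,
      ⟨1, a, 0, 1, by simp [pos]⟩, ⟨1, a, 1, 0, by simp [pos]⟩, ⟨1, a, 0, -1, by simp [pos]⟩,
      ⟨1, a, -1, 0, by simp [pos]⟩]
  · rw [mem_S] at e
    simp only [inv_mul_eq_iff_eq_mul] at e
    rcases e with rfl | rfl | rfl | rfl | rfl | rfl | rfl
    exacts [⟨1, a, 0, 0, by simp [pos, mul_assoc, aa]⟩, ⟨1, 1, 0, -1, by simp [pos]⟩,
      ⟨1, 1, -1, 0, by simp [pos]⟩,
      ⟨a, 1, 0, -1, by simp [pos, mul_assoc, ← mul_assoc a, aa]⟩,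
      ⟨a, 1, -1, 0, by simp [pos, mul_assoc, ← mul_assoc a, aa]⟩,
      ⟨a, 1, 0, 1, by simp [pos, mul_assoc, ← mul_assoc a, aa]⟩,
      ⟨a, 1, 1, 0, by simp [pos, mul_assoc, ← mul_assoc a, aa]⟩]

theorem move {A B C i j di dj : ℤ} {f e1 e2 : G} (hf : f ∈ V A B C) (h1 : e1 = 1 ∨ e1 = a)
    (h2 : e2 = 1 ∨ e2 = a) (a1 : A ≤ i) (a2 : B ≤ j) (a3 : i + j ≤ C) (b1 : A ≤ i + di)
    (b2 : B ≤ j + dj) (b3 : i + di + (j + dj) ≤ C) :
    ∃ f' ∈ V A B C, f * pos i j * (e1 * pos di dj * e2) = f' * pos (i + di) (j + dj) := by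
  refine ⟨f * (pos i j * e1 * (pos i j)⁻¹) *
    (pos (i + di) (j + dj) * e2 * (pos (i + di) (j + dj))⁻¹), ?_, by simp only [pos_add]; group⟩
  refine mul_mem (mul_mem hf ?_) ?_
  · rcases h1 with rfl | rfl
    · simp
    · exact mm_mem a1 a2 a3
  · rcases h2 with rfl | rfl
    · simp
    · exact mm_mem b1 b2 b3

theorem walk_inv (n : ℕ) : ∀ g : G, (cay S).dist 1 g ≤ n → ∃ A B I J i j : ℤ, ∃ f ∈ V A B (I + J),
    g = f * pos i j ∧ A ≤ 0 ∧ B ≤ 0 ∧ 0 ≤ I ∧ 0 ≤ J ∧ A ≤ i ∧ B ≤ j ∧ i ≤ I ∧ j ≤ J ∧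
      2 * (I - A) + 2 * (J - B) ≤ n + i.natAbs + j.natAbs := by
  induction n with
  | zero =>
    intro g hg
    refine ⟨0, 0, 0, 0, 0, 0, 1, one_mem _, ?_, by simp⟩
    rw [← (reach S_gen 1 g).dist_eq_zero_iff.1 (Nat.le_zero.1 hg)]; simp [pos]
  | succ n ih =>
    intro g hg
    obtain ⟨g', x, h1, h2, rfl⟩ := pred S_gen n g hg
    obtain ⟨A, B, I, J, i, j, f, hf, rfl, c⟩ := ih g' h1
    by_cases hx : x = 1
    · exact ⟨A, B, I, J, i, j, f, hf, by simp [hx], by omega⟩
    obtain ⟨e1, e2, di, dj, b1, b2, b3, b4⟩ := adj_form (g := f * pos i j) (h := f * pos i j * x)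
      (adj_iff.2 ⟨by simpa using hx, by simpa [mul_assoc] using h2.resolve_left hx⟩)
    obtain ⟨f', hf', e⟩ := move (A := min A (i + di)) (B := min B (j + dj))
      (C := max I (i + di) + max J (j + dj)) (i := i) (j := j) (di := di) (dj := dj)
      (V_mono (by omega) (by omega) (by omega) hf) b1 b2 (by omega) (by omega) (by omega)
      (by omega) (by omega) (by omega)
    exact ⟨_, _, _, _, _, _, f', hf', b4.trans e, by omega⟩

abbrev Y := ℤ × ℤ × ZMod 2

theorem two (x : ZMod 2) : x + x = 0 := by revert x; decide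

def pa (c : ℤ → ℤ → ZMod 2) : Equiv.Perm Y :=
  Function.Involutive.toPerm (fun y => (y.1, y.2.1, y.2.2 + c y.1 y.2.1)) (by
    rintro ⟨i, j, e⟩; simp [add_assoc, two])

theorem pa_apply (c : ℤ → ℤ → ZMod 2) (y : Y) :
    pa c y = (y.1, y.2.1, y.2.2 + c y.1 y.2.1) := rfl

def sh (k l : ℤ) : Equiv.Perm Y := Equiv.addRight (k, l, 0)

theorem exists_η (c : ℤ → ℤ → ZMod 2) (hc : ∀ i j, c i (j + 1) = c i j + c (i + 1) j) :
    ∃ η : G →* Equiv.Perm Y, (∀ i j y, η (pos i j) y = (y.1 - i, y.2.1 - j, y.2.2)) ∧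
      ∀ i j y, η (mm i j) y = (y.1, y.2.1, y.2.2 + c (y.1 + i) (y.2.1 + j)) := by
  have h : ∀ r ∈ rels, FreeGroup.lift ![pa c, sh 0 (-1), sh (-1) 0] r = 1 := by
    rintro r (rfl | rfl | rfl | rfl)
    · ext1 ⟨i, j, e⟩; simp [pa_apply, add_assoc, two]
    · rw [map_mul, map_inv, mul_inv_eq_one]; ext1 ⟨i, j, e⟩; simp [sh]
    · rw [map_mul, map_inv, mul_inv_eq_one]; ext1 ⟨i, j, e⟩; simp [sh, pa_apply]; ring
    · rw [map_mul, map_inv, mul_inv_eq_one]; ext1 ⟨i, j, e⟩; simp [sh, pa_apply, hc]; ring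
  have h1 : ∀ i j y, PresentedGroup.toGroup h (pos i j) y = (y.1 - i, y.2.1 - j, y.2.2) := by
    rintro i j ⟨k, l, e⟩
    simp [pos, s, t, sh, sub_eq_add_neg]
  refine ⟨PresentedGroup.toGroup h, h1, fun i j y => ?_⟩
  have h2 : (PresentedGroup.toGroup h (pos i j))⁻¹ y = (y.1 + i, y.2.1 + j, y.2.2) := by
    rw [Equiv.Perm.inv_eq_iff_eq, h1]; simp
  rw [mm, map_mul, map_mul, map_inv, Equiv.Perm.mul_apply, Equiv.Perm.mul_apply, h2, h1]
  simp [a, pa_apply]

theorem η_V {c : ℤ → ℤ → ZMod 2} {η : G →* Equiv.Perm Y}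
    (h : ∀ i j y, η (mm i j) y = (y.1, y.2.1, y.2.2 + c (y.1 + i) (y.2.1 + j))) {A B C : ℤ}
    (y : Y) (hc : ∀ i j, A ≤ i → B ≤ j → i + j ≤ C → c (y.1 + i) (y.2.1 + j) = 0) {f : G}
    (hf : f ∈ V A B C) : η f y = y := by
  have : V A B C ≤ (MulAction.stabilizer (Equiv.Perm Y) y).comap η := by
    rw [V, Subgroup.closure_le]
    rintro _ ⟨i, j, a, b, d, rfl⟩
    show η (mm i j) y = y
    rw [h, hc i j a b d, add_zero]
  exact this hf

theorem pos_uniq {A B C A' B' C' i j k l : ℤ} {f f' : G} (hf : f ∈ V A B C) (hf' : f' ∈ V A' B' C')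
    (e : f * pos i j = f' * pos k l) : i = k ∧ j = l := by
  obtain ⟨η, h1, h2⟩ := exists_η 0 (by simp)
  have := congrArg (fun g => η g (0, 0, 0)) e
  simp only [map_mul, Equiv.Perm.mul_apply, η_V h2 _ (by simp) hf, η_V h2 _ (by simp) hf', h1,
    Prod.mk.injEq] at this
  omega

def cA (n : ℤ) (i j : ℤ) : ZMod 2 := if i ≤ -n then (Ring.choose j (-n - i).toNat : ℤ) else 0

theorem cA_rel (n i j : ℤ) : cA n i (j + 1) = cA n i j + cA n (i + 1) j := by
  unfold cA
  rcases lt_trichotomy i (-n) with h | h | h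
  · rw [if_pos h.le, if_pos h.le, if_pos (by omega),
      show (-n - i).toNat = (-n - (i + 1)).toNat + 1 by omega, Ring.choose_succ_succ]
    push_cast; ring
  · subst h; simp
  · rw [if_neg (by omega), if_neg (by omega), if_neg (by omega)]; simp

theorem cA_zero {n i : ℤ} (h : -n < i) (j : ℤ) : cA n i j = 0 := if_neg (by omega)
theorem cA_one (n j : ℤ) : cA n (-n) j = 1 := by simp [cA]

def gn (n : ℤ) : G := mm (-n) 0 * mm 0 (-n) * mm n 0

theorem detect (c : ℤ → ℤ → ZMod 2) (hc : ∀ i j, c i (j + 1) = c i j + c (i + 1) j) (n : ℤ)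
    (h1 : c n 0 + c 0 (-n) + c (-n) 0 = 1) {A B C : ℤ}
    (h0 : ∀ i j, A ≤ i → B ≤ j → i + j ≤ C → c i j = 0) : gn n ∉ V A B C := by
  intro h
  obtain ⟨η, -, h2⟩ := exists_η c hc
  have := η_V h2 (0, 0, 0) (by simpa using h0) h
  simp [gn, h2, h1] at this

theorem gn_ext {n : ℤ} (hn : 0 < n) {A B C : ℤ} (h : gn n ∈ V A B C) :
    A ≤ -n ∧ B ≤ -n ∧ n ≤ C := by
  refine ⟨?_, ?_, ?_⟩ <;> by_contra hc
  · refine detect (cA n) (cA_rel n) n ?_ (fun i j a _ _ => cA_zero (by omega) _) h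
    rw [cA_zero (by omega), cA_zero (by omega), cA_one]; simp
  · refine detect (fun i j => cA n j i) (fun i j => ?_) n ?_
      (fun i j _ a _ => cA_zero (by omega) _) h
    · rw [cA_rel, ← add_assoc, two, zero_add]
    · rw [cA_zero (by omega), cA_one, cA_zero (by omega)]; simp
  · refine detect (fun i j => cA n (-i - j) j) (fun i j => ?_) n ?_
      (fun i j _ _ a => cA_zero (by omega) _) h
    · rw [cA_rel, add_comm]; congr 2 <;> ring
    · simp only [sub_zero, cA_one]
      rw [cA_zero (by omega), cA_zero (by omega)]; simp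

theorem lower (n : ℕ) (hn : 0 < n) : 6 * n ≤ (cay S).dist 1 (gn n) := by
  obtain ⟨A, B, I, J, i, j, f, hf, e, c⟩ := walk_inv _ (gn n) le_rfl
  have hg : gn n ∈ V (-n) (-n) n :=
    mul_mem (mul_mem (mm_mem (by omega) (by omega) (by omega))
      (mm_mem (by omega) (by omega) (by omega))) (mm_mem (by omega) (by omega) (by omega))
  obtain ⟨rfl, rfl⟩ := pos_uniq hf hg (k := 0) (l := 0) (by rw [← e]; simp [pos])
  have : gn n = f := by simpa [pos] using e
  have := gn_ext (n := n) (by omega) (this ▸ hf)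
  omega

theorem pocket (D : ℕ) : ∃ (X : Set G) (m K : ℕ), (∀ x ∈ X, (cay S).dist 1 x ≤ K) ∧
      (∃ g ∈ X, m + D < (cay S).dist 1 g) ∧
      ∀ x ∈ X, ∀ y ∉ X, (cay S).Adj x y → (cay S).dist 1 x ≤ m := by
  obtain ⟨n, hn⟩ : ∃ n, n = D + 2 := ⟨_, rfl⟩
  refine ⟨{x | ∃ i j : ℤ, ∃ f ∈ V (-n) (-n) n, -n ≤ i ∧ -n ≤ j ∧ i + j ≤ n ∧ x = f * pos i j},
    5 * n + 1, 7 * n + 1, ?_, ⟨gn n, ⟨0, 0, gn n, ?_, by omega, by omega, by omega,
    by simp [pos]⟩, ?_⟩, ?_⟩
  · rintro _ ⟨i, j, f, hf, a, b, c, rfl⟩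
    exact upper_all n i j a b c hf
  · exact mul_mem (mul_mem (mm_mem (by omega) (by omega) (by omega))
      (mm_mem (by omega) (by omega) (by omega))) (mm_mem (by omega) (by omega) (by omega))
  · have := lower n (by omega); omega
  · rintro _ ⟨i, j, f, hf, a, b, c, rfl⟩ y hy e
    refine upper_bd n i j a b c ?_ hf
    by_contra hc
    obtain ⟨e1, e2, di, dj, b1, b2, b3, rfl⟩ := adj_form e
    obtain ⟨f', hf', e⟩ := move (di := di) (dj := dj) hf b1 b2 a b c (by omega) (by omega)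
      (by omega)
    exact hy ⟨_, _, f', hf', by omega, by omega, by omega, e⟩

theorem unb (R : ℕ) : ∃ h, R ≤ (cay S).dist 1 h :=
  ⟨gn (R + 1 : ℕ), le_trans (by omega) (lower (R + 1) (by omega))⟩

end Pool.Agent.H68.Baum
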