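import Mathlib

namespace Pool.Agent.H68.Bg

open Relation

variable {X : Type*} (A : X → X → Prop)

def Sh (w : ℕ → X) (n : ℕ) : Prop := w n = w (n + 2) ∧ A (w n) (w (n + 1))

def mv (w : ℕ → X) (n : ℕ) : ℕ → X :=
  fun k => if k = n ∨ k = n + 2 then w (n + 1) else if k = n + 1 then w n else w k

def St (w w' : ℕ → X) : Prop := ∃ n, Sh A w n ∧ w' = mv w n

structure Gr : Prop where
  symm : ∀ x y, A x y → A y x
  irr : ∀ x, ¬ A x x
  tri : ∀ x y z, A x y → A y z → ¬ A z x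

structure Sg (C : Finset ℕ) (L : ℕ → Bool → X) : Prop where
  adj : ∀ n ∈ C, ∀ b, A (L n b) (L n (!b))
  sep : ∀ n ∈ C, n + 1 ∉ C
  dif : ∀ n ∈ C, n + 2 ∈ C → ∀ b b', L n b = L (n + 2) b' → L n (!b) ≠ L (n + 2) (!b')

def BR (C : Finset ℕ) (L : ℕ → Bool → X) (c : ℕ → Bool) (n : ℕ) : Prop :=
  n + 2 ∈ C ∧ L (n + 2) (c (n + 2)) = L n (!c n)

def BL (C : Finset ℕ) (L : ℕ → Bool → X) (c : ℕ → Bool) (n : ℕ) : Prop :=
  ∃ k ∈ C, n = k + 2 ∧ L k (c k) = L n (!c n)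

structure Comp (C : Finset ℕ) (L : ℕ → Bool → X) (w : ℕ → X) (c : ℕ → Bool) : Prop where
  ce : ∀ n ∈ C, w (n + 1) = L n (c n)
  r : ∀ n ∈ C, ¬ BR C L c n → w (n + 2) = L n (!c n)
  l : ∀ n ∈ C, ¬ BL C L c n → w n = L n (!c n)

def Valid (C : Finset ℕ) (L : ℕ → Bool → X) (c : ℕ → Bool) : Prop :=
  ∀ n ∈ C, n + 2 ∈ C → L n (c n) ≠ L (n + 2) (c (n + 2))

variable {A} {C : Finset ℕ} {L : ℕ → Bool → X} {w : ℕ → X} {c : ℕ → Bool}

theorem mv_out {n k : ℕ} (h : k < n ∨ n + 2 < k) : mv w n k = w k := by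
  unfold mv; rw [if_neg (by omega), if_neg (by omega)]
theorem mv0 (n : ℕ) : mv w n n = w (n + 1) := by simp [mv]
theorem mv1 (n : ℕ) : mv w n (n + 1) = w n := by simp [mv]
theorem mv2 (n : ℕ) : mv w n (n + 2) = w (n + 1) := by simp [mv]

theorem St.symm (hA : Gr A) {w' : ℕ → X} (h : St A w w') : St A w' w := by
  obtain ⟨n, h, rfl⟩ := h
  refine ⟨n, ⟨by rw [mv0, mv2], by rw [mv0, mv1]; exact hA.symm _ _ h.2⟩, ?_⟩
  funext k
  by_cases h0 : k = n
  · rw [h0, mv0, mv1]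
  by_cases h1 : k = n + 1
  · rw [h1, mv1, mv0]
  by_cases h2 : k = n + 2
  · rw [h2, mv2, mv1, h.1]
  rw [mv_out (by omega), mv_out (by omega)]

theorem Sg.ne (hA : Gr A) (hS : Sg A C L) {n : ℕ} (hn : n ∈ C) (b : Bool) : L n b ≠ L n (!b) :=
  fun h => hA.irr _ (h ▸ hS.adj n hn b)

theorem br_bl (hS : Sg A C L) {n : ℕ} (hn : n ∈ C) (h : BR C L c n) : ¬ BL C L c (n + 2) := by
  rintro ⟨k, -, e, h2⟩
  obtain rfl : n = k := by omega
  exact hS.dif n hn h.1 _ _ h2 (by rw [Bool.not_not]; exact h.2.symm)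

theorem Comp.valid (hA : Gr A) (hS : Sg A C L) (h : Comp C L w c) : Valid C L c := by
  intro n hn hn2 e
  have h1 := h.r n hn (fun hb => hS.ne hA hn (c n) (e.trans hb.2))
  have h2 := h.l (n + 2) hn2 (by
    rintro ⟨k, -, e2, h2⟩
    obtain rfl : n = k := by omega
    exact hS.ne hA hn2 _ (e.symm.trans h2))
  exact hS.dif n hn hn2 _ _ e (h1.symm.trans h2)

theorem Comp.sh (hA : Gr A) (hS : Sg A C L) (h : Comp C L w c) {n : ℕ} (hn : n ∈ C)
    (hr : ¬ BR C L c n) (hl : ¬ BL C L c n) : Sh A w n :=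
  ⟨by rw [h.r n hn hr, h.l n hn hl], by
    rw [h.l n hn hl, h.ce n hn]; exact hA.symm _ _ (hS.adj n hn _)⟩

def flip (c : ℕ → Bool) (n : ℕ) : ℕ → Bool := Function.update c n (!c n)

theorem flip_self (n : ℕ) : flip c n n = !c n := by simp [flip]
theorem flip_ne {n k : ℕ} (h : k ≠ n) : flip c n k = c k := by simp [flip, h]

theorem Comp.flip (hS : Sg A C L) (h : Comp C L w c) {n : ℕ} (hn : n ∈ C)
    (hr : ¬ BR C L c n) (hl : ¬ BL C L c n) : Comp C L (mv w n) (flip c n) := by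
  have e1 := h.r n hn hr
  have e2 := h.l n hn hl
  have s1 := hS.sep n hn
  refine ⟨fun k hk => ?_, fun k hk hb => ?_, fun k hk hb => ?_⟩
  · by_cases hkn : k = n
    · rw [hkn, mv1, flip_self, e2]
    · have s2 := hS.sep k hk
      have : k + 1 ≠ n := fun e => s2 (e ▸ hn)
      have : k ≠ n + 1 := fun e => s1 (e ▸ hk)
      rw [mv_out (by omega), flip_ne hkn, h.ce k hk]
  · by_cases hkn : k = n
    · rw [hkn, mv2, flip_self, Bool.not_not, h.ce n hn]
    rw [flip_ne hkn]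
    by_cases hk2 : k + 2 = n
    · subst hk2
      rw [mv0, h.ce _ hn]
      by_contra hc
      have := h.r k hk (fun hb' => hc hb'.2)
      exact hb ⟨hn, by rw [flip_self, flip_ne hkn, ← e2, this]⟩
    · have s2 := hS.sep k hk
      have : k + 1 ≠ n := fun e => s2 (e ▸ hn)
      rw [mv_out (by omega)]
      exact h.r k hk (fun hb' => hb ⟨hb'.1, by rw [flip_ne hk2, flip_ne hkn]; exact hb'.2⟩)
  · by_cases hkn : k = n
    · rw [hkn, mv0, flip_self, Bool.not_not, h.ce n hn]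
    rw [flip_ne hkn]
    by_cases hk2 : k = n + 2
    · subst hk2
      rw [mv2, h.ce _ hn]
      by_contra hc
      have := h.l _ hk (by
        rintro ⟨j, -, e, h2⟩
        obtain rfl : n = j := by omega
        exact hc h2)
      exact hb ⟨n, hn, rfl, by rw [flip_self, flip_ne hkn, ← e1, this]⟩
    · have : k ≠ n + 1 := fun e => s1 (e ▸ hk)
      rw [mv_out (by omega)]
      refine h.l k hk ?_
      rintro ⟨j, hj, e, h2⟩
      exact hb ⟨j, hj, e, by rw [flip_ne hkn, flip_ne (by omega)]; exact h2⟩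

theorem bne {a b : Bool} (h : a ≠ b) : b = !a := by revert a b; decide

theorem descent (hS : Sg A C L) {c' : ℕ → Bool} (hv : Valid C L c') (h : ∃ n ∈ C, c n ≠ c' n) :
    ∃ n ∈ C, c n ≠ c' n ∧ ¬ BR C L c n ∧ ¬ BL C L c n := by
  classical
  have hne : (C.filter fun n => c n ≠ c' n ∧ ¬ BL C L c n).Nonempty := by
    obtain ⟨n, hn, hm⟩ := Finset.exists_min_image (C.filter fun n => c n ≠ c' n) id
      (by obtain ⟨n, h1, h2⟩ := h; exact ⟨n, Finset.mem_filter.2 ⟨h1, h2⟩⟩)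
    rw [Finset.mem_filter] at hn
    refine ⟨n, Finset.mem_filter.2 ⟨hn.1, hn.2, ?_⟩⟩
    rintro ⟨k, hk, rfl, h2⟩
    have : c k ≠ c' k := fun e => hv k hk hn.1 (by rw [← e, h2, ← bne hn.2])
    have := hm k (Finset.mem_filter.2 ⟨hk, this⟩)
    simp at this
  obtain ⟨n, hn, hm⟩ := Finset.exists_max_image _ id hne
  rw [Finset.mem_filter] at hn
  refine ⟨n, hn.1, hn.2.1, fun hb => ?_, hn.2.2⟩
  have : c (n + 2) ≠ c' (n + 2) := fun e => hv n hn.1 hb.1 (by rw [← e, hb.2, ← bne hn.2.1])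
  have := hm (n + 2) (Finset.mem_filter.2 ⟨hb.1, this, br_bl hS hn.1 hb⟩)
  simp at this

def dd (C : Finset ℕ) (c c' : ℕ → Bool) : ℕ := (C.filter fun n => c n ≠ c' n).card

theorem dd_flip {c' : ℕ → Bool} {n : ℕ} (hn : n ∈ C) (h : c n ≠ c' n) :
    dd C (flip c n) c' + 1 = dd C c c' := by
  unfold dd
  rw [← Finset.card_erase_add_one (s := C.filter fun n => c n ≠ c' n) (a := n)
    (Finset.mem_filter.2 ⟨hn, h⟩)]
  congr 2
  ext k
  by_cases hk : k = n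
  · subst hk; simp [flip_self, ← bne h]
  · simp [flip_ne hk, hk]

theorem realize (hA : Gr A) (hS : Sg A C L) (h : Comp C L w c) {c' : ℕ → Bool} (hv : Valid C L c') :
    ∃ w' c'', ReflTransGen (St A) w w' ∧ Comp C L w' c'' ∧ (∀ n ∈ C, c'' n = c' n) ∧
      ∀ k, (∀ n ∈ C, c n ≠ c' n → k < n ∨ n + 2 < k) → w' k = w k := by
  induction hd : dd C c c' generalizing w c with
  | zero =>
    refine ⟨w, c, .refl, h, fun n hn => ?_, fun _ _ => rfl⟩
    by_contra hc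
    exact Finset.card_ne_zero_of_mem (Finset.mem_filter.2 ⟨hn, hc⟩) hd
  | succ d ih =>
    obtain ⟨n, hn, h1, h2, h3⟩ := descent (c := c) hS hv (by
      obtain ⟨n, hn⟩ := Finset.card_pos.1 (show 0 < dd C c c' by omega)
      exact ⟨n, (Finset.mem_filter.1 hn).1, (Finset.mem_filter.1 hn).2⟩)
    obtain ⟨w', c'', a1, a2, a3, a4⟩ := ih (h.flip hS hn h2 h3) (by have := dd_flip hn h1; omega)
    refine ⟨w', c'', .head ⟨n, h.sh hA hS hn h2 h3, rfl⟩ a1, a2, a3, fun k hk => ?_⟩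
    rw [a4 k, mv_out (hk n hn h1)]
    intro j hj hc
    by_cases e : j = n
    · rw [e]; exact hk n hn h1
    · rw [flip_ne e] at hc; exact hk j hj hc

end Pool.Agent.H68.Bg
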