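import Pool.Agent.H68.Bg1

namespace Pool.Agent.H68.Bg

open Relation

variable {X : Type*} {A : X → X → Prop} {C : Finset ℕ} {L : ℕ → Bool → X} {w : ℕ → X} {c : ℕ → Bool}

theorem avoid {a b : Bool → X} (ha : ∀ x, a x ≠ a (!x)) (hd : ∀ x y, a x = b y → a (!x) ≠ b (!y)) :
    ∃ x, ∀ y, a x ≠ b y := by
  by_contra hc
  push Not at hc
  obtain ⟨y, hy⟩ := hc true
  obtain ⟨z, hz⟩ := hc false
  by_cases e : y = z
  · exact ha true (by rw [hy, e, ← hz]; rfl)
  · exact hd true y hy (by rw [← bne e, ← hz]; rfl)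

theorem avR (hA : Gr A) (hS : Sg A C L) :
    ∃ e : ℕ → Bool, ∀ n ∈ C, n + 2 ∈ C → ∀ y, L n y ≠ L (n + 2) (e (n + 2)) := by
  have : ∀ k, ∃ x : Bool, ∀ n ∈ C, n + 2 ∈ C → k = n + 2 → ∀ y, L n y ≠ L (n + 2) x := fun k => by
    by_cases h : ∃ n ∈ C, n + 2 ∈ C ∧ k = n + 2
    · obtain ⟨n, h1, h2, rfl⟩ := h
      obtain ⟨x, hx⟩ := avoid (a := L (n + 2)) (b := L n) (hS.ne hA h2)
        (fun x y h3 h4 => hS.dif n h1 h2 _ _ h3.symm h4.symm)
      refine ⟨x, fun m _ _ e y => ?_⟩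
      obtain rfl : n = m := by omega
      exact (hx y).symm
    · exact ⟨true, fun n h1 h2 e => (h ⟨n, h1, h2, e⟩).elim⟩
  choose e he using this
  exact ⟨e, fun n h1 h2 => he _ n h1 h2 rfl⟩

theorem avL (hA : Gr A) (hS : Sg A C L) :
    ∃ e : ℕ → Bool, ∀ n ∈ C, n + 2 ∈ C → ∀ y, L n (e n) ≠ L (n + 2) y := by
  have : ∀ n, ∃ x : Bool, n ∈ C → n + 2 ∈ C → ∀ y, L n x ≠ L (n + 2) y := fun n => by
    by_cases h : n ∈ C ∧ n + 2 ∈ C
    · obtain ⟨x, hx⟩ := avoid (a := L n) (b := L (n + 2)) (hS.ne hA h.1) (hS.dif n h.1 h.2)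
      exact ⟨x, fun _ _ => hx⟩
    · exact ⟨true, fun h1 h2 => (h ⟨h1, h2⟩).elim⟩
  choose e he using this
  exact ⟨e, he⟩

theorem freeR (hA : Gr A) (hS : Sg A C L) (h : Comp C L w c) {i : ℕ} (hi : i ∈ C) :
    ∃ w', ReflTransGen (St A) w w' ∧ (∀ k, k ≤ i + 1 → w' k = w k) ∧ w' (i + 2) = L i (!c i) := by
  obtain ⟨e, he⟩ := avR hA hS
  obtain ⟨w', c'', a1, a2, a3, a4⟩ := realize (c' := fun k => if k ≤ i then c k else e k) hA hS h (by
    intro n h1 h2
    by_cases hn : n + 2 ≤ i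
    · simp only [if_pos hn, if_pos (show n ≤ i by omega)]; exact h.valid hA hS n h1 h2
    · simp only [if_neg hn]; exact he n h1 h2 _)
  have e1 : c'' i = c i := by rw [a3 i hi, if_pos le_rfl]
  refine ⟨w', a1, fun k hk => a4 k fun n hn hc => ?_, ?_⟩
  · have : ¬ n ≤ i := fun h1 => hc (by simp only [if_pos h1])
    have : n ≠ i + 1 := fun e => hS.sep i hi (e ▸ hn)
    omega
  · rw [← e1]
    refine a2.r i hi fun hb => ?_
    have := hb.2
    rw [a3 _ hb.1, if_neg (by omega)] at this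
    exact he i hi hb.1 _ this.symm

theorem freeL (hA : Gr A) (hS : Sg A C L) (h : Comp C L w c) {i : ℕ} (hi : i ∈ C) :
    ∃ w', ReflTransGen (St A) w w' ∧ (∀ k, i + 1 ≤ k → w' k = w k) ∧ w' i = L i (!c i) := by
  obtain ⟨e, he⟩ := avL hA hS
  obtain ⟨w', c'', a1, a2, a3, a4⟩ := realize (c' := fun k => if i ≤ k then c k else e k) hA hS h (by
    intro n h1 h2
    by_cases hn : i ≤ n
    · simp only [if_pos hn, if_pos (show i ≤ n + 2 by omega)]; exact h.valid hA hS n h1 h2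
    · simp only [if_neg hn]; exact he n h1 h2 _)
  have e1 : c'' i = c i := by rw [a3 i hi, if_pos le_rfl]
  refine ⟨w', a1, fun k hk => a4 k fun n hn hc => ?_, ?_⟩
  · have : ¬ i ≤ n := fun h1 => hc (by simp only [if_pos h1])
    have : i ≠ n + 1 := fun e => hS.sep n hn (e ▸ hi)
    omega
  · rw [← e1]
    refine a2.l i hi ?_
    rintro ⟨k, hk, rfl, hb⟩
    rw [a3 _ hk, if_neg (by omega)] at hb
    exact he k hk hi _ hb

def Good (A : X → X → Prop) (w : ℕ → X) : Prop :=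
  ∀ w', ReflTransGen (St A) w w' → ∀ n, Sh A w' n → ¬ Sh A w' (n + 1)

theorem sh_in (hA : Gr A) (hS : Sg A C L) (h : Comp C L w c) {j : ℕ} (hj : j ∈ C) (hs : Sh A w j) :
    ¬ BR C L c j ∧ ¬ BL C L c j := by
  have a0 := hs.2
  constructor
  · intro hb
    rw [hs.1, h.l _ hb.1 (br_bl hS hj hb), h.ce j hj] at a0
    have a1 := hS.adj j hj (c j)
    have a2 := hS.adj _ hb.1 (c (j + 2))
    rw [hb.2] at a2
    exact hA.tri _ _ _ a1 a2 a0
  · rintro ⟨k, hk, rfl, hb⟩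
    rw [h.r k hk (fun hb' => br_bl hS hk hb' ⟨k, hk, rfl, hb⟩), h.ce _ hj] at a0
    have a1 := hS.adj _ hj (c (k + 2))
    have a2 := hS.adj k hk (c k)
    rw [hb] at a2
    exact hA.tri _ _ _ a1 a2 a0

theorem sh_next (hA : Gr A) (hS : Sg A C L) (h : Comp C L w c) (hg : Good A w) {j : ℕ}
    (hs : Sh A w j) : j + 1 ∉ C := by
  intro hi
  have e1 := h.ce _ hi
  have e2 := h.l _ hi (by
    rintro ⟨k, hk, e, hb⟩
    obtain rfl : j = k + 1 := by omega
    exact hS.ne hA hi _ (by rw [← e1, ← hb, ← h.ce k hk]; exact hs.1.symm))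
  obtain ⟨w', a1, a2, a3⟩ := freeR hA hS h hi
  refine hg w' a1 j ⟨by rw [a2 j (by omega), a2 _ le_rfl]; exact hs.1,
    by rw [a2 j (by omega), a2 _ (by omega)]; exact hs.2⟩ ⟨by rw [a3, a2 _ (by omega), e2], ?_⟩
  rw [a2 _ (by omega), a2 _ le_rfl, e1, e2]
  exact hA.symm _ _ (hS.adj _ hi _)

theorem sh_prev (hA : Gr A) (hS : Sg A C L) (h : Comp C L w c) (hg : Good A w) {i : ℕ}
    (hs : Sh A w (i + 1)) : i ∉ C := by
  intro hi
  have e1 := h.ce _ hi
  have e2 := h.r _ hi (fun hb => hS.ne hA hi _ (by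
    rw [← e1, ← hb.2, ← h.ce _ hb.1]; exact hs.1))
  obtain ⟨w', a1, a2, a3⟩ := freeL hA hS h hi
  refine hg w' a1 i ⟨by rw [a3, a2 _ (by omega), e2], ?_⟩
    ⟨by rw [a2 _ le_rfl, a2 _ (by omega)]; exact hs.1,
      by rw [a2 _ le_rfl, a2 _ (by omega)]; exact hs.2⟩
  rw [a3, a2 _ le_rfl, e1]
  exact hA.symm _ _ (hS.adj _ hi _)

theorem extend (hA : Gr A) (hS : Sg A C L) (h : Comp C L w c) (hg : Good A w) {j : ℕ}
    (hs : Sh A w j) (hj : j ∉ C) : ∃ L' c', Sg A (insert j C) L' ∧ Comp (insert j C) L' w c' := by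
  classical
  let L' := Function.update L j fun b => if b then w (j + 1) else w j
  let c' := Function.update c j true
  have L0 : ∀ b, L' j b = if b then w (j + 1) else w j := fun b => by simp [L']
  have L1 : ∀ k ∈ C, L' k = L k := fun k hk => Function.update_of_ne (fun (e : k = j) => hj (e ▸ hk)) _ _
  have c0 : c' j = true := by simp [c']
  have c1 : ∀ k ∈ C, c' k = c k := fun k hk => Function.update_of_ne (fun (e : k = j) => hj (e ▸ hk)) _ _
  have hne : w j ≠ w (j + 1) := fun e => hA.irr _ (e ▸ hs.2)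
  refine ⟨L', c', ⟨fun n hn b => ?_, fun n hn h1 => ?_, fun n hn h2 b b' e1 e2 => ?_⟩,
    fun n hn => ?_, fun n hn hb => ?_, fun n hn hb => ?_⟩
  · rcases Finset.mem_insert.1 hn with rfl | hn
    · rw [L0, L0]; cases b
      · exact hs.2
      · exact hA.symm _ _ hs.2
    · rw [L1 n hn]; exact hS.adj n hn b
  · rw [Finset.mem_insert] at hn h1
    rcases hn with rfl | hn <;> rcases h1 with e | h1
    · omega
    · exact sh_next hA hS h hg hs h1
    · subst e; exact sh_prev hA hS h hg hs hn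
    · exact hS.sep n hn h1
  · rw [Finset.mem_insert] at hn h2
    rcases hn with rfl | hn <;> rcases h2 with e | h2
    · omega
    · rw [L0, L1 _ h2] at e1 e2
      have a1 := h.l _ h2 (by rintro ⟨k, hk, e, -⟩; exact hj ((show k = n by omega) ▸ hk))
      have a2 := h.ce _ h2
      have a3 := hS.ne hA h2 (c (n + 2))
      refine hg w .refl n hs ⟨?_, by rw [← hs.1]; exact hA.symm _ _ hs.2⟩
      rw [← hs.1] at a1
      rw [a2]
      revert e1 e2 a1 a3 hne
      generalize c (n + 2) = x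
      cases b <;> cases b' <;> cases x <;> simp_all
    · subst e
      rw [L0, L1 _ hn] at e1 e2
      have a1 := h.r _ hn (fun hb => hj hb.1)
      have a2 := h.ce _ hn
      have a3 := hS.ne hA hn (c n)
      refine hg w .refl (n + 1) ⟨?_, ?_⟩ hs
      · rw [a2]
        revert e1 e2 a1 a3 hne
        generalize c n = x
        cases b <;> cases b' <;> cases x <;> simp_all
      · rw [a2, a1]; exact hS.adj n hn _
    · rw [L1 _ hn, L1 _ h2] at e1 e2; exact hS.dif n hn h2 b b' e1 e2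
  · rcases Finset.mem_insert.1 hn with rfl | hn
    · rw [L0, c0]; rfl
    · rw [L1 n hn, c1 n hn]; exact h.ce n hn
  · rcases Finset.mem_insert.1 hn with rfl | hn
    · rw [L0, c0]; exact hs.1.symm
    · rw [L1 n hn, c1 n hn]
      exact h.r n hn fun hb' => hb ⟨Finset.mem_insert_of_mem hb'.1, by
        rw [L1 n hn, c1 n hn, L1 _ hb'.1, c1 _ hb'.1]; exact hb'.2⟩
  · rcases Finset.mem_insert.1 hn with rfl | hn
    · rw [L0, c0]; rfl
    · rw [L1 n hn, c1 n hn]
      refine h.l n hn ?_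
      rintro ⟨k, hk, e, hb'⟩
      exact hb ⟨k, Finset.mem_insert_of_mem hk, e, by
        rw [L1 n hn, c1 n hn, L1 _ hk, c1 _ hk]; exact hb'⟩

theorem determ (hS : Sg A C L) {w' : ℕ → X} {c' : ℕ → Bool} (h : Comp C L w c) (h' : Comp C L w' c')
    (hc : ∀ n ∈ C, c n = c' n) (hb : ∀ k, (∀ n ∈ C, k < n ∨ n + 2 < k) → w k = w' k) : w = w' := by
  have key : ∀ n ∈ C, ¬ BL C L c n → w n = w' n := fun n hn h1 => by
    rw [h.l n hn h1, h'.l n hn, hc n hn]
    rintro ⟨k, hk, e, h2⟩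
    exact h1 ⟨k, hk, e, by rw [hc k hk, hc n hn]; exact h2⟩
  have key2 : ∀ n ∈ C, w (n + 2) = w' (n + 2) := fun n hn => by
    by_cases h1 : BR C L c n
    · exact key _ h1.1 (br_bl hS hn h1)
    · rw [h.r n hn h1, h'.r n hn, hc n hn]
      exact fun h2 => h1 ⟨h2.1, by rw [hc n hn, hc _ h2.1]; exact h2.2⟩
  funext k
  by_cases hk : ∀ n ∈ C, k < n ∨ n + 2 < k
  · exact hb k hk
  push Not at hk
  obtain ⟨n, hn, h1, h2⟩ := hk
  obtain rfl | rfl | rfl : k = n ∨ k = n + 1 ∨ k = n + 2 := by omega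
  · by_cases h3 : BL C L c k
    · obtain ⟨j, hj, rfl, -⟩ := h3; exact key2 j hj
    · exact key k hn h3
  · rw [h.ce n hn, h'.ce n hn, hc n hn]
  · exact key2 n hn

theorem antip (hA : Gr A) (hS : Sg A C L) :
    ∃ c : ℕ → Bool, Valid C L c ∧ Valid C L (fun n => !c n) := by
  classical
  let f : ℕ → Bool → Bool := fun n b =>
    if L n b = L (n + 2) true ∨ L n (!b) = L (n + 2) false then false else true
  let g : ℕ → Bool × Bool := fun n => Nat.rec (true, true) (fun n p => (p.2, f n p.1)) n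
  have hg : ∀ n, (g (n + 2)).1 = f n (g n).1 := fun n => rfl
  have key : ∀ n ∈ C, n + 2 ∈ C → ∀ b, L n b ≠ L (n + 2) (f n b) ∧ L n (!b) ≠ L (n + 2) (!f n b) := by
    intro n h1 h2 b
    have a1 := hS.ne hA h1 b
    have a2 : L (n + 2) true ≠ L (n + 2) false := hS.ne hA h2 true
    simp only [f]
    split_ifs with h
    · rcases h with h | h
      · exact ⟨fun e => a2 (h.symm.trans e), fun e => a1 (h.trans e.symm)⟩
      · exact ⟨fun e => a1 (e.trans h.symm), fun e => a2 (e.symm.trans h)⟩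
    · exact ⟨fun e => h (Or.inl e), fun e => h (Or.inr e)⟩
  exact ⟨fun n => (g n).1, fun n h1 h2 => by simp only [hg]; exact (key n h1 h2 _).1,
    fun n h1 h2 => by simp only [hg]; exact (key n h1 h2 _).2⟩

end Pool.Agent.H68.Bg
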