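import Mathlib

namespace Pool.Agent.H68.Bg

variable {B : Type*}

/-- `b` arises from `a` by the braid move `s t s ↦ t s t` (`m(s,t) = 3`) at positions `n, n+1, n+2`. -/
def Mv (M : CoxeterMatrix B) (n : ℕ) (a b : List B) : Prop :=
  ∃ (x y : List B) (s t : B), x.length = n ∧ M s t = 3 ∧
    a = x ++ s :: t :: s :: y ∧ b = x ++ t :: s :: t :: y

/-- One braid move. -/
def Braid (M : CoxeterMatrix B) (a b : List B) : Prop := ∃ n, Mv M n a b

/-- The braid class of `a`. -/
def Cls (M : CoxeterMatrix B) (a : List B) : Set (List B) :=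
  {b | Relation.ReflTransGen (Braid M) a b}

/-- The braid graph of `a`. -/
def graph (M : CoxeterMatrix B) (a : List B) : SimpleGraph (Cls M a) :=
  SimpleGraph.fromRel fun u v => Braid M u.1 v.1

/-- The braid shadows `{n, n+1, n+2}` of the words of the class, each recorded by `n`. -/
def shadows (M : CoxeterMatrix B) (a : List B) : Set ℕ :=
  {n | ∃ b ∈ Cls M a, ∃ (x y : List B) (s t : B), x.length = n ∧ M s t = 3 ∧
    b = x ++ s :: t :: s :: y}

/-- The hypercube graph `Q_n`. -/
def cube (n : ℕ) : SimpleGraph (Fin n → Bool) :=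
  SimpleGraph.fromRel fun u v => hammingDist u v = 1

/-- `G` embeds isometrically in `Q_n`. -/
def Embeds {V : Type*} (G : SimpleGraph V) (n : ℕ) : Prop :=
  ∃ f : V → Fin n → Bool, ∀ u v, (cube n).edist (f u) (f v) = G.edist u v

end Pool.Agent.H68.Bg
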