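import Pool.Agent.H68.Bg2
import Pool.Agent.H68.BgDefs

namespace Pool.Agent.H68.Bg

open Relation

section abs
variable {X : Type*} {A : X → X → Prop} {C : Finset ℕ} {L : ℕ → Bool → X} {w : ℕ → X} {c : ℕ → Bool}

theorem Comp.uniq (hA : Gr A) (hS : Sg A C L) {c' : ℕ → Bool} (h : Comp C L w c) (h' : Comp C L w c')
    {n : ℕ} (hn : n ∈ C) : c n = c' n := by
  by_contra hc
  exact hS.ne hA hn (c n) (by rw [← bne hc, ← h.ce n hn, h'.ce n hn])

theorem dd_congr {c₁ c₂ c' : ℕ → Bool} (h : ∀ n ∈ C, c₁ n = c₂ n) : dd C c₁ c' = dd C c₂ c' := by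
  unfold dd; congr 1; exact Finset.filter_congr fun n hn => by rw [h n hn]

theorem dd_flip_le (c' : ℕ → Bool) (n : ℕ) : dd C c c' ≤ dd C (flip c n) c' + 1 := by
  unfold dd
  refine (Finset.card_le_card (t := insert n _) fun k hk => ?_).trans (Finset.card_insert_le n _)
  by_cases e : k = n
  · simp [e]
  · exact Finset.mem_insert_of_mem (by simpa [flip_ne e] using hk)

theorem rsymm (hA : Gr A) {w' : ℕ → X} (h : ReflTransGen (St A) w w') : ReflTransGen (St A) w' w := by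
  induction h with
  | refl => exact .refl
  | tail _ h ih => exact .head (h.symm hA) ih

theorem struct (hA : Gr A) {w₀ : ℕ → X} (hg : Good A w₀) (m : ℕ)
    (hm : ∀ w, ReflTransGen (St A) w₀ w → ∀ k x, A (w k) x → k < m) :
    ∃ (C : Finset ℕ) (σ : (ℕ → X) → ℕ → Bool),
      (∀ w, ReflTransGen (St A) w₀ w → ∀ n, Sh A w n → n ∈ C ∧
        ∀ c', dd C (σ w) c' ≤ dd C (σ (mv w n)) c' + 1) ∧
      (∀ w w', ReflTransGen (St A) w₀ w → ReflTransGen (St A) w₀ w' →
        (dd C (σ w) (σ w') = 0 → w = w') ∧ (dd C (σ w) (σ w') ≠ 0 →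
          ∃ n, Sh A w n ∧ dd C (σ (mv w n)) (σ w') + 1 = dd C (σ w) (σ w'))) ∧
      (∃ w w', ReflTransGen (St A) w₀ w ∧ ReflTransGen (St A) w₀ w' ∧ dd C (σ w) (σ w') = C.card) ∧
      ∀ n ∈ C, ∃ w, ReflTransGen (St A) w₀ w ∧ Sh A w n := by
  classical
  let P : ℕ → Prop := fun k => ∃ w C L c, ReflTransGen (St A) w₀ w ∧ Sg A C L ∧ Comp C L w c ∧ C.card = k
  have P0 : P 0 := ⟨w₀, ∅, fun _ _ => w₀ 0, fun _ => true, .refl, ⟨by simp, by simp, by simp⟩,
    ⟨by simp, by simp, by simp⟩, rfl⟩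
  have Pb : ∀ k, P k → k ≤ m := by
    rintro _ ⟨w, C, L, c, h1, h2, h3, rfl⟩
    rw [← Finset.card_range m]
    refine Finset.card_le_card fun n hn => Finset.mem_range.2 ?_
    have := hm w h1 (n + 1) _ (by rw [h3.ce n hn]; exact h2.adj n hn _)
    omega
  obtain ⟨w₁, C, L, c₁, r₁, hS, h₁, hc⟩ := Nat.findGreatest_spec (P := P) (Nat.zero_le m) P0
  have good : ∀ w, ReflTransGen (St A) w₀ w → Good A w := fun w h w' h' => hg w' (h.trans h')
  have inC : ∀ w c n, ReflTransGen (St A) w₀ w → Comp C L w c → Sh A w n → n ∈ C := by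
    intro w c n h1 h2 h3
    by_contra hn
    obtain ⟨L', c', a1, a2⟩ := extend hA hS h2 (good w h1) h3 hn
    have p : P (C.card + 1) := ⟨w, _, L', c', h1, a1, a2, Finset.card_insert_of_notMem hn⟩
    have := Nat.le_findGreatest (Pb _ p) p
    omega
  have all : ∀ w, ReflTransGen (St A) w₁ w →
      (∃ c, Comp C L w c) ∧ ∀ k, (∀ n ∈ C, k < n ∨ n + 2 < k) → w k = w₁ k := by
    intro w h
    induction h with
    | refl => exact ⟨⟨c₁, h₁⟩, fun _ _ => rfl⟩
    | tail h1 h2 ih =>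
      obtain ⟨n, hs, rfl⟩ := h2
      obtain ⟨⟨c, hc⟩, hb⟩ := ih
      have hn := inC _ c n (r₁.trans h1) hc hs
      have := sh_in hA hS hc hn hs
      exact ⟨⟨_, hc.flip hS hn this.1 this.2⟩, fun k hk => by rw [mv_out (hk n hn), hb k hk]⟩
  have all' : ∀ w, ∃ c, ReflTransGen (St A) w₀ w → Comp C L w c := fun w => by
    by_cases h : ReflTransGen (St A) w₀ w
    · obtain ⟨c, hc⟩ := (all w ((rsymm hA r₁).trans h)).1
      exact ⟨c, fun _ => hc⟩
    · exact ⟨c₁, fun h' => (h h').elim⟩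
  choose σ hσ using all'
  have fl : ∀ w n, ReflTransGen (St A) w₀ w → Sh A w n → ∀ c',
      dd C (σ (mv w n)) c' = dd C (flip (σ w) n) c' := fun w n h hs c' => by
    have hn := inC w _ n h (hσ w h) hs
    have := sh_in hA hS (hσ w h) hn hs
    exact dd_congr fun k hk => (hσ _ (h.tail ⟨n, hs, rfl⟩)).uniq hA hS
      ((hσ w h).flip hS hn this.1 this.2) hk
  refine ⟨C, σ, fun w h n hs => ⟨inC w _ n h (hσ w h) hs, fun c' => ?_⟩,
    fun w w' h h' => ⟨fun h0 => ?_, fun h0 => ?_⟩, ?_, fun n hn => ?_⟩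
  · rw [fl w n h hs]; exact dd_flip_le c' n
  · refine determ hS (hσ w h) (hσ w' h') (fun n hn => ?_) fun k hk => ?_
    · by_contra hc
      exact Finset.card_ne_zero_of_mem (Finset.mem_filter.2 ⟨hn, hc⟩) h0
    · rw [(all w ((rsymm hA r₁).trans h)).2 k hk, (all w' ((rsymm hA r₁).trans h')).2 k hk]
  · obtain ⟨n, hn, h1, h2, h3⟩ := descent (c := σ w) hS ((hσ w' h').valid hA hS) (by
      obtain ⟨n, hn⟩ := Finset.card_pos.1 (Nat.pos_of_ne_zero h0)
      exact ⟨n, (Finset.mem_filter.1 hn).1, (Finset.mem_filter.1 hn).2⟩)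
    have hs := (hσ w h).sh hA hS hn h2 h3
    exact ⟨n, hs, by rw [fl w n h hs]; exact dd_flip hn h1⟩
  · obtain ⟨c, v1, v2⟩ := antip hA hS
    obtain ⟨u, cu, a1, a2, a3, -⟩ := realize hA hS h₁ v1
    obtain ⟨v, cv, b1, b2, b3, -⟩ := realize hA hS h₁ v2
    refine ⟨u, v, r₁.trans a1, r₁.trans b1, ?_⟩
    unfold dd; congr 1
    refine Finset.filter_true_of_mem fun n hn => ?_
    rw [(hσ u (r₁.trans a1)).uniq hA hS a2 hn, (hσ v (r₁.trans b1)).uniq hA hS b2 hn, a3 n hn, b3 n hn]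
    cases c n <;> simp
  · obtain ⟨u, a1, a2, a3⟩ := freeR hA hS h₁ hn
    have hu := hσ u (r₁.trans a1)
    have e : σ u n = c₁ n := by
      by_contra hc
      exact hS.ne hA hn (σ u n) (by rw [← bne hc, ← hu.ce n hn, a2 _ le_rfl, h₁.ce n hn])
    obtain ⟨v, b1, b2, b3⟩ := freeL hA hS hu hn
    refine ⟨v, (r₁.trans a1).trans b1, by rw [b3, b2 _ (by omega), a3, e], ?_⟩
    rw [b3, b2 _ le_rfl, hu.ce n hn]
    exact hA.symm _ _ (hS.adj n hn _)

end abs

theorem edist_eq {V : Type*} (G : SimpleGraph V) (d : V → V → ℕ) (h0 : ∀ u, d u u = 0)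
    (hz : ∀ u v, d u v = 0 → u = v) (ha : ∀ u u' v, G.Adj u u' → d u v ≤ d u' v + 1)
    (hd : ∀ u v, d u v ≠ 0 → ∃ u', G.Adj u u' ∧ d u' v + 1 = d u v) (u v : V) :
    G.edist u v = d u v := by
  have h1 : ∀ n u, d u v = n → ∃ p : G.Walk u v, p.length = n := fun n => by
    induction n with
    | zero => intro u h; obtain rfl := hz _ _ h; exact ⟨.nil, rfl⟩
    | succ n ih =>
      intro u h
      obtain ⟨u', a1, a2⟩ := hd u v (by omega)
      obtain ⟨p, hp⟩ := ih u' (by omega)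
      exact ⟨.cons a1 p, by simp [hp]⟩
  have h2 : ∀ u v (p : G.Walk u v), d u v ≤ p.length := fun u v p => by
    induction p with
    | nil => simp [h0]
    | cons h p ih => exact (ha _ _ _ h).trans (by simpa using ih)
  obtain ⟨p, hp⟩ := h1 _ u rfl
  obtain ⟨q, hq⟩ := p.reachable.exists_walk_length_eq_edist
  refine le_antisymm (hp ▸ SimpleGraph.edist_le p) ?_
  rw [← hq]; exact_mod_cast h2 u v q

theorem cube_edist (n : ℕ) (u v : Fin n → Bool) : (cube n).edist u v = hammingDist u v := by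
  refine edist_eq _ (fun u v => hammingDist u v) (fun u => hammingDist_self u)
    (fun u v h => hammingDist_eq_zero.1 h) (fun u u' v h => ?_) (fun u v h => ?_) u v
  · have h1 : hammingDist u u' = 1 := by
      rcases ((SimpleGraph.fromRel_adj _ _ _).1 h).2 with h | h
      · exact h
      · rwa [hammingDist_comm]
    have := hammingDist_triangle u u' v
    omega
  · obtain ⟨i, hi⟩ := Function.ne_iff.1 (hammingDist_ne_zero.1 h)
    have h1 : hammingDist u (Function.update u i (v i)) = 1 := by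
      rw [hammingDist, Finset.card_eq_one]
      refine ⟨i, ?_⟩
      ext k
      by_cases e : k = i
      · subst e; simpa using hi
      · simp [e]
    refine ⟨Function.update u i (v i), (SimpleGraph.fromRel_adj _ _ _).2
      ⟨fun e => by rw [← e] at h1; simp at h1, Or.inl h1⟩, ?_⟩
    simp only [hammingDist]
    rw [← Finset.card_erase_add_one (s := Finset.univ.filter fun k => u k ≠ v k) (a := i)
      (by simpa using hi)]
    congr 2
    ext k
    by_cases e : k = i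
    · subst e; simp
    · simp [e]

end Pool.Agent.H68.Bg
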