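import Pool.Agent.H68.Bg3

namespace Pool.Agent.H68.Bg

open Relation

variable {B W : Type*} [Group W] {M : CoxeterMatrix B}

def AA (M : CoxeterMatrix B) (x y : Option B) : Prop := ∃ s t, x = some s ∧ y = some t ∧ M s t = 3

def ph (a : List B) : ℕ → Option B := fun i => a[i]?

theorem ph_app (x z : List B) (k : ℕ) : ph (x ++ z) (x.length + k) = z[k]? := by
  simp [ph, List.getElem?_append_right]

theorem Mv.spec {n : ℕ} {a b : List B} (h : Mv M n a b) :
    Sh (AA M) (ph a) n ∧ ph b = mv (ph a) n := by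
  obtain ⟨x, y, s, t, rfl, hm, rfl, rfl⟩ := h
  have e0 : ∀ z, ph (x ++ z) x.length = z[0]? := fun z => ph_app x z 0
  refine ⟨⟨by rw [e0, ph_app]; rfl, s, t, by rw [e0]; rfl, by rw [ph_app]; rfl, hm⟩, ?_⟩
  funext k
  rcases lt_or_ge k x.length with hk | hk
  · rw [mv_out (Or.inl hk)]; simp [ph, List.getElem?_append_left hk]
  · obtain ⟨j, rfl⟩ := Nat.exists_eq_add_of_le hk
    match j with
    | 0 => rw [add_zero, mv0, e0, ph_app]; rfl
    | 1 => rw [mv1, e0, ph_app]; rfl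
    | 2 => rw [mv2, ph_app, ph_app]; rfl
    | j + 3 => rw [mv_out (by omega), ph_app, ph_app]; rfl

theorem sh_split {a : List B} {n : ℕ} (h : Sh (AA M) (ph a) n) :
    ∃ (x y : List B) (s t : B), x.length = n ∧ M s t = 3 ∧ a = x ++ s :: t :: s :: y := by
  obtain ⟨h1, s, t, h2, h3, hm⟩ := h
  rw [h2] at h1
  obtain ⟨l2, e2⟩ := List.getElem?_eq_some_iff.1 h1.symm
  obtain ⟨l1, e1⟩ := List.getElem?_eq_some_iff.1 h3
  obtain ⟨l0, e0⟩ := List.getElem?_eq_some_iff.1 h2
  refine ⟨a.take n, a.drop (n + 3), s, t, by simp; omega, hm, ?_⟩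
  conv_lhs => rw [← List.take_append_drop n a, List.drop_eq_getElem_cons l0,
    List.drop_eq_getElem_cons l1, List.drop_eq_getElem_cons l2, e0, e1, e2]

theorem ph_inj {a b : List B} (h : ph a = ph b) : a = b := List.ext_getElem? (congrFun h)

theorem to_fun {a b : List B} (h : b ∈ Cls M a) : ReflTransGen (St (AA M)) (ph a) (ph b) := by
  induction h with
  | refl => exact .refl
  | tail _ h ih => obtain ⟨n, h⟩ := h; exact ih.tail ⟨n, h.spec⟩

theorem sh_mv {a : List B} {n : ℕ} (h : Sh (AA M) (ph a) n) : ∃ b, Mv M n a b := by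
  obtain ⟨x, y, s, t, h1, h2, h3⟩ := sh_split h
  exact ⟨_, x, y, s, t, h1, h2, h3, rfl⟩

theorem of_fun {a : List B} {w : ℕ → Option B} (h : ReflTransGen (St (AA M)) (ph a) w) :
    ∃ b ∈ Cls M a, ph b = w := by
  induction h with
  | refl => exact ⟨a, .refl, rfl⟩
  | tail _ h ih =>
    obtain ⟨b, hb, rfl⟩ := ih
    obtain ⟨n, h, rfl⟩ := h
    obtain ⟨c, hc⟩ := sh_mv h
    exact ⟨c, ReflTransGen.tail hb ⟨n, hc⟩, hc.spec.2⟩

theorem braid3 (cs : CoxeterSystem M W) {s t : B} (h : M s t = 3) :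
    cs.simple s * (cs.simple t * cs.simple s) = cs.simple t * (cs.simple s * cs.simple t) := by
  have h1 := cs.simple_mul_simple_pow s t
  rw [h, pow_three, ← mul_assoc, mul_assoc (cs.simple s * cs.simple t), mul_assoc (cs.simple s),
    show cs.simple s * (cs.simple t * (cs.simple s * cs.simple t * (cs.simple s * cs.simple t))) =
      (cs.simple s * (cs.simple t * cs.simple s)) * (cs.simple t * (cs.simple s * cs.simple t)) by
      simp only [mul_assoc], mul_eq_one_iff_eq_inv] at h1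
  rw [h1]; simp [mul_assoc]

theorem cls_inv (cs : CoxeterSystem M W) {a b : List B} (h : b ∈ Cls M a) :
    cs.wordProd b = cs.wordProd a ∧ b.length = a.length := by
  induction h with
  | refl => exact ⟨rfl, rfl⟩
  | tail _ h ih =>
    obtain ⟨n, x, y, s, t, -, hm, rfl, rfl⟩ := h
    rw [← ih.1, ← ih.2]
    refine ⟨?_, by simp⟩
    simp only [cs.wordProd_append, cs.wordProd_cons]
    rw [← mul_assoc (cs.simple s) (cs.simple t), ← mul_assoc (cs.simple t) (cs.simple s * _),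
      ← braid3 cs hm]
    simp only [mul_assoc]

theorem good (cs : CoxeterSystem M W) {a : List B} (ha : cs.IsReduced a) : Good (AA M) (ph a) := by
  intro w h n h1 h2
  obtain ⟨b, hb, rfl⟩ := of_fun h
  obtain ⟨x, y, s, t, rfl, hm, rfl⟩ := sh_split h1
  have h3 := h2.1
  rw [add_assoc, ph_app, ph_app] at h3
  obtain ⟨y, rfl⟩ : ∃ y', y = t :: y' := by
    cases y with
    | nil => simp at h3
    | cons u y => exact ⟨y, by simpa using h3.symm⟩
  have h4 := cls_inv cs hb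
  have h5 := cs.length_wordProd_le (x ++ t :: s :: y)
  have h6 : cs.wordProd (x ++ t :: s :: y) = cs.wordProd (x ++ s :: t :: s :: t :: y) := by
    simp only [cs.wordProd_append, cs.wordProd_cons]
    rw [← mul_assoc (cs.simple t) (cs.simple s) (cs.simple t * _), ← mul_assoc (cs.simple s) (_ * _),
      braid3 cs hm]
    simp only [mul_assoc, cs.simple_mul_simple_cancel_left]
  rw [h6, h4.1, ha, ← h4.2] at h5
  simp at h5

theorem main (cs : CoxeterSystem M W)
    (ht : ∀ s t u, s ≠ t → t ≠ u → s ≠ u → ¬ (M s t = 3 ∧ M t u = 3 ∧ M s u = 3))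
    {a : List B} (ha : cs.IsReduced a) :
    ∃ (C : Finset ℕ) (f : Cls M a → ℕ → Bool), shadows M a = C ∧
      (∀ u v, (graph M a).edist u v = dd C (f u) (f v)) ∧ (graph M a).ediam = C.card := by
  have ne : ∀ s t, M s t = 3 → s ≠ t := fun s t h e => by rw [e, M.diagonal] at h; omega
  have hA : Gr (AA M) := ⟨fun x y ⟨s, t, h1, h2, h3⟩ => ⟨t, s, h2, h1, by rw [M.symmetric, h3]⟩,
    fun x ⟨s, t, h1, h2, h3⟩ => ne s t h3 (Option.some.inj (h1.symm.trans h2)), by
      rintro _ _ _ ⟨s, t, rfl, rfl, h1⟩ ⟨_, u, ⟨⟩, rfl, h2⟩ ⟨_, _, ⟨⟩, ⟨⟩, h3⟩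
      exact ht s t u (ne _ _ h1) (ne _ _ h2) (ne _ _ h3).symm ⟨h1, h2, by rw [M.symmetric, h3]⟩⟩
  obtain ⟨C, σ, h1, h2, ⟨p, q, hp, hq, h3⟩, h4⟩ := struct hA (good cs ha) a.length (by
    intro w h k x hk
    obtain ⟨b, hb, rfl⟩ := of_fun h
    obtain ⟨s, t, e, -⟩ := hk
    rw [← (cls_inv cs hb).2]
    exact (List.getElem?_eq_some_iff.1 e).1)
  have hd : ∀ u v, (graph M a).edist u v = dd C (σ (ph u.1)) (σ (ph v.1)) := by
    refine edist_eq _ (fun u v => dd C (σ (ph u.1)) (σ (ph v.1))) (fun u => by simp [dd])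
      (fun u v h => Subtype.ext (ph_inj ((h2 _ _ (to_fun u.2) (to_fun v.2)).1 h)))
      (fun u u' v h => ?_) (fun u v h => ?_)
    · have : St (AA M) (ph u.1) (ph u'.1) := by
        rcases ((SimpleGraph.fromRel_adj _ _ _).1 h).2 with ⟨n, h⟩ | ⟨n, h⟩
        · exact ⟨n, h.spec⟩
        · exact St.symm hA ⟨n, h.spec⟩
      obtain ⟨n, hs, e⟩ := this
      simp only [e]
      exact (h1 _ (to_fun u.2) n hs).2 _
    · obtain ⟨n, hs, e⟩ := (h2 _ _ (to_fun u.2) (to_fun v.2)).2 h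
      obtain ⟨b, hb⟩ := sh_mv hs
      rw [← hb.spec.2] at e
      refine ⟨⟨b, ReflTransGen.tail u.2 ⟨n, hb⟩⟩, (SimpleGraph.fromRel_adj _ _ _).2
        ⟨fun e' => ?_, Or.inl ⟨n, hb⟩⟩, e⟩
      rw [show b = u.1 from (congrArg Subtype.val e').symm] at e
      omega
  refine ⟨C, fun u => σ (ph u.1), ?_, hd, le_antisymm ?_ ?_⟩
  · ext n
    constructor
    · rintro ⟨b, hb, x, y, s, t, e1, e2, e3⟩
      exact (h1 _ (to_fun hb) n (Mv.spec ⟨x, y, s, t, e1, e2, e3, rfl⟩).1).1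
    · intro hn
      obtain ⟨w, hw, hs⟩ := h4 n hn
      obtain ⟨b, hb, rfl⟩ := of_fun hw
      exact ⟨b, hb, sh_split hs⟩
  · refine SimpleGraph.ediam_le_of_edist_le fun u v => ?_
    rw [hd]; exact_mod_cast Finset.card_filter_le _ _
  · obtain ⟨u, hu, rfl⟩ := of_fun hp
    obtain ⟨v, hv, rfl⟩ := of_fun hq
    rw [← h3, ← hd ⟨u, hu⟩ ⟨v, hv⟩]
    exact SimpleGraph.edist_le_ediam

theorem least {V : Type*} (G : SimpleGraph V) (C : Finset ℕ) (f : V → ℕ → Bool)
    (h : ∀ u v, G.edist u v = dd C (f u) (f v)) (hd : G.ediam = C.card) :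
    IsLeast {n | Embeds G n} C.card := by
  constructor
  · refine ⟨fun u i => f u (C.equivFin.symm i).1, fun u v => ?_⟩
    rw [h, cube_edist, hammingDist, dd]
    congr 1
    refine Finset.card_bij (fun i _ => (C.equivFin.symm i).1) (fun i hi => ?_) (fun i _ j _ e => ?_)
      (fun n hn => ?_)
    · exact Finset.mem_filter.2 ⟨(C.equivFin.symm i).2, (Finset.mem_filter.1 hi).2⟩
    · exact C.equivFin.symm.injective (Subtype.ext e)
    · rw [Finset.mem_filter] at hn
      exact ⟨C.equivFin ⟨n, hn.1⟩, by simpa using hn.2, by simp⟩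
  · rintro n ⟨g, hg⟩
    have : G.ediam ≤ n := SimpleGraph.ediam_le_of_edist_le fun u v => by
      rw [← hg, cube_edist]
      exact_mod_cast (hammingDist_le_card_fintype).trans (by simp)
    rw [hd] at this
    exact_mod_cast this

end Pool.Agent.H68.Bg
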