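import Mathlib

namespace Pool.Agent.H68.Bp

variable {B W : Type*} [Group W] {M : CoxeterMatrix B} (cs : CoxeterSystem M W)

/-- The standard parabolic subgroup `W_J`. -/
def WJ (J : Set B) : Subgroup W := Subgroup.closure (cs.simple '' J)

/-- `v ∈ W^J`: `l(v s) > l(v)` for all `s ∈ J`. -/
def MinRep (J : Set B) (v : W) : Prop := ∀ i ∈ J, cs.length v < cs.length (v * cs.simple i)

/-- The simple reflections occurring in some reduced word for `v`. -/
def supp (v : W) : Set B := {i | ∃ ω : List B, cs.IsReduced ω ∧ cs.wordProd ω = v ∧ i ∈ ω}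

/-- `J ∈ BP(w)`: in `w = w^J w_J` we have `supp(w^J) ∩ J ⊆ D_L(w_J)`. -/
def BP (w : W) (J : Set B) : Prop :=
  ∃ a b : W, w = a * b ∧ MinRep cs J a ∧ b ∈ WJ cs J ∧
    ∀ i ∈ supp cs a ∩ J, cs.length (cs.simple i * b) < cs.length b

end Pool.Agent.H68.Bp
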