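import Pool.Agent.H68.Qp2
import Pool.Agent.H68.BpDefs

namespace Pool.Agent.H68.Bp

open Pool.Agent.H68.Qp Pool.Agent.H68.Sg

variable {B W : Type*} [Group W] {M : CoxeterMatrix B} {cs : CoxeterSystem M W}

def Rt (cs : CoxeterSystem M W) (β : B →₀ ℝ) : Prop := ∃ u i, β = rho cs u (al i)

def In (X : Set B) (v : B →₀ ℝ) : Prop := ∀ k, k ∉ X → v k = 0

def Inv (cs : CoxeterSystem M W) (g : W) (β : B →₀ ℝ) : Prop := Rt cs β ∧ 0 ≤ β ∧ rho cs g β ≤ 0

theorem Rt.map {β : B →₀ ℝ} (h : Rt cs β) (g : W) : Rt cs (rho cs g β) := by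
  obtain ⟨u, i, rfl⟩ := h; exact ⟨g * u, i, (rho_mul cs _ _ _).symm⟩

theorem rt_al (i : B) : Rt cs (al i) := ⟨1, i, by simp⟩

theorem Rt.sign {β : B →₀ ℝ} (h : Rt cs β) : 0 ≤ β ∨ β ≤ 0 := by
  obtain ⟨u, i, e⟩ := h; exact Root.sign (cs := cs) ⟨u, i, rfl, e⟩

theorem Rt.not {β : B →₀ ℝ} (h : Rt cs β) (h1 : 0 ≤ β) (h2 : β ≤ 0) : False := by
  obtain ⟨u, i, e⟩ := h; exact Root.ne (cs := cs) ⟨u, i, rfl, e⟩ (le_antisymm h2 h1)

theorem Rt.pos {β : B →₀ ℝ} (h : Rt cs β) {k : B} (hk : 0 < β k) : 0 ≤ β :=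
  h.sign.resolve_right fun h1 => absurd (h1 k) (not_le.2 hk)

theorem al_self (i : B) : al i i = 1 := by simp [al]

theorem al_ne {i k : B} (h : k ≠ i) : al i k = 0 := Finsupp.single_eq_of_ne h

theorem in_al {X : Set B} {i : B} (h : i ∈ X) : In X (al i) :=
  fun _ hk => al_ne fun e => hk (e ▸ h)

theorem In.mono {X Y : Set B} {v : B →₀ ℝ} (h : In X v) (hs : X ⊆ Y) : In Y v :=
  fun k hk => h k fun h1 => hk (hs h1)

theorem WJ_ind {X : Set B} {p : W → Prop} {g : W} (hg : g ∈ WJ cs X) (h1 : p 1)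
    (hs : ∀ i ∈ X, ∀ x ∈ WJ cs X, p x → p (cs.simple i * x)) : p g := by
  induction hg using Subgroup.closure_induction_left with
  | one => exact h1
  | mul_left x hx y hy ih => obtain ⟨i, hi, rfl⟩ := hx; exact hs i hi y hy ih
  | inv_mul_cancel x hx y hy ih =>
    obtain ⟨i, hi, rfl⟩ := hx; rw [cs.inv_simple]; exact hs i hi y hy ih

theorem s_mem {X : Set B} {i : B} (h : i ∈ X) : cs.simple i ∈ WJ cs X :=
  Subgroup.subset_closure ⟨i, h, rfl⟩

theorem WJ_mono {X Y : Set B} (h : X ⊆ Y) {g : W} (hg : g ∈ WJ cs X) : g ∈ WJ cs Y :=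
  Subgroup.closure_mono (Set.image_mono h) hg

theorem rho_s (i : B) (x : W) (v : B →₀ ℝ) :
    rho cs (cs.simple i * x) v = rho cs x v + lf M i (rho cs x v) • al i := by
  rw [rho_mul, rho_simple, sig_apply]

theorem co_pres {X : Set B} {g : W} (hg : g ∈ WJ cs X) (v : B →₀ ℝ) {k : B} (hk : k ∉ X) :
    rho cs g v k = v k := by
  refine WJ_ind (p := fun g => rho cs g v k = v k) hg (by simp) fun i hi x _ ih => ?_
  rw [rho_s, Finsupp.add_apply, Finsupp.smul_apply, in_al hi k hk, smul_zero, add_zero, ih]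

theorem In.map {X : Set B} {g : W} {v : B →₀ ℝ} (h : In X v) (hg : g ∈ WJ cs X) :
    In X (rho cs g v) := fun k hk => (co_pres hg v hk).trans (h k hk)

theorem lneg (w : W) (i : B) : cs.length (cs.simple i * w) < cs.length w ↔ rho cs w⁻¹ (al i) ≤ 0 := by
  rw [← N_iff cs (cs.isReflection_simple i)]
  refine ⟨fun h => neg_root cs _ i (by rwa [inv_inv]), fun h h0 => ?_⟩
  exact ((rt_al i).map w⁻¹).not (pos_root cs _ i (by rwa [inv_inv])) h

theorem lpos (w : W) (i : B) : cs.length w < cs.length (cs.simple i * w) ↔ 0 ≤ rho cs w⁻¹ (al i) := by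
  have h1 := cs.length_simple_mul_ne w i
  have h2 := lneg (cs := cs) w i
  refine ⟨fun h => ((rt_al i).map w⁻¹).sign.resolve_right fun h3 => ?_, fun h => ?_⟩
  · have := h2.2 h3; omega
  · by_contra h3
    exact ((rt_al i).map w⁻¹).not h (h2.1 (by omega))

theorem rpos (w : W) (i : B) : cs.length w < cs.length (w * cs.simple i) ↔ 0 ≤ rho cs w (al i) := by
  have := lpos (cs := cs) w⁻¹ i
  rwa [inv_inv, cs.length_inv, ← cs.length_inv (_ * _), mul_inv_rev, inv_inv, cs.inv_simple] at this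

theorem span_pos {X : Set B} {v : B →₀ ℝ} (f : (B →₀ ℝ) →ₗ[ℝ] (B →₀ ℝ))
    (h : ∀ i ∈ X, 0 ≤ f (al i)) (hv : In X v) (h0 : 0 ≤ v) : 0 ≤ f v := by
  have e : v = ∑ i ∈ v.support, v i • al i := by
    conv_lhs => rw [← Finsupp.sum_single v, Finsupp.sum]
    simp [al]
  rw [e, map_sum]
  refine Finset.sum_nonneg fun i hi => ?_
  rw [map_smul]
  exact smul_nonneg (h0 i) (h i (by_contra fun hx => Finsupp.mem_support_iff.1 hi (hv i hx)))

theorem span_neg {X : Set B} {v : B →₀ ℝ} (f : (B →₀ ℝ) →ₗ[ℝ] (B →₀ ℝ))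
    (h : ∀ i ∈ X, f (al i) ≤ 0) (hv : In X v) (h0 : 0 ≤ v) : f v ≤ 0 :=
  neg_nonneg.1 (span_pos (-f) (fun i hi => neg_nonneg.2 (h i hi)) hv h0)

theorem MinRep.pos {X : Set B} {a : W} {v : B →₀ ℝ} (h : MinRep cs X a) (hv : In X v) (h0 : 0 ≤ v) :
    0 ≤ rho cs a v := span_pos _ (fun i hi => (rpos a i).1 (h i hi)) hv h0

theorem MinRep.neg {X : Set B} {a : W} {v : B →₀ ℝ} (h : MinRep cs X a) (hv : In X v) (h0 : v ≤ 0) :
    rho cs a v ≤ 0 := by
  have := h.pos (v := -v) (fun k hk => by simp [hv k hk]) (neg_nonneg.2 h0)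
  rwa [map_neg, neg_nonneg] at this

theorem left_ind {p : W → Prop} (w : W) (h1 : p 1)
    (hs : ∀ i x, cs.length x < cs.length (cs.simple i * x) → p x → p (cs.simple i * x)) : p w := by
  induction hn : cs.length w using Nat.strong_induction_on generalizing w with
  | _ n ih =>
  by_cases hw : w = 1
  · exact hw ▸ h1
  obtain ⟨i, hi⟩ := cs.exists_leftDescent_of_ne_one hw
  have hi : cs.length (cs.simple i * w) < cs.length w := hi
  have := hs i _ (by rwa [cs.simple_mul_simple_cancel_left]) (ih _ (hn ▸ hi) _ rfl)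
  rwa [cs.simple_mul_simple_cancel_left] at this

theorem step1 {i : B} {x : W} (h : cs.length x < cs.length (cs.simple i * x)) {β : B →₀ ℝ}
    (hb : Inv cs x β) : Inv cs (cs.simple i * x) β := by
  refine ⟨hb.1, hb.2.1, (hb.1.map _).sign.resolve_left fun h1 => ?_⟩
  have e : rho cs x β = rho cs x β i • al i := by
    ext k
    by_cases hk : k = i
    · subst hk; simp [al_self]
    · have := h1 k
      rw [rho_s, Finsupp.add_apply, Finsupp.smul_apply, al_ne hk, smul_zero, add_zero] at this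
      rw [Finsupp.smul_apply, al_ne hk, smul_zero]
      exact le_antisymm (hb.2.2 k) this
  have e2 := congrArg (rho cs x⁻¹) e
  rw [rho_inv, map_smul] at e2
  exact hb.1.not hb.2.1 (e2 ▸ smul_nonpos_of_nonpos_of_nonneg (hb.2.2 i) ((lpos x i).1 h))

theorem step2 {i : B} {x : W} (h : cs.length x < cs.length (cs.simple i * x)) :
    Inv cs (cs.simple i * x) (rho cs x⁻¹ (al i)) :=
  ⟨(rt_al i).map _, (lpos x i).1 h, by
    rw [rho_mul, rho_inv', rho_simple, sig_self]; exact neg_nonpos.2 (al_nonneg i)⟩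

theorem Inv.isIn {X : Set B} {d : W} {γ : B →₀ ℝ} (h : Inv cs d γ) (hd : d ∈ WJ cs X) : In X γ :=
  fun k hk => le_antisymm (co_pres hd γ hk ▸ h.2.2 k) (h.2.1 k)

theorem mem_of_inv {X : Set B} (d : W) : (∀ γ, Inv cs d γ → In X γ) → d ∈ WJ cs X := by
  refine left_ind (cs := cs) (p := fun d => (∀ γ, Inv cs d γ → In X γ) → d ∈ WJ cs X) d
    (fun _ => one_mem _) fun i x h ih H => ?_
  have hx := ih fun γ hγ => H γ (step1 h hγ)
  refine mul_mem (s_mem (by_contra fun hi => ?_)) hx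
  have := H _ (step2 h) i hi
  rw [co_pres (inv_mem hx) _ hi, al_self] at this
  exact one_ne_zero this

theorem Inv.mul {J : Set B} {a b : W} {β : B →₀ ℝ} (h : Inv cs b β) (ha : MinRep cs J a)
    (hb : b ∈ WJ cs J) : Inv cs (a * b) β :=
  ⟨h.1, h.2.1, by rw [rho_mul]; exact ha.neg ((h.isIn hb).map hb) h.2.2⟩

theorem right_mem {J X : Set B} {a b : W} (ha : MinRep cs J a) (hb : b ∈ WJ cs J)
    (h : a * b ∈ WJ cs X) : b ∈ WJ cs X := mem_of_inv b fun _ hγ => (hγ.mul ha hb).isIn h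

theorem left_mem {J X : Set B} {a b : W} (ha : MinRep cs J a) (hb : b ∈ WJ cs J)
    (h : a * b ∈ WJ cs X) : a ∈ WJ cs X := by
  simpa using mul_mem h (inv_mem (right_mem ha hb h))

theorem mem_inter {X Y : Set B} {g : W} (h1 : g ∈ WJ cs X) (h2 : g ∈ WJ cs Y) :
    g ∈ WJ cs (X ∩ Y) := mem_of_inv g fun _ hγ k hk =>
  (not_and_or.1 hk).elim (hγ.isIn h1 k) (hγ.isIn h2 k)

theorem factor (J : Set B) (w : W) : ∃ a b, w = a * b ∧ MinRep cs J a ∧ b ∈ WJ cs J := by
  induction hn : cs.length w using Nat.strong_induction_on generalizing w with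
  | _ n ih =>
  by_cases h : MinRep cs J w
  · exact ⟨w, 1, by simp, h, one_mem _⟩
  simp only [MinRep, not_forall] at h
  obtain ⟨i, hi, h⟩ := h
  have := cs.length_mul_simple_ne w i
  obtain ⟨a, b, e, ha, hb⟩ := ih _ (by omega) (w * cs.simple i) rfl
  exact ⟨a, b * cs.simple i, by rw [← mul_assoc, ← e, cs.simple_mul_simple_cancel_right], ha,
    mul_mem hb (s_mem hi)⟩

theorem MinRep.not {X : Set B} {a : W} {β : B →₀ ℝ} (h : MinRep cs X a) (hb : Inv cs a β)
    (hv : In X β) : False := (hb.1.map a).not (h.pos hv hb.2.1) hb.2.2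

theorem uniq {I : Set B} {v v' u u' : W} (hv : MinRep cs I v) (hv' : MinRep cs I v')
    (hu : u ∈ WJ cs I) (hu' : u' ∈ WJ cs I) (e : v * u = v' * u') : v = v' := by
  have h1 : u' * u⁻¹ ∈ WJ cs I := mul_mem hu' (inv_mem hu)
  have e1 : v = v' * (u' * u⁻¹) := by rw [← mul_assoc, ← e, mul_inv_cancel_right]
  have : u' * u⁻¹ ∈ WJ cs ∅ :=
    mem_of_inv _ fun γ hγ => (hv.not (e1 ▸ hγ.mul hv' h1) (hγ.isIn h1)).elim
  rw [WJ, Set.image_empty, Subgroup.closure_empty, Subgroup.mem_bot] at this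
  rw [e1, this, mul_one]

theorem MinRep.mul {I J : Set B} {a b : W} (ha : MinRep cs J a) (hb : b ∈ WJ cs J)
    (hI : MinRep cs I b) (h : I ⊆ J) : MinRep cs I (a * b) := fun i hi => (rpos _ i).2 (by
  rw [rho_mul]; exact ha.pos ((in_al (h hi)).map hb) ((rpos _ i).1 (hI i hi)))

theorem minRep_of {I : Set B} {a : W} (h : ∀ β, Inv cs a β → In I β → False) : MinRep cs I a :=
  fun i hi => (rpos _ i).2 (((rt_al i).map a).sign.resolve_right fun h1 =>
    h _ ⟨rt_al i, al_nonneg i, h1⟩ (in_al hi))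

theorem MinRep.right {L J : Set B} {e a : W} (he : MinRep cs L e) (ha : a ∈ WJ cs L)
    (h : MinRep cs J (e * a)) : MinRep cs J a := minRep_of fun _ hβ => h.not (hβ.mul he ha)

theorem mem_supp (v : W) : v ∈ WJ cs (supp cs v) := by
  obtain ⟨ω, h, e⟩ := cs.exists_isReduced v
  rw [e, CoxeterSystem.wordProd]
  refine list_prod_mem fun x hx => ?_
  obtain ⟨i, hi, rfl⟩ := List.mem_map.1 hx
  exact s_mem ⟨ω, h, rfl, hi⟩

theorem supp_sub {X : Set B} {v : W} (hv : v ∈ WJ cs X) : supp cs v ⊆ X := by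
  rintro i ⟨ω, h, rfl, hi⟩
  induction ω with
  | nil => cases hi
  | cons j ω ih =>
    have h1 : cs.IsReduced ω := h.drop 1
    have hl : cs.length (cs.wordProd ω) < cs.length (cs.simple j * cs.wordProd ω) := by
      rw [← cs.wordProd_cons, h.eq, h1.eq]; simp
    rw [cs.wordProd_cons] at hv
    have hj : j ∈ X := by_contra fun hj => by
      have := (lneg (cs := cs) (cs.simple j * cs.wordProd ω) j).1
        (by rwa [cs.simple_mul_simple_cancel_left]) j
      rw [co_pres (inv_mem hv) _ hj, al_self] at this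
      exact absurd this (by norm_num)
    rcases List.mem_cons.1 hi with rfl | hi
    · exact hj
    · exact ih h1 hi (by simpa using mul_mem (s_mem hj) hv)

end Pool.Agent.H68.Bp
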