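import Pool.Agent.H68.Bp1

namespace Pool.Agent.H68.Bp

open Pool.Agent.H68.Qp Pool.Agent.H68.Sg

variable {B W : Type*} [Group W] {M : CoxeterMatrix B} {cs : CoxeterSystem M W}

noncomputable def Bf (M : CoxeterMatrix B) : (B →₀ ℝ) →ₗ[ℝ] (B →₀ ℝ) →ₗ[ℝ] ℝ :=
  Finsupp.linearCombination ℝ (lf M)

theorem Bf_al (i : B) (v : B →₀ ℝ) : Bf M (al i) v = lf M i v := by simp [Bf, al]

theorem Bf_symm (x y : B →₀ ℝ) : Bf M x y = Bf M y x := by
  have : Bf M = (Bf M).flip := by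
    refine Finsupp.lhom_ext' fun i => LinearMap.ext_ring (Finsupp.lhom_ext' fun j =>
      LinearMap.ext_ring ?_)
    change Bf M (al i) (al j) = Bf M (al j) (al i)
    rw [Bf_al, Bf_al, lf_al, lf_al, cR_symm]
  conv_lhs => rw [this]
  rfl

theorem Bf_rho (g : W) (x y : B →₀ ℝ) : Bf M (rho cs g x) (rho cs g y) = Bf M x y := by
  induction g using cs.simple_induction_left with
  | one => simp
  | mul_simple_left g i ih =>
    rw [rho_s, rho_s, ← ih]
    simp only [map_add, map_smul, LinearMap.add_apply, LinearMap.smul_apply, smul_eq_mul, Bf_al,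
      Bf_symm _ (al i), lf_al, cR_self]
    ring

theorem Bf_inv (g : W) (i : B) (y : B →₀ ℝ) :
    Bf M (rho cs g⁻¹ (al i)) y = lf M i (rho cs g y) := by
  rw [← Bf_rho (cs := cs) g, rho_inv', Bf_al]

theorem Rt.refl {β γ : B →₀ ℝ} (hb : Rt cs β) (hc : Rt cs γ) : Rt cs (γ + Bf M β γ • β) := by
  obtain ⟨u, i, rfl⟩ := hb
  have := hc.map (u * (cs.simple i * u⁻¹))
  rwa [rho_mul, rho_s, map_add, rho_inv', map_smul, ← Bf_inv, inv_inv] at this

theorem mixed {β γ : B →₀ ℝ} (hb : Rt cs β) (hc : Rt cs γ) {j k : B} (h1 : 0 < β j) (h2 : γ j = 0)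
    (h3 : 0 < γ k) (h4 : β k = 0) : 0 ≤ Bf M β γ := by
  by_contra h
  have := (hb.refl hc).pos (k := k) (by simpa [h4] using h3) j
  simp only [Finsupp.coe_zero, Pi.zero_apply, Finsupp.add_apply, Finsupp.smul_apply, h2,
    smul_eq_mul] at this
  nlinarith

theorem cR_nonneg {i j : B} (h : i ≠ j) : 0 ≤ cR M i j := by
  have h1 := M.off_diagonal i j h
  refine mul_nonneg zero_le_two (Real.cos_nonneg_of_neg_pi_div_two_le_of_le ?_ ?_)
  · have : 0 ≤ Real.pi / M i j := by positivity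
    linarith [Real.pi_pos]
  · rcases Nat.eq_zero_or_pos (M i j) with h0 | h0
    · rw [h0]; simp; positivity
    · exact div_le_div_of_nonneg_left Real.pi_pos.le two_pos (by exact_mod_cast (by omega))

theorem lf_sum (i : B) (v : B →₀ ℝ) : lf M i v = ∑ j ∈ v.support, v j * cR M i j := by
  rw [lf, Finsupp.linearCombination_apply, Finsupp.sum]; rfl

theorem term_nonneg {i : B} {v : B →₀ ℝ} (h0 : 0 ≤ v) (hi : v i = 0) (j : B) :
    0 ≤ v j * cR M i j := by
  by_cases h : i = j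
  · rw [← h, hi, zero_mul]
  · exact mul_nonneg (h0 j) (cR_nonneg h)

theorem lf_nonneg {i : B} {v : B →₀ ℝ} (h0 : 0 ≤ v) (hi : v i = 0) : 0 ≤ lf M i v := by
  rw [lf_sum]; exact Finset.sum_nonneg fun j _ => term_nonneg h0 hi j

theorem lf_zero {i j : B} {v : B →₀ ℝ} (h0 : 0 ≤ v) (hi : v i = 0) (h : lf M i v = 0)
    (hj : v j ≠ 0) : cR M i j = 0 := by
  rw [lf_sum, Finset.sum_eq_zero_iff_of_nonneg fun j _ => term_nonneg h0 hi j] at h
  exact (mul_eq_zero.1 (h j (Finsupp.mem_support_iff.2 hj))).resolve_left hj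

theorem lf_orth {Y : Set B} {i : B} {v : B →₀ ℝ} (hv : In Y v) (h : ∀ j ∈ Y, cR M i j = 0) :
    lf M i v = 0 := by
  rw [lf_sum]
  refine Finset.sum_eq_zero fun j hj => ?_
  rw [h j (by_contra fun hx => Finsupp.mem_support_iff.1 hj (hv j hx)), mul_zero]

def Perp (M : CoxeterMatrix B) (β : B →₀ ℝ) : Set B := {k | lf M k β = 0}

def Orth (M : CoxeterMatrix B) (D : Set B) : Set B := {j | ∀ k ∈ D, cR M k j = 0}

theorem fix {β : B →₀ ℝ} {g : W} (hg : g ∈ WJ cs (Perp M β)) : rho cs g β = β := by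
  refine WJ_ind (p := fun g => rho cs g β = β) hg (by simp) fun i hi x _ ih => ?_
  rw [rho_s, ih, show lf M i β = 0 from hi, zero_smul, add_zero]

theorem fix' {X Y : Set B} {β : B →₀ ℝ} {g : W} (hg : g ∈ WJ cs X) (hb : In Y β)
    (h : ∀ i ∈ X, ∀ j ∈ Y, cR M i j = 0) : rho cs g β = β :=
  fix (WJ_mono (fun i hi => lf_orth hb (h i hi)) hg)

theorem mono {γ : B →₀ ℝ} (b : W) : (∀ β, Inv cs b β → 0 ≤ Bf M β γ) → γ ≤ rho cs b γ := by
  refine left_ind (cs := cs) (p := fun b => (∀ β, Inv cs b β → 0 ≤ Bf M β γ) → γ ≤ rho cs b γ) b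
    (fun _ => by simp) fun i x h ih H => ?_
  have := H _ (step2 h)
  rw [Bf_inv] at this
  rw [rho_s]
  exact (ih fun β hβ => H β (step1 h hβ)).trans
    (le_add_of_nonneg_right (smul_nonneg this (al_nonneg i)))

theorem minRep_tail {X : Set B} {i : B} {x : W} (h : cs.length x < cs.length (cs.simple i * x))
    (hm : MinRep cs X (cs.simple i * x)) : MinRep cs X x :=
  minRep_of fun _ hβ => hm.not (step1 h hβ)

theorem letters {X : Set B} {Γ : Set (B →₀ ℝ)} (hΓ : ∀ γ ∈ Γ, 0 ≤ γ) {q : W} (hq : q ∈ WJ cs X)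
    (p : W) : MinRep cs X p →
    (∀ β, Inv cs (p * q) β → (∀ γ ∈ Γ, 0 ≤ Bf M β γ) ∧ (¬ In X β → ∃ γ ∈ Γ, 0 < Bf M β γ)) →
    p ∈ WJ cs {k | ∃ γ ∈ Γ, 0 < rho cs (p * q) γ k} := by
  refine left_ind (cs := cs) (p := fun p => MinRep cs X p →
    (∀ β, Inv cs (p * q) β → (∀ γ ∈ Γ, 0 ≤ Bf M β γ) ∧ (¬ In X β → ∃ γ ∈ Γ, 0 < Bf M β γ)) →
    p ∈ WJ cs {k | ∃ γ ∈ Γ, 0 < rho cs (p * q) γ k}) p (fun _ _ => one_mem _)
    fun i x h ih hm H => ?_
  have h2 := step2 h
  have hn : ¬ In X (rho cs (x * q)⁻¹ (al i)) := fun hi => hm.not h2 (by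
    have := hi.map hq
    rwa [mul_inv_rev, rho_mul, rho_inv'] at this)
  have hl : cs.length (x * q) < cs.length (cs.simple i * (x * q)) := by
    refine (lpos _ i).2 (((rt_al i).map _).sign.resolve_right fun h1 => hn fun k hk => ?_)
    refine le_antisymm (h1 k) ?_
    rw [mul_inv_rev, rho_mul, co_pres (inv_mem hq) _ hk]
    exact h2.2.1 k
  rw [mul_assoc] at H ⊢
  have H1 := fun β hβ => H β (step1 hl hβ)
  have H2 := H _ (step2 hl)
  simp only [Bf_inv] at H2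
  refine mul_mem (s_mem ?_) (WJ_mono ?_ (ih (minRep_tail h hm) H1))
  · obtain ⟨γ, hγ, h3⟩ := H2.2 hn
    refine ⟨γ, hγ, ?_⟩
    rw [rho_s, Finsupp.add_apply, Finsupp.smul_apply, al_self, smul_eq_mul, mul_one]
    exact add_pos_of_nonneg_of_pos
      ((hΓ γ hγ).trans (mono _ fun β hβ => (H1 β hβ).1 γ hγ) i) h3
  · rintro k ⟨γ, hγ, h3⟩
    refine ⟨γ, hγ, ?_⟩
    rw [rho_s, Finsupp.add_apply]
    exact add_pos_of_pos_of_nonneg h3 (smul_nonneg (H2.1 γ hγ) (al_nonneg i) k)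

theorem mem_perp {β : B →₀ ℝ} (d : W) :
    (∀ γ, Inv cs d γ → Bf M γ β = 0) → d ∈ WJ cs (Perp M β) := by
  refine left_ind (cs := cs) (p := fun d => (∀ γ, Inv cs d γ → Bf M γ β = 0) →
    d ∈ WJ cs (Perp M β)) d (fun _ => one_mem _) fun i x h ih H => ?_
  have hx := ih fun γ hγ => H γ (step1 h hγ)
  have := H _ (step2 h)
  rw [Bf_inv, fix hx] at this
  exact mul_mem (s_mem this) hx

theorem s_mem' {X : Set B} {i : B} (h : cs.simple i ∈ WJ cs X) : i ∈ X := by_contra fun hi => by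
  have := co_pres h (al i) hi
  rw [rho_simple, sig_self, Finsupp.neg_apply, al_self] at this
  norm_num at this

theorem drop_orth {Z Z' : Set B} (ho : ∀ k ∈ Z', ∀ i ∈ Z, cR M k i = 0) (d : W) :
    d ∈ WJ cs (Z ∪ Z') → MinRep cs Z d → d ∈ WJ cs Z' := by
  refine left_ind (cs := cs) (p := fun d => d ∈ WJ cs (Z ∪ Z') → MinRep cs Z d → d ∈ WJ cs Z') d
    (fun _ _ => one_mem _) fun i x h ih H hm => ?_
  have hx : x ∈ WJ cs (Z ∪ Z') := mem_of_inv x fun γ hγ => (step1 h hγ).isIn H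
  have hx' := ih hx (minRep_tail h hm)
  have hi : i ∈ Z ∪ Z' := s_mem' (cs := cs) (by simpa using mul_mem H (inv_mem hx))
  refine mul_mem (s_mem (hi.resolve_left fun hi => ?_)) hx'
  refine hm.not ⟨rt_al i, al_nonneg i, ?_⟩ (in_al hi)
  rw [rho_mul, fix' hx' (in_al hi) ho, rho_simple, sig_self]
  exact neg_nonpos.2 (al_nonneg i)

theorem in_orth {J K : Set B} {β : B →₀ ℝ} {d : W} (h0 : 0 ≤ β) (hJ : In J β) (hK : d ∈ WJ cs K)
    (hm : MinRep cs (J ∩ K) d) (hp : d ∈ WJ cs (Perp M β)) : In (Orth M (supp cs d)) β := by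
  have h1 := drop_orth (cs := cs) (Z := {k | k ∈ supp cs d ∧ β k ≠ 0})
    (Z' := {k | k ∈ supp cs d ∧ β k = 0})
    (fun k hk i hi => lf_zero h0 hk.2 (supp_sub hp hk.1) hi.2) d
    (WJ_mono (fun k hk => (em (β k = 0)).elim (fun h => Or.inr ⟨hk, h⟩) fun h => Or.inl ⟨hk, h⟩)
      (mem_supp d))
    (fun i hi => hm i ⟨by_contra fun h => hi.2 (hJ i h), supp_sub hK hi.1⟩)
  intro j hj
  by_contra h
  exact hj fun k hk => lf_zero h0 (supp_sub h1 hk).2 (supp_sub hp hk) h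

theorem outside {I : Set B} {b u : W} {t : B} (ht : t ∉ supp cs b) (hm : MinRep cs I b)
    (hu : u ∈ WJ cs I) (h : rho cs (b * u)⁻¹ (al t) ≤ 0) :
    t ∈ I ∧ rho cs u⁻¹ (al t) ≤ 0 ∧ t ∈ Orth M (supp cs b) := by
  have hb := mem_supp (cs := cs) b
  rw [mul_inv_rev, rho_mul] at h
  have h1 : rho cs b⁻¹ (al t) t = 1 := by rw [co_pres (inv_mem hb) _ ht, al_self]
  have hr : Rt cs (rho cs b⁻¹ (al t)) := (rt_al t).map _
  have h2 := hr.pos (k := t) (by rw [h1]; exact one_pos)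
  have h3 : In I (rho cs b⁻¹ (al t)) := Inv.isIn ⟨hr, h2, h⟩ (inv_mem hu)
  have hI : t ∈ I := by_contra fun hI => one_ne_zero (h1.symm.trans (h3 t hI))
  have h4 : 0 ≤ rho cs b (rho cs b⁻¹ (al t) - al t) := hm.pos (v := rho cs b⁻¹ (al t) - al t)
    (fun k hk => by rw [Finsupp.sub_apply, h3 k hk, in_al hI k hk, sub_zero]) fun k => by
      by_cases hk : k = t
      · rw [hk, Finsupp.sub_apply, h1, al_self, sub_self]; rfl
      · rw [Finsupp.sub_apply, al_ne hk, sub_zero]; exact h2 k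
  rw [map_sub, rho_inv', sub_nonneg] at h4
  have h5 : rho cs b (al t) = al t := by
    ext k
    by_cases hk : k = t
    · rw [hk, co_pres hb _ ht]
    · exact le_antisymm (h4 k) (by rw [al_ne hk]; exact hm.pos (in_al hI) (al_nonneg t) k)
  have h6 : rho cs b⁻¹ (al t) = al t := by
    conv_lhs => rw [← h5]
    rw [rho_inv]
  refine ⟨hI, h6 ▸ h, fun k hk => ?_⟩
  have := supp_sub (mem_perp (β := al t) b fun γ hγ => le_antisymm ?_ ?_) hk
  · rwa [Perp, Set.mem_setOf, lf_al] at this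
  · have := lf_nonneg (M := M) (neg_nonneg.2 hγ.2.2) (i := t)
      (by rw [Finsupp.neg_apply, ((hγ.isIn hb).map hb) t ht, neg_zero])
    rwa [map_neg, neg_nonneg, ← Bf_al, ← h5, Bf_rho, Bf_symm] at this
  · rw [Bf_symm, Bf_al]; exact lf_nonneg hγ.2.1 (hγ.isIn hb t ht)

theorem comm_of {X Y : Set B} (h : ∀ i ∈ X, ∀ k ∈ Y, cR M k i = 0) {g g' : W} (hg : g ∈ WJ cs X)
    (hg' : g' ∈ WJ cs Y) : Commute g g' := by
  have hs : ∀ i ∈ X, ∀ k ∈ Y, Commute (cs.simple i) (cs.simple k) := fun i hi k hk => by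
    have e : ∀ v, rho cs (cs.simple i * cs.simple k) v = rho cs (cs.simple k * cs.simple i) v :=
      fun v => by
        simp only [rho_mul, rho_simple, sig_apply, map_add, map_smul, lf_al, h i hi k hk,
          cR_symm i k, smul_eq_mul, mul_zero, add_zero, zero_smul]
        abel
    have : (cs.simple k * cs.simple i)⁻¹ * (cs.simple i * cs.simple k) ∈ WJ cs ∅ :=
      mem_of_inv _ fun γ hγ => (hγ.1.not hγ.2.1 (by
        have := hγ.2.2
        rwa [rho_mul, e, rho_inv] at this)).elim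
    rw [WJ, Set.image_empty, Subgroup.closure_empty, Subgroup.mem_bot, inv_mul_eq_one] at this
    exact this.symm
  refine WJ_ind (p := fun g => Commute g g') hg (Commute.one_left _) fun i hi x _ ih =>
    Commute.mul_left ?_ ih
  exact WJ_ind (p := fun g' => Commute (cs.simple i) g') hg' (Commute.one_right _)
    fun k hk y _ ih => (hs i hi k hk).mul_right ih

theorem In.map' {G Y : Set B} {g : W} {v : B →₀ ℝ} (hv : In Y v) (hg : g ∈ WJ cs G)
    (h : ∀ i ∈ G, i ∈ Y ∨ ∀ j ∈ Y, cR M i j = 0) : In Y (rho cs g v) := by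
  refine WJ_ind (p := fun g => In Y (rho cs g v)) hg (by simpa using hv) fun i hi x _ ih k hk => ?_
  rw [rho_s, Finsupp.add_apply, ih k hk, zero_add, Finsupp.smul_apply]
  rcases h i hi with h | h
  · rw [in_al h k hk, smul_zero]
  · rw [lf_orth ih h, zero_smul]

end Pool.Agent.H68.Bp
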