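import Pool.Agent.H68.Bp2

namespace Pool.Agent.H68.Bp

open Pool.Agent.H68.Qp Pool.Agent.H68.Sg

variable {B W : Type*} [Group W] {M : CoxeterMatrix B} {cs : CoxeterSystem M W}

theorem core {J K : Set B} {a b c d : W} (hc : MinRep cs K c) (hb : b ∈ WJ cs J) (hd : d ∈ WJ cs K)
    (hb' : MinRep cs (J ∩ K) b) (hd' : MinRep cs (J ∩ K) d) (e : a * b = c * d) :
    d ∈ WJ cs (supp cs a) ∧ ∃ b1 b2, b = b1 * b2 ∧ b1 ∈ WJ cs (supp cs a ∩ supp cs b) ∧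
      b2 ∈ WJ cs (supp cs b ∩ Orth M (supp cs d)) := by
  have K1 : ∀ β γ, Inv cs b β → Inv cs d γ → 0 ≤ Bf M β γ := fun β γ hβ hγ => by
    have h1 := hb'.not hβ
    have h2 := hd'.not hγ
    simp only [In, imp_false, not_forall] at h1 h2
    obtain ⟨j, hj, h1⟩ := h1
    obtain ⟨k, hk, h2⟩ := h2
    exact mixed hβ.1 hγ.1 (lt_of_le_of_ne (hβ.2.1 j) (Ne.symm h1))
      (hγ.isIn hd j fun h => hj ⟨by_contra fun h' => h1 (hβ.isIn hb j h'), h⟩)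
      (lt_of_le_of_ne (hγ.2.1 k) (Ne.symm h2))
      (hβ.isIn hb k fun h => hk ⟨h, by_contra fun h' => h2 (hγ.isIn hd k h')⟩)
  have K2 : ∀ γ, Inv cs d γ → γ ≤ rho cs b γ := fun γ hγ => mono b fun β hβ => K1 β γ hβ hγ
  have K3 : ∀ γ, Inv cs d γ → In (supp cs a) (rho cs b γ) := fun γ hγ =>
    Inv.isIn ⟨hγ.1.map b, hγ.2.1.trans (K2 γ hγ), by
      rw [← rho_mul, e]; exact (hγ.mul hc hd).2.2⟩ (mem_supp a)
  refine ⟨mem_of_inv d fun γ hγ k hk => le_antisymm ((K2 γ hγ k).trans_eq (K3 γ hγ k hk))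
    (hγ.2.1 k), ?_⟩
  obtain ⟨b1, b2, rfl, h1, h2⟩ := factor (cs := cs) (Orth M (supp cs d)) b
  refine ⟨b1, b2, rfl, mem_inter (WJ_mono ?_ (letters (Γ := {γ | Inv cs d γ})
    (fun γ hγ => hγ.2.1) h2 b1 h1 fun β hβ => ⟨fun γ hγ => K1 β γ hβ hγ, fun hn => ?_⟩))
    (left_mem h1 h2 (mem_supp _)), mem_inter (right_mem h1 h2 (mem_supp _)) h2⟩
  · rintro k ⟨γ, hγ, h⟩
    exact by_contra fun hk => h.ne' (K3 γ hγ k hk)
  · by_contra h
    refine hn (in_orth hβ.2.1 (hβ.isIn hb) hd hd' (mem_perp d fun γ hγ => ?_))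
    rw [Bf_symm]
    exact le_antisymm (not_lt.1 fun h' => h ⟨γ, hγ, h'⟩) (K1 β γ hβ hγ)

theorem setup {J K : Set B} {a c p q : W} (ha : MinRep cs J a) (hc : MinRep cs K c)
    (hp : p ∈ WJ cs J) (hq : q ∈ WJ cs K) (e : a * p = c * q) :
    ∃ b d u, p = b * u ∧ q = d * u ∧ b ∈ WJ cs J ∧ d ∈ WJ cs K ∧ MinRep cs (J ∩ K) b ∧
      MinRep cs (J ∩ K) d ∧ u ∈ WJ cs (J ∩ K) ∧ a * b = c * d := by
  obtain ⟨b, u, rfl, hb, hu⟩ := factor (cs := cs) (J ∩ K) p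
  obtain ⟨d, u', rfl, hd, hu'⟩ := factor (cs := cs) (J ∩ K) q
  have h1 := left_mem hb hu hp
  have h2 := left_mem hd hu' hq
  rw [← mul_assoc, ← mul_assoc] at e
  have e1 := uniq (ha.mul h1 hb Set.inter_subset_left) (hc.mul h2 hd Set.inter_subset_right) hu hu' e
  rw [e1, mul_right_inj] at e
  exact ⟨b, d, u, rfl, e ▸ rfl, h1, h2, hb, hd, hu, e1⟩

theorem bp_inter {w : W} {J K : Set B} (hJ : BP cs w J) (hK : BP cs w K) : BP cs w (J ∩ K) := by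
  obtain ⟨a, p, rfl, ha, hp, hA⟩ := hJ
  obtain ⟨c, q, e, hc, hq, hC⟩ := hK
  obtain ⟨b, d, u, rfl, rfl, hb, hd, hb', hd', hu, e1⟩ := setup ha hc hp hq e
  refine ⟨a * b, u, (mul_assoc _ _ _).symm, ha.mul hb hb' Set.inter_subset_left, hu, ?_⟩
  rintro s ⟨hs, hI⟩
  simp only [lneg] at hA hC ⊢
  obtain ⟨h1, b1, b2, e2, h2, h3⟩ := core hc hb hd hb' hd' e1
  have h4 := (core ha hd hb (Set.inter_comm J K ▸ hd') (Set.inter_comm J K ▸ hb') e1.symm).1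
  by_cases hsb : s ∈ supp cs b
  swap
  · have := supp_sub (mul_mem (WJ_mono Set.subset_union_left (mem_supp a))
      (WJ_mono Set.subset_union_right (mem_supp b))) hs
    exact (outside hsb hb' hu (hA s ⟨this.resolve_right hsb, hI.1⟩)).2.1
  by_cases hsd : s ∈ supp cs d
  swap
  · exact (outside hsd hd' hu (hC s ⟨supp_sub h4 hsb, hI.2⟩)).2.1
  have h5 : rho cs b2 (al s) = al s := fix' h3 (in_al (X := {s}) rfl) fun i hi j hj => by
    rw [cR_symm]; exact hi.2 j (hj ▸ hsd)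
  have h6 : In (supp cs a ∩ J) (rho cs b (al s)) := by
    rw [e2, rho_mul, h5]
    exact In.map (in_al ⟨supp_sub h1 hsd, hI.1⟩)
      (WJ_mono (fun i hi => Set.mem_inter hi.1 (supp_sub hb hi.2)) h2)
  have := span_neg _ hA h6 (hb'.pos (in_al hI) (al_nonneg s))
  rwa [mul_inv_rev, rho_mul, rho_inv] at this

theorem half {J F B0 D0 : Set B} {a b1 b2 d2 u m n : W} {t : B} (ha : MinRep cs J a)
    (hA : ∀ j ∈ F ∩ J, rho cs (b1 * b2 * u)⁻¹ (al j) ≤ 0) (hB : B0 ⊆ J) (hb1 : b1 ∈ WJ cs (F ∩ J))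
    (hd2 : d2 ∈ WJ cs (D0 ∩ Orth M B0)) (hn : n ∈ WJ cs (B0 ∪ Orth M B0)) (hn' : n ∈ WJ cs F)
    (f2 : ∀ j ∈ F, j ∉ B0 → j ∉ D0 → j ∈ J ∧ j ∈ Orth M D0) (hm : MinRep cs F m)
    (e : (d2 * b2 * u)⁻¹ = m * n) (ht : t ∈ F) (ht' : t ∈ B0 ∨ t ∉ D0) :
    rho cs (a * (b1 * b2 * u)) (rho cs m (al t)) ≤ 0 := by
  have ho : ∀ i ∈ D0 ∩ Orth M B0, ∀ j ∈ {j | j ∈ F ∧ (j ∈ B0 ∨ j ∉ D0)}, cR M i j = 0 :=
    fun i hi j hj => by
      by_cases h : j ∈ B0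
      · rw [cR_symm]; exact hi.2 j h
      · exact (f2 j hj.1 h (hj.2.resolve_left h)).2 i hi.1
  have h1 : In {j | j ∈ F ∧ (j ∈ B0 ∨ j ∉ D0)} (rho cs n⁻¹ (al t)) :=
    In.map' (in_al ⟨ht, ht'⟩) (inv_mem (mem_inter hn hn')) fun i hi => by
      by_cases h : i ∈ B0 ∨ i ∉ D0
      · exact Or.inl ⟨hi.2, h⟩
      · rw [not_or, not_not] at h
        exact Or.inr (ho i ⟨h.2, hi.1.resolve_left h.1⟩)
  have h2 : rho cs (b1 * b2 * u) (rho cs m (al t)) = rho cs b1 (rho cs n⁻¹ (al t)) := by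
    have : b1 * b2 * u * m = b1 * (d2⁻¹ * n⁻¹) := by
      rw [eq_mul_inv_of_mul_eq e.symm]; group
    rw [← rho_mul, this, rho_mul, rho_mul, fix' (inv_mem hd2) h1 ho]
  have h3 : In (F ∩ J) (rho cs (b1 * b2 * u) (rho cs m (al t))) := by
    rw [h2]
    refine In.map (h1.mono fun j hj => ⟨hj.1, ?_⟩) hb1
    by_cases h : j ∈ B0
    · exact hB h
    · exact (f2 j hj.1 h (hj.2.resolve_left h)).1
  have hr : Rt cs (rho cs m (al t)) := (rt_al t).map m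
  rw [rho_mul]
  refine ha.neg (h3.mono Set.inter_subset_right) ((hr.map _).sign.resolve_left fun h => ?_)
  have := span_neg _ hA h3 h
  rw [rho_inv] at this
  exact hr.not (hm.pos (in_al ht) (al_nonneg t)) this

theorem bp_union {w : W} {J K : Set B} (hJ : BP cs w J) (hK : BP cs w K) : BP cs w (J ∪ K) := by
  obtain ⟨a0, p, rfl, ha, hp, hA⟩ := hJ
  obtain ⟨c0, q, e, hc, hq, hC⟩ := hK
  obtain ⟨e1, a, rfl, he1, haL⟩ := factor (cs := cs) (J ∪ K) a0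
  obtain ⟨e2, c, rfl, he2, hcL⟩ := factor (cs := cs) (J ∪ K) c0
  have hz : a * p ∈ WJ cs (J ∪ K) := mul_mem haL (WJ_mono Set.subset_union_left hp)
  rw [mul_assoc, mul_assoc] at e
  obtain rfl := uniq he1 he2 hz (mul_mem hcL (WJ_mono Set.subset_union_right hq)) e
  rw [mul_right_inj] at e
  refine ⟨e1, a * p, mul_assoc _ _ _, he1, hz, ?_⟩
  simp only [lneg] at hA hC ⊢
  have s1 := supp_sub (left_mem he1 haL (mem_supp _))
  have s2 := supp_sub (left_mem he1 hcL (mem_supp _))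
  have s3 := supp_sub (right_mem he1 haL (mem_supp _))
  have s4 := supp_sub (right_mem he1 hcL (mem_supp _))
  have ha := he1.right haL ha
  have hc := he1.right hcL hc
  obtain ⟨b, d, u, rfl, rfl, hb, hd, hb', hd', hu, e1⟩ := setup ha hc hp hq e
  obtain ⟨h1, b1, b2, eb, hb1, hb2⟩ := core hc hb hd hb' hd' e1
  obtain ⟨h2, d1, d2, ed, hd1, hd2⟩ :=
    core ha hd hb (Set.inter_comm J K ▸ hd') (Set.inter_comm J K ▸ hb') e1.symm
  set F : Set B := {t | t ∈ J ∪ K ∧ (t ∈ J → rho cs (b * u)⁻¹ (al t) ≤ 0) ∧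
    (t ∈ K → rho cs (d * u)⁻¹ (al t) ≤ 0)} with hF
  have hQ : supp cs a ∩ supp cs c ⊆ F := fun t ht =>
    ⟨supp_sub haL ht.1, fun h => hA t ⟨s3 ht.1, h⟩, fun h => hC t ⟨s4 ht.2, h⟩⟩
  have f1 : ∀ t ∈ F, t ∈ J → t ∉ supp cs b → t ∈ J ∩ K ∧ t ∈ Orth M (supp cs b) :=
    fun t ht h h' => ⟨(outside h' hb' hu (ht.2.1 h)).1, (outside h' hb' hu (ht.2.1 h)).2.2⟩
  have f2 : ∀ t ∈ F, t ∈ K → t ∉ supp cs d → t ∈ J ∩ K ∧ t ∈ Orth M (supp cs d) :=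
    fun t ht h h' => ⟨(outside h' hd' hu (ht.2.2 h)).1, (outside h' hd' hu (ht.2.2 h)).2.2⟩
  have f3 : ∀ t ∈ F, t ∉ supp cs b → t ∉ supp cs d → t ∈ J ∩ K := fun t ht h h' =>
    ht.1.elim (fun h1 => (f1 t ht h1 h).1) fun h1 => (f2 t ht h1 h').1
  have hcm : Commute b2 d2 := comm_of (fun i hi k hk => hi.2 k hk.1) hb2 hd2
  obtain ⟨m, n, em, hm, hn⟩ := factor (cs := cs) F (d2 * b2 * u)⁻¹
  have hn1 : n ∈ WJ cs ((supp cs b ∩ Orth M (supp cs d) ∪ supp cs d ∩ Orth M (supp cs b) ∪ J ∩ K)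
      ∩ F) := mem_inter (right_mem hm hn (em ▸ inv_mem (mul_mem (mul_mem
    (WJ_mono (fun _ h => Or.inl (Or.inr h)) hd2) (WJ_mono (fun _ h => Or.inl (Or.inl h)) hb2))
    (WJ_mono (fun _ h => Or.inr h) hu)))) hn
  have key : ∀ t ∈ F, rho cs (a * (b * u)) (rho cs m (al t)) ≤ 0 := fun t ht => by
    by_cases h : t ∈ supp cs b ∨ t ∉ supp cs d
    · have := half (J := J) (F := F) ha (fun j hj => eb ▸ hj.1.2.1 hj.2) (supp_sub hb)
        (WJ_mono (fun j hj => Set.mem_inter (hQ ⟨hj.1, supp_sub h2 hj.2⟩) (supp_sub hb hj.2)) hb1) hd2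
        (WJ_mono ?_ hn1) hn 
        (fun j hj h h' => And.intro (f3 j hj h h').1 (f2 j hj (f3 j hj h h').2 h').2)
        hm em ht h
      · rwa [← eb] at this
      · rintro j ⟨(hj | hj) | hj, hj'⟩
        · exact Or.inl hj.1
        · exact Or.inr hj.2
        · exact (em' (j ∈ supp cs b)).elim (fun h => Or.inr (f1 j hj' hj.1 h).2) Or.inl
    · rw [not_or, not_not] at h
      have := half (J := K) (F := F) hc (fun j hj => ed ▸ hj.1.2.2 hj.2) (supp_sub hd)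
        (WJ_mono (fun j hj => Set.mem_inter (hQ ⟨supp_sub h1 hj.2, hj.1⟩) (supp_sub hd hj.2)) hd1) hb2
        (WJ_mono ?_ hn1) hn 
        (fun j hj h h' => And.intro (f3 j hj h' h).2 (f1 j hj (f3 j hj h' h).1 h').2)
        hm (hcm.eq ▸ em) ht (Or.inl h.2)
      · rwa [← ed, ← e] at this
      · rintro j ⟨(hj | hj) | hj, hj'⟩
        · exact Or.inr hj.2
        · exact Or.inl hj.1
        · exact (em' (j ∈ supp cs d)).elim (fun h => Or.inr (f2 j hj' hj.2 h).2) Or.inl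
  have hy : a * b1 * d2⁻¹ ∈ WJ cs F := by
    refine WJ_mono hQ (mem_inter (mul_mem (mul_mem (mem_supp a)
      (WJ_mono Set.inter_subset_left hb1)) (inv_mem (WJ_mono (fun j hj => supp_sub h1 hj.1) hd2))) ?_)
    have : a * b1 * d2⁻¹ = c * d1 * b2⁻¹ := by
      rw [eb, ed, ← mul_assoc, ← mul_assoc] at e1
      rw [eq_mul_inv_of_mul_eq e1, mul_assoc, mul_assoc, ← mul_inv_rev, ← hcm.eq]; group
    rw [this]
    exact mul_mem (mul_mem (mem_supp c) (WJ_mono Set.inter_subset_left hd1))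
      (inv_mem (WJ_mono (fun j hj => supp_sub h2 hj.1) hb2))
  have hf : a * (b * u) * m ∈ WJ cs F := by
    have : a * (b * u) * m = a * b1 * d2⁻¹ * n⁻¹ := by
      rw [eq_mul_inv_of_mul_eq em.symm, eb]; group
    exact this ▸ mul_mem hy (inv_mem hn)
  rintro s ⟨hs, hL⟩
  have hsF : s ∈ F := ⟨hL, fun h => hA s ⟨s1 hs, h⟩, fun h => hC s ⟨s2 hs, h⟩⟩
  have h3 := (in_al hsF).map (inv_mem hf)
  have h4 := hm.neg h3 (((rt_al s).map _).sign.resolve_left fun h => by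
    have := span_neg (rho cs (a * (b * u) * m)) (fun t ht => by rw [rho_mul]; exact key t ht) h3 h
    rw [rho_inv'] at this
    exact (rt_al (cs := cs) s).not (al_nonneg s) this)
  rwa [mul_inv_rev, rho_mul, rho_inv'] at h4

end Pool.Agent.H68.Bp
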