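import Pool.Agent.H68.Fit4

set_option autoImplicit false

namespace Pool.Agent.H68.Fit

variable {G H : Type} [Group G] [Group H]

def PN (π : ℕ → Prop) (n : ℕ) : Prop := n ≠ 0 ∧ ∀ p, p.Prime → p ∣ n → π p

def PE (π : ℕ → Prop) (g : G) : Prop := ∃ n, PN π n ∧ g ^ n = 1

variable {π : ℕ → Prop}

theorem PN.one : PN π 1 := ⟨one_ne_zero, fun _ hp h => absurd (Nat.dvd_one.1 h) hp.one_lt.ne'⟩

theorem PN.mul {a b : ℕ} (h : PN π a) (h' : PN π b) : PN π (a * b) :=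
  ⟨mul_ne_zero h.1 h'.1, fun p hp hd => ((Nat.Prime.dvd_mul hp).1 hd).elim (h.2 p hp) (h'.2 p hp)⟩

theorem PN.pw {r : ℕ} (hr : r.Prime) (h : π r) (k : ℕ) : PN π (r ^ k) :=
  ⟨pow_ne_zero _ hr.ne_zero, fun p hp hd => by
    rwa [(Nat.prime_dvd_prime_iff_eq hp hr).1 (hp.dvd_of_dvd_pow hd)]⟩

theorem PN.cop {a b : ℕ} (h : PN π a) (h' : PN (fun p => ¬ π p) b) : Nat.Coprime a b :=
  Nat.coprime_of_dvd fun p hp a b => h'.2 p hp b (h.2 p hp a)

theorem pn_split (π : ℕ → Prop) (n : ℕ) (h : n ≠ 0) :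
    ∃ a b, n = a * b ∧ PN π a ∧ PN (fun p => ¬ π p) b := by
  induction n using Nat.recOnMul with
  | zero => exact absurd rfl h
  | one => exact ⟨1, 1, rfl, PN.one, PN.one⟩
  | prime p hp =>
    by_cases e : π p
    · exact ⟨p, 1, by simp, by simpa using PN.pw hp e 1, PN.one⟩
    · exact ⟨1, p, by simp, PN.one, by simpa using PN.pw (π := fun p => ¬ π p) hp e 1⟩
  | mul a b ha hb =>
    obtain ⟨x, y, rfl, h1, h2⟩ := ha (left_ne_zero_of_mul h)
    obtain ⟨z, w, rfl, h3, h4⟩ := hb (right_ne_zero_of_mul h)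
    exact ⟨x * z, y * w, by ring, h1.mul h3, h2.mul h4⟩

theorem PE.one : PE π (1 : G) := ⟨1, PN.one, one_pow _⟩

theorem PE.map {g : G} (h : PE π g) (f : G →* H) : PE π (f g) :=
  h.imp fun _ e => ⟨e.1, by rw [← map_pow, e.2, map_one]⟩

theorem PE.zpow {g : G} (h : PE π g) (i : ℤ) : PE π (g ^ i) :=
  h.imp fun _ e => ⟨e.1, by rw [← zpow_natCast, zpow_comm, zpow_natCast, e.2, one_zpow]⟩

theorem PE.eq_one {g : G} (h : PE π g) (h' : PE (fun p => ¬ π p) g) : g = 1 := by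
  obtain ⟨a, h1, h2⟩ := h
  obtain ⟨b, h3, h4⟩ := h'
  exact Subgroup.mem_bot.1 (mem_of_cop (h1.cop h3) h2 h4)

theorem pe_split [Finite G] (π : ℕ → Prop) (g : G) :
    ∃ i j : ℤ, g = g ^ i * g ^ j ∧ PE π (g ^ i) ∧ PE (fun p => ¬ π p) (g ^ j) := by
  obtain ⟨a, b, e, h1, h2⟩ := pn_split π (Nat.card G) Nat.card_pos.ne'
  have := Nat.gcd_eq_gcd_ab a b
  rw [h1.cop h2] at this
  have h0 : g ^ (a * b : ℤ) = 1 := by exact_mod_cast e ▸ pow_card_eq_one' (x := g)
  refine ⟨b * a.gcdB b, a * a.gcdA b, by rw [← zpow_add, add_comm, ← this]; simp,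
    ⟨a, h1, ?_⟩, ⟨b, h2, ?_⟩⟩
  · rw [← zpow_natCast, ← zpow_mul, show b * a.gcdB b * a = a * b * a.gcdB b by ring, zpow_mul, h0,
      one_zpow]
  · rw [← zpow_natCast, ← zpow_mul, show a * a.gcdA b * b = a * b * a.gcdA b by ring, zpow_mul, h0,
      one_zpow]

theorem PE.of_ker {g : G} (f : G →* H) (hk : ∀ a, f a = 1 → PE π a) (h : PE π (f g)) : PE π g := by
  obtain ⟨a, h1, h2⟩ := h
  obtain ⟨b, h3, h4⟩ := hk (g ^ a) (by rw [map_pow, h2])
  exact ⟨a * b, h1.mul h3, by rw [pow_mul, h4]⟩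

def Cl (F : (G : Type) → [Group G] → Prop) (π : ℕ → Prop) : Prop :=
  ∀ p q : ℕ, p.Prime → q.Prime → Link F p q → π p → π q

def MC (π : ℕ → Prop) (K : Subgroup G) : Prop := ∀ a ∈ K, ∀ b ∈ K, PE π a → PE π b → PE π (a * b)

def MC.sub {K : Subgroup G} (h : MC π K) : Subgroup G where
  carrier := {g | g ∈ K ∧ PE π g}
  one_mem' := ⟨one_mem _, PE.one⟩
  mul_mem' := fun ha hb => ⟨mul_mem ha.1 hb.1, h _ ha.1 _ hb.1 ha.2 hb.2⟩
  inv_mem' := fun ha => ⟨inv_mem ha.1, by simpa using ha.2.zpow (-1)⟩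

instance {K : Subgroup G} [hK : K.Normal] (h : MC π K) : h.sub.Normal :=
  ⟨fun a ha g => ⟨hK.conj_mem _ ha.1 g, ha.2.map (MulAut.conj g).toMonoidHom⟩⟩

theorem MC.sup_pe {N M : Subgroup G} [N.Normal] (a : MC π N) (b : MC π M) :
    ∀ g ∈ a.sub ⊔ b.sub, PE π g := by
  intro g hg
  rw [← SetLike.mem_coe, Subgroup.normal_mul] at hg
  obtain ⟨x, hx, y, hy, rfl⟩ := hg
  refine PE.of_ker (QuotientGroup.mk' a.sub) (fun c hc => ((QuotientGroup.eq_one_iff c).1 hc).2) ?_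
  rw [map_mul, show QuotientGroup.mk' a.sub x = 1 from (QuotientGroup.eq_one_iff x).2 hx, one_mul]
  exact hy.2.map _

theorem mc_sup [Finite G] {N M : Subgroup G} [N.Normal] [M.Normal] (a : MC π N) (b : MC π M)
    (a' : MC (fun p => ¬ π p) N) (b' : MC (fun p => ¬ π p) M) (e : N ⊔ M = ⊤) :
    MC π (⊤ : Subgroup G) := by
  have h1 : (a.sub ⊔ b.sub) ⊔ (a'.sub ⊔ b'.sub) = ⊤ := by
    rw [eq_top_iff, ← e]
    refine sup_le (fun g hg => ?_) (fun g hg => ?_) <;> obtain ⟨i, j, e, h1, h2⟩ := pe_split π g <;>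
      rw [e]
    · exact Subgroup.mul_mem_sup (Subgroup.mem_sup_left ⟨zpow_mem hg i, h1⟩)
        (Subgroup.mem_sup_left ⟨zpow_mem hg j, h2⟩)
    · exact Subgroup.mul_mem_sup (Subgroup.mem_sup_right ⟨zpow_mem hg i, h1⟩)
        (Subgroup.mem_sup_right ⟨zpow_mem hg j, h2⟩)
  have h2 : ∀ g : G, PE π g → g ∈ a.sub ⊔ b.sub := by
    intro g hg
    have h3 : g ∈ (a.sub ⊔ b.sub) ⊔ (a'.sub ⊔ b'.sub) := h1 ▸ Subgroup.mem_top g
    rw [← SetLike.mem_coe, Subgroup.normal_mul] at h3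
    obtain ⟨x, hx, y, hy, rfl⟩ := h3
    rw [← QuotientGroup.eq_one_iff]
    refine (hg.map (QuotientGroup.mk' (a.sub ⊔ b.sub))).eq_one ?_
    rw [map_mul, show QuotientGroup.mk' _ x = 1 from (QuotientGroup.eq_one_iff x).2 hx, one_mul]
    exact (a'.sup_pe b' y hy).map _
  intro x _ y _ hx hy
  exact a.sup_pe b _ (mul_mem (h2 x hx) (h2 y hy))

def DD (F : (G : Type) → [Group G] → Prop) (G : Type) [Group G] : Prop :=
  (∀ p : ℕ, p.Prime → p ∣ Nat.card G → Ch F p) ∧ ∀ π, Cl F π → MC π (⊤ : Subgroup G)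

variable {F : (G : Type) → [Group G] → Prop}

theorem DD.r0 {A B : Type} [Group A] [Group B] [Finite G] (α : G →* A) (β : G →* B)
    (hi : ∀ g, α g = 1 → β g = 1 → g = 1) (a : DD F A) (b : DD F B) : DD F G := by
  refine ⟨fun p hp hd => ?_, fun π hπ x _ y _ hx hy => ?_⟩
  · have := Fact.mk hp
    obtain ⟨g, hg⟩ := exists_prime_orderOf_dvd_card' p hd
    have h1 : g ^ p = 1 := hg ▸ pow_orderOf_eq_one g
    by_cases e : α g = 1
    · refine b.1 p hp ?_
      rw [← orderOf_eq_prime (p := p) (x := β g) (by rw [← map_pow, h1, map_one]) fun e' => by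
        rw [hi g e e', orderOf_one] at hg; exact hp.one_lt.ne hg]
      exact orderOf_dvd_natCard _
    · refine a.1 p hp ?_
      rw [← orderOf_eq_prime (p := p) (x := α g) (by rw [← map_pow, h1, map_one]) e]
      exact orderOf_dvd_natCard _
  · obtain ⟨n, h1, h2⟩ := a.2 π hπ _ trivial _ trivial (hx.map α) (hy.map α)
    obtain ⟨m, h3, h4⟩ := b.2 π hπ _ trivial _ trivial (hx.map β) (hy.map β)
    refine ⟨n * m, h1.mul h3, hi _ ?_ ?_⟩
    · rw [map_pow, map_mul, pow_mul, h2, one_pow]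
    · rw [map_pow, map_mul, pow_mul', h4, one_pow]

theorem DD.sub [Finite G] (K : Subgroup G) (a : DD F G) : DD F K :=
  DD.r0 K.subtype K.subtype (fun _ e _ => Subtype.ext e) a a

theorem DD.mc {K : Subgroup G} (a : DD F K) (h : Cl F π) : MC π K := fun x hx y hy h1 h2 =>
  (a.2 π h ⟨x, hx⟩ trivial ⟨y, hy⟩ trivial (h1.imp fun _ e => ⟨e.1, Subtype.ext e.2⟩)
    (h2.imp fun _ e => ⟨e.1, Subtype.ext e.2⟩)).map K.subtype

theorem DD.quot [Finite G] (f : G →* H) (hf : Function.Surjective f) (a : DD F G) : DD F H := by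
  refine ⟨fun p hp hd => a.1 p hp (hd.trans (Subgroup.card_dvd_of_surjective f hf)),
    fun π hπ x _ y _ hx hy => ?_⟩
  have key : ∀ x : H, PE π x → ∃ g, PE π g ∧ f g = x := fun x hx => by
    obtain ⟨g, rfl⟩ := hf x
    obtain ⟨i, j, e, h1, h2⟩ := pe_split π g
    refine ⟨_, h1, ?_⟩
    conv_rhs => rw [e, map_mul, PE.eq_one (map_zpow f g j ▸ hx.zpow j) (h2.map f), mul_one]
  obtain ⟨g, h1, rfl⟩ := key x hx
  obtain ⟨g', h2, rfl⟩ := key y hy
  rw [← map_mul]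
  exact (a.2 π hπ _ trivial _ trivial h1 h2).map f

variable (hF : FC F) (hW : WP F)
include hF hW

theorem FC.cl_not (h : Cl F π) : Cl F fun p => ¬ π p := fun p q hp hq hl h1 h2 =>
  haveI := Fact.mk hp
  haveI := Fact.mk hq
  h1 (h q p hq hp (hF.symm hW hl) h2)

theorem FC.dd (n : ℕ) : ∀ (G : Type) [Group G], Nat.card G = n → F G → DD F G := by
  induction n using Nat.strong_induction_on with
  | _ n ih =>
  intro G _ hn h
  obtain ⟨_, _⟩ := hF.fin G h
  have hch : ∀ p : ℕ, p.Prime → p ∣ Nat.card G → Ch F p := fun p hp hd =>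
    haveI := Fact.mk hp
    hF.ch _ G rfl h hd
  refine ⟨hch, ?_⟩
  have ih' : ∀ N : Subgroup G, N.Normal → N ≠ ⊤ → ∀ π, Cl F π → MC π N := fun N h1 h2 π hπ =>
    (ih _ (hn ▸ card_lt h2) N rfl (hF.normal G N h1 h)).mc hπ
  rcases subsingleton_or_nontrivial G with _ | _
  · intro π _ a _ b _ _ _
    rw [Subsingleton.elim (a * b) 1]; exact PE.one
  rcases struct (G := G) with ⟨N, M, h1, h2, h3, h4, e⟩ | ⟨r, k, x, hr, hd, hx, -, hV⟩
  · intro π hπ
    exact mc_sup (ih' N h1 h3 _ hπ) (ih' M h2 h4 _ hπ) (ih' N h1 h3 _ (hF.cl_not hW hπ))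
      (ih' M h2 h4 _ (hF.cl_not hW hπ)) e
  have := Fact.mk hr
  have key : ∀ π, Cl F π → π r → ∀ g : G, PE π g := by
    intro π hπ hr' g
    have a := ih' _ inferInstance (Group.IsSolvable.commutator_lt_top_of_nontrivial G).ne π hπ
    rcases (show a.sub ≤ commutator G from fun _ h => h.1).lt_or_eq with hlt | e
    · exfalso
      obtain ⟨H, _, f, hf, k1, k2, k3, k4, k5, p, hp, k6, k7⟩ := quot_prim x hV _ inferInstance hlt
      have := Fact.mk hp
      have hp' : ¬ π p := by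
        intro hp'
        obtain ⟨m, m1, m2⟩ := SetLike.exists_of_lt k2
        obtain ⟨i, j, e, h1, h2⟩ := pe_split π m
        apply m2
        rw [e]
        refine mul_mem (k1 ⟨zpow_mem m1 i, h1⟩) (PE.eq_one (π := π) ⟨p ^ 1, PN.pw hp hp' 1, ?_⟩
          (h2.map f))
        rw [pow_one]
        exact k7 _ (k3 ▸ ⟨_, zpow_mem m1 j, rfl⟩)
      have hx' : f x ^ r ^ k = 1 := by rw [← map_pow, hx, map_one]
      have : Finite H := Finite.of_surjective f hf
      have hH : F H := hF.key hW f hf Abelianization.of (fun _ _ => mul_comm _ _)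
        (Abelianization.ker_of H ▸ k5) (Subgroup.zpowers (f x)) (Abelianization.ker_of H ▸ k4)
        (hch r hr hd _ (zp_p hx')) h
      exact hp' (hπ r p hr hp (hF.symm hW (hF.prim_link hW (fun e => hp' (e ▸ hr')) (hch r hr hd)
        (f x) hx' k4 k5 k6 k7 hH)) hr')
    · obtain ⟨_, ⟨i, rfl⟩, hb⟩ := hV g
      refine PE.of_ker Abelianization.of (fun c hc => ?_) ?_
      · rw [← MonoidHom.mem_ker, Abelianization.ker_of, ← e] at hc; exact hc.2
      · rw [← Abelianization.ker_of, MonoidHom.mem_ker, map_mul, map_inv, mul_inv_eq_one] at hb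
        rw [hb]
        exact (PE.zpow ⟨_, PN.pw hr hr' k, hx⟩ i).map _
  intro π hπ a _ b _ ha hb
  by_cases e : π r
  · exact key π hπ e _
  · rw [ha.eq_one (key _ (hF.cl_not hW hπ) e a), one_mul]; exact hb

theorem FC.of_dd (n : ℕ) : ∀ (G : Type) [Group G] [Finite G] [Group.IsSolvable G],
    Nat.card G = n → DD F G → F G := by
  induction n using Nat.strong_induction_on with
  | _ n ih =>
  intro G _ _ _ hn h
  have ih' : ∀ N : Subgroup G, N ≠ ⊤ → F N := fun N h2 =>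
    ih _ (hn ▸ card_lt h2) N rfl (h.sub N)
  rcases subsingleton_or_nontrivial G with _ | _
  · exact hF.triv
  rcases struct (G := G) with ⟨N, M, h1, h2, h3, h4, e⟩ | ⟨r, k, x, hr, hd, hx, hnc, hV⟩
  · exact hF.sup_top h1 h2 (ih' N h3) (ih' M h4) e
  have := Fact.mk hr
  have hN := (Group.IsSolvable.commutator_lt_top_of_nontrivial G).ne
  have key : ∀ P : Subgroup G, P.Normal → P < commutator G → ∃ (L A : Subgroup G) (p : ℕ),
      L.Normal ∧ P ≤ L ∧ L ≤ A ∧ x ∈ A ∧ Abn A ∧ A ≠ ⊤ ∧ p.Prime ∧ p ∣ Nat.card G ∧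
      (∃ g ∈ commutator G, g ∉ L) ∧ ∀ g ∈ commutator G, g ^ p ∈ L := by
    intro P h1 h2
    obtain ⟨H, _, f, hf, k1, k2, k3, k4, k5, p, hp, k6, k7⟩ := quot_prim x hV P h1 h2
    refine ⟨f.ker, (Subgroup.zpowers (f x)).comap f, p, inferInstance, k1, fun g hg => ?_,
      Subgroup.mem_zpowers _, (k5.abn (MonoidHom.id H) Function.surjective_id _ _
        (fun _ _ e => e) (by simp) k4).comap f hf, fun e => ?_, hp,
      k6.trans (Subgroup.card_dvd_of_surjective f hf), SetLike.exists_of_lt k2, fun g hg => ?_⟩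
    · rw [Subgroup.mem_comap, show f g = 1 from hg]; exact one_mem _
    · obtain ⟨m, m1, m2⟩ := SetLike.exists_of_lt k2
      refine m2 (k5.cen _ (k3 ▸ ⟨m, m1, rfl⟩) fun g => ?_)
      obtain ⟨g, rfl⟩ := hf g
      obtain ⟨i, hi⟩ : g ∈ (Subgroup.zpowers (f x)).comap f := e ▸ Subgroup.mem_top g
      obtain ⟨j, hj⟩ : m ∈ (Subgroup.zpowers (f x)).comap f := e ▸ Subgroup.mem_top m
      rw [← hi, ← hj]
      exact Commute.zpow_zpow_self _ _ _
    · rw [MonoidHom.mem_ker, map_pow]; exact k7 _ (k3 ▸ ⟨g, hg, rfl⟩)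
  by_cases hb : commutator G = ⊥
  · refine h.1 r hr hd G fun g => ?_
    obtain ⟨b, h1, h2⟩ := hV g
    rw [hb, Subgroup.mem_bot, mul_inv_eq_one] at h2
    exact pg_iff.1 (zp_p hx) g (h2 ▸ h1)
  obtain ⟨L, A, p, l1, -, l2, l3, l4, l5, hp, l6, ⟨v, v1, v2⟩, l7⟩ :=
    key ⊥ inferInstance (bot_lt_iff_ne_bot.2 hb)
  have := Fact.mk hp
  obtain ⟨P, lP, pP, aP, fP, oP⟩ := syl p (commutator G)
  replace oP := oP L l1 fun g hg => ⟨1, by rw [pow_one]; exact l7 g hg⟩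
  by_cases hB : Subgroup.normalizer (P : Set G) = ⊤
  swap
  · refine hW G inferInstance A _ L l4 aP (ih' A l5) (ih' _ hB) l1
      (ih' L fun e => v2 (e ▸ Subgroup.mem_top v)) l2 fun g => ?_
    obtain ⟨b, hb, h1⟩ := fP g
    obtain ⟨s, hs, h2⟩ := oP _ h1
    exact ⟨s * b, mul_mem (Subgroup.le_normalizer hs) hb, by simpa [mul_assoc] using h2⟩
  have nP : P.Normal := Subgroup.normalizer_eq_top_iff.1 hB
  rcases lP.lt_or_eq with hlt | e
  · obtain ⟨L', A', -, -, m1, m2, -, m4, m5, -⟩ := key P nP hlt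
    refine hW G inferInstance A' A P m4 l4 (ih' A' m5) (ih' A l5) nP
      (ih' P (hlt.trans_le le_top).ne) (m1.trans m2) fun g => ?_
    obtain ⟨b, hb, h1⟩ := hV g
    obtain ⟨s, hs, h2⟩ := oP _ h1
    refine ⟨g * b⁻¹ * s⁻¹ * b, mul_mem (l2 h2) (Subgroup.zpowers_le.2 l3 hb), ?_⟩
    have := nP.conj_mem s hs (g * b⁻¹)
    convert this using 1
    group
  have hl : Link F p r := by
    by_contra hl
    have c : Cl F fun q => ¬ Link F p q := hF.cl_not hW fun a b ha hb h1 h2 =>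
      haveI := Fact.mk ha
      haveI := Fact.mk hb
      hF.trans hW h2 h1
    have h1 : v ∈ (h.2 _ c).sub := Subgroup.normalClosure_le_normal (s := {x}) (by
      rintro _ rfl
      exact ⟨trivial, _, PN.pw (π := fun q => ¬ Link F p q) hr hl k, hx⟩)
      (hnc ▸ Subgroup.mem_top v)
    obtain ⟨j, hj⟩ := pg_iff.1 pP v (e ▸ v1)
    apply v2
    rw [PE.eq_one ⟨_, PN.pw hp (h.1 p hp l6).link j, hj⟩ h1.2]
    exact one_mem _
  have s : Function.Surjective (Abelianization.of.comp (Subgroup.zpowers x).subtype) := fun y => by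
    obtain ⟨g, rfl⟩ := QuotientGroup.mk'_surjective _ y
    obtain ⟨b, h1, h2⟩ := hV g
    rw [← Abelianization.ker_of, MonoidHom.mem_ker, map_mul, map_inv, mul_inv_eq_one] at h2
    exact ⟨⟨b, h1⟩, h2.symm⟩
  have := isCyclic_of_surjective _ s
  have := Finite.of_surjective _ s
  exact hl G _ ((zp_p hx).of_surjective _ s) Abelianization.of
    (by rw [Abelianization.ker_of, ← e]; exact pP)

theorem FC.quot (f : G →* H) (hf : Function.Surjective f) (h : F G) : F H := by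
  obtain ⟨_, _⟩ := hF.fin G h
  have : Finite H := Finite.of_surjective f hf
  have : Group.IsSolvable H := solvable_of_surjective hf
  exact hF.of_dd hW _ H rfl ((hF.dd hW _ G rfl h).quot f hf)

theorem FC.r0 {A B : Type} [Group A] [Group B] [Finite G] (α : G →* A) (β : G →* B)
    (hi : ∀ g, α g = 1 → β g = 1 → g = 1) (a : F A) (b : F B) : F G := by
  obtain ⟨_, _⟩ := hF.fin A a
  obtain ⟨_, _⟩ := hF.fin B b
  have : Group.IsSolvable G := solvable_of_solvable_injective (f := α.prod β)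
    ((injective_iff_map_eq_one _).2 fun g e => hi g (congrArg Prod.fst e) (congrArg Prod.snd e))
  exact hF.of_dd hW _ G rfl (DD.r0 α β hi (hF.dd hW _ A rfl a) (hF.dd hW _ B rfl b))

omit hW in
theorem FC.wp_rad (h : ∀ (G : Type) [Group G] [Finite G], Group.IsSolvable G →
      ∀ A B : Subgroup G, (∀ g : G, ∃ a ∈ A, ∃ b ∈ B, g = a * b) →
        (Rad F A).map A.subtype ⊓ (Rad F B).map B.subtype ≤ Rad F G) : WP F := by
  intro G _ _ hs A B N aA _ fA fB nN fN le hB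
  have h1 := h G hs A B fun g => by
    obtain ⟨b, h1, h2⟩ := hB g
    exact ⟨_, le h2, b, h1, by group⟩
  refine hF.of_top (aA.top hF.rad.1 fun g hg => ?_) hF.rad.2
  obtain ⟨b, h2, h3⟩ := hB g
  have h4 : b ∈ A := by simpa using mul_mem (inv_mem (le h3)) hg
  have h5 : b ∈ Rad F G := h1
    ⟨⟨⟨b, h4⟩, le_rad (N := ⊤) inferInstance (hF.normal _ _ inferInstance fA) trivial, rfl⟩,
      ⟨⟨b, h2⟩, le_rad (N := ⊤) inferInstance (hF.normal _ _ inferInstance fB) trivial, rfl⟩⟩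
  simpa using mul_mem (le_rad nN fN h3) h5

end Pool.Agent.H68.Fit
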