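import Pool.Agent.H68.Sat1
import Pool.Agent.H68.Fit5

set_option autoImplicit false

namespace Pool.Agent.H68.Sat

open Function SemidirectProduct
open scoped commutatorElement

structure FO (F : (G : Type) → [Group G] → Prop) : Prop extends Fm F where
  one : F Unit

variable {F : (G : Type) → [Group G] → Prop}
variable {G A B : Type} [Group G] [Group A] [Group B]

theorem exists_lift (α : G →* A) (ha : Surjective α) (β : G →* B)
    (hk : ∀ g, α g = 1 → β g = 1) : ∃ γ : A →* B, ∀ g, γ (α g) = β g :=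
  ⟨α.liftOfRightInverse _ (rightInverse_surjInv ha) ⟨β, fun g => hk g⟩,
    fun _ => MonoidHom.liftOfRightInverse_comp_apply _ _ _ _ _⟩

theorem mk_surj (N : Subgroup G) [N.Normal] : Surjective (QuotientGroup.mk' N) :=
  QuotientGroup.mk'_surjective N

theorem mk_one {N : Subgroup G} [N.Normal] {g : G} : QuotientGroup.mk' N g = 1 ↔ g ∈ N :=
  QuotientGroup.eq_one_iff g

theorem FO.triv (hF : FO F) [Subsingleton G] : F G :=
  hF.toFm.surj (1 : Unit →* G) (fun _ => ⟨1, Subsingleton.elim _ _⟩) hF.one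

theorem Fm.quo_inf (hF : Fm F) [Finite G] (N L : Subgroup G) [N.Normal] [L.Normal]
    (a : F (G ⧸ N)) (b : F (G ⧸ L)) : F (G ⧸ (N ⊓ L)) :=
  hF.fac ((QuotientGroup.mk' N).prod (QuotientGroup.mk' L)).rangeRestrict _
    (MonoidHom.rangeRestrict_surjective _) (mk_surj _) (fun g h => mk_one.2
      ⟨mk_one.1 (congrArg Prod.fst (congrArg Subtype.val h)),
        mk_one.1 (congrArg Prod.snd (congrArg Subtype.val h))⟩)
    (hF.rng _ _ (mk_surj N) (mk_surj L) a b)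

/-- the residual -/
def Res (F : (G : Type) → [Group G] → Prop) (G : Type) [Group G] : Subgroup G :=
  sInf {N | ∃ _ : N.Normal, F (G ⧸ N)}

instance : (Res F G).Normal := ⟨fun _ h g => Subgroup.mem_sInf.2 fun N hN =>
  hN.1.conj_mem _ (Subgroup.mem_sInf.1 h N hN) g⟩

theorem FO.res_mem (hF : FO F) [Finite G] : F (G ⧸ Res F G) := by
  obtain ⟨N, ⟨hN, h⟩, hm⟩ := (wellFounded_lt (α := Subgroup G)).has_min
    {N | ∃ _ : N.Normal, F (G ⧸ N)} ⟨⊤, inferInstance,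
      haveI := QuotientGroup.subsingleton_quotient_top (G := G); hF.triv⟩
  refine hF.toFm.fac _ _ (mk_surj N) (mk_surj _) (fun g hg => mk_one.2 ?_) h
  refine Subgroup.mem_sInf.2 ?_
  rintro L ⟨hL, h'⟩
  have : N ⊓ L = N := by
    by_contra hne
    exact hm _ ⟨inferInstance, hF.toFm.quo_inf N L h h'⟩ (lt_of_le_of_ne inf_le_left hne)
  exact (this.ge (mk_one.1 hg)).2

theorem Fm.res_le (hF : Fm F) (f : G →* A) (hf : Surjective f) (a : F A) {g : G}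
    (hg : g ∈ Res F G) : f g = 1 :=
  Subgroup.mem_sInf.1 hg f.ker ⟨inferInstance,
    hF.fac f _ hf (mk_surj _) (fun _ h => mk_one.2 h) a⟩

theorem FO.of_ker (hF : FO F) [Finite G] (f : G →* A) (hf : Surjective f)
    (h : ∀ g ∈ Res F G, f g = 1) : F A :=
  hF.toFm.fac _ f (mk_surj _) hf (fun g hg => h g (mk_one.1 hg)) hF.res_mem

theorem FO.of_res (hF : FO F) [Finite G] (h : ∀ g ∈ Res F G, g = 1) : F G :=
  hF.of_ker (MonoidHom.id G) surjective_id h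

theorem FO.res_map (hF : FO F) [Finite G] (f : G →* A) (hf : Surjective f) {g : G}
    (hg : g ∈ Res F G) : f g ∈ Res F A :=
  haveI : Finite A := Finite.of_surjective f hf
  mk_one.1 (hF.toFm.res_le ((QuotientGroup.mk' _).comp f) ((mk_surj _).comp hf) hF.res_mem hg)

theorem FO.res_surj (hF : FO F) [Finite G] (f : G →* A) (hf : Surjective f) {a : A}
    (ha : a ∈ Res F A) : ∃ g ∈ Res F G, f g = a := by
  have : ((Res F G).map f).Normal := Subgroup.Normal.map inferInstance f hf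
  exact mk_one.1 (hF.toFm.res_le (QuotientGroup.mk' ((Res F G).map f)) (mk_surj _)
    (hF.of_ker ((QuotientGroup.mk' _).comp f) ((mk_surj _).comp hf)
      fun g hg => mk_one.2 ⟨g, hg, rfl⟩) ha)

/-- restriction of a surjection to the residuals -/
def FO.rs (hF : FO F) [Finite G] (f : G →* A) (hf : Surjective f) : Res F G →* Res F A :=
  (f.comp (Res F G).subtype).codRestrict _ fun g => hF.res_map f hf g.2

theorem FO.rs_surj (hF : FO F) [Finite G] (f : G →* A) (hf : Surjective f) :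
    Surjective (hF.rs f hf) := fun a => by
  obtain ⟨g, hg, e⟩ := hF.res_surj f hf a.2
  exact ⟨⟨g, hg⟩, Subtype.ext e⟩

theorem spl (hF : Fm F) {E T : Type} [Group E] [Finite E] [Group T] (h : F E) (π : E →* T)
    (hπ : Surjective π) (V : Subgroup E) [V.Normal] (hc : ∀ a ∈ V, ∀ b ∈ V, a * b = b * a)
    (hk : ∀ e, π e = 1 → ∀ v ∈ V, e * v = v * e) :
    ∃ φ : T →* MulAut V, (∀ e v, (φ (π e) v : E) = e * v * e⁻¹) ∧ F (V ⋊[φ] T) := by
  obtain ⟨φ, hφ⟩ := exists_lift π hπ (MulAut.conjNormal (H := V)) fun e he => by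
    ext v; simp [hk e he v v.2]
  have hφ' : ∀ e v, (φ (π e) v : E) = e * v * e⁻¹ := fun e v => by rw [hφ]; rfl
  refine ⟨φ, hφ', ?_⟩
  let q := QuotientGroup.mk' V
  let D := (q.comp (MonoidHom.fst E E)).eqLocus (q.comp (MonoidHom.snd E E))
  have hD : F D := hF.sub ((MonoidHom.fst E E).comp D.subtype) ((MonoidHom.snd E E).comp D.subtype)
    (fun e => ⟨⟨(e, e), rfl⟩, rfl⟩) (fun e => ⟨⟨(e, e), rfl⟩, rfl⟩)
    (fun g a b => Subtype.ext (Prod.ext a b)) h h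
  have m : ∀ d : D, d.1.1 * d.1.2⁻¹ ∈ V := fun d => mk_one.1 (by
    have : q d.1.1 = q d.1.2 := d.2
    rw [map_mul, map_inv]; exact mul_inv_eq_one.2 this)
  refine hF.surj (MonoidHom.mk' (fun d : D => (⟨⟨_, m d⟩, π d.1.2⟩ : V ⋊[φ] T)) ?_) ?_ hD
  · intro a b
    ext
    · simp [hφ']; group
    · simp
  · rintro ⟨v, t⟩
    obtain ⟨e, rfl⟩ := hπ t
    refine ⟨⟨(v * e, e), ?_⟩, ?_⟩
    · show q (v * e) = q e
      rw [map_mul, mk_one.2 v.2, one_mul]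
    · ext <;> simp

theorem central (hF : Fm F) [Finite G] (h : F G) (Z : Subgroup G)
    (hZ : ∀ z ∈ Z, ∀ g, g * z = z * g) : F Z := by
  have : Z.Normal := ⟨fun z hz g => by rw [hZ z hz g]; simpa⟩
  obtain ⟨φ, -, h⟩ := spl hF h (1 : G →* Unit) (fun _ => ⟨1, rfl⟩) Z (fun a _ b hb => hZ b hb a)
    (fun e _ v hv => hZ v hv e)
  refine hF.surj (MonoidHom.mk' (fun x : Z ⋊[φ] Unit => x.left) fun a b => ?_)
    (fun z => ⟨inl z, rfl⟩) h
  rw [mul_left, Subsingleton.elim a.right 1, map_one]; rfl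

theorem comm_ne [Finite G] {I Q : Subgroup G} [hQ : Group.IsNilpotent Q] (hle : I ≤ Q)
    (h : ⁅I, Q⁆ = I) : I = ⊥ := by
  obtain ⟨n, hn⟩ := (Subgroup.isNilpotent_iff_lowerCentralSeries Q).1 hQ
  have : ∀ k, I ≤ Q.lowerCentralSeries k := fun k => by
    induction k with
    | zero => exact hle
    | succ k ih => rw [← h]; exact Subgroup.commutator_mono ih le_rfl
  exact le_bot_iff.1 (hn ▸ this n)

theorem comm_coatom [Finite G] [Group.IsNilpotent G] {M : Subgroup G} (hM : IsCoatom M) (a b : G) :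
    ⁅a, b⁆ ∈ M := by
  have hN : M.Normal := Subgroup.NormalizerCondition.normal_of_coatom M
    Group.normalizerCondition_of_isNilpotent hM
  by_cases ha : a ∈ M
  · rw [commutatorElement_def, mul_assoc, mul_assoc, ← mul_assoc b]
    exact mul_mem ha (hN.conj_mem _ (inv_mem ha) b)
  have h1 : M ⊔ Subgroup.zpowers a = ⊤ := hM.2 _ (lt_of_le_of_ne le_sup_left fun e =>
    ha (e ▸ Subgroup.mem_sup_right (Subgroup.mem_zpowers a)))
  have : b ∈ M ⊔ Subgroup.zpowers a := h1 ▸ trivial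
  rw [Subgroup.mem_sup_of_normal_left] at this
  obtain ⟨m, hm, _, ⟨k, rfl⟩, rfl⟩ := this
  rw [← mk_one, map_commutatorElement, map_mul, mk_one.2 hm, one_mul, map_zpow]
  exact ((Commute.refl _).zpow_right k).commutator_eq

theorem comm_frat [Finite G] (Q : Subgroup G) [Q.Normal] [Group.IsNilpotent Q] :
    ⁅Q, Q⁆ ≤ frattini G := by
  intro x hx
  refine Subgroup.mem_iInf.2 fun M => Subgroup.mem_iInf.2 fun hM => ?_
  by_contra hn
  have h1 : M ⊔ ⁅Q, Q⁆ = ⊤ :=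
    hM.2 _ (lt_of_le_of_ne le_sup_left fun e => hn (e ▸ Subgroup.mem_sup_right hx))
  rcases eq_top_or_exists_le_coatom (M.subgroupOf Q) with e | ⟨L, hL, hle⟩
  · have : x ∈ Q := Subgroup.commutator_le_left Q Q hx
    have h2 : (⟨x, this⟩ : Q) ∈ M.subgroupOf Q := e ▸ trivial
    exact hn h2
  refine hL.1 (eq_top_iff.2 fun q _ => ?_)
  have : (q : G) ∈ M ⊔ ⁅Q, Q⁆ := h1 ▸ trivial
  rw [Subgroup.mem_sup_of_normal_right] at this
  obtain ⟨m, hm, c, hc, e⟩ := this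
  have h3 : ⁅Q, Q⁆ ≤ L.map Q.subtype := Subgroup.commutator_le.2 fun a ha b hb =>
    ⟨⁅(⟨a, ha⟩ : Q), ⟨b, hb⟩⁆, comm_coatom hL _ _, rfl⟩
  obtain ⟨c', hc', rfl⟩ := h3 hc
  have : q = (q * c'⁻¹) * c' := by simp
  rw [this]
  refine mul_mem (hle ?_) hc'
  show (q : G) * (c' : G)⁻¹ ∈ M
  rw [← e]; simpa

theorem locate (hF : Fm F) {Γ E T : Type} [Group Γ] [Finite Γ] [Group E] [Finite E] [Group T]
    (h : F Γ) (ρ : Γ →* T) [Group.IsNilpotent ρ.ker] (τ : T →* Γ) (hτ : ∀ t, ρ (τ t) = t)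
    (π : E →* T) (σ : T →* E) (hσ : ∀ t, π (σ t) = t)
    (hc : ∀ a b, π a = 1 → π b = 1 → a * b = b * a)
    (hm : ∀ U : Subgroup E, U.Normal → U ≤ π.ker → U = ⊥ ∨ U = π.ker)
    (A : Subgroup (Γ × E)) (a1 : ∀ x ∈ A, ρ x.1 = 1 ∧ π x.2 = 1)
    (a2 : ∀ x ∈ A, ∀ t, (τ t * x.1 * (τ t)⁻¹, σ t * x.2 * (σ t)⁻¹) ∈ A)
    (a3 : ∀ u, (1, u) ∈ A → u = 1) (a4 : ∃ x ∈ A, x.2 ≠ 1) : F E := by
  obtain ⟨I, ⟨hI, hIQ, x, hx, hxI, hx1⟩, hmin⟩ := (wellFounded_lt (α := Subgroup Γ)).has_min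
    {I | I.Normal ∧ I ≤ ρ.ker ∧ ∃ x ∈ A, x.1 ∈ I ∧ x.2 ≠ 1} ⟨ρ.ker, inferInstance, le_rfl, by
      obtain ⟨x, h1, h2⟩ := a4; exact ⟨x, h1, (a1 x h1).1, h2⟩⟩
  have hJI : ⁅I, ρ.ker⁆ ≤ I := Subgroup.commutator_le_left _ _
  have hJ : ∀ y ∈ A, y.1 ∈ ⁅I, ρ.ker⁆ → y.2 = 1 := by
    intro y hy h1
    by_contra h2
    refine hmin _ ⟨inferInstance, hJI.trans hIQ, y, hy, h1, h2⟩ (lt_of_le_of_ne hJI fun e => ?_)
    rw [comm_ne hIQ e, Subgroup.mem_bot] at hxI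
    exact hx1 (a3 x.2 (hxI ▸ hx))
  let q := QuotientGroup.mk' ⁅I, ρ.ker⁆
  have cj : ∀ g : Γ, ∀ b ∈ I, q (g * b * g⁻¹) = q (τ (ρ g) * b * (τ (ρ g))⁻¹) := by
    intro g b hb
    have h1 : q ⁅τ (ρ g) * b * (τ (ρ g))⁻¹, g * (τ (ρ g))⁻¹⁆ = 1 :=
      mk_one.2 (Subgroup.commutator_mem_commutator (hI.conj_mem _ hb _)
        (by simp [MonoidHom.mem_ker, hτ]))
    rw [map_commutatorElement, commutatorElement_eq_one_iff_mul_comm] at h1
    have : g * b * g⁻¹ = g * (τ (ρ g))⁻¹ * (τ (ρ g) * b * (τ (ρ g))⁻¹) * (g * (τ (ρ g))⁻¹)⁻¹ := by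
      group
    rw [this, map_mul, map_mul, ← h1, map_inv q (_ * _), mul_inv_cancel_right]
  let D : Subgroup ((Γ × Γ) × E) :=
    { carrier := {d | ∃ y ∈ A, y.1 ∈ I ∧ q d.1.1 = q y.1 * q d.1.2 ∧ d.2 = y.2 * σ (ρ d.1.2)}
      one_mem' := ⟨1, one_mem _, one_mem _, by simp, by simp⟩
      mul_mem' := by
        rintro ⟨⟨a, b⟩, c⟩ ⟨⟨a', b'⟩, c'⟩ ⟨y, h1, h2, h3, h4⟩ ⟨z, h5, h6, h7, h8⟩
        refine ⟨_, mul_mem h1 (a2 z h5 (ρ b)), mul_mem h2 (hI.conj_mem _ h6 _), ?_, ?_⟩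
        · simp only [Prod.fst_mul, Prod.snd_mul] at *
          rw [map_mul, h3, h7, map_mul, ← cj b _ h6]; simp [mul_assoc]
        · simp only [Prod.fst_mul, Prod.snd_mul] at *
          rw [h4, h8]; simp [mul_assoc]
      inv_mem' := by
        rintro ⟨⟨a, b⟩, c⟩ ⟨y, h1, h2, h3, h4⟩
        refine ⟨_, a2 _ (inv_mem h1) (ρ b⁻¹), hI.conj_mem _ (inv_mem h2) _, ?_, ?_⟩
        · simp only [Prod.fst_inv, Prod.snd_inv] at *
          rw [map_inv, h3, ← cj b⁻¹ _ (inv_mem h2)]; simp [mul_assoc]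
        · simp only [Prod.fst_inv, Prod.snd_inv] at *
          rw [h4]; simp [mul_assoc] }
  have dg : ∀ g : Γ, ((g, g), σ (ρ g)) ∈ D := fun g => ⟨1, one_mem _, one_mem _, by simp, by simp⟩
  have hD : F D := by
    refine hF.sub (((MonoidHom.fst _ _).comp (MonoidHom.fst _ _)).comp D.subtype)
      (((MonoidHom.snd _ _).comp (MonoidHom.fst _ _)).comp D.subtype)
      (fun g => ⟨⟨_, dg g⟩, rfl⟩) (fun g => ⟨⟨_, dg g⟩, rfl⟩) ?_ h h
    rintro ⟨⟨⟨a, b⟩, c⟩, y, h1, h2, h3, h4⟩ (rfl : a = 1) (rfl : b = 1)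
    simp only [map_one, mul_one] at h3 h4
    rw [hJ y h1 (mk_one.1 h3.symm)] at h4
    exact Subtype.ext (Prod.ext rfl h4)
  refine hF.surj ((MonoidHom.snd _ _).comp D.subtype) (fun e => ?_) hD
  let U := (A ⊓ I.prod ⊤).map (MonoidHom.snd Γ E)
  have hU : U ≤ π.ker := by rintro _ ⟨y, hy, rfl⟩; exact (a1 y hy.1).2
  have hUn : U.Normal := ⟨by
    rintro _ ⟨y, hy, rfl⟩ g
    refine ⟨_, ⟨a2 y hy.1 (π g), hI.conj_mem _ hy.2.1 _, trivial⟩, ?_⟩
    have := hc (g * (σ (π g))⁻¹) (σ (π g) * y.2 * (σ (π g))⁻¹) (by simp [hσ])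
      (by simp [(a1 y hy.1).2])
    show σ (π g) * y.2 * (σ (π g))⁻¹ = g * y.2 * g⁻¹
    calc _ = g * (σ (π g))⁻¹ * (σ (π g) * y.2 * (σ (π g))⁻¹) * (g * (σ (π g))⁻¹)⁻¹ := by
          rw [this, mul_inv_cancel_right]
      _ = _ := by group⟩
  rcases hm U hUn hU with e1 | e1
  · exact absurd (Subgroup.mem_bot.1 (e1 ▸ (⟨x, ⟨hx, hxI, trivial⟩, rfl⟩ : x.2 ∈ U))) hx1
  have : e * (σ (π e))⁻¹ ∈ U := by rw [e1]; simp [MonoidHom.mem_ker, hσ]
  obtain ⟨y, hy, h2⟩ := this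
  have h2 : y.2 = e * (σ (π e))⁻¹ := h2
  exact ⟨⟨((y.1 * τ (π e), τ (π e)), e), y, hy.1, hy.2.1, map_mul _ _ _, by simp [h2, hτ]⟩, rfl⟩

end Pool.Agent.H68.Sat
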