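import Pool.Agent.H68.Wi2
import Pool.Agent.H68.Sat2

set_option autoImplicit false

namespace Pool.Agent.H68.Bu

open Function Pool.Agent.H68.Wi Pool.Agent.H68.Sat
open Subgroup (IsSubnormal zpowers)
open scoped commutatorElement

def SP (S : Type) [Group S] : Prop := ∀ (Y : Type) [Group Y] [Finite Y] (p : Y →* S),
  Surjective p → (∀ c, p c = 1 → c ^ 3 = 1 ∧ ∀ y, c * y = y * c) → ∃ s : S →* Y, ∀ x, p (s x) = x

structure Dt {G B : Type} [Group G] [Group B] (π : G →* B) (S : Subgroup G) (τ : G →* G) (t : G) :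
    Prop where
  sj : Surjective π
  ns : ∀ N ≤ S, Nm S N → N ≤ π.ker ∨ S ≤ N
  pf : S ≤ ⁅S, S⁆
  ne : ¬S ≤ π.ker
  out : ∀ g, (∀ x ∈ S, π ⁅g, x⁆ = 1) → π g = 1
  top : ∀ g, ∃ x ∈ S, x * g ∈ zpowers t
  t3 : t ^ 3 = 1
  cz : Nat.card π.ker = 3
  ce : ∀ z, π z = 1 → ∀ g, z * g = g * z
  sp : SP S
  ts : Surjective τ
  tq : ∀ g, τ g * g⁻¹ ∈ S
  tz : ∀ z, π z = 1 → τ z = z⁻¹

variable {G B H : Type} [Group G] [Group B] [Group H] {π : G →* B} {S : Subgroup G} {τ : G →* G}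
  {t : G} [hS : S.Normal]

theorem Dt.cube (d : Dt π S τ t) {z : G} (h : π z = 1) : z ^ 3 = 1 := by
  have := pow_card_eq_one' (x := (⟨z, h⟩ : π.ker))
  rw [d.cz] at this
  exact congrArg Subtype.val this

theorem Dt.nm (d : Dt π S τ t) {N : Subgroup B} (h : Nm (S.map π) N) : N = ⊥ ∨ S.map π ≤ N := by
  rcases d.ns (S ⊓ N.comap π) inf_le_left (nm_self.inf fun x hx y hy => by
    simpa using h _ ⟨x, hx, rfl⟩ _ hy) with p | p
  · refine .inl (le_bot_iff.1 fun b hb => ?_)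
    obtain ⟨g, rfl⟩ := d.sj b
    refine d.out g fun x hx => p ⟨mul_mem (hS.conj_mem x hx g) (S.inv_mem hx), ?_⟩
    have := mul_mem hb (h _ ⟨x, hx, rfl⟩ _ (inv_mem hb))
    simpa [commutatorElement_def, mul_assoc] using this
  · exact .inr (Subgroup.map_le_iff_le_comap.2 (p.trans inf_le_right))

theorem Dt.obX (d : Dt π S τ t) : Ob (S.map π) where
  sn := (hS.map π d.sj).isSubnormal
  ne := by rw [Ne, Subgroup.map_eq_bot_iff]; exact d.ne
  pf := by rw [← Subgroup.map_commutator]; exact Subgroup.map_mono d.pf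
  ji A C _ _ hA _ h := (d.nm hA).elim (fun p => .inr (by simpa [p] using h)) .inl

theorem Dt.eqX (d : Dt π S τ t) {D : Subgroup B} (o : Ob D) : D = S.map π := by
  haveI := hS.map π d.sj
  refine le_antisymm (o.pf.trans (Subgroup.commutator_le.2 fun a _ b _ => ?_)) ?_
  · obtain ⟨a, rfl⟩ := d.sj a
    obtain ⟨b, rfl⟩ := d.sj b
    obtain ⟨x, hx, i, p⟩ := d.top a
    obtain ⟨y, hy, j, q⟩ := d.top b
    rw [← map_commutatorElement]
    refine ⟨_, mk_one.1 ?_, rfl⟩
    rw [eq_inv_mul_of_mul_eq p.symm, eq_inv_mul_of_mul_eq q.symm]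
    simp only [map_commutatorElement, map_mul, map_inv, mk_one.2 hx, mk_one.2 hy, inv_one, one_mul,
      map_zpow]
    exact commutatorElement_eq_one_iff_commute.2 (Commute.zpow_zpow_self _ i j)
  · have : ∀ K : Subgroup B, K.IsSubnormal → K = ⊥ ∨ S.map π ≤ K := fun K hK => by
      induction hK with
      | top => exact .inr le_top
      | step A C h1 _ h2 ih =>
        rcases ih with rfl | p
        · exact .inl (le_bot_iff.1 h1)
        · exact d.nm (((nm_iff h1).1 h2).mono p)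
    exact (this D o.sn).resolve_left o.ne

theorem sn_rng {f : H →* B} (hf : Surjective f) : f.range.IsSubnormal := by
  rw [MonoidHom.range_eq_top.2 hf]; exact .top

theorem Dt.img (d : Dt π S τ t) {D : Subgroup H} (o : Ob D) {f : H →* B} (hf : Surjective f)
    (k : ¬D ≤ f.ker) : D.map f = S.map π := d.eqX (o.map f (sn_rng hf) k)

theorem Dt.fac (d : Dt π S τ t) {D N : Subgroup H} (o : Ob D) {f : H →* B} (hf : Surjective f)
    (k : ¬D ≤ f.ker) [hN : N.Normal] (h : ¬D ≤ N) : N ≤ f.ker := by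
  haveI := hN.map f hf
  rcases d.nm (N := N.map f) nm_normal with p | p
  · exact (Subgroup.map_eq_bot_iff _).1 p
  · exact (h (o.le_of f hN.isSubnormal k ((d.img o hf k).le.trans p))).elim

def InF (G H : Type) [Group G] [Group H] : Prop := ∃ n : ℕ, ∃ A : Subgroup (Fin n → G),
  (∀ (i : Fin n) (g : G), ∃ s ∈ A, s i = g) ∧ ∃ f : A →* H, Surjective f

def pr {n : ℕ} (A : Subgroup (Fin n → G)) (i : Fin n) : A →* G :=
  (Pi.evalMonoidHom _ i).comp A.subtype

theorem pr_sj {n : ℕ} {A : Subgroup (Fin n → G)} (h : ∀ (i : Fin n) (g : G), ∃ s ∈ A, s i = g)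
    (i : Fin n) : Surjective (pr A i) := fun g => by
  obtain ⟨s, p, q⟩ := h i g
  exact ⟨⟨s, p⟩, q⟩

theorem Dt.k2 [Finite G] (d : Dt π S τ t) (h : InF G H) {D : Subgroup H} (o : Ob D) :
    ∃ f : H →* B, Surjective f ∧ ¬D ≤ f.ker ∧
      ∀ x ∈ D, f x = 1 → x ^ 3 = 1 ∧ ∀ y, x * y = y * x := by
  obtain ⟨n, A, hA, q, hq⟩ := h
  obtain ⟨E, e, k, rfl⟩ := o.lift q (by rw [MonoidHom.range_eq_top.2 hq]; exact le_top)
  have s := fun i => d.sj.comp (pr_sj hA i)
  obtain ⟨i, hi⟩ : ∃ i, ¬E ≤ (π.comp (pr A i)).ker := by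
    by_contra hc
    refine e.ne (le_bot_iff.1 (e.pf.trans (Subgroup.commutator_le.2 fun x hx y _ => ?_)))
    exact commutatorElement_eq_one_iff_mul_comm.2 (Subtype.ext (funext fun j =>
      d.ce _ (not_not.1 (not_exists.1 hc j) hx) _))
  obtain ⟨f, hf⟩ := exists_lift q hq (π.comp (pr A i)) fun g hg => d.fac e (s i) hi k hg
  refine ⟨f, .of_comp (g := q) (by rw [show f ∘ q = _ from funext hf]; exact s i),
    fun p => hi fun x hx => (hf x).symm.trans (p ⟨x, hx, rfl⟩), ?_⟩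
  rintro _ ⟨x, hx, rfl⟩ p
  have z : ∀ j, π (x.1 j) = 1 := fun j => by
    by_cases r : E ≤ (π.comp (pr A j)).ker
    · exact r hx
    · exact d.fac e (s j) r hi ((hf x).symm.trans p)
  refine ⟨by rw [← map_pow, show x ^ 3 = 1 from Subtype.ext (funext fun j => d.cube (z j)), map_one],
    fun y => ?_⟩
  obtain ⟨y, rfl⟩ := hq y
  rw [← map_mul, ← map_mul, show x * y = y * x from Subtype.ext (funext fun j => d.ce _ (z j) _)]

theorem Dt.k4 [Finite G] (d : Dt π S τ t) (h : InF G H) (no : ∀ D : Subgroup H, ¬Ob D) (x y : H) :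
    x * y = y * x ∧ x ^ 9 = 1 := by
  classical
  obtain ⟨n, A, hA, q, hq⟩ := h
  have s := fun i => d.sj.comp (pr_sj hA i)
  choose D h1 h2 h3 using fun i => d.obX.lift (π.comp (pr A i))
    (by rw [MonoidHom.range_eq_top.2 (s i)]; exact le_top)
  have hk : ∀ i, D i ≤ q.ker := fun i => by_contra fun p => no _ ((h1 i).map q (sn_rng hq) p)
  obtain ⟨r, hr, hr'⟩ : ∃ r : Fin n → Fin n, (∀ i, D (r i) = D i) ∧ ∀ i j, D j = D i → r i = r j :=
    ⟨fun i => @invFun _ _ ⟨i⟩ D (D i), fun i => @invFun_eq _ _ ⟨i⟩ _ _ ⟨i, rfl⟩,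
      fun i j h => by simp only [h]⟩
  have adj : ∀ x : A, ∃ e ∈ q.ker, ∀ i, π ((e * x).1 (r i)) ∈ zpowers (π t) := fun x => by
    suffices ∀ I : Finset (Fin n), ∃ e ∈ q.ker, ∀ i ∈ I, π ((e * x).1 (r i)) ∈ zpowers (π t) by
      obtain ⟨e, p, p'⟩ := this Finset.univ
      exact ⟨e, p, fun i => p' i (Finset.mem_univ i)⟩
    intro I
    induction I using Finset.induction_on with
    | empty => exact ⟨1, one_mem _, by simp⟩
    | insert i I _ ih =>
      obtain ⟨e, p, p'⟩ := ih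
      by_cases c : ∃ j ∈ I, D j = D i
      · obtain ⟨j, c, c'⟩ := c
        refine ⟨e, p, fun k hk => (Finset.mem_insert.1 hk).elim (fun u => ?_) (p' k)⟩
        rw [u, hr' i j c']
        exact p' j c
      obtain ⟨u, hu, m, hm⟩ := d.top ((e * x).1 (r i))
      obtain ⟨v, hv, hv'⟩ : π u ∈ (D (r i)).map (π.comp (pr A (r i))) := h3 _ ▸ ⟨u, hu, rfl⟩
      refine ⟨v * e, mul_mem (hk _ hv) p, fun k hk => ?_⟩
      rw [mul_assoc]
      change π (v.1 (r k) * _) ∈ _
      rcases Finset.mem_insert.1 hk with rfl | hk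
      · rw [map_mul, show π (v.1 (r k)) = π u from hv', ← map_mul, ← hm]
        exact ⟨m, (map_zpow π t m).symm⟩
      · have : D (r i) ≤ (π.comp (pr A (r k))).ker := by_contra fun w => c ⟨k, hk, by
          rw [← hr i, ← hr k]
          exact ((h1 _).uq _ (h1 _) w ((d.img (h1 _) (s _) w).trans (h3 _).symm)).symm⟩
        rw [map_mul, show π (v.1 (r k)) = 1 from this hv, one_mul]
        exact p' k hk
  have ke : ∀ i (z : A), π (z.1 (r i)) = 1 → π (z.1 i) = 1 := fun i z hz =>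
    d.fac (N := (π.comp (pr A (r i))).ker) (h1 i) (s i) (h2 i) (hr i ▸ h2 (r i)) hz
  obtain ⟨x, rfl⟩ := hq x
  obtain ⟨y, rfl⟩ := hq y
  obtain ⟨e, p, p'⟩ := adj x
  obtain ⟨e', u, u'⟩ := adj y
  rw [show q x = q (e * x) by rw [map_mul, show q e = 1 from p, one_mul],
    show q y = q (e' * y) by rw [map_mul, show q e' = 1 from u, one_mul]]
  generalize e * x = x at p'
  generalize e' * y = y at u'
  rw [← map_mul, ← map_mul, ← map_pow]
  refine ⟨congrArg q (Subtype.ext (funext fun i => ?_)),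
    (congrArg q (Subtype.ext (funext fun i => ?_))).trans (map_one q)⟩
  · obtain ⟨w, hw⟩ := s (r i) (π t)
    obtain ⟨a, ha⟩ := p' i
    obtain ⟨b, hb⟩ := u' i
    have k : ∀ (z : A) (c : ℤ), π t ^ c = π (z.1 (r i)) → ∃ v, π v = 1 ∧ z.1 i = v * w.1 i ^ c :=
      fun z c hc => ⟨_, ke i (z * (w ^ c)⁻¹) (by
        change π (z.1 (r i) * (w.1 (r i) ^ c)⁻¹) = 1
        rw [map_mul, map_inv, map_zpow, show π (w.1 (r i)) = π t from hw, hc, mul_inv_cancel]), by
        change _ = z.1 i * (w.1 i ^ c)⁻¹ * _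
        simp⟩
    obtain ⟨v, c1, c2⟩ := k x a ha
    obtain ⟨v', c3, c4⟩ := k y b hb
    change x.1 i * y.1 i = y.1 i * x.1 i
    rw [c2, c4]
    exact (Commute.mul_left (d.ce v c1 _) (Commute.mul_right (d.ce v' c3 _).symm
      (Commute.zpow_zpow_self _ a b)) :)
  · obtain ⟨a, ha⟩ := p' i
    have := d.cube (ke i (x ^ 3) (by
      change π (x.1 (r i) ^ 3) = 1
      rw [map_pow, ← ha, ← zpow_natCast, ← zpow_mul, mul_comm, zpow_mul, zpow_natCast, ← map_pow,
        d.t3, map_one, one_zpow]))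
    change (x.1 i ^ 3) ^ 3 = 1 at this
    rwa [← pow_mul] at this

theorem cz_comm {p q : H} (z1 : ∀ w, p * w = w * p) (z2 : ∀ w, q * w = w * q) (m n : H) :
    ⁅p * m, q * n⁆ = ⁅m, n⁆ := by
  simp only [commutatorElement_def, mul_inv_rev]
  calc _ = p * (m * (q * (n * m⁻¹)) * p⁻¹) * n⁻¹ * q⁻¹ := by group
    _ = m * (q * (n * m⁻¹ * n⁻¹)) * q⁻¹ := by rw [z1]; group
    _ = _ := by rw [z2]; group

variable {F : (G : Type) → [Group G] → Prop}

theorem Dt.sep [Finite G] [Finite H] (d : Dt π S τ t) (hF : Fm F) (a : F H) (nG : ¬F G)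
    {D : Subgroup H} (o : Ob D) {f : H →* B} (hf : Surjective f) (k : ¬D ≤ f.ker)
    (c : ∀ x ∈ D, f x = 1 → x ^ 3 = 1 ∧ ∀ y, x * y = y * x) : ∀ x ∈ D, f x = 1 → x = 1 := by
  have im := d.img o hf k
  let Y : Subgroup (S × H) :=
    { carrier := {y | y.2 ∈ D ∧ π y.1 = f y.2}
      one_mem' := ⟨one_mem _, by simp⟩
      mul_mem' := fun p q => ⟨mul_mem p.1 q.1, by simp [p.2, q.2]⟩
      inv_mem' := fun p => ⟨inv_mem p.1, by simp [p.2]⟩ }
  obtain ⟨s, hs⟩ := d.sp Y ((MonoidHom.fst _ _).comp Y.subtype) (fun x => by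
    obtain ⟨y, p, q⟩ : π x ∈ D.map f := im ▸ ⟨x, x.2, rfl⟩
    exact ⟨⟨(x, y), p, q.symm⟩, rfl⟩) fun y hy => by
      have e : y.1.1 = 1 := hy
      have := c _ y.2.1 (by rw [← y.2.2, e]; simp)
      exact ⟨Subtype.ext (Prod.ext (by simp [e]) this.1),
        fun z => Subtype.ext (Prod.ext (by simp [e]) (this.2 _))⟩
  let φ : S →* H := (MonoidHom.snd _ _).comp (Y.subtype.comp s)
  have φD : ∀ x, φ x ∈ D := fun x => (s x).2.1
  have fφ : ∀ x, f (φ x) = π x := fun x =>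
    (s x).2.2.symm.trans (congrArg (fun y : S => π y) (hs x))
  clear_value φ
  have nD : D.Normal := ⟨fun x hx g => nm_of_ac (A := ⊤) (fun g _ => (o.ac g).uq f o (ac_ker f g k)
    ((d.img (o.ac g) hf (ac_ker f g k)).trans im.symm)) g trivial x hx⟩
  have eqv : ∀ h g, f h = π g → ∀ x, h * φ x * h⁻¹ = φ (MulAut.conjNormal g x) := fun h g e x => by
    let ψ := (MulAut.conj h).toMonoidHom.comp φ
    let χ := φ.comp (MulAut.conjNormal (H := S) g).toMonoidHom
    have z : ∀ y w, ψ y * (χ y)⁻¹ * w = w * (ψ y * (χ y)⁻¹) := fun y =>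
      (c _ (mul_mem (nD.conj_mem _ (φD y) h) (inv_mem (φD _))) (by simp [ψ, χ, fφ, e])).2
    have : (⊤ : Subgroup S) ≤ ψ.eqLocus χ := by
      have pf : (⊤ : Subgroup S) ≤ ⁅⊤, ⊤⁆ := Subgroup.map_subtype_le_map_subtype.1 (by
        rw [Subgroup.map_commutator, ← MonoidHom.range_eq_map, Subgroup.range_subtype]; exact d.pf)
      refine pf.trans (Subgroup.commutator_le.2 fun u _ v _ => ?_)
      change ψ _ = χ _
      rw [map_commutatorElement, map_commutatorElement, ← inv_mul_cancel_right (ψ u) (χ u),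
        ← inv_mul_cancel_right (ψ v) (χ v)]
      exact cz_comm (z u) (z v) _ _
    exact this (Subgroup.mem_top x)
  by_cases inj : Injective φ
  · refine (nG ?_).elim
    let P : Subgroup (H × G) := (f.comp (MonoidHom.fst _ _)).eqLocus (π.comp (MonoidHom.snd _ _))
    let β : P →* H := MonoidHom.mk' (fun p => φ ⟨_, d.tq p.1.2⟩ * p.1.1) fun p q => by
      have := eqv p.1.1 p.1.2 p.2 ⟨_, d.tq q.1.2⟩
      rw [mul_inv_eq_iff_eq_mul] at this
      rw [mul_assoc, ← mul_assoc p.1.1, this, ← mul_assoc, ← mul_assoc, ← map_mul, mul_assoc]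
      congr 2
      ext
      simp [mul_assoc]
    refine hF.surj ((MonoidHom.snd _ _).comp P.subtype) (fun g => ?_)
      (hF.sub ((MonoidHom.fst _ _).comp P.subtype) β (fun h => ?_) (fun h => ?_) ?_ a a)
    · obtain ⟨h, e⟩ := hf (π g)
      exact ⟨⟨(h, g), e⟩, rfl⟩
    · obtain ⟨g, e⟩ := d.sj (f h)
      exact ⟨⟨(h, g), e.symm⟩, rfl⟩
    · obtain ⟨g₀, e⟩ := d.sj (f h)
      obtain ⟨g, rfl⟩ := d.ts g₀
      refine ⟨⟨((φ ⟨_, d.tq g⟩)⁻¹ * h, g), ?_⟩, mul_inv_cancel_left _ _⟩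
      change f (_ * h) = π g
      simp [fφ, ← e]
    · rintro ⟨⟨h, g⟩, e⟩ (rfl : h = 1) p
      have z : π g = 1 := (show f 1 = π g from e).symm.trans (map_one f)
      have p' : φ ⟨_, d.tq g⟩ * 1 = 1 := p
      rw [mul_one, map_eq_one_iff φ inj, Subtype.ext_iff] at p'
      have q := d.cube z
      refine Subtype.ext (Prod.ext rfl ?_)
      change τ g * g⁻¹ = 1 at p'
      rw [d.tz g z, mul_inv_eq_one, inv_eq_iff_mul_eq_one] at p'
      rwa [pow_succ, pow_two, p', one_mul] at q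
  · obtain ⟨z, z1, z2⟩ : ∃ z, φ z = 1 ∧ z ≠ 1 := by
      rw [injective_iff_map_eq_one] at inj
      push Not at inj
      exact inj
    have nR : φ.range.Normal := ⟨by
      rintro _ ⟨x, rfl⟩ h
      obtain ⟨g, e⟩ := d.sj (f h)
      exact ⟨_, (eqv h g e.symm x).symm⟩⟩
    intro x hx e
    obtain ⟨y, rfl⟩ := o.le_of f nR.isSubnormal k (by
      rw [im]
      rintro _ ⟨u, hu, rfl⟩
      exact ⟨_, ⟨⟨u, hu⟩, rfl⟩, fφ _⟩) hx
    haveI := Fact.mk Nat.prime_three
    obtain ⟨m, hm⟩ := mem_zpowers_of_prime_card d.cz (g := ⟨z, by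
      rw [MonoidHom.mem_ker, ← fφ, z1, map_one]⟩) (g' := ⟨y, (fφ y).symm.trans e⟩)
      fun p => z2 (Subtype.ext (congrArg (fun y : π.ker => y.1) p))
    rw [show y = z ^ m from Subtype.ext (congrArg Subtype.val hm).symm, map_zpow, z1, one_zpow]

def val (G B : Type) [Group G] [Group B] (F : (G : Type) → [Group G] → Prop) :
    Prop × Prop × (Fin 10 → Prop) := (F G, F B, fun n => F (Multiplicative (ZMod n.1)))

theorem Dt.key [Finite G] (d : Dt π S τ t) {F' : (G : Type) → [Group G] → Prop} (hF : Fm F)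
    (hF' : Fm F') (sub : ∀ (H : Type) [Group H], F H → InF G H) (e : val G B F = val G B F')
    (a : F H) : F' H := by
  have e1 : F G → F' G := (congrArg Prod.fst e).mp
  have e2 : F B → F' B := (congrArg (·.2.1) e).mp
  have e3 : ∀ n : Fin 10, F (Multiplicative (ZMod n.1)) → F' (Multiplicative (ZMod n.1)) :=
    fun n => (congrFun (congrArg (·.2.2) e) n).mp
  have o' : FO F' := ⟨hF', hF'.surj 1 (fun _ => ⟨1, rfl⟩) (e3 1 (hF.surj 1
    (fun x => ⟨1, Subsingleton.elim (α := Multiplicative (ZMod 1)) _ _⟩) a))⟩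
  by_cases g : F G
  · obtain ⟨n, A, hA, q, hq⟩ := sub H a
    exact hF'.surj q hq (o'.of_res fun x hx => Subtype.ext (funext fun i =>
      hF'.res_le (pr A i) (pr_sj hA i) (e1 g) hx))
  induction hn : Nat.card H using Nat.strong_induction_on generalizing H with
  | _ n ih =>
  haveI := hF.fin H a
  by_cases ex : ∃ D : Subgroup H, Ob D
  · obtain ⟨D, o⟩ := ex
    obtain ⟨f, hf, k, c⟩ := d.k2 (sub H a) o
    have im := d.img o hf k
    haveI nD : D.Normal := ⟨fun x hx g => nm_of_ac (A := ⊤) (fun g _ => (o.ac g).uq f o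
      (ac_ker f g k) ((d.img (o.ac g) hf (ac_ker f g k)).trans im.symm)) g trivial x hx⟩
    refine hF'.sub (QuotientGroup.mk' D) f (mk_surj D) hf
      (fun x p q => d.sep hF a g o hf k c x (mk_one.1 p) q)
      (ih _ ?_ (hF.quo H D a) rfl) (e2 (hF.surj f hf a))
    rw [← hn, D.card_eq_card_quotient_mul_card_subgroup]
    exact lt_mul_of_one_lt_right Nat.card_pos ((D.one_lt_card_iff_ne_bot).2 o.ne)
  have k := d.k4 (sub H a) (not_exists.1 ex)
  letI : CommGroup H := { (inferInstance : Group H) with mul_comm := fun x y => (k x y).1 }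
  refine o'.of_res fun x hx => by_contra fun p => ?_
  haveI : NeZero ((Monoid.exponent H : ℕ) : ℂ) := ⟨Nat.cast_ne_zero.2 Monoid.exponent_ne_zero_of_finite⟩
  obtain ⟨χ, hχ⟩ := CommGroup.exists_apply_ne_one_of_hasEnoughRootsOfUnity H ℂ p
  haveI : Finite χ.range := Finite.of_surjective _ χ.rangeRestrict_surjective
  have cy : IsCyclic χ.range := isCyclic_subgroup_units _
  have c9 : Nat.card χ.range ∣ 9 := by
    rw [← cy.exponent_eq_card]
    refine Monoid.exponent_dvd_of_forall_pow_eq_one fun y => ?_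
    obtain ⟨y, rfl⟩ := χ.rangeRestrict_surjective y
    rw [← map_pow, (k y y).2, map_one]
  have i := zmodCyclicMulEquiv cy
  have s := i.symm.surjective.comp χ.rangeRestrict_surjective
  have := hF'.res_le (i.symm.toMonoidHom.comp χ.rangeRestrict) s
    (e3 ⟨_, Nat.lt_succ_of_le (Nat.le_of_dvd (by norm_num) c9)⟩
      (hF.surj (i.symm.toMonoidHom.comp χ.rangeRestrict) s a)) hx
  exact hχ (congrArg Subtype.val (i.symm.map_eq_one_iff.1 this))

theorem Dt.fin [Finite G] (d : Dt π S τ t) : Set.Finite {F : ∀ (H : Type) [Group H], Prop |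
    (∀ (H : Type) [Group H], F H → InF G H) ∧
    (∀ (H K : Type) [Group H] [Group K] (f : H →* K), Function.Surjective f → F H → F K) ∧
    (∀ (H : Type) [Group H] (N1 N2 : Subgroup H) [N1.Normal] [N2.Normal],
      F (H ⧸ N1) → F (H ⧸ N2) → F (H ⧸ (N1 ⊓ N2)))} := by
  refine Set.Finite.of_finite_image (f := val G B) (Set.toFinite _) ?_
  have fm : ∀ F : ∀ (H : Type) [Group H], Prop, (∀ (H : Type) [Group H], F H → InF G H) →
      (∀ (H K : Type) [Group H] [Group K] (f : H →* K), Function.Surjective f → F H → F K) →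
      (∀ (H : Type) [Group H] (N1 N2 : Subgroup H) [N1.Normal] [N2.Normal],
        F (H ⧸ N1) → F (H ⧸ N2) → F (H ⧸ (N1 ⊓ N2))) → Fm F := fun F h1 h2 h3 =>
    ⟨fun H _ a => by
      obtain ⟨n, A, -, q, hq⟩ := h1 H a
      exact Finite.of_surjective q hq, fun _ _ _ _ ⟨e⟩ => h2 _ _ e.toMonoidHom e.surjective,
      fun _ _ N _ => h2 _ _ _ (mk_surj N), fun K _ _ N L _ _ e c c' =>
      let i := (QuotientGroup.quotientMulEquivOfEq e).trans QuotientGroup.quotientBot
      h2 _ _ i.toMonoidHom i.surjective (h3 K N L c c')⟩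
  rintro F ⟨h1, h2, h3⟩ F' ⟨h4, h5, h6⟩ e
  funext H _
  exact propext ⟨d.key (fm F h1 h2 h3) (fm F' h4 h5 h6) h1 e,
    d.key (fm F' h4 h5 h6) (fm F h1 h2 h3) h4 e.symm⟩

end Pool.Agent.H68.Bu
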