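import Pool.Agent.H68.Bu1

set_option autoImplicit false

namespace Pool.Agent.H68.Bu

open Function Pool.Agent.H68.Wi Pool.Agent.H68.Sat
open Subgroup (zpowers)

variable {S Y : Type} [Group S] [Group Y] {p : Y →* S}

theorem split [Finite Y] (hp : Surjective p) (hC : ∀ c, p c = 1 → c ^ 3 = 1 ∧ ∀ y, c * y = y * c)
    (M : Subgroup Y) (hM : ∀ m ∈ M, p m = 1 → m = 1) (c1 : 243 ∣ Nat.card M)
    (c2 : ¬729 ∣ Nat.card S) : ∃ s : S →* Y, ∀ x, p (s x) = x := by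
  let e : M ≃* M.map p := MulEquiv.ofBijective (p.subgroupMap M)
    ⟨(injective_iff_map_eq_one _).2 fun m h => Subtype.ext (hM m m.2 (congrArg Subtype.val h)),
      p.subgroupMap_surjective M⟩
  have he : ∀ x, p (e.symm x) = x := fun x => congrArg Subtype.val (e.apply_symm_apply x)
  let K := (M.map p).comap p
  letI : CommGroup p.ker :=
    { (inferInstance : Group p.ker) with mul_comm := fun a b => Subtype.ext ((hC a a.2).2 b) }
  let q : K →* M.map p := (p.comp K.subtype).codRestrict _ fun k => k.2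
  have hq : ∀ k : K, p (k * (e.symm (q k) : Y)⁻¹) = 1 := fun k => by
    rw [map_mul, map_inv, he]; exact mul_inv_cancel _
  let ρ : K →* p.ker := MonoidHom.mk' (fun k => ⟨_, hq k⟩) fun a b => Subtype.ext (by
    change (a * b : Y) * (e.symm (q (a * b)) : Y)⁻¹ = _ * (b * _)
    rw [← (hC _ (hq b)).2, map_mul, map_mul, Subgroup.coe_mul, mul_inv_rev, ← mul_assoc,
      ← mul_assoc, (hC _ (hq b)).2, mul_assoc (a : Y)])
  have n3 : ¬3 ∣ K.index := fun h => c2 (by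
    rw [← (M.map p).card_mul_index, ← Nat.card_congr e.toEquiv,
      ← Subgroup.index_comap_of_surjective _ hp]
    exact mul_dvd_mul c1 h)
  let V := MonoidHom.transfer ρ
  have hV : ∀ c, p c = 1 → (V c : Y) = c ^ K.index := fun c h => by
    have k : p (c ^ K.index) = 1 := by rw [map_pow, h, one_pow]
    rw [MonoidHom.transfer_eq_pow ρ c fun k g _ => by
      rw [mul_assoc, (hC (c ^ k) (by rw [map_pow, h, one_pow])).2, inv_mul_cancel_left]]
    change _ * (e.symm ⟨p (c ^ K.index), _⟩ : Y)⁻¹ = _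
    simp only [k]
    exact mul_eq_left.2 (inv_eq_one.2 (congrArg Subtype.val (map_one e.symm)))
  let W := (powMonoidHom K.index).comp V
  let ψ : Y →* Y := MonoidHom.mk' (fun y => y * (W y : Y)⁻¹) fun a b => by
    rw [map_mul, Subgroup.coe_mul, mul_inv_rev, mul_assoc a _ (b * _),
      (hC (W a : Y)⁻¹ (W a)⁻¹.2).2 (b * _)]
    simp [mul_assoc]
  obtain ⟨s, hs⟩ := exists_lift p hp ψ fun c h => by
    change c * ((V c : Y) ^ K.index)⁻¹ = 1
    rw [hV c h, ← pow_mul, mul_inv_eq_one, ← Nat.div_add_mod (K.index * K.index) 3, pow_add,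
      pow_mul, (hC c h).1, one_pow, one_mul, Nat.mul_mod]
    have : K.index % 3 = 1 ∨ K.index % 3 = 2 := by omega
    rcases this with r | r <;> simp [r]
  refine ⟨s, fun x => ?_⟩
  obtain ⟨y, rfl⟩ := hp x
  rw [hs]
  change p (y * _) = _
  rw [map_mul, map_inv, show p (W y) = 1 from (W y).2, inv_one, mul_one]

theorem card_sup [Finite Y] {A B : Subgroup Y} (h : Nm B A) (d : ∀ a ∈ A, ∀ b ∈ B, a * b = 1 → a = 1) :
    Nat.card ↥(A ⊔ B) = Nat.card A * Nat.card B := by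
  rw [← Nat.card_prod]
  refine (Nat.card_eq_of_bijective (fun x : A × B => (⟨x.1 * x.2, Subgroup.mul_mem_sup x.1.2 x.2.2⟩ :
    ↥(A ⊔ B))) ⟨fun x y e => Subgroup.mul_injective_of_disjoint (Subgroup.disjoint_def.2
      fun {z} p q => d z p _ (inv_mem q) (mul_inv_cancel z)) (congrArg Subtype.val e),
      fun z => ?_⟩).symm
  obtain ⟨a, p, b, q, e⟩ := h.split z.2
  exact ⟨(⟨a, p⟩, ⟨b, q⟩), Subtype.ext e⟩

theorem sp0 (h w s : S) (hs : s * h * s⁻¹ = h⁻¹)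
    (hc : h * (w * h * w⁻¹) * h⁻¹ * (w * h * w⁻¹)⁻¹ = 1)
    (hp : h * (w * h * w⁻¹) * (w⁻¹ * h * w) = 1) (w3 : w ^ 3 = 1) (sw : s * w * s⁻¹ = w⁻¹)
    (inj : ∀ i j k : ℤ, h ^ i * (w * h ^ j * w⁻¹) * w ^ k = 1 → h ^ i = 1 ∧ h ^ j = 1 ∧ w ^ k = 1)
    (o9 : 9 ∣ orderOf h) (o3 : 3 ∣ orderOf w) (c : ¬729 ∣ Nat.card S) : SP S := by
  intro Y _ _ p sj hC
  obtain ⟨σ, rfl⟩ := sj s
  have tr : ∀ c, p c = 1 → σ * c * σ⁻¹ = c⁻¹ → c = 1 := fun c h e => by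
    rw [← (hC c h).2, mul_inv_cancel_right, eq_inv_iff_mul_eq_one] at e
    have := (hC c h).1
    rwa [pow_succ, pow_two, e, one_mul] at this
  have li : ∀ g, p σ * g * (p σ)⁻¹ = g⁻¹ → ∃ y, p y = g ∧ σ * y * σ⁻¹ = y⁻¹ := fun g e => by
    obtain ⟨y, rfl⟩ := sj g
    obtain ⟨c, k, e'⟩ : ∃ c, p c = 1 ∧ σ * y * σ⁻¹ = c * y⁻¹ :=
      ⟨σ * y * σ⁻¹ * y, by simp [e], by simp⟩
    obtain ⟨k1, k2⟩ := hC _ k
    refine ⟨y * c, by rw [map_mul, k, mul_one], ?_⟩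
    rw [← mul_assoc σ, mul_assoc (σ * y), k2, ← mul_assoc, e', mul_assoc c, ← k2, mul_inv_rev,
      ← mul_assoc, mul_left_inj, eq_inv_iff_mul_eq_one, ← k1, pow_succ, pow_two]
  obtain ⟨x, rfl, hx⟩ := li h hs
  obtain ⟨ω, rfl, hω⟩ := li w sw
  have cj : ∀ u v, σ * (u * v) * σ⁻¹ = σ * u * σ⁻¹ * (σ * v * σ⁻¹) := fun u v => by group
  have ci : ∀ u, σ * u⁻¹ * σ⁻¹ = (σ * u * σ⁻¹)⁻¹ := fun u => by group
  have ω3 : ω ^ 3 = 1 := tr _ (by rw [map_pow, w3]) (by rw [← conj_pow, hω, inv_pow])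
  obtain ⟨y, hy⟩ : ∃ y, y = ω * x * ω⁻¹ := ⟨_, rfl⟩
  obtain ⟨z, hz⟩ : ∃ z, z = ω⁻¹ * x * ω := ⟨_, rfl⟩
  have sy : σ * y * σ⁻¹ = z⁻¹ := by simp only [hy, hz, cj, ci, hx, hω]; group
  have sz : σ * z * σ⁻¹ = y⁻¹ := by simp only [hy, hz, cj, ci, hx, hω]; group
  have wy : ω * y * ω⁻¹ = z := by
    calc _ = ω⁻¹ * ω ^ 3 * x * (ω ^ 3)⁻¹ * ω := by simp [hy, pow_succ, mul_assoc]
      _ = _ := by rw [ω3, hz]; group
  have e1 : x * y = y * x := by
    obtain ⟨c, hc', k⟩ : ∃ c, c = x * y * x⁻¹ * y⁻¹ ∧ p c = 1 := ⟨_, rfl, by simpa [hy] using hc⟩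
    have k2 := (hC _ k).2
    have a : c = z * x * z⁻¹ * x⁻¹ := by
      rw [← inv_mul_cancel_left ω c, ← k2, hc', hy, hz]; group
    have := tr _ k (by
      calc _ = x⁻¹ * z⁻¹ * x * z := by simp only [hc', cj, ci, hx, sy, inv_inv]
        _ = ((z * x)⁻¹ * (c * (z * x)))⁻¹ := by rw [a]; group
        _ = _ := by rw [k2]; group)
    rwa [hc', mul_inv_eq_one, mul_inv_eq_iff_eq_mul] at this
  have e2 : y * z = z * y := by
    have := congrArg (fun u => ω * u * ω⁻¹) e1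
    rw [← wy]
    nth_rewrite 1 4 [hy]
    simpa [mul_assoc] using this
  have e3 : z * x = x * z := by
    have := congrArg (fun u => ω⁻¹ * u * ω) e1
    simpa [hy, hz, mul_assoc] using this
  have e4 : x * y * z = 1 := tr _ (by simpa [hy, hz] using hp) (by
    simp only [cj, hx, sy, sz]
    rw [← mul_inv_rev, ← mul_inv_rev, e3, ← mul_assoc, e1])
  have key : ∀ i j k : ℤ, p (x ^ i * y ^ j * ω ^ k) = 1 → x ^ i = 1 ∧ y ^ j = 1 ∧ ω ^ k = 1 := by
    intro i j k e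
    have t : ∀ (u : Y) (n : ℤ), σ * u * σ⁻¹ = u⁻¹ → p u ^ n = 1 → u ^ n = 1 := fun u n a b =>
      tr _ (by rwa [map_zpow]) (by rw [← conj_zpow, a, inv_zpow])
    obtain ⟨a, b, c⟩ := inj i j k (by simpa [hy] using e)
    exact ⟨t x i hx a, by rw [hy, conj_zpow, t x j hx b]; simp, t ω k hω c⟩
  have n1 : Nm (zpowers y) (zpowers x) := by
    rintro _ ⟨j, rfl⟩ _ ⟨i, rfl⟩
    exact ⟨i, by simp [(Commute.zpow_zpow (show Commute y x from e1.symm) j i).eq]⟩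
  have mx : x ∈ zpowers x ⊔ zpowers y := Subgroup.mem_sup_left (Subgroup.mem_zpowers x)
  have my : y ∈ zpowers x ⊔ zpowers y := Subgroup.mem_sup_right (Subgroup.mem_zpowers y)
  have n2 : Nm (zpowers ω) (zpowers x ⊔ zpowers y) := Subgroup.le_normalizer_iff.1
    (Subgroup.zpowers_le.2 (Subgroup.mem_normalizer_fintype fun a ha => by
      obtain ⟨_, ⟨i, rfl⟩, _, ⟨j, rfl⟩, rfl⟩ := n1.split ha
      have : ω * (x ^ i * y ^ j) * ω⁻¹ = y ^ i * (x * y)⁻¹ ^ j := by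
        rw [← eq_inv_of_mul_eq_one_right e4, ← wy, conj_zpow]
        nth_rewrite 2 [hy]
        rw [conj_zpow]; group
      rw [SetLike.mem_coe, this]
      exact mul_mem (zpow_mem my i) (zpow_mem (inv_mem (mul_mem mx my)) j)))
  refine split sj hC ((zpowers x ⊔ zpowers y) ⊔ zpowers ω) (fun m hm e => ?_) ?_ c
  · obtain ⟨a, ha, _, ⟨k, rfl⟩, rfl⟩ := n2.split hm
    obtain ⟨_, ⟨i, rfl⟩, _, ⟨j, rfl⟩, rfl⟩ := n1.split ha
    obtain ⟨a, b, c⟩ := key i j k e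
    simp only [a, b, c, mul_one]
  · rw [card_sup n2, card_sup n1, Nat.card_zpowers, Nat.card_zpowers, Nat.card_zpowers]
    · have := o9.trans (orderOf_map_dvd p x)
      refine mul_dvd_mul (mul_dvd_mul this (c := 9) ?_) (o3.trans (orderOf_map_dvd p ω))
      rwa [hy, ← MulAut.conj_apply, MulEquiv.orderOf_eq]
    · rintro _ ⟨i, rfl⟩ _ ⟨j, rfl⟩ e
      exact (key i j 0 (by rw [zpow_zero, mul_one, e, map_one])).1
    · rintro a ha _ ⟨k, rfl⟩ e
      obtain ⟨_, ⟨i, rfl⟩, _, ⟨j, rfl⟩, rfl⟩ := n1.split ha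
      obtain ⟨a, b, -⟩ := key i j k (by rw [e, map_one])
      simp only [a, b, mul_one]

end Pool.Agent.H68.Bu
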