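import Pool.Agent.H68.Bu2

set_option autoImplicit false

namespace Pool.Agent.H68.Bu

open Function Pool.Agent.H68.Wi Pool.Agent.H68.Sat Matrix Matrix.SpecialLinearGroup
open Subgroup (zpowers center)
open scoped commutatorElement MatrixGroups LinearAlgebra.Projectivization

variable {F : Type} [Field F]

theorem tv_ind (P : SL(3, F) → Prop) (h : ∀ (i j : Fin 3) (h : i ≠ j) c, P (transvection h c))
    (hmul : ∀ A B, P A → P B → P (A * B)) (A : SL(3, F)) : P A := by
  refine diagonal_transvection_induction' P _ (fun i j hij c hc ↦ ?_) h hmul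
  have : diag2n hij c hc = transvection hij c * transvection hij.symm (-c⁻¹) * transvection hij c *
      transvection hij (-1) * transvection hij.symm 1 * transvection hij (-1) := by
    ext a b
    fin_cases i <;> fin_cases j <;> first | exact (hij rfl).elim | (fin_cases a <;> fin_cases b <;>
      simp [diag2n_coe, transvection_coe, mul_add, add_mul, mul_inv_cancel₀ hc, inv_mul_cancel₀ hc])
  rw [this]
  refine hmul _ _ (hmul _ _ (hmul _ _ (hmul _ _ (hmul _ _ ?_ ?_) ?_) ?_) ?_) ?_ <;> exact h _ _ _ _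

theorem sl_pf : (⊤ : Subgroup SL(3, F)) ≤ ⁅(⊤ : Subgroup SL(3, F)), ⊤⁆ := fun A _ => by
  refine tv_ind (· ∈ ⁅(⊤ : Subgroup SL(3, F)), ⊤⁆) (fun i j h c => ?_) (fun _ _ => mul_mem) A
  obtain ⟨k, p, q⟩ : ∃ k, i ≠ k ∧ k ≠ j := by revert i j; decide
  have : transvection h c = ⁅transvection p c, transvection q 1⁆ := by
    rw [commutatorElement_def, transvection_inv, transvection_inv]
    refine Subtype.ext ?_
    simp [transvection_coe, mul_add, add_mul, p, q, h, p.symm, q.symm, h.symm, ← single_neg]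
    abel
  rw [this]
  exact Subgroup.commutator_mem_commutator trivial trivial

noncomputable abbrev Iw : MulAction.IwasawaStructure PSL(3, F) (ℙ F (Fin 3 → F)) where
  T := PSL.iwasawaT
  is_comm p := by
    have hSL : IsMulCommutative (lineStab (F := F) (ι := Fin 3) p.submodule) := by
      rw [← Projectivization.mk_rep p, Projectivization.submodule_mk]
      exact lineStab_isMulCommutative_of_span p.rep p.rep_nonzero
    exact Subgroup.map_isMulCommutative _ _
  is_conj g p := by
    obtain ⟨g_SL, rfl⟩ := QuotientGroup.mk_surjective g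
    rw [Matrix.ProjectiveSpecialLinearGroup.smul_proj_mk]
    change Subgroup.map _ _ = _
    rw [PSL.smul_submodule, Matrix.SpecialLinearGroup.lineStab_smul, PSL.iwasawaT_map_conj]
  is_generator := by
    rw [← Subgroup.map_iSup, ← Subgroup.map_top_of_surjective _ (QuotientGroup.mk'_surjective _)]
    refine congrArg _ (top_le_iff.1 fun A _ => tv_ind _ (fun i j h c => ?_) (fun _ _ => mul_mem) A)
    exact Subgroup.mem_iSup_of_mem (Projectivization.mk F _ (Pi.single_ne_zero_iff.2 one_ne_zero))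
      (by rw [Projectivization.submodule_mk]; exact SL2Gen.transvection_mem_lineStab h c)

theorem psl_simple : IsSimpleGroup PSL(3, F) :=
  haveI : Group.IsPerfect SL(3, F) := ⟨top_le_iff.1 sl_pf⟩
  MulAction.IwasawaStructure.isSimpleGroup
    (inferInstance : Group.IsPerfect PSL(3, F)).commutator_eq_top Iw inferInstance

theorem sl_ns (N : Subgroup SL(3, F)) [h : N.Normal] : N ≤ center _ ∨ ⊤ ≤ N := by
  haveI := psl_simple (F := F)
  rcases (h.map (QuotientGroup.mk' (center SL(3, F))) (mk_surj _)).eq_bot_or_eq_top with p | p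
  · exact .inl fun x hx => mk_one.1 (p.le ⟨x, hx, rfl⟩)
  refine .inr (sl_pf.trans (Subgroup.commutator_le.2 fun a _ b _ => ?_))
  have : ∀ a, ∃ n ∈ N, ∀ w, a * n⁻¹ * w = w * (a * n⁻¹) := fun a => by
    obtain ⟨n, q, e⟩ := p.ge (Subgroup.mem_top (QuotientGroup.mk' _ a))
    exact ⟨n, q, fun w => (Subgroup.mem_center_iff.1 (mk_one.1 (by
      rw [map_mul, map_inv, e, mul_inv_cancel])) w).symm⟩
  obtain ⟨m, p1, p2⟩ := this a
  obtain ⟨n, q1, q2⟩ := this b
  rw [← inv_mul_cancel_right a m, ← inv_mul_cancel_right b n, cz_comm p2 q2]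
  exact mul_mem (h.conj_mem n q1 m) (inv_mem q1)

def dg : Fˣ →* SL(3, F) := MonoidHom.mk' (fun u => ⟨!![(u : F), 0, 0; 0, (u⁻¹ : Fˣ), 0; 0, 0, 1], by
  simp [det_fin_three]⟩) fun u v => by
  ext i j; fin_cases i <;> fin_cases j <;> simp [mul_comm]

def wm : SL(3, F) := ⟨!![0, 0, 1; 1, 0, 0; 0, 1, 0], by simp [det_fin_three]⟩
def wi : SL(3, F) := ⟨!![0, 1, 0; 0, 0, 1; 1, 0, 0], by simp [det_fin_three]⟩
def sm : SL(3, F) := ⟨!![0, -1, 0; -1, 0, 0; 0, 0, -1], by simp [det_fin_three]⟩

theorem wm_inv : (wm : SL(3, F))⁻¹ = wi := inv_eq_of_mul_eq_one_right (by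
  ext i j; fin_cases i <;> fin_cases j <;> simp [wm, wi])

theorem wm3 : (wm : SL(3, F)) ^ 3 = 1 := by
  ext i j; fin_cases i <;> fin_cases j <;> simp [wm, pow_succ]

theorem wm_ne : (wm : SL(3, F)) ≠ 1 := fun h => by simpa [wm] using congrFun₂ (congrArg Subtype.val h) 0 0

theorem sl_sp (a : Fˣ) (ha : 9 ∣ orderOf a) (c : ¬729 ∣ Nat.card SL(3, F)) : SP SL(3, F) := by
  haveI := Fact.mk Nat.prime_three
  have inj : Injective (dg : Fˣ → SL(3, F)) := (injective_iff_map_eq_one _).2 fun u h =>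
    Units.ext (by simpa [dg] using congrFun₂ (congrArg Subtype.val h) 0 0)
  refine sp0 (dg a) wm sm ?_ ?_ ?_ wm3 ?_ (fun i j k h => ?_) (by rwa [orderOf_injective _ inj])
    (orderOf_eq_prime wm3 wm_ne).symm.dvd c
  · rw [mul_inv_eq_iff_eq_mul, ← map_inv]
    ext i j; fin_cases i <;> fin_cases j <;> simp [dg, sm]
  · rw [mul_inv_eq_one, mul_inv_eq_iff_eq_mul, wm_inv]
    ext i j; fin_cases i <;> fin_cases j <;> simp [dg, wm, wi, mul_comm]
  · rw [wm_inv]
    ext i j; fin_cases i <;> fin_cases j <;> simp [dg, wm, wi]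
  · rw [mul_inv_eq_iff_eq_mul, wm_inv]
    ext i j; fin_cases i <;> fin_cases j <;> simp [sm, wm, wi]
  simp only [← map_zpow] at h ⊢
  generalize a ^ i = u, a ^ j = v at h ⊢
  rw [zpow_eq_zpow_emod' k wm3] at h ⊢
  have : k % (3 : ℕ) = 0 ∨ k % (3 : ℕ) = 1 ∨ k % (3 : ℕ) = 2 := by omega
  have e := congrFun₂ (congrArg Subtype.val h)
  rcases this with r | r | r <;> rw [r] at e ⊢
  · have e0 := e 0 0
    have e2 := e 2 2
    simp [dg, wm_inv, wm, wi] at e0 e2
    simp [e0, e2]
  · simpa [dg, wm_inv, wm, wi] using e 0 0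
  · have e0 := e 0 0
    rw [zpow_two] at e0
    simp [dg, wm_inv, wm, wi] at e0

theorem sl_card [Fintype F] (h : Fintype.card F = 64) : ¬729 ∣ Nat.card SL(3, F) := by
  have a := card_GL_field (𝔽 := F) 3
  have b := (GeneralLinearGroup.det : GL (Fin 3) F →* Fˣ).ker.card_mul_index
  rw [Subgroup.index_ker, MonoidHom.range_eq_top.2 GeneralLinearGroup.det_surjective,
    Subgroup.card_top, Nat.card_units, Nat.card_eq_fintype_card (α := F), a, h] at b
  have c : Nat.card SL(3, F) ∣ Nat.card (GeneralLinearGroup.det : GL (Fin 3) F →* Fˣ).ker :=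
    Subgroup.card_dvd_of_injective (toGL.codRestrict _ fun x => by simp [MonoidHom.mem_ker])
      fun x y e => toGL_injective (congrArg Subtype.val e)
  intro d
  have := mul_dvd_mul_right (d.trans c) (64 - 1)
  rw [b] at this
  revert this
  decide +kernel

end Pool.Agent.H68.Bu
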