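import Pool.Agent.H68.Bu3

set_option autoImplicit false

namespace Pool.Agent.H68.Bu

open Function Pool.Agent.H68.Wi Pool.Agent.H68.Sat Matrix Matrix.SpecialLinearGroup SemidirectProduct
open Subgroup (zpowers center)
open scoped commutatorElement MatrixGroups Classical

theorem lift_uq {S H : Type} [Group S] [Group H] (pf : (⊤ : Subgroup S) ≤ ⁅(⊤ : Subgroup S), ⊤⁆)
    (ψ χ : S →* H) (z : ∀ y w, ψ y * (χ y)⁻¹ * w = w * (ψ y * (χ y)⁻¹)) (x : S) : ψ x = χ x := by
  refine (pf.trans (Subgroup.commutator_le.2 fun u _ v _ => ?_) : ⊤ ≤ ψ.eqLocus χ) trivial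
  change ψ _ = χ _
  rw [map_commutatorElement, map_commutatorElement, ← inv_mul_cancel_right (ψ u) (χ u),
    ← inv_mul_cancel_right (ψ v) (χ v)]
  exact cz_comm (z u) (z v) _ _

theorem SP.congr {S T : Type} [Group S] [Group T] (h : SP S) (e : S ≃* T) : SP T := by
  intro Y _ _ p hp c
  obtain ⟨s, hs⟩ := h Y (e.symm.toMonoidHom.comp p) (e.symm.surjective.comp hp)
    fun y hy => c y (e.symm.map_eq_one_iff.1 hy)
  exact ⟨s.comp e.symm.toMonoidHom, fun x => e.symm.injective (hs _)⟩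

abbrev K := GaloisField 2 6

noncomputable instance : Fintype K := Fintype.ofFinite K

theorem cK : Fintype.card K = 64 := by
  rw [← Nat.card_eq_fintype_card, GaloisField.card 2 6 (by norm_num)]; rfl

theorem ex_a : ∃ a : Kˣ, orderOf a = 63 := by
  obtain ⟨a, h⟩ := IsCyclic.exists_ofOrder_eq_natCard (α := Kˣ)
  exact ⟨a, by rw [h, Nat.card_units, Nat.card_eq_fintype_card, cK]⟩

abbrev SS := SL(3, K)

noncomputable def al : MulAut SS := MulEquiv.ofBijective (SpecialLinearGroup.map (iterateFrobenius K 2 2))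
  (Finite.injective_iff_bijective.1 fun A B h => ext _ _ fun i j =>
    (iterateFrobenius K 2 2).injective (congrFun₂ (congrArg Subtype.val h) i j))

theorem al_ap (A : SS) (i j : Fin 3) : al A i j = A i j ^ 4 := rfl

theorem al3 : al ^ 3 = 1 := by
  ext A i j
  have := FiniteField.pow_card (A i j)
  rw [cK] at this
  change ((A i j ^ 4) ^ 4) ^ 4 = A i j
  rwa [← pow_mul, ← pow_mul]

theorem al_out (x : SS) {k : MulAut SS} (hk : k ∈ zpowers al) (h : ∀ y, x * k y * x⁻¹ = y) :
    k = 1 := by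
  obtain ⟨a, ha⟩ := ex_a
  obtain ⟨m, rfl⟩ := hk
  let y : SS := ⟨!![0, 0, 1; 1, 0, 0; 0, 1, (a : K)], by simp [det_fin_three]⟩
  have t : trace ((al ^ m) y).1 = trace y.1 := by
    have := congrArg (fun A : SS => trace A.1) (h y)
    simp only [coe_mul] at this
    rwa [trace_mul_cycle, ← coe_mul, inv_mul_cancel, coe_one, one_mul] at this
  have n : ∀ j : ℕ, (a : K) ^ (j + 1) = a → 63 ∣ j := fun j e => by
    rw [← ha, orderOf_dvd_iff_pow_eq_one, Units.ext_iff]
    simpa [pow_succ] using e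
  simp only at t ⊢
  rw [zpow_eq_zpow_emod' m al3] at t ⊢
  have : m % (3 : ℕ) = 0 ∨ m % (3 : ℕ) = 1 ∨ m % (3 : ℕ) = 2 := by omega
  rcases this with r | r | r <;> rw [r] at t ⊢
  · rfl
  · exact absurd (n 3 (by simpa [trace_fin_three, al_ap, y] using t)) (by decide)
  · rw [show ((2 : ℤ)) = 1 + 1 from rfl, _root_.zpow_add_one, zpow_one] at t
    exact absurd (n 15 (by simpa [trace_fin_three, al_ap, y, ← pow_mul] using t)) (by decide)

theorem al_ne : al ≠ 1 := fun h => by
  obtain ⟨a, ha⟩ := ex_a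
  have := congrArg (fun k : MulAut SS => k (dg a) 0 0) h
  have e : a ^ 3 = 1 := Units.ext (by simpa [al_ap, dg, pow_succ] using this)
  exact absurd (ha ▸ orderOf_dvd_of_pow_eq_one e) (by decide)

theorem al_c {z : SS} (hz : z ∈ center SS) {k : MulAut SS} (hk : k ∈ zpowers al) : k z = z := by
  refine (Subgroup.zpowers_le.2 ?_ : _ ≤ MulAction.stabilizer (MulAut SS) z) hk
  obtain ⟨r, p, q⟩ := mem_center_iff.1 hz
  refine ext _ _ fun i j => (al_ap z i j).trans ?_
  have : r ^ 4 = r := by rw [pow_succ, show r ^ 3 = 1 from p, one_mul]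
  rw [← congrFun₂ q i j]
  by_cases e : i = j <;> simp [e, this]

noncomputable def ta : SS →* SS := MonoidHom.mk' (fun A => A⁻¹.transpose) fun A B =>
  Subtype.ext (by simp only [_root_.mul_inv_rev, coe_transpose, coe_mul, transpose_mul])

theorem ta_ta (A : SS) : ta (ta A) = A := by
  rw [show ta (ta A) = ((ta A)⁻¹).transpose from rfl, ← map_inv]
  exact congrArg Matrix.SpecialLinearGroup.transpose
    (congrArg Matrix.SpecialLinearGroup.transpose (inv_inv A))

theorem ta_al {k : MulAut SS} (hk : k ∈ zpowers al) (A : SS) : ta (k A) = k (ta A) := by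
  have c : Commute (MonoidHom.toMulEquiv ta ta (by ext1 A; exact ta_ta A) (by ext1 A; exact ta_ta A) :
      MulAut SS) al := MulEquiv.ext fun A => by
    change ((al A)⁻¹).transpose = _
    rw [← map_inv]; rfl
  obtain ⟨m, rfl⟩ := hk
  exact DFunLike.congr_fun (c.zpow_right m).eq A

abbrev GG := SS ⋊[(zpowers al).subtype] zpowers al

instance : Finite GG := Finite.of_equiv _ equivProd.symm

noncomputable def ZZ : Subgroup GG := (center SS).map inl

theorem zz_c {z : GG} (h : z ∈ ZZ) (g : GG) : z * g = g * z := by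
  obtain ⟨z, h, rfl⟩ := h
  ext1
  · simp [al_c h g.right.2, Subgroup.mem_center_iff.1 h]
  · simp

instance : ZZ.Normal := ⟨fun z h g => by rwa [← zz_c h, mul_inv_cancel_right]⟩

noncomputable abbrev G2 : Subgroup GG := inl.range

instance : G2.Normal := by rw [G2, range_inl_eq_ker_rightHom]; infer_instance

noncomputable def tau : GG →* GG := SemidirectProduct.map ta (MonoidHom.id _) fun k => by
  ext1 A; exact ta_al k.2 A

theorem c3 : Nat.card (zpowers al) = 3 := by
  haveI := Fact.mk Nat.prime_three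
  rw [Nat.card_zpowers, orderOf_eq_prime al3 al_ne]

theorem left_inl_mul {A B : Type} [Group A] [Group B] {φ : B →* MulAut A} (g : A ⋊[φ] B) :
    inl g.left⁻¹ * g = inr g.right := by ext <;> simp

theorem dt : Dt (QuotientGroup.mk' ZZ) G2 tau (inr ⟨al, Subgroup.mem_zpowers al⟩) where
  sj := mk_surj _
  ns N h n := by
    haveI : (N.comap inl).Normal := ⟨fun x hx g => by simpa using n _ ⟨g, rfl⟩ _ hx⟩
    refine (sl_ns (N.comap inl)).imp (fun p x hx => ?_) fun p => ?_
    · obtain ⟨y, rfl⟩ := h hx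
      exact mk_one.2 ⟨y, p hx, rfl⟩
    · rintro _ ⟨y, rfl⟩
      exact p (Subgroup.mem_top y)
  pf := by
    rw [G2, MonoidHom.range_eq_map, ← Subgroup.map_commutator]; exact Subgroup.map_mono sl_pf
  ne h := by
    obtain ⟨y, p, q⟩ := mk_one.1 (h ⟨transvection (zero_ne_one' (Fin 3)) 1, rfl⟩)
    rw [inl_injective q] at p
    exact one_ne_zero ((transvection_mem_center_iff _ _).1 p)
  out g h := by
    have k := lift_uq sl_pf ((MulAut.conj g.left).toMonoidHom.comp g.right.1.toMonoidHom)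
      (MonoidHom.id _) fun y w => by
        obtain ⟨z, p, q⟩ := mk_one.1 (h _ ⟨y, rfl⟩)
        have := congrArg left q
        simp [commutatorElement_def] at this
        simpa [← this] using (Subgroup.mem_center_iff.1 p w).symm
    have r : g.right = 1 := Subtype.ext (al_out g.left g.right.2 k)
    refine mk_one.2 ⟨g.left, Subgroup.mem_center_iff.2 fun y => ?_, by ext1 <;> simp [r]⟩
    have := k y
    rw [r] at this
    exact (mul_inv_eq_iff_eq_mul.1 this).symm
  top g := by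
    obtain ⟨m, hm⟩ := g.right.2
    have e : g.right = ⟨al, Subgroup.mem_zpowers al⟩ ^ m := Subtype.ext hm.symm
    refine ⟨inl g.left⁻¹, ⟨_, rfl⟩, ?_⟩
    rw [left_inl_mul, e, map_zpow]
    exact zpow_mem (Subgroup.mem_zpowers _) m
  t3 := by
    have : (⟨al, Subgroup.mem_zpowers al⟩ : zpowers al) ^ 3 = 1 := Subtype.ext al3
    rw [← map_pow, this, map_one]
  cz := by
    obtain ⟨a, ha⟩ := ex_a
    rw [QuotientGroup.ker_mk', ZZ, Subgroup.card_map_of_injective inl_injective,
      Nat.card_congr (center_equiv_rootsOfUnity' 0).toEquiv]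
    have : IsPrimitiveRoot (a ^ 21) 3 := (ha ▸ IsPrimitiveRoot.orderOf a).pow (by norm_num) rfl
    exact (IsPrimitiveRoot.coe_units_iff.2 this).card_rootsOfUnity
  ce z h := zz_c (mk_one.1 h)
  sp := by
    obtain ⟨a, ha⟩ := ex_a
    exact (sl_sp a (by rw [ha]; norm_num) (sl_card cK)).congr (MonoidHom.ofInjective inl_injective)
  ts g := ⟨tau g, by ext1; exacts [ta_ta _, rfl]⟩
  tq g := by rw [G2, range_inl_eq_ker_rightHom]; simp [MonoidHom.mem_ker, tau]
  tz z h := by
    obtain ⟨z, h', rfl⟩ := mk_one.1 h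
    obtain ⟨r, -, q⟩ := mem_center_iff.1 ((center SS).inv_mem h')
    rw [← map_inv]
    refine (map_inl _ _ _ z).trans (congrArg inl (Subtype.ext ?_))
    change (z⁻¹).1ᵀ = _
    rw [← q]; simp

theorem zz_le : ZZ ≤ G2 := by rintro _ ⟨z, -, rfl⟩; exact ⟨z, rfl⟩

theorem cq : Nat.card (GG ⧸ G2) = 3 := by
  rw [← Subgroup.index_eq_card, G2, range_inl_eq_ker_rightHom, Subgroup.index_ker,
    MonoidHom.range_eq_top.2 rightHom_surjective, Subgroup.card_top, c3]

variable {G B : Type} [Group G] [Group B] {π : G →* B} {S Z : Subgroup G} {τ : G →* G} {t : G}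
  [hS : S.Normal] [Z.Normal]

theorem Dt.ncomm (d : Dt π S τ t) (e : π.ker = Z) :
    ¬∀ a b : S ⧸ Z.subgroupOf S, a * b = b * a := fun h =>
  d.ne (d.pf.trans (Subgroup.commutator_le.2 fun x hx y hy => e.ge (mk_one (N := Z.subgroupOf S).1 (show
    QuotientGroup.mk' (Z.subgroupOf S) ⁅(⟨x, hx⟩ : S), ⟨y, hy⟩⁆ = 1 by
      rw [map_commutatorElement, commutatorElement_eq_one_iff_mul_comm, h]))))

theorem Dt.simple (d : Dt π S τ t) (e : π.ker = Z) : IsSimpleGroup (S ⧸ Z.subgroupOf S) := by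
  haveI : Nontrivial (S ⧸ Z.subgroupOf S) := not_subsingleton_iff_nontrivial.1 fun h =>
    d.ncomm e fun _ _ => Subsingleton.elim _ _
  refine ⟨fun N hN => (d.ns ((N.comap (QuotientGroup.mk' _)).map S.subtype)
    (Subgroup.map_subtype_le _) ?_).imp (fun p => le_bot_iff.1 fun x hx => ?_)
      fun p => top_le_iff.1 fun x _ => ?_⟩
  · rintro x hx _ ⟨y, hy, rfl⟩
    exact ⟨_, (hN.comap _).conj_mem y hy ⟨x, hx⟩, rfl⟩
  · obtain ⟨x, rfl⟩ := mk_surj _ x
    exact mk_one.2 (e.le (p ⟨x, hx, rfl⟩))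
  · obtain ⟨x, rfl⟩ := mk_surj _ x
    obtain ⟨y, p, q⟩ := p x.2
    exact Subtype.ext q ▸ p

theorem Dt.uniq [Finite G] (d : Dt π S τ t) (e : π.ker = Z) (hz : Z ≤ S) (c : Nat.card (G ⧸ S) = 3)
    (A B : Subgroup G) [hA : (A.subgroupOf B).Normal] [hB : B.Normal] (h : A ≤ B)
    (s1 : IsSimpleGroup A) (s2 : IsSimpleGroup (B ⧸ A.subgroupOf B)) (s3 : IsSimpleGroup (G ⧸ B)) :
    A = Z ∧ B = S := by
  haveI := Fact.mk Nat.prime_three
  haveI := isSimpleGroup_of_prime_card c
  have nt : ∀ {H : Type} [Group H] (N : Subgroup H) [N.Normal] [Nontrivial (H ⧸ N)], ¬⊤ ≤ N := by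
    intro H _ N _ _ p
    obtain ⟨x, hx⟩ := exists_ne (1 : H ⧸ N)
    obtain ⟨x, rfl⟩ := mk_surj _ x
    exact hx (mk_one.2 (p trivial))
  have sup : ∀ (N M : Subgroup G) [N.Normal], M.map (QuotientGroup.mk' N) = ⊤ → N ≤ M → ⊤ ≤ M := by
    intro N M _ p q x _
    obtain ⟨y, r, s⟩ := p.ge (Subgroup.mem_top (QuotientGroup.mk' N x))
    simpa using mul_mem r (q (QuotientGroup.eq.1 s))
  have h1 : S ≤ B := by
    rcases (hS.map _ (mk_surj B)).eq_bot_or_eq_top with p | p
    · exact fun x hx => mk_one.1 (p.le ⟨x, hx, rfl⟩)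
    rcases d.ns (S ⊓ B) inf_le_left nm_normal with q | q
    · exact (nt S (sup B S p fun b hb => hz (e.le (d.out b fun x hx => q
        ⟨mul_mem (hS.conj_mem x hx b) (S.inv_mem hx),
          Subgroup.commutator_le_left B ⊤ (Subgroup.commutator_mem_commutator hb trivial)⟩)))).elim
    · exact q.trans inf_le_right
  obtain rfl : B = S := by
    rcases (hB.map _ (mk_surj S)).eq_bot_or_eq_top with p | p
    · exact le_antisymm (fun x hx => mk_one.1 (p.le ⟨x, hx, rfl⟩)) h1
    · exact (nt B (sup S B p h1)).elim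
  refine ⟨?_, rfl⟩
  rcases d.ns A h ((nm_iff h).1 hA) with p | p
  · rw [← e]
    refine Subgroup.eq_of_le_of_card_ge p ?_
    have := Subgroup.card_dvd_of_le p
    rw [d.cz] at this ⊢
    exact ((Nat.prime_three.eq_one_or_self_of_dvd _ this).resolve_left Finite.one_lt_card.ne').ge
  · exact (nt (A.subgroupOf B) fun x _ => p x.2).elim

end Pool.Agent.H68.Bu
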