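import Pool.Agent.H68.CactusDefs

set_option autoImplicit false

namespace Pool.Agent.H68.Cactus

open Pool.Agent.H68.CactusDefs Equiv

def r (p q : ℕ) (i : Fin 6) : Fin 6 := if p ≤ i ∧ i ≤ q then Fin.ofNat 6 (p + q - i) else i
def I (p q : ℕ) : Finset (Fin 6) := Finset.univ.filter (fun i => p ≤ i ∧ i ≤ q)

theorem r_inv (a : Gen 5) : Function.Involutive (r a.1.1 a.1.2) := by
  obtain ⟨⟨p, q⟩, h1, h2, h3⟩ := a
  simp only at h1 h2 h3 ⊢
  intro i
  interval_cases q <;> interval_cases p <;> revert i <;> decide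

def rv (a : Gen 5) : Perm (Fin 6) := (r_inv a).toPerm

abbrev D := DihedralGroup 0 × DihedralGroup 0

def τ (S : Finset (Fin 6)) : D :=
  if S = {1, 2} then (.sr 0, 1) else if S = {1, 3} then (.sr 1, 1) else
  if S = {1, 2, 3, 4} then (1, .sr 0) else if S = {1, 2, 3, 5} then (1, .sr 1) else 1

theorem τ_sq (S : Finset (Fin 6)) : τ S * τ S = 1 := by
  unfold τ; split_ifs <;> decide

theorem τ_comm (S T : Finset (Fin 6)) (h : S ⊆ T ∨ Disjoint S T) : τ S * τ T = τ T * τ S := by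
  unfold τ
  split_ifs <;> first | decide | (exfalso; subst_vars; revert h; decide)

theorem im (f : Perm (Fin 6)) (a : Gen 5) (S T : Finset (Fin 6)) (h : S.image (r a.1.1 a.1.2) = T) :
    S.image (f * rv a) = T.image f := by
  rw [← h, Finset.image_image]; rfl

theorem im_self (a : Gen 5) : (I a.1.1 a.1.2).image (r a.1.1 a.1.2) = I a.1.1 a.1.2 := by
  obtain ⟨⟨p, q⟩, h1, h2, h3⟩ := a
  simp only at h1 h2 h3 ⊢
  interval_cases q <;> interval_cases p <;> decide

def st (a : Gen 5) (x : Perm (Fin 6) × D) : Perm (Fin 6) × D :=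
  (x.1 * rv a, τ ((I a.1.1 a.1.2).image x.1) * x.2)

theorem rv_sq (a : Gen 5) : rv a * rv a = 1 := by ext i; simp [rv, r_inv a i]

theorem st_inv (a : Gen 5) : Function.Involutive (st a) := by
  intro x
  simp only [st, im _ _ _ _ (im_self a), mul_assoc, rv_sq, ← mul_assoc (τ _), τ_sq, one_mul, mul_one]

def act (a : Gen 5) : Perm (Perm (Fin 6) × D) := (st_inv a).toPerm

theorem disj (a b : Gen 5) (h : a.1.2 < b.1.1 ∨ b.1.2 < a.1.1) :
    (∀ i, r b.1.1 b.1.2 (r a.1.1 a.1.2 i) = r a.1.1 a.1.2 (r b.1.1 b.1.2 i)) ∧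
    (I a.1.1 a.1.2).image (r b.1.1 b.1.2) = I a.1.1 a.1.2 ∧
    (I b.1.1 b.1.2).image (r a.1.1 a.1.2) = I b.1.1 b.1.2 ∧
    Disjoint (I a.1.1 a.1.2) (I b.1.1 b.1.2) := by
  obtain ⟨⟨p, q⟩, h1, h2, h3⟩ := a
  obtain ⟨⟨m, s⟩, h4, h5, h6⟩ := b
  simp only at h h1 h2 h3 h4 h5 h6 ⊢
  interval_cases q <;> interval_cases p <;> interval_cases s <;> interval_cases m <;>
    first | omega | decide

theorem nest (a b : Gen 5) (h : a.1.1 ≤ b.1.1) (h' : b.1.2 ≤ a.1.2) :
    (∀ i, r b.1.1 b.1.2 (r a.1.1 a.1.2 i) =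
      r a.1.1 a.1.2 (r (a.1.1 + a.1.2 - b.1.2) (a.1.1 + a.1.2 - b.1.1) i)) ∧
    (I a.1.1 a.1.2).image (r b.1.1 b.1.2) = I a.1.1 a.1.2 ∧
    (I (a.1.1 + a.1.2 - b.1.2) (a.1.1 + a.1.2 - b.1.1)).image (r a.1.1 a.1.2) = I b.1.1 b.1.2 ∧
    I b.1.1 b.1.2 ⊆ I a.1.1 a.1.2 := by
  obtain ⟨⟨p, q⟩, h1, h2, h3⟩ := a
  obtain ⟨⟨m, s⟩, h4, h5, h6⟩ := b
  simp only at h h' h1 h2 h3 h4 h5 h6 ⊢
  interval_cases q <;> interval_cases p <;> interval_cases s <;> interval_cases m <;>
    first | omega | decide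

theorem hrel : ∀ x ∈ rels 5, FreeGroup.lift act x = 1 := by
  rintro x ((⟨a, rfl⟩ | ⟨a, b, h, rfl⟩) | ⟨a, b, c, h, h', hc, rfl⟩)
  · simp only [map_mul, FreeGroup.lift_apply_of]
    ext1 x; exact st_inv a x
  · simp only [map_mul, map_inv, FreeGroup.lift_apply_of, mul_inv_eq_one]
    obtain ⟨e1, e2, e3, e4⟩ := disj a b h
    ext1 x
    change st a (st b x) = st b (st a x)
    simp only [st, im _ _ _ _ e2, im _ _ _ _ e3, ← mul_assoc (τ _), Prod.mk.injEq]
    refine ⟨?_, ?_⟩
    · ext i; exact congrArg (fun j => (x.1 j : ℕ)) (e1 i)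
    · rw [τ_comm _ _ (Or.inr ((Finset.disjoint_image x.1.injective).2 e4))]
  · simp only [map_mul, map_inv, FreeGroup.lift_apply_of, mul_inv_eq_one]
    obtain ⟨e1, e2, e3, e4⟩ := nest a b h h'
    have c1 : c.1.1 = a.1.1 + a.1.2 - b.1.2 := by rw [hc]
    have c2 : c.1.2 = a.1.1 + a.1.2 - b.1.1 := by rw [hc]
    rw [← c1, ← c2] at e1 e3
    ext1 x
    change st a (st b x) = st c (st a x)
    simp only [st, im _ _ _ _ e2, im _ _ _ _ e3, ← mul_assoc (τ _), Prod.mk.injEq]
    refine ⟨?_, ?_⟩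
    · ext i; exact congrArg (fun j => (x.1 j : ℕ)) (e1 i)
    · rw [τ_comm _ _ (Or.inl (Finset.image_subset_image e4))]

def ρ : J 5 →* Perm (Perm (Fin 6) × D) := PresentedGroup.toGroup hrel

def s (p q : ℕ) (h : 1 ≤ p ∧ p < q ∧ q ≤ 5) : J 5 :=
  PresentedGroup.of (rels := rels 5) ⟨(p, q), h⟩

theorem sc {p q m t u v : ℕ} {h1 h2 h3} (h : p ≤ m ∧ t ≤ q ∧ u = p + q - t ∧ v = p + q - m) :
    SemiconjBy (s p q h1) (s m t h2) (s u v h3) := by
  have := PresentedGroup.one_of_mem (rels := rels 5) (Or.inr ⟨⟨(p, q), h1⟩, ⟨(m, t), h2⟩,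
    ⟨(u, v), h3⟩, h.1, h.2.1, Prod.ext h.2.2.1 h.2.2.2, rfl⟩)
  simp only [map_mul, map_inv, mul_inv_eq_one] at this
  exact this

theorem sd {p q m t : ℕ} {h1 h2} (h : q < m ∨ t < p) :
    SemiconjBy (s p q h1) (s m t h2) (s m t h2) := by
  have := PresentedGroup.one_of_mem (rels := rels 5) (Or.inl (Or.inr ⟨⟨(p, q), h1⟩, ⟨(m, t), h2⟩,
    h, rfl⟩))
  simp only [map_mul, map_inv, mul_inv_eq_one] at this
  exact this

def s12 := s 1 2 (by decide)
def s13 := s 1 3 (by decide)
def s14 := s 1 4 (by decide)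
def s15 := s 1 5 (by decide)
def s23 := s 2 3 (by decide)
def s24 := s 2 4 (by decide)
def s34 := s 3 4 (by decide)
def s35 := s 3 5 (by decide)
def s45 := s 4 5 (by decide)

def b : J 5 := s15 * (s35 * (s12 * (s15 * (s13 * (s14 * (s24 * (s15 * (s24 * (s14 * s13)))))))))
def a : J 5 := s12 * (s13 * (s12 * (s13 * (s12 * s13))))

theorem b12 : SemiconjBy b s12 s12 := by
  refine .mul_left (y := s45) (sc (by decide)) ?_
  refine .mul_left (y := s34) (sc (by decide)) ?_
  refine .mul_left (y := s34) (sd (by decide)) ?_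
  refine .mul_left (y := s23) (sc (by decide)) ?_
  refine .mul_left (y := s12) (sc (by decide)) ?_
  refine .mul_left (y := s34) (sc (by decide)) ?_
  refine .mul_left (y := s23) (sc (by decide)) ?_
  refine .mul_left (y := s34) (sc (by decide)) ?_
  refine .mul_left (y := s23) (sc (by decide)) ?_
  exact .mul_left (y := s23) (sc (by decide)) (sc (by decide))

theorem b13 : SemiconjBy b s13 s13 := by
  refine .mul_left (y := s35) (sc (by decide)) ?_
  refine .mul_left (y := s35) (sc (by decide)) ?_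
  refine .mul_left (y := s35) (sd (by decide)) ?_
  refine .mul_left (y := s13) (sc (by decide)) ?_
  refine .mul_left (y := s13) (sc (by decide)) ?_
  refine .mul_left (y := s24) (sc (by decide)) ?_
  refine .mul_left (y := s24) (sc (by decide)) ?_
  refine .mul_left (y := s24) (sc (by decide)) ?_
  refine .mul_left (y := s24) (sc (by decide)) ?_
  exact .mul_left (y := s13) (sc (by decide)) (sc (by decide))

theorem ba : Commute a b := by
  have h1 : Commute b s12 := b12
  have h2 : Commute b s13 := b13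
  exact (h1.mul_right (h2.mul_right (h1.mul_right (h2.mul_right (h1.mul_right h2))))).symm

theorem ρ_s (p q : ℕ) (h) (x : Perm (Fin 6) × D) : ρ (s p q h) x = st ⟨(p, q), h⟩ x := by
  simp only [ρ, s, PresentedGroup.toGroup.of]; rfl

theorem st_mul (g : Gen 5) (f : Perm (Fin 6)) (e d : D) :
    st g (f, e * d) = ((st g (f, e)).1, (st g (f, e)).2 * d) := by
  simp [st, mul_assoc]

theorem ρ_mul (g : J 5) (f : Perm (Fin 6)) (e d : D) :
    ρ g (f, e * d) = ((ρ g (f, e)).1, (ρ g (f, e)).2 * d) := by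
  induction g using PresentedGroup.induction_on generalizing f e d with
  | H z =>
  induction z using FreeGroup.induction_on generalizing f e d with
  | C1 => simp
  | of x => exact st_mul x f e d
  | inv_of x _ =>
    have : ρ (PresentedGroup.mk (rels 5) (FreeGroup.of x)⁻¹) = act x := by
      rw [map_inv, map_inv]
      exact (inv_eq_of_mul_eq_one_right (by ext1 y; exact st_inv x y))
    rw [this]; exact st_mul x f e d
  | mul x y hx hy =>
    simp only [map_mul, Perm.mul_apply]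
    rw [hy, hx]

theorem ρa : ρ a (1, 1) = (1, (.r 1, 1)) := by
  simp only [a, s12, s13, map_mul, Perm.mul_apply, ρ_s]
  decide +kernel

theorem ρb : ρ b (1, 1) = (1, (1, .r (-1))) := by
  simp only [b, s12, s13, s14, s15, s24, s35, map_mul, Perm.mul_apply, ρ_s]
  decide +kernel

theorem ρ_zpow (g : J 5) (e : D) (h : ρ g (1, 1) = (1, e)) (k : ℤ) (d : D) :
    ρ (g ^ k) (1, d) = (1, e ^ k * d) := by
  have h1 : ∀ d, ρ g (1, d) = (1, e * d) := fun d => by
    have := ρ_mul g 1 1 d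
    rwa [one_mul, h] at this
  have h2 : ∀ d, ρ g⁻¹ (1, d) = (1, e⁻¹ * d) := fun d => by
    rw [map_inv, Perm.inv_eq_iff_eq, h1]; simp
  induction k using Int.induction_on generalizing d with
  | zero => simp
  | succ k ih => rw [zpow_add_one, map_mul, Perm.mul_apply, h1, ih, zpow_add_one, mul_assoc]
  | pred k ih => rw [zpow_sub_one, map_mul, Perm.mul_apply, h2, ih, zpow_sub_one, mul_assoc]

theorem main : ∃ f : Multiplicative (Fin 2 → ℤ) →* J 5, Function.Injective f := by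
  refine ⟨MonoidHom.mk' (fun v => a ^ (v.toAdd 0) * b ^ (v.toAdd 1)) ?_, ?_⟩
  · intro v w
    simp only [toAdd_mul, Pi.add_apply, zpow_add]
    have := (ba.zpow_zpow (w.toAdd 0) (v.toAdd 1)).eq
    simp only [mul_assoc]
    rw [← mul_assoc (b ^ _), ← this, mul_assoc]
  · rw [injective_iff_map_eq_one]
    intro v hv
    have h := congrArg (fun g => ρ g (1, 1)) hv
    simp only [MonoidHom.mk'_apply, map_mul, Perm.mul_apply, ρ_zpow b _ ρb, ρ_zpow a _ ρa,
      map_one, Perm.one_apply, Prod.mk.injEq, true_and, mul_one, Prod.ext_iff, Prod.fst_mul,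
      Prod.snd_mul, Prod.pow_fst, Prod.pow_snd, one_zpow, one_mul, DihedralGroup.r_zpow,
      Prod.fst_one, Prod.snd_one, DihedralGroup.one_def, DihedralGroup.r.injEq] at h
    have inj : ∀ k : ZMod 0, (DihedralGroup.r k : DihedralGroup 0) = 1 → k = 0 :=
      fun k hk => DihedralGroup.r.inj hk
    have h0 : v.toAdd 0 = 0 := by
      have := inj _ h.1
      simp only [zero_mul, add_zero] at this
      have e : v.toAdd 0 = 0 := this
      omega
    have h1 : v.toAdd 1 = 0 := by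
      have := inj _ h.2
      simp only [zero_mul, zero_add] at this
      have e : (-1 : ℤ) * v.toAdd 1 = 0 := this
      omega
    apply Multiplicative.toAdd.injective
    funext i; fin_cases i
    · exact h0
    · exact h1

end Pool.Agent.H68.Cactus
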