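import Mathlib

set_option autoImplicit false

namespace Pool.Agent.H68.CactusDefs

/-- Generators `s_{p,q}`, `1 ≤ p < q ≤ n`. -/
def Gen (n : ℕ) : Type := {x : ℕ × ℕ // 1 ≤ x.1 ∧ x.1 < x.2 ∧ x.2 ≤ n}

/-- The defining relators of the cactus group. -/
def rels (n : ℕ) : Set (FreeGroup (Gen n)) :=
  {r | ∃ a : Gen n, r = FreeGroup.of a * FreeGroup.of a} ∪
  {r | ∃ a b : Gen n, (a.1.2 < b.1.1 ∨ b.1.2 < a.1.1) ∧
    r = FreeGroup.of a * FreeGroup.of b * (FreeGroup.of b * FreeGroup.of a)⁻¹} ∪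
  {r | ∃ a b c : Gen n, a.1.1 ≤ b.1.1 ∧ b.1.2 ≤ a.1.2 ∧
    c.1 = (a.1.1 + a.1.2 - b.1.2, a.1.1 + a.1.2 - b.1.1) ∧
    r = FreeGroup.of a * FreeGroup.of b * (FreeGroup.of c * FreeGroup.of a)⁻¹}

/-- The cactus group `J_n`. -/
abbrev J (n : ℕ) : Type := PresentedGroup (rels n)

end Pool.Agent.H68.CactusDefs
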