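import Mathlib

set_option autoImplicit false

namespace Pool.Agent.H68.Lebesgue3

open Finset

def det3 (a b c : ℤ × ℤ × ℤ) : ℤ :=
  a.1 * (b.2.1 * c.2.2 - b.2.2 * c.2.1) - a.2.1 * (b.1 * c.2.2 - b.2.2 * c.1) +
    a.2.2 * (b.1 * c.2.1 - b.2.1 * c.1)

def det4 (a b c d : ℤ × ℤ × ℤ) : ℤ := det3 b c d - det3 a c d + det3 a b d - det3 a b c

theorem det4_zero (a b c d : ℤ × ℤ × ℤ)
    (h : a = b ∨ a = c ∨ a = d ∨ b = c ∨ b = d ∨ c = d) : det4 a b c d = 0 := by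
  rcases h with rfl | rfl | rfl | rfl | rfl | rfl <;> simp only [det4, det3] <;> ring

def sq (g h : ℕ → ℕ → ℤ) (y z : ℕ) : ℤ :=
  (g (y+1) z * h (y+1) (z+1) - g (y+1) (z+1) * h (y+1) z) - (g y z * h y (z+1) - g y (z+1) * h y z)
  - ((g y (z+1) * h (y+1) (z+1) - g (y+1) (z+1) * h y (z+1)) - (g y z * h (y+1) z - g (y+1) z * h y z))

theorem tel1 (N : ℕ) (P : ℕ → ℕ → ℤ) :
    ∑ y ∈ range N, ∑ z ∈ range N, (P (y+1) z - P y z) = ∑ z ∈ range N, (P N z - P 0 z) := by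
  rw [sum_comm]
  exact sum_congr rfl fun z _ => sum_range_sub (fun y => P y z) N

theorem tel2 (N : ℕ) (P : ℕ → ℕ → ℤ) :
    ∑ y ∈ range N, ∑ z ∈ range N, (P y (z+1) - P y z) = ∑ y ∈ range N, (P y N - P y 0) :=
  sum_congr rfl fun y _ => sum_range_sub (fun z => P y z) N

theorem tel31 (N : ℕ) (P : ℕ → ℕ → ℕ → ℤ) :
    ∑ x ∈ range N, ∑ y ∈ range N, ∑ z ∈ range N, (P (x+1) y z - P x y z) =
      ∑ y ∈ range N, ∑ z ∈ range N, (P N y z - P 0 y z) := by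
  rw [sum_comm]
  exact sum_congr rfl fun y _ => tel1 N (fun x z => P x y z)

theorem tel32 (N : ℕ) (P : ℕ → ℕ → ℕ → ℤ) :
    ∑ x ∈ range N, ∑ y ∈ range N, ∑ z ∈ range N, (P x (y+1) z - P x y z) =
      ∑ x ∈ range N, ∑ z ∈ range N, (P x N z - P x 0 z) :=
  sum_congr rfl fun x _ => tel1 N (fun y z => P x y z)

theorem tel33 (N : ℕ) (P : ℕ → ℕ → ℕ → ℤ) :
    ∑ x ∈ range N, ∑ y ∈ range N, ∑ z ∈ range N, (P x y (z+1) - P x y z) =
      ∑ x ∈ range N, ∑ y ∈ range N, (P x y N - P x y 0) :=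
  sum_congr rfl fun x _ => tel2 N (fun y z => P x y z)

theorem two_dim (N : ℕ) (g h : ℕ → ℕ → ℤ) (g0 : ∀ z, g 0 z = 0) (g1 : ∀ z, g N z = 1)
    (h0 : ∀ y, h y 0 = 0) (h1 : ∀ y, h y N = 1) :
    ∑ y ∈ range N, ∑ z ∈ range N, sq g h y z = 2 := by
  have e1 := tel1 N (fun y z => g y z * h y (z+1) - g y (z+1) * h y z)
  have e2 := tel2 N (fun y z => g y z * h (y+1) z - g (y+1) z * h y z)
  simp only [g0, g1, h0, h1, one_mul, zero_mul, mul_one, mul_zero, sub_zero, sub_self] at e1 e2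
  rw [sum_range_sub (fun z => h N z), h0, h1] at e1
  rw [sum_range_sub' (fun y => g y N), g0, g1] at e2
  simp only [sq]
  rw [show (2 : ℤ) = (1 - 0) - (0 - 1) by norm_num, ← e1, ← e2, ← sum_sub_distrib]
  refine sum_congr rfl fun y _ => ?_
  rw [← sum_sub_distrib]

theorem three_dim (N : ℕ) (f : ℕ → ℕ → ℕ → ℤ × ℤ × ℤ)
    (a0 : ∀ y z, (f 0 y z).1 = 0) (a1 : ∀ y z, (f N y z).1 = 1)
    (b0 : ∀ x z, (f x 0 z).2.1 = 0) (b1 : ∀ x z, (f x N z).2.1 = 1)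
    (c0 : ∀ x y, (f x y 0).2.2 = 0) (c1 : ∀ x y, (f x y N).2.2 = 1)
    (h : ∀ x y z, ∀ p q : ℕ × ℕ × ℕ, p.1 ≤ 1 → p.2.1 ≤ 1 → p.2.2 ≤ 1 → q.1 ≤ 1 → q.2.1 ≤ 1 →
      q.2.2 ≤ 1 → p.1 + p.2.1 + p.2.2 = 1 → q.1 + q.2.1 + q.2.2 = 2 →
      det4 (f x y z) (f (x + p.1) (y + p.2.1) (z + p.2.2))
        (f (x + q.1) (y + q.2.1) (z + q.2.2)) (f (x+1) (y+1) (z+1)) = 0) : False := by
  let A : ℕ → ℕ → ℕ → ℤ := fun x y z =>
    det3 (f x y z) (f x (y+1) z) (f x (y+1) (z+1)) - det3 (f x y z) (f x y (z+1)) (f x (y+1) (z+1))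
  let B : ℕ → ℕ → ℕ → ℤ := fun x y z =>
    det3 (f x y z) (f (x+1) y z) (f (x+1) y (z+1)) - det3 (f x y z) (f x y (z+1)) (f (x+1) y (z+1))
  let C : ℕ → ℕ → ℕ → ℤ := fun x y z =>
    det3 (f x y z) (f (x+1) y z) (f (x+1) (y+1) z) - det3 (f x y z) (f x (y+1) z) (f (x+1) (y+1) z)
  have key : ∀ x y z, (A (x+1) y z - A x y z) - (B x (y+1) z - B x y z) +
      (C x y (z+1) - C x y z) = 0 := by
    intro x y z
    have h1 := h x y z (1, 0, 0) (1, 1, 0) (by simp) (by simp) (by simp) (by simp) (by simp)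
      (by simp) (by simp) (by simp)
    have h2 := h x y z (1, 0, 0) (1, 0, 1) (by simp) (by simp) (by simp) (by simp) (by simp)
      (by simp) (by simp) (by simp)
    have h3 := h x y z (0, 1, 0) (1, 1, 0) (by simp) (by simp) (by simp) (by simp) (by simp)
      (by simp) (by simp) (by simp)
    have h4 := h x y z (0, 1, 0) (0, 1, 1) (by simp) (by simp) (by simp) (by simp) (by simp)
      (by simp) (by simp) (by simp)
    have h5 := h x y z (0, 0, 1) (1, 0, 1) (by simp) (by simp) (by simp) (by simp) (by simp)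
      (by simp) (by simp) (by simp)
    have h6 := h x y z (0, 0, 1) (0, 1, 1) (by simp) (by simp) (by simp) (by simp) (by simp)
      (by simp) (by simp) (by simp)
    simp only [add_zero, det4] at h1 h2 h3 h4 h5 h6
    simp only [A, B, C]
    linarith
  have sA : ∑ x ∈ range N, ∑ y ∈ range N, ∑ z ∈ range N, (A (x+1) y z - A x y z) = 2 := by
    rw [tel31 N A, ← two_dim N (fun y z => (f N y z).2.1) (fun y z => (f N y z).2.2)
      (fun z => b0 _ _) (fun z => b1 _ _) (fun y => c0 _ _) (fun y => c1 _ _)]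
    refine sum_congr rfl fun y _ => sum_congr rfl fun z _ => ?_
    simp only [A, det3, a0, a1, sq]; ring
  have sB : ∑ x ∈ range N, ∑ y ∈ range N, ∑ z ∈ range N, (B x (y+1) z - B x y z) = -2 := by
    rw [tel32 N B, ← two_dim N (fun x z => (f x N z).1) (fun x z => (f x N z).2.2)
      (fun z => a0 _ _) (fun z => a1 _ _) (fun y => c0 _ _) (fun y => c1 _ _), ← sum_neg_distrib]
    refine sum_congr rfl fun y _ => ?_
    rw [← sum_neg_distrib]
    refine sum_congr rfl fun z _ => ?_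
    simp only [B, det3, b0, b1, sq]; ring
  have sC : ∑ x ∈ range N, ∑ y ∈ range N, ∑ z ∈ range N, (C x y (z+1) - C x y z) = 2 := by
    rw [tel33 N C, ← two_dim N (fun x y => (f x y N).1) (fun x y => (f x y N).2.1)
      (fun z => a0 _ _) (fun z => a1 _ _) (fun y => b0 _ _) (fun y => b1 _ _)]
    refine sum_congr rfl fun y _ => sum_congr rfl fun z _ => ?_
    simp only [C, det3, c0, c1, sq]; ring
  have tot : ∑ x ∈ range N, ∑ y ∈ range N, ∑ z ∈ range N, ((A (x+1) y z - A x y z) -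
      (B x (y+1) z - B x y z) + (C x y (z+1) - C x y z)) = 0 := by simp [key]
  simp only [sum_add_distrib, sum_sub_distrib] at tot sA sB sC
  linarith

/-- Lebesgue covering theorem for `ℕ³`, label form. -/
theorem lebesgue {α : Type} (N : ℕ) (U : ℕ × ℕ × ℕ → α)
    (hb : ∀ v w, U v = U w → v.1 < w.1 + N ∧ v.2.1 < w.2.1 + N ∧ v.2.2 < w.2.2 + N)
    (hm : ∀ v : ℕ × ℕ × ℕ, {a | ∃ p : ℕ × ℕ × ℕ, p.1 ≤ 1 ∧ p.2.1 ≤ 1 ∧ p.2.2 ≤ 1 ∧
      U (v + p) = a}.encard ≤ 3) : False := by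
  classical
  let F : α → ℤ × ℤ × ℤ := fun a =>
    (if ∃ w, U w = a ∧ w.1 = 0 then 0 else 1, if ∃ w, U w = a ∧ w.2.1 = 0 then 0 else 1,
      if ∃ w, U w = a ∧ w.2.2 = 0 then 0 else 1)
  apply three_dim N (fun x y z => F (U (x, y, z)))
  · intro y z; exact if_pos ⟨_, rfl, rfl⟩
  · intro y z; refine if_neg ?_
    rintro ⟨w, h1, h2⟩; have := (hb _ _ h1.symm).1; simp [h2] at this
  · intro y z; exact if_pos ⟨_, rfl, rfl⟩
  · intro y z; refine if_neg ?_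
    rintro ⟨w, h1, h2⟩; have := (hb _ _ h1.symm).2.1; simp [h2] at this
  · intro y z; exact if_pos ⟨_, rfl, rfl⟩
  · intro y z; refine if_neg ?_
    rintro ⟨w, h1, h2⟩; have := (hb _ _ h1.symm).2.2; simp [h2] at this
  · intro x y z p q p1 p2 p3 q1 q2 q3 _ _
    apply det4_zero
    by_contra hc
    simp only [not_or] at hc
    obtain ⟨n1, n2, n3, n4, n5, n6⟩ := hc
    have hsub : ({U (x, y, z), U (x + p.1, y + p.2.1, z + p.2.2), U (x + q.1, y + q.2.1, z + q.2.2),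
        U (x + 1, y + 1, z + 1)} : Set α) ⊆ {a | ∃ p : ℕ × ℕ × ℕ, p.1 ≤ 1 ∧ p.2.1 ≤ 1 ∧ p.2.2 ≤ 1 ∧
        U ((x, y, z) + p) = a} := by
      rintro a (rfl | rfl | rfl | rfl)
      · exact ⟨0, by simp, by simp, by simp, by simp⟩
      · exact ⟨p, p1, p2, p3, rfl⟩
      · exact ⟨q, q1, q2, q3, rfl⟩
      · exact ⟨(1, 1, 1), by simp, by simp, by simp, rfl⟩
    have := (Set.encard_le_encard hsub).trans (hm (x, y, z))
    rw [Set.encard_insert_of_notMem, Set.encard_insert_of_notMem, Set.encard_pair] at this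
    · norm_num at this
    · exact fun e => n6 (congrArg F e)
    · rintro (e | e)
      · exact n4 (congrArg F e)
      · exact n5 (congrArg F e)
    · rintro (e | e | e)
      · exact n1 (congrArg F e)
      · exact n2 (congrArg F e)
      · exact n3 (congrArg F e)

end Pool.Agent.H68.Lebesgue3
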