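import Mathlib
import Pool.Agent.H68.Cay
import Pool.Agent.H68.Lcp
import Pool.Agent.H68.Lebesgue3

set_option autoImplicit false

namespace Pool.Agent.H68.Cay

open Pool.Agent.H68.Lcp

variable {G : Type} [Group G] {S : Finset G}

theorem not_asLE_two (hS : Subgroup.closure (S : Set G) = ⊤) (ψ : ℤ × ℤ × ℤ → G)
    (hψ : ∀ u v, ψ (u + v) = ψ u * ψ v) (hi : Function.Injective ψ) :
    ¬ AsLE S Set.univ 2 := by
  intro h
  let c : ℕ × ℕ × ℕ → ℤ × ℤ × ℤ := fun v => (v.1, v.2.1, v.2.2)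
  have cadd : ∀ u v, c (u + v) = c u + c v := by intro u v; simp [c]
  have hfin : {p : ℕ × ℕ × ℕ | p.1 ≤ 1 ∧ p.2.1 ≤ 1 ∧ p.2.2 ≤ 1}.Finite :=
    (Set.finite_Iic ((1, 1, 1) : ℕ × ℕ × ℕ)).subset fun p hp => hp
  obtain ⟨R, hR⟩ := bdd_of_fin (S := S) (hfin.image fun p => ψ (c p))
  obtain ⟨𝒰, -, hcov, ⟨D, hD⟩, hm⟩ := h R
  have hc : ∀ g : G, ∃ U ∈ 𝒰, g ∈ U := fun g => hcov (Set.mem_univ g)
  choose U hU hU' using hc
  have hB : (ψ ⁻¹' {g | (cay S).dist 1 g ≤ D}).Finite :=
    (ball_fin hS D).preimage hi.injOn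
  obtain ⟨b, hb⟩ := hB.bddAbove
  have hdiff : ∀ u v, (ψ u)⁻¹ * ψ (v) = ψ (v - u) := by
    intro u v
    rw [inv_mul_eq_iff_eq_mul, ← hψ]; simp
  apply Lebesgue3.lebesgue (b.1.toNat + b.2.1.toNat + b.2.2.toNat + 1) (fun v => U (ψ (c v)))
  · intro v w hvw
    have h1 := hD _ (hU (ψ (c w))) _ (hU' _) (ψ (c v)) (by rw [← hvw]; exact hU' _)
    rw [dist_eq hS, hdiff] at h1
    have h2 := hb h1
    obtain ⟨a1, a2, a3⟩ := h2
    simp only [c, Prod.fst_sub, Prod.snd_sub] at a1 a2 a3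
    omega
  · intro v
    refine le_trans (Set.encard_le_encard ?_) ((hm (ψ (c v)) (Set.mem_univ _)).trans (by norm_num))
    rintro _ ⟨p, p1, p2, p3, rfl⟩
    refine ⟨hU _, _, hU' _, ?_⟩
    rw [dist_eq hS, cadd, hψ, inv_mul_cancel_left]
    exact hR _ ⟨p, ⟨p1, p2, p3⟩, rfl⟩

section tree

variable {A : Type} [DecidableEq A] (r : A → G) (t : G)

def ev (w : List A) : G := (w.map r).prod

theorem ev_append (u v : List A) : ev r (u ++ v) = ev r u * ev r v := by simp [ev]
theorem ev_cons (a : A) (v : List A) : ev r (a :: v) = r a * ev r v := by simp [ev]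
theorem ev_nil : ev r [] = 1 := rfl

variable {r t}

theorem ev_rev (hr : ∀ a, r a * r a = 1) (u : List A) : ev r u.reverse = (ev r u)⁻¹ := by
  induction u with
  | nil => simp [ev]
  | cons a u ih =>
    rw [List.reverse_cons, ev_append, ih, ev_cons, ev_cons, ev_nil, mul_one, mul_inv_rev,
      inv_eq_of_mul_eq_one_right (hr a)]

theorem reduce (hr : ∀ a, r a * r a = 1) (u v : List A) (hu : u.IsChain (· ≠ ·))
    (hv : v.IsChain (· ≠ ·)) : ∃ w : List A, w.IsChain (· ≠ ·) ∧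
      (ev r u)⁻¹ * ev r v = ev r w ∧ w.length + 2 * lcp u v = u.length + v.length := by
  induction u generalizing v with
  | nil => exact ⟨v, hv, by simp [ev_nil], by simp⟩
  | cons a u ih =>
    cases v with
    | nil =>
      refine ⟨(a :: u).reverse, ?_, by rw [ev_rev hr, ev_nil, mul_one], by simp⟩
      rw [List.isChain_reverse]; exact hu.imp fun _ _ h => h.symm
    | cons b v =>
      by_cases h : a = b
      · subst h
        obtain ⟨w, h1, h2, h3⟩ := ih v hu.tail hv.tail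
        refine ⟨w, h1, ?_, ?_⟩
        · rw [← h2, ev_cons, ev_cons]; group
        · simp only [lcp_cons, if_true, List.length_cons]; omega
      · refine ⟨(a :: u).reverse ++ b :: v, ?_, by rw [ev_append, ev_rev hr], ?_⟩
        · rw [List.isChain_append]
          refine ⟨?_, hv, ?_⟩
          · rw [List.isChain_reverse]; exact hu.imp fun _ _ h => h.symm
          · simpa using h
        · simp [lcp_cons, h]; omega

theorem ev_comm (hc : ∀ a, Commute (r a) t) (w : List A) : Commute (ev r w) t := by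
  induction w with
  | nil => exact Commute.one_left t
  | cons a w ih => rw [ev_cons]; exact (hc a).mul_left ih

def Hs (hr : ∀ a, r a * r a = 1) (ht : t * t = 1) (hc : ∀ a, Commute (r a) t) : Subgroup G where
  carrier := {h | ∃ w : List A, w.IsChain (· ≠ ·) ∧ ∃ e, (e = 1 ∨ e = t) ∧ h = ev r w * e}
  one_mem' := ⟨[], List.isChain_nil, 1, Or.inl rfl, by simp [ev_nil]⟩
  mul_mem' := by
    rintro _ _ ⟨u, hu, e, he, rfl⟩ ⟨v, hv, f, hf, rfl⟩
    obtain ⟨w, h1, h2, -⟩ := reduce hr u.reverse v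
      (by rw [List.isChain_reverse]; exact hu.imp fun _ _ h => h.symm) hv
    rw [ev_rev hr, inv_inv] at h2
    refine ⟨w, h1, e * f, ?_, ?_⟩
    · rcases he with rfl | rfl <;> rcases hf with rfl | rfl <;> simp [ht]
    · rw [← h2]
      rcases he with rfl | rfl
      · group
      · rw [mul_assoc, ← mul_assoc e, ← (ev_comm hc v).eq]; group
  inv_mem' := by
    rintro _ ⟨u, hu, e, he, rfl⟩
    refine ⟨u.reverse, by rw [List.isChain_reverse]; exact hu.imp fun _ _ h => h.symm, e, he, ?_⟩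
    rcases he with rfl | rfl
    · simp [ev_rev hr]
    · rw [(ev_comm hc _).eq, ev_rev hr, mul_inv_rev, inv_eq_of_mul_eq_one_right ht]

theorem asLE_Hs [Finite A] (hS : Subgroup.closure (S : Set G) = ⊤)
    (hr : ∀ a, r a * r a = 1) (ht : t * t = 1) (hc : ∀ a, Commute (r a) t)
    (hpp : ∀ w : List A, w.IsChain (· ≠ ·) → w ≠ [] → ev r w ≠ 1 ∧ ev r w ≠ t) :
    AsLE S (Hs hr ht hc : Set G) 1 := by
  classical
  have hti : t⁻¹ = t := inv_eq_of_mul_eq_one_right ht
  let wd : G → List A := fun h => if hh : h ∈ Hs hr ht hc then hh.choose else []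
  have hwd : ∀ h ∈ Hs hr ht hc, (wd h).IsChain (· ≠ ·) ∧
      ∃ e, (e = 1 ∨ e = t) ∧ h = ev r (wd h) * e := by
    intro h hh
    simp only [wd, dif_pos hh]
    exact hh.choose_spec
  -- difference of two elements
  have hdiff : ∀ a ∈ Hs hr ht hc, ∀ b ∈ Hs hr ht hc, ∃ w : List A, w.IsChain (· ≠ ·) ∧
      w.length + 2 * lcp (wd a) (wd b) = (wd a).length + (wd b).length ∧
      ∃ e, (e = 1 ∨ e = t) ∧ a⁻¹ * b = ev r w * e := by
    intro a ha b hb
    obtain ⟨h1, e, he, h2⟩ := hwd a ha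
    obtain ⟨h3, f, hf, h4⟩ := hwd b hb
    obtain ⟨w, h5, h6, h7⟩ := reduce hr _ _ h1 h3
    refine ⟨w, h5, h7, e * f, ?_, ?_⟩
    · rcases he with rfl | rfl <;> rcases hf with rfl | rfl <;> simp [ht]
    · have : a⁻¹ * b = e⁻¹ * ((ev r (wd a))⁻¹ * ev r (wd b)) * f := by
        conv_lhs => rw [h2, h4]
        group
      rw [this, h6]
      rcases he with rfl | rfl
      · group
      · rw [hti, ← (ev_comm hc w).eq]; group
  have huniq : ∀ u v : List A, u.IsChain (· ≠ ·) → v.IsChain (· ≠ ·) → ∀ e f, (e = 1 ∨ e = t) →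
      (f = 1 ∨ f = t) → ev r u * e = ev r v * f → u.length = v.length := by
    intro u v hu hv e f he hf h
    obtain ⟨w, h1, h2, h3⟩ := reduce hr u v hu hv
    by_cases hw : w = []
    · have := lcp_le_left u v
      have := lcp_le_right u v
      simp only [hw, List.length_nil] at h3
      omega
    · exfalso
      have h4 : ev r w = e * f⁻¹ := by
        rw [← h2, inv_mul_eq_iff_eq_mul, ← mul_assoc, h]; group
      obtain ⟨h5, h6⟩ := hpp w h1 hw
      rcases he with rfl | rfl <;> rcases hf with rfl | rfl <;> simp_all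
  apply asLE_of_labels
  intro R
  obtain ⟨M, hM⟩ := ((ball_fin hS (2 * R)).image fun g => (wd g).length).bddAbove
  have hclose : ∀ a ∈ Hs hr ht hc, ∀ b ∈ Hs hr ht hc, (cay S).dist a b ≤ 2 * R →
      (wd a).length + (wd b).length ≤ M + 2 * lcp (wd a) (wd b) := by
    intro a ha b hb hd
    obtain ⟨w, h1, h2, e, he, h3⟩ := hdiff a ha b hb
    have hab := (Hs hr ht hc).mul_mem ((Hs hr ht hc).inv_mem ha) hb
    obtain ⟨h4, f, hf, h5⟩ := hwd _ hab
    have h6 := huniq _ _ h1 h4 e f he hf (h3.symm.trans h5)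
    rw [dist_eq hS] at hd
    have h7 : (wd (a⁻¹ * b)).length ≤ M := hM ⟨_, hd, rfl⟩
    omega
  let L := 2 * M + 1
  have hL : 0 < L := by omega
  refine ⟨fun g => ((wd g).length / L, (wd g).take ((wd g).length / L * L - M)), ?_, ?_⟩
  · have hfin : {g : G | ∃ w : List A, w.length ≤ 2 * (L + M) ∧ ∃ e, (e = 1 ∨ e = t) ∧
        g = ev r w * e}.Finite := by
      refine (((List.finite_length_le A (2 * (L + M))).prod
        ((Set.finite_singleton t).insert 1)).image fun p => ev r p.1 * p.2).subset ?_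
      rintro g ⟨w, h1, e, h2, rfl⟩
      exact ⟨(w, e), ⟨h1, h2⟩, rfl⟩
    obtain ⟨D, hD⟩ := bdd_of_fin (S := S) hfin
    refine ⟨D, fun a ha b hb hab => ?_⟩
    obtain ⟨w, h1, h2, e, he, h3⟩ := hdiff a ha b hb
    rw [dist_eq hS]
    refine hD _ ⟨w, ?_, e, he, h3⟩
    simp only [Prod.mk.injEq] at hab
    obtain ⟨k1, k2⟩ := hab
    have a1 := Nat.div_mul_le_self (wd a).length L
    have a2 := Nat.div_mul_le_self (wd b).length L
    have a3 := Nat.lt_div_mul_add (a := (wd a).length) hL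
    have a4 := Nat.lt_div_mul_add (a := (wd b).length) hL
    rw [← k1] at k2 a2 a4
    have a5 := (le_lcp_iff _ _ _).2 ⟨by omega, by omega, k2⟩
    omega
  · intro y hy
    have hle : ∀ a ∈ Hs hr ht hc, ∀ b ∈ Hs hr ht hc, (cay S).dist y a ≤ R →
        (cay S).dist y b ≤ R → (wd a).length + (wd b).length ≤ M + 2 * lcp (wd a) (wd b) := by
      intro a ha b hb h1 h2
      refine hclose a ha b hb ((dist_tri hS a y b).trans ?_)
      rw [SimpleGraph.dist_comm]; omega
    let k0 := ((wd y).length - M) / L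
    rw [← Set.InjOn.encard_image (f := Prod.fst)]
    · refine le_trans (Set.encard_le_encard (t := {k0, k0 + 1}) ?_) ?_
      · rintro _ ⟨_, ⟨z, ⟨hz, hd⟩, rfl⟩, rfl⟩
        have h1 := hle y hy z hz (by simp) hd
        have h2 := lcp_le_left (wd y) (wd z)
        have h3 := lcp_le_right (wd y) (wd z)
        have h4 : k0 ≤ (wd z).length / L := Nat.div_le_div_right (by omega)
        have h5 : (wd z).length / L ≤ ((wd y).length - M + L) / L :=
          Nat.div_le_div_right (by omega)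
        rw [Nat.add_div_right _ hL] at h5
        simp only [Set.mem_insert_iff, Set.mem_singleton_iff]
        omega
      · rw [Set.encard_pair (by omega)]; norm_num
    · rintro _ ⟨a, ⟨ha, h1⟩, rfl⟩ _ ⟨b, ⟨hb, h2⟩, rfl⟩ k1
      simp only at k1
      have h3 := hle a ha b hb h1 h2
      have a1 := Nat.div_mul_le_self (wd a).length L
      have a2 := Nat.div_mul_le_self (wd b).length L
      simp only [Prod.mk.injEq]
      refine ⟨k1, ?_⟩
      rw [← k1] at a2 ⊢
      exact ((le_lcp_iff _ _ _).1 (by omega)).2.2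

end tree

theorem deep (hS : Subgroup.closure (S : Set G) = ⊤) (H : Subgroup G) (τ : G) (hτ : τ ∈ S)
    (hn : ∀ n : ℤ, τ ^ n ∈ H → n = 0) (side : G → ZMod 2)
    (hside : ∀ g h, g ∉ H → h ∉ H → (cay S).Adj g h → side g = side h)
    (t : G) (ht : t ∈ H) (hts : side (t * τ) ≠ side τ) :
    ∃ r : ℕ, ∃ Ω : Set G, Ω = {v : G | ∀ x ∈ (H : Set G), r < (cay S).dist v x} ∧
    ∃ C₁ C₂ : ((cay S).induce Ω).ConnectedComponent, C₁ ≠ C₂ ∧
      ∀ C : ((cay S).induce Ω).ConnectedComponent, (C = C₁ ∨ C = C₂) →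
        ∀ D : ℕ, ∃ v : Ω, ((cay S).induce Ω).connectedComponentMk v = C ∧
          ∀ x ∈ (H : Set G), D < (cay S).dist (v : G) x := by
  refine ⟨0, _, rfl, ?_⟩
  have hΩ : ∀ v, v ∈ {v : G | ∀ x ∈ (H : Set G), 0 < (cay S).dist v x} ↔ v ∉ H := by
    intro v
    constructor
    · intro h hv; simpa using h v hv
    · intro h x hx
      exact (reach hS v x).pos_dist_of_ne fun e => h (e ▸ hx)
  generalize {v : G | ∀ x ∈ (H : Set G), 0 < (cay S).dist v x} = Ω at hΩ
  have hm : ∀ a ∈ H, ∀ n : ℕ, a * τ ^ (n + 1) ∈ Ω := by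
    intro a ha n
    rw [hΩ, H.mul_mem_cancel_left ha]
    intro h
    have := hn ((n + 1 : ℕ) : ℤ) (by rwa [zpow_natCast])
    omega
  have hτ1 : τ ≠ 1 := fun h => by simpa using hn 1 (by simp [h])
  have hray : ∀ a (ha : a ∈ H), ∀ n : ℕ,
      ((cay S).induce Ω).connectedComponentMk ⟨_, hm a ha n⟩ =
      ((cay S).induce Ω).connectedComponentMk ⟨_, hm a ha 0⟩ := by
    intro a ha n
    induction n with
    | zero => rfl
    | succ n ih =>
      rw [← ih]
      apply SimpleGraph.ConnectedComponent.connectedComponentMk_eq_of_adj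
      show (cay S).Adj (a * τ ^ (n + 1 + 1)) (a * τ ^ (n + 1))
      rw [adj_iff]
      refine ⟨?_, Or.inr ?_⟩
      · intro h
        rw [pow_succ τ (n + 1), mul_right_inj, mul_eq_left] at h
        exact hτ1 h
      · have : (a * τ ^ (n + 1))⁻¹ * (a * τ ^ (n + 1 + 1)) = τ := by group
        simpa only [this] using hτ
  have hdeep : ∀ a ∈ H, ∀ D : ℕ, ∃ n : ℕ, ∀ x ∈ (H : Set G),
      D < (cay S).dist (a * τ ^ (n + 1)) x := by
    intro a ha D
    by_contra hc
    push Not at hc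
    choose x hx hd using hc
    have : Finite {g | (cay S).dist 1 g ≤ D} := ball_fin hS D
    obtain ⟨n, m, hnm, h⟩ := Finite.exists_ne_map_eq_of_infinite
      (fun n : ℕ => (⟨(a * τ ^ (n + 1))⁻¹ * x n, by
        have := hd n; rwa [dist_eq hS] at this⟩ : {g | (cay S).dist 1 g ≤ D}))
    simp only [Subtype.mk.injEq] at h
    have h2 : τ ^ ((n : ℤ) - m) = a⁻¹ * x n * (x m)⁻¹ * a := by
      have : x n = (a * τ ^ (n + 1)) * ((a * τ ^ (m + 1))⁻¹ * x m) := by rw [← h]; group
      rw [this]; group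
    have := hn _ (h2 ▸ H.mul_mem (H.mul_mem (H.mul_mem (H.inv_mem ha) (hx n))
      (H.inv_mem (hx m))) ha)
    omega
  refine ⟨((cay S).induce Ω).connectedComponentMk ⟨_, hm 1 H.one_mem 0⟩,
    ((cay S).induce Ω).connectedComponentMk ⟨_, hm t ht 0⟩, ?_, ?_⟩
  · intro h
    have key : ∀ u v : Ω, ((cay S).induce Ω).Reachable u v → side u = side v := by
      rintro u v ⟨p⟩
      induction p with
      | nil => rfl
      | @cons u v w e _ ih => exact (hside _ _ ((hΩ _).1 u.2) ((hΩ _).1 v.2) e).trans ih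
    have := key _ _ (SimpleGraph.ConnectedComponent.exact h)
    apply hts
    simpa using this.symm
  · rintro C (rfl | rfl) D
    · obtain ⟨n, h⟩ := hdeep 1 H.one_mem D
      exact ⟨_, hray 1 H.one_mem n, h⟩
    · obtain ⟨n, h⟩ := hdeep t ht D
      exact ⟨_, hray t ht n, h⟩

end Pool.Agent.H68.Cay
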