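import Pool.Agent.H68.CeDefs

set_option autoImplicit false

namespace Pool.Agent.H68.Ce

universe u

section ring

variable {R : Type u} [Ring R]

theorem RUniserial.dist (h : RUniserial R) : RDistrib R := by
  intro I J K
  rcases h J K with h1 | h1
  · rw [sup_eq_right.2 h1, sup_eq_right.2 (inf_le_inf_left I h1)]
  · rw [sup_eq_left.2 h1, sup_eq_left.2 (inf_le_inf_left I h1)]

theorem mem_sp (a x : R) : x ∈ Submodule.span Rᵐᵒᵖ {a} ↔ ∃ r, a * r = x := by
  rw [Submodule.mem_span_singleton]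
  constructor
  · rintro ⟨r, rfl⟩
    exact ⟨r.unop, rfl⟩
  · rintro ⟨r, rfl⟩
    exact ⟨MulOpposite.op r, rfl⟩

theorem dist_pair (h : RDistrib R) (a b : R) :
    ∃ s r r', b * s = a * r ∧ a * (1 - s) = b * r' := by
  have h1 : a + b ∈ Submodule.span Rᵐᵒᵖ {a + b} ⊓
      (Submodule.span Rᵐᵒᵖ {a} ⊔ Submodule.span Rᵐᵒᵖ {b}) :=
    ⟨Submodule.mem_span_singleton_self _, Submodule.add_mem_sup
      (Submodule.mem_span_singleton_self _) (Submodule.mem_span_singleton_self _)⟩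
  rw [h, Submodule.mem_sup] at h1
  obtain ⟨x, ⟨hx1, hx2⟩, y, ⟨-, hy2⟩, e⟩ := h1
  obtain ⟨s, rfl⟩ := (mem_sp _ _).1 hx1
  obtain ⟨r, hr⟩ := (mem_sp _ _).1 hx2
  obtain ⟨r', rfl⟩ := (mem_sp _ _).1 hy2
  refine ⟨s, r - s, r' - (1 - s), ?_, ?_⟩
  · rw [mul_sub, hr]; noncomm_ring
  · have : b * r' = a + b - (a + b) * s := eq_sub_of_add_eq' e
    rw [mul_sub b, this]; noncomm_ring

theorem idem_aux (h : RDistrib R) (e : R) (he : e * e = e) (r : R) : e * r * (1 - e) = 0 := by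
  obtain ⟨s, t, t', h1, h2⟩ := dist_pair h (e * r * (1 - e)) (1 - e)
  have k1 : (1 - e) * e = 0 := by rw [sub_mul, he]; simp
  have k2 : e * (1 - e) = 0 := by rw [mul_sub, he]; simp
  have k3 : (1 - e) * (1 - e) = 1 - e := by rw [mul_sub, k1]; simp
  have h3 : (1 - e) * s = 0 := by
    rw [← k3, mul_assoc, h1]
    simp only [← mul_assoc, k1, zero_mul]
  have h4 : e * r * (1 - e) * (1 - s) = 0 := by
    have : e * (e * r * (1 - e) * (1 - s)) = 0 := by rw [h2, ← mul_assoc, k2, zero_mul]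
    simpa only [← mul_assoc, he] using this
  rw [mul_sub, mul_one, mul_assoc _ _ s, h3, mul_zero, sub_zero] at h4
  exact h4

theorem idem_central (h : RDistrib R) (e : R) (he : e * e = e) (r : R) : e * r = r * e := by
  have h1 := idem_aux h e he r
  have h2 := idem_aux h (1 - e) (by rw [mul_sub, sub_mul, sub_mul, he]; simp) r
  rw [sub_sub_cancel, sub_mul, sub_mul, one_mul, sub_eq_zero] at h2
  rw [mul_sub, mul_one, sub_eq_zero] at h1
  rw [h1, h2]

theorem exists_nil (hc : CentEss R) (a b : R) (hab : a * b ≠ b * a) :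
    ∃ c z : R, z = c * (a * b - b * a) ∧ (∀ r, r * z = z * r) ∧ z ≠ 0 ∧ z * z = 0 := by
  obtain ⟨x, y, hx, hy, -, y0, e⟩ := hc _ (sub_ne_zero.2 hab)
  rw [Subring.mem_center_iff] at hx hy
  have key : ∀ t : R, (∀ r, r * t = t * r) → y * t ≠ 0 → (∀ r, r * (y * t * a) = y * t * a * r) →
      ∃ c z : R, z = c * (a * b - b * a) ∧ (∀ r, r * z = z * r) ∧ z ≠ 0 ∧ z * z = 0 := by
    intro t ht h0 h1
    have hz : ∀ r, r * (y * t) = y * t * r := fun r => by
      rw [← mul_assoc, hy, mul_assoc, ht, mul_assoc]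
    have e2 : y * t = t * x * (a * b - b * a) := by rw [ht, ← e, hx, mul_assoc]
    refine ⟨t * x, y * t, e2, hz, h0, ?_⟩
    have : y * t * (a * b - b * a) = 0 := by
      rw [mul_sub, ← mul_assoc, ← h1, ← mul_assoc (y * t) b, ← hz b]
      simp [mul_assoc]
    nth_rw 2 [e2]
    rw [← mul_assoc, ← hz, mul_assoc, this, mul_zero]
  by_cases h0 : y * a = 0
  · exact key 1 (by simp) (by simpa using y0) (by simp [h0])
  · obtain ⟨t, y', ht, hy', -, y1, e'⟩ := hc _ h0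
    rw [Subring.mem_center_iff] at ht hy'
    have e3 : y * t * a = y' := by rw [mul_assoc, ← ht, ← mul_assoc, e']
    refine key t ht ?_ (by rw [e3]; exact hy')
    intro h1
    rw [h1, zero_mul] at e3
    exact y1 e3.symm

end ring

variable {A : Type u} [AddCommGroup A]

theorem proj (S : AddSubgroup A) (hS : ∀ n : ℤ, n ≠ 0 → ∀ y ∈ S, ∃ x ∈ S, n • x = y) :
    ∃ e : AddMonoid.End A, (∀ x, e x ∈ S) ∧ ∀ x ∈ S, e x = x := by
  letI : DivisibleBy S ℤ := divisibleByOfSMulRightSurj S ℤ (by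
    intro n hn y
    obtain ⟨x, hx, e⟩ := hS n hn y.1 y.2
    exact ⟨⟨x, hx⟩, Subtype.ext e⟩)
  obtain ⟨f, hf⟩ := (Module.Baer.of_divisible S).extension_property_addMonoidHom S.subtype
    Subtype.val_injective (AddMonoidHom.id S)
  refine ⟨S.subtype.comp f, fun x => (f x).2, fun x hx => ?_⟩
  exact congrArg Subtype.val (DFunLike.congr_fun hf ⟨x, hx⟩)

/-- the `p`-socle is cyclic -/
def Cyc (A : Type u) [AddCommGroup A] (p : ℕ) : Prop :=
  ∀ w1 w2 : A, w1 ≠ 0 → p • w1 = 0 → p • w2 = 0 → ∃ k : ℤ, w2 = k • w1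

theorem exists_char' {V : Type u} [AddCommGroup V] (p : ℕ) [Fact p.Prime] [Module (ZMod p) V]
    (v : V) (hv : v ≠ 0) : ∃ χ : V →+ ZMod p, χ v ≠ 0 := by
  obtain ⟨φ, hφ⟩ := Module.Projective.exists_dual_ne_zero (ZMod p) hv
  exact ⟨φ.toAddMonoidHom, hφ⟩

theorem exists_char {V : Type u} [AddCommGroup V] (p : ℕ) [Fact p.Prime] (h : ∀ x : V, p • x = 0)
    (v : V) (hv : v ≠ 0) : ∃ χ : V →+ ZMod p, χ v ≠ 0 :=
  @exists_char' V _ p _ (AddCommGroup.zmodModule h) v hv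

theorem cyc_p (h : RDistrib (AddMonoid.End A)) {p : ℕ} (hp : p.Prime)
    (hA : ∃ v : A, ∀ x, p • x ≠ v) : Cyc A p := by
  haveI := Fact.mk hp
  obtain ⟨v, hv⟩ := hA
  let S : AddSubgroup A := (nsmulAddMonoidHom (α := A) p).range
  have hv' : (v : A ⧸ S) ≠ 0 := by
    rw [Ne, QuotientAddGroup.eq_zero_iff]
    rintro ⟨x, hx⟩
    exact hv x hx
  obtain ⟨φ, hφ⟩ := exists_char (V := A ⧸ S) p (by
    intro x
    obtain ⟨x, rfl⟩ := QuotientAddGroup.mk_surjective x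
    rw [← QuotientAddGroup.mk_nsmul, QuotientAddGroup.eq_zero_iff]
    exact ⟨x, rfl⟩) _ hv'
  let χ : A →+ ZMod p := φ.comp (QuotientAddGroup.mk' S)
  have hχ : χ v ≠ 0 := hφ
  intro w1 w2 h1 p1 p2
  let L : (w : A) → p • w = 0 → (ZMod p →+ A) := fun w hw =>
    ZMod.lift p ⟨zmultiplesHom A w, by simpa using hw⟩
  have hL : ∀ w hw (k : ℤ), L w hw (k : ZMod p) = k • w := fun w hw k => by
    simp only [L]
    rw [ZMod.lift_coe]
    simp
  have inv : ∀ c d : ZMod p, c ≠ 0 → L w2 p2 c = L w1 p1 d → ∃ k : ℤ, w2 = k • w1 := by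
    intro c d hc e
    obtain ⟨i, hi⟩ := ZMod.intCast_surjective c⁻¹
    obtain ⟨j, rfl⟩ := ZMod.intCast_surjective d
    refine ⟨i * j, ?_⟩
    have h2 : L w2 p2 (i • c) = w2 := by
      rw [zsmul_eq_mul, hi, inv_mul_cancel₀ hc]
      simpa using hL w2 p2 1
    rw [map_zsmul, e, hL w1 p1] at h2
    rw [← h2, mul_smul]
  obtain ⟨s, r, r', e1, e2⟩ := dist_pair h ((L w1 p1).comp χ) ((L w2 p2).comp χ)
  have a1 : L w2 p2 (χ (s v)) = L w1 p1 (χ (r v)) := DFunLike.congr_fun e1 v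
  have a2 : L w1 p1 (χ (v - s v)) = L w2 p2 (χ (r' v)) := DFunLike.congr_fun e2 v
  by_cases h3 : χ (s v) = 0
  · rw [map_sub, h3, sub_zero] at a2
    refine inv _ _ ?_ a2.symm
    intro h4
    rw [h4, map_zero] at a2
    obtain ⟨i, hi⟩ := ZMod.intCast_surjective (χ v)⁻¹
    have h2 : L w1 p1 (i • χ v) = w1 := by
      rw [zsmul_eq_mul, hi, inv_mul_cancel₀ hχ]
      simpa using hL w1 p1 1
    rw [map_zsmul, a2, smul_zero] at h2
    exact h1 h2.symm
  · exact inv _ _ h3 a1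

theorem in_cyc {p : ℕ} (h : Cyc A p) (j : ℕ) : ∀ x x' : A, p ^ (j + 1) • x = 0 → p ^ j • x ≠ 0 →
    p ^ (j + 1) • x' = 0 → ∃ k : ℤ, x' = k • x := by
  induction j with
  | zero => intro x x' a b c; exact h x x' (by simpa using b) (by simpa using a) (by simpa using c)
  | succ j ih =>
    intro x x' a b c
    obtain ⟨k, hk⟩ := ih (p • x) (p • x') (by rw [smul_smul, ← pow_succ]; exact a)
      (by rw [smul_smul, ← pow_succ]; exact b) (by rw [smul_smul, ← pow_succ]; exact c)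
    obtain ⟨l, hl⟩ := h (p ^ (j + 1) • x) (x' - k • x) b (by rw [smul_smul, ← pow_succ']; exact a)
      (by rw [smul_sub, hk, smul_comm, sub_self])
    refine ⟨k + l * (p ^ (j + 1) : ℕ), ?_⟩
    rw [add_smul, mul_smul, natCast_zsmul, ← hl]
    abel

theorem scal {p : ℕ} (h : Cyc A p) (m : ℕ) (x : A) (hx : p ^ m • x = 0) (a : AddMonoid.End A) :
    ∃ k : ℤ, a x = k • x := by
  induction m with
  | zero => exact ⟨0, by simp at hx; simp [hx]⟩
  | succ m ih =>
    by_cases h0 : p ^ m • x = 0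
    · exact ih h0
    · exact in_cyc h m x _ hx h0 (by rw [← map_nsmul, hx, map_zero])

end Pool.Agent.H68.Ce
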