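import Pool.Agent.H68.Ce1

set_option autoImplicit false

namespace Pool.Agent.H68.Ce

universe u

variable {A : Type u} [AddCommGroup A]

theorem pdiv {p : ℕ} (h : ∀ v : A, ∃ x, p • x = v) (k : ℕ) (v : A) : ∃ x, p ^ k • x = v := by
  induction k generalizing v with
  | zero => exact ⟨v, by simp⟩
  | succ k ih =>
    obtain ⟨x, rfl⟩ := ih v
    obtain ⟨y, rfl⟩ := h x
    exact ⟨y, by rw [smul_smul, pow_succ]⟩

theorem dich (h : RDistrib (AddMonoid.End A)) {p : ℕ} (hp : p.Prime) :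
    (∀ v : A, ∃ x, p • x = v) ∨ Cyc A p := by
  by_cases h1 : ∀ v : A, ∃ x, p • x = v
  · exact Or.inl h1
  · push Not at h1
    exact Or.inr (cyc_p h hp h1)

theorem z_mem (h : RDistrib (AddMonoid.End A)) {a b c z : AddMonoid.End A}
    (e : z = c * (a * b - b * a)) (hz : ∀ r, r * z = z * r) (zz : z * z = 0) {p : ℕ} (hp : p.Prime)
    (k : ℕ) (x : A) : ∃ y, p ^ k • y = z x := by
  rcases dich h hp with h1 | h1
  · exact pdiv h1 k _
  obtain ⟨s, r, r', e1, e2⟩ := dist_pair h z ((p ^ k : ℕ) : AddMonoid.End A)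
  set n : AddMonoid.End A := ((p ^ k : ℕ) : AddMonoid.End A) with hn
  have hn' : ∀ v, n v = p ^ k • v := fun v => AddMonoid.End.natCast_apply _ v
  have hc : ∀ t, t * n = n * t := fun t => (Nat.cast_comm _ t).symm
  have h2 : n * n * (s * s) = 0 := by
    have : n * n * (s * s) = (n * s) * (n * s) := by
      rw [mul_assoc n s, ← mul_assoc s n, hc s]; simp only [mul_assoc]
    rw [this, e1, mul_assoc, ← mul_assoc r, hz r, ← mul_assoc, ← mul_assoc, zz]
    simp
  have h3 : p ^ (k + k) • (s (s x)) = 0 := by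
    have := DFunLike.congr_fun h2 x
    rw [pow_add, mul_smul, ← hn', ← hn']
    exact this
  have h4 : z (s (s x)) = 0 := by
    obtain ⟨i, hi⟩ := scal h1 _ _ h3 a
    obtain ⟨j, hj⟩ := scal h1 _ _ h3 b
    have : (a * b - b * a) (s (s x)) = 0 := by
      change a (b _) - b (a _) = 0
      rw [hi, hj, map_zsmul, map_zsmul, hi, hj, smul_comm, sub_self]
    rw [e]
    change c ((a * b - b * a) _) = 0
    rw [this, map_zero]
  have h5 : z = z * (s * s) + n * (s * r' + r') := by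
    have : n * (s * r' + r') = s * (z * (1 - s)) + z * (1 - s) := by
      rw [e2, mul_add, ← mul_assoc, ← hc s, mul_assoc]
    rw [this, ← mul_assoc s, hz s]
    noncomm_ring
  refine ⟨(s * r' + r') x, ?_⟩
  have := DFunLike.congr_fun h5 x
  rw [this]
  change _ = z (s (s x)) + n _
  rw [h4, zero_add, hn']
  rfl

/-- the first Ulm subgroup -/
def Ulm (A : Type u) [AddCommGroup A] : AddSubgroup A where
  carrier := {y | ∀ n : ℕ, n ≠ 0 → ∃ x, n • x = y}
  zero_mem' := fun n _ => ⟨0, by simp⟩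
  add_mem' := by
    intro a b ha hb n hn
    obtain ⟨x, rfl⟩ := ha n hn
    obtain ⟨y, rfl⟩ := hb n hn
    exact ⟨x + y, by simp⟩
  neg_mem' := by
    intro a ha n hn
    obtain ⟨x, rfl⟩ := ha n hn
    exact ⟨-x, by simp⟩

theorem mem_ulm {y : A} (h : ∀ p k : ℕ, p.Prime → ∃ x, p ^ k • x = y) : y ∈ Ulm A := by
  intro n
  induction n using Nat.recOnPosPrimePosCoprime with
  | prime_pow p k hp _ => exact fun _ => h p k hp
  | zero => exact fun h => absurd rfl h
  | one => exact fun _ => ⟨y, by simp⟩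
  | coprime a b ha hb hab iha ihb =>
    intro _
    obtain ⟨x1, e1⟩ := iha (by omega)
    obtain ⟨x2, e2⟩ := ihb (by omega)
    obtain ⟨i, j, hij⟩ := Nat.isCoprime_iff_coprime.2 hab
    refine ⟨j • x1 + i • x2, ?_⟩
    rw [smul_add, smul_comm _ j, smul_comm _ i, mul_comm a b, mul_smul, e1, mul_comm b a, mul_smul,
      e2, ← natCast_zsmul, ← natCast_zsmul, smul_smul, smul_smul, ← add_smul, add_comm, hij,
      one_smul]

theorem other {p q : ℕ} (hp : p.Prime) (hq : q.Prime) (hpq : p ≠ q) {y x : A} (hy : y ∈ Ulm A)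
    (e : p • x = y) (k : ℕ) : ∃ w, q ^ k • w = x := by
  obtain ⟨w, hw⟩ := hy (q ^ k) (pow_ne_zero _ hq.ne_zero)
  obtain ⟨i, j, hij⟩ := Nat.isCoprime_iff_coprime.2
    (((Nat.coprime_primes hp hq).2 hpq).pow_right k)
  refine ⟨i • w + j • x, ?_⟩
  rw [smul_add, smul_comm _ i, smul_comm _ j, hw, ← e, ← natCast_zsmul, ← natCast_zsmul, smul_smul,
    smul_smul, ← add_smul, hij, one_smul]

theorem fin_socle {p : ℕ} (hp : p.Prime) (h : Cyc A p) : {w : A | p • w = 0}.Finite := by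
  by_cases h0 : ∃ w : A, w ≠ 0 ∧ p • w = 0
  · obtain ⟨w, w0, hw⟩ := h0
    have : IsOfFinAddOrder w := isOfFinAddOrder_iff_nsmul_eq_zero.2 ⟨p, hp.pos, hw⟩
    refine this.finite_zmultiples.subset ?_
    intro x hx
    obtain ⟨k, rfl⟩ := h w x w0 hw hx
    exact ⟨k, rfl⟩
  · refine (Set.finite_singleton 0).subset ?_
    intro x hx
    by_contra h1
    exact h0 ⟨x, h1, hx⟩

theorem ulm_p (h : RDistrib (AddMonoid.End A)) {p : ℕ} (hp : p.Prime) {y : A} (hy : y ∈ Ulm A) :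
    ∃ x ∈ Ulm A, p • x = y := by
  have key : ∃ x, p • x = y ∧ ∀ k, ∃ w, p ^ k • w = x := by
    rcases dich h hp with h1 | h1
    · obtain ⟨x, hx⟩ := h1 y
      exact ⟨x, hx, fun k => pdiv h1 k x⟩
    · choose w hw using fun k : ℕ => hy (p ^ (k + 1)) (pow_ne_zero _ hp.ne_zero)
      have h2 : ∀ k, p • (p ^ k • w k) = y := fun k => by rw [smul_smul, ← pow_succ', hw]
      haveI := (fin_socle hp h1).to_subtype
      let f : ℕ → {w : A | p • w = 0} := fun k => ⟨p ^ k • w k - p ^ 0 • w 0, by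
        simp only [Set.mem_setOf_eq, smul_sub, h2, sub_self]⟩
      obtain ⟨t, ht⟩ := Finite.exists_infinite_fiber f
      have ht' : (f ⁻¹' {t}).Infinite := Set.infinite_coe_iff.1 ht
      refine ⟨t.1 + p ^ 0 • w 0, by rw [smul_add, t.2, h2, zero_add], fun k => ?_⟩
      obtain ⟨m, hm, hk⟩ := ht'.exists_gt k
      obtain ⟨d, rfl⟩ := Nat.exists_eq_add_of_le hk.le
      refine ⟨p ^ d • w (k + d), ?_⟩
      have : f (k + d) = t := hm
      rw [← this, smul_smul, ← pow_add]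
      simp [f]
  obtain ⟨x, hx, h2⟩ := key
  refine ⟨x, mem_ulm fun q k hq => ?_, hx⟩
  by_cases hpq : p = q
  · exact hpq ▸ h2 k
  · exact other hp hq hpq hy hx k

theorem ulm_div (h : RDistrib (AddMonoid.End A)) (n : ℤ) (hn : n ≠ 0) (y : A) (hy : y ∈ Ulm A) :
    ∃ x ∈ Ulm A, n • x = y := by
  have key : ∀ m : ℕ, m ≠ 0 → ∀ y ∈ Ulm A, ∃ x ∈ Ulm A, m • x = y := by
    intro m
    induction m using Nat.recOnMul with
    | zero => exact fun h => absurd rfl h
    | one => exact fun _ y hy => ⟨y, hy, by simp⟩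
    | prime p hp => exact fun _ y hy => ulm_p h hp hy
    | mul a b iha ihb =>
      intro hab y hy
      obtain ⟨x, hx, rfl⟩ := iha (left_ne_zero_of_mul hab) y hy
      obtain ⟨w, hw, rfl⟩ := ihb (right_ne_zero_of_mul hab) x hx
      exact ⟨w, hw, by rw [mul_smul]⟩
  obtain ⟨x, hx, e⟩ := key n.natAbs (by omega) y hy
  rcases Int.natAbs_eq n with h1 | h1
  · exact ⟨x, hx, by rw [h1, natCast_zsmul, e]⟩
  · exact ⟨-x, neg_mem hx, by rw [h1, neg_smul_neg, natCast_zsmul, e]⟩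

theorem main (h : RDistrib (AddMonoid.End A)) (hc : CentEss (AddMonoid.End A))
    (a b : AddMonoid.End A) : a * b = b * a := by
  by_contra hab
  obtain ⟨c, z, e, hz, z0, zz⟩ := exists_nil hc a b hab
  have h1 : ∀ x, z x ∈ Ulm A := fun x => mem_ulm fun p k hp => z_mem h e hz zz hp k x
  obtain ⟨f, f1, f2⟩ := proj (Ulm A) (ulm_div h)
  have h2 : ∀ x, z (f x) = z x := fun x => by
    have := DFunLike.congr_fun (hz f) x
    exact this.symm.trans (f2 _ (h1 x))
  obtain ⟨g, g1, g2⟩ := proj (AddMonoidHom.range z) (by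
    rintro n hn _ ⟨x, rfl⟩
    obtain ⟨w, -, hw⟩ := ulm_div h n hn _ (f1 x)
    exact ⟨z w, ⟨w, rfl⟩, by rw [← map_zsmul, hw]; exact h2 x⟩)
  apply z0
  ext x
  have h3 : g (z x) = z (g x) := DFunLike.congr_fun (hz g) x
  obtain ⟨w, hw⟩ := g1 x
  have h4 : g (z x) = z x := g2 _ ⟨x, rfl⟩
  have h5 : z w = g x := hw
  rw [h4, ← h5] at h3
  exact h3.trans (DFunLike.congr_fun zz w)

end Pool.Agent.H68.Ce
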