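import Mathlib

set_option autoImplicit false

namespace Pool.Agent.H68.Ce

universe u

/-- centrally essential rings -/
def CentEss (R : Type u) [Ring R] : Prop :=
  ∀ a : R, a ≠ 0 → ∃ x y : R, x ∈ Subring.center R ∧ y ∈ Subring.center R ∧ x ≠ 0 ∧ y ≠ 0 ∧
    a * x = y

/-- the lattice of right ideals is distributive -/
def RDistrib (R : Type u) [Ring R] : Prop :=
  ∀ I J K : Submodule Rᵐᵒᵖ R, I ⊓ (J ⊔ K) = (I ⊓ J) ⊔ (I ⊓ K)

/-- the right ideals are totally ordered -/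
def RUniserial (R : Type u) [Ring R] : Prop :=
  ∀ I J : Submodule Rᵐᵒᵖ R, I ≤ J ∨ J ≤ I

end Pool.Agent.H68.Ce
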