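import Mathlib

set_option autoImplicit false
open scoped Pointwise

namespace Pool.Agent.H68.CentralQI

theorem exists_pow {A : Type} [Group A] (S : Set A) (hS : Subgroup.closure S = ⊤)
    (hinv : ∀ x ∈ S, x⁻¹ ∈ S) (a : A) : ∃ n : ℕ, a ∈ S ^ n := by
  have key : ∀ a : A, a ∈ Subgroup.closure S → (∃ n : ℕ, a ∈ S ^ n) ∧ ∃ n : ℕ, a⁻¹ ∈ S ^ n := by
    intro a ha
    induction ha using Subgroup.closure_induction with
    | mem x hx => exact ⟨⟨1, by simpa using hx⟩, ⟨1, by simpa using hinv x hx⟩⟩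
    | one => exact ⟨⟨0, by simp⟩, ⟨0, by simp⟩⟩
    | mul x y _ _ hx hy =>
      obtain ⟨⟨n, hn⟩, ⟨n', hn'⟩⟩ := hx
      obtain ⟨⟨m, hm⟩, ⟨m', hm'⟩⟩ := hy
      refine ⟨⟨n + m, by rw [pow_add]; exact Set.mul_mem_mul hn hm⟩, ⟨m' + n', ?_⟩⟩
      rw [pow_add, mul_inv_rev]; exact Set.mul_mem_mul hm' hn'
    | inv x _ hx => exact ⟨hx.2, by simpa using hx.1⟩
  exact (key a (by rw [hS]; trivial)).1

theorem inv_mem_pow {A : Type} [Group A] (S : Set A) (hinv : ∀ x ∈ S, x⁻¹ ∈ S) :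
    ∀ (n : ℕ) (a : A), a ∈ S ^ n → a⁻¹ ∈ S ^ n := by
  intro n
  induction n with
  | zero => intro a ha; simp at ha; simp [ha]
  | succ n ih =>
    intro a ha
    rw [pow_succ] at ha
    obtain ⟨x, hx, y, hy, rfl⟩ := ha
    rw [pow_succ', mul_inv_rev]
    exact Set.mul_mem_mul (hinv y hy) (ih x hx)

theorem lip {A B : Type} [Group A] [Group B] (S : Finset A) (T : Set B)
    (hT : Subgroup.closure T = ⊤) (h1 : (1 : B) ∈ T) (hinv : ∀ x ∈ T, x⁻¹ ∈ T) (f : A → B)
    (hf : ∀ a0 : A, {b | ∃ a, b = (f a)⁻¹ * f (a * a0)}.Finite) :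
    ∃ C : ℕ, ∀ (n : ℕ) (p q : A), p⁻¹ * q ∈ (S : Set A) ^ n → (f p)⁻¹ * f q ∈ T ^ (C * n) := by
  have hU : (⋃ a0 ∈ (S : Set A), {b | ∃ a, b = (f a)⁻¹ * f (a * a0)}).Finite :=
    Set.Finite.biUnion S.finite_toSet (fun a0 _ => hf a0)
  choose m hm using exists_pow T hT hinv
  obtain ⟨C, hC⟩ := (hU.image m).bddAbove
  have hC' : ∀ a0 ∈ S, ∀ a, (f a)⁻¹ * f (a * a0) ∈ T ^ C := by
    intro a0 ha0 a
    have : m ((f a)⁻¹ * f (a * a0)) ≤ C :=
      hC ⟨_, Set.mem_biUnion (show a0 ∈ (S : Set A) from ha0) ⟨a, rfl⟩, rfl⟩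
    exact Set.pow_subset_pow_right h1 this (hm _)
  refine ⟨C, fun n => ?_⟩
  induction n with
  | zero =>
    intro p q h
    simp only [pow_zero, Set.mem_one] at h
    have : q = p := by rw [inv_mul_eq_one] at h; exact h.symm
    simp [this]
  | succ n ih =>
    intro p q h
    rw [pow_succ] at h
    obtain ⟨x, hx, y, hy, hxy⟩ := h
    have hq : q = p * x * y := by
      rw [mul_assoc]; simp only at hxy; rw [hxy]; group
    have h2 := ih p (p * x) (by simpa using hx)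
    have h3 := hC' y hy (p * x)
    rw [Nat.mul_succ, pow_add, hq]
    have : (f p)⁻¹ * f (p * x * y) = ((f p)⁻¹ * f (p * x)) * ((f (p * x))⁻¹ * f (p * x * y)) := by
      group
    rw [this]
    exact Set.mul_mem_mul h2 h3

theorem mcshane {Z E : Type} [Group Z] [Group E] (ι : Z →* E) (SZ : Finset Z) (SE : Set E)
    (hE : Subgroup.closure SE = ⊤) (hinv : ∀ x ∈ SE, x⁻¹ ∈ SE) (C : ℕ)
    (hC : ∀ (z : Z) (n : ℕ), ι z ∈ SE ^ n → z ∈ (SZ : Set Z) ^ (C * n + C))
    (lam : Z → ℤ) (hlam : ∀ x y, lam (x * y) = lam x + lam y) :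
    ∃ φ : E → ℤ, (∀ z e, φ (ι z * e) = lam z + φ e) ∧
      ∀ e0, ∃ K : ℤ, ∀ e, |φ (e * e0) - φ e| ≤ K := by
  classical
  have hex := exists_pow SE hE hinv
  let l : E → ℕ := fun e => Nat.find (hex e)
  have l_spec : ∀ e, e ∈ SE ^ l e := fun e => Nat.find_spec (hex e)
  have l_min : ∀ e n, e ∈ SE ^ n → l e ≤ n := fun e n h => Nat.find_min' (hex e) h
  have l_mul : ∀ a b, l (a * b) ≤ l a + l b := fun a b =>
    l_min _ _ (by rw [pow_add]; exact Set.mul_mem_mul (l_spec a) (l_spec b))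
  have l_inv : ∀ a, l a⁻¹ ≤ l a := fun a => l_min _ _ (inv_mem_pow SE hinv _ _ (l_spec a))
  have lam1 : lam 1 = 0 := by have := hlam 1 1; simp at this; exact this
  have lami : ∀ x, lam x⁻¹ = - lam x := by
    intro x; have := hlam x x⁻¹; simp [lam1] at this; omega
  obtain ⟨L, hL⟩ := (SZ.finite_toSet.image (fun z => (lam z).natAbs)).bddAbove
  have hL' : ∀ (m : ℕ) (z : Z), z ∈ (SZ : Set Z) ^ m → (lam z).natAbs ≤ L * m := by
    intro m
    induction m with
    | zero => intro z hz; simp at hz; simp [hz, lam1]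
    | succ m ih =>
      intro z hz
      rw [pow_succ] at hz
      obtain ⟨x, hx, y, hy, rfl⟩ := hz
      have h1 := ih x hx
      have h2 : (lam y).natAbs ≤ L := hL ⟨y, hy, rfl⟩
      simp only
      rw [hlam, Nat.mul_succ]; omega
  set K : ℕ := L * C with hK
  have hb : ∀ z, -((K : ℤ) * l (ι z) + K) ≤ lam z := by
    intro z
    have h1 := hL' _ z (hC z _ (l_spec (ι z)))
    have h2 : L * (C * l (ι z) + C) = K * l (ι z) + K := by rw [hK]; ring
    rw [h2] at h1
    have h3 : ((lam z).natAbs : ℤ) ≤ (K : ℤ) * l (ι z) + K := by exact_mod_cast h1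
    omega
  let F : E → Z → ℤ := fun e z => lam z + (K : ℤ) * l ((ι z)⁻¹ * e)
  have hbdd : ∀ e, BddBelow (Set.range (F e)) := by
    intro e
    refine ⟨-(K : ℤ) - K * l e, ?_⟩
    rintro _ ⟨z, rfl⟩
    have h1 := hb z
    have h2 : l (ι z) ≤ l ((ι z)⁻¹ * e) + l e := by
      have h3 := l_inv (ι z)⁻¹
      have h4 := l_mul ((ι z)⁻¹ * e) e⁻¹
      have h5 := l_inv e
      simp only [inv_inv, mul_inv_cancel_right] at h3 h4
      omega
    have h6 : (K : ℤ) * l (ι z) ≤ K * (l ((ι z)⁻¹ * e) + l e) := by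
      apply mul_le_mul_of_nonneg_left _ (by positivity); exact_mod_cast h2
    simp only [F]
    nlinarith
  let φ : E → ℤ := fun e => ⨅ z, F e z
  have hA : ∀ w e, φ (ι w * e) ≤ lam w + φ e := by
    intro w e
    have : φ (ι w * e) - lam w ≤ φ e := by
      apply le_ciInf
      intro z
      have h1 : φ (ι w * e) ≤ F (ι w * e) (w * z) := ciInf_le (hbdd _) _
      simp only [F, hlam, map_mul, mul_inv_rev] at h1 ⊢
      have : (ι z)⁻¹ * (ι w)⁻¹ * (ι w * e) = (ι z)⁻¹ * e := by group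
      rw [this] at h1
      omega
    omega
  have hB : ∀ e e0, φ (e * e0) ≤ φ e + K * l e0 := by
    intro e e0
    have : φ (e * e0) - K * l e0 ≤ φ e := by
      apply le_ciInf
      intro z
      have h1 : φ (e * e0) ≤ F (e * e0) z := ciInf_le (hbdd _) _
      have h2 := l_mul ((ι z)⁻¹ * e) e0
      have h6 : (K : ℤ) * l ((ι z)⁻¹ * e * e0) ≤ K * (l ((ι z)⁻¹ * e) + l e0) := by
        apply mul_le_mul_of_nonneg_left _ (by positivity); exact_mod_cast h2
      simp only [F, ← mul_assoc] at h1 ⊢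
      nlinarith
    omega
  refine ⟨φ, fun z e => le_antisymm (hA z e) ?_, fun e0 => ⟨K * l e0, fun e => ?_⟩⟩
  · have := hA z⁻¹ (ι z * e)
    rw [lami] at this
    simp only [map_inv, inv_mul_cancel_left] at this
    omega
  · have h1 := hB e e0
    have h2 := hB (e * e0) e0⁻¹
    have h3 : (K : ℤ) * l e0⁻¹ ≤ K * l e0 := by
      apply mul_le_mul_of_nonneg_left _ (by positivity); exact_mod_cast l_inv e0
    simp only [mul_inv_cancel_right] at h2
    rw [abs_le]; constructor <;> omega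

theorem coords (Z : Type) [Group Z] (hc : ∀ x y : Z, x * y = y * x) (SZ : Finset Z)
    (hZ : Subgroup.closure (SZ : Set Z) = ⊤) :
    ∃ (j : Type) (_ : Fintype j) (Λ : Z → j → ℤ), (∀ x y i, Λ (x * y) i = Λ x i + Λ y i) ∧
      Function.Surjective Λ ∧ ∀ K : j → ℤ, {z | ∀ i, |Λ z i| ≤ K i}.Finite := by
  letI : CommGroup Z := { (inferInstance : Group Z) with mul_comm := hc }
  haveI : Group.FG Z := ⟨⟨SZ, hZ⟩⟩
  obtain ⟨ι, j, _, _, p, hp, e, ⟨q⟩⟩ := CommGroup.equiv_free_prod_prod_multiplicative_zmod Z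
  refine ⟨j, inferInstance, fun z i => Multiplicative.toAdd ((q z).1 i), ?_, ?_, ?_⟩
  · intro x y i; simp
  · intro v
    refine ⟨q.symm (fun i => Multiplicative.ofAdd (v i), 1), ?_⟩
    funext i; simp
  · intro K
    haveI : ∀ i, NeZero (p i ^ e i) := fun i => ⟨pow_ne_zero _ (hp i).ne_zero⟩
    have h1 : (Set.pi Set.univ (fun i : j =>
        {x : Multiplicative ℤ | |Multiplicative.toAdd x| ≤ K i})).Finite := by
      apply Set.Finite.pi
      intro i
      apply Set.Finite.of_finite_image (f := Multiplicative.toAdd)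
      · apply (Set.finite_Icc (-K i) (K i)).subset
        rintro _ ⟨x, hx, rfl⟩
        exact abs_le.1 hx
      · exact Multiplicative.toAdd.injective.injOn
    have h2 := h1.prod (Set.finite_univ (α := (i : ι) → Multiplicative (ZMod (p i ^ e i))))
    apply Set.Finite.of_finite_image (f := q) _ q.injective.injOn
    apply h2.subset
    rintro _ ⟨z, hz, rfl⟩
    exact ⟨fun i _ => hz i, trivial⟩

end Pool.Agent.H68.CentralQI
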