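import Pool.Agent.H68.ChDefs

namespace Pool.Agent.H68.Ch

universe u

theorem smul_free {T : Type u} [Monoid T] {n : ℕ} (t : T) (x : Free T n) :
    t • x = ((x.1, t * x.2) : Free T n) := rfl

structure Loc (T : Type u) [Monoid T] (Z : Set T) where
  G : Set T
  E : Set T
  ψ : T → T
  r : T → T
  c : T → T
  fin : G.Finite
  sub : Z ⊆ G
  ψ_mul : ∀ s, ∀ p ∈ G, ψ (s * p) = ψ s * p
  ψ_mem : ∀ s, ψ s ∈ G
  dec : ∀ s, r s * ψ s = s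
  c_mem : ∀ p ∈ G, c p ∈ E
  c_abs : ∀ p ∈ G, ∀ x, c p * (x * p) = x * p
  r_mul : ∀ s, ∀ p ∈ G, r (s * p) * c p = r s * c p
  one_mem : 1 ∈ E
  mul_mem : ∀ e ∈ E, ∀ f ∈ E, e * f ∈ E
  comm : ∀ e ∈ E, ∀ f ∈ E, e * f = f * e
  eg : ∀ e ∈ E, ∀ g ∈ G, e * g ∈ G

theorem isCong_congGen (T : Type u) [Monoid T] {A : Type u} [MulAction T A] (H : Set (A × A)) :
    IsCong T (congGen T H) := by
  refine ⟨⟨fun a σ hσ _ => hσ.1.refl a, fun h σ hσ hH => hσ.1.symm (h σ hσ hH),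
    fun h1 h2 σ hσ hH => hσ.1.trans (h1 σ hσ hH) (h2 σ hσ hH)⟩, ?_⟩
  intro t a b h σ hσ hH
  exact hσ.2 t a b (h σ hσ hH)

theorem tau {T : Type u} [Monoid T] {Z : Set T} (L : Loc T Z) {A : Type u} [MulAction T A]
    {n : ℕ} (φ : Free T n → A) (hφ : ∀ (t : T) (x : Free T n), φ (t • x) = t • φ x)
    (H : Set (Free T n × Free T n)) (hH : ∀ p ∈ H, φ p.1 = φ p.2 ∧ p.1.2 ∈ L.G ∧ p.2.2 ∈ L.G)
    (x y : Free T n) (h : congGen T H x y) :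
    ∃ e ∈ L.E, φ (x.1, L.ψ x.2) = φ (y.1, L.ψ y.2) ∧ e • φ (x.1, L.ψ x.2) = φ (x.1, L.ψ x.2) ∧
      L.r x.2 * e = L.r y.2 * e := by
  let τ : Free T n → Free T n → Prop := fun x y =>
    ∃ e ∈ L.E, φ (x.1, L.ψ x.2) = φ (y.1, L.ψ y.2) ∧ e • φ (x.1, L.ψ x.2) = φ (x.1, L.ψ x.2) ∧
      L.r x.2 * e = L.r y.2 * e
  have hτ : Equivalence τ := by
    refine ⟨fun x => ⟨1, L.one_mem, rfl, one_smul _ _, rfl⟩, ?_, ?_⟩
    · rintro x y ⟨e, he, h1, h2, h3⟩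
      exact ⟨e, he, h1.symm, by rw [← h1]; exact h2, h3.symm⟩
    · rintro x y z ⟨e, he, h1, h2, h3⟩ ⟨f, hf, k1, k2, k3⟩
      refine ⟨e * f, L.mul_mem e he f hf, h1.trans k1, ?_, ?_⟩
      · rw [mul_smul, h1, k2, ← h1, h2]
      · rw [← mul_assoc, h3, mul_assoc, L.comm e he f hf, ← mul_assoc, k3, mul_assoc]
  have key := h (fun x y => ∀ t : T, τ (t • x) (t • y)) ?_ ?_ 1
  · simpa only [one_smul] using key
  · refine ⟨⟨fun x t => hτ.refl _, fun h t => hτ.symm (h t), fun h k t => hτ.trans (h t) (k t)⟩, ?_⟩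
    intro s a b hab t
    rw [← mul_smul, ← mul_smul]; exact hab _
  · rintro ⟨p, q⟩ hpq t
    obtain ⟨h0, hp, hq⟩ := hH _ hpq
    simp only at h0 hp hq
    have e1 : φ (p.1, L.ψ (t * p.2)) = L.ψ t • φ p := by
      rw [L.ψ_mul t _ hp, ← hφ]; rfl
    have e2 : φ (q.1, L.ψ (t * q.2)) = L.ψ t • φ q := by
      rw [L.ψ_mul t _ hq, ← hφ]; rfl
    have a1 : L.c p.2 • L.ψ t • φ p = L.ψ t • φ p := by
      rw [← hφ, ← hφ, smul_free, smul_free, L.c_abs _ hp]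
    have a2 : L.c q.2 • L.ψ t • φ q = L.ψ t • φ q := by
      rw [← hφ, ← hφ, smul_free, smul_free, L.c_abs _ hq]
    refine ⟨L.c p.2 * L.c q.2, L.mul_mem _ (L.c_mem _ hp) _ (L.c_mem _ hq), ?_, ?_, ?_⟩
    · change φ (p.1, L.ψ (t * p.2)) = φ (q.1, L.ψ (t * q.2))
      rw [e1, e2, h0]
    · change _ • φ (p.1, L.ψ (t * p.2)) = φ (p.1, L.ψ (t * p.2))
      rw [e1, mul_smul, h0, a2, ← h0, a1]
    · change L.r (t * p.2) * _ = L.r (t * q.2) * _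
      rw [← mul_assoc, L.r_mul t _ hp, L.comm _ (L.c_mem _ hp) _ (L.c_mem _ hq), ← mul_assoc,
        L.r_mul t _ hq, mul_assoc, mul_assoc, L.comm _ (L.c_mem _ hp) _ (L.c_mem _ hq)]

theorem leftCoherent_of_loc {T : Type u} [Monoid T] (hL : ∀ Z : Set T, Z.Finite → Nonempty (Loc T Z)) :
    LeftCoherent T := by
  intro A _ ⟨n, φ, H, hφ, hs, hH, hk⟩ B ⟨X, hX, hB⟩
  obtain ⟨k, b, hb⟩ : ∃ (k : ℕ) (b : Fin k → A), Set.range b = X := by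
    obtain ⟨k, b, -, hb⟩ := hX.fin_param
    exact ⟨k, b, hb⟩
  choose β hβ using fun i => hs (b i)
  have hZ : ((fun p : Free T n × Free T n => p.1.2) '' H ∪ (fun p : Free T n × Free T n => p.2.2) '' H ∪
      Set.range (fun i => (β i).2)).Finite :=
    ((hH.image _).union (hH.image _)).union (Set.finite_range _)
  obtain ⟨L⟩ := hL _ hZ
  have hβG : ∀ i, (β i).2 ∈ L.G := fun i => L.sub (Or.inr ⟨i, rfl⟩)
  have hH' : ∀ p ∈ H, φ p.1 = φ p.2 ∧ p.1.2 ∈ L.G ∧ p.2.2 ∈ L.G := fun p hp =>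
    ⟨(hk _ _).2 (fun σ _ h => h p hp), L.sub (Or.inl (Or.inl ⟨p, hp, rfl⟩)),
      L.sub (Or.inl (Or.inr ⟨p, hp, rfl⟩))⟩
  have hmem : ∀ (x : Free T k), x.2 • b x.1 ∈ B := fun x =>
    (hB _).2 ⟨b x.1, hb ▸ ⟨x.1, rfl⟩, x.2, rfl⟩
  let θ : Free T k → B := fun x => ⟨x.2 • b x.1, hmem x⟩
  have hθ : ∀ (t : T) (x : Free T k), θ (t • x) = t • θ x := fun t x =>
    Subtype.ext (mul_smul t x.2 (b x.1))
  let K : Set (Free T k × Free T k) := {p | θ p.1 = θ p.2 ∧ p.1.2 ∈ L.G ∧ p.2.2 ∈ L.G}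
  have hK : K.Finite := by
    have h1 : ((Set.univ : Set (Fin k)) ×ˢ L.G).Finite := Set.finite_univ.prod L.fin
    refine (h1.prod h1).subset ?_
    rintro p ⟨-, h2, h3⟩
    exact ⟨⟨trivial, h2⟩, ⟨trivial, h3⟩⟩
  refine ⟨k, θ, K, hθ, ?_, hK, fun x y => ⟨fun hxy => ?_, fun hxy => ?_⟩⟩
  · rintro ⟨a, ha⟩
    obtain ⟨x, hx, t, rfl⟩ := (hB a).1 ha
    rw [← hb] at hx
    obtain ⟨i, rfl⟩ := hx
    exact ⟨(i, t), rfl⟩
  · obtain ⟨i, s⟩ := x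
    obtain ⟨j, t⟩ := y
    have h0 : s • b i = t • b j := congrArg Subtype.val hxy
    have h1 : φ (s • β i) = φ (t • β j) := by rw [hφ, hφ, hβ, hβ, h0]
    obtain ⟨e, he, h2, h3, h4⟩ := tau L φ hφ H hH' _ _ ((hk _ _).1 h1)
    have e1 : φ ((s • β i).1, L.ψ (s • β i).2) = L.ψ s • b i := by
      rw [← hβ, ← hφ]; change φ (_, L.ψ (s * _)) = _; rw [L.ψ_mul s _ (hβG i)]; rfl
    have e2 : φ ((t • β j).1, L.ψ (t • β j).2) = L.ψ t • b j := by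
      rw [← hβ, ← hφ]; change φ (_, L.ψ (t * _)) = _; rw [L.ψ_mul t _ (hβG j)]; rfl
    rw [e1] at h3
    rw [e1, e2] at h2
    have a1 : ∀ (i : Fin k) (s : T), L.c (β i).2 • s • b i = s • b i := fun i s => by
      rw [← hβ, ← hφ, ← hφ, smul_free, smul_free, L.c_abs _ (hβG i)]
    have ci := L.c_mem _ (hβG i)
    have cj := L.c_mem _ (hβG j)
    set f := e * (L.c (β i).2 * L.c (β j).2) with hf
    have hfE : f ∈ L.E := L.mul_mem _ he _ (L.mul_mem _ ci _ cj)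
    have f1 : f • L.ψ s • b i = L.ψ s • b i := by
      rw [hf, mul_smul, mul_smul, h2, a1, ← h2, a1, h3]
    have f2 : L.r s * f = L.r t * f := by
      change L.r (s * (β i).2) * e = L.r (t * (β j).2) * e at h4
      have u1 : f = L.c (β i).2 * (e * L.c (β j).2) := by
        rw [hf, ← mul_assoc, L.comm e he _ ci, mul_assoc]
      have u2 : f = L.c (β j).2 * (e * L.c (β i).2) := by
        rw [hf, L.comm _ ci _ cj, ← mul_assoc, L.comm e he _ cj, mul_assoc]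
      calc L.r s * f = L.r (s * (β i).2) * f := by
            rw [u1, ← mul_assoc, ← L.r_mul s _ (hβG i), mul_assoc]
        _ = L.r (t * (β j).2) * f := by rw [hf, ← mul_assoc, h4, mul_assoc]
        _ = L.r t * f := by rw [u2, ← mul_assoc, L.r_mul t _ (hβG j), mul_assoc]
    intro σ hσ hKσ
    have k1 : σ (i, L.ψ s) (i, f * L.ψ s) :=
      hKσ ((i, L.ψ s), (i, f * L.ψ s)) ⟨Subtype.ext (by
        change L.ψ s • b i = (f * L.ψ s) • b i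
        rw [mul_smul, f1]), L.ψ_mem s, L.eg _ hfE _ (L.ψ_mem s)⟩
    have k2 : σ (i, L.ψ s) (j, L.ψ t) :=
      hKσ ((i, L.ψ s), (j, L.ψ t)) ⟨Subtype.ext h2, L.ψ_mem s, L.ψ_mem t⟩
    have k3 : σ (j, L.ψ t) (j, f * L.ψ t) :=
      hKσ ((j, L.ψ t), (j, f * L.ψ t)) ⟨Subtype.ext (by
        change L.ψ t • b j = (f * L.ψ t) • b j
        rw [mul_smul, ← h2, f1]), L.ψ_mem t, L.eg _ hfE _ (L.ψ_mem t)⟩
    have m1 := hσ.2 (L.r s) _ _ k1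
    have m2 := hσ.2 (L.r s * f) _ _ k2
    have m3 := hσ.2 (L.r t) _ _ k3
    simp only [smul_free] at m1 m2 m3
    rw [L.dec, ← mul_assoc] at m1
    rw [L.dec, ← mul_assoc, ← f2] at m3
    exact hσ.1.trans m1 (hσ.1.trans m2 (hσ.1.symm m3))
  · refine hxy (fun x y => θ x = θ y) ⟨⟨fun _ => rfl, fun h => h.symm, fun h k => h.trans k⟩, ?_⟩
      (fun p hp => hp.1)
    intro t a b h
    rw [hθ, hθ, h]

end Pool.Agent.H68.Ch
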