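import Pool.Agent.H68.Ch1

namespace Pool.Agent.H68.Ch

open MulOpposite

/-- A countably infinite right zero semigroup with an identity adjoined. -/
def RZ : Type := Option ℕ

open Classical in
noncomputable instance : Monoid RZ where
  mul x y := if y = (none : Option ℕ) then x else y
  one := (none : Option ℕ)
  mul_assoc a b c := by
    change (if c = none then (if b = none then a else b) else c) =
      (if (if c = none then b else c) = none then a else (if c = none then b else c))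
    by_cases hc : c = none <;> by_cases hb : b = none <;> simp [hc, hb]
  one_mul a := by
    change (if a = none then none else a) = a
    by_cases h : a = none <;> simp [h]
  mul_one a := if_pos rfl

theorem rz_mul {x y : RZ} (h : y ≠ 1) : x * y = y := if_neg h

instance : Infinite RZ := inferInstanceAs (Infinite (Option ℕ))

def z0 : RZ := (some 0 : Option ℕ)
theorem z0_ne : z0 ≠ 1 := by
  change (some 0 : Option ℕ) ≠ none
  simp

theorem mem_mul (a b : SD RZ) (m : RZ) :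
    m ∈ (a * b).s ↔ m ∈ a.s ∨ (m ∈ b.s ∧ m ≠ 1) ∨ (m = a.m ∧ (1 : RZ) ∈ b.s) := by
  change m ∈ a.s ∪ (fun y => a.m * y) '' b.s ↔ _
  refine or_congr Iff.rfl ⟨?_, ?_⟩
  · rintro ⟨y, hy, rfl⟩
    by_cases h : y = 1
    · subst h; exact Or.inr ⟨mul_one _, hy⟩
    · exact Or.inl ⟨by simpa only [rz_mul h] using hy, by simpa only [rz_mul h] using h⟩
  · rintro (⟨h1, h2⟩ | ⟨h1, h2⟩)
    · exact ⟨m, h1, rz_mul h2⟩
    · exact ⟨1, h2, by simp [h1]⟩

theorem mul_m (a b : SD RZ) : (a * b).m = a.m * b.m := rfl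
theorem one_s : (1 : SD RZ).s = ∅ := rfl
theorem one_m : (1 : SD RZ).m = 1 := rfl

section
variable {D : Type} (δ : RZ → D) (F : Set RZ)

def Sat (W : Set RZ) : Prop := ∀ m m', δ m = δ m' → m ∈ W → m' ∈ W
def inn (W : Set RZ) : Set RZ := {m | ∀ m', δ m = δ m' → m' ∈ W}

theorem sat_inn (W : Set RZ) : Sat δ (inn δ W) := fun _ _ h hm k hk => hm k (h.trans hk)
theorem inn_sub (W : Set RZ) : inn δ W ⊆ W := fun m hm => hm m rfl

theorem sat_fin [Finite D] : {W | Sat δ W}.Finite := by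
  refine (Set.finite_range (fun U : Set D => δ ⁻¹' U)).subset ?_
  intro W hW
  refine ⟨δ '' W, Set.ext fun m => ⟨?_, fun hm => ⟨m, hm, rfl⟩⟩⟩
  rintro ⟨k, hk, h⟩
  exact hW k m h hk

open Classical in
noncomputable def psi (s : SD RZ) : SD RZ := ⟨inn δ s.s, if s.m ∈ F then s.m else z0⟩
open Classical in
noncomputable def rr (s : SD RZ) : SD RZ := ⟨s.s \ inn δ s.s, if s.m ∈ F then 1 else s.m⟩
noncomputable def cc (p : SD RZ) : SD RZ := ⟨p.s \ {1}, 1⟩

variable {δ F}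

theorem inn_F (hF : ∀ f ∈ F, ∀ m, δ f = δ m → m = f) {W : Set RZ} {f : RZ} (hf : f ∈ F) :
    f ∈ inn δ W ↔ f ∈ W :=
  ⟨fun h => h f rfl, fun h m hm => by rw [hF f hf m hm]; exact h⟩

theorem inn_mul (hF : ∀ f ∈ F, ∀ m, δ f = δ m → m = f) (h1 : (1 : RZ) ∈ F) {p : SD RZ}
    (hp : Sat δ p.s) (hm : p.m ∈ F) (s : SD RZ) (m : RZ) :
    m ∈ inn δ (p * s).s ↔ m ∈ p.s ∨ (m ∈ inn δ s.s ∧ m ≠ 1) ∨ (m = p.m ∧ (1 : RZ) ∈ inn δ s.s) := by
  by_cases hmF : m ∈ F
  · rw [inn_F hF hmF, inn_F hF hmF, inn_F hF h1, mem_mul]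
  · have n1 : m ≠ 1 := fun h => hmF (h ▸ h1)
    have n2 : m ≠ p.m := fun h => hmF (h ▸ hm)
    constructor
    · intro h
      by_cases hps : m ∈ p.s
      · exact Or.inl hps
      · refine Or.inr (Or.inl ⟨fun k hk => ?_, n1⟩)
        rcases (mem_mul _ _ _).1 (h k hk) with h2 | h2 | h2
        · exact absurd (hp k m hk.symm h2) hps
        · exact h2.1
        · exact absurd (hF _ hm m (h2.1 ▸ hk.symm)) n2
    · rintro (h | h | h)
      · exact fun k hk => (mem_mul _ _ _).2 (Or.inl (hp m k hk h))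
      · refine fun k hk => (mem_mul _ _ _).2 (Or.inr (Or.inl ⟨h.1 k hk, fun h3 => n1 ?_⟩))
        exact hF _ h1 m (h3 ▸ hk.symm)
      · exact absurd h.1 n2

theorem psi_mul (hF : ∀ f ∈ F, ∀ m, δ f = δ m → m = f) (h1 : (1 : RZ) ∈ F) {p : SD RZ}
    (hp : Sat δ p.s) (hm : p.m ∈ F) (s : SD RZ) : psi δ F (p * s) = p * psi δ F s := by
  refine SD.ext (Set.ext fun m => ?_) ?_
  · rw [mem_mul]; exact inn_mul hF h1 hp hm s m
  · simp only [psi, mul_m]
    by_cases h : s.m = 1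
    · simp [h, hm, h1]
    · by_cases h2 : s.m ∈ F
      · simp [h2, rz_mul h]
      · simp [h2, rz_mul z0_ne, rz_mul h]

theorem dec' (hF : ∀ f ∈ F, ∀ m, δ f = δ m → m = f) (h1 : (1 : RZ) ∈ F) (s : SD RZ) :
    psi δ F s * rr δ F s = s := by
  refine SD.ext (Set.ext fun m => ?_) ?_
  · rw [mem_mul]
    have := inn_F (W := s.s) hF h1
    have h2 := inn_sub δ s.s (a := m)
    simp only [psi, rr, Set.mem_diff]
    by_cases h : m = 1
    · subst h; tauto
    · tauto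
  · simp only [psi, rr, mul_m]
    by_cases h2 : s.m ∈ F
    · simp [h2]
    · have : s.m ≠ 1 := fun h => h2 (h ▸ h1)
      simp [h2, rz_mul this]

theorem c_abs' (p x : SD RZ) : p * x * cc p = p * x := by
  refine SD.ext (Set.ext fun m => ?_) (mul_one _)
  rw [mem_mul, mem_mul]
  simp only [cc, Set.mem_diff, Set.mem_singleton_iff]
  tauto

theorem r_mul' (hF : ∀ f ∈ F, ∀ m, δ f = δ m → m = f) (h1 : (1 : RZ) ∈ F) {p : SD RZ}
    (hp : Sat δ p.s) (hm : p.m ∈ F) (s : SD RZ) : cc p * rr δ F (p * s) = cc p * rr δ F s := by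
  refine SD.ext (Set.ext fun m => ?_) ?_
  · rw [mem_mul, mem_mul]
    have a1 := inn_F (W := s.s) hF h1
    have a2 := inn_F (W := (p * s).s) hF h1
    simp only [cc, rr, Set.mem_diff, Set.mem_singleton_iff, a1, a2]
    by_cases hmF : m ∈ F
    · rw [inn_F hF hmF, inn_F hF hmF]; tauto
    · have n1 : m ≠ 1 := fun h => hmF (h ▸ h1)
      have n2 : m ≠ p.m := fun h => hmF (h ▸ hm)
      rw [inn_mul hF h1 hp hm, mem_mul]; tauto
  · simp only [cc, rr, mul_m, one_mul]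
    by_cases h : s.m = 1
    · simp [h, hm, h1]
    · by_cases h2 : s.m ∈ F <;> simp [h2, rz_mul h]

noncomputable def loc [Finite D] (hF : ∀ f ∈ F, ∀ m, δ f = δ m → m = f) (h1 : (1 : RZ) ∈ F)
    (h0 : z0 ∈ F) (hfin : F.Finite) (Z : Set (SD RZ)ᵐᵒᵖ)
    (hZ : ∀ z ∈ Z, Sat δ z.unop.s ∧ z.unop.m ∈ F) : Loc (SD RZ)ᵐᵒᵖ Z where
  G := {z | Sat δ z.unop.s ∧ z.unop.m ∈ F}
  E := {z | Sat δ z.unop.s ∧ (1 : RZ) ∉ z.unop.s ∧ z.unop.m = 1}
  ψ := fun z => op (psi δ F z.unop)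
  r := fun z => op (rr δ F z.unop)
  c := fun z => op (cc z.unop)
  fin := by
    refine (((sat_fin δ).prod hfin).image (fun q => op (SD.mk q.1 q.2))).subset ?_
    intro z hz
    exact ⟨(z.unop.s, z.unop.m), hz, rfl⟩
  sub := hZ
  ψ_mul := fun s p hp => by
    rw [unop_mul, psi_mul hF h1 hp.1 hp.2]; rfl
  ψ_mem := fun s => ⟨sat_inn δ _, by
    change (psi δ F s.unop).m ∈ F
    simp only [psi]; split_ifs with h
    exacts [h, h0]⟩
  dec := fun s => by rw [← op_mul, dec' hF h1]; rfl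
  c_mem := fun p hp => ⟨fun m m' h hm => ⟨hp.1 m m' h hm.1, fun h2 => hm.2 (hF _ h1 m (by
    rw [Set.mem_singleton_iff] at h2; rw [h, h2]))⟩, fun h => h.2 rfl, rfl⟩
  c_abs := fun p _ x => unop_injective (c_abs' p.unop x.unop)
  r_mul := fun s p hp => unop_injective (r_mul' hF h1 hp.1 hp.2 s.unop)
  one_mem := ⟨fun _ _ _ h => h, fun h => h, rfl⟩
  mul_mem := by
    rintro e ⟨a1, a2, a3⟩ f ⟨b1, b2, b3⟩
    refine ⟨fun m m' h hm => ?_, fun h => ?_, ?_⟩
    · rw [unop_mul, mem_mul] at hm ⊢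
      rcases hm with hm | hm | hm
      · exact Or.inl (b1 _ _ h hm)
      · have := a1 _ _ h hm.1
        exact Or.inr (Or.inl ⟨this, fun h2 => a2 (h2 ▸ this)⟩)
      · exact absurd hm.2 a2
    · rw [unop_mul, mem_mul] at h; tauto
    · rw [unop_mul, mul_m, a3, b3, mul_one]
  comm := by
    rintro e ⟨a1, a2, a3⟩ f ⟨b1, b2, b3⟩
    refine unop_injective (SD.ext (Set.ext fun m => ?_) ?_)
    · rw [unop_mul, unop_mul, mem_mul, mem_mul]
      by_cases h : m = 1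
      · subst h; tauto
      · tauto
    · rw [unop_mul, unop_mul, mul_m, mul_m, a3, b3]
  eg := by
    rintro e ⟨a1, a2, a3⟩ g ⟨b1, b2⟩
    refine ⟨fun m m' h hm => ?_, ?_⟩
    · rw [unop_mul, mem_mul] at hm ⊢
      rcases hm with hm | hm | hm
      · exact Or.inl (b1 _ _ h hm)
      · have := a1 _ _ h hm.1
        exact Or.inr (Or.inl ⟨this, fun h2 => a2 (h2 ▸ this)⟩)
      · exact absurd hm.2 a2
    · rw [unop_mul, mul_m, a3, mul_one]; exact b2

end

theorem rightCoherent : RightCoherent (SD RZ) := by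
  refine leftCoherent_of_loc fun Z hZ => ?_
  let F : Set RZ := insert 1 (insert z0 ((fun z : (SD RZ)ᵐᵒᵖ => z.unop.m) '' Z))
  have hF : F.Finite := ((hZ.image _).insert _).insert _
  haveI := hF.to_subtype
  haveI := hZ.to_subtype
  let δ : RZ → (Z → Prop) × (F → Prop) := fun m => (fun z => m ∈ z.1.unop.s, fun f => m = f.1)
  refine ⟨loc (δ := δ) (F := F) (fun f hf m h => ?_) (Or.inl rfl) (Or.inr (Or.inl rfl)) hF Z
    (fun z hz => ⟨fun m m' h hm => ?_, Or.inr (Or.inr ⟨z, hz, rfl⟩)⟩)⟩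
  · have := congrFun (congrArg Prod.snd h) ⟨f, hf⟩
    exact this.to_iff.1 rfl
  · have := congrFun (congrArg Prod.fst h) ⟨z, hz⟩
    exact this.to_iff.1 hm

theorem not_leftCoherent : ¬ LeftCoherent (SD RZ) := by
  intro h
  let a : SD RZ := ⟨{1}, z0⟩
  let B : SubMulAction (SD RZ) (SD RZ) :=
    { carrier := {x | ∃ t : SD RZ, x = t • a}
      smul_mem' := by
        rintro c x ⟨t, rfl⟩
        exact ⟨c * t, (mul_smul c t a).symm⟩ }
  have hA : FinPres (SD RZ) (SD RZ) := by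
    refine ⟨1, fun x => x.2, ∅, fun t x => rfl, fun s => ⟨(0, s), rfl⟩, Set.finite_empty,
      fun x y => ⟨fun hxy σ hσ _ => ?_, fun hxy => ?_⟩⟩
    · have : x = y := Prod.ext (Subsingleton.elim _ _) hxy
      rw [this]; exact hσ.1.refl y
    · have := hxy Eq ⟨eq_equivalence, fun t a b h => by rw [h]⟩ (by simp)
      rw [this]
  obtain ⟨n, φ, H, hφ, hs, hH, hk⟩ := h (SD RZ) hA B ⟨{a}, Set.finite_singleton a, fun x =>
    ⟨fun ⟨t, ht⟩ => ⟨a, rfl, t, ht⟩, fun ⟨y, hy, t, ht⟩ => ⟨t, by rw [ht, hy]⟩⟩⟩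
  let b : Fin n → SD RZ := fun i => (φ (i, 1)).1
  have hb : ∀ u : Free (SD RZ) n, (φ u).1 = u.2 * b u.1 := fun u => by
    have h1 := hφ u.2 (u.1, 1)
    rw [smul_free, mul_one] at h1
    exact congrArg Subtype.val h1
  have hne : ∀ i, ∃ w, w ∈ (b i).s := fun i => by
    obtain ⟨t, ht⟩ := (φ (i, 1)).2
    refine ⟨t.m, ?_⟩
    change t.m ∈ (φ (i, 1)).1.s
    rw [ht, smul_eq_mul, mem_mul]
    exact Or.inr (Or.inr ⟨rfl, rfl⟩)
  choose w hw using hne
  obtain ⟨u0, hu0⟩ := hs ⟨a, 1, (one_smul _ _).symm⟩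
  let F : Set RZ := insert 1 (Set.range w ∪ ((fun p : Free (SD RZ) n × Free (SD RZ) n => p.1.2.m) '' H ∪
    (fun p : Free (SD RZ) n × Free (SD RZ) n => p.2.2.m) '' H))
  have hF : F.Finite := ((Set.finite_range _).union ((hH.image _).union (hH.image _))).insert _
  obtain ⟨x, hx⟩ := hF.exists_notMem
  obtain ⟨y, hy⟩ := (hF.insert x).exists_notMem
  have hyx : y ≠ x := fun e => hy (Or.inl e)
  have hyF : y ∉ F := fun e => hy (Or.inr e)
  have x1 : x ≠ 1 := fun e => hx (Or.inl e)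
  have y1 : y ≠ 1 := fun e => hyF (Or.inl e)
  have ha0 : u0.2 * b u0.1 = a := by rw [← hb, hu0]
  have sub0 : ∀ m, m ∈ (u0.2 * b u0.1).s → m = 1 := fun m hm => by rw [ha0] at hm; exact hm
  have hm0 : u0.2.m = 1 := by
    by_cases h1 : w u0.1 = 1
    · exact sub0 _ ((mem_mul _ _ _).2 (Or.inr (Or.inr ⟨rfl, h1 ▸ hw u0.1⟩)))
    · exact absurd (sub0 _ ((mem_mul _ _ _).2 (Or.inr (Or.inl ⟨hw u0.1, h1⟩)))) h1
  let P : Free (SD RZ) n → Prop := fun u => (φ u).1.s ⊆ {x, y} ∧ u.2.m = x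
  have step : ∀ p q : Free (SD RZ) n, φ p = φ q → p.2.m ∈ F → q.2.m ∈ F →
      ∀ t : SD RZ, P (t • p) → P (t • q) := by
    intro p q hpq hp hq t ⟨h1, h2⟩
    have h3 : φ (t • p) = φ (t • q) := by rw [hφ, hφ, hpq]
    change t.m * p.2.m = x at h2
    have p1 : p.2.m = 1 := by
      by_contra hc
      rw [rz_mul hc] at h2
      exact hx (h2 ▸ hp)
    rw [p1, mul_one] at h2
    refine ⟨h3 ▸ h1, ?_⟩
    change t.m * q.2.m = x
    by_cases q1 : q.2.m = 1
    · rw [q1, mul_one, h2]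
    · exfalso
      rw [h3, hb] at h1
      have nF : ∀ m ∈ F, m ∉ ({x, y} : Set RZ) := by
        rintro m hm (rfl | rfl)
        exacts [hx hm, hyF hm]
      by_cases w1 : w q.1 = 1
      · refine nF _ hq (h1 ((mem_mul _ _ _).2 (Or.inr (Or.inr ⟨?_, w1 ▸ hw q.1⟩))))
        exact (rz_mul q1).symm
      · exact nF _ (Or.inr (Or.inl ⟨q.1, rfl⟩)) (h1 ((mem_mul _ _ _).2 (Or.inr (Or.inl ⟨hw q.1, w1⟩))))
  let sx : SD RZ := ⟨{x, y}, x⟩
  let sy : SD RZ := ⟨{x, y}, y⟩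
  have e0 : φ (sx • u0) = φ (sy • u0) := by
    rw [hφ, hφ, hu0]
    refine Subtype.ext (SD.ext (Set.ext fun m => ?_) ?_)
    · change m ∈ (sx * a).s ↔ m ∈ (sy * a).s
      rw [mem_mul, mem_mul]
      simp only [sx, sy, a, Set.mem_insert_iff, Set.mem_singleton_iff]
      tauto
    · change x * z0 = y * z0
      rw [rz_mul z0_ne, rz_mul z0_ne]
  have key := (hk _ _).1 e0 (fun u v => φ u = φ v ∧ ∀ t : SD RZ, P (t • u) ↔ P (t • v)) ?_ ?_
  · have k2 := key.2 1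
    rw [one_smul, one_smul] at k2
    have : P (sx • u0) := by
      refine ⟨?_, ?_⟩
      · rw [hφ, hu0]
        intro m hm
        change m ∈ (sx * a).s at hm
        rw [mem_mul] at hm
        simp only [sx, a, Set.mem_insert_iff, Set.mem_singleton_iff] at hm ⊢
        tauto
      · change x * u0.2.m = x
        rw [hm0, mul_one]
    have k3 := (k2.1 this).2
    change y * u0.2.m = x at k3
    rw [hm0, mul_one] at k3
    exact hyx k3
  · refine ⟨⟨fun _ => ⟨rfl, fun _ => Iff.rfl⟩, fun h => ⟨h.1.symm, fun t => (h.2 t).symm⟩,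
      fun h k => ⟨h.1.trans k.1, fun t => (h.2 t).trans (k.2 t)⟩⟩, ?_⟩
    intro t u v huv
    refine ⟨by rw [hφ, hφ, huv.1], fun s => ?_⟩
    rw [← mul_smul, ← mul_smul]; exact huv.2 _
  · intro p hp
    have h0 : φ p.1 = φ p.2 := (hk _ _).2 (fun σ _ h => h p hp)
    have f1 : p.1.2.m ∈ F := Or.inr (Or.inr (Or.inl ⟨p, hp, rfl⟩))
    have f2 : p.2.2.m ∈ F := Or.inr (Or.inr (Or.inr ⟨p, hp, rfl⟩))
    exact ⟨h0, fun t => ⟨step _ _ h0 f1 f2 t, step _ _ h0.symm f2 f1 t⟩⟩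

end Pool.Agent.H68.Ch
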