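import Mathlib

namespace Pool.Agent.H68.Ch

universe u

/-- The free left `T`-act on `n` generators: `n` disjoint copies of `T`. -/
def Free (T : Type u) (n : ℕ) : Type u := Fin n × T

instance (T : Type u) [Monoid T] (n : ℕ) : MulAction T (Free T n) where
  smul t x := (x.1, t * x.2)
  one_smul x := Prod.ext rfl (one_mul x.2)
  mul_smul s t x := Prod.ext rfl (mul_assoc s t x.2)

/-- An act congruence on a left `T`-act. -/
def IsCong (T : Type u) [Monoid T] {A : Type u} [MulAction T A] (σ : A → A → Prop) : Prop :=
  Equivalence σ ∧ ∀ (t : T) (a b : A), σ a b → σ (t • a) (t • b)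

/-- The congruence generated by a set `H` of pairs: the intersection of all act congruences
containing `H`. -/
def congGen (T : Type u) [Monoid T] {A : Type u} [MulAction T A] (H : Set (A × A)) (a b : A) :
    Prop :=
  ∀ σ : A → A → Prop, IsCong T σ → (∀ p ∈ H, σ p.1 p.2) → σ a b

/-- A left `T`-act is finitely presented: it is the image of a finitely generated free act under
an act morphism whose kernel is a finitely generated congruence (so it is isomorphic to `F / ρ`). -/
def FinPres (T : Type u) [Monoid T] (A : Type u) [MulAction T A] : Prop :=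
  ∃ (n : ℕ) (φ : Free T n → A) (H : Set (Free T n × Free T n)),
    (∀ (t : T) (x : Free T n), φ (t • x) = t • φ x) ∧ Function.Surjective φ ∧ H.Finite ∧
      ∀ x y, φ x = φ y ↔ congGen T H x y

/-- A finitely generated subact. -/
def FinGenSub (T : Type u) [Monoid T] {A : Type u} [MulAction T A] (B : SubMulAction T A) : Prop :=
  ∃ X : Set A, X.Finite ∧ ∀ a, a ∈ B ↔ ∃ x ∈ X, ∃ t : T, a = t • x

/-- Left coherent monoid: every finitely generated subact of every finitely presented left act is
finitely presented. -/
def LeftCoherent (T : Type u) [Monoid T] : Prop :=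
  ∀ (A : Type u) [MulAction T A], FinPres T A →
    ∀ B : SubMulAction T A, FinGenSub T B → FinPres T B

/-- Right coherent monoid: right `T`-acts are left acts of the opposite monoid. -/
def RightCoherent (T : Type u) [Monoid T] : Prop := LeftCoherent Tᵐᵒᵖ

/-- The special semidirect product `S(M) = P(M) ⋊ M`. -/
@[ext] structure SD (M : Type u) where
  s : Set M
  m : M

instance (M : Type u) [Monoid M] : Monoid (SD M) where
  mul a b := ⟨a.s ∪ (fun y => a.m * y) '' b.s, a.m * b.m⟩
  one := ⟨∅, 1⟩
  mul_assoc a b c := by
    change SD.mk _ _ = SD.mk _ _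
    congr 1
    · change (a.s ∪ (fun y => a.m * y) '' b.s) ∪ (fun y => (a.m * b.m) * y) '' c.s =
        a.s ∪ (fun y => a.m * y) '' (b.s ∪ (fun y => b.m * y) '' c.s)
      rw [Set.image_union, Set.image_image, Set.union_assoc]
      simp only [mul_assoc]
    · exact mul_assoc _ _ _
  one_mul a := by
    change SD.mk (∅ ∪ (fun y => 1 * y) '' a.s) (1 * a.m) = a
    simp
  mul_one a := by
    change SD.mk (a.s ∪ (fun y => a.m * y) '' ∅) (a.m * 1) = a
    simp

end Pool.Agent.H68.Ch
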