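import Mathlib
import Pool.Agent.H68.Cay2
import Pool.Agent.H68.Amalg

set_option autoImplicit false

namespace Pool.Agent.H68.CoxSep

open Pool.Agent.H68.Cay

abbrev V := ℤ × ℤ × ℤ × ℤ × ℤ

def sf : Fin 4 → V → V
  | 0, (a, b, c, d, e) => (-a, b + a, c, d + a, e + 2 * a)
  | 1, (a, b, c, d, e) => (a + b, -b, c + b, d, e + 2 * b)
  | 2, (a, b, c, d, e) => (a, b + c, -c, d + c, e + 2 * c)
  | 3, (a, b, c, d, e) => (a + d, b, c + d, -d, e + 2 * d)

def tf : V → V
  | (a, b, c, d, e) => (a + e, b + e, c + e, d + e, -e)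

theorem sf_inv (j : Fin 4) : Function.Involutive (sf j) := by
  rintro ⟨a, b, c, d, e⟩
  fin_cases j <;> simp [sf]

theorem tf_inv : Function.Involutive tf := by
  rintro ⟨a, b, c, d, e⟩
  simp [tf]

def σ (j : Fin 4) : Equiv.Perm V := (sf_inv j).toPerm
def θ : Equiv.Perm V := tf_inv.toPerm

@[simp] theorem σ_apply (j : Fin 4) (v : V) : σ j v = sf j v := rfl
@[simp] theorem θ_apply (v : V) : θ v = tf v := rfl

def rels : Set (FreeGroup (Option (Fin 4))) :=
  {w | (∃ u : FreeGroup (Fin 4), FreeGroup.lift σ u = 1 ∧ w = FreeGroup.map some u) ∨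
    w = FreeGroup.of none * FreeGroup.of none ∨
    ∃ i, w = (FreeGroup.of none * FreeGroup.of (some i)) ^ 4}

abbrev G := PresentedGroup rels

def s (i : Fin 4) : G := PresentedGroup.of (some i)
def t : G := PresentedGroup.of none

theorem mk_rel {w : FreeGroup (Option (Fin 4))} (h : w ∈ rels) : PresentedGroup.mk rels w = 1 :=
  PresentedGroup.one_of_mem h

theorem rel_s (u : FreeGroup (Fin 4)) (h : FreeGroup.lift σ u = 1) : FreeGroup.lift s u = 1 := by
  have h1 := mk_rel (Or.inl ⟨u, h, rfl⟩)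
  have : (PresentedGroup.mk rels).comp (FreeGroup.map some) = FreeGroup.lift s := by
    ext i; simp [s]; rfl
  rw [← this]; exact h1

theorem tt : t * t = 1 := mk_rel (Or.inr (Or.inl rfl))
theorem ts (i : Fin 4) : (t * s i) ^ 4 = 1 := by
  have := mk_rel (Or.inr (Or.inr ⟨i, rfl⟩))
  rw [map_pow] at this; exact this

theorem exists_hom {K : Type} [Group K] (f : Fin 4 → K) (g : K)
    (h1 : ∀ u, FreeGroup.lift σ u = 1 → FreeGroup.lift f u = 1) (h2 : g * g = 1)
    (h3 : ∀ i, (g * f i) ^ 4 = 1) : ∃ φ : G →* K, (∀ i, φ (s i) = f i) ∧ φ t = g := by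
  have : ∀ r ∈ rels, FreeGroup.lift (fun o : Option (Fin 4) => o.elim g f) r = 1 := by
    rintro r (⟨u, hu, rfl⟩ | rfl | ⟨i, rfl⟩)
    · have : (FreeGroup.lift (fun o : Option (Fin 4) => o.elim g f)).comp (FreeGroup.map some) =
          FreeGroup.lift f := by ext i; simp
      rw [← h1 u hu, ← this]; rfl
    · simpa using h2
    · simpa using h3 i
  exact ⟨PresentedGroup.toGroup this, fun i => PresentedGroup.toGroup.of this,
    PresentedGroup.toGroup.of this⟩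

theorem ss (i : Fin 4) : s i * s i = 1 := by
  have := rel_s (FreeGroup.of i * FreeGroup.of i) (by
    ext1 v; simpa using sf_inv i v)
  simpa using this

theorem ssn (i j : Fin 4) : (s i * s j) ^ 6 = 1 := by
  have := rel_s ((FreeGroup.of i * FreeGroup.of j) ^ 6) (by
    ext1 ⟨a, b, c, d, e⟩
    fin_cases i <;> fin_cases j <;> simp [pow_succ, sf] <;> ring_nf <;> simp)
  simpa using this

theorem exists_ρ : ∃ ρ : G →* Equiv.Perm V, (∀ i, ρ (s i) = σ i) ∧ ρ t = θ := by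
  apply exists_hom σ θ (fun _ h => h)
  · ext1 v; simpa using tf_inv v
  · intro i
    ext1 ⟨a, b, c, d, e⟩
    fin_cases i <;> simp [pow_succ, sf, tf] <;> ring_nf <;> simp

noncomputable def ρ : G →* Equiv.Perm V := exists_ρ.choose
@[simp] theorem ρ_s (i : Fin 4) : ρ (s i) = σ i := exists_ρ.choose_spec.1 i
@[simp] theorem ρ_t : ρ t = θ := exists_ρ.choose_spec.2

def r (i : Fin 4) : G := s i * t * s i

theorem rr (i : Fin 4) : r i * r i = 1 := by
  have : r i * r i = s i * (t * (s i * s i) * t) * s i := by simp only [r]; group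
  rw [this, ss, mul_one, tt, mul_one, ss]

theorem rt (i : Fin 4) : Commute (r i) t := by
  have h := ts i
  have e1 : t * r i * (t * r i) = 1 := by
    rw [← h]; simp only [r, pow_succ]; group
  have e2 : (t * r i)⁻¹ = t * r i := inv_eq_of_mul_eq_one_right e1
  rw [mul_inv_rev, inv_eq_of_mul_eq_one_right (rr i), inv_eq_of_mul_eq_one_right tt] at e2
  exact e2

def P (v : V) : Fin 4 → ℤ
  | 0 => v.2.2.2.2 + 2 * v.1
  | 1 => v.2.2.2.2 + 2 * v.2.1
  | 2 => v.2.2.2.2 + 2 * v.2.2.1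
  | 3 => v.2.2.2.2 + 2 * v.2.2.2.1

theorem P_r (j i : Fin 4) (v : V) : (i = j → P (ρ (r j) v) i = - P v j) ∧
    (i ≠ j → P (ρ (r j) v) i = P v i + 2 * P v j ∨ P (ρ (r j) v) i = P v i + 4 * P v j) := by
  obtain ⟨a, b, c, d, e⟩ := v
  fin_cases j <;> fin_cases i <;> simp [r, sf, tf, P] <;> omega

theorem pp_aux (a : Fin 4) (w : List (Fin 4)) (hw : (a :: w).IsChain (· ≠ ·)) :
    P (ρ (ev r (a :: w)) (0, 0, 0, 0, 1)) a < 0 ∧ ∀ i, i ≠ a →
      0 < P (ρ (ev r (a :: w)) (0, 0, 0, 0, 1)) i + P (ρ (ev r (a :: w)) (0, 0, 0, 0, 1)) a := by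
  induction w generalizing a with
  | nil =>
    rw [ev_cons, ev_nil, mul_one]
    have h1 : ∀ i, P (0, 0, 0, 0, 1) i = 1 := by intro i; fin_cases i <;> rfl
    have h2 := (P_r a a (0, 0, 0, 0, 1)).1 rfl
    refine ⟨by rw [h2, h1]; norm_num, fun i hi => ?_⟩
    have h3 := (P_r a i (0, 0, 0, 0, 1)).2 hi
    rw [h1, h1] at h3
    rw [h1] at h2
    omega
  | cons b w ih =>
    obtain ⟨h1, h2⟩ := ih b hw.tail
    have hab : a ≠ b := (List.isChain_cons_cons.1 hw).1
    rw [ev_cons, map_mul, Equiv.Perm.mul_apply]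
    generalize ρ (ev r (b :: w)) (0, 0, 0, 0, 1) = v at h1 h2
    have h3 := (P_r a a v).1 rfl
    have h4 := h2 a hab
    refine ⟨by omega, fun i hi => ?_⟩
    have h5 := (P_r a i v).2 hi
    by_cases hib : i = b
    · subst hib; omega
    · have := h2 i hib; omega

theorem pp (w : List (Fin 4)) (hw : w.IsChain (· ≠ ·)) (h : w ≠ []) :
    ev r w ≠ 1 ∧ ev r w ≠ t := by
  cases w with
  | nil => exact absurd rfl h
  | cons a w =>
    have h1 := (pp_aux a w hw).1
    constructor <;> intro e <;> rw [e] at h1 <;> fin_cases a <;> simp [P, tf] at h1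

def H : Subgroup G := Hs rr tt rt

theorem t_mem : t ∈ H := ⟨[], List.isChain_nil, t, Or.inr rfl, by simp [ev_nil]⟩
theorem r_mem (i : Fin 4) : r i ∈ H :=
  ⟨[i], List.isChain_singleton _, 1, Or.inl rfl, by simp [ev]⟩

def τ0 : G := s 0 * s 1 * s 2 * s 3 * s 2 * s 1
def τ1 : G := s 1 * s 0 * s 2 * s 3 * s 0 * s 2
def τ2 : G := s 2 * s 1 * s 0 * s 3 * s 0 * s 1

theorem comm_aux (u v : FreeGroup (Fin 4))
    (h : FreeGroup.lift σ u * FreeGroup.lift σ v = FreeGroup.lift σ v * FreeGroup.lift σ u) :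
    Commute (FreeGroup.lift s u) (FreeGroup.lift s v) := by
  have := rel_s (u * v * (v * u)⁻¹) (by rw [map_mul, map_inv, map_mul, map_mul, h]; simp)
  rw [map_mul, map_inv, map_mul, map_mul, mul_inv_eq_one] at this
  exact this

open FreeGroup in
theorem c01 : Commute τ0 τ1 := by
  have := comm_aux (of 0 * of 1 * of 2 * of 3 * of 2 * of 1) (of 1 * of 0 * of 2 * of 3 * of 0 * of 2)
    (by ext1 ⟨a, b, c, d, e⟩; simp [sf]; ring_nf; simp)
  simpa [τ0, τ1] using this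

open FreeGroup in
theorem c02 : Commute τ0 τ2 := by
  have := comm_aux (of 0 * of 1 * of 2 * of 3 * of 2 * of 1) (of 2 * of 1 * of 0 * of 3 * of 0 * of 1)
    (by ext1 ⟨a, b, c, d, e⟩; simp [sf]; ring_nf; simp)
  simpa [τ0, τ2] using this

open FreeGroup in
theorem c12 : Commute τ1 τ2 := by
  have := comm_aux (of 1 * of 0 * of 2 * of 3 * of 0 * of 2) (of 2 * of 1 * of 0 * of 3 * of 0 * of 1)
    (by ext1 ⟨a, b, c, d, e⟩; simp [sf]; ring_nf; simp)
  simpa [τ1, τ2] using this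

theorem zpow_apply {X : Type} (f : Equiv.Perm X) (Q : ℤ → X → Prop) (x : X) (h0 : Q 0 x)
    (h : ∀ n y, Q n y ↔ Q (n + 1) (f y)) (n : ℤ) : Q n ((f ^ n) x) := by
  induction n with
  | zero => simpa using h0
  | succ n ih => rw [add_comm, zpow_one_add, add_comm]; exact (h _ _).1 ih
  | pred n ih =>
    rw [h, ← Equiv.Perm.mul_apply, ← zpow_one_add]
    simpa using ih

def δ (v : V) : ℤ := v.1 + v.2.1 + v.2.2.1 + v.2.2.2.1

theorem tr (f : Equiv.Perm V) (w : ℤ × ℤ × ℤ × ℤ) (hw : w.1 + w.2.1 + w.2.2.1 + w.2.2.2 = 0)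
    (hf : ∀ v, (f v).1 = v.1 + δ v * w.1 ∧ (f v).2.1 = v.2.1 + δ v * w.2.1 ∧
      (f v).2.2.1 = v.2.2.1 + δ v * w.2.2.1 ∧ (f v).2.2.2.1 = v.2.2.2.1 + δ v * w.2.2.2)
    (v : V) (hv : δ v = 1) (n : ℤ) : δ ((f ^ n) v) = 1 ∧ ((f ^ n) v).1 = v.1 + n * w.1 ∧
      ((f ^ n) v).2.1 = v.2.1 + n * w.2.1 ∧ ((f ^ n) v).2.2.1 = v.2.2.1 + n * w.2.2.1 := by
  refine zpow_apply f (fun n y => δ y = 1 ∧ y.1 = v.1 + n * w.1 ∧ y.2.1 = v.2.1 + n * w.2.1 ∧
    y.2.2.1 = v.2.2.1 + n * w.2.2.1) v (by simp [hv]) ?_ n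
  intro n y
  obtain ⟨h1, h2, h3, h4⟩ := hf y
  have h5 : δ (f y) = δ y := by
    rw [δ, h1, h2, h3, h4]; unfold δ
    linear_combination (y.1 + y.2.1 + y.2.2.1 + y.2.2.2.1) * hw
  rw [h5, h1, h2, h3]
  constructor
  · rintro ⟨a, b, c, d⟩
    rw [a]
    exact ⟨rfl, by linarith, by linarith, by linarith⟩
  · rintro ⟨a, b, c, d⟩
    rw [a] at b c d
    exact ⟨a, by linarith, by linarith, by linarith⟩

def ψ (v : ℤ × ℤ × ℤ) : G := τ0 ^ v.1 * τ1 ^ v.2.1 * τ2 ^ v.2.2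

theorem ψ_add (u v : ℤ × ℤ × ℤ) : ψ (u + v) = ψ u * ψ v := by
  simp only [ψ, Prod.fst_add, Prod.snd_add, zpow_add]
  have e1 := (c01.zpow_zpow v.1 u.2.1).eq
  have e2 := (c02.zpow_zpow v.1 u.2.2).eq
  have e3 := (c12.zpow_zpow v.2.1 u.2.2).eq
  calc _ = τ0 ^ u.1 * (τ0 ^ v.1 * τ1 ^ u.2.1) * (τ1 ^ v.2.1 * τ2 ^ u.2.2) * τ2 ^ v.2.2 := by group
    _ = τ0 ^ u.1 * τ1 ^ u.2.1 * (τ0 ^ v.1 * τ2 ^ u.2.2) * τ1 ^ v.2.1 * τ2 ^ v.2.2 := by
      rw [e1, e3]; group
    _ = _ := by rw [e2]; group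

theorem ψ_inj : Function.Injective ψ := by
  have key : ∀ v : ℤ × ℤ × ℤ, (ρ (ψ v) (1, 0, 0, 0, 0)).1 = 1 - 2 * v.1 + v.2.1 ∧
      (ρ (ψ v) (1, 0, 0, 0, 0)).2.1 = v.1 - 2 * v.2.1 + v.2.2 ∧
      (ρ (ψ v) (1, 0, 0, 0, 0)).2.2.1 = v.2.1 - 2 * v.2.2 := by
    intro v
    simp only [ψ, map_mul, map_zpow, Equiv.Perm.mul_apply]
    obtain ⟨a1, a2, a3, a4⟩ := tr (ρ τ2) (0, 1, -2, 1) (by simp)
      (by rintro ⟨a, b, c, d, e⟩; simp [τ2, sf, δ]; omega) (1, 0, 0, 0, 0) (by simp [δ]) v.2.2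
    obtain ⟨b1, b2, b3, b4⟩ := tr (ρ τ1) (1, -2, 1, 0) (by simp)
      (by rintro ⟨a, b, c, d, e⟩; simp [τ1, sf, δ]; omega) _ a1 v.2.1
    obtain ⟨c1, c2, c3, c4⟩ := tr (ρ τ0) (-2, 1, 0, 1) (by simp)
      (by rintro ⟨a, b, c, d, e⟩; simp [τ0, sf, δ]; omega) _ b1 v.1
    simp only at *
    omega
  rintro ⟨a, b, c⟩ ⟨a', b', c'⟩ h
  have h1 := key (a, b, c)
  have h2 := key (a', b', c')
  rw [h] at h1
  simp only [Prod.mk.injEq] at *
  omega

theorem H_abs (h : G) (hh : h ∈ H) (v : V) : |(ρ h v).2.2.2.2| = |v.2.2.2.2| := by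
  obtain ⟨w, -, e, he, rfl⟩ := hh
  have h1 : ∀ w : List (Fin 4), ∀ v, (ρ (ev r w) v).2.2.2.2 = v.2.2.2.2 := by
    intro w
    induction w with
    | nil => simp [ev_nil]
    | cons a w ih =>
      intro v
      rw [ev_cons, map_mul, Equiv.Perm.mul_apply, ← ih v]
      generalize ρ (ev r w) v = u
      obtain ⟨a', b, c, d, e⟩ := u
      fin_cases a <;> simp [r, sf, tf] <;> ring
  rw [map_mul, Equiv.Perm.mul_apply, h1]
  rcases he with rfl | rfl
  · simp
  · simp [tf]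

theorem τ_pow (n : ℤ) (h : τ0 ^ n ∈ H) : n = 0 := by
  have h1 := H_abs _ h (-1, 1, 0, 0, 0)
  have h2 := zpow_apply (ρ τ0) (fun n y => y = (-1, 1, 0, 0, 8 * n)) (-1, 1, 0, 0, 0) (by simp)
    (by rintro n ⟨a, b, c, d, e⟩; simp [τ0, sf]; omega) n
  rw [map_zpow, h2] at h1
  simpa using h1

abbrev Y := (G ⧸ H) × ZMod 2

def lam : G →* Equiv.Perm Y where
  toFun g := (MulAction.toPerm g).prodCongr (Equiv.refl _)
  map_one' := by ext1 ⟨c, e⟩; simp
  map_mul' g h := by ext1 ⟨c, e⟩; simp [mul_smul]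

theorem lam_apply (g : G) (c : G ⧸ H) (e : ZMod 2) : lam g (c, e) = (g • c, e) := rfl

def o : G ⧸ H := ((1 : G) : G ⧸ H)

theorem smul_o (g : G) : g • o = o ↔ g ∈ H := by
  show ((g * 1 : G) : G ⧸ H) = (1 : G) ↔ _
  rw [QuotientGroup.eq]; simp

open Classical in
noncomputable def ind (c : G ⧸ H) : ZMod 2 := if c = o then 1 else 0

theorem ind_smul (h : G) (hh : h ∈ H) (c : G ⧸ H) : ind (h • c) = ind c := by
  have : h • c = o ↔ c = o := by
    rw [smul_eq_iff_eq_inv_smul, (smul_o _).2 (H.inv_mem hh)]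
  by_cases hc : c = o
  · rw [ind, ind, if_pos hc, if_pos (this.2 hc)]
  · rw [ind, ind, if_neg hc, if_neg (mt this.1 hc)]

theorem two (x : ZMod 2) : x + x = 0 := by revert x; decide

noncomputable def κ : Equiv.Perm Y :=
  Function.Involutive.toPerm (fun y => (y.1, y.2 + ind y.1)) (by
    rintro ⟨c, e⟩; simp [add_assoc, two])

theorem κ_apply (c : G ⧸ H) (e : ZMod 2) : κ (c, e) = (c, e + ind c) := rfl

theorem exists_η : ∃ η : G →* Equiv.Perm Y, (∀ i, η (s i) = lam (s i)) ∧ η t = lam t * κ := by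
  apply exists_hom
  · intro u hu
    have : FreeGroup.lift (fun i => lam (s i)) = lam.comp (FreeGroup.lift s) := by ext1 i; simp
    rw [this, MonoidHom.comp_apply, rel_s u hu, map_one]
  · ext1 ⟨c, e⟩
    simp only [Equiv.Perm.mul_apply, κ_apply, lam_apply, ind_smul t t_mem, smul_smul, tt,
      add_assoc, two, one_smul, add_zero, Equiv.Perm.one_apply]
  · intro i
    ext1 ⟨c, e⟩
    have h1 := ts i
    have h2 : ∀ x : G ⧸ H, ind (s i • t • s i • t • x) = ind x := by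
      intro x
      have := ind_smul (r i * t) (H.mul_mem (r_mem i) t_mem) x
      simpa only [r, mul_smul] using this
    simp only [pow_succ, pow_zero, one_mul] at h1 ⊢
    simp only [Equiv.Perm.mul_apply, κ_apply, lam_apply, h2, Equiv.Perm.one_apply]
    have h3 := congrArg (· • c) h1
    simp only [mul_smul, one_smul] at h3
    rw [h3]
    congr 1
    linear_combination two (ind (s i • c)) + two (ind (s i • t • s i • c))

noncomputable def η : G →* Equiv.Perm Y := exists_η.choose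
theorem η_s (i : Fin 4) : η (s i) = lam (s i) := exists_η.choose_spec.1 i
theorem η_t : η t = lam t * κ := exists_η.choose_spec.2

theorem η_form (g : G) : ∃ k : G ⧸ H → ZMod 2, ∀ c e, η g (c, e) = (g • c, e + k c) := by
  have hg : g ∈ Subgroup.closure (Set.range (PresentedGroup.of (rels := rels))) := by
    rw [PresentedGroup.closure_range_of]; trivial
  induction hg using Subgroup.closure_induction with
  | mem x hx =>
    obtain ⟨_ | i, rfl⟩ := hx
    · exact ⟨ind, fun c e => by rw [show PresentedGroup.of none = t from rfl, η_t]; rfl⟩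
    · exact ⟨0, fun c e => by
        rw [show PresentedGroup.of (some i) = s i from rfl, η_s, lam_apply]; simp⟩
  | one => exact ⟨0, by simp⟩
  | mul x y _ _ h1 h2 =>
    obtain ⟨k, h1⟩ := h1
    obtain ⟨l, h2⟩ := h2
    exact ⟨fun c => l c + k (y • c), fun c e => by
      rw [map_mul, Equiv.Perm.mul_apply, h2, h1, mul_smul, add_assoc]⟩
  | inv x _ h =>
    obtain ⟨k, h⟩ := h
    refine ⟨fun c => - k (x⁻¹ • c), fun c e => ?_⟩
    rw [map_inv, Equiv.Perm.inv_eq_iff_eq, h, smul_inv_smul, neg_add_cancel_right]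

noncomputable def side (g : G) : ZMod 2 := (η g⁻¹ (o, 0)).2

open Classical in
noncomputable def S : Finset G := insert τ0 (Finset.univ.image PresentedGroup.of)

theorem mem_S (g : G) : g ∈ S ↔ g = τ0 ∨ ∃ x, PresentedGroup.of x = g := by simp [S]

theorem S_gen : Subgroup.closure (S : Set G) = ⊤ := by
  rw [eq_top_iff, ← PresentedGroup.closure_range_of rels]
  exact Subgroup.closure_mono fun g hg => (mem_S g).2 (Or.inr hg)

theorem side_mul (g x : G) (hg : g ∉ H) (hx : x ∈ S) : side (g * x) = side g := by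
  obtain ⟨k, hk⟩ := η_form g⁻¹
  simp only [side, mul_inv_rev, map_mul, Equiv.Perm.mul_apply, hk]
  rcases (mem_S x).1 hx with rfl | ⟨_ | i, rfl⟩
  · have : η τ0 = lam τ0 := by simp only [τ0, map_mul, η_s]
    rw [map_inv, this, ← map_inv, lam_apply]
  · rw [show PresentedGroup.of none = t from rfl, inv_eq_of_mul_eq_one_right tt, η_t,
      Equiv.Perm.mul_apply, κ_apply, lam_apply, ind, if_neg, add_zero]
    rw [smul_o]; simpa using hg
  · rw [show PresentedGroup.of (some i) = s i from rfl, inv_eq_of_mul_eq_one_right (ss i), η_s,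
      lam_apply]

theorem side_adj (g h : G) (hg : g ∉ H) (hh : h ∉ H) (e : (cay S).Adj g h) :
    side g = side h := by
  rcases (adj_iff.1 e).2 with e | e
  · simpa using (side_mul g _ hg e).symm
  · simpa using side_mul h _ hh e

theorem side_t (g : G) : side (t * g) ≠ side g := by
  obtain ⟨k, hk⟩ := η_form g⁻¹
  simp only [side, mul_inv_rev, map_mul, Equiv.Perm.mul_apply, inv_eq_of_mul_eq_one_right tt, η_t,
    κ_apply, lam_apply, hk, (smul_o t).2 t_mem, ind, if_true]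
  simp

theorem fin1 (x : Option (Fin 4)) : IsOfFinOrder (PresentedGroup.of x : G) := by
  rw [isOfFinOrder_iff_pow_eq_one]
  refine ⟨2, two_pos, ?_⟩
  rw [pow_two]
  cases x
  · exact tt
  · exact ss _

theorem fin2 (x y : Option (Fin 4)) :
    IsOfFinOrder (PresentedGroup.of x * PresentedGroup.of y : G) := by
  rw [isOfFinOrder_iff_pow_eq_one]
  rcases x with _ | i <;> rcases y with _ | j
  · exact ⟨1, one_pos, by rw [pow_one]; exact tt⟩
  · exact ⟨4, by norm_num, ts j⟩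
  · refine ⟨4, by norm_num, ?_⟩
    show (s i * t) ^ 4 = 1
    rw [← inv_eq_of_mul_eq_one_right tt, ← inv_eq_of_mul_eq_one_right (ss i), ← mul_inv_rev,
      inv_pow, ts, inv_one]
  · exact ⟨6, by norm_num, ssn i j⟩

end Pool.Agent.H68.CoxSep
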