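import Mathlib

set_option autoImplicit false

namespace Pool.Agent.H68.CubeForm

open Subgroup

def cubes (H : Type) [Group H] : Subgroup H := closure (Set.range fun x : H => x ^ 3)

instance (H : Type) [Group H] : (cubes H).Normal := by
  constructor
  intro n hn g
  have : (cubes H).map (MulAut.conj g).toMonoidHom ≤ cubes H := by
    rw [cubes, MonoidHom.map_closure]
    apply Subgroup.closure_mono
    rintro _ ⟨_, ⟨x, rfl⟩, rfl⟩
    exact ⟨g * x * g⁻¹, by simp⟩
  exact this ⟨n, hn, rfl⟩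

theorem map_cubes_le {H K : Type} [Group H] [Group K] (f : H →* K) :
    (cubes H).map f ≤ cubes K := by
  rw [cubes, MonoidHom.map_closure]
  apply Subgroup.closure_mono
  rintro _ ⟨_, ⟨x, rfl⟩, rfl⟩
  exact ⟨f x, by simp⟩

theorem map_cubes {H K : Type} [Group H] [Group K] (f : H →* K) (hf : Function.Surjective f) :
    (cubes H).map f = cubes K := by
  apply le_antisymm (map_cubes_le f)
  rw [cubes, closure_le]
  rintro _ ⟨y, rfl⟩
  obtain ⟨x, rfl⟩ := hf y
  exact ⟨x ^ 3, subset_closure ⟨x, rfl⟩, by simp⟩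

def F (H : Type) [Group H] : Prop := ∃ n, (cubes H).lowerCentralSeries n = ⊥

theorem F_quot (H K : Type) [Group H] [Group K] (f : H →* K) (hf : Function.Surjective f)
    (h : F H) : F K := by
  obtain ⟨n, hn⟩ := h
  exact ⟨n, by rw [← map_cubes f hf, ← map_lowerCentralSeries, hn, Subgroup.map_bot]⟩

theorem lcs_map {H K : Type} [Group H] [Group K] (f : H →* K) (n m : ℕ) (hnm : n ≤ m)
    (hn : (cubes K).lowerCentralSeries n = ⊥) (x : H) (hx : x ∈ (cubes H).lowerCentralSeries m) :
    f x = 1 := by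
  have h1 : f x ∈ ((cubes H).map f).lowerCentralSeries m := by
    rw [← map_lowerCentralSeries]; exact ⟨x, hx, rfl⟩
  have h2 := Subgroup.lowerCentralSeries_antitone _ hnm (lowerCentralSeries_mono m (map_cubes_le f) h1)
  rw [hn] at h2
  exact h2

theorem F_prod (H K₁ K₂ : Type) [Group H] [Group K₁] [Group K₂]
    (f₁ : H →* K₁) (f₂ : H →* K₂) (h1 : F K₁) (h2 : F K₂) : F ↥(f₁.prod f₂).range := by
  obtain ⟨n, hn⟩ := h1
  obtain ⟨m, hm⟩ := h2
  refine ⟨n + m, eq_bot_iff.2 fun x hx => ?_⟩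
  have a1 := lcs_map ((MonoidHom.fst K₁ K₂).comp (f₁.prod f₂).range.subtype) n _ (by omega) hn x hx
  have a2 := lcs_map ((MonoidHom.snd K₁ K₂).comp (f₁.prod f₂).range.subtype) m _ (by omega) hm x hx
  rw [mem_bot]
  exact Subtype.ext (Prod.ext a1 a2)

theorem F_sat (H K : Type) [Group H] [Group K] [Finite H] (f : H →* K)
    (hf : Function.Surjective f) (hker : ∀ M : Subgroup H, IsCoatom M → f.ker ≤ M) (h : F K) :
    F H := by
  have : Finite K := Finite.of_surjective f hf
  have hC : Group.IsNilpotent (cubes K) := (isNilpotent_iff_lowerCentralSeries _).2 h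
  have hfr : f.ker ≤ frattini H := by
    simp only [frattini, Order.radical, le_iInf_iff]
    exact hker
  set M := (cubes K).comap f with hM
  have hMn : Group.IsNilpotent M := by
    have q := (Group.isNilpotent_of_finite_tfae (G := M)).out 0 3
    rw [q]; clear q
    intro p _ Q
    let f' : M →* cubes K := f.subgroupComap (cubes K)
    have hf' : Function.Surjective f' := f.subgroupComap_surjective_of_surjective _ hf
    let Q' := Q.mapSurjective hf'
    have hQ' : (Q' : Subgroup (cubes K)).Characteristic :=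
      Sylow.characteristic_of_normal Q' inferInstance
    set Qm : Subgroup H := (Q : Subgroup M).map M.subtype with hQm
    have hmap : (Q' : Subgroup (cubes K)).map (cubes K).subtype = Qm.map f := by
      rw [Sylow.coe_mapSurjective, map_map, hQm, map_map]; rfl
    have hn : (Qm.map f).Normal := hmap ▸ inferInstance
    set L : Subgroup H := (Qm.map f).comap f with hL
    have hLeq : L = Qm ⊔ f.ker := comap_map_eq f Qm
    have hQL : Qm ≤ L := by rw [hLeq]; exact le_sup_left
    have hLM : L ≤ M := by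
      apply comap_mono; rw [← hmap]; exact map_subtype_le _
    have hp1 : IsPGroup p (Qm.subgroupOf L) :=
      (Q.isPGroup'.map M.subtype).comap_of_injective L.subtype L.subtype_injective
    have hp2 : ¬ p ∣ (Qm.subgroupOf L).index := by
      intro hd
      apply Q.not_dvd_index
      have e1 := relIndex_mul_relIndex Qm L M hQL hLM
      have e2 : Qm.relIndex M = (Q : Subgroup M).index := by
        rw [relIndex, hQm, subgroupOf, comap_map_eq_self_of_injective M.subtype_injective]
      rw [← e2, ← e1]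
      exact Dvd.dvd.mul_right hd _
    have fa := Sylow.normalizer_sup_eq_top (hp1.toSylow hp2)
    rw [IsPGroup.toSylow_coe, subgroupOf_map_subtype, inf_of_le_left hQL] at fa
    have fb : normalizer (Qm : Set H) ⊔ frattini H = ⊤ := by
      rw [eq_top_iff, ← fa, hLeq]
      exact sup_le le_sup_left (sup_le (le_sup_of_le_left le_normalizer) (le_sup_of_le_right hfr))
    exact (normalizer_eq_top_iff.mp (frattini_nongenerating fb)).of_map_subtype
  obtain ⟨n, hn⟩ := (isNilpotent_iff_lowerCentralSeries _).1 hMn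
  refine ⟨n, eq_bot_iff.2 ?_⟩
  rw [← hn]
  apply lowerCentralSeries_mono
  rw [hM, ← map_le_iff_le_comap]
  exact map_cubes_le f

theorem F_of_nilpotent (H : Type) [Group H] (N : Subgroup H) (hN : Group.IsNilpotent N)
    (h : ∀ x : H, x ^ 3 ∈ N) : F H := by
  obtain ⟨n, hn⟩ := (isNilpotent_iff_lowerCentralSeries _).1 hN
  refine ⟨n, eq_bot_iff.2 ?_⟩
  rw [← hn]
  apply lowerCentralSeries_mono
  rw [cubes, closure_le]
  rintro _ ⟨x, rfl⟩
  exact h x

/-- The unitary commutator property. -/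
theorem unitary_comm {G : Type} [Group G] {k : Type} [Field k] [CharP k 2] [Finite k] (n : ℕ) (hn : 0 < n)
    (hcard : Nat.card k = 2 ^ (2 * n))
    (φ : k × k → G)
    (hφ : ∀ x y : k × k,
      x.2 + x.2 ^ (2 ^ n) + x.1 ^ (2 ^ n + 1) = 0 →
      y.2 + y.2 ^ (2 ^ n) + y.1 ^ (2 ^ n + 1) = 0 →
      φ (x.1 + y.1, x.2 + y.2 - x.1 * y.1 ^ (2 ^ n)) = φ x * φ y)
    (x u v : k × k)
    (hx : x.2 + x.2 ^ (2 ^ n) + x.1 ^ (2 ^ n + 1) = 0)
    (hu : u.2 + u.2 ^ (2 ^ n) + u.1 ^ (2 ^ n + 1) = 0)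
    (hv : v.2 + v.2 ^ (2 ^ n) + v.1 ^ (2 ^ n + 1) = 0) :
    (∀ y : k × k,
      y.2 + y.2 ^ (2 ^ n) + y.1 ^ (2 ^ n + 1) = 0 → φ x * φ y = φ y * φ x) ∨
    ∃ y : k × k,
      y.2 + y.2 ^ (2 ^ n) + y.1 ^ (2 ^ n + 1) = 0 ∧
      (φ y * φ x)⁻¹ * (φ x * φ y) = (φ v * φ u)⁻¹ * (φ u * φ v) := by
  set q := 2 ^ n with hq
  have two : (2 : k) = 0 := CharTwo.two_eq_zero
  have hadd : ∀ a b : k, (a + b) ^ q = a ^ q + b ^ q := fun a b => add_pow_char_pow a b 2 n
  have hsub : ∀ a b : k, (a - b) ^ q = a ^ q - b ^ q := fun a b => sub_pow_char_pow a b n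
  have hqq : ∀ a : k, (a ^ q) ^ q = a := by
    intro a
    have := Fintype.ofFinite k
    have h1 := FiniteField.pow_card a
    rw [← Nat.card_eq_fintype_card, hcard] at h1
    rw [← pow_mul, hq, ← pow_add, ← two_mul, h1]
  have hq0 : q ≠ 0 := by positivity
  have hcomm : ∀ a b : k × k, a.2 + a.2 ^ q + a.1 ^ (q + 1) = 0 →
      b.2 + b.2 ^ q + b.1 ^ (q + 1) = 0 →
      (φ b * φ a)⁻¹ * (φ a * φ b) = φ (0, a.1 * b.1 ^ q + b.1 * a.1 ^ q) := by
    intro a b ha hb
    have h1 := hφ (b.1 + a.1, b.2 + a.2 - b.1 * a.1 ^ q) (0, a.1 * b.1 ^ q + b.1 * a.1 ^ q)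
      (by
        simp only [pow_succ, hadd, hsub, mul_pow, hqq] at ha hb ⊢
        linear_combination ha + hb)
      (by
        simp only [pow_succ, hadd, mul_pow, hqq, mul_zero]
        linear_combination (a.1 * b.1 ^ q + b.1 * a.1 ^ q) * two)
    rw [hφ b a hb ha] at h1
    rw [inv_mul_eq_iff_eq_mul, ← h1, ← hφ a b ha hb]
    congr 1
    simp only [zero_pow hq0, Prod.mk.injEq]
    constructor
    · ring
    · linear_combination (-(a.1 * b.1 ^ q)) * two
  by_cases hx0 : x.1 = 0
  · left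
    intro y hy
    rw [← hφ x y hx hy, ← hφ y x hy hx, hx0]
    simp [zero_pow hq0, add_comm]
  · right
    obtain ⟨θ, hθ⟩ : ∃ θ : k, θ + θ ^ q ≠ 0 := by
      by_contra hc
      push Not at hc
      have := Fintype.ofFinite k
      have hq1 : 1 < q := Nat.one_lt_two_pow (by omega)
      have h1 := Polynomial.card_le_degree_of_subset_roots (R := k)
        (p := Polynomial.X ^ q - Polynomial.X) (Z := Finset.univ) (fun a _ => by
          rw [Polynomial.mem_roots (FiniteField.X_pow_card_sub_X_ne_zero k hq1)]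
          simp only [Polynomial.IsRoot, Polynomial.eval_sub, Polynomial.eval_pow, Polynomial.eval_X]
          linear_combination hc a - a * two)
      rw [FiniteField.X_pow_card_sub_X_natDegree_eq k hq1, Finset.card_univ,
        ← Nat.card_eq_fintype_card, hcard, two_mul, pow_add] at h1
      nlinarith
    set a' : k := (u.1 * v.1 ^ q / x.1) ^ q with ha'
    have hτ : (θ + θ ^ q) ^ q = θ + θ ^ q := by rw [hadd, hqq, add_comm]
    have hy : (a' ^ (q + 1) * θ / (θ + θ ^ q)) + (a' ^ (q + 1) * θ / (θ + θ ^ q)) ^ q +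
        a' ^ (q + 1) = 0 := by
      have hc : (a' ^ (q + 1)) ^ q = a' ^ (q + 1) := by rw [pow_succ, mul_pow, hqq, mul_comm]
      rw [div_pow, mul_pow, hτ, hc, ← add_div, ← mul_add, mul_div_cancel_right₀ _ hθ]
      linear_combination (a' ^ (q + 1)) * two
    refine ⟨(a', a' ^ (q + 1) * θ / (θ + θ ^ q)), hy, ?_⟩
    · rw [hcomm x (a', _) hx hy, hcomm u v hu hv]
      congr 2
      simp only [ha', hqq]
      rw [← mul_pow, div_mul_cancel₀ _ hx0, mul_div_cancel₀ _ hx0, mul_pow, hqq]
      ring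

end Pool.Agent.H68.CubeForm
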