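import Pool.Agent.H68.Qp1

namespace Pool.Agent.H68.Dj

open Pool.Agent.H68.Sg Pool.Agent.H68.Qp Relation

variable {B W : Type*} [Group W] {M : CoxeterMatrix B} (cs : CoxeterSystem M W)

/-- right weak order -/
def Le (x z : W) : Prop := cs.length x + cs.length (x⁻¹ * z) = cs.length z

/-- Bruhat order -/
def Br (y z : W) : Prop := ReflTransGen (Step cs) y z

variable {cs}

theorem tri (x z : W) : cs.length z ≤ cs.length x + cs.length (x⁻¹ * z) := by
  have := cs.length_mul_le x (x⁻¹ * z)
  rwa [mul_inv_cancel_left] at this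

theorem Le.refl (x : W) : Le cs x x := by simp [Le]

theorem Le.trans {x y z : W} (h1 : Le cs x y) (h2 : Le cs y z) : Le cs x z := by
  have a := tri (cs := cs) x z
  have b := cs.length_mul_le (x⁻¹ * y) (y⁻¹ * z)
  rw [show x⁻¹ * y * (y⁻¹ * z) = x⁻¹ * z by group] at b
  unfold Le at *; omega

theorem Le.inv_mem {x z t : W} (h : Le cs x z) (ht : cs.length (t * x) < cs.length x) :
    cs.length (t * z) < cs.length z := by
  have b := cs.length_mul_le (t * x) (x⁻¹ * z)
  rw [show t * x * (x⁻¹ * z) = t * z by group] at b
  unfold Le at h; omega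

theorem conj_refl {t : W} (ht : cs.IsReflection t) (x : W) : cs.IsReflection (x⁻¹ * t * x) := by
  have := ht.conj x⁻¹
  rwa [inv_inv] at this

theorem drop {x z t : W} (ht : cs.IsReflection t) (hz : cs.length (t * z) < cs.length z)
    (hx : ¬ cs.length (t * x) < cs.length x) :
    cs.length (x⁻¹ * t * z) < cs.length (x⁻¹ * z) := by
  rw [← N_iff cs ht] at hz hx
  have h := N_mul' cs x (x⁻¹ * z) t
  rw [mul_inv_cancel_left, not_not.1 hx, zero_add] at h
  rw [h, N_iff cs (conj_refl ht x)] at hz
  rwa [show x⁻¹ * t * x * (x⁻¹ * z) = x⁻¹ * t * z by group] at hz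

theorem drop' {x z t : W} (ht : cs.IsReflection t) (hz : ¬ cs.length (t * z) < cs.length z)
    (hx : cs.length (t * x) < cs.length x) :
    cs.length (x⁻¹ * t * z) < cs.length (x⁻¹ * z) := by
  rw [← N_iff cs ht] at hz hx
  have h := N_mul' cs x (x⁻¹ * z) t
  rw [mul_inv_cancel_left, not_not.1 hz, z2 hx] at h
  have h2 : NN cs (x⁻¹ * z) (x⁻¹ * t * x) ≠ 0 := fun h0 => by rw [h0] at h; revert h; decide
  rw [N_iff cs (conj_refl ht x)] at h2
  rwa [show x⁻¹ * t * x * (x⁻¹ * z) = x⁻¹ * t * z by group] at h2

theorem step_s {t w : W} (i : B) (ht : cs.IsReflection t) (hne : t ≠ cs.simple i)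
    (h : cs.length (t * w) < cs.length w) :
    cs.length (cs.simple i * (t * w)) < cs.length (cs.simple i * w) := by
  have := drop (x := cs.simple i) ht h (fun h1 => hne (N_simple cs i ((N_iff cs ht _).2 h1)))
  rwa [cs.inv_simple, mul_assoc] at this

theorem refl_ne {t : W} (ht : cs.IsReflection t) (w : W) :
    cs.length (t * w) < cs.length w ∨ cs.length w < cs.length (t * w) := by
  have := ht.length_mul_left_ne w
  have h2 := ht.length_mul_right_ne w
  omega

theorem s_step (i : B) {w : W} (h : cs.length (cs.simple i * w) < cs.length w) :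
    Step cs (cs.simple i * w) w := ⟨_, cs.isReflection_simple i, rfl, h⟩

theorem s_step' (i : B) {w : W} (h : ¬ cs.length (cs.simple i * w) < cs.length w) :
    Step cs w (cs.simple i * w) :=
  ⟨_, cs.isReflection_simple i, by rw [cs.simple_mul_simple_cancel_left],
    by have := refl_ne (cs.isReflection_simple i) w; omega⟩

open Classical in
noncomputable def lo (cs : CoxeterSystem M W) (i : B) (w : W) : W :=
  if cs.length (cs.simple i * w) < cs.length w then cs.simple i * w else w

open Classical in
noncomputable def hi (cs : CoxeterSystem M W) (i : B) (w : W) : W :=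
  if cs.length (cs.simple i * w) < cs.length w then w else cs.simple i * w

theorem lo_le (i : B) (w : W) : Br cs (lo cs i w) w ∧ Br cs (lo cs i w) (cs.simple i * w) := by
  unfold lo; split_ifs with h
  · exact ⟨.single (s_step i h), .refl⟩
  · exact ⟨.refl, .single (s_step' i h)⟩

theorem le_hi (i : B) (w : W) : Br cs w (hi cs i w) ∧ Br cs (cs.simple i * w) (hi cs i w) := by
  unfold hi; split_ifs with h
  · exact ⟨.refl, .single (s_step i h)⟩
  · exact ⟨.single (s_step' i h), .refl⟩

theorem step_lift (i : B) {y z : W} (h : Step cs y z) :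
    Br cs (lo cs i y) (lo cs i z) ∧ Br cs (hi cs i y) (hi cs i z) := by
  obtain ⟨t, ht, rfl, hl⟩ := h
  by_cases hne : t = cs.simple i
  · subst hne
    have e : cs.simple i * (cs.simple i * z) = z := cs.simple_mul_simple_cancel_left i
    have h2 : ¬ cs.length z < cs.length (cs.simple i * z) := by omega
    unfold lo hi
    rw [e, if_pos hl, if_neg h2, if_pos hl, if_neg h2]
    exact ⟨.refl, .refl⟩
  · have a1 : Step cs (t * z) z := ⟨t, ht, rfl, hl⟩
    have a2 : Step cs (cs.simple i * (t * z)) (cs.simple i * z) := by
      refine ⟨cs.simple i * t * (cs.simple i)⁻¹, ht.conj _, by group, step_s i ht hne hl⟩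
    constructor
    · nth_rewrite 2 [lo]; split_ifs
      · exact (lo_le i _).2.tail a2
      · exact (lo_le i _).1.tail a1
    · nth_rewrite 1 [hi]; split_ifs
      · exact ReflTransGen.head a1 (le_hi i _).1
      · exact ReflTransGen.head a2 (le_hi i _).2

theorem br_lift (i : B) {y z : W} (h : Br cs y z) :
    Br cs (lo cs i y) (lo cs i z) ∧ Br cs (hi cs i y) (hi cs i z) := by
  induction h with
  | refl => exact ⟨.refl, .refl⟩
  | tail _ h ih => exact ⟨ih.1.trans (step_lift i h).1, ih.2.trans (step_lift i h).2⟩

theorem Br.len {y z : W} (h : Br cs y z) : y = z ∨ cs.length y < cs.length z := by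
  induction h with
  | refl => exact Or.inl rfl
  | tail _ h ih =>
    obtain ⟨t, -, e, hl⟩ := h
    rcases ih with rfl | ih
    · exact Or.inr hl
    · exact Or.inr (ih.trans hl)

theorem br_down (i : B) {y z : W} (h : Br cs y z) (hy : cs.length (cs.simple i * y) < cs.length y)
    (hz : cs.length (cs.simple i * z) < cs.length z) : Br cs (cs.simple i * y) (cs.simple i * z) := by
  have := (br_lift i h).1
  rwa [lo, lo, if_pos hy, if_pos hz] at this

theorem br_mid (i : B) {y z : W} (h : Br cs y z) (hz : cs.length (cs.simple i * z) < cs.length z) :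
    Br cs (cs.simple i * y) z := by
  have := (br_lift i h).2
  nth_rewrite 2 [hi] at this
  rw [if_pos hz] at this
  exact (le_hi i y).2.trans this

theorem br_up (i : B) {y z : W} (h : Br cs y z) (hz : ¬ cs.length (cs.simple i * z) < cs.length z) :
    Br cs (cs.simple i * y) (cs.simple i * z) := by
  have := (br_lift i h).2
  nth_rewrite 2 [hi] at this
  rw [if_neg hz] at this
  exact (le_hi i y).2.trans this

theorem peel {g : W} (hg : g ≠ 1) : ∃ i g', g = cs.simple i * g' ∧ cs.length g' + 1 = cs.length g := by
  obtain ⟨i, hi⟩ := cs.exists_leftDescent_of_ne_one hg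
  refine ⟨i, cs.simple i * g, (cs.simple_mul_simple_cancel_left i).symm, ?_⟩
  exact cs.isLeftDescent_iff.1 hi

theorem peel' {g : W} (hg : g ≠ 1) : ∃ i g', g = g' * cs.simple i ∧ cs.length g' + 1 = cs.length g := by
  obtain ⟨i, hi⟩ := cs.exists_rightDescent_of_ne_one hg
  refine ⟨i, g * cs.simple i, (cs.simple_mul_simple_cancel_right i).symm, ?_⟩
  exact cs.isRightDescent_iff.1 hi

theorem sl (i : B) (w : W) : cs.length (cs.simple i * w) ≤ cs.length w + 1 ∧
    cs.length w ≤ cs.length (cs.simple i * w) + 1 := by
  have := cs.length_simple_mul w i; omega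

theorem sr (i : B) (w : W) : cs.length (w * cs.simple i) ≤ cs.length w + 1 ∧
    cs.length w ≤ cs.length (w * cs.simple i) + 1 := by
  have := cs.length_mul_simple w i; omega

theorem br_mul (g : W) {a b : W} (h : Br cs a b)
    (hb : cs.length (g * b) = cs.length g + cs.length b) : Br cs (g * a) (g * b) := by
  induction hn : cs.length g generalizing g with
  | zero => rw [cs.length_eq_zero_iff] at hn; subst hn; simpa using h
  | succ n ih =>
    obtain ⟨i, g', rfl, hl⟩ := peel (cs := cs) (g := g) (by rintro rfl; simp at hn)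
    have a1 := sl (cs := cs) i (g' * b)
    have a2 := cs.length_mul_le g' b
    rw [mul_assoc] at hb
    rw [mul_assoc, mul_assoc]
    exact br_up i (ih g' (by omega) (by omega)) (by omega)

theorem br_cancel (g : W) {a b : W} (h : Br cs (g * a) (g * b))
    (ha : cs.length (g * a) = cs.length g + cs.length a)
    (hb : cs.length (g * b) = cs.length g + cs.length b) : Br cs a b := by
  induction hn : cs.length g generalizing g with
  | zero => rw [cs.length_eq_zero_iff] at hn; subst hn; simpa using h
  | succ n ih =>
    obtain ⟨i, g', rfl, hl⟩ := peel (cs := cs) (g := g) (by rintro rfl; simp at hn)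
    have a1 := sl (cs := cs) i (g' * b)
    have a2 := cs.length_mul_le g' b
    have a3 := sl (cs := cs) i (g' * a)
    have a4 := cs.length_mul_le g' a
    rw [mul_assoc] at ha hb
    rw [mul_assoc, mul_assoc] at h
    have := br_down i h (by rw [cs.simple_mul_simple_cancel_left]; omega)
      (by rw [cs.simple_mul_simple_cancel_left]; omega)
    rw [cs.simple_mul_simple_cancel_left, cs.simple_mul_simple_cancel_left] at this
    exact ih g' this (by omega) (by omega) (by omega)

end Pool.Agent.H68.Dj
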