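import Pool.Agent.H68.Dj1

namespace Pool.Agent.H68.Dj

open Pool.Agent.H68.Sg Pool.Agent.H68.Qp Relation

variable {B W : Type*} [Group W] {M : CoxeterMatrix B} {cs : CoxeterSystem M W}

theorem cover_le {g y : W} {i : B} (hl : cs.length (g * cs.simple i) = cs.length g + 1)
    (hg : Le cs g y) (h : cs.length (cs.simple i * (g⁻¹ * y)) < cs.length (g⁻¹ * y)) :
    Le cs (g * cs.simple i) y := by
  have a := tri (cs := cs) (g * cs.simple i) y
  unfold Le at *
  rw [mul_inv_rev, cs.inv_simple, mul_assoc] at a ⊢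
  omega

theorem label_refl (g : W) (i : B) : cs.IsReflection (g * cs.simple i * g⁻¹) := ⟨g, i, rfl⟩

theorem lemQ {g y γ : W} {i : B} (hl : cs.length (g * cs.simple i) = cs.length g + 1)
    (hγ : cs.IsReflection γ) (hne : γ ≠ g * cs.simple i * g⁻¹)
    (hh : cs.length (γ * (g * cs.simple i)) = cs.length g)
    (hg : Le cs g y) (hy : Le cs (γ * (g * cs.simple i)) y) : Le cs (g * cs.simple i) y := by
  apply cover_le hl hg
  have h1 : cs.length (γ * g) < cs.length g := by
    rw [← N_iff cs hγ]
    have h2 : NN cs (g * cs.simple i) γ ≠ 0 := (N_iff cs hγ _).2 (by omega)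
    rwa [NN_mul_simple, Finsupp.add_apply, Finsupp.single_eq_of_ne hne, add_zero] at h2
  have ht := conj_refl hγ g
  have hts : g⁻¹ * γ * g ≠ cs.simple i := fun h => hne (by rw [← h]; group)
  have a1 := tri (cs := cs) (γ * g) y
  have e1 : (γ * g)⁻¹ * y = g⁻¹ * γ * g * (g⁻¹ * y) := by rw [mul_inv_rev, hγ.inv]; group
  have e2 : (γ * (g * cs.simple i))⁻¹ * y = cs.simple i * (g⁻¹ * γ * g * (g⁻¹ * y)) := by
    rw [mul_inv_rev, mul_inv_rev, hγ.inv, cs.inv_simple]; group
  unfold Le at hg hy
  rw [e1] at a1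
  rw [e2] at hy
  have e3 : g⁻¹ * γ * g * (g⁻¹ * γ * g * (g⁻¹ * y)) = g⁻¹ * y := by
    rw [← mul_assoc, ht.mul_self, one_mul]
  have := step_s (w := g⁻¹ * γ * g * (g⁻¹ * y)) i ht hts (by rw [e3]; omega)
  rw [e3] at this
  omega

theorem lemJ {g y z : W} {i : B} (hl : cs.length (g * cs.simple i) = cs.length g + 1)
    (hz : Le cs (g * cs.simple i) z) (hy : ¬ Le cs (g * cs.simple i) y) (hg : Le cs g y)
    (hmin : ∀ x, Le cs x z → cs.length x ≤ cs.length g → Le cs x y) (p : W) (hp : Le cs p z)
    (hb : cs.length (g * cs.simple i * g⁻¹ * p) < cs.length p) : Le cs (g * cs.simple i) p := by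
  induction hn : cs.length (p⁻¹ * z) generalizing p with
  | zero =>
    rw [cs.length_eq_zero_iff, inv_mul_eq_one] at hn
    rwa [hn]
  | succ n ih =>
    obtain ⟨a, u, e, hu⟩ := peel (cs := cs) (g := p⁻¹ * z) (by intro h; rw [h] at hn; simp at hn)
    have e1 : (p * cs.simple a)⁻¹ * z = u := by
      rw [mul_inv_rev, cs.inv_simple, mul_assoc, e, cs.simple_mul_simple_cancel_left]
    have a1 := tri (cs := cs) (p * cs.simple a) z
    have a2 := sr (cs := cs) a p
    have hp' := hp
    unfold Le at hp'
    rw [e1] at a1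
    have h1 : Le cs (p * cs.simple a) z := by unfold Le; rw [e1]; omega
    have h2 : Le cs p (p * cs.simple a) := by
      unfold Le; rw [inv_mul_cancel_left, cs.length_simple]; omega
    have h3 := ih (p * cs.simple a) h1 (h2.inv_mem hb) (by rw [e1]; omega)
    have hγ := label_refl (cs := cs) p a
    have e2 : p * cs.simple a * p⁻¹ * (p * cs.simple a) = p := by
      rw [show p * cs.simple a * p⁻¹ * (p * cs.simple a) = p * cs.simple a * cs.simple a by group,
        cs.simple_mul_simple_cancel_right]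
    have h3' := h3
    unfold Le at h3'
    by_cases hc : cs.length (p * cs.simple a * p⁻¹ * (g * cs.simple i)) < cs.length (g * cs.simple i)
    · exfalso
      have hne : p * cs.simple a * p⁻¹ ≠ g * cs.simple i * g⁻¹ := fun h => by
        rw [← h, inv_mul_cancel_right] at hb; omega
      have e3 : (p * cs.simple a * p⁻¹ * (g * cs.simple i))⁻¹ * (p * cs.simple a) =
          (g * cs.simple i)⁻¹ * (p * cs.simple a) * cs.simple a := by
        rw [mul_inv_rev, hγ.inv, mul_assoc, e2, mul_assoc, cs.simple_mul_simple_cancel_right]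
      have a3 := tri (cs := cs) (p * cs.simple a * p⁻¹ * (g * cs.simple i)) (p * cs.simple a)
      have a4 := sr (cs := cs) a ((g * cs.simple i)⁻¹ * (p * cs.simple a))
      have h4 : Le cs (p * cs.simple a * p⁻¹ * (g * cs.simple i)) (p * cs.simple a) := by
        unfold Le; rw [e3] at a3 ⊢; omega
      rw [e3] at a3
      exact hy (lemQ hl hγ hne (by omega) hg (hmin _ (h4.trans h1) (by omega)))
    · have h4 := drop (z := p * cs.simple a) hγ (by rw [e2]; omega) hc
      rw [mul_assoc _ _ (p * cs.simple a), e2] at h4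
      have a3 := tri (cs := cs) (g * cs.simple i) p
      unfold Le; omega

theorem lemS {y z p q : W} (hyz : Br cs y z) (hne : y ≠ z) (hp : Le cs p z) (hq : Le cs q z)
    (hpq : ∀ i, cs.length (cs.simple i * p) < cs.length p →
      ¬ cs.length (cs.simple i * q) < cs.length q) :
    ∃ t, cs.IsReflection t ∧ cs.length (t * z) < cs.length z ∧ cs.length y < cs.length (t * y) ∧
      (¬ cs.length (t * p) < cs.length p ∨ ¬ cs.length (t * q) < cs.length q) ∧ Br cs (t * y) z := by
  classical
  have hl : cs.length y < cs.length z := hyz.len.resolve_left hne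
  have hex : ∃ n, ∃ j, Le cs j z ∧ ¬ Le cs j y ∧ cs.length j = n :=
    ⟨_, z, Le.refl z, by unfold Le; omega, rfl⟩
  obtain ⟨j, hjz, hjy, hj⟩ := Nat.find_spec hex
  have hmin : ∀ x, Le cs x z → cs.length x < cs.length j → Le cs x y := fun x h1 h2 => by
    by_contra h3
    have := Nat.find_min' hex ⟨x, h1, h3, rfl⟩
    omega
  have hj1 : j ≠ 1 := by rintro rfl; exact hjy (by simp [Le])
  obtain ⟨i, g, rfl, hg⟩ := peel' (cs := cs) hj1
  have h2 : Le cs g (g * cs.simple i) := by
    unfold Le; rw [inv_mul_cancel_left, cs.length_simple]; omega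
  have hgz := h2.trans hjz
  have hgy := hmin g hgz (by omega)
  have hβ := label_refl (cs := cs) g i
  have e2 : g * cs.simple i * g⁻¹ * (g * cs.simple i) = g := by
    rw [show g * cs.simple i * g⁻¹ * (g * cs.simple i) = g * cs.simple i * cs.simple i by group,
      cs.simple_mul_simple_cancel_right]
  have hβz : cs.length (g * cs.simple i * g⁻¹ * z) < cs.length z := hjz.inv_mem (by rw [e2]; omega)
  have hβg : ¬ cs.length (g * cs.simple i * g⁻¹ * g) < cs.length g := by
    rw [inv_mul_cancel_right]; omega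
  have e3 : ∀ w, g⁻¹ * (g * cs.simple i * g⁻¹) * w = cs.simple i * (g⁻¹ * w) := fun w => by group
  have hβy : ¬ cs.length (g * cs.simple i * g⁻¹ * y) < cs.length y := fun h => by
    have := drop hβ h hβg
    rw [e3] at this
    exact hjy (cover_le hg.symm hgy this)
  refine ⟨_, hβ, hβz, (refl_ne hβ y).resolve_left hβy, ?_, ?_⟩
  · by_contra hc
    rw [not_or, not_not, not_not] at hc
    have b1 := lemJ hg.symm hjz hjy hgy (fun x h1 h2 => hmin x h1 (by omega)) p hp hc.1
    have b2 := lemJ hg.symm hjz hjy hgy (fun x h1 h2 => hmin x h1 (by omega)) q hq hc.2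
    obtain ⟨a, ha⟩ := cs.exists_leftDescent_of_ne_one hj1
    exact hpq a (b1.inv_mem ha) (b2.inv_mem ha)
  · have c1 : Br cs (g⁻¹ * y) (g⁻¹ * z) := by
      apply br_cancel g
      · rwa [mul_inv_cancel_left, mul_inv_cancel_left]
      · rw [mul_inv_cancel_left]; exact hgy.symm
      · rw [mul_inv_cancel_left]; exact hgz.symm
    have c2 := drop hβ hβz hβg
    rw [e3] at c2
    have c3 := br_mul g (br_mid i c1 c2) (by rw [mul_inv_cancel_left]; exact hgz.symm)
    rwa [mul_inv_cancel_left, ← mul_assoc, ← mul_assoc] at c3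

def Reach (cs : CoxeterSystem M W) (u v x : W) : Prop :=
  ∃ (n : ℕ) (f : ℕ → W), f 0 = 1 ∧ f n = x ∧
    ∀ i, i < n → ∃ r : W, cs.IsReflection r ∧
      (cs.length (r * u) < cs.length u ∨ cs.length (r * v) < cs.length v) ∧
      f (i + 1) = r * f i ∧ cs.length (f i) < cs.length (f (i + 1))

theorem Reach.snoc {u v x r : W} (h : Reach cs u v x) (hr : cs.IsReflection r)
    (h1 : cs.length (r * u) < cs.length u ∨ cs.length (r * v) < cs.length v)
    (h2 : cs.length x < cs.length (r * x)) : Reach cs u v (r * x) := by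
  obtain ⟨n, f, f0, rfl, hf⟩ := h
  refine ⟨n + 1, fun k => if k ≤ n then f k else r * f n, by simp [f0], by simp, fun k hk => ?_⟩
  rcases Nat.lt_succ_iff_lt_or_eq.1 hk with hk | rfl
  · simp only [if_pos hk.le, if_pos (Nat.succ_le_of_lt hk)]
    exact hf k hk
  · simp only [if_pos le_rfl, if_neg (Nat.not_succ_le_self k)]
    exact ⟨r, hr, h1, rfl, h2⟩

theorem le_flip {u j : W} (h : Le cs u j) : Le cs (j⁻¹ * u) j⁻¹ := by
  unfold Le at *
  rw [show (j⁻¹ * u)⁻¹ * j⁻¹ = u⁻¹ by group, show j⁻¹ * u = (u⁻¹ * j)⁻¹ by group,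
    cs.length_inv, cs.length_inv, cs.length_inv]
  omega

theorem flip_mem {j w t : W} (ht : cs.IsReflection t) (hz : cs.length (t * j⁻¹) < cs.length j⁻¹)
    (hw : ¬ cs.length (t * w) < cs.length w) :
    cs.length (j * t * j⁻¹ * (j * w)) < cs.length (j * w) := by
  have := drop' (x := j⁻¹) ht hw hz
  rw [inv_inv] at this
  rwa [show j * t * j⁻¹ * (j * w) = j * t * w by group]

theorem reach_of_br {u v j : W} (hu : Le cs u j) (hv : Le cs v j)
    (hj : ∀ w, Le cs u w → Le cs v w → Le cs j w) (y : W) (hy : Br cs y j⁻¹) :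
    Reach cs u v (j * y) := by
  have key : ∀ i w, Le cs w j → cs.length (cs.simple i * (j⁻¹ * w)) < cs.length (j⁻¹ * w) →
      Le cs w (j * cs.simple i) ∧ cs.length (j * cs.simple i) < cs.length j := fun i w h1 h2 => by
    have a := tri (cs := cs) w (j * cs.simple i)
    have a2 := sr (cs := cs) i j
    have e : w⁻¹ * (j * cs.simple i) = (cs.simple i * (j⁻¹ * w))⁻¹ := by
      rw [mul_inv_rev, cs.inv_simple]; group
    have e2 : w⁻¹ * j = (j⁻¹ * w)⁻¹ := by group
    have a3 := sl (cs := cs) i (j⁻¹ * w)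
    unfold Le at *
    rw [e, cs.length_inv] at a ⊢
    rw [e2, cs.length_inv] at h1
    omega
  induction hn : cs.length j⁻¹ - cs.length y using Nat.strong_induction_on generalizing y with
  | _ n ih =>
    by_cases hne : y = j⁻¹
    · subst hne
      exact ⟨0, fun _ => 1, rfl, by simp, fun i hi => absurd hi (Nat.not_lt_zero i)⟩
    · obtain ⟨t, ht, h1, h2, h3, h4⟩ := lemS hy hne (le_flip hu) (le_flip hv) (fun i a b => by
        have c := hj _ (key i u hu a).1 (key i v hv b).1
        have d := (key i u hu a).2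
        unfold Le at c; omega)
      have hl : cs.length (t * y) ≤ cs.length j⁻¹ := by
        rcases h4.len with h | h
        · rw [h]
        · exact h.le
      have h5 := ih _ (by omega) (t * y) h4 rfl
      have hr := ht.conj j
      have h6 := flip_mem (j := j) (w := y) ht h1 (by omega)
      have e : j * t * j⁻¹ * (j * y) = j * (t * y) := by group
      have e2 : j * y = j * t * j⁻¹ * (j * (t * y)) := by
        rw [← e, ← mul_assoc _ _ (j * y), hr.mul_self, one_mul]
      rw [e2]
      refine h5.snoc hr ?_ (by rw [← e2, ← e]; exact h6)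
      rcases h3 with h3 | h3
      · left; have := flip_mem (j := j) ht h1 h3; rwa [mul_inv_cancel_left] at this
      · right; have := flip_mem (j := j) ht h1 h3; rwa [mul_inv_cancel_left] at this

theorem dyer {u v j : W} (hu : Le cs u j) (hv : Le cs v j)
    (hj : ∀ w, Le cs u w → Le cs v w → Le cs j w) {t : W} (ht : cs.IsReflection t) :
    cs.length (t * j) < cs.length j ↔ Reach cs u v t := by
  have e : j⁻¹ * t = (t * j)⁻¹ := by rw [mul_inv_rev, ht.inv]
  constructor
  · intro h
    have := reach_of_br hu hv hj (j⁻¹ * t) (.single ⟨j⁻¹ * t * j, conj_refl ht j, by group, by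
      rw [e, cs.length_inv, cs.length_inv]; exact h⟩)
    rwa [mul_inv_cancel_left] at this
  · rintro ⟨n, f, f0, fn, hf⟩
    have key : ∀ k, k ≤ n → cs.length (j⁻¹ * f k) + k ≤ cs.length j := fun k hk => by
      induction k with
      | zero => simp [f0]
      | succ k ih =>
        obtain ⟨r, hr, h1, h2, h3⟩ := hf k hk
        have h4 : cs.length (r * j) < cs.length j := h1.elim hu.inv_mem hv.inv_mem
        have h5 := drop' (x := j) (z := f k) hr (by rw [← h2]; omega) h4
        rw [mul_assoc, ← h2] at h5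
        have := ih (by omega)
        omega
    have h1 := key n le_rfl
    rw [fn, e, cs.length_inv] at h1
    have hn : n ≠ 0 := by
      rintro rfl
      have := ht.odd_length
      rw [← fn, f0, cs.length_one] at this
      exact absurd this (by decide)
    omega

end Pool.Agent.H68.Dj
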