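import Mathlib
import Pool.Agent.H74.WordPSL

set_option autoImplicit false

namespace Pool.Agent.H68.Ec

open Matrix Polynomial Filter
open Pool.Agent.H74.WordPSL

/-- the coefficient field -/
abbrev KK : Type := AlgebraicClosure (RatFunc ℚ)

/-- two by two matrices -/
abbrev M2 : Type := Matrix (Fin 2) (Fin 2) KK

/-- a representation of determinant one without unipotent elements -/
def Good {H : Type} [Group H] (ρ : H →* M2) : Prop :=
  (∀ h, (ρ h).det = 1) ∧ ∀ h, h ≠ 1 → (ρ h).trace ≠ 2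

theorem good_free (m : ℕ) : ∃ ρ : FreeGroup (Fin m) →* M2, Good ρ := by
  let f : ℚ[X] →+* KK := (algebraMap (RatFunc ℚ) KK).comp (algebraMap ℚ[X] (RatFunc ℚ))
  have hf : Function.Injective f :=
    (algebraMap (RatFunc ℚ) KK).injective.comp (IsFractionRing.injective ℚ[X] (RatFunc ℚ))
  let r : FreeGroup (Fin m) →* Matrix.SpecialLinearGroup (Fin 2) ℚ[X] :=
    FreeGroup.lift (Gs (K := ℚ))
  let ρ : FreeGroup (Fin m) →* M2 :=
    { toFun := fun h => (r h).1.map f
      map_one' := by simp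
      map_mul' := by intro a b; simp [Matrix.map_mul] }
  have hρ : ∀ h, ρ h = (r h).1.map f := fun _ => rfl
  refine ⟨ρ, fun h => ?_, fun w hw => ?_⟩
  · rw [hρ, ← RingHom.mapMatrix_apply, ← RingHom.map_det, (r h).2, map_one]
  · set L := FreeGroup.reduceCyclically w.toWord with hL
    have hwL : ∃ c, c * FreeGroup.mk L * c⁻¹ = w := by
      refine ⟨FreeGroup.mk (FreeGroup.reduceCyclically.conjugator w.toWord), ?_⟩
      rw [FreeGroup.inv_mk, FreeGroup.mul_mk, FreeGroup.mul_mk, hL,
        FreeGroup.reduceCyclically.conj_conjugator_reduceCyclically, FreeGroup.mk_toWord]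
    obtain ⟨c, hc⟩ := hwL
    have hne : L ≠ [] := by
      intro h
      rw [h, ← FreeGroup.one_eq_mk] at hc
      exact hw (by rw [← hc]; simp)
    have hcyc : FreeGroup.IsCyclicallyReduced L :=
      FreeGroup.reduceCyclically.isCyclicallyReduced FreeGroup.isReduced_toWord
    have h1 := trace_nonconst (K := ℚ) L hne hcyc
    have h2 : (ρ w).trace = (ρ (FreeGroup.mk L)).trace := by
      rw [← hc, map_mul, map_mul, Matrix.trace_mul_cycle, ← map_mul, inv_mul_cancel, map_one,
        one_mul]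
    rw [h2, hρ]
    intro e
    apply h1
    have : f (r (FreeGroup.mk L)).1.trace = f 2 := by
      rw [map_ofNat, ← e, trace_fin_two, trace_fin_two, map_add]; rfl
    have := hf this
    change (r (FreeGroup.mk L)).1.trace.natDegree = 0
    rw [this]
    exact natDegree_ofNat 2

variable {H : Type} [Group H]

theorem good_conj {ρ : H →* M2} (hρ : Good ρ) (S : M2) (hS : S.det ≠ 0) :
    ∃ ρ' : H →* M2, Good ρ' ∧ ∀ h, S * ρ' h = ρ h * S := by
  have hu : IsUnit S.det := isUnit_iff_ne_zero.2 hS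
  let ρ' : H →* M2 :=
    { toFun := fun h => S⁻¹ * ρ h * S
      map_one' := by simp [Matrix.nonsing_inv_mul S hu]
      map_mul' := by
        intro a b
        simp only [map_mul, Matrix.mul_assoc]
        rw [Matrix.mul_nonsing_inv_cancel_left S _ hu] }
  have e : ∀ h, ρ' h = S⁻¹ * ρ h * S := fun _ => rfl
  refine ⟨ρ', ⟨fun h => ?_, fun h hh => ?_⟩, fun h => ?_⟩
  · rw [e, det_mul, det_mul, hρ.1, det_nonsing_inv, Ring.inverse_eq_inv']
    field_simp
  · rw [e, Matrix.trace_mul_cycle, Matrix.mul_nonsing_inv S hu, one_mul]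
    exact hρ.2 h hh
  · rw [e, Matrix.mul_assoc, Matrix.mul_nonsing_inv_cancel_left S _ hu]

theorem diag [IsMulTorsionFree H] {ρ : H →* M2} (hρ : Good ρ) (U : H) (hU : U ≠ 1) :
    ∃ ρ' : H →* M2, Good ρ' ∧ ∃ l : KK, l ≠ 0 ∧ ρ' U = !![l, 0; 0, l⁻¹] := by
  have hd := hρ.1 U
  have h2 := hρ.2 U hU
  have h3 : (ρ U).trace ≠ -2 := by
    intro e
    have hU2 : U * U ≠ 1 := by
      intro e2
      exact hU ((pow_eq_one_iff_left two_ne_zero).1 (by rw [pow_two, e2]))
    apply hρ.2 _ hU2
    rw [map_mul]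
    rw [det_fin_two] at hd
    rw [trace_fin_two] at e ⊢
    simp only [mul_apply, Fin.sum_univ_two]
    linear_combination (ρ U 0 0 + ρ U 1 1 - 2) * e - 2 * hd
  obtain ⟨l, hl⟩ := IsAlgClosed.exists_root
    (C (1 : KK) * X ^ 2 + C (-(ρ U).trace) * X + C 1) (by
      rw [degree_quadratic one_ne_zero]; decide)
  simp only [IsRoot.def, eval_add, eval_mul, eval_C, eval_pow, eval_X] at hl
  have l0 : l ≠ 0 := by rintro rfl; simp at hl
  have ht : (ρ U).trace = l + l⁻¹ := by
    field_simp
    linear_combination -hl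
  have hne : l ≠ l⁻¹ := by
    intro e
    have : l * l = 1 := by nth_rw 2 [e]; exact mul_inv_cancel₀ l0
    rcases mul_self_eq_one_iff.1 this with h | h
    · apply h2; rw [ht, h]; norm_num
    · apply h3; rw [ht, h]; norm_num
  have ev : ∀ μ : KK, μ * μ - (ρ U).trace * μ + 1 = 0 →
      ∃ v : Fin 2 → KK, v ≠ 0 ∧ ρ U *ᵥ v = μ • v := by
    intro μ hμ
    have : (ρ U - μ • (1 : M2)).det = 0 := by
      rw [det_fin_two] at hd ⊢
      rw [trace_fin_two] at hμ
      simp
      linear_combination hμ + hd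
    obtain ⟨v, hv, e⟩ := Matrix.exists_mulVec_eq_zero_iff.2 this
    refine ⟨v, hv, ?_⟩
    rw [sub_mulVec, smul_mulVec, one_mulVec, sub_eq_zero] at e
    exact e
  obtain ⟨v, hv, e1⟩ := ev l (by linear_combination hl)
  obtain ⟨w, hw, e2⟩ := ev l⁻¹ (by rw [ht]; field_simp; ring)
  have a0 := congrFun e1 0
  have a1 := congrFun e1 1
  have b0 := congrFun e2 0
  have b1 := congrFun e2 1
  simp only [mulVec, dotProduct, Fin.sum_univ_two, Pi.smul_apply, smul_eq_mul] at a0 a1 b0 b1
  have hS : (!![v 0, w 0; v 1, w 1] : M2).det ≠ 0 := by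
    rw [det_fin_two_of]
    intro e
    have hs : l - l⁻¹ ≠ 0 := sub_ne_zero.2 hne
    have k00 : v 0 * w 0 = 0 := by
      apply mul_left_cancel₀ hs
      linear_combination -w 0 * a0 + v 0 * b0 - ρ U 0 1 * e
    have k11 : v 1 * w 1 = 0 := by
      apply mul_left_cancel₀ hs
      linear_combination -w 1 * a1 + v 1 * b1 + ρ U 1 0 * e
    have k01 : v 0 * w 1 = 0 := by
      apply mul_left_cancel₀ hs
      linear_combination -w 1 * a0 + v 1 * b0 + (ρ U 0 0 - l⁻¹) * e
    have k10 : v 1 * w 0 = 0 := by linear_combination k01 - e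
    apply hv
    by_contra hv'
    apply hw
    ext i
    by_cases h0 : v 0 = 0
    · have h1 : v 1 ≠ 0 := by
        intro h1; apply hv; ext j; fin_cases j <;> simp [h0, h1]
      fin_cases i
      · simpa [h1] using k10
      · simpa [h1] using k11
    · fin_cases i
      · simpa [h0] using k00
      · simpa [h0] using k01
  obtain ⟨ρ', g, e⟩ := good_conj hρ _ hS
  refine ⟨ρ', g, l, l0, ?_⟩
  have hu : IsUnit (!![v 0, w 0; v 1, w 1] : M2) :=
    (Matrix.isUnit_iff_isUnit_det _).2 (isUnit_iff_ne_zero.2 hS)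
  apply hu.mul_left_cancel
  rw [e]
  ext i j
  fin_cases i <;> fin_cases j <;> simp [mul_apply, Fin.sum_univ_two]
  · linear_combination a0
  · linear_combination b0
  · linear_combination a1
  · linear_combination b1

end Pool.Agent.H68.Ec
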