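import Pool.Agent.H68.Ec1

set_option autoImplicit false

namespace Pool.Agent.H68.Ec

open Matrix Polynomial Filter
open Pool.Agent.H74.WordPSL

variable {H : Type} [Group H]

theorem rho_inv {ρ : H →* M2} (hρ : Good ρ) (g : H) :
    ρ g⁻¹ = !![ρ g 1 1, -ρ g 0 1; -ρ g 1 0, ρ g 0 0] := by
  have h1 : ρ g⁻¹ * ρ g = 1 := by rw [← map_mul, inv_mul_cancel, map_one]
  have hd := hρ.1 g
  have h2 : ρ g * !![ρ g 1 1, -ρ g 0 1; -ρ g 1 0, ρ g 0 0] = 1 := by
    rw [det_fin_two] at hd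
    ext i j
    fin_cases i <;> fin_cases j <;> simp [mul_apply, Fin.sum_univ_two]
    · linear_combination hd
    · ring
    · ring
    · linear_combination hd
  calc ρ g⁻¹ = ρ g⁻¹ * (ρ g * !![ρ g 1 1, -ρ g 0 1; -ρ g 1 0, ρ g 0 0]) := by rw [h2, mul_one]
    _ = _ := by rw [← mul_assoc, h1, one_mul]

theorem comm_of_tr {ρ : H →* M2} (hρ : Good ρ) (g h : H)
    (e : (ρ g 0 1 = 0 ∧ ρ h 0 1 = 0) ∨ (ρ g 1 0 = 0 ∧ ρ h 1 0 = 0)) : Commute g h := by
  by_contra hc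
  have : g * h * g⁻¹ * h⁻¹ ≠ 1 := by
    intro e
    apply hc
    rw [mul_inv_eq_one, mul_inv_eq_iff_eq_mul] at e
    exact e
  apply hρ.2 _ this
  have d1 := hρ.1 g
  have d2 := hρ.1 h
  rw [det_fin_two] at d1 d2
  rw [map_mul, map_mul, map_mul, rho_inv hρ, rho_inv hρ, trace_fin_two]
  simp only [mul_apply, Fin.sum_univ_two, of_apply, cons_val', cons_val_zero, cons_val_one,
    cons_val_fin_one]
  rcases e with ⟨e1, e2⟩ | ⟨e1, e2⟩
  · rw [e1] at d1 ⊢
    rw [e2] at d2 ⊢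
    linear_combination (2 * ρ h 0 0 * ρ h 1 1) * d1 + 2 * d2
  · rw [e1] at d1 ⊢
    rw [e2] at d2 ⊢
    linear_combination (2 * ρ h 0 0 * ρ h 1 1) * d1 + 2 * d2

theorem rho_pow {ρ : H →* M2} {U : H} {l : KK} (e : ρ U = !![l, 0; 0, l⁻¹]) (N : ℕ) :
    ρ (U ^ N) = !![l ^ N, 0; 0, (l ^ N)⁻¹] := by
  induction N with
  | zero => simp [one_fin_two]
  | succ N ih =>
    rw [pow_succ, map_mul, ih, e]
    ext i j
    fin_cases i <;> fin_cases j <;> simp [mul_apply, Fin.sum_univ_two, pow_succ, mul_comm]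

theorem pow_ne [IsMulTorsionFree H] {ρ : H →* M2} (hρ : Good ρ) {U : H} (hU : U ≠ 1) {l : KK}
    (e : ρ U = !![l, 0; 0, l⁻¹]) (N : ℕ) (hN : N ≠ 0) : l ^ N ≠ 1 := by
  intro h
  apply hρ.2 (U ^ N) (fun e => hU ((pow_eq_one_iff_left hN).1 e))
  rw [rho_pow e, h, trace_fin_two]
  simp
  norm_num

/-- commutation is transitive on nontrivial elements -/
theorem comm_trans [IsMulTorsionFree H] {ρ : H →* M2} (hρ : Good ρ) {U g h : H} (hU : U ≠ 1)
    (h1 : Commute g U) (h2 : Commute h U) : Commute g h := by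
  obtain ⟨ρ, hρ, l, l0, e⟩ := diag hρ U hU
  have hl := pow_ne hρ hU e 2 two_ne_zero
  have key : ∀ g : H, Commute g U → ρ g 0 1 = 0 := by
    intro g hg
    have := congrArg ρ hg.eq
    rw [map_mul, map_mul, e] at this
    have := congrFun (congrFun this 0) 1
    simp [mul_apply, Fin.sum_univ_two] at this
    have h3 : ρ g 0 1 * (l ^ 2 - 1) = 0 := by
      field_simp at this
      linear_combination -this
    rcases mul_eq_zero.1 h3 with h | h
    · exact h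
    · exact absurd (sub_eq_zero.1 h) hl
  exact comm_of_tr hρ g h (Or.inl ⟨key g h1, key h h2⟩)

/-- alternating products -/
def core (T : H) : H → List (H × H) → H
  | h, [] => T * h * T⁻¹
  | h, p :: L => T * h * T⁻¹ * p.1 * core T p.2 L

theorem conj_lead {ρ : H →* M2} (hρ : Good ρ) {U : H} {l : KK} (l0 : l ≠ 0)
    (e : ρ U = !![l, 0; 0, l⁻¹]) (h : H) :
    ∃ W : Matrix (Fin 2) (Fin 2) KK[X], Lead 2 W !![0, ρ h 0 1; 0, 0] ∧
      ∀ N : ℕ, W.map (eval ((l ^ N) ^ 2)) = ((l ^ N) ^ 2) • ρ (U ^ N * h * (U ^ N)⁻¹) := by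
  refine ⟨!![C (ρ h 0 0) * X, C (ρ h 0 1) * X ^ 2; C (ρ h 1 0), C (ρ h 1 1) * X], ?_, ?_⟩
  · intro i j
    fin_cases i <;> fin_cases j <;> refine ⟨?_, ?_⟩ <;> simp [coeff_X, coeff_C] <;> compute_degree <;>
      omega
  · intro N
    have hN : l ^ N ≠ 0 := pow_ne_zero _ l0
    rw [map_mul, map_mul, rho_inv hρ, rho_pow e]
    ext i j
    fin_cases i <;> fin_cases j <;> simp [mul_apply, Fin.sum_univ_two, vecMul, dotProduct] <;>
      field_simp

theorem lead_const (M : M2) : Lead 0 (M.map C) M := by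
  intro i j
  simp

theorem core_lead {ρ : H →* M2} (hρ : Good ρ) {U : H} {l : KK} (l0 : l ≠ 0)
    (e : ρ U = !![l, 0; 0, l⁻¹]) (L : List (H × H)) (h : H) (hh : ¬ Commute h U)
    (hL : ∀ p ∈ L, ¬ Commute p.1 U ∧ ¬ Commute p.2 U) :
    ∃ k : ℕ, k ≠ 0 ∧ ∃ c : KK, c ≠ 0 ∧ ∃ W : Matrix (Fin 2) (Fin 2) KK[X],
      Lead (2 * k) W !![0, c; 0, 0] ∧
      ∀ N : ℕ, W.map (eval ((l ^ N) ^ 2)) = ((l ^ N) ^ 2) ^ k • ρ (core (U ^ N) h L) := by
  have n01 : ∀ g : H, ¬ Commute g U → ρ g 0 1 ≠ 0 := fun g hg h0 =>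
    hg (comm_of_tr hρ g U (Or.inl ⟨h0, by simp [e]⟩))
  have n10 : ∀ g : H, ¬ Commute g U → ρ g 1 0 ≠ 0 := fun g hg h0 =>
    hg (comm_of_tr hρ g U (Or.inr ⟨h0, by simp [e]⟩))
  induction L generalizing h with
  | nil =>
    obtain ⟨W, h1, h2⟩ := conj_lead hρ l0 e h
    exact ⟨1, one_ne_zero, _, n01 h hh, W, h1, fun N => by rw [h2, pow_one]; rfl⟩
  | cons p L ih =>
    obtain ⟨W, h1, h2⟩ := conj_lead hρ l0 e h
    obtain ⟨k, hk, c, hc, W', h3, h4⟩ := ih p.2 (hL p (by simp)).2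
      (fun q hq => hL q (by simp [hq]))
    refine ⟨k + 1, by omega, ρ h 0 1 * ρ p.1 1 0 * c,
      mul_ne_zero (mul_ne_zero (n01 h hh) (n10 _ (hL p (by simp)).1)) hc,
      W * (ρ p.1).map C * W', ?_, fun N => ?_⟩
    · have := (h1.mul (lead_const (ρ p.1))).mul h3
      rw [show 2 + 0 + 2 * k = 2 * (k + 1) by ring] at this
      convert this using 1
      ext i j
      fin_cases i <;> fin_cases j <;> simp [mul_apply, Fin.sum_univ_two, vecMul, dotProduct]
    · have m : ∀ A B : Matrix (Fin 2) (Fin 2) KK[X], (A * B).map (eval ((l ^ N) ^ 2)) =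
          A.map (eval ((l ^ N) ^ 2)) * B.map (eval ((l ^ N) ^ 2)) := fun A B =>
        Matrix.map_mul (f := evalRingHom ((l ^ N) ^ 2))
      have m2 : ((ρ p.1).map C).map (eval ((l ^ N) ^ 2)) = ρ p.1 := by
        ext i j; simp
      rw [m, m, h2, h4, m2, core, map_mul ρ _ (core _ _ _), map_mul ρ _ p.1]
      simp only [Matrix.smul_mul, Matrix.mul_smul, smul_smul, pow_succ]

/-- big powers -/
theorem big [IsMulTorsionFree H] {ρ : H →* M2} (hρ : Good ρ) {U : H} (L : List (H × H)) (h : H)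
    (hh : ¬ Commute h U) (hL : ∀ p ∈ L, ¬ Commute p.1 U ∧ ¬ Commute p.2 U) (z : H) :
    ∀ᶠ N : ℕ in atTop, core (U ^ N) h L ≠ z := by
  classical
  have hU : U ≠ 1 := by rintro rfl; exact hh (Commute.one_right _)
  obtain ⟨ρ, hρ, l, l0, e⟩ := diag hρ U hU
  obtain ⟨k, hk, c, hc, W, h1, h2⟩ := core_lead hρ l0 e L h hh hL
  let p : KK[X] := W 0 1 - C (ρ z 0 1) * X ^ k
  have hp : p ≠ 0 := by
    intro h0
    have : p.coeff (2 * k) = c := by
      simp only [p, coeff_sub, (h1 0 1).2, coeff_C_mul, coeff_X_pow]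
      rw [if_neg (by omega)]
      simp
    rw [h0] at this
    exact hc (by simpa using this.symm)
  have hinj : Function.Injective fun N : ℕ => (l ^ N) ^ 2 := by
    have : ∀ a b : ℕ, a < b → (l ^ a) ^ 2 ≠ (l ^ b) ^ 2 := by
      intro a b hab h
      obtain ⟨d, rfl⟩ := Nat.exists_eq_add_of_lt hab
      apply pow_ne hρ hU e ((d + 1) * 2) (by omega)
      have h0 : (l ^ a) ^ 2 ≠ 0 := pow_ne_zero _ (pow_ne_zero _ l0)
      apply mul_left_cancel₀ h0
      rw [mul_one]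
      nth_rw 2 [h]
      ring
    intro a b hab
    rcases lt_trichotomy a b with h | h | h
    · exact absurd hab (this a b h)
    · exact h
    · exact absurd hab.symm (this b a h)
  rw [← Nat.cofinite_eq_atTop, Filter.eventually_cofinite]
  refine ((p.roots.toFinset.finite_toSet).preimage hinj.injOn).subset ?_
  intro N hN
  simp only [Set.mem_setOf_eq, not_not] at hN
  simp only [Set.mem_preimage, Finset.mem_coe, Multiset.mem_toFinset, mem_roots hp, IsRoot.def]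
  have := congrFun (congrFun (h2 N) 0) 1
  rw [hN] at this
  simp only [map_apply, Matrix.smul_apply, smul_eq_mul] at this
  simp only [p, eval_sub, eval_mul, eval_C, eval_pow, eval_X, this]
  ring

end Pool.Agent.H68.Ec
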