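import Pool.Agent.H68.Ec2

set_option autoImplicit false

namespace Pool.Agent.H68.Ec

open Filter

variable {A B F H : Type} [Group A] [Group B] [Group F] [Group H]

/-- alternating products in an amalgam -/
def coreF (α : A →* F) (β : B →* F) : B → List (A × B) → F
  | h, [] => β h
  | h, p :: L => β h * α p.1 * coreF α β p.2 L

theorem coreF_mul (α : A →* F) (β : B →* F) (h h' : B) (L : List (A × B)) :
    β h * coreF α β h' L = coreF α β (h * h') L := by
  cases L <;> simp [coreF, mul_assoc]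

/-- normal form -/
def NF (α : A →* F) (β : B →* F) (CA : Subgroup A) (CB : Subgroup B) (W : F) : Prop :=
  (∃ g, W = α g) ∨ ∃ g0 h0 L g1, h0 ∉ CB ∧ (∀ p ∈ L, p.1 ∉ CA ∧ p.2 ∉ CB) ∧
    W = α g0 * coreF α β h0 L * α g1

theorem nf_all (α : A →* F) (β : B →* F) (CA : Subgroup A) (CB : Subgroup B)
    (h1 : ∀ c ∈ CA, ∃ d, α c = β d) (h2 : ∀ d ∈ CB, ∃ c, α c = β d)
    (hg : α.range ⊔ β.range = ⊤) (W : F) : NF α β CA CB W := by
  have hA : ∀ g W, NF α β CA CB W → NF α β CA CB (α g * W) := by
    rintro g W (⟨g', rfl⟩ | ⟨g0, h0, L, g1, a, b, rfl⟩)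
    · exact Or.inl ⟨g * g', by simp⟩
    · exact Or.inr ⟨g * g0, h0, L, g1, a, b, by simp [mul_assoc]⟩
  have hB : ∀ h W, NF α β CA CB W → NF α β CA CB (β h * W) := by
    intro h W hW
    by_cases hh : h ∈ CB
    · obtain ⟨c, e⟩ := h2 h hh
      rw [← e]; exact hA c W hW
    rcases hW with ⟨g', rfl⟩ | ⟨g0, h0, L, g1, a, b, rfl⟩
    · exact Or.inr ⟨1, h, [], g', hh, by simp, by simp [coreF]⟩
    by_cases h0' : g0 ∈ CA
    · obtain ⟨d, e⟩ := h1 g0 h0'
      have e2 : β h * (α g0 * coreF α β h0 L * α g1) = coreF α β (h * d * h0) L * α g1 := by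
        rw [e, ← coreF_mul, map_mul]; simp only [mul_assoc]
      rw [e2]
      by_cases h3 : h * d * h0 ∈ CB
      · obtain ⟨c, e'⟩ := h2 _ h3
        cases L with
        | nil => exact Or.inl ⟨c * g1, by simp [coreF, e']⟩
        | cons p L =>
          refine Or.inr ⟨c * p.1, p.2, L, g1, (b p (by simp)).2, fun q hq => b q (by simp [hq]), ?_⟩
          rw [coreF, ← e', map_mul]
      · exact Or.inr ⟨1, h * d * h0, L, g1, h3, b, by simp⟩
    · refine Or.inr ⟨1, h, (g0, h0) :: L, g1, hh, ?_, by simp [coreF, mul_assoc]⟩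
      intro p hp
      rcases List.mem_cons.1 hp with rfl | hp
      · exact ⟨h0', a⟩
      · exact b p hp
  have hW : W ∈ Subgroup.closure ((α.range : Set F) ∪ β.range) := by
    rw [Subgroup.closure_union, Subgroup.closure_eq, Subgroup.closure_eq, hg]; trivial
  induction hW using Subgroup.closure_induction_left with
  | one => exact Or.inl ⟨1, by simp⟩
  | mul_left x hx y _ ih =>
    rcases hx with ⟨g, rfl⟩ | ⟨g, rfl⟩
    · exact hA g y ih
    · exact hB g y ih
  | inv_mul_cancel x hx y _ ih =>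
    rcases hx with ⟨g, rfl⟩ | ⟨g, rfl⟩
    · rw [← map_inv]; exact hA _ y ih
    · rw [← map_inv]; exact hB _ y ih

theorem twist [IsMulTorsionFree H] {ρ : H →* M2} (hρ : Good ρ)
    (α : A →* F) (β : B →* F) (CA : Subgroup A) (CB : Subgroup B)
    (h1 : ∀ c ∈ CA, ∃ d, α c = β d) (h2 : ∀ d ∈ CB, ∃ c, α c = β d)
    (hg : α.range ⊔ β.range = ⊤) {I : Type} (l : Filter I) (φA : I → A →* H) (φB : I → B →* H)
    (U : I → H) (Φ : I × ℕ → F →* H) (eA : ∀ i N g, Φ (i, N) (α g) = φA i g)
    (eB : ∀ i N h, Φ (i, N) (β h) = U i ^ N * φB i h * (U i ^ N)⁻¹)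
    (dA : ∀ g, g ≠ 1 → ∀ᶠ i in l, φA i g ≠ 1)
    (cA : ∀ g, g ∉ CA → ∀ᶠ i in l, ¬ Commute (φA i g) (U i))
    (cB : ∀ h, h ∉ CB → ∀ᶠ i in l, ¬ Commute (φB i h) (U i)) (W : F) (hW : W ≠ 1) :
    ∀ᶠ p in l.curry atTop, Φ p W ≠ 1 := by
  rw [Filter.eventually_curry_iff]
  rcases nf_all α β CA CB h1 h2 hg W with ⟨g, rfl⟩ | ⟨g0, h0, L, g1, a, b, rfl⟩
  · have : g ≠ 1 := by rintro rfl; exact hW (map_one _)
    filter_upwards [dA g this] with i hi
    exact Eventually.of_forall fun N => by rw [eA]; exact hi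
  · have hL : ∀ᶠ i in l, ∀ p ∈ L, ¬ Commute (φA i p.1) (U i) ∧ ¬ Commute (φB i p.2) (U i) := by
      have : ∀ᶠ i in l, ∀ p ∈ {p | p ∈ L}, ¬ Commute (φA i p.1) (U i) ∧
          ¬ Commute (φB i p.2) (U i) := by
        rw [Filter.eventually_all_finite (List.finite_toSet L)]
        intro p hp
        exact (cA _ (b p hp).1).and (cB _ (b p hp).2)
      exact this
    filter_upwards [hL, cB h0 a] with i hi hi0
    have ec : ∀ N (L : List (A × B)) (h0 : B), Φ (i, N) (coreF α β h0 L) =
        core (U i ^ N) (φB i h0) (L.map fun p => (φA i p.1, φB i p.2)) := by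
      intro N L
      induction L with
      | nil => intro h0; simp [coreF, core, eB]
      | cons p L ih => intro h0; simp only [coreF, core, List.map_cons, map_mul, eA, eB, ih]
    have := big hρ (L.map fun p => (φA i p.1, φB i p.2)) (φB i h0) hi0 (by
      intro p hp
      obtain ⟨q, hq, rfl⟩ := List.mem_map.1 hp
      exact hi q hq) ((φA i g0)⁻¹ * (φA i g1)⁻¹)
    filter_upwards [this] with N hN
    rw [map_mul, map_mul, eA, eA, ec]
    intro e
    apply hN
    rw [mul_eq_one_iff_eq_inv, ← eq_inv_mul_iff_mul_eq] at e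
    exact e

/-- commuting elements of a free group are powers of one element -/
theorem cyc_of_comm {ι : Type} (g u : FreeGroup ι) (h : Commute g u) :
    ∃ r : FreeGroup ι, g ∈ Subgroup.zpowers r ∧ u ∈ Subgroup.zpowers r := by
  classical
  let K : Subgroup (FreeGroup ι) := Subgroup.closure {g, u}
  have hc : ∀ x y : K, x * y = y * x := by
    have := Subgroup.isMulCommutative_closure (G := FreeGroup ι) (k := {g, u}) (by
      intro x hx y hy
      rcases hx with rfl | rfl <;> rcases hy with rfl | rfl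
      · rfl
      · exact h.eq
      · exact h.eq.symm
      · rfl)
    intro x y
    exact this.is_comm.comm x y
  have hs : Subsingleton (IsFreeGroup.Generators K) := by
    constructor
    intro i j
    by_contra hij
    let f : K →* Equiv.Perm (Fin 3) :=
      IsFreeGroup.lift fun k => if k = i then Equiv.swap 0 1 else Equiv.swap 1 2
    have := congrArg f (hc (IsFreeGroup.of i) (IsFreeGroup.of j))
    simp only [map_mul, f, IsFreeGroup.lift_of, if_true, if_neg (Ne.symm hij)] at this
    revert this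
    decide
  have hr : ∃ r : K, ∀ x : K, x ∈ Subgroup.zpowers r := by
    by_cases hn : Nonempty (IsFreeGroup.Generators K)
    · obtain ⟨i⟩ := hn
      refine ⟨IsFreeGroup.of i, fun x => ?_⟩
      let f : K →* Subgroup.zpowers (IsFreeGroup.of i : K) :=
        IsFreeGroup.lift fun _ => ⟨IsFreeGroup.of i, Subgroup.mem_zpowers _⟩
      have : (Subgroup.subtype _).comp f = MonoidHom.id K := by
        apply IsFreeGroup.ext_hom
        intro k
        simp [f, Subsingleton.elim k i]
      have h3 := DFunLike.congr_fun this x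
      simp only [MonoidHom.comp_apply, MonoidHom.id_apply] at h3
      rw [← h3]
      exact (f x).2
    · refine ⟨1, fun x => ?_⟩
      have : MonoidHom.id K = 1 := by
        apply IsFreeGroup.ext_hom
        intro k
        exact (hn ⟨k⟩).elim
      have h3 := DFunLike.congr_fun this x
      simp only [MonoidHom.id_apply, MonoidHom.one_apply] at h3
      rw [h3]; exact one_mem _
  obtain ⟨r, hr⟩ := hr
  refine ⟨r, ?_, ?_⟩
  · obtain ⟨n, hn⟩ := hr ⟨g, Subgroup.subset_closure (by simp)⟩
    exact ⟨n, by simpa using congrArg Subtype.val hn⟩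
  · obtain ⟨n, hn⟩ := hr ⟨u, Subgroup.subset_closure (by simp)⟩
    exact ⟨n, by simpa using congrArg Subtype.val hn⟩

end Pool.Agent.H68.Ec
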