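import Pool.Agent.H68.Ec3

set_option autoImplicit false

namespace Pool.Agent.H68.Ec

open Filter
open FreeGroup (of lift freeGroupCongr)

/-- free groups -/
abbrev Fr (n : ℕ) : Type := FreeGroup (Fin n)

/-- twisting elements -/
def V (j : ℕ) : Fr 2 := of 0 ^ j * of 1 * (of 0 ^ j)⁻¹

/-- map to the infinite dihedral group -/
def dih : Fr 2 →* DihedralGroup 0 := lift ![DihedralGroup.r 1, DihedralGroup.sr 0]

theorem dih_V (j : ℕ) : dih (V j) = DihedralGroup.sr (-(2 * (j : ZMod 0))) := by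
  simp [dih, V]
  ring

theorem V_ev (g : Fr 2) (hg : g ≠ 1) : ∀ᶠ j in atTop, ¬ Commute g (V j) := by
  obtain ⟨ρ, hρ⟩ := good_free 2
  rw [← Nat.cofinite_eq_atTop, Filter.eventually_cofinite]
  apply Set.Subsingleton.finite
  intro i hi j hj
  simp only [Set.mem_setOf_eq, not_not] at hi hj
  have := congrArg dih (comm_trans hρ hg hi.symm hj.symm).eq
  rw [map_mul, map_mul, dih_V, dih_V] at this
  simp only [DihedralGroup.sr_mul_sr, DihedralGroup.r.injEq] at this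
  have h2 : (-(2 * (j : ℤ)) - -(2 * (i : ℤ))) = -(2 * (i : ℤ)) - -(2 * (j : ℤ)) := this
  omega

theorem a_V (k : ℤ) (hk : k ≠ 0) (j : ℕ) : ¬ Commute ((of 0 : Fr 2) ^ k) (V j) := by
  intro h
  have := congrArg dih h.eq
  rw [map_mul, map_mul, dih_V, map_zpow] at this
  simp [dih] at this
  have h2 : (-(2 * (j : ℤ)) - k) = -(2 * (j : ℤ)) + k := this
  omega

/-- first level retractions -/
def ψ (p : ℕ × ℕ) : Fr 3 →* Fr 2 := lift ![of 0, of 1, V p.1 ^ p.2 * of 0 * (V p.1 ^ p.2)⁻¹]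

theorem ψ_ev (W : Fr 3) (hW : W ≠ 1) : ∀ᶠ p in (atTop : Filter ℕ).curry atTop, ψ p W ≠ 1 := by
  obtain ⟨ρ, hρ⟩ := good_free 2
  refine twist hρ (lift ![of 0, of 1] : Fr 2 →* Fr 3) (zpowersHom (Fr 3) (of 2)) ⊥ ⊥ ?_ ?_ ?_ atTop
    (fun _ => MonoidHom.id _) (fun _ => zpowersHom (Fr 2) (of 0)) V ψ ?_ ?_ ?_ ?_ ?_ W hW
  · intro c hc
    rw [Subgroup.mem_bot.1 hc]
    exact ⟨1, by simp⟩
  · intro c hc
    rw [Subgroup.mem_bot.1 hc]
    exact ⟨1, by simp⟩
  · rw [eq_top_iff, ← FreeGroup.closure_range_of, Subgroup.closure_le]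
    rintro _ ⟨i, rfl⟩
    fin_cases i
    · exact Subgroup.mem_sup_left ⟨of 0, by simp⟩
    · exact Subgroup.mem_sup_left ⟨of 1, by simp⟩
    · exact Subgroup.mem_sup_right ⟨Multiplicative.ofAdd 1, by simp⟩
  · intro i N g
    have : (ψ (i, N)).comp (lift ![of 0, of 1] : Fr 2 →* Fr 3) = MonoidHom.id _ := by
      ext k
      fin_cases k <;> simp [ψ]
    exact DFunLike.congr_fun this g
  · intro i N h
    simp [ψ]
  · intro g hg
    exact Eventually.of_forall fun _ => hg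
  · intro g hg
    exact V_ev g (fun e => hg (Subgroup.mem_bot.2 e))
  · intro h hh
    refine Eventually.of_forall fun j => a_V _ ?_ j
    intro e
    exact hh (Subgroup.mem_bot.2 e)

/-- left factor -/
def ιA : Fr 3 →* Fr 3 := lift ![of 0, of 1, of 2 * of 0 * (of 2)⁻¹]

/-- right factor -/
def ιB : Fr 2 →* Fr 3 := lift ![of 0, of 2]

theorem ιA_ne (g : Fr 3) (hg : g ≠ 1) : ιA g ≠ 1 := by
  let θ : Fr 3 ≃* Fr 3 := freeGroupCongr (Equiv.swap 0 2)
  let π : Fr 3 →* Equiv.Perm (Fr 3) :=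
    lift ![Equiv.mulLeft (of 0), Equiv.mulLeft (of 1), θ.toEquiv]
  have : π.comp ιA = MulAction.toPermHom (Fr 3) (Fr 3) := by
    ext k x
    fin_cases k
    · simp [π, ιA]
    · simp [π, ιA]
    · have e0 : θ (of 0) = of 2 := by simp [θ]
      simp [π, ιA, Equiv.Perm.inv_def]
      exact e0
  intro e
  have h2 := DFunLike.congr_fun this g
  rw [MonoidHom.comp_apply, e, map_one] at h2
  have := DFunLike.congr_fun h2 1
  simp at this
  exact hg this.symm

theorem ιB_ne (g : Fr 2) (hg : g ≠ 1) : ιB g ≠ 1 := by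
  have : (lift ![of 0, 1, of 1] : Fr 3 →* Fr 2).comp ιB = MonoidHom.id _ := by
    ext k
    fin_cases k <;> simp [ιB]
  intro e
  have h2 := DFunLike.congr_fun this g
  rw [MonoidHom.comp_apply, e, map_one] at h2
  exact hg h2.symm

/-- amalgamated element on the left -/
def uA : Fr 3 := of 0 * of 2 ^ 2

/-- amalgamated element on the right -/
def wB : Fr 2 := of 0 * of 1 * of 0 ^ 2 * (of 1)⁻¹

theorem ι_uw : ιA uA = ιB wB := by
  simp [ιA, ιB, uA, wB, pow_two, mul_assoc]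

theorem mem_of_unit {G : Type} [Group G] (r u g : G) (k : ℤ) (e : r ^ k = u) (hk : k = 1 ∨ k = -1)
    (hg : g ∈ Subgroup.zpowers r) : g ∈ Subgroup.zpowers u := by
  refine (Subgroup.zpowers_le.2 ?_) hg
  rcases hk with rfl | rfl
  · rw [zpow_one] at e; rw [e]; exact Subgroup.mem_zpowers _
  · rw [zpow_neg, zpow_one, inv_eq_iff_eq_inv] at e; rw [e]
    exact inv_mem (Subgroup.mem_zpowers _)

theorem cent_u (g : Fr 3) (h : Commute g uA) : g ∈ Subgroup.zpowers uA := by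
  obtain ⟨r, hg, k, hk⟩ := cyc_of_comm g uA h
  refine mem_of_unit r uA g k hk ?_ hg
  let f : Fr 3 →* Multiplicative ℤ := lift ![Multiplicative.ofAdd 1, 1, 1]
  have := congrArg (fun x => (f x).toAdd) hk
  simp [f, uA] at this
  exact Int.eq_one_or_neg_one_of_mul_eq_one this

theorem cent_w (g : Fr 2) (h : Commute g wB) : g ∈ Subgroup.zpowers wB := by
  obtain ⟨r, hg, k, hk⟩ := cyc_of_comm g wB h
  refine mem_of_unit r wB g k hk ?_ hg
  let f : Fr 2 →* Multiplicative ℤ := lift ![Multiplicative.ofAdd 1, 1]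
  have h1 := congrArg (fun x => (f x).toAdd) hk
  simp [f, wB] at h1
  let f2 : Fr 2 →* Equiv.Perm (Fin 3) := lift ![Equiv.swap 0 1 * Equiv.swap 1 2, Equiv.swap 0 1]
  have h2 : f2 r ^ k = Equiv.swap 0 1 * Equiv.swap 1 2 * Equiv.swap 0 1 *
      (Equiv.swap 0 1 * Equiv.swap 1 2) ^ 2 * (Equiv.swap 0 1)⁻¹ := by
    rw [← map_zpow]
    change f2 ((fun x : ℤ => r ^ x) k) = _
    rw [hk]
    simp only [f2, wB, map_mul, map_pow, map_inv, FreeGroup.lift_apply_of, Matrix.cons_val_zero,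
      Matrix.cons_val_one, Matrix.cons_val_fin_one]
  have h3 : ∀ x : Equiv.Perm (Fin 3), x ^ (3 : ℤ) ≠ Equiv.swap 0 1 * Equiv.swap 1 2 * Equiv.swap 0 1 *
      (Equiv.swap 0 1 * Equiv.swap 1 2) ^ 2 * (Equiv.swap 0 1)⁻¹ ∧ x ^ (-3 : ℤ) ≠
      Equiv.swap 0 1 * Equiv.swap 1 2 * Equiv.swap 0 1 *
      (Equiv.swap 0 1 * Equiv.swap 1 2) ^ 2 * (Equiv.swap 0 1)⁻¹ := by decide
  have h4 : k ∣ 3 := ⟨_, by rw [← h1]⟩
  have h5 : k.natAbs ∣ 3 := by simpa using Int.natAbs_dvd_natAbs.2 h4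
  rcases (Nat.dvd_prime Nat.prime_three).1 h5 with h6 | h6
  · clear h1 h2 h3 hk; omega
  · have : k = 3 ∨ k = -3 := by clear h1 h2 h3 hk; omega
    generalize f2 r = x at h2
    rcases this with h7 | h7 <;> rw [h7] at h2
    · exact absurd h2 (h3 x).1
    · exact absurd h2 (h3 x).2

end Pool.Agent.H68.Ec
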