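import Pool.Agent.H68.Ec4

set_option autoImplicit false

namespace Pool.Agent.H68.Ec

open Filter
open FreeGroup (of lift)
open scoped commutatorElement

/-- the non-primitive generator -/
def a0 : Fr 4 := of 2 * of 3 * of 2 ^ 2 * (of 3)⁻¹ * (of 1 ^ 2)⁻¹

/-- left factor of the splitting -/
def α2 : Fr 3 →* Fr 4 := lift ![a0, of 0, of 1]

/-- right factor of the splitting -/
def β2 : Fr 2 →* Fr 4 := lift ![of 2, of 3]

theorem αβ : α2 uA = β2 wB := by
  simp [α2, β2, uA, wB, a0]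

/-- the twisting element -/
def U2 (p : ℕ × ℕ) : Fr 2 := ψ p (ιA uA)

/-- second level retractions -/
def Φ (q : (ℕ × ℕ) × ℕ) : Fr 4 →* Fr 2 :=
  lift ![of 1, ψ q.1 (ιA (of 2)), U2 q.1 ^ q.2 * ψ q.1 (ιB (of 0)) * (U2 q.1 ^ q.2)⁻¹,
    U2 q.1 ^ q.2 * ψ q.1 (ιB (of 1)) * (U2 q.1 ^ q.2)⁻¹]

theorem Φ_β (p : ℕ × ℕ) (N : ℕ) (h : Fr 2) :
    Φ (p, N) (β2 h) = U2 p ^ N * ψ p (ιB h) * (U2 p ^ N)⁻¹ := by
  have : (Φ (p, N)).comp β2 =
      (MulAut.conj (U2 p ^ N)).toMonoidHom.comp ((ψ p).comp ιB) := by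
    ext k
    fin_cases k <;> simp [Φ, β2, -map_pow]
  exact DFunLike.congr_fun this h

theorem Φ_α (p : ℕ × ℕ) (N : ℕ) (g : Fr 3) : Φ (p, N) (α2 g) = ψ p (ιA g) := by
  have hx : Φ (p, N) (α2 (of 2)) = ψ p (ιA (of 2)) := by simp [Φ, α2]
  have hu : Φ (p, N) (α2 uA) = ψ p (ιA uA) := by
    rw [αβ, Φ_β, ← ι_uw]
    change U2 p ^ N * U2 p * (U2 p ^ N)⁻¹ = U2 p
    group
  have : (Φ (p, N)).comp α2 = (ψ p).comp ιA := by
    ext k
    fin_cases k
    · simp only [uA, map_mul, map_pow, hx] at hu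
      exact mul_right_cancel hu
    · simp [Φ, α2, ιA, ψ]
    · exact hx
  exact DFunLike.congr_fun this g

theorem Φ_ev (W : Fr 4) (hW : W ≠ 1) :
    ∀ᶠ q in ((atTop : Filter ℕ).curry atTop).curry atTop, Φ q W ≠ 1 := by
  obtain ⟨ρ, hρ⟩ := good_free 2
  refine twist hρ α2 β2 (Subgroup.zpowers uA) (Subgroup.zpowers wB) ?_ ?_ ?_ _
    (fun p => (ψ p).comp ιA) (fun p => (ψ p).comp ιB) U2 Φ Φ_α Φ_β ?_ ?_ ?_ W hW
  · rintro _ ⟨k, rfl⟩
    exact ⟨wB ^ k, by simp [αβ]⟩
  · rintro _ ⟨k, rfl⟩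
    exact ⟨uA ^ k, by simp [αβ]⟩
  · rw [eq_top_iff, ← FreeGroup.closure_range_of, Subgroup.closure_le]
    rintro _ ⟨i, rfl⟩
    fin_cases i
    · exact Subgroup.mem_sup_left ⟨of 1, by simp [α2]⟩
    · exact Subgroup.mem_sup_left ⟨of 2, by simp [α2]⟩
    · exact Subgroup.mem_sup_right ⟨of 0, by simp [β2]⟩
    · exact Subgroup.mem_sup_right ⟨of 1, by simp [β2]⟩
  · intro g hg
    exact ψ_ev _ (ιA_ne g hg)
  · intro g hg
    have : ⁅g, uA⁆ ≠ 1 := fun e => hg (cent_u g (commutatorElement_eq_one_iff_commute.1 e))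
    filter_upwards [ψ_ev _ (ιA_ne _ this)] with p hp hc
    apply hp
    rw [map_commutatorElement, map_commutatorElement]
    exact commutatorElement_eq_one_iff_commute.2 hc
  · intro g hg
    have : ⁅g, wB⁆ ≠ 1 := fun e => hg (cent_w g (commutatorElement_eq_one_iff_commute.1 e))
    filter_upwards [ψ_ev _ (ιB_ne _ this)] with p hp hc
    apply hp
    rw [map_commutatorElement, map_commutatorElement, ← ι_uw]
    exact commutatorElement_eq_one_iff_commute.2 hc

/-- the embedding of the subgroup -/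
def ι : Fr 2 →* Fr 4 := lift ![a0, of 0]

theorem Φ_ι (q : (ℕ × ℕ) × ℕ) (g : Fr 2) : Φ q (ι g) = g := by
  obtain ⟨p, N⟩ := q
  have : (Φ (p, N)).comp ι = MonoidHom.id _ := by
    ext k
    fin_cases k
    · have := Φ_α p N (of 0)
      simpa [α2, ιA, ψ, ι] using this
    · simp [ι, Φ]
  exact DFunLike.congr_fun this g

theorem ec (n : ℕ) (E I : Finset (Monoid.Coprod (FreeGroup (Fin n)) ι.range))
    (h : ∃ x : Fin n → Fr 4,
      (∀ w ∈ E, Monoid.Coprod.lift (FreeGroup.lift x) ι.range.subtype w = 1) ∧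
      (∀ v ∈ I, Monoid.Coprod.lift (FreeGroup.lift x) ι.range.subtype v ≠ 1)) :
    ∃ y : Fin n → ι.range,
      (∀ w ∈ E, Monoid.Coprod.lift (FreeGroup.lift y) (MonoidHom.id ι.range) w = 1) ∧
      (∀ v ∈ I, Monoid.Coprod.lift (FreeGroup.lift y) (MonoidHom.id ι.range) v ≠ 1) := by
  obtain ⟨x, h1, h2⟩ := h
  have : ∀ᶠ q in ((atTop : Filter ℕ).curry atTop).curry atTop, ∀ v ∈ I,
      Φ q (Monoid.Coprod.lift (FreeGroup.lift x) ι.range.subtype v) ≠ 1 :=
    (Filter.eventually_all_finset I).2 fun v hv => Φ_ev _ (h2 v hv)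
  rw [Filter.eventually_curry_iff, Filter.eventually_curry_iff] at this
  obtain ⟨j, hj⟩ := this.exists
  obtain ⟨M, hM⟩ := hj.exists
  obtain ⟨N, hN⟩ := hM.exists
  let ret : Fr 4 →* ι.range := ι.rangeRestrict.comp (Φ ((j, M), N))
  have e : Monoid.Coprod.lift (FreeGroup.lift fun i => ret (x i)) (MonoidHom.id ι.range) =
      ret.comp (Monoid.Coprod.lift (FreeGroup.lift x) ι.range.subtype) := by
    apply Monoid.Coprod.hom_ext
    · ext i; simp
    · ext ⟨_, g, rfl⟩
      simp [ret, Φ_ι]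
  refine ⟨fun i => ret (x i), fun w hw => ?_, fun v hv => ?_⟩
  · rw [e, MonoidHom.comp_apply, h1 w hw, map_one]
  · rw [e, MonoidHom.comp_apply]
    intro e2
    apply hN v hv
    have := congrArg (fun z : ι.range => Φ ((j, M), N) z) e2
    simpa [ret, Φ_ι] using this

/-- the test group -/
abbrev Q3 : Type := Equiv.Perm (Fin 3)

/-- the word map -/
def wd (t : Q3 × Q3 × Q3) : Q3 := t.2.1 * t.2.2 * t.2.1 ^ 2 * t.2.2⁻¹ * (t.1 ^ 2)⁻¹

theorem cnt : (Finset.univ.filter fun t => wd t = Equiv.swap 0 1).card <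
    (Finset.univ.filter fun t => wd t = 1).card := by
  decide +kernel

theorem not_factor (K : Subgroup (Fr 4)) :
    ¬ Function.Bijective (Monoid.Coprod.lift ι.range.subtype K.subtype) := by
  intro hb
  let e : Monoid.Coprod ι.range K ≃* Fr 4 := MulEquiv.ofBijective _ hb
  have e1 : ∀ g : ι.range, e.symm g = Monoid.Coprod.inl g := fun g =>
    e.symm_apply_eq.2 (by simp [e])
  have e2 : ∀ g : K, e.symm g = Monoid.Coprod.inr g := fun g =>
    e.symm_apply_eq.2 (by simp [e])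
  let η : ι.range →* Q3 :=
    (lift ![Equiv.swap 0 1, 1] : Fr 2 →* Q3).comp ((Φ ((0, 0), 0)).comp ι.range.subtype)
  let f : Q3 × Q3 × Q3 → Fr 4 →* Q3 := fun t => lift ![1, t.1, t.2.1, t.2.2]
  let f' : Q3 × Q3 × Q3 → Fr 4 →* Q3 := fun t =>
    (Monoid.Coprod.lift η ((f t).comp K.subtype)).comp e.symm.toMonoidHom
  have f1 : ∀ t (g : Fr 2), f' t (ι g) = (lift ![Equiv.swap 0 1, 1] : Fr 2 →* Q3) g := by
    intro t g
    have := e1 ⟨ι g, g, rfl⟩
    simp only [f', MonoidHom.comp_apply, MulEquiv.coe_toMonoidHom]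
    rw [this]
    simp [η, Φ_ι]
  have f2 : ∀ t (g : K), f' t g = f t g := by
    intro t g
    simp only [f', MonoidHom.comp_apply, MulEquiv.coe_toMonoidHom]
    rw [e2]
    simp
  let m : Q3 × Q3 × Q3 → Q3 × Q3 × Q3 := fun t => (f' t (of 1), f' t (of 2), f' t (of 3))
  refine absurd cnt (not_lt.2 (Finset.card_le_card_of_injOn m ?_ ?_))
  · intro t _
    simp only [Finset.coe_filter, Finset.mem_univ, true_and, Set.mem_setOf_eq]
    have := f1 t (of 0)
    simpa [ι, a0, wd, m] using this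
  · intro t ht t' ht' hm
    simp only [Finset.coe_filter, Finset.mem_univ, true_and, Set.mem_setOf_eq] at ht ht'
    have h0 : ∀ t, f' t (of 0) = 1 := fun t => by simpa [ι] using f1 t (of 1)
    have h1 : f' t = f' t' := by
      simp only [m, Prod.mk.injEq] at hm
      ext1 k
      fin_cases k
      · exact (h0 t).trans (h0 t').symm
      · exact hm.1
      · exact hm.2.1
      · exact hm.2.2
    have h2 : ∀ t, wd t = 1 → (f t).comp ι = 1 := by
      intro t ht
      ext1 k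
      fin_cases k
      · simpa [ι, a0, f, wd] using ht
      · simp [ι, f]
    have h3 : (f t).comp e.toMonoidHom = (f t').comp e.toMonoidHom := by
      apply Monoid.Coprod.hom_ext
      · ext1 ⟨_, g, rfl⟩
        have a := DFunLike.congr_fun (h2 t ht) g
        have b := DFunLike.congr_fun (h2 t' ht') g
        simp only [MonoidHom.comp_apply, MonoidHom.one_apply] at a b
        simp [e, a, b]
      · ext1 g
        have a := f2 t g
        have b := f2 t' g
        simp [e, ← a, ← b, h1]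
    have h4 : ∀ g, f t g = f t' g := by
      intro g
      have := DFunLike.congr_fun h3 (e.symm g)
      simpa using this
    have a := h4 (of 1)
    have b := h4 (of 2)
    have c := h4 (of 3)
    simp [f] at a b c
    exact Prod.ext a (Prod.ext b c)

end Pool.Agent.H68.Ec
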