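import Pool.Agent.H68.SymExt

set_option autoImplicit false

namespace Pool.Agent.H68.EndStab

open Equiv Pool.Agent.H68.SymExt

@[ext] structure Ω where
  val : ℤ → L
  fin : ∃ N, ∀ i, N ≤ i → val i = none

def E (n : ℤ) (f f' : Ω) : Prop := ∀ i, n ≤ i → f.1 i = f'.1 i

def o : Ω := ⟨fun _ => none, 0, fun _ _ => rfl⟩

theorem E.rfl {n : ℤ} {f : Ω} : E n f f := fun _ _ => Eq.refl _
theorem E.symm {n : ℤ} {f f' : Ω} (h : E n f f') : E n f' f := fun i hi => (h i hi).symm
theorem E.trans {n : ℤ} {f f' f'' : Ω} (h : E n f f') (h' : E n f' f'') : E n f f'' :=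
  fun i hi => (h i hi).trans (h' i hi)
theorem E.mono {n m : ℤ} {f f' : Ω} (h : E n f f') (hm : n ≤ m) : E m f f' :=
  fun i hi => h i (hm.trans hi)

def GS : Subgroup (Perm Ω × Multiplicative ℤ) where
  carrier := {x | ∀ n f f', E n f f' ↔ E (n + Multiplicative.toAdd x.2) (x.1 f) (x.1 f')}
  one_mem' := by intro n f f'; simp
  mul_mem' := by
    intro x y hx hy n f f'
    rw [hy n f f', hx]
    simp only [Prod.snd_mul, toAdd_mul, Prod.fst_mul, Perm.mul_apply]
    rw [add_assoc, add_comm (Multiplicative.toAdd y.2)]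
  inv_mem' := by
    intro x hx n f f'
    rw [hx (n + _)]
    simp

abbrev G : Type := GS

def k (g : G) : ℤ := Multiplicative.toAdd g.1.2

instance : MulAction G Ω where
  smul g f := g.1.1 f
  one_smul _ := rfl
  mul_smul _ _ _ := rfl

@[simp] theorem k_mul (g h : G) : k (g * h) = k g + k h := rfl
@[simp] theorem k_one : k 1 = 0 := rfl
@[simp] theorem k_inv (g : G) : k g⁻¹ = - k g := rfl
theorem k_pow (g : G) (n : ℕ) : k (g ^ n) = n * k g := by
  induction n with
  | zero => simp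
  | succ n ih => rw [pow_succ, k_mul, ih]; push_cast; ring
theorem k_zpow (g : G) (n : ℤ) : k (g ^ n) = n * k g := by
  cases n with
  | ofNat n => simp [k_pow]
  | negSucc n => rw [zpow_negSucc, k_inv, k_pow, Int.negSucc_eq]; push_cast; ring

theorem hE (g : G) (n : ℤ) (f f' : Ω) : E n f f' ↔ E (n + k g) (g • f) (g • f') := g.2 n f f'

theorem hE0 {g : G} (hg : k g = 0) {n : ℤ} {f f' : Ω} (h : E n f f') : E n (g • f) (g • f') := by
  have := (hE g n f f').1 h
  rwa [hg, add_zero] at this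

theorem G_ext {g h : G} (h1 : k g = k h) (h2 : ∀ f : Ω, g • f = h • f) : g = h :=
  Subtype.ext (Prod.ext (Equiv.ext h2) h1)

def mk0 (p : Perm Ω) (h1 : ∀ n f f', E n f f' → E n (p f) (p f'))
    (h2 : ∀ n f f', E n f f' → E n (p.symm f) (p.symm f')) : G :=
  ⟨(p, 1), fun n f f' => ⟨fun h => by simpa using h1 n f f' h, fun h => by
    have := h2 n (p f) (p f') (by simpa using h)
    rwa [Equiv.symm_apply_apply, Equiv.symm_apply_apply] at this⟩⟩

theorem glue {ι : Type} (lab : Ω → ι) (g : ι → G) (hk : ∀ i, k (g i) = 0)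
    (h1 : ∀ f, lab (g (lab f) • f) = lab f) (h2 : ∀ f, lab ((g (lab f))⁻¹ • f) = lab f)
    (h3 : ∀ n f f', lab f ≠ lab f' → E n f f' → E n f o ∧ E n (g (lab f) • o) o) :
    ∃ F : G, k F = 0 ∧ ∀ f, F • f = g (lab f) • f := by
  let p : Perm Ω := ⟨fun f => g (lab f) • f, fun f => (g (lab f))⁻¹ • f,
    fun f => by simp [h1], fun f => by simp [h2]⟩
  refine ⟨mk0 p ?_ ?_, rfl, fun f => rfl⟩
  · intro n f f' h
    change E n (g (lab f) • f) (g (lab f') • f')
    by_cases e : lab f = lab f'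
    · rw [e]; exact hE0 (hk _) h
    · obtain ⟨a1, a2⟩ := h3 n f f' e h
      obtain ⟨b1, b2⟩ := h3 n f' f (Ne.symm e) h.symm
      exact ((hE0 (hk _) a1).trans a2).trans ((hE0 (hk _) b1).trans b2).symm
  · intro n f f' h
    change E n ((g (lab f))⁻¹ • f) ((g (lab f'))⁻¹ • f')
    have hk' : ∀ i, k (g i)⁻¹ = 0 := fun i => by simp [hk]
    by_cases e : lab f = lab f'
    · rw [e]; exact hE0 (hk' _) h
    · obtain ⟨a1, a2⟩ := h3 n f f' e h
      obtain ⟨b1, b2⟩ := h3 n f' f (Ne.symm e) h.symm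
      have a3 := hE0 (hk' (lab f)) a2
      have b3 := hE0 (hk' (lab f')) b2
      rw [inv_smul_smul] at a3 b3
      exact ((hE0 (hk' _) a1).trans a3.symm).trans ((hE0 (hk' _) b1).trans b3.symm).symm

theorem restrict (g : G) (hk : k g = 0) (U : Set Ω) (h1 : ∀ f, g • f ∈ U ↔ f ∈ U)
    (h3 : ∀ n f f', f ∈ U → f' ∉ U → E n f f' → E n f o ∧ E n (g • o) o) :
    ∃ F : G, k F = 0 ∧ (∀ f ∈ U, F • f = g • f) ∧ ∀ f, f ∉ U → F • f = f := by
  classical
  obtain ⟨F, hF1, hF2⟩ := glue (fun f => f ∈ U) (fun p => if p then g else 1)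
    (fun p => by split_ifs <;> simp [hk])
    (fun f => by by_cases h : f ∈ U <;> simp [h, h1])
    (fun f => by
      by_cases h : f ∈ U
      · simp only [h, if_true, eq_iff_iff, iff_true]
        rw [← h1]; simpa using h
      · simp [h])
    (fun n f f' hne h => by
      by_cases a : f ∈ U
      · have b : f' ∉ U := fun b => hne (by simp [a, b])
        simpa [a] using h3 n f f' a b h
      · have b : f' ∈ U := by
          by_contra b; exact hne (by simp [a, b])
        simp only [a, if_false, one_smul]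
        exact ⟨h.trans (h3 n f' f b a h.symm).1, E.rfl⟩)
  exact ⟨F, hF1, fun f hf => by simp [hF2, hf], fun f hf => by simp [hF2, hf]⟩

theorem exists_M (π : ℤ → Perm L) (hπ : ∃ N, ∀ i, N ≤ i → π i none = none) :
    ∃ F : G, k F = 0 ∧ ∀ (f : Ω) i, (F • f).1 i = π i (f.1 i) := by
  obtain ⟨N, hN⟩ := hπ
  let p : Perm Ω :=
    ⟨fun f => ⟨fun i => π i (f.1 i), by
        obtain ⟨M, hM⟩ := f.2
        exact ⟨max M N, fun i hi => by
          rw [hM i (le_of_max_le_left hi), hN i (le_of_max_le_right hi)]⟩⟩,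
     fun f => ⟨fun i => (π i).symm (f.1 i), by
        obtain ⟨M, hM⟩ := f.2
        exact ⟨max M N, fun i hi => by
          rw [hM i (le_of_max_le_left hi), Equiv.symm_apply_eq, hN i (le_of_max_le_right hi)]⟩⟩,
     fun f => Ω.ext (funext fun i => by simp),
     fun f => Ω.ext (funext fun i => by simp)⟩
  refine ⟨mk0 p ?_ ?_, rfl, fun f i => rfl⟩
  · intro n f f' h i hi
    change π i (f.1 i) = π i (f'.1 i)
    rw [h i hi]
  · intro n f f' h i hi
    change (π i).symm (f.1 i) = (π i).symm (f'.1 i)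
    rw [h i hi]

def t : G := ⟨(⟨fun f => ⟨fun i => f.1 (i - 1), by
      obtain ⟨M, hM⟩ := f.2
      exact ⟨M + 1, fun i hi => hM _ (by omega)⟩⟩,
    fun f => ⟨fun i => f.1 (i + 1), by
      obtain ⟨M, hM⟩ := f.2
      exact ⟨M, fun i hi => hM _ (by omega)⟩⟩,
    fun f => Ω.ext (funext fun i => by simp),
    fun f => Ω.ext (funext fun i => by simp)⟩, Multiplicative.ofAdd 1),
  fun n f f' => ⟨fun h i hi => h (i - 1) (by simp at hi; omega), fun h i hi => by
    have := h (i + 1) (by simp; omega)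
    simpa using this⟩⟩

@[simp] theorem k_t : k t = 1 := rfl

theorem t_zpow (n : ℤ) (f : Ω) (i : ℤ) : (t ^ n • f).1 i = f.1 (i - n) := by
  induction n using Int.induction_on generalizing f i with
  | zero => simp
  | succ n ih =>
    rw [zpow_add_one, mul_smul, ih]
    change f.1 (i - n - 1) = _
    congr 1; ring
  | pred n ih =>
    rw [zpow_sub_one, mul_smul, ih]
    change f.1 (i - -n + 1) = _
    congr 1; ring

def T (f : Ω) (i : ℤ) : Prop := f.1 i ≠ none ∧ E (i + 1) f o

theorem T_unique {f : Ω} {i j : ℤ} (h : T f i) (h' : T f j) : i = j := by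
  by_contra hne
  rcases lt_or_gt_of_ne hne with a | a
  · exact h'.1 (h.2 j (by omega))
  · exact h.1 (h'.2 i (by omega))

open Classical in
noncomputable def top (f : Ω) : ℤ := if h : ∃ i, T f i then h.choose else 0

noncomputable def lead (f : Ω) : L := f.1 (top f)

theorem top_eq {f : Ω} {i : ℤ} (h : T f i) : top f = i := by
  have h' : ∃ i, T f i := ⟨i, h⟩
  rw [top, dif_pos h']; exact T_unique h'.choose_spec h

theorem T_top {f : Ω} (h : f ≠ o) : T f (top f) := by
  obtain ⟨N, hN⟩ := f.2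
  obtain ⟨i, hi, hi'⟩ := Int.exists_greatest_of_bdd (P := fun i => f.1 i ≠ none)
    ⟨N, fun z hz => by by_contra a; exact hz (hN z (by omega))⟩
    (by by_contra a; push Not at a; exact h (Ω.ext (funext a)))
  have : T f i := ⟨hi, fun j hj => by by_contra a; have := hi' j a; omega⟩
  rwa [top_eq this]

theorem lead_o : lead o = none := rfl

theorem lead_none {f : Ω} (h : lead f = none) : f = o := by
  by_contra a; exact (T_top a).1 h

theorem T_E {f f' : Ω} {n i : ℤ} (h : T f i) (hn : n ≤ i) (e : E n f f') : T f' i :=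
  ⟨by rw [← e i hn]; exact h.1, (e.mono (by omega)).symm.trans h.2⟩

theorem E_dich {f f' : Ω} {n : ℤ} (e : E n f f') :
    E n f o ∨ (top f = top f' ∧ lead f = lead f') := by
  by_cases h : f = o
  · left; rw [h]; exact E.rfl
  by_cases hn : n ≤ top f
  · right
    have := top_eq (T_E (T_top h) hn e)
    exact ⟨this.symm, by rw [lead, lead, this, e _ hn]⟩
  · left; exact (T_top h).2.mono (by omega)

theorem T_smul {g : G} (hk : k g = 0) (ho : g • o = o) {f : Ω} {i : ℤ} (h : T f i) :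
    T (g • f) i := by
  have h1 := hE0 hk h.2
  rw [ho] at h1
  refine ⟨fun a => h.1 ?_, h1⟩
  have h2 : E i (g • f) (g • o) := by
    rw [ho]; intro j hj
    rcases hj.eq_or_lt with rfl | b
    · exact a
    · exact h1 j (by omega)
  have := hE0 (g := g⁻¹) (by simp [hk]) h2
  simp only [inv_smul_smul] at this
  exact this i le_rfl

theorem top_smul {g : G} (hk : k g = 0) (ho : g • o = o) (f : Ω) : top (g • f) = top f := by
  by_cases h : f = o
  · rw [h, ho]
  · exact top_eq (T_smul hk ho (T_top h))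

def IsΛ (F : G) (π : ℤ → Perm L) : Prop :=
  k F = 0 ∧ F • o = o ∧ ∀ f : Ω, (F • f).1 = Function.update f.1 (top f) (π (top f) (lead f))

theorem exists_Λ (π : ℤ → Perm L) (hπ : ∀ i, π i none = none) : ∃ F, IsΛ F π := by
  have h := fun i : ℤ => exists_M (fun j => if j = i then π i else 1)
    ⟨0, fun j _ => by split_ifs <;> simp [hπ]⟩
  choose g hg1 hg2 using h
  have ho : ∀ i, g i • o = o := fun i => Ω.ext (funext fun j => by
    rw [hg2]; split_ifs <;> simp [o, hπ])
  obtain ⟨F, hF1, hF2⟩ := glue top g hg1 (fun f => top_smul (hg1 _) (ho _) f)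
    (fun f => top_smul (by simp [hg1]) (by rw [inv_smul_eq_iff, ho]) f)
    (fun n f f' hne h => ⟨(E_dich h).resolve_right (fun a => hne a.1), by rw [ho]; exact E.rfl⟩)
  refine ⟨F, hF1, by rw [hF2, ho], fun f => funext fun j => ?_⟩
  rw [hF2, hg2, Function.update_apply]
  split_ifs with a
  · rw [a]; rfl
  · rfl

theorem IsΛ.lead {F : G} {π : ℤ → Perm L} (h : IsΛ F π) (f : Ω) :
    lead (F • f) = π (top f) (lead f) := by
  rw [EndStab.lead, top_smul h.1 h.2.1, h.2.2, Function.update_self]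

theorem IsΛ.fix {F : G} {π : ℤ → Perm L} (h : IsΛ F π) (f : Ω)
    (e : π (top f) (EndStab.lead f) = EndStab.lead f) : F • f = f :=
  Ω.ext (by rw [h.2.2, e, EndStab.lead, Function.update_eq_self])

def K (W : Set L) : Set G := {g | k g = 0 ∧ ∀ f, lead f ∉ W → g • f = f}

theorem K_pres {W : Set L} {g : G} (hg : g ∈ K W) {f : Ω} (hf : lead f ∈ W) :
    lead (g • f) ∈ W := by
  by_contra h
  have := hg.2 _ h
  rw [smul_left_cancel_iff] at this
  rw [this] at h; exact h hf

theorem K_inv {W : Set L} {g : G} (hg : g ∈ K W) : g⁻¹ ∈ K W :=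
  ⟨by simp [hg.1], fun f hf => by rw [inv_smul_eq_iff, hg.2 f hf]⟩

def ιp (τ : Perm I) : Perm L := Equiv.optionCongr (Equiv.prodCongr τ (Equiv.refl ℕ))

noncomputable def S (τ : Perm I) : G := (exists_Λ (fun _ => ιp τ) (fun _ => rfl)).choose

theorem S_Λ (τ : Perm I) : IsΛ (S τ) (fun _ => ιp τ) :=
  (exists_Λ (fun _ => ιp τ) (fun _ => rfl)).choose_spec

noncomputable def idx (f : Ω) : Option I := (lead f).map Prod.fst

theorem idx_S (τ : Perm I) (f : Ω) : idx (S τ • f) = (idx f).map τ := by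
  rw [idx, (S_Λ τ).lead, idx]; cases lead f <;> simp [ιp]

theorem S_mul (τ τ' : Perm I) (f : Ω) : S τ • S τ' • f = S (τ * τ') • f := by
  apply Ω.ext
  rw [(S_Λ τ).2.2, (S_Λ τ').lead, top_smul (S_Λ τ').1 (S_Λ τ').2.1, (S_Λ τ').2.2, (S_Λ _).2.2,
    Function.update_idem]
  cases lead f <;> rfl

theorem S_one (f : Ω) : S 1 • f = f := (S_Λ 1).fix f (by cases lead f <;> simp [ιp])

theorem S_inv (τ : Perm I) (f : Ω) : (S τ)⁻¹ • f = S τ⁻¹ • f := by
  rw [inv_smul_eq_iff, S_mul, mul_inv_cancel, S_one]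

theorem S_congr {τ τ' : Perm I} {f : Ω} {i : I} (h : idx f = some i) (e : τ i = τ' i) :
    S τ • f = S τ' • f := by
  apply Ω.ext
  rw [(S_Λ τ).2.2, (S_Λ τ').2.2]
  rw [idx] at h
  cases hl : lead f with
  | none => rfl
  | some x =>
    rw [hl] at h
    simp only [Option.map_some, Option.some.injEq] at h
    obtain ⟨a, b⟩ := x
    subst h
    simp only at e
    simp [ιp, e]

theorem trick (h : ℕ → G) (hh : ∀ n, h n ∈ K W0) :
    ∃ F : G, ∀ n, h n = F * S (τ n) * F⁻¹ * (S (τ n))⁻¹ := by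
  let z : I := (none, 0)
  let u : Option ℕ → G := fun c => c.elim 1 h
  have hu : ∀ c, u c ∈ K W0 := by
    rintro (_ | n)
    · exact ⟨rfl, fun _ _ => rfl⟩
    · exact hh n
  have huo : ∀ c, u c • o = o := fun c => (hu c).2 _ (by simp [lead_o, W0])
  have hidx : ∀ g ∈ K W0, ∀ f, idx f = some z → idx (g • f) = some z := fun g hg f hf =>
    K_pres hg hf
  let g : Option I → G := fun i => i.elim 1 (fun i => S (swap z i) * (u i.1)⁻¹ * S (swap z i))
  have hSS : ∀ i : I, (S (swap z i))⁻¹ = S (swap z i) := fun i =>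
    G_ext (by simp [(S_Λ _).1]) (fun f => by rw [S_inv, swap_inv])
  have hgo : ∀ i, g i • o = o := by
    rintro (_ | i)
    · rfl
    · simp only [g, Option.elim, mul_smul, (S_Λ _).2.1]
      rw [(inv_smul_eq_iff).2 (huo _).symm, (S_Λ _).2.1]
  obtain ⟨F, hF1, hF2⟩ := glue idx g
    (by
      rintro (_ | i)
      · rfl
      · simp [g, (S_Λ _).1, (hu _).1])
    (fun f => by
      cases e : idx f with
      | none => simp [g, e]
      | some i =>
        simp only [g, Option.elim, mul_smul]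
        rw [idx_S, hidx _ (K_inv (hu _)) _ (by rw [idx_S, e]; simp)]; simp)
    (fun f => by
      cases e : idx f with
      | none => simp [g, e]
      | some i =>
        simp only [g, Option.elim, mul_inv_rev, hSS, inv_inv, mul_smul]
        rw [idx_S, hidx _ (hu _) _ (by rw [idx_S, e]; simp)]; simp)
    (fun n f f' hne e => ⟨(E_dich e).resolve_right (fun a => hne (by rw [idx, idx, a.2])),
      by rw [hgo]; exact E.rfl⟩)
  have hF3 : ∀ (f : Ω) (i : I), idx f = some i →
      F⁻¹ • f = S (swap z i) • u i.1 • S (swap z i) • f := by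
    intro f i e
    rw [inv_smul_eq_iff, hF2, idx_S, hidx _ (hu _) _ (by rw [idx_S, e]; simp)]
    simp only [Option.map_some, swap_apply_left, g, Option.elim, mul_smul]
    rw [S_mul, swap_mul_self, S_one, inv_smul_smul, S_mul, swap_mul_self, S_one]
  refine ⟨F, fun n => G_ext (by simp [(hh n).1]) fun f => ?_⟩
  simp only [mul_smul]
  cases e : idx f with
  | none =>
    have : f = o := lead_none (by simpa [idx] using e)
    subst this
    have hFo : F • o = o := by rw [hF2, hgo]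
    rw [(inv_smul_eq_iff).2 (S_Λ _).2.1.symm, (inv_smul_eq_iff).2 hFo.symm, (S_Λ _).2.1, hFo]
    exact huo (some n)
  | some i =>
    have e1 : idx ((S (τ n))⁻¹ • f) = some ((τ n).symm i) := by rw [S_inv, idx_S, e]; rfl
    have e2 : idx (S (swap z i) • f) = some z := by rw [idx_S, e]; simp
    rw [hF3 _ _ e1, S_inv, S_mul, S_mul,
      S_congr (τ' := swap z i) e (by simp [Perm.inv_def]),
      S_congr (τ' := swap z i) (hidx _ (hu _) _ e2) (by simp),
      hF2, idx_S, hidx _ (hu _) _ e2]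
    simp only [Option.map_some, swap_apply_left, g, Option.elim, mul_smul]
    rw [S_mul, swap_mul_self, S_one]
    by_cases hi : i = z
    · subst hi
      rw [τ_zero, swap_self]
      change _ = S 1 • (1 : G)⁻¹ • h n • S 1 • f
      rw [S_one, S_one]; simp
    · rw [τ_ne n i hi, inv_smul_smul, S_mul, swap_mul_self, S_one]
      apply (hh n).2
      intro a
      have : idx f = some z := a
      rw [e] at this
      exact hi (Option.some.inj this)

section Len
variable (l : G → ℕ) (hmul : ∀ a b, l (a * b) ≤ l a + l b) (hinv : ∀ a, l a⁻¹ = l a)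
include hmul hinv

theorem bd_W0 : ∃ C, ∀ g ∈ K W0, l g ≤ C := by
  by_contra hc
  push Not at hc
  choose h h1 h2 using fun n => hc (2 * n + 2 * l (S (τ n)))
  obtain ⟨F, hF⟩ := trick h h1
  have a := h2 (l F)
  rw [hF] at a
  have b1 := hmul (F * S (τ (l F)) * F⁻¹) (S (τ (l F)))⁻¹
  have b2 := hmul (F * S (τ (l F))) F⁻¹
  have b3 := hmul F (S (τ (l F)))
  rw [hinv] at b1 b2
  omega

theorem bd_W (W : Set L) (h0 : none ∉ W) (r : ℕ) (hr : r < 6) (h : ∀ x, cls x = r → x ∉ W) :
    ∃ C, ∀ g ∈ K W, l g ≤ C := by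
  obtain ⟨C, hC⟩ := bd_W0 l hmul hinv
  obtain ⟨p, hp1, hp2⟩ := to_W0 W h0 r hr h
  obtain ⟨P, hP⟩ := exists_Λ (fun _ => p) (fun _ => hp2)
  refine ⟨C + 2 * l P, fun g hg => ?_⟩
  have h1 : P * g * P⁻¹ ∈ K W0 := by
    refine ⟨by simp [hg.1], fun f hf => ?_⟩
    rw [mul_smul, mul_smul, hg.2, smul_inv_smul]
    intro a
    apply hf
    have := hP.lead (P⁻¹ • f)
    rw [smul_inv_smul] at this
    rw [this]; exact hp1 _ a
  have h2 := hC _ h1
  have e : g = P⁻¹ * (P * g * P⁻¹) * P := by group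
  have b1 := hmul (P⁻¹ * (P * g * P⁻¹)) P
  have b2 := hmul P⁻¹ (P * g * P⁻¹)
  rw [← e] at b1
  rw [hinv] at b2
  omega

theorem bd_H' : ∃ C, ∀ g : G, k g = 0 → g • o = o → l g ≤ C := by
  obtain ⟨Ca, hCa⟩ := bd_W l hmul hinv Wa (by simp [Wa, cls]) 0 (by omega)
    (fun x hx => by simp [Wa, hx])
  obtain ⟨Cb, hCb⟩ := bd_W l hmul hinv Wb (by simp [Wb, cls]) 2 (by omega)
    (fun x hx => by simp [Wb, hx])
  refine ⟨2 * Ca + 3 * Cb, fun g hk ho => ?_⟩
  let δ : ℤ → L → Ω := fun i a => ⟨Function.update (fun _ => none) i a, i + 1, fun j hj => by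
    rw [Function.update_of_ne (by omega)]⟩
  have hδ : ∀ (g : G), k g = 0 → ∀ i (f : Ω), E (i + 1) f o → (g • δ i (f.1 i)).1 i = (g • f).1 i := by
    intro g hk i f hf
    have : E i (δ i (f.1 i)) f := by
      intro j hj
      rcases hj.eq_or_lt with rfl | b
      · simp [δ]
      · simp only [δ]; rw [Function.update_of_ne (by omega), hf j (by omega)]; rfl
    exact hE0 hk this i le_rfl
  have hδ1 : ∀ i a, E (i + 1) (δ i a) o := fun i a j hj => by
    simp only [δ]; rw [Function.update_of_ne (by omega)]; rfl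
  have hk' : k g⁻¹ = 0 := by simp [hk]
  have ho' : g⁻¹ • o = o := by rw [inv_smul_eq_iff, ho]
  let π : ℤ → Perm L := fun i => ⟨fun a => (g • δ i a).1 i, fun a => (g⁻¹ • δ i a).1 i,
    fun a => by
      have h1 := hE0 hk (hδ1 i a)
      rw [ho] at h1
      simp only
      rw [hδ g⁻¹ hk' i _ h1, inv_smul_smul]; simp [δ],
    fun a => by
      have h1 := hE0 hk' (hδ1 i a)
      rw [ho'] at h1
      simp only
      rw [hδ g hk i _ h1, smul_inv_smul]; simp [δ]⟩
  have hπ0 : ∀ i, π i none = none := fun i => by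
    have := hδ g hk i o E.rfl
    rw [ho] at this; exact this
  have hlead : ∀ f, lead (g • f) = π (top f) (lead f) := by
    intro f
    by_cases hf : f = o
    · rw [hf, ho, lead_o, hπ0]
    · rw [lead, top_smul hk ho]; exact (hδ g hk _ f (T_top hf).2).symm
  choose a b c ha hb hc habc using fun i => dnt (π i) (hπ0 i)
  obtain ⟨A, hA⟩ := exists_Λ a (fun i => ha i _ (by simp [Wa, cls]))
  obtain ⟨B, hB⟩ := exists_Λ b (fun i => hb i _ (by simp [Wb, cls]))
  obtain ⟨C, hC⟩ := exists_Λ c (fun i => hc i _ (by simp [Wb, cls]))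
  have lA := hCa A ⟨hA.1, fun f hf => hA.fix f (ha _ _ hf)⟩
  have lB := hCb B ⟨hB.1, fun f hf => hB.fix f (hb _ _ hf)⟩
  have lC := hCb C ⟨hC.1, fun f hf => hC.fix f (hc _ _ hf)⟩
  set g' := B * A * g * C with hg'
  have hk2 : k g' = 0 := by simp [hg', hA.1, hB.1, hC.1, hk]
  have ho2 : g' • o = o := by simp [hg', mul_smul, hA.2.1, hB.2.1, hC.2.1, ho]
  have hl2 : ∀ f, lead (g' • f) = (b (top f) * a (top f) * π (top f) * c (top f)) (lead f) := by
    intro f
    simp only [hg', mul_smul, hB.lead, hA.lead, hlead, hC.lead, top_smul hA.1 hA.2.1,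
      top_smul hk ho, top_smul hC.1 hC.2.1, Perm.mul_apply]
  obtain ⟨F, hF1, hF2, hF3⟩ := restrict g' hk2 {f | lead f ∈ S0}
    (fun f => by
      simp only [Set.mem_ofPred_eq, hl2]
      constructor
      · intro h
        have := habc (top f) _ h
        have e := (b (top f) * a (top f) * π (top f) * c (top f)).injective this
        rwa [← e]
      · intro h
        have := habc (top f) _ h
        simp only [Perm.mul_apply]; rwa [this])
    (fun n f f' hf hf' e => ⟨(E_dich e).resolve_right (fun x => hf' (by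
      simp only [Set.mem_ofPred_eq] at hf ⊢; rwa [← x.2])), by rw [ho2]; exact E.rfl⟩)
  have lF := hCb F ⟨hF1, fun f hf => hF3 f (fun x => hf (by
    simp only [S0, Wb, Set.mem_ofPred_eq] at x ⊢; omega))⟩
  have lF' := hCa (F⁻¹ * g') ⟨by simp [hF1, hk2], fun f hf => by
    rw [mul_smul, inv_smul_eq_iff]
    by_cases x : lead f ∈ S0
    · exact (hF2 f x).symm
    · have h1 := cls_le (lead f)
      have h2 : lead f = none := h1.2 (by
        simp only [S0, Wa, Set.mem_ofPred_eq] at x hf; omega)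
      rw [hF3 f x, lead_none h2, ho2]⟩
  have e : g = A⁻¹ * (B⁻¹ * (F * (F⁻¹ * g') * C⁻¹)) := by rw [hg']; group
  have b1 := hmul A⁻¹ (B⁻¹ * (F * (F⁻¹ * g') * C⁻¹))
  have b2 := hmul B⁻¹ (F * (F⁻¹ * g') * C⁻¹)
  have b3 := hmul (F * (F⁻¹ * g')) C⁻¹
  have b4 := hmul F (F⁻¹ * g')
  rw [← e] at b1
  rw [hinv] at b1 b2 b3
  omega

theorem bd_H : ∃ C, ∀ g : G, k g = 0 → E 0 (g • o) o → l g ≤ C := by
  obtain ⟨C, hC⟩ := bd_H' l hmul hinv
  obtain ⟨s, hs1, hs2⟩ := exists_M (fun i => if i = 0 then swap none (some ((none, 0), 0)) else 1)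
    ⟨1, fun i hi => by rw [if_neg (by omega)]; rfl⟩
  refine ⟨2 * C + 2 * l s, fun g hk ho => ?_⟩
  obtain ⟨F, hF1, hF2, hF3⟩ := restrict g hk {f | E 0 f o}
    (fun f => by
      simp only [Set.mem_ofPred_eq]
      constructor
      · intro h
        have := hE0 (g := g⁻¹) (by simp [hk]) (h.trans ho.symm)
        simpa using this
      · intro h; exact (hE0 hk h).trans ho)
    (fun n f f' hf hf' e => by
      have : 0 ≤ n := by
        by_contra a
        exact hf' ((e.mono (by omega)).symm.trans hf)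
      exact ⟨E.mono hf this, ho.mono this⟩)
  have l1 := hC (F⁻¹ * g) (by simp [hF1, hk]) (by
    rw [mul_smul, inv_smul_eq_iff, hF2 o E.rfl])
  have l2 := hC (s⁻¹ * F * s) (by simp [hF1]) (by
    rw [mul_smul, mul_smul, hF3, inv_smul_smul]
    intro a
    have := a 0 le_rfl
    rw [hs2] at this
    simp [o] at this)
  have e : g = s * (s⁻¹ * F * s) * s⁻¹ * (F⁻¹ * g) := by group
  have b1 := hmul (s * (s⁻¹ * F * s) * s⁻¹) (F⁻¹ * g)
  have b2 := hmul (s * (s⁻¹ * F * s)) s⁻¹
  have b3 := hmul s (s⁻¹ * F * s)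
  rw [← e] at b1
  rw [hinv] at b2
  omega

end Len

end Pool.Agent.H68.EndStab
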