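import Pool.Agent.H68.EndStab
import Pool.Agent.H68.CentralQI

set_option autoImplicit false
open Pointwise

namespace Pool.Agent.H68.EndStab

open Equiv Pool.Agent.H68.SymExt

noncomputable def J (g h : G) : ℤ := sInf {m | k g ≤ m ∧ k h ≤ m ∧ E m (g • o) (h • o)}

theorem J_le (g h : G) (m : ℤ) : J g h ≤ m ↔ k g ≤ m ∧ k h ≤ m ∧ E m (g • o) (h • o) := by
  have hb : BddBelow {m | k g ≤ m ∧ k h ≤ m ∧ E m (g • o) (h • o)} := ⟨k g, fun m hm => hm.1⟩
  refine ⟨fun hm => ?_, fun hm => csInf_le hb hm⟩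
  obtain ⟨N, hN⟩ := (g • o).2
  obtain ⟨M, hM⟩ := (h • o).2
  have := Int.csInf_mem (s := {m | k g ≤ m ∧ k h ≤ m ∧ E m (g • o) (h • o)})
    ⟨max (max N M) (max (k g) (k h)), by simp, by simp, fun i hi => by
      rw [hN i (by omega), hM i (by omega)]⟩ hb
  exact ⟨this.1.trans hm, this.2.1.trans hm, this.2.2.mono hm⟩

theorem J_spec (g h : G) : k g ≤ J g h ∧ k h ≤ J g h ∧ E (J g h) (g • o) (h • o) :=
  (J_le g h _).1 le_rfl

theorem J_symm (g h : G) : J g h = J h g :=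
  le_antisymm ((J_le _ _ _).2 ⟨(J_spec h g).2.1, (J_spec h g).1, (J_spec h g).2.2.symm⟩)
    ((J_le _ _ _).2 ⟨(J_spec g h).2.1, (J_spec g h).1, (J_spec g h).2.2.symm⟩)

theorem J_ultra (g u h : G) : J g h ≤ max (J g u) (J u h) :=
  (J_le _ _ _).2 ⟨le_max_of_le_left (J_spec g u).1, le_max_of_le_right (J_spec u h).2.1,
    ((J_spec g u).2.2.mono (le_max_left _ _)).trans ((J_spec u h).2.2.mono (le_max_right _ _))⟩

theorem J_mul_le (u g h : G) : J (u * g) (u * h) ≤ J g h + k u := by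
  have := J_spec g h
  refine (J_le _ _ _).2 ⟨by simp; omega, by simp; omega, ?_⟩
  rw [mul_smul, mul_smul]; exact (hE u _ _ _).1 this.2.2

theorem J_mul (u g h : G) : J (u * g) (u * h) = J g h + k u := by
  have h1 := J_mul_le u g h
  have h2 := J_mul_le u⁻¹ (u * g) (u * h)
  simp at h2; omega

def H : Set G := {g | k g = 0 ∧ E 0 (g • o) o}

theorem J_H {g : G} (hg : g ∈ H) : J 1 g = 0 :=
  le_antisymm ((J_le _ _ _).2 ⟨le_rfl, hg.1.le, by rw [one_smul]; exact hg.2.symm⟩) (J_spec 1 g).1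

theorem H_inv {g : G} (hg : g ∈ H) : g⁻¹ ∈ H := by
  refine ⟨by simp [hg.1], ?_⟩
  have := hE0 (g := g⁻¹) (by simp [hg.1]) hg.2
  rw [inv_smul_smul] at this; exact this.symm

theorem DC {g g' : G} (h1 : k g = k g') (h2 : J 1 g = J 1 g') :
    ∃ h ∈ H, ∃ h' ∈ H, g' = h * g * h' := by
  have key : ∃ h ∈ H, E (k g) (h • g • o) (g' • o) := by
    have s1 := J_spec 1 g
    have s2 := J_spec 1 g'
    rw [one_smul] at s1 s2
    rw [← h2] at s2
    set m := J 1 g with hm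
    by_cases hc : m ≤ k g
    · exact ⟨1, ⟨rfl, E.rfl⟩, by
        rw [one_smul]; exact (s1.2.2.mono hc).symm.trans (s2.2.2.mono hc)⟩
    obtain ⟨p, hp1, hp2⟩ := exists_M (fun i => swap ((g • o).1 i) ((g' • o).1 i))
      ⟨m, fun i hi => by rw [← s1.2.2 i hi, ← s2.2.2 i hi]; simp⟩
    have hp3 : p • g • o = g' • o := Ω.ext (funext fun i => by rw [hp2]; simp)
    have hp4 : ∀ (f : Ω) i, m ≤ i → (p • f).1 i = f.1 i := fun f i hi => by
      rw [hp2, ← s1.2.2 i hi, ← s2.2.2 i hi]; simp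
    by_cases hc' : m ≤ 0
    · exact ⟨p, ⟨hp1, fun i hi => hp4 o i (by omega)⟩, by rw [hp3]; exact E.rfl⟩
    have hT : ∀ x : G, k x = k g → J 1 x = m → T (x • o) (m - 1) := by
      intro x hx hx'
      have s3 := (J_spec 1 x).2.2
      rw [one_smul, hx'] at s3
      refine ⟨fun a => ?_, by simpa using s3.symm⟩
      have : J 1 x ≤ m - 1 := (J_le _ _ _).2 ⟨by simp; omega, by omega, fun i hi => by
        rcases hi.eq_or_lt with rfl | b
        · rw [a]; rfl
        · rw [one_smul]; exact s3 i (by omega)⟩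
      omega
    have t1 := hT g rfl rfl
    have t2 := hT g' h1.symm h2.symm
    obtain ⟨F, hF1, hF2, hF3⟩ := restrict p hp1 {f | T f (m - 1)}
      (fun f => by
        simp only [Set.mem_ofPred_eq, T, sub_add_cancel]
        have e1 : E m (p • f) o ↔ E m f o :=
          ⟨fun a i hi => (hp4 f i hi).symm.trans (a i hi), fun a i hi => (hp4 f i hi).trans (a i hi)⟩
        have e2 : swap ((g • o).1 (m - 1)) ((g' • o).1 (m - 1)) none = none :=
          swap_apply_of_ne_of_ne t1.1.symm t2.1.symm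
        rw [e1, hp2]
        conv_lhs => rw [← e2]
        simp)
      (fun n f f' hf hf' e => by
        have : m ≤ n := by
          by_contra a
          exact hf' (T_E hf (by omega) e)
        exact ⟨hf.2.mono (by omega), fun i hi => hp4 o i (by omega)⟩)
    refine ⟨F, ⟨hF1, ?_⟩, by rw [hF2 _ t1, hp3]; exact E.rfl⟩
    rw [hF3 o (fun a => a.1 rfl)]; exact E.rfl
  obtain ⟨h, hh, e⟩ := key
  refine ⟨h, hh, (h * g)⁻¹ * g', ⟨by simp [hh.1, h1], ?_⟩, by group⟩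
  have := (hE (h * g)⁻¹ _ _ _).1 e.symm
  rw [← mul_smul h g, inv_smul_smul, ← mul_smul] at this
  simpa [hh.1] using this

noncomputable def d (g : G) : ℤ := 2 * J 1 g - k g

theorem d_eq (g h : G) : d (g⁻¹ * h) = 2 * J g h - k g - k h := by
  have := J_mul g 1 (g⁻¹ * h)
  simp at this
  simp [d]; omega

theorem d_mul (g h : G) : d (g * h) ≤ d g + d h := by
  have h1 := J_ultra 1 g (g * h)
  have h2 := J_mul g 1 h
  have h3 := J_spec 1 g
  have h4 := J_spec 1 h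
  simp only [mul_one, k_one] at h2 h3 h4
  simp only [d, k_mul]; omega

theorem d_inv (g : G) : d g⁻¹ = d g := by
  have := d_eq g 1
  rw [mul_one, J_symm] at this
  rw [this, d]; simp

theorem d_k (g : G) : k g ≤ d g ∧ - k g ≤ d g := by
  have h3 := J_spec 1 g
  simp only [k_one] at h3
  simp only [d]; omega

theorem t_o (n : ℤ) : t ^ n • o = o := Ω.ext (funext fun i => by rw [t_zpow]; rfl)

theorem J_t (n : ℤ) : J 1 (t ^ n) = max 0 n := by
  have h3 := J_spec 1 (t ^ n)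
  have := (J_le 1 (t ^ n) (max 0 n)).2 ⟨by simp, by simp [k_zpow], by
    rw [t_o, one_smul]; exact E.rfl⟩
  simp only [k_one, k_zpow, k_t] at h3
  omega

theorem exists_r : ∃ r ∈ H, r⁻¹ = r ∧ ∀ f : Ω, (f.1 (-1) = none → (r • f).1 (-1) ≠ none) ∧
    ∀ i, i ≠ -1 → (r • f).1 i = f.1 i := by
  obtain ⟨s, hs1, hs2⟩ := exists_M (fun i => if i = -1 then swap none (some ((none, 0), 0)) else 1)
    ⟨0, fun i hi => by rw [if_neg (by omega)]; rfl⟩
  refine ⟨s, ⟨hs1, fun i hi => by rw [hs2, if_neg (by omega)]; rfl⟩, ?_, fun f => ⟨fun h => ?_,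
    fun i hi => by rw [hs2, if_neg hi]; rfl⟩⟩
  · apply G_ext (by simp [hs1])
    intro f
    rw [inv_smul_eq_iff]
    apply Ω.ext; funext i
    rw [hs2, hs2]; split_ifs <;> simp
  · rw [hs2, h]; simp

theorem normal_form (g : G) : ∃ h ∈ H, ∃ r ∈ H, ∃ h' ∈ H, ∃ a b : ℕ, (a : ℤ) + b = d g ∧
    g = h * (t ^ a * r * (t ^ b)⁻¹) * h' := by
  obtain ⟨r, hr, -, hr'⟩ := exists_r
  have h3 := J_spec 1 g
  simp only [k_one] at h3
  obtain ⟨a, ha⟩ := Int.eq_ofNat_of_zero_le h3.1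
  obtain ⟨b, hb⟩ := Int.eq_ofNat_of_zero_le (show 0 ≤ J 1 g - k g by omega)
  have hk : k (t ^ a * r * (t ^ b)⁻¹) = k g := by simp [k_pow, hr.1]; omega
  have e : ∀ i, ((t ^ a * r * (t ^ b)⁻¹) • o).1 i = (r • o).1 (i - a) := by
    intro i
    rw [mul_smul, mul_smul, ← zpow_natCast, ← zpow_natCast, ← zpow_neg, t_o, t_zpow]
  obtain ⟨h, hh, h', hh', e'⟩ := DC (g := t ^ a * r * (t ^ b)⁻¹) (g' := g) hk (by
    apply le_antisymm
    · exact (J_le _ _ _).2 ⟨h3.1, by omega, fun i hi => by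
        rw [e, (hr' o).2 _ (by omega), one_smul]; rfl⟩
    · by_contra c
      have := ((J_le 1 (t ^ a * r * (t ^ b)⁻¹) (a - 1)).1 (by omega)).2.2 (a - 1) le_rfl
      rw [e, one_smul, show (a : ℤ) - 1 - a = -1 by ring] at this
      exact (hr' o).1 rfl this.symm)
  exact ⟨h, hh, r, hr, h', hh', a, b, by simp only [d]; omega, e'⟩

noncomputable def len (S : Set G) (g : G) : ℕ := sInf {n : ℕ | g ∈ (S ∪ S⁻¹) ^ n}

theorem len_le {S : Set G} {g : G} {n : ℕ} (h : g ∈ (S ∪ S⁻¹) ^ n) : len S g ≤ n := Nat.sInf_le h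

theorem symm_mem (S : Set G) : ∀ x ∈ S ∪ S⁻¹, x⁻¹ ∈ S ∪ S⁻¹ := by
  rintro x (h | h)
  · right; simpa using h
  · left; exact h

theorem len_mem {S : Set G} (hS : Subgroup.closure S = ⊤) (g : G) : g ∈ (S ∪ S⁻¹) ^ len S g :=
  Nat.sInf_mem (CentralQI.exists_pow (S ∪ S⁻¹)
    (top_le_iff.1 (hS ▸ Subgroup.closure_mono Set.subset_union_left)) (symm_mem S) g)

theorem len_mul {S : Set G} (hS : Subgroup.closure S = ⊤) (a b : G) :
    len S (a * b) ≤ len S a + len S b :=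
  len_le (by rw [pow_add]; exact Set.mul_mem_mul (len_mem hS a) (len_mem hS b))

theorem len_inv {S : Set G} (hS : Subgroup.closure S = ⊤) (a : G) : len S a⁻¹ = len S a := by
  have : ∀ a, len S a⁻¹ ≤ len S a := fun a =>
    len_le (CentralQI.inv_mem_pow _ (symm_mem S) _ _ (len_mem hS a))
  exact le_antisymm (this a) (by simpa using this a⁻¹)

theorem len_one {S : Set G} {a : G} (h : a ∈ S ∪ S⁻¹) : len S a ≤ 1 := len_le (by simpa using h)

theorem len_pow {S : Set G} (hS : Subgroup.closure S = ⊤) (a : G) (n : ℕ) :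
    len S (a ^ n) ≤ n * len S a := by
  induction n with
  | zero => exact len_le (by simp)
  | succ n ih => rw [pow_succ]; have := len_mul hS (a ^ n) a; nlinarith

theorem sub_le {S : Set G} (φ : G → ℤ) (hφ : ∀ a b, φ (a * b) ≤ φ a + φ b) (h1 : φ 1 ≤ 0) (K : ℤ)
    (hK : ∀ x ∈ S ∪ S⁻¹, φ x ≤ K) (n : ℕ) : ∀ g ∈ (S ∪ S⁻¹) ^ n, φ g ≤ K * n := by
  induction n with
  | zero => intro g hg; simp at hg; simp [hg, h1]
  | succ n ih =>
    intro g hg
    rw [pow_succ] at hg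
    obtain ⟨x, hx, y, hy, rfl⟩ := hg
    have := hφ x y
    have := ih x hx
    have := hK y hy
    simp only; push_cast; nlinarith

def X : Set G := insert t H

theorem X_gen : Subgroup.closure X = ⊤ := by
  rw [eq_top_iff]
  intro g _
  obtain ⟨h, hh, r, hr, h', hh', a, b, -, rfl⟩ := normal_form g
  have h1 : ∀ x ∈ H, x ∈ Subgroup.closure X := fun x hx => Subgroup.subset_closure (Or.inr hx)
  have h2 : t ∈ Subgroup.closure X := Subgroup.subset_closure (Or.inl rfl)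
  exact mul_mem (mul_mem (h1 _ hh) (mul_mem (mul_mem (pow_mem h2 _) (h1 _ hr))
    (inv_mem (pow_mem h2 _)))) (h1 _ hh')

theorem d_H {g : G} (hg : g ∈ H) : d g = 0 := by simp [d, J_H hg, hg.1]

theorem len_X (g : G) : d g ≤ len X g ∧ (len X g : ℤ) ≤ d g + 3 := by
  constructor
  · have h0 : ∀ x ∈ X, d x ≤ 1 := by
      rintro x (rfl | hx)
      · have := J_t 1
        simp at this; simp [d, this]
      · simp [d_H hx]
    simpa using sub_le (S := X) d d_mul (d_H ⟨rfl, E.rfl⟩).le 1 (by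
      rintro x (hx | hx)
      · exact h0 x hx
      · rw [← d_inv]; exact h0 _ hx) _ g (len_mem X_gen g)
  · obtain ⟨h, hh, r, hr, h', hh', a, b, e, e'⟩ := normal_form g
    have h1 : ∀ x ∈ H, len X x ≤ 1 := fun x hx => len_one (Or.inl (Or.inr hx))
    have h2 : len X t ≤ 1 := len_one (Or.inl (Or.inl rfl))
    have b1 := len_mul X_gen (h * (t ^ a * r * (t ^ b)⁻¹)) h'
    have b2 := len_mul X_gen h (t ^ a * r * (t ^ b)⁻¹)
    have b3 := len_mul X_gen (t ^ a * r) (t ^ b)⁻¹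
    have b4 := len_mul X_gen (t ^ a) r
    have b5 := (len_pow X_gen t a).trans (Nat.mul_le_mul_left a h2)
    have b6 := (len_pow X_gen t b).trans (Nat.mul_le_mul_left b h2)
    rw [len_inv X_gen] at b3
    rw [← e'] at b1
    have := h1 _ hh
    have := h1 _ hh'
    have := h1 _ hr
    omega

noncomputable def gp (S : Set G) (a b : G) : ℝ :=
  ((len S a : ℝ) + (len S b : ℝ) - (len S (a⁻¹ * b) : ℝ)) / 2

theorem gp_X (a b : G) : ((J 1 a + J 1 b - J a b : ℤ) : ℝ) - 3 / 2 ≤ gp X a b ∧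
    gp X a b ≤ ((J 1 a + J 1 b - J a b : ℤ) : ℝ) + 3 := by
  have h1 := len_X a
  have h2 := len_X b
  have h3 := len_X (a⁻¹ * b)
  rw [d_eq] at h3
  simp only [d] at h1 h2
  have e1 : 2 * (J 1 a + J 1 b - J a b) - 3 ≤ (len X a : ℤ) + len X b - len X (a⁻¹ * b) := by omega
  have e2 : (len X a : ℤ) + len X b - len X (a⁻¹ * b) ≤ 2 * (J 1 a + J 1 b - J a b) + 6 := by omega
  have e1' := (Int.cast_le (R := ℝ)).2 e1
  have e2' := (Int.cast_le (R := ℝ)).2 e2
  unfold gp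
  push_cast at e1' e2' ⊢
  constructor <;> linarith

def lox (S : Set G) (g : G) : Prop := ∃ c : ℝ, 0 < c ∧ ∀ n : ℕ, c * (n : ℝ) ≤ (len S (g ^ n) : ℝ)

def sameEnd (S : Set G) (a b : G) : Prop :=
  ∀ K : ℝ, ∃ N : ℕ, ∀ n m : ℕ, N ≤ n → N ≤ m → K ≤ gp S (a ^ n) (b ^ m)

theorem not_lox {S : Set G} {g : G} (C : ℕ) (h : ∀ n, len S (g ^ n) ≤ C) : ¬ lox S g := by
  rintro ⟨c, hc, h'⟩
  obtain ⟨n, hn⟩ := exists_nat_gt (C / c)
  have h1 := h' n
  have h2 : (len S (g ^ n) : ℝ) ≤ C := by exact_mod_cast h n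
  rw [div_lt_iff₀ hc] at hn
  linarith

theorem hyp_X : ∃ δ : ℝ, ∀ x y z : G, min (gp X x y) (gp X y z) - δ ≤ gp X x z := by
  refine ⟨5, fun x y z => ?_⟩
  have h1 := gp_X x y
  have h2 := gp_X y z
  have h3 := gp_X x z
  have key : J 1 x + J 1 y - J x y ≤ J 1 x + J 1 z - J x z ∨
      J 1 y + J 1 z - J y z ≤ J 1 x + J 1 z - J x z := by
    have a1 := J_ultra x y z
    have a2 := J_ultra 1 x y
    have a3 := J_ultra 1 z y
    have a4 := J_ultra x 1 z
    rw [J_symm z y] at a3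
    rw [J_symm x 1] at a4
    omega
  rcases key with h | h
  · have := (Int.cast_le (R := ℝ)).2 h
    have := min_le_left (gp X x y) (gp X y z)
    linarith
  · have := (Int.cast_le (R := ℝ)).2 h
    have := min_le_right (gp X x y) (gp X y z)
    linarith

theorem lox_X {g : G} (hg : k g = 1) : lox X g := by
  refine ⟨1, one_pos, fun n => ?_⟩
  have h1 := (len_X (g ^ n)).1
  have h2 := (d_k (g ^ n)).1
  rw [k_pow, hg] at h2
  have : (n : ℤ) ≤ len X (g ^ n) := by omega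
  rw [one_mul]; exact_mod_cast this

theorem lox_X_ne {g : G} (hg : lox X g) : k g ≠ 0 := by
  intro hk
  apply not_lox (2 * J 1 g + 3).toNat _ hg
  intro n
  have : J 1 (g ^ n) ≤ J 1 g := by
    induction n with
    | zero =>
      have := (J_spec 1 g).1
      rw [pow_zero, J_H ⟨rfl, E.rfl⟩]; exact this
    | succ n ih =>
      have a1 := J_ultra 1 (g ^ n) (g ^ (n + 1))
      have a2 := J_mul (g ^ n) 1 g
      rw [mul_one, ← pow_succ, k_pow, hk] at a2
      omega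
  have h1 := (len_X (g ^ n)).2
  rw [d, k_pow, hk] at h1
  omega

theorem same_X {g h : G} (hg : 0 < k g) (hh : 0 < k h) : sameEnd X g h := by
  intro K
  obtain ⟨N, hN⟩ := exists_nat_gt (K + 2)
  refine ⟨N, fun n m hn hm => ?_⟩
  have h1 := (gp_X (g ^ n) (h ^ m)).1
  have a1 := J_ultra (g ^ n) 1 (h ^ m)
  rw [J_symm _ 1] at a1
  have a2 := (J_spec 1 (g ^ n)).2.1
  have a3 := (J_spec 1 (h ^ m)).2.1
  rw [k_pow] at a2 a3
  have a4 : (N : ℤ) ≤ n * k g := by nlinarith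
  have a5 : (N : ℤ) ≤ m * k h := by nlinarith
  have a6 : (N : ℤ) ≤ J 1 (g ^ n) + J 1 (h ^ m) - J (g ^ n) (h ^ m) := by omega
  have := (Int.cast_le (R := ℝ)).2 a6
  rw [Int.cast_natCast] at this
  linarith

theorem nonel_X : ∃ g h : G, lox X g ∧ lox X h ∧
    ¬ ((sameEnd X g h ∧ sameEnd X g⁻¹ h⁻¹) ∨ (sameEnd X g h⁻¹ ∧ sameEnd X g⁻¹ h)) := by
  obtain ⟨r, hr, hr1, hr'⟩ := exists_r
  refine ⟨t, r * t * r⁻¹, lox_X rfl, lox_X (by simp), ?_⟩
  have e : ∀ m : ℕ, (r * t * r⁻¹)⁻¹ ^ m = r * t ^ (-(m : ℤ)) * r := by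
    intro m
    rw [inv_pow, conj_pow, zpow_neg, zpow_natCast, mul_inv_rev, mul_inv_rev, hr1, hr1, mul_assoc]
  have j1 : ∀ m : ℕ, J 1 (r * t ^ (-(m : ℤ)) * r) = 0 := by
    intro m
    refine le_antisymm ((J_le _ _ _).2 ⟨le_rfl, by simp [hr.1, k_pow], fun i hi => ?_⟩)
      (J_spec _ _).1
    rw [mul_smul, mul_smul, (hr' _).2 _ (by omega), t_zpow, (hr' _).2 _ (by omega), one_smul]; rfl
  rintro (⟨-, h⟩ | ⟨h, -⟩)
  · obtain ⟨N, hN⟩ := h 4
    have h1 := hN (N + 1) (N + 1) (by omega) (by omega)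
    have h2 := (gp_X (t⁻¹ ^ (N + 1)) ((r * t * r⁻¹)⁻¹ ^ (N + 1))).2
    rw [e] at h1 h2
    rw [inv_pow, ← zpow_natCast, ← zpow_neg] at h1 h2
    rw [j1, J_t] at h2
    have j2 : 0 ≤ J (t ^ (-((N + 1 : ℕ) : ℤ))) (r * t ^ (-((N + 1 : ℕ) : ℤ)) * r) := by
      by_contra c
      have := ((J_le _ _ (-1)).1 (show J (t ^ (-((N + 1 : ℕ) : ℤ)))
        (r * t ^ (-((N + 1 : ℕ) : ℤ)) * r) ≤ -1 by omega)).2.2 (-1) le_rfl
      rw [t_o, mul_smul, mul_smul] at this
      refine (hr' _).1 ?_ this.symm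
      rw [t_zpow, (hr' _).2 _ (by push_cast; omega)]; rfl
    have j3 : max 0 (-((N + 1 : ℕ) : ℤ)) + 0 -
      J (t ^ (-((N + 1 : ℕ) : ℤ))) (r * t ^ (-((N + 1 : ℕ) : ℤ)) * r) ≤ 0 := by omega
    have := (Int.cast_le (R := ℝ)).2 j3
    rw [Int.cast_zero] at this
    linarith
  · obtain ⟨N, hN⟩ := h 4
    have h1 := hN N N le_rfl le_rfl
    have h2 := (gp_X (t ^ N) ((r * t * r⁻¹)⁻¹ ^ N)).2
    rw [e] at h1 h2
    rw [← zpow_natCast] at h1 h2
    rw [j1, J_t] at h2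
    have j2 := (J_spec (t ^ (N : ℤ)) (r * t ^ (-(N : ℤ)) * r)).1
    rw [k_zpow, k_t] at j2
    have j3 : max 0 (N : ℤ) + 0 - J (t ^ (N : ℤ)) (r * t ^ (-(N : ℤ)) * r) ≤ 0 := by omega
    have := (Int.cast_le (R := ℝ)).2 j3
    rw [Int.cast_zero] at this
    linarith

theorem par_X (g h : G) (hg : lox X g) (hh : lox X h) :
    sameEnd X g h ∨ sameEnd X g h⁻¹ ∨ sameEnd X g⁻¹ h ∨ sameEnd X g⁻¹ h⁻¹ := by
  rcases lt_or_gt_of_ne (lox_X_ne hg) with a | a <;> rcases lt_or_gt_of_ne (lox_X_ne hh) with b | b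
  · exact Or.inr (Or.inr (Or.inr (same_X (by simpa) (by simpa))))
  · exact Or.inr (Or.inr (Or.inl (same_X (by simpa) b)))
  · exact Or.inr (Or.inl (same_X a (by simpa)))
  · exact Or.inl (same_X a b)

theorem X_bdd {Y : Set G} (hY : Subgroup.closure Y = ⊤) : ∃ C : ℕ, ∀ x ∈ X, len Y x ≤ C := by
  obtain ⟨C, hC⟩ := bd_H (len Y) (len_mul hY) (len_inv hY)
  refine ⟨C + len Y t, ?_⟩
  rintro x (rfl | hx)
  · omega
  · have := hC x hx.1 hx.2; omega

theorem lineal {Y : Set G} (hY : Subgroup.closure Y = ⊤) (B : ℕ)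
    (hB : ∀ x, k x = 0 → len Y x ≤ B) (g h : G) (hg : lox Y g) (hh : lox Y h) :
    (sameEnd Y g h ∧ sameEnd Y g⁻¹ h⁻¹) ∨ (sameEnd Y g h⁻¹ ∧ sameEnd Y g⁻¹ h) := by
  have hne : ∀ g, lox Y g → k g ≠ 0 := fun g hg hk =>
    not_lox B (fun n => hB _ (by rw [k_pow, hk, mul_zero])) hg
  have hcmp : ∀ a b, k a = k b → len Y a ≤ B + len Y b := by
    intro a b e
    have h1 := len_mul hY (a * b⁻¹) b
    have h2 := hB (a * b⁻¹) (by simp [e])
    rw [inv_mul_cancel_right] at h1; omega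
  -- an element with positive height and linear growth
  obtain ⟨u, hu, c, hc, hcu⟩ : ∃ u, 0 < k u ∧ lox Y u := by
    rcases lt_or_gt_of_ne (hne g hg) with a | a
    · obtain ⟨c, hc, h'⟩ := hg
      exact ⟨g⁻¹, by simpa, c, hc, fun n => by rw [inv_pow, len_inv hY]; exact h' n⟩
    · exact ⟨g, a, hg⟩
  have hdiv : ∀ (y : G), 0 < k y → ∀ x : G, 0 ≤ k x → ∃ q ρ : ℕ, (ρ : ℤ) < k y ∧
      k x = q * k y + ρ := by
    intro y hy x hx
    obtain ⟨q, hq⟩ := Int.eq_ofNat_of_zero_le (Int.ediv_nonneg hx hy.le)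
    obtain ⟨ρ, hρ⟩ := Int.eq_ofNat_of_zero_le (Int.emod_nonneg (k x) hy.ne')
    refine ⟨q, ρ, hρ ▸ Int.emod_lt_of_pos _ hy, ?_⟩
    rw [← hq, ← hρ]
    have := Int.mul_ediv_add_emod (k x) (k y)
    linarith
  obtain ⟨K, ⟨y0, hy0, hK⟩, hmax⟩ := Int.exists_greatest_of_bdd
    (P := fun z => ∃ y ∈ Y ∪ Y⁻¹, k y = z) (by
      obtain ⟨N, hN⟩ := exists_nat_gt ((B + 1 + (k u).toNat * len Y t : ℕ) / c)
      refine ⟨(N + 1) * k u, ?_⟩
      rintro _ ⟨y, hy, rfl⟩
      by_cases h0 : 0 ≤ k y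
      swap
      · have : 0 ≤ ((N : ℤ) + 1) * k u := by positivity
        omega
      obtain ⟨q, ρ, h1, h2⟩ := hdiv u hu y h0
      have a1 := hcmp (u ^ q) (y * (t ^ ρ)⁻¹) (by simp [k_pow, h2])
      have a2 := len_mul hY y (t ^ ρ)⁻¹
      have a3 := len_one hy
      have a4 := len_pow hY t ρ
      have a5 : ρ * len Y t ≤ (k u).toNat * len Y t := Nat.mul_le_mul_right _ (by omega)
      rw [len_inv hY] at a2
      have a6 : len Y (u ^ q) ≤ B + 1 + (k u).toNat * len Y t := by omega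
      have a7 := (hcu q).trans (Nat.cast_le.2 a6)
      rw [div_lt_iff₀ hc] at hN
      have a8 : (q : ℝ) < N := by nlinarith
      have a9 : (q : ℤ) < N := by exact_mod_cast a8
      nlinarith)
    (by
      by_contra a
      push Not at a
      have : Y = ∅ := by
        rw [Set.eq_empty_iff_forall_notMem]
        intro y hy; exact a _ y (Or.inl hy) rfl
      rw [this, Subgroup.closure_empty] at hY
      have : u ∈ (⊥ : Subgroup G) := by rw [hY]; trivial
      rw [Subgroup.mem_bot] at this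
      rw [this] at hu; simp at hu)
  have L1 : ∀ x, k x ≤ K * len Y x := fun x =>
    sub_le (S := Y) k (fun a b => (k_mul a b).le) le_rfl K (fun x hx => hmax _ ⟨x, hx, rfl⟩) _ x
      (len_mem hY x)
  have L1' : ∀ x, |k x| ≤ K * len Y x := fun x => by
    have h1 := L1 x
    have h2 := L1 x⁻¹
    rw [len_inv hY, k_inv] at h2
    exact abs_le.2 ⟨by omega, h1⟩
  have hKpos : 0 < K := by
    have := L1 u
    by_contra a
    have : K * len Y u ≤ 0 := mul_nonpos_of_nonpos_of_nonneg (by omega) (by positivity)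
    omega
  have L2 : ∀ x, 0 ≤ k x → K * len Y x ≤ k x + K * (B + K * len Y t) := by
    intro x hx
    obtain ⟨q, ρ, h1, h2⟩ := hdiv y0 (hK ▸ hKpos) x hx
    rw [hK] at h1 h2
    have a1 := hcmp x (y0 ^ q * t ^ ρ) (by simp [k_pow, h2, hK])
    have a2 := len_mul hY (y0 ^ q) (t ^ ρ)
    have a3 := (len_pow hY y0 q).trans (Nat.mul_le_mul_left q (len_one hy0))
    have a4 := len_pow hY t ρ
    have a5 : (len Y x : ℤ) ≤ B + q + ρ * len Y t := by
      have : len Y x ≤ B + q + ρ * len Y t := by omega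
      exact_mod_cast this
    have a6 : (ρ : ℤ) * len Y t ≤ K * len Y t := by
      apply mul_le_mul_of_nonneg_right h1.le; positivity
    nlinarith
  have L2' : ∀ x, K * len Y x ≤ |k x| + K * (B + K * len Y t) := by
    intro x
    rcases le_total 0 (k x) with a | a
    · rw [abs_of_nonneg a]; exact L2 x a
    · have := L2 x⁻¹ (by simpa)
      rwa [len_inv hY, k_inv, ← abs_of_nonpos a] at this
  have same : ∀ a b : G, 0 < k a * k b → sameEnd Y a b := by
    intro a b hab R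
    obtain ⟨R', hR'⟩ := exists_nat_gt R
    refine ⟨(K * R' + K * (B + K * len Y t)).toNat, fun n m hn hm => ?_⟩
    have a1 := L1' (a ^ n)
    have a2 := L1' (b ^ m)
    have a3 := L2' ((a ^ n)⁻¹ * b ^ m)
    rw [k_mul, k_inv] at a3
    have hn' : K * R' + K * (B + K * len Y t) ≤ n := by omega
    have hm' : K * R' + K * (B + K * len Y t) ≤ m := by omega
    have a4 : 2 * (K * R' + K * (B + K * len Y t)) ≤
        |k (a ^ n)| + |k (b ^ m)| - |-k (a ^ n) + k (b ^ m)| := by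
      rw [k_pow, k_pow]
      rcases pos_and_pos_or_neg_and_neg_of_mul_pos hab with ⟨c1, c2⟩ | ⟨c1, c2⟩
      · have d1 : (n : ℤ) ≤ n * k a := by nlinarith
        have d2 : (m : ℤ) ≤ m * k b := by nlinarith
        generalize n * k a = p at *
        generalize m * k b = q at *
        generalize K * R' + K * (B + K * len Y t) = w at *
        simp only [abs_eq_max_neg]; omega
      · have d1 : n * k a ≤ -(n : ℤ) := by nlinarith
        have d2 : m * k b ≤ -(m : ℤ) := by nlinarith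
        generalize n * k a = p at *
        generalize m * k b = q at *
        generalize K * R' + K * (B + K * len Y t) = w at *
        simp only [abs_eq_max_neg]; omega
    have a5 : 0 ≤ K * (B + K * len Y t) := by positivity
    have a6 : K * (2 * R') ≤
        K * ((len Y (a ^ n) : ℤ) + len Y (b ^ m) - len Y ((a ^ n)⁻¹ * b ^ m)) := by nlinarith
    have a7 := le_of_mul_le_mul_left a6 hKpos
    have a8 := (Int.cast_le (R := ℝ)).2 a7
    push_cast at a8
    unfold gp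
    linarith
  rcases lt_or_gt_of_ne (mul_ne_zero (hne g hg) (hne h hh)) with a | a
  · exact Or.inr ⟨same _ _ (by simpa), same _ _ (by simpa)⟩
  · exact Or.inl ⟨same _ _ a, same _ _ (by simpa)⟩

theorem Y_bdd {Y : Set G} (hY : Subgroup.closure Y = ⊤)
    (hn : ∃ g h : G, lox Y g ∧ lox Y h ∧
      ¬ ((sameEnd Y g h ∧ sameEnd Y g⁻¹ h⁻¹) ∨ (sameEnd Y g h⁻¹ ∧ sameEnd Y g⁻¹ h))) :
    ∃ C : ℕ, ∀ y ∈ Y, len X y ≤ C := by
  by_contra hc
  push Not at hc
  obtain ⟨g, h, hg, hh, hn⟩ := hn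
  obtain ⟨C, hC⟩ := bd_H (len Y) (len_mul hY) (len_inv hY)
  refine hn (lineal hY (2 * C + 2) (fun x hx => ?_) g h hg hh)
  obtain ⟨z, hz, hz'⟩ : ∃ z, len Y z ≤ 1 ∧ J 1 x < J 1 z := by
    obtain ⟨y, hy, hy'⟩ := hc (2 * J 1 x + 4).toNat
    have h1 := (len_X y).2
    have h2 := d_inv y
    simp only [d, k_inv] at h1 h2
    by_cases a : J 1 x < J 1 y
    · exact ⟨y, len_one (Or.inl hy), a⟩
    · exact ⟨y⁻¹, len_one (Or.inr (by simpa using hy)), by omega⟩
  have a1 := J_mul x 1 z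
  rw [mul_one, hx] at a1
  have a2 := J_ultra 1 x (x * z)
  have a3 := J_ultra x 1 (x * z)
  rw [J_symm x 1] at a3
  obtain ⟨u, hu, u', hu', e⟩ := DC (g := z) (g' := x * z) (by simp [hx]) (by omega)
  have e' : x = u * z * u' * z⁻¹ := by rw [← e]; group
  have b1 := len_mul hY (u * z * u') z⁻¹
  have b2 := len_mul hY (u * z) u'
  have b3 := len_mul hY u z
  have b4 := hC u hu.1 hu.2
  have b5 := hC u' hu'.1 hu'.2
  rw [← e', len_inv hY] at b1
  omega

end Pool.Agent.H68.EndStab
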