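import Pool.Agent.H68.Sat7

set_option autoImplicit false

namespace Pool.Agent.H68.Sat

open Function SemidirectProduct Pool.Agent.H68.Fit
open scoped commutatorElement

variable {F M H : (G : Type) → [Group G] → Prop}
variable {G A B D : Type} [Group G] [Group A] [Group B] [Group D] {p : ℕ}

theorem FO.mk' (fin : ∀ (G : Type) [Group G], F G → Finite G)
    (s : ∀ (G A : Type) [Group G] [Group A] (f : G →* A), Surjective f → F G → F A)
    (r : ∀ (G A B : Type) [Group G] [Group A] [Group B] [Finite G] (α : G →* A) (β : G →* B),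
      Surjective α → Surjective β → (∀ g, α g = 1 → β g = 1 → g = 1) → F A → F B → F G)
    (o : F Unit) : FO F :=
  ⟨⟨fin, fun _ _ _ _ ⟨e⟩ => s _ _ e.toMonoidHom e.surjective, fun _ _ N _ => s _ _ _ (mk_surj N),
    fun _ _ _ N L _ _ e => r _ _ _ _ _ (mk_surj N) (mk_surj L) fun _ a b =>
      Subgroup.mem_bot.1 (e.le ⟨mk_one.1 a, mk_one.1 b⟩)⟩, o⟩

def Pr (M H : (G : Type) → [Group G] → Prop) (G : Type) [Group G] : Prop :=
  Finite G ∧ M (Res H G)

theorem pr_fo (hM : FO M) (hH : FO H) : FO (Pr M H) :=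
  FO.mk' (fun _ _ h => h.1)
    (fun _ _ _ _ f hf ⟨_, h⟩ => ⟨Finite.of_surjective f hf, hM.toFm.surj _ (hH.rs_surj f hf) h⟩)
    (fun _ _ _ _ _ _ _ α β ha hb hi a b => ⟨inferInstance, hM.toFm.sub _ _ (hH.rs_surj α ha)
      (hH.rs_surj β hb) (fun g x y => Subtype.ext
        (hi g (congrArg Subtype.val x) (congrArg Subtype.val y))) a.2 b.2⟩)
    ⟨inferInstance, hM.triv⟩

theorem pr_of (hM : FO M) (hH : FO H) (h : H G) : Pr M H G :=
  haveI : Subsingleton (Res H G) := ⟨fun a b => Subtype.ext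
    ((hH.toFm.res_le (MonoidHom.id G) surjective_id h a.2).trans
      (hH.toFm.res_le (MonoidHom.id G) surjective_id h b.2).symm)⟩
  ⟨hH.fin _ h, hM.triv⟩

theorem of_good' (hF : FO F) (P : (G : Type) → [Group G] → Prop) (hP : Fm P)
    (h : ∀ (G : Type) [Group G] [Finite G], P G → ∀ p : ℕ, p.Prime → ∀ g ∈ Res F G, ¬ qe p g →
      ∃ (N : Subgroup G) (_ : N.Normal), MC (· ≠ p) N ∧ Good F p (G ⧸ N))
    [Finite G] (hG : P G) : F G := by
  induction hn : Nat.card G using Nat.strong_induction_on generalizing G with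
  | _ n ih =>
  refine hF.of_res fun x hx => ?_
  by_contra h1
  obtain ⟨p, hp, h2⟩ := ex_prime h1
  have := Fact.mk hp
  obtain ⟨N, _, m, hg⟩ := h G hG p hp x hx h2
  by_cases h0 : m.sub = ⊥
  · refine h1 (hF.toFm.res_le (MonoidHom.id G) surjective_id
      (hg G _ (mk_surj N) fun e he => pe.of_ker _ (fun a ha => ?_) (pe_quo m (mk_one.1 he))) hx)
    rw [Subgroup.mem_bot.1 (h0.le (mk_one.1 ha))]; exact pe.one
  exact h2 (mk_one (N := m.sub).1 (hF.toFm.res_le _ (mk_surj _)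
    (ih _ (hn ▸ card_quo_lt h0) (hP.quo _ _ hG) rfl) hx)).2

def Cp (M : (G : Type) → [Group G] → Prop) (p : ℕ) : Prop :=
  ∃ (C : Type) (_ : CommGroup C), Nat.card C = p ∧ M C

theorem cp_of_central [hp : Fact p.Prime] [Finite G] (hM : Fm M) (h : M G) {u : G} (h1 : u ≠ 1)
    (h2 : pe p u) (h3 : ∀ g, g * u = u * g) : Cp M p := by
  have : (p : ℤ) ∣ Nat.card (Subgroup.zpowers u) := h2.dvd h1 (by
    rw [Nat.card_zpowers, zpow_natCast, pow_orderOf_eq_one])
  obtain ⟨⟨_, i, rfl⟩, hv⟩ := exists_prime_orderOf_dvd_card' p (by exact_mod_cast this)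
  refine ⟨Subgroup.zpowers (u ^ i), IsCyclic.commGroup, ?_, central hM h _ ?_⟩
  · rw [Nat.card_zpowers, ← hv, ← Subgroup.orderOf_coe]
  · rintro _ ⟨j, rfl⟩ g
    exact ((show Commute g u from h3 g).zpow_right i).zpow_right j

theorem cp_good [hp : Fact p.Prime] (hM : FO M) (hH : FO H) (hS : St (Pr M H)) (c : Cp M p)
    (h : Pr M H G) : Good (Pr M H) p (G ⧸ Tr (Pr M H) p G) ∧ Tr (Pr M H) p G ≤ Res H G := by
  classical
  obtain ⟨C, _, c1, c2⟩ := c
  have := h.1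
  have := hM.fin _ c2
  have := Fact.mk (c1 ▸ hp.out : (Nat.card C).Prime)
  let X := G ⧸ Res H G
  let φ : X →* MulAut (X → C) := tw MulAction.toEndHom 1
  have h4 : ∀ {w : (X → C) ⋊[φ] X}, w ∈ Res H _ → w.right = 1 :=
    fun hw => hH.toFm.res_le rightHom rightHom_surjective hH.res_mem hw
  have h1 : Pr M H ((X → C) ⋊[φ] X) := ⟨inferInstance, hM.of_res fun w hw => by
    refine Subtype.ext (SemidirectProduct.ext (funext fun x => ?_) (h4 w.2))
    let ε : Res H ((X → C) ⋊[φ] X) →* C := MonoidHom.mk' (fun w => w.1.left x)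
      fun a b => by simp [h4 a.2]
    rcases ε.range.eq_bot_or_eq_top_of_prime_card with e | e
    · exact Subgroup.mem_bot.1 (e.le ⟨w, rfl⟩)
    · exact hM.toFm.res_le ε (MonoidHom.range_eq_top.1 e) c2 hw⟩
  have h2 : Md (Pr M H) p (φ.comp (QuotientGroup.mk' (Res H G))) := ⟨inferInstance,
    fun _ => pe_pi fun _ => ⟨1, by rw [pow_one, ← c1, pow_card_eq_one']⟩, (pr_fo hM hH).toFm.sub
      (SemidirectProduct.map (MonoidHom.id _) (QuotientGroup.mk' (Res H G)) fun _ => rfl) rightHom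
      (fun x => by
        obtain ⟨g, hg⟩ := mk_surj _ x.right
        exact ⟨⟨x.left, g⟩, SemidirectProduct.ext rfl hg⟩) rightHom_surjective
      (fun g a b => SemidirectProduct.ext (by simpa using congrArg SemidirectProduct.left a) b) h1 h⟩
  have : Nontrivial C := Finite.one_lt_card_iff_nontrivial.1 (c1 ▸ hp.out.one_lt)
  obtain ⟨z, hz⟩ := exists_ne (1 : C)
  refine ⟨h2.gls (pr_fo hM hH) hS (fun _ => z) fun e => hz (congrFun e 1), fun g hg => ?_⟩
  have := congrFun (MulEquiv.congr_fun (hg _ _ h2) (Pi.mulSingle 1 z)) 1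
  change Pi.mulSingle (M := fun _ : X => C) 1 z ((QuotientGroup.mk' _ g)⁻¹ * 1) =
    Pi.mulSingle (M := fun _ : X => C) 1 z 1 at this
  by_contra hn
  rw [Pi.mulSingle_eq_of_ne (by rwa [mul_one, Ne, inv_eq_one, mk_one]), Pi.mulSingle_eq_same] at this
  exact hz this.symm

theorem ex_nonab [hp : Fact p.Prime] : ∃ (D : Type) (_ : Group D) (_ : Finite D),
    (∀ d : D, pe p d) ∧ ∃ z : D, z ≠ 1 ∧ z ∈ commutator D ∧ ∀ d, d * z = z * d := by
  classical
  obtain ⟨C, _, _, z, -, oz, ez⟩ := ex_cyc hp.out.ne_zero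
  have z1 : z ≠ 1 := fun e => hp.out.one_lt.ne (by rw [← oz, e, orderOf_one])
  let φ : C →* MulAut (C → C) := tw MulAction.toEndHom 1
  have h1 : ∀ d : (C → C) ⋊[φ] C, pe p d := fun d => by
    refine pe.of_ker rightHom (fun y hy => ?_) ⟨1, by simpa using ez _⟩
    rw [← inl_left_mul_inr_right y, show y.right = 1 from hy, map_one, mul_one]
    exact (pe_pi fun _ => ⟨1, by simpa using ez _⟩).map _
  have := nil_of_pe (p := p) ⊤ fun d _ => h1 d
  obtain ⟨U, _, h2, h3, h4⟩ := min_norm (commutator ((C → C) ⋊[φ] C)) fun e => by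
    have := e.le (Subgroup.commutator_mem_commutator (Subgroup.mem_top (inr z))
      (Subgroup.mem_top (inl (Pi.mulSingle 1 z))))
    rw [Subgroup.mem_bot, commutatorElement_eq_one_iff_mul_comm] at this
    have := congrFun (congrArg SemidirectProduct.left this) 1
    change 1 * Pi.mulSingle (M := fun _ : C => C) 1 z (z⁻¹ * 1) =
      Pi.mulSingle (M := fun _ : C => C) 1 z 1 * 1 at this
    simp [z1] at this
    exact z1 this.symm
  obtain ⟨u, hu⟩ := (Subgroup.ne_bot_iff_exists_ne_one).1 h3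
  refine ⟨_, _, inferInstance, h1, u, fun e => hu (Subtype.ext e), h2 u.2, fun d => ?_⟩
  rcases h4 ⁅U, ⊤⁆ inferInstance (Subgroup.commutator_le_left _ _) with e | e
  · have := e.le (Subgroup.commutator_mem_commutator u.2 (Subgroup.mem_top d))
    rw [Subgroup.mem_bot, commutatorElement_eq_one_iff_mul_comm] at this
    exact this.symm
  · exact absurd (comm_ne le_top e) h3

theorem cp_wr [hp : Fact p.Prime] (hM : FO M) (hH : FO H) {Y : Type} [Group Y] [Finite Y]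
    (hg : Good (Pr M H) p Y) {t : Y} (s3 : t ∈ Res H Y) (s2 : t ≠ 1) : Cp M p := by
  classical
  obtain ⟨D, _, _, d1, z, z1, z2, z3⟩ := ex_nonab (p := p)
  let φ : Y →* MulAut (Y → D) := tw MulAction.toEndHom 1
  have h1 := hg ((Y → D) ⋊[φ] Y) rightHom rightHom_surjective fun y hy => by
    rw [← inl_left_mul_inr_right y, show y.right = 1 from hy, map_one, mul_one]
    exact (pe_pi fun _ => d1 _).map _
  obtain ⟨w, w1, rfl⟩ := hH.res_surj (rightHom (φ := φ)) rightHom_surjective s3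
  have h2 : (fun _ : Y => z) ∈ (Res H _).comap (inl (φ := φ)) := by
    refine Subgroup.pi_mem_of_mulSingle_mem _ fun y => ?_
    refine (Subgroup.commutator_le.2 fun d _ e _ => ?_ : commutator D ≤ ((Res H _).comap
      (inl (φ := φ))).comap (MonoidHom.mulSingle (fun _ : Y => D) y)) z2
    have := Subgroup.commutator_le_left _ ⊤ (Subgroup.commutator_mem_commutator
      (Subgroup.commutator_le_right ⊤ _ (Subgroup.commutator_mem_commutator
        (Subgroup.mem_top (inl (Pi.mulSingle y d))) w1)) (Subgroup.mem_top (inl (Pi.mulSingle y e))))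
    change inl (Pi.mulSingle y ⁅d, e⁆) ∈ Res H ((Y → D) ⋊[φ] Y)
    have s4 : w.right⁻¹ * y ≠ y := by simpa using s2
    have hφ : ∀ g f x, φ g f x = f (g⁻¹ * x) := fun _ _ _ => rfl
    have e1 : ⁅(inl (Pi.mulSingle y d) : (Y → D) ⋊[φ] Y), w⁆ = (inl (Pi.mulSingle y d * (w.left *
        φ w.right (Pi.mulSingle y d)⁻¹ * w.left⁻¹)) : (Y → D) ⋊[φ] Y) := by
      rw [commutatorElement_def]; ext <;> simp [mul_assoc]
    rw [e1, ← map_commutatorElement] at this
    convert this using 2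
    ext x
    by_cases e : x = y <;> simp [hφ, commutatorElement_def, e, s4]
  refine cp_of_central hM.toFm h1.2 (u := ⟨_, h2⟩) (fun e => z1 ?_)
    (pe_inj _ (Subgroup.subtype_injective _) ((pe_pi fun _ => d1 z).map inl)) fun g => ?_
  · exact congrFun (congrArg (fun x => x.1.left) e) 1
  · ext x <;> simp [φ, tw_apply, z3]

theorem cp_of_res [hp : Fact p.Prime] (hM : FO M) (hH : FO H) (hS : St (Pr M H)) (h : Pr M H G)
    (r : Res H G) (hr : ¬ qe p r) : Cp M p := by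
  classical
  have := h.1
  have hF := pr_fo hM hH
  have hi : ∀ g : Res H G, (Res H G).subtype g = 1 → qe p g := fun g h => by
    rw [show g = 1 from Subtype.ext h]; exact PE.one
  by_cases h0 : Res H G ≤ Tr (Pr M H) p G
  · have m : MC (· ≠ p) (⊤ : Subgroup (Res H G)) := fun a _ b _ =>
      mc_comap (tr_mc hF.toFm hS h) _ hi a (h0 a.2) b (h0 b.2)
    have h1 : ∀ x : Res H G ⧸ m.sub, pe p x := fun x => by
      obtain ⟨y, rfl⟩ := mk_surj _ x
      exact pe_quo m trivial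
    have := nil_of_pe (p := p) ⊤ fun x _ => h1 x
    obtain ⟨q, -, U, _, -, h2, h3, -⟩ := min_nil (⊤ : Subgroup (Res H G ⧸ m.sub)) fun e =>
      hr (mk_one (N := m.sub).1 (Subgroup.mem_bot.1 (e.le (Subgroup.mem_top _)))).2
    obtain ⟨u, hu⟩ := (Subgroup.ne_bot_iff_exists_ne_one).1 h2
    exact cp_of_central hM.toFm (hM.quo _ _ h.2) (fun e => hu (Subtype.ext e)) (h1 u)
      fun g => h3 u u.2 g trivial
  obtain ⟨s, s1, s2⟩ := SetLike.not_le_iff_exists.1 h0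
  exact cp_wr hM hH (gls hF hS h r fun e => hr (PE.of_ker _ hi e))
    (hH.res_map _ (mk_surj (Tr (Pr M H) p G)) s1) (mt mk_one.1 s2)

def Gd (M H : (G : Type) → [Group G] → Prop) (D : Type) [Group D] : Prop :=
  Finite D ∧ ∀ d : D, (∀ (B : Type) [Group B] (ε : D →* B), Surjective ε → M B → Perf H B →
    ε d = 1) → d = 1

def Cond (M H : (G : Type) → [Group G] → Prop) (p : ℕ) (A : Type) [Group A] : Prop :=
  ∃ (Γ D : Type) (_ : Group Γ) (_ : Group D) (δ : Γ →* D) (α : Γ →* A), Gd M H D ∧ Surjective δ ∧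
    Surjective α ∧ ∀ γ, δ γ ∈ Rd p D → α γ ∈ Rd p A

def Mh (M H : (G : Type) → [Group G] → Prop) (A : Type) [Group A] : Prop :=
  Finite A ∧ ∀ p : ℕ, p.Prime → (∀ a : A, ¬ qe p a → Cp M p) ∧ Cond M H p A

theorem qe_pair (α : G →* A) (β : G →* B) (hi : ∀ g, α g = 1 → β g = 1 → g = 1) {g : G}
    (a : qe p (α g)) (b : qe p (β g)) : qe p g := by
  obtain ⟨m, h1, h2⟩ := a
  obtain ⟨n, h3, h4⟩ := b
  exact ⟨m * n, h1.mul h3, hi _ (by rw [map_pow, pow_mul, h2, one_pow])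
    (by rw [map_pow, mul_comm, pow_mul, h4, one_pow])⟩

theorem mh_fo : FO (Mh M H) := by
  refine FO.mk' (fun _ _ h => h.1) ?_ ?_ ⟨inferInstance, fun p _ => ⟨fun a h => (h PE.one).elim,
    Unit, Unit, inferInstance, inferInstance, 1, 1, ⟨inferInstance, fun _ _ => rfl⟩, fun _ => ⟨1, rfl⟩, fun _ => ⟨1, rfl⟩,
    fun _ _ => one_mem _⟩⟩
  · rintro G A _ _ f hf ⟨_, h⟩
    refine ⟨Finite.of_surjective f hf, fun p hp => ⟨fun a ha => ?_, ?_⟩⟩
    · obtain ⟨g, rfl⟩ := hf a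
      exact (h p hp).1 g fun e => ha (e.map f)
    · obtain ⟨Γ, D, _, _, δ, α, h1, h2, h3, h4⟩ := (h p hp).2
      have := Fact.mk hp
      exact ⟨Γ, D, _, _, δ, f.comp α, h1, h2, hf.comp h3, fun γ e => rd_map f hf (h4 γ e)⟩
  rintro G A B _ _ _ _ f g hf hg hi ⟨_, a⟩ ⟨_, b⟩
  refine ⟨inferInstance, fun p hp => ⟨fun x hx => ?_, ?_⟩⟩
  · by_contra hn
    exact hx (qe_pair f g hi (by_contra fun e => hn ((a p hp).1 _ e))
      (by_contra fun e => hn ((b p hp).1 _ e)))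
  have := Fact.mk hp
  obtain ⟨T, D, _, _, δ, π, ⟨_, h1⟩, h2, hπ, h4⟩ := (a p hp).2
  obtain ⟨T', D', _, _, δ', π', ⟨_, h1'⟩, h2', hπ', h4'⟩ := (b p hp).2
  let q₁ : (T × T') × G →* T := (MonoidHom.fst _ _).comp (MonoidHom.fst _ _)
  let q₂ : (T × T') × G →* T' := (MonoidHom.snd _ _).comp (MonoidHom.fst _ _)
  let W : Subgroup ((T × T') × G) := (π.comp q₁).eqLocus (f.comp (MonoidHom.snd _ _)) ⊓
    (π'.comp q₂).eqLocus (g.comp (MonoidHom.snd _ _))
  let θ := (δ.comp (q₁.comp W.subtype)).prod (δ'.comp (q₂.comp W.subtype))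
  have s1 : Surjective ((MonoidHom.fst _ _).comp θ.range.subtype) := fun d => by
    obtain ⟨t, rfl⟩ := h2 d
    obtain ⟨x, hx⟩ := hf (π t)
    obtain ⟨t', ht⟩ := hπ' (g x)
    exact ⟨⟨_, ⟨((t, t'), x), hx.symm, ht⟩, rfl⟩, rfl⟩
  have s2 : Surjective ((MonoidHom.snd _ _).comp θ.range.subtype) := fun d => by
    obtain ⟨t', rfl⟩ := h2' d
    obtain ⟨x, hx⟩ := hg (π' t')
    obtain ⟨t, ht⟩ := hπ (f x)
    exact ⟨⟨_, ⟨((t, t'), x), ht, hx.symm⟩, rfl⟩, rfl⟩
  refine ⟨W, θ.range, _, _, θ.rangeRestrict, (MonoidHom.snd _ _).comp W.subtype,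
    ⟨inferInstance, fun d h => Subtype.ext (Prod.ext
      (h1 _ fun B _ ε x => h B (ε.comp ((MonoidHom.fst _ _).comp θ.range.subtype)) (x.comp s1))
      (h1' _ fun B _ ε x => h B (ε.comp ((MonoidHom.snd _ _).comp θ.range.subtype)) (x.comp s2)))⟩,
    θ.rangeRestrict_surjective, fun x => ?_, fun γ h => ?_⟩
  · obtain ⟨t, ht⟩ := hπ (f x)
    obtain ⟨t', ht'⟩ := hπ' (g x)
    exact ⟨⟨((t, t'), x), ht, ht'⟩, rfl⟩
  have := (rd_spec (p := p) (G := A)).1
  have := (rd_spec (p := p) (G := B)).1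
  refine le_rd (N := (Rd p A).comap f ⊓ (Rd p B).comap g) inferInstance (fun x hx y hy u v =>
    qe_pair f g hi ?_ ?_) ⟨?_, ?_⟩
  · rw [map_mul]; exact rd_spec.2 _ hx.1 _ hy.1 (u.map f) (v.map f)
  · rw [map_mul]; exact rd_spec.2 _ hx.2 _ hy.2 (u.map g) (v.map g)
  · change f γ.1.2 ∈ Rd p A
    exact (show π γ.1.1.1 = f γ.1.2 from γ.2.1) ▸ (h4 _ (rd_map _ s1 h) : π γ.1.1.1 ∈ Rd p A)
  · change g γ.1.2 ∈ Rd p B
    exact (show π' γ.1.1.2 = g γ.1.2 from γ.2.2) ▸ (h4' _ (rd_map _ s2 h) : π' γ.1.1.2 ∈ Rd p B)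

theorem mh_st : St (Mh M H) := by
  rintro G _ _ ⟨-, h⟩
  refine ⟨inferInstance, fun p hp => ⟨fun a ha => ?_, ?_⟩⟩ <;> have := Fact.mk hp
  · by_contra hn
    exact ha (frat_qe (fun g => by_contra fun e => hn ((h p hp).1 g e)) a)
  obtain ⟨Γ, D, _, _, δ, α, h1, h2, h3, h4⟩ := (h p hp).2
  have := (rd_spec (p := p) (G := G ⧸ frattini G)).1
  refine ⟨_, D, _, _, δ.comp (p1 α (QuotientGroup.mk' _)), p2 α _, h1, h2.comp fun γ => ?_,
    fun g => ?_, fun γ e => le_rd inferInstance (frat_mc rd_spec.2) ?_⟩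
  · obtain ⟨g, hg⟩ := mk_surj _ (α γ); exact ⟨⟨(γ, g), hg.symm⟩, rfl⟩
  · obtain ⟨γ, hγ⟩ := h3 g; exact ⟨⟨(γ, g), hγ⟩, rfl⟩
  · rw [Subgroup.mem_comap, ← fp_rel]; exact h4 _ e

theorem mh_of (hM : FO M) (hH : FO H) (hS : St (Pr M H)) (h : Pr M H G) : Pr (Mh M H) H G :=
  haveI := h.1
  ⟨h.1, inferInstance, fun _ hp => haveI := Fact.mk hp; ⟨cp_of_res hM hH hS h, _, _, _, _,
    MonoidHom.id _, MonoidHom.id _, ⟨inferInstance, fun _ e =>
      e _ (MonoidHom.id _) surjective_id h.2 (perf_res hH)⟩, surjective_id, surjective_id,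
    fun _ e => e⟩⟩

theorem Gd.min [Fact p.Prime] (hM : FO M) (h : Gd M H D) (ψ : D →* A) (hψ : Surjective ψ)
    (hA : Perf H A) : ∃ S : Subgroup D, Surjective (ψ.comp S.subtype) ∧ M S ∧ Perf H S ∧
      ∀ s ∈ Rd p S, (s : D) ∈ Rd p D := by
  obtain ⟨_, h⟩ := h
  obtain ⟨S, ⟨h1, h2⟩, hm⟩ := (wellFounded_lt (α := Subgroup D)).has_min
    {S | Surjective (ψ.comp S.subtype) ∧ ∀ (B : Type) [Group B] (ε : D →* B), Surjective ε → M B →
      Perf H B → Surjective (ε.comp S.subtype)}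
    ⟨⊤, fun a => by obtain ⟨g, rfl⟩ := hψ a; exact ⟨⟨g, trivial⟩, rfl⟩,
      fun B _ ε x _ _ a => by obtain ⟨g, rfl⟩ := x a; exact ⟨⟨g, trivial⟩, rfl⟩⟩
  refine ⟨S, h1, hM.of_res fun s hs => Subtype.ext (h _ fun B _ ε x y z =>
    hM.toFm.res_le _ (h2 B ε x y z) y hs), fun N hN hn => ?_, fun s hs => ?_⟩
  · by_contra hc
    have key : ∀ (B : Type) [Group B] (ε : D →* B), Surjective (ε.comp S.subtype) → Perf H B →
        Surjective (ε.comp (N.map S.subtype).subtype) := fun B _ ε x z => by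
      by_cases e : N.map (ε.comp S.subtype) = ⊤
      · intro b
        obtain ⟨n, u, rfl⟩ := e.ge (Subgroup.mem_top b)
        exact ⟨⟨n, n, u, rfl⟩, rfl⟩
      obtain ⟨T, _, σ, a, b, c⟩ := z _ (hN.map _ x) e
      exact absurd ⟨T, _, σ.comp (ε.comp S.subtype), a.comp x, fun n u => b _ ⟨n, u, rfl⟩, c⟩ hc
    refine hm (N.map S.subtype) ⟨key _ ψ h1 hA, fun B _ ε x y z => key B ε (h2 B ε x y z) z⟩
      (lt_of_le_of_ne (Subgroup.map_subtype_le N) fun e => hn (eq_top_iff.2 fun s _ => ?_))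
    obtain ⟨m, u, e⟩ := e.ge s.2
    rwa [← (Subtype.ext e : m = s)]
  let Y : Subgroup D :=
    { carrier := {d | ∀ (B : Type) [Group B] (ε : D →* B), Surjective ε → M B → Perf H B →
        ε d ∈ Rd p B}
      one_mem' := fun B _ ε _ _ _ => by rw [map_one]; exact one_mem _
      mul_mem' := fun a b B _ ε x y z => by rw [map_mul]; exact mul_mem (a B ε x y z) (b B ε x y z)
      inv_mem' := fun a B _ ε x y z => by rw [map_inv]; exact inv_mem (a B ε x y z) }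
  refine le_rd (N := Y) ⟨fun d a g B _ ε x y z => ?_⟩ (fun a ha b hb u v => qe_sep fun i w =>
    h _ fun B _ ε x y z => pq (w.map ε) ?_) fun B _ ε x y z => rd_map _ (h2 B ε x y z) hs
  · have := Finite.of_surjective ε x
    simpa using rd_spec.1.conj_mem _ (a B ε x y z) (ε g)
  · have := Finite.of_surjective ε x
    rw [map_zpow, map_mul]
    exact (rd_spec.2 _ (ha B ε x y z) _ (hb B ε x y z) (u.map ε) (v.map ε)).zpow i

theorem of_mh (hM : FO M) (hH : FO H) (hS : St (Pr M H)) (h : Pr (Mh M H) H G) : Pr M H G := by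
  have hF := pr_fo hM hH
  have := h.1
  refine of_good' hF _ (pr_fo mh_fo hH).toFm (fun G _ _ h p hp g hg hq => ?_) h
  have := Fact.mk hp
  have c := (h.2.2 p hp).1 ⟨g, mk_one.1 (hF.toFm.res_le _ (mk_surj _) (pr_of hM hH hH.res_mem) hg)⟩
    fun e => hq (e.map (Res H G).subtype)
  obtain ⟨Γ, D, _, _, δ, α, h1, h2, h3, h4⟩ := (h.2.2 p hp).2
  have : (Rd p (Res H G)).Characteristic := Subgroup.characteristic_iff_map_le.2 fun φ => by
    rintro _ ⟨x, hx, rfl⟩; exact rd_map φ.toMonoidHom φ.surjective hx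
  let N := (Rd p (Res H G)).map (Res H G).subtype
  refine ⟨N, inferInstance, mc_map rd_spec.2 _, ?_⟩
  have h5 : ∀ γ, δ γ ∈ Rd p D → ((hH.rs _ (mk_surj N)).comp α) γ = 1 := fun γ e =>
    Subtype.ext (mk_one.2 ⟨_, h4 γ e, rfl⟩)
  obtain ⟨ψ, hψ⟩ := exists_lift δ h2 _ fun γ e => h5 γ (e ▸ one_mem _)
  obtain ⟨S, s1, s2, s3, s4⟩ := h1.min (p := p) hM ψ (fun y => by
    obtain ⟨γ, rfl⟩ := ((hH.rs_surj _ (mk_surj N)).comp h3) y
    exact ⟨_, hψ γ⟩) (perf_res hH)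
  have := h1.1
  obtain ⟨W, _, _, π, ι, ε, x, w1, w2, w3, w4⟩ := twist hH s3 _ s1
  have hW : Pr M H W := ⟨inferInstance, hM.of_res fun w hw =>
    w3 w fun y => hM.toFm.res_le _ (w2 y) s2 hw⟩
  obtain ⟨g1, g2⟩ := cp_good hM hH hS c hW
  obtain ⟨π', e⟩ := exists_lift _ (mk_surj (Tr (Pr M H) p W)) π fun w hw => by
    have hw := mk_one.1 hw
    obtain ⟨γ, hγ⟩ := h2 (ε x ⟨w, g2 hw⟩)
    refine (w4 ⟨w, g2 hw⟩).trans (congrArg Subtype.val (?_ : ψ (ε x ⟨w, g2 hw⟩) = 1))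
    rw [← hγ, hψ]
    refine h5 γ (hγ ▸ s4 _ (rd_map _ (w2 x) (le_rd (N := (Tr (Pr M H) p W).comap (Res H W).subtype)
      inferInstance (mc_comap (tr_mc hF.toFm hS hW) _ fun g h => ?_) hw)))
    rw [show g = 1 from Subtype.ext h]; exact PE.one
  exact g1.surj hF.toFm π' fun y => by obtain ⟨w, rfl⟩ := w1 y; exact ⟨_, e w⟩

end Pool.Agent.H68.Sat
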