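import Pool.Agent.H68.Nl1
import Pool.Agent.H68.Sat8

set_option autoImplicit false

namespace Pool.Agent.H68.Fa

open Function SemidirectProduct Pool.Agent.H68.Fit Pool.Agent.H68.Sat Pool.Agent.H68.Nl
open scoped commutatorElement

abbrev Cl := (G : Type) → [Group G] → Prop

variable {F H P Q : Cl}
variable {G A B C D Γ Λ Ω Ξ : Type} [Group G] [Group A] [Group B] [Group D] [Group Γ] [Group Λ]

/-! products of formations -/

theorem res_anti [Finite G] (hP : FO P) (hQ : Fm Q) (h : ∀ (X : Type) [Group X], P X → Q X) :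
    Res Q G ≤ Res P G := fun _ hg =>
  mk_one.1 (hQ.res_le _ (mk_surj _) (h _ hP.res_mem) hg)

theorem res_pr [Finite G] (hP : FO P) (hQ : FO Q) :
    Res (Pr P Q) G = (Res P (Res Q G)).map (Res Q G).subtype := by
  have hc : (Res P (Res Q G)).Characteristic := Subgroup.characteristic_iff_le_comap.2
    fun φ g hg => hP.res_map φ.toMonoidHom φ.surjective hg
  apply le_antisymm
  · intro g hg
    let N := (Res P (Res Q G)).map (Res Q G).subtype
    refine mk_one.1 ((pr_fo hP hQ).toFm.res_le _ (mk_surj N) ⟨inferInstance, ?_⟩ hg)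
    exact hP.of_ker _ (hQ.rs_surj _ (mk_surj N)) fun x hx => Subtype.ext (mk_one.2 ⟨x, hx, rfl⟩)
  · rintro _ ⟨x, hx, rfl⟩
    exact mk_one.1 (congrArg Subtype.val (hP.toFm.res_le _
      (hQ.rs_surj _ (mk_surj (Res (Pr P Q) G))) (pr_fo hP hQ).res_mem.2 hx))

theorem pr_assoc (hF : FO F) (hP : FO P) (hQ : FO Q) : Pr (Pr F P) Q = Pr F (Pr P Q) := by
  funext G _
  refine propext ⟨fun ⟨_, _, h⟩ => ⟨inferInstance, ?_⟩, fun ⟨_, h⟩ => ⟨inferInstance, inferInstance, ?_⟩⟩
  · rw [res_pr hP hQ]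
    exact hF.iso _ _ ⟨Subgroup.equivMapOfInjective _ _ (Subgroup.subtype_injective _)⟩ h
  · rw [res_pr hP hQ] at h
    exact hF.iso _ _ ⟨(Subgroup.equivMapOfInjective _ _ (Subgroup.subtype_injective _)).symm⟩ h

def Tv : Cl := fun G _ => Subsingleton G

theorem tv_fo : FO Tv := FO.mk' (fun _ _ (_ : Subsingleton _) => inferInstance)
  (fun _ _ _ _ _ hf (_ : Subsingleton _) => hf.subsingleton)
  (fun _ _ _ _ _ _ _ α _ _ _ hi (_ : Subsingleton _) (_ : Subsingleton _) =>
    ⟨fun a b => by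
      rw [hi a (Subsingleton.elim _ _) (Subsingleton.elim _ _),
        hi b (Subsingleton.elim _ _) (Subsingleton.elim _ _)]⟩)
  (inferInstance : Subsingleton Unit)

theorem tv_pr (hF : FO F) : Pr Tv F = F := by
  funext G _
  refine propext ⟨fun ⟨_, (h : Subsingleton _)⟩ => hF.of_res fun g hg => ?_, pr_of tv_fo hF⟩
  exact congrArg Subtype.val (Subsingleton.elim (⟨g, hg⟩ : Res F G) 1)

theorem pr_tv (hF : FO F) : Pr F Tv = F := by
  funext G _
  have h : ∀ [Finite G], Bijective (Res Tv G).subtype := fun {_} =>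
    ⟨Subgroup.subtype_injective _, fun g => ⟨⟨g, mk_one.1
      (@Subsingleton.elim _ tv_fo.res_mem _ _)⟩, rfl⟩⟩
  exact propext ⟨fun ⟨_, a⟩ => hF.toFm.surj _ h.2 a, fun a => haveI := hF.fin _ a;
    ⟨inferInstance, hF.iso _ _ ⟨(MulEquiv.ofBijective _ h).symm⟩ a⟩⟩

theorem ex_nt (hF : FO F) (h : F ≠ Tv) : ∃ (G : Type) (_ : Group G) (g : G), F G ∧ g ≠ 1 := by
  by_contra hn
  refine h (funext fun G => funext fun _ => propext ⟨fun a => ⟨fun x y => ?_⟩,
    fun (_ : Subsingleton G) => hF.triv⟩)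
  have : ∀ g : G, g = 1 := fun g => by_contra fun e => hn ⟨G, _, g, a, e⟩
  rw [this x, this y]

theorem fo_prod (hF : FO F) (a : F A) (b : F B) : F (A × B) :=
  haveI := hF.fin _ a
  haveI := hF.fin _ b
  hF.toFm.sub (MonoidHom.fst A B) (MonoidHom.snd A B) Prod.fst_surjective Prod.snd_surjective
    (fun _ x y => Prod.ext x y) a b

/-- subdirect products of finitely many groups -/
theorem fo_sd (hF : FO F) [Finite G] {I : Type} [Finite I] {X : I → Type} [∀ i, Group (X i)]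
    (f : ∀ i, G →* X i) (hf : ∀ i, Surjective (f i)) (h : ∀ i, F (X i))
    (hi : ∀ g, (∀ i, f i g = 1) → g = 1) : F G :=
  hF.of_res fun g hg => hi g fun i => hF.toFm.res_le _ (hf i) (h i) hg

/-! Bryant, Bryce, Hartley -/

theorem three {X Y Z N : Subgroup G} [N.Normal] (h1 : ⁅⁅Y, Z⁆, X⁆ ≤ N) (h2 : ⁅⁅Z, X⁆, Y⁆ ≤ N) :
    ⁅⁅X, Y⁆, Z⁆ ≤ N := by
  have e : ∀ S : Subgroup G, S ≤ N ↔ S.map (QuotientGroup.mk' N) = ⊥ := fun S => by
    rw [Subgroup.map_eq_bot_iff, QuotientGroup.ker_mk']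
  rw [e] at h1 h2 ⊢
  simp only [Subgroup.map_commutator] at h1 h2 ⊢
  exact Subgroup.commutator_commutator_eq_bot_of_rotate h1 h2

theorem lcs_comm (N : Subgroup G) [N.Normal] (j : ℕ) : ∀ i,
    ⁅N.lowerCentralSeries i, N.lowerCentralSeries j⁆ ≤ N.lowerCentralSeries (i + j + 1) := by
  have hn : ∀ i, (N.lowerCentralSeries i).Normal := fun i => by
    induction i with
    | zero => assumption
    | succ i ih => exact Subgroup.commutator_normal _ _
  induction j with
  | zero => exact fun i => le_rfl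
  | succ j ih =>
    intro i
    have := hn (i + (j + 1) + 1)
    rw [Subgroup.commutator_comm]
    refine three ?_ (Subgroup.commutator_mono (ih i) le_rfl)
    rw [Subgroup.commutator_comm N, show i + (j + 1) + 1 = i + 1 + j + 1 by omega]
    exact ih (i + 1)

theorem bbh0 (hF : FO F) (n : ℕ) : ∀ (G : Type) [Group G] [Finite G] (s : ℕ → Subgroup G)
    (Y : Subgroup G), F G → (∀ i, (s i).Normal) → (∀ i, s (i + 1) ≤ s i) →
    (∀ i j, ∀ a ∈ s i, ∀ b ∈ s j, ⁅a, b⁆ ∈ s (i + j + 1)) → (∀ g, ∃ y ∈ Y, y⁻¹ * g ∈ s 0) →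
    ∀ y ∈ Res F Y, y.1 ∈ s n := by
  induction n with
  | zero =>
    intro G _ _ s Y h hn _ _ hY y hy
    have := hn 0
    refine mk_one.1 (hF.toFm.res_le ((QuotientGroup.mk' (s 0)).comp Y.subtype) (fun x => ?_)
      (hF.quo _ _ h) hy)
    obtain ⟨g, rfl⟩ := mk_surj _ x
    obtain ⟨y, h1, h2⟩ := hY g
    exact ⟨⟨y, h1⟩, QuotientGroup.eq.2 h2⟩
  | succ n ih =>
    intro G _ _ s Y h hn hd hc hY y hy
    let T : ℕ → Subgroup (G × G) := fun i =>
      haveI := hn i
      ((QuotientGroup.mk' (s i)).comp (MonoidHom.fst G G)).eqLocus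
        ((QuotientGroup.mk' (s i)).comp (MonoidHom.snd G G))
    have mT : ∀ i (x : G × G), x ∈ T i ↔ x.1⁻¹ * x.2 ∈ s i := fun i x => QuotientGroup.eq
    let a : T 0 →* G := (MonoidHom.fst G G).comp (T 0).subtype
    let b : T 0 →* G := (MonoidHom.snd G G).comp (T 0).subtype
    have dg : ∀ g : G, (g, g) ∈ T 0 := fun g => rfl
    have h' : F (T 0) := hF.toFm.sub a b (fun g => ⟨⟨_, dg g⟩, rfl⟩) (fun g => ⟨⟨_, dg g⟩, rfl⟩)
      (fun _ x y => Subtype.ext (Prod.ext x y)) h h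
    have k : ∀ i j (x y : T 0), a x ∈ s i → x.1 ∈ T (i + 1) → a y ∈ s j → y.1 ∈ T (j + 1) →
        ⁅x, y⁆.1 ∈ T (i + j + 2) := fun i j x y x1 x2 y1 y2 => by
      have := hn (i + j + 2)
      let q := QuotientGroup.mk' (s (i + j + 2))
      rw [mT] at x2 y2
      have y3 : y.1.2 ∈ s j := by simpa using mul_mem (show y.1.1 ∈ s j from y1) (hd _ y2)
      have c1 : Commute (q (x.1.1⁻¹ * x.1.2)) (q y.1.2) := by
        rw [← commutatorElement_eq_one_iff_commute, ← map_commutatorElement, mk_one]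
        rw [show i + j + 2 = i + 1 + j + 1 by omega]
        exact hc _ _ _ x2 _ y3
      have c2 : Commute (q x.1.1) (q (y.1.1⁻¹ * y.1.2)) := by
        rw [← commutatorElement_eq_one_iff_commute, ← map_commutatorElement, mk_one]
        exact hc _ _ _ x1 _ y2
      change q ⁅x.1.1, y.1.1⁆ = q ⁅x.1.2, y.1.2⁆
      rw [map_commutatorElement, map_commutatorElement]
      rw [map_mul, map_inv] at c1 c2
      generalize q x.1.1 = u at *
      generalize q x.1.2 = u' at *
      generalize q y.1.1 = v at *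
      generalize q y.1.2 = v' at *
      have e1 : u' * v' * u'⁻¹ = u * v' * u⁻¹ := by
        calc _ = u * (u⁻¹ * u' * v') * u'⁻¹ := by group
          _ = _ := by rw [c1.eq]; group
      have e2 : u * v' * u⁻¹ * v'⁻¹ = u * v * u⁻¹ * v⁻¹ := by
        calc _ = u * v * (v⁻¹ * v' * u⁻¹) * v'⁻¹ := by group
          _ = _ := by rw [← c2.inv_left.eq]; group
      rw [commutatorElement_def, commutatorElement_def, e1, e2]
    have := ih (T 0) (fun i => (s i).comap a ⊓ (T (i + 1)).comap (T 0).subtype) (Y.comap a) h'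
      (fun i => ⟨fun x hx g => ⟨((hn i).comap a).conj_mem _ hx.1 g, ?_⟩⟩)
      (fun i x hx => ⟨hd _ hx.1, (mT _ _).2 (hd _ ((mT _ _).1 hx.2))⟩)
      (fun i j x hx y hy => ⟨by
        exact hc _ _ _ hx.1 _ hy.1,
        k i j x y hx.1 hx.2 hy.1 hy.2⟩) (fun g => ?_)
    · obtain ⟨z, hz, e⟩ := hF.res_surj (a.subgroupComap Y) (fun u => ⟨⟨⟨_, dg u.1⟩, u.2⟩, rfl⟩) hy
      have h1 := (mT _ _).1 (this z hz).2
      have h2 : z.1.1.2 = 1 := hF.toFm.res_le (b.comp (Y.comap a).subtype) (fun g => by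
        obtain ⟨y, h1, h2⟩ := hY g
        exact ⟨⟨⟨(y, g), (mT _ _).2 h2⟩, h1⟩, rfl⟩) h hz
      rw [← e]
      have : z.1.1.1 ∈ s (n + 1) := by simpa [h2] using h1
      exact this
    · have h1 := (mT _ _).1 hx.2
      have h2 : x.1.2 ∈ s i := by simpa using mul_mem (show x.1.1 ∈ s i from hx.1) (hd _ h1)
      have h3 := hc i 0 _ (inv_mem h2) _ ((mT _ _).1 g.2)
      refine (mT _ _).2 ?_
      have := (hn _).conj_mem _ (mul_mem h1 h3) g.1.1
      convert this using 1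
      simp only [commutatorElement_def, Subgroup.coe_subtype, Subgroup.coe_mul, Subgroup.coe_inv,
        Prod.fst_mul, Prod.snd_mul, Prod.fst_inv, Prod.snd_inv]
      group
    · obtain ⟨y, h1, h2⟩ := hY g.1.1
      have h3 : y⁻¹ * (g.1.2 * g.1.1⁻¹ * y) ∈ s 0 := by
        have := (hn 0).conj_mem _ ((mT _ _).1 g.2) (y⁻¹ * g.1.1)
        convert this using 1
        group
      refine ⟨⟨(y, g.1.2 * g.1.1⁻¹ * y), (mT _ _).2 h3⟩, h1, h2, (mT _ _).2 ?_⟩
      have : ∀ z : G, z = 1 → z ∈ s (0 + 1) := fun z e => e ▸ one_mem _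
      apply this
      simp only [Subgroup.coe_subtype, Subgroup.coe_mul, Subgroup.coe_inv,
        Prod.fst_mul, Prod.snd_mul, Prod.fst_inv, Prod.snd_inv]
      group

/-- supplements of nilpotent normal subgroups -/
theorem bbh (hF : FO F) [Finite G] [Finite Γ] (κ : Γ →* G) (N : Subgroup G) [N.Normal]
    [Group.IsNilpotent ((N.map (QuotientGroup.mk' (Res F G))))]
    (h : ∀ g, ∃ y, (κ y)⁻¹ * g ∈ N) {y : Γ} (hy : y ∈ Res F Γ) : κ y ∈ Res F G := by
  let q := QuotientGroup.mk' (Res F G)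
  have : (N.map q).Normal := Subgroup.Normal.map inferInstance q (mk_surj _)
  obtain ⟨n, hn⟩ := (Subgroup.isNilpotent_iff_lowerCentralSeries (N.map q)).1 inferInstance
  have := bbh0 hF n _ (N.map q).lowerCentralSeries (q.comp κ).range hF.res_mem
    (fun i => by
      induction i with
      | zero => assumption
      | succ i ih => exact Subgroup.commutator_normal _ _)
    (fun i => Subgroup.lowerCentralSeries_antitone _ (Nat.le_succ i))
    (fun i j a ha b hb => lcs_comm _ j i (Subgroup.commutator_mem_commutator ha hb))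
    (fun x => by
      obtain ⟨g, rfl⟩ := mk_surj _ x
      obtain ⟨y, hy⟩ := h g
      exact ⟨_, ⟨y, rfl⟩, _, hy, by simp [q]⟩)
    _ (hF.res_map _ (q.comp κ).rangeRestrict_surjective hy)
  rw [hn] at this
  exact mk_one.1 (Subgroup.mem_bot.1 this)

theorem bbh' (hF : FO F) (a : F G) (κ : Γ →* G) (hκ : Injective κ) (N : Subgroup G) [N.Normal]
    [Group.IsNilpotent N] (h : ∀ g, ∃ y, (κ y)⁻¹ * g ∈ N) : F Γ :=
  haveI := hF.fin _ a
  haveI := Finite.of_injective κ hκ
  haveI := nil_img N (QuotientGroup.mk' (Res F G))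
  hF.of_res fun _ hy => (injective_iff_map_eq_one κ).1 hκ _
    (hF.toFm.res_le (MonoidHom.id G) surjective_id a (bbh hF κ N h hy))

theorem neu (hF : FO F) (a : F G) [Group.IsNilpotent G] (κ : Γ →* G) (hκ : Injective κ) : F Γ :=
  bbh' hF a κ hκ ⊤ fun _ => ⟨1, trivial⟩

end Pool.Agent.H68.Fa
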