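import Pool.Agent.H68.Fa1

set_option autoImplicit false

namespace Pool.Agent.H68.Fa

open Function SemidirectProduct Pool.Agent.H68.Fit Pool.Agent.H68.Sat Pool.Agent.H68.Nl MulAction
open scoped commutatorElement Classical

variable {F H P Q : Cl}
variable {G A B D Γ Λ Ω Ξ : Type} [Group G] [Group A] [Group B] [Group D] [Group Γ] [Group Λ]
  [MulAction Γ Ω] [MulAction Λ Ξ] {p r e : ℕ} {σ : ℕ → Prop}

abbrev W (Γ Ω D : Type) [Group Γ] [MulAction Γ Ω] [Group D] :=
  (Ω → D) ⋊[tw (MulAction.toEndHom (M := Γ) (α := Ω)) 1] Γ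

theorem w_mul (a b : W Γ Ω D) (ω : Ω) :
    (a * b).left ω = a.left ω * b.left (a.right⁻¹ • ω) := rfl

theorem w_inv (a : W Γ Ω D) (ω : Ω) : (a⁻¹).left ω = (a.left (a.right • ω))⁻¹ := by
  change (a.left (a.right⁻¹⁻¹ • ω))⁻¹ = _
  rw [inv_inv]

theorem w_ext {a b : W Γ Ω D} (h : ∀ ω, a.left ω = b.left ω) (h' : a.right = b.right) : a = b :=
  SemidirectProduct.ext (funext h) h'

theorem w_cj (a b : W Γ Ω D) (h : b.right = 1) (ω : Ω) :
    (a * b * a⁻¹).left ω = a.left ω * b.left (a.right⁻¹ • ω) * (a.left ω)⁻¹ := by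
  rw [w_mul, w_mul, w_inv, mul_right, h, mul_one, smul_inv_smul]

def wmap (β : B →* D) (φ : Γ →* Λ) (ι : Ξ → Ω) (h : ∀ g x, ι (φ g • x) = g • ι x) :
    W Γ Ω B →* W Λ Ξ D :=
  MonoidHom.mk' (fun w => ⟨fun x => β (w.left (ι x)), φ w.right⟩) fun a b =>
    w_ext (fun x => by rw [w_mul]; dsimp only; rw [w_mul, map_mul, ← map_inv, h]) (map_mul φ _ _)

/-- change of the base group -/
def wb (β : B →* D) : W Γ Ω B →* W Γ Ω D := wmap β (MonoidHom.id Γ) id fun _ _ => rfl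

theorem wb_surj {β : B →* D} (hβ : Surjective β) : Surjective (wb (Γ := Γ) (Ω := Ω) β) := fun w =>
  ⟨⟨fun x => surjInv hβ (w.left x), w.right⟩, w_ext (fun _ => surjInv_eq hβ _) rfl⟩

theorem wb_inj {β : B →* D} (hβ : Injective β) : Injective (wb (Γ := Γ) (Ω := Ω) β) :=
  fun _ _ e => w_ext (fun x => hβ (congrFun (congrArg SemidirectProduct.left e) x))
    (congrArg SemidirectProduct.right e :)

/-- fibre products -/
noncomputable def fs {C : Type} [CommGroup C] [Finite Ω] (φ : Γ →* Λ) (π : Ω → Ξ)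
    (h : ∀ g x, π (g • x) = φ g • π x) : W Γ Ω C →* W Λ Ξ C :=
  haveI := Fintype.ofFinite Ω
  MonoidHom.mk' (fun w => ⟨fun y => ∏ x, if π x = y then w.left x else 1, φ w.right⟩) fun a b =>
    w_ext (fun y => by
      rw [w_mul]
      dsimp only
      rw [← Equiv.prod_comp (MulAction.toPerm a.right⁻¹)
        (fun x => if π x = (φ a.right)⁻¹ • y then b.left x else 1), ← Finset.prod_mul_distrib]
      refine Finset.prod_congr rfl fun x _ => ?_
      simp only [toPerm_apply, h, map_inv, smul_left_cancel_iff]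
      split_ifs
      · rfl
      · exact (one_mul 1).symm) (map_mul φ _ _)

noncomputable def sg (ω : Ω) : D →* W Γ Ω D := inl.comp (MonoidHom.mulSingle (fun _ => D) ω)

theorem sg_right (ω : Ω) (d : D) : (sg ω d : W Γ Ω D).right = 1 := rfl

theorem sg_left (ω x : Ω) (d : D) : (sg ω d : W Γ Ω D).left x = if x = ω then d else 1 :=
  Pi.mulSingle_apply ω d x

theorem fs_sg {C : Type} [CommGroup C] [Finite Ω] (φ : Γ →* Λ) (π : Ω → Ξ)
    (h : ∀ g x, π (g • x) = φ g • π x) (ω : Ω) (c : C) : fs φ π h (sg ω c) = sg (π ω) c := by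
  refine w_ext (fun y => ?_) (map_one φ)
  change Finset.prod _ _ = _
  rw [Finset.prod_eq_single ω (fun x _ hx => by simp [sg_left, hx]) (by simp)]
  simp [sg_left, eq_comm]

theorem fs_inr {C : Type} [CommGroup C] [Finite Ω] (φ : Γ →* Λ) (π : Ω → Ξ)
    (h : ∀ g x, π (g • x) = φ g • π x) (g : Γ) : fs (C := C) φ π h (inr g) = inr (φ g) :=
  w_ext (fun _ => Finset.prod_eq_one fun _ _ => ite_self _) rfl

theorem base_mem [Finite Ω] (S : Subgroup (W Γ Ω D)) (K : Subgroup D)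
    (h : ∀ ω, ∀ d ∈ K, sg ω d ∈ S) (w : W Γ Ω D) (h1 : w.right = 1) (h2 : ∀ ω, w.left ω ∈ K) :
    w ∈ S := by
  rw [show w = inl w.left from SemidirectProduct.ext rfl h1]
  exact Subgroup.pi_mem_of_mulSingle_mem (H := S.comap inl) _ fun ω => h ω _ (h2 ω)

theorem w_top [Finite Ω] (S : Subgroup (W Γ Ω D)) (h : ∀ ω d, sg ω d ∈ S)
    (h' : ∀ g, ∃ w ∈ S, w.right = g) (w : W Γ Ω D) : w ∈ S := by
  obtain ⟨v, h1, h2⟩ := h' w.right
  simpa using mul_mem (base_mem S ⊤ (fun ω d _ => h ω d) (w * v⁻¹) (by simp [h2])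
    fun _ => trivial) h1

theorem fs_surj {C : Type} [CommGroup C] [Finite Ω] {φ : Γ →* Λ} (hφ : Surjective φ) {π : Ω → Ξ}
    (hπ : Surjective π) (h : ∀ g x, π (g • x) = φ g • π x) : Surjective (fs (C := C) φ π h) :=
  haveI := Finite.of_surjective π hπ
  w_top (fs φ π h).range (fun y d => by
    obtain ⟨x, rfl⟩ := hπ y; exact ⟨_, fs_sg φ π h x d⟩) fun g => by
    obtain ⟨x, rfl⟩ := hφ g; exact ⟨_, ⟨_, fs_inr φ π h x⟩, rfl⟩

theorem sg_cj (a : W Γ Ω D) (ω : Ω) (d : D) :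
    a * sg ω d * a⁻¹ = sg (a.right • ω) (a.left (a.right • ω) * d * (a.left (a.right • ω))⁻¹) := by
  refine w_ext (fun x => ?_) (by simp [sg_right])
  rw [w_cj _ _ rfl, sg_left, sg_left]
  by_cases e : x = a.right • ω
  · simp [e]
  · rw [if_neg e, if_neg fun e' => e (by rw [← e', smul_inv_smul]), mul_one, mul_inv_cancel]

theorem sg_comm {ω x : Ω} (h : ω ≠ x) (c d : D) : Commute (sg ω c : W Γ Ω D) (sg x d) :=
  (Pi.mulSingle_commute (f := fun _ => D) h c d).map inl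

/-- coordinate projection of the part of a subgroup inside the base -/
def pj (N : Subgroup (W Γ Ω D)) (ω : Ω) : Subgroup D :=
  (N.comap inl).map (Pi.evalMonoidHom (fun _ => D) ω)

theorem mem_pj {N : Subgroup (W Γ Ω D)} {w : W Γ Ω D} (h : w ∈ N) (h1 : w.right = 1) (ω : Ω) :
    w.left ω ∈ pj N ω :=
  ⟨w.left, by rwa [show w = inl w.left from SemidirectProduct.ext rfl h1] at h, rfl⟩

instance (N : Subgroup (W Γ Ω D)) [N.Normal] (ω : Ω) : (pj N ω).Normal :=
  Subgroup.Normal.map inferInstance _ (surjective_eval ω)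

instance (N : Subgroup (W Γ Ω D)) [Group.IsNilpotent N] (ω : Ω) : Group.IsNilpotent (pj N ω) :=
  haveI := nil_map (N.comap inl) inl inl_injective N fun _ h => h
  nil_img _ _

theorem pj_smul {N : Subgroup (W Γ Ω D)} [hN : N.Normal] (ω : Ω) (g : Γ) :
    pj N (g • ω) ≤ pj N ω := by
  rintro _ ⟨f, hf, rfl⟩
  have := mem_pj (hN.conj_mem _ hf (inr g⁻¹)) (by simp) ω
  rw [w_cj _ _ rfl] at this
  simpa using this

theorem w_pe [Finite Ω] (w : W Γ Ω D) (h1 : pe p w.right) (h2 : ∀ d : D, pe p d) : pe p w :=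
  pe.of_ker rightHom (fun y hy => by
    rw [show y = inl y.left from SemidirectProduct.ext rfl hy]
    exact (pe_pi fun _ => h2 _).map _) h1

/-- elements of prime power order that move a point -/
theorem mv [Finite G] (ρ : G →* Γ) {g : G} {ω : Ω} (h : ρ g • ω ≠ ω) :
    ∃ r : ℕ, r.Prime ∧ ∃ a ∈ Subgroup.zpowers g, pe r a ∧ period (ρ a) ω = r := by
  obtain ⟨r, hr, hd⟩ := Nat.exists_prime_and_dvd (mt period_eq_one_iff.1 h)
  have := Fact.mk hr
  obtain ⟨i, j, e1, ⟨k, k1, k2⟩, h2⟩ := pe_split (· ≠ r) g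
  have h2 := pe_iff.2 h2
  have h3 : ρ (g ^ j) • ω ≠ ω := fun e' => k1.2 r hr (hd.trans (pow_smul_eq_iff_period_dvd.1 (by
    rw [← map_pow, e1, (Commute.zpow_zpow_self g i j).mul_pow, k2, one_mul, map_pow]
    exact pow_smul_eq_iff_period_dvd.2 (period_eq_one_iff.2 e' ▸ one_dvd _)))) rfl
  have ex : ∃ n, ρ ((g ^ j) ^ r ^ n) • ω = ω := h2.imp fun n e => by rw [e, map_one, one_smul]
  obtain ⟨n, hn⟩ : ∃ n, Nat.find ex = n + 1 := Nat.exists_eq_succ_of_ne_zero fun e' => h3 (by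
    have := Nat.find_spec ex
    rwa [e', pow_zero, pow_one] at this)
  refine ⟨r, hr, (g ^ j) ^ r ^ n, pow_mem (zpow_mem (Subgroup.mem_zpowers g) j) _,
    h2.imp fun m e => by rw [← pow_mul, mul_comm, pow_mul, e, one_pow], ?_⟩
  refine ((Nat.dvd_prime hr).1 (pow_smul_eq_iff_period_dvd.1 ?_)).resolve_left fun e' =>
    Nat.find_min ex (by omega : n < Nat.find ex) (period_eq_one_iff.1 e')
  have := Nat.find_spec ex
  rwa [hn, pow_succ, pow_mul, map_pow] at this

theorem fw [Fact r.Prime] [Finite Γ] [Finite Ω] [Finite D] (N : Subgroup (W Γ Ω D)) [hN : N.Normal]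
    [Group.IsNilpotent N] {n : W Γ Ω D} (hn : n ∈ N) (h1 : pe r n) {ω : Ω} (h2 : n.right • ω ≠ ω)
    (d : D) : pe r d := by
  obtain ⟨i, j, e1, ⟨k, k1, k2⟩, h3⟩ := pe_split (· ≠ r) d
  suffices d ^ i = 1 by rw [e1, this, one_mul]; exact pe_iff.2 h3
  generalize d ^ i = u at k2
  let s : W Γ Ω D := sg ω u
  have hs : s ^ k = 1 := by rw [← map_pow, k2, map_one]
  have hc : Commute s (n * s⁻¹ * n⁻¹) := by rw [← map_inv, sg_cj]; exact sg_comm h2.symm _ _
  have c1 : s * (n * s⁻¹ * n⁻¹) ∈ N := by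
    simpa [mul_assoc] using mul_mem (hN.conj_mem _ hn s) (inv_mem hn)
  have c2 : qe r (s * (n * s⁻¹ * n⁻¹)) :=
    ⟨k, k1, by rw [hc.mul_pow, conj_pow, inv_pow, hs]; simp⟩
  have c3 := cop_comm N hn c1 h1 c2
  have c4 : ∀ m : ℕ, (s * (n * s⁻¹ * n⁻¹)) ^ m = s * (n ^ m * s⁻¹ * (n ^ m)⁻¹) := fun m => by
    induction m with
    | zero => simp
    | succ m ih =>
      rw [pow_succ, ih]
      calc _ = s * (n ^ m * s⁻¹) * ((n ^ m)⁻¹ * (s * (n * s⁻¹ * n⁻¹))) := by group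
        _ = _ := by rw [(c3.pow_left m).inv_left.eq]; group
  obtain ⟨m, hm⟩ := h1
  have c5 := congrFun (congrArg SemidirectProduct.left (pq ⟨m, by rw [c4, hm]; simp⟩ c2)) ω
  rw [← map_inv, sg_cj, w_mul, sg_left, sg_left, sg_right, inv_one, one_smul, if_pos rfl,
    if_neg h2.symm, mul_one] at c5
  exact c5

theorem wp [Finite Γ] (x : Γ) (ω : Ω) (u : D) (j : ℕ) :
    ((sg ω u * inr x : W Γ Ω D) ^ (period x ω * j)).left ω = u ^ j := by
  have h : ∀ k, k < period x ω → ((sg ω u * inr x : W Γ Ω D) ^ (k + 1)).left ω = u := fun k => by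
    induction k with
    | zero => intro _; simp [sg_left]
    | succ k ih =>
      intro hk
      rw [pow_succ, w_mul, ih (by omega), w_mul, sg_left, if_neg, left_inr]
      · simp
      · rw [← rightHom_eq_right, map_pow, inv_smul_eq_iff]
        exact (pow_smul_ne_of_lt_period (by omega) (by simpa [sg_right] using hk)).symm
  have h0 := period_pos_of_orderOf_pos (orderOf_pos x) ω
  have h1 := h (period x ω - 1) (by omega)
  rw [Nat.sub_add_cancel h0] at h1
  rw [pow_mul]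
  induction j with
  | zero => simp
  | succ n ih =>
    rw [pow_succ', w_mul, h1, pow_succ', ← ih]
    refine congrArg (u * ·) (congrArg _ ?_)
    rw [← rightHom_eq_right, map_pow, inv_smul_eq_iff]
    simpa [sg_right] using (pow_period_smul x ω).symm

theorem key [Finite Γ] (N : Subgroup (W Γ Ω D)) (hN : ∀ w, w ^ e ∈ N) (x : Γ) (ω : Ω) {j : ℕ}
    (h : e = period x ω * j) (u : D) : u ^ j ∈ pj N ω := by
  have := mem_pj (mul_mem (hN (sg ω u * inr x)) (inv_mem (hN (inr x)))) (by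
    rw [← rightHom_eq_right, map_mul, map_inv, map_pow, map_pow]; simp [sg_right]) ω
  rwa [w_mul, h, wp, ← map_pow, ← map_inv, left_inr, Pi.one_apply, mul_one] at this

end Pool.Agent.H68.Fa
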