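import Pool.Agent.H68.Fa2

set_option autoImplicit false

namespace Pool.Agent.H68.Fa

open Function SemidirectProduct Pool.Agent.H68.Fit Pool.Agent.H68.Sat Pool.Agent.H68.Nl MulAction
open scoped commutatorElement Classical

variable {F H P Q : Cl}
variable {G A B D Γ Λ Ω Ξ : Type} [Group G] [Group A] [Group B] [Group D] [Group Γ] [Group Λ]
  [MulAction Γ Ω] [MulAction Λ Ξ] {p r e : ℕ} {σ : ℕ → Prop}

def EE (e : ℕ) (σ : ℕ → Prop) : Cl := fun G _ => Finite G ∧ ∃ N : Subgroup G, N.Normal ∧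
  Group.IsNilpotent N ∧ (∀ n ∈ N, PE σ n) ∧ ∀ g : G, g ^ e ∈ N

theorem EE.inj (h : EE e σ A) (ι : G →* A) (hι : Injective ι) : EE e σ G := by
  obtain ⟨_, N, _, _, h1, h2⟩ := h
  refine ⟨Finite.of_injective ι hι, N.comap ι, inferInstance, nil_map _ ι hι N fun _ h => h,
    fun n hn => (h1 _ hn).of_ker ι fun a e => ?_, fun g => ?_⟩
  · rw [(injective_iff_map_eq_one ι).1 hι a e]; exact PE.one
  · rw [Subgroup.mem_comap, map_pow]; exact h2 _

theorem EE.surj (h : EE e σ G) (f : G →* A) (hf : Surjective f) : EE e σ A := by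
  obtain ⟨_, N, _, _, h1, h2⟩ := h
  refine ⟨Finite.of_surjective f hf, N.map f, Subgroup.Normal.map inferInstance f hf, nil_img N f,
    ?_, fun a => ?_⟩
  · rintro _ ⟨n, hn, rfl⟩; exact (h1 n hn).map f
  · obtain ⟨g, rfl⟩ := hf a; exact ⟨_, h2 g, map_pow _ _ _⟩

theorem EE.mono {e' : ℕ} {σ' : ℕ → Prop} (h : EE e σ G) (h1 : e ∣ e') (h2 : ∀ p, σ p → σ' p) :
    EE e' σ' G := by
  obtain ⟨_, N, _, _, h3, h4⟩ := h
  obtain ⟨k, rfl⟩ := h1
  exact ⟨inferInstance, N, inferInstance, inferInstance,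
    fun n hn => (h3 n hn).imp fun _ h => ⟨⟨h.1.1, fun p a b => h2 p (h.1.2 p a b)⟩, h.2⟩,
    fun g => by rw [pow_mul]; exact pow_mem (h4 g) k⟩

theorem pe_all [Finite G] (g : G) : PE (fun _ => True) g :=
  ⟨_, ⟨(orderOf_pos g).ne', fun _ _ _ => trivial⟩, pow_orderOf_eq_one g⟩

theorem ee_fo : FO (EE e fun _ => True) := FO.mk' (fun _ _ h => h.1)
  (fun _ _ _ _ f hf h => h.surj f hf)
  (fun _ _ _ _ _ _ _ α β _ _ hi ⟨_, N, _, _, _, a⟩ ⟨_, M, _, _, _, b⟩ =>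
    ⟨inferInstance, N.comap α ⊓ M.comap β, inferInstance,
      nil_inj (((α.comp (N.comap α ⊓ M.comap β).subtype).codRestrict N fun x => x.2.1).prod
        ((β.comp (N.comap α ⊓ M.comap β).subtype).codRestrict M fun x => x.2.2))
        ((injective_iff_map_eq_one _).2 fun x h => Subtype.ext (hi _
          (congrArg (fun y => y.1.1) h) (congrArg (fun y => y.2.1) h))),
      fun _ _ => pe_all _, fun g => ⟨by simpa using a _, by simpa using b _⟩⟩)
  ⟨inferInstance, ⊤, inferInstance, inferInstance, fun _ _ => pe_all _, fun _ => trivial⟩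

theorem ee_st : St (EE e fun _ => True) := fun G _ _ ⟨_, N, _, _, _, a⟩ =>
  ⟨inferInstance, N.comap (QuotientGroup.mk' _), inferInstance,
    frat_nil _ (mk_surj _) (fun _ h => mk_one.1 h) N, fun _ _ => pe_all _,
    fun g => by rw [Subgroup.mem_comap, map_pow]; exact a _⟩

def NP (p : ℕ) : Cl := fun G _ => Finite G ∧ ∀ g : G, pe p g

theorem np_fo : FO (NP p) := FO.mk' (fun _ _ h => h.1)
  (fun _ _ _ _ f hf ⟨_, h⟩ => ⟨Finite.of_surjective f hf, fun a => by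
    obtain ⟨g, rfl⟩ := hf a; exact (h g).map f⟩)
  (fun _ _ _ _ _ _ _ α β _ _ hi a b => ⟨inferInstance, fun g => (a.2 _).of_ker α fun x hx => by
    obtain ⟨k, hk⟩ := b.2 (β x)
    exact ⟨k, hi _ (by rw [map_pow, hx, one_pow]) (by rw [map_pow, hk])⟩⟩)
  ⟨inferInstance, fun _ => ⟨0, rfl⟩⟩

theorem NP.nil [Fact p.Prime] (h : NP p G) : Group.IsNilpotent G :=
  haveI := h.1
  (show IsPGroup p G from h.2).isNilpotent

theorem NP.inj (h : NP p A) (ι : G →* A) (hι : Injective ι) : NP p G :=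
  haveI := h.1
  ⟨Finite.of_injective ι hι, fun _ => pe_inj ι hι (h.2 _)⟩

theorem np_np : Pr (NP p) (NP p) = NP p := by
  funext G _
  refine propext ⟨fun ⟨_, h⟩ => ⟨inferInstance, fun g => (np_fo.res_mem.2 _).of_ker
    (QuotientGroup.mk' (Res (NP p) G)) fun a ha =>
      (h.2 ⟨a, mk_one.1 ha⟩).map (Subgroup.subtype _)⟩, pr_of np_fo np_fo⟩

theorem pe_pe [Fact p.Prime] {g : G} : PE (· = p) g ↔ pe p g := by
  rw [pe_iff]; simp only [ne_eq, not_not]

theorem NP.ee [Fact p.Prime] (h : NP p G) : EE e (· = p) G :=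
  haveI := h.nil
  ⟨h.1, ⊤, inferInstance, inferInstance, fun n _ => pe_pe.2 (h.2 n), fun _ => trivial⟩

abbrev Zp (p : ℕ) := Multiplicative (ZMod p)

theorem np_card [hp : Fact p.Prime] (h : Nat.card G = p) : NP p G :=
  ⟨Nat.finite_of_card_ne_zero (h ▸ hp.out.ne_zero), fun g => ⟨1, by
    rw [pow_one, ← h, pow_card_eq_one']⟩⟩

theorem zp_card : Nat.card (Zp p) = p := Nat.card_zmod p

theorem sq [Finite G] (N : Subgroup G) [N.Normal] (h : N ≠ ⊤) : ∃ (C : Type) (_ : Group C)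
    (β : G →* C), Surjective β ∧ IsSimpleGroup C ∧ ∀ g ∈ N, β g = 1 := by
  obtain ⟨M, ⟨hM, h1, h2⟩, hm⟩ := (wellFounded_gt (α := Subgroup G)).has_min
    {M | M.Normal ∧ N ≤ M ∧ M ≠ ⊤} ⟨N, inferInstance, le_rfl, h⟩
  have : Nontrivial (G ⧸ M) := QuotientGroup.nontrivial_iff.2 h2
  refine ⟨G ⧸ M, _, _, mk_surj M, ⟨fun K hK => ?_⟩, fun g hg => mk_one.2 (h1 hg)⟩
  have h3 : M ≤ K.comap (QuotientGroup.mk' M) := fun g hg => by
    rw [Subgroup.mem_comap, mk_one.2 hg]; exact one_mem _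
  by_cases h4 : K.comap (QuotientGroup.mk' M) = ⊤
  · refine Or.inr (eq_top_iff.2 fun x _ => ?_)
    obtain ⟨g, rfl⟩ := mk_surj M x
    exact h4.ge (Subgroup.mem_top g)
  · refine Or.inl (eq_bot_iff.2 fun x hx => ?_)
    obtain ⟨g, rfl⟩ := mk_surj M x
    exact mk_one.2 ((eq_of_le_of_not_lt h3 (hm _ ⟨inferInstance, h1.trans h3, h4⟩)).ge hx)

theorem simp_card [IsSimpleGroup G] [Group.IsNilpotent G] : (Nat.card G).Prime :=
  @IsSimpleGroup.prime_card G IsCyclic.commGroup ‹_›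

theorem simp_np [hp : Fact p.Prime] [IsSimpleGroup G] (h : NP p G) : Nat.card G = p := by
  have := h.nil
  have := h.1
  obtain ⟨n, hn⟩ := IsPGroup.iff_card.1 (show IsPGroup p G from h.2)
  have h1 := simp_card (G := G)
  rw [hn] at h1 ⊢
  rw [h1.eq_one_of_pow, pow_one]

/-- a nontrivial `p`-group maps onto the group of order `p` -/
theorem np_zp [hp : Fact p.Prime] (h : NP p G) {g : G} (hg : g ≠ 1) :
    ∃ β : G →* Zp p, Surjective β := by
  have := h.1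
  obtain ⟨C, _, β, h1, _, -⟩ := sq (⊥ : Subgroup G) fun e => hg (e.ge (Subgroup.mem_top g))
  let φ := mulEquivOfPrimeCardEq (simp_np (np_fo.toFm.surj β h1 h)) (zp_card (p := p))
  exact ⟨φ.toMonoidHom.comp β, φ.surjective.comp h1⟩

def Gd (H : Cl) (Γ Ω D : Type) [Group Γ] [MulAction Γ Ω] [Group D] : Prop :=
  ∀ (C : Type) [Group C] (β : D →* C), Surjective β → IsSimpleGroup C → ¬ H (W Γ Ω C)

theorem pj_eq {N : Subgroup (W Γ Ω D)} [N.Normal] [IsPretransitive Γ Ω] (x ω : Ω) :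
    pj N x ≤ pj N ω := by
  obtain ⟨g, rfl⟩ := exists_smul_eq Γ ω x
  exact pj_smul ω g

section
variable [Finite Γ] [Finite Ω] [Finite D]

theorem res_right (hH : FO H) (h : H Γ) {w : W Γ Ω D} (hw : w ∈ Res H _) : w.right = 1 :=
  hH.toFm.res_le rightHom rightHom_surjective h hw

theorem pj_top (hH : FO H) [IsPretransitive Γ Ω] (h : H Γ) (g : Gd H Γ Ω D) (ω : Ω) :
    pj (Res H (W Γ Ω D)) ω = ⊤ := by
  by_contra hn
  obtain ⟨C, _, β, h1, h2, h3⟩ := sq _ hn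
  exact g C β h1 h2 (hH.of_ker _ (wb_surj h1) fun w hw => w_ext
    (fun x => h3 _ (pj_eq x ω (mem_pj hw (res_right hH h hw) x))) (res_right hH h hw :))

def ev (R : Subgroup (W Γ Ω D)) (hR : ∀ w ∈ R, w.right = 1) (ω : Ω) : R →* D :=
  MonoidHom.mk' (fun w => w.1.left ω) fun a b => by
    rw [Subgroup.coe_mul, w_mul, hR _ a.2, inv_one, one_smul]

theorem sd_iff (hH : FO H) (hP : FO P) [IsPretransitive Γ Ω] [Nonempty Ω] (h : H Γ)
    (g : Gd H Γ Ω D) : Pr P H (W Γ Ω D) ↔ P D := by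
  have s : ∀ ω, Surjective (ev (Res H (W Γ Ω D)) (fun _ => res_right hH h) ω) := fun ω d => by
    obtain ⟨f, hf, e⟩ := (pj_top hH h g ω).ge (Subgroup.mem_top d)
    exact ⟨⟨_, hf⟩, e⟩
  exact ⟨fun a => hP.toFm.surj _ (s (Classical.arbitrary Ω)) a.2, fun a => ⟨inferInstance,
    fo_sd hP _ s (fun _ => a) fun w hw => Subtype.ext (w_ext hw (res_right hH h w.2))⟩⟩

theorem cp0 (R : Subgroup (W Γ Ω D)) [hR : R.Normal] {w : W Γ Ω D} (hw : w ∈ R) {ω : Ω}
    (h : w.right • ω ≠ ω) : ∀ d ∈ commutator D, sg ω d ∈ R := by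
  refine (Subgroup.commutator_le.2 fun a _ b _ => ?_ : commutator D ≤ R.comap (sg ω))
  have c1 : sg ω a * (w * sg ω a⁻¹ * w⁻¹) ∈ R := by
    simpa [mul_assoc] using mul_mem (hR.conj_mem _ hw (sg ω a)) (inv_mem hw)
  have c2 := mul_mem c1 (hR.conj_mem _ (inv_mem c1) (sg ω b))
  rw [sg_cj] at c2
  generalize w.left _ * _ * _ = c at c2
  rw [Subgroup.mem_comap, map_commutatorElement, commutatorElement_def]
  convert c2 using 1
  rw [mul_assoc (sg ω a) (sg _ c), ← mul_assoc (sg _ c), ← mul_assoc (sg _ c), (sg_comm h c b).eq]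
  group

def Mv (T : Subgroup Γ) (Ω : Type) [MulAction Γ Ω] : Prop := ∀ ω : Ω, ∃ t ∈ T, t • ω ≠ ω

theorem cp1 (hH : FO H) (h : Mv (Res H Γ) Ω) (ω : Ω) :
    ∀ d ∈ commutator D, sg ω d ∈ Res H (W Γ Ω D) := by
  obtain ⟨t, h1, h2⟩ := h ω
  obtain ⟨w, hw, rfl⟩ := hH.res_surj (G := W Γ Ω D) rightHom rightHom_surjective h1
  exact cp0 _ hw h2

theorem cp (hH : FO H) (h : Mv (Res H Γ) Ω) {t : Γ} (ht : t ∈ Res H Γ) :
    inr t ∈ Res H (W Γ Ω D) := by
  have : Group.IsNilpotent ((rightHom : W Γ Ω D →* Γ).ker.map (QuotientGroup.mk' (Res H _))) := by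
    refine nil_comm ?_
    rintro ⟨_, a, ha, rfl⟩ ⟨_, b, hb, rfl⟩
    have ha : a.right = 1 := ha
    have hb : b.right = 1 := hb
    refine Subtype.ext (commutatorElement_eq_one_iff_mul_comm.1 ?_)
    rw [← map_commutatorElement, mk_one]
    refine base_mem _ _ (cp1 hH h) _ (by simp [commutatorElement_def, ha, hb]) fun ω => ?_
    rw [commutatorElement_def, w_mul, w_cj _ _ hb, w_inv]
    simp only [mul_right, inv_right, ha, hb, mul_one, inv_one, one_smul]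
    exact Subgroup.commutator_mem_commutator (Subgroup.mem_top _) (Subgroup.mem_top _)
  exact bbh hH inr rightHom.ker (fun g => ⟨g.right, by simp [MonoidHom.mem_ker]⟩) ht

end

noncomputable def kk (Y : Subgroup G) (ξ : Y →* D) : G →* W G (G ⧸ Y) D :=
  MonoidHom.mk' (fun g => ⟨fun ω => ξ (cc Y g ω), g⟩) fun a b => w_ext (fun ω => by
    rw [w_mul, ← map_mul]
    exact congrArg ξ (Subtype.ext (by simp [cc, mul_smul, mul_assoc]))) rfl

theorem q_smul (Y : Subgroup G) [Y.Normal] (g : G) (x : G ⧸ Y) :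
    QuotientGroup.mk' Y g • x = g • x := by
  obtain ⟨a, rfl⟩ := mk_surj Y x
  rfl

def wq (Y : Subgroup G) [Y.Normal] : W G (G ⧸ Y) D →* W (G ⧸ Y) (G ⧸ Y) D :=
  wmap (MonoidHom.id D) (QuotientGroup.mk' Y) id (q_smul Y)

theorem wq_surj (Y : Subgroup G) [Y.Normal] : Surjective (wq (D := D) Y) := fun w => by
  obtain ⟨g, hg⟩ := mk_surj Y w.right
  exact ⟨⟨w.left, g⟩, w_ext (fun _ => rfl) hg⟩

theorem cc_fix {Y : Subgroup G} {g : G} {ω : G ⧸ Y} (h : g • ω = ω) :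
    (cc Y g ω : G) = ω.out⁻¹ * g * ω.out := by
  change ω.out⁻¹ * g * (g⁻¹ • ω).out = _
  rw [inv_smul_eq_iff.2 h.symm]

theorem q_fix {Y : Subgroup G} [Y.Normal] {g : G} (h : g ∈ Y) (ω : G ⧸ Y) : g • ω = ω := by
  rw [← q_smul, mk_one.2 h, one_smul]

def Cd (H : Cl) (p : ℕ) : Prop := ∀ (G : Type) [Group G], Pr (NP p) H G → H G

theorem cd_of [Fact p.Prime] (hH : FO H)
    (h : ∀ (Γ : Type) [Group Γ], H Γ → H (W Γ Γ (Zp p))) : Cd H p := by
  intro G _ hG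
  induction hn : Nat.card G using Nat.strong_induction_on generalizing G with
  | _ n ih =>
  have := hG.1
  by_cases h0 : Res H G = ⊥
  · exact hH.of_res fun g hg => h0.le hg
  obtain ⟨V, _, h1, h2, h3⟩ := min_norm _ h0
  obtain ⟨v, hv⟩ := (Subgroup.ne_bot_iff_exists_ne_one).1 h2
  obtain ⟨β, hβ⟩ := np_zp (hG.2.inj _ (Subgroup.inclusion_injective h1)) hv
  have := nil_of_pe (p := p) (rightHom : W (G ⧸ V) (G ⧸ V) (Zp p) →* _).ker fun w hw =>
    w_pe w (by rw [show w.right = 1 from hw]; exact pe.one) (np_card zp_card).2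
  refine bbh' hH (h _ (ih _ (hn ▸ card_quo_lt h2) _ ((pr_fo np_fo hH).quo _ V hG) rfl))
    ((wq V).comp (kk V β)) ?_ rightHom.ker fun w => ?_
  · rw [← MonoidHom.ker_eq_bot_iff]
    refine (h3 _ inferInstance fun g hg => mk_one.1 (congrArg SemidirectProduct.right hg)).resolve_right
      fun e => ?_
    obtain ⟨z, hz⟩ := exists_ne (1 : Zp p)
    obtain ⟨u, rfl⟩ := hβ z
    have h4 : (1 : G ⧸ V).out * u * (1 : G ⧸ V).out⁻¹ ∈ V := Subgroup.Normal.conj_mem ‹_› _ u.2 _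
    have h5 : β (cc V _ 1) = 1 := congrFun (congrArg SemidirectProduct.left (e.ge h4)) 1
    rw [show cc V _ 1 = u from Subtype.ext (by rw [cc_fix (q_fix h4 _)]; group)] at h5
    exact hz h5
  · obtain ⟨g, hg⟩ := mk_surj V w.right
    exact ⟨g, by rw [MonoidHom.mem_ker, map_mul, map_inv]; exact inv_mul_eq_one.2 hg⟩

end Pool.Agent.H68.Fa
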