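import Pool.Agent.H68.Fa3

set_option autoImplicit false

namespace Pool.Agent.H68.Fa

open Function SemidirectProduct Pool.Agent.H68.Fit Pool.Agent.H68.Sat Pool.Agent.H68.Nl MulAction
open scoped commutatorElement Classical

variable {F H P Q : Cl}
variable {G A B D Γ Λ Ω Ξ : Type} [Group G] [Group A] [Group B] [Group D] [Group Γ] [Group Λ]
  [MulAction Γ Ω] [MulAction Λ Ξ] {p q r s e : ℕ} {σ : ℕ → Prop}

theorem sg_inj (ω : Ω) : Injective (sg ω : D →* W Γ Ω D) :=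
  inl_injective.comp (Pi.mulSingle_injective (M := fun _ => D) ω)

theorem per_reg (x : Γ) : period x (1 : Γ) = orderOf x :=
  Nat.dvd_antisymm (period_dvd_orderOf _ _) (orderOf_dvd_of_pow_eq_one (by
    simpa using pow_period_smul x (1 : Γ)))

theorem pe_sig [Fact r.Prime] {g : G} (h : pe r g) (h1 : g ≠ 1) (h2 : PE σ g) : σ r := by
  obtain ⟨n, h3, h4⟩ := h2
  exact h3.2 r Fact.out (by exact_mod_cast h.dvd h1 (c := n) (by simpa using h4))

theorem pe_ne [Fact r.Prime] [Fact s.Prime] {g : G} (h : pe r g) (h' : pe s g) (e : r ≠ s) :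
    g = 1 := by
  obtain ⟨k, hk⟩ := h
  exact pq h' ⟨_, PN.pw (π := (· ≠ s)) Fact.out e k, hk⟩

section
variable [Finite Γ] [Finite Ω] [Finite D]

theorem fw2 (N : Subgroup (W Γ Ω D)) [N.Normal] [Group.IsNilpotent N] {n : W Γ Ω D} (hn : n ∈ N)
    (h1 : PE σ n) {ω : Ω} (h2 : n.right • ω ≠ ω) : ∃ r : ℕ, r.Prime ∧ σ r ∧ NP r D := by
  obtain ⟨r, hr, _, ⟨i, rfl⟩, h3, h4⟩ := mv (rightHom : W Γ Ω D →* Γ) h2
  have := Fact.mk hr
  have h5 : rightHom (n ^ i) • ω ≠ ω := fun e =>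
    hr.one_lt.ne' (h4.symm.trans (period_eq_one_iff.2 e))
  exact ⟨r, hr, pe_sig h3 (fun e => h5 (by rw [show n ^ i = 1 from e, map_one, one_smul]))
    (h1.zpow i), inferInstance, fw N (zpow_mem hn i) h3 h5⟩

theorem gr1 [Fact q.Prime] (h : EE e σ (W Γ Ω D)) {x : Γ} (hx : pe q x) {ω : Ω}
    (h1 : period x ω = q) (h2 : ¬ (σ q ∧ NP q D)) : q ∣ e ∧ EE (e / q) σ D := by
  obtain ⟨_, N, _, _, h3, h4⟩ := h
  have h5 : q ∣ e := by
    by_contra hn
    have h6 : (inr x ^ e : W Γ Ω D).right • ω ≠ ω := by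
      rw [← map_pow, right_inr, Ne, pow_smul_eq_iff_period_dvd, h1]; exact hn
    have h7 : pe q (inr x ^ e : W Γ Ω D) :=
      (hx.map inr).imp fun k e => by rw [← pow_mul, mul_comm, pow_mul, e, one_pow]
    exact h2 ⟨pe_sig h7 (fun e => h6 (by rw [e]; exact one_smul _ _)) (h3 _ (h4 _)),
      inferInstance, fw N (h4 _) h7 h6⟩
  refine ⟨h5, inferInstance, pj N ω, inferInstance, inferInstance, ?_,
    key N h4 x ω (by rw [h1, Nat.mul_div_cancel' h5])⟩
  rintro _ ⟨f, hn, rfl⟩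
  exact PE.map ((h3 _ hn).imp fun k h => ⟨h.1,
    inl_injective ((map_pow inl f k).trans (h.2.trans (map_one _).symm))⟩) _

theorem gr3 (h : EE e σ (W Γ Γ D)) (h2 : ∀ r : ℕ, r.Prime → σ r → ¬ NP r D) (x : Γ) :
    x ^ e = 1 := by
  obtain ⟨_, N, _, _, h3, h4⟩ := h
  by_contra hn
  obtain ⟨r, a, b, c⟩ := fw2 N (h4 (inr x)) (h3 _ (h4 _)) (ω := (1 : Γ)) (by
    rw [← map_pow, right_inr]; simpa using hn)
  exact h2 r a b c

theorem grb [Fact s.Prime] (h : EE e (· = s) (W Γ Γ D)) {u : D} (hu : orderOf u = r) (hr : r.Prime)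
    (h1 : r ≠ s) (x : Γ) : r ∣ e ∧ x ^ (e / r) = 1 := by
  have := Fact.mk hr
  have u1 : pe r u := ⟨1, by rw [pow_one, ← hu, pow_orderOf_eq_one]⟩
  have u2 : u ≠ 1 := fun e => hr.one_lt.ne (by rw [← hu, e, orderOf_one])
  obtain ⟨k, hk⟩ := orderOf_dvd_of_pow_eq_one (gr3 h (by
    rintro _ - rfl h; exact u2 (pe_ne u1 (h.2 u) h1)) x)
  obtain ⟨_, N, _, _, h3, h4⟩ := h
  obtain ⟨f, hf, e1⟩ := key N h4 x (1 : Γ) (by rw [per_reg, ← hk]) u
  have h5 : pe s (u ^ k) := e1 ▸ (pe_inj _ inl_injective (pe_pe.1 (h3 _ hf))).map _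
  obtain ⟨j, rfl⟩ : r ∣ k := hu ▸ orderOf_dvd_of_pow_eq_one (pe_ne (r := r)
    ⟨1, by rw [← pow_mul, mul_comm, pow_mul, pow_one, ← hu, pow_orderOf_eq_one, one_pow]⟩ h5 h1)
  rw [hk, mul_left_comm, Nat.mul_div_cancel_left _ hr.pos, pow_mul, pow_orderOf_eq_one]
  exact ⟨dvd_mul_right _ _, one_pow _⟩

theorem gr4 [Fact s.Prime] (h : EE e (fun _ => True) (W Γ Γ D)) (h1 : NP s D) {d : D} (hd : d ≠ 1) :
    EE e (· = s) Γ := by
  obtain ⟨_, N, _, _, -, h4⟩ := h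
  refine ⟨inferInstance, N.map rightHom, Subgroup.Normal.map inferInstance _ rightHom_surjective,
    nil_img _ _, ?_, fun x => ⟨_, h4 (inr x), by rw [map_pow]; rfl⟩⟩
  rintro _ ⟨n, hn, rfl⟩
  obtain ⟨i, j, e1, h5, h6⟩ := pe_split (· ≠ s) n
  have : rightHom (n ^ i) = 1 := by
    by_contra h7
    obtain ⟨r, a, b, c⟩ := fw2 N (zpow_mem hn i) h5 (ω := (1 : Γ)) (by simpa using h7)
    have := Fact.mk a
    exact hd (pe_ne (c.2 d) (h1.2 d) b)
  rw [e1, map_mul, this, one_mul]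
  exact pe_pe.2 ((pe_iff.2 h6).map _)

end

def Tp (H : Cl) (E D : Type) [Group E] [Group D] : Prop :=
  ∀ (Γ : Type) [Group Γ] (φ : Γ →* E), H Γ → Surjective φ → Gd H Γ Γ D

theorem gt_ab (hH : FO H) (hc : ∀ p : ℕ, p.Prime → ¬ Cd H p) (S : Finset ℕ) :
    ∃ (E : Type) (_ : Group E), H E ∧ ∀ (Γ : Type) [Group Γ] [Finite Γ] (φ : Γ →* E), Surjective φ →
      ∀ p ∈ S, p.Prime → ¬ H (W Γ Γ (Zp p)) := by
  induction S using Finset.induction_on with
  | empty => exact ⟨Unit, _, hH.one, fun _ _ _ _ _ _ h => absurd h (by simp)⟩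
  | insert p S _ ih =>
    obtain ⟨E, _, h1, h2⟩ := ih
    by_cases hp : p.Prime
    · have := Fact.mk hp
      obtain ⟨E', _, h3, h4⟩ : ∃ (E' : Type) (_ : Group E'), H E' ∧ ¬ H (W E' E' (Zp p)) := by
        by_contra hn
        exact hc p hp (cd_of hH fun Γ _ h => by_contra fun h' => hn ⟨Γ, _, h, h'⟩)
      refine ⟨E × E', _, fo_prod hH h1 h3, fun Γ _ _ φ hφ r hr pr => ?_⟩
      rcases Finset.mem_insert.1 hr with rfl | hr
      · have hψ : Surjective ((MonoidHom.snd E E').comp φ) := Prod.snd_surjective.comp hφ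
        exact fun h => h4 (hH.toFm.surj _ (fs_surj hψ hψ fun _ _ => map_mul _ _ _) h)
      · exact h2 Γ ((MonoidHom.fst E E').comp φ) (Prod.fst_surjective.comp hφ) r hr pr
    · exact ⟨E, _, h1, fun Γ _ _ φ hφ r hr pr => h2 Γ φ hφ r
        ((Finset.mem_insert.1 hr).resolve_left fun e => hp (e ▸ pr)) pr⟩

theorem gt_na (hH : FO H) (he : e ≠ 0) (hE : ∀ (G : Type) [Group G], H G → EE e (fun _ => True) G) :
    ∃ (E : Type) (_ : Group E), H E ∧ ∀ (Γ : Type) [Group Γ] (φ : Γ →* E), H Γ → Surjective φ →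
      ∀ (C : Type) [Group C] [Finite C], ¬ Group.IsNilpotent C → ¬ H (W Γ Γ C) := by
  by_cases h0 : ∀ (G : Type) [Group G], H G → ∀ g : G, g ^ e = 1
  · obtain ⟨E, _, t, h1, h2⟩ := Nat.sSup_mem
      (s := {m | ∃ (E : Type) (_ : Group E) (t : E), H E ∧ orderOf t = m})
      ⟨_, Unit, _, 1, hH.one, rfl⟩ ⟨e, by
        rintro _ ⟨E, _, t, h, rfl⟩
        exact Nat.le_of_dvd (Nat.pos_of_ne_zero he) (orderOf_dvd_of_pow_eq_one (h0 E h t))⟩
    have hm : ∀ (G : Type) [Group G] (ψ : G →* E), H G → ∀ g, ψ g = t → orderOf g = orderOf t :=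
      fun G _ ψ h g hg => haveI := hH.fin _ h
        le_antisymm (h2 ▸ le_csSup ⟨e, by
          rintro _ ⟨E, _, t, h, rfl⟩
          exact Nat.le_of_dvd (Nat.pos_of_ne_zero he) (orderOf_dvd_of_pow_eq_one (h0 E h t))⟩
          ⟨G, _, g, h, rfl⟩) (Nat.le_of_dvd (orderOf_pos g) (hg ▸ orderOf_map_dvd ψ g))
    refine ⟨E, _, h1, fun Γ _ φ h hφ C _ _ hC hW => hC (nil_comm fun a b => ?_)⟩
    have := hH.fin _ h
    obtain ⟨x, hx⟩ := hφ t
    have : ∀ u : C, u = 1 := fun u => by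
      have := wp x (1 : Γ) u 1
      rw [per_reg, hm Γ φ h x hx, ← hm _ (φ.comp rightHom) hW (sg 1 u * inr x)
        (by simpa [sg_right] using hx), mul_one, pow_orderOf_eq_one, pow_one] at this
      exact this.symm
    rw [this a, this b]
  · simp only [not_forall] at h0
    obtain ⟨E, _, h1, t, h2⟩ := h0
    refine ⟨E, _, h1, fun Γ _ φ h hφ C _ _ hC hW => h2 ?_⟩
    have := hH.fin _ h
    obtain ⟨x, rfl⟩ := hφ t
    rw [← map_pow, gr3 (hE _ hW) (fun r hr _ h => hC (haveI := Fact.mk hr; h.nil)) x, map_one]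

theorem gt (hH : FO H) (he : e ≠ 0) (hE : ∀ (G : Type) [Group G], H G → EE e (fun _ => True) G)
    (hc : ∀ p : ℕ, p.Prime → ¬ Cd H p) (D : Type) [Group D] [Finite D] :
    ∃ (E : Type) (_ : Group E), H E ∧ Tp H E D := by
  obtain ⟨E, _, h1, h2⟩ := gt_ab hH hc (Nat.card D).primeFactors
  obtain ⟨E', _, h3, h4⟩ := gt_na hH he hE
  refine ⟨E × E', _, fo_prod hH h1 h3, fun Γ _ φ h hφ C _ β hβ _ hW => ?_⟩
  have := hH.fin _ h
  have := Finite.of_surjective β hβ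
  by_cases hC : Group.IsNilpotent C
  · have hp := simp_card (G := C)
    have := Fact.mk hp
    exact h2 Γ ((MonoidHom.fst E E').comp φ) (Prod.fst_surjective.comp hφ) _
      (Nat.mem_primeFactors.2 ⟨hp, Subgroup.card_dvd_of_surjective β hβ, Nat.card_pos.ne'⟩) hp
      (hH.toFm.surj _ (wb_surj (β := (mulEquivOfPrimeCardEq rfl zp_card).toMonoidHom)
        (MulEquiv.surjective _)) hW)
  · exact h4 Γ ((MonoidHom.snd E E').comp φ) h (Prod.snd_surjective.comp hφ) C hC hW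

/-- a good top over a given group -/
theorem gt' (hH : FO H) (he : e ≠ 0) (hE : ∀ (G : Type) [Group G], H G → EE e (fun _ => True) G)
    (hc : ∀ p : ℕ, p.Prime → ¬ Cd H p) (D : Type) [Group D] [Finite D] (a : H A) :
    ∃ (E : Type) (_ : Group E) (_ : Finite (A × E)), H E ∧
      ∀ P, FO P → (Pr P H (W (A × E) (A × E) D) ↔ P D) := by
  obtain ⟨E, _, h1, h2⟩ := gt hH he hE hc D
  have h3 := fo_prod hH a h1
  have := hH.fin _ h3
  exact ⟨E, _, this, h1, fun P hP => sd_iff hH hP h3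
    (h2 _ (MonoidHom.snd A E) h3 Prod.snd_surjective)⟩

theorem cd_np (h : Cd H p) (a : NP p G) : H G :=
  h G ⟨a.1, a.inj _ (Subgroup.subtype_injective _)⟩

theorem ex_big [hp : Fact p.Prime] (he : e ≠ 0) : ∃ (Z : Type) (_ : Group Z) (z : Z),
    NP p Z ∧ z ^ e ≠ 1 := by
  obtain ⟨Z, _, _, z, -, h1, h2⟩ := ex_cyc (pow_ne_zero e hp.out.ne_zero)
  exact ⟨Z, _, z, ⟨inferInstance, fun g => ⟨e, h2 g⟩⟩, fun h => (Nat.lt_pow_self hp.out.one_lt).not_ge
    (h1 ▸ Nat.le_of_dvd (Nat.pos_of_ne_zero he) (orderOf_dvd_of_pow_eq_one h))⟩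

theorem cdl [hp : Fact p.Prime] (hP : FO P) (hH : FO H) (he : e ≠ 0)
    (hE : ∀ (G : Type) [Group G], Pr P H G → EE e (fun _ => True) G) (hc : Cd H p) :
    Pr P H = H := by
  let X : Cl := fun G _ => H G ∧ ∀ g : G, g ^ e = 1
  have hX : FO X := FO.mk' (fun _ _ h => hH.fin _ h.1)
    (fun _ _ _ _ f hf h => ⟨hH.toFm.surj f hf h.1, fun a => by
      obtain ⟨g, rfl⟩ := hf a; rw [← map_pow, h.2, map_one]⟩)
    (fun _ _ _ _ _ _ _ α β ha hb hi a b => ⟨hH.toFm.sub α β ha hb hi a.1 b.1, fun g =>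
      hi _ (by rw [map_pow, a.2]) (by rw [map_pow, b.2])⟩) ⟨hH.one, fun _ => rfl⟩
  have e1 : H = Pr (NP p) X := by
    funext G _
    refine propext ⟨fun h => ?_, fun ⟨_, h⟩ => hc G ⟨inferInstance, h.inj _
      (Subgroup.inclusion_injective (res_anti hX hH.toFm fun _ _ h => h.1))⟩⟩
    have := hH.fin _ h
    obtain ⟨z, hz⟩ := exists_ne (1 : Zp p)
    obtain ⟨_, N, _, _, h1, h2⟩ := gr4 (hE (W G G (Zp p)) (pr_of hP hH (hc _ ⟨inferInstance,
      inferInstance, fun w => pe_inj _ (Subgroup.subtype_injective _) (w_pe w.1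
        (by rw [res_right hH h w.2]; exact pe.one) (np_card zp_card).2)⟩))) (np_card zp_card) hz
    refine ⟨this, inferInstance, fun g => pe_inj _ (Subgroup.subtype_injective _)
      (pe_pe.1 (h1 _ (mk_one.1 (hX.toFm.res_le _ (mk_surj N) ⟨hH.quo _ _ h, fun x => ?_⟩ g.2))))⟩
    obtain ⟨y, rfl⟩ := mk_surj N x
    rw [← map_pow, mk_one.2 (h2 y)]
  have hY := pr_fo hP (np_fo (p := p))
  have e2 : Pr P H = Pr (Pr P (NP p)) X := by rw [pr_assoc hP np_fo hX, ← e1]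
  have h1 : ∀ (G : Type) [Group G], Pr P (NP p) G → EE e (fun _ => True) G := fun G _ h => by
    have := h.1
    obtain ⟨E, _, _, -, h2⟩ := gt' hX he (fun _ _ h => hE _ (pr_of hP hH h.1)) (fun r hr h => by
      have := Fact.mk hr
      obtain ⟨Z, _, z, h1, h2⟩ := ex_big (p := r) he
      exact h2 ((cd_np h h1).2 z)) G hX.one
    exact (hE _ (e2 ▸ (h2 _ hY).2 h)).inj _ (sg_inj 1)
  have h2 : ∀ (G : Type) [Group G], Pr P (NP p) G → NP p G := fun G _ ⟨_, h⟩ => by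
    have h3 : ∀ d, d ∈ Res (NP p) (Res (NP p) G) := fun d => by
      have := res_pr (G := G) (np_fo (p := p)) (np_fo (p := p))
      rw [np_np] at this
      obtain ⟨x, hx, e⟩ := this.le d.2
      rwa [← (Subtype.ext e : x = d)]
    obtain ⟨Z, _, z, z1, z2⟩ := ex_big (p := p) he
    have := z1.1
    obtain ⟨_, N, _, _, -, h4⟩ := h1 (W Z Z (Res (NP p) G)) ((sd_iff np_fo hP z1
      fun C _ β hβ _ hW => by
        obtain ⟨c, hc⟩ := exists_ne (1 : C)
        obtain ⟨d, rfl⟩ := hβ c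
        exact hc (np_fo.toFm.res_le β hβ (hW.inj _ (sg_inj 1)) (h3 d))).2 h)
    obtain ⟨_, -, rfl, h5⟩ := fw2 N (h4 (inr z)) (σ := (· = p)) (ω := (1 : Z))
      (by rw [← map_pow]; exact pe_pe.2 ((z1.2 _).map _))
      (by rw [← map_pow, right_inr]; simpa using z2)
    rw [← np_np]
    exact ⟨inferInstance, h5⟩
  funext G _
  refine propext ⟨fun h => ?_, pr_of hP hH⟩
  rw [e2] at h
  rw [e1]
  exact ⟨h.1, h2 _ h.2⟩

theorem pj_nil (hP : FO P) (N : Subgroup (W Γ Ω D)) [Group.IsNilpotent N] (h : P N) (ω : Ω)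
    (h1 : pj N ω = ⊤) : P D :=
  hP.toFm.surj ((Pi.evalMonoidHom (fun _ => D) ω).comp (N.comap inl).subtype)
    (fun d => by obtain ⟨f, hf, e⟩ := h1.ge (Subgroup.mem_top d); exact ⟨⟨f, hf⟩, e⟩)
    (neu hP h (inl.subgroupComap N) fun _ _ e =>
      Subtype.ext (inl_injective (congrArg Subtype.val e)))

theorem nq [Fact p.Prime] (hP : FO P) (hH : FO H) (h : Pr P H = NP p)
    (h1 : ∀ (G : Type) [Group G], P G → NP p G) : P = NP p ∨ H = NP p := by
  by_cases h0 : ∀ (G : Type) [Group G], NP p G → H G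
  · exact Or.inr (funext fun G => funext fun _ => propext ⟨fun a => h ▸ pr_of hP hH a, h0 G⟩)
  refine Or.inl (funext fun G => funext fun _ => propext ⟨h1 G, fun a => ?_⟩)
  simp only [not_forall] at h0
  obtain ⟨E, _, b, c⟩ := h0
  have := a.1
  have := b.1
  have hB : NP p (W (Zp p) (Zp p) G) :=
    ⟨inferInstance, fun w => w_pe w ((np_card zp_card).2 _) a.2⟩
  have hW : NP p (W E E (W (Zp p) (Zp p) G)) := ⟨inferInstance, fun w => w_pe w (b.2 _) hB.2⟩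
  have := hB.nil
  have := hW.nil
  have hm : Mv (Res H E) E := fun ω => by
    by_contra hn
    exact c (hH.of_res fun g hg => by_contra fun e => hn ⟨g, hg, by simpa using e⟩)
  have h2 : P (commutator (W (Zp p) (Zp p) G)) := neu hP (h.ge _ _ hW).2
    (((sg (1 : E)).comp (Subgroup.subtype _)).codRestrict _ fun x => cp1 hH hm 1 x.1 x.2)
    fun _ _ e => Subtype.ext (sg_inj 1 (congrArg Subtype.val e))
  refine pj_nil hP _ h2 1 (eq_top_iff.2 fun x _ => ?_)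
  obtain ⟨z, hz⟩ := exists_ne (1 : Zp p)
  have := mem_pj (Subgroup.commutator_mem_commutator (Subgroup.mem_top (sg (1 : Zp p) x))
    (Subgroup.mem_top (inr z : W (Zp p) (Zp p) G))) (by simp [commutatorElement_def, sg_right]) 1
  rwa [commutatorElement_def, mul_assoc, mul_assoc, ← mul_assoc (inr z), ← map_inv, sg_cj, w_mul,
    sg_left, sg_left, if_pos rfl, if_neg (by simpa [sg_right, eq_comm] using hz), mul_one] at this

end Pool.Agent.H68.Fa
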