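import Pool.Agent.H68.Fa4

set_option autoImplicit false

namespace Pool.Agent.H68.Fa

open Function SemidirectProduct Pool.Agent.H68.Fit Pool.Agent.H68.Sat Pool.Agent.H68.Nl MulAction
open scoped commutatorElement Classical

variable {Z A B : Cl} {G : Type} [Group G] {p q r s e : ℕ} {σ : ℕ → Prop}

def PL (L : List Cl) : Cl := L.foldr Pr Tv

theorem pl_fo : ∀ {L : List Cl}, (∀ X ∈ L, FO X) → FO (PL L)
  | [], _ => tv_fo
  | X :: _, h => pr_fo (h X List.mem_cons_self) (pl_fo fun Y hY => h Y (List.mem_cons_of_mem _ hY))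

theorem pl_app : ∀ {L M : List Cl}, (∀ X ∈ L, FO X) → (∀ X ∈ M, FO X) →
    PL (L ++ M) = Pr (PL L) (PL M)
  | [], _, _, h => (tv_pr (pl_fo h)).symm
  | X :: L, M, h, h' => by
    have h1 : ∀ Y ∈ L, FO Y := fun Y hY => h Y (List.mem_cons_of_mem _ hY)
    change Pr X (PL (L ++ M)) = Pr (Pr X (PL L)) (PL M)
    rw [pr_assoc (h X List.mem_cons_self) (pl_fo h1) (pl_fo h'), pl_app h1 h']

def Wn (Z : Cl) : Prop := ∀ A B, FO A → FO B → Z = Pr A B → A = Z ∨ B = Z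

def Fine (Z : Cl) : Prop := ∃ L : List Cl, L ≠ [] ∧ (∀ X ∈ L, FO X ∧ Wn X) ∧ Z = PL L

theorem Wn.fine (h : Wn Z) (hZ : FO Z) : Fine Z :=
  ⟨[Z], by simp, by simpa using ⟨hZ, h⟩, (pr_tv hZ).symm⟩

theorem Fine.pr (a : Fine A) (b : Fine B) : Fine (Pr A B) := by
  obtain ⟨L, a1, a2, rfl⟩ := a
  obtain ⟨M, -, b2, rfl⟩ := b
  exact ⟨L ++ M, by simp [a1], fun X hX => (List.mem_append.1 hX).elim (a2 X) (b2 X),
    (pl_app (fun X h => (a2 X h).1) fun X h => (b2 X h).1).symm⟩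

def Su (Z Y : Cl) : Prop := ∀ (G : Type) [Group G], Z G → Y G

theorem Su.all (h : Su Z (EE e σ)) : Su Z (EE e fun _ => True) :=
  fun G _ a => (h G a).mono dvd_rfl fun _ _ => trivial

structure Dc (e : ℕ) (σ : ℕ → Prop) (A B : Cl) : Prop where
  a : FO A
  b : FO B
  he : e ≠ 0
  su : Su (Pr A B) (EE e σ)
  nc : ∀ p : ℕ, p.Prime → ¬ Cd B p
  a1 : A ≠ Tv
  b1 : B ≠ Tv

theorem dc_of (hZ : FO Z) (he : e ≠ 0) (h : Su Z (EE e σ)) (hn : ¬ Wn Z) :
    ∃ A B, Z = Pr A B ∧ Dc e σ A B ∧ A ≠ Z := by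
  simp only [Wn, not_forall, not_or] at hn
  obtain ⟨A, B, a, b, rfl, h1, h2⟩ := hn
  exact ⟨A, B, rfl, ⟨a, b, he, h, fun p hp hc => h2 (haveI := Fact.mk hp; cdl a b he h.all hc).symm,
    fun e => h2 (by rw [e, tv_pr b]), fun e => h1 (by rw [e, pr_tv a])⟩, h1⟩

theorem Dc.top (d : Dc e σ A B) {U E : Type} [Group U] [Group E] (u : A U) (b : B E) :
    ∃ (E' : Type) (_ : Group E') (_ : Finite (E × E')), EE e σ (W (E × E') (E × E') U) := by
  have := d.a.fin _ u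
  obtain ⟨E', _, _, -, h⟩ := gt' d.b d.he (fun _ _ h => d.su.all _ (pr_of d.a d.b h)) d.nc U b
  exact ⟨E', _, inferInstance, d.su _ ((h _ d.a).2 u)⟩

theorem ex_ord [Finite G] {g : G} (h : g ≠ 1) :
    ∃ q : ℕ, q.Prime ∧ ∃ a ∈ Subgroup.zpowers g, pe q a ∧ orderOf a = q := by
  obtain ⟨q, hq, a, h1, h2, h3⟩ := mv (MonoidHom.id G) (g := g) (ω := (1 : G)) (by simpa using h)
  exact ⟨q, hq, a, h1, h2, (per_reg a).symm.trans h3⟩

theorem Dc.left (d : Dc e σ A B) : ∃ q : ℕ, q.Prime ∧ ∀ (U : Type) [Group U], A U →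
    ¬ (σ q ∧ NP q U) → q ∣ e ∧ EE (e / q) σ U := by
  obtain ⟨E, _, t, b, ht⟩ := ex_nt d.b d.b1
  have := d.b.fin _ b
  obtain ⟨q, hq, a, -, h1, h2⟩ := ex_ord ht
  refine ⟨q, hq, fun U _ u h => ?_⟩
  have := d.a.fin _ u
  have := Fact.mk hq
  obtain ⟨E', _, _, h3⟩ := d.top u b
  exact gr1 h3 (h1.map (MonoidHom.inl E E')) (ω := 1)
    (by rw [per_reg, orderOf_injective _ (fun _ _ e => congrArg Prod.fst e), h2]) h

theorem ee_exp [Finite G] (h : ∀ g : G, g ^ e = 1) : EE e σ G :=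
  ⟨inferInstance, ⊥, inferInstance, inferInstance, fun _ h => by
    rw [Subgroup.mem_bot.1 h]; exact PE.one, h⟩

theorem wn_np [Fact p.Prime] : Wn (NP p) := by
  by_contra hn
  obtain ⟨A, B, e1, d, h⟩ := dc_of (σ := (· = p)) np_fo one_ne_zero (fun _ _ h => h.ee) hn
  have : Su A (NP p) := fun U _ u => by
    obtain ⟨E', _, _, _, N, _, _, h1, h2⟩ := d.top u d.b.one
    exact NP.inj ⟨inferInstance, fun w => pe_pe.1 (h1 _ (pow_one w ▸ h2 w))⟩ _ (sg_inj 1)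
  rcases nq d.a d.b e1.symm this with e | e
  · exact h (e.trans rfl)
  · exact d.nc p Fact.out fun G _ h => by rwa [e, np_np, ← e] at h

theorem div_ok (he : e ≠ 0) (hq : q.Prime) (h : q ∣ e) : e / q < e ∧ e / q ≠ 0 :=
  ⟨Nat.div_lt_self (Nat.pos_of_ne_zero he) hq.one_lt,
    (Nat.div_pos (Nat.le_of_dvd (Nat.pos_of_ne_zero he) h) hq.pos).ne'⟩

theorem zp_mem [Fact s.Prime] (a : FO A) (h : A ≠ Tv) (h1 : Su A (NP s)) : A (Zp s) := by
  obtain ⟨U, _, u, h2, h3⟩ := ex_nt a h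
  obtain ⟨β, hβ⟩ := np_zp (h1 _ h2) h3
  exact a.toFm.surj β hβ h2

theorem res_ne [Fact s.Prime] (a : FO A) (h : A (Zp s)) (h1 : NP s G) {g : G} (hg : g ≠ 1) :
    Res A G ≠ ⊤ := fun e => by
  obtain ⟨β, hβ⟩ := np_zp h1 hg
  obtain ⟨z, hz⟩ := exists_ne (1 : Zp s)
  obtain ⟨x, rfl⟩ := hβ z
  exact hz (a.toFm.res_le β hβ h (e.ge (Subgroup.mem_top x)))

theorem np_ext [Finite G] (N : Subgroup G) [N.Normal] (h : NP s N) (h' : NP s (G ⧸ N)) : NP s G :=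
  ⟨inferInstance, fun g => (h'.2 _).of_ker (QuotientGroup.mk' N) fun a ha =>
    (h.2 ⟨a, mk_one.1 ha⟩).map N.subtype⟩

theorem lemB [Fact s.Prime] (e : ℕ) : e ≠ 0 → ∀ Z, FO Z → Su Z (EE e (· = s)) → Fine Z := by
  induction e using Nat.strong_induction_on with
  | _ e ih =>
  intro he
  have k1 : ∀ A B, Dc e (· = s) A B → ¬ Su A (NP s) → Fine (Pr A B) := fun A B d h => by
    simp only [Su, not_forall] at h
    obtain ⟨U, _, u, h⟩ := h
    have := d.a.fin _ u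
    refine Fine.pr ?_ ?_
    · obtain ⟨q, hq, h1⟩ := d.left
      have h2 := div_ok he hq (h1 U u fun x => h (x.1 ▸ x.2)).1
      refine ih _ h2.1 h2.2 A d.a fun V _ v => ?_
      by_cases h3 : q = s ∧ NP q V
      · exact (h3.1 ▸ h3.2 : NP s V).ee
      · exact (h1 V v h3).2
    · obtain ⟨x, hx⟩ : ∃ x : U, ¬ pe s x := by
        by_contra hn; exact h ⟨this, fun x => by_contra fun e => hn ⟨x, e⟩⟩
      obtain ⟨i, j, e1, h1, h2⟩ := pe_split (· ≠ s) x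
      obtain ⟨r, hr, _, ⟨k, rfl⟩, h3, h4⟩ := ex_ord (g := x ^ i) fun e => hx (by
        rw [e1, e, one_mul]; exact pe_iff.2 h2)
      have := Fact.mk hr
      have h5 : r ≠ s := pe_sig (σ := (· ≠ s)) h3
        (fun e => hr.one_lt.ne (by rw [← h4, e, orderOf_one])) (h1.zpow k)
      have h6 : ∀ (E : Type) [Group E], B E → r ∣ e ∧ ∀ y : E, y ^ (e / r) = 1 := fun E _ b => by
        obtain ⟨E', _, _, h6⟩ := d.top u b
        exact ⟨(grb h6 h4 hr h5 1).1, fun y => congrArg Prod.fst (grb h6 h4 hr h5 (y, 1)).2⟩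
      have h7 := div_ok he hr (h6 _ d.b.one).1
      exact ih _ h7.1 h7.2 B d.b fun E _ b => haveI := d.b.fin _ b; ee_exp (h6 E b).2
  have k2 : ∀ n Z, FO Z → Su Z (EE e (· = s)) → ∀ (G : Type) [Group G], Nat.card G = n →
      Pr (NP s) Z G → ¬ Z G → Fine Z := fun n => by
    induction n using Nat.strong_induction_on with
    | _ n ih2 =>
    intro Z hZ h G _ hn g1 g2
    by_cases hw : Wn Z
    · exact hw.fine hZ
    obtain ⟨A, B, rfl, d, -⟩ := dc_of hZ he h hw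
    by_cases h1 : Su A (NP s)
    swap
    · exact k1 A B d h1
    have := g1.1
    have z1 := zp_mem d.a d.a1 h1
    have g3 : ¬ A (Res B G) := fun a => g2 ⟨this, a⟩
    have g4 : NP s (Res B G) := np_ext (Res A _) (g1.2.inj (((Res B G).subtype.comp
        (Res A (Res B G)).subtype).codRestrict _ fun x => (res_pr d.a d.b).ge ⟨_, x.2, rfl⟩)
      fun _ _ e => Subtype.ext (Subtype.ext (congrArg Subtype.val e :))) (h1 _ d.a.res_mem)
    obtain ⟨x, hx⟩ : ∃ x : Res B G, x ≠ 1 := by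
      by_contra hn
      exact g3 (d.a.of_res fun x _ => by_contra fun e => hn ⟨x, e⟩)
    refine Fine.pr ?_ ?_
    · by_cases e1 : e = 1
      · subst e1
        have s1 : Su (Pr A B) (NP s) := fun G _ a => by
          obtain ⟨_, N, _, _, h1, h2⟩ := h G a
          exact ⟨inferInstance, fun w => pe_pe.1 (h1 _ (pow_one w ▸ h2 w))⟩
        exact ih2 _ (hn ▸ card_lt (res_ne d.b (zp_mem d.b d.b1 fun _ _ b => s1 _ (pr_of d.a d.b b))
          (np_ext _ g1.2 (s1 _ hZ.res_mem)) (g := x.1) fun e => hx (Subtype.ext e))) A d.a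
          (fun _ _ a => (h1 _ a).ee) _ rfl ⟨inferInstance, g4.inj _ (Subgroup.subtype_injective _)⟩ g3
      · exact ih 1 (by omega) one_ne_zero A d.a fun _ _ a => (h1 _ a).ee
    · refine ih2 _ (hn ▸ card_quo_lt fun e => g2 (hZ.of_res fun g hg => e.le hg)) B d.b
        (fun _ _ b => h _ (pr_of d.a d.b b)) (G ⧸ Res (Pr A B) G) rfl
        ((pr_fo np_fo d.b).quo _ _ ⟨this, g4⟩) fun b => res_ne d.a z1 g4 hx (eq_top_iff.2 fun y _ => ?_)
      obtain ⟨y', h2, h3⟩ := (res_pr d.a d.b).le (mk_one.1 (d.b.toFm.res_le _ (mk_surj _) b y.2))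
      rwa [← (Subtype.ext h3 : y' = y)]
  have k3 : ∀ Z, FO Z → Su Z (EE e (· = s)) → ¬ Cd Z s → Fine Z := fun Z hZ h hc => by
    simp only [Cd, not_forall] at hc
    obtain ⟨G, _, h1, h2⟩ := hc
    exact k2 _ Z hZ h G rfl h1 h2
  intro Z hZ h
  by_cases hw : Wn Z
  · exact hw.fine hZ
  obtain ⟨A, B, rfl, d, -⟩ := dc_of hZ he h hw
  by_cases h1 : Su A (NP s)
  swap
  · exact k1 A B d h1
  refine Fine.pr ?_ (k3 B d.b (fun _ _ b => h _ (pr_of d.a d.b b)) (d.nc s Fact.out))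
  by_cases h2 : Cd A s
  · rw [show A = NP s from funext fun G => funext fun _ => propext ⟨h1 G, cd_np h2⟩]
    exact wn_np.fine np_fo
  · exact k3 A d.a (fun _ _ a => (h1 _ a).ee) h2

theorem ex_mix (a : FO A) (a1 : A ≠ Tv) (h : ∀ s : ℕ, s.Prime → ¬ Su A (NP s)) :
    ∃ (U : Type) (_ : Group U), A U ∧ ∀ r : ℕ, r.Prime → ¬ NP r U := by
  obtain ⟨U, _, u, h1, h2⟩ := ex_nt a a1
  by_cases h3 : ∃ r : ℕ, r.Prime ∧ NP r U
  · obtain ⟨r, hr, h3⟩ := h3
    have h4 := h r hr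
    simp only [Su, not_forall] at h4
    obtain ⟨V, _, h4, h5⟩ := h4
    refine ⟨U × V, _, fo_prod a h1 h4, fun r' hr' h6 => h5 ?_⟩
    have := Fact.mk hr
    have := Fact.mk hr'
    obtain rfl : r = r' := by_contra fun e =>
      h2 (pe_ne (h3.2 u) ((h6.2 (u, 1)).map (MonoidHom.fst U V)) e)
    exact np_fo.toFm.surj (MonoidHom.snd U V) Prod.snd_surjective h6
  · exact ⟨U, _, h1, fun r hr h => h3 ⟨r, hr, h⟩⟩

theorem lemC (e : ℕ) : e ≠ 0 → ∀ Z, FO Z → Su Z (EE e fun _ => True) → Fine Z := by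
  induction e using Nat.strong_induction_on with
  | _ e ih =>
  intro he Z hZ h
  by_cases hw : Wn Z
  · exact hw.fine hZ
  obtain ⟨A, B, rfl, d, -⟩ := dc_of hZ he h hw
  by_cases h1 : ∃ s : ℕ, s.Prime ∧ Su A (NP s)
  · obtain ⟨s, hs, h1⟩ := h1
    have := Fact.mk hs
    refine (lemB e he A d.a fun _ _ a => (h1 _ a).ee).pr (lemB (s := s) e he B d.b fun E _ b => ?_)
    obtain ⟨E', _, _, h2⟩ := d.top (zp_mem d.a d.a1 h1) b
    obtain ⟨z, hz⟩ := exists_ne (1 : Zp s)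
    exact (gr4 h2 (np_card zp_card) hz).surj (MonoidHom.fst E E') Prod.fst_surjective
  obtain ⟨U, _, u, h2⟩ := ex_mix d.a d.a1 fun s hs h => h1 ⟨s, hs, h⟩
  have := d.a.fin _ u
  refine Fine.pr ?_ (lemB (s := 2) e he B d.b fun E _ b => ?_)
  · obtain ⟨q, hq, h3⟩ := d.left
    have := Fact.mk hq
    have h4 := div_ok he hq (h3 U u fun x => h2 q hq x.2).1
    refine ih _ h4.1 h4.2 A d.a fun V _ v => ?_
    by_cases h5 : NP q V
    · exact h5.ee.mono dvd_rfl fun _ _ => trivial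
    · exact (h3 V v fun x => h5 x.2).2
  · have := d.b.fin _ b
    obtain ⟨E', _, _, h3⟩ := d.top u b
    exact ee_exp fun y => congrArg Prod.fst (gr3 h3 (fun r hr _ => h2 r hr) (y, 1))

end Pool.Agent.H68.Fa
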