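import Mathlib

set_option autoImplicit false

namespace Pool.Agent.H68.FaD

/-- Classes of groups. -/
abbrev Cls := (G : Type) → [Group G] → Prop

/-- A formation: a nonempty class of finite groups, closed under isomorphism and quotients, with
`G/N₁, G/N₂ ∈ F ⇒ G/(N₁ ∩ N₂) ∈ F`. -/
structure IsFormation (F : Cls) : Prop where
  nonempty : ∃ (G : Type) (_ : Group G), F G
  finite : ∀ (G : Type) [Group G], F G → Finite G
  iso : ∀ (G K : Type) [Group G] [Group K], (G ≃* K) → F G → F K
  quot : ∀ (G : Type) [Group G] (N : Subgroup G) [N.Normal], F G → F (G ⧸ N)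
  inf : ∀ (G : Type) [Group G] [Finite G] (M N : Subgroup G) [M.Normal] [N.Normal],
    F (G ⧸ M) → F (G ⧸ N) → F (G ⧸ (M ⊓ N))

/-- `G/Φ(G) ∈ F ⇒ G ∈ F` for finite `G`. -/
def Saturated (F : Cls) : Prop :=
  ∀ (G : Type) [Group G] [Finite G], F (G ⧸ frattini G) → F G

/-- The intersection of all saturated formations containing `G₀`. -/
def satGen (G₀ : Type) [Group G₀] : Cls :=
  fun G _ => ∀ F : Cls, IsFormation F → Saturated F → F G₀ → F G

/-- The `H`-residual: the intersection of all normal `N` with `G/N ∈ H`. -/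
def residual (H : Cls) (G : Type) [Group G] : Subgroup G :=
  sInf {N | ∃ _ : N.Normal, H (G ⧸ N)}

/-- The product `FH = {G finite : G^H ∈ F}`. -/
def mul (F H : Cls) : Cls := fun G _ => Finite G ∧ F (residual H G)

/-- The product `F₀ F₁ ⋯ F_t` of `F₀` and the list `[F₁, …, F_t]`, bracketed from the right. -/
def prod : Cls → List Cls → Cls
  | F, [] => F
  | F, X :: L => mul F (prod X L)

/-- The formation `(1)` of trivial groups. -/
def trivialCls : Cls := fun G _ => Subsingleton G

end Pool.Agent.H68.FaD
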