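import Pool.Agent.H68.Fa5
import Pool.Agent.H68.FaDefs

set_option autoImplicit false

namespace Pool.Agent.H68.Fa

open Function Pool.Agent.H68.Sat Pool.Agent.H68.FaD

variable {F : Cl}

theorem fo_iff : IsFormation F ↔ FO F := by
  refine ⟨fun h => ⟨⟨h.finite, fun G K _ _ ⟨e⟩ => h.iso G K e, h.quot, fun G _ _ N L _ _ e a b =>
    h.iso _ _ ((QuotientGroup.quotientMulEquivOfEq e).trans QuotientGroup.quotientBot)
      (h.inf G N L a b)⟩, ?_⟩, fun h => ⟨⟨_, _, h.one⟩, h.fin, fun G K _ _ e => h.iso G K ⟨e⟩, h.quo,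
    fun G _ _ M N _ _ a b => h.toFm.quo_inf M N a b⟩⟩
  obtain ⟨G, _, a⟩ := h.nonempty
  have := QuotientGroup.subsingleton_quotient_top (G := G)
  have : Unique (G ⧸ (⊤ : Subgroup G)) := uniqueOfSubsingleton 1
  exact h.iso _ _ MulEquiv.ofUnique (h.quot G ⊤ a)

theorem prod_eq : ∀ (L : List Cl) (F : Cl), (∀ X ∈ F :: L, FO X) → prod F L = PL (F :: L)
  | [], F, h => (pr_tv (h F List.mem_cons_self)).symm
  | X :: L, F, h => congrArg (Pr F) (prod_eq L X fun Y hY => h Y (List.mem_cons_of_mem _ hY))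

theorem sat_ee (G₀ : Type) [Group G₀] [Finite G₀] :
    Su (satGen G₀) (EE (Nat.card G₀) fun _ => True) := fun _ _ h =>
  h _ (fo_iff.2 ee_fo) ee_st (ee_exp fun _ => pow_card_eq_one')

end Pool.Agent.H68.Fa
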