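import Pool.Agent.H68.Fa5

set_option autoImplicit false

namespace Pool.Agent.H68.Fa

open Function SemidirectProduct Pool.Agent.H68.Fit Pool.Agent.H68.Sat Pool.Agent.H68.Nl MulAction
open scoped commutatorElement Classical

variable {F H P Q : Cl}
variable {G A B D Γ Λ Ω Ξ : Type} [Group G] [Group A] [Group B] [Group D] [Group Γ] [Group Λ]
  [MulAction Γ Ω] [MulAction Λ Ξ] {p q r s e : ℕ} {σ : ℕ → Prop}

theorem wmap_surj {β : B →* D} (hβ : Surjective β) {φ : Γ →* Λ} (hφ : Surjective φ) {ι : Ξ → Ω}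
    (hι : Injective ι) (h : ∀ g x, ι (φ g • x) = g • ι x) : Surjective (wmap β φ ι h) := fun w =>
  ⟨⟨extend ι (fun x => surjInv hβ (w.left x)) 1, surjInv hφ w.right⟩, w_ext (fun x =>
    (congrArg β (hι.extend_apply (fun x => surjInv hβ (w.left x)) 1 x)).trans (surjInv_eq hβ _)) (surjInv_eq hφ _)⟩

/-- restriction of the top group -/
def ws (β : B →* D) (T : Subgroup Γ) : W T Ω B →* W Γ Ω D := wmap β T.subtype id fun _ _ => rfl

theorem ws_inj {β : B →* D} (hβ : Injective β) (T : Subgroup Γ) : Injective (ws (Ω := Ω) β T) :=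
  fun _ _ e => w_ext (fun x => hβ (congrFun (congrArg SemidirectProduct.left e) x))
    (Subtype.ext (congrArg SemidirectProduct.right e :))

section
variable [Finite Γ] [Finite Ω] [Finite D]

theorem der0 (hH : FO H) (hm : Mv (Res H Γ) Ω) (ω₀ : Ω) {z : D} (hz : z ≠ 1)
    (h : ∀ a ∈ Res H (W Γ Ω D), ∀ b ∈ Res H (W Γ Ω D), ⁅a, b⁆.right = 1 → ∀ ω, ⁅a, b⁆.left ω = 1) :
    False := by
  have i1 : ∀ a ∈ Res H (W Γ Ω D), a.right = 1 → ∀ t ∈ Res H Γ, ∀ ω, a.left (t • ω) = a.left ω :=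
    fun a ha a1 t ht ω => by
      have := h _ (cp hH hm (inv_mem ht)) a ha (by simp [commutatorElement_def, a1]) ω
      rw [commutatorElement_def, w_mul, w_cj _ _ a1, w_inv] at this
      simpa [a1, mul_inv_eq_one] using this
  have i2 : ∀ t ∈ Res H Γ, ∀ ω c, (sg ω c * sg (t • ω) c⁻¹ : W Γ Ω D) ∈ Res H _ := fun t ht ω c => by
    have := mul_mem (Subgroup.Normal.conj_mem inferInstance _ (cp (D := D) hH hm ht) (sg ω c))
      (inv_mem (cp hH hm ht))
    rwa [mul_assoc, mul_assoc, ← mul_assoc (inr t), ← map_inv (sg ω : D →* W Γ Ω D), sg_cj, left_inr, Pi.one_apply,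
      one_mul, inv_one, mul_one, right_inr] at this
  choose t ht ht' using hm
  have i3 : ∀ ω (c : D), ∀ s ∈ Res H Γ, (if s • ω = ω then c else 1) *
      (if s • ω = t ω • ω then c⁻¹ else 1) = c := fun ω c s hs => by
    have := i1 _ (i2 _ (ht ω) ω c) (by simp [sg_right]) s hs ω
    simpa only [w_mul, sg_left, sg_right, (ht' ω).symm, inv_one, one_smul, if_true, if_false,
      mul_one] using this
  have i4 : ∀ c : D, c⁻¹ = c := fun c => by simpa [ht'] using i3 ω₀ c _ (ht ω₀)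
  have i5 : ∀ ω, ∀ s ∈ Res H Γ, s • ω ≠ ω → s • ω = t ω • ω := fun ω s hs h1 => by
    by_contra h2
    exact hz (by simpa [h1, h2, eq_comm] using i3 ω z s hs)
  let τ : Ω → Ω := fun ω => t ω • ω
  have t1 : ∀ (g : Γ) ω, τ (g • ω) = g • τ ω := fun g ω => by
    have := i5 (g • ω) _ (Subgroup.Normal.conj_mem inferInstance _ (ht ω) g)
      (by simpa [mul_smul] using ht' ω)
    simpa [mul_smul] using this.symm
  have t2 : ∀ ω, τ (τ ω) = ω := fun ω => by
    have := i5 (τ ω) _ (inv_mem (ht ω)) (by simpa [τ] using (ht' ω).symm)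
    simpa [τ] using this.symm
  have cm : ∀ a b : D, a * b = b * a := fun a b => by rw [← i4 (a * b), mul_inv_rev, i4, i4]
  have sq' : ∀ a : D, a * a = 1 := fun a => by nth_rw 1 [← i4 a]; exact inv_mul_cancel a
  obtain ⟨ι, hι⟩ := Countable.exists_injective_nat Ω
  have t3 : ∀ ω, ι (τ ω) < ι (τ (τ ω)) ↔ ¬ ι ω < ι (τ ω) := fun ω => by
    have : ι (τ ω) ≠ ι ω := fun e => ht' ω (hι e)
    rw [t2]; omega
  let V : Subgroup (W Γ Ω D) :=
    { carrier := {w | ∀ ω, w.left (τ ω) = w.left ω}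
      one_mem' := fun _ => rfl
      mul_mem' := fun ha hb ω => by rw [w_mul, w_mul, ha, ← t1, hb]
      inv_mem' := fun ha ω => by rw [w_inv, w_inv, ← t1, ha] }
  let Ψ : W Γ Ω D →* V := MonoidHom.mk' (fun w => ⟨⟨fun ω => w.left ω * w.left (τ ω), w.right⟩,
    fun ω => by dsimp only; rw [t2, cm]⟩) fun a b => Subtype.ext (w_ext (fun ω => by
      change (a * b).left ω * (a * b).left (τ ω) = a.left ω * a.left (τ ω) *
        (b.left (a.right⁻¹ • ω) * b.left (τ (a.right⁻¹ • ω)))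
      rw [w_mul, w_mul, t1, mul_assoc, mul_assoc, ← mul_assoc (b.left _), cm (b.left _), mul_assoc])
      rfl)
  have hΨ : Surjective Ψ := fun v =>
    ⟨⟨fun ω => if ι ω < ι (τ ω) then v.1.left ω else 1, v.1.right⟩, Subtype.ext (w_ext (fun ω => by
      change ite _ _ _ * ite _ _ _ = _
      by_cases e : ι ω < ι (τ ω)
      · rw [if_pos e, if_neg (by rwa [t3, not_not]), mul_one]
      · rw [if_neg e, if_pos ((t3 ω).2 e), one_mul, v.2]) rfl)⟩
  let f : Ω → D := fun ω => if ι ω < ι (τ ω) then z else 1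
  have f1 : ∀ ω, f (τ ω) = z * f ω := fun ω => by
    by_cases e : ι ω < ι (τ ω)
    · simp only [f, t3, e, not_true, if_true, if_false, sq']
    · simp only [f, t3, e, not_false_iff, if_true, if_false, mul_one]
  have f2 : ∀ (g : Γ) ω, (inl f * inr g * (inl f)⁻¹ : W Γ Ω D).left ω = f ω * (f (g⁻¹ • ω))⁻¹ :=
    fun g ω => by simp [w_mul, w_inv]
  let κ : Γ →* V := ((MulAut.conj (inl f : W Γ Ω D)).toMonoidHom.comp inr).codRestrict V
    fun g ω => by
      change (inl f * inr g * (inl f)⁻¹ : W Γ Ω D).left _ = (inl f * inr g * (inl f)⁻¹ : W Γ Ω D).left _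
      rw [f2, f2, ← t1, f1, f1, mul_inv_rev, cm z, mul_assoc, ← mul_assoc z, cm z, mul_assoc,
        mul_inv_cancel, mul_one]
  have : Group.IsNilpotent (rightHom.comp V.subtype).ker := nil_comm fun a b =>
    Subtype.ext (Subtype.ext (w_ext (fun ω => by
      change (a.1.1 * b.1.1).left ω = (b.1.1 * a.1.1).left ω
      rw [w_mul, w_mul, show a.1.1.right = 1 from a.2, show b.1.1.right = 1 from b.2, cm]; simp)
      (by change a.1.1.right * b.1.1.right = b.1.1.right * a.1.1.right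
          rw [show a.1.1.right = 1 from a.2, mul_one, one_mul])))
  have := nil_img (rightHom.comp V.subtype).ker (QuotientGroup.mk' (Res H V))
  obtain ⟨w, h1, h2⟩ := hH.res_surj Ψ hΨ (bbh hH κ (rightHom.comp V.subtype).ker
    (fun v => ⟨v.1.right, by simp [κ, MonoidHom.mem_ker]⟩) (inv_mem (ht ω₀)))
  have h3 : w.left ω₀ * w.left (τ ω₀) = _ := (congrFun (congrArg (fun v : V => v.1.left) h2) ω₀).trans
    (f2 _ _)
  have h4 := i1 _ (mul_mem h1 (inv_mem (cp hH (fun ω => ⟨_, ht ω, ht' ω⟩)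
    (hH.res_map rightHom rightHom_surjective h1)))) (by simp) _ (ht ω₀) ω₀
  simp only [w_mul, ← map_inv, left_inr, Pi.one_apply, mul_one] at h4
  rw [inv_inv, show w.left (τ ω₀) = _ from h4, sq', show f (t ω₀ • ω₀) = _ from f1 ω₀] at h3
  exact hz (by simpa using h3.symm)

theorem der (hH : FO H) [IsPretransitive Γ Ω] (hm : Mv (Res H Γ) Ω) (ω : Ω) :
    pj ⁅Res H (W Γ Ω D), Res H (W Γ Ω D)⁆ ω = ⊤ := by
  by_contra hn
  obtain ⟨C, _, β, h1, _, h3⟩ := sq _ hn
  have := Finite.of_surjective β h1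
  obtain ⟨z, hz⟩ := exists_ne (1 : C)
  refine der0 hH hm ω hz fun a ha b hb e x => ?_
  obtain ⟨a, ha', rfl⟩ := hH.res_surj _ (wb_surj h1) ha
  obtain ⟨b, hb', rfl⟩ := hH.res_surj _ (wb_surj h1) hb
  rw [← map_commutatorElement] at e ⊢
  exact h3 _ (pj_eq x ω (mem_pj (Subgroup.commutator_mem_commutator ha' hb') e x))

end

def Step (X Y : Cl) : Prop := ∀ (B : Type) [Group B], X B → ∃ (H : Cl) (Γ Ω : Type) (_ : Group Γ)
  (_ : MulAction Γ Ω) (_ : Finite Γ) (_ : Finite Ω) (_ : Nonempty Ω) (_ : IsPretransitive Γ Ω),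
  FO H ∧ Mv (Res H Γ) Ω ∧ Y (Res H (W Γ Ω B))

theorem two (hP : FO P) (hQ : FO Q) (h1 : Step Q P) (h2 : Step P Q) (b : Q B) :
    ∃ (N S Γ Ω : Type) (_ : Group N) (_ : Group S) (_ : Group Γ) (_ : MulAction Γ Ω) (_ : Finite Γ)
      (_ : Finite Ω) (ι : S →* N) (π : S →* W Γ Ω B) (q : ℕ) (x : Γ) (ω : Ω), Q N ∧ Injective ι ∧
      Surjective π ∧ q.Prime ∧ pe q x ∧ period x ω = q := by
  have := hQ.fin _ b
  obtain ⟨H, Γ, Ω, _, _, _, _, ⟨ω⟩, _, a1, a2, a3⟩ := h1 B b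
  obtain ⟨H', Γ', Ω', _, _, _, _, ⟨ω'⟩, _, b1, b2, b3⟩ := h2 _ a3
  let R := Res H (W Γ Ω B)
  let S := (⁅R, R⁆).comap inl
  let j : S →* R := (inl.comp S.subtype).codRestrict R fun x => Subgroup.commutator_le_left _ _ x.2
  have j1 : ∀ x, j x ∈ commutator R := fun x => by
    obtain ⟨y, h, e⟩ := (Subgroup.map_subtype_commutator R).ge x.2
    rwa [← (Subtype.ext e : y = j x)]
  obtain ⟨t, t1, t2⟩ := b2 ω'
  obtain ⟨q, hq, x, -, x1, x2⟩ := mv (MonoidHom.id (Res H' Γ')) (g := ⟨t, t1⟩) t2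
  refine ⟨_, W (Res H' Γ') Ω' S, Res H' Γ', Ω', _, _, _, _, inferInstance, inferInstance,
    (ws j _).codRestrict _ fun w => ?_,
    wb ((Pi.evalMonoidHom (fun _ => B) ω).comp S.subtype), q, x, ω', b3,
    fun _ _ e => ws_inj (fun _ _ e => Subtype.ext (inl_injective (congrArg Subtype.val e))) _
      (congrArg Subtype.val e), wb_surj fun d => ?_, hq, x1, x2⟩
  · rw [← inl_left_mul_inr_right (ws j _ w)]
    exact mul_mem (base_mem _ _ (cp1 b1 b2) _ rfl fun x => j1 _) (cp b1 b2 w.right.2)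
  · obtain ⟨f, hf, e⟩ := (der a1 a2 ω).ge (Subgroup.mem_top d)
    exact ⟨⟨f, hf⟩, e⟩

theorem orb [Fact s.Prime] (hQ : FO Q) (h : Q (W Γ Ω B)) (h' : NP s (W Γ Ω B)) {x : Γ} {ω : Ω}
    (hx : period x ω = s) (hG : Nat.card G = s) : Q (W G G B) := by
  have := h'.nil
  let Y := stabilizer (Subgroup.zpowers x) ω
  have h1 := hQ.toFm.surj _ (wq_surj Y) (hQ.toFm.surj _ (wmap_surj (β := MonoidHom.id B)
    surjective_id (φ := MonoidHom.id _) surjective_id (injective_ofQuotientStabilizer _ ω)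
    (ofQuotientStabilizer_smul _ ω)) (neu hQ h _ (ws_inj (β := MonoidHom.id B) injective_id _)))
  have h2 : Nat.card (Subgroup.zpowers x ⧸ Y) = s := by
    rw [← orderOf_eq_card_of_forall_mem_zpowers (g := QuotientGroup.mk' Y ⟨x, Subgroup.mem_zpowers x⟩)]
    · refine orderOf_eq_prime ?_ fun e => (Fact.out : s.Prime).one_lt.ne' ?_
      · rw [← map_pow, mk_one, ← hx]; exact pow_period_smul x ω
      · rw [← hx]; exact period_eq_one_iff.2 (mk_one.1 e)
    · intro y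
      obtain ⟨⟨_, i, rfl⟩, rfl⟩ := mk_surj Y y
      exact ⟨i, (map_zpow _ _ i).symm⟩
  let φ := mulEquivOfPrimeCardEq h2 hG
  exact hQ.toFm.surj _ (wmap_surj (β := MonoidHom.id B) surjective_id (φ := φ.toMonoidHom)
    φ.surjective φ.symm.injective fun g y => by simp) h1

theorem np_sub [Fact s.Prime] (hQ : FO Q) (h : ∀ (B G : Type) [Group B] [Group G], Q B →
    Nat.card G = s → Q (W G G B)) (h' : Su Q (NP s)) (a : NP s G) : Q G := by
  induction hn : Nat.card G using Nat.strong_induction_on generalizing G with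
  | _ n ih =>
  have := a.1
  by_cases h0 : ∀ g : G, g = 1
  · exact hQ.of_res fun g _ => h0 g
  obtain ⟨g, hg⟩ := not_forall.1 h0
  obtain ⟨β, hβ⟩ := np_zp a hg
  have h1 := h β.ker (G ⧸ β.ker) (ih _ (hn ▸ card_lt fun e => by
    obtain ⟨z, hz⟩ := exists_ne (1 : Zp s)
    obtain ⟨y, rfl⟩ := hβ z
    exact hz (e.ge (Subgroup.mem_top y))) (a.inj _ β.ker.subtype_injective) rfl)
    ((Nat.card_congr (QuotientGroup.quotientKerEquivOfSurjective β hβ).toEquiv).trans zp_card)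
  have := (h' _ h1).nil
  refine neu hQ h1 ((wq _).comp (kk _ (MonoidHom.id _))) ((injective_iff_map_eq_one _).2 fun y e => ?_)
  have h2 : cc β.ker y 1 = 1 := congrFun (congrArg SemidirectProduct.left e) 1
  have h3 := cc_fix (q_fix (g := y) (mk_one.1 (congrArg SemidirectProduct.right e)) (1 : G ⧸ β.ker))
  rw [h2] at h3
  have h4 := congrArg (fun z => (1 : G ⧸ β.ker).out * z * (1 : G ⧸ β.ker).out⁻¹) h3
  simpa [mul_assoc] using h4.symm

theorem growth (hP : FO P) (hQ : FO Q) (h1 : Step Q P) (h2 : Step P Q) (he : e ≠ 0)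
    (hE : Su Q (EE e fun _ => True)) (h3 : Q ≠ Tv) : ∃ s : ℕ, s.Prime ∧ Q = NP s := by
  have k : ∃ s : ℕ, s.Prime ∧ Su Q (NP s) := by
    by_contra hn
    have : ∀ n, ∃ (B : Type) (_ : Group B), Q B ∧ (∀ r : ℕ, r.Prime → ¬ NP r B) ∧
        ∀ k, k ≠ 0 → EE k (fun _ => True) B → n ≤ k := fun n => by
      induction n with
      | zero =>
        obtain ⟨U, _, a, b⟩ := ex_mix hQ h3 fun s hs h => hn ⟨s, hs, h⟩
        exact ⟨U, _, a, b, fun _ _ _ => Nat.zero_le _⟩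
      | succ n ih =>
        obtain ⟨B, _, a, b, c⟩ := ih
        have := hQ.fin _ a
        obtain ⟨N, S, Γ, Ω, _, _, _, _, _, _, ι, π, q, x, ω, d1, d2, d3, d4, d5, d6⟩ := two hP hQ h1 h2 a
        have := Fact.mk d4
        refine ⟨N, _, d1, fun r hr h => b r hr
          ((np_fo.toFm.surj π d3 (h.inj ι d2)).inj _ (sg_inj ω)), fun k hk h => ?_⟩
        have h4 := gr1 ((h.inj ι d2).surj π d3) d5 d6 fun x => b q d4 x.2
        have h5 := div_ok hk d4 h4.1
        exact (c _ h5.2 h4.2).trans_lt h5.1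
    obtain ⟨B, _, a, -, c⟩ := this (e + 1)
    exact absurd (c e he (hE _ a)) (by omega)
  obtain ⟨s, hs, k⟩ := k
  have := Fact.mk hs
  refine ⟨s, hs, funext fun G => funext fun _ => propext ⟨k G, np_sub hQ (fun B G _ _ b hG => ?_) k⟩⟩
  obtain ⟨N, S, Γ, Ω, _, _, _, _, _, _, ι, π, q, x, ω, d1, d2, d3, d4, d5, d6⟩ := two hP hQ h1 h2 b
  have := (k _ d1).nil
  have := Fact.mk d4
  have h4 := hQ.toFm.surj π d3 (neu hQ d1 ι d2)
  obtain rfl : q = s := by_contra fun e => d4.one_lt.ne' (by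
    rw [← d6, pe_ne d5 (((k _ h4).2 (inr x)).map rightHom) e, period_one])
  exact orb hQ h4 (k _ h4) d6 hG

end Pool.Agent.H68.Fa
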