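import Pool.Agent.H68.Fa7

set_option autoImplicit false

namespace Pool.Agent.H68.Fa

open Function SemidirectProduct Pool.Agent.H68.Fit Pool.Agent.H68.Sat Pool.Agent.H68.Nl MulAction
open scoped commutatorElement Classical

variable {F H P Q : Cl}
variable {G A B D U E Γ Ω : Type} [Group G] [Group A] [Group B] [Group D] [Group Γ] [Group U]
  [Group E] [MulAction Γ Ω] {p q r s e : ℕ} {σ : ℕ → Prop}

theorem wb_sg (β : B →* D) (x : Ω) (b : B) : wb β (sg x b : W Γ Ω B) = sg x (β b) :=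
  w_ext (fun y => by
    change β ((sg x b : W Γ Ω B).left y) = _
    rw [sg_left, sg_left, apply_ite β, map_one]) rfl

theorem sg_inr (g : Γ) (ω : Ω) (d : D) : (inr g * sg ω d * (inr g)⁻¹ : W Γ Ω D) = sg (g • ω) d := by
  rw [sg_cj]; simp

theorem full [Finite Γ] [Finite Ω] [Finite D] (hF : FO F) [IsPretransitive Γ Ω] (ω₀ : Ω)
    (hs : ∀ g : Γ, g • ω₀ = ω₀ → g ∈ Res F Γ) (θ : Res F Γ →* U) (hθ : Surjective θ)
    (hk : ∀ t, θ t = 1 ↔ t.1 • ω₀ = ω₀) (hm : Mv (Res F Γ) Ω)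
    (g : Gd F (Γ ⧸ Res F Γ) (Γ ⧸ Res F Γ) D) :
    ∃ ρ : Res F (W Γ Ω D) →* W U U D, Surjective ρ ∧ ∀ w, (ρ w).left 1 = w.1.left ω₀ := by
  have := Finite.of_surjective θ hθ
  have i0 : ∀ a b, θ a = θ b ↔ a.1 • ω₀ = b.1 • ω₀ := fun a b => by
    rw [← inv_mul_eq_one, ← map_inv, ← map_mul, hk, Subgroup.coe_mul, Subgroup.coe_inv, mul_smul,
      inv_smul_eq_iff, eq_comm]
  let ι : U → Ω := fun u => (surjInv hθ u).1 • ω₀
  have i1 : ∀ t, ι (θ t) = t.1 • ω₀ := fun t => (i0 _ _).1 (surjInv_eq hθ _)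
  have i2 : ∀ (t : Res F Γ) u, ι (θ t • u) = t • ι u := fun t u => by
    obtain ⟨a, rfl⟩ := hθ u
    rw [smul_eq_mul, ← map_mul, i1, i1]; exact mul_smul _ _ _
  have i3 : Injective ι := fun a b e => by
    rw [← surjInv_eq hθ a, ← surjInv_eq hθ b]; exact (i0 _ _).2 e
  let ρ := wmap (MonoidHom.id D) θ ι i2
  have hρ : Surjective ρ := wmap_surj surjective_id hθ i3 i2
  let R := (Res F (W Γ Ω D)).comap (ws (MonoidHom.id D) (Res F Γ))
  have : (R.map ρ).Normal := Subgroup.Normal.map inferInstance ρ hρ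
  have hM : R.map ρ = ⊤ := by
    by_contra hn
    obtain ⟨C, _, γ, c1, _, c3⟩ := sq _ hn
    let β : D →* C := γ.comp (sg 1)
    have b1 : ∀ u, γ (inr u) = 1 := fun u => by
      obtain ⟨t, rfl⟩ := hθ u
      exact c3 _ ⟨inr t, cp hF hm t.2, rfl⟩
    have b2 : ∀ u d, γ (sg u d) = β d := fun u d => by
      rw [← mul_one u, ← smul_eq_mul, ← sg_inr, map_mul, map_mul, map_inv, b1]; simp [β]
    have b3 : Surjective β := fun c => by
      obtain ⟨w, rfl⟩ := c1 c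
      exact w_top (β.range.comap γ) (fun u d => ⟨d, (b2 u d).symm⟩)
        (fun u => ⟨inr u, ⟨1, by rw [b1, map_one]⟩, rfl⟩) w
    have r1 : ∀ (t : Res F Γ) d, ρ (sg (t.1 • ω₀) d) = sg (θ t) d := fun t d => w_ext (fun u => by
      change (sg (t.1 • ω₀) d : W (Res F Γ) Ω D).left (ι u) = _
      rw [sg_left, sg_left, ← i1]; simp only [i3.eq_iff]) (map_one θ)
    letI : CommGroup C := { ‹Group C› with
      mul_comm := fun a b => by
        obtain ⟨a, rfl⟩ := b3 a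
        obtain ⟨b, rfl⟩ := b3 b
        rw [← commutatorElement_eq_one_iff_mul_comm, ← map_commutatorElement, ← b2 (θ 1), ← r1]
        exact c3 _ ⟨_, cp1 hF hm _ _ (Subgroup.commutator_mem_commutator (Subgroup.mem_top a)
          (Subgroup.mem_top b)), rfl⟩ }
    choose c hc using exists_smul_eq Γ ω₀
    let k := QuotientGroup.mk' (Res F Γ)
    have p1 : ∀ a : Γ, k (c (a • ω₀)) = k a := fun a =>
      QuotientGroup.eq.2 (hs _ (by rw [mul_smul, inv_smul_eq_iff, hc]))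
    have p2 : ∀ (a : Γ) x, k (c (a • x)) = k a • k (c x) := fun a x => by
      rw [smul_eq_mul, ← map_mul, ← p1 (a * c x), mul_smul, hc]
    let Φ := (fs (C := C) k (fun x => k (c x)) p2).comp (wb β)
    have hΦ : Surjective Φ := (fs_surj (mk_surj _) (fun y => by
      obtain ⟨a, rfl⟩ := mk_surj _ y; exact ⟨_, p1 a⟩) p2).comp (wb_surj b3)
    have f1 : ∀ a, Φ (inr a) = inr (k a) := fun a =>
      (congrArg (fs k (fun x => k (c x)) p2) (w_ext (a := wb β (inr a)) (b := inr a) (fun _ => map_one β) rfl)).trans (fs_inr k (fun x => k (c x)) p2 a)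
    have k0 : ∀ f : Ω → D, γ (ρ (inl f)) = (Φ (inl f)).left 1 := fun f =>
      Subgroup.pi_mem_of_mulSingle_mem (H := (γ.comp (ρ.comp inl)).eqLocus (MonoidHom.mk'
        (fun f => (Φ (inl f)).left 1) fun a b => by
          rw [map_mul, map_mul, w_mul, show (Φ (inl a)).right = 1 from map_one k, inv_one,
            one_smul])) f fun x => by
        change γ (ρ (sg x (f x))) = (fs k (fun x => k (c x)) p2 (wb β (sg x (f x)))).left 1
        rw [wb_sg, fs_sg, sg_left]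
        split_ifs with h
        · have := r1 ⟨c x, mk_one.1 h.symm⟩ (f x)
          rw [hc] at this
          rw [this, b2]
        · rw [show ρ (sg x (f x)) = 1 from w_ext (fun u => ?_) (map_one θ), map_one]
          change (sg x (f x) : W (Res F Γ) Ω D).left (ι u) = 1
          rw [sg_left, if_neg]
          rintro rfl
          exact h ((p1 _).trans (mk_one.2 (surjInv hθ u).2)).symm
    refine g C β b3 ‹_› (hF.of_ker Φ hΦ fun w hw => ?_)
    have h1 : w.right ∈ Res F Γ := hF.res_map rightHom rightHom_surjective hw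
    have h2 := mul_mem hw (inv_mem (cp hF hm h1))
    rw [show Φ w = Φ (w * (inr w.right)⁻¹) by
      rw [map_mul, map_inv, f1, mk_one.2 h1, map_one, inv_one, mul_one]]
    have h3 : (w * (inr w.right)⁻¹ : W Γ Ω D).right = 1 := by simp
    generalize w * (inr w.right)⁻¹ = v at h2 h3
    have h4 : (Φ v).right = 1 := (congrArg k h3).trans (map_one k)
    refine w_ext (fun y => ?_) h4
    obtain ⟨a, rfl⟩ := mk_surj _ y
    have h5 := Subgroup.Normal.conj_mem inferInstance _ h2 (inr a⁻¹)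
    have h6 : (inr a⁻¹ * v * (inr a⁻¹)⁻¹ : W Γ Ω D) = inl (inr a⁻¹ * v * (inr a⁻¹)⁻¹).left :=
      SemidirectProduct.ext rfl (by simp [h3])
    have h7 := k0 (inr a⁻¹ * v * (inr a⁻¹)⁻¹).left
    rw [h6] at h5
    replace h7 := (c3 _ ⟨inl _, h5, rfl⟩).symm.trans h7
    rw [← h6, map_mul, map_mul, map_inv Φ, w_cj _ _ h4, f1] at h7
    change (Φ v).left (k a) = 1
    simpa using h7.symm
  let j : Res F (W Γ Ω D) →* W (Res F Γ) Ω D := MonoidHom.mk'
    (fun w => ⟨w.1.left, w.1.right, hF.res_map rightHom rightHom_surjective w.2⟩) fun _ _ => rfl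
  refine ⟨ρ.comp j, fun m => ?_, fun w => congrArg w.1.left ?_⟩
  · obtain ⟨w, h1, h2⟩ := hM.ge (Subgroup.mem_top m)
    exact ⟨⟨_, h1⟩, h2⟩
  · rw [← map_one θ, i1]; exact one_smul _ _

theorem tp_gd [Finite Γ] (hF : FO F) (h : Tp F E D) (a : F E) (φ : Γ →* E) (hφ : Surjective φ) :
    Gd F (Γ ⧸ Res F Γ) (Γ ⧸ Res F Γ) D := by
  obtain ⟨ψ, h1⟩ := exists_lift _ (mk_surj (Res F Γ)) φ fun g hg =>
    hF.toFm.res_le φ hφ a (mk_one.1 hg)
  exact h _ ψ hF.res_mem fun x => by obtain ⟨g, rfl⟩ := hφ x; exact ⟨_, h1 g⟩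

def Bad (P F H : Cl) (Γ U : Type) [Group Γ] [Group U] (θ : Res F Γ →* U) : Prop :=
  Pr P F Γ ∧ Surjective θ ∧ ∃ g : Res F Γ, g.1 ∈ Res H Γ ∧ θ g ≠ 1

theorem bad_ext (hP : FO P) (hF : FO F) (hH : FO H) (hs : Su F H) {θ : Res F G →* U}
    (b : Bad P F H G U θ) (h : Tp F E D) (a : F E) : ∃ (Γ : Type) (_ : Group Γ) (θ : Res F Γ →* U),
      Bad P F H Γ U θ ∧ Gd F (Γ ⧸ Res F Γ) (Γ ⧸ Res F Γ) D := by
  obtain ⟨b1, b2, g, b3, b4⟩ := b
  have h1 := fo_prod (pr_fo hP hF) b1 (pr_of hP hF a)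
  have := h1.1
  obtain ⟨x, x1, x2⟩ := hH.res_surj (MonoidHom.fst G E) Prod.fst_surjective b3
  exact ⟨G × E, _, θ.comp (hF.rs (MonoidHom.fst G E) Prod.fst_surjective),
    ⟨h1, b2.comp (hF.rs_surj _ _), ⟨x, res_anti hF hH.toFm hs x1⟩, x1,
      fun e => b4 ((congrArg θ (Subtype.ext x2.symm)).trans e)⟩,
    tp_gd hF h a (MonoidHom.snd G E) Prod.snd_surjective⟩

theorem lift (hP : FO P) (hF : FO F) (hH : FO H) (hs : Su F H) {θ : Res F Γ →* A}
    (b : Bad P F H Γ A θ) (χ : U →* A) (hχ : Surjective χ) (u : P U)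
    (g : Gd F (Γ ⧸ Res F Γ) (Γ ⧸ Res F Γ) U) :
    ∃ (G : Type) (_ : Group G) (θ : Res F G →* U), Bad P F H G U θ := by
  obtain ⟨b1, b2, γ, b3, b4⟩ := b
  have := b1.1
  have := hP.fin _ u
  let K := KK (Res F Γ) χ θ
  let π : K →* Γ := rightHom.comp K.subtype
  have hπ : Surjective π := kk_surj fun y => hχ _
  have cj : ∀ (y : Res F Γ) (ω : Γ ⧸ Res F Γ), ∃ x : Res F Γ,
      x.1 = ω.out * y * ω.out⁻¹ ∧ cc (Res F Γ) x ω = y := fun y ω =>
    ⟨⟨_, Subgroup.Normal.conj_mem inferInstance _ y.2 ω.out⟩, rfl, Subtype.ext (by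
      rw [cc_fix (q_fix (Subgroup.Normal.conj_mem inferInstance _ y.2 ω.out) _)]; group)⟩
  let ε : (Γ ⧸ Res F Γ) → Res F K →* U := fun ω => MonoidHom.mk' (fun w => w.1.1.left ω)
    fun a b => (w_mul _ _ _).trans (by rw [q_fix (g := a.1.1.right⁻¹) (inv_mem (hF.res_map π hπ a.2))])
  have e1 : ∀ (a : K) (w : Res F K) ω, a.1.left ω * w.1.1.left (a.1.right⁻¹ • ω) * (a.1.left ω)⁻¹ ∈
      (ε ω).range := fun a w ω => ⟨⟨_, Subgroup.Normal.conj_mem inferInstance _ w.2 a⟩, by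
    change (a.1 * w.1.1 * a.1⁻¹).left ω = _
    rw [w_mul, w_mul, w_inv, mul_right, mul_inv_rev, mul_smul,
      q_fix (g := w.1.1.right⁻¹) (inv_mem (hF.res_map π hπ w.2)), smul_inv_smul]⟩
  have e2 : ∀ ω, (ε ω).range.Normal := fun ω => ⟨by
    rintro _ ⟨w, rfl⟩ d
    obtain ⟨y, hy⟩ := b2 (χ d)
    obtain ⟨x, -, hx⟩ := cj y ω
    obtain ⟨a, a1, a2⟩ := kk_ex (fun y => hχ (θ y)) x.1 ω d (by rw [hx, hy])
    have := e1 a w ω
    rwa [a1, a2, q_fix (inv_mem x.2)] at this⟩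
  have e3 : ∀ ω, Surjective (ε ω) := fun ω => by
    rw [← MonoidHom.range_eq_top]
    by_contra hn
    have := e2 ω
    obtain ⟨C, _, β, c1, _, c3⟩ := sq _ hn
    refine g C β c1 ‹_› (hF.of_ker ((wq _).comp ((wb β).comp K.subtype))
      (w_top (MonoidHom.range _) (fun x c => ?_) fun y => ?_) fun w hw => w_ext (fun x => ?_)
        (mk_one.2 (hF.res_map π hπ hw)))
    · obtain ⟨d, rfl⟩ := c1 c
      obtain ⟨y, hy⟩ := b2 (χ d)
      obtain ⟨x', -, hx⟩ := cj y ω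
      obtain ⟨w, w1, w2⟩ := hF.res_surj π hπ x'.2
      have h1 : χ (w.1.left ω) = χ d := by rw [w.2, show w.1.right = x' from w2, hx, hy]
      refine ⟨⟨sg x (d * (w.1.left ω)⁻¹), fun z => ?_⟩, w_ext (fun z => ?_) rfl⟩
      · rw [show cc (Res F Γ) _ z = 1 from Subtype.ext (by simp [cc, sg_right]), sg_left, apply_ite χ,
          map_mul, map_inv, h1]; simp
      · change β ((sg x _ : W Γ _ U).left z) = _
        rw [sg_left, sg_left, apply_ite β, map_mul, map_inv, c3 (w.1.left ω) ⟨⟨w, w1⟩, rfl⟩]; simp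
    · obtain ⟨a, rfl⟩ := mk_surj _ y
      obtain ⟨w, rfl⟩ := hπ a
      exact ⟨_, ⟨w, rfl⟩, rfl⟩
    · obtain ⟨a, ha⟩ := exists_smul_eq Γ x ω
      obtain ⟨a, rfl⟩ := hπ a
      have := c3 _ (e1 a ⟨w, hw⟩ ω)
      rw [show a.1.right⁻¹ • ω = x from inv_smul_eq_iff.2 ha.symm] at this
      change β (w.1.left x) = 1
      simpa using this
  obtain ⟨x, x1, x2⟩ := cj γ 1
  obtain ⟨w, w1, w2⟩ := hH.res_surj π hπ (a := x.1)
    (x1 ▸ Subgroup.Normal.conj_mem inferInstance _ b3 _)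
  refine ⟨K, _, ε 1, ⟨inferInstance, hP.of_res fun v hv => Subtype.ext (Subtype.ext (w_ext
    (fun ω => hP.toFm.res_le _ (e3 ω) u hv)
    (congrArg Subtype.val (hP.toFm.res_le _ (hF.rs_surj π hπ) b1.2 hv))))⟩, e3 1,
    ⟨w, res_anti hF hH.toFm hs w1⟩, w1, fun e => b4 ?_⟩
  rw [← x2, ← show w.1.right = x from w2, ← w.2, show w.1.left 1 = 1 from e, map_one]

end Pool.Agent.H68.Fa
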