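import Pool.Agent.H68.Fa8

set_option autoImplicit false

namespace Pool.Agent.H68.Fa

open Function SemidirectProduct Pool.Agent.H68.Fit Pool.Agent.H68.Sat Pool.Agent.H68.Nl MulAction
open scoped commutatorElement Classical

variable {F H P Q : Cl}
variable {G A B D U E Γ Ω : Type} [Group G] [Group A] [Group B] [Group D] [Group Γ] [Group U]
  [Group E] [MulAction Γ Ω] {p q r s e : ℕ} {σ : ℕ → Prop}

def Ind (F : Cl) : Prop := F ≠ Tv ∧ ∀ A B, FO A → FO B → F = Pr A B → A = Tv ∨ B = Tv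

theorem su_ext (h : Su F H) (h' : Su H F) : F = H :=
  funext fun G => funext fun _ => propext ⟨h G, h' G⟩

theorem np_ne [Fact p.Prime] : NP p ≠ Tv := fun e => by
  have : Tv (Zp p) := e ▸ np_card zp_card
  exact not_subsingleton (Zp p) this

theorem Ind.nc (h : Ind H) (hH : FO H) (p : ℕ) (hp : p.Prime) : ¬ Cd H p := fun c =>
  haveI := Fact.mk hp
  (h.2 _ _ np_fo hH (su_ext (fun _ _ => pr_of np_fo hH) c)).elim np_ne h.1

theorem mv_reg [Finite Γ] (hF : FO F) (h : ¬ F Γ) : Mv (Res F Γ) Γ := fun ω => by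
  by_contra hn
  exact h (hF.of_res fun g hg => by_contra fun e => hn ⟨g, hg, by simpa using e⟩)

structure Eq2 (e : ℕ) (P F Q H : Cl) : Prop where
  p : FO P
  f : FO F
  q : FO Q
  h : FO H
  he : e ≠ 0
  eq : Pr P F = Pr Q H
  su : Su (Pr P F) (EE e fun _ => True)
  f1 : Ind F
  h1 : Ind H

theorem Eq2.symm (d : Eq2 e P F Q H) : Eq2 e Q H P F :=
  ⟨d.q, d.h, d.p, d.f, d.he, d.eq.symm, d.eq ▸ d.su, d.h1, d.f1⟩

theorem Eq2.fe (d : Eq2 e P F Q H) : Su F (EE e fun _ => True) :=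
  fun _ _ a => d.su _ (pr_of d.p d.f a)

theorem Eq2.pe (d : Eq2 e P F Q H) : Su P (EE e fun _ => True) := fun B _ b => by
  have := d.p.fin _ b
  obtain ⟨E, _, _, -, h⟩ := gt' d.f d.he d.fe (d.f1.nc d.f) B d.f.one
  exact (d.su _ ((h _ d.p).2 b)).inj _ (sg_inj 1)

theorem Eq2.step (d : Eq2 e P F Q H) (h : ¬ Su F H) : Step P Q := fun B _ b => by
  have := d.p.fin _ b
  simp only [Su, not_forall] at h
  obtain ⟨G, _, h1, h2⟩ := h
  obtain ⟨E, _, _, -, h⟩ := gt' d.f d.he d.fe (d.f1.nc d.f) B h1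
  exact ⟨H, G × E, G × E, _, _, inferInstance, inferInstance, inferInstance, inferInstance, d.h,
    mv_reg d.h fun a => h2 (d.h.toFm.surj (MonoidHom.fst G E) Prod.fst_surjective a),
    (d.eq.le _ _ ((h _ d.p).2 b)).2⟩

theorem Eq2.step2 (d : Eq2 e P F Q H) (hs : Su F H) (h : ¬ Su H F) : Step Q Q := by
  have hp : Su H (Pr P F) := fun _ _ a => d.eq.ge _ _ (pr_of d.q d.h a)
  let X : Cl := fun U _ => P U ∧ ∀ (G : Type) [Group G] (θ : Res F G →* U), ¬ Bad P F H G U θ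
  have hX : FO X := FO.mk' (fun _ _ a => d.p.fin _ a.1)
    (fun U A _ _ χ hχ a => ⟨d.p.toFm.surj χ hχ a.1, fun G _ θ b => by
      have := d.p.fin _ a.1
      obtain ⟨E, _, h1, h2⟩ := gt d.f d.he d.fe (d.f1.nc d.f) U
      obtain ⟨Γ, _, θ, b, g⟩ := bad_ext d.p d.f d.h hs b h2 h1
      obtain ⟨G, _, θ, b⟩ := lift d.p d.f d.h hs b χ hχ a.1 g
      exact a.2 G θ b⟩)
    (fun _ _ _ _ _ _ _ α β ha hb hi a b => ⟨d.p.toFm.sub α β ha hb hi a.1 b.1,
      fun G _ θ ⟨b1, b2, g, b3, b4⟩ => b4 (hi _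
        (by_contra fun e => a.2 G (α.comp θ) ⟨b1, ha.comp b2, g, b3, e⟩)
        (by_contra fun e => b.2 G (β.comp θ) ⟨b1, hb.comp b2, g, b3, e⟩))⟩)
    ⟨d.p.one, fun _ _ _ ⟨_, _, _, _, h⟩ => h rfl⟩
  obtain ⟨A₀, _, a1, a2⟩ : ∃ (A : Type) (_ : Group A), H A ∧ ¬ X (Res F A) := by
    by_contra hn
    have e1 : H = Pr X F := su_ext
      (fun A _ a => ⟨d.h.fin _ a, by_contra fun e => hn ⟨A, _, a, e⟩⟩) fun G _ ⟨_, a⟩ =>
        d.h.of_res fun g hg => by_contra fun e => a.2 G (MonoidHom.id _) ⟨⟨inferInstance, a.1⟩,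
          surjective_id, ⟨g, res_anti d.f d.h.toFm hs hg⟩, hg, fun e' => e (congrArg Subtype.val e')⟩
    rcases d.h1.2 _ _ hX d.f e1 with e | e
    · rw [e, tv_pr d.f] at e1
      exact h (e1 ▸ fun _ _ a => a)
    · exact d.f1.1 e
  intro B _ b
  have := d.q.fin _ b
  obtain ⟨E, _, e1, e2⟩ := gt d.f d.he d.fe (d.f1.nc d.f) B
  obtain ⟨E', _, _, e3, e4⟩ := gt' d.h d.he d.symm.fe (d.h1.nc d.h) B (fo_prod d.h a1 (hs _ e1))
  have a3 := fo_prod d.h (fo_prod d.h a1 (hs _ e1)) e3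
  have a4 : ¬ X (Res F ((A₀ × E) × E')) := fun a => a2 (hX.toFm.surj _ (d.f.rs_surj
    ((MonoidHom.fst _ _).comp (MonoidHom.fst _ _)) (Prod.fst_surjective.comp Prod.fst_surjective)) a)
  obtain ⟨ρ, r1, -⟩ := full (D := B) d.f (1 : (A₀ × E) × E') (fun g e => by
      rw [show g = 1 by simpa using e]; exact one_mem _) (MonoidHom.id _) surjective_id
    (fun t => by simp) (mv_reg d.f fun a => a4 (haveI : Subsingleton _ := (pr_of tv_fo d.f a).2
      hX.triv)) (tp_gd d.f e2 e1 ((MonoidHom.snd _ _).comp (MonoidHom.fst _ _))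
      (Prod.snd_surjective.comp Prod.fst_surjective))
  have a5 := d.p.toFm.surj ρ r1 (d.eq.ge _ _ ((e4 _ d.q).2 b)).2
  obtain ⟨G, _, θ, c⟩ : ∃ (G : Type) (_ : Group G) (θ : Res F G →* Res F ((A₀ × E) × E')),
      Bad P F H G _ θ := by
    by_contra hn
    exact a4 ⟨(hp _ a3).2, fun G _ θ c => hn ⟨G, _, θ, c⟩⟩
  obtain ⟨Γ, _, θ, ⟨c1, c2, g, c3, c4⟩, c5⟩ := bad_ext d.p d.f d.h hs c e2 e1
  have := c1.1
  let Y := θ.ker.map (Res F Γ).subtype
  have y1 : ∀ (x t : Γ), t • (x : Γ ⧸ Y) = x ↔ x⁻¹ * t * x ∈ Y := fun x t => by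
    rw [MulAction.Quotient.smul_coe, eq_comm, QuotientGroup.eq, smul_eq_mul, mul_assoc]
  have y2 : ∀ t : Res F Γ, t.1 ∈ Y ↔ θ t = 1 := fun t =>
    ⟨fun ⟨s, h1, h2⟩ => (Subtype.ext h2 : s = t) ▸ h1, fun h => ⟨t, h, rfl⟩⟩
  have y3 : Mv (Res H Γ) (Γ ⧸ Y) := fun ω => by
    obtain ⟨x, rfl⟩ := QuotientGroup.mk_surjective ω
    refine ⟨_, Subgroup.Normal.conj_mem inferInstance _ c3 x, fun e => c4 ((y2 g).1 ?_)⟩
    simpa [mul_assoc] using (y1 x _).1 e
  refine ⟨H, Γ, Γ ⧸ Y, _, _, inferInstance, inferInstance, inferInstance, inferInstance, d.h, y3,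
    (d.eq.le _ _ ⟨inferInstance, d.p.of_res fun v hv => Subtype.ext (w_ext (fun ω => ?_)
      (congrArg Subtype.val (d.p.toFm.res_le _
        (d.f.rs_surj rightHom rightHom_surjective) c1.2 hv)))⟩).2⟩
  obtain ⟨x, rfl⟩ := QuotientGroup.mk_surjective ω
  obtain ⟨ρ, r1, r2⟩ := full (D := B) d.f (x : Γ ⧸ Y) (fun g e => by
      have := Subgroup.Normal.conj_mem inferInstance _ (Subgroup.map_subtype_le _ ((y1 x g).1 e)) x
      simpa [mul_assoc] using this)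
    (θ.comp (MulAut.conjNormal x⁻¹).toMonoidHom) (c2.comp (MulAut.conjNormal x⁻¹).surjective)
    (fun t => by
      rw [y1]
      exact (y2 _).symm.trans (by simp))
    (fun ω => by
      obtain ⟨t, h1, h2⟩ := y3 ω
      exact ⟨t, res_anti d.f d.h.toFm hs h1, h2⟩) c5
  rw [← r2, d.p.toFm.res_le ρ r1 a5 hv]
  rfl

theorem Eq2.last0 (d : Eq2 e P F Q H) (hq : ∀ s : ℕ, s.Prime → Q ≠ NP s) : Su H F := by
  by_contra h
  have q1 : Q ≠ Tv := fun e => by
    have e1 := d.eq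
    rw [e, tv_pr d.h] at e1
    rcases d.h1.2 _ _ d.p d.f e1.symm with e2 | e2
    · rw [e2, tv_pr d.f] at e1
      exact h (e1 ▸ fun _ _ a => a)
    · exact d.f1.1 e2
  by_cases h1 : Su F H
  · obtain ⟨s, hs, e⟩ := growth d.q d.q (d.step2 h1 h) (d.step2 h1 h) d.he d.symm.pe q1
    exact hq s hs e
  · obtain ⟨s, hs, e⟩ := growth d.p d.q (d.symm.step h) (d.step h1) d.he d.symm.pe q1
    exact hq s hs e

theorem pl_snoc {L : List Cl} (h : ∀ X ∈ L ++ [F], FO X ∧ Ind X) : PL (L ++ [F]) = Pr (PL L) F := by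
  rw [pl_app (fun X hX => (h X (by simp [hX])).1) (fun X hX => (h X (by simp [hX])).1)]
  exact congrArg _ (pr_tv (h F (by simp)).1)

theorem pl_np (hs : s.Prime) (L : List Cl) : (∀ X ∈ L, FO X ∧ Ind X) → PL L ≠ NP s := by
  have := Fact.mk hs
  induction L using List.reverseRecOn with
  | nil => exact fun _ => np_ne.symm
  | append_singleton L F ih =>
    intro h e
    have h1 : ∀ X ∈ L, FO X ∧ Ind X := fun X hX => h X (by simp [hX])
    obtain ⟨h2, h3⟩ := h F (by simp)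
    rcases wn_np _ _ (pl_fo fun X hX => (h1 X hX).1) h2 (e.symm.trans (pl_snoc h)) with e | e
    · exact ih h1 e
    · exact h3.nc h2 s hs fun G _ a => by rwa [e, np_np, ← e] at a

theorem pl_ne {L : List Cl} (h : ∀ X ∈ L ++ [F], FO X ∧ Ind X) : PL (L ++ [F]) ≠ Tv := fun e => by
  obtain ⟨h2, h3⟩ := h F (by simp)
  rw [pl_snoc h] at e
  exact h3.1 (su_ext (fun _ _ a => e.le _ _ (pr_of (pl_fo fun X hX => (h X (by simp [hX])).1) h2 a))
    fun _ _ (_ : Subsingleton _) => h2.triv)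

theorem uniq (he : e ≠ 0) (L : List Cl) : ∀ M : List Cl, (∀ X ∈ L, FO X ∧ Ind X) →
    (∀ X ∈ M, FO X ∧ Ind X) → Su (PL L) (EE e fun _ => True) → PL L = PL M → L = M := by
  induction L using List.reverseRecOn with
  | nil =>
    intro M _ h _ e
    rcases List.eq_nil_or_concat' M with rfl | ⟨M, H, rfl⟩
    · rfl
    · exact absurd e.symm (pl_ne h)
  | append_singleton L F ih =>
    intro M h h' hs e1
    rcases List.eq_nil_or_concat' M with rfl | ⟨M, H, rfl⟩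
    · exact absurd e1 (pl_ne h)
    have h1 : ∀ X ∈ L, FO X ∧ Ind X := fun X hX => h X (by simp [hX])
    have h2 : ∀ X ∈ M, FO X ∧ Ind X := fun X hX => h' X (by simp [hX])
    rw [pl_snoc h] at hs e1
    rw [pl_snoc h'] at e1
    have d : Eq2 e (PL L) F (PL M) H := ⟨pl_fo fun X hX => (h1 X hX).1, (h F (by simp)).1,
      pl_fo fun X hX => (h2 X hX).1, (h' H (by simp)).1, he, e1, hs, (h F (by simp)).2,
      (h' H (by simp)).2⟩
    obtain rfl : F = H := su_ext (d.symm.last0 fun s hs => pl_np hs L h1)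
      (d.last0 fun s hs => pl_np hs M h2)
    have k : ∀ {P Q}, Eq2 e P F Q F → Su P Q := fun d B _ b => by
      have := d.p.fin _ b
      obtain ⟨E, _, _, -, h⟩ := gt' d.f d.he d.fe (d.f1.nc d.f) B d.f.one
      exact (h _ d.q).1 (d.eq.le _ _ ((h _ d.p).2 b))
    rw [ih M h1 h2 d.pe (su_ext (k d) (k d.symm))]

end Pool.Agent.H68.Fa
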