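import Mathlib

set_option autoImplicit false

namespace Pool.Agent.H68.Fit

def Abn {G : Type} [Group G] (A : Subgroup G) : Prop :=
  ∀ g : G, g ∈ A ⊔ A.map (MulAut.conj g).toMonoidHom

structure FC (F : (G : Type) → [Group G] → Prop) : Prop where
  fin : ∀ (G : Type) [Group G], F G → Finite G ∧ Group.IsSolvable G
  unit : F Unit
  iso : ∀ (G H : Type) [Group G] [Group H], (G ≃* H) → F G → F H
  normal : ∀ (G : Type) [Group G] (N : Subgroup G), N.Normal → F G → F N
  sup : ∀ (G : Type) [Group G] [Finite G] (N M : Subgroup G),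
    N.Normal → M.Normal → F N → F M → F ↥(N ⊔ M)

def WP (F : (G : Type) → [Group G] → Prop) : Prop :=
  ∀ (G : Type) [Group G] [Finite G], Group.IsSolvable G → ∀ A B N : Subgroup G, Abn A → Abn B →
    F A → F B → N.Normal → F N → N ≤ A → (∀ g : G, ∃ b ∈ B, g * b⁻¹ ∈ N) → F G

variable {F : (G : Type) → [Group G] → Prop} (hF : FC F)
variable {G H : Type} [Group G] [Group H]
include hF

theorem FC.of_top {K : Subgroup G} (hK : K = ⊤) (h : F K) : F G :=
  hF.iso _ _ ((MulEquiv.subgroupCongr hK).trans Subgroup.topEquiv) h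

theorem FC.triv [Subsingleton G] : F G :=
  haveI : Unique G := uniqueOfSubsingleton 1
  hF.iso _ _ (MulEquiv.ofUnique (M := Unit) (N := G)) hF.unit

theorem FC.range (f : H →* G) (hf : Function.Injective f) (h : F H) : F f.range :=
  hF.iso _ _ (MonoidHom.ofInjective hf) h

theorem FC.inj (f : H →* G) (hf : Function.Injective f) (hn : f.range.Normal) (h : F G) : F H :=
  hF.iso _ _ (MonoidHom.ofInjective hf).symm (hF.normal G _ hn h)

theorem FC.map (f : H →* G) (hf : Function.Injective f) (K : Subgroup H) (h : F K) :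
    F (K.map f) := hF.iso _ _ (K.equivMapOfInjective f hf) h

theorem FC.subOf {A B : Subgroup G} (hle : A ≤ B) (hn : (A.subgroupOf B).Normal) (h : F B) : F A :=
  hF.iso _ _ (Subgroup.subgroupOfEquivOfLe hle) (hF.normal _ _ hn h)

theorem FC.sup_top [Finite G] {N M : Subgroup G} (h1 : N.Normal) (h2 : M.Normal) (a : F N)
    (b : F M) (e : N ⊔ M = ⊤) : F G := hF.of_top e (hF.sup G N M h1 h2 a b)

def Rad (F : (G : Type) → [Group G] → Prop) (G : Type) [Group G] : Subgroup G :=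
  sSup {N : Subgroup G | N.Normal ∧ F N}

theorem FC.rad [Finite G] : (Rad F G).Normal ∧ F (Rad F G) := by
  have key : ∀ s : Set (Subgroup G), s.Finite → (∀ N ∈ s, N.Normal ∧ F N) →
      (sSup s).Normal ∧ F ↥(sSup s) := by
    intro s hs
    induction s, hs using Set.Finite.induction_on with
    | empty => intro _; rw [sSup_empty]; exact ⟨inferInstance, hF.triv⟩
    | @insert N s _ _ ih =>
      intro h
      obtain ⟨a, b⟩ := ih fun N hN => h N (Or.inr hN)
      obtain ⟨c, d⟩ := h N (Or.inl rfl)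
      rw [sSup_insert]
      exact ⟨inferInstance, hF.sup G _ _ c a d b⟩
  exact key _ (Set.toFinite _) fun _ h => h

omit hF in
theorem le_rad {N : Subgroup G} (h1 : N.Normal) (h2 : F N) : N ≤ Rad F G := le_sSup ⟨h1, h2⟩

theorem FC.rad_char : (Rad F G).Characteristic := by
  rw [Subgroup.characteristic_iff_map_le]
  intro φ
  rw [Subgroup.map_le_iff_le_comap]
  refine sSup_le fun N hN => ?_
  rw [← Subgroup.map_le_iff_le_comap]
  exact le_rad (hN.1.map _ φ.surjective) (hF.map _ φ.injective N hN.2)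

theorem FC.of_rad [Finite G] (h : ∀ g : G, g ∈ Rad F G) : F G :=
  hF.of_top (eq_top_iff.2 fun g _ => h g) hF.rad.2

omit hF in
theorem card_lt [Finite G] {M : Subgroup G} (h : M ≠ ⊤) : Nat.card M < Nat.card G := by
  obtain ⟨g, hg⟩ : ∃ g, g ∉ M := by
    by_contra hc
    push Not at hc
    exact h (eq_top_iff.2 fun g _ => hc g)
  exact Finite.card_subtype_lt hg

theorem FC.nilp_sub (n : ℕ) : ∀ (G : Type) [Group G] [Finite G] [Group.IsNilpotent G],
    Nat.card G = n → ∀ K : Subgroup G, (F K → K ≤ Rad F G) ∧ (F G → F K) := by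
  induction n using Nat.strong_induction_on with
  | _ n ih =>
  intro G _ _ _ hn K
  rcases eq_top_or_exists_le_coatom K with rfl | ⟨M, hM, hle⟩
  · exact ⟨le_rad inferInstance, hF.normal G _ inferInstance⟩
  have hN : M.Normal := Subgroup.NormalizerCondition.normal_of_coatom M
    Group.normalizerCondition_of_isNilpotent hM
  have hc : Nat.card M < n := hn ▸ card_lt hM.1
  obtain ⟨a, b⟩ := ih _ hc M rfl (K.subgroupOf M)
  constructor
  · intro h
    have h1 := a (hF.iso _ _ (Subgroup.subgroupOfEquivOfLe hle).symm h)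
    have := hF.rad_char (G := M)
    have h2 : (Rad F M).map M.subtype ≤ Rad F G :=
      le_rad inferInstance (hF.map _ M.subtype_injective _ hF.rad.2)
    refine le_trans ?_ h2
    rw [← Subgroup.map_subgroupOf_eq_of_le hle]
    exact Subgroup.map_mono h1
  · intro h
    exact hF.iso _ _ (Subgroup.subgroupOfEquivOfLe hle) (b (hF.normal G M hN h))

theorem FC.p_le {p : ℕ} [Fact p.Prime] [Finite G] (hG : IsPGroup p G) (f : H →* G)
    (hf : Function.Injective f) (h : F H) (x : H) : f x ∈ Rad F G :=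
  haveI := hG.isNilpotent
  (hF.nilp_sub _ G rfl f.range).1 (hF.range f hf h) ⟨x, rfl⟩

theorem FC.p_sub {p : ℕ} [Fact p.Prime] [Finite G] (hG : IsPGroup p G) (f : H →* G)
    (hf : Function.Injective f) (h : F G) : F H :=
  haveI := hG.isNilpotent
  hF.iso _ _ (MonoidHom.ofInjective hf).symm ((hF.nilp_sub _ G rfl f.range).2 h)

theorem FC.wreath_step {p : ℕ} [Fact p.Prime] {C D : Type} [Group C] [Finite C] [Group D]
    [Finite D] (hC : IsPGroup p C) (h : F C) (hD : IsPGroup p D) (h' : F D) :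
    IsPGroup p (D ≀ᵣ C) ∧ F (D ≀ᵣ C) := by
  classical
  have hW : IsPGroup p (D ≀ᵣ C) := by
    obtain ⟨a, ha⟩ := IsPGroup.iff_card.1 hC
    obtain ⟨b, hb⟩ := IsPGroup.iff_card.1 hD
    exact IsPGroup.of_card (n := b * p ^ a + a) (by
      rw [RegularWreathProduct.card, ha, hb, pow_add, pow_mul])
  refine ⟨hW, hF.of_rad fun w => ?_⟩
  let β : (C → D) →* D ≀ᵣ C := MonoidHom.mk' (fun f => ⟨f, 1⟩) fun f g => by ext <;> simp
  have hβ : Function.Injective β := fun f g e => congrArg RegularWreathProduct.left e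
  have h1 : Subgroup.pi Set.univ (fun _ : C => (⊤ : Subgroup D)) ≤ (Rad F _).comap β := by
    rw [Subgroup.pi_le_iff]
    rintro i _ ⟨d, -, rfl⟩
    exact hF.p_le hW (β.comp (MonoidHom.mulSingle (fun _ : C => D) i))
      (hβ.comp (Pi.mulSingle_injective (M := fun _ : C => D) i)) h' d
  have e : w = β w.left * RegularWreathProduct.inl w.right := by ext <;> simp [β]
  rw [e]
  exact mul_mem (h1 fun _ _ => trivial) (hF.p_le hW RegularWreathProduct.inl
    (fun a b e => congrArg RegularWreathProduct.right e) h _)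

theorem FC.wreath {p : ℕ} [Fact p.Prime] {C : Type} [Group C] [Finite C] (hC : IsPGroup p C)
    (h : F C) (n : ℕ) : IsPGroup p (IteratedWreathProduct C n) ∧ F (IteratedWreathProduct C n) := by
  induction n with
  | zero =>
    have : Subsingleton (IteratedWreathProduct C 0) := inferInstanceAs (Subsingleton PUnit)
    exact ⟨IsPGroup.of_subsingleton _ _, hF.triv⟩
  | succ n ih => exact hF.wreath_step hC h ih.1 ih.2

theorem FC.pgroup {p : ℕ} [Fact p.Prime] {C : Type} [Group C] (hC : Nat.card C = p)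
    (h : F C) [Finite G] (hG : IsPGroup p G) : F G := by
  have := (hF.fin C h).1
  obtain ⟨n, hn⟩ := IsPGroup.iff_card.1 hG
  let f : G →* Equiv.Perm G := MulAction.toPermHom G G
  have hf : Function.Injective f := MulAction.toPerm_injective
  obtain ⟨Q, hQ⟩ := (hG.of_equiv (MonoidHom.ofInjective hf)).exists_le_sylow
  have h1 := hF.iso _ _ (Sylow.mulEquivIteratedWreathProduct p n G hn C hC Q).symm
    (hF.wreath (IsPGroup.of_card (n := 1) (by simpa using hC)) h n).2
  exact hF.p_sub Q.isPGroup' ((Subgroup.inclusion hQ).comp f.rangeRestrict)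
    ((Subgroup.inclusion_injective hQ).comp (MonoidHom.rangeRestrict_injective_iff.2 hf)) h1

omit hF in
theorem inl_normal {A B : Type} [Group A] [Group B] : (MonoidHom.inl A B).range.Normal :=
  ⟨by rintro _ ⟨x, rfl⟩ ⟨a, b⟩; exact ⟨a * x * a⁻¹, by simp⟩⟩

omit hF in
theorem inr_normal {A B : Type} [Group A] [Group B] : (MonoidHom.inr A B).range.Normal :=
  ⟨by rintro _ ⟨x, rfl⟩ ⟨a, b⟩; exact ⟨b * x * b⁻¹, by simp⟩⟩

theorem FC.prod {A B : Type} [Group A] [Group B] (a : F A) (b : F B) : F (A × B) := by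
  have := (hF.fin A a).1
  have := (hF.fin B b).1
  refine hF.sup_top (N := (MonoidHom.inl A B).range) (M := (MonoidHom.inr A B).range) ?_ ?_
    (hF.range _ (fun _ _ e => congrArg Prod.fst e) a)
    (hF.range _ (fun _ _ e => congrArg Prod.snd e) b) ?_
  · exact inl_normal
  · exact inr_normal
  · rw [eq_top_iff]
    rintro ⟨x, y⟩ -
    simpa using Subgroup.mul_mem_sup (MonoidHom.mem_range.2 ⟨x, rfl⟩ :
      MonoidHom.inl A B x ∈ (MonoidHom.inl A B).range) (MonoidHom.mem_range.2 ⟨y, rfl⟩ :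
      MonoidHom.inr A B y ∈ (MonoidHom.inr A B).range)

omit hF in
theorem fib_normal {A B X : Type} [Group A] [Group B] [Group X]
    (α : G →* A) (β : G →* B) (χ₁ : A →* X) (χ₂ : B →* X)
    (hX : ∀ x y, χ₁ x * χ₁ y = χ₁ y * χ₁ x) (hX' : ∀ x y, χ₂ x * χ₂ y = χ₂ y * χ₂ x)
    (hr : ∀ a b, χ₁ a = χ₂ b ↔ ∃ g, α g = a ∧ β g = b) : (α.prod β).range.Normal := by
  constructor
  rintro _ ⟨g, rfl⟩ ⟨a, b⟩
  have := (hr _ _).2 ⟨g, rfl, rfl⟩
  obtain ⟨g', h1, h2⟩ := (hr (a * α g * a⁻¹) (b * β g * b⁻¹)).1 (by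
    simp only [map_mul, map_inv]
    rw [hX a, hX' b, this]; simp)
  exact ⟨g', Prod.ext h1 h2⟩

theorem FC.fib1 {A B X : Type} [Group A] [Group B] [Group X]
    (α : G →* A) (β : G →* B) (χ₁ : A →* X) (χ₂ : B →* X)
    (hX : ∀ x y, χ₁ x * χ₁ y = χ₁ y * χ₁ x) (hX' : ∀ x y, χ₂ x * χ₂ y = χ₂ y * χ₂ x)
    (hi : ∀ g, α g = 1 → β g = 1 → g = 1)
    (hr : ∀ a b, χ₁ a = χ₂ b ↔ ∃ g, α g = a ∧ β g = b) (a : F A) (b : F B) : F G :=
  hF.inj (α.prod β) ((injective_iff_map_eq_one _).2 fun g e =>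
    hi g (congrArg Prod.fst e) (congrArg Prod.snd e)) (fib_normal α β χ₁ χ₂ hX hX' hr) (hF.prod a b)

theorem FC.fib2 {A B X : Type} [Group A] [Group B] [Finite B] [Group X]
    (α : G →* A) (β : G →* B) (χ₁ : A →* X) (χ₂ : B →* X)
    (hX : ∀ x y, χ₁ x * χ₁ y = χ₁ y * χ₁ x) (hX' : ∀ x y, χ₂ x * χ₂ y = χ₂ y * χ₂ x)
    (hi : ∀ g, α g = 1 → β g = 1 → g = 1)
    (hr : ∀ a b, χ₁ a = χ₂ b ↔ ∃ g, α g = a ∧ β g = b) (hs : Function.Surjective β)
    (a : F A) (g : F G) : F B := by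
  have := (hF.fin A a).1
  have h1 : F (A × B) := by
    refine hF.sup_top (N := (MonoidHom.inl A B).range) ?_ (fib_normal α β χ₁ χ₂ hX hX' hr)
      (hF.range _ (fun _ _ e => congrArg Prod.fst e) a)
      (hF.range _ ((injective_iff_map_eq_one _).2 fun g e =>
        hi g (congrArg Prod.fst e) (congrArg Prod.snd e)) g) ?_
    · exact inl_normal
    · rw [eq_top_iff]
      rintro ⟨x, y⟩ -
      obtain ⟨g, rfl⟩ := hs y
      simpa using Subgroup.mul_mem_sup (MonoidHom.mem_range.2 ⟨x * (α g)⁻¹, rfl⟩ :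
        MonoidHom.inl A B _ ∈ (MonoidHom.inl A B).range) (MonoidHom.mem_range.2 ⟨g, rfl⟩ :
        (α.prod β) g ∈ (α.prod β).range)
  exact hF.inj (MonoidHom.inr A B) (fun _ _ e => congrArg Prod.snd e) inr_normal h1

theorem FC.fib1' {A B X : Type} [Group A] [Group B] [Group X]
    (α : G →* A) (β : G →* B) (χ₁ : A →* X) (χ₂ : B →* X)
    (hX : ∀ x y, χ₁ x * χ₁ y = χ₁ y * χ₁ x) (hX' : ∀ x y, χ₂ x * χ₂ y = χ₂ y * χ₂ x)
    (hi : ∀ g, α g = 1 → β g = 1 → g = 1)
    (hr : ∀ a b, χ₁ a = χ₂ b ↔ ∃ g, α g = a ∧ β g = b) (M : Subgroup A) (a : F M) (b : F B) :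
    F (M.comap α) := by
  refine hF.fib1 (α.subgroupComap M) (β.comp (M.comap α).subtype) (χ₁.comp M.subtype) χ₂
    (fun _ _ => hX _ _) hX' (fun g h1 h2 => Subtype.ext (hi g (congrArg Subtype.val h1) h2)) ?_ a b
  intro x y
  constructor
  · intro h
    obtain ⟨g, h1, h2⟩ := (hr x y).1 h
    exact ⟨⟨g, by rw [Subgroup.mem_comap, h1]; exact x.2⟩, Subtype.ext h1, h2⟩
  · rintro ⟨g, rfl, rfl⟩
    exact (hr _ _).2 ⟨g, rfl, rfl⟩

/-- all finite `p`-groups lie in `F` -/
def Ch (F : (G : Type) → [Group G] → Prop) (p : ℕ) : Prop :=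
  ∀ (G : Type) [Group G] [Finite G], IsPGroup p G → F G

theorem FC.ch {p : ℕ} [hp : Fact p.Prime] (n : ℕ) : ∀ (G : Type) [Group G], Nat.card G = n → F G →
    p ∣ Nat.card G → Ch F p := by
  induction n using Nat.strong_induction_on with
  | _ n ih =>
  intro G _ hn h hd
  obtain ⟨_, _⟩ := hF.fin G h
  have : Nontrivial G := by
    by_contra hc
    have := not_nontrivial_iff_subsingleton.1 hc
    rw [Nat.card_of_subsingleton (1 : G)] at hd
    exact hp.out.one_lt.ne' (Nat.dvd_one.1 hd)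
  have h1 := Group.IsSolvable.commutator_lt_top_of_nontrivial G
  obtain ⟨M, hM, hle⟩ := (eq_top_or_exists_le_coatom (commutator G)).resolve_left h1.ne
  have hN : M.Normal := Subgroup.Normal.of_commutator_le G hle
  by_cases hdM : p ∣ Nat.card M
  · exact ih _ (hn ▸ card_lt hM.1) M rfl (hF.normal G M hN h) hdM
  have hd2 : p ∣ Nat.card (G ⧸ M) :=
    ((Nat.Prime.dvd_mul hp.out).1 (M.card_mul_index ▸ hd)).resolve_left hdM
  obtain ⟨x, hx⟩ := exists_prime_orderOf_dvd_card' p hd2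
  have hc : ∀ a b : G ⧸ M, a * b = b * a :=
    (Subgroup.Normal.quotient_commutative_iff_commutator_le.2 hle).is_comm.comm
  have h2 : F (G ⧸ M) := by
    refine hF.fib2 (G := G) (MonoidHom.id G) (QuotientGroup.mk' M) (QuotientGroup.mk' M)
      (MonoidHom.id _) (fun _ _ => hc _ _) (fun _ _ => hc _ _) (fun g a _ => a) ?_ (QuotientGroup.mk'_surjective M) h h
    intro a b; simp
  have h3 : F (Subgroup.zpowers x) := hF.normal _ _ ⟨fun a ha b => by
    rw [hc b a]; simpa using ha⟩ h2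
  intro P _ _ hP
  exact hF.pgroup (by rw [Nat.card_zpowers, hx]) h3 hP

end Pool.Agent.H68.Fit
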