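import Pool.Agent.H68.Fit1

set_option autoImplicit false

namespace Pool.Agent.H68.Fit

variable {G H : Type} [Group G] [Group H]

theorem Abn.top {A M : Subgroup G} (h : Abn A) (hM : M.Normal) (hle : A ≤ M) : M = ⊤ := by
  rw [eq_top_iff]
  intro g _
  refine (sup_le hle ?_ : A ⊔ A.map (MulAut.conj g).toMonoidHom ≤ M) (h g)
  rintro _ ⟨a, ha, rfl⟩
  exact hM.conj_mem _ (hle ha) g

theorem Abn.comap {A : Subgroup G} (h : Abn A) (f : H →* G) (hf : Function.Surjective f) :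
    Abn (A.comap f) := by
  intro g
  have h1 : A ⊔ A.map (MulAut.conj (f g)).toMonoidHom ≤
      (A.comap f ⊔ (A.comap f).map (MulAut.conj g).toMonoidHom).map f := by
    refine sup_le (fun a ha => ?_) ?_
    · obtain ⟨b, rfl⟩ := hf a
      exact ⟨b, Subgroup.mem_sup_left ha, rfl⟩
    · rintro _ ⟨a, ha, rfl⟩
      obtain ⟨b, rfl⟩ := hf a
      exact ⟨_, Subgroup.mem_sup_right ⟨b, ha, rfl⟩, by simp⟩
  obtain ⟨b, hb, e⟩ := h1 (h (f g))
  have : g = b * (b⁻¹ * g) := by group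
  rw [this]
  refine mul_mem (this ▸ hb) (Subgroup.mem_sup_left ?_)
  rw [Subgroup.mem_comap, map_mul, map_inv, e, inv_mul_cancel]
  exact one_mem _

theorem abn_of (B V : Subgroup G) (hV : ∀ g : G, ∃ b ∈ B, g * b⁻¹ ∈ V)
    (h : ∀ v ∈ V, ∀ D : Subgroup G, B ≤ D → (∀ b ∈ B, v * b * v⁻¹ ∈ D) → v ∈ D) : Abn B := by
  intro g
  obtain ⟨b, hb, hv⟩ := hV g
  have := h _ hv (B ⊔ B.map (MulAut.conj g).toMonoidHom) le_sup_left fun c hc =>
    Subgroup.mem_sup_right ⟨b⁻¹ * c * b, mul_mem (mul_mem (inv_mem hb) hc) hb, by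
      simp; group⟩
  simpa using mul_mem this (Subgroup.mem_sup_left hb)

theorem conj_into {r : ℕ} [Fact r.Prime] [Finite G] (D S T : Subgroup G) (hS : S ≤ D)
    (pS : IsPGroup r S) (mS : ∀ Q : Subgroup G, IsPGroup r Q → S ≤ Q → Q ≤ D → Q = S)
    (hT : T ≤ D) (pT : IsPGroup r T) : ∃ d ∈ D, ∀ t ∈ T, d * t * d⁻¹ ∈ S := by
  let P : Sylow r D := ⟨S.subgroupOf D, pS.comap_subtype, fun {Q} hQ hle => by
    have := mS (Q.map D.subtype) (hQ.map _) (by
      rw [← Subgroup.map_subgroupOf_eq_of_le hS]; exact Subgroup.map_mono hle)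
      (Subgroup.map_subtype_le Q)
    rw [← this]
    exact (Subgroup.comap_map_eq_self_of_injective D.subtype_injective Q).symm⟩
  obtain ⟨Q, hQ⟩ := (pT.comap_subtype (K := D)).exists_le_sylow
  obtain ⟨d, hd⟩ := MulAction.exists_smul_eq D Q P
  refine ⟨d, d.2, fun t ht => ?_⟩
  have h1 : (d * ⟨t, hT ht⟩ * d⁻¹ : D) ∈ (d • Q : Sylow r D) :=
    Subgroup.smul_mem_pointwise_smul _ (MulAut.conj d) (Q : Subgroup D) (hQ ht)
  rw [hd] at h1
  exact h1

theorem syl (r : ℕ) [Fact r.Prime] [Finite G] (N : Subgroup G) [hN : N.Normal] :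
    ∃ S : Subgroup G, S ≤ N ∧ IsPGroup r S ∧ Abn (Subgroup.normalizer (S : Set G)) ∧
      (∀ g : G, ∃ b ∈ Subgroup.normalizer (S : Set G), g * b⁻¹ ∈ N) ∧
      ∀ L : Subgroup G, L.Normal → (∀ n ∈ N, ∃ k, n ^ r ^ k ∈ L) →
        ∀ n ∈ N, ∃ s ∈ S, n * s⁻¹ ∈ L := by
  obtain ⟨P⟩ : Nonempty (Sylow r N) := inferInstance
  set S : Subgroup G := (P : Subgroup N).map N.subtype with hS
  have h1 : S ≤ N := Subgroup.map_subtype_le _
  have h2 : IsPGroup r S := P.2.map _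
  have mS : ∀ Q : Subgroup G, IsPGroup r Q → S ≤ Q → Q ≤ N → Q = S := by
    intro Q hQ a b
    rw [hS, ← P.3 (hQ.comap_subtype (K := N)) (Subgroup.map_le_iff_le_comap.1 a)]
    exact (Subgroup.map_subgroupOf_eq_of_le b).symm
  have key : ∀ (g : G) (D : Subgroup G), S ≤ D → S.map (MulAut.conj g).toMonoidHom ≤ D →
      ∃ d ∈ D ⊓ N, d * g ∈ Subgroup.normalizer (S : Set G) := by
    intro g D a b
    obtain ⟨d, hd, h⟩ := conj_into (D ⊓ N) S (S.map (MulAut.conj g).toMonoidHom) (le_inf a h1) h2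
      (fun Q x y z => mS Q x y (z.trans inf_le_right))
      (le_inf b (by rintro _ ⟨s, hs, rfl⟩; exact hN.conj_mem _ (h1 hs) g)) (h2.map _)
    refine ⟨d, hd, Subgroup.mem_normalizer_fintype fun n hn => ?_⟩
    have := h _ ⟨n, hn, rfl⟩
    simpa [mul_assoc] using this
  refine ⟨S, h1, h2, fun g => ?_, fun g => ?_, fun L hL h n hn => ?_⟩
  · obtain ⟨d, hd, h⟩ := key g (Subgroup.normalizer (S : Set G) ⊔
      (Subgroup.normalizer (S : Set G)).map (MulAut.conj g).toMonoidHom)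
      (Subgroup.le_normalizer.trans le_sup_left)
      ((Subgroup.map_mono Subgroup.le_normalizer).trans le_sup_right)
    simpa using mul_mem (inv_mem (Subgroup.mem_inf.1 hd).1) (Subgroup.mem_sup_left h)
  · obtain ⟨d, hd, h⟩ := key g ⊤ le_top le_top
    exact ⟨_, h, by simpa using hd.2⟩
  · let f := ((QuotientGroup.mk' L).comp N.subtype).rangeRestrict
    have hf : Function.Surjective f := MonoidHom.rangeRestrict_surjective _
    have h3 := (P.mapSurjective hf).3 (Q := ⊤) (by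
      rintro ⟨a, -⟩
      obtain ⟨a, rfl⟩ := hf a
      obtain ⟨k, hk⟩ := h a a.2
      refine ⟨k, Subtype.ext (Subtype.ext ?_)⟩
      exact (QuotientGroup.eq_one_iff _).2 hk) le_top
    have h4 : f ⟨n, hn⟩ ∈ ((P.mapSurjective hf : Sylow r _) : Subgroup _) := h3 ▸ trivial
    obtain ⟨s, hs, e⟩ := h4
    refine ⟨s, ⟨s, hs, rfl⟩, ?_⟩
    have e' : (s : G ⧸ L) = n := congrArg Subtype.val e
    rw [← QuotientGroup.eq_one_iff, QuotientGroup.mk_mul, QuotientGroup.mk_inv, e', mul_inv_cancel]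

structure Prim (V : Subgroup G) : Prop where
  nor : V.Normal
  comm : ∀ a ∈ V, ∀ b ∈ V, a * b = b * a
  min : ∀ K : Subgroup G, K.Normal → K ≤ V → K = ⊥ ∨ K = V
  cen : ∀ v ∈ V, (∀ g, g * v = v * g) → v = 1

theorem Prim.abn {V : Subgroup G} (hP : Prim V) (φ : H →* G) (hs : Function.Surjective φ)
    (W B : Subgroup H) [hW : W.Normal] (hi : ∀ w ∈ W, φ w = 1 → w = 1) (e : W.map φ = V)
    (hB : ∀ g : H, ∃ b ∈ B, g * b⁻¹ ∈ W) : Abn B := by
  have hi' : ∀ a ∈ W, ∀ b ∈ W, φ a = φ b → a = b := fun a ha b hb h =>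
    mul_inv_eq_one.1 (hi _ (mul_mem ha (inv_mem hb)) (by simp [h]))
  have hV : ∀ a ∈ W, φ a ∈ V := fun a ha => e ▸ ⟨a, ha, rfl⟩
  have hc : ∀ a ∈ W, ∀ b ∈ W, a * b = b * a := fun a ha b hb =>
    hi' _ (mul_mem ha hb) _ (mul_mem hb ha) (by
      rw [map_mul, map_mul, hP.comm _ (hV a ha) _ (hV b hb)])
  refine abn_of B W hB fun v hv D h1 h2 => ?_
  have hK : (D ⊓ W).Normal := ⟨fun k hk g => by
    obtain ⟨b, hb, hw⟩ := hB g
    have h3 : b * k * b⁻¹ ∈ W := hW.conj_mem _ hk.2 b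
    have : g * k * g⁻¹ = b * k * b⁻¹ := by
      have := hc _ hw _ h3
      calc g * k * g⁻¹ = (g * b⁻¹ * (b * k * b⁻¹)) * (g * b⁻¹)⁻¹ := by group
        _ = _ := by rw [this]; group
    rw [this]
    exact ⟨D.mul_mem (D.mul_mem (h1 hb) hk.1) (D.inv_mem (h1 hb)), h3⟩⟩
  rcases hP.min _ (hK.map φ hs) (e ▸ Subgroup.map_mono inf_le_right) with h | h
  · have : v = 1 := by
      refine hi v hv (hP.cen _ (hV v hv) fun g => ?_)
      obtain ⟨g, rfl⟩ := hs g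
      obtain ⟨b, hb, hw⟩ := hB g
      have h3 : v * b * v⁻¹ * b⁻¹ ∈ D ⊓ W := ⟨D.mul_mem (h2 b hb) (D.inv_mem (h1 hb)), by
        have := mul_mem hv (hW.conj_mem _ (inv_mem hv) b)
        simpa [mul_assoc] using this⟩
      have h4 : φ (v * b * v⁻¹ * b⁻¹) ∈ (D ⊓ W).map φ := ⟨_, h3, rfl⟩
      rw [h, Subgroup.mem_bot] at h4
      have h5 := hi _ h3.2 h4
      have h6 := hc _ hw _ hv
      rw [← map_mul, ← map_mul]
      congr 1
      calc g * v = g * b⁻¹ * (v * b * v⁻¹ * b⁻¹)⁻¹ * v * b := by group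
        _ = (g * b⁻¹ * v) * b := by rw [h5]; group
        _ = _ := by rw [h6]; group
    rw [this]; exact one_mem _
  · obtain ⟨k, hk, e'⟩ : φ v ∈ (D ⊓ W).map φ := h.symm ▸ hV v hv
    rw [← hi' _ hk.2 _ hv e']; exact hk.1

/-- fibre product -/
def FP {A B X : Type} [Group A] [Group B] [Group X] (χ : A →* X) (δ : B →* X) :
    Subgroup (A × B) := (χ.comp (MonoidHom.fst A B)).eqLocus (δ.comp (MonoidHom.snd A B))

def p1 {A B X : Type} [Group A] [Group B] [Group X] (χ : A →* X) (δ : B →* X) : FP χ δ →* A :=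
  (MonoidHom.fst A B).comp (FP χ δ).subtype

def p2 {A B X : Type} [Group A] [Group B] [Group X] (χ : A →* X) (δ : B →* X) : FP χ δ →* B :=
  (MonoidHom.snd A B).comp (FP χ δ).subtype

theorem fp_inj {A B X : Type} [Group A] [Group B] [Group X] (χ : A →* X) (δ : B →* X)
    (g : FP χ δ) (h1 : p1 χ δ g = 1) (h2 : p2 χ δ g = 1) : g = 1 := Subtype.ext (Prod.ext h1 h2)

theorem fp_rel {A B X : Type} [Group A] [Group B] [Group X] (χ : A →* X) (δ : B →* X)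
    (g : FP χ δ) : χ (p1 χ δ g) = δ (p2 χ δ g) := g.2

theorem fp_ran {A B X : Type} [Group A] [Group B] [Group X] (χ : A →* X) (δ : B →* X)
    (a : A) (b : B) : χ a = δ b ↔ ∃ g, p1 χ δ g = a ∧ p2 χ δ g = b :=
  ⟨fun h => ⟨⟨(a, b), h⟩, rfl, rfl⟩, by rintro ⟨g, rfl, rfl⟩; exact g.2⟩

variable {F : (G : Type) → [Group G] → Prop} (hF : FC F) (hW : WP F)
include hF hW

theorem FC.key {X : Type} [Group X] (f : G →* H) (hf : Function.Surjective f) (χ : H →* X)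
    (hX : ∀ x y, χ x * χ y = χ y * χ x) (hP : Prim χ.ker) (C : Subgroup H)
    (hC : ∀ g : H, ∃ b ∈ C, g * b⁻¹ ∈ χ.ker) (h1 : F C) (h : F G) : F H := by
  obtain ⟨_, hsol⟩ := hF.fin G h
  have : Finite H := Finite.of_surjective f hf
  have : Group.IsSolvable H := solvable_of_surjective hf
  let ψ := χ.comp f
  have hX' : ∀ x y, ψ x * ψ y = ψ y * ψ x := fun _ _ => hX _ _
  have s2 : Function.Surjective (p2 ψ χ) := fun b => by
    obtain ⟨a, rfl⟩ := hf b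
    obtain ⟨g, -, e⟩ := (fp_ran ψ χ a (f a)).1 rfl
    exact ⟨g, e⟩
  let γ : G →* FP ψ χ := ((MonoidHom.id G).prod f).codRestrict _ fun _ => rfl
  have hγ : Function.Injective γ := fun a b e => congrArg (p1 ψ χ) e
  refine hF.fib2 (p1 ψ χ) (p2 ψ χ) ψ χ hX' hX (fp_inj _ _) (fp_ran _ _) s2 h ?_
  refine hW _ inferInstance (C.comap (p2 ψ χ)) γ.range (p2 ψ χ).ker
    ((hP.abn (MonoidHom.id H) Function.surjective_id χ.ker C (fun _ _ e => e) (by simp) hC).comap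
      _ s2) (hP.abn (p2 ψ χ) s2 (p1 ψ χ).ker _ (fun w a b => fp_inj _ _ w a b) ?_ ?_)
    (hF.fib1' (p2 ψ χ) (p1 ψ χ) χ ψ hX hX' (fun g a b => fp_inj _ _ g b a) (fun a b => ?_) C h1 h)
    (hF.range γ hγ h) inferInstance ?_ ?_ ?_
  · apply le_antisymm
    · rintro _ ⟨w, hw, rfl⟩
      rw [MonoidHom.mem_ker, ← fp_rel, show p1 ψ χ w = 1 from hw, map_one]
    · intro v hv
      obtain ⟨g, e1, e2⟩ := (fp_ran ψ χ 1 v).1 (by rw [map_one]; exact hv.symm)
      exact ⟨g, e1, e2⟩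
  · intro g
    refine ⟨γ (p1 ψ χ g), ⟨_, rfl⟩, ?_⟩
    rw [MonoidHom.mem_ker, map_mul, map_inv]
    exact mul_inv_cancel _
  · rw [eq_comm, fp_ran]; simp only [and_comm]
  · refine hF.inj ((p1 ψ χ).comp (p2 ψ χ).ker.subtype) ((injective_iff_map_eq_one _).2
      fun g e => Subtype.ext (fp_inj _ _ _ e g.2)) ?_ h
    have : ((p1 ψ χ).comp (p2 ψ χ).ker.subtype).range = ψ.ker := by
      apply le_antisymm
      · rintro _ ⟨w, rfl⟩
        have := fp_rel ψ χ w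
        rw [show p2 ψ χ w = 1 from w.2, map_one] at this
        exact this
      · intro v hv
        obtain ⟨g, e1, e2⟩ := (fp_ran ψ χ v 1).1 (by rw [map_one]; exact hv)
        exact ⟨⟨g, e2⟩, e1⟩
    rw [this]; infer_instance
  · intro g hg
    rw [Subgroup.mem_comap, show p2 ψ χ g = 1 from hg]; exact one_mem _
  · intro g
    obtain ⟨a, ha⟩ := hf (p2 ψ χ g)
    refine ⟨γ a, ⟨_, rfl⟩, ?_⟩
    rw [MonoidHom.mem_ker, map_mul, map_inv, ← ha]
    exact mul_inv_cancel _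

theorem FC.factor {X D : Type} [Group X] [Group D] [Finite G] {p r : ℕ} [Fact p.Prime]
    [Fact r.Prime] (cp : Ch F p) (cr : Ch F r) (χ : G →* X) (δ : D →* X)
    (hX : ∀ x y, χ x * χ y = χ y * χ x) (hp : IsPGroup p χ.ker)
    (hr : ∀ g : G, ∃ k, g ^ r ^ k ∈ χ.ker) (hs : Function.Surjective (p1 χ δ))
    (h : F (FP χ δ)) : F G := by
  obtain ⟨_, hsol⟩ := hF.fin _ h
  have : Group.IsSolvable G := solvable_of_surjective hs
  obtain ⟨S, -, pS, aS, -, oS⟩ := syl r (⊤ : Subgroup G)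
  replace oS := fun g => oS χ.ker inferInstance (fun n _ => hr n) g trivial
  set M := Subgroup.normalizer (S : Set G)
  have hM : F M := by
    refine hF.sup_top (N := S.subgroupOf M) (M := χ.ker.subgroupOf M) inferInstance inferInstance
      (cr _ pS.comap_subtype) (cp _ hp.comap_subtype) ?_
    rw [eq_top_iff]
    intro g _
    obtain ⟨s, a, b⟩ := oS g
    have : g = (g * ⟨s, Subgroup.le_normalizer a⟩⁻¹) * ⟨s, Subgroup.le_normalizer a⟩ := by group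
    rw [this]
    exact mul_mem (Subgroup.mem_sup_right b) (Subgroup.mem_sup_left a)
  let ψ := χ.comp (p1 χ δ)
  have hX' : ∀ x y, ψ x * ψ y = ψ y * ψ x := fun _ _ => hX _ _
  have s1 : Function.Surjective (p1 χ ψ) := fun b => by
    obtain ⟨a, rfl⟩ := hs b
    obtain ⟨g, e, -⟩ := (fp_ran χ ψ (p1 χ δ a) a).1 rfl
    exact ⟨g, e⟩
  let u := (p1 χ δ).comp (p2 χ ψ)
  have s2 : Function.Surjective u := fun b => by
    obtain ⟨a, rfl⟩ := hs b
    obtain ⟨g, -, e⟩ := (fp_ran χ ψ (p1 χ δ a) a).1 rfl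
    exact ⟨g, congrArg (p1 χ δ) e⟩
  let w : FP χ ψ →* FP χ δ := ((p1 χ ψ).prod ((p2 χ δ).comp (p2 χ ψ))).codRestrict _ fun g =>
    (fp_rel χ ψ g).trans (fp_rel χ δ _)
  refine hF.fib2 (p2 χ ψ) (p1 χ ψ) ψ χ hX' hX (fun g a b => fp_inj _ _ g b a)
    (fun a b => by rw [eq_comm, fp_ran]; simp only [and_comm]) s1 h ?_
  refine hW _ inferInstance (M.comap u) (M.comap (p1 χ ψ)) (p2 χ ψ).ker (aS.comap _ s2)
    (aS.comap _ s1) (hF.fib1' u w χ ψ hX hX' (fun g a b => ?_) (fun a b => ⟨fun e => ?_, ?_⟩) M hM h)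
    (hF.fib1' (p1 χ ψ) (p2 χ ψ) χ ψ hX hX' (fp_inj _ _) (fp_ran _ _) M hM h) inferInstance
    (cp _ fun g => ?_) ?_ ?_
  · exact fp_inj _ _ g (congrArg (p1 χ δ) b) (fp_inj _ _ _ a (congrArg (p2 χ δ) b))
  · exact ⟨⟨(p1 χ δ b, ⟨(a, p2 χ δ b), e.trans (fp_rel χ δ b)⟩), e.symm⟩, rfl, rfl⟩
  · rintro ⟨g, rfl, rfl⟩
    exact (fp_rel χ ψ g).symm
  · obtain ⟨k, hk⟩ := hp ⟨p1 χ ψ g, by
      rw [MonoidHom.mem_ker, fp_rel, show p2 χ ψ g = 1 from g.2, map_one]⟩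
    refine ⟨k, Subtype.ext (fp_inj _ _ _ ?_ (g ^ p ^ k).2)⟩
    rw [Subgroup.coe_pow, map_pow]
    exact congrArg Subtype.val hk
  · intro g hg
    rw [Subgroup.mem_comap, MonoidHom.comp_apply, show p2 χ ψ g = 1 from hg, map_one]
    exact one_mem _
  · intro g
    obtain ⟨s, a, b⟩ := oS (p1 χ ψ g)
    obtain ⟨g', e1, e2⟩ := (fp_ran χ ψ s (p2 χ ψ g)).1 (by
      rw [MonoidHom.mem_ker, map_mul, map_inv, mul_inv_eq_one] at b
      rw [← b, fp_rel])
    refine ⟨g', ?_, ?_⟩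
    · rw [Subgroup.mem_comap, e1]; exact Subgroup.le_normalizer a
    · rw [MonoidHom.mem_ker, map_mul, map_inv, e2, mul_inv_cancel]

end Pool.Agent.H68.Fit
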