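import Pool.Agent.H68.Fit2

set_option autoImplicit false

namespace Pool.Agent.H68.Fit

variable {G H : Type} [Group G] [Group H]

theorem pg_iff {p : ℕ} {K : Subgroup G} : IsPGroup p K ↔ ∀ g ∈ K, ∃ k, g ^ p ^ k = 1 :=
  ⟨fun h g hg => (h ⟨g, hg⟩).imp fun _ e => congrArg Subtype.val e,
    fun h g => (h g g.2).imp fun _ e => Subtype.ext e⟩

theorem pq_one {p r : ℕ} [Fact p.Prime] [Fact r.Prime] (hne : p ≠ r) {A B : Subgroup G}
    (a : IsPGroup p A) (b : IsPGroup r B) {g : G} (h1 : g ∈ A) (h2 : g ∈ B) : g = 1 :=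
  Subgroup.disjoint_def.1 (IsPGroup.disjoint_of_ne p r hne A B a b) h1 h2

def Link (F : (G : Type) → [Group G] → Prop) (p q : ℕ) : Prop :=
  ∀ (G X : Type) [Group G] [Group X] [Finite G] [Finite X] [IsCyclic X], IsPGroup q X →
    ∀ χ : G →* X, IsPGroup p χ.ker → F G

def L1 (F : (G : Type) → [Group G] → Prop) (p q : ℕ) : Prop :=
  ∃ (X : Type) (_ : Group X), Nat.card X = q ∧
    ∀ (G : Type) [Group G] [Finite G] (χ : G →* X), IsPGroup p χ.ker → F G

variable {F : (G : Type) → [Group G] → Prop}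

theorem Link.ch {p q : ℕ} (h : Link F p q) : Ch F p := fun G _ _ hG =>
  h G Unit (IsPGroup.of_subsingleton _ _) 1 (hG.to_subgroup _)

theorem L1.ch {p q : ℕ} (h : L1 F p q) : Ch F p := fun G _ _ hG => by
  obtain ⟨X, _, -, h⟩ := h
  exact h G 1 (hG.to_subgroup _)

theorem Ch.link {p : ℕ} (h : Ch F p) : Link F p p := fun G X _ _ _ _ _ hX χ hk =>
  h G (((hX.to_subgroup ⊤).comap_of_ker_isPGroup χ hk).of_surjective (Subgroup.subtype _)
    fun g => ⟨⟨g, trivial⟩, rfl⟩)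

theorem Link.l1 {p q : ℕ} [hq : Fact q.Prime] (h : Link F p q) : L1 F p q :=
  haveI : NeZero q := ⟨hq.out.ne_zero⟩
  ⟨Multiplicative (ZMod q), inferInstance, by simp, fun G _ _ χ hk =>
    h G _ (IsPGroup.of_card (n := 1) (by simp)) χ hk⟩

variable (hF : FC F) (hW : WP F)
include hF hW

theorem FC.tower [Finite G] {p q r : ℕ} [Fact p.Prime] [Fact r.Prime] (hne : p ≠ r)
    (hl : Link F p q) (π : G →* H) (hs : Function.Surjective π) (hp : IsPGroup p π.ker)
    (Y C : Subgroup H) [Y.Normal] (hY : IsPGroup r Y) (aC : Abn C) [IsCyclic C]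
    (hC : IsPGroup q C) (hYC : ∀ e, ∃ c ∈ C, e * c⁻¹ ∈ Y) (h : F H) : F G := by
  obtain ⟨_, hsol⟩ := hF.fin _ h
  have := hp.isNilpotent
  have : Group.IsSolvable G := solvable_of_ker_le_range π.ker.subtype π (by simp)
  obtain ⟨S, lS, pS, aS, fS, oS⟩ := syl r (Y.comap π)
  replace oS := oS π.ker inferInstance fun n hn => (pg_iff.1 hY _ hn).imp fun k e => by
    rw [MonoidHom.mem_ker, map_pow, e]
  set B := Subgroup.normalizer (S : Set G)
  have hB : ∀ g : G, ∃ b ∈ B, g * b⁻¹ ∈ π.ker := fun g => by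
    obtain ⟨b, hb, h1⟩ := fS g
    obtain ⟨s, hs, h2⟩ := oS _ h1
    exact ⟨s * b, mul_mem (Subgroup.le_normalizer hs) hb, by simpa [mul_assoc] using h2⟩
  have sC : Function.Surjective ((QuotientGroup.mk' Y).comp C.subtype) := fun x => by
    obtain ⟨e, rfl⟩ := QuotientGroup.mk'_surjective Y x
    obtain ⟨c, hc, h1⟩ := hYC e
    refine ⟨⟨c, hc⟩, ?_⟩
    rw [← QuotientGroup.eq_one_iff, QuotientGroup.mk_mul, QuotientGroup.mk_inv,
      mul_inv_eq_one] at h1
    exact h1.symm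
  have : IsCyclic (H ⧸ Y) := isCyclic_of_surjective _ sC
  have hc : ∀ x y : H ⧸ Y, x * y = y * x := fun x y => (IsCyclic.commGroup (α := H ⧸ Y)).mul_comm x y
  let χ : B ⧸ S.subgroupOf B →* H ⧸ Y := QuotientGroup.lift _
    ((QuotientGroup.mk' Y).comp (π.comp B.subtype)) fun b hb => (QuotientGroup.eq_one_iff _).2 (lS hb)
  have h1 : F (B ⧸ S.subgroupOf B) := by
    refine hl _ _ (hC.of_surjective _ sC) χ (pg_iff.2 fun b hb => ?_)
    obtain ⟨b, rfl⟩ := QuotientGroup.mk'_surjective _ b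
    obtain ⟨s, hs, h2⟩ := oS b ((QuotientGroup.eq_one_iff (N := Y) (π b)).1 hb)
    obtain ⟨k, hk⟩ := pg_iff.1 hp _ h2
    have e1 : QuotientGroup.mk' (S.subgroupOf B) ⟨s, Subgroup.le_normalizer hs⟩ = 1 :=
      (QuotientGroup.eq_one_iff _).2 hs
    have e2 : (b * ⟨s, Subgroup.le_normalizer hs⟩⁻¹) ^ p ^ k = 1 := Subtype.ext hk
    have := congrArg (QuotientGroup.mk' (S.subgroupOf B)) e2
    rw [map_pow, map_mul, map_inv, e1, inv_one, mul_one, map_one] at this
    exact ⟨k, this⟩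
  refine hW G inferInstance (C.comap π) B π.ker (aC.comap π hs) aS
    (hl _ C hC (π.subgroupComap C) (pg_iff.2 fun g hg => ?_)) ?_ inferInstance (hl.ch _ hp)
    (fun g hg => ?_) hB
  · exact (pg_iff.1 hp g (congrArg Subtype.val hg)).imp fun _ e => Subtype.ext e
  · refine hF.fib1 (π.comp B.subtype) (QuotientGroup.mk' (S.subgroupOf B)) (QuotientGroup.mk' Y) χ
      (fun _ _ => hc _ _) (fun _ _ => hc _ _) (fun g a b => Subtype.ext ?_)
      (fun a b => ⟨fun e => ?_, ?_⟩) h h1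
    · exact pq_one hne hp pS a ((QuotientGroup.eq_one_iff (N := S.subgroupOf B) g).1 b)
    · obtain ⟨b, rfl⟩ := QuotientGroup.mk'_surjective _ b
      obtain ⟨a, rfl⟩ := hs a
      have e' : ((π a : H) : H ⧸ Y) = π b := e
      obtain ⟨s, hs, h2⟩ := oS (a * (b : G)⁻¹) (by
        rw [Subgroup.mem_comap, ← QuotientGroup.eq_one_iff, map_mul, map_inv, QuotientGroup.mk_mul,
          QuotientGroup.mk_inv, e', mul_inv_cancel])
      have e1 : QuotientGroup.mk' (S.subgroupOf B) ⟨s, Subgroup.le_normalizer hs⟩ = 1 :=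
        (QuotientGroup.eq_one_iff _).2 hs
      refine ⟨⟨s, Subgroup.le_normalizer hs⟩ * b, ?_, by rw [map_mul, e1, one_mul]⟩
      rw [MonoidHom.mem_ker, mul_assoc, ← mul_inv_rev, map_mul, map_inv, mul_inv_eq_one] at h2
      exact h2.symm
    · rintro ⟨g, rfl, rfl⟩; rfl
  · rw [Subgroup.mem_comap, show π g = 1 from hg]; exact one_mem _

theorem FC.ind [Finite G] {p q r : ℕ} [Fact p.Prime] [Fact r.Prime] (hne : p ≠ r)
    (hl : Link F p q) (cr : Ch F r) (Y C : Subgroup H) [Y.Normal] (hY : IsPGroup r Y)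
    (cY : ∀ a ∈ Y, ∀ b ∈ Y, a * b = b * a) (aC : Abn C) [IsCyclic C]
    (hC : IsPGroup q C) (hYC : ∀ e, ∃ c ∈ C, e * c⁻¹ ∈ Y) (h : F H)
    (j : G →* H) (hj : ∀ g, j g ∈ Y) (hp : IsPGroup p j.ker) : F G := by
  classical
  obtain ⟨_, hsol⟩ := hF.fin _ h
  have hr : ∀ g : G, ∃ k, g ^ r ^ k ∈ j.ker := fun n => (pg_iff.1 hY _ (hj n)).imp fun k e => by
    rw [MonoidHom.mem_ker, map_pow, e]
  obtain ⟨S, -, pS, -, -, oS⟩ := syl r (⊤ : Subgroup G)
  replace oS : ∀ g, ∃ s ∈ S, j s = j g := fun g => by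
    obtain ⟨s, a, b⟩ := oS j.ker inferInstance (fun n _ => hr n) g trivial
    rw [MonoidHom.mem_ker, map_mul, map_inv, mul_inv_eq_one] at b
    exact ⟨s, a, b.symm⟩
  obtain ⟨ρ, hρ⟩ : ∃ ρ : H → G, ∀ s ∈ S, ρ (j s) = s := by
    refine ⟨fun e => if h : ∃ s ∈ S, j s = e then h.choose else 1, fun s hs => ?_⟩
    have h : ∃ t ∈ S, j t = j s := ⟨s, hs, rfl⟩
    simp only [dif_pos h]
    exact mul_inv_eq_one.1 (pq_one hne hp pS (by simp [h.choose_spec.2])
      (mul_mem h.choose_spec.1 (inv_mem hs)))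
  have ρ1 : ρ 1 = 1 := by simpa using hρ 1 (one_mem _)
  let T : Subgroup (G ≀ᵣ H) :=
    { carrier := {w | (∀ e, j (w.left e) = 1) ∧ ∀ e, ∀ s ∈ S, w.left (e * j s) = s⁻¹ * w.left e * s}
      one_mem' := by simp
      mul_mem' := fun {a b} ha hb => ⟨fun e => by simp [ha.1, hb.1], fun e s hs => by
        simp [ha.2 e s hs, ← mul_assoc, hb.2 _ s hs]⟩
      inv_mem' := fun {a} ha => ⟨fun e => by simp [ha.1], fun e s hs => by
        simp [← mul_assoc, ha.2 _ s hs]⟩ }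
  let π : T →* H := RegularWreathProduct.rightHom.comp T.subtype
  have h1 : F T := by
    refine hF.tower hW hne hl π (fun e => ⟨⟨⟨1, e⟩, by simp [T]⟩, rfl⟩) ?_ Y C hY aC hC hYC h
    obtain ⟨k, hk⟩ := IsPGroup.iff_card.1 hp
    refine pg_iff.2 fun w hw => ⟨k, Subtype.ext ?_⟩
    let β : (H → G) →* G ≀ᵣ H := MonoidHom.mk' (fun f => ⟨f, 1⟩) fun f g => by ext <;> simp
    have e : (w : G ≀ᵣ H) = β (w : G ≀ᵣ H).left := by
      ext
      · rfl
      · exact hw
    rw [Subgroup.coe_pow, e, ← map_pow]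
    refine (congrArg β (funext fun x => ?_)).trans (map_one β)
    have := pow_card_eq_one' (x := (⟨_, w.2.1 x⟩ : j.ker))
    rw [hk] at this
    exact congrArg Subtype.val this
  have h2 : F (j.range.comap π) := by
    refine hF.subOf (B := Y.comap π) (Subgroup.comap_mono (by rintro _ ⟨g, rfl⟩; exact hj g))
      ⟨fun a ha b => ?_⟩ (hF.normal _ _ inferInstance h1)
    rw [Subgroup.mem_subgroupOf, Subgroup.mem_comap] at ha ⊢
    rw [Subgroup.coe_mul, Subgroup.coe_mul, map_mul, map_mul, cY _ b.2 _ a.2, Subgroup.coe_inv,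
      map_inv, mul_inv_cancel_right]
    exact ha
  have hw : ∀ w : j.range.comap π, ∃ s ∈ S, (w : G ≀ᵣ H).right = j s := fun w => by
    obtain ⟨g, hg⟩ := w.2
    obtain ⟨s, a, b⟩ := oS g
    exact ⟨s, a, (b.trans hg).symm⟩
  let f : j.range.comap π →* G := MonoidHom.mk'
    (fun w => (w : G ≀ᵣ H).left 1 * ρ (w : G ≀ᵣ H).right) fun a b => by
      obtain ⟨s, hs, e⟩ := hw a
      obtain ⟨t, ht, e'⟩ := hw b
      have := b.1.2.2 1 s⁻¹ (inv_mem hs)
      simp only [map_inv, one_mul, inv_inv] at this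
      simp [e, e', ← map_mul, hρ _ (mul_mem hs ht), hρ _ hs, hρ _ ht, this, mul_assoc]
  have hf : ∀ w, j (f w) = (w : G ≀ᵣ H).right := fun w => by
    obtain ⟨s, hs, e⟩ := hw w
    simp [f, e, hρ _ hs, w.1.2.1]
  let d : j.range.comap π →* G ≀ᵣ H := MonoidHom.mk'
    (fun w => ⟨fun e => if e ∈ j.range then 1 else (w : G ≀ᵣ H).left e, (w : G ≀ᵣ H).right⟩)
    fun a b => by
      obtain ⟨s, hs, e⟩ := hw a
      ext x
      · have : (j s)⁻¹ * x ∈ j.range ↔ x ∈ j.range :=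
          Subgroup.mul_mem_cancel_left _ (inv_mem ⟨s, rfl⟩)
        simp only [e, RegularWreathProduct.mul_left, Pi.mul_apply, this, Subgroup.coe_mul]
        split_ifs <;> simp
      · rfl
  let δ : d.range →* H := RegularWreathProduct.rightHom.comp d.range.subtype
  refine hF.factor hW hl.ch cr j δ (fun _ _ => cY _ (hj _) _ (hj _)) hp hr (fun g => ?_) ?_
  · obtain ⟨x, e, -⟩ := (fp_ran j δ g ⟨_, ⟨⟨⟨1, j g⟩, by simp [T]⟩, g, rfl⟩, rfl⟩).1 rfl
    exact ⟨x, e⟩
  have e : (f.prod d.rangeRestrict).range = FP j δ := by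
    apply le_antisymm
    · rintro _ ⟨w, rfl⟩
      exact hf w
    · rintro ⟨g, _, w, rfl⟩ hg
      have hg' : j g = (w : G ≀ᵣ H).right := hg
      obtain ⟨t, ht, et⟩ := oS g
      refine ⟨⟨⟨⟨fun e => if e ∈ j.range then (ρ e)⁻¹ * (g * t⁻¹) * ρ e else (w : G ≀ᵣ H).left e,
        j g⟩, fun e => ?_, fun e s hs => ?_⟩, g, rfl⟩, Prod.ext ?_ (Subtype.ext ?_)⟩
      · dsimp only
        split_ifs
        · simp [et]
        · exact w.1.2.1 e
      · dsimp only
        have : e * j s ∈ j.range ↔ e ∈ j.range := Subgroup.mul_mem_cancel_right _ ⟨s, rfl⟩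
        simp only [this]
        split_ifs with he
        · obtain ⟨x, rfl⟩ := he
          obtain ⟨y, hy, ey⟩ := oS x
          rw [← ey, ← map_mul, hρ _ (mul_mem hy hs), hρ _ hy]; group
        · exact w.1.2.2 e s hs
      · have : (1 : H) ∈ j.range := one_mem _
        simp [f, ρ1, ← et, hρ _ ht, -MonoidHom.mem_range, this]
      · ext x
        · simp only [d, MonoidHom.prod_apply, MonoidHom.coe_rangeRestrict, MonoidHom.mk'_apply]
          split_ifs <;> rfl
        · exact hg'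
  rw [← e]
  refine hF.range _ ((injective_iff_map_eq_one _).2 fun w hw' => ?_) h2
  have a1 : f w = 1 := congrArg Prod.fst hw'
  have a2 : d w = 1 := congrArg (fun x => (x.2 : G ≀ᵣ H)) hw'
  have a3 : (w : G ≀ᵣ H).right = 1 := congrArg RegularWreathProduct.right a2
  have a4 : (w : G ≀ᵣ H).left 1 = 1 := by simpa [f, a3, ρ1] using a1
  refine Subtype.ext (Subtype.ext (RegularWreathProduct.ext (funext fun x => ?_) a3))
  by_cases hx : x ∈ j.range
  · obtain ⟨y, rfl⟩ := hx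
    obtain ⟨s, hs, es⟩ := oS y
    have := w.1.2.2 1 s hs
    rw [one_mul, a4, es] at this
    simpa using this
  · have := congrFun (congrArg RegularWreathProduct.left a2) x
    simpa [d, hx, -MonoidHom.mem_range] using this

end Pool.Agent.H68.Fit
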