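import Pool.Agent.H68.Fit3

set_option autoImplicit false

namespace Pool.Agent.H68.Fit

open scoped commutatorElement

variable {G H : Type} [Group G] [Group H]

theorem mem_of_cop {K : Subgroup G} {g : G} {a b : ℕ} (h : Nat.Coprime a b) (h1 : g ^ a ∈ K)
    (h2 : g ^ b ∈ K) : g ∈ K := by
  have := Nat.gcd_eq_gcd_ab a b
  rw [h] at this
  rw [← zpow_one g, show (1 : ℤ) = _ from this, zpow_add, zpow_mul, zpow_mul, zpow_natCast,
    zpow_natCast]
  exact mul_mem (zpow_mem h1 _) (zpow_mem h2 _)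

theorem prim_of [Finite G] [Group.IsSolvable G] (x : G)
    (hx : ∀ g : G, ∃ b ∈ Subgroup.zpowers x, g * b⁻¹ ∈ commutator G) (hne : commutator G ≠ ⊥)
    (hmin : ∀ K : Subgroup G, K.Normal → K ≤ commutator G → K = ⊥ ∨ K = commutator G) :
    Prim (commutator G) ∧ ∃ p : ℕ, p.Prime ∧ p ∣ Nat.card G ∧ ∀ v ∈ commutator G, v ^ p = 1 := by
  have hc : ∀ a ∈ commutator G, ∀ b ∈ commutator G, a * b = b * a := by
    have h1 := Group.IsSolvable.commutator_lt_of_ne_bot hne
    have h2 := (hmin _ inferInstance h1.le).resolve_right h1.ne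
    intro a ha b hb
    have := Subgroup.commutator_mem_commutator ha hb
    rw [h2, Subgroup.mem_bot] at this
    exact commutatorElement_eq_one_iff_mul_comm.1 this
  refine ⟨⟨inferInstance, hc, hmin, fun v hv h => ?_⟩, ?_⟩
  · rcases hmin (Subgroup.center G ⊓ commutator G) inferInstance inf_le_right with h1 | h1
    · rw [← Subgroup.mem_bot, ← h1]; exact ⟨Subgroup.mem_center_iff.2 h, hv⟩
    · exfalso
      apply hne
      have h2 : ∀ v ∈ commutator G, ∀ g, g * v = v * g := fun v hv =>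
        Subgroup.mem_center_iff.1 (h1.symm ▸ hv : v ∈ Subgroup.center G ⊓ commutator G).1
      rw [eq_bot_iff, commutator_def, Subgroup.commutator_le]
      intro a _ b _
      obtain ⟨_, ⟨i, rfl⟩, ha⟩ := hx a
      obtain ⟨_, ⟨k, rfl⟩, hb⟩ := hx b
      rw [Subgroup.mem_bot, commutatorElement_eq_one_iff_commute]
      have e1 : a = a * (x ^ i)⁻¹ * x ^ i := by group
      have e2 : b = b * (x ^ k)⁻¹ * x ^ k := by group
      rw [e1, e2]
      exact Commute.mul_left (h2 _ ha _).symm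
        (Commute.mul_right (h2 _ hb _) (Commute.zpow_zpow_self x i k))
  · have : Nontrivial (commutator G) := (Subgroup.nontrivial_iff_ne_bot _).2 hne
    obtain ⟨p, hp, hd⟩ := Nat.exists_prime_and_dvd (Finite.one_lt_card (α := commutator G)).ne'
    have := Fact.mk hp
    obtain ⟨v, hv⟩ := exists_prime_orderOf_dvd_card' p hd
    refine ⟨p, hp, hd.trans (Subgroup.card_subgroup_dvd_card _), ?_⟩
    let K : Subgroup G :=
      { carrier := {v | v ∈ commutator G ∧ v ^ p = 1}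
        one_mem' := ⟨one_mem _, one_pow p⟩
        mul_mem' := fun {a b} ha hb => ⟨mul_mem ha.1 hb.1, by
          rw [Commute.mul_pow (hc _ ha.1 _ hb.1), ha.2, hb.2, one_mul]⟩
        inv_mem' := fun {a} ha => ⟨inv_mem ha.1, by rw [inv_pow, ha.2, inv_one]⟩ }
    have hK : K.Normal := ⟨fun a ha g => ⟨Subgroup.Normal.conj_mem inferInstance _ ha.1 g, by
      rw [conj_pow, ha.2]; simp⟩⟩
    rcases hmin K hK (fun _ h => h.1) with h1 | h1
    · have : (v : G) ∈ K := ⟨v.2, by rw [← hv]; exact congrArg Subtype.val (pow_orderOf_eq_one v)⟩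
      rw [h1, Subgroup.mem_bot] at this
      rw [show v = 1 from Subtype.ext this, orderOf_one] at hv
      exact absurd hv.symm hp.one_lt.ne'
    · intro v hv
      exact (h1.symm ▸ hv : v ∈ K).2

theorem quot_prim [Finite G] [Group.IsSolvable G] (x : G)
    (hx : ∀ g : G, ∃ b ∈ Subgroup.zpowers x, g * b⁻¹ ∈ commutator G) (P : Subgroup G)
    (hP : P.Normal) (hlt : P < commutator G) : ∃ (H : Type) (_ : Group H) (f : G →* H),
      Function.Surjective f ∧ P ≤ f.ker ∧ f.ker < commutator G ∧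
      (commutator G).map f = commutator H ∧
      (∀ g : H, ∃ b ∈ Subgroup.zpowers (f x), g * b⁻¹ ∈ commutator H) ∧ Prim (commutator H) ∧
      ∃ p : ℕ, p.Prime ∧ p ∣ Nat.card H ∧ ∀ v ∈ commutator H, v ^ p = 1 := by
  obtain ⟨L, ⟨h1, h2, h3⟩, hm⟩ := (Set.toFinite {L : Subgroup G | L.Normal ∧ P ≤ L ∧
    L < commutator G}).exists_maximal ⟨P, hP, le_rfl, hlt⟩
  let f := QuotientGroup.mk' L
  have hf : Function.Surjective f := QuotientGroup.mk'_surjective L
  have hk : f.ker = L := QuotientGroup.ker_mk' L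
  have e : (commutator G).map f = commutator (G ⧸ L) := by
    rw [commutator_def, Subgroup.map_commutator, Subgroup.map_top_of_surjective f hf]; rfl
  have hx' : ∀ g, ∃ b ∈ Subgroup.zpowers (f x), g * b⁻¹ ∈ commutator (G ⧸ L) := fun g => by
    obtain ⟨g, rfl⟩ := hf g
    obtain ⟨_, ⟨i, rfl⟩, ha⟩ := hx g
    exact ⟨_, ⟨i, rfl⟩, e ▸ ⟨_, ha, by simp⟩⟩
  refine ⟨G ⧸ L, inferInstance, f, hf, hk.symm ▸ h2, hk.symm ▸ h3, e, hx', prim_of (f x) hx' ?_ ?_⟩
  · rw [← e, Ne, Subgroup.map_eq_bot_iff, hk]; exact h3.not_ge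
  · intro K hK hle
    have a1 : L ≤ K.comap f := fun g hg => by
      rw [Subgroup.mem_comap, show f g = 1 from (QuotientGroup.eq_one_iff g).2 hg]; exact one_mem _
    have a2 : K.comap f ≤ commutator G := by
      refine (Subgroup.comap_mono (hle.trans e.ge)).trans ?_
      rw [Subgroup.comap_map_eq, hk]; exact sup_le le_rfl h3.le
    rw [← Subgroup.map_comap_eq_self_of_surjective hf K]
    rcases a2.lt_or_eq with a | a
    · left
      rw [Subgroup.map_eq_bot_iff, hk]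
      exact hm ⟨inferInstance, h2.trans a1, a⟩ a1
    · right; rw [a, e]

theorem struct [Finite G] [Group.IsSolvable G] [Nontrivial G] :
    (∃ N M : Subgroup G, N.Normal ∧ M.Normal ∧ N ≠ ⊤ ∧ M ≠ ⊤ ∧ N ⊔ M = ⊤) ∨
    ∃ (r k : ℕ) (x : G), r.Prime ∧ r ∣ Nat.card G ∧ x ^ r ^ k = 1 ∧
      Subgroup.normalClosure {x} = ⊤ ∧
      ∀ g : G, ∃ b ∈ Subgroup.zpowers x, g * b⁻¹ ∈ commutator G := by
  have h1 := Group.IsSolvable.commutator_lt_top_of_nontrivial G
  obtain ⟨M, hM, hle⟩ := (eq_top_or_exists_le_coatom (commutator G)).resolve_left h1.ne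
  have hN : M.Normal := Subgroup.Normal.of_commutator_le G hle
  obtain ⟨r, hr, hd⟩ := Nat.exists_prime_and_dvd (mt Subgroup.index_eq_one.1 hM.1)
  have := Fact.mk hr
  obtain ⟨S⟩ : Nonempty (Sylow r G) := inferInstance
  have h2 : ¬ (S : Subgroup G) ≤ M := fun h => S.not_dvd_index (hd.trans (Subgroup.index_dvd_of_le h))
  obtain ⟨x, hx, hxM⟩ := SetLike.not_le_iff_exists.1 h2
  obtain ⟨k, hk⟩ := pg_iff.1 S.2 x hx
  have h3 : x ∈ Subgroup.normalClosure {x} := Subgroup.subset_normalClosure rfl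
  by_cases h4 : Subgroup.normalClosure {x} = ⊤
  · refine Or.inr ⟨r, k, x, hr, hd.trans M.index_dvd_card, hk, h4, fun g => ?_⟩
    have : (commutator G ⊔ Subgroup.zpowers x).Normal :=
      Subgroup.Normal.of_commutator_le G le_sup_left
    have h5 : g ∈ commutator G ⊔ Subgroup.zpowers x :=
      Subgroup.normalClosure_le_normal (s := {x}) (by
        rintro _ rfl; exact Subgroup.mem_sup_right (Subgroup.mem_zpowers _))
        (h4 ▸ Subgroup.mem_top g)
    rw [← SetLike.mem_coe, Subgroup.normal_mul] at h5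
    obtain ⟨a, ha, b, hb, rfl⟩ := h5
    exact ⟨b, hb, by simpa using ha⟩
  · refine Or.inl ⟨M, _, hN, inferInstance, hM.1, h4, hM.2 _ (lt_of_le_of_ne le_sup_left fun e => ?_)⟩
    exact hxM (e ▸ Subgroup.mem_sup_right h3)

theorem zp_p {r k : ℕ} {x : G} (h : x ^ r ^ k = 1) : IsPGroup r (Subgroup.zpowers x) :=
  pg_iff.2 (by rintro _ ⟨i, rfl⟩; exact ⟨k, by rw [← zpow_natCast, zpow_comm, zpow_natCast, h, one_zpow]⟩)

variable {F : (G : Type) → [Group G] → Prop} (hF : FC F) (hW : WP F)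
include hF hW

theorem FC.lt0 {p q r : ℕ} [Fact p.Prime] [hq : Fact q.Prime] [hr : Fact r.Prime] (h1 : q ≠ r)
    (h2 : p ≠ r) (a : L1 F r q) (b : Link F p q) {X : Type} [CommGroup X] [Finite X]
    (hX : IsPGroup r X) [Finite G] (χ : G →* X) (hk : IsPGroup p χ.ker) : F G := by
  classical
  have cr := a.ch
  obtain ⟨Q, _, hQ, a⟩ := a
  have : Finite Q := Nat.finite_of_card_ne_zero (hQ ▸ hq.out.ne_zero)
  have := Fintype.ofFinite Q
  have : IsCyclic Q := isCyclic_of_prime_card hQ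
  have : Nontrivial Q := Finite.one_lt_card_iff_nontrivial.1 (hQ ▸ hq.out.one_lt)
  obtain ⟨t, ht⟩ := exists_ne (1 : Q)
  obtain ⟨k, hk'⟩ := IsPGroup.iff_card.1 hX
  let ν : X ≀ᵣ Q →* X := MonoidHom.mk' (fun w => ∏ x, w.left x) fun a b => by
    simp only [RegularWreathProduct.mul_left, Pi.mul_apply, Finset.prod_mul_distrib]
    congr 1
    exact Equiv.prod_comp (Equiv.mulLeft a.right⁻¹) b.left
  let π : ν.ker →* Q := RegularWreathProduct.rightHom.comp ν.ker.subtype
  let σ : Q →* ν.ker := RegularWreathProduct.inl.codRestrict _ fun c => by simp [ν]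
  let β : (Q → X) →* X ≀ᵣ Q := MonoidHom.mk' (fun f => ⟨f, 1⟩) fun f g => by ext <;> simp
  have hβ : ∀ w ∈ π.ker, (w : X ≀ᵣ Q) = β (w : X ≀ᵣ Q).left := fun w hw => by
    ext
    · rfl
    · exact hw
  have hpow : ∀ w ∈ π.ker, w ^ r ^ k = 1 := fun w hw => Subtype.ext (by
    rw [Subgroup.coe_pow, hβ w hw, ← map_pow]
    refine (congrArg β (funext fun x => ?_)).trans (map_one β)
    rw [← hk']; exact pow_card_eq_one')
  have hY : IsPGroup r π.ker := pg_iff.2 fun w hw => ⟨k, hpow w hw⟩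
  have cY : ∀ a ∈ π.ker, ∀ b ∈ π.ker, a * b = b * a := fun a ha b hb => Subtype.ext (by
    rw [Subgroup.coe_mul, Subgroup.coe_mul, hβ a ha, hβ b hb, ← map_mul, ← map_mul, mul_comm])
  have hYC : ∀ e, ∃ c ∈ σ.range, e * c⁻¹ ∈ π.ker := fun e => ⟨σ (π e), ⟨_, rfl⟩, by
    rw [MonoidHom.mem_ker, map_mul, map_inv]; exact mul_inv_cancel _⟩
  have : IsCyclic σ.range := isCyclic_of_surjective _ σ.rangeRestrict_surjective
  let μ : X →* (Q → X) := MonoidHom.mulSingle (fun _ => X) 1 * (MonoidHom.mulSingle (fun _ => X) t)⁻¹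
  let j : G →* ν.ker := (β.comp (μ.comp χ)).codRestrict _ fun g => by
    simp [ν, β, μ, Finset.prod_mul_distrib]
  refine hF.ind hW h2 b cr π.ker σ.range hY cY ?_
    ((IsPGroup.of_card (n := 1) (by simpa using hQ)).of_surjective _ σ.rangeRestrict_surjective)
    hYC (a _ π hY) j (fun g => rfl) (hk.to_le fun g hg => ?_)
  · refine abn_of _ _ hYC fun v hv D d1 d2 => ?_
    have d3 : ∀ c : Q, (fun x => (v : X ≀ᵣ Q).left x * ((v : X ≀ᵣ Q).left (c⁻¹ * x))⁻¹) ∈
        (D.map ν.ker.subtype).comap β := fun c =>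
      ⟨_, D.mul_mem (d2 _ ⟨c, rfl⟩) (D.inv_mem (d1 ⟨c, rfl⟩)), by
        have : (v : X ≀ᵣ Q).right = 1 := hv
        ext <;> simp [β, σ, this]⟩
    obtain ⟨w, hw, e⟩ := Subgroup.prod_mem _ (t := Finset.univ) fun c _ => d3 c
    refine mem_of_cop (((Nat.coprime_primes hq.out hr.out).2 h1).pow_right k) ?_
      (by rw [hpow v hv]; exact one_mem _)
    suffices v ^ q = w from this ▸ hw
    refine Subtype.ext (Eq.trans ?_ e.symm)
    rw [Subgroup.coe_pow, hβ v hv, ← map_pow]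
    congr 1
    funext x
    have : ∏ c : Q, (v : X ≀ᵣ Q).left (c⁻¹ * x) = 1 :=
      (Equiv.prod_comp ((Equiv.inv Q).trans (Equiv.mulRight x)) (v : X ≀ᵣ Q).left).trans v.2
    simp [β, Finset.prod_apply, Finset.prod_mul_distrib, this, ← hQ]
  · have := congrFun (congrArg (fun w : ν.ker => (w : X ≀ᵣ Q).left) hg) 1
    simpa [j, β, μ, ht.symm, Pi.mulSingle_eq_of_ne] using this

theorem FC.lt {p q r : ℕ} [Fact p.Prime] [Fact q.Prime] [Fact r.Prime] (h1 : q ≠ r)
    (h2 : p ≠ r) (a : L1 F r q) (b : Link F p q) : Link F p r := by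
  intro G X _ _ _ _ _ hX χ hk
  letI := IsCyclic.commGroup (α := X)
  exact hF.lt0 hW h1 h2 a b hX χ hk

omit hW in
theorem FC.link_ch {p q : ℕ} [Fact p.Prime] [hq : Fact q.Prime] (h : Link F p q) : Ch F q := by
  obtain ⟨X, _, hX, a⟩ := h.l1
  have : Finite X := Nat.finite_of_card_ne_zero (hX ▸ hq.out.ne_zero)
  exact hF.ch _ X rfl (a X (MonoidHom.id X) (IsPGroup.ker_isPGroup_of_injective fun _ _ e => e))
    (hX ▸ dvd_rfl)

theorem FC.symm {p q : ℕ} [Fact p.Prime] [Fact q.Prime] (h : Link F p q) : Link F q p := by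
  by_cases e : q = p
  · subst e; exact h
  exact hF.lt hW e e h.l1 (hF.link_ch h).link

theorem FC.trans {p q r : ℕ} [Fact p.Prime] [Fact q.Prime] [Fact r.Prime] (h : Link F p q)
    (h' : Link F q r) : Link F p r := by
  by_cases e : q = r
  · subst e; exact h
  by_cases e' : p = r
  · subst e'; exact h.ch.link
  exact hF.lt hW e e' (hF.symm hW h').l1 h

theorem FC.prim_link {p r k : ℕ} [hp : Fact p.Prime] [Fact r.Prime] (hne : p ≠ r) (cr : Ch F r)
    (x : G) (hx : x ^ r ^ k = 1)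
    (hV : ∀ g : G, ∃ b ∈ Subgroup.zpowers x, g * b⁻¹ ∈ commutator G) (hP : Prim (commutator G))
    (hd : p ∣ Nat.card G) (h1 : ∀ v ∈ commutator G, v ^ p = 1) (h : F G) : Link F p r := by
  obtain ⟨_, hsol⟩ := hF.fin _ h
  have cp := hF.ch _ G rfl h hd
  refine hF.lt hW hne hne ?_ cp.link
  obtain ⟨v, hv⟩ := exists_prime_orderOf_dvd_card' p hd
  have hv' : v ∈ commutator G := by
    refine mem_of_cop (((Nat.coprime_primes hp.out Fact.out).2 hne).pow_right k)
      (by rw [← hv, pow_orderOf_eq_one]; exact one_mem _) ?_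
    obtain ⟨_, ⟨i, rfl⟩, hb⟩ := hV v
    rw [← Abelianization.ker_of, MonoidHom.mem_ker] at hb ⊢
    rw [map_mul, map_inv, mul_inv_eq_one] at hb
    rw [map_pow, hb, ← map_pow, ← zpow_natCast, zpow_comm, zpow_natCast, hx, one_zpow, map_one]
  refine ⟨Subgroup.zpowers v, inferInstance, by rw [Nat.card_zpowers, hv], fun T _ _ χ hk => ?_⟩
  exact hF.ind hW hne.symm cr.link cp (commutator G) (Subgroup.zpowers x)
    (pg_iff.2 fun g hg => ⟨1, by rw [pow_one, h1 g hg]⟩) hP.comm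
    (hP.abn (MonoidHom.id G) Function.surjective_id _ _ (fun _ _ e => e) (by simp) hV) (zp_p hx)
    hV h ((Subgroup.subtype _).comp χ) (fun g => Subgroup.zpowers_le.2 hv' (χ g).2)
    (hk.to_le fun g hg => Subtype.ext hg)

end Pool.Agent.H68.Fit
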