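import Mathlib

set_option autoImplicit false

namespace Pool.Agent.H68.Fn

open Polynomial

theorem exists_field : ∃ (K : Type) (_ : Field K) (_ : CharZero K) (_ : Countable K)
    (σ : K ≃+* K) (d : K →+ (ℤ →₀ K)) (t : K), (∀ a b, d (a * b) = a • d b + b • d a) ∧
    ∀ k : ℕ, d (σ^[k] t) = Finsupp.single (k : ℤ) 1 := by
  let A := MvPolynomial ℤ ℤ
  let K := FractionRing A
  haveI : Countable A := (MvPolynomial.basisMonomials ℤ ℤ).repr.injective.countable
  haveI : Countable K := by
    have : Function.Surjective fun p : A × A => algebraMap A K p.1 / algebraMap A K p.2 := by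
      intro x
      obtain ⟨a, b, -, rfl⟩ := IsFractionRing.div_surjective (A := A) x
      exact ⟨(a, b), rfl⟩
    exact this.countable
  let s0 : A ≃+* A := (MvPolynomial.renameEquiv ℤ (Equiv.addRight (1 : ℤ))).toRingEquiv
  let σ : K ≃+* K := IsFractionRing.ringEquivOfRingEquiv s0
  let T := TrivSqZeroExt K (ℤ →₀ K)
  let f : A →+* T := MvPolynomial.eval₂Hom (Int.castRingHom T) fun i : ℤ =>
    (TrivSqZeroExt.inl (algebraMap A K (MvPolynomial.X i)) +
      TrivSqZeroExt.inr (Finsupp.single i (1 : K)) : T)
  have hX : ∀ i, f (MvPolynomial.X i) = (TrivSqZeroExt.inl (algebraMap A K (MvPolynomial.X i)) +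
      TrivSqZeroExt.inr (Finsupp.single i (1 : K)) : T) := fun i => MvPolynomial.eval₂Hom_X' _ _ i
  let fs : T →+* K := (TrivSqZeroExt.fstHom K K (ℤ →₀ K)).toRingHom
  have hf : ∀ a, (f a).fst = algebraMap A K a := by
    intro a
    have : fs.comp f = algebraMap A K := by
      apply MvPolynomial.ringHom_ext'
      · exact RingHom.ext_int _ _
      · intro i
        change (f (MvPolynomial.X i)).fst = _
        rw [hX, TrivSqZeroExt.fst_add, TrivSqZeroExt.fst_inl, TrivSqZeroExt.fst_inr, add_zero]
    exact DFunLike.congr_fun this a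
  have hu : ∀ y : nonZeroDivisors A, IsUnit (f y) := by
    intro y
    rw [TrivSqZeroExt.isUnit_iff_isUnit_fst]
    rw [hf]
    exact IsLocalization.map_units K y
  let F : K →+* T := IsLocalization.lift hu
  have hF : ∀ a, (F a).fst = a := by
    intro a
    have : fs.comp F = RingHom.id K := by
      apply IsLocalization.ringHom_ext (nonZeroDivisors A)
      refine RingHom.ext fun a => ?_
      simp only [RingHom.comp_apply, F, IsLocalization.lift_eq]
      exact hf a
    exact DFunLike.congr_fun this a
  refine ⟨K, inferInstance, inferInstance, inferInstance, σ,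
    (TrivSqZeroExt.sndHom K (ℤ →₀ K)).toAddMonoidHom.comp F.toAddMonoidHom,
    algebraMap A K (MvPolynomial.X 0), ?_, ?_⟩
  · intro a b
    change (F (a * b)).snd = a • (F b).snd + b • (F a).snd
    rw [map_mul, TrivSqZeroExt.snd_mul, hF, hF]
    simp
  · intro k
    have : σ^[k] (algebraMap A K (MvPolynomial.X 0)) = algebraMap A K (MvPolynomial.X (k : ℤ)) := by
      induction k with
      | zero => rfl
      | succ k ih =>
        rw [Function.iterate_succ_apply', ih]
        simp only [σ, IsFractionRing.ringEquivOfRingEquiv_algebraMap]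
        congr 1
        exact (MvPolynomial.rename_X (Equiv.addRight (1 : ℤ)) (k : ℤ)).trans (by simp)
    rw [this]
    change (F (algebraMap A K _)).snd = _
    simp only [F, IsLocalization.lift_eq]
    rw [hX, TrivSqZeroExt.snd_add, TrivSqZeroExt.snd_inl, TrivSqZeroExt.snd_inr, zero_add]

variable {K Ω : Type} [Field K] [AddCommGroup Ω] [Module K Ω]

theorem d_one (d : K →+ Ω) (hd : ∀ a b, d (a * b) = a • d b + b • d a) : d 1 = 0 := by
  have := hd 1 1
  simpa using this

/-- elements whose differential lies in a subspace -/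
def sf (d : K →+ Ω) (hd : ∀ a b, d (a * b) = a • d b + b • d a) (L : Submodule K Ω) :
    Subfield K where
  carrier := {a | d a ∈ L}
  mul_mem' := by
    intro a b ha hb
    change d (a * b) ∈ L
    rw [hd]
    exact L.add_mem (L.smul_mem _ hb) (L.smul_mem _ ha)
  one_mem' := by
    change d 1 ∈ L
    rw [d_one d hd]; exact L.zero_mem
  add_mem' := by
    intro a b ha hb
    change d (a + b) ∈ L
    rw [map_add]; exact L.add_mem ha hb
  zero_mem' := by
    change d 0 ∈ L
    rw [map_zero]; exact L.zero_mem
  neg_mem' := by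
    intro a ha
    change d (-a) ∈ L
    rw [map_neg]; exact L.neg_mem ha
  inv_mem' := by
    intro a ha
    change d a⁻¹ ∈ L
    by_cases h0 : a = 0
    · rw [h0, inv_zero, map_zero]; exact L.zero_mem
    · have := hd a a⁻¹
      rw [mul_inv_cancel₀ h0, d_one d hd] at this
      have h2 : d a⁻¹ = (-(a⁻¹ * a⁻¹)) • d a := by
        have h3 : a • d a⁻¹ = -(a⁻¹ • d a) := eq_neg_of_add_eq_zero_left this.symm
        rw [← one_smul K (d a⁻¹), ← inv_mul_cancel₀ h0, mul_smul, h3, smul_neg, smul_smul, neg_smul]
      rw [h2]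
      exact L.smul_mem _ ha

theorem closed [CharZero K] (d : K →+ Ω) (hd : ∀ a b, d (a * b) = a • d b + b • d a)
    (L : Submodule K Ω) (x : K) (n : ℕ) (c : Fin n → K) (hc : ∀ i, d (c i) ∈ L)
    (e : ∑ i, c i * x ^ (i : ℕ) = x ^ n) : d x ∈ L := by
  let F := sf d hd L
  have hpow : ∀ k : ℕ, d (x ^ (k + 1)) = (((k + 1 : ℕ) : K) * x ^ k) • d x := by
    intro k
    induction k with
    | zero => simp
    | succ k ih =>
      rw [pow_succ, hd, ih, smul_smul, ← add_smul]
      congr 1
      push_cast
      ring
  have hint : IsIntegral F x := by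
    refine ⟨X ^ n - ∑ i : Fin n, C (⟨c i, hc i⟩ : F) * X ^ (i : ℕ),
      monic_X_pow_sub (degree_sum_fin_lt _), ?_⟩
    simp [eval₂_finset_sum, ← e]
    exact sub_self _
  have h1 : ∀ p : F[X], d (aeval x p) - aeval x (derivative p) • d x ∈ L := by
    intro p
    induction p using Polynomial.induction_on' with
    | add p q hp hq =>
      have := L.add_mem hp hq
      simp only [map_add, add_smul]
      convert this using 1
      abel
    | monomial k a =>
      rw [derivative_monomial, aeval_monomial, aeval_monomial, hd]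
      have ha : d (algebraMap F K a) ∈ L := a.2
      cases k with
      | zero => simpa [d_one d hd] using ha
      | succ k =>
        rw [hpow, smul_smul]
        have : (algebraMap F K a * (((k + 1 : ℕ) : K) * x ^ k)) =
            algebraMap F K (a * ((k + 1 : ℕ) : F)) * x ^ (k + 1 - 1) := by
          simp [mul_assoc]
        rw [this, add_sub_cancel_left]
        exact L.smul_mem _ ha
  have h2 := h1 (minpoly F x)
  have h3 := (minpoly.irreducible hint).separable.aeval_derivative_ne_zero (minpoly.aeval F x)
  rw [minpoly.aeval, map_zero, zero_sub] at h2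
  have := L.smul_mem (-(aeval x (derivative (minpoly F x)))⁻¹) h2
  rwa [smul_neg, neg_smul, neg_neg, smul_smul, inv_mul_cancel₀ h3, one_smul] at this

theorem chain {N : Type} [Ring N] [IsNoetherian N N] (u : ℕ → N) :
    ∃ n, ∃ c : Fin n → N, ∑ i, c i * u i = u n := by
  let f : ℕ →o Submodule N N := ⟨fun n => Submodule.span N (Set.range fun i : Fin n => u i), by
    intro a b hab
    apply Submodule.span_mono
    rintro _ ⟨i, rfl⟩
    exact ⟨⟨i, lt_of_lt_of_le i.2 hab⟩, rfl⟩⟩
  obtain ⟨n, hn⟩ := monotone_stabilizes_iff_noetherian.2 inferInstance f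
  have : u n ∈ f (n + 1) := Submodule.subset_span ⟨Fin.last n, rfl⟩
  rw [← hn (n + 1) (by omega)] at this
  exact ⟨n, (Submodule.mem_span_range_iff_exists_fun N).1 this⟩

theorem noeth_of_map {S M : Type} [Ring S] [AddCommGroup M] [Module S M] [Module K M]
    (φ : K → S) (h : ∀ k (m : M), k • m = φ k • m) [IsNoetherian K M] : IsNoetherian S M := by
  rw [← monotone_stabilizes_iff_noetherian]
  intro f
  let r : Submodule S M → Submodule K M := fun I =>
    { carrier := I
      add_mem' := I.add_mem
      zero_mem' := I.zero_mem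
      smul_mem' := fun k m hm => by rw [h]; exact I.smul_mem _ hm }
  obtain ⟨n, hn⟩ := monotone_stabilizes_iff_noetherian.2 (inferInstance : IsNoetherian K M)
    ⟨fun n => r (f n), fun a b hab x hx => f.monotone hab hx⟩
  refine ⟨n, fun m hm => ?_⟩
  ext x
  exact SetLike.ext_iff.1 (hn m hm) x

end Pool.Agent.H68.Fn
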