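import Mathlib

set_option autoImplicit false

namespace Pool.Agent.H68.Fn

/-- left and right noetherian -/
def Noeth (S : Type) [Ring S] : Prop := IsNoetherian S S ∧ IsNoetherian Sᵐᵒᵖ S

/-- every finite subset lies in a noetherian subring -/
def FNoeth (R : Type) [Ring R] : Prop :=
  ∀ A : Finset R, ∃ S : Subring R, (A : Set R) ⊆ S ∧ Noeth S

/-- the noetherian subrings can be chosen monotonically in the finite subset -/
def DirFNoeth (R : Type) [Ring R] : Prop :=
  ∃ S : Finset R → Subring R, (∀ A : Finset R, (A : Set R) ⊆ S A ∧ Noeth (S A)) ∧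
    ∀ X Y : Finset R, X ⊆ Y → S X ≤ S Y

end Pool.Agent.H68.Fn
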