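import Pool.Agent.H68.Fn1
import Pool.Agent.H68.FnDefs

set_option autoImplicit false

namespace Pool.Agent.H68.Fn

variable (K W Z V : Type) [Field K] [AddCommGroup W] [Module K W] [AddCommGroup Z] [Module K Z]
  [AddCommGroup V] [Module K V]

/-- the data of the ring -/
structure Data where
  σ : K ≃+* K
  g : K →+ (Z →ₗ[K] V)
  hg : ∀ a b, g (a * b) = a • g b + b • g a
  P : W →ₗ[K] Z →ₗ[K] V

variable {K W Z V}

/-- the ring -/
@[ext] structure RR (D : Data K W Z V) where
  a : K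
  w : W
  m : K
  z : Z
  v : V

variable {D : Data K W Z V}

instance : Add (RR D) := ⟨fun x y => ⟨x.a + y.a, x.w + y.w, x.m + y.m, x.z + y.z, x.v + y.v⟩⟩
instance : Neg (RR D) := ⟨fun x => ⟨-x.a, -x.w, -x.m, -x.z, -x.v⟩⟩
instance : Zero (RR D) := ⟨⟨0, 0, 0, 0, 0⟩⟩
instance : One (RR D) := ⟨⟨1, 0, 0, 0, 0⟩⟩
instance : Mul (RR D) := ⟨fun x y => ⟨x.a * y.a, x.a • y.w + y.a • x.w, x.a * y.m + x.m * D.σ y.a,
  x.a • y.z + y.a • x.z, x.a • y.v + y.a • x.v + D.g y.a x.z + D.P y.w x.z⟩⟩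

@[simp] theorem add_a (x y : RR D) : (x + y).a = x.a + y.a := rfl
@[simp] theorem add_w (x y : RR D) : (x + y).w = x.w + y.w := rfl
@[simp] theorem add_m (x y : RR D) : (x + y).m = x.m + y.m := rfl
@[simp] theorem add_z (x y : RR D) : (x + y).z = x.z + y.z := rfl
@[simp] theorem add_v (x y : RR D) : (x + y).v = x.v + y.v := rfl
@[simp] theorem neg_a (x : RR D) : (-x).a = -x.a := rfl
@[simp] theorem neg_w (x : RR D) : (-x).w = -x.w := rfl
@[simp] theorem neg_m (x : RR D) : (-x).m = -x.m := rfl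
@[simp] theorem neg_z (x : RR D) : (-x).z = -x.z := rfl
@[simp] theorem neg_v (x : RR D) : (-x).v = -x.v := rfl
@[simp] theorem zero_a : (0 : RR D).a = 0 := rfl
@[simp] theorem zero_w : (0 : RR D).w = 0 := rfl
@[simp] theorem zero_m : (0 : RR D).m = 0 := rfl
@[simp] theorem zero_z : (0 : RR D).z = 0 := rfl
@[simp] theorem zero_v : (0 : RR D).v = 0 := rfl
@[simp] theorem one_a : (1 : RR D).a = 1 := rfl
@[simp] theorem one_w : (1 : RR D).w = 0 := rfl
@[simp] theorem one_m : (1 : RR D).m = 0 := rfl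
@[simp] theorem one_z : (1 : RR D).z = 0 := rfl
@[simp] theorem one_v : (1 : RR D).v = 0 := rfl
@[simp] theorem mul_a (x y : RR D) : (x * y).a = x.a * y.a := rfl
@[simp] theorem mul_w (x y : RR D) : (x * y).w = x.a • y.w + y.a • x.w := rfl
@[simp] theorem mul_m (x y : RR D) : (x * y).m = x.a * y.m + x.m * D.σ y.a := rfl
@[simp] theorem mul_z (x y : RR D) : (x * y).z = x.a • y.z + y.a • x.z := rfl
@[simp] theorem mul_v (x y : RR D) :
    (x * y).v = x.a • y.v + y.a • x.v + D.g y.a x.z + D.P y.w x.z := rfl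

theorem g_one : D.g 1 = 0 := d_one D.g D.hg

instance : Ring (RR D) := Ring.ofMinimalAxioms
  (by intro x y z; ext <;> simp [add_assoc])
  (by intro x; ext <;> simp)
  (by intro x; ext <;> simp)
  (by
    intro x y z
    ext
    · simp [mul_assoc]
    · simp only [mul_a, mul_w]; module
    · simp only [mul_a, mul_m, map_mul]; ring
    · simp only [mul_a, mul_z]; module
    · simp only [mul_a, mul_w, mul_z, mul_v, D.hg, map_add, map_smul, LinearMap.add_apply,
        LinearMap.smul_apply]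
      module)
  (by intro x; ext <;> simp)
  (by intro x; ext <;> simp [g_one])
  (by
    intro x y z
    ext
    · simp [mul_add]
    · simp only [add_a, add_w, mul_w]; module
    · simp only [add_a, add_m, mul_m, map_add]; ring
    · simp only [add_a, add_z, mul_z]; module
    · simp only [add_a, add_w, add_v, mul_v, map_add, LinearMap.add_apply]; module)
  (by
    intro x y z
    ext
    · simp [add_mul]
    · simp only [add_a, add_w, mul_w]; module
    · simp only [add_a, add_m, mul_m]; ring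
    · simp only [add_a, add_z, mul_z]; module
    · simp only [add_a, add_z, add_v, mul_v, map_add]; module)

section sub

variable (δ : K →+ W) (hδ : ∀ a b, δ (a * b) = a • δ b + b • δ a) (W0 : Submodule K W)
  (Z0 : Submodule K Z) (V0 : Submodule K V)
  (h1 : ∀ a, ∀ z ∈ Z0, D.g a z + D.P (δ a) z ∈ V0) (h2 : ∀ w ∈ W0, ∀ z ∈ Z0, D.P w z ∈ V0)

/-- the noetherian subrings -/
def NN : Subring (RR D) where
  carrier := {x | x.w - δ x.a ∈ W0 ∧ x.z ∈ Z0 ∧ x.v ∈ V0}
  zero_mem' := by simp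
  one_mem' := by simp [d_one δ hδ]
  add_mem' := by
    rintro x y ⟨a1, a2, a3⟩ ⟨b1, b2, b3⟩
    refine ⟨?_, Z0.add_mem a2 b2, V0.add_mem a3 b3⟩
    convert W0.add_mem a1 b1 using 1
    simp only [add_w, add_a, map_add]; abel
  neg_mem' := by
    rintro x ⟨a1, a2, a3⟩
    refine ⟨?_, Z0.neg_mem a2, V0.neg_mem a3⟩
    convert W0.neg_mem a1 using 1
    simp only [neg_w, neg_a, map_neg]; abel
  mul_mem' := by
    rintro x y ⟨a1, a2, a3⟩ ⟨b1, b2, b3⟩
    refine ⟨?_, Z0.add_mem (Z0.smul_mem _ b2) (Z0.smul_mem _ a2), ?_⟩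
    · convert W0.add_mem (W0.smul_mem x.a b1) (W0.smul_mem y.a a1) using 1
      simp only [mul_w, mul_a, hδ]; module
    · convert V0.add_mem (V0.add_mem (V0.add_mem (V0.smul_mem x.a b3) (V0.smul_mem y.a a3))
        (h1 y.a _ a2)) (h2 _ b1 _ a2) using 1
      simp only [mul_v, map_sub, LinearMap.sub_apply]; abel

/-- the coefficient field -/
def io : K →+* NN δ hδ W0 Z0 V0 h1 h2 where
  toFun a := ⟨⟨a, δ a, 0, 0, 0⟩, by simp [NN]⟩
  map_one' := by apply Subtype.ext; ext <;> simp [d_one δ hδ]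
  map_mul' a b := by apply Subtype.ext; ext <;> simp [hδ]
  map_zero' := by apply Subtype.ext; ext <;> simp
  map_add' a b := by apply Subtype.ext; ext <;> simp

theorem io_val (a : K) : (io δ hδ W0 Z0 V0 h1 h2 a : RR D) = ⟨a, δ a, 0, 0, 0⟩ := rfl

theorem NN_noeth (f1 : W0.FG) (f2 : Z0.FG) (f3 : V0.FG) : Noeth (NN δ hδ W0 Z0 V0 h1 h2) := by
  haveI : Module.Finite K W0 := .of_fg f1
  haveI : Module.Finite K Z0 := .of_fg f2
  haveI : Module.Finite K V0 := .of_fg f3
  constructor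
  · letI : Module K (NN δ hδ W0 Z0 V0 h1 h2) := Module.compHom _ (io δ hδ W0 Z0 V0 h1 h2)
    have hs : ∀ (k : K) (x : NN δ hδ W0 Z0 V0 h1 h2), k • x = io δ hδ W0 Z0 V0 h1 h2 k * x :=
      fun _ _ => rfl
    let φ : NN δ hδ W0 Z0 V0 h1 h2 →ₗ[K] K × W0 × K × Z0 × V0 :=
      { toFun := fun x => (x.1.a, ⟨_, x.2.1⟩, x.1.m, ⟨_, x.2.2.1⟩, ⟨_, x.2.2.2⟩)
        map_add' := by
          intro x y
          ext <;> simp
          abel
        map_smul' := by
          intro k x
          ext <;> simp [hs, io_val, hδ]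
          module }
    haveI : IsNoetherian K (NN δ hδ W0 Z0 V0 h1 h2) := isNoetherian_of_injective φ (by
      intro x y e
      simp only [φ, LinearMap.coe_mk, AddHom.coe_mk, Prod.mk.injEq, Subtype.mk.injEq] at e
      obtain ⟨e1, e2, e3, e4, e5⟩ := e
      rw [e1, sub_left_inj] at e2
      exact Subtype.ext (RR.ext e1 e2 e3 e4 e5))
    exact noeth_of_map (io δ hδ W0 Z0 V0 h1 h2) hs
  · let ψ : K →+* (NN δ hδ W0 Z0 V0 h1 h2)ᵐᵒᵖ :=
      (io δ hδ W0 Z0 V0 h1 h2).toOpposite fun a b => by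
        rw [Commute, SemiconjBy, ← map_mul, ← map_mul, mul_comm]
    letI : Module K (NN δ hδ W0 Z0 V0 h1 h2) := Module.compHom _ ψ
    have hs : ∀ (k : K) (x : NN δ hδ W0 Z0 V0 h1 h2), k • x = x * io δ hδ W0 Z0 V0 h1 h2 k :=
      fun _ _ => rfl
    let φ : NN δ hδ W0 Z0 V0 h1 h2 →ₗ[K] K × W0 × K × Z0 :=
      { toFun := fun x => (x.1.a, ⟨_, x.2.1⟩, D.σ.symm x.1.m, ⟨_, x.2.2.1⟩)
        map_add' := by
          intro x y
          ext <;> simp
          abel
        map_smul' := by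
          intro k x
          ext <;> simp [hs, io_val, hδ, mul_comm]
          module }
    let ι : V0 →ₗ[K] NN δ hδ W0 Z0 V0 h1 h2 :=
      { toFun := fun v => ⟨⟨0, 0, 0, 0, v⟩, by simp [NN]⟩
        map_add' := by intro x y; apply Subtype.ext; ext <;> simp
        map_smul' := by intro k x; apply Subtype.ext; ext <;> simp [hs, io_val] }
    haveI : IsNoetherian K (NN δ hδ W0 Z0 V0 h1 h2) := isNoetherian_of_range_eq_ker ι φ (by
      ext x
      simp only [LinearMap.mem_range, LinearMap.mem_ker]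
      constructor
      · rintro ⟨v, rfl⟩
        ext <;> simp [φ, ι]
      · intro e
        simp only [φ, LinearMap.coe_mk, AddHom.coe_mk, Prod.mk_eq_zero, Submodule.mk_eq_zero,
          map_eq_zero] at e
        obtain ⟨e1, e2, e3, e4⟩ := e
        rw [e1, map_zero, sub_zero] at e2
        exact ⟨⟨_, x.2.2.2⟩, Subtype.ext (RR.ext e1.symm e2.symm e3.symm e4.symm rfl)⟩)
    exact noeth_of_map ψ fun _ _ => rfl

end sub

end Pool.Agent.H68.Fn
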