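import Pool.Agent.H68.Fn2

set_option autoImplicit false

namespace Pool.Agent.H68.Fn

section forced

variable {K W Z V : Type} [Field K] [AddCommGroup W] [Module K W] [AddCommGroup Z] [Module K Z]
  [AddCommGroup V] [Module K V] {D : Data K W Z V}

theorem sum_m {n : ℕ} (f : Fin n → RR D) : (∑ i, f i).m = ∑ i, (f i).m :=
  map_sum (⟨⟨RR.m, rfl⟩, fun _ _ => rfl⟩ : RR D →+ K) f Finset.univ

theorem sum_v {n : ℕ} (f : Fin n → RR D) : (∑ i, f i).v = ∑ i, (f i).v :=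
  map_sum (⟨⟨RR.v, rfl⟩, fun _ _ => rfl⟩ : RR D →+ V) f Finset.univ

theorem forced [CharZero K] (d : K →+ (ℤ →₀ K)) (hd : ∀ a b, d (a * b) = a • d b + b • d a) (t : K)
    (ht : ∀ k : ℕ, d (D.σ^[k] t) = Finsupp.single (k : ℤ) 1) (N : Subring (RR D))
    [IsNoetherian N N] (h1 : (⟨t, 0, 0, 0, 0⟩ : RR D) ∈ N) (h2 : (⟨0, 0, 1, 0, 0⟩ : RR D) ∈ N) :
    ∃ y : ℕ → RR D, (∀ n, y n ∈ N) ∧ LinearIndependent K fun n => d (y n).a := by
  let T : Set (ℤ →₀ K) := {ω | ∃ y ∈ N, d y.a = ω}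
  have hp : ∀ y : RR D, ∀ n : ℕ, (⟨0, 0, 1, 0, 0⟩ : RR D) * y ^ n = ⟨0, 0, D.σ y.a ^ n, 0, 0⟩ := by
    intro y n
    induction n with
    | zero => simp
    | succ n ih => rw [pow_succ, ← mul_assoc, ih]; ext <;> simp [pow_succ]
  have key : ∀ k : ℕ, ∀ y ∈ N, d (D.σ^[k] y.a) ∈ Submodule.span K T := by
    intro k
    induction k with
    | zero => exact fun y hy => Submodule.subset_span ⟨y, hy, rfl⟩
    | succ k ih =>
      intro y hy
      obtain ⟨n, c, e⟩ := chain fun n : ℕ =>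
        (⟨(⟨0, 0, 1, 0, 0⟩ : RR D) * y ^ n, N.mul_mem h2 (N.pow_mem hy n)⟩ : N)
      have e2 := congrArg (fun x : N => x.1.m) e
      simp only [AddSubmonoidClass.coe_finset_sum, Subring.coe_mul, sum_m, hp, mul_m, map_zero,
        mul_zero, add_zero] at e2
      have e3 := congrArg (D.σ.toRingHom ^ k) e2
      simp only [map_sum, map_mul, map_pow, RingHom.coe_pow] at e3
      rw [Function.iterate_succ_apply]
      exact closed d hd _ _ n (fun i => D.σ^[k] (c i).1.a) (fun i => ih _ (c i).2) e3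
  obtain ⟨b, hb, hs, hl⟩ := exists_linearIndependent K T
  have hinf : b.Infinite := by
    intro hfin
    have h3 : LinearIndependent K fun k : ℕ => (Finsupp.single (k : ℤ) (1 : K)) :=
      (Finsupp.linearIndependent_single_one K ℤ).comp _ Nat.cast_injective
    haveI := hfin.to_subtype
    have := h3.finite_of_le_span_finite _ b (by
      rintro _ ⟨k, rfl⟩
      rw [hs]
      have := key k _ h1
      rwa [ht] at this)
    exact not_finite ℕ
  choose y hy e using fun n : ℕ => hb (hinf.natEmbedding b n).2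
  refine ⟨y, hy, ?_⟩
  simp only [e]
  exact hl.comp _ (hinf.natEmbedding b).injective

end forced

variable {K : Type} [Field K]

/-- initial segments -/
def br (β : ℕ → ℕ) (n : ℕ) : List ℕ := List.ofFn fun i : Fin n => β i

theorem br_len (β : ℕ → ℕ) (n : ℕ) : (br β n).length = n := by simp [br]

theorem br_inj (β : ℕ → ℕ) : Function.Injective (br β) := fun a b h => by
  rw [← br_len β a, h, br_len]

theorem br_ne {β γ : ℕ → ℕ} (h : β ≠ γ) : ∃ n0, ∀ n, n0 ≤ n → br γ n ∉ Set.range (br β) := by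
  obtain ⟨i, hi⟩ := Function.ne_iff.1 h
  refine ⟨i + 1, ?_⟩
  rintro n hn ⟨k, e⟩
  have : k = n := by rw [← br_len β k, e, br_len]
  subst this
  exact hi (congrFun (List.ofFn_injective e) ⟨i, hn⟩)

/-- restriction to a branch -/
noncomputable def PP (β : ℕ → ℕ) : (List ℕ →₀ K) →ₗ[K] (ℕ →₀ K) :=
  Finsupp.lcomapDomain (br β) (br_inj β)

theorem PP_apply (β : ℕ → ℕ) (w : List ℕ →₀ K) (n : ℕ) : PP β w n = w (br β n) := rfl

variable (d : K →+ (ℤ →₀ K)) (hd : ∀ a b, d (a * b) = a • d b + b • d a) (σ : K ≃+* K)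
  (φ : (ℕ → ℕ) → (ℤ →₀ K) →ₗ[K] (ℕ →₀ K))

/-- placing maps on the branches -/
noncomputable def put : ((ℕ → ℕ) → (ℕ →₀ K)) →ₗ[K] ((ℕ → ℕ) →₀ K) →ₗ[K] ((ℕ → ℕ) →₀ (ℕ →₀ K)) where
  toFun f := Finsupp.linearCombination K fun β => Finsupp.single β (f β)
  map_add' f g := by ext β : 1; ext : 1; simp
  map_smul' c f := by ext β : 1; ext : 1; simp

theorem put_single (f : (ℕ → ℕ) → (ℕ →₀ K)) (β : ℕ → ℕ) :
    put f (Finsupp.single β 1) = Finsupp.single β (f β) := by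
  simp [put]

/-- the data of the example -/
noncomputable def DD : Data K (List ℕ →₀ K) ((ℕ → ℕ) →₀ K) ((ℕ → ℕ) →₀ (ℕ →₀ K)) where
  σ := σ
  g := (put ∘ₗ LinearMap.pi φ).toAddMonoidHom.comp d
  hg := by intro a b; simp [hd]
  P := put ∘ₗ LinearMap.pi PP

theorem DD_g (a : K) (β : ℕ → ℕ) :
    (DD d hd σ φ).g a (Finsupp.single β 1) = Finsupp.single β (φ β (d a)) := put_single _ β

theorem DD_P (w : List ℕ →₀ K) (β : ℕ → ℕ) :
    (DD d hd σ φ).P w (Finsupp.single β 1) = Finsupp.single β (PP β w) := put_single _ β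

theorem fnoeth : FNoeth (RR (DD d hd σ φ)) := by
  classical
  intro A
  let B : Finset (ℕ → ℕ) := A.biUnion fun x => x.z.support
  obtain ⟨n0, hn0⟩ : ∃ n0, ∀ β ∈ B, ∀ γ ∈ B, β ≠ γ → ∀ n, n0 ≤ n → br γ n ∉ Set.range (br β) := by
    have : ∀ p : (ℕ → ℕ) × (ℕ → ℕ), ∃ n0, p.1 ≠ p.2 → ∀ n, n0 ≤ n →
        br p.2 n ∉ Set.range (br p.1) := by
      intro p
      by_cases h : p.1 = p.2
      · exact ⟨0, fun h' => absurd h h'⟩
      · obtain ⟨n, hn⟩ := br_ne h
        exact ⟨n, fun _ => hn⟩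
    choose f hf using this
    refine ⟨(B ×ˢ B).sup f, fun β hβ γ hγ h n hn => hf (β, γ) h n (le_trans ?_ hn)⟩
    exact Finset.le_sup (f := f) (Finset.mem_product.2 ⟨hβ, hγ⟩)
  let ψ : (ℤ →₀ K) →ₗ[K] (List ℕ →₀ K) := -∑ β ∈ B, Finsupp.lmapDomain K K (br β) ∘ₗ φ β
  let δ : K →+ (List ℕ →₀ K) := ψ.toAddMonoidHom.comp d
  have hδ : ∀ a b, δ (a * b) = a • δ b + b • δ a := by intro a b; simp [δ, hd]
  let W0 : Submodule K (List ℕ →₀ K) := Submodule.span K
    ((fun x : RR (DD d hd σ φ) => x.w - δ x.a) '' (A : Set (RR (DD d hd σ φ))))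
  let Z0 : Submodule K ((ℕ → ℕ) →₀ K) :=
    Submodule.span K ((fun β => Finsupp.single β 1) '' (B : Set (ℕ → ℕ)))
  let V1 : Submodule K ((ℕ → ℕ) →₀ (ℕ →₀ K)) := Submodule.span K
    (RR.v '' (A : Set (RR (DD d hd σ φ))))
  let V2 : Submodule K ((ℕ → ℕ) →₀ (ℕ →₀ K)) := Submodule.span K
    ((fun p : (ℕ → ℕ) × ℕ => Finsupp.single p.1 (Finsupp.single p.2 1)) ''
      ((B ×ˢ Finset.range n0 : Finset ((ℕ → ℕ) × ℕ)) : Set ((ℕ → ℕ) × ℕ)))
  let V3 : Submodule K ((ℕ → ℕ) →₀ (ℕ →₀ K)) := Submodule.map₂ (DD d hd σ φ).P W0 Z0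
  have f1 : W0.FG := Submodule.fg_span (A.finite_toSet.image _)
  have f2 : Z0.FG := Submodule.fg_span (B.finite_toSet.image _)
  have f3 : (V1 ⊔ V2 ⊔ V3).FG := ((Submodule.fg_span (A.finite_toSet.image _)).sup
    (Submodule.fg_span ((Finset.finite_toSet _).image _))).sup (f1.map₂ _ f2)
  have h1 : ∀ a, ∀ z ∈ Z0, (DD d hd σ φ).g a z + (DD d hd σ φ).P (δ a) z ∈ V1 ⊔ V2 ⊔ V3 := by
    intro a z hz
    have : Z0 ≤ (V1 ⊔ V2 ⊔ V3).comap ((DD d hd σ φ).g a + (DD d hd σ φ).P (δ a)) := by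
      apply Submodule.span_le.2
      rintro _ ⟨γ, hγ, rfl⟩
      apply Submodule.mem_sup_left
      apply Submodule.mem_sup_right
      change (DD d hd σ φ).g a _ + (DD d hd σ φ).P (δ a) _ ∈ V2
      rw [DD_g, DD_P, ← Finsupp.single_add]
      set u := φ γ (d a) + PP γ (δ a) with hu
      have hs : ∀ n ∈ u.support, n < n0 := by
        intro n hn
        by_contra h
        apply Finsupp.mem_support_iff.1 hn
        rw [hu, Finsupp.add_apply, PP_apply]
        have : δ a (br γ n) = -φ γ (d a) n := by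
          simp only [δ, ψ, AddMonoidHom.comp_apply, LinearMap.toAddMonoidHom_coe,
            LinearMap.neg_apply, LinearMap.coe_sum, Finset.sum_apply, Finsupp.neg_apply,
            Finsupp.finset_sum_apply, LinearMap.comp_apply, Finsupp.lmapDomain_apply]
          rw [Finset.sum_eq_single γ, Finsupp.mapDomain_apply (br_inj γ)]
          · intro β hβ hne
            exact Finsupp.mapDomain_notin_range _ _ (hn0 β hβ γ hγ hne n (by omega))
          · exact fun h => absurd hγ h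
        rw [this, add_neg_cancel]
      rw [← Finsupp.sum_single u, Finsupp.sum, ← Finsupp.lsingle_apply (R := K), map_sum]
      apply Submodule.sum_mem
      intro n hn
      rw [← mul_one (u n), ← smul_eq_mul, ← Finsupp.smul_single, map_smul]
      exact V2.smul_mem _ (Submodule.subset_span ⟨(γ, n), by
        simpa using ⟨hγ, hs n hn⟩, rfl⟩)
    exact this hz
  have h2 : ∀ w ∈ W0, ∀ z ∈ Z0, (DD d hd σ φ).P w z ∈ V1 ⊔ V2 ⊔ V3 := fun w hw z hz =>
    Submodule.mem_sup_right (Submodule.apply_mem_map₂ _ hw hz)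
  refine ⟨NN δ hδ W0 Z0 _ h1 h2, fun x hx => ⟨Submodule.subset_span ⟨x, hx, rfl⟩, ?_,
    Submodule.mem_sup_left (Submodule.mem_sup_left (Submodule.subset_span ⟨x, hx, rfl⟩))⟩,
    NN_noeth δ hδ W0 Z0 _ h1 h2 f1 f2 f3⟩
  rw [← Finsupp.sum_single x.z, Finsupp.sum]
  apply Submodule.sum_mem
  intro β hβ
  rw [← mul_one (x.z β), ← smul_eq_mul, ← Finsupp.smul_single]
  exact Z0.smul_mem _ (Submodule.subset_span ⟨β, Finset.mem_biUnion.2 ⟨x, hx, hβ⟩, rfl⟩)

theorem main : ∃ (R : Type) (_ : Ring R), FNoeth R ∧ ¬ DirFNoeth R := by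
  classical
  obtain ⟨K, _, _, _, σ, d, t, hd, ht⟩ := exists_field
  obtain ⟨dec, hdec⟩ := exists_surjective_nat (K × (List ℕ →₀ K))
  have hφ : ∀ β : ℕ → ℕ, ∃ φ : (ℤ →₀ K) →ₗ[K] (ℕ →₀ K),
      (LinearIndependent K fun n => d (dec (β n)).1) →
      ∀ n, φ (d (dec (β n)).1) = Finsupp.single n 1 - PP β (dec (β n)).2 := by
    intro β
    by_cases h : LinearIndependent K fun n => d (dec (β n)).1
    · obtain ⟨φ, hφ⟩ := LinearMap.exists_extend ((Finsupp.linearCombination K fun n =>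
        (Finsupp.single n 1 - PP β (dec (β n)).2 : ℕ →₀ K)) ∘ₗ h.repr)
      refine ⟨φ, fun _ n => ?_⟩
      have := LinearMap.congr_fun hφ ⟨_, Submodule.subset_span ⟨n, rfl⟩⟩
      simp only [LinearMap.comp_apply, Submodule.subtype_apply] at this
      rw [this, h.repr_eq_single n _ rfl]
      simp
    · exact ⟨0, fun h' => absurd h' h⟩
  choose φ hφ using hφ
  refine ⟨RR (DD d hd σ φ), inferInstance, fnoeth d hd σ φ, ?_⟩
  rintro ⟨S, h1, h2⟩
  let A : Finset (RR (DD d hd σ φ)) := {⟨t, 0, 0, 0, 0⟩, ⟨0, 0, 1, 0, 0⟩}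
  haveI := (h1 A).2.1
  obtain ⟨y, hy, hl⟩ := forced (D := DD d hd σ φ) d hd t ht (S A) ((h1 A).1 (by simp [A]))
    ((h1 A).1 (by simp [A]))
  choose β hβ using fun n => hdec ((y n).a, (y n).w)
  have h3 := hφ β (by simpa only [hβ] using hl)
  simp only [hβ] at h3
  let z : RR (DD d hd σ φ) := ⟨0, 0, 0, Finsupp.single β 1, 0⟩
  have hz : z ∈ S (insert z A) := (h1 _).1 (by simp)
  have hy' : ∀ n, y n ∈ S (insert z A) := fun n => h2 _ _ (Finset.subset_insert _ _) (hy n)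
  have hu : ∀ n, z * y n + -(y n * z) = ⟨0, 0, 0, 0, Finsupp.single β (Finsupp.single n 1)⟩ := by
    intro n
    ext1 <;> simp [z, DD_g, DD_P, h3]
    ext γ k
    simp
  haveI := (h1 (insert z A)).2.1
  obtain ⟨n, c, e⟩ := chain fun n : ℕ => (⟨z * y n + -(y n * z), (S _).add_mem
    ((S _).mul_mem hz (hy' n)) ((S _).neg_mem ((S _).mul_mem (hy' n) hz))⟩ : S (insert z A))
  have e2 := congrArg (fun x : S (insert z A) => x.1.v β n) e
  simp only [AddSubmonoidClass.coe_finset_sum, Subring.coe_mul, sum_v, hu, mul_v, map_zero,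
    zero_smul, add_zero, LinearMap.zero_apply, Finsupp.finset_sum_apply, Finsupp.smul_apply,
    Finsupp.single_eq_same] at e2
  rw [Finset.sum_eq_zero] at e2
  · exact zero_ne_one e2
  · intro i _
    rw [Finsupp.single_apply, if_neg (ne_of_lt i.2), smul_zero]

end Pool.Agent.H68.Fn
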