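import Pool.Agent.H68.Gq7

set_option autoImplicit false

namespace Pool.Agent.H68.Gn

open Complex Set Classical

lemma un_norm (u : ℂ) (h : u ≠ 0) : ‖un u‖ = 1 := by
  rw [un, norm_div, norm_real, Real.norm_eq_abs, abs_norm, div_self (norm_ne_zero_iff.2 h)]

lemma un_eq (u : ℂ) : u = (‖u‖ : ℝ) * un u := by
  rcases eq_or_ne u 0 with rfl | h
  · simp
  · have : ((‖u‖ : ℝ) : ℂ) ≠ 0 := by exact_mod_cast norm_ne_zero_iff.2 h
    rw [un]; field_simp

lemma cj (a : ℂ) (h : ‖a‖ = 1) : a * (starRingEnd ℂ) a = 1 := by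
  rw [mul_conj, normSq_eq_norm_sq, h]; simp

lemma omm : om * om' = 1 := by
  apply Complex.ext <;> simp [om, om'] <;> nlinarith [s3]
lemma oma : om + om' = 1 := by apply Complex.ext <;> simp [om, om']; norm_num

lemma three (a b c : ℂ) (ha : ‖a‖ = 1) (hb : ‖b‖ = 1) (hc : ‖c‖ = 1) (h : a + (b + c) = 0) :
    (b = -a * om ∧ c = -a * om') ∨ (b = -a * om' ∧ c = -a * om) := by
  have e : c = -(a + b) := by linear_combination h
  have h1 := cj a ha
  have h2 := cj b hb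
  have h3 := cj c hc
  rw [e, map_neg, map_add] at h3
  have : (b + a * om) * (b + a * om') = 0 := by
    linear_combination a * b * h3 - (a * b + b * b) * h1 - (a * b + a * a) * h2 + a * b * oma +
      a * a * omm
  rcases mul_eq_zero.1 this with k | k
  · exact Or.inl ⟨by linear_combination k, by linear_combination e - k + a * oma⟩
  · exact Or.inr ⟨by linear_combination k, by linear_combination e - k + a * oma⟩

lemma four (a b c d : ℂ) (ha : ‖a‖ = 1) (hb : ‖b‖ = 1) (hc : ‖c‖ = 1) (hd : ‖d‖ = 1)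
    (h : a + (b + (c + d)) = 0) : b = -a ∨ c = -a ∨ d = -a := by
  have h1 := cj a ha
  have h2 := cj b hb
  have h3 := cj c hc
  have h4 := cj d hd
  have h5 := congrArg (starRingEnd ℂ) h
  simp only [map_add, map_zero] at h5
  have : (b + a) * ((c + a) * (d + a)) = 0 := by
    linear_combination a * a * h + a * b * c * d * h5 - b * c * d * h1 - a * c * d * h2 -
      a * b * d * h3 - a * b * c * h4
  rcases mul_eq_zero.1 this with k | k
  · exact Or.inl (by linear_combination k)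
  rcases mul_eq_zero.1 k with k | k
  · exact Or.inr (Or.inl (by linear_combination k))
  · exact Or.inr (Or.inr (by linear_combination k))

section
variable {V U : Finset ℂ} {G : SimpleGraph ℂ} (h1 : ∀ a b : ℂ, G.Adj a b → a ∈ V ∧ b ∈ V)
  (h2 : ∀ a b v : ℂ, G.Adj a b → v ∈ V → v ∈ segment ℝ a b → v = a ∨ v = b)
  (h3 : ∀ v ∈ V, v ∉ U → ((G.neighborSet v).ncard = 3 ∨ (G.neighborSet v).ncard = 4) ∧
    (∑ᶠ w ∈ G.neighborSet v, (w - v) / ((‖w - v‖ : ℝ) : ℂ)) = 0)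

include h1 h2 in
lemma dinj (v a b : ℂ) (ha : G.Adj v a) (hb : G.Adj v b) (e : un (a - v) = un (b - v)) : a = b := by
  have key : ∀ a b, G.Adj v a → G.Adj v b → un (a - v) = un (b - v) → ‖a - v‖ ≤ ‖b - v‖ → a = b := by
    intro a b ha hb e l
    have n0 : 0 < ‖b - v‖ := norm_pos_iff.2 (sub_ne_zero.2 hb.ne')
    have n1 : ((‖b - v‖ : ℝ) : ℂ) ≠ 0 := by exact_mod_cast n0.ne'
    refine (h2 v b a hb (h1 _ _ ha).2 ((seg_iff _ _ _).2 ⟨‖a - v‖ / ‖b - v‖, by positivity,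
      (div_le_one n0).2 l, ?_⟩)).resolve_left ha.ne'
    have := un_eq (a - v)
    rw [e, un] at this
    push_cast
    linear_combination this
  rcases le_total ‖a - v‖ ‖b - v‖ with l | l
  · exact key a b ha hb e l
  · exact (key b a hb ha e.symm l).symm

include h1 h3 in
lemma split (v w : ℂ) (hw : G.Adj v w) (hU : v ∉ U) : ∃ S : Finset ℂ, (∀ x ∈ S, G.Adj v x) ∧
    S.card + 1 = (G.neighborSet v).ncard ∧ un (w - v) + ∑ x ∈ S, un (x - v) = 0 := by
  have fin : (G.neighborSet v).Finite := V.finite_toSet.subset fun x hx => (h1 v x hx).2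
  have m : w ∈ fin.toFinset := fin.mem_toFinset.2 hw
  refine ⟨fin.toFinset.erase w, fun x hx => fin.mem_toFinset.1 (Finset.mem_of_mem_erase hx), ?_, ?_⟩
  · rw [Finset.card_erase_add_one m, ncard_eq_toFinset_card _ fin]
  · rw [Finset.add_sum_erase _ (fun x => un (x - v)) m, ← (h3 v (h1 _ _ hw).1 hU).2,
      finsum_mem_eq_finite_toFinset_sum _ fin]
    rfl

include h1 h3 in
lemma deg3 (v w : ℂ) (hw : G.Adj v w) (hU : v ∉ U) (hd : (G.neighborSet v).ncard = 3) :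
    (∃ x, G.Adj v x ∧ un (x - v) = -un (w - v) * om) ∧
      ∃ x, G.Adj v x ∧ un (x - v) = -un (w - v) * om' := by
  obtain ⟨S, a, b, c⟩ := split h1 h3 v w hw hU
  obtain ⟨y, z, hyz, rfl⟩ := Finset.card_eq_two.1 (show S.card = 2 by omega)
  rw [Finset.sum_pair hyz] at c
  have n := fun x (h : G.Adj v x) => un_norm _ (sub_ne_zero.2 h.ne')
  have ay := a y (by simp)
  have az := a z (by simp)
  rcases three _ _ _ (n _ hw) (n _ ay) (n _ az) c with ⟨p, q⟩ | ⟨p, q⟩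
  · exact ⟨⟨y, ay, p⟩, z, az, q⟩
  · exact ⟨⟨z, az, q⟩, y, ay, p⟩

include h1 h3 in
lemma deg4 (v w : ℂ) (hw : G.Adj v w) (hU : v ∉ U) (hd : (G.neighborSet v).ncard = 4) :
    ∃ x, G.Adj v x ∧ un (x - v) = -un (w - v) := by
  obtain ⟨S, a, b, c⟩ := split h1 h3 v w hw hU
  obtain ⟨x, y, z, h4, h5, h6, rfl⟩ := Finset.card_eq_three.1 (show S.card = 3 by omega)
  rw [Finset.sum_insert (by simp [h4, h5]), Finset.sum_pair h6] at c
  have n := fun x (h : G.Adj v x) => un_norm _ (sub_ne_zero.2 h.ne')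
  have ax := a x (by simp)
  have ay := a y (by simp)
  have az := a z (by simp)
  rcases four _ _ _ _ (n _ hw) (n _ ax) (n _ ay) (n _ az) c with p | p | p
  exacts [⟨x, ax, p⟩, ⟨y, ay, p⟩, ⟨z, az, p⟩]

def Rl (G : SimpleGraph ℂ) (U : Finset ℂ) (α β : ℂ) (e e' : ℂ × ℂ) : Prop :=
  G.Adj e.1 e.2 ∧ G.Adj e'.1 e'.2 ∧ e'.1 = e.2 ∧ e.2 ∉ U ∧
    (((G.neighborSet e.2).ncard = 4 ∧ un (e'.2 - e'.1) = un (e.2 - e.1) ∧
      (un (e.2 - e.1) = α ∨ un (e.2 - e.1) = β)) ∨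
    ((G.neighborSet e.2).ncard = 3 ∧ α ≠ β ∧ ((un (e.2 - e.1) = α ∧ un (e'.2 - e'.1) = β) ∨
      (un (e.2 - e.1) = β ∧ un (e'.2 - e'.1) = α))))

lemma Rl_dir {α β : ℂ} {e e' : ℂ × ℂ} (h : Rl G U α β e e') :
    (un (e.2 - e.1) = α ∨ un (e.2 - e.1) = β) ∧ (un (e'.2 - e'.1) = α ∨ un (e'.2 - e'.1) = β) := by
  obtain ⟨-, -, -, -, ⟨-, a, b⟩ | ⟨-, -, ⟨a, b⟩ | ⟨a, b⟩⟩⟩ := h
  · exact ⟨b, a ▸ b⟩
  · exact ⟨Or.inl a, Or.inr b⟩
  · exact ⟨Or.inr a, Or.inl b⟩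

include h1 h2 in
lemma Rl_left (α β : ℂ) : Relator.RightUnique (Function.swap (Rl G U α β)) := by
  rintro e x y ⟨a1, a2, a3, a4, a5⟩ ⟨b1, b2, b3, b4, b5⟩
  have e1 : x.2 = y.2 := a3.symm.trans b3
  have e2 : un (x.2 - x.1) = un (y.2 - y.1) := by
    rw [e1] at a5 ⊢
    rcases a5 with ⟨a, b, c⟩ | ⟨a, b, ⟨c, d⟩ | ⟨c, d⟩⟩ <;>
      rcases b5 with ⟨a', b', c'⟩ | ⟨a', b', ⟨c', d'⟩ | ⟨c', d'⟩⟩ <;>
      first | omega | exact b.symm.trans b' | exact c.trans c'.symm |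
        exact absurd (d.symm.trans d') b | exact absurd (d'.symm.trans d) b
  refine Prod.ext (dinj h1 h2 x.2 _ _ a1.symm (e1 ▸ b1.symm) ?_) e1
  rw [← neg_sub, un_neg, e2, e1, ← un_neg, neg_sub]

lemma mono {α β : ℂ} (c : ℂ) (ha : 0 ≤ (α * c).re) (hb : 0 ≤ (β * c).re) {x y : ℂ × ℂ}
    (h : Relation.ReflTransGen (Rl G U α β) x y) :
    x = y ∨ ((x.2 - x.1) * c).re ≤ ((y.1 - x.1) * c).re := by
  induction h with
  | refl => exact Or.inl rfl
  | @tail y z _ hz ih =>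
    right
    have k : 0 ≤ ((y.2 - y.1) * c).re := by
      rw [un_eq (y.2 - y.1), mul_assoc, re_ofReal_mul]
      rcases (Rl_dir hz).1 with e | e <;> rw [e] <;> positivity
    rw [hz.2.2.1]
    rcases ih with rfl | ih
    · exact le_rfl
    · have : (y.2 - x.1) * c = (y.2 - y.1) * c + (y.1 - x.1) * c := by ring
      rw [this, add_re]; linarith

include h1 in
lemma term2 {α β : ℂ} (c : ℂ) (ha : 0 < (α * c).re) (hb : 0 < (β * c).re) (x : ℂ × ℂ)
    (hx : G.Adj x.1 x.2) (hd : un (x.2 - x.1) = α ∨ un (x.2 - x.1) = β) :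
    ∃ t, Relation.ReflTransGen (Rl G U α β) x t ∧ G.Adj t.1 t.2 ∧
      (un (t.2 - t.1) = α ∨ un (t.2 - t.1) = β) ∧ ∀ s, ¬ Rl G U α β t s := by
  have inv : ∀ t, Relation.ReflTransGen (Rl G U α β) x t → G.Adj t.1 t.2 ∧
      (un (t.2 - t.1) = α ∨ un (t.2 - t.1) = β) := fun t h => by
    induction h with
    | refl => exact ⟨hx, hd⟩
    | tail _ hz _ => exact ⟨hz.2.1, (Rl_dir hz).2⟩
  obtain ⟨t, ht, hm⟩ := Set.exists_max_image {t | Relation.ReflTransGen (Rl G U α β) x t}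
    (fun t => (t.2 * c).re) ((V.finite_toSet.prod V.finite_toSet).subset
      fun t h => h1 _ _ (inv t h).1) ⟨x, Relation.ReflTransGen.refl⟩
  refine ⟨t, ht, (inv t ht).1, (inv t ht).2, fun s hs => ?_⟩
  have := hm s (Relation.ReflTransGen.tail ht hs)
  have k : 0 < ((s.2 - s.1) * c).re := by
    have n0 : 0 < ‖s.2 - s.1‖ := norm_pos_iff.2 (sub_ne_zero.2 hs.2.1.ne')
    rw [un_eq (s.2 - s.1), mul_assoc, re_ofReal_mul]
    rcases (Rl_dir hs).2 with e | e <;> rw [e] <;> positivity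
  rw [hs.2.2.1, sub_mul, sub_re] at k
  linarith

end

end Pool.Agent.H68.Gn
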