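import Pool.Agent.H68.Gm1

set_option autoImplicit false

namespace Pool.Agent.H68.Gn

open Complex Set Classical

section
variable {V U : Finset ℂ} {G : SimpleGraph ℂ} (h1 : ∀ a b : ℂ, G.Adj a b → a ∈ V ∧ b ∈ V)
  (h2 : ∀ a b v : ℂ, G.Adj a b → v ∈ V → v ∈ segment ℝ a b → v = a ∨ v = b)
  (h3 : ∀ v ∈ V, v ∉ U → ((G.neighborSet v).ncard = 3 ∨ (G.neighborSet v).ncard = 4) ∧
    (∑ᶠ w ∈ G.neighborSet v, (w - v) / ((‖w - v‖ : ℝ) : ℂ)) = 0)

noncomputable def pat (V : Finset ℂ) (G : SimpleGraph ℂ) (e v : ℂ) : Finset ℂ :=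
  (V.filter fun w => G.Adj v w ∧ un (w - v) ^ 6 = e ^ 6).image fun w => un (w - v) / e

include h1 h2 in
lemma pat_sum (e v : ℂ) (he : e ≠ 0) :
    ∑ w ∈ V.filter (fun w => G.Adj v w ∧ un (w - v) ^ 6 = e ^ 6), un (w - v) =
      e * ∑ z ∈ pat V G e v, z := by
  rw [pat, Finset.sum_image, Finset.mul_sum]
  · exact Finset.sum_congr rfl fun w _ => by field_simp
  · intro a ha b hb h
    simp only [Finset.coe_filter, mem_setOf_eq] at ha hb
    exact dinj h1 h2 v a b ha.2.1 hb.2.1 ((div_left_inj' he).1 h)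

include h1 h3 in
lemma pat_zero (e v : ℂ) (hv : v ∈ V) (hU : v ∉ U) : ∑ z ∈ pat V G e v, z = 0 := by
  obtain ⟨l, l0, l1, l6, hl⟩ : ∃ l : ℂ, l ≠ 0 ∧ l ≠ 1 ∧ l ^ 6 = 1 ∧
      ∀ w, G.Adj v w → ∃ x, G.Adj v x ∧ un (x - v) = l * un (w - v) := by
    rcases (h3 v hv hU).1 with d | d
    · refine ⟨-om, ?_, ?_, ?_, fun w hw => ?_⟩
      · intro h; have := congrArg re h; simp [om] at this
      · intro h; have := congrArg re h; simp [om] at this; norm_num at this
      · have : om * om - om + 1 = 0 := by linear_combination om * oma - omm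
        linear_combination (om ^ 4 + om ^ 3 - om - 1) * this
      · obtain ⟨x, a, b⟩ := (deg3 h1 h3 v w hw hU d).1
        exact ⟨x, a, by rw [b]; ring⟩
    · refine ⟨-1, by norm_num, by norm_num, by norm_num, fun w hw => ?_⟩
      obtain ⟨x, a, b⟩ := deg4 h1 h3 v w hw hU d
      exact ⟨x, a, by rw [b]; ring⟩
  have inj : Function.Injective fun z : ℂ => l * z := mul_right_injective₀ l0
  have e1 : (pat V G e v).image (fun z => l * z) = pat V G e v := by
    refine Finset.eq_of_subset_of_card_le (fun z hz => ?_) (by rw [Finset.card_image_of_injective _ inj])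
    simp only [pat, Finset.mem_image, Finset.mem_filter] at hz ⊢
    obtain ⟨_, ⟨w, ⟨-, a, b⟩, rfl⟩, rfl⟩ := hz
    obtain ⟨x, c, d⟩ := hl w a
    exact ⟨x, ⟨(h1 _ _ c).2, c, by rw [d, mul_pow, l6, one_mul, b]⟩, by rw [d]; ring⟩
  have e2 : ∑ z ∈ pat V G e v, z = l * ∑ z ∈ pat V G e v, z := by
    conv_lhs => rw [← e1, Finset.sum_image fun a _ b _ h => inj h]
    rw [Finset.mul_sum]
  have : (l - 1) * ∑ z ∈ pat V G e v, z = 0 := by linear_combination -e2
  exact (mul_eq_zero.1 this).resolve_left (sub_ne_zero.2 l1)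

include h1 h2 h3 in
lemma torque (hU : U ⊆ V) (u w : ℂ) (h : G.Adj u w) : ∃ r : ℝ, 0 < r ∧
    (starRingEnd ℂ) (un (w - u)) *
      ∑ v ∈ U, (starRingEnd ℂ) (∑ z ∈ pat V G (un (w - u)) v, z) * v = -r := by
  have he : un (w - u) ≠ 0 := fun e => by
    have := un_norm _ (sub_ne_zero.2 h.ne'); rw [e] at this; simp at this
  obtain ⟨e, hE⟩ : ∃ e, e = un (w - u) := ⟨_, rfl⟩
  rw [← hE] at he ⊢
  have a1 : (starRingEnd ℂ) e * ∑ v ∈ U, (starRingEnd ℂ) (∑ z ∈ pat V G e v, z) * v =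
      ∑ v ∈ V, ∑ x ∈ V, if G.Adj v x ∧ un (x - v) ^ 6 = e ^ 6 then
        (starRingEnd ℂ) (un (x - v)) * v else 0 := by
    rw [Finset.sum_subset hU fun v hv hv' => by rw [pat_zero h1 h3 e v hv hv']; simp, Finset.mul_sum]
    refine Finset.sum_congr rfl fun v _ => ?_
    rw [← mul_assoc, ← map_mul, ← pat_sum h1 h2 e v he, map_sum, Finset.sum_mul, Finset.sum_filter]
  have a2 : (∑ v ∈ V, ∑ x ∈ V, if G.Adj v x ∧ un (x - v) ^ 6 = e ^ 6 then
        (starRingEnd ℂ) (un (x - v)) * v else 0) =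
      ∑ v ∈ V, ∑ x ∈ V, if G.Adj v x ∧ un (x - v) ^ 6 = e ^ 6 then
        -((starRingEnd ℂ) (un (x - v)) * x) else 0 := by
    rw [Finset.sum_comm]
    refine Finset.sum_congr rfl fun v _ => Finset.sum_congr rfl fun x _ => ?_
    rw [← neg_sub x v, un_neg, G.adj_comm, Even.neg_pow (by decide), map_neg, neg_mul]
  refine ⟨(∑ v ∈ V, ∑ x ∈ V, if G.Adj v x ∧ un (x - v) ^ 6 = e ^ 6 then ‖x - v‖ else 0) / 2, ?_, ?_⟩
  · refine half_pos (Finset.sum_pos' (fun v _ => Finset.sum_nonneg fun x _ => by positivity)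
      ⟨u, (h1 _ _ h).1, Finset.sum_pos' (fun x _ => by positivity) ⟨w, (h1 _ _ h).2, ?_⟩⟩)
    rw [if_pos ⟨h, by rw [hE]⟩]
    exact norm_pos_iff.2 (sub_ne_zero.2 h.ne')
  · have a3 : (∑ v ∈ V, ∑ x ∈ V, if G.Adj v x ∧ un (x - v) ^ 6 = e ^ 6 then
        (starRingEnd ℂ) (un (x - v)) * v else 0) + (∑ v ∈ V, ∑ x ∈ V,
        if G.Adj v x ∧ un (x - v) ^ 6 = e ^ 6 then -((starRingEnd ℂ) (un (x - v)) * x) else 0) =
        -((∑ v ∈ V, ∑ x ∈ V, if G.Adj v x ∧ un (x - v) ^ 6 = e ^ 6 then ‖x - v‖ else 0 : ℝ) : ℂ) := by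
      push_cast
      rw [← Finset.sum_add_distrib, ← Finset.sum_neg_distrib]
      refine Finset.sum_congr rfl fun v _ => ?_
      rw [← Finset.sum_add_distrib, ← Finset.sum_neg_distrib]
      refine Finset.sum_congr rfl fun x _ => ?_
      split_ifs with c
      · have k := cj _ (un_norm _ (sub_ne_zero.2 c.1.ne'))
        have k2 := un_eq (x - v)
        generalize un (x - v) = d at *
        linear_combination -(starRingEnd ℂ) d * k2 - (‖x - v‖ : ℝ) * k
      · simp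
    rw [a1]
    push_cast at a3 ⊢
    linear_combination (a2 + a3) / 2

noncomputable def dU (V U : Finset ℂ) (G : SimpleGraph ℂ) : Finset (ℂ × ℂ) :=
  (V ×ˢ V).filter fun t => G.Adj t.1 t.2 ∧ t.2 ∈ U

include h1 h2 h3 in
lemma dU_card (hU : U ⊆ V) : (dU V U G).card ≤ U.card * 64 ^ U.card := by
  let μ := Polynomial.nthRootsFinset 6 (1 : ℂ)
  have hμ : μ.card ≤ 6 := (Multiset.toFinset_card_le _).trans (Polynomial.card_nthRoots 6 1)
  refine (Finset.card_le_card_of_injOn (t := U ×ˢ U.pi fun _ => μ.powerset)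
    (fun t => (t.2, fun v _ => pat V G (un (t.1 - t.2)) v)) (fun t ht => ?_)
    fun t ht t' ht' e => ?_).trans ?_
  · simp only [dU, Finset.coe_filter, mem_setOf_eq] at ht
    have he : un (t.1 - t.2) ≠ 0 := fun e => by
      have := un_norm _ (sub_ne_zero.2 ht.2.1.ne); rw [e] at this; simp at this
    simp only [Finset.coe_product, mem_prod, Finset.mem_coe, Finset.mem_pi, Finset.mem_powerset]
    refine ⟨ht.2.2, fun v _ z hz => ?_⟩
    simp only [pat, Finset.mem_image, Finset.mem_filter] at hz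
    obtain ⟨w, ⟨-, -, b⟩, rfl⟩ := hz
    rw [Polynomial.mem_nthRootsFinset (by norm_num), div_pow, b, div_self (pow_ne_zero _ he)]
  · simp only [dU, Finset.coe_filter, mem_setOf_eq] at ht ht'
    obtain ⟨e1, e2⟩ := Prod.mk.inj e
    obtain ⟨r, r0, a⟩ := torque h1 h2 h3 hU _ _ ht.2.1.symm
    obtain ⟨r', r0', a'⟩ := torque h1 h2 h3 hU _ _ ht'.2.1.symm
    rw [Finset.sum_congr rfl fun v hv => by rw [congrFun (congrFun e2 v) hv]] at a
    have n1 := un_norm _ (sub_ne_zero.2 ht.2.1.ne)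
    have n2 := un_norm _ (sub_ne_zero.2 ht'.2.1.ne)
    have b := congrArg norm a
    have b' := congrArg norm a'
    rw [norm_mul, norm_conj, norm_neg, norm_real, Real.norm_eq_abs, abs_of_pos (by assumption)] at b b'
    rw [n1, one_mul] at b
    rw [n2, one_mul] at b'
    have W0 := norm_pos_iff.1 (b ▸ r0)
    rw [← b, b', ← a'] at a
    have := (starRingEnd ℂ).injective (mul_right_cancel₀ W0 a)
    exact Prod.ext (dinj h1 h2 t.2 _ _ ht.2.1.symm (e1 ▸ ht'.2.1.symm) (by rw [this, e1])) e1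
  · rw [Finset.card_product, Finset.card_pi, Finset.prod_const, Finset.card_powerset]
    exact Nat.mul_le_mul_left _ (Nat.pow_le_pow_left
      ((Nat.pow_le_pow_right (by norm_num) hμ).trans (by norm_num)) _)

end

end Pool.Agent.H68.Gn
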