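import Pool.Agent.H68.Gm2

set_option autoImplicit false

namespace Pool.Agent.H68.Gn

open Complex Set Classical

section
variable {V U : Finset ℂ} {G : SimpleGraph ℂ} (h1 : ∀ a b : ℂ, G.Adj a b → a ∈ V ∧ b ∈ V)
  (h2 : ∀ a b v : ℂ, G.Adj a b → v ∈ V → v ∈ segment ℝ a b → v = a ∨ v = b)
  (h3 : ∀ v ∈ V, v ∉ U → ((G.neighborSet v).ncard = 3 ∨ (G.neighborSet v).ncard = 4) ∧
    (∑ᶠ w ∈ G.neighborSet v, (w - v) / ((‖w - v‖ : ℝ) : ℂ)) = 0)

lemma re_c (α w : ℂ) (hα : ‖α‖ = 1) (k : ℂ) : (α * w * (k * (starRingEnd ℂ) α)).re = (w * k).re := by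
  rw [show α * w * (k * (starRingEnd ℂ) α) = w * k by linear_combination w * k * cj α hα]

include h1 h3 in
lemma termU (α : ℂ) (hα : ‖α‖ = 1) (x : ℂ × ℂ) (hx : G.Adj x.1 x.2)
    (hd : un (x.2 - x.1) = α ∨ un (x.2 - x.1) = α * om) : ∃ t ∈ dU V U G,
      Relation.ReflTransGen (Rl G U α (α * om)) x t ∧
      (un (t.2 - t.1) = α ∨ un (t.2 - t.1) = α * om) := by
  obtain ⟨t, a, b, c, d⟩ := term2 (U := U) h1 (1 * (starRingEnd ℂ) α)
    (by rw [← mul_one α, map_mul, map_one, mul_one ((starRingEnd ℂ) α), re_c α 1 hα]; simp)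
    (by rw [re_c α om hα]; simp [om]) x hx hd
  refine ⟨t, Finset.mem_filter.2 ⟨Finset.mem_product.2 (h1 _ _ b), b, ?_⟩, a, c⟩
  by_contra hU
  have e : -un (t.1 - t.2) = un (t.2 - t.1) := by rw [← un_neg, neg_sub]
  have ne : α ≠ α * om := fun h => by
    have h0 : α ≠ 0 := by rintro rfl; simp at hα
    have := congrArg re ((mul_right_eq_self₀.1 h.symm).resolve_right h0)
    simp [om] at this
  rcases (h3 _ (h1 _ _ b).2 hU).1 with k | k
  · obtain ⟨⟨y, y1, y2⟩, z, z1, z2⟩ := deg3 h1 h3 _ _ b.symm hU k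
    rw [e] at y2 z2
    rcases c with c | c
    · exact d (t.2, y) ⟨b, y1, rfl, hU, Or.inr ⟨k, ne, Or.inl ⟨c, by rw [y2, c]⟩⟩⟩
    · exact d (t.2, z) ⟨b, z1, rfl, hU, Or.inr ⟨k, ne, Or.inr ⟨c, by
        rw [z2, c, mul_assoc, omm, mul_one]⟩⟩⟩
  · obtain ⟨y, y1, y2⟩ := deg4 h1 h3 _ _ b.symm hU k
    exact d (t.2, y) ⟨b, y1, rfl, hU, Or.inl ⟨k, y2.trans e, c⟩⟩

lemma strict {α β : ℂ} (c : ℂ) (ha : 0 ≤ (α * c).re) (hb : 0 ≤ (β * c).re) {x y : ℂ × ℂ}
    (h : Relation.ReflTransGen (Rl G U α β) x y) (hx : G.Adj x.1 x.2)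
    (h0 : 0 < (un (x.2 - x.1) * c).re) : x.1 = y.1 ∨ 0 < ((y.1 - x.1) * c).re := by
  rcases mono c ha hb h with rfl | k
  · exact Or.inl rfl
  · refine Or.inr (lt_of_lt_of_le ?_ k)
    have n0 : 0 < ‖x.2 - x.1‖ := norm_pos_iff.2 (sub_ne_zero.2 hx.ne')
    rw [un_eq (x.2 - x.1), mul_assoc, re_ofReal_mul]
    positivity

noncomputable def V3 (V U : Finset ℂ) (G : SimpleGraph ℂ) : Finset ℂ :=
  V.filter fun v => v ∉ U ∧ (G.neighborSet v).ncard = 3

include h1 h2 h3 in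
lemma V3_card : (V3 V U G).card ≤ (dU V U G).card * ((dU V U G).card * 2) := by
  have key : ∀ b ∈ V3 V U G, ∃ (α : ℂ) (x y tP tQ : ℂ × ℂ), ‖α‖ = 1 ∧ x.1 = b ∧ y.1 = b ∧
      G.Adj x.1 x.2 ∧ G.Adj y.1 y.2 ∧ un (x.2 - x.1) = α * om ∧ un (y.2 - y.1) = α * om' ∧
      tP ∈ dU V U G ∧ tQ ∈ dU V U G ∧ Relation.ReflTransGen (Rl G U α (α * om)) x tP ∧
      Relation.ReflTransGen (Rl G U (α * om') (α * om' * om)) y tQ ∧
      (un (tP.2 - tP.1) = α ∨ un (tP.2 - tP.1) = α * om) := by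
    intro b hb
    obtain ⟨-, hU, hd⟩ := Finset.mem_filter.1 hb
    obtain ⟨w, hw⟩ := nonempty_of_ncard_ne_zero (s := G.neighborSet b) (by omega)
    obtain ⟨⟨y, y1, y2⟩, -⟩ := deg3 h1 h3 b w hw hU hd
    have no : ‖om'‖ = 1 := nu _ (by simp only [om']; nlinarith [s3])
    have n1 : ‖un (w - b) * om'‖ = 1 := by
      rw [norm_mul, no, un_norm _ (sub_ne_zero.2 (G.ne_of_adj hw).symm), mul_one]
    have e1 : un (w - b) = un (w - b) * om' * om := by linear_combination -un (w - b) * omm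
    have e2 : un (y - b) = un (w - b) * om' * om' := by
      rw [y2]; linear_combination un (w - b) * omm - un (w - b) * (om' + 1) * oma + 0 * omm
    obtain ⟨tP, p1, p2, p3⟩ := termU h1 h3 _ n1 (b, w) hw (Or.inr e1)
    obtain ⟨tQ, q1, q2, -⟩ := termU h1 h3 (un (w - b) * om' * om') (by rw [norm_mul, n1, no, mul_one])
      (b, y) y1 (Or.inl e2)
    exact ⟨_, (b, w), (b, y), tP, tQ, n1, rfl, rfl, hw, y1, e1, e2, p1, q1, p2, q2, p3⟩
  choose! α x y tP tQ k1 k2 k3 k4 k5 k6 k7 k8 k9 k10 k11 k12 using key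
  refine (Finset.card_le_card_of_injOn (t := dU V U G ×ˢ (dU V U G ×ˢ (Finset.univ : Finset Bool)))
    (fun b => (tP b, tQ b, decide (un ((tP b).2 - (tP b).1) = α b))) (fun b hb => ?_)
    fun b hb b' hb' e => ?_).trans (by simp)
  · simp [k8 b hb, k9 b hb, Classical.em]
  simp only [Prod.mk.injEq, decide_eq_decide] at e
  obtain ⟨e1, e2, e3⟩ := e
  have o0 : om ≠ 0 := fun h => by have := omm; rw [h] at this; simp at this
  have ea : α b = α b' := by
    by_cases c : un ((tP b).2 - (tP b).1) = α b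
    · rw [← c, ← e3.1 c, e1]
    · have := (k12 b hb).resolve_left c
      have := (k12 b' hb').resolve_left fun h => c (e3.2 h)
      apply mul_right_cancel₀ o0
      simp_all
  have s0 : 0 < √3 := by positivity
  have sP : ∀ b ∈ V3 V U G, ∀ z, Relation.ReflTransGen (Rl G U (α b) (α b * om)) (x b) z →
      b = z.1 ∨ (0 < ((z.1 - b) * (1 * (starRingEnd ℂ) (α b))).re ∧
        0 < ((z.1 - b) * (-I * (starRingEnd ℂ) (α b))).re) := fun b hb z h => by
    have r := re_c (α b) 1 (k1 b hb)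
    simp only [mul_one] at r
    have a := strict (1 * (starRingEnd ℂ) (α b)) (by rw [r]; simp) (by rw [re_c _ _ (k1 b hb)]; simp [om])
      h (k4 b hb) (by rw [k6 b hb, re_c _ _ (k1 b hb)]; simp [om])
    have c := strict (-I * (starRingEnd ℂ) (α b)) (by rw [r]; simp)
      (by rw [re_c _ _ (k1 b hb)]; simp [om]; positivity)
      h (k4 b hb) (by rw [k6 b hb, re_c _ _ (k1 b hb)]; simp [om])
    rw [k2 b hb] at a c
    tauto
  have sQ : ∀ b ∈ V3 V U G, ∀ z,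
      Relation.ReflTransGen (Rl G U (α b * om') (α b * om' * om)) (y b) z →
      b = z.1 ∨ (0 < ((z.1 - b) * (1 * (starRingEnd ℂ) (α b))).re ∧
        0 < ((z.1 - b) * (I * (starRingEnd ℂ) (α b))).re) := fun b hb z h => by
    have r : α b * om' * om = α b * 1 := by linear_combination α b * omm
    have a := strict (1 * (starRingEnd ℂ) (α b)) (by rw [re_c _ _ (k1 b hb)]; simp [om'])
      (by rw [r, re_c _ _ (k1 b hb)]; simp)
      h (k5 b hb) (by rw [k7 b hb, re_c _ _ (k1 b hb)]; simp [om'])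
    have c := strict (I * (starRingEnd ℂ) (α b)) (by rw [re_c _ _ (k1 b hb)]; simp [om']; positivity)
      (by rw [r, re_c _ _ (k1 b hb)]; simp)
      h (k5 b hb) (by rw [k7 b hb, re_c _ _ (k1 b hb)]; simp [om'])
    rw [k3 b hb] at a c
    tauto
  have P' := k10 b' hb'
  have Q' := k11 b' hb'
  rw [← e1, ← ea] at P'
  rw [← e2, ← ea] at Q'
  have tp := Relation.ReflTransGen.total_of_right_unique (Rl_left h1 h2 _ _)
    (Relation.reflTransGen_swap.2 (k10 b hb)) (Relation.reflTransGen_swap.2 P')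
  have tq := Relation.ReflTransGen.total_of_right_unique (Rl_left h1 h2 _ _)
    (Relation.reflTransGen_swap.2 (k11 b hb)) (Relation.reflTransGen_swap.2 Q')
  have p1 := fun h => sP b hb (x b') h
  have p2 := fun h => sP b' hb' (x b) h
  have q1 := fun h => sQ b hb (y b') h
  have q2 := fun h => sQ b' hb' (y b) h
  rw [← ea] at p2 q2
  rw [k2 b' hb'] at p1
  rw [k2 b hb] at p2
  rw [k3 b' hb'] at q1
  rw [k3 b hb] at q2
  by_contra hne
  have hne' : ¬ b' = b := fun h => hne h.symm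
  simp only [hne, hne', false_or, sub_mul, neg_mul, mul_neg, sub_re, neg_re] at p1 p2 q1 q2
  rcases tp with a | a <;> rcases tq with c | c
  · linarith [(p2 (Relation.reflTransGen_swap.1 a)).2, (q2 (Relation.reflTransGen_swap.1 c)).2]
  · linarith [(p2 (Relation.reflTransGen_swap.1 a)).1, (q1 (Relation.reflTransGen_swap.1 c)).1]
  · linarith [(p1 (Relation.reflTransGen_swap.1 a)).1, (q2 (Relation.reflTransGen_swap.1 c)).1]
  · linarith [(p1 (Relation.reflTransGen_swap.1 a)).2, (q1 (Relation.reflTransGen_swap.1 c)).2]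

noncomputable def dE (V U : Finset ℂ) (G : SimpleGraph ℂ) : Finset (ℂ × ℂ) :=
  dU V U G ∪ (V3 V U G).biUnion fun v => (V.filter (G.Adj v)).image fun w => (w, v)

include h1 in
lemma dE_card : (dE V U G).card ≤ (dU V U G).card + (V3 V U G).card * 3 := by
  refine (Finset.card_union_le _ _).trans (Nat.add_le_add_left
    (Finset.card_biUnion_le_card_mul _ _ _ fun v hv => Finset.card_image_le.trans ?_) _)
  rw [← (Finset.mem_filter.1 hv).2.2, ← ncard_coe_finset]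
  refine le_of_eq (congrArg _ ?_)
  ext w; simp only [Finset.coe_filter, mem_setOf_eq, SimpleGraph.mem_neighborSet]
  exact ⟨fun h => h.2, fun h => ⟨(h1 _ _ h).2, h⟩⟩

include h1 h3 in
lemma termE (v w : ℂ) (hx : G.Adj v w) : ∃ t ∈ dE V U G, un (t.2 - t.1) = un (w - v) ∧
    ∃ s : ℝ, t.2 - v = s * un (w - v) := by
  have n := un_norm _ (sub_ne_zero.2 hx.ne')
  have r := re_c (un (w - v)) 1 n 1
  rw [mul_one] at r
  obtain ⟨t, a, b, c, d⟩ := term2 (U := U) (α := un (w - v)) (β := un (w - v)) h1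
    (1 * (starRingEnd ℂ) (un (w - v))) (by rw [r]; simp) (by rw [r]; simp) (v, w) hx (Or.inl rfl)
  refine ⟨t, ?_, c.elim id id, ?_⟩
  · by_cases hU : t.2 ∈ U
    · exact Finset.mem_union_left _ (Finset.mem_filter.2 ⟨Finset.mem_product.2 (h1 _ _ b), b, hU⟩)
    rcases (h3 _ (h1 _ _ b).2 hU).1 with k | k
    · exact Finset.mem_union_right _ (Finset.mem_biUnion.2 ⟨t.2, Finset.mem_filter.2
        ⟨(h1 _ _ b).2, hU, k⟩, Finset.mem_image.2 ⟨t.1, Finset.mem_filter.2 ⟨(h1 _ _ b).1, b.symm⟩, rfl⟩⟩)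
    · obtain ⟨y, y1, y2⟩ := deg4 h1 h3 _ _ b.symm hU k
      exact absurd ⟨b, y1, rfl, hU, Or.inl ⟨k, y2.trans (by rw [← un_neg, neg_sub]), c⟩⟩ (d (t.2, y))
  · clear b c d
    induction a with
    | refl => exact ⟨_, un_eq _⟩
    | @tail y z _ hz ih =>
      obtain ⟨s, hs⟩ := ih
      have := un_eq (z.2 - z.1)
      rw [(Rl_dir hz).2.elim id id] at this
      refine ⟨s + ‖z.2 - z.1‖, ?_⟩
      have e := hz.2.2.1
      push_cast
      linear_combination hs + this + e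

include h1 h2 h3 in
lemma V4_card : (V.filter fun v => v ∉ U ∧ (G.neighborSet v).ncard = 4).card ≤
    (dE V U G).card * (dE V U G).card := by
  have key : ∀ v ∈ V.filter fun v => v ∉ U ∧ (G.neighborSet v).ncard = 4, ∃ t t' : ℂ × ℂ,
      t ∈ dE V U G ∧ t' ∈ dE V U G ∧ ‖un (t.2 - t.1)‖ = 1 ∧ ‖un (t'.2 - t'.1)‖ = 1 ∧
      un (t'.2 - t'.1) ≠ un (t.2 - t.1) ∧ un (t'.2 - t'.1) ≠ -un (t.2 - t.1) ∧
      (∃ s : ℝ, t.2 - v = s * un (t.2 - t.1)) ∧ ∃ s : ℝ, t'.2 - v = s * un (t'.2 - t'.1) := by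
    intro v hv
    obtain ⟨-, hU, hd⟩ := Finset.mem_filter.1 hv
    obtain ⟨w, hw⟩ := nonempty_of_ncard_ne_zero (s := G.neighborSet v) (by omega)
    obtain ⟨y, y1, y2⟩ := deg4 h1 h3 v w hw hU hd
    obtain ⟨z, z1, z2⟩ : ∃ z ∈ G.neighborSet v, z ∉ ({w, y} : Set ℂ) := by
      refine exists_mem_notMem_of_ncard_lt_ncard ?_
      rw [hd]; exact (ncard_insert_le _ _).trans_lt (by simp)
    simp only [mem_insert_iff, mem_singleton_iff, not_or] at z2
    obtain ⟨t, a1, a2, a3⟩ := termE h1 h3 v w hw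
    obtain ⟨t', b1, b2, b3⟩ := termE h1 h3 v z z1
    refine ⟨t, t', a1, b1, ?_⟩
    rw [a2, b2]
    exact ⟨un_norm _ (sub_ne_zero.2 (G.ne_of_adj hw).symm), un_norm _ (sub_ne_zero.2 (G.ne_of_adj z1).symm),
      fun e => z2.1 (dinj h1 h2 v _ _ z1 hw e), fun e => z2.2 (dinj h1 h2 v _ _ z1 y1 (e.trans y2.symm)),
      a3, b3⟩
  choose! t t' k1 k2 k3 k4 k5 k6 k7 k8 using key
  refine (Finset.card_le_card_of_injOn (t := dE V U G ×ˢ dE V U G) (fun v => (t v, t' v))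
    (fun v hv => by simp [k1 v hv, k2 v hv]) fun v hv v' hv' e => ?_).trans (by simp)
  obtain ⟨e1, e2⟩ := Prod.mk.inj e
  obtain ⟨s1, a1⟩ := k7 v hv
  obtain ⟨s2, a2⟩ := k8 v hv
  obtain ⟨s3, a3⟩ := k7 v' hv'
  obtain ⟨s4, a4⟩ := k8 v' hv'
  rw [← e1] at a3
  rw [← e2] at a4
  have b : ((s1 - s3 : ℝ) : ℂ) * un ((t v).2 - (t v).1) = (s2 - s4 : ℝ) * un ((t' v).2 - (t' v).1) := by
    push_cast; linear_combination a3 - a1 + a2 - a4
  have c := congrArg norm b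
  rw [norm_mul, norm_mul, k3 v hv, k4 v hv, norm_real, norm_real, mul_one, mul_one,
    Real.norm_eq_abs, Real.norm_eq_abs, abs_eq_abs] at c
  by_cases z : s1 = s3
  · rw [z] at a1; linear_combination a3 - a1
  have z' : ((s1 - s3 : ℝ) : ℂ) ≠ 0 := by exact_mod_cast sub_ne_zero.2 z
  exfalso
  rcases c with c | c
  · rw [← c] at b; exact k5 v hv (mul_left_cancel₀ z' b).symm
  · rw [show s2 - s4 = -(s1 - s3) by linarith] at b
    apply k6 v hv
    apply mul_left_cancel₀ z'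
    push_cast at b ⊢
    linear_combination b

end

end Pool.Agent.H68.Gn
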