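import Mathlib

set_option autoImplicit false

namespace Pool.Agent.H68.Gn

open Set

noncomputable def un (v : ℂ) : ℂ := v / ((‖v‖ : ℝ) : ℂ)

lemma un_smul (t : ℝ) (ht : 0 < t) (v : ℂ) : un (t * v) = un v := by
  have : (t : ℂ) ≠ 0 := by exact_mod_cast ht.ne'
  rw [un, un, norm_mul, Complex.norm_real, Real.norm_eq_abs, abs_of_pos ht]
  push_cast
  rw [mul_div_mul_left _ _ this]

lemma un_neg (v : ℂ) : un (-v) = -un v := by rw [un, un, norm_neg, neg_div]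

lemma seg_iff (a b x : ℂ) : x ∈ segment ℝ a b ↔ ∃ t : ℝ, 0 ≤ t ∧ t ≤ 1 ∧ x = a + t * (b - a) := by
  rw [segment_eq_image']
  constructor
  · rintro ⟨t, ht, rfl⟩; exact ⟨t, ht.1, ht.2, by simp⟩
  · rintro ⟨t, h1, h2, rfl⟩; exact ⟨t, ⟨h1, h2⟩, by simp⟩

/-- between-ness along a line -/
lemma mem_par (a d : ℂ) (r s t : ℝ) (h1 : r ≤ t) (h2 : t ≤ s) :
    a + t * d ∈ segment ℝ (a + r * d) (a + s * d) := by
  rcases (h1.trans h2).eq_or_lt with h | h
  · have : t = r := by linarith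
    rw [this]; exact left_mem_segment _ _ _
  · have h0 : s - r ≠ 0 := by linarith
    have h0' : (s : ℂ) - r ≠ 0 := by exact_mod_cast h0
    refine (seg_iff _ _ _).2 ⟨(t - r) / (s - r), div_nonneg (by linarith) (by linarith),
      (div_le_one (by linarith)).2 (by linarith), ?_⟩
    push_cast; field_simp; ring

lemma mem_par' (a d : ℂ) (r s t : ℝ) (h1 : r ≤ t) (h2 : t ≤ s) :
    a + t * d ∈ segment ℝ (a + s * d) (a + r * d) := by
  rw [segment_symm]; exact mem_par a d r s t h1 h2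

lemma par_mem (a d : ℂ) (hd : d ≠ 0) (r s t : ℝ)
    (h : a + t * d ∈ segment ℝ (a + r * d) (a + s * d)) : (r ≤ t ∧ t ≤ s) ∨ (s ≤ t ∧ t ≤ r) := by
  obtain ⟨u, h1, h2, e⟩ := (seg_iff _ _ _).1 h
  have : (t : ℂ) = r + u * (s - r) := by
    apply mul_right_cancel₀ hd; linear_combination e
  have e' : t = r + u * (s - r) := by exact_mod_cast this
  rcases le_total r s with h | h
  · left; constructor <;> nlinarith
  · right; constructor <;> nlinarith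

section
variable {ι : Type} [Fintype ι] (A B : ι → ℂ)

def vs : Set ℂ := range A ∪ range B ∪
  ⋃ i, ⋃ j, ⋃ (_ : i ≠ j), (segment ℝ (A i) (B i) ∩ segment ℝ (A j) (B j))

def gr : SimpleGraph ℂ where
  Adj v w := v ≠ w ∧ v ∈ vs A B ∧ w ∈ vs A B ∧ (∃ i, v ∈ segment ℝ (A i) (B i) ∧
    w ∈ segment ℝ (A i) (B i)) ∧ ∀ x ∈ vs A B, x ∈ segment ℝ v w → x = v ∨ x = w
  symm := ⟨fun _ _ ⟨h1, h2, h3, ⟨i, h4, h5⟩, h6⟩ => ⟨h1.symm, h3, h2, ⟨i, h5, h4⟩,
    fun x hx hs => (h6 x hx (by rwa [segment_symm])).symm⟩⟩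
  loopless := ⟨fun _ h => h.1 rfl⟩

variable (hne : ∀ i, A i ≠ B i)
  (hs : ∀ i j, i ≠ j → (segment ℝ (A i) (B i) ∩ segment ℝ (A j) (B j)).Subsingleton)

include hs in
lemma vs_fin : (vs A B).Finite :=
  ((finite_range A).union (finite_range B)).union (finite_iUnion fun i => finite_iUnion fun j =>
    finite_iUnion fun h => (hs i j h).finite)

omit [Fintype ι] in
include hne in
lemma cross (a b c d : ℂ) (h1 : (gr A B).Adj a b) (h2 : (gr A B).Adj c d)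
    (hn : ¬ ((a = c ∧ b = d) ∨ (a = d ∧ b = c))) :
    ∀ x ∈ segment ℝ a b ∩ segment ℝ c d, (x = a ∨ x = b) ∧ (x = c ∨ x = d) := by
  have aux : ∀ a b c d : ℂ, (gr A B).Adj a b → (gr A B).Adj c d →
      ¬ ((a = c ∧ b = d) ∨ (a = d ∧ b = c)) →
      ∀ x ∈ segment ℝ a b ∩ segment ℝ c d, (x = a ∨ x = b) := by
    rintro a b c d ⟨ab, va, vb, ⟨i, ai, bi⟩, m1⟩ ⟨cd, vc, vd, ⟨j, cj, dj⟩, m2⟩ hn x ⟨x1, x2⟩
    have xi := (convex_segment _ _).segment_subset ai bi x1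
    have xj := (convex_segment _ _).segment_subset cj dj x2
    by_cases hij : i = j
    swap
    · exact m1 x (Or.inr (mem_iUnion.2 ⟨i, mem_iUnion.2 ⟨j, mem_iUnion.2 ⟨hij, xi, xj⟩⟩⟩)) x1
    subst hij
    have hd : B i - A i ≠ 0 := sub_ne_zero.2 (hne i).symm
    obtain ⟨ta, -, -, rfl⟩ := (seg_iff _ _ _).1 ai
    obtain ⟨tb, -, -, rfl⟩ := (seg_iff _ _ _).1 bi
    obtain ⟨tc, -, -, rfl⟩ := (seg_iff _ _ _).1 cj
    obtain ⟨td, -, -, rfl⟩ := (seg_iff _ _ _).1 dj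
    obtain ⟨t, -, -, rfl⟩ := (seg_iff _ _ _).1 xi
    have p1 := par_mem _ _ hd _ _ _ x1
    have p2 := par_mem _ _ hd _ _ _ x2
    generalize B i - A i = D at *
    generalize A i = O at *
    have inj : ∀ r s : ℝ, O + r * D = O + s * D ↔ r = s := fun r s =>
      ⟨fun h => by exact_mod_cast mul_right_cancel₀ hd (add_left_cancel h), fun h => by rw [h]⟩
    have q1 : ∀ r : ℝ, O + r * D ∈ vs A B → (ta ≤ r ∧ r ≤ tb) ∨ (tb ≤ r ∧ r ≤ ta) →
        r = ta ∨ r = tb := fun r hr h => by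
      rw [← inj, ← inj r tb]
      exact m1 _ hr (h.elim (fun h => mem_par _ _ _ _ _ h.1 h.2) fun h => mem_par' _ _ _ _ _ h.1 h.2)
    have q2 : ∀ r : ℝ, O + r * D ∈ vs A B → (tc ≤ r ∧ r ≤ td) ∨ (td ≤ r ∧ r ≤ tc) →
        r = tc ∨ r = td := fun r hr h => by
      rw [← inj, ← inj r td]
      exact m2 _ hr (h.elim (fun h => mem_par _ _ _ _ _ h.1 h.2) fun h => mem_par' _ _ _ _ _ h.1 h.2)
    have a1 := q1 tc vc
    have a2 := q1 td vd
    have a3 := q2 ta va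
    have a4 := q2 tb vb
    simp only [inj, ne_eq] at *
    grind
  intro x hx
  exact ⟨aux a b c d h1 h2 hn x hx, aux c d a b h2 h1 (by tauto) x ⟨hx.2, hx.1⟩⟩

def tg (h : ι × Bool) : ℂ := if h.2 then B h.1 else A h.1

omit [Fintype ι] in
lemma tg_mem (h : ι × Bool) : tg A B h ∈ vs A B ∧ tg A B h ∈ segment ℝ (A h.1) (B h.1) := by
  unfold tg; split_ifs
  · exact ⟨Or.inl (Or.inr ⟨_, rfl⟩), right_mem_segment _ _ _⟩
  · exact ⟨Or.inl (Or.inl ⟨_, rfl⟩), left_mem_segment _ _ _⟩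

include hs in
lemma near (v : ℂ) (hv : v ∈ vs A B) (h : ι × Bool) (h1 : v ∈ segment ℝ (A h.1) (B h.1))
    (h2 : v ≠ tg A B h) : ∃ w, (gr A B).Adj v w ∧ (∃ t : ℝ, 0 < t ∧ t ≤ 1 ∧
      w = v + t * (tg A B h - v)) ∧
      ∀ w', (gr A B).Adj v w' → w' ∈ segment ℝ v (tg A B h) → w' = w := by
  have hd : tg A B h - v ≠ 0 := sub_ne_zero.2 h2.symm
  have fin : {t : ℝ | 0 < t ∧ t ≤ 1 ∧ v + t * (tg A B h - v) ∈ vs A B}.Finite := by
    refine ((vs_fin A B hs).preimage (f := fun t : ℝ => v + t * (tg A B h - v))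
      fun r _ s _ e => ?_).subset fun t ht => ht.2.2
    exact_mod_cast mul_right_cancel₀ hd (add_left_cancel e)
  obtain ⟨t, ⟨t1, t2, t3⟩, hm⟩ := fin.exists_minimal ⟨1, one_pos, le_rfl, by
    simpa using (tg_mem A B h).1⟩
  have hm' : ∀ s : ℝ, 0 < s → s ≤ 1 → v + s * (tg A B h - v) ∈ vs A B → t ≤ s := fun s a b c =>
    (le_total t s).elim id fun e => hm ⟨a, b, c⟩ e
  have ne : ∀ s : ℝ, 0 < s → v ≠ v + s * (tg A B h - v) := fun s hs e => by
    have : (s : ℂ) * (tg A B h - v) = 0 := by linear_combination -e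
    exact mul_ne_zero (by exact_mod_cast hs.ne') hd this
  refine ⟨_, ⟨ne t t1, hv, t3, ⟨h.1, h1, (convex_segment _ _).segment_subset h1 (tg_mem A B h).2
    ((seg_iff _ _ _).2 ⟨t, t1.le, t2, rfl⟩)⟩, fun x hx hs => ?_⟩, ⟨t, t1, t2, rfl⟩,
    fun w' hw hs => ?_⟩
  · obtain ⟨s, s1, s2, rfl⟩ := (seg_iff _ _ _).1 hs
    rcases s1.eq_or_lt with h0 | h0
    · left; simp [← h0]
    · right
      have := hm' (s * t) (by positivity) (by nlinarith) (by convert hx using 1; push_cast; ring)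
      have e : s = 1 := by nlinarith
      simp [e]
  · obtain ⟨s, s1, s2, rfl⟩ := (seg_iff _ _ _).1 hs
    have s0 : 0 < s := lt_of_le_of_ne s1 (by rintro rfl; exact hw.1 (by simp))
    have := mem_par v (tg A B h - v) 0 s t t1.le (hm' s s0 s2 hw.2.2.1)
    rw [Complex.ofReal_zero, zero_mul, add_zero] at this
    exact ((hw.2.2.2.2 _ t3 this).resolve_left (ne t t1).symm).symm

end

end Pool.Agent.H68.Gn
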