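import Pool.Agent.H68.Gn1

set_option autoImplicit false

namespace Pool.Agent.H68.Gn

open Set Classical

variable {ι : Type} [Fintype ι] (A B : ι → ℂ) (hne : ∀ i, A i ≠ B i)
  (hs : ∀ i j, i ≠ j → (segment ℝ (A i) (B i) ∩ segment ℝ (A j) (B j)).Subsingleton)

noncomputable def act (v : ℂ) : Finset (ι × Bool) :=
  Finset.univ.filter fun h => v ∈ segment ℝ (A h.1) (B h.1) ∧ v ≠ tg A B h

lemma mem_act (v : ℂ) (h : ι × Bool) :
    h ∈ act A B v ↔ v ∈ segment ℝ (A h.1) (B h.1) ∧ v ≠ tg A B h := by simp [act]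

include hne hs in
lemma bij (v : ℂ) (hv : v ∈ vs A B) : ∃ nb : ι × Bool → ℂ, InjOn nb (act A B v) ∧
    (gr A B).neighborSet v = nb '' (act A B v) ∧
    ∀ h ∈ act A B v, un (nb h - v) = un (tg A B h - v) := by
  have key := fun h (hh : h ∈ act A B v) =>
    near A B hs v hv h ((mem_act A B v h).1 hh).1 ((mem_act A B v h).1 hh).2
  choose! nb h1 h2 h3 using key
  have sg : ∀ h ∈ act A B v, nb h ∈ segment ℝ (A h.1) (B h.1) := fun h hh => by
    obtain ⟨t, t1, t2, e⟩ := h2 h hh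
    exact (convex_segment _ _).segment_subset ((mem_act A B v h).1 hh).1 (tg_mem A B h).2
      ((seg_iff _ _ _).2 ⟨t, t1.le, t2, e⟩)
  have opp : ∀ i, (i, true) ∈ act A B v → (i, false) ∈ act A B v → nb (i, true) ≠ nb (i, false) :=
    fun i a b e => by
      obtain ⟨t, t1, -, e1⟩ := h2 _ a
      obtain ⟨r, r1, -, e2⟩ := h2 _ b
      obtain ⟨m, m1⟩ := (mem_act A B v _).1 a
      obtain ⟨s, s1, s2, e3⟩ := (seg_iff _ _ _).1 m
      simp only [tg, if_true, Bool.false_eq_true, if_false] at *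
      have hd : B i - A i ≠ 0 := sub_ne_zero.2 (hne i).symm
      have : (t : ℂ) * (1 - s) + r * s = 0 := by
        apply mul_right_cancel₀ hd
        rw [e1, e2] at e
        linear_combination e + (t - r : ℂ) * e3
      have e4 : t * (1 - s) + r * s = 0 := by exact_mod_cast this
      have : s = 1 := by nlinarith [mul_nonneg r1.le s1]
      apply m1; rw [e3, this]; simp
  refine ⟨nb, fun h a h' b e => ?_, ?_, fun h hh => ?_⟩
  · by_cases hi : h.1 = h'.1
    · obtain ⟨i, x⟩ := h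
      obtain ⟨j, y⟩ := h'
      obtain rfl : i = j := hi
      cases x <;> cases y
      · rfl
      · exact absurd e.symm (opp i b a)
      · exact absurd e (opp i a b)
      · rfl
    · exact absurd (hs _ _ hi ⟨((mem_act A B v h).1 a).1, ((mem_act A B v h').1 b).1⟩
        ⟨sg h a, e ▸ sg h' b⟩) (h1 h a).1
  · ext w
    constructor
    · intro hw
      have hw' : (gr A B).Adj v w := hw
      obtain ⟨ne, -, -, ⟨i, vi, wi⟩, -⟩ := id hw'
      have hd : B i - A i ≠ 0 := sub_ne_zero.2 (hne i).symm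
      obtain ⟨s, s1, s2, e1⟩ := (seg_iff _ _ _).1 vi
      obtain ⟨r, r1, r2, e2⟩ := (seg_iff _ _ _).1 wi
      rcases lt_trichotomy r s with h | h | h
      · have a : (i, false) ∈ act A B v := (mem_act A B v _).2 ⟨vi, fun e => by
          have : (s : ℂ) * (B i - A i) = 0 := by
            simp only [tg, Bool.false_eq_true, if_false] at e; linear_combination e - e1
          exact mul_ne_zero (by exact_mod_cast (r1.trans_lt h).ne') hd this⟩
        refine ⟨_, a, (h3 _ a w hw' ?_).symm⟩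
        have := mem_par' (A i) (B i - A i) 0 s r r1 h.le
        rw [← e1, ← e2] at this
        simpa [tg] using this
      · exact absurd (by rw [e1, e2, h]) ne
      · have a : (i, true) ∈ act A B v := (mem_act A B v _).2 ⟨vi, fun e => by
          have : ((1 - s : ℝ) : ℂ) * (B i - A i) = 0 := by
            simp only [tg, if_true] at e; push_cast; linear_combination e1 - e
          exact mul_ne_zero (by exact_mod_cast (show 1 - s ≠ 0 by linarith)) hd this⟩
        refine ⟨_, a, (h3 _ a w hw' ?_).symm⟩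
        have := mem_par (A i) (B i - A i) s 1 r h.le r2
        rw [← e1, ← e2] at this
        simpa [tg] using this
    · rintro ⟨h, hh, rfl⟩; exact h1 h hh
  · obtain ⟨t, t1, -, e⟩ := h2 h hh
    rw [e, add_sub_cancel_left, un_smul t t1]

include hne in
omit [Fintype ι] in
lemma term (v : ℂ) (i : ι) :
    (if v ∈ segment ℝ (A i) (B i) ∧ v ≠ B i then un (B i - v) else 0) +
    (if v ∈ segment ℝ (A i) (B i) ∧ v ≠ A i then un (A i - v) else 0) =
    (if A i = v then un (B i - A i) else 0) - (if B i = v then un (B i - A i) else 0) := by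
  by_cases h1 : A i = v
  · subst h1; simp [left_mem_segment, hne i, (hne i).symm]
  by_cases h2 : B i = v
  · subst h2
    rw [← neg_sub (B i) (A i), un_neg]
    simp [right_mem_segment, hne i, (hne i).symm]
  by_cases h3 : v ∈ segment ℝ (A i) (B i)
  swap
  · simp [h1, h2, h3]
  obtain ⟨s, s1, s2, e⟩ := (seg_iff _ _ _).1 h3
  have s0 : 0 < s := lt_of_le_of_ne s1 (by rintro rfl; exact h1 (by simp [e]))
  have s3 : 0 < 1 - s := sub_pos.2 (lt_of_le_of_ne s2 (by rintro rfl; exact h2 (by simp [e])))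
  have e1 : B i - v = ((1 - s : ℝ) : ℂ) * (B i - A i) := by rw [e]; push_cast; ring
  have e2 : A i - v = (s : ℂ) * (-(B i - A i)) := by rw [e]; ring
  rw [if_pos ⟨h3, Ne.symm h2⟩, if_pos ⟨h3, Ne.symm h1⟩, if_neg h1, if_neg h2, e1, e2,
    un_smul _ s3, un_smul _ s0, un_neg]
  ring

include hne hs in
theorem planar : ∃ V : Finset ℂ, ∃ G : SimpleGraph ℂ,
    (∀ a b : ℂ, G.Adj a b → a ∈ V ∧ b ∈ V) ∧
    (∀ a b c d : ℂ, G.Adj a b → G.Adj c d → ¬ ((a = c ∧ b = d) ∨ (a = d ∧ b = c)) →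
      ∀ x ∈ segment ℝ a b ∩ segment ℝ c d, (x = a ∨ x = b) ∧ (x = c ∨ x = d)) ∧
    (∀ a b v : ℂ, G.Adj a b → v ∈ V → v ∈ segment ℝ a b → v = a ∨ v = b) ∧
    (∀ i, A i ∈ V ∧ B i ∈ V) ∧
    (∀ v ∈ V, (∑ᶠ w ∈ G.neighborSet v, (w - v) / ((‖w - v‖ : ℝ) : ℂ)) =
      ∑ i, ((if A i = v then un (B i - A i) else 0) - (if B i = v then un (B i - A i) else 0))) ∧
    (∀ v ∈ V, (∀ i, A i ≠ v ∧ B i ≠ v) → 3 ≤ (G.neighborSet v).ncard) ∧
    (∀ i j k, i ≠ j → i ≠ k → j ≠ k → A j = A i → A k = A i →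
      3 ≤ (G.neighborSet (A i)).ncard) := by
  have mv : ∀ v, v ∈ (vs_fin A B hs).toFinset ↔ v ∈ vs A B := fun v => Finite.mem_toFinset _
  have cd : ∀ v ∈ vs A B, ((gr A B).neighborSet v).ncard = (act A B v).card := fun v hv => by
    obtain ⟨nb, h1, h2, -⟩ := bij A B hne hs v hv
    rw [h2, h1.ncard_image, ncard_coe_finset]
  refine ⟨(vs_fin A B hs).toFinset, gr A B, fun a b h => ⟨(mv _).2 h.2.1, (mv _).2 h.2.2.1⟩,
    cross A B hne, fun a b v h hv => h.2.2.2.2 v ((mv _).1 hv),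
    fun i => ⟨(mv _).2 (tg_mem A B (i, false)).1, (mv _).2 (tg_mem A B (i, true)).1⟩,
    fun v hv => ?_, fun v hv h => ?_, fun i j k ij ik jk e1 e2 => ?_⟩
  · obtain ⟨nb, h1, h2, h3⟩ := bij A B hne hs v ((mv _).1 hv)
    rw [h2, finsum_mem_image h1, finsum_mem_coe_finset]
    refine (Finset.sum_congr rfl h3).trans ?_
    rw [act, Finset.sum_filter, Fintype.sum_prod_type]
    refine Finset.sum_congr rfl fun i _ => ?_
    rw [Fintype.sum_bool, ← term A B hne v i]
    simp [tg]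
  · rw [cd v ((mv _).1 hv)]
    rcases (mv _).1 hv with (⟨i, e⟩ | ⟨i, e⟩) | hv
    · exact absurd e (h i).1
    · exact absurd e (h i).2
    simp only [mem_iUnion] at hv
    obtain ⟨i, j, ij, vi, vj⟩ := hv
    refine Finset.two_lt_card_iff.2 ⟨(i, true), (i, false), (j, true), ?_, ?_, ?_, by simp, by simp [ij],
      by simp⟩ <;> rw [mem_act]
    · exact ⟨vi, (h i).2.symm⟩
    · exact ⟨vi, (h i).1.symm⟩
    · exact ⟨vj, (h j).2.symm⟩
  · rw [cd (A i) (tg_mem A B (i, false)).1]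
    refine Finset.two_lt_card_iff.2 ⟨(i, true), (j, true), (k, true), ?_, ?_, ?_, by simp [ij],
      by simp [ik], by simp [jk]⟩ <;> rw [mem_act]
    · exact ⟨left_mem_segment _ _ _, hne i⟩
    · exact ⟨e1 ▸ left_mem_segment _ _ _, e1 ▸ hne j⟩
    · exact ⟨e2 ▸ left_mem_segment _ _ _, e2 ▸ hne k⟩

end Pool.Agent.H68.Gn
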