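import Pool.Agent.H68.Gn1

set_option autoImplicit false

namespace Pool.Agent.H68.Gn

open Complex Metric

lemma dun (v : ℂ) (r : ℝ) (hr : 0 < r) (h : ‖v‖ = r) : ∃ L : ℂ →L[ℝ] ℂ,
    HasStrictFDerivAt un L v ∧ ∀ d : ℂ,
      L d = r⁻¹ • d - ((v.re * d.re + v.im * d.im) / r ^ 3) • v := by
  have e : √(v.re * v.re + v.im * v.im) = r := by
    rw [← h, norm_eq_sqrt_sq_add_sq, pow_two, pow_two]
  have h0 : v.re * v.re + v.im * v.im ≠ 0 := fun h0 => by rw [h0] at e; simp at e; linarith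
  have h1 := ((reCLM.hasStrictFDerivAt (x := v)).mul reCLM.hasStrictFDerivAt).add
    ((imCLM.hasStrictFDerivAt (x := v)).mul imCLM.hasStrictFDerivAt)
  have h2 := h1.sqrt h0
  have h3 := (hasStrictDerivAt_inv (x := √(v.re * v.re + v.im * v.im))
    (by rw [e]; exact hr.ne')).comp_hasStrictFDerivAt v h2
  have h4 := h3.smul (hasStrictFDerivAt_id v)
  refine ⟨_, h4.congr_of_eventuallyEq (Filter.Eventually.of_forall fun y => ?_), fun d => ?_⟩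
  · simp [un, norm_eq_sqrt_sq_add_sq, pow_two, div_eq_inv_mul]
  · simp [e, sub_eq_add_neg]
    ring

lemma dun' (c : ℂ) (M : (ℂ × ℂ × ℂ) →L[ℝ] ℂ) (x : ℂ × ℂ × ℂ) (v : ℂ) (hv : c + M x = v) (r : ℝ)
    (hr : 0 < r) (h : ‖v‖ = r) : ∃ L : (ℂ × ℂ × ℂ) →L[ℝ] ℂ,
    HasStrictFDerivAt (fun y => un (c + M y)) L x ∧ ∀ d,
      L d = r⁻¹ • M d - ((v.re * (M d).re + v.im * (M d).im) / r ^ 3) • v := by
  obtain ⟨L, h1, h2⟩ := dun v r hr h
  exact ⟨L.comp M, HasStrictFDerivAt.comp x (g := un) (by rw [hv]; exact h1)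
    (M.hasStrictFDerivAt.const_add c), fun d => h2 _⟩

noncomputable def sp : Fin 3 → ℂ := ![2, ⟨3 / 2, √3 / 2⟩, ⟨3 / 2, -(√3 / 2)⟩]

noncomputable def Gf (x : ℂ × ℂ × ℂ) : ℂ := un (-(starRingEnd ℂ) x.1 - x.2.1) +
  un (-(starRingEnd ℂ) x.2.2 - x.2.1) + un (sp 0 - x.2.1) + un (sp 1 - x.2.1) + un (sp 2 - x.2.1)

noncomputable def Sc : ℂ →L[ℝ] ℂ := LinearMap.toContinuousLinearMap
  { toFun := fun w => ⟨2 / 3 * w.re, 2 / 5 * w.im⟩
    map_add' := fun x y => by apply Complex.ext <;> simp <;> ring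
    map_smul' := fun c x => by apply Complex.ext <;> simp <;> ring }

lemma Sc_apply (w : ℂ) : Sc w = ⟨2 / 3 * w.re, 2 / 5 * w.im⟩ := rfl

noncomputable def Ph (x : ℂ × ℂ × ℂ) : ℂ := x.2.1 + Sc (Gf x)

lemma s3 : √3 * √3 = 3 := Real.mul_self_sqrt (by norm_num)

lemma n1 (t : ℝ) (ht : t * t = 3 / 4) : ‖(⟨1 / 2, t⟩ : ℂ)‖ = 1 := by
  rw [norm_eq_sqrt_sq_add_sq]
  simp only [pow_two, ht]; norm_num

lemma e1 : sp 1 - 1 = ⟨1 / 2, √3 / 2⟩ := by apply Complex.ext <;> simp [sp]; norm_num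
lemma e2 : sp 2 - 1 = ⟨1 / 2, -(√3 / 2)⟩ := by apply Complex.ext <;> simp [sp]; norm_num

lemma Ph1 : Ph (1, 1, 1) = 1 := by
  have h0 : sp 0 - 1 = 1 := by simp [sp]; norm_num
  have h3 : -(starRingEnd ℂ) 1 - 1 = -2 := by simp; norm_num
  simp only [Ph, Gf, h0, e1, e2, h3, un, n1 (√3 / 2) (by nlinarith [s3]),
    n1 (-(√3 / 2)) (by nlinarith [s3]), Sc_apply]
  apply Complex.ext <;> simp
  norm_num

lemma phi : ∃ ρ : ℝ, 0 < ρ ∧ ∀ x ∈ closedBall ((1, 1, 1) : ℂ × ℂ × ℂ) ρ,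
    ∀ y ∈ closedBall ((1, 1, 1) : ℂ × ℂ × ℂ) ρ,
      ‖Ph x - Ph y - ⟨0, ((x.1 - y.1).im + (x.2.2 - y.2.2).im) / 5⟩‖ ≤ 1 / 100 * ‖x - y‖ := by
  let a := ContinuousLinearMap.fst ℝ ℂ (ℂ × ℂ)
  let p := (ContinuousLinearMap.fst ℝ ℂ ℂ).comp (ContinuousLinearMap.snd ℝ ℂ (ℂ × ℂ))
  let b := (ContinuousLinearMap.snd ℝ ℂ ℂ).comp (ContinuousLinearMap.snd ℝ ℂ (ℂ × ℂ))
  let c : ℂ →L[ℝ] ℂ := conjCLE
  obtain ⟨L1, d1, f1⟩ := dun' 0 (-c.comp a - p) (1, 1, 1) (-2) (by simp [a, p, c]; norm_num) 2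
    two_pos (by simp)
  obtain ⟨L2, d2, f2⟩ := dun' 0 (-c.comp b - p) (1, 1, 1) (-2) (by simp [b, p, c]; norm_num) 2
    two_pos (by simp)
  obtain ⟨L3, d3, f3⟩ := dun' (sp 0) (-p) (1, 1, 1) 1 (by simp [p, sp]; norm_num) 1
    one_pos (by simp)
  obtain ⟨L4, d4, f4⟩ := dun' (sp 1) (-p) (1, 1, 1) _ ((sub_eq_add_neg _ _).symm.trans e1) 1
    one_pos (n1 _ (by nlinarith [s3]))
  obtain ⟨L5, d5, f5⟩ := dun' (sp 2) (-p) (1, 1, 1) _ ((sub_eq_add_neg _ _).symm.trans e2) 1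
    one_pos (n1 _ (by nlinarith [s3]))
  have d6 := (p.hasStrictFDerivAt (x := (1, 1, 1))).add
    (Sc.hasStrictFDerivAt.comp (1, 1, 1) ((((d1.add d2).add d3).add d4).add d5))
  have d7 : HasStrictFDerivAt Ph _ (1, 1, 1) := d6.congr_of_eventuallyEq
    (Filter.Eventually.of_forall fun y => by simp [Ph, Gf, a, b, c, p, sub_eq_add_neg])
  obtain ⟨s, hs, ap⟩ := d7.approximates_deriv_on_nhds (c := 1 / 100) (Or.inr (by norm_num))
  obtain ⟨ρ, h0, h1⟩ := Metric.nhds_basis_closedBall.mem_iff.1 hs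
  refine ⟨ρ, h0, fun x hx y hy => ?_⟩
  have := ap x (h1 hx) y (h1 hy)
  push_cast at this
  refine le_trans (le_of_eq ?_) this
  congr 1
  congr 1
  simp only [Pi.add_apply, Function.comp_apply, f1, f2, f3, f4, f5,
    Sc_apply]
  apply Complex.ext <;> simp only [add_re, add_im, sub_re, sub_im, smul_re, smul_im, smul_eq_mul]
  · simp [a, b, c, p]; ring
  · simp [a, b, c, p]
    linear_combination (-1 / 5 * (x.2.1.im - y.2.1.im)) * s3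

lemma maxp (X D : ℕ → ℝ) (n : ℕ) (h0 : |X 0| < D 0 / 4) (hn : |X n| < D n / 4)
    (h : ∀ k, k + 2 ≤ n → ∃ N, N ≤ |X k| + |D k| + (|X (k + 1)| + |D (k + 1)|) +
      (|X (k + 2)| + |D (k + 2)|) ∧ |X (k + 1)| ≤ N / 100 ∧
      (D k + D (k + 2)) / 5 - N / 100 ≤ D (k + 1)) : ∀ k ≤ n, |X k| < D k / 4 := by
  classical
  obtain ⟨k0, hk0, hm⟩ := Finset.exists_min_image (Finset.range (n + 1))
    (fun k => D k / 4 - |X k|) ⟨0, by simp⟩
  have ex : ∃ k, k ≤ n ∧ D k / 4 - |X k| ≤ D k0 / 4 - |X k0| :=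
    ⟨k0, by simpa [Nat.lt_succ_iff] using hk0, le_rfl⟩
  have hm' : ∀ k ≤ n, D k0 / 4 - |X k0| ≤ D k / 4 - |X k| := fun k hk =>
    hm k (by simpa [Nat.lt_succ_iff] using hk)
  by_contra hc
  push Not at hc
  obtain ⟨j, hj, hc⟩ := hc
  have m0 : D k0 / 4 - |X k0| ≤ 0 := by linarith [hm' j hj]
  generalize D k0 / 4 - |X k0| = m at *
  obtain ⟨k1, k2⟩ := Nat.find_spec ex
  have k3 := fun j => Nat.find_min ex (m := j)
  generalize Nat.find ex = k at *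
  rcases k with _ | k
  · linarith
  have kn : k + 1 ≠ n := by rintro rfl; linarith
  obtain ⟨N, a1, a2, a3⟩ := h k (by omega)
  have b1 : m < D k / 4 - |X k| := by
    by_contra hh; exact k3 k (by omega) ⟨by omega, not_lt.1 hh⟩
  have b2 := hm' (k + 1) k1
  have b3 := hm' (k + 2) (by omega)
  have c1 := abs_nonneg (X k)
  have c2 := abs_nonneg (X (k + 1))
  have c3 := abs_nonneg (X (k + 2))
  have d1 : |D k| ≤ D k - 8 * m := abs_le.2 ⟨by linarith, by linarith⟩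
  have d2 : |D (k + 1)| ≤ D (k + 1) - 8 * m := abs_le.2 ⟨by linarith, by linarith⟩
  have d3 : |D (k + 2)| ≤ D (k + 2) - 8 * m := abs_le.2 ⟨by linarith, by linarith⟩
  linarith

end Pool.Agent.H68.Gn
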