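import Pool.Agent.H68.Gn3

set_option autoImplicit false

namespace Pool.Agent.H68.Gn

open Complex Metric

lemma n3 (x : ℂ × ℂ × ℂ) : ‖x.1‖ ≤ ‖x‖ ∧ ‖x.2.1‖ ≤ ‖x‖ ∧ ‖x.2.2‖ ≤ ‖x‖ :=
  ⟨norm_fst_le x, (norm_fst_le x.2).trans (norm_snd_le x), (norm_snd_le x.2).trans (norm_snd_le x)⟩

lemma n3' (a b c : ℂ) (r : ℝ) (h1 : ‖a‖ ≤ r) (h2 : ‖b‖ ≤ r) (h3 : ‖c‖ ≤ r) :
    ‖((a, b, c) : ℂ × ℂ × ℂ)‖ ≤ r := by
  simp [Prod.norm_def, h1, h2, h3]

lemma chain : ∃ η : ℝ, 0 < η ∧ η ≤ 1 / 100 ∧ ∀ n : ℕ, 1 ≤ n → ∃ p : ℕ → ℂ,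
    p 0 = ⟨1, η⟩ ∧ p (n + 1) = ⟨1, -η⟩ ∧ (∀ k, ‖p k - 1‖ ≤ η) ∧
    (∀ k, k + 1 ≤ n → Gf (p k, p (k + 1), p (k + 2)) = 0) ∧
    ∀ k ≤ n, |(p k - p (k + 1)).re| < (p k - p (k + 1)).im / 4 := by
  obtain ⟨ρ, hρ, hP⟩ := phi
  have m1 := min_le_left ρ (1 / 100)
  have m2 := min_le_right ρ (1 / 100)
  have m0 : 0 < min ρ (1 / 100) := by positivity
  generalize min ρ (1 / 100) = η at *
  refine ⟨η, m0, m2, fun n hn => ?_⟩
  have mem : ∀ a b c : ℂ, ‖a - 1‖ ≤ η → ‖b - 1‖ ≤ η → ‖c - 1‖ ≤ η →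
      (a, b, c) ∈ closedBall ((1, 1, 1) : ℂ × ℂ × ℂ) ρ := fun a b c h1 h2 h3 =>
    mem_closedBall_iff_norm.2 ((n3' _ _ _ _ h1 h2 h3).trans m1)
  have lip : ∀ x ∈ closedBall ((1, 1, 1) : ℂ × ℂ × ℂ) ρ, ∀ y ∈ closedBall ((1, 1, 1) : ℂ × ℂ × ℂ) ρ,
      ‖Ph x - Ph y‖ ≤ 1 / 2 * ‖x - y‖ := fun x hx y hy => by
    have h1 := hP x hx y hy
    have h2 := norm_sub_norm_le (Ph x - Ph y) ⟨0, ((x.1 - y.1).im + (x.2.2 - y.2.2).im) / 5⟩
    have h3 := norm_le_abs_re_add_abs_im ⟨0, ((x.1 - y.1).im + (x.2.2 - y.2.2).im) / 5⟩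
    have h4 := abs_le.1 ((abs_im_le_norm _).trans (n3 (x - y)).1)
    have h5 := abs_le.1 ((abs_im_le_norm _).trans (n3 (x - y)).2.2)
    have h6 : |((x.1 - y.1).im + (x.2.2 - y.2.2).im) / 5| ≤ 2 / 5 * ‖x - y‖ := by
      simp only [Prod.fst_sub, Prod.snd_sub] at h4 h5
      rw [abs_le]; constructor <;> linarith [h4.1, h4.2, h5.1, h5.2]
    simp only [abs_zero, zero_add] at h3
    linarith [norm_nonneg (x - y)]
  let ex : (Fin (n + 2) → ℂ) → ℕ → ℂ := fun q k => if h : k < n + 2 then q ⟨k, h⟩ else 1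
  let T : (Fin (n + 2) → ℂ) → Fin (n + 2) → ℂ := fun q i => if i.val = 0 then ⟨1, η⟩ else
    if i.val = n + 1 then ⟨1, -η⟩ else Ph (ex q (i - 1), ex q i, ex q (i + 1))
  have exd : ∀ q q' k, ‖ex q k - ex q' k‖ ≤ dist q q' := fun q q' k => by
    simp only [ex]; split_ifs with h
    · rw [← dist_eq_norm]; exact dist_le_pi_dist q q' _
    · simp
  have ex1 : ∀ q ∈ closedBall (fun _ : Fin (n + 2) => (1 : ℂ)) η, ∀ k, ‖ex q k - 1‖ ≤ η :=
    fun q hq k => by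
      have := (exd q (fun _ => 1) k).trans hq
      simpa [ex] using this
  have o : ‖(1 : ℂ) - 1‖ ≤ η := by simp [m0.le]
  have b1 : ∀ t : ℝ, |t| = η → ‖(⟨1, t⟩ : ℂ) - 1‖ ≤ η := fun t ht =>
    (norm_le_abs_re_add_abs_im _).trans (by simp [ht])
  have maps : Set.MapsTo T (closedBall (fun _ => (1 : ℂ)) η) (closedBall (fun _ => (1 : ℂ)) η) :=
    fun q hq => by
      rw [mem_closedBall, dist_pi_le_iff m0.le]
      intro i
      rw [dist_eq_norm]
      simp only [T]; split_ifs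
      · exact b1 _ (abs_of_pos m0)
      · exact b1 _ (by rw [abs_neg, abs_of_pos m0])
      · have := lip _ (mem _ _ _ (ex1 q hq (i - 1)) (ex1 q hq i) (ex1 q hq (i + 1))) _
          (mem 1 1 1 o o o)
        rw [Ph1] at this
        have h2 := n3' _ _ _ _ (ex1 q hq (i - 1)) (ex1 q hq i) (ex1 q hq (i + 1))
        exact this.trans (by simp only [Prod.mk_sub_mk]; linarith)
  have con : ContractingWith (1 / 2) (maps.restrict T _ _) := by
    refine ⟨by norm_num, LipschitzWith.of_dist_le_mul fun q q' => ?_⟩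
    show dist (T q) (T q') ≤ _ * dist q.1 q'.1
    rw [dist_pi_le_iff (by positivity)]
    intro i
    simp only [T]; split_ifs
    · simp
    · simp
    · rw [dist_eq_norm]
      refine (lip _ (mem _ _ _ (ex1 _ q.2 _) (ex1 _ q.2 _) (ex1 _ q.2 _)) _
        (mem _ _ _ (ex1 _ q'.2 _) (ex1 _ q'.2 _) (ex1 _ q'.2 _))).trans ?_
      have := n3' _ _ _ _ (exd q q' (i - 1)) (exd q q' i) (exd q q' (i + 1))
      push_cast
      simp only [Prod.mk_sub_mk]; linarith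
  obtain ⟨q, hq, hf, -⟩ := con.exists_fixedPoint' isClosed_closedBall.isComplete maps
    (mem_closedBall_self m0.le) (edist_ne_top _ _)
  have fx : ∀ k (h : k < n + 2), ex q k = T q ⟨k, h⟩ := fun k h => by
    rw [hf.eq]; simp [ex, h]
  have p0 : ex q 0 = ⟨1, η⟩ := by rw [fx 0 (by omega)]; simp [T]
  have p1 : ex q (n + 1) = ⟨1, -η⟩ := by rw [fx (n + 1) (by omega)]; simp [T]
  have p2 : ∀ k, k + 1 ≤ n → ex q (k + 1) = Ph (ex q k, ex q (k + 1), ex q (k + 2)) :=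
    fun k hk => by
      conv_lhs => rw [fx (k + 1) (by omega)]
      simp only [T]
      rw [if_neg (by omega), if_neg (by omega)]; rfl
  have p3 := ex1 q hq
  generalize ex q = p at *
  have bd : ∀ k, k + 1 ≤ n → |(p (k + 1)).re - 1| ≤ η / 100 ∧ |(p (k + 1)).im| ≤ η / 2 :=
    fun k hk => by
      have h1 := hP _ (mem _ _ _ (p3 k) (p3 (k + 1)) (p3 (k + 2))) _ (mem 1 1 1 o o o)
      have h2 := lip _ (mem _ _ _ (p3 k) (p3 (k + 1)) (p3 (k + 2))) _ (mem 1 1 1 o o o)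
      have h3 := n3' _ _ _ _ (p3 k) (p3 (k + 1)) (p3 (k + 2))
      rw [Ph1, ← p2 k hk] at h1 h2
      have h4 := (abs_re_le_norm _).trans h1
      have h5 := (abs_im_le_norm _).trans h2
      simp only [Prod.mk_sub_mk, sub_re, one_re, sub_zero, sub_im, one_im] at h4 h5
      constructor <;> linarith
  refine ⟨p, p0, p1, p3, fun k hk => ?_, maxp _ _ n ?_ ?_ fun k hk => ?_⟩
  · have h := p2 k hk
    simp only [Ph, left_eq_add, Sc_apply, Complex.ext_iff, zero_re, zero_im] at h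
    apply Complex.ext <;> simp only [zero_re, zero_im] <;> linarith [h.1, h.2]
  · obtain ⟨h1, h2⟩ := bd 0 hn
    simp only [p0, sub_re, sub_im, zero_add] at *
    rw [abs_sub_comm]; linarith [(abs_le.1 h2).2]
  · obtain ⟨m, rfl⟩ : ∃ m, n = m + 1 := ⟨n - 1, by omega⟩
    obtain ⟨h1, h2⟩ := bd m le_rfl
    simp only [p1, sub_re, sub_im] at *
    linarith [(abs_le.1 h2).1]
  · have h1 := hP _ (mem _ _ _ (p3 k) (p3 (k + 1)) (p3 (k + 2))) _
      (mem _ _ _ (p3 (k + 1)) (p3 (k + 2)) (p3 (k + 3)))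
    rw [← p2 k (by omega), ← p2 (k + 1) hk] at h1
    have h4 := (abs_re_le_norm _).trans h1
    have h5 := (abs_le.1 ((abs_im_le_norm _).trans h1)).1
    have a1 := norm_le_abs_re_add_abs_im (p k - p (k + 1))
    have a2 := norm_le_abs_re_add_abs_im (p (k + 1) - p (k + 2))
    have a3 := norm_le_abs_re_add_abs_im (p (k + 2) - p (k + 3))
    have c1 := norm_nonneg (p k - p (k + 1))
    have c2 := norm_nonneg (p (k + 1) - p (k + 2))
    have c3 := norm_nonneg (p (k + 2) - p (k + 3))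
    refine ⟨_, n3' (p k - p (k + 1)) (p (k + 1) - p (k + 2)) (p (k + 2) - p (k + 3)) _
      (by linarith) (by linarith) (by linarith), ?_, ?_⟩
    · simp only [Prod.mk_sub_mk, sub_re, sub_zero] at h4 ⊢; linarith
    · simp only [Prod.mk_sub_mk, sub_im] at h5 ⊢; linarith

lemma cone (p : ℕ → ℂ) (n : ℕ)
    (h : ∀ k ≤ n, |(p k - p (k + 1)).re| < (p k - p (k + 1)).im / 4) (i j : ℕ) (hij : i < j)
    (hj : j ≤ n + 1) : |(p i - p j).re| < (p i - p j).im / 4 := by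
  induction j with
  | zero => omega
  | succ j ih =>
    rcases Nat.lt_succ_iff_lt_or_eq.1 hij with h1 | rfl
    · have a := ih h1 (by omega)
      have b := h j (by omega)
      have c := abs_add_le (p i - p j).re (p j - p (j + 1)).re
      simp only [sub_re, sub_im] at *
      rw [sub_add_sub_cancel] at c
      linarith
    · exact h i (by omega)

end Pool.Agent.H68.Gn
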