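import Pool.Agent.H68.Gn4

set_option autoImplicit false

namespace Pool.Agent.H68.Gn

open Complex Set

def cr (u v : ℂ) : ℝ := u.re * v.im - u.im * v.re

lemma sub_cr (a b c d : ℂ) (h : cr (b - a) (c - a) ≠ 0 ∨ cr (b - a) (d - a) ≠ 0) :
    (segment ℝ a b ∩ segment ℝ c d).Subsingleton := by
  rintro x ⟨h1, h2⟩ y ⟨h3, h4⟩
  by_contra hxy
  obtain ⟨s, -, -, e1⟩ := (seg_iff _ _ _).1 h1
  obtain ⟨t, -, -, e2⟩ := (seg_iff _ _ _).1 h2
  obtain ⟨s', -, -, e3⟩ := (seg_iff _ _ _).1 h3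
  obtain ⟨t', -, -, e4⟩ := (seg_iff _ _ _).1 h4
  have ht : t' - t ≠ 0 := fun h0 => hxy (by rw [e2, e4, sub_eq_zero.1 h0])
  have a1 := congrArg re (e1.symm.trans e2)
  have a2 := congrArg im (e1.symm.trans e2)
  have a3 := congrArg re (e3.symm.trans e4)
  have a4 := congrArg im (e3.symm.trans e4)
  simp at a1 a2 a3 a4
  have k : cr (b - a) (d - c) = 0 := by
    apply mul_left_cancel₀ ht
    simp only [cr, sub_re, sub_im]
    linear_combination (b.im - a.im) * (a3 - a1) - (b.re - a.re) * (a4 - a2)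
  simp only [cr, sub_re, sub_im] at k h
  rcases h with h | h <;> apply h
  · linear_combination (b.im - a.im) * a1 - (b.re - a.re) * a2 - t * k
  · linear_combination (b.im - a.im) * a1 - (b.re - a.re) * a2 + (1 - t) * k

lemma sub_sep (a b d : ℂ) (s : ℝ) (h1 : s * (b - a).re < 0) (h2 : 0 < s * (d - a).re) :
    (segment ℝ a b ∩ segment ℝ a d).Subsingleton := by
  have key : ∀ x ∈ segment ℝ a b ∩ segment ℝ a d, x = a := by
    rintro x ⟨h3, h4⟩
    obtain ⟨t, t0, -, e1⟩ := (seg_iff _ _ _).1 h3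
    obtain ⟨u, u0, -, e2⟩ := (seg_iff _ _ _).1 h4
    have a1 := congrArg re (e1.symm.trans e2)
    simp only [add_re, re_ofReal_mul, add_right_inj] at a1
    have : t = 0 := by
      by_contra h
      have := mul_pos_of_neg_of_neg (neg_neg_of_pos (lt_of_le_of_ne t0 (Ne.symm h))) h1
      have := mul_nonneg u0 h2.le
      have : t * (s * (b - a).re) = u * (s * (d - a).re) := by linear_combination s * a1
      nlinarith
    rw [e1, this]; simp
  intro x hx y hy
  rw [key x hx, key y hy]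

lemma sub_dis (a b c d : ℂ) (s : ℝ) (h1 : 0 < s * a.re) (h2 : 0 < s * b.re) (h3 : s * c.re < 0)
    (h4 : s * d.re < 0) : (segment ℝ a b ∩ segment ℝ c d).Subsingleton := by
  rintro x ⟨h5, h6⟩
  exfalso
  obtain ⟨t, t0, t1, e1⟩ := (seg_iff _ _ _).1 h5
  obtain ⟨u, u0, u1, e2⟩ := (seg_iff _ _ _).1 h6
  have a1 := congrArg re (e1.symm.trans e2)
  simp only [add_re, re_ofReal_mul, sub_re] at a1
  have e : (1 - t) * (s * a.re) + t * (s * b.re) = (1 - u) * (s * c.re) + u * (s * d.re) := by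
    linear_combination s * a1
  have p1 : 0 < (1 - t) * (s * a.re) + t * (s * b.re) := by
    rcases le_total (s * a.re) (s * b.re) with h | h <;> nlinarith
  have p2 : (1 - u) * (s * c.re) + u * (s * d.re) < 0 := by
    rcases le_total (s * c.re) (s * d.re) with h | h <;> nlinarith
  linarith

lemma cr_ne (u v : ℂ) (h0 : 0 < |u.re|) (h1 : |u.im| ≤ 2 * |u.re|) (h2 : |v.re| < |v.im| / 4) :
    cr u v ≠ 0 := by
  intro h
  have e : |u.re| * |v.im| = |u.im| * |v.re| := by
    rw [← abs_mul, ← abs_mul, sub_eq_zero.1 h]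
  have := abs_nonneg v.re
  nlinarith

def R (s : ℝ) (z : ℂ) : ℂ := ⟨s * z.re, z.im⟩

@[simp] lemma R_re (s : ℝ) (z : ℂ) : (R s z).re = s * z.re := rfl
@[simp] lemma R_im (s : ℝ) (z : ℂ) : (R s z).im = z.im := rfl

def sg (k : ℕ) : ℝ := (-1) ^ k

lemma sg_succ (k : ℕ) : sg (k + 1) = -sg k := by rw [sg, sg, pow_succ]; ring
lemma sg_or (k : ℕ) : sg k = 1 ∨ sg k = -1 := neg_one_pow_eq_or ℝ k

lemma spb (j : Fin 3) : 3 / 2 ≤ (sp j).re ∧ |(sp j).im| ≤ 7 / 8 := by
  have h3 : √3 ≤ 7 / 4 := by nlinarith [s3, Real.sqrt_nonneg 3]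
  have h0 := Real.sqrt_nonneg 3
  fin_cases j <;> simp [sp, abs_le] <;> (try constructor) <;> (try norm_num) <;> linarith

def qq (p : ℕ → ℂ) (k : ℕ) : ℂ := R (sg k) (p k)

noncomputable def Bq (p : ℕ → ℂ) (k : ℕ) (o : Option (Fin 3)) : ℂ :=
  o.elim (qq p (k + 1)) fun j => R (sg k) (sp j)

section
variable (p : ℕ → ℂ) (n : ℕ) (hp : ∀ k, |(p k).re - 1| ≤ 1 / 100 ∧ |(p k).im| ≤ 1 / 100)
  (hc : ∀ i j, i < j → j ≤ n + 1 → |(p i - p j).re| < (p i - p j).im / 4)

include hp in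
lemma dn (k : ℕ) : sg k * (Bq p k none - qq p k).re < -1 ∧ |(Bq p k none - qq p k).im| ≤ 1 := by
  obtain ⟨a1, a2⟩ := hp k
  obtain ⟨b1, b2⟩ := hp (k + 1)
  rw [abs_le] at a1 a2 b1 b2 ⊢
  rcases sg_or k with h | h <;> simp [Bq, qq, sg_succ, h] <;> refine ⟨?_, ?_, ?_⟩ <;> linarith

include hp in
lemma ds (k : ℕ) (j : Fin 3) : 0 < sg k * (Bq p k (some j) - qq p k).re ∧
    |(Bq p k (some j) - qq p k).im| ≤ 2 * (sg k * (Bq p k (some j) - qq p k).re) := by
  obtain ⟨a1, a2⟩ := hp k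
  obtain ⟨b1, b2⟩ := spb j
  rw [abs_le] at a1 a2 b2 ⊢
  rcases sg_or k with h | h <;> simp [Bq, qq, h] <;> refine ⟨?_, ?_, ?_⟩ <;> linarith

include hp in
lemma fl (k : ℕ) (o : Option (Fin 3)) : 0 < |(Bq p k o - qq p k).re| ∧
    |(Bq p k o - qq p k).im| ≤ 2 * |(Bq p k o - qq p k).re| := by
  have e : ∀ x : ℝ, |x| = |sg k * x| := fun x => by rcases sg_or k with h | h <;> simp [h]
  rw [e (_ : ℂ).re]
  rcases o with _ | j
  · obtain ⟨a, b⟩ := dn p hp k
    rw [abs_of_neg (a := sg k * _) (by linarith)]; constructor <;> linarith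
  · obtain ⟨a, b⟩ := ds p hp k j
    rw [abs_of_pos a]; exact ⟨a, b⟩

include hc in
lemma st (i j : ℕ) (hij : i ≠ j) (hi : i ≤ n + 1) (hj : j ≤ n + 1) (h : sg i = sg j) :
    |(qq p i - qq p j).re| < |(qq p i - qq p j).im| / 4 := by
  have e : |(qq p i - qq p j).re| = |(p i - p j).re| := by
    rcases sg_or j with h' | h' <;> simp [qq, h, h']
    rw [abs_sub_comm]; congr 1; ring
  have e' : (qq p i - qq p j).im = (p i - p j).im := rfl
  rw [e, e']
  rcases lt_or_gt_of_ne hij with l | l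
  · have := hc i j l hj
    have := le_abs_self (p i - p j).im
    linarith
  · have a := hc j i l hi
    have := neg_abs_le (p i - p j).im
    rw [← neg_sub, neg_re, neg_im, abs_neg] at a
    linarith

include hc in
lemma qinj (i j : ℕ) (hi : i ≤ n + 1) (hj : j ≤ n + 1) (h : qq p i = qq p j) : i = j := by
  have e : (p i).im = (p j).im := by
    have := congrArg im h
    exact this
  by_contra hij
  rcases lt_or_gt_of_ne hij with l | l
  · have := hc i j l hj
    have := abs_nonneg (p i - p j).re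
    rw [sub_im] at *; linarith
  · have := hc j i l hi
    have := abs_nonneg (p j - p i).re
    rw [sub_im] at *; linarith

include hp in
lemma spk (k : ℕ) (i j : Fin 3) (h : i ≠ j) :
    cr (Bq p k (some i) - qq p k) (Bq p k (some j) - qq p k) ≠ 0 := by
  obtain ⟨a1, a2⟩ := hp k
  rw [abs_le] at a1 a2
  have h3 : √3 ≤ 7 / 4 := by nlinarith [s3, Real.sqrt_nonneg 3]
  have h4 : 3 / 2 ≤ √3 := by nlinarith [s3, Real.sqrt_nonneg 3]
  have e : cr (Bq p k (some i) - qq p k) (Bq p k (some j) - qq p k) =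
      sg k * cr (sp i - p k) (sp j - p k) := by simp [cr, Bq, qq]; ring
  have s0 : sg k ≠ 0 := by rcases sg_or k with h | h <;> simp [h]
  rw [e]
  refine mul_ne_zero s0 fun h0 => ?_
  fin_cases i <;> fin_cases j <;> simp [cr, sp] at h h0 <;> nlinarith

include hp hc in
lemma sub0 (k k' : ℕ) (o' : Option (Fin 3)) (hk : k ≤ n) (hk' : k' ≤ n) (h : sg k' = -sg k) :
    (segment ℝ (qq p k) (Bq p k none) ∩ segment ℝ (qq p k') (Bq p k' o')).Subsingleton := by
  obtain ⟨f1, f2⟩ := fl p hp k none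
  by_cases e : k' = k + 1
  · subst e
    rcases o' with _ | j
    · refine sub_cr _ _ _ _ (Or.inr (cr_ne _ _ f1 f2 ?_))
      exact st p n hc (k + 2) k (by omega) (by omega) (by omega) (by rw [sg_succ, sg_succ, neg_neg])
    · rw [segment_symm]
      refine sub_sep (qq p (k + 1)) _ _ (sg (k + 1)) ?_ (ds p hp _ j).1
      have := (dn p hp k).1
      rw [sg_succ, ← neg_sub, neg_re, neg_mul_neg]
      exact lt_trans this (by norm_num)
  · refine sub_cr _ _ _ _ (Or.inl ?_)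
    have := cr_ne _ _ f1 f2 (st p n hc k' (k + 1) e (by omega) (by omega) (by rw [sg_succ, h]))
    refine fun h0 => this ?_
    simp only [cr, Bq, Option.elim, sub_re, sub_im] at h0 ⊢
    linear_combination h0

include hp hc in
lemma sub (k k' : ℕ) (o o' : Option (Fin 3)) (hk : k ≤ n) (hk' : k' ≤ n) (h : k = k' → o ≠ o') :
    (segment ℝ (qq p k) (Bq p k o) ∩ segment ℝ (qq p k') (Bq p k' o')).Subsingleton := by
  obtain ⟨f1, f2⟩ := fl p hp k o
  by_cases e : k' = k
  · subst e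
    have := (dn p hp k').1
    rcases o with _ | j <;> rcases o' with _ | j'
    · exact absurd rfl (h rfl)
    · exact sub_sep _ _ _ (sg k') (by linarith) (ds p hp _ j').1
    · rw [inter_comm]; exact sub_sep _ _ _ (sg k') (by linarith) (ds p hp _ j).1
    · exact sub_cr _ _ _ _ (Or.inr (spk p hp _ _ _ fun e => h rfl (by rw [e])))
  by_cases e' : sg k' = sg k
  · exact sub_cr _ _ _ _ (Or.inl (cr_ne _ _ f1 f2 (st p n hc k' k e (by omega) (by omega) e')))
  have e2 : sg k' = -sg k := by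
    rcases sg_or k with a | a <;> rcases sg_or k' with b | b <;> simp_all
  rcases o with _ | j
  · exact sub0 p n hp hc k k' o' hk hk' e2
  rcases o' with _ | j'
  · rw [inter_comm]; exact sub0 p n hp hc k' k _ hk' hk (by rw [e2, neg_neg])
  have a1 := abs_le.1 (hp k).1
  have a2 := abs_le.1 (hp k').1
  have b1 := (spb j).1
  have b2 := (spb j').1
  refine sub_dis _ _ _ _ (sg k) ?_ ?_ ?_ ?_ <;> rcases sg_or k with a | a <;>
    simp [qq, Bq, e2, a] <;> linarith [a1.1, a2.1]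

end

end Pool.Agent.H68.Gn
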