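import Pool.Agent.H68.Gn5
import Pool.Agent.H68.Gn2

set_option autoImplicit false

namespace Pool.Agent.H68.Gn

open Complex Set Classical

lemma un_R (k : ℕ) (z : ℂ) : un (R (sg k) z) = R (sg k) (un z) := by
  have e : ‖R (sg k) z‖ = ‖z‖ := by
    rw [norm_eq_sqrt_sq_add_sq, norm_eq_sqrt_sq_add_sq]
    rcases sg_or k with h | h <;> simp [h]
  rw [un, un, e]
  apply Complex.ext <;> simp [div_ofReal_re, div_ofReal_im, mul_div_assoc]

lemma un_re (u : ℂ) (k : ℕ) (h0 : 0 < sg k * u.re) (h1 : |u.im| ≤ 2 * (sg k * u.re)) :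
    1 / 3 < sg k * (un u).re := by
  have e : (sg k * u.re) ^ 2 = u.re ^ 2 := by rcases sg_or k with h | h <;> simp [h]
  have n0 : 0 < ‖u‖ := norm_pos_iff.2 fun h => by simp [h] at h0
  have n1 : ‖u‖ < 3 * (sg k * u.re) := by
    refine lt_of_pow_lt_pow_left₀ 2 (by linarith) ?_
    have := abs_nonneg u.im
    rw [Complex.sq_norm, normSq_apply]
    nlinarith [sq_abs u.im]
  rw [un, div_ofReal_re, ← mul_div_assoc, lt_div_iff₀ n0]
  linarith

lemma un_ge (u : ℂ) : -1 ≤ (un u).re := by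
  rcases eq_or_ne u 0 with rfl | h
  · simp [un]
  · have := (abs_le.1 (abs_re_le_norm u)).1
    rw [un, div_ofReal_re, le_div_iff₀ (norm_pos_iff.2 h)]; linarith

noncomputable def tot (p : ℕ → ℂ) (n : ℕ) (v : ℂ) : ℂ :=
  ∑ i : Fin (n + 1) × Option (Fin 3),
    ((if qq p i.1 = v then un (Bq p i.1 i.2 - qq p i.1) else 0) -
      (if Bq p i.1 i.2 = v then un (Bq p i.1 i.2 - qq p i.1) else 0))

section
variable (p : ℕ → ℂ) (n : ℕ) (hp : ∀ k, |(p k).re - 1| ≤ 1 / 100 ∧ |(p k).im| ≤ 1 / 100)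
  (hc : ∀ i j, i < j → j ≤ n + 1 → |(p i - p j).re| < (p i - p j).im / 4)

include hp in
lemma qne (k m : ℕ) (j : Fin 3) : R (sg m) (sp j) ≠ qq p k := by
  intro h
  have a := congrArg re h
  have b := (spb j).1
  have c := abs_le.1 (hp k).1
  rcases sg_or k with h | h <;> rcases sg_or m with h' | h' <;> simp [qq, h, h'] at a <;>
    linarith [c.1, c.2]

include hp hc in
lemma totq (m : ℕ) (hm : m ≤ n + 1) : tot p n (qq p m) =
    (if m ≤ n then ∑ o, un (Bq p m o - qq p m) else 0) -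
      (if 1 ≤ m then un (qq p m - qq p (m - 1)) else 0) := by
  rw [tot, Fintype.sum_prod_type]
  rw [Fin.sum_univ_eq_sum_range (fun k => ∑ o : Option (Fin 3),
    ((if qq p k = qq p m then un (Bq p k o - qq p k) else 0) -
      (if Bq p k o = qq p m then un (Bq p k o - qq p k) else 0))) (n + 1)]
  have e : ∀ k ∈ Finset.range (n + 1), (∑ o : Option (Fin 3),
    ((if qq p k = qq p m then un (Bq p k o - qq p k) else 0) -
      (if Bq p k o = qq p m then un (Bq p k o - qq p k) else 0))) =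
      (if k = m then ∑ o, un (Bq p m o - qq p m) else 0) -
      (if k = m - 1 then (if 1 ≤ m then un (qq p m - qq p (m - 1)) else 0) else 0) := by
    intro k hk
    rw [Finset.mem_range] at hk
    rw [Finset.sum_sub_distrib]
    congr 1
    · by_cases e : k = m
      · subst e; simp
      · have : qq p k ≠ qq p m := fun h => e (qinj p n hc _ _ (by omega) hm h)
        simp [e, this]
    · rw [Fintype.sum_option, Finset.sum_eq_zero (fun j _ => if_neg
        (show Bq p k (some j) ≠ qq p m from qne p hp m k j)), add_zero]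
      by_cases e : k + 1 = m
      · subst e; simp [Bq]
      · have : Bq p k none ≠ qq p m := fun h => e (qinj p n hc _ _ (by omega) hm h)
        rw [if_neg this]
        split_ifs <;> first | rfl | omega
  rw [Finset.sum_congr rfl e, Finset.sum_sub_distrib, Finset.sum_ite_eq', Finset.sum_ite_eq']
  simp only [Finset.mem_range, Nat.lt_succ_iff]
  rw [if_pos (show m - 1 ≤ n by omega)]

include hp hc in
lemma tot_mid (k : ℕ) (hk : k + 1 ≤ n) (hG : Gf (p k, p (k + 1), p (k + 2)) = 0) :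
    tot p n (qq p (k + 1)) = 0 := by
  rw [totq p n hp hc _ (by omega), if_pos hk, if_pos (by omega), Fintype.sum_option,
    Fin.sum_univ_three, sub_eq_add_neg, ← un_neg, Nat.add_sub_cancel]
  have e1 : Bq p (k + 1) none - qq p (k + 1) =
      R (sg (k + 1)) (-(starRingEnd ℂ) (p (k + 2)) - p (k + 1)) := by
    apply Complex.ext <;> simp [Bq, qq, sg_succ]; ring
  have e2 : -(qq p (k + 1) - qq p k) = R (sg (k + 1)) (-(starRingEnd ℂ) (p k) - p (k + 1)) := by
    apply Complex.ext <;> simp [qq, sg_succ]; ring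
  have e3 : ∀ j, Bq p (k + 1) (some j) - qq p (k + 1) = R (sg (k + 1)) (sp j - p (k + 1)) := by
    intro j; apply Complex.ext <;> simp [Bq, qq]; ring
  rw [e1, e2, e3, e3, e3, un_R, un_R, un_R, un_R, un_R]
  have a := congrArg re hG
  have b := congrArg im hG
  simp only [Gf, add_re, add_im, zero_re, zero_im] at a b
  apply Complex.ext <;> simp only [add_re, add_im, R_re, R_im, zero_re, zero_im]
  · linear_combination sg (k + 1) * a
  · linear_combination b

include hp hc in
lemma tot_zero : tot p n (qq p 0) ≠ 0 := by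
  rw [totq p n hp hc _ (by omega), if_pos (Nat.zero_le _), if_neg (by omega), Fintype.sum_option,
    Fin.sum_univ_three, sub_zero]
  intro h
  have a := congrArg re h
  have b := fun j => un_re _ 0 (ds p hp 0 j).1 (ds p hp 0 j).2
  have c := un_ge (Bq p 0 none - qq p 0)
  simp only [sg, pow_zero, one_mul, add_re, zero_re] at a b
  linarith [b 0, b 1, b 2]

include hp hc in
lemma tot_last : tot p n (qq p (n + 1)) ≠ 0 := by
  rw [totq p n hp hc _ le_rfl, if_neg (by omega), if_pos (by omega), zero_sub, neg_ne_zero,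
    Nat.add_sub_cancel]
  have : qq p (n + 1) - qq p n ≠ 0 := fun h => by
    have := qinj p n hc _ _ le_rfl (by omega) (sub_eq_zero.1 h); omega
  rw [un]
  exact div_ne_zero this (by simpa using this)

include hp in
lemma tot_sp (m : ℕ) (hm : m ≤ n) (j : Fin 3) : tot p n (R (sg m) (sp j)) ≠ 0 := by
  intro h
  have a : -sg m * (tot p n (R (sg m) (sp j))).re = 0 := by rw [h]; simp
  rw [tot, re_sum, Finset.mul_sum] at a
  refine absurd a (ne_of_gt (Finset.sum_pos' (fun i _ => ?_) ⟨(⟨m, by omega⟩, some j), by simp, ?_⟩))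
  · obtain ⟨k, o⟩ := i
    rw [if_neg (qne p hp _ _ _).symm]
    split_ifs with e
    · rcases o with _ | j'
      · exact absurd e.symm (qne p hp _ _ _)
      · have b := un_re _ k (ds p hp k j').1 (ds p hp k j').2
        have c := congrArg re e
        have d1 := (spb j).1
        have d2 := (spb j').1
        have : sg m = sg k := by
          rcases sg_or k with h | h <;> rcases sg_or m with h' | h' <;> simp [Bq, h, h'] at c ⊢ <;>
            linarith
        rw [this, zero_sub, neg_re, neg_mul_neg]; linarith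
    · simp
  · have b := un_re _ m (ds p hp m j).1 (ds p hp m j).2
    rw [if_neg (qne p hp _ _ _).symm, if_pos (by rfl), zero_sub, neg_re, neg_mul_neg]
    exact lt_trans (by norm_num) b

include hp hc in
theorem net : ∃ V : Finset ℂ, ∃ G : SimpleGraph ℂ,
    (∀ a b : ℂ, G.Adj a b → a ∈ V ∧ b ∈ V) ∧
    (∀ a b c d : ℂ, G.Adj a b → G.Adj c d → ¬ ((a = c ∧ b = d) ∨ (a = d ∧ b = c)) →
      ∀ x ∈ segment ℝ a b ∩ segment ℝ c d, (x = a ∨ x = b) ∧ (x = c ∨ x = d)) ∧
    (∀ a b v : ℂ, G.Adj a b → v ∈ V → v ∈ segment ℝ a b → v = a ∨ v = b) ∧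
    (∀ k ≤ n, ∀ o, qq p k ∈ V ∧ Bq p k o ∈ V) ∧
    (∀ v ∈ V, (∑ᶠ w ∈ G.neighborSet v, (w - v) / ((‖w - v‖ : ℝ) : ℂ)) = tot p n v) ∧
    (∀ v ∈ V, (∀ k ≤ n, ∀ o, qq p k ≠ v ∧ Bq p k o ≠ v) →
      3 ≤ (G.neighborSet v).ncard ∧ tot p n v = 0) ∧
    (∀ k ≤ n, 3 ≤ (G.neighborSet (qq p k)).ncard) := by
  obtain ⟨V, G, c1, c2, c3, c4, c5, c6, c7⟩ := planar (ι := Fin (n + 1) × Option (Fin 3))
    (fun i => qq p i.1) (fun i => Bq p i.1 i.2)
    (fun i h => by
      have := (fl p hp i.1 i.2).1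
      rw [sub_eq_zero.2 h.symm] at this; simp at this)
    (fun i j hij => sub p n hp hc _ _ _ _ (by omega) (by omega)
      fun e1 e2 => hij (Prod.ext (Fin.ext e1) e2))
  refine ⟨V, G, c1, c2, c3, fun k hk o => c4 (⟨k, by omega⟩, o), c5, fun v hv h => ⟨c6 v hv
    fun i => h i.1 (by omega) i.2, ?_⟩, fun k hk => c7 (⟨k, by omega⟩, some 0)
      (⟨k, by omega⟩, some 1) (⟨k, by omega⟩, some 2) (by simp) (by simp) (by simp) rfl rfl⟩
  exact Finset.sum_eq_zero fun i _ => by
    rw [if_neg (h i.1 (by omega) i.2).1, if_neg (h i.1 (by omega) i.2).2, sub_zero]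

end

end Pool.Agent.H68.Gn
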