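import Pool.Agent.H68.Gq4

set_option autoImplicit false

namespace Pool.Agent.H68.Gn

open Complex Metric

noncomputable def Gp (x : (ℂ × ℂ × ℂ) × (Fin 3 → ℂ)) : ℂ :=
  un (-(starRingEnd ℂ) x.1.1 - x.1.2.1) + un (-(starRingEnd ℂ) x.1.2.2 - x.1.2.1) +
  un (x.2 0 - x.1.2.1) + un (x.2 1 - x.1.2.1) + un (x.2 2 - x.1.2.1)

noncomputable def Pp (x : (ℂ × ℂ × ℂ) × (Fin 3 → ℂ)) : ℂ := x.1.2.1 + Sc (Gp x)

lemma psp : (∃ ρ : ℝ, 0 < ρ ∧ ∀ s ∈ closedBall sp ρ, ∀ x ∈ closedBall ((1, 1, 1) : ℂ × ℂ × ℂ) ρ,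
    ∀ y ∈ closedBall ((1, 1, 1) : ℂ × ℂ × ℂ) ρ,
      ‖Pp (x, s) - Pp (y, s) - ⟨0, ((x.1 - y.1).im + (x.2.2 - y.2.2).im) / 5⟩‖ ≤ 1 / 100 * ‖x - y‖) ∧
    ∀ ε > 0, ∃ δ > 0, ∀ s ∈ ball sp δ, ‖Pp ((1, 1, 1), s) - 1‖ ≤ ε := by
  let f := ContinuousLinearMap.fst ℝ (ℂ × ℂ × ℂ) (Fin 3 → ℂ)
  let τ : Fin 3 → ((ℂ × ℂ × ℂ) × (Fin 3 → ℂ)) →L[ℝ] ℂ := fun j =>
    (ContinuousLinearMap.proj j).comp (ContinuousLinearMap.snd ℝ (ℂ × ℂ × ℂ) (Fin 3 → ℂ))
  let a := (ContinuousLinearMap.fst ℝ ℂ (ℂ × ℂ)).comp f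
  let p := ((ContinuousLinearMap.fst ℝ ℂ ℂ).comp (ContinuousLinearMap.snd ℝ ℂ (ℂ × ℂ))).comp f
  let b := ((ContinuousLinearMap.snd ℝ ℂ ℂ).comp (ContinuousLinearMap.snd ℝ ℂ (ℂ × ℂ))).comp f
  let c : ℂ →L[ℝ] ℂ := conjCLE
  obtain ⟨L1, d1, f1⟩ := dunE 0 (-c.comp a - p) ((1, 1, 1), sp) (-2)
    (by simp [a, p, c, f]; norm_num) 2 two_pos (by simp)
  obtain ⟨L2, d2, f2⟩ := dunE 0 (-c.comp b - p) ((1, 1, 1), sp) (-2)
    (by simp [b, p, c, f]; norm_num) 2 two_pos (by simp)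
  obtain ⟨L3, d3, f3⟩ := dunE 0 (τ 0 - p) ((1, 1, 1), sp) 1 (by simp [p, sp, f, τ]; norm_num) 1
    one_pos (by simp)
  obtain ⟨L4, d4, f4⟩ := dunE 0 (τ 1 - p) ((1, 1, 1), sp) _ ((zero_add _).trans e1) 1
    one_pos (n1 _ (by nlinarith [s3]))
  obtain ⟨L5, d5, f5⟩ := dunE 0 (τ 2 - p) ((1, 1, 1), sp) _ ((zero_add _).trans e2) 1
    one_pos (n1 _ (by nlinarith [s3]))
  have d6 := (p.hasStrictFDerivAt (x := ((1, 1, 1), sp))).add
    (Sc.hasStrictFDerivAt.comp ((1, 1, 1), sp) ((((d1.add d2).add d3).add d4).add d5))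
  have d7 : HasStrictFDerivAt Pp _ ((1, 1, 1), sp) := d6.congr_of_eventuallyEq
    (Filter.Eventually.of_forall fun y => by simp [Pp, Gp, a, b, c, p, f, τ, sub_eq_add_neg])
  refine ⟨?_, fun ε hε => ?_⟩
  swap
  · obtain ⟨δ, h0, h1⟩ := Metric.continuousAt_iff.1 d7.continuousAt ε hε
    refine ⟨δ, h0, fun s hs => ?_⟩
    have := h1 (x := ((1, 1, 1), s)) (by simpa [Prod.dist_eq] using hs)
    rw [dist_eq_norm, show Pp ((1, 1, 1), sp) = 1 from Ph1] at this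
    exact this.le
  obtain ⟨S, hs, ap⟩ := d7.approximates_deriv_on_nhds (c := 1 / 100) (Or.inr (by norm_num))
  obtain ⟨ρ, h0, h1⟩ := Metric.nhds_basis_closedBall.mem_iff.1 hs
  refine ⟨ρ, h0, fun s hs x hx y hy => ?_⟩
  have := ap (x, s) (h1 (by rw [← closedBall_prod_same]; exact ⟨hx, hs⟩)) (y, s)
    (h1 (by rw [← closedBall_prod_same]; exact ⟨hy, hs⟩))
  push_cast at this
  have e : ‖((x, s) : (ℂ × ℂ × ℂ) × (Fin 3 → ℂ)) - (y, s)‖ = ‖x - y‖ := by simp [Prod.norm_def]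
  rw [e] at this
  refine le_trans (le_of_eq ?_) this
  congr 1
  congr 1
  simp only [Pi.add_apply, Function.comp_apply, f1, f2, f3, f4, f5, Sc_apply]
  apply Complex.ext <;> simp only [add_re, add_im, sub_re, sub_im, smul_re, smul_im, smul_eq_mul]
  · simp [a, b, c, p, f, τ]; ring
  · simp [a, b, c, p, f, τ]
    linear_combination (-1 / 5 * (x.2.1.im - y.2.1.im)) * s3

lemma chainP : ∃ η δ : ℝ, 0 < η ∧ η ≤ 1 / 100 ∧ 0 < δ ∧ δ ≤ η / 100 ∧ ∀ (σ : ℕ → Fin 3 → ℂ) (u w : ℂ),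
    (∀ k, σ k ∈ ball sp δ) → (∀ k, σ (k + 2) = σ k) → ‖u - ⟨1, 9 / 10 * η⟩‖ ≤ δ →
    ‖w - ⟨1, -(9 / 10 * η)⟩‖ ≤ δ → ∀ n : ℕ, 2 ≤ n → ∃ p : ℕ → ℂ,
    p 0 = u ∧ p (n + 1) = w ∧ (∀ k, ‖p k - 1‖ ≤ η) ∧
    (∀ k, k + 1 ≤ n → Gp ((p k, p (k + 1), p (k + 2)), σ (k + 1)) = 0) ∧
    ∀ k, k + 1 ≤ n → |(p k - p (k + 2)).re| < (p k - p (k + 2)).im / 4 := by
  obtain ⟨⟨ρ, hρ, hP⟩, hC⟩ := psp
  have m1 := min_le_left ρ (1 / 100)
  have m2 := min_le_right ρ (1 / 100)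
  have m0 : 0 < min ρ (1 / 100) := by positivity
  generalize min ρ (1 / 100) = η at *
  obtain ⟨δ, d0, hδ⟩ := hC (η / 100) (by positivity)
  refine ⟨η, min δ (η / 100), m0, m2, by positivity, min_le_right _ _,
    fun σ u w hσ hper hu hw n hn => ?_⟩
  have hσ1 : ∀ k, σ k ∈ closedBall sp ρ := fun k =>
    (ball_subset_closedBall.trans (closedBall_subset_closedBall
      ((min_le_right _ _).trans (by linarith)))) (hσ k)
  have hσ2 : ∀ k, ‖Pp ((1, 1, 1), σ k) - 1‖ ≤ η / 100 := fun k =>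
    hδ _ (ball_subset_ball (min_le_left _ _) (hσ k))
  replace hu := hu.trans (min_le_right _ _)
  replace hw := hw.trans (min_le_right _ _)
  have mem : ∀ a b c : ℂ, ‖a - 1‖ ≤ η → ‖b - 1‖ ≤ η → ‖c - 1‖ ≤ η →
      (a, b, c) ∈ closedBall ((1, 1, 1) : ℂ × ℂ × ℂ) ρ := fun a b c h1 h2 h3 =>
    mem_closedBall_iff_norm.2 ((n3' _ _ _ _ h1 h2 h3).trans m1)
  have lip : ∀ k, ∀ x ∈ closedBall ((1, 1, 1) : ℂ × ℂ × ℂ) ρ,
      ∀ y ∈ closedBall ((1, 1, 1) : ℂ × ℂ × ℂ) ρ,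
      ‖Pp (x, σ k) - Pp (y, σ k)‖ ≤ 41 / 100 * ‖x - y‖ := fun k x hx y hy => by
    have h1 := hP _ (hσ1 k) x hx y hy
    have h2 := norm_sub_norm_le (Pp (x, σ k) - Pp (y, σ k))
      ⟨0, ((x.1 - y.1).im + (x.2.2 - y.2.2).im) / 5⟩
    have h3 := norm_le_abs_re_add_abs_im ⟨0, ((x.1 - y.1).im + (x.2.2 - y.2.2).im) / 5⟩
    have h4 := abs_le.1 ((abs_im_le_norm _).trans (n3 (x - y)).1)
    have h5 := abs_le.1 ((abs_im_le_norm _).trans (n3 (x - y)).2.2)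
    have h6 : |((x.1 - y.1).im + (x.2.2 - y.2.2).im) / 5| ≤ 2 / 5 * ‖x - y‖ := by
      simp only [Prod.fst_sub, Prod.snd_sub] at h4 h5
      rw [abs_le]; constructor <;> linarith [h4.1, h4.2, h5.1, h5.2]
    simp only [abs_zero, zero_add] at h3
    linarith [norm_nonneg (x - y)]
  let ex : (Fin (n + 2) → ℂ) → ℕ → ℂ := fun q k => if h : k < n + 2 then q ⟨k, h⟩ else 1
  let T : (Fin (n + 2) → ℂ) → Fin (n + 2) → ℂ := fun q i => if i.val = 0 then u else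
    if i.val = n + 1 then w else Pp ((ex q (i - 1), ex q i, ex q (i + 1)), σ i)
  have exd : ∀ q q' k, ‖ex q k - ex q' k‖ ≤ dist q q' := fun q q' k => by
    simp only [ex]; split_ifs with h
    · rw [← dist_eq_norm]; exact dist_le_pi_dist q q' _
    · simp
  have ex1 : ∀ q ∈ closedBall (fun _ : Fin (n + 2) => (1 : ℂ)) η, ∀ k, ‖ex q k - 1‖ ≤ η :=
    fun q hq k => by
      have := (exd q (fun _ => 1) k).trans hq
      simpa [ex] using this
  have o : ‖(1 : ℂ) - 1‖ ≤ η := by simp [m0.le]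
  have b1 : ∀ (z : ℂ) (t : ℝ), |t| = 9 / 10 * η → ‖z - ⟨1, t⟩‖ ≤ η / 100 → ‖z - 1‖ ≤ η :=
    fun z t ht hz => by
      have h1 : ‖(⟨1, t⟩ : ℂ) - 1‖ ≤ 9 / 10 * η := (norm_le_abs_re_add_abs_im _).trans (by simp [ht])
      linarith [norm_sub_le_norm_sub_add_norm_sub z ⟨1, t⟩ 1]
  have maps : Set.MapsTo T (closedBall (fun _ => (1 : ℂ)) η) (closedBall (fun _ => (1 : ℂ)) η) :=
    fun q hq => by
      rw [mem_closedBall, dist_pi_le_iff m0.le]
      intro i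
      rw [dist_eq_norm]
      simp only [T]; split_ifs
      · exact b1 _ _ (abs_of_pos (by linarith)) hu
      · exact b1 _ _ (by rw [abs_neg, abs_of_pos (by linarith)]) hw
      · have := lip i _ (mem _ _ _ (ex1 q hq (i - 1)) (ex1 q hq i) (ex1 q hq (i + 1))) _
          (mem 1 1 1 o o o)
        have h2 := n3' _ _ _ _ (ex1 q hq (i - 1)) (ex1 q hq i) (ex1 q hq (i + 1))
        simp only [Prod.mk_sub_mk] at this
        linarith [norm_sub_le_norm_sub_add_norm_sub (Pp ((ex q (i - 1), ex q i, ex q (i + 1)), σ i))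
          (Pp ((1, 1, 1), σ i)) 1, hσ2 i]
  have con : ContractingWith (1 / 2) (maps.restrict T _ _) := by
    refine ⟨by norm_num, LipschitzWith.of_dist_le_mul fun q q' => ?_⟩
    show dist (T q) (T q') ≤ _ * dist q.1 q'.1
    rw [dist_pi_le_iff (by positivity)]
    intro i
    simp only [T]; split_ifs
    · simp
    · simp
    · rw [dist_eq_norm]
      refine (lip _ _ (mem _ _ _ (ex1 _ q.2 _) (ex1 _ q.2 _) (ex1 _ q.2 _)) _
        (mem _ _ _ (ex1 _ q'.2 _) (ex1 _ q'.2 _) (ex1 _ q'.2 _))).trans ?_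
      have := n3' _ _ _ _ (exd q q' (i - 1)) (exd q q' i) (exd q q' (i + 1))
      push_cast
      simp only [Prod.mk_sub_mk]; linarith [dist_nonneg (x := q.1) (y := q'.1)]
  obtain ⟨q, hq, hf, -⟩ := con.exists_fixedPoint' isClosed_closedBall.isComplete maps
    (mem_closedBall_self m0.le) (edist_ne_top _ _)
  have fx : ∀ k (h : k < n + 2), ex q k = T q ⟨k, h⟩ := fun k h => by
    rw [hf.eq]; simp [ex, h]
  have p0 : ex q 0 = u := by rw [fx 0 (by omega)]; simp [T]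
  have p1 : ex q (n + 1) = w := by rw [fx (n + 1) (by omega)]; simp [T]
  have p2 : ∀ k, k + 1 ≤ n → ex q (k + 1) = Pp ((ex q k, ex q (k + 1), ex q (k + 2)), σ (k + 1)) :=
    fun k hk => by
      conv_lhs => rw [fx (k + 1) (by omega)]
      simp only [T]
      rw [if_neg (by omega), if_neg (by omega)]; rfl
  have p3 := ex1 q hq
  generalize ex q = p at *
  have bd : ∀ k, k + 1 ≤ n → |(p (k + 1)).re - 1| ≤ η / 50 ∧ |(p (k + 1)).im| ≤ η / 2 :=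
    fun k hk => by
      have h1 := hP _ (hσ1 (k + 1)) _ (mem _ _ _ (p3 k) (p3 (k + 1)) (p3 (k + 2))) _ (mem 1 1 1 o o o)
      have h2 := lip (k + 1) _ (mem _ _ _ (p3 k) (p3 (k + 1)) (p3 (k + 2))) _ (mem 1 1 1 o o o)
      have h3 := n3' _ _ _ _ (p3 k) (p3 (k + 1)) (p3 (k + 2))
      rw [← p2 k hk] at h1 h2
      have h4 := abs_le.1 ((abs_re_le_norm _).trans h1)
      have h5 := abs_le.1 ((abs_im_le_norm _).trans h2)
      have h6 := abs_le.1 ((abs_re_le_norm _).trans (hσ2 (k + 1)))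
      have h7 := abs_le.1 ((abs_im_le_norm _).trans (hσ2 (k + 1)))
      simp only [Prod.mk_sub_mk, sub_re, one_re, sub_zero, sub_im, one_im, abs_le] at h4 h5 h6 h7 ⊢
      refine ⟨⟨?_, ?_⟩, ?_, ?_⟩ <;> linarith [h4.1, h4.2, h5.1, h5.2, h6.1, h6.2, h7.1, h7.2]
  have u1 := abs_le.1 ((abs_re_le_norm _).trans hu)
  have u2 := abs_le.1 ((abs_im_le_norm _).trans hu)
  have w1 := abs_le.1 ((abs_re_le_norm _).trans hw)
  have w2 := abs_le.1 ((abs_im_le_norm _).trans hw)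
  obtain ⟨m, rfl⟩ : ∃ m, n = m + 2 := ⟨n - 2, by omega⟩
  refine ⟨p, p0, p1, p3, fun k hk => ?_, fun k hk => maxp (fun k => (p k - p (k + 2)).re)
    (fun k => (p k - p (k + 2)).im) (m + 1) ?_ ?_ (fun k hk => ?_) k (by omega)⟩
  · have h := p2 k hk
    simp only [Pp, left_eq_add, Sc_apply, Complex.ext_iff, zero_re, zero_im] at h
    apply Complex.ext <;> simp only [zero_re, zero_im] <;> linarith [h.1, h.2]
  · obtain ⟨h1, h2⟩ := bd 1 (by omega)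
    simp only [p0, sub_re, sub_im, zero_add, abs_le, abs_lt] at *
    constructor <;> linarith [h1.1, h1.2, h2.1, h2.2, u1.1, u1.2, u2.1, u2.2]
  · obtain ⟨h1, h2⟩ := bd m (by omega)
    have : p (m + 1 + 2) = w := p1
    simp only [this, sub_re, sub_im, abs_le, abs_lt] at *
    constructor <;> linarith [h1.1, h1.2, h2.1, h2.2, w1.1, w1.2, w2.1, w2.2]
  · have h1 := hP _ (hσ1 (k + 1)) _ (mem _ _ _ (p3 k) (p3 (k + 1)) (p3 (k + 2))) _
      (mem _ _ _ (p3 (k + 2)) (p3 (k + 3)) (p3 (k + 4)))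
    have h2 := p2 (k + 2) (by omega)
    rw [show σ (k + 2 + 1) = σ (k + 1) from hper (k + 1)] at h2
    rw [← p2 k (by omega), ← h2] at h1
    have h4 := (abs_re_le_norm _).trans h1
    have h5 := (abs_le.1 ((abs_im_le_norm _).trans h1)).1
    have a1 := norm_le_abs_re_add_abs_im (p k - p (k + 2))
    have a2 := norm_le_abs_re_add_abs_im (p (k + 1) - p (k + 3))
    have a3 := norm_le_abs_re_add_abs_im (p (k + 2) - p (k + 4))
    have c1 := norm_nonneg (p k - p (k + 2))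
    have c2 := norm_nonneg (p (k + 1) - p (k + 3))
    have c3 := norm_nonneg (p (k + 2) - p (k + 4))
    refine ⟨_, n3' (p k - p (k + 2)) (p (k + 1) - p (k + 3)) (p (k + 2) - p (k + 4)) _
      (by linarith) (by linarith) (by linarith), ?_, ?_⟩
    · simp only [Prod.mk_sub_mk, sub_re, sub_zero] at h4 ⊢; linarith
    · simp only [Prod.mk_sub_mk, sub_im] at h5 ⊢; linarith

lemma coneP (p : ℕ → ℂ) (n : ℕ)
    (h : ∀ k, k + 1 ≤ n → |(p k - p (k + 2)).re| < (p k - p (k + 2)).im / 4) (i j : ℕ)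
    (hij : i < j) (hj : j ≤ n + 1) (hs : sg i = sg j) : |(p i - p j).re| < (p i - p j).im / 4 := by
  induction j using Nat.strong_induction_on with
  | _ j ih =>
    obtain ⟨m, rfl⟩ : ∃ m, j = m + 2 := by
      refine ⟨j - 2, ?_⟩
      have : j ≠ i + 1 := by
        rintro rfl; rw [sg_succ] at hs; rcases sg_or i with e | e <;> rw [e] at hs <;> norm_num at hs
      omega
    rw [sg_succ, sg_succ, neg_neg] at hs
    have : i ≠ m + 1 := by
      rintro rfl; rw [sg_succ] at hs; rcases sg_or m with e | e <;> rw [e] at hs <;> norm_num at hs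
    rcases (show i ≤ m by omega).eq_or_lt with rfl | h1
    · exact h i (by omega)
    · have a := ih m (by omega) h1 (by omega) hs
      have b := h m (by omega)
      have c := abs_add_le (p i - p m).re (p m - p (m + 2)).re
      simp only [sub_re, sub_im] at *
      rw [sub_add_sub_cancel] at c
      linarith

end Pool.Agent.H68.Gn
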