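import Pool.Agent.H68.Gp1

set_option autoImplicit false

namespace Pool.Agent.H68.Gn

open Complex Set Classical

def tw : Fin 3 → ℤ × ℤ := ![(200, 0), (150, 87), (150, -87)]

lemma tab5 : ∀ i j : Fin 3, i ≠ j → ok (tw i - (100, 0)) (tw j - (100, 0)) := by decide

lemma spbP (σ : ℕ → Fin 3 → ℂ) (hσ : ∀ k j, ap 3 (σ k j) (tw j)) (k : ℕ) (j : Fin 3) :
    147 / 100 ≤ (σ k j).re ∧ |(σ k j).im| ≤ 9 / 10 := by
  have := hσ k j
  fin_cases j <;> simp only [ap, tw, abs_le] at this ⊢ <;> simp at this ⊢ <;>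
    refine ⟨?_, ?_, ?_⟩ <;> linarith [this.1.1, this.1.2, this.2.1, this.2.2]

noncomputable def Bp (p : ℕ → ℂ) (σ : ℕ → Fin 3 → ℂ) (k : ℕ) (o : Option (Fin 3)) : ℂ :=
  o.elim (qq p (k + 1)) fun j => R (sg k) (σ k j)

noncomputable def totP (p : ℕ → ℂ) (σ : ℕ → Fin 3 → ℂ) (n : ℕ) (v : ℂ) : ℂ :=
  ∑ i : Fin (n + 1) × Option (Fin 3),
    ((if qq p i.1 = v then un (Bp p σ i.1 i.2 - qq p i.1) else 0) -
      (if Bp p σ i.1 i.2 = v then un (Bp p σ i.1 i.2 - qq p i.1) else 0))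

section
variable (p : ℕ → ℂ) (σ : ℕ → Fin 3 → ℂ) (n : ℕ)
  (hp : ∀ k, |(p k).re - 1| ≤ 1 / 100 ∧ |(p k).im| ≤ 1 / 100)
  (hσ : ∀ k j, ap 3 (σ k j) (tw j))
  (hc : ∀ i j, i < j → j ≤ n + 1 → sg i = sg j → |(p i - p j).re| < (p i - p j).im / 4)

include hp hσ in
lemma dnP (k : ℕ) : sg k * (Bp p σ k none - qq p k).re < -1 ∧ |(Bp p σ k none - qq p k).im| ≤ 1 := by
  obtain ⟨a1, a2⟩ := hp k
  obtain ⟨b1, b2⟩ := hp (k + 1)
  rw [abs_le] at a1 a2 b1 b2 ⊢
  rcases sg_or k with h | h <;> simp [Bp, qq, sg_succ, h] <;> refine ⟨?_, ?_, ?_⟩ <;> linarith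

include hp hσ in
lemma dsP (k : ℕ) (j : Fin 3) : 0 < sg k * (Bp p σ k (some j) - qq p k).re ∧
    |(Bp p σ k (some j) - qq p k).im| ≤ 2 * (sg k * (Bp p σ k (some j) - qq p k).re) := by
  obtain ⟨a1, a2⟩ := hp k
  obtain ⟨b1, b2⟩ := spbP σ hσ k j
  rw [abs_le] at a1 a2 b2 ⊢
  rcases sg_or k with h | h <;> simp [Bp, qq, h] <;> refine ⟨?_, ?_, ?_⟩ <;> linarith

include hp hσ in
lemma flP (k : ℕ) (o : Option (Fin 3)) : 0 < |(Bp p σ k o - qq p k).re| ∧
    |(Bp p σ k o - qq p k).im| ≤ 2 * |(Bp p σ k o - qq p k).re| := by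
  have e : ∀ x : ℝ, |x| = |sg k * x| := fun x => by rcases sg_or k with h | h <;> simp [h]
  rw [e (_ : ℂ).re]
  rcases o with _ | j
  · obtain ⟨a, b⟩ := dnP p σ hp hσ k
    rw [abs_of_neg (a := sg k * _) (by linarith)]; constructor <;> linarith
  · obtain ⟨a, b⟩ := dsP p σ hp hσ k j
    rw [abs_of_pos a]; exact ⟨a, b⟩

include hc in
lemma stP (i j : ℕ) (hij : i ≠ j) (hi : i ≤ n + 1) (hj : j ≤ n + 1) (h : sg i = sg j) :
    |(qq p i - qq p j).re| < |(qq p i - qq p j).im| / 4 := by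
  have e : |(qq p i - qq p j).re| = |(p i - p j).re| := by
    rcases sg_or j with h' | h' <;> simp [qq, h, h']
    rw [abs_sub_comm]; congr 1; ring
  have e' : (qq p i - qq p j).im = (p i - p j).im := rfl
  rw [e, e']
  rcases lt_or_gt_of_ne hij with l | l
  · have := hc i j l hj h
    have := le_abs_self (p i - p j).im
    linarith
  · have a := hc j i l hi h.symm
    have := neg_abs_le (p i - p j).im
    rw [← neg_sub, neg_re, neg_im, abs_neg] at a
    linarith

include hp hc in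
lemma qinjP (i j : ℕ) (hi : i ≤ n + 1) (hj : j ≤ n + 1) (h : qq p i = qq p j) : i = j := by
  have e : (p i).im = (p j).im := by
    have := congrArg im h
    exact this
  have hs : sg i = sg j := by
    have a := congrArg re h
    have b := (abs_le.1 (hp i).1).1
    have c := (abs_le.1 (hp j).1).1
    rcases sg_or i with e | e <;> rcases sg_or j with e' | e' <;> simp [qq, e, e'] at a ⊢ <;> linarith
  by_contra hij
  rcases lt_or_gt_of_ne hij with l | l
  · have := hc i j l hj hs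
    have := abs_nonneg (p i - p j).re
    rw [sub_im] at *; linarith
  · have := hc j i l hi hs.symm
    have := abs_nonneg (p j - p i).re
    rw [sub_im] at *; linarith

include hp hσ in
lemma spkP (k : ℕ) (i j : Fin 3) (h : i ≠ j) :
    cr (Bp p σ k (some i) - qq p k) (Bp p σ k (some j) - qq p k) ≠ 0 := by
  have P : ap 3 (p k) (100, 0) := by
    obtain ⟨a1, a2⟩ := hp k
    simp only [ap, abs_le] at *; push_cast; refine ⟨⟨?_, ?_⟩, ?_, ?_⟩ <;> linarith [a1.1, a2.1]
  show cr (R (sg k) (σ k i) - R (sg k) (p k)) (R (sg k) (σ k j) - R (sg k) (p k)) ≠ 0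
  rw [R_sub, R_sub]
  exact crR _ _ _ (cr_ap (ap_sub (hσ k i) P) (ap_sub (hσ k j) P) (tab5 i j h))

include hp hσ hc in
lemma sub0P (k k' : ℕ) (o' : Option (Fin 3)) (hk : k ≤ n) (hk' : k' ≤ n) (h : sg k' = -sg k) :
    (segment ℝ (qq p k) (Bp p σ k none) ∩ segment ℝ (qq p k') (Bp p σ k' o')).Subsingleton := by
  obtain ⟨f1, f2⟩ := flP p σ hp hσ k none
  by_cases e : k' = k + 1
  · subst e
    rcases o' with _ | j
    · refine sub_cr _ _ _ _ (Or.inr (cr_ne _ _ f1 f2 ?_))
      exact stP p n hc (k + 2) k (by omega) (by omega) (by omega) (by rw [sg_succ, sg_succ, neg_neg])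
    · rw [segment_symm]
      refine sub_sep (qq p (k + 1)) _ _ (sg (k + 1)) ?_ (dsP p σ hp hσ _ j).1
      have := (dnP p σ hp hσ k).1
      rw [sg_succ, ← neg_sub, neg_re, neg_mul_neg]
      exact lt_trans this (by norm_num)
  · refine sub_cr _ _ _ _ (Or.inl ?_)
    have := cr_ne _ _ f1 f2 (stP p n hc k' (k + 1) e (by omega) (by omega) (by rw [sg_succ, h]))
    refine fun h0 => this ?_
    simp only [cr, Bp, Option.elim, sub_re, sub_im] at h0 ⊢
    linear_combination h0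

include hp hσ hc in
lemma subP (k k' : ℕ) (o o' : Option (Fin 3)) (hk : k ≤ n) (hk' : k' ≤ n) (h : k = k' → o ≠ o') :
    (segment ℝ (qq p k) (Bp p σ k o) ∩ segment ℝ (qq p k') (Bp p σ k' o')).Subsingleton := by
  obtain ⟨f1, f2⟩ := flP p σ hp hσ k o
  by_cases e : k' = k
  · subst e
    have := (dnP p σ hp hσ k').1
    rcases o with _ | j <;> rcases o' with _ | j'
    · exact absurd rfl (h rfl)
    · exact sub_sep _ _ _ (sg k') (by linarith) (dsP p σ hp hσ _ j').1
    · rw [inter_comm]; exact sub_sep _ _ _ (sg k') (by linarith) (dsP p σ hp hσ _ j).1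
    · exact sub_cr _ _ _ _ (Or.inr (spkP p σ hp hσ _ _ _ fun e => h rfl (by rw [e])))
  by_cases e' : sg k' = sg k
  · exact sub_cr _ _ _ _ (Or.inl (cr_ne _ _ f1 f2 (stP p n hc k' k e (by omega) (by omega) e')))
  have e2 : sg k' = -sg k := by
    rcases sg_or k with a | a <;> rcases sg_or k' with b | b <;> simp_all
  rcases o with _ | j
  · exact sub0P p σ n hp hσ hc k k' o' hk hk' e2
  rcases o' with _ | j'
  · rw [inter_comm]; exact sub0P p σ n hp hσ hc k' k _ hk' hk (by rw [e2, neg_neg])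
  have a1 := abs_le.1 (hp k).1
  have a2 := abs_le.1 (hp k').1
  have b1 := (spbP σ hσ k j).1
  have b2 := (spbP σ hσ k' j').1
  refine sub_dis _ _ _ _ (sg k) ?_ ?_ ?_ ?_ <;> rcases sg_or k with a | a <;>
    simp [qq, Bp, e2, a] <;> linarith [a1.1, a2.1]

include hp hσ in
lemma qneP (k m : ℕ) (j : Fin 3) : R (sg m) (σ m j) ≠ qq p k := by
  intro h
  have a := congrArg re h
  have b := (spbP σ hσ m j).1
  have c := abs_le.1 (hp k).1
  rcases sg_or k with h | h <;> rcases sg_or m with h' | h' <;> simp [qq, h, h'] at a <;>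
    linarith [c.1, c.2]

include hp hσ hc in
lemma totqP (m : ℕ) (hm : m ≤ n + 1) : totP p σ n (qq p m) =
    (if m ≤ n then ∑ o, un (Bp p σ m o - qq p m) else 0) -
      (if 1 ≤ m then un (qq p m - qq p (m - 1)) else 0) := by
  rw [totP, Fintype.sum_prod_type]
  rw [Fin.sum_univ_eq_sum_range (fun k => ∑ o : Option (Fin 3),
    ((if qq p k = qq p m then un (Bp p σ k o - qq p k) else 0) -
      (if Bp p σ k o = qq p m then un (Bp p σ k o - qq p k) else 0))) (n + 1)]
  have e : ∀ k ∈ Finset.range (n + 1), (∑ o : Option (Fin 3),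
    ((if qq p k = qq p m then un (Bp p σ k o - qq p k) else 0) -
      (if Bp p σ k o = qq p m then un (Bp p σ k o - qq p k) else 0))) =
      (if k = m then ∑ o, un (Bp p σ m o - qq p m) else 0) -
      (if k = m - 1 then (if 1 ≤ m then un (qq p m - qq p (m - 1)) else 0) else 0) := by
    intro k hk
    rw [Finset.mem_range] at hk
    rw [Finset.sum_sub_distrib]
    congr 1
    · by_cases e : k = m
      · subst e; simp
      · have : qq p k ≠ qq p m := fun h => e (qinjP p n hp hc _ _ (by omega) hm h)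
        simp [e, this]
    · rw [Fintype.sum_option, Finset.sum_eq_zero (fun j _ => if_neg
        (show Bp p σ k (some j) ≠ qq p m from qneP p σ hp hσ m k j)), add_zero]
      by_cases e : k + 1 = m
      · subst e; simp [Bp]
      · have : Bp p σ k none ≠ qq p m := fun h => e (qinjP p n hp hc _ _ (by omega) hm h)
        rw [if_neg this]
        split_ifs <;> first | rfl | omega
  rw [Finset.sum_congr rfl e, Finset.sum_sub_distrib, Finset.sum_ite_eq', Finset.sum_ite_eq']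
  simp only [Finset.mem_range, Nat.lt_succ_iff]
  rw [if_pos (show m - 1 ≤ n by omega)]

include hp hσ hc in
lemma tot_midP (k : ℕ) (hk : k + 1 ≤ n) (hG : Gp ((p k, p (k + 1), p (k + 2)), σ (k + 1)) = 0) :
    totP p σ n (qq p (k + 1)) = 0 := by
  rw [totqP p σ n hp hσ hc _ (by omega), if_pos hk, if_pos (by omega), Fintype.sum_option,
    Fin.sum_univ_three, sub_eq_add_neg, ← un_neg, Nat.add_sub_cancel]
  have e1 : Bp p σ (k + 1) none - qq p (k + 1) =
      R (sg (k + 1)) (-(starRingEnd ℂ) (p (k + 2)) - p (k + 1)) := by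
    apply Complex.ext <;> simp [Bp, qq, sg_succ]; ring
  have e2 : -(qq p (k + 1) - qq p k) = R (sg (k + 1)) (-(starRingEnd ℂ) (p k) - p (k + 1)) := by
    apply Complex.ext <;> simp [qq, sg_succ]; ring
  have e3 : ∀ j, Bp p σ (k + 1) (some j) - qq p (k + 1) = R (sg (k + 1)) (σ (k + 1) j - p (k + 1)) := by
    intro j; apply Complex.ext <;> simp [Bp, qq]; ring
  rw [e1, e2, e3, e3, e3, un_R, un_R, un_R, un_R, un_R]
  have a := congrArg re hG
  have b := congrArg im hG
  simp only [Gp, add_re, add_im, zero_re, zero_im] at a b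
  apply Complex.ext <;> simp only [add_re, add_im, R_re, R_im, zero_re, zero_im]
  · linear_combination sg (k + 1) * a
  · linear_combination b

include hp hσ hc in
lemma tot_zeroP : totP p σ n (qq p 0) ≠ 0 := by
  rw [totqP p σ n hp hσ hc _ (by omega), if_pos (Nat.zero_le _), if_neg (by omega), Fintype.sum_option,
    Fin.sum_univ_three, sub_zero]
  intro h
  have a := congrArg re h
  have b := fun j => un_re _ 0 (dsP p σ hp hσ 0 j).1 (dsP p σ hp hσ 0 j).2
  have c := un_ge (Bp p σ 0 none - qq p 0)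
  simp only [sg, pow_zero, one_mul, add_re, zero_re] at a b
  linarith [b 0, b 1, b 2]

include hp hσ hc in
lemma tot_lastP : totP p σ n (qq p (n + 1)) ≠ 0 := by
  rw [totqP p σ n hp hσ hc _ le_rfl, if_neg (by omega), if_pos (by omega), zero_sub, neg_ne_zero,
    Nat.add_sub_cancel]
  have : qq p (n + 1) - qq p n ≠ 0 := fun h => by
    have := qinjP p n hp hc _ _ le_rfl (by omega) (sub_eq_zero.1 h); omega
  rw [un]
  exact div_ne_zero this (by simpa using this)

include hp hσ in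
lemma tot_spP (m : ℕ) (hm : m ≤ n) (j : Fin 3) : totP p σ n (R (sg m) (σ m j)) ≠ 0 := by
  intro h
  have a : -sg m * (totP p σ n (R (sg m) (σ m j))).re = 0 := by rw [h]; simp
  rw [totP, re_sum, Finset.mul_sum] at a
  refine absurd a (ne_of_gt (Finset.sum_pos' (fun i _ => ?_) ⟨(⟨m, by omega⟩, some j), by simp, ?_⟩))
  · obtain ⟨k, o⟩ := i
    rw [if_neg (qneP p σ hp hσ _ _ _).symm]
    split_ifs with e
    · rcases o with _ | j'
      · exact absurd e.symm (qneP p σ hp hσ _ _ _)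
      · have b := un_re _ k (dsP p σ hp hσ k j').1 (dsP p σ hp hσ k j').2
        have c := congrArg re e
        have d1 := (spbP σ hσ m j).1
        have d2 := (spbP σ hσ k j').1
        have : sg m = sg k := by
          rcases sg_or k with h | h <;> rcases sg_or m with h' | h' <;> simp [Bp, h, h'] at c ⊢ <;>
            linarith
        rw [this, zero_sub, neg_re, neg_mul_neg]; linarith
    · simp
  · have b := un_re _ m (dsP p σ hp hσ m j).1 (dsP p σ hp hσ m j).2
    rw [if_neg (qneP p σ hp hσ _ _ _).symm, if_pos (by rfl), zero_sub, neg_re, neg_mul_neg]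
    exact lt_trans (by norm_num) b

include hp hσ hc in
theorem netP : ∃ V : Finset ℂ, ∃ G : SimpleGraph ℂ,
    (∀ a b : ℂ, G.Adj a b → a ∈ V ∧ b ∈ V) ∧
    (∀ a b c d : ℂ, G.Adj a b → G.Adj c d → ¬ ((a = c ∧ b = d) ∨ (a = d ∧ b = c)) →
      ∀ x ∈ segment ℝ a b ∩ segment ℝ c d, (x = a ∨ x = b) ∧ (x = c ∨ x = d)) ∧
    (∀ a b v : ℂ, G.Adj a b → v ∈ V → v ∈ segment ℝ a b → v = a ∨ v = b) ∧
    (∀ k ≤ n, ∀ o, qq p k ∈ V ∧ Bp p σ k o ∈ V) ∧
    (∀ v ∈ V, (∑ᶠ w ∈ G.neighborSet v, (w - v) / ((‖w - v‖ : ℝ) : ℂ)) = totP p σ n v) ∧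
    (∀ v ∈ V, (∀ k ≤ n, ∀ o, qq p k ≠ v ∧ Bp p σ k o ≠ v) →
      3 ≤ (G.neighborSet v).ncard ∧ totP p σ n v = 0) ∧
    (∀ k ≤ n, 3 ≤ (G.neighborSet (qq p k)).ncard) := by
  obtain ⟨V, G, c1, c2, c3, c4, c5, c6, c7⟩ := planar (ι := Fin (n + 1) × Option (Fin 3))
    (fun i => qq p i.1) (fun i => Bp p σ i.1 i.2)
    (fun i h => by
      have := (flP p σ hp hσ i.1 i.2).1
      rw [sub_eq_zero.2 h.symm] at this; simp at this)
    (fun i j hij => subP p σ n hp hσ hc _ _ _ _ (by omega) (by omega)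
      fun e1 e2 => hij (Prod.ext (Fin.ext e1) e2))
  refine ⟨V, G, c1, c2, c3, fun k hk o => c4 (⟨k, by omega⟩, o), c5, fun v hv h => ⟨c6 v hv
    fun i => h i.1 (by omega) i.2, ?_⟩, fun k hk => c7 (⟨k, by omega⟩, some 0)
      (⟨k, by omega⟩, some 1) (⟨k, by omega⟩, some 2) (by simp) (by simp) (by simp) rfl rfl⟩
  exact Finset.sum_eq_zero fun i _ => by
    rw [if_neg (h i.1 (by omega) i.2).1, if_neg (h i.1 (by omega) i.2).2, sub_zero]

end

end Pool.Agent.H68.Gn
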