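import Pool.Agent.H68.Gw5

set_option autoImplicit false

namespace Pool.Agent.H68.Gn

open Complex Metric

lemma nu (u : ℂ) (hu : u.re * u.re + u.im * u.im = 1) : ‖u‖ = 1 := by
  rw [norm_eq_sqrt_sq_add_sq, pow_two, pow_two, hu, Real.sqrt_one]

lemma unU (u : ℂ) (r : ℝ) (hr : 0 < r) (hu : u.re * u.re + u.im * u.im = 1) : un (r * u) = u := by
  rw [un_smul r hr, un, nu u hu]; simp

lemma dunU {E : Type} [NormedAddCommGroup E] [NormedSpace ℝ E] (c : ℂ) (M : E →L[ℝ] ℂ) (x : E)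
    (u : ℂ) (r : ℝ) (hr : 0 < r) (hu : u.re * u.re + u.im * u.im = 1) (hv : c + M x = r * u) :
    ∃ L : E →L[ℝ] ℂ, HasStrictFDerivAt (fun y => un (c + M y)) L x ∧ ∀ d,
      L d = r⁻¹ • (M d - (u.re * (M d).re + u.im * (M d).im) • u) := by
  obtain ⟨L, h1, h2⟩ := dunE c M x _ hv r hr (by
    rw [norm_mul, nu u hu, norm_real, Real.norm_eq_abs, abs_of_pos hr, mul_one])
  refine ⟨L, h1, fun d => ?_⟩
  rw [h2]
  apply Complex.ext <;> simp only [sub_re, sub_im, smul_re, smul_im, smul_eq_mul, re_ofReal_mul,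
    im_ofReal_mul] <;> field_simp

noncomputable def b0 : ℝ := √99
noncomputable def a0 : ℝ := (24 * b0 + 7 * √3 * b0 - 24 * √3 - 32) / 11
noncomputable def l0 : ℝ := 5 * (3 * √3 * b0 + 4 * b0 - 9 - 4 * √3) / 11

lemma b2 : b0 * b0 = 99 := Real.mul_self_sqrt (by norm_num)
lemma bb : 99498 / 10000 ≤ b0 ∧ b0 ≤ 99499 / 10000 :=
  ⟨Real.le_sqrt_of_sq_le (by norm_num), Real.sqrt_le_iff.2 ⟨by norm_num, by norm_num⟩⟩
lemma sb : 173205 / 100000 ≤ √3 ∧ √3 ≤ 173206 / 100000 :=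
  ⟨Real.le_sqrt_of_sq_le (by norm_num), Real.sqrt_le_iff.2 ⟨by norm_num, by norm_num⟩⟩
lemma sbb : 17233 / 1000 ≤ √3 * b0 ∧ √3 * b0 ≤ 17234 / 1000 := by
  constructor <;> nlinarith [bb.1, bb.2, sb.1, sb.2]
lemma ab : 25986 / 1000 ≤ a0 ∧ a0 ≤ 25989 / 1000 := by
  unfold a0; constructor <;> linarith [bb.1, bb.2, sb.1, sb.2, sbb.1, sbb.2]
lemma lb : 3434 / 100 ≤ l0 ∧ l0 ≤ 3436 / 100 := by
  unfold l0; constructor <;> linarith [bb.1, bb.2, sb.1, sb.2, sbb.1, sbb.2]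
lemma el1 : a0 / 2 + √3 * b0 / 2 - 1 = 3 / 5 * l0 := by unfold a0 l0; ring
lemma el2 : √3 * a0 / 2 + b0 / 2 = 4 / 5 * l0 := by
  unfold a0 l0; linear_combination (7 * b0 - 24) / 22 * s3

noncomputable def Bt (t : ℝ) : ℂ := ⟨t, b0⟩
noncomputable def Dt (t : ℝ) : ℂ := ⟨-t, -b0⟩
noncomputable def E1 (t : ℝ) : ℂ := ⟨a0 / 2 + √3 * b0 / 2 + t / 2, √3 * a0 / 2 + b0 / 2 - √3 * t / 2⟩
noncomputable def E2 (t : ℝ) : ℂ :=
  ⟨a0 / 2 + √3 * b0 / 2 - t / 2, -(√3 * a0 / 2 + b0 / 2) - √3 * t / 2⟩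

noncomputable def Gq (x : (ℂ × ℂ × ℂ) × ℝ) : ℂ :=
  un (-(starRingEnd ℂ) x.1.1 - x.1.2.1) + un (-(starRingEnd ℂ) x.1.2.2 - x.1.2.1) +
  un (a0 - x.1.2.1) + un (Bt x.2 - x.1.2.1) + un (Dt x.2 - x.1.2.1) +
  un (E1 x.2 - x.1.2.1) + un (E2 x.2 - x.1.2.1)

noncomputable def hx : ℝ := 99 / 500 + 32 / 25 * l0⁻¹
noncomputable def hy : ℝ := 501 / 500 + (a0 - 1)⁻¹ + 18 / 25 * l0⁻¹

noncomputable def Sq : ℂ →L[ℝ] ℂ := LinearMap.toContinuousLinearMap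
  { toFun := fun w => ⟨hx⁻¹ * w.re, hy⁻¹ * w.im⟩
    map_add' := fun x y => by apply Complex.ext <;> simp <;> ring
    map_smul' := fun c x => by apply Complex.ext <;> simp <;> ring }

lemma Sq_apply (w : ℂ) : Sq w = ⟨hx⁻¹ * w.re, hy⁻¹ * w.im⟩ := rfl

noncomputable def Pq (x : (ℂ × ℂ × ℂ) × ℝ) : ℂ := x.1.2.1 + Sq (Gq x)

lemma inv_bd (x l u : ℝ) (h0 : 0 < x) (h1 : l * x ≤ 1) (h2 : 1 ≤ u * x) : l ≤ x⁻¹ ∧ x⁻¹ ≤ u := by
  rw [inv_eq_one_div, le_div_iff₀ h0, div_le_iff₀ h0]; exact ⟨h1, h2⟩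

lemma i1 : 4 / 100 ≤ (a0 - 1)⁻¹ ∧ (a0 - 1)⁻¹ ≤ 4003 / 100000 :=
  inv_bd _ _ _ (by linarith [ab.1]) (by linarith [ab.2]) (by linarith [ab.1])
lemma i2 : 291 / 10000 ≤ l0⁻¹ ∧ l0⁻¹ ≤ 2913 / 100000 :=
  inv_bd _ _ _ (by linarith [lb.1]) (by linarith [lb.2]) (by linarith [lb.1])
lemma hx0 : 0 < hx := by unfold hx; linarith [i2.1]
lemma hy0 : 10629 / 10000 ≤ hy ∧ hy ≤ 10631 / 10000 := by
  unfold hy; constructor <;> linarith [i1.1, i1.2, i2.1, i2.2]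
lemma i3 : 94 / 100 ≤ hy⁻¹ ∧ hy⁻¹ ≤ 942 / 1000 :=
  inv_bd _ _ _ (by linarith [hy0.1]) (by linarith [hy0.2]) (by linarith [hy0.1])

noncomputable def cq : ℝ := hy⁻¹ * (b0 / 500 - l0⁻¹ * (9 * √3 / 25 + 12 / 25))

lemma cb : -12 / 1000 ≤ cq ∧ cq ≤ -11 / 1000 := by
  have h1 : 321 / 10000 ≤ l0⁻¹ * (9 * √3 / 25 + 12 / 25) ∧
      l0⁻¹ * (9 * √3 / 25 + 12 / 25) ≤ 322 / 10000 := by
    constructor <;> nlinarith [i2.1, i2.2, sb.1, sb.2]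
  unfold cq
  generalize l0⁻¹ * (9 * √3 / 25 + 12 / 25) = w at *
  constructor <;> nlinarith [i3.1, i3.2, bb.1, bb.2, h1.1, h1.2]

lemma w1 : -(starRingEnd ℂ) 1 - 1 = ((2 : ℝ) : ℂ) * (-1) := by simp; norm_num
lemma w2 : (a0 : ℂ) - 1 = ((a0 - 1 : ℝ) : ℂ) * 1 := by simp
lemma w3 : Bt 0 - 1 = ((10 : ℝ) : ℂ) * ⟨-1 / 10, b0 / 10⟩ := by
  apply Complex.ext <;> simp [Bt] <;> ring
lemma w4 : Dt 0 - 1 = ((10 : ℝ) : ℂ) * ⟨-1 / 10, -b0 / 10⟩ := by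
  apply Complex.ext <;> simp [Dt] <;> ring
lemma w5 : E1 0 - 1 = (l0 : ℂ) * ⟨3 / 5, 4 / 5⟩ := by
  apply Complex.ext <;> simp [E1] <;> linarith [el1, el2]
lemma w6 : E2 0 - 1 = (l0 : ℂ) * ⟨3 / 5, -4 / 5⟩ := by
  apply Complex.ext <;> simp [E2] <;> linarith [el1, el2]

lemma Pq1 : Pq ((1, 1, 1), 0) = 1 := by
  have l := lb.1
  have a := ab.1
  simp only [Pq, Gq, w1, w2, w3, w4, w5, w6]
  rw [unU _ _ two_pos (by simp), unU _ _ (by linarith) (by simp),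
    unU _ _ (by norm_num) (by simp only; linarith [b2]),
    unU _ _ (by norm_num) (by simp only; linarith [b2]), unU _ _ (by linarith) (by norm_num),
    unU _ _ (by linarith) (by norm_num), Sq_apply]
  apply Complex.ext <;> simp <;> norm_num [neg_div]

lemma psq : ∃ ρ : ℝ, 0 < ρ ∧ ∀ x ∈ closedBall (((1, 1, 1), 0) : (ℂ × ℂ × ℂ) × ℝ) ρ,
    ∀ y ∈ closedBall (((1, 1, 1), 0) : (ℂ × ℂ × ℂ) × ℝ) ρ,
      ‖Pq x - Pq y - ⟨0, hy⁻¹ / 2 * ((x.1.1 - y.1.1).im + (x.1.2.2 - y.1.2.2).im) +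
        cq * (x.2 - y.2)⟩‖ ≤ 1 / 1000000 * ‖x - y‖ := by
  have l := lb.1
  have ha := ab.1
  let f := ContinuousLinearMap.fst ℝ (ℂ × ℂ × ℂ) ℝ
  let τ := ContinuousLinearMap.snd ℝ (ℂ × ℂ × ℂ) ℝ
  let a := (ContinuousLinearMap.fst ℝ ℂ (ℂ × ℂ)).comp f
  let p := ((ContinuousLinearMap.fst ℝ ℂ ℂ).comp (ContinuousLinearMap.snd ℝ ℂ (ℂ × ℂ))).comp f
  let b := ((ContinuousLinearMap.snd ℝ ℂ ℂ).comp (ContinuousLinearMap.snd ℝ ℂ (ℂ × ℂ))).comp f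
  let c : ℂ →L[ℝ] ℂ := conjCLE
  obtain ⟨L1, d1, f1⟩ := dunU 0 (-c.comp a - p) ((1, 1, 1), 0) (-1) 2 two_pos (by simp)
    (by rw [← w1]; simp [a, p, c, f])
  obtain ⟨L2, d2, f2⟩ := dunU 0 (-c.comp b - p) ((1, 1, 1), 0) (-1) 2 two_pos (by simp)
    (by rw [← w1]; simp [b, p, c, f])
  obtain ⟨L3, d3, f3⟩ := dunU a0 (-p) ((1, 1, 1), 0) 1 (a0 - 1) (by linarith) (by simp)
    (by rw [← w2]; simp [p, f, sub_eq_add_neg])
  obtain ⟨L4, d4, f4⟩ := dunU (Bt 0) (τ.smulRight 1 - p) ((1, 1, 1), 0) ⟨-1 / 10, b0 / 10⟩ 10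
    (by norm_num) (by simp only; linarith [b2]) (by rw [← w3]; simp [p, f, τ, sub_eq_add_neg])
  obtain ⟨L5, d5, f5⟩ := dunU (Dt 0) (τ.smulRight (-1) - p) ((1, 1, 1), 0) ⟨-1 / 10, -b0 / 10⟩ 10
    (by norm_num) (by simp only; linarith [b2]) (by rw [← w4]; simp [p, f, τ, sub_eq_add_neg])
  obtain ⟨L6, d6, f6⟩ := dunU (E1 0) (τ.smulRight ⟨1 / 2, -√3 / 2⟩ - p) ((1, 1, 1), 0)
    ⟨3 / 5, 4 / 5⟩ l0 (by linarith) (by norm_num) (by rw [← w5]; simp [p, f, τ, sub_eq_add_neg])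
  obtain ⟨L7, d7, f7⟩ := dunU (E2 0) (τ.smulRight ⟨-1 / 2, -√3 / 2⟩ - p) ((1, 1, 1), 0)
    ⟨3 / 5, -4 / 5⟩ l0 (by linarith) (by norm_num) (by rw [← w6]; simp [p, f, τ, sub_eq_add_neg])
  have d8 := (p.hasStrictFDerivAt (x := ((1, 1, 1), 0))).add
    (Sq.hasStrictFDerivAt.comp ((1, 1, 1), 0)
      ((((((d1.add d2).add d3).add d4).add d5).add d6).add d7))
  have d9 : HasStrictFDerivAt Pq _ ((1, 1, 1), 0) := d8.congr_of_eventuallyEq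
    (Filter.Eventually.of_forall fun y => by
      have e4 : Bt 0 + (τ.smulRight (1 : ℂ) - p) y = Bt y.2 - y.1.2.1 := by
        apply Complex.ext <;> simp [Bt, p, f, τ] <;> ring
      have e5 : Dt 0 + (τ.smulRight (-1 : ℂ) - p) y = Dt y.2 - y.1.2.1 := by
        apply Complex.ext <;> simp [Dt, p, f, τ] <;> ring
      have e6 : E1 0 + (τ.smulRight (⟨1 / 2, -√3 / 2⟩ : ℂ) - p) y = E1 y.2 - y.1.2.1 := by
        apply Complex.ext <;> simp [E1, p, f, τ] <;> ring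
      have e7 : E2 0 + (τ.smulRight (⟨-1 / 2, -√3 / 2⟩ : ℂ) - p) y = E2 y.2 - y.1.2.1 := by
        apply Complex.ext <;> simp [E2, p, f, τ] <;> ring
      simp only [Pi.add_apply, Function.comp_apply, e4, e5, e6, e7]
      simp [Pq, Gq, a, b, c, p, f, sub_eq_add_neg])
  obtain ⟨s, hs, ap⟩ := d9.approximates_deriv_on_nhds (c := 1 / 1000000) (Or.inr (by norm_num))
  obtain ⟨ρ, h0, h1⟩ := Metric.nhds_basis_closedBall.mem_iff.1 hs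
  refine ⟨ρ, h0, fun x hx' y hy' => ?_⟩
  have := ap x (h1 hx') y (h1 hy')
  push_cast at this
  refine le_trans (le_of_eq ?_) this
  congr 1
  congr 1
  have k1 : hx⁻¹ * hx = 1 := inv_mul_cancel₀ hx0.ne'
  have k2 : hy⁻¹ * hy = 1 := inv_mul_cancel₀ (by linarith [hy0.1])
  simp only [Pi.add_apply, Function.comp_apply, f1, f2, f3, f4, f5, f6, f7, Sq_apply]
  apply Complex.ext <;> simp only [add_re, add_im, sub_re, sub_im, smul_re, smul_im, smul_eq_mul]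
  · generalize hx⁻¹ = i at *
    rw [hx] at k1
    simp [a, b, c, p, f, τ]
    linear_combination (x.1.2.1.re - y.1.2.1.re) * k1
  · rw [cq]
    generalize hy⁻¹ = i at *
    rw [hy] at k2
    simp [a, b, c, p, f, τ]
    linear_combination (x.1.2.1.im - y.1.2.1.im) * k2 - i * (x.1.2.1.im - y.1.2.1.im) / 500 * b2

lemma maxv (X D : ℕ → ℝ) (n : ℕ) (v σ : ℝ) (v1 : 47 / 100 ≤ v) (v2 : v ≤ 471 / 1000) (hs : 0 < σ)
    (hn : 1 ≤ n) (h0 : |X 0| ≤ σ / 1000 ∧ v * D 1 + σ ≤ D 0)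
    (h1 : ∀ k, k + 1 = n → |X (k + 1)| ≤ σ / 1000 ∧ v * D k + σ ≤ D (k + 1))
    (h : ∀ k, k + 2 ≤ n → ∃ N, N ≤ |X k| + |D k| + (|X (k + 1)| + |D (k + 1)|) +
      (|X (k + 2)| + |D (k + 2)|) ∧ |X (k + 1)| ≤ N / 1000000 ∧
      v * (D k + D (k + 2)) - N / 1000000 ≤ D (k + 1)) : ∀ k ≤ n, |X k| < D k / 20 := by
  classical
  obtain ⟨k0, hk0, hm⟩ := Finset.exists_min_image (Finset.range (n + 1))
    (fun k => D k / 20 - |X k|) ⟨0, by simp⟩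
  have ex : ∃ k, k ≤ n ∧ D k / 20 - |X k| ≤ D k0 / 20 - |X k0| :=
    ⟨k0, by simpa [Nat.lt_succ_iff] using hk0, le_rfl⟩
  have hm' : ∀ k ≤ n, D k0 / 20 - |X k0| ≤ D k / 20 - |X k| := fun k hk =>
    hm k (by simpa [Nat.lt_succ_iff] using hk)
  by_contra hc
  push Not at hc
  obtain ⟨j, hj, hc⟩ := hc
  have m0 : D k0 / 20 - |X k0| ≤ 0 := by linarith [hm' j hj]
  generalize D k0 / 20 - |X k0| = m at *
  have dd : ∀ k ≤ n, 0 ≤ |X k| ∧ |D k| ≤ D k - 40 * m ∧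
      0 ≤ (v - 47 / 100) * (D k - 20 * m) := fun k hk => by
    have := hm' k hk
    have := abs_nonneg (X k)
    exact ⟨this, abs_le.2 ⟨by linarith, by linarith⟩, mul_nonneg (by linarith) (by linarith)⟩
  have vm : 0 ≤ (471 / 1000 - v) * -m := mul_nonneg (by linarith) (by linarith)
  obtain ⟨k1, k2⟩ := Nat.find_spec ex
  have k3 := fun j => Nat.find_min ex (m := j)
  generalize Nat.find ex = k at *
  rcases k with _ | k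
  · linarith [dd 0 k1, dd 1 hn, hm' 0 k1, hm' 1 hn, h0.1, h0.2]
  have b1 : m < D k / 20 - |X k| := by
    by_contra hh; exact k3 k (by omega) ⟨by omega, not_lt.1 hh⟩
  have b2 := hm' (k + 1) k1
  have c1 := dd k (by omega)
  have c2 := dd (k + 1) k1
  rcases k1.eq_or_lt with kn | kn
  · obtain ⟨a1, a2⟩ := h1 k kn
    linarith
  obtain ⟨N, a1, a2, a3⟩ := h k (by omega)
  linarith [hm' (k + 2) (by omega), dd (k + 2) (by omega)]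

end Pool.Agent.H68.Gn
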