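import Pool.Agent.H68.Gq1

set_option autoImplicit false

namespace Pool.Agent.H68.Gn

open Complex Metric

noncomputable def la : ℝ := 2 * (a0 + 1)⁻¹

lemma lab : 74 / 1000 ≤ la ∧ la ≤ 742 / 10000 := by
  have := inv_bd (a0 + 1) (37 / 1000) (371 / 10000) (by linarith [ab.1]) (by linarith [ab.2])
    (by linarith [ab.1])
  unfold la; constructor <;> linarith [this.1, this.2]

lemma la1 : la * (a0 + 1) = 2 := by
  rw [la, mul_assoc, inv_mul_cancel₀ (by linarith [ab.1]), mul_one]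

noncomputable def Af (p : ℂ) : ℂ := ⟨-(1 - la) * p.re + la * a0, (1 - la) * p.im⟩

lemma Af1 : Af 1 = 1 := by
  apply Complex.ext <;> simp [Af]; linarith [la1]

lemma Afl (p q : ℂ) : ‖Af p - Af q‖ ≤ 19 / 20 * ‖p - q‖ := by
  have : Af p - Af q = ((-(1 - la) : ℝ) : ℂ) * (starRingEnd ℂ) (p - q) := by
    apply Complex.ext <;> simp [Af] <;> ring
  rw [this, norm_mul, norm_conj, norm_real, Real.norm_eq_abs, abs_neg,
    abs_of_pos (by linarith [lab.2])]
  exact mul_le_mul_of_nonneg_right (by linarith [lab.1]) (norm_nonneg _)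

lemma chainQ : ∃ η0 : ℝ, 0 < η0 ∧ ∀ η, 0 < η → η ≤ η0 → ∀ n : ℕ, 2 ≤ n → sg n = 1 → ∃ p : ℕ → ℂ,
    (∀ k, ‖p k - 1‖ ≤ η) ∧ p 0 = Af (p 1) ∧ p (n + 1) = Af (p n) ∧
    (∀ k, k + 1 ≤ n → Gq ((p k, p (k + 1), p (k + 2)), sg (k + 1) * (4 * η)) = 0) ∧
    ∀ k, k + 1 ≤ n → |(p k - p (k + 2)).re| < (p k - p (k + 2)).im / 20 := by
  obtain ⟨ρ, hρ, hP⟩ := psq
  refine ⟨ρ / 4, by positivity, fun η m0 m1 n hn hsn => ?_⟩
  have v1 : 47 / 100 ≤ hy⁻¹ / 2 := by linarith [i3.1]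
  have v2 : hy⁻¹ / 2 ≤ 471 / 1000 := by linarith [i3.2]
  obtain ⟨c1, c2⟩ := cb
  generalize hy⁻¹ / 2 = v at *
  generalize cq = c at *
  have est : ∀ a b d a' b' d' : ℂ, ∀ t t' N : ℝ, ‖a - 1‖ ≤ η → ‖b - 1‖ ≤ η → ‖d - 1‖ ≤ η →
      ‖a' - 1‖ ≤ η → ‖b' - 1‖ ≤ η → ‖d' - 1‖ ≤ η → |t| ≤ 4 * η → |t'| ≤ 4 * η →
      ‖a - a'‖ ≤ N → ‖b - b'‖ ≤ N → ‖d - d'‖ ≤ N → |t - t'| ≤ N →
      ‖Pq ((a, b, d), t) - Pq ((a', b', d'), t') -
        ⟨0, v * ((a - a').im + (d - d').im) + c * (t - t')⟩‖ ≤ N / 1000000 := by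
    intro a b d a' b' d' t t' N h1 h2 h3 h4 h5 h6 h7 h8 k1 k2 k3 k4
    have := hP ((a, b, d), t) (mem_closedBall_iff_norm.2 (n4 _ _ _ _ ρ (by linarith) (by linarith)
      (by linarith) (by simp only [sub_zero]; linarith))) ((a', b', d'), t')
      (mem_closedBall_iff_norm.2 (n4 _ _ _ _ ρ (by linarith) (by linarith)
      (by linarith) (by simp only [sub_zero]; linarith)))
    have h9 := n4 _ _ _ _ _ k1 k2 k3 k4
    simp only [Prod.mk_sub_mk] at this
    linarith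
  have lip : ∀ a b d a' b' d' : ℂ, ∀ t t' N : ℝ, ‖a - 1‖ ≤ η → ‖b - 1‖ ≤ η → ‖d - 1‖ ≤ η →
      ‖a' - 1‖ ≤ η → ‖b' - 1‖ ≤ η → ‖d' - 1‖ ≤ η → |t| ≤ 4 * η → |t'| ≤ 4 * η →
      ‖a - a'‖ ≤ N → ‖b - b'‖ ≤ N → ‖d - d'‖ ≤ N →
      ‖Pq ((a, b, d), t) - Pq ((a', b', d'), t')‖ ≤ 943 / 1000 * N + 13 / 1000 * |t - t'| := by
    intro a b d a' b' d' t t' N h1 h2 h3 h4 h5 h6 h7 h8 k1 k2 k3
    have z := abs_nonneg (t - t')
    have z' := norm_nonneg (a - a')
    have e1 := est a b d a' b' d' t t' (N + |t - t'|) h1 h2 h3 h4 h5 h6 h7 h8 (by linarith)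
      (by linarith) (by linarith) (by linarith)
    have e2 := norm_sub_norm_le (Pq ((a, b, d), t) - Pq ((a', b', d'), t'))
      ⟨0, v * ((a - a').im + (d - d').im) + c * (t - t')⟩
    have e3 := norm_le_abs_re_add_abs_im ⟨0, v * ((a - a').im + (d - d').im) + c * (t - t')⟩
    have e4 := (abs_im_le_norm _).trans k1
    have e5 := (abs_im_le_norm _).trans k3
    have e6 := abs_add_le (v * ((a - a').im + (d - d').im)) (c * (t - t'))
    have e7 := abs_add_le (a - a').im (d - d').im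
    rw [abs_mul, abs_mul, abs_of_pos (a := v) (by linarith), abs_of_neg (a := c) (by linarith)] at e6
    have e8 : v * |(a - a').im + (d - d').im| ≤ 471 / 1000 * (2 * N) :=
      mul_le_mul v2 (by linarith) (abs_nonneg _) (by norm_num)
    have e9 : -c * |t - t'| ≤ 12 / 1000 * |t - t'| := mul_le_mul_of_nonneg_right (by linarith) z
    simp only [abs_zero, zero_add] at e3
    linarith
  let ex : (Fin (n + 2) → ℂ) → ℕ → ℂ := fun q k => if h : k < n + 2 then q ⟨k, h⟩ else 1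
  have tb : ∀ i, |sg i * (4 * η)| ≤ 4 * η := fun i => by
    rcases sg_or i with h | h <;> simp [h, abs_of_pos m0, abs_mul]
  let T : (Fin (n + 2) → ℂ) → Fin (n + 2) → ℂ := fun q i => if i.val = 0 then Af (ex q 1) else
    if i.val = n + 1 then Af (ex q n) else Pq ((ex q (i - 1), ex q i, ex q (i + 1)), sg i * (4 * η))
  have exd : ∀ q q' k, ‖ex q k - ex q' k‖ ≤ dist q q' := fun q q' k => by
    simp only [ex]; split_ifs with h
    · rw [← dist_eq_norm]; exact dist_le_pi_dist q q' _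
    · simp
  have ex1 : ∀ q ∈ closedBall (fun _ : Fin (n + 2) => (1 : ℂ)) η, ∀ k, ‖ex q k - 1‖ ≤ η :=
    fun q hq k => by
      have := (exd q (fun _ => 1) k).trans hq
      simpa [ex] using this
  have o : ‖(1 : ℂ) - 1‖ ≤ η := by simp [m0.le]
  have o' : |(0 : ℝ)| ≤ 4 * η := by simp [m0.le]
  have maps : Set.MapsTo T (closedBall (fun _ => (1 : ℂ)) η) (closedBall (fun _ => (1 : ℂ)) η) :=
    fun q hq => by
      rw [mem_closedBall, dist_pi_le_iff m0.le]
      intro i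
      rw [dist_eq_norm]
      have af : ∀ k, ‖Af (ex q k) - 1‖ ≤ η := fun k => by
        have := Afl (ex q k) 1
        rw [Af1] at this; linarith [ex1 q hq k]
      simp only [T]; split_ifs
      · exact af _
      · exact af _
      have := lip _ _ _ 1 1 1 _ 0 η (ex1 q hq (i - 1)) (ex1 q hq i) (ex1 q hq (i + 1)) o o o
        (tb i) o' (ex1 q hq _) (ex1 q hq _) (ex1 q hq _)
      rw [Pq1, sub_zero] at this
      exact this.trans (by linarith [tb i])
  have con : ContractingWith (19 / 20) (maps.restrict T _ _) := by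
    refine ⟨by norm_num, LipschitzWith.of_dist_le_mul fun q q' => ?_⟩
    show dist (T q) (T q') ≤ _ * dist q.1 q'.1
    rw [dist_pi_le_iff (by positivity)]
    intro i
    rw [dist_eq_norm]
    push_cast
    simp only [T]; split_ifs
    · exact (Afl _ _).trans (by linarith [exd q q' 1])
    · exact (Afl _ _).trans (by linarith [exd q q' n])
    refine (lip _ _ _ _ _ _ _ _ (dist q.1 q'.1) (ex1 _ q.2 _) (ex1 _ q.2 _) (ex1 _ q.2 _)
      (ex1 _ q'.2 _) (ex1 _ q'.2 _) (ex1 _ q'.2 _) (tb i) (tb i) (exd _ _ _) (exd _ _ _)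
      (exd _ _ _)).trans ?_
    rw [sub_self, abs_zero]; linarith [dist_nonneg (x := q.1) (y := q'.1)]
  obtain ⟨q, hq, hf, -⟩ := con.exists_fixedPoint' isClosed_closedBall.isComplete maps
    (mem_closedBall_self m0.le) (edist_ne_top _ _)
  have fx : ∀ k (h : k < n + 2), ex q k = T q ⟨k, h⟩ := fun k h => by
    rw [hf.eq]; simp [ex, h]
  have p0 : ex q 0 = Af (ex q 1) := by rw [fx 0 (by omega)]; simp [T]
  have p1 : ex q (n + 1) = Af (ex q n) := by rw [fx (n + 1) (by omega)]; simp [T]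
  have p2 : ∀ k, k + 1 ≤ n → ex q (k + 1) =
      Pq ((ex q k, ex q (k + 1), ex q (k + 2)), sg (k + 1) * (4 * η)) :=
    fun k hk => by
      conv_lhs => rw [fx (k + 1) (by omega)]
      simp only [T]
      rw [if_neg (by omega), if_neg (by omega)]; rfl
  have p3 := ex1 q hq
  generalize ex q = p at *
  have z : ∀ x : (ℂ × ℂ × ℂ) × ℝ, x.1.2.1 = Pq x → Gq x = 0 := fun x h => by
    simp only [Pq, left_eq_add, Sq_apply, Complex.ext_iff, zero_re, zero_im, mul_eq_zero,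
      inv_eq_zero] at h
    exact Complex.ext (h.1.resolve_left hx0.ne') (h.2.resolve_left (by linarith [hy0.1]))
  have bd : ∀ k, k + 1 ≤ n → |(p (k + 1)).re - 1| ≤ 4 * η / 1000000 ∧
      |(p (k + 1)).im - (v * ((p k).im + (p (k + 2)).im) + c * (sg (k + 1) * (4 * η)))| ≤
        4 * η / 1000000 := fun k hk => by
    have h1 := est _ _ _ 1 1 1 _ 0 (4 * η) (p3 k) (p3 (k + 1)) (p3 (k + 2)) o o o (tb (k + 1)) o'
      (by linarith [p3 k]) (by linarith [p3 (k + 1)]) (by linarith [p3 (k + 2)])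
      (by rw [sub_zero]; exact tb _)
    rw [← p2 k hk, Pq1] at h1
    exact ⟨by simpa using (abs_re_le_norm _).trans h1, by simpa using (abs_im_le_norm _).trans h1⟩
  have yb : ∀ k, |(1 - la - 2 * v) * (p k).im| ≤ 162 / 10000 * η := fun k => by
    rw [abs_mul]
    refine mul_le_mul (abs_le.2 ⟨by linarith [lab.2], by linarith [lab.1]⟩) ?_ (abs_nonneg _)
      (by norm_num)
    simpa using (abs_im_le_norm _).trans (p3 k)
  have xb : ∀ w : ℂ, |w.re - 1| ≤ 4 * η / 1000000 → |(Af w).re - 1| ≤ 4 * η / 1000000 :=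
    fun w h => by
      have : (Af w).re - 1 = -(1 - la) * (w.re - 1) := by simp only [Af]; linarith [la1]
      rw [this, abs_mul, abs_neg, abs_of_pos (by linarith [lab.2])]
      nlinarith [lab.1, abs_nonneg (w.re - 1)]
  have ce : c * η ≤ -11 / 1000 * η := mul_le_mul_of_nonneg_right c2 m0.le
  have a := fun k => norm_le_abs_re_add_abs_im (p k - p (k + 2))
  have d := fun k => norm_nonneg (p k - p (k + 2))
  obtain ⟨m, rfl⟩ : ∃ m, n = m + 2 := ⟨n - 2, by omega⟩
  refine ⟨p, p3, p0, p1, fun k hk => z _ (p2 k hk), fun k hk =>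
    maxv (fun k => (p k - p (k + 2)).re) (fun k => (p k - p (k + 2)).im) (m + 1) v (η / 50) v1 v2
      (by positivity) (by omega) ?_ (fun k hk => ?_) (fun k hk => ?_) k (by omega)⟩
  · obtain ⟨a1, -⟩ := bd 0 (by omega)
    obtain ⟨a2, a3⟩ := bd 1 (by omega)
    have a4 := xb _ a1
    have a5 : (p 0).im = (1 - la) * (p 1).im := by rw [p0]; rfl
    have a6 := yb 1
    rw [← p0] at a4
    have : sg (1 + 1) = 1 := by simp [sg]
    rw [this] at a3
    simp only [sub_re, sub_im, zero_add, abs_le] at *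
    refine ⟨⟨?_, ?_⟩, ?_⟩ <;> linarith [a2.1, a2.2, a3.1, a3.2, a4.1, a4.2, a6.1, a6.2]
  · obtain rfl : k = m := by omega
    obtain ⟨a1, -⟩ := bd (k + 1) (by omega)
    obtain ⟨a2, a3⟩ := bd k (by omega)
    have a4 := xb _ a1
    have a5 : (p (k + 2 + 1)).im = (1 - la) * (p (k + 2)).im := by rw [p1]; rfl
    have a6 := yb (k + 2)
    rw [← p1] at a4
    have : sg (k + 1) = -1 := by rw [sg_succ (k + 1)] at hsn; linarith
    rw [this] at a3
    simp only [sub_re, sub_im, abs_le] at *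
    refine ⟨⟨?_, ?_⟩, ?_⟩ <;> linarith [a2.1, a2.2, a3.1, a3.2, a4.1, a4.2, a6.1, a6.2]
  · have h1 := est _ _ _ _ _ _ _ _
      (‖p k - p (k + 2)‖ + ‖p (k + 1) - p (k + 3)‖ + ‖p (k + 2) - p (k + 4)‖)
      (p3 k) (p3 (k + 1)) (p3 (k + 2)) (p3 (k + 2)) (p3 (k + 3)) (p3 (k + 4)) (tb (k + 1))
      (tb (k + 2 + 1))
      (by linarith [d (k + 1), d (k + 2)]) (by linarith [d k, d (k + 2)])
      (by linarith [d k, d (k + 1)])
      (by rw [sg_succ (k + 2), sg_succ (k + 1), neg_neg, sub_self, abs_zero]; positivity)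
    rw [← p2 k (by omega), ← p2 (k + 2) (by omega), sg_succ (k + 2), sg_succ (k + 1), neg_neg,
      sub_self] at h1
    have h4 := (abs_re_le_norm _).trans h1
    have h5 := (abs_le.1 ((abs_im_le_norm _).trans h1)).1
    refine ⟨‖p k - p (k + 2)‖ + ‖p (k + 1) - p (k + 3)‖ + ‖p (k + 2) - p (k + 4)‖,
      by linarith [a k, a (k + 1), a (k + 2)], ?_, ?_⟩
    · simp only [sub_re, sub_zero] at h4 ⊢; exact h4
    · simp only [sub_im] at h5 ⊢; linarith

lemma coneQ (p : ℕ → ℂ) (n : ℕ)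
    (h : ∀ k, k + 1 ≤ n → |(p k - p (k + 2)).re| < (p k - p (k + 2)).im / 20) (i j : ℕ)
    (hij : i < j) (hj : j ≤ n + 1) (hs : sg i = sg j) : |(p i - p j).re| < (p i - p j).im / 20 := by
  induction j using Nat.strong_induction_on with
  | _ j ih =>
    obtain ⟨m, rfl⟩ : ∃ m, j = m + 2 := by
      refine ⟨j - 2, ?_⟩
      have : j ≠ i + 1 := by
        rintro rfl; rw [sg_succ] at hs; rcases sg_or i with e | e <;> rw [e] at hs <;> norm_num at hs
      omega
    rw [sg_succ, sg_succ, neg_neg] at hs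
    have : i ≠ m + 1 := by
      rintro rfl; rw [sg_succ] at hs; rcases sg_or m with e | e <;> rw [e] at hs <;> norm_num at hs
    rcases (show i ≤ m by omega).eq_or_lt with rfl | h1
    · exact h i (by omega)
    · have a := ih m (by omega) h1 (by omega) hs
      have b := h m (by omega)
      have c := abs_add_le (p i - p m).re (p m - p (m + 2)).re
      simp only [sub_re, sub_im] at *
      rw [sub_add_sub_cancel] at c
      linarith

end Pool.Agent.H68.Gn
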