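import Pool.Agent.H68.Gq2

set_option autoImplicit false

namespace Pool.Agent.H68.Gn

open Complex Metric Set

noncomputable def om : ℂ := ⟨1 / 2, √3 / 2⟩
noncomputable def om' : ℂ := ⟨1 / 2, -(√3 / 2)⟩

lemma mb {A x l u l' u' : ℝ} (h : l ≤ A ∧ A ≤ u) (h' : l' ≤ x ∧ x ≤ u') (h0 : 0 ≤ l)
    (h1 : 0 ≤ l') : l * l' ≤ A * x ∧ A * x ≤ u * u' :=
  ⟨mul_le_mul h.1 h'.1 h1 (h0.trans h.1), mul_le_mul h.2 h'.2 (h1.trans h'.1) (h0.trans (h.1.trans h.2))⟩

lemma stein : ∃ ρ : ℝ, 0 < ρ ∧ ∀ (p : ℂ) (t : ℝ), ‖p - 1‖ ≤ ρ → |t| ≤ ρ → ∃ z : ℂ, ∃ α β γ : ℝ,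
    0 < α ∧ 0 < β ∧ 0 < γ ∧ z - p = α * (E1 t - p) ∧ Bt t - z = β * (om * (E1 t - p)) ∧
    a0 - z = γ * (om' * (E1 t - p)) ∧ |z.re - 307 / 100| ≤ 3 / 100 ∧
    |z.im - 276 / 100| ≤ 3 / 100 := by
  have l := lb
  have n0 : ‖E1 0 - 1‖ = l0 := by
    rw [w5, norm_mul, nu ⟨3 / 5, 4 / 5⟩ (by norm_num), norm_real, Real.norm_eq_abs, abs_of_pos (by linarith [l.1]),
      mul_one]
  have hc : ContinuousAt un (E1 0 - 1) := by
    unfold un
    refine continuousAt_id.div (continuous_ofReal.continuousAt.comp continuous_norm.continuousAt) ?_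
    rw [n0]; exact_mod_cast (show l0 ≠ 0 by linarith [l.1])
  obtain ⟨δ, h0, h1⟩ := Metric.continuousAt_iff.1 hc (1 / 100000) (by norm_num)
  refine ⟨min (δ / 10) (1 / 10000), by positivity, fun p t hp ht => ?_⟩
  have m1 := min_le_left (δ / 10) (1 / 10000)
  have m2 := min_le_right (δ / 10) (1 / 10000)
  generalize min (δ / 10) (1 / 10000) = r at *
  have s := sb
  have ht' := abs_le.1 ht
  have d1 : ‖E1 t - p - (E1 0 - 1)‖ ≤ 3 * r := by
    have e : E1 t - p - (E1 0 - 1) = t * om' - (p - 1) := by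
      apply Complex.ext <;> simp [E1, om'] <;> ring
    rw [e]
    refine (norm_sub_le _ _).trans ?_
    rw [norm_mul, nu om' (by simp only [om']; nlinarith [s3]), norm_real, Real.norm_eq_abs]
    linarith [abs_nonneg t]
  have d2 := h1 (x := E1 t - p) (by rw [dist_eq_norm]; linarith [abs_nonneg t])
  rw [w5, unU _ _ (by linarith [l.1]) (by norm_num), dist_eq_norm] at d2
  have d3 := abs_le.1 ((abs_norm_sub_norm_le _ _).trans d1)
  rw [n0] at d3
  have x1 := abs_le.1 ((abs_re_le_norm _).trans d2.le)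
  have y1 := abs_le.1 ((abs_im_le_norm _).trans d2.le)
  have p1 := abs_le.1 ((abs_re_le_norm _).trans hp)
  have p2 := abs_le.1 ((abs_im_le_norm _).trans hp)
  have L0 : 0 < ‖E1 t - p‖ := by linarith [l.1, d3.1]
  have L1 : ((‖E1 t - p‖ : ℝ) : ℂ) ≠ 0 := by exact_mod_cast L0.ne'
  have e1 : E1 t - p = (‖E1 t - p‖ : ℝ) * un (E1 t - p) := by rw [un]; field_simp
  have e2 : ‖un (E1 t - p)‖ = 1 := by
    rw [un, norm_div, norm_real, Real.norm_eq_abs, abs_of_pos L0, div_self L0.ne']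
  have e3 : (un (E1 t - p)).re * (un (E1 t - p)).re + (un (E1 t - p)).im * (un (E1 t - p)).im = 1 := by
    rw [← normSq_apply, ← Complex.sq_norm, e2]; norm_num
  generalize un (E1 t - p) = u at *
  generalize ‖E1 t - p‖ = L at *
  obtain ⟨x, y⟩ := u
  simp only [sub_re, sub_im, one_re, one_im, sub_zero] at x1 y1 p1 p2 e3
  have a := ab
  have b := bb
  obtain ⟨I, hI⟩ : ∃ I, I = b0 * x - (t - a0) * y := ⟨_, rfl⟩
  obtain ⟨J, hJ⟩ : ∃ J, J = (t - a0) * x + b0 * y := ⟨_, rfl⟩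
  obtain ⟨μ, hμ⟩ : ∃ μ, μ = 2 * √3 / 3 * I := ⟨_, rfl⟩
  have xx : 59999 / 100000 ≤ x ∧ x ≤ 60001 / 100000 := by constructor <;> linarith [x1.1, x1.2]
  have yy : 79999 / 100000 ≤ y ∧ y ≤ 80001 / 100000 := by constructor <;> linarith [y1.1, y1.2]
  have aa : 25985 / 1000 ≤ a0 - t ∧ a0 - t ≤ 25990 / 1000 := by
    constructor <;> linarith [a.1, a.2, ht'.1, ht'.2]
  have I1 : 26755 / 1000 ≤ I ∧ I ≤ 26765 / 1000 := by
    have k1 := mb b xx (by norm_num) (by norm_num)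
    have k2 := mb aa yy (by norm_num) (by norm_num)
    rw [hI]; constructor <;> linarith only [k1.1, k1.2, k2.1, k2.2]
  have J1 : -8 ≤ J ∧ J ≤ -7 := by
    have k1 := mb b yy (by norm_num) (by norm_num)
    have k2 := mb aa xx (by norm_num) (by norm_num)
    rw [hJ]; constructor <;> linarith only [k1.1, k1.2, k2.1, k2.2]
  have μ1 : 3089 / 100 ≤ μ ∧ μ ≤ 3091 / 100 := by
    have k1 := mb s I1 (by norm_num) (by norm_num)
    rw [hμ]; constructor <;> linarith only [k1.1, k1.2]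
  have al : 342 / 100 ≤ L - μ ∧ L - μ ≤ 348 / 100 := by
    constructor <;> linarith only [l.1, l.2, d3.1, d3.2, μ1.1, μ1.2, m2]
  have mx := mb al xx (by norm_num) (by norm_num)
  have my := mb al yy (by norm_num) (by norm_num)
  have er := congrArg re e1
  have ei := congrArg im e1
  simp only [E1, sub_re, sub_im, re_ofReal_mul, im_ofReal_mul] at er ei
  refine ⟨p + (L - μ : ℝ) * ⟨x, y⟩, (L - μ) / L, (μ / 2 + J) / L, (μ / 2 - J) / L,
    div_pos (by linarith only [al.1]) L0, div_pos (by linarith only [μ1.1, J1.1]) L0,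
    div_pos (by linarith only [μ1.1, J1.2]) L0, ?_, ?_, ?_, ?_, ?_⟩
  · rw [e1]; push_cast; field_simp; ring
  · rw [e1]
    have : (((μ / 2 + J) / L : ℝ) : ℂ) * (om * (L * ⟨x, y⟩)) = (μ / 2 + J : ℝ) * (om * ⟨x, y⟩) := by
      push_cast; field_simp
    rw [this, hμ, hI, hJ]
    apply Complex.ext <;> simp [Bt, om]
    · linear_combination er + (-(t - a0) / 2 + √3 * b0 / 2) * e3 +
        y * (b0 * x - (t - a0) * y) / 6 * s3 + (t - a0) * (0 : ℝ)
    · linear_combination ei + (-b0 / 2 - √3 * (t - a0) / 2) * e3 -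
        x * (b0 * x - (t - a0) * y) / 6 * s3
  · rw [e1]
    have : (((μ / 2 - J) / L : ℝ) : ℂ) * (om' * (L * ⟨x, y⟩)) = (μ / 2 - J : ℝ) * (om' * ⟨x, y⟩) := by
      push_cast; field_simp
    rw [this, hμ, hI, hJ]
    apply Complex.ext <;> simp [om']
    · linear_combination er + ((t - a0) / 2 + √3 * b0 / 2) * e3 -
        y * (b0 * x - (t - a0) * y) / 6 * s3
    · linear_combination ei + (b0 / 2 - √3 * (t - a0) / 2) * e3 +
        x * (b0 * x - (t - a0) * y) / 6 * s3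
  · simp only [add_re, re_ofReal_mul, abs_le]
    constructor <;> linarith only [mx.1, mx.2, p1.1, p1.2, m2]
  · simp only [add_im, im_ofReal_mul, abs_le]
    constructor <;> linarith only [my.1, my.2, p2.1, p2.2, m2]

lemma sub_par (a b c d : ℂ) (h : cr (b - a) (d - c) ≠ 0) :
    (segment ℝ a b ∩ segment ℝ c d).Subsingleton := by
  refine sub_cr a b c d ?_
  by_contra hn
  push Not at hn
  apply h
  simp only [cr, sub_re, sub_im] at hn ⊢
  linear_combination hn.2 - hn.1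

lemma sub_line (a b c d : ℂ) (r : ℝ) (h : cr (b - a) (c + r * (d - c) - a) ≠ 0) :
    (segment ℝ a b ∩ segment ℝ c d).Subsingleton := by
  refine sub_cr a b c d ?_
  by_contra hn
  push Not at hn
  apply h
  simp only [cr, sub_re, sub_im, add_re, add_im, re_ofReal_mul, im_ofReal_mul] at hn ⊢
  linear_combination r * hn.2 + (1 - r) * hn.1

lemma cr_ne3 (u v : ℂ) (h0 : 0 < |u.re|) (h1 : |u.im| ≤ 20 * |u.re|) (h2 : |v.re| < |v.im| / 20) :
    cr u v ≠ 0 := by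
  intro h
  have e : |u.re| * |v.im| = |u.im| * |v.re| := by
    rw [← abs_mul, ← abs_mul, sub_eq_zero.1 h]
  have := abs_nonneg v.re
  nlinarith

def ap (e : ℝ) (u : ℂ) (w : ℤ × ℤ) : Prop := |100 * u.re - w.1| ≤ e ∧ |100 * u.im - w.2| ≤ e

lemma ap_sub {u v : ℂ} {w w' : ℤ × ℤ} (h : ap 3 u w) (h' : ap 3 v w') : ap 6 (u - v) (w - w') := by
  simp only [ap, abs_le, sub_re, sub_im, Prod.fst_sub, Prod.snd_sub] at *
  push_cast
  refine ⟨⟨?_, ?_⟩, ?_, ?_⟩ <;> linarith [h.1.1, h.1.2, h.2.1, h.2.2, h'.1.1, h'.1.2, h'.2.1, h'.2.2]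

def ok (w w' : ℤ × ℤ) : Prop :=
  6 * (|w.1| + |w.2| + |w'.1| + |w'.2|) + 72 < |w.1 * w'.2 - w.2 * w'.1|

instance (w w' : ℤ × ℤ) : Decidable (ok w w') := by unfold ok; infer_instance

lemma cr_ap {u v : ℂ} {w w' : ℤ × ℤ} (h : ap 6 u w) (h' : ap 6 v w') (k : ok w w') :
    cr u v ≠ 0 := by
  intro h0
  have k' : (6 : ℝ) * (|(w.1 : ℝ)| + |(w.2 : ℝ)| + |(w'.1 : ℝ)| + |(w'.2 : ℝ)|) + 72 <
      |(w.1 : ℝ) * w'.2 - w.2 * w'.1| := by exact_mod_cast k
  obtain ⟨h1, h2⟩ := h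
  obtain ⟨h3, h4⟩ := h'
  generalize (w.1 : ℝ) = a at *
  generalize (w.2 : ℝ) = b at *
  generalize (w'.1 : ℝ) = c at *
  generalize (w'.2 : ℝ) = d at *
  have e : a * d - b * c = -(a * (100 * v.im - d)) - d * (100 * u.re - a) + b * (100 * v.re - c) +
      c * (100 * u.im - b) - (100 * u.re - a) * (100 * v.im - d) +
      (100 * u.im - b) * (100 * v.re - c) := by
    rw [cr] at h0; linear_combination 10000 * h0
  have m : ∀ x y z : ℝ, |x| ≤ z → |y| ≤ 6 → -(z * 6) ≤ x * y ∧ x * y ≤ z * 6 := fun x y z h1 h2 =>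
    abs_le.1 (by rw [abs_mul]; exact mul_le_mul h1 h2 (abs_nonneg _) ((abs_nonneg _).trans h1))
  have := abs_le.2 (show -(6 * (|a| + |b| + |c| + |d|) + 72) ≤ a * d - b * c ∧
      a * d - b * c ≤ 6 * (|a| + |b| + |c| + |d|) + 72 by
    rw [e]
    constructor <;> linarith [m a _ _ le_rfl h4, m d _ _ le_rfl h1, m b _ _ le_rfl h3,
      m c _ _ le_rfl h2, m _ _ _ h1 h4, m _ _ _ h2 h3])
  linarith

def ta (s : ℤ) : Fin 9 → ℤ × ℤ := ![(100 * s, 0), (100 * s, 0), (100 * s, 0), (100 * s, 0),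
  (100 * s, 0), (307 * s, 276), (307 * s, 276), (307 * s, -276), (307 * s, -276)]
def tb (s : ℤ) : Fin 9 → ℤ × ℤ := ![(2599 * s, 0), (0, 995), (0, -995), (307 * s, 276),
  (307 * s, -276), (0, 995), (2599 * s, 0), (0, -995), (2599 * s, 0)]

lemma tab1 : ∀ f f' : Fin 9, f ≠ f' → ok (tb 1 f - ta 1 f) (tb 1 f' - ta 1 f') ∧
    ok (tb (-1) f - ta (-1) f) (tb (-1) f' - ta (-1) f') := by decide
lemma tab2 : ∀ f f' : Fin 9, (f = 0 ∧ f' = 0) ∨ ok (tb 1 f - ta 1 f) (tb (-1) f' - ta (-1) f') ∨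
    ok (tb 1 f - ta 1 f) (ta (-1) f' - ta 1 f) := by decide

end Pool.Agent.H68.Gn
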