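import Pool.Agent.H68.Gq3

set_option autoImplicit false

namespace Pool.Agent.H68.Gn

open Complex Metric Set

structure Cfg (n : ℕ) (τ : ℝ) (p z1 z2 : ℕ → ℂ) : Prop where
  hn : 2 ≤ n
  sn : sg n = 1
  hp : ∀ k, |(p k).re - 1| ≤ 1 / 100 ∧ |(p k).im| ≤ 1 / 100
  ht : |τ| ≤ 1 / 100
  hc : ∀ i j, i < j → j ≤ n + 1 → sg i = sg j → |(p i - p j).re| < (p i - p j).im / 20
  h0 : p 0 = Af (p 1)
  h1 : p (n + 1) = Af (p n)
  hG : ∀ k, k + 1 ≤ n → Gq ((p k, p (k + 1), p (k + 2)), sg (k + 1) * τ) = 0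
  s1 : ∀ k, ∃ α β γ : ℝ, 0 < α ∧ 0 < β ∧ 0 < γ ∧ z1 k - p k = α * (E1 (sg k * τ) - p k) ∧
    Bt (sg k * τ) - z1 k = β * (om * (E1 (sg k * τ) - p k)) ∧
    a0 - z1 k = γ * (om' * (E1 (sg k * τ) - p k)) ∧ |(z1 k).re - 307 / 100| ≤ 3 / 100 ∧
    |(z1 k).im - 276 / 100| ≤ 3 / 100
  s2 : ∀ k, ∃ α β γ : ℝ, 0 < α ∧ 0 < β ∧ 0 < γ ∧ z2 k - p k = α * (E2 (sg k * τ) - p k) ∧
    Dt (sg k * τ) - z2 k = β * (om' * (E2 (sg k * τ) - p k)) ∧
    a0 - z2 k = γ * (om * (E2 (sg k * τ) - p k)) ∧ |(z2 k).re - 307 / 100| ≤ 3 / 100 ∧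
    |(z2 k).im + 276 / 100| ≤ 3 / 100

lemma cfg : ∃ τ, ∀ n, 2 ≤ n → sg n = 1 → ∃ p z1 z2, Cfg n τ p z1 z2 := by
  obtain ⟨η0, h0, hch⟩ := chainQ
  obtain ⟨ρ, h1, hst⟩ := stein
  have m1 := min_le_left η0 (min (ρ / 4) (1 / 400))
  have m2 := (min_le_right η0 (min (ρ / 4) (1 / 400))).trans (min_le_left _ _)
  have m3 := (min_le_right η0 (min (ρ / 4) (1 / 400))).trans (min_le_right _ _)
  have m0 : 0 < min η0 (min (ρ / 4) (1 / 400)) := by positivity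
  generalize min η0 (min (ρ / 4) (1 / 400)) = η at *
  refine ⟨4 * η, fun n hn sn => ?_⟩
  obtain ⟨p, pb, g0, g1, g2, pc⟩ := hch η m0 m1 n hn sn
  have tb : ∀ i, |sg i * (4 * η)| ≤ ρ := fun i => by
    rcases sg_or i with h | h <;> simp [h, abs_of_pos m0, abs_mul] <;> linarith
  choose z1 k1 using fun k => hst (p k) _ (by linarith [pb k]) (tb k)
  choose z2 k2 using fun k => hst ((starRingEnd ℂ) (p k)) (-(sg k * (4 * η)))
    (by rw [← norm_conj]; simp only [map_sub, conj_conj, map_one]; linarith [pb k])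
    (by rw [abs_neg]; exact tb k)
  refine ⟨p, z1, fun k => (starRingEnd ℂ) (z2 k), hn, sn, fun k => ?_,
    by rw [abs_of_pos (by linarith)]; linarith, coneQ p n pc, g0, g1, g2, k1, fun k => ?_⟩
  · have a := abs_re_le_norm (p k - 1)
    have b := abs_im_le_norm (p k - 1)
    have c := pb k
    simp only [sub_re, sub_im, one_re, one_im, sub_zero] at a b
    constructor <;> linarith
  · obtain ⟨α, β, γ, a, b, c, e1, e2, e3, e4, e5⟩ := k2 k
    have f1 : ∀ t, E2 t = (starRingEnd ℂ) (E1 (-t)) := fun t => by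
      apply Complex.ext <;> simp [E1, E2] <;> ring
    have f2 : ∀ t, Dt t = (starRingEnd ℂ) (Bt (-t)) := fun t => by
      apply Complex.ext <;> simp [Bt, Dt]
    have f3 : (starRingEnd ℂ) om = om' := by apply Complex.ext <;> simp [om, om']
    have f4 : (starRingEnd ℂ) om' = om := by apply Complex.ext <;> simp [om, om']
    refine ⟨α, β, γ, a, b, c, ?_, ?_, ?_, e4, ?_⟩
    · simpa [f1] using congrArg (starRingEnd ℂ) e1
    · simpa [f1, f2, f3] using congrArg (starRingEnd ℂ) e2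
    · simpa [f1, f4] using congrArg (starRingEnd ℂ) e3
    · rw [conj_im, ← abs_neg]; convert e5 using 2; ring

lemma R_sub (s : ℝ) (a b : ℂ) : R s a - R s b = R s (a - b) := by
  apply Complex.ext <;> simp; ring

lemma crR (k : ℕ) (u v : ℂ) (h : cr u v ≠ 0) : cr (R (sg k) u) (R (sg k) v) ≠ 0 := by
  intro h0; apply h
  rcases sg_or k with e | e <;> simp only [cr, e, R_re, R_im] at h0 ⊢ <;> linarith

lemma fl_ap {u : ℂ} {w : ℤ × ℤ} (h : ap 6 u w) (k : 6 < |w.1| ∧ |w.2| + 6 ≤ 20 * (|w.1| - 6)) :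
    0 < |u.re| ∧ |u.im| ≤ 20 * |u.re| := by
  have k1 : (6 : ℝ) < |(w.1 : ℝ)| := by exact_mod_cast k.1
  have k2 : |(w.2 : ℝ)| + 6 ≤ 20 * (|(w.1 : ℝ)| - 6) := by exact_mod_cast k.2
  have a := abs_sub_abs_le_abs_sub (w.1 : ℝ) (100 * u.re)
  have b := abs_sub_abs_le_abs_sub (100 * u.im) (w.2 : ℝ)
  rw [abs_mul, abs_sub_comm] at a
  rw [abs_mul] at b
  norm_num at a b
  constructor <;> linarith [h.1, h.2]

lemma tab3 : ∀ f : Fin 9, 6 < |(tb 1 f - ta 1 f).1| ∧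
    |(tb 1 f - ta 1 f).2| + 6 ≤ 20 * (|(tb 1 f - ta 1 f).1| - 6) := by decide

noncomputable def ua (p z1 z2 : ℕ → ℂ) (k : ℕ) : Fin 9 → ℂ :=
  ![p k, p k, p k, p k, p k, z1 k, z1 k, z2 k, z2 k]
noncomputable def ub (τ : ℝ) (z1 z2 : ℕ → ℂ) (k : ℕ) : Fin 9 → ℂ :=
  ![a0, Bt (sg k * τ), Dt (sg k * τ), z1 k, z2 k, Bt (sg k * τ), a0, Dt (sg k * τ), a0]

noncomputable def qe (n : ℕ) (p : ℕ → ℂ) (k : ℕ) : ℂ :=
  if k = 0 ∨ k = n + 1 then R (sg k) a0 else qq p k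

section
variable {n : ℕ} {τ : ℝ} {p z1 z2 : ℕ → ℂ} (C : Cfg n τ p z1 z2)

include C in
lemma apu (k : ℕ) (f : Fin 9) : ap 3 (ua p z1 z2 k f) (ta 1 f) ∧ ap 3 (ub τ z1 z2 k f) (tb 1 f) := by
  obtain ⟨a1, a2⟩ := C.hp k
  obtain ⟨-, -, -, -, -, -, -, -, -, b1, b2⟩ := C.s1 k
  obtain ⟨-, -, -, -, -, -, -, -, -, c1, c2⟩ := C.s2 k
  have t : |sg k * τ| ≤ 1 / 100 := by
    have := C.ht
    rcases sg_or k with h | h <;> simpa [h] using this
  have P : ap 3 (p k) (100 * 1, 0) := by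
    simp only [ap, abs_le] at *; push_cast; refine ⟨⟨?_, ?_⟩, ?_, ?_⟩ <;> linarith [a1.1, a2.1]
  have Z1 : ap 3 (z1 k) (307 * 1, 276) := by
    simp only [ap, abs_le] at *; push_cast; refine ⟨⟨?_, ?_⟩, ?_, ?_⟩ <;> linarith [b1.1, b2.1]
  have Z2 : ap 3 (z2 k) (307 * 1, -276) := by
    simp only [ap, abs_le] at *; push_cast; refine ⟨⟨?_, ?_⟩, ?_, ?_⟩ <;> linarith [c1.1, c2.1]
  have A : ap 3 a0 (2599 * 1, 0) := by
    simp only [ap, abs_le, ofReal_re, ofReal_im]; push_cast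
    refine ⟨⟨?_, ?_⟩, ?_, ?_⟩ <;> linarith [ab.1, ab.2]
  have B : ap 3 (Bt (sg k * τ)) (0, 995) := by
    simp only [ap, abs_le, Bt] at *; push_cast
    refine ⟨⟨?_, ?_⟩, ?_, ?_⟩ <;> linarith [bb.1, bb.2, t.1]
  have D : ap 3 (Dt (sg k * τ)) (0, -995) := by
    simp only [ap, abs_le, Dt] at *; push_cast
    refine ⟨⟨?_, ?_⟩, ?_, ?_⟩ <;> linarith [bb.1, bb.2, t.1]
  fin_cases f <;> constructor <;> assumption

include C in
lemma apS (k : ℕ) (f : Fin 9) (s : ℤ) (h : sg k = s) :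
    ap 3 (R (sg k) (ua p z1 z2 k f)) (ta s f) ∧ ap 3 (R (sg k) (ub τ z1 z2 k f)) (tb s f) := by
  have key : ∀ (u : ℂ) (w : ℤ × ℤ), ap 3 u w → ap 3 (R (sg k) u) (s * w.1, w.2) := fun u w a => by
    refine ⟨?_, a.2⟩
    have := a.1
    push_cast
    rw [← h, R_re]
    rcases sg_or k with e | e <;> rw [e] <;> rw [abs_le] at this ⊢ <;> constructor <;>
      linarith [this.1, this.2]
  have e1 : ta s f = (s * (ta 1 f).1, (ta 1 f).2) := by fin_cases f <;> simp [ta, mul_comm]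
  have e2 : tb s f = (s * (tb 1 f).1, (tb 1 f).2) := by fin_cases f <;> simp [tb, mul_comm]
  rw [e1, e2]
  exact ⟨key _ _ (apu C k f).1, key _ _ (apu C k f).2⟩

include C in
lemma stq (i j : ℕ) (hij : i ≠ j) (hi : i ≤ n + 1) (hj : j ≤ n + 1) (h : sg i = sg j) :
    |(p i - p j).re| < |(p i - p j).im| / 20 := by
  rcases lt_or_gt_of_ne hij with l | l
  · have := C.hc i j l hj h
    have := le_abs_self (p i - p j).im
    linarith
  · have a := C.hc j i l hi h.symm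
    have := neg_abs_le (p i - p j).im
    rw [abs_lt] at a ⊢
    simp only [sub_re, sub_im] at a this ⊢
    constructor <;> linarith [a.1, a.2]

include C in
lemma same (i j : ℕ) (hij : i ≠ j) (hi : i ≤ n + 1) (hj : j ≤ n + 1) (h : sg i = sg j) (f : Fin 9) :
    cr (ub τ z1 z2 i f - ua p z1 z2 i f) (ua p z1 z2 j f - ua p z1 z2 i f) ≠ 0 ∨
    cr (ub τ z1 z2 i f - ua p z1 z2 i f) (ub τ z1 z2 j f - ua p z1 z2 j f) ≠ 0 := by
  have k : ∀ f, cr (ub τ z1 z2 i f - ua p z1 z2 i f) (p j - p i) ≠ 0 := fun f => by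
    obtain ⟨a, b⟩ := fl_ap (ap_sub (apu C i f).2 (apu C i f).1) (tab3 f)
    exact cr_ne3 _ _ a b (stq C j i hij.symm hj hi h.symm)
  have rot : ∀ (E w : ℂ) (α β β' : ℝ), w.re * w.re + w.im * w.im = 1 → 0 < β → 0 < β' →
      cr (α * (E - p i)) (p j - p i) ≠ 0 → cr (β * (w * (E - p i))) (β' * (w * (E - p j))) ≠ 0 := by
    intro E w α β β' hw h1 h2 h3 h4
    apply h3
    have : β * β' * cr (E - p i) (p j - p i) = 0 := by
      simp only [cr, re_ofReal_mul, im_ofReal_mul, mul_re, mul_im, sub_re, sub_im, ofReal_re,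
        ofReal_im] at h4 ⊢
      linear_combination -h4 + β * β' * ((E.re - (p i).re) * (E.im - (p j).im) -
        (E.im - (p i).im) * (E.re - (p j).re)) * hw
    have := (mul_eq_zero.1 this).resolve_left (by positivity)
    simp only [cr, re_ofReal_mul, im_ofReal_mul] at this ⊢
    linear_combination α * this
  have o1 : om.re * om.re + om.im * om.im = 1 := by simp only [om]; nlinarith [s3]
  have o2 : om'.re * om'.re + om'.im * om'.im = 1 := by simp only [om']; nlinarith [s3]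
  obtain ⟨α, β, γ, -, b1, c1, e1, e2, e3, -⟩ := C.s1 i
  obtain ⟨α', β', γ', -, b2, c2, -, e5, e6, -⟩ := C.s1 j
  obtain ⟨α2, β2, γ2, -, b3, c3, e7, e8, e9, -⟩ := C.s2 i
  obtain ⟨α2', β2', γ2', -, b4, c4, -, e11, e12, -⟩ := C.s2 j
  have k3 : cr (z1 i - p i) (p j - p i) ≠ 0 := k 3
  have k4 : cr (z2 i - p i) (p j - p i) ≠ 0 := k 4
  rw [e1] at k3
  rw [e7] at k4
  fin_cases f
  · exact Or.inl (k 0)
  · exact Or.inl (k 1)
  · exact Or.inl (k 2)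
  · exact Or.inl (k 3)
  · exact Or.inl (k 4)
  · right; show cr (Bt (sg i * τ) - z1 i) (Bt (sg j * τ) - z1 j) ≠ 0
    rw [e2, e5, ← h]; exact rot _ _ _ _ _ o1 b1 b2 k3
  · right; show cr (a0 - z1 i) (a0 - z1 j) ≠ 0
    rw [e3, e6, ← h]; exact rot _ _ _ _ _ o2 c1 c2 k3
  · right; show cr (Dt (sg i * τ) - z2 i) (Dt (sg j * τ) - z2 j) ≠ 0
    rw [e8, e11, ← h]; exact rot _ _ _ _ _ o2 b3 b4 k4
  · right; show cr (a0 - z2 i) (a0 - z2 j) ≠ 0
    rw [e9, e12, ← h]; exact rot _ _ _ _ _ o1 c3 c4 k4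

include C in
lemma subSS (k k' : ℕ) (f f' : Fin 9) (hk : k ≤ n + 1) (hk' : k' ≤ n + 1) (h : k = k' → f ≠ f') :
    (segment ℝ (R (sg k) (ua p z1 z2 k f)) (R (sg k) (ub τ z1 z2 k f)) ∩
      segment ℝ (R (sg k') (ua p z1 z2 k' f')) (R (sg k') (ub τ z1 z2 k' f'))).Subsingleton := by
  have opp : ∀ k k' f f', sg k = 1 → sg k' = -1 →
      (segment ℝ (R (sg k) (ua p z1 z2 k f)) (R (sg k) (ub τ z1 z2 k f)) ∩
      segment ℝ (R (sg k') (ua p z1 z2 k' f')) (R (sg k') (ub τ z1 z2 k' f'))).Subsingleton := by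
    intro k k' f f' e e'
    obtain ⟨a1, a2⟩ := apS C k f 1 (by simpa using e)
    obtain ⟨a3, a4⟩ := apS C k' f' (-1) (by simpa using e')
    rcases tab2 f f' with ⟨rfl, rfl⟩ | h | h
    · have b1 := (abs_le.1 (C.hp k).1).1
      have b2 := (abs_le.1 (C.hp k').1).1
      refine sub_dis _ _ _ _ 1 ?_ ?_ ?_ ?_ <;> simp [ua, ub, e, e'] <;> linarith [ab.1]
    · exact sub_par _ _ _ _ (cr_ap (ap_sub a2 a1) (ap_sub a4 a3) h)
    · exact sub_cr _ _ _ _ (Or.inl (cr_ap (ap_sub a2 a1) (ap_sub a3 a1) h))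
  by_cases e : sg k = sg k'
  · by_cases ef : f = f'
    · subst ef
      rw [← e]
      rcases same C k k' (fun e => h e rfl) hk hk' e f with a | a
      · exact sub_cr _ _ _ _ (Or.inl (by rw [R_sub, R_sub]; exact crR _ _ _ a))
      · exact sub_par _ _ _ _ (by rw [R_sub, R_sub]; exact crR _ _ _ a)
    · rcases sg_or k with s | s
      · obtain ⟨a1, a2⟩ := apS C k f 1 (by simpa using s)
        obtain ⟨a3, a4⟩ := apS C k' f' 1 (by simpa [e] using s)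
        exact sub_par _ _ _ _ (cr_ap (ap_sub a2 a1) (ap_sub a4 a3) (tab1 f f' ef).1)
      · obtain ⟨a1, a2⟩ := apS C k f (-1) (by simpa using s)
        obtain ⟨a3, a4⟩ := apS C k' f' (-1) (by simpa [e] using s)
        exact sub_par _ _ _ _ (cr_ap (ap_sub a2 a1) (ap_sub a4 a3) (tab1 f f' ef).2)
  · rcases sg_or k with s | s <;> rcases sg_or k' with s' | s'
    · exact absurd (s.trans s'.symm) e
    · exact opp _ _ _ _ s s'
    · rw [inter_comm]; exact opp _ _ _ _ s' s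
    · exact absurd (s.trans s'.symm) e

end

end Pool.Agent.H68.Gn
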