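import Pool.Agent.H68.Gq4

set_option autoImplicit false

namespace Pool.Agent.H68.Gn

open Complex Metric Set

lemma cr_h (u v : ℂ) (h0 : 19 / 10 ≤ |u.re|) (h1 : |u.im| ≤ 2 / 100) (h2 : |v.re| ≤ 23)
    (h3 : 27 / 10 ≤ |v.im|) : cr u v ≠ 0 := by
  intro h
  have e : |u.re| * |v.im| = |u.im| * |v.re| := by
    rw [← abs_mul, ← abs_mul, sub_eq_zero.1 h]
  have := abs_nonneg v.re
  nlinarith

lemma tab4 : ∀ f : Fin 9, f ≠ 0 → 276 ≤ |(tb 1 f - ta 1 f).2| ∧ |(tb 1 f - ta 1 f).1| ≤ 2292 := by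
  decide

def IsA (τ : ℝ) (Y : ℂ) : Prop := Y = a0 ∨ Y = -a0 ∨ Y = Bt τ ∨ Y = Dt τ
def Inn (P : ℂ) : Prop := |P.re| ≤ 4 ∧ |P.im| ≤ 3

lemma anc4 (τ : ℝ) (ht : |τ| ≤ 1 / 100) (P Q Y : ℂ) (hP : Inn P) (hQ : Inn Q ∨ IsA τ Q)
    (hY : IsA τ Y) (h : Y ∈ segment ℝ P Q) : Y = Q := by
  obtain ⟨t, t0, t1, e⟩ := (seg_iff _ _ _).1 h
  have a := congrArg re e
  have b := congrArg im e
  have cv : ∀ x y c : ℝ, x ≤ c → y ≤ c → x + t * (y - x) ≤ c := fun x y c h1 h2 => by nlinarith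
  have cv' : ∀ x y c : ℝ, c ≤ x → c ≤ y → c ≤ x + t * (y - x) := fun x y c h1 h2 => by nlinarith
  have a1 := ab.1
  have b1 := bb.1
  simp only [Inn, abs_le, add_re, add_im, re_ofReal_mul, im_ofReal_mul, sub_re, sub_im] at *
  by_contra hne
  have k1 : Q.re ≤ 4 ∨ Q = a0 := by
    rcases hQ with h | h | h | h | h
    · exact Or.inl h.1.2
    · exact Or.inr h
    all_goals (left; simp [h, Bt, Dt]; linarith [ht.1, ht.2])
  have k2 : -4 ≤ Q.re ∨ Q = -a0 := by
    rcases hQ with h | h | h | h | h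
    · exact Or.inl h.1.1
    · left; simp [h]; linarith
    · exact Or.inr h
    all_goals (left; simp [h, Bt, Dt]; linarith [ht.1, ht.2])
  have k3 : Q.im ≤ 3 ∨ Q = Bt τ := by
    rcases hQ with h | h | h | h | h
    · exact Or.inl h.2.2
    · left; simp [h]
    · left; simp [h]
    · exact Or.inr h
    · left; simp [h, Dt]; linarith
  have k4 : -3 ≤ Q.im ∨ Q = Dt τ := by
    rcases hQ with h | h | h | h | h
    · exact Or.inl h.2.1
    · left; simp [h]
    · left; simp [h]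
    · left; simp [h, Bt]; linarith
    · exact Or.inr h
  rcases hY with rfl | rfl | rfl | rfl
  · have := cv _ _ _ hP.1.2 (k1.resolve_right (Ne.symm hne))
    rw [← a] at this; simp at this; linarith
  · have := cv' _ _ _ hP.1.1 (k2.resolve_right (Ne.symm hne))
    rw [← a] at this; simp at this; linarith
  · have := cv _ _ _ hP.2.2 (k3.resolve_right (Ne.symm hne))
    rw [← b] at this; simp [Bt] at this; linarith
  · have := cv' _ _ _ hP.2.1 (k4.resolve_right (Ne.symm hne))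
    rw [← b] at this; simp [Dt] at this; linarith

lemma isA_R (τ : ℝ) (k : ℕ) : IsA τ (R (sg k) a0) ∧ R (sg k) (Bt (sg k * τ)) = Bt τ ∧
    R (sg k) (Dt (sg k * τ)) = Dt τ := by
  rcases sg_or k with h | h
  · refine ⟨Or.inl ?_, ?_, ?_⟩ <;> apply Complex.ext <;> simp [h, Bt, Dt]
  · refine ⟨Or.inr (Or.inl ?_), ?_, ?_⟩ <;> apply Complex.ext <;> simp [h, Bt, Dt]

section
variable {n : ℕ} {τ : ℝ} {p z1 z2 : ℕ → ℂ} (C : Cfg n τ p z1 z2)

lemma qe_mid (k : ℕ) (h1 : 1 ≤ k) (h2 : k ≤ n) : qe n p k = qq p k := if_neg (by omega)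

include C in
lemma hdir (c : ℕ) : sg c * (qe n p (c + 1) - qe n p c).re ≤ -(19 / 10) ∧
    |(qe n p (c + 1) - qe n p c).im| ≤ 2 / 100 := by
  have k : ∀ k, 99 / 100 ≤ sg k * (qe n p k).re ∧ |(qe n p k).im| ≤ 1 / 100 := fun k => by
    obtain ⟨a, b⟩ := C.hp k
    have := (abs_le.1 a).1
    unfold qe; split_ifs
    · rcases sg_or k with e | e <;> simp [e] <;> linarith [ab.1]
    · refine ⟨?_, b⟩
      rcases sg_or k with e | e <;> simp [e, qq] <;> linarith
  obtain ⟨a1, a2⟩ := k c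
  obtain ⟨b1, b2⟩ := k (c + 1)
  rw [sg_succ] at b1
  simp only [sub_re, sub_im, abs_le] at *
  refine ⟨?_, ?_, ?_⟩ <;> linarith [a2.1, a2.2, b2.1, b2.2]

include C in
lemma onl (c : ℕ) (hc : c ≤ n) : ∃ r r' : ℝ, r < r' ∧
    qq p c = qe n p c + r * (qe n p (c + 1) - qe n p c) ∧
    qq p (c + 1) = qe n p c + r' * (qe n p (c + 1) - qe n p c) := by
  have := C.hn
  rcases Nat.eq_zero_or_pos c with rfl | h0
  · refine ⟨1 - la, 1, by linarith [lab.1], ?_, ?_⟩
    · rw [qe_mid (0 + 1) le_rfl (by omega)]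
      apply Complex.ext <;> simp [qe, qq, sg, C.h0, Af]; ring
    · rw [qe_mid (0 + 1) le_rfl (by omega)]; simp
  rw [qe_mid c h0 hc]
  rcases hc.eq_or_lt with rfl | h
  · refine ⟨0, la, by linarith [lab.1], by simp, ?_⟩
    apply Complex.ext <;> simp [qe, qq, sg_succ, C.sn, C.h1, Af] <;> ring
  · exact ⟨0, 1, one_pos, by simp, by rw [qe_mid (c + 1) (by omega) h]; simp⟩

include C in
lemma offl (c j : ℕ) (hc : c ≤ n) (hj : j ≤ n + 1) (h1 : j ≠ c) (h2 : j ≠ c + 1) :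
    cr (qe n p (c + 1) - qe n p c) (qq p j - qe n p c) ≠ 0 := by
  obtain ⟨d1, d2⟩ := hdir C c
  have d3 : 19 / 10 ≤ |(qe n p (c + 1) - qe n p c).re| := by
    rcases sg_or c with e | e <;> rw [e] at d1 <;> rw [le_abs]
    · right; linarith
    · left; linarith
  have key : ∀ i (r : ℝ), i ≤ n + 1 → j ≠ i → sg j = sg i →
      qq p i = qe n p c + r * (qe n p (c + 1) - qe n p c) →
      cr (qe n p (c + 1) - qe n p c) (qq p j - qe n p c) ≠ 0 := fun i r hi hji hs e h0 => by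
    have s := stq C j i hji hj hi hs
    refine cr_ne3 (qe n p (c + 1) - qe n p c) (qq p j - qq p i) (by linarith) (by linarith) ?_ ?_
    · rw [qq, qq, ← hs, R_sub]
      rcases sg_or j with e | e <;> simpa [e, abs_sub_comm] using s
    · rw [e]
      generalize qe n p (c + 1) - qe n p c = d at *
      simp only [cr, sub_re, sub_im, add_re, add_im, re_ofReal_mul, im_ofReal_mul] at h0 ⊢
      linear_combination h0
  obtain ⟨r, r', -, e1, e2⟩ := onl C c hc
  by_cases e : sg j = sg c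
  · exact key c r (by omega) h1 e e1
  · refine key (c + 1) r' (by omega) h2 ?_ e2
    rw [sg_succ]
    rcases sg_or j with a | a <;> rcases sg_or c with b | b <;> simp_all

include C in
lemma subCC (c c' : ℕ) (hc' : c' ≤ n) (h : c < c') :
    (segment ℝ (qe n p c) (qe n p (c + 1)) ∩
      segment ℝ (qe n p c') (qe n p (c' + 1))).Subsingleton := by
  obtain ⟨r, r', -, -, e2⟩ := onl C c' hc'
  refine sub_line _ _ _ _ r' ?_
  rw [← e2]
  exact offl C c (c' + 1) (by omega) (by omega) (by omega) (by omega)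

include C in
lemma subCS (c k : ℕ) (f : Fin 9) (hc : c ≤ n) (hk : 1 ≤ k) (hk' : k ≤ n) :
    (segment ℝ (qe n p c) (qe n p (c + 1)) ∩
      segment ℝ (R (sg k) (ua p z1 z2 k f)) (R (sg k) (ub τ z1 z2 k f))).Subsingleton := by
  obtain ⟨d1, d2⟩ := hdir C c
  by_cases hf : f = 0
  · subst hf
    have s1 : 0 < sg k * (R (sg k) a0 - qq p k).re := by
      have := (abs_le.1 (C.hp k).1).2
      rcases sg_or k with e | e <;> simp [e, qq] <;> linarith [ab.1]
    show (_ ∩ segment ℝ (qq p k) (R (sg k) a0)).Subsingleton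
    by_cases e1 : k = c
    · subst e1
      rw [qe_mid k hk hk'] at *
      exact sub_sep _ _ _ (sg k) (by linarith) s1
    by_cases e2 : k = c + 1
    · subst e2
      rw [qe_mid _ hk hk'] at *
      rw [segment_symm]
      refine sub_sep _ _ _ (sg (c + 1)) ?_ s1
      rw [sg_succ, ← neg_sub, neg_re, neg_mul_neg]; linarith
    exact sub_cr _ _ _ _ (Or.inl (offl C c k hc (by omega) e1 e2))
  · refine sub_par _ _ _ _ (cr_h _ _ ?_ d2 ?_ ?_)
    · rcases sg_or c with e | e <;> rw [e] at d1 <;> rw [le_abs]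
      · right; linarith
      · left; linarith
    all_goals
      obtain ⟨a1, a2⟩ := ap_sub (apu C k f).2 (apu C k f).1
      obtain ⟨b1, b2⟩ := tab4 f hf
      rw [R_sub]
      generalize tb 1 f - ta 1 f = w at *
      generalize ub τ z1 z2 k f - ua p z1 z2 k f = u at *
    · have k2 : |(w.1 : ℝ)| ≤ 2292 := by exact_mod_cast b2
      have b := abs_sub_abs_le_abs_sub (100 * u.re) (w.1 : ℝ)
      rw [abs_mul] at b
      norm_num at b
      rcases sg_or k with e | e <;> simp [e] <;> linarith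
    · have k2 : (276 : ℝ) ≤ |(w.2 : ℝ)| := by exact_mod_cast b1
      have b := abs_sub_abs_le_abs_sub (w.2 : ℝ) (100 * u.im)
      rw [abs_mul, abs_sub_comm] at b
      norm_num at b
      rw [R_im]; linarith

include C in
lemma inn (k : ℕ) : Inn (qq p k) ∧ Inn (R (sg k) (z1 k)) ∧ Inn (R (sg k) (z2 k)) := by
  have key : ∀ (u : ℂ) (w : ℤ × ℤ), ap 3 u w → |w.1| ≤ 390 → |w.2| ≤ 290 → Inn (R (sg k) u) := by
    intro u w a b c
    have b' : |(w.1 : ℝ)| ≤ 390 := by exact_mod_cast b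
    have c' : |(w.2 : ℝ)| ≤ 290 := by exact_mod_cast c
    simp only [ap, Inn, abs_le, R_re, R_im] at *
    rcases sg_or k with e | e <;> rw [e] <;> refine ⟨⟨?_, ?_⟩, ?_, ?_⟩ <;>
      linarith [a.1.1, a.1.2, a.2.1, a.2.2, b'.1, b'.2, c'.1, c'.2]
  exact ⟨key _ _ (apu C k 0).1 (by decide) (by decide), key _ _ (apu C k 5).1 (by decide) (by decide),
    key _ _ (apu C k 7).1 (by decide) (by decide)⟩

lemma notA (τ : ℝ) (P : ℂ) (h : Inn P) : ¬ IsA τ P := by
  have a1 := ab.1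
  have b1 := bb.1
  simp only [Inn, abs_le] at h
  rintro (rfl | rfl | rfl | rfl) <;> simp [Bt, Dt] at h <;> linarith [h.1, h.2]

end

end Pool.Agent.H68.Gn
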