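import Pool.Agent.H68.Gq5

set_option autoImplicit false

namespace Pool.Agent.H68.Gn

open Complex Metric Set Classical

lemma un_rot (w v : ℂ) (hw : w.re * w.re + w.im * w.im = 1) : un (w * v) = w * un v := by
  rw [un, un, norm_mul, nu w hw, one_mul, mul_div_assoc]

lemma R_add (s : ℝ) (a b : ℂ) : R s a + R s b = R s (a + b) := by
  apply Complex.ext <;> simp; ring

lemma R_zero (s : ℝ) : R s 0 = 0 := by apply Complex.ext <;> simp

abbrev Iy (n : ℕ) : Type := (Fin n × Fin 9) ⊕ Fin (n + 1)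

noncomputable def AA (n : ℕ) (p z1 z2 : ℕ → ℂ) : Iy n → ℂ :=
  Sum.elim (fun x => R (sg (x.1 + 1)) (ua p z1 z2 (x.1 + 1) x.2)) fun c => qe n p c
noncomputable def BB (n : ℕ) (τ : ℝ) (p z1 z2 : ℕ → ℂ) : Iy n → ℂ :=
  Sum.elim (fun x => R (sg (x.1 + 1)) (ub τ z1 z2 (x.1 + 1) x.2)) fun c => qe n p (c + 1)

section
variable {n : ℕ} {τ : ℝ} {p z1 z2 : ℕ → ℂ} (C : Cfg n τ p z1 z2)

include C in
lemma hun (c : ℕ) (hc : c ≤ n) : un (qe n p (c + 1) - qe n p c) = un (qq p (c + 1) - qq p c) := by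
  obtain ⟨r, r', h, e1, e2⟩ := onl C c hc
  have : qq p (c + 1) - qq p c = ((r' - r : ℝ) : ℂ) * (qe n p (c + 1) - qe n p c) := by
    rw [e1, e2]; push_cast; ring
  rw [this, un_smul _ (by linarith)]

include C in
lemma spokes (k : ℕ) (hk : k + 1 ≤ n) (I : ℂ → ℂ) (hI : ∀ Y, IsA τ Y → I Y = 0) :
    ∑ f : Fin 9, (I (R (sg (k + 1)) (ua p z1 z2 (k + 1) f)) - I (R (sg (k + 1)) (ub τ z1 z2 (k + 1) f))) *
      un (R (sg (k + 1)) (ub τ z1 z2 (k + 1) f) - R (sg (k + 1)) (ua p z1 z2 (k + 1) f)) =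
    I (qq p (k + 1)) * (un (qq p (k + 1) - qq p k) - un (qq p (k + 2) - qq p (k + 1))) := by
  have o1 : om.re * om.re + om.im * om.im = 1 := by simp only [om]; nlinarith [s3]
  have o2 : om'.re * om'.re + om'.im * om'.im = 1 := by simp only [om']; nlinarith [s3]
  have o3 : om + om' = 1 := by apply Complex.ext <;> simp [om, om']; norm_num
  obtain ⟨α, β, γ, a1, b1, c1, e1, e2, e3, -⟩ := C.s1 (k + 1)
  obtain ⟨α2, β2, γ2, a3, b3, c3, e7, e8, e9, -⟩ := C.s2 (k + 1)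
  obtain ⟨i1, i2, i3⟩ := isA_R τ (k + 1)
  have j1 := hI _ i1
  have j2 : I (R (sg (k + 1)) (Bt (sg (k + 1) * τ))) = 0 := by rw [i2]; exact hI _ (by simp [IsA])
  have j3 : I (R (sg (k + 1)) (Dt (sg (k + 1) * τ))) = 0 := by rw [i3]; exact hI _ (by simp [IsA])
  have g := C.hG k hk
  have f1 : qq p (k + 2) - qq p (k + 1) =
      R (sg (k + 1)) (-(starRingEnd ℂ) (p (k + 2)) - p (k + 1)) := by
    apply Complex.ext <;> simp [qq, sg_succ]; ring
  have f2 : qq p (k + 1) - qq p k = -R (sg (k + 1)) (-(starRingEnd ℂ) (p k) - p (k + 1)) := by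
    apply Complex.ext <;> simp [qq, sg_succ]; ring
  have g' := congrArg (R (sg (k + 1))) g
  simp only [Gq, ← R_add, R_zero] at g'
  have z1' : R (sg (k + 1)) (om * un (E1 (sg (k + 1) * τ) - p (k + 1))) +
      R (sg (k + 1)) (om' * un (E1 (sg (k + 1) * τ) - p (k + 1))) =
      R (sg (k + 1)) (un (E1 (sg (k + 1) * τ) - p (k + 1))) := by
    rw [R_add, ← add_mul, o3, one_mul]
  have z2' : R (sg (k + 1)) (om * un (E2 (sg (k + 1) * τ) - p (k + 1))) +
      R (sg (k + 1)) (om' * un (E2 (sg (k + 1) * τ) - p (k + 1))) =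
      R (sg (k + 1)) (un (E2 (sg (k + 1) * τ) - p (k + 1))) := by
    rw [R_add, ← add_mul, o3, one_mul]
  rw [f1, f2]
  simp only [Fin.sum_univ_succ, Fin.sum_univ_zero, ua, ub, Matrix.cons_val_zero,
    Matrix.cons_val_succ, j1, j2, j3, R_sub, un_R, e1, e2, e3, e7, e8, e9, un_smul _ a1,
    un_smul _ b1, un_smul _ c1, un_smul _ a3, un_smul _ b3, un_smul _ c3, un_rot _ _ o1,
    un_rot _ _ o2, un_neg, qq]
  linear_combination I (R (sg (k + 1)) (p (k + 1))) * g' +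
    I (R (sg (k + 1)) (z1 (k + 1))) * z1' + I (R (sg (k + 1)) (z2 (k + 1))) * z2'

include C in
lemma totQ (v : ℂ) (hv : ¬ IsA τ v) : ∑ i : Iy n, ((1 : ℕ) : ℂ) *
    ((if AA n p z1 z2 i = v then un (BB n τ p z1 z2 i - AA n p z1 z2 i) else 0) -
      (if BB n τ p z1 z2 i = v then un (BB n τ p z1 z2 i - AA n p z1 z2 i) else 0)) = 0 := by
  let I : ℂ → ℂ := fun x => if x = v then 1 else 0
  have hI : ∀ Y, IsA τ Y → I Y = 0 := fun Y h => if_neg fun e : Y = v => hv (e ▸ h)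
  have e : ∀ a b u : ℂ, ((1 : ℕ) : ℂ) * ((if a = v then u else 0) - (if b = v then u else 0)) =
      (I a - I b) * u := fun a b u => by
    simp only [I]; split_ifs <;> simp
  simp only [e]
  rw [Fintype.sum_sum_type, Fintype.sum_prod_type]
  simp only [AA, BB, Sum.elim_inl, Sum.elim_inr]
  rw [Finset.sum_congr rfl fun (k : Fin n) _ => spokes C k k.2 I hI,
    Fin.sum_univ_eq_sum_range (fun k => I (qq p (k + 1)) *
      (un (qq p (k + 1) - qq p k) - un (qq p (k + 2) - qq p (k + 1)))) n,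
    Fin.sum_univ_eq_sum_range (fun c => (I (qe n p c) - I (qe n p (c + 1))) *
      un (qe n p (c + 1) - qe n p c)) (n + 1),
    Finset.sum_congr rfl (s₂ := Finset.range (n + 1)) (g := fun c =>
      I (qe n p c) * un (qq p (c + 1) - qq p c) - I (qe n p (c + 1)) * un (qq p (c + 1) - qq p c))
      fun c hc => by rw [hun C c (by simpa [Nat.lt_succ_iff] using hc), sub_mul],
    Finset.sum_sub_distrib, Finset.sum_range_succ', Finset.sum_range_succ]
  have a0' : I (qe n p 0) = 0 := hI _ (by rw [qe, if_pos (Or.inl rfl)]; exact (isA_R τ 0).1)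
  have a1' : I (qe n p (n + 1)) = 0 := hI _ (by rw [qe, if_pos (Or.inr rfl)]; exact (isA_R τ _).1)
  rw [a0', a1', zero_mul, zero_mul, add_zero, add_zero, ← Finset.sum_sub_distrib,
    ← Finset.sum_add_distrib]
  refine Finset.sum_eq_zero fun k hk => ?_
  rw [qe_mid (k + 1) (by omega) (by simpa using hk)]
  ring

include C in
theorem netQ : ∃ V : Finset ℂ, ∃ G : SimpleGraph ℂ,
    (∀ a b : ℂ, G.Adj a b → a ∈ V ∧ b ∈ V) ∧
    (∀ a ∈ V, ∀ b ∈ V, G.Reachable a b) ∧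
    (∀ a b c d : ℂ, G.Adj a b → G.Adj c d → ¬ ((a = c ∧ b = d) ∨ (a = d ∧ b = c)) →
      ∀ x ∈ segment ℝ a b ∩ segment ℝ c d, (x = a ∨ x = b) ∧ (x = c ∨ x = d)) ∧
    (∀ a b v : ℂ, G.Adj a b → v ∈ V → v ∈ segment ℝ a b → v = a ∨ v = b) ∧
    (∀ a, IsA τ a → a ∈ V) ∧ (∀ a b, IsA τ a → IsA τ b → ¬ G.Adj a b) ∧
    (∀ v ∈ V, ¬ IsA τ v → 3 ≤ (G.neighborSet v).ncard ∧
      (∑ᶠ w ∈ G.neighborSet v, (w - v) / ((‖w - v‖ : ℝ) : ℂ)) = 0) ∧
    ∀ k, k + 1 ≤ n → qq p (k + 1) ∈ V := by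
  have hn := C.hn
  obtain ⟨V, G, m, c1, c2, c3, c4, c5, c6, c7, c8, c9, c10⟩ := planarW (ι := Iy n)
    (AA n p z1 z2) (BB n τ p z1 z2)
    (by
      rintro (⟨k, f⟩ | c) h
      · have := (fl_ap (ap_sub (apu C (k + 1) f).2 (apu C (k + 1) f).1) (tab3 f)).1
        have e := sub_eq_zero.2 h.symm
        simp only [AA, BB, Sum.elim_inl, R_sub] at e
        have e' := congrArg re e
        rcases sg_or (k + 1) with s | s <;> simp only [s, R_re, zero_re] at e' <;>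
          rw [show (ub τ z1 z2 (k + 1) f - ua p z1 z2 (k + 1) f).re = 0 by linarith] at this <;>
          simp at this
      · have := (hdir C c).1
        rw [show qe n p (c + 1) - qe n p c = 0 from sub_eq_zero.2 h.symm] at this
        norm_num at this)
    (by
      rintro (⟨k, f⟩ | c) (⟨k', f'⟩ | c') h
      · exact subSS C _ _ _ _ (by omega) (by omega) fun e1 e2 => h (by
          rw [show f = f' from e2, show k = k' from Fin.ext (by simpa using e1)])
      · rw [inter_comm]; exact subCS C _ _ _ (by omega) (by omega) (by omega)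
      · exact subCS C _ _ _ (by omega) (by omega) (by omega)
      · have : c.val ≠ c'.val := fun e => h (by rw [Fin.ext e])
        rcases lt_or_gt_of_ne this with l | l
        · exact subCC C _ _ (by omega) l
        · rw [inter_comm]; exact subCC C _ _ (by omega) l)
    (fun _ => 1)
  have r1 : ∀ k ≤ n + 1, G.Reachable (qe n p 0) (qe n p k) := fun k hk => by
    induction k with
    | zero => rfl
    | succ k ih => exact (ih (by omega)).trans (c6 (Sum.inr ⟨k, by omega⟩)).2.2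
  have r3 : ∀ i, G.Reachable (qe n p 0) (AA n p z1 z2 i) := by
    rintro (⟨k, f⟩ | c)
    · have q : G.Reachable (qe n p 0) (qq p (k + 1)) := by
        rw [← qe_mid (n := n) (k + 1) (by omega) (by omega)]; exact r1 _ (by omega)
      have q1 := q.trans (c6 (Sum.inl (k, 3))).2.2
      have q2 := q.trans (c6 (Sum.inl (k, 4))).2.2
      fin_cases f <;> first | exact q | exact q1 | exact q2
    · exact r1 c (by omega)
  have r2 : ∀ v ∈ V, G.Reachable (qe n p 0) v := fun v hv => by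
    obtain ⟨i, hi⟩ := c7 v hv
    exact ((r3 i).trans (c6 i).2.2).trans hi.symm
  have qi : ∀ k, Inn (qe n p k) ∨ (IsA τ (qe n p k) ∧ (k = 0 ∨ k = n + 1)) := fun k => by
    unfold qe; split_ifs with h
    · exact Or.inr ⟨(isA_R τ k).1, h⟩
    · exact Or.inl (inn C k).1
  have an : ∀ i, ∃ Q, ∀ Y, IsA τ Y → Y ∈ segment ℝ (AA n p z1 z2 i) (BB n τ p z1 z2 i) → Y = Q := by
    rintro (⟨k, f⟩ | c)
    · obtain ⟨a1, a2, a3⟩ := inn C (k + 1)
      obtain ⟨i1, i2, i3⟩ := isA_R τ (k + 1)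
      have j2 : IsA τ (R (sg (k + 1)) (Bt (sg (k + 1) * τ))) := by rw [i2]; simp [IsA]
      have j3 : IsA τ (R (sg (k + 1)) (Dt (sg (k + 1) * τ))) := by rw [i3]; simp [IsA]
      refine ⟨_, fun Y h1 h2 => anc4 τ C.ht _ _ Y ?_ ?_ h1 h2⟩
      · fin_cases f <;> first | exact a1 | exact a2 | exact a3
      · fin_cases f <;> first
          | exact Or.inr i1 | exact Or.inr j2 | exact Or.inr j3 | exact Or.inl a2 | exact Or.inl a3
    · rcases qi c with h | ⟨h, h'⟩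
      · exact ⟨_, fun Y h1 h2 => anc4 τ C.ht _ _ Y h ((qi (c + 1)).imp id And.left) h1 h2⟩
      · refine ⟨_, fun Y h1 h2 => anc4 τ C.ht (qe n p (c + 1)) (qe n p c) Y ?_ (Or.inr h) h1
          (by rw [segment_symm]; exact h2)⟩
        exact (qi (c + 1)).resolve_right fun e => by have := e.2; omega
  have dq : ∀ k : Fin n, 3 ≤ (G.neighborSet (qq p (k + 1))).ncard ∧
      3 ≤ (G.neighborSet (R (sg (k + 1)) (z1 (k + 1)))).ncard ∧
      3 ≤ (G.neighborSet (R (sg (k + 1)) (z2 (k + 1)))).ncard := fun k =>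
    ⟨c10 _ (Sum.inl (k, 0)) (Sum.inl (k, 1)) (Sum.inl (k, 2)) (by simp) (by simp) (by simp)
      (Or.inl rfl) (Or.inl rfl) (Or.inl rfl),
    c10 _ (Sum.inl (k, 3)) (Sum.inl (k, 5)) (Sum.inl (k, 6)) (by simp) (by simp) (by simp)
      (Or.inr rfl) (Or.inl rfl) (Or.inl rfl),
    c10 _ (Sum.inl (k, 4)) (Sum.inl (k, 7)) (Sum.inl (k, 8)) (by simp) (by simp) (by simp)
      (Or.inr rfl) (Or.inl rfl) (Or.inl rfl)⟩
  have de : ∀ k ≤ n + 1, ¬ IsA τ (qe n p k) → 3 ≤ (G.neighborSet (qe n p k)).ncard :=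
    fun k hk h => by
      have h' : ¬ (k = 0 ∨ k = n + 1) := fun e => h (by rw [qe, if_pos e]; exact (isA_R τ k).1)
      obtain ⟨j, rfl⟩ : ∃ j, k = j + 1 := ⟨k - 1, by omega⟩
      rw [qe, if_neg h']
      exact (dq ⟨j, by omega⟩).1
  refine ⟨V, G, c1, fun a ha b hb => (r2 a ha).symm.trans (r2 b hb), c2, c3, ?_,
    fun a b ha hb h => ?_, fun v hv hA => ⟨?_, ?_⟩,
    fun k hk => (c6 (Sum.inl (⟨k, by omega⟩, 0))).1⟩
  · obtain ⟨-, i2, i3⟩ := isA_R τ (0 + 1)
    rintro a (rfl | rfl | rfl | rfl)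
    · convert (c6 (Sum.inr 0)).1 using 1
      apply Complex.ext <;> simp [AA, qe, sg]
    · convert (c6 (Sum.inl (⟨0, by omega⟩, 0))).2.1 using 1
      apply Complex.ext <;> simp [BB, ub, sg]
    · rw [← i2]; exact (c6 (Sum.inl (⟨0, by omega⟩, 1))).2.1
    · rw [← i3]; exact (c6 (Sum.inl (⟨0, by omega⟩, 2))).2.1
  · obtain ⟨i, a1, b1, -⟩ := c5 _ _ h
    obtain ⟨Q, hQ⟩ := an i
    exact h.ne ((hQ _ ha a1).trans (hQ _ hb b1).symm)
  · by_cases e : ∀ i, AA n p z1 z2 i ≠ v ∧ BB n τ p z1 z2 i ≠ v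
    · exact c9 v hv e
    simp only [not_forall, not_and_or, not_not] at e
    obtain ⟨i, rfl | rfl⟩ := e
    · rcases i with ⟨k, f⟩ | c
      · obtain ⟨d1, d2, d3⟩ := dq k
        fin_cases f <;> first | exact d1 | exact d2 | exact d3
      · exact de c (by omega) hA
    · rcases i with ⟨k, f⟩ | c
      · obtain ⟨d1, d2, d3⟩ := dq k
        obtain ⟨i1, i2, i3⟩ := isA_R τ (k + 1)
        have j2 : IsA τ (R (sg (k + 1)) (Bt (sg (k + 1) * τ))) := by rw [i2]; simp [IsA]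
        have j3 : IsA τ (R (sg (k + 1)) (Dt (sg (k + 1) * τ))) := by rw [i3]; simp [IsA]
        fin_cases f <;> first
          | exact absurd i1 hA | exact absurd j2 hA | exact absurd j3 hA | exact d2 | exact d3
      · exact de (c + 1) (by omega) hA
  · rw [← totQ C v hA, ← c8 v hv]
    refine finsum_mem_congr rfl fun w hw => ?_
    obtain ⟨i, -, -, e⟩ := c5 v w hw
    rw [e]; simp

end

end Pool.Agent.H68.Gn
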