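import Pool.Agent.H68.Gq6

set_option autoImplicit false

namespace Pool.Agent.H68.Gn

open Complex Metric Set Classical

lemma un_le (u : ℂ) : ‖un u‖ ≤ 1 := by
  rw [un, norm_div, norm_real, Real.norm_eq_abs, abs_norm]
  exact div_self_le_one _

lemma outw (τ : ℝ) (ht : |τ| ≤ 1 / 100) (v : ℂ) (hv : IsA τ v) :
    ∃ e : ℂ, ∀ P, Inn P → (e * un (P - v)).re < 0 := by
  have key : ∀ e : ℂ, (∀ P, Inn P → (e * (P - v)).re < 0) → ∀ P, Inn P → (e * un (P - v)).re < 0 :=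
    fun e h P hP => by
      have := h P hP
      rw [un, ← mul_div_assoc, div_ofReal_re]
      exact div_neg_of_neg_of_pos this (norm_pos_iff.2 fun h0 => by simp [h0] at this)
  have a1 := ab.1
  have b1 := bb.1
  rcases hv with rfl | rfl | rfl | rfl
  · exact ⟨1, key _ fun P h => by simp; linarith [(abs_le.1 h.1).2]⟩
  · exact ⟨-1, key _ fun P h => by simp; linarith [(abs_le.1 h.1).1]⟩
  · exact ⟨-I, key _ fun P h => by simp [Bt]; linarith [(abs_le.1 h.2).2]⟩
  · exact ⟨I, key _ fun P h => by simp [Dt]; linarith [(abs_le.1 h.2).1]⟩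

section
variable {n : ℕ} {τ : ℝ} {p z1 z2 : ℕ → ℂ} (C : Cfg n τ p z1 z2)

include C in
theorem netQ2 : ∃ V : Finset ℂ, ∃ G : SimpleGraph ℂ,
    (∀ a b : ℂ, G.Adj a b → a ∈ V ∧ b ∈ V) ∧
    (∀ a ∈ V, ∀ b ∈ V, G.Reachable a b) ∧
    (∀ a b c d : ℂ, G.Adj a b → G.Adj c d → ¬ ((a = c ∧ b = d) ∨ (a = d ∧ b = c)) →
      ∀ x ∈ segment ℝ a b ∩ segment ℝ c d, (x = a ∨ x = b) ∧ (x = c ∨ x = d)) ∧
    (∀ a b v : ℂ, G.Adj a b → v ∈ V → v ∈ segment ℝ a b → v = a ∨ v = b) ∧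
    (∀ a, IsA τ a → a ∈ V) ∧ (∀ a b, IsA τ a → IsA τ b → ¬ G.Adj a b) ∧
    (∀ v ∈ V, ¬ IsA τ v → 3 ≤ (G.neighborSet v).ncard ∧
      (∑ᶠ w ∈ G.neighborSet v, (w - v) / ((‖w - v‖ : ℝ) : ℂ)) = 0) ∧
    (∀ k, k + 1 ≤ n → qq p (k + 1) ∈ V) ∧
    ∀ v, IsA τ v → (∑ᶠ w ∈ G.neighborSet v, (w - v) / ((‖w - v‖ : ℝ) : ℂ)) ≠ 0 ∧
      ‖∑ᶠ w ∈ G.neighborSet v, (w - v) / ((‖w - v‖ : ℝ) : ℂ)‖ ≤ 2 * (10 * n + 1) := by
  have hn := C.hn
  obtain ⟨V, G, m, c1, c2, c3, c4, c5, c6, c7, c8, c9, c10⟩ := planarW (ι := Iy n)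
    (AA n p z1 z2) (BB n τ p z1 z2)
    (by
      rintro (⟨k, f⟩ | c) h
      · have := (fl_ap (ap_sub (apu C (k + 1) f).2 (apu C (k + 1) f).1) (tab3 f)).1
        have e := sub_eq_zero.2 h.symm
        simp only [AA, BB, Sum.elim_inl, R_sub] at e
        have e' := congrArg re e
        rcases sg_or (k + 1) with s | s <;> simp only [s, R_re, zero_re] at e' <;>
          rw [show (ub τ z1 z2 (k + 1) f - ua p z1 z2 (k + 1) f).re = 0 by linarith] at this <;>
          simp at this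
      · have := (hdir C c).1
        rw [show qe n p (c + 1) - qe n p c = 0 from sub_eq_zero.2 h.symm] at this
        norm_num at this)
    (by
      rintro (⟨k, f⟩ | c) (⟨k', f'⟩ | c') h
      · exact subSS C _ _ _ _ (by omega) (by omega) fun e1 e2 => h (by
          rw [show f = f' from e2, show k = k' from Fin.ext (by simpa using e1)])
      · rw [inter_comm]; exact subCS C _ _ _ (by omega) (by omega) (by omega)
      · exact subCS C _ _ _ (by omega) (by omega) (by omega)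
      · have : c.val ≠ c'.val := fun e => h (by rw [Fin.ext e])
        rcases lt_or_gt_of_ne this with l | l
        · exact subCC C _ _ (by omega) l
        · rw [inter_comm]; exact subCC C _ _ (by omega) l)
    (fun _ => 1)
  have r1 : ∀ k ≤ n + 1, G.Reachable (qe n p 0) (qe n p k) := fun k hk => by
    induction k with
    | zero => rfl
    | succ k ih => exact (ih (by omega)).trans (c6 (Sum.inr ⟨k, by omega⟩)).2.2
  have r3 : ∀ i, G.Reachable (qe n p 0) (AA n p z1 z2 i) := by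
    rintro (⟨k, f⟩ | c)
    · have q : G.Reachable (qe n p 0) (qq p (k + 1)) := by
        rw [← qe_mid (n := n) (k + 1) (by omega) (by omega)]; exact r1 _ (by omega)
      have q1 := q.trans (c6 (Sum.inl (k, 3))).2.2
      have q2 := q.trans (c6 (Sum.inl (k, 4))).2.2
      fin_cases f <;> first | exact q | exact q1 | exact q2
    · exact r1 c (by omega)
  have r2 : ∀ v ∈ V, G.Reachable (qe n p 0) v := fun v hv => by
    obtain ⟨i, hi⟩ := c7 v hv
    exact ((r3 i).trans (c6 i).2.2).trans hi.symm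
  have qi : ∀ k, Inn (qe n p k) ∨ (IsA τ (qe n p k) ∧ (k = 0 ∨ k = n + 1)) := fun k => by
    unfold qe; split_ifs with h
    · exact Or.inr ⟨(isA_R τ k).1, h⟩
    · exact Or.inl (inn C k).1
  have an : ∀ i, ∃ Q, ∀ Y, IsA τ Y → Y ∈ segment ℝ (AA n p z1 z2 i) (BB n τ p z1 z2 i) → Y = Q := by
    rintro (⟨k, f⟩ | c)
    · obtain ⟨a1, a2, a3⟩ := inn C (k + 1)
      obtain ⟨i1, i2, i3⟩ := isA_R τ (k + 1)
      have j2 : IsA τ (R (sg (k + 1)) (Bt (sg (k + 1) * τ))) := by rw [i2]; simp [IsA]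
      have j3 : IsA τ (R (sg (k + 1)) (Dt (sg (k + 1) * τ))) := by rw [i3]; simp [IsA]
      refine ⟨_, fun Y h1 h2 => anc4 τ C.ht _ _ Y ?_ ?_ h1 h2⟩
      · fin_cases f <;> first | exact a1 | exact a2 | exact a3
      · fin_cases f <;> first
          | exact Or.inr i1 | exact Or.inr j2 | exact Or.inr j3 | exact Or.inl a2 | exact Or.inl a3
    · rcases qi c with h | ⟨h, h'⟩
      · exact ⟨_, fun Y h1 h2 => anc4 τ C.ht _ _ Y h ((qi (c + 1)).imp id And.left) h1 h2⟩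
      · refine ⟨_, fun Y h1 h2 => anc4 τ C.ht (qe n p (c + 1)) (qe n p c) Y ?_ (Or.inr h) h1
          (by rw [segment_symm]; exact h2)⟩
        exact (qi (c + 1)).resolve_right fun e => by have := e.2; omega
  have dq : ∀ k : Fin n, 3 ≤ (G.neighborSet (qq p (k + 1))).ncard ∧
      3 ≤ (G.neighborSet (R (sg (k + 1)) (z1 (k + 1)))).ncard ∧
      3 ≤ (G.neighborSet (R (sg (k + 1)) (z2 (k + 1)))).ncard := fun k =>
    ⟨c10 _ (Sum.inl (k, 0)) (Sum.inl (k, 1)) (Sum.inl (k, 2)) (by simp) (by simp) (by simp)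
      (Or.inl rfl) (Or.inl rfl) (Or.inl rfl),
    c10 _ (Sum.inl (k, 3)) (Sum.inl (k, 5)) (Sum.inl (k, 6)) (by simp) (by simp) (by simp)
      (Or.inr rfl) (Or.inl rfl) (Or.inl rfl),
    c10 _ (Sum.inl (k, 4)) (Sum.inl (k, 7)) (Sum.inl (k, 8)) (by simp) (by simp) (by simp)
      (Or.inr rfl) (Or.inl rfl) (Or.inl rfl)⟩
  have de : ∀ k ≤ n + 1, ¬ IsA τ (qe n p k) → 3 ≤ (G.neighborSet (qe n p k)).ncard :=
    fun k hk h => by
      have h' : ¬ (k = 0 ∨ k = n + 1) := fun e => h (by rw [qe, if_pos e]; exact (isA_R τ k).1)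
      obtain ⟨j, rfl⟩ : ∃ j, k = j + 1 := ⟨k - 1, by omega⟩
      rw [qe, if_neg h']
      exact (dq ⟨j, by omega⟩).1
  have ex : ∀ a, IsA τ a → ∃ i, BB n τ p z1 z2 i = a := by
    obtain ⟨-, i2, i3⟩ := isA_R τ (0 + 1)
    rintro a (rfl | rfl | rfl | rfl)
    · exact ⟨Sum.inl (⟨1, by omega⟩, 0), by apply Complex.ext <;> simp [BB, ub, sg]⟩
    · exact ⟨Sum.inl (⟨0, by omega⟩, 0), by apply Complex.ext <;> simp [BB, ub, sg]⟩
    · exact ⟨Sum.inl (⟨0, by omega⟩, 1), i2⟩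
    · exact ⟨Sum.inl (⟨0, by omega⟩, 2), i3⟩
  have mA : ∀ a, IsA τ a → a ∈ V := fun a ha => by
    obtain ⟨i, rfl⟩ := ex a ha
    exact (c6 i).2.1
  have en : ∀ i, Inn (AA n p z1 z2 i) ∨ Inn (BB n τ p z1 z2 i) := by
    rintro (⟨k, f⟩ | c)
    · obtain ⟨a1, a2, a3⟩ := inn C (k + 1)
      left
      fin_cases f <;> first | exact a1 | exact a2 | exact a3
    · rcases qi c with h | ⟨h, h'⟩
      · exact Or.inl h
      · exact Or.inr ((qi (c + 1)).resolve_right fun e => by have := e.2; omega)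
  have c8' : ∀ v ∈ V, (∑ᶠ w ∈ G.neighborSet v, (w - v) / ((‖w - v‖ : ℝ) : ℂ)) =
      ∑ i : Iy n, ((1 : ℕ) : ℂ) *
      ((if AA n p z1 z2 i = v then un (BB n τ p z1 z2 i - AA n p z1 z2 i) else 0) -
        (if BB n τ p z1 z2 i = v then un (BB n τ p z1 z2 i - AA n p z1 z2 i) else 0)) :=
    fun v hv => by
      rw [← c8 v hv]
      refine finsum_mem_congr rfl fun w hw => ?_
      obtain ⟨i, -, -, e⟩ := c5 v w hw
      rw [e]; simp
  refine ⟨V, G, c1, fun a ha b hb => (r2 a ha).symm.trans (r2 b hb), c2, c3, mA,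
    fun a b ha hb h => ?_, fun v hv hA => ⟨?_, ?_⟩,
    fun k hk => (c6 (Sum.inl (⟨k, by omega⟩, 0))).1, fun v hv => ?_⟩
  rotate_right
  · rw [c8' v (mA v hv)]
    obtain ⟨e, he⟩ := outw τ C.ht v hv
    have tm : ∀ i, (AA n p z1 z2 i = v ∨ BB n τ p z1 z2 i = v) → 0 < -(e * (((1 : ℕ) : ℂ) *
        ((if AA n p z1 z2 i = v then un (BB n τ p z1 z2 i - AA n p z1 z2 i) else 0) -
        (if BB n τ p z1 z2 i = v then un (BB n τ p z1 z2 i - AA n p z1 z2 i) else 0)))).re := by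
      intro i hi
      rcases en i with h | h
      · have h1 : AA n p z1 z2 i ≠ v := fun e => notA τ _ h (e ▸ hv)
        have h2 := hi.resolve_left h1
        rw [if_neg h1, if_pos h2, zero_sub, ← un_neg, neg_sub, h2]
        simpa using he _ h
      · have h1 : BB n τ p z1 z2 i ≠ v := fun e => notA τ _ h (e ▸ hv)
        have h2 := hi.resolve_right h1
        rw [if_neg h1, if_pos h2, sub_zero, h2]
        simpa using he _ h
    refine ⟨fun h0 => ?_, (norm_sum_le _ _).trans ?_⟩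
    · have a := congrArg (fun z => -(e * z).re) h0
      simp only [Finset.mul_sum, re_sum, mul_zero, zero_re, neg_zero, ← Finset.sum_neg_distrib] at a
      obtain ⟨i, hi⟩ := ex v hv
      refine absurd a (ne_of_gt (Finset.sum_pos' (fun j _ => ?_) ⟨i, by simp, tm i (Or.inr hi)⟩))
      by_cases hj : AA n p z1 z2 j = v ∨ BB n τ p z1 z2 j = v
      · exact (tm j hj).le
      · push Not at hj
        simp [hj.1, hj.2]
    · refine (Finset.sum_le_card_nsmul _ _ 2 fun i _ => ?_).trans ?_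
      · have := un_le (BB n τ p z1 z2 i - AA n p z1 z2 i)
        rw [Nat.cast_one, one_mul]
        refine (norm_sub_le _ _).trans ?_
        split_ifs <;> (try simp only [norm_zero]) <;> linarith
      · simp; linarith
  · obtain ⟨i, a1, b1, -⟩ := c5 _ _ h
    obtain ⟨Q, hQ⟩ := an i
    exact h.ne ((hQ _ ha a1).trans (hQ _ hb b1).symm)
  · by_cases e : ∀ i, AA n p z1 z2 i ≠ v ∧ BB n τ p z1 z2 i ≠ v
    · exact c9 v hv e
    simp only [not_forall, not_and_or, not_not] at e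
    obtain ⟨i, rfl | rfl⟩ := e
    · rcases i with ⟨k, f⟩ | c
      · obtain ⟨d1, d2, d3⟩ := dq k
        fin_cases f <;> first | exact d1 | exact d2 | exact d3
      · exact de c (by omega) hA
    · rcases i with ⟨k, f⟩ | c
      · obtain ⟨d1, d2, d3⟩ := dq k
        obtain ⟨i1, i2, i3⟩ := isA_R τ (k + 1)
        have j2 : IsA τ (R (sg (k + 1)) (Bt (sg (k + 1) * τ))) := by rw [i2]; simp [IsA]
        have j3 : IsA τ (R (sg (k + 1)) (Dt (sg (k + 1) * τ))) := by rw [i3]; simp [IsA]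
        fin_cases f <;> first
          | exact absurd i1 hA | exact absurd j2 hA | exact absurd j3 hA | exact d2 | exact d3
      · exact de (c + 1) (by omega) hA
  · rw [← totQ C v hA, ← c8 v hv]
    refine finsum_mem_congr rfl fun w hw => ?_
    obtain ⟨i, -, -, e⟩ := c5 v w hw
    rw [e]; simp

end

end Pool.Agent.H68.Gn
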