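import Pool.Agent.H68.Gn2

set_option autoImplicit false

namespace Pool.Agent.H68.Gn

open Set Classical

variable {ι : Type} [Fintype ι] (A B : ι → ℂ) (hne : ∀ i, A i ≠ B i)
  (hs : ∀ i j, i ≠ j → (segment ℝ (A i) (B i) ∩ segment ℝ (A j) (B j)).Subsingleton)

include hne hs in
lemma bij2 (v : ℂ) (hv : v ∈ vs A B) : ∃ nb : ι × Bool → ℂ, InjOn nb (act A B v) ∧
    (gr A B).neighborSet v = nb '' (act A B v) ∧
    (∀ h ∈ act A B v, nb h ∈ segment ℝ (A h.1) (B h.1)) ∧
    ∀ h ∈ act A B v, un (nb h - v) = un (tg A B h - v) := by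
  have key := fun h (hh : h ∈ act A B v) =>
    near A B hs v hv h ((mem_act A B v h).1 hh).1 ((mem_act A B v h).1 hh).2
  choose! nb h1 h2 h3 using key
  have sg : ∀ h ∈ act A B v, nb h ∈ segment ℝ (A h.1) (B h.1) := fun h hh => by
    obtain ⟨t, t1, t2, e⟩ := h2 h hh
    exact (convex_segment _ _).segment_subset ((mem_act A B v h).1 hh).1 (tg_mem A B h).2
      ((seg_iff _ _ _).2 ⟨t, t1.le, t2, e⟩)
  have opp : ∀ i, (i, true) ∈ act A B v → (i, false) ∈ act A B v → nb (i, true) ≠ nb (i, false) :=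
    fun i a b e => by
      obtain ⟨t, t1, -, e1⟩ := h2 _ a
      obtain ⟨r, r1, -, e2⟩ := h2 _ b
      obtain ⟨m, m1⟩ := (mem_act A B v _).1 a
      obtain ⟨s, s1, s2, e3⟩ := (seg_iff _ _ _).1 m
      simp only [tg, if_true, Bool.false_eq_true, if_false] at *
      have hd : B i - A i ≠ 0 := sub_ne_zero.2 (hne i).symm
      have : (t : ℂ) * (1 - s) + r * s = 0 := by
        apply mul_right_cancel₀ hd
        rw [e1, e2] at e
        linear_combination e + (t - r : ℂ) * e3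
      have e4 : t * (1 - s) + r * s = 0 := by exact_mod_cast this
      have : s = 1 := by nlinarith [mul_nonneg r1.le s1]
      apply m1; rw [e3, this]; simp
  refine ⟨nb, fun h a h' b e => ?_, ?_, sg, fun h hh => ?_⟩
  · by_cases hi : h.1 = h'.1
    · obtain ⟨i, x⟩ := h
      obtain ⟨j, y⟩ := h'
      obtain rfl : i = j := hi
      cases x <;> cases y
      · rfl
      · exact absurd e.symm (opp i b a)
      · exact absurd e (opp i a b)
      · rfl
    · exact absurd (hs _ _ hi ⟨((mem_act A B v h).1 a).1, ((mem_act A B v h').1 b).1⟩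
        ⟨sg h a, e ▸ sg h' b⟩) (h1 h a).1
  · ext w
    constructor
    · intro hw
      have hw' : (gr A B).Adj v w := hw
      obtain ⟨ne, -, -, ⟨i, vi, wi⟩, -⟩ := id hw'
      have hd : B i - A i ≠ 0 := sub_ne_zero.2 (hne i).symm
      obtain ⟨s, s1, s2, e1⟩ := (seg_iff _ _ _).1 vi
      obtain ⟨r, r1, r2, e2⟩ := (seg_iff _ _ _).1 wi
      rcases lt_trichotomy r s with h | h | h
      · have a : (i, false) ∈ act A B v := (mem_act A B v _).2 ⟨vi, fun e => by
          have : (s : ℂ) * (B i - A i) = 0 := by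
            simp only [tg, Bool.false_eq_true, if_false] at e; linear_combination e - e1
          exact mul_ne_zero (by exact_mod_cast (r1.trans_lt h).ne') hd this⟩
        refine ⟨_, a, (h3 _ a w hw' ?_).symm⟩
        have := mem_par' (A i) (B i - A i) 0 s r r1 h.le
        rw [← e1, ← e2] at this
        simpa [tg] using this
      · exact absurd (by rw [e1, e2, h]) ne
      · have a : (i, true) ∈ act A B v := (mem_act A B v _).2 ⟨vi, fun e => by
          have : ((1 - s : ℝ) : ℂ) * (B i - A i) = 0 := by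
            simp only [tg, if_true] at e; push_cast; linear_combination e1 - e
          exact mul_ne_zero (by exact_mod_cast (show 1 - s ≠ 0 by linarith)) hd this⟩
        refine ⟨_, a, (h3 _ a w hw' ?_).symm⟩
        have := mem_par (A i) (B i - A i) s 1 r h.le r2
        rw [← e1, ← e2] at this
        simpa [tg] using this
    · rintro ⟨h, hh, rfl⟩; exact h1 h hh
  · obtain ⟨t, t1, -, e⟩ := h2 h hh
    rw [e, add_sub_cancel_left, un_smul t t1]

include hs in
lemma reach (i : ι) (v : ℂ) (hv : v ∈ vs A B) (h1 : v ∈ segment ℝ (A i) (B i)) :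
    (gr A B).Reachable v (B i) := by
  have fin : ∀ v : ℂ, (vs A B ∩ segment ℝ v (B i)).Finite := fun v =>
    (vs_fin A B hs).inter_of_left _
  generalize hn : (vs A B ∩ segment ℝ v (B i)).ncard = n
  induction n using Nat.strong_induction_on generalizing v with
  | _ n ih =>
    by_cases e : v = B i
    · rw [e]
    obtain ⟨w, a1, ⟨t, t1, t2, e1⟩, -⟩ := near A B hs v hv (i, true) h1 e
    simp only [tg, if_true] at e1
    have ws : w ∈ segment ℝ v (B i) := (seg_iff _ _ _).2 ⟨t, t1.le, t2, e1⟩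
    refine a1.reachable.trans (ih _ ?_ w a1.2.2.1
      ((convex_segment _ _).segment_subset h1 (right_mem_segment _ _ _) ws) rfl)
    rw [← hn]
    refine ncard_lt_ncard ⟨inter_subset_inter_right _
      ((convex_segment _ _).segment_subset ws (right_mem_segment _ _ _)), fun h => ?_⟩ (fin v)
    obtain ⟨s, s1, s2, e2⟩ := (seg_iff _ _ _).1 (h ⟨hv, left_mem_segment _ _ _⟩).2
    have hd : B i - v ≠ 0 := sub_ne_zero.2 (Ne.symm e)
    have : (t : ℂ) + s * (1 - t) = 0 := by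
      apply mul_right_cancel₀ hd
      rw [e1] at e2
      linear_combination -e2
    have e3 : t + s * (1 - t) = 0 := by exact_mod_cast this
    nlinarith [mul_nonneg s1 (sub_nonneg.2 t2)]

noncomputable def mu (W : ι → ℕ) (v w : ℂ) : ℕ :=
  ∑ i, if v ∈ segment ℝ (A i) (B i) ∧ w ∈ segment ℝ (A i) (B i) then W i else 0

include hs in
lemma mu_eq (W : ι → ℕ) (v w : ℂ) (h : v ≠ w) (i : ι) (h1 : v ∈ segment ℝ (A i) (B i))
    (h2 : w ∈ segment ℝ (A i) (B i)) : mu A B W v w = W i := by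
  rw [mu, Finset.sum_eq_single i (fun j _ hj => if_neg fun a => h (hs j i hj ⟨a.1, h1⟩ ⟨a.2, h2⟩))
    (by simp), if_pos ⟨h1, h2⟩]

include hne hs in
theorem planarW (W : ι → ℕ) : ∃ V : Finset ℂ, ∃ G : SimpleGraph ℂ, ∃ m : ℂ → ℂ → ℕ,
    (∀ a b : ℂ, G.Adj a b → a ∈ V ∧ b ∈ V) ∧
    (∀ a b c d : ℂ, G.Adj a b → G.Adj c d → ¬ ((a = c ∧ b = d) ∨ (a = d ∧ b = c)) →
      ∀ x ∈ segment ℝ a b ∩ segment ℝ c d, (x = a ∨ x = b) ∧ (x = c ∨ x = d)) ∧
    (∀ a b v : ℂ, G.Adj a b → v ∈ V → v ∈ segment ℝ a b → v = a ∨ v = b) ∧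
    (∀ a b, m a b = m b a) ∧
    (∀ a b, G.Adj a b → ∃ i, a ∈ segment ℝ (A i) (B i) ∧ b ∈ segment ℝ (A i) (B i) ∧
      m a b = W i) ∧
    (∀ i, A i ∈ V ∧ B i ∈ V ∧ G.Reachable (A i) (B i)) ∧
    (∀ v ∈ V, ∃ i, G.Reachable v (B i)) ∧
    (∀ v ∈ V, (∑ᶠ w ∈ G.neighborSet v, (m v w : ℂ) * ((w - v) / ((‖w - v‖ : ℝ) : ℂ))) =
      ∑ i, (W i : ℂ) *
        ((if A i = v then un (B i - A i) else 0) - (if B i = v then un (B i - A i) else 0))) ∧
    (∀ v ∈ V, (∀ i, A i ≠ v ∧ B i ≠ v) → 3 ≤ (G.neighborSet v).ncard) ∧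
    (∀ v i j k, i ≠ j → i ≠ k → j ≠ k → (A i = v ∨ B i = v) → (A j = v ∨ B j = v) →
      (A k = v ∨ B k = v) → 3 ≤ (G.neighborSet v).ncard) := by
  have mv : ∀ v, v ∈ (vs_fin A B hs).toFinset ↔ v ∈ vs A B := fun v => Finite.mem_toFinset _
  have cd : ∀ v ∈ vs A B, ((gr A B).neighborSet v).ncard = (act A B v).card := fun v hv => by
    obtain ⟨nb, h1, h2, -⟩ := bij A B hne hs v hv
    rw [h2, h1.ncard_image, ncard_coe_finset]
  have en : ∀ v i, (A i = v ∨ B i = v) → ∃ b, (i, b) ∈ act A B v := by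
    rintro v i (rfl | rfl)
    · exact ⟨true, (mem_act A B _ _).2 ⟨left_mem_segment _ _ _, hne i⟩⟩
    · exact ⟨false, (mem_act A B _ _).2 ⟨right_mem_segment _ _ _, (hne i).symm⟩⟩
  refine ⟨(vs_fin A B hs).toFinset, gr A B, mu A B W,
    fun a b h => ⟨(mv _).2 h.2.1, (mv _).2 h.2.2.1⟩,
    cross A B hne, fun a b v h hv => h.2.2.2.2 v ((mv _).1 hv),
    fun a b => by simp only [mu, and_comm], fun a b h => ?_,
    fun i => ⟨(mv _).2 (tg_mem A B (i, false)).1, (mv _).2 (tg_mem A B (i, true)).1,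
      reach A B hs i _ (tg_mem A B (i, false)).1 (left_mem_segment _ _ _)⟩, fun v hv => ?_,
    fun v hv => ?_, fun v hv h => ?_, fun v i j k ij ik jk e1 e2 e3 => ?_⟩
  · obtain ⟨i, h1, h2⟩ := h.2.2.2.1
    exact ⟨i, h1, h2, mu_eq A B hs W a b h.1 i h1 h2⟩
  · have hv' := (mv _).1 hv
    rcases id hv' with (⟨i, e⟩ | ⟨i, e⟩) | h
    · exact ⟨i, reach A B hs i v hv' (e ▸ left_mem_segment _ _ _)⟩
    · exact ⟨i, by rw [e]⟩
    · simp only [mem_iUnion] at h
      obtain ⟨i, j, ij, vi, vj⟩ := h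
      exact ⟨i, reach A B hs i v hv' vi⟩
  · obtain ⟨nb, h1, h2, h4, h3⟩ := bij2 A B hne hs v ((mv _).1 hv)
    have h5 : ∀ h ∈ act A B v, (mu A B W v (nb h) : ℂ) * ((nb h - v) / ((‖nb h - v‖ : ℝ) : ℂ)) =
        W h.1 * un (tg A B h - v) := fun h hh => by
      have a : nb h ∈ (gr A B).neighborSet v := by rw [h2]; exact ⟨h, hh, rfl⟩
      rw [mu_eq A B hs W v _ (show (gr A B).Adj v _ from a).ne h.1 ((mem_act A B v h).1 hh).1
        (h4 h hh), ← h3 h hh, un]
    rw [h2, finsum_mem_image h1, finsum_mem_coe_finset]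
    refine (Finset.sum_congr rfl h5).trans ?_
    rw [act, Finset.sum_filter, Fintype.sum_prod_type]
    refine Finset.sum_congr rfl fun i _ => ?_
    rw [Fintype.sum_bool, ← term A B hne v i]
    simp [tg, mul_add]
  · rw [cd v ((mv _).1 hv)]
    rcases (mv _).1 hv with (⟨i, e⟩ | ⟨i, e⟩) | hv
    · exact absurd e (h i).1
    · exact absurd e (h i).2
    simp only [mem_iUnion] at hv
    obtain ⟨i, j, ij, vi, vj⟩ := hv
    refine Finset.two_lt_card_iff.2 ⟨(i, true), (i, false), (j, true), ?_, ?_, ?_, by simp,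
      by simp [ij], by simp⟩ <;> rw [mem_act]
    · exact ⟨vi, (h i).2.symm⟩
    · exact ⟨vi, (h i).1.symm⟩
    · exact ⟨vj, (h j).2.symm⟩
  · obtain ⟨a, ha⟩ := en v i e1
    obtain ⟨b, hb⟩ := en v j e2
    obtain ⟨c, hc⟩ := en v k e3
    rw [cd v (e1.elim (fun e => e ▸ (tg_mem A B (i, false)).1) fun e => e ▸ (tg_mem A B (i, true)).1)]
    exact Finset.two_lt_card_iff.2 ⟨_, _, _, ha, hb, hc, by simp [ij], by simp [ik], by simp [jk]⟩

end Pool.Agent.H68.Gn
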