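import Pool.Agent.H68.Gn5

set_option autoImplicit false

namespace Pool.Agent.H68.Gn

open Complex Metric

lemma dunE {E : Type} [NormedAddCommGroup E] [NormedSpace ℝ E] (c : ℂ) (M : E →L[ℝ] ℂ) (x : E)
    (v : ℂ) (hv : c + M x = v) (r : ℝ)
    (hr : 0 < r) (h : ‖v‖ = r) : ∃ L : E →L[ℝ] ℂ,
    HasStrictFDerivAt (fun y => un (c + M y)) L x ∧ ∀ d,
      L d = r⁻¹ • M d - ((v.re * (M d).re + v.im * (M d).im) / r ^ 3) • v := by
  obtain ⟨L, h1, h2⟩ := dun v r hr h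
  exact ⟨L.comp M, HasStrictFDerivAt.comp x (g := un) (by rw [hv]; exact h1)
    (M.hasStrictFDerivAt.const_add c), fun d => h2 _⟩

noncomputable def La : ℂ →L[ℝ] ℂ := LinearMap.toContinuousLinearMap
  { toFun := fun w => ⟨w.re + w.im, w.im⟩
    map_add' := fun x y => by apply Complex.ext <;> simp; ring
    map_smul' := fun c x => by apply Complex.ext <;> simp; ring }

lemma La_apply (w : ℂ) : La w = ⟨w.re + w.im, w.im⟩ := rfl

noncomputable def Sw : ℂ →L[ℝ] ℂ := LinearMap.toContinuousLinearMap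
  { toFun := fun w => ⟨25 / 504 * w.re, 25 / 217 * (w.re + w.im)⟩
    map_add' := fun x y => by apply Complex.ext <;> simp <;> ring
    map_smul' := fun c x => by apply Complex.ext <;> simp <;> ring }

lemma Sw_apply (w : ℂ) : Sw w = ⟨25 / 504 * w.re, 25 / 217 * (w.re + w.im)⟩ := rfl

noncomputable def an : Fin 2 → ℂ := ![⟨7 / 3, 1⟩, ⟨0, -4 / 3⟩]

noncomputable def Gw (x : (ℂ × ℂ × ℂ) × ℝ) : ℂ :=
  (7 : ℝ) • un (-(starRingEnd ℂ) (La x.1.1) - La x.1.2.1) +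
  (7 : ℝ) • un (-(starRingEnd ℂ) (La x.1.2.2) - La x.1.2.1) +
  (40 - 3 * x.2) • un (an 0 - La x.1.2.1) + (30 - 4 * x.2) • un (an 1 - La x.1.2.1)

noncomputable def Ps (x : (ℂ × ℂ × ℂ) × ℝ) : ℂ := x.1.2.1 + Sw (Gw x)

lemma m1 : ‖(⟨4 / 3, 1⟩ : ℂ)‖ = 5 / 3 := by
  rw [norm_eq_sqrt_sq_add_sq, Real.sqrt_eq_iff_mul_self_eq (by positivity) (by norm_num)]; norm_num
lemma m2 : ‖(⟨-1, -4 / 3⟩ : ℂ)‖ = 5 / 3 := by
  rw [norm_eq_sqrt_sq_add_sq, Real.sqrt_eq_iff_mul_self_eq (by positivity) (by norm_num)]; norm_num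
lemma g1 : an 0 - La 1 = ⟨4 / 3, 1⟩ := by apply Complex.ext <;> simp [an, La_apply]; norm_num
lemma g2 : an 1 - La 1 = ⟨-1, -4 / 3⟩ := by apply Complex.ext <;> simp [an, La_apply]
lemma g3 : -(starRingEnd ℂ) (La 1) - La 1 = -2 := by
  apply Complex.ext <;> simp [La_apply]; norm_num
lemma u1 : un ⟨4 / 3, 1⟩ = ⟨4 / 5, 3 / 5⟩ := by
  rw [un, m1]; apply Complex.ext <;> simp only [div_ofReal_re, div_ofReal_im] <;> norm_num
lemma u2 : un ⟨-1, -4 / 3⟩ = ⟨-3 / 5, -4 / 5⟩ := by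
  rw [un, m2]; apply Complex.ext <;> simp only [div_ofReal_re, div_ofReal_im] <;> norm_num
lemma u3 : un (-2) = -1 := by simp [un]

lemma Ps1 : Ps ((1, 1, 1), 0) = 1 := by
  simp only [Ps, Gw, g1, g2, g3, u1, u2, u3, Sw_apply]
  apply Complex.ext <;> simp <;> norm_num

lemma psi : ∃ ρ : ℝ, 0 < ρ ∧ ∀ x ∈ closedBall (((1, 1, 1), 0) : (ℂ × ℂ × ℂ) × ℝ) ρ,
    ∀ y ∈ closedBall (((1, 1, 1), 0) : (ℂ × ℂ × ℂ) × ℝ) ρ,
      ‖Ps x - Ps y - ⟨0, 25 / 62 * ((x.1.1 - y.1.1).im + (x.1.2.2 - y.1.2.2).im) +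
        5 / 31 * (x.2 - y.2)⟩‖ ≤ 1 / 10000 * ‖x - y‖ := by
  let f := ContinuousLinearMap.fst ℝ (ℂ × ℂ × ℂ) ℝ
  let τ := ContinuousLinearMap.snd ℝ (ℂ × ℂ × ℂ) ℝ
  let a := (ContinuousLinearMap.fst ℝ ℂ (ℂ × ℂ)).comp f
  let p := ((ContinuousLinearMap.fst ℝ ℂ ℂ).comp (ContinuousLinearMap.snd ℝ ℂ (ℂ × ℂ))).comp f
  let b := ((ContinuousLinearMap.snd ℝ ℂ ℂ).comp (ContinuousLinearMap.snd ℝ ℂ (ℂ × ℂ))).comp f
  let c : ℂ →L[ℝ] ℂ := conjCLE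
  obtain ⟨L1, d1, f1⟩ := dunE 0 (-c.comp (La.comp a) - La.comp p) ((1, 1, 1), 0) (-2)
    (by rw [← g3]; simp [a, p, c, f]) 2 two_pos (by simp)
  obtain ⟨L2, d2, f2⟩ := dunE 0 (-c.comp (La.comp b) - La.comp p) ((1, 1, 1), 0) (-2)
    (by rw [← g3]; simp [b, p, c, f]) 2 two_pos (by simp)
  obtain ⟨L3, d3, f3⟩ := dunE (an 0) (-La.comp p) ((1, 1, 1), 0) _
    ((sub_eq_add_neg _ _).symm.trans g1) _ (by norm_num) m1
  obtain ⟨L4, d4, f4⟩ := dunE (an 1) (-La.comp p) ((1, 1, 1), 0) _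
    ((sub_eq_add_neg _ _).symm.trans g2) _ (by norm_num) m2
  have t1 := ((τ.hasStrictFDerivAt (x := ((1, 1, 1), 0))).const_mul 3).const_sub 40
  have t2 := ((τ.hasStrictFDerivAt (x := ((1, 1, 1), 0))).const_mul 4).const_sub 30
  have d6 := (p.hasStrictFDerivAt (x := ((1, 1, 1), 0))).add
    (Sw.hasStrictFDerivAt.comp ((1, 1, 1), 0) ((((d1.const_smul (7 : ℝ)).add
      (d2.const_smul (7 : ℝ))).add (t1.smul d3)).add (t2.smul d4)))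
  have d7 : HasStrictFDerivAt Ps _ ((1, 1, 1), 0) := d6.congr_of_eventuallyEq
    (Filter.Eventually.of_forall fun y => by simp [Ps, Gw, a, b, c, p, f, τ, sub_eq_add_neg])
  obtain ⟨s, hs, ap⟩ := d7.approximates_deriv_on_nhds (c := 1 / 10000) (Or.inr (by norm_num))
  obtain ⟨ρ, h0, h1⟩ := Metric.nhds_basis_closedBall.mem_iff.1 hs
  refine ⟨ρ, h0, fun x hx y hy => ?_⟩
  have := ap x (h1 hx) y (h1 hy)
  push_cast at this
  refine le_trans (le_of_eq ?_) this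
  congr 1
  congr 1
  have k1 : an 0 + (-⇑La ∘ ⇑p) ((1, 1, 1), 0) = ⟨4 / 3, 1⟩ := (sub_eq_add_neg _ _).symm.trans g1
  have k2 : an 1 + (-⇑La ∘ ⇑p) ((1, 1, 1), 0) = ⟨-1, -4 / 3⟩ := (sub_eq_add_neg _ _).symm.trans g2
  rw [k1, k2, u1, u2]
  simp only [Pi.add_apply, Pi.smul_apply, Function.comp_apply,
    ContinuousLinearMap.smulRight_apply, f1, f2, f3, f4, Sw_apply]
  apply Complex.ext <;> simp only [add_re, add_im, sub_re, sub_im, smul_re, smul_im, smul_eq_mul]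
  · simp [a, b, c, p, f, τ, La_apply]; ring
  · simp [a, b, c, p, f, τ, La_apply]; ring

lemma maxw (X D : ℕ → ℝ) (n : ℕ) (t : ℝ) (ht : 0 < t) (hn : 1 ≤ n)
    (h0 : ∃ N, N ≤ |X 0| + |D 0| + (|X 1| + |D 1|) + t ∧ |X 0| ≤ N / 10000 ∧
      25 / 62 * (D 1 - D 0) + 5 / 31 * t - N / 10000 ≤ D 0)
    (h1 : ∀ k, k + 1 = n → ∃ N, N ≤ |X k| + |D k| + (|X (k + 1)| + |D (k + 1)|) + t ∧
      |X (k + 1)| ≤ N / 10000 ∧ 25 / 62 * (D k - D (k + 1)) + 5 / 31 * t - N / 10000 ≤ D (k + 1))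
    (h : ∀ k, k + 2 ≤ n → ∃ N, N ≤ |X k| + |D k| + (|X (k + 1)| + |D (k + 1)|) +
      (|X (k + 2)| + |D (k + 2)|) ∧ |X (k + 1)| ≤ N / 10000 ∧
      25 / 62 * (D k + D (k + 2)) - N / 10000 ≤ D (k + 1)) : ∀ k ≤ n, |X k| < D k / 10 := by
  classical
  obtain ⟨k0, hk0, hm⟩ := Finset.exists_min_image (Finset.range (n + 1))
    (fun k => D k / 10 - |X k|) ⟨0, by simp⟩
  have ex : ∃ k, k ≤ n ∧ D k / 10 - |X k| ≤ D k0 / 10 - |X k0| :=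
    ⟨k0, by simpa [Nat.lt_succ_iff] using hk0, le_rfl⟩
  have hm' : ∀ k ≤ n, D k0 / 10 - |X k0| ≤ D k / 10 - |X k| := fun k hk =>
    hm k (by simpa [Nat.lt_succ_iff] using hk)
  by_contra hc
  push Not at hc
  obtain ⟨j, hj, hc⟩ := hc
  have m0 : D k0 / 10 - |X k0| ≤ 0 := by linarith [hm' j hj]
  generalize D k0 / 10 - |X k0| = m at *
  have dd : ∀ k ≤ n, 0 ≤ |X k| ∧ |D k| ≤ D k - 20 * m := fun k hk => by
    have := hm' k hk
    have := abs_nonneg (X k)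
    exact ⟨this, abs_le.2 ⟨by linarith, by linarith⟩⟩
  obtain ⟨k1, k2⟩ := Nat.find_spec ex
  have k3 := fun j => Nat.find_min ex (m := j)
  generalize Nat.find ex = k at *
  rcases k with _ | k
  · obtain ⟨N, a1, a2, a3⟩ := h0
    linarith [dd 0 k1, dd 1 hn, hm' 0 k1, hm' 1 hn]
  have b1 : m < D k / 10 - |X k| := by
    by_contra hh; exact k3 k (by omega) ⟨by omega, not_lt.1 hh⟩
  have b2 := hm' (k + 1) k1
  have c1 := dd k (by omega)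
  have c2 := dd (k + 1) k1
  rcases k1.eq_or_lt with kn | kn
  · obtain ⟨N, a1, a2, a3⟩ := h1 k kn
    linarith
  obtain ⟨N, a1, a2, a3⟩ := h k (by omega)
  linarith [hm' (k + 2) (by omega), dd (k + 2) (by omega)]

end Pool.Agent.H68.Gn
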