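import Pool.Agent.H68.Gw2

set_option autoImplicit false

namespace Pool.Agent.H68.Gn

open Complex Metric

lemma n4 (a b c : ℂ) (t r : ℝ) (h1 : ‖a‖ ≤ r) (h2 : ‖b‖ ≤ r) (h3 : ‖c‖ ≤ r) (h4 : |t| ≤ r) :
    ‖(((a, b, c), t) : (ℂ × ℂ × ℂ) × ℝ)‖ ≤ r := by
  simp [Prod.norm_def, h1, h2, h3, h4]

lemma chainW : ∃ η0 : ℝ, 0 < η0 ∧ ∀ η, 0 < η → η ≤ η0 → ∀ n : ℕ, 1 ≤ n → ∃ p : ℕ → ℂ,
    (∀ k, ‖p k - 1‖ ≤ η) ∧ Gw ((p 1, p 0, p 1), η) = 0 ∧ Gw ((p n, p (n + 1), p n), -η) = 0 ∧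
    (∀ k, k + 1 ≤ n → Gw ((p k, p (k + 1), p (k + 2)), 0) = 0) ∧
    ∀ k ≤ n, |(p k - p (k + 1)).re| < (p k - p (k + 1)).im / 10 := by
  obtain ⟨ρ, hρ, hP⟩ := psi
  refine ⟨ρ, hρ, fun η m0 m1 n hn => ?_⟩
  have est : ∀ a b c a' b' c' : ℂ, ∀ t t' N : ℝ, ‖a - 1‖ ≤ η → ‖b - 1‖ ≤ η → ‖c - 1‖ ≤ η →
      ‖a' - 1‖ ≤ η → ‖b' - 1‖ ≤ η → ‖c' - 1‖ ≤ η → |t| ≤ η → |t'| ≤ η →
      ‖a - a'‖ ≤ N → ‖b - b'‖ ≤ N → ‖c - c'‖ ≤ N → |t - t'| ≤ N →
      ‖Ps ((a, b, c), t) - Ps ((a', b', c'), t') -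
        ⟨0, 25 / 62 * ((a - a').im + (c - c').im) + 5 / 31 * (t - t')⟩‖ ≤ N / 10000 := by
    intro a b c a' b' c' t t' N h1 h2 h3 h4 h5 h6 h7 h8 k1 k2 k3 k4
    have := hP ((a, b, c), t) (mem_closedBall_iff_norm.2 ((n4 _ _ _ _ _ h1 h2 h3
      (by simpa using h7)).trans m1)) ((a', b', c'), t') (mem_closedBall_iff_norm.2
      ((n4 _ _ _ _ _ h4 h5 h6 (by simpa using h8)).trans m1))
    have h9 := n4 _ _ _ _ _ k1 k2 k3 k4
    simp only [Prod.mk_sub_mk] at this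
    linarith
  have lip : ∀ a b c a' b' c' : ℂ, ∀ t t' N : ℝ, ‖a - 1‖ ≤ η → ‖b - 1‖ ≤ η → ‖c - 1‖ ≤ η →
      ‖a' - 1‖ ≤ η → ‖b' - 1‖ ≤ η → ‖c' - 1‖ ≤ η → |t| ≤ η → |t'| ≤ η →
      ‖a - a'‖ ≤ N → ‖b - b'‖ ≤ N → ‖c - c'‖ ≤ N → |t - t'| ≤ N →
      ‖Ps ((a, b, c), t) - Ps ((a', b', c'), t')‖ ≤ 81 / 100 * N + 5 / 31 * |t - t'| := by
    intro a b c a' b' c' t t' N h1 h2 h3 h4 h5 h6 h7 h8 k1 k2 k3 k4
    have e1 := est a b c a' b' c' t t' N h1 h2 h3 h4 h5 h6 h7 h8 k1 k2 k3 k4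
    have e2 := norm_sub_norm_le (Ps ((a, b, c), t) - Ps ((a', b', c'), t'))
      ⟨0, 25 / 62 * ((a - a').im + (c - c').im) + 5 / 31 * (t - t')⟩
    have e3 := norm_le_abs_re_add_abs_im
      ⟨0, 25 / 62 * ((a - a').im + (c - c').im) + 5 / 31 * (t - t')⟩
    have e4 := abs_le.1 ((abs_im_le_norm _).trans k1)
    have e5 := abs_le.1 ((abs_im_le_norm _).trans k3)
    have e6 : |25 / 62 * ((a - a').im + (c - c').im) + 5 / 31 * (t - t')| ≤
        25 / 31 * N + 5 / 31 * |t - t'| := by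
      rw [abs_le]; constructor <;>
        linarith [e4.1, e4.2, e5.1, e5.2, le_abs_self (t - t'), neg_abs_le (t - t')]
    simp only [abs_zero, zero_add] at e3
    linarith [norm_nonneg (a - a')]
  let ex : (Fin (n + 2) → ℂ) → ℕ → ℂ := fun q k => if h : k < n + 2 then q ⟨k, h⟩ else 1
  let pr : ℕ → ℕ := fun i => if i = 0 then 1 else i - 1
  let nx : ℕ → ℕ := fun i => if i = n + 1 then n else i + 1
  let ta : ℕ → ℝ := fun i => if i = 0 then η else if i = n + 1 then -η else 0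
  have tb : ∀ i, |ta i| ≤ η := fun i => by
    simp only [ta]; split_ifs <;> simp [abs_of_pos m0, m0.le]
  let T : (Fin (n + 2) → ℂ) → Fin (n + 2) → ℂ := fun q i =>
    Ps ((ex q (pr i), ex q i, ex q (nx i)), ta i)
  have exd : ∀ q q' k, ‖ex q k - ex q' k‖ ≤ dist q q' := fun q q' k => by
    simp only [ex]; split_ifs with h
    · rw [← dist_eq_norm]; exact dist_le_pi_dist q q' _
    · simp
  have ex1 : ∀ q ∈ closedBall (fun _ : Fin (n + 2) => (1 : ℂ)) η, ∀ k, ‖ex q k - 1‖ ≤ η :=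
    fun q hq k => by
      have := (exd q (fun _ => 1) k).trans hq
      simpa [ex] using this
  have o : ‖(1 : ℂ) - 1‖ ≤ η := by simp [m0.le]
  have o' : |(0 : ℝ)| ≤ η := by simp [m0.le]
  have maps : Set.MapsTo T (closedBall (fun _ => (1 : ℂ)) η) (closedBall (fun _ => (1 : ℂ)) η) :=
    fun q hq => by
      rw [mem_closedBall, dist_pi_le_iff m0.le]
      intro i
      rw [dist_eq_norm]
      have := lip _ _ _ 1 1 1 (ta i) 0 η (ex1 q hq (pr i)) (ex1 q hq i) (ex1 q hq (nx i)) o o o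
        (tb i) o' (ex1 q hq _) (ex1 q hq _) (ex1 q hq _) (by simpa using tb i)
      rw [Ps1, sub_zero] at this
      exact this.trans (by linarith [tb i])
  have con : ContractingWith (9 / 10) (maps.restrict T _ _) := by
    refine ⟨by norm_num, LipschitzWith.of_dist_le_mul fun q q' => ?_⟩
    show dist (T q) (T q') ≤ _ * dist q.1 q'.1
    rw [dist_pi_le_iff (by positivity)]
    intro i
    rw [dist_eq_norm]
    refine (lip _ _ _ _ _ _ _ _ (dist q.1 q'.1) (ex1 _ q.2 _) (ex1 _ q.2 _) (ex1 _ q.2 _)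
      (ex1 _ q'.2 _) (ex1 _ q'.2 _) (ex1 _ q'.2 _) (tb i) (tb i) (exd _ _ _) (exd _ _ _)
      (exd _ _ _) (by simp)).trans ?_
    push_cast
    rw [sub_self, abs_zero]; linarith [dist_nonneg (x := q.1) (y := q'.1)]
  obtain ⟨q, hq, hf, -⟩ := con.exists_fixedPoint' isClosed_closedBall.isComplete maps
    (mem_closedBall_self m0.le) (edist_ne_top _ _)
  have fx : ∀ k (h : k < n + 2), ex q k = T q ⟨k, h⟩ := fun k h => by
    rw [hf.eq]; simp [ex, h]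
  have p0 : ex q 0 = Ps ((ex q 1, ex q 0, ex q 1), η) := by
    conv_lhs => rw [fx 0 (by omega)]
    simp [T, pr, nx, ta]
  have p1 : ex q (n + 1) = Ps ((ex q n, ex q (n + 1), ex q n), -η) := by
    conv_lhs => rw [fx (n + 1) (by omega)]
    simp [T, pr, nx, ta]
  have p2 : ∀ k, k + 1 ≤ n → ex q (k + 1) = Ps ((ex q k, ex q (k + 1), ex q (k + 2)), 0) :=
    fun k hk => by
      conv_lhs => rw [fx (k + 1) (by omega)]
      have : k ≠ n := by omega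
      simp [T, pr, nx, ta, this]
  have p3 := ex1 q hq
  generalize ex q = p at *
  have z : ∀ x : (ℂ × ℂ × ℂ) × ℝ, x.1.2.1 = Ps x → Gw x = 0 := fun x h => by
    simp only [Ps, left_eq_add, Sw_apply, Complex.ext_iff, zero_re, zero_im] at h
    apply Complex.ext <;> simp only [zero_re, zero_im] <;> linarith [h.1, h.2]
  have a := fun k => norm_le_abs_re_add_abs_im (p k - p (k + 1))
  have c := fun k => norm_nonneg (p k - p (k + 1))
  have e0 : |η| ≤ η := (abs_of_pos m0).le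
  refine ⟨p, p3, z _ p0, z _ p1, fun k hk => z _ (p2 k hk),
    maxw _ _ n η m0 hn ?_ (fun k hk => ?_) fun k hk => ?_⟩
  · have h1 := est _ _ _ _ _ _ η 0 (‖p 0 - p 1‖ + ‖p 1 - p 2‖ + η) (p3 1) (p3 0) (p3 1) (p3 0)
      (p3 1) (p3 2) e0 o' (by rw [norm_sub_rev]; linarith [c 1])
      (by linarith [c 1]) (by linarith [c 0]) (by rw [sub_zero]; linarith [c 0, c 1])
    rw [← p0, ← p2 0 hn] at h1
    have h4 := (abs_re_le_norm _).trans h1
    have h5 := (abs_le.1 ((abs_im_le_norm _).trans h1)).1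
    refine ⟨‖p 0 - p 1‖ + ‖p 1 - p 2‖ + η, by linarith [a 0, a 1], ?_, ?_⟩
    · simp only [sub_re, sub_zero] at h4 ⊢; exact h4
    · simp only [sub_im] at h5 ⊢; linarith
  · subst hk
    have h1 := est _ _ _ _ _ _ 0 (-η) (‖p k - p (k + 1)‖ + ‖p (k + 1) - p (k + 2)‖ + η)
      (p3 k) (p3 (k + 1)) (p3 (k + 2)) (p3 (k + 1)) (p3 (k + 2))
      (p3 (k + 1)) o' (by rwa [abs_neg]) (by linarith [c (k + 1)])
      (by linarith [c k]) (by rw [norm_sub_rev]; linarith [c k])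
      (by rw [zero_sub, neg_neg]; linarith [c k, c (k + 1)])
    rw [← p1, ← p2 k le_rfl] at h1
    have h4 := (abs_re_le_norm _).trans h1
    have h5 := (abs_le.1 ((abs_im_le_norm _).trans h1)).1
    refine ⟨‖p k - p (k + 1)‖ + ‖p (k + 1) - p (k + 2)‖ + η, by linarith [a k, a (k + 1)], ?_, ?_⟩
    · simp only [sub_re, sub_zero] at h4 ⊢; exact h4
    · simp only [sub_im] at h5 ⊢; linarith
  · have h1 := est _ _ _ _ _ _ 0 0
      (‖p k - p (k + 1)‖ + ‖p (k + 1) - p (k + 2)‖ + ‖p (k + 2) - p (k + 3)‖)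
      (p3 k) (p3 (k + 1)) (p3 (k + 2)) (p3 (k + 1)) (p3 (k + 2)) (p3 (k + 3)) o' o'
      (by linarith [c (k + 1), c (k + 2)]) (by linarith [c k, c (k + 2)])
      (by linarith [c k, c (k + 1)]) (by rw [sub_zero, abs_zero]; positivity)
    rw [← p2 k (by omega), ← p2 (k + 1) hk] at h1
    have h4 := (abs_re_le_norm _).trans h1
    have h5 := (abs_le.1 ((abs_im_le_norm _).trans h1)).1
    refine ⟨‖p k - p (k + 1)‖ + ‖p (k + 1) - p (k + 2)‖ + ‖p (k + 2) - p (k + 3)‖,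
      by linarith [a k, a (k + 1), a (k + 2)], ?_, ?_⟩
    · simp only [sub_re, sub_zero] at h4 ⊢; exact h4
    · simp only [sub_im] at h5 ⊢; linarith

lemma coneW (p : ℕ → ℂ) (n : ℕ)
    (h : ∀ k ≤ n, |(p k - p (k + 1)).re| < (p k - p (k + 1)).im / 10) (i j : ℕ) (hij : i < j)
    (hj : j ≤ n + 1) : |(p i - p j).re| < (p i - p j).im / 10 := by
  induction j with
  | zero => omega
  | succ j ih =>
    rcases Nat.lt_succ_iff_lt_or_eq.1 hij with h1 | rfl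
    · have a := ih h1 (by omega)
      have b := h j (by omega)
      have c := abs_add_le (p i - p j).re (p j - p (j + 1)).re
      simp only [sub_re, sub_im] at *
      rw [sub_add_sub_cancel] at c
      linarith
    · exact h i (by omega)

end Pool.Agent.H68.Gn
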