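import Pool.Agent.H68.Gw3

set_option autoImplicit false

namespace Pool.Agent.H68.Gn

open Complex Set

lemma cr_ne2 (k : ℕ) (u v : ℂ) (h0 : 0 < |sg k * u.re - u.im|)
    (h1 : |u.im| ≤ 10 * |sg k * u.re - u.im|) (h2 : |sg k * v.re - v.im| < |v.im| / 10) :
    cr u v ≠ 0 := by
  intro h
  have e : |sg k * u.re - u.im| * |v.im| = |u.im| * |sg k * v.re - v.im| := by
    rw [← abs_mul, ← abs_mul]; congr 1
    rw [cr] at h; linear_combination sg k * h
  have := abs_nonneg (sg k * v.re - v.im)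
  nlinarith

noncomputable def Bw (p : ℕ → ℂ) (k : ℕ) (o : Option (Fin 2)) : ℂ :=
  o.elim (qq p (k + 1)) fun j => R (sg k) (an j)

section
variable (p : ℕ → ℂ) (n : ℕ) (hp : ∀ k, |(p k).re - 1| ≤ 1 / 100 ∧ |(p k).im| ≤ 1 / 100)
  (hc : ∀ i j, i < j → j ≤ n + 1 → |(p i - p j).re - (p i - p j).im| < (p i - p j).im / 10)

include hp in
lemma flw (k : ℕ) (o : Option (Fin 2)) :
    1 / 5 ≤ |sg k * (Bw p k o - qq p k).re - (Bw p k o - qq p k).im| ∧
    |(Bw p k o - qq p k).im| ≤ 2 := by
  obtain ⟨a1, a2⟩ := hp k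
  obtain ⟨b1, b2⟩ := hp (k + 1)
  rw [abs_le] at a1 a2 b1 b2
  rw [abs_le, le_abs]
  rcases o with _ | j
  · refine ⟨Or.inr ?_, ?_, ?_⟩ <;> rcases sg_or k with h | h <;> simp [Bw, qq, sg_succ, h] <;>
      linarith
  · refine ⟨Or.inl ?_, ?_, ?_⟩ <;> fin_cases j <;> rcases sg_or k with h | h <;>
      simp [Bw, qq, an, h] <;> linarith

include hp in
lemma flw' (k : ℕ) :
    1 / 5 ≤ |sg (k + 1) * (Bw p k none - qq p k).re - (Bw p k none - qq p k).im| := by
  obtain ⟨a1, a2⟩ := hp k
  obtain ⟨b1, b2⟩ := hp (k + 1)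
  rw [abs_le] at a1 a2 b1 b2
  rw [le_abs]
  refine Or.inl ?_
  rcases sg_or k with h | h <;> simp [Bw, qq, sg_succ, h] <;> linarith

include hc in
lemma stw (i j : ℕ) (hij : i ≠ j) (hi : i ≤ n + 1) (hj : j ≤ n + 1) (h : sg i = sg j) :
    |sg j * (qq p i - qq p j).re - (qq p i - qq p j).im| < |(qq p i - qq p j).im| / 10 := by
  have e : sg j * (qq p i - qq p j).re = (p i - p j).re := by
    rcases sg_or j with h' | h' <;> simp [qq, h, h']
    ring
  have e' : (qq p i - qq p j).im = (p i - p j).im := rfl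
  rw [e, e']
  rcases lt_or_gt_of_ne hij with l | l
  · have := hc i j l hj
    have := le_abs_self (p i - p j).im
    linarith
  · have a := hc j i l hi
    have := neg_abs_le (p i - p j).im
    rw [abs_lt] at a ⊢
    simp only [sub_re, sub_im] at a this ⊢
    constructor <;> linarith [a.1, a.2]

include hc in
lemma qinjw (i j : ℕ) (hi : i ≤ n + 1) (hj : j ≤ n + 1) (h : qq p i = qq p j) : i = j := by
  have e : (p i).im = (p j).im := by
    have := congrArg im h
    exact this
  by_contra hij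
  rcases lt_or_gt_of_ne hij with l | l
  · have := hc i j l hj
    have := abs_nonneg ((p i - p j).re - (p i - p j).im)
    rw [sub_im] at *; linarith
  · have := hc j i l hi
    have := abs_nonneg ((p j - p i).re - (p j - p i).im)
    rw [sub_im] at *; linarith

include hp in
lemma sph (k k' : ℕ) (j : Fin 2) (h : sg k' = -sg k) :
    cr (Bw p k (some j) - qq p k) (qq p k' - qq p k) ≠ 0 := by
  obtain ⟨a1, a2⟩ := hp k
  obtain ⟨b1, b2⟩ := hp k'
  rw [abs_le] at a1 a2 b1 b2
  have e : cr (Bw p k (some j) - qq p k) (qq p k' - qq p k) =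
      sg k * (((an j).re - (p k).re) * ((p k').im - (p k).im) +
        ((an j).im - (p k).im) * ((p k').re + (p k).re)) := by simp [cr, Bw, qq, h]; ring
  have s0 : sg k ≠ 0 := by rcases sg_or k with h | h <;> simp [h]
  rw [e]
  refine mul_ne_zero s0 fun h0 => ?_
  fin_cases j <;> simp [an] at h0 <;> nlinarith

include hp in
lemma spw (k : ℕ) : cr (Bw p k (some 0) - qq p k) (Bw p k (some 1) - qq p k) ≠ 0 := by
  obtain ⟨a1, a2⟩ := hp k
  rw [abs_le] at a1 a2
  intro h0
  rcases sg_or k with h | h <;> simp [cr, Bw, qq, an, h] at h0 <;> nlinarith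

include hp hc in
lemma subw (k k' : ℕ) (o o' : Option (Fin 2)) (hk : k ≤ n + 1) (hk' : k' ≤ n + 1)
    (hl : o = none → k ≤ n) (hl' : o' = none → k' ≤ n) (h : k = k' → o ≠ o') :
    (segment ℝ (qq p k) (Bw p k o) ∩ segment ℝ (qq p k') (Bw p k' o')).Subsingleton := by
  obtain ⟨f1, f2⟩ := flw p hp k o
  by_cases e : k' = k
  · subst e
    rcases o with _ | j <;> rcases o' with _ | j'
    · exact absurd rfl (h rfl)
    · rw [inter_comm]; exact sub_cr _ _ _ _ (Or.inr (sph p hp _ _ _ (sg_succ _)))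
    · exact sub_cr _ _ _ _ (Or.inr (sph p hp _ _ _ (sg_succ _)))
    · have := h rfl
      fin_cases j <;> fin_cases j'
      · simp at this
      · exact sub_cr _ _ _ _ (Or.inr (spw p hp _))
      · rw [inter_comm]; exact sub_cr _ _ _ _ (Or.inr (spw p hp _))
      · simp at this
  by_cases e' : sg k' = sg k
  · exact sub_cr _ _ _ _ (Or.inl (cr_ne2 k _ _ (by linarith) (by linarith)
      (stw p n hc k' k e (by omega) (by omega) e')))
  have e2 : sg k' = -sg k := by
    rcases sg_or k with a | a <;> rcases sg_or k' with b | b <;> simp_all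
  rcases o with _ | j
  swap
  · exact sub_cr _ _ _ _ (Or.inl (sph p hp _ _ _ e2))
  rcases o' with _ | j'
  swap
  · rw [inter_comm]; exact sub_cr _ _ _ _ (Or.inl (sph p hp _ _ _ (by rw [e2, neg_neg])))
  have l1 := hl rfl
  have l2 := hl' rfl
  by_cases e : k' = k + 1
  · subst e
    exact sub_cr _ _ _ _ (Or.inr (cr_ne2 k _ _ (by linarith) (by linarith)
      (stw p n hc (k + 2) k (by omega) (by omega) (by omega) (by rw [sg_succ, sg_succ, neg_neg]))))
  · refine sub_cr _ _ _ _ (Or.inl ?_)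
    have f3 := flw' p hp k
    have := cr_ne2 (k + 1) (Bw p k none - qq p k) _ (by linarith) (by linarith)
      (stw p n hc k' (k + 1) e (by omega) (by omega) (by rw [sg_succ, e2]))
    refine fun h0 => this ?_
    simp only [cr, Bw, Option.elim, sub_re, sub_im] at h0 ⊢
    linear_combination h0

include hp in
lemma qnew (k m : ℕ) (j : Fin 2) : R (sg m) (an j) ≠ qq p k := by
  intro h
  have a := congrArg im h
  have c := abs_le.1 (hp k).2
  fin_cases j <;> simp [qq, an] at a <;> linarith [c.1, c.2]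

include hp in
/-- the only anchor on a segment is its far end -/
lemma anc (k m : ℕ) (o : Option (Fin 2)) (j : Fin 2)
    (h : R (sg m) (an j) ∈ segment ℝ (qq p k) (Bw p k o)) : R (sg m) (an j) = Bw p k o := by
  obtain ⟨t, t0, t1, e⟩ := (seg_iff _ _ _).1 h
  have a := congrArg im e
  have c := abs_le.1 (hp k).2
  have d := abs_le.1 (hp (k + 1)).2
  have : t = 1 := by
    rcases o with _ | j' 
    · fin_cases j <;> simp [qq, Bw, an] at a <;> nlinarith [c.1, c.2, d.1, d.2]
    · fin_cases j <;> fin_cases j' <;> simp [qq, Bw, an] at a <;> nlinarith [c.1, c.2]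
  rw [e, this]; simp

end

end Pool.Agent.H68.Gn
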