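import Pool.Agent.H68.Gw4
import Pool.Agent.H68.Gw1
import Pool.Agent.H68.Gn6

set_option autoImplicit false

namespace Pool.Agent.H68.Gn

open Complex Set Classical

lemma bal (k : ℕ) (a c b : ℂ) (t : ℝ) (h : Gw ((a, c, b), t) = 0) :
    7 * un (R (-sg k) (La a) - R (sg k) (La c)) + 7 * un (R (-sg k) (La b) - R (sg k) (La c)) +
      (40 - 3 * t) * un (R (sg k) (an 0) - R (sg k) (La c)) +
      (30 - 4 * t) * un (R (sg k) (an 1) - R (sg k) (La c)) = 0 := by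
  have e1 : ∀ a c : ℂ, R (-sg k) a - R (sg k) c = R (sg k) (-(starRingEnd ℂ) a - c) := by
    intro a c; apply Complex.ext <;> simp; ring
  have e3 : ∀ a c : ℂ, R (sg k) a - R (sg k) c = R (sg k) (a - c) := by
    intro a c; apply Complex.ext <;> simp; ring
  rw [e1, e1, e3, e3, un_R, un_R, un_R, un_R]
  have x := congrArg re h
  have y := congrArg im h
  simp only [Gw, add_re, add_im, zero_re, zero_im, smul_re, smul_im, smul_eq_mul] at x y
  apply Complex.ext <;> simp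
  · linear_combination sg k * x
  · linear_combination y

abbrev Ix (n : ℕ) : Type := Fin (n + 1) ⊕ (Fin (n + 2) × Fin 2)

def kk {n : ℕ} : Ix n → ℕ := Sum.elim (fun k => k.val) fun x => x.1.val
def oo {n : ℕ} : Ix n → Option (Fin 2) := Sum.elim (fun _ => none) fun x => some x.2

def wt (M n k : ℕ) (j : Fin 2) : ℕ := if k = 0 then ![20 * M - 3, 15 * M - 4] j else
  if k = n + 1 then ![20 * M + 3, 15 * M + 4] j else ![40 * M, 30 * M] j

def WW (M n : ℕ) : Ix n → ℕ := Sum.elim (fun _ => 7 * M) fun x => wt M n x.1.val x.2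

lemma WW_bd (M n : ℕ) (hM : 1 ≤ M) (i : Ix n) : 1 ≤ WW M n i ∧ WW M n i ≤ 40 * M := by
  rcases i with k | ⟨k, j⟩
  · simp only [WW, Sum.elim_inl]; omega
  · simp only [WW, Sum.elim_inr, wt]
    fin_cases j <;> split_ifs <;> simp <;> omega

noncomputable def totw (M : ℕ) (p : ℕ → ℂ) (n : ℕ) (v : ℂ) : ℂ :=
  ∑ i : Ix n, (WW M n i : ℂ) *
    ((if qq p (kk i) = v then un (Bw p (kk i) (oo i) - qq p (kk i)) else 0) -
      (if Bw p (kk i) (oo i) = v then un (Bw p (kk i) (oo i) - qq p (kk i)) else 0))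

section
variable (M : ℕ) (p : ℕ → ℂ) (n : ℕ)
  (hp : ∀ k, |(p k).re - 1| ≤ 1 / 100 ∧ |(p k).im| ≤ 1 / 100)
  (hc : ∀ i j, i < j → j ≤ n + 1 → |(p i - p j).re - (p i - p j).im| < (p i - p j).im / 10)

include hp hc in
lemma totwq (m : ℕ) (hm : m ≤ n + 1) : totw M p n (qq p m) =
    7 * M * ((if m ≤ n then un (qq p (m + 1) - qq p m) else 0) +
      (if 1 ≤ m then un (qq p (m - 1) - qq p m) else 0)) +
      (wt M n m 0 * un (R (sg m) (an 0) - qq p m) + wt M n m 1 * un (R (sg m) (an 1) - qq p m)) := by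
  rw [totw, Fintype.sum_sum_type, Fintype.sum_prod_type]
  simp only [WW, kk, oo, Sum.elim_inl, Sum.elim_inr, Bw, Option.elim]
  congr 1
  · rw [← Finset.mul_sum, Finset.sum_sub_distrib, sub_eq_add_neg]
    push_cast
    congr 2
    · split_ifs with h
      · rw [Finset.sum_eq_single ⟨m, by omega⟩ (fun j _ hj => if_neg fun e =>
          hj (Fin.ext (qinjw p n hc _ _ (by omega) hm e))) (by simp), if_pos rfl]
      · exact Finset.sum_eq_zero fun j _ => if_neg fun e => by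
          have := qinjw p n hc _ _ (by omega) hm e; omega
    · split_ifs with h
      · obtain ⟨m, rfl⟩ : ∃ k, m = k + 1 := ⟨m - 1, by omega⟩
        rw [Finset.sum_eq_single ⟨m, by omega⟩ (fun j _ hj => if_neg fun e =>
          hj (Fin.ext (by have := qinjw p n hc _ _ (by omega) hm e; simp only; omega))) (by simp),
          if_pos rfl, ← un_neg, neg_sub, Nat.add_sub_cancel]
      · rw [neg_eq_zero]
        exact Finset.sum_eq_zero fun j _ => if_neg fun e => by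
          have := qinjw p n hc _ _ (by omega) hm e; omega
  · rw [Finset.sum_eq_single ⟨m, by omega⟩ (fun k _ hk => Finset.sum_eq_zero fun j _ => by
      rw [if_neg fun e => hk (Fin.ext (qinjw p n hc _ _ (by omega) hm e)),
        if_neg (qnew p hp _ _ _), sub_zero, mul_zero]) (by simp), Fin.sum_univ_two]
    simp [qnew p hp]

include hp hc in
theorem netW : ∃ V : Finset ℂ, ∃ G : SimpleGraph ℂ, ∃ m : ℂ → ℂ → ℕ,
    (∀ a b : ℂ, G.Adj a b → a ∈ V ∧ b ∈ V) ∧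
    (∀ a ∈ V, ∀ b ∈ V, G.Reachable a b) ∧
    (∀ a b c d : ℂ, G.Adj a b → G.Adj c d → ¬ ((a = c ∧ b = d) ∨ (a = d ∧ b = c)) →
      ∀ x ∈ segment ℝ a b ∩ segment ℝ c d, (x = a ∨ x = b) ∧ (x = c ∨ x = d)) ∧
    (∀ a b v : ℂ, G.Adj a b → v ∈ V → v ∈ segment ℝ a b → v = a ∨ v = b) ∧
    (∀ a b, m a b = m b a) ∧
    (∀ a b, G.Adj a b → ∃ i, m a b = WW M n i) ∧
    (∀ k j k' j', ¬ G.Adj (R (sg k) (an j)) (R (sg k') (an j'))) ∧
    (∀ k ≤ n + 1, qq p k ∈ V ∧ ∀ j, R (sg k) (an j) ∈ V) ∧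
    (∀ v ∈ V, (∑ᶠ w ∈ G.neighborSet v, (m v w : ℂ) * ((w - v) / ((‖w - v‖ : ℝ) : ℂ))) =
      totw M p n v) ∧
    (∀ v ∈ V, (∀ k ≤ n + 1, qq p k ≠ v ∧ ∀ j, R (sg k) (an j) ≠ v) →
      3 ≤ (G.neighborSet v).ncard ∧ totw M p n v = 0) ∧
    (∀ k ≤ n + 1, 3 ≤ (G.neighborSet (qq p k)).ncard) := by
  have kb : ∀ i : Ix n, kk i ≤ n + 1 ∧ (oo i = none → kk i ≤ n) := by
    rintro (k | ⟨k, j⟩) <;> simp [kk, oo] <;> omega
  obtain ⟨V, G, m, c1, c2, c3, c4, c5, c6, c7, c8, c9, c10⟩ := planarW (ι := Ix n)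
    (fun i => qq p (kk i)) (fun i => Bw p (kk i) (oo i))
    (fun i h => by
      have := (flw p hp (kk i) (oo i)).1
      rw [sub_eq_zero.2 h.symm] at this; norm_num at this)
    (fun i j hij => subw p n hp hc _ _ _ _ (kb i).1 (kb j).1 (kb i).2 (kb j).2
      fun e1 e2 => hij (by
        rcases i with i | ⟨i, a⟩ <;> rcases j with j | ⟨j, b⟩ <;> simp_all [kk, oo, Fin.ext_iff]))
    (WW M n)
  have r1 : ∀ k ≤ n + 1, G.Reachable (qq p 0) (qq p k) := fun k hk => by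
    induction k with
    | zero => rfl
    | succ k ih => exact (ih (by omega)).trans (c6 (Sum.inl ⟨k, by omega⟩)).2.2
  have r2 : ∀ v ∈ V, G.Reachable (qq p 0) v := fun v hv => by
    obtain ⟨i, hi⟩ := c7 v hv
    exact ((r1 _ (kb i).1).trans (c6 i).2.2).trans hi.symm
  have nn : ∀ v, (∀ k ≤ n + 1, qq p k ≠ v ∧ ∀ j, R (sg k) (an j) ≠ v) →
      ∀ i : Ix n, qq p (kk i) ≠ v ∧ Bw p (kk i) (oo i) ≠ v := fun v h i => by
    refine ⟨(h _ (kb i).1).1, ?_⟩
    rcases i with k | ⟨k, j⟩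
    · exact (h (k + 1) (by omega)).1
    · exact (h k (by omega)).2 j
  refine ⟨V, G, m, c1, fun a ha b hb => (r2 a ha).symm.trans (r2 b hb), c2, c3, c4,
    fun a b h => ?_, fun k j k' j' h => ?_, fun k hk => ⟨(c6 (Sum.inr (⟨k, by omega⟩, 0))).1,
      fun j => (c6 (Sum.inr (⟨k, by omega⟩, j))).2.1⟩, c8,
    fun v hv h => ⟨c9 v hv (nn v h), Finset.sum_eq_zero fun i _ => by
      rw [if_neg (nn v h i).1, if_neg (nn v h i).2, sub_zero, mul_zero]⟩, fun k hk => ?_⟩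
  · obtain ⟨i, -, -, e⟩ := c5 a b h
    exact ⟨i, e⟩
  · obtain ⟨i, a, b, -⟩ := c5 _ _ h
    exact h.ne ((anc p hp _ _ _ _ a).trans (anc p hp _ _ _ _ b).symm)
  · rcases hk.eq_or_lt with e | e
    · exact c10 _ (Sum.inl ⟨n, by omega⟩) (Sum.inr (⟨k, by omega⟩, 0)) (Sum.inr (⟨k, by omega⟩, 1))
        (by simp) (by simp) (by simp) (Or.inr (by rw [e]; rfl)) (Or.inl rfl) (Or.inl rfl)
    · exact c10 _ (Sum.inl ⟨k, by omega⟩) (Sum.inr (⟨k, by omega⟩, 0)) (Sum.inr (⟨k, by omega⟩, 1))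
        (by simp) (by simp) (by simp) (Or.inl rfl) (Or.inl rfl) (Or.inl rfl)

end

lemma allbal : ∃ M : ℕ, 1 ≤ M ∧ ∀ n : ℕ, 1 ≤ n → ∃ p : ℕ → ℂ,
    (∀ k, |(p k).re - 1| ≤ 1 / 100 ∧ |(p k).im| ≤ 1 / 100) ∧
    (∀ i j, i < j → j ≤ n + 1 → |(p i - p j).re - (p i - p j).im| < (p i - p j).im / 10) ∧
    ∀ k ≤ n + 1, totw M p n (qq p k) = 0 := by
  obtain ⟨η0, h0, hch⟩ := chainW
  obtain ⟨M, hM⟩ := exists_nat_ge (max (2 / η0) 400)
  have M1 : (400 : ℝ) ≤ M := (le_max_right _ _).trans hM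
  have M2 : 2 / η0 ≤ M := (le_max_left _ _).trans hM
  have M3 : 1 ≤ M := by exact_mod_cast (show (1 : ℝ) ≤ M by linarith)
  have M4 : (0 : ℝ) < M := by linarith
  have e1 : 2 / (M : ℝ) ≤ η0 := by rw [div_le_iff₀ M4]; rw [div_le_iff₀ h0] at M2; linarith
  have e2 : 2 / (M : ℝ) ≤ 1 / 200 := by rw [div_le_iff₀ M4]; linarith
  have e3 : ((2 / (M : ℝ) : ℝ) : ℂ) * M = 2 := by
    have : (M : ℂ) ≠ 0 := by exact_mod_cast M4.ne'
    push_cast; field_simp
  refine ⟨M, M3, fun n hn => ?_⟩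
  obtain ⟨p, pb, g0, g1, g2, pc⟩ := hch (2 / M) (by positivity) e1 n hn
  generalize 2 / (M : ℝ) = η at *
  have hp : ∀ k, |(La (p k)).re - 1| ≤ 1 / 100 ∧ |(La (p k)).im| ≤ 1 / 100 := fun k => by
    have a := abs_le.1 ((abs_re_le_norm (p k - 1)).trans (pb k))
    have b := abs_le.1 ((abs_im_le_norm (p k - 1)).trans (pb k))
    simp only [sub_re, sub_im, one_re, one_im, sub_zero, La_apply, abs_le] at a b ⊢
    refine ⟨⟨?_, ?_⟩, ?_, ?_⟩ <;> linarith [a.1, a.2, b.1, b.2]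
  have hc : ∀ i j, i < j → j ≤ n + 1 → |(La (p i) - La (p j)).re - (La (p i) - La (p j)).im| <
      (La (p i) - La (p j)).im / 10 := fun i j a b => by
    have := coneW p n pc i j a b
    rw [← map_sub, La_apply]
    simpa using this
  refine ⟨fun k => La (p k), hp, hc, fun k hk => ?_⟩
  rw [totwq M _ n hp hc k hk]
  rcases k with _ | k
  · have b := bal 0 _ _ _ _ g0
    have w0 : ((wt M n 0 0 : ℕ) : ℂ) = 20 * M - 3 := by
      simp only [wt, if_true, Matrix.cons_val_zero]; rw [Nat.cast_sub (by omega)]; simp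
    have w1 : ((wt M n 0 1 : ℕ) : ℂ) = 15 * M - 4 := by
      simp only [wt, if_true, Matrix.cons_val_one, Matrix.cons_val_zero]
      rw [Nat.cast_sub (by omega)]; simp
    rw [if_pos (Nat.zero_le _), if_neg (by omega), w0, w1]
    simp only [qq, sg_succ, zero_add]
    linear_combination (M / 2 : ℂ) * b + (3 * un (R (sg 0) (an 0) - R (sg 0) (La (p 0))) +
      4 * un (R (sg 0) (an 1) - R (sg 0) (La (p 0)))) / 2 * e3
  rw [if_pos (show 1 ≤ k + 1 by omega), Nat.add_sub_cancel]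
  have s1 : sg k = -sg (k + 1) := by rw [sg_succ, neg_neg]
  rcases hk.eq_or_lt with e | e
  · obtain rfl : k = n := by omega
    have b := bal (k + 1) _ _ _ _ g1
    rw [if_neg (by omega)]
    simp only [qq, wt, Nat.succ_ne_zero, if_false, if_true, Matrix.cons_val_one,
      Matrix.cons_val_zero]
    rw [← s1] at b
    push_cast at b ⊢
    linear_combination (M / 2 : ℂ) * b - (3 * un (R (sg (k + 1)) (an 0) - R (sg (k + 1))
      (La (p (k + 1)))) + 4 * un (R (sg (k + 1)) (an 1) - R (sg (k + 1)) (La (p (k + 1))))) / 2 * e3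
  · have b := bal (k + 1) _ _ _ _ (g2 k (by omega))
    rw [if_pos (by omega)]
    simp only [qq, wt, Nat.succ_ne_zero, if_false, e.ne, Matrix.cons_val_one,
      Matrix.cons_val_zero, sg_succ (k + 1)]
    rw [s1]
    push_cast at b ⊢
    linear_combination (M : ℂ) * b

end Pool.Agent.H68.Gn
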