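import Mathlib

set_option autoImplicit false

namespace Pool.Agent.H68.Hn

open Finset

/-- Taylor coefficients of the solution of `U' = V ^ 2`, `V' = U ^ 2`, `U 0 = 1`, `V 0 = 0`. -/
noncomputable def cf : ℕ → ℝ × ℝ
  | 0 => (1, 0)
  | n + 1 => ((∑ i : Fin (n + 1), (cf i).2 * (cf (n - i)).2) / (n + 1),
      (∑ i : Fin (n + 1), (cf i).1 * (cf (n - i)).1) / (n + 1))
  decreasing_by all_goals (have := i.2; omega)

noncomputable def a (n : ℕ) : ℝ := (cf n).1
noncomputable def b (n : ℕ) : ℝ := (cf n).2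

lemma a0 : a 0 = 1 := by simp [a, cf]
lemma b0 : b 0 = 0 := by simp [b, cf]

lemma aS (n : ℕ) : ((n : ℝ) + 1) * a (n + 1) = ∑ i ∈ range (n + 1), b i * b (n - i) := by
  have h : ((n : ℝ) + 1) ≠ 0 := by positivity
  rw [a, cf, Finset.sum_range]
  simp only [b]
  field_simp

lemma bS (n : ℕ) : ((n : ℝ) + 1) * b (n + 1) = ∑ i ∈ range (n + 1), a i * a (n - i) := by
  have h : ((n : ℝ) + 1) ≠ 0 := by positivity
  rw [b, cf, Finset.sum_range]
  simp only [a]
  field_simp

lemma bnd (n : ℕ) : 0 ≤ a n ∧ 0 ≤ b n ∧ a n + b n ≤ 1 := by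
  induction n using Nat.strong_induction_on with
  | _ n ih =>
    rcases n with _ | n
    · simp [a0, b0]
    · have h : (0 : ℝ) < (n : ℝ) + 1 := by positivity
      have h1 : ∀ i ∈ range (n + 1), 0 ≤ b i * b (n - i) := fun i hi =>
        mul_nonneg (ih i (mem_range.1 hi)).2.1 (ih (n - i) (by omega)).2.1
      have h2 : ∀ i ∈ range (n + 1), 0 ≤ a i * a (n - i) := fun i hi =>
        mul_nonneg (ih i (mem_range.1 hi)).1 (ih (n - i) (by omega)).1
      have h3 : ∀ i ∈ range (n + 1), b i * b (n - i) + a i * a (n - i) ≤ 1 := fun i hi => by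
        obtain ⟨p1, p2, p3⟩ := ih i (mem_range.1 hi)
        obtain ⟨q1, q2, q3⟩ := ih (n - i) (by omega)
        nlinarith [mul_nonneg p1 q2, mul_nonneg p2 q1, mul_le_one₀ p3 (add_nonneg q1 q2) q3]
      have h4 := Finset.sum_le_sum h3
      rw [Finset.sum_add_distrib, ← aS, ← bS] at h4
      simp only [sum_const, card_range, nsmul_eq_mul, mul_one, Nat.cast_add, Nat.cast_one] at h4
      refine ⟨?_, ?_, ?_⟩
      · have := Finset.sum_nonneg h1; rw [← aS] at this
        exact nonneg_of_mul_nonneg_right this h |> fun x => by nlinarith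
      · have := Finset.sum_nonneg h2; rw [← bS] at this
        exact nonneg_of_mul_nonneg_right this h |> fun x => by nlinarith
      · nlinarith

lemma sym (w : ℂ) (hw : w ^ 3 = 1) (n : ℕ) :
    (a n : ℂ) * w ^ n = a n ∧ (b n : ℂ) * w ^ n = w * b n := by
  induction n using Nat.strong_induction_on with
  | _ n ih =>
    rcases n with _ | n
    · simp [a0, b0]
    · have h : ((n : ℂ) + 1) ≠ 0 := by exact_mod_cast Nat.succ_ne_zero n
      have e1 := congrArg (fun x : ℝ => (x : ℂ)) (aS n)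
      have e2 := congrArg (fun x : ℝ => (x : ℂ)) (bS n)
      push_cast at e1 e2
      constructor
      · apply mul_left_cancel₀ h
        rw [← mul_assoc, e1, Finset.sum_mul]
        refine Finset.sum_congr rfl fun i hi => ?_
        have hi' := mem_range.1 hi
        have p := (ih i hi').2
        have q := (ih (n - i) (by omega)).2
        have : w ^ (n + 1) = w ^ i * w ^ (n - i) * w := by
          rw [← pow_add, ← pow_succ]; congr 1; omega
        rw [this]
        linear_combination (w * (b (n - i) : ℂ) * w ^ (n - i)) * p + (w * w * (b i : ℂ)) * q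
          + ((b i : ℂ) * b (n - i)) * hw
      · apply mul_left_cancel₀ h
        rw [← mul_assoc, mul_left_comm, e2, Finset.sum_mul, Finset.mul_sum]
        refine Finset.sum_congr rfl fun i hi => ?_
        have hi' := mem_range.1 hi
        have p := (ih i hi').1
        have q := (ih (n - i) (by omega)).1
        have : w ^ (n + 1) = w ^ i * w ^ (n - i) * w := by
          rw [← pow_add, ← pow_succ]; congr 1; omega
        rw [this]
        linear_combination (w * (a (n - i) : ℂ) * w ^ (n - i)) * p + (w * (a i : ℂ)) * q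

noncomputable def S (c : ℕ → ℝ) (z : ℂ) : ℂ := ∑' n, (c n : ℂ) * z ^ n

lemma sumN (c : ℕ → ℝ) (hc : ∀ n, |c n| ≤ 1) (z : ℂ) (hz : ‖z‖ < 1) :
    Summable fun n => ‖(c n : ℂ) * z ^ n‖ := by
  refine Summable.of_nonneg_of_le (fun _ => norm_nonneg _) (fun n => ?_)
    (summable_geometric_of_lt_one (norm_nonneg z) hz)
  rw [norm_mul, norm_pow, Complex.norm_real, Real.norm_eq_abs]
  exact mul_le_of_le_one_left (by positivity) (hc n)

lemma derS (c : ℕ → ℝ) (hc : ∀ n, |c n| ≤ 1) (z : ℂ) (hz : ‖z‖ < 1) :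
    HasDerivAt (S c) (∑' n : ℕ, (((n : ℝ) + 1) * c (n + 1) : ℝ) * z ^ n) z := by
  obtain ⟨r, hr1, hr2⟩ := exists_between hz
  have hr0 : 0 < r := lt_of_le_of_lt (norm_nonneg z) hr1
  have hu : Summable fun n : ℕ => ((n : ℝ) + 1) * r ^ n := by
    have h1 := summable_pow_mul_geometric_of_norm_lt_one 1 (r := r)
      (by rw [Real.norm_eq_abs, abs_of_pos hr0]; exact hr2)
    have h2 := summable_geometric_of_lt_one hr0.le hr2
    refine (h1.add h2).congr fun n => ?_
    ring
  have key := hasDerivAt_tsum_of_isPreconnected (t := Metric.ball (0 : ℂ) r) (y₀ := 0) (y := z)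
    (g := fun (n : ℕ) (y : ℂ) => (c (n + 1) : ℂ) * y ^ (n + 1))
    (g' := fun (n : ℕ) (y : ℂ) => ((((n : ℝ) + 1) * c (n + 1) : ℝ) : ℂ) * y ^ n) hu
    Metric.isOpen_ball (convex_ball _ _).isPreconnected
    (fun n y _ => by
      have := (hasDerivAt_pow (n + 1) y).const_mul (c (n + 1) : ℂ)
      refine this.congr_deriv ?_
      rw [Nat.add_sub_cancel]; push_cast; ring)
    (fun n y hy => by
      have hy' : ‖y‖ ≤ r := by simpa using (mem_ball_zero_iff.1 hy).le
      rw [norm_mul, norm_pow, Complex.norm_real, Real.norm_eq_abs, abs_mul,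
        abs_of_nonneg (by positivity : (0 : ℝ) ≤ n + 1)]
      have := hc (n + 1)
      have h3 : ‖y‖ ^ n ≤ r ^ n := pow_le_pow_left₀ (norm_nonneg _) hy' n
      calc _ ≤ ((n : ℝ) + 1) * 1 * r ^ n := by gcongr
        _ = _ := by ring)
    (Metric.mem_ball_self hr0) (by simp [summable_zero]) (mem_ball_zero_iff.2 hr1)
  have h5 := key.const_add (c 0 : ℂ)
  refine h5.congr_of_eventuallyEq ?_
  filter_upwards [Metric.isOpen_ball.mem_nhds (mem_ball_zero_iff.2 hz)] with y hy
  rw [S, (sumN c hc y (mem_ball_zero_iff.1 hy)).of_norm.tsum_eq_zero_add]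
  simp

lemma ha (n : ℕ) : |a n| ≤ 1 := by
  have := bnd n; rw [abs_of_nonneg this.1]; linarith [this.2.1, this.2.2]
lemma hb (n : ℕ) : |b n| ≤ 1 := by
  have := bnd n; rw [abs_of_nonneg this.2.1]; linarith [this.1, this.2.2]

lemma sq (c d : ℕ → ℝ) (hc : ∀ n, |c n| ≤ 1)
    (h : ∀ n : ℕ, ((n : ℝ) + 1) * d (n + 1) = ∑ i ∈ range (n + 1), c i * c (n - i))
    (z : ℂ) (hz : ‖z‖ < 1) :
    (∑' n : ℕ, (((n : ℝ) + 1) * d (n + 1) : ℝ) * z ^ n) = S c z ^ 2 := by
  rw [pow_two, S, tsum_mul_tsum_eq_tsum_sum_range_of_summable_norm (sumN c hc z hz)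
    (sumN c hc z hz)]
  refine tsum_congr fun n => ?_
  rw [h n]
  push_cast
  rw [Finset.sum_mul]
  refine Finset.sum_congr rfl fun i hi => ?_
  have : z ^ n = z ^ i * z ^ (n - i) := by
    rw [← pow_add]; congr 1; have := mem_range.1 hi; omega
  rw [this]; ring

lemma dU (z : ℂ) (hz : ‖z‖ < 1) : HasDerivAt (S a) (S b z ^ 2) z := by
  rw [← sq b a hb aS z hz]; exact derS a ha z hz
lemma dV (z : ℂ) (hz : ‖z‖ < 1) : HasDerivAt (S b) (S a z ^ 2) z := by
  rw [← sq a b ha bS z hz]; exact derS b hb z hz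

lemma symU (w : ℂ) (hw : w ^ 3 = 1) (z : ℂ) : S a (w * z) = S a z := by
  refine tsum_congr fun n => ?_
  rw [mul_pow, ← mul_assoc, (sym w hw n).1]
lemma symV (w : ℂ) (hw : w ^ 3 = 1) (z : ℂ) : S b (w * z) = w * S b z := by
  rw [S, S, ← tsum_mul_left]
  refine tsum_congr fun n => ?_
  rw [mul_pow, ← mul_assoc, (sym w hw n).2, mul_assoc]

lemma S0 (c : ℕ → ℝ) : S c 0 = c 0 := by
  rw [S, tsum_eq_single 0 (fun n hn => by simp [hn])]; simp

lemma Sre (c : ℕ → ℝ) (x : ℝ) : S c x = ((S c x).re : ℂ) := by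
  have : S c x = ((∑' n, c n * x ^ n : ℝ) : ℂ) := by
    rw [Complex.ofReal_tsum, S]; push_cast; rfl
  rw [this, Complex.ofReal_re]

end Pool.Agent.H68.Hn
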