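import Pool.Agent.H68.Hn9

set_option autoImplicit false

namespace Pool.Agent.H68.Hn

open Metric

lemma main2 (δ : ℝ) (hδ : 0 < δ) :
    (∃ p, p ≠ 0 ∧ p ∈ Function.periodicPts H ∧ (∀ k, ‖H^[k] p‖ ≤ δ) ∧ IsElliptic p) ∧
    ∃ p, p ≠ 0 ∧ p ∈ Function.periodicPts H ∧ (∀ k, ‖H^[k] p‖ ≤ δ) ∧ IsSaddle p := by
  have hpr := Complex.isPrimitiveRoot_exp 3 (by norm_num)
  have hw := hpr.pow_eq_one
  have hw1 := hpr.ne_one (by norm_num)
  generalize Complex.exp _ = w at *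
  obtain ⟨θ, ρ, h1, h2, h3⟩ := conv w hw hw1
  obtain ⟨e, he, hLS⟩ := LS
  obtain ⟨r, B, K0, r0, r1, hB, h4⟩ := h3 e he
  set c := ‖(θ.symm : (ℂ × ℂ) →L[ℂ] (ℂ × ℂ))‖ with hc
  have c0 : 0 ≤ c := norm_nonneg _
  have q1 : 0 ≤ c * B ^ 2 / (e * r) := by positivity
  have q2 : 0 ≤ 2 * B / δ := by positivity
  have q3 := abs_nonneg K0
  obtain ⟨K, hK⟩ := exists_nat_gt (|K0| + B + c * B ^ 2 / (e * r) + 2 * B / δ)
  have hK' : (0 : ℝ) < K := by linarith
  have hK0 : 0 < K := by exact_mod_cast hK'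
  have hKc : (K : ℂ) ≠ 0 := by exact_mod_cast hK0.ne'
  have h5 := h4 K (by linarith [le_abs_self K0]) hK0
  obtain ⟨Θ, hΘ⟩ := mkE ℂ ((K : ℂ)⁻¹ • (θ : (ℂ × ℂ) →L[ℂ] (ℂ × ℂ))) (fun v hv => by
    simpa [hKc] using hv)
  have Θa : ∀ x, Θ x = (K : ℂ)⁻¹ • θ x := fun x => by
    rw [← ContinuousLinearEquiv.coe_coe, hΘ]; rfl
  have Θs : ∀ y, Θ.symm y = (K : ℂ) • θ.symm y := fun y => by
    rw [ContinuousLinearEquiv.symm_apply_eq, Θa]; simp [smul_smul, hKc]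
  simp only [← Θa] at h5
  have hu := sq3 w hw
  set u := w ^ 2 with hu'
  let g : ℂ × ℂ → ℂ × ℂ := fun x => ρ ((K : ℂ) • H^[2 * K + 1] (Θ x))
  let F0 : ℂ × ℂ → ℂ × ℂ := fun q => Rl u (H^[2 * (2 * K + 1)] q)
  have dF0 : ∀ p, HasFDerivAt F0 ((Rl u).comp (fderiv ℂ (H^[2 * (2 * K + 1)]) p)) p := fun p =>
    (Rl u).hasFDerivAt.comp p (diffH.iterate _ p).hasFDerivAt
  let F : ℂ × ℂ → ℂ × ℂ := fun x => Θ.symm (F0 (Θ x))
  have dF : ∀ x, HasFDerivAt F ((Θ.symm : (ℂ × ℂ) →L[ℂ] (ℂ × ℂ)).comp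
      ((fderiv ℂ F0 (Θ x)).comp (Θ : (ℂ × ℂ) →L[ℂ] (ℂ × ℂ)))) x := fun x =>
    Θ.symm.hasFDerivAt.comp x ((dF0 _).differentiableAt.hasFDerivAt.comp x Θ.hasFDerivAt)
  have hΓ : ∀ x, Θ (cc (g x)) = cj u (H^[2 * K + 1] (Θ x)) := fun x => by
    rw [Θa (cc _), h1]
    ext <;> simp [cj] <;> field_simp
  have hJ : ∀ x : ℂ × ℂ, Θ (-x.1, x.2) = J (Θ x) := fun x => by
    rw [Θa, Θa, h2]; ext <;> simp [J]
  have ΓΓ : ∀ q, cj u (H^[2 * K + 1] (cj u (H^[2 * K + 1] q))) = F0 q := fun q => by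
    rw [Mcj u hu, cjcj2 u hu, ← Function.iterate_add_apply, ← two_mul]; rfl
  have dtF : ∀ x, dt (fderiv ℂ F x) = 1 := fun x => by
    have := dt_comp (Θ.symm : (ℂ × ℂ) →L[ℂ] (ℂ × ℂ)) (Θ : (ℂ × ℂ) →L[ℂ] (ℂ × ℂ))
    rw [ContinuousLinearEquiv.coe_symm_comp_coe] at this
    have e1 : dt (ContinuousLinearMap.id ℂ (ℂ × ℂ)) = 1 := by simp [dt]
    have e2 : dt (Rl u) = 1 := by simp [dt, Rl_apply, R]; linear_combination hu
    rw [(dF x).fderiv, dt_comp, dt_comp, (dF0 _).fderiv, dt_comp, dtH, e2, pow_mul]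
    linear_combination e1 - this
  have F3 : F0^[3] = H^[2 * (3 * (2 * K + 1))] := by
    funext q
    show F0 (F0 (F0 q)) = _
    simp only [F0, Rl_apply, HT, TR u hu, ← Function.iterate_add_apply]
    rw [show 2 * K + 1 + (2 * K + 1 + (2 * K + 1)) = 3 * (2 * K + 1) by ring]
    ext <;> simp only [R] <;> grind
  have fixF : ∀ x, cc (g x) = x → F0 (Θ x) = Θ x := fun x hx => by
    rw [← ΓΓ, ← hΓ, hx, ← hΓ, hx]
  have x0 : ∀ x ∈ ball ((0, 1) : ℂ × ℂ) r, Θ x ≠ 0 := fun x hx h => by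
    rw [Θ.map_eq_zero_iff.1 h, mem_ball_iff_norm] at hx
    simp [Prod.norm_def] at hx
    linarith
  have sub : ball ((0, 1) : ℂ × ℂ) r ⊆ ball (0, 1) (2 * r) := ball_subset_ball (by linarith)
  have key := hLS r r0 g F (fun x => Θ.symm (T (Θ x)))
    (ρ.differentiable.comp (((diffH.iterate _).comp Θ.differentiable).const_smul (K : ℂ)))
    (fun x => (dF x).differentiableAt)
    (fun x => by rw [eq_comm, ← Θ.injective.eq_iff, hΓ, hΓ, ΓΓ]; simp [F])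
    (fun x hx => (h5 x hx).1)
    (fun x => by
      rw [← Θ.injective.eq_iff, hΓ, hJ, hJ, hΓ, Jcj u hu, Mcj _ (sq3 u hu), HJH,
        show (u ^ 2) ^ 2 = u by linear_combination u * hu, cjcj u hu])
    (fun x hx hf => by
      refine ⟨?_, fun h => x0 x hx ?_, ?_⟩
      · have e1 := Tcj u hu 1 (H^[2 * K + 1] (Θ x))
        rw [← hΓ, hf] at e1
        rw [← Θ.injective.eq_iff, hΓ, Θ.apply_symm_apply]
        refine Eq.trans ?_ e1.symm
        rw [← HT, ← Function.iterate_add_apply, add_comm (2 * 1), Function.iterate_add_apply H _ (2 * 1)]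
        rfl
      · rw [ContinuousLinearEquiv.symm_apply_eq] at h
        generalize Θ x = q at h
        simp only [T, Prod.ext_iff, add_eq_left, pow_eq_zero_iff two_ne_zero] at h
        ext
        · simpa [h.1] using h.2
        · exact h.1
      · have b0 := (norm_snd_le _).trans ((h5 x (sub hx)).2 0 (Nat.zero_le _))
        have b1 := (norm_fst_le _).trans ((h5 x (sub hx)).2 1 hK0)
        have e1 : Θ.symm (T (Θ x)) - x = (K : ℂ) • θ.symm ((Θ x).2 ^ 2, (T (Θ x)).1 ^ 2) := by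
          rw [← Θs, eq_comm, ContinuousLinearEquiv.symm_apply_eq, map_sub, Θ.apply_symm_apply]
          ext <;> simp [T]
        have n1 : ‖(((Θ x).2 ^ 2, (T (Θ x)).1 ^ 2) : ℂ × ℂ)‖ ≤ (B / K) ^ 2 := by
          rw [Prod.norm_def, max_le_iff, norm_pow, norm_pow]
          constructor <;> gcongr
          · exact b0
          · exact b1
        have n2 := (θ.symm : (ℂ × ℂ) →L[ℂ] (ℂ × ℂ)).le_of_opNorm_le_of_le le_rfl n1
        rw [e1, norm_smul, Complex.norm_natCast]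
        have : c * B ^ 2 / (e * r) ≤ K := by linarith
        rw [div_le_iff₀ (by positivity)] at this
        calc _ ≤ K * (c * (B / K) ^ 2) := by gcongr; exact n2
          _ = c * B ^ 2 / K := by field_simp
          _ ≤ _ := by rw [div_le_iff₀ hK']; linarith)
    dtF
    (fun x hx v hv => by
      rw [(dF x).fderiv, (dF0 _).fderiv] at hv
      simp only [ContinuousLinearMap.comp_apply, ContinuousLinearEquiv.coe_coe,
        ContinuousLinearEquiv.symm_apply_eq, Rl_apply, R, Prod.ext_iff] at hv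
      rw [← Θ.map_eq_zero_iff]
      refine nondeg (Θ x) (2 * (3 * (2 * K + 1))) (by omega)
        (by rw [← F3]; exact Function.iterate_fixed (fixF x hx) 3) w hw hw1 (2 * K + 1) _ ?_ hv.2
      rw [← hv.1, show u ^ 2 = w by rw [hu']; linear_combination w * hw])
  have fin : ∀ x ∈ ball ((0, 1) : ℂ × ℂ) r, cc (g x) = x → ∀ k, ‖H^[k] (Θ x)‖ ≤ δ := fun x hx hf k => by
    refine (small u hu K _ (by rw [← hΓ, hf]) (B / K) (by rw [div_le_one hK']; linarith)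
      (h5 x (sub hx)).2 k).trans ?_
    have : 2 * B / δ ≤ K := by linarith
    rw [div_le_iff₀ hδ] at this
    rw [← mul_div_assoc, div_le_iff₀ hK']; linarith
  have eig : ∀ x μ, Eig (fderiv ℂ F x) μ ↔ Eig (fderiv ℂ F0 (Θ x)) μ := fun x μ => by
    rw [(dF x).fderiv]
    simp only [Eig, ContinuousLinearMap.comp_apply, ContinuousLinearEquiv.coe_coe,
      ContinuousLinearEquiv.symm_apply_eq, map_smul]
    constructor
    · rintro ⟨v, hv, h⟩
      exact ⟨Θ v, fun h0 => hv (Θ.map_eq_zero_iff.1 h0), h⟩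
    · rintro ⟨v, hv, h⟩
      exact ⟨Θ.symm v, fun h0 => hv (Θ.symm.map_eq_zero_iff.1 h0), by simpa using h⟩
  have ty := fun x hx => types F0 (fun p => (dF0 p).differentiableAt) (Θ x) (fixF x hx) _
    (by omega) F3
  obtain ⟨⟨x, x1, x2, t, t1, t2, t3⟩, y, y1, y2, s, s1, s2⟩ := key
  refine ⟨⟨Θ x, x0 x x1, (ty x x2).1, fin x x1 x2, (ty x x2).2.1 fun μ hμ =>
    ell _ t t1 (dtF x) t2 t3 μ ((eig x μ).2 hμ)⟩, Θ y, x0 y y1, (ty y y2).1, fin y y1 y2,
    (ty y y2).2.2 ?_⟩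
  obtain ⟨μ, ν, m1, m2, m3⟩ := sad _ s s1 (dtF y) s2
  exact ⟨μ, ν, (eig y μ).1 m1, (eig y ν).1 m2, m3⟩

lemma ne0 (p : ℂ × ℂ) (hp : p ≠ 0) (k : ℕ) : H^[k] p ≠ 0 := by
  induction k with
  | zero => exact hp
  | succ k ih =>
    rw [Function.iterate_succ_apply']
    intro h0
    apply ih
    generalize H^[k] p = q at *
    have h1 : q.2 = 0 := congrArg Prod.fst h0
    have h2 : q.1 + q.2 ^ 2 = 0 := congrArg Prod.snd h0
    ext
    · simpa [h1] using h2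
    · exact h1

end Pool.Agent.H68.Hn
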