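import Pool.Agent.H68.Hn1

set_option autoImplicit false

namespace Pool.Agent.H68.Hn

lemma mvt (f f' : ℝ → ℝ) (h : ∀ x, -1 < x → x < 1 → HasDerivAt f (f' x) x) (p q : ℝ)
    (hp : -1 < p) (hpq : p < q) (hq : q < 1) : ∃ c, p < c ∧ c < q ∧ f q - f p = f' c * (q - p) := by
  obtain ⟨c, hc, e⟩ := exists_hasDerivAt_eq_slope f f' hpq
    (fun x hx => (h x (by linarith [hx.1]) (by linarith [hx.2])).continuousAt.continuousWithinAt)
    (fun x hx => h x (by linarith [hx.1]) (by linarith [hx.2]))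
  refine ⟨c, hc.1, hc.2, ?_⟩
  have : q - p ≠ 0 := by linarith
  rw [e]; field_simp

noncomputable def u (x : ℝ) : ℝ := (S a x).re
noncomputable def v (x : ℝ) : ℝ := (S b x).re

lemma nx (x : ℝ) (h1 : -1 < x) (h2 : x < 1) : ‖(x : ℂ)‖ < 1 := by
  rw [Complex.norm_real, Real.norm_eq_abs, abs_lt]; exact ⟨h1, h2⟩

lemma du (x : ℝ) (h1 : -1 < x) (h2 : x < 1) : HasDerivAt u (v x ^ 2) x := by
  have := (dU x (nx x h1 h2)).real_of_complex
  refine this.congr_deriv ?_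
  rw [Sre b x, ← Complex.ofReal_pow, Complex.ofReal_re]; rfl

lemma dv (x : ℝ) (h1 : -1 < x) (h2 : x < 1) : HasDerivAt v (u x ^ 2) x := by
  have := (dV x (nx x h1 h2)).real_of_complex
  refine this.congr_deriv ?_
  rw [Sre a x, ← Complex.ofReal_pow, Complex.ofReal_re]; rfl

lemma u0 : u 0 = 1 := by simp [u, S0, a0]
lemma v0 : v 0 = 0 := by simp [v, S0, b0]

lemma inv (x : ℝ) (h1 : -1 < x) (h2 : x < 0) : u x ^ 3 - v x ^ 3 = 1 := by
  obtain ⟨c, -, -, e⟩ := mvt (fun x => u x ^ 3 - v x ^ 3) (fun _ => 0) (fun y g1 g2 => by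
    have := ((du y g1 g2).pow 3).sub ((dv y g1 g2).pow 3)
    refine this.congr_deriv ?_
    norm_num; ring) x 0 h1 h2 one_pos
  simp only [u0, v0] at e
  linarith

lemma q1 (p q : ℝ) (h : p ^ 3 - q ^ 3 = 1) : 1 ≤ q ^ 2 + p ^ 2 := by
  by_contra hc
  push Not at hc
  have h1 : p < 1 := by nlinarith [sq_nonneg q, sq_nonneg (p - 1)]
  have h2 : -1 < q := by nlinarith [sq_nonneg p, sq_nonneg (q + 1)]
  nlinarith [mul_nonneg (sq_nonneg p) (sub_nonneg.2 h1.le),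
    mul_nonneg (sq_nonneg q) (by linarith : (0 : ℝ) ≤ q + 1)]

lemma q2 (p q : ℝ) (h : p ^ 3 - q ^ 3 = 1) (h0 : 0 ≤ p + q) (h1 : p + q ≤ 1 / 2) :
    1.02 ≤ q ^ 2 + p ^ 2 := by
  have e : (p - q) ^ 3 + 3 * (p + q) ^ 2 * (p - q) = 4 := by linear_combination 4 * h
  have e2 : q ^ 2 + p ^ 2 = ((p + q) ^ 2 + (p - q) ^ 2) / 2 := by ring
  generalize p - q = D at *
  generalize p + q = W at *
  have hW : W ^ 2 ≤ 1 / 4 := by nlinarith
  have hD : 0 < D := by
    by_contra hc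
    push Not at hc
    nlinarith [mul_nonneg (sq_nonneg D) (neg_nonneg.2 hc), mul_nonneg (sq_nonneg W) (neg_nonneg.2 hc)]
  have hD2 : 1.43 ≤ D := by
    by_contra hc
    push Not at hc
    have h3 : D ^ 3 ≤ 1.43 ^ 3 := pow_le_pow_left₀ hD.le hc.le 3
    nlinarith [mul_le_mul_of_nonneg_right hW hD.le]
  rw [e2]
  nlinarith [sq_nonneg W]

lemma zero : ∃ s : ℝ, -1 < s ∧ s < 0 ∧ S b s = -S a s ∧ S a s ≠ 0 := by
  have hd : ∀ x, -1 < x → x < 1 → HasDerivAt (fun x => u x + v x) (v x ^ 2 + u x ^ 2) x :=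
    fun x g1 g2 => (du x g1 g2).add (dv x g1 g2)
  have hle : ∀ x, -1 < x → x < 0 → u x + v x ≤ 1 + x := fun x g1 g2 => by
    obtain ⟨c, c1, c2, e⟩ := mvt _ _ hd x 0 g1 g2 one_pos
    have := q1 _ _ (inv c (by linarith) c2)
    simp only [u0, v0] at e
    nlinarith
  have key : ∃ x : ℝ, -0.995 ≤ x ∧ x < 0 ∧ u x + v x ≤ 0 := by
    by_contra hc
    push Not at hc
    obtain ⟨c, c1, c2, e⟩ := mvt _ _ hd (-0.995) (-1 / 2) (by norm_num) (by norm_num) (by norm_num)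
    have h1 := q2 _ _ (inv c (by linarith) (by linarith)) (hc c c1.le (by linarith)).le
      (by linarith [hle c (by linarith) (by linarith)])
    have h2 := hle (-1 / 2) (by norm_num) (by norm_num)
    have h3 := hc (-0.995) le_rfl (by norm_num)
    nlinarith
  obtain ⟨x, x1, x2, x3⟩ := key
  have hcont : ContinuousOn (fun x => u x + v x) (Set.Icc x 0) := fun y hy =>
    (hd y (by linarith [hy.1]) (by linarith [hy.2])).continuousAt.continuousWithinAt
  obtain ⟨s, hs, e⟩ := intermediate_value_Icc x2.le hcont (show (0 : ℝ) ∈ _ from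
    ⟨x3, by simp [u0, v0]⟩)
  simp only at e
  have hs0 : s < 0 := by
    rcases hs.2.lt_or_eq with h | h
    · exact h
    · rw [h, u0, v0] at e; norm_num at e
  have hs1 : -1 < s := by linarith [hs.1]
  have hv : v s = -u s := by linarith
  refine ⟨s, hs1, hs0, ?_, ?_⟩
  · rw [Sre a, Sre b]
    exact_mod_cast hv
  · intro h0
    have h1 := inv s hs1 hs0
    have h2 : u s = 0 := by simp [u, h0]
    rw [hv, h2] at h1
    norm_num at h1

lemma bdd (c : ℕ → ℝ) (hc : ∀ n, |c n| ≤ 1) (r : ℝ) (hr : r < 1) (z : ℂ) (hz : ‖z‖ ≤ r) :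
    ‖S c z‖ ≤ (1 - r)⁻¹ := by
  have h0 : 0 ≤ r := (norm_nonneg z).trans hz
  rw [← tsum_geometric_of_lt_one h0 hr]
  refine tsum_of_norm_bounded (summable_geometric_of_lt_one h0 hr).hasSum fun n => ?_
  rw [norm_mul, norm_pow, Complex.norm_real, Real.norm_eq_abs]
  calc _ ≤ 1 * r ^ n := by gcongr; exact hc n
    _ = _ := one_mul _

/-- second order Taylor bound -/
lemma taylor (f g : ℂ → ℂ) (r B : ℝ) (hB : 0 ≤ B)
    (hf : ∀ z, ‖z‖ ≤ r → HasDerivAt f (g z ^ 2) z) (hg : ∀ z, ‖z‖ ≤ r → HasDerivAt g (f z ^ 2) z)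
    (bf : ∀ z, ‖z‖ ≤ r → ‖f z‖ ≤ B) (bg : ∀ z, ‖z‖ ≤ r → ‖g z‖ ≤ B)
    (p q : ℂ) (hp : ‖p‖ ≤ r) (hq : ‖q‖ ≤ r) :
    ‖f q - f p - (q - p) * g p ^ 2‖ ≤ 2 * B ^ 3 * ‖q - p‖ ^ 2 := by
  have lip : ∀ w, ‖w‖ ≤ r → ‖g w - g p‖ ≤ B ^ 2 * ‖w - p‖ := fun w hw =>
    Convex.norm_image_sub_le_of_norm_hasDerivWithin_le (s := Metric.closedBall 0 r)
      (f' := fun z => f z ^ 2)
      (fun z hz => (hg z (mem_closedBall_zero_iff.1 hz)).hasDerivWithinAt)
      (fun z hz => by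
        rw [norm_pow]; gcongr; exact bf z (mem_closedBall_zero_iff.1 hz))
      (convex_closedBall _ _) (mem_closedBall_zero_iff.2 hp) (mem_closedBall_zero_iff.2 hw)
  have := Convex.norm_image_sub_le_of_norm_hasDerivWithin_le
      (s := Metric.closedBall 0 r ∩ Metric.closedBall p ‖q - p‖) (C := 2 * B ^ 3 * ‖q - p‖)
      (f := fun w => f w - w * g p ^ 2) (f' := fun z => g z ^ 2 - g p ^ 2) (x := p) (y := q)
      (fun z hz => by
        have := (hf z (mem_closedBall_zero_iff.1 hz.1)).sub ((hasDerivAt_id z).mul_const (g p ^ 2))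
        rw [one_mul] at this
        exact this.hasDerivWithinAt)
      (fun z hz => by
        have h1 := mem_closedBall_zero_iff.1 hz.1
        have h2 : ‖z - p‖ ≤ ‖q - p‖ := mem_closedBall_iff_norm.1 hz.2
        have h3 : ‖g z + g p‖ ≤ 2 * B := (norm_add_le _ _).trans (by linarith [bg z h1, bg p hp])
        have h4 := lip z h1
        rw [sq_sub_sq, norm_mul]
        calc _ ≤ 2 * B * (B ^ 2 * ‖q - p‖) := by
              gcongr; exact h4.trans (by gcongr)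
          _ = _ := by ring)
      ((convex_closedBall _ _).inter (convex_closedBall _ _))
      ⟨mem_closedBall_zero_iff.2 hp, Metric.mem_closedBall_self (norm_nonneg _)⟩
      ⟨mem_closedBall_zero_iff.2 hq, mem_closedBall_iff_norm.2 le_rfl⟩
  calc _ = ‖(f q - q * g p ^ 2) - (f p - p * g p ^ 2)‖ := by congr 1; ring
    _ ≤ _ := this
    _ = _ := by ring

end Pool.Agent.H68.Hn
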