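import Pool.Agent.H68.Hn2

set_option autoImplicit false

namespace Pool.Agent.H68.Hn

/-- rescaled second iterate -/
def G (h : ℂ) (q : ℂ × ℂ) : ℂ × ℂ := (q.1 + h * q.2 ^ 2, q.2 + h * (q.1 + h * q.2 ^ 2) ^ 2)

lemma half (x x' y y' c h : ℂ) (d B e n : ℝ) (hx : ‖x - x'‖ ≤ d) (hy : ‖y - y'‖ ≤ d) (hd : d ≤ 1)
    (hB : ‖y'‖ ≤ B) (hh : ‖h‖ ≤ n) (hc : ‖c - x' - h * y' ^ 2‖ ≤ e) :
    ‖x + h * y ^ 2 - c‖ ≤ d * (1 + n * (2 * B + 1)) + e := by
  have e1 : x + h * y ^ 2 - c = (x - x') + h * ((y - y') * ((y - y') + 2 * y'))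
      - (c - x' - h * y' ^ 2) := by ring
  have h1 : ‖(y - y') + 2 * y'‖ ≤ 2 * B + 1 := by
    refine (norm_add_le _ _).trans ?_
    rw [norm_mul, Complex.norm_two]; linarith
  have h0 : 0 ≤ n := (norm_nonneg _).trans hh
  have h0' : 0 ≤ d := (norm_nonneg _).trans hx
  have h2 : ‖h * ((y - y') * ((y - y') + 2 * y'))‖ ≤ n * (d * (2 * B + 1)) := by
    rw [norm_mul, norm_mul]; gcongr
  rw [e1]
  refine (norm_sub_le _ _).trans ?_
  have := norm_add_le (x - x') (h * ((y - y') * ((y - y') + 2 * y')))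
  nlinarith

lemma shadow (P Q : ℕ → ℂ) (K : ℕ) (h : ℂ) (B e n : ℝ) (he : 0 ≤ e) (hB0 : 0 ≤ B) (hh : ‖h‖ ≤ n)
    (h1 : ∀ k < K, ‖P (k + 1) - P k - h * Q k ^ 2‖ ≤ e)
    (h2 : ∀ k < K, ‖Q (k + 1) - Q k - h * P (k + 1) ^ 2‖ ≤ e)
    (hP : ∀ k ≤ K, ‖P k‖ ≤ B) (hQ : ∀ k ≤ K, ‖Q k‖ ≤ B) (E : ℝ) (hE1 : E ≤ 1)
    (hE : (2 * K : ℕ) * e * (1 + n * (2 * B + 1)) ^ (2 * K) ≤ E) (k : ℕ) (hk : k ≤ K) :
    ‖((G h)^[k] (P 0, Q 0)).1 - P k‖ ≤ E ∧ ‖((G h)^[k] (P 0, Q 0)).2 - Q k‖ ≤ E := by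
  have h0 : 0 ≤ n := (norm_nonneg _).trans hh
  set l := 1 + n * (2 * B + 1) with hl
  have hl1 : 1 ≤ l := by rw [hl]; nlinarith
  let D : ℕ → ℝ := fun m => m * e * l ^ m
  have mono : ∀ i j, i ≤ j → D i ≤ D j := fun i j hij => by
    simp only [D]; gcongr
  have step : ∀ i, D i * l + e ≤ D (i + 1) := fun i => by
    simp only [D]; push_cast
    have : 1 ≤ l ^ (i + 1) := one_le_pow₀ hl1
    rw [pow_succ] at *
    nlinarith
  have key : ∀ k ≤ K, ‖((G h)^[k] (P 0, Q 0)).1 - P k‖ ≤ D (2 * k) ∧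
      ‖((G h)^[k] (P 0, Q 0)).2 - Q k‖ ≤ D (2 * k) := by
    intro k
    induction k with
    | zero => intro _; simp [D]
    | succ k ih =>
      intro hk
      obtain ⟨i1, i2⟩ := ih (by omega)
      rw [Function.iterate_succ_apply']
      generalize (G h)^[k] (P 0, Q 0) = q at *
      have b1 : D (2 * k) ≤ 1 := ((mono _ (2 * K) (by omega)).trans hE).trans hE1
      have b2 : D (2 * k + 1) ≤ 1 := ((mono _ (2 * K) (by omega)).trans hE).trans hE1
      have c1 := (half _ _ _ _ _ h _ B e n i1 i2 b1 (hQ k (by omega)) hh (h1 k (by omega))).trans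
        (step _)
      have c2 := (half _ _ _ _ _ h _ B e n (i2.trans (mono _ (2 * k + 1) (by omega))) c1 b2
        (hP (k + 1) hk) hh (h2 k (by omega))).trans (step _)
      exact ⟨c1.trans (mono _ _ (by omega)), c2⟩
  have := (mono _ (2 * K) (by omega : 2 * k ≤ 2 * K)).trans hE
  exact ⟨(key k hk).1.trans this, (key k hk).2.trans this⟩

lemma approx (r : ℝ) (hr : r < 1) : ∃ B C : ℝ, 0 ≤ B ∧ 0 ≤ C ∧ ∀ (s z : ℂ), ‖s‖ ≤ r → ‖s + z‖ ≤ r →
    ∀ K : ℕ, 0 < K → C / K ≤ 1 →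
      (∀ k ≤ K, ‖(G (z / K))^[k] (S a s, S b s)‖ ≤ B) ∧
      ‖((G (z / K))^[K] (S a s, S b s)).1 - S a (s + z)‖ ≤ C / K ∧
      ‖((G (z / K))^[K] (S a s, S b s)).2 - S b (s + z)‖ ≤ C / K := by
  set B := (1 - r)⁻¹ with hB
  have hB0 : 0 ≤ B := inv_nonneg.2 (by linarith)
  refine ⟨B + 1, 16 * B ^ 3 * Real.exp (4 * (2 * B + 1)), by positivity, by positivity,
    fun s z hs hz K hK hC => ?_⟩
  have hK' : (0 : ℝ) < K := by exact_mod_cast hK
  have hKc : (K : ℂ) ≠ 0 := by exact_mod_cast hK.ne'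
  have hz2 : ‖z‖ ≤ 2 := by
    have := norm_sub_le (s + z) s
    rw [add_sub_cancel_left] at this; linarith
  have hh : ‖z / K‖ ≤ 2 / K := by
    rw [norm_div, Complex.norm_natCast]; gcongr
  let p : ℕ → ℂ := fun k => s + k * (z / K)
  have hp : ∀ k ≤ K, ‖p k‖ ≤ r := fun k hk => by
    have hk' : (k : ℝ) / K ≤ 1 := by rw [div_le_one hK']; exact_mod_cast hk
    have e : p k = ((1 - (k : ℝ) / K : ℝ) : ℂ) * s + (((k : ℝ) / K : ℝ) : ℂ) * (s + z) := by
      simp only [p]; push_cast; ring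
    rw [e]
    refine (norm_add_le _ _).trans ?_
    rw [norm_mul, norm_mul, Complex.norm_real, Complex.norm_real, Real.norm_eq_abs,
      Real.norm_eq_abs, abs_of_nonneg (by linarith), abs_of_nonneg (by positivity)]
    have : (0 : ℝ) ≤ k / K := by positivity
    nlinarith
  have hf : ∀ z, ‖z‖ ≤ r → HasDerivAt (S a) (S b z ^ 2) z := fun z h => dU z (h.trans_lt hr)
  have hg : ∀ z, ‖z‖ ≤ r → HasDerivAt (S b) (S a z ^ 2) z := fun z h => dV z (h.trans_lt hr)
  have dp : ∀ k, p (k + 1) - p k = z / K := fun k => by simp only [p]; push_cast; ring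
  have key := shadow (fun k => S a (p k)) (fun k => S b (p k)) K (z / K) B
    (2 * B ^ 3 * (2 / K) ^ 2) (2 / K) (by positivity) hB0 hh
    (fun k hk => by
      have := taylor _ _ r B hB0 hf hg (bdd a ha r hr) (bdd b hb r hr) (p k) (p (k + 1))
        (hp k hk.le) (hp _ hk)
      rw [dp] at this
      exact this.trans (by gcongr))
    (fun k hk => by
      have := taylor _ _ r B hB0 hg hf (bdd b hb r hr) (bdd a ha r hr) (p (k + 1)) (p k)
        (hp _ hk) (hp k hk.le)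
      rw [← neg_sub (p (k + 1)) (p k), dp, norm_neg, ← norm_neg] at this
      refine le_trans (le_of_eq ?_) (this.trans (by gcongr))
      congr 1; ring)
    (fun k hk => bdd a ha r hr _ (hp k hk)) (fun k hk => bdd b hb r hr _ (hp k hk)) _ hC
    (by
      have h1 : (1 + 2 / K * (2 * B + 1)) ^ (2 * K) ≤ Real.exp (4 * (2 * B + 1)) := by
        calc _ ≤ Real.exp (2 / K * (2 * B + 1)) ^ (2 * K) := by
              gcongr; linarith [Real.add_one_le_exp (2 / K * (2 * B + 1))]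
          _ = _ := by
              rw [← Real.exp_nat_mul]; congr 1; push_cast; field_simp; ring
      calc _ ≤ ((2 * K : ℕ) : ℝ) * (2 * B ^ 3 * (2 / K) ^ 2) * Real.exp (4 * (2 * B + 1)) := by
            gcongr
        _ = _ := by push_cast; field_simp; ring)
  have p0 : p 0 = s := by simp [p]
  have pK : p K = s + z := by simp only [p]; field_simp
  simp only [p0] at key
  refine ⟨fun k hk => ?_, by simpa only [pK] using key K le_rfl⟩
  obtain ⟨k1, k2⟩ := key k hk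
  rw [Prod.norm_def, max_le_iff]
  have m1 := bdd a ha r hr _ (hp k hk)
  have m2 := bdd b hb r hr _ (hp k hk)
  have n1 := norm_sub_norm_le ((G (z / K))^[k] (S a s, S b s)).1 (S a (p k))
  have n2 := norm_sub_norm_le ((G (z / K))^[k] (S a s, S b s)).2 (S b (p k))
  constructor <;> linarith

lemma diffG (K : ℂ) (q : ℂ × ℂ) (k : ℕ) :
    Differentiable ℂ (fun z : ℂ => ((G (z / K))^[k] q).1) ∧
      Differentiable ℂ (fun z : ℂ => ((G (z / K))^[k] q).2) := by
  induction k with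
  | zero => simp
  | succ k ih =>
    obtain ⟨i1, i2⟩ := ih
    simp only [Function.iterate_succ_apply', G]
    have h0 : Differentiable ℂ (fun z : ℂ => z / K) := differentiable_id.div_const K
    have h1 := i1.add (h0.mul (i2.pow 2))
    exact ⟨h1, i2.add (h0.mul (h1.pow 2))⟩

lemma minmod (f : ℂ → ℂ) (hf : Differentiable ℂ f) (c : ℂ) (r m : ℝ) (hr : 0 < r)
    (h0 : ‖f c‖ < m) (h1 : ∀ z ∈ Metric.sphere c r, m ≤ ‖f z‖) :
    ∃ z ∈ Metric.closedBall c r, f z = 0 := by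
  by_contra hc
  push Not at hc
  have hm : 0 < m := (norm_nonneg _).trans_lt h0
  have hd : DiffContOnCl ℂ (fun z => (f z)⁻¹) (Metric.ball c r) := by
    refine DifferentiableOn.diffContOnCl ?_
    rw [closure_ball c hr.ne']
    exact hf.differentiableOn.inv hc
  have := Complex.norm_le_of_forall_mem_frontier_norm_le (C := m⁻¹) (z := c)
    Metric.isBounded_ball hd (fun z hz => by
      rw [frontier_ball c hr.ne'] at hz
      rw [norm_inv]
      exact inv_anti₀ hm (h1 z hz)) (subset_closure (Metric.mem_ball_self hr))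
  rw [norm_inv, inv_le_inv₀ (norm_pos_iff.2 (hc c (Metric.mem_closedBall_self hr.le))) hm] at this
  linarith

end Pool.Agent.H68.Hn
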