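import Pool.Agent.H68.Hn3

set_option autoImplicit false

namespace Pool.Agent.H68.Hn

lemma exsym (w : ℂ) (hw : w ^ 3 = 1) (hw1 : w ≠ 1) : ∃ B : ℝ, 0 ≤ B ∧ ∀ K0 : ℝ, ∃ K : ℕ,
    K0 < K ∧ 0 < K ∧ ∃ z c : ℂ, z ≠ 0 ∧ ‖z‖ ≤ 2 ∧ c ≠ 0 ∧
      (∀ k ≤ K, ‖(G (z / K))^[k] (c, -c)‖ ≤ B) ∧
      ((G (z / K))^[K] (c, -c)).2 + w * ((G (z / K))^[K] (c, -c)).1 = 0 := by
  obtain ⟨s, s1, s2, s3, s4⟩ := zero
  have hn : ‖w‖ = 1 := Complex.norm_eq_one_of_pow_eq_one hw (by norm_num)
  have hs : ‖(s : ℂ)‖ < 1 := nx s s1 (by linarith)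
  have hs0 : (s : ℂ) ≠ 0 := by exact_mod_cast s2.ne
  generalize (s : ℂ) = t at *
  obtain ⟨B, C, hB, hC, hap⟩ := approx ((1 + ‖t‖) / 2) (by linarith)
  refine ⟨B, hB, fun K0 => ?_⟩
  set z0 := w * t - t with hz0
  have ez : t + z0 = w * t := by rw [hz0]; ring
  have hz00 : 0 < ‖z0‖ := by
    rw [norm_pos_iff, hz0, ← sub_one_mul]
    exact mul_ne_zero (sub_ne_zero.2 hw1) hs0
  have hwt : ‖w * t‖ = ‖t‖ := by rw [norm_mul, hn, one_mul]
  let g : ℂ → ℂ := fun z => S b (t + z) + w * S a (t + z)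
  have dg : ∀ z, ‖t + z‖ < 1 → HasDerivAt g (S a (t + z) ^ 2 + w * S b (t + z) ^ 2) z :=
    fun z hz => ((dV _ hz).comp_const_add t z).add (((dU _ hz).comp_const_add t z).const_mul w)
  have g0 : g z0 = 0 := by
    simp only [g]; rw [ez, symU w hw, symV w hw, s3]; ring
  have hne : S a (t + z0) ^ 2 + w * S b (t + z0) ^ 2 ≠ 0 := by
    rw [ez, symU w hw, symV w hw, s3]
    have : S a t ^ 2 + w * (w * -S a t) ^ 2 = 2 * S a t ^ 2 := by
      linear_combination (S a t ^ 2) * hw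
    rw [this]; exact mul_ne_zero two_ne_zero (pow_ne_zero 2 s4)
  have hev := (dg z0 (by rw [ez, hwt]; exact hs)).eventually_ne (c := 0) hne
  rw [eventually_nhdsWithin_iff, Metric.eventually_nhds_iff] at hev
  obtain ⟨e, he, hev⟩ := hev
  set r := min (e / 2) (min ((1 - ‖t‖) / 2) (‖z0‖ / 2)) with hr
  have r0 : 0 < r := lt_min (by linarith) (lt_min (by linarith) (by linarith))
  have r1 : r ≤ e / 2 := min_le_left _ _
  have r2 : r ≤ (1 - ‖t‖) / 2 := (min_le_right _ _).trans (min_le_left _ _)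
  have r3 : r ≤ ‖z0‖ / 2 := (min_le_right _ _).trans (min_le_right _ _)
  have hin : ∀ z ∈ Metric.closedBall z0 r, ‖t + z‖ ≤ (1 + ‖t‖) / 2 := fun z hz => by
    have h1 := mem_closedBall_iff_norm.1 hz
    have h2 := norm_add_le (t + z0) (z - z0)
    rw [show t + z0 + (z - z0) = t + z by ring, ez, hwt] at h2
    linarith
  have hcont : ContinuousOn (fun z => ‖g z‖) (Metric.sphere z0 r) := fun z hz =>
    (dg z ((hin z (Metric.sphere_subset_closedBall hz)).trans_lt
      (by linarith))).continuousAt.norm.continuousWithinAt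
  obtain ⟨z1, hz1, hmin⟩ := (isCompact_sphere z0 r).exists_isMinOn
    (NormedSpace.sphere_nonempty.2 r0.le) hcont
  set m := ‖g z1‖ with hm
  have m0 : 0 < m := by
    have h1 : dist z1 z0 = r := hz1
    refine norm_pos_iff.2 (hev (by linarith) ?_)
    rintro rfl
    rw [dist_self] at h1; linarith
  obtain ⟨K, hK⟩ := exists_nat_gt (|K0| + C + 4 * C / m)
  have q0 : 0 ≤ 4 * C / m := by positivity
  have q1 := abs_nonneg K0
  have hK' : (0 : ℝ) < K := by linarith
  have hK0 : 0 < K := by exact_mod_cast hK'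
  have c1 : C / K ≤ 1 := by rw [div_le_one hK']; linarith
  have c2 : 2 * (C / K) < m / 2 := by
    have : 4 * C / m < K := by linarith
    rw [div_lt_iff₀ m0] at this
    rw [← mul_div_assoc, div_lt_iff₀ hK']; linarith
  have ht : ‖t‖ ≤ (1 + ‖t‖) / 2 := by linarith
  let f : ℂ → ℂ := fun z => ((G (z / K))^[K] (S a t, S b t)).2
    + w * ((G (z / K))^[K] (S a t, S b t)).1
  have hfg : ∀ z ∈ Metric.closedBall z0 r, ‖f z - g z‖ < m / 2 := fun z hz => by
    obtain ⟨-, k1, k2⟩ := hap t z ht (hin z hz) K hK0 c1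
    have : f z - g z = (((G (z / K))^[K] (S a t, S b t)).2 - S b (t + z))
        + w * (((G (z / K))^[K] (S a t, S b t)).1 - S a (t + z)) := by simp only [f, g]; ring
    rw [this]
    refine (norm_add_le _ _).trans_lt ?_
    rw [norm_mul, hn]; linarith
  obtain ⟨z, hz, hf⟩ := minmod f ((diffG K _ K).2.add ((diffG K _ K).1.const_mul w)) z0 r (m / 2) r0
    (by simpa [g0] using hfg z0 (Metric.mem_closedBall_self r0.le))
    (fun z hz => by
      have h1 := hfg z (Metric.sphere_subset_closedBall hz)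
      have h2 : m ≤ ‖g z‖ := hmin hz
      have h3 := norm_sub_norm_le (g z) (f z)
      rw [norm_sub_rev] at h1
      linarith)
  refine ⟨K, by linarith [le_abs_self K0], hK0, z, S a t, ?_, ?_, s4, ?_, ?_⟩
  · rintro rfl
    have := mem_closedBall_iff_norm.1 hz
    rw [zero_sub, norm_neg] at this; linarith
  · have h1 := hin z hz
    have := norm_sub_le (t + z) t
    rw [add_sub_cancel_left] at this; linarith
  · rw [← s3]; exact (hap t z ht (hin z hz) K hK0 c1).1
  · rw [← s3]; exact hf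

/-- second iterate of the map -/
def T (q : ℂ × ℂ) : ℂ × ℂ := (q.1 + q.2 ^ 2, q.2 + (q.1 + q.2 ^ 2) ^ 2)
def J (q : ℂ × ℂ) : ℂ × ℂ := (-q.2, -q.1)
def R (w : ℂ) (q : ℂ × ℂ) : ℂ × ℂ := (w ^ 2 * q.1, w * q.2)

lemma TG (h : ℂ) (q : ℂ × ℂ) (k : ℕ) : T^[k] (h • q) = h • (G h)^[k] q := by
  induction k with
  | zero => rfl
  | succ k ih =>
    rw [Function.iterate_succ_apply', Function.iterate_succ_apply', ih]
    ext <;> simp [T, G] <;> ring

lemma TJT (k : ℕ) (q : ℂ × ℂ) : T^[k] (J (T^[k] q)) = J q := by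
  induction k generalizing q with
  | zero => rfl
  | succ k ih =>
    rw [Function.iterate_succ_apply T k q, Function.iterate_succ_apply', ih]
    ext <;> simp only [T, J] <;> ring

lemma TR (w : ℂ) (hw : w ^ 3 = 1) (k : ℕ) (q : ℂ × ℂ) : T^[k] (R w q) = R w (T^[k] q) := by
  refine (Function.Commute.iterate_left (f := T) (g := R w) (fun q => ?_) k) q
  ext
  · simp only [T, R]; ring
  · simp only [T, R]
    linear_combination (w * (q.1 + q.2 ^ 2) ^ 2) * hw

lemma nR (w : ℂ) (hw : w ^ 3 = 1) (q : ℂ × ℂ) : ‖R w q‖ = ‖q‖ := by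
  have hn : ‖w‖ = 1 := Complex.norm_eq_one_of_pow_eq_one hw (by norm_num)
  simp [R, Prod.norm_def, hn]

lemma nJ (q : ℂ × ℂ) : ‖J q‖ = ‖q‖ := by simp [J, Prod.norm_def, max_comm]

lemma cyc (w : ℂ) (hw : w ^ 3 = 1) (p : ℂ × ℂ) (K : ℕ) (hK : 0 < K) (e : ℝ) (hp : J p = p)
    (hq : R w (J (T^[K] p)) = T^[K] p) (hb : ∀ k ≤ K, ‖T^[k] p‖ ≤ e) :
    T^[6 * K] p = p ∧ ∀ k, ‖T^[k] p‖ ≤ e := by
  have h1 : ∀ j ≤ K, T^[j + K] p = R w (J (T^[K - j] p)) := fun j hj => by
    rw [Function.iterate_add_apply, ← hq, TR w hw]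
    conv_lhs => rw [show K = j + (K - j) by omega, Function.iterate_add_apply, TJT]
  have h2 : T^[K + K] p = R w p := by rw [h1 K le_rfl, Nat.sub_self]; simp [hp]
  constructor
  · rw [show 6 * K = (K + K) + ((K + K) + (K + K)) by ring, Function.iterate_add_apply,
      Function.iterate_add_apply T (K + K) (K + K), h2, TR w hw, h2, TR w hw, TR w hw, h2]
    ext
    · simp only [R]; linear_combination (p.1 * (w ^ 3 + 1)) * hw
    · simp only [R]; linear_combination p.2 * hw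
  · intro k
    induction k using Nat.strong_induction_on with
    | _ k ih =>
      rcases le_or_gt k K with h | h
      · exact hb k h
      rcases le_or_gt k (K + K) with h' | h'
      · rw [show k = (k - K) + K by omega, h1 _ (by omega), nR w hw, nJ]
        exact hb _ (by omega)
      · rw [show k = (k - (K + K)) + (K + K) by omega, Function.iterate_add_apply, h2, TR w hw,
          nR w hw]
        exact ih _ (by omega)

lemma main (e : ℝ) (he : 0 < e) : ∃ p : ℂ × ℂ, ∃ n, 0 < n ∧ p ≠ 0 ∧ T^[n] p = p ∧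
    ∀ k, ‖T^[k] p‖ ≤ e := by
  have hpr := Complex.isPrimitiveRoot_exp 3 (by norm_num)
  have hw := hpr.pow_eq_one
  have hw1 := hpr.ne_one (by norm_num)
  generalize Complex.exp _ = w at *
  obtain ⟨B, hB, h⟩ := exsym w hw hw1
  obtain ⟨K, k1, k2, z, c, z0, z2, c0, hb, hf⟩ := h (2 * B / e)
  have hK' : (0 : ℝ) < K := by exact_mod_cast k2
  have hKc : (K : ℂ) ≠ 0 := by exact_mod_cast k2.ne'
  have := cyc w hw ((z / K) • (c, -c)) K k2 e (by ext <;> simp [J]) (by
      rw [TG]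
      generalize (G (z / K))^[K] (c, -c) = q at *
      ext
      · simp only [R, J, Prod.smul_fst, Prod.smul_snd, smul_eq_mul]
        linear_combination (-w ^ 2 * (z / K)) * hf + (z / K * q.1) * hw
      · simp only [R, J, Prod.smul_fst, Prod.smul_snd, smul_eq_mul]
        linear_combination (-(z / K)) * hf)
    (fun k hk => by
      rw [TG, norm_smul, norm_div, Complex.norm_natCast]
      rw [div_lt_iff₀ he] at k1
      calc _ ≤ 2 / K * B := by gcongr; exact hb k hk
        _ ≤ e := by rw [div_mul_eq_mul_div, div_le_iff₀ hK']; linarith)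
  refine ⟨_, 6 * K, by omega, ?_, this.1, this.2⟩
  intro h0
  have h1 := congrArg Prod.fst h0
  simp [z0, c0, hKc] at h1

end Pool.Agent.H68.Hn
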