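import Mathlib

set_option autoImplicit false

namespace Pool.Agent.H68.Hn

open Complex Metric Set

lemma mkE (K : Type) [NontriviallyNormedField K] [CompleteSpace K] [NormedSpace K (ℂ × ℂ)]
    [FiniteDimensional K (ℂ × ℂ)] (D : (ℂ × ℂ) →L[K] (ℂ × ℂ)) (h : ∀ v, D v = 0 → v = 0) :
    ∃ e : (ℂ × ℂ) ≃L[K] (ℂ × ℂ), (e : (ℂ × ℂ) →L[K] (ℂ × ℂ)) = D :=
  ⟨(LinearEquiv.ofInjectiveEndo (D : (ℂ × ℂ) →ₗ[K] (ℂ × ℂ))
    ((injective_iff_map_eq_zero _).2 h)).toContinuousLinearEquiv, by ext <;> rfl⟩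

lemma oneD0 (f d : ℝ → ℝ) (p q : ℝ) (hpq : p < q) (hd : ∀ x ∈ Icc p q, HasDerivAt f (d x) x)
    (hp : f p = 0) (hq : f q = 0) (hz : ∀ x ∈ Icc p q, f x = 0 → d x ≠ 0) :
    ∃ x ∈ Icc p q, f x = 0 ∧ d x < 0 := by
  by_contra hc
  push Not at hc
  have pos : ∀ x ∈ Icc p q, f x = 0 → 0 < d x := fun x hx h =>
    lt_of_le_of_ne (hc x hx h) (hz x hx h).symm
  have sl : ∀ x ∈ Icc p q, f x = 0 → ∀ᶠ y in nhdsWithin x {x}ᶜ, 0 < f y / (y - x) := fun x hx h => by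
    have := (hasDerivAt_iff_tendsto_slope.1 (hd x hx)).eventually (lt_mem_nhds (pos x hx h))
    filter_upwards [this] with y hy
    rwa [slope_def_field, h, sub_zero] at hy
  have hcont : ContinuousOn f (Icc p q) := fun x hx => (hd x hx).continuousAt.continuousWithinAt
  obtain ⟨p', h1, h2⟩ : ∃ p', 0 < f p' / (p' - p) ∧ p' ∈ Ioo p q :=
    (((sl p ⟨le_rfl, hpq.le⟩ hp).filter_mono (nhdsGT_le_nhdsNE p)).and (Ioo_mem_nhdsGT hpq)).exists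
  have fp : 0 < f p' := (div_pos_iff_of_pos_right (sub_pos.2 h2.1)).1 h1
  have sub : Icc p' q ⊆ Icc p q := Icc_subset_Icc_left h2.1.le
  have hK : IsCompact (Icc p' q ∩ f ⁻¹' {0}) := isCompact_Icc.of_isClosed_subset
    ((hcont.mono sub).preimage_isClosed_of_isClosed isClosed_Icc isClosed_singleton)
    inter_subset_left
  obtain ⟨s, ⟨hs, fs⟩, hmin⟩ := hK.exists_isLeast ⟨q, ⟨h2.2.le, le_rfl⟩, hq⟩
  have fs' : f s = 0 := fs
  have hps : p' < s := lt_of_le_of_ne hs.1 (by rintro rfl; linarith)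
  obtain ⟨y, h3, h4⟩ : ∃ y, 0 < f y / (y - s) ∧ y ∈ Ioo p' s :=
    (((sl s (sub hs) fs').filter_mono (nhdsLT_le_nhdsNE s)).and (Ioo_mem_nhdsLT hps)).exists
  have fy : f y < 0 := by
    by_contra h
    push Not at h
    have := div_nonpos_of_nonneg_of_nonpos h (sub_neg.2 h4.2).le
    linarith
  have sub2 : Icc p' y ⊆ Icc p' q := Icc_subset_Icc_right (h4.2.le.trans hs.2)
  obtain ⟨t, ht, ft⟩ := intermediate_value_Icc' h4.1.le (hcont.mono (sub2.trans sub))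
    (show (0 : ℝ) ∈ _ from ⟨fy.le, fp.le⟩)
  have := hmin ⟨sub2 ht, ft⟩
  linarith [ht.2, h4.2]

lemma oneD (f d : ℝ → ℝ) (p q : ℝ) (hpq : p < q) (hd : ∀ x ∈ Icc p q, HasDerivAt f (d x) x)
    (hp : f p = 0) (hq : f q = 0) (hz : ∀ x ∈ Icc p q, f x = 0 → d x ≠ 0) :
    (∃ x ∈ Icc p q, f x = 0 ∧ d x < 0) ∧ ∃ x ∈ Icc p q, f x = 0 ∧ 0 < d x := by
  refine ⟨oneD0 f d p q hpq hd hp hq hz, ?_⟩
  obtain ⟨x, hx, h1, h2⟩ := oneD0 (fun x => -f x) (fun x => -d x) p q hpq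
    (fun x hx => (hd x hx).neg) (by simp [hp]) (by simp [hq])
    (fun x hx h => neg_ne_zero.2 (hz x hx (neg_eq_zero.1 h)))
  exact ⟨x, hx, neg_eq_zero.1 h1, neg_neg_iff_pos.1 h2⟩

noncomputable def cc : (ℂ × ℂ) →L[ℝ] (ℂ × ℂ) :=
  (conjCLE : ℂ →L[ℝ] ℂ).prodMap (conjCLE : ℂ →L[ℝ] ℂ)

lemma cc_apply (x : ℂ × ℂ) : cc x = ((starRingEnd ℂ) x.1, (starRingEnd ℂ) x.2) := rfl

noncomputable def Lam : (ℂ × ℂ) →L[ℝ] (ℂ × ℂ) := LinearMap.toContinuousLinearMap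
  { toFun := fun w => (⟨0, w.1.im / 2 - w.2.im / 4⟩, ⟨w.1.re, w.2.im / 2⟩)
    map_add' := fun x y => by ext <;> apply Complex.ext <;> simp <;> ring
    map_smul' := fun c x => by ext <;> apply Complex.ext <;> simp <;> ring }

lemma Lam_apply (w : ℂ × ℂ) :
    Lam w = (⟨0, w.1.im / 2 - w.2.im / 4⟩, ⟨w.1.re, w.2.im / 2⟩) := rfl

lemma Lam_norm (w : ℂ × ℂ) : ‖Lam w‖ ≤ 2 * ‖w‖ := by
  have h1 := abs_le.1 ((abs_im_le_norm w.1).trans (norm_fst_le w))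
  have h2 := abs_le.1 ((abs_im_le_norm w.2).trans (norm_snd_le w))
  have h3 := abs_le.1 ((abs_re_le_norm w.1).trans (norm_fst_le w))
  rw [Lam_apply, Prod.norm_def, max_le_iff]
  constructor <;> refine (norm_le_abs_re_add_abs_im _).trans ?_
  · simp only [abs_zero, zero_add]; rw [abs_le]; constructor <;> linarith
  · have : |w.1.re| ≤ ‖w‖ := abs_le.2 h3
    have : |w.2.im / 2| ≤ ‖w‖ := by rw [abs_le]; constructor <;> linarith
    simp only; linarith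

lemma keyEq (x W : ℂ × ℂ) (t k : ℝ) (h : x - (0, (k : ℂ)) + Lam W = ((t : ℂ), 0)) :
    x.1.re = t ∧ cc ((x.1 + x.2 - k, x.2) + W) = x + (0, (W.2.re : ℂ)) := by
  simp only [Lam_apply, Prod.ext_iff, Complex.ext_iff, cc_apply] at h ⊢
  simp at h ⊢
  obtain ⟨⟨h1, h2⟩, h3, h4⟩ := h
  refine ⟨h1, ⟨?_, ?_⟩, ?_⟩ <;> linarith

lemma keyEq' (x W : ℂ × ℂ) (l k : ℝ) (h : cc ((x.1 + x.2 - k, x.2) + W) = x + (0, (l : ℂ))) :
    x - (0, (k : ℂ)) + Lam W = ((x.1.re : ℂ), 0) := by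
  simp only [Lam_apply, Prod.ext_iff, Complex.ext_iff, cc_apply] at h ⊢
  simp at h ⊢
  obtain ⟨⟨h1, h2⟩, h3, h4⟩ := h
  refine ⟨?_, ?_, ?_⟩ <;> linarith

/-- sign of the reduced derivative against the trace -/
lemma alg : ∃ e : ℝ, 0 < e ∧ ∀ A N : (ℂ × ℂ) →L[ℂ] (ℂ × ℂ), ‖A (1, 0) - (1, 0)‖ < e →
    ‖A (0, 1) - (1, 1)‖ < e → (∀ v, N v = cc (A (cc (A v)))) →
    (N (1, 0)).1 * (N (0, 1)).2 - (N (1, 0)).2 * (N (0, 1)).1 = 1 →
    ∀ (v : ℂ × ℂ) (d : ℝ), v.1.re = 1 → cc (A v) = v + (0, (d : ℂ)) →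
    ∃ t m : ℝ, (N (1, 0)).1 + (N (0, 1)).2 = t ∧ -2 < t ∧ m < 0 ∧ 2 - t = d * m := by
  let c := starRingEnd ℂ
  let m : (ℂ × ℂ) × (ℂ × ℂ) → ℝ := fun y => (c y.1.2 * y.2.1 * c y.2.1 - c y.2.1 - c y.1.1 * y.2.1
    - c y.2.1 * y.2.2 - c y.1.1 * y.2.1 * c y.2.2).re
  let t : (ℂ × ℂ) × (ℂ × ℂ) → ℝ := fun y => (c y.1.1 * y.1.1 + c y.2.1 * y.1.2 + c y.1.2 * y.2.1
    + c y.2.2 * y.2.2).re
  have cm : Continuous m := by simp only [m, c]; fun_prop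
  have ct : Continuous t := by simp only [t, c]; fun_prop
  have h1 : ∀ᶠ y in nhds (((1 : ℂ), (0 : ℂ)), ((1 : ℂ), (1 : ℂ))), m y < 0 :=
    cm.continuousAt.eventually_lt continuousAt_const (by simp [m, c]; norm_num)
  have h2 : ∀ᶠ y in nhds (((1 : ℂ), (0 : ℂ)), ((1 : ℂ), (1 : ℂ))), -2 < t y :=
    continuousAt_const.eventually_lt ct.continuousAt (by simp [t, c]; norm_num)
  obtain ⟨e, he, h⟩ := Metric.eventually_nhds_iff.1 (h1.and h2)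
  refine ⟨e, he, fun A N a1 a2 hN hdet v d hv hA => ?_⟩
  obtain ⟨m1, t1⟩ := @h (A (1, 0), A (0, 1)) (by
    rw [Prod.dist_eq, max_lt_iff, dist_eq_norm, dist_eq_norm]; exact ⟨a1, a2⟩)
  have lin : ∀ u : ℂ × ℂ, A u = (u.1 * (A (1, 0)).1 + u.2 * (A (0, 1)).1,
      u.1 * (A (1, 0)).2 + u.2 * (A (0, 1)).2) := fun u => by
    have : u = u.1 • ((1 : ℂ), (0 : ℂ)) + u.2 • ((0 : ℂ), (1 : ℂ)) := by ext <;> simp
    conv_lhs => rw [this, map_add, map_smul, map_smul]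
    ext <;> simp
  have n1 := hN (1, 0)
  have n2 := hN (0, 1)
  rw [lin (cc _)] at n1 n2
  rw [lin v] at hA
  generalize A (1, 0) = P at *
  generalize A (0, 1) = Q at *
  obtain ⟨α, γ⟩ := P
  obtain ⟨β, δ⟩ := Q
  obtain ⟨a, b⟩ := v
  rw [n1, n2] at hdet ⊢
  simp only [cc_apply, map_add, map_mul, conj_conj, Prod.mk_add_mk, Prod.mk.injEq, add_zero] at *
  obtain ⟨e1, e2⟩ := hA
  have e3 := congrArg c e1
  have e4 := congrArg c e2
  simp only [c, map_add, map_mul, conj_conj, conj_ofReal] at e3 e4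
  have tr : c α * α + c β * γ + c γ * β + c δ * δ = (t ((α, γ), (β, δ)) : ℂ) := by
    symm; apply conj_eq_iff_re.1
    simp only [c, map_add, map_mul, conj_conj]; ring
  refine ⟨_, _, by rw [← tr]; simp only [c]; ring, t1, m1, ?_⟩
  have key : (2 - (t ((α, γ), (β, δ)) : ℂ)) * a = d * (c γ * β * c β - c β - c α * β
      - c β * δ - c α * β * c δ) := by
    rw [← tr]
    simp only [c]
    generalize (starRingEnd ℂ) α = α' at *
    generalize (starRingEnd ℂ) β = β' at *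
    generalize (starRingEnd ℂ) γ = γ' at *
    generalize (starRingEnd ℂ) δ = δ' at *
    generalize (starRingEnd ℂ) a = a' at *
    generalize (starRingEnd ℂ) b = b' at *
    linear_combination (γ' * β + δ' * δ - 1) * (e1 + α' * e3 + β' * e4)
      - (α' * β + β' * δ) * (e2 + γ' * e3 + δ' * e4) - a * hdet
  have := congrArg Complex.re key
  rw [re_ofReal_mul, show (2 - (t ((α, γ), (β, δ)) : ℂ)) = ((2 - t ((α, γ), (β, δ)) : ℝ) : ℂ) by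
    push_cast; ring, re_ofReal_mul, hv, mul_one] at this
  exact this

end Pool.Agent.H68.Hn
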