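import Pool.Agent.H68.Hn5

set_option autoImplicit false

namespace Pool.Agent.H68.Hn

open Complex Metric Set

noncomputable def tr (N : (ℂ × ℂ) →L[ℂ] (ℂ × ℂ)) : ℂ := (N (1, 0)).1 + (N (0, 1)).2
noncomputable def dt (N : (ℂ × ℂ) →L[ℂ] (ℂ × ℂ)) : ℂ :=
  (N (1, 0)).1 * (N (0, 1)).2 - (N (1, 0)).2 * (N (0, 1)).1

noncomputable def L1 : (ℂ × ℂ) →L[ℂ] (ℂ × ℂ) :=
  (ContinuousLinearMap.fst ℂ ℂ ℂ + ContinuousLinearMap.snd ℂ ℂ ℂ).prod (ContinuousLinearMap.snd ℂ ℂ ℂ)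

lemma L1_apply (v : ℂ × ℂ) : L1 v = (v.1 + v.2, v.2) := rfl

lemma curve (r e : ℝ) (hr : 0 < r) (he : e ≤ 1 / 100) (w : ℂ × ℂ → ℂ × ℂ)
    (D : ℂ × ℂ → (ℂ × ℂ) →L[ℂ] (ℂ × ℂ)) (hD : ∀ x, HasFDerivAt w (D x) x)
    (hw : ∀ x ∈ ball ((0, 1) : ℂ × ℂ) r, ‖w x‖ ≤ e * r)
    (hb : ∀ x ∈ ball ((0, 1) : ℂ × ℂ) r, ‖D x‖ ≤ 2 * e) :
    ∃ X X' : ℝ → ℂ × ℂ, (∀ t, |t| ≤ r / 4 → X t ∈ ball ((0, 1) : ℂ × ℂ) r ∧
      X t - (0, 1) + Lam (w (X t)) = ((t : ℂ), 0) ∧ HasDerivAt X (X' t) t ∧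
      X' t + Lam (D (X t) (X' t)) = (1, 0)) ∧
      ∀ t : ℝ, ∀ y ∈ ball ((0, 1) : ℂ × ℂ) r, y - (0, 1) + Lam (w y) = ((t : ℂ), 0) → X t = y := by
  let P : ℂ × ℂ → ℂ × ℂ := fun x => x - (0, 1) + Lam (w x)
  let P' : ℂ × ℂ → (ℂ × ℂ) →L[ℝ] (ℂ × ℂ) := fun x =>
    ContinuousLinearMap.id ℝ _ + Lam.comp ((D x).restrictScalars ℝ)
  have dP : ∀ x, HasFDerivAt P (P' x) x := fun x =>
    ((hasFDerivAt_id x).sub_const _).add
      (Lam.hasFDerivAt.comp x ((hD x).restrictScalars ℝ))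
  have sm : ∀ x ∈ ball ((0, 1) : ℂ × ℂ) r, ∀ v, ‖Lam (D x v)‖ ≤ 1 / 2 * ‖v‖ := fun x hx v => by
    have h1 := Lam_norm (D x v)
    have h2 := (D x).le_opNorm v
    have h3 := hb x hx
    have h4 := norm_nonneg v
    nlinarith
  have ap : ApproximatesLinearOn P ((ContinuousLinearEquiv.refl ℝ (ℂ × ℂ) :
      (ℂ × ℂ) ≃L[ℝ] (ℂ × ℂ)) : (ℂ × ℂ) →L[ℝ] (ℂ × ℂ)) (ball (0, 1) r) (1 / 2) := by
    intro x hx y hy
    have := Convex.norm_image_sub_le_of_norm_hasFDerivWithin_le' (C := 1 / 2)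
      (φ := ContinuousLinearMap.id ℝ _) (fun z _ => (dP z).hasFDerivWithinAt)
      (fun z hz => ContinuousLinearMap.opNorm_le_bound _ (by norm_num) fun v => by
        simpa [P'] using sm z hz v) (convex_ball _ _) hy hx
    simpa using this
  have hN : ‖((ContinuousLinearEquiv.refl ℝ (ℂ × ℂ)).symm : (ℂ × ℂ) →L[ℝ] (ℂ × ℂ))‖₊ = 1 := by
    simp
  have hc : Subsingleton (ℂ × ℂ) ∨ (1 / 2 : NNReal) <
      ‖((ContinuousLinearEquiv.refl ℝ (ℂ × ℂ)).symm : (ℂ × ℂ) →L[ℝ] (ℂ × ℂ))‖₊⁻¹ :=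
    Or.inr (by rw [hN]; norm_num)
  let E := ap.toOpenPartialHomeomorph P _ hc isOpen_ball
  have tg : ∀ t : ℝ, |t| ≤ r / 4 → ((t : ℂ), (0 : ℂ)) ∈ E.target := fun t ht => by
    apply ap.closedBall_subset_target hc isOpen_ball (b := (0, 1)) (ε := 3 / 4 * r) (by positivity)
      (closedBall_subset_ball (by linarith))
    rw [hN, mem_closedBall_iff_norm]
    have h1 := Lam_norm (w (0, 1))
    have h2 := hw (0, 1) (mem_ball_self hr)
    have h3 : ‖((t : ℂ), (0 : ℂ))‖ = |t| := by simp [Prod.norm_def]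
    have h4 := norm_sub_le ((t : ℂ), (0 : ℂ)) (Lam (w (0, 1)))
    simp only [P, sub_self, zero_add]
    push_cast
    nlinarith
  have eq : ∀ x, x ∈ ball ((0, 1) : ℂ × ℂ) r → ∃ e : (ℂ × ℂ) ≃L[ℝ] (ℂ × ℂ),
      (e : (ℂ × ℂ) →L[ℝ] (ℂ × ℂ)) = P' x := fun x hx => mkE ℝ _ fun v hv => by
    have h1 := sm x hx v
    have h2 : Lam (D x v) = -v := by
      rw [eq_neg_iff_add_eq_zero, add_comm]; exact hv
    rw [h2, norm_neg] at h1
    exact norm_le_zero_iff.1 (by linarith)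
  choose! Q hQ using eq
  refine ⟨fun t => E.symm ((t : ℂ), 0), fun t => (Q (E.symm ((t : ℂ), 0))).symm (1, 0),
    fun t ht => ?_, fun t y hy h => ?_⟩
  · have h1 : E.symm ((t : ℂ), 0) ∈ ball ((0, 1) : ℂ × ℂ) r := E.map_target (tg t ht)
    refine ⟨h1, E.right_inv (tg t ht), ?_, ?_⟩
    · have h2 := E.hasFDerivAt_symm (f' := Q (E.symm ((t : ℂ), 0))) (tg t ht)
        (by rw [hQ _ h1]; exact dP _)
      have h3 : HasDerivAt (fun t : ℝ => (((t : ℂ), (0 : ℂ)) : ℂ × ℂ)) (1, 0) t :=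
        (ofRealCLM.hasDerivAt).prodMk (hasDerivAt_const t 0)
      exact h2.comp_hasDerivAt t h3
    · have h2 := (Q (E.symm ((t : ℂ), 0))).apply_symm_apply (1, 0)
      rw [← ContinuousLinearEquiv.coe_coe, hQ _ h1] at h2
      exact h2
  · show E.symm ((t : ℂ), 0) = y
    rw [← h]; exact E.left_inv hy

lemma LS : ∃ e : ℝ, 0 < e ∧ ∀ (r : ℝ) (_ : 0 < r) (g F T : ℂ × ℂ → ℂ × ℂ)
    (_ : Differentiable ℂ g) (_ : Differentiable ℂ F) (_ : ∀ x, F x = cc (g (cc (g x)))),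
    (∀ x ∈ ball ((0, 1) : ℂ × ℂ) (2 * r), ‖g x - (x.1 + x.2 - 1, x.2)‖ ≤ e * r) →
    (∀ x, cc (g (-(cc (g x)).1, (cc (g x)).2)) = (-x.1, x.2)) →
    (∀ x ∈ ball ((0, 1) : ℂ × ℂ) r, cc (g x) = x →
      cc (g (T x)) = T x ∧ T x ≠ x ∧ ‖T x - x‖ ≤ e * r) →
    (∀ x, dt (fderiv ℂ F x) = 1) → (∀ x, cc (g x) = x → ∀ v, fderiv ℂ F x v = v → v = 0) →
    (∃ x ∈ ball ((0, 1) : ℂ × ℂ) r, cc (g x) = x ∧
      ∃ t : ℝ, tr (fderiv ℂ F x) = t ∧ -2 < t ∧ t < 2) ∧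
    ∃ x ∈ ball ((0, 1) : ℂ × ℂ) r, cc (g x) = x ∧ ∃ t : ℝ, tr (fderiv ℂ F x) = t ∧ 2 < t := by
  obtain ⟨e0, he0, hal⟩ := alg
  refine ⟨min (e0 / 4) (1 / 100), by positivity, fun r hr g F T hg hF hFg hw hJ hT hdt hnd => ?_⟩
  have m1 := min_le_left (e0 / 4) (1 / 100)
  have m2 := min_le_right (e0 / 4) (1 / 100)
  have m0 : 0 < min (e0 / 4) (1 / 100) := by positivity
  generalize min (e0 / 4) (1 / 100) = e at *
  let w : ℂ × ℂ → ℂ × ℂ := fun x => g x - (x.1 + x.2 - 1, x.2)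
  have gw : ∀ x, g x = (x.1 + x.2 - ((1 : ℝ) : ℂ), x.2) + w x := fun x => by simp [w]
  have hD : ∀ x, HasFDerivAt w (fderiv ℂ g x - L1) x := fun x => by
    have := (hg x).hasFDerivAt.sub ((L1.hasFDerivAt (x := x)).sub_const (1, 0))
    refine this.congr_of_eventuallyEq (Filter.Eventually.of_forall fun y => ?_)
    simp [w, L1_apply]
  have sub : ball ((0, 1) : ℂ × ℂ) r ⊆ ball (0, 1) (2 * r) := ball_subset_ball (by linarith)
  have hb : ∀ x ∈ ball ((0, 1) : ℂ × ℂ) r, ‖fderiv ℂ g x - L1‖ ≤ 2 * e := fun x hx => by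
    have := Complex.norm_fderiv_le_div_of_mapsTo_ball (f := w) (c := x) (R₁ := r) (R₂ := 2 * e * r)
      (fun y _ => (hD y).differentiableAt.differentiableWithinAt) (fun y hy => by
        have h1 := hw x (sub hx)
        have h2 := hw y (by
          rw [mem_ball] at *; linarith [dist_triangle y x (0, 1)])
        rw [mem_closedBall_iff_norm]
        linarith [norm_sub_le (w y) (w x)]) hr
    rwa [(hD x).fderiv, mul_div_assoc, div_self hr.ne', mul_one] at this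
  obtain ⟨X, X', hX, hU⟩ := curve r e hr m2 w _ hD (fun x hx => hw x (sub hx)) hb
  let f : ℝ → ℝ := fun t => (w (X t)).2.re
  let d : ℝ → ℝ := fun t => ((fderiv ℂ g (X t) - L1) (X' t)).2.re
  have k1 : ∀ t, |t| ≤ r / 4 → (X t).1.re = t ∧ cc (g (X t)) = X t + (0, (f t : ℂ)) :=
    fun t ht => by rw [gw]; exact keyEq _ _ t 1 (by simpa using (hX t ht).2.1)
  have k2 : ∀ t, |t| ≤ r / 4 → (X' t).1.re = 1 ∧
      cc (fderiv ℂ g (X t) (X' t)) = X' t + (0, (d t : ℂ)) := fun t ht => by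
    have := keyEq (X' t) ((fderiv ℂ g (X t) - L1) (X' t)) 1 0
      (by rw [ofReal_zero, Prod.mk_zero_zero, sub_zero, ofReal_one]; exact (hX t ht).2.2.2)
    refine ⟨this.1, Eq.trans ?_ this.2⟩
    simp [L1_apply]
  have k3 : ∀ t, |t| ≤ r / 4 → HasDerivAt f (d t) t := fun t ht => by
    have h1 := ((hD (X t)).restrictScalars ℝ).comp_hasDerivAt t (hX t ht).2.2.1
    exact (reCLM.comp (ContinuousLinearMap.snd ℝ ℂ ℂ)).hasFDerivAt.comp_hasDerivAt t h1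
  have k4 : ∀ y ∈ ball ((0, 1) : ℂ × ℂ) r, ∀ l : ℝ, cc (g y) = y + (0, (l : ℂ)) → X y.1.re = y :=
    fun y hy l h => hU _ y hy (by rw [gw] at h; simpa using keyEq' _ _ l 1 h)
  have r0 : |(0 : ℝ)| ≤ r / 4 := by rw [abs_zero]; positivity
  have er : e * r ≤ r / 100 := by nlinarith
  have n0 : ‖X 0 - (0, 1)‖ ≤ 2 * (e * r) := by
    have h1 := (hX 0 r0).2.1
    have h2 : X 0 - (0, 1) = -Lam (w (X 0)) := by
      rw [eq_neg_iff_add_eq_zero, h1]; simp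
    rw [h2, norm_neg]
    linarith [Lam_norm (w (X 0)), hw _ (sub (hX 0 r0).1)]
  have f0 : f 0 = 0 := by
    obtain ⟨h1, h2⟩ := k1 0 r0
    have h3 := hJ (X 0)
    rw [h2] at h3
    have h4 : |f 0| ≤ e * r :=
      ((abs_re_le_norm _).trans (norm_snd_le _)).trans (hw _ (sub (hX 0 r0).1))
    have h5 := norm_fst_le (X 0 - (0, 1))
    have h6 := norm_snd_le (X 0 - (0, 1))
    have := k4 (-(X 0 + (0, (f 0 : ℂ))).1, (X 0 + (0, (f 0 : ℂ))).2) (by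
      rw [mem_ball_iff_norm, Prod.norm_def, max_lt_iff]
      have h7 := norm_add_le ((X 0).2 - 1) (f 0 : ℂ)
      rw [norm_real, Real.norm_eq_abs] at h7
      simp only [Prod.fst_sub, Prod.snd_sub, Prod.fst_add, Prod.snd_add, sub_zero, add_zero,
        norm_neg] at h5 h6 ⊢
      rw [show (X 0).2 + f 0 - 1 = (X 0).2 - 1 + f 0 by ring]
      constructor <;> linarith) (-f 0) (by rw [h3]; ext <;> simp)
    simp only [Prod.fst_add, add_zero, neg_re, h1, neg_zero] at this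
    have h8 := congrArg Prod.snd this
    simpa using h8
  have fx : ∀ t, |t| ≤ r / 4 → f t = 0 → cc (g (X t)) = X t := fun t ht h => by
    rw [(k1 t ht).2, h]; simp
  obtain ⟨t1, t2, t3⟩ := hT _ (hX 0 r0).1 (fx 0 r0 f0)
  have n1 : ‖T (X 0) - (0, 1)‖ ≤ 3 * (e * r) := by
    have := norm_add_le (T (X 0) - X 0) (X 0 - (0, 1))
    rw [sub_add_sub_cancel] at this; linarith
  have y1 := k4 (T (X 0)) (mem_ball_iff_norm.2 (by linarith)) 0 (by rw [t1]; simp)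
  have y2 : |(T (X 0)).1.re| ≤ r / 4 := by
    have := (abs_re_le_norm _).trans (norm_fst_le (T (X 0) - (0, 1)))
    simp only [Prod.fst_sub, sub_zero] at this; linarith
  generalize (T (X 0)).1.re = s at y1 y2
  have s0 : s ≠ 0 := by rintro rfl; exact t2 y1.symm
  have fs : f s = 0 := by
    have h1 := (k1 s y2).2
    rw [y1, t1] at h1
    simpa using congrArg Prod.snd h1
  have hN : ∀ t, |t| ≤ r / 4 → f t = 0 → ∀ v, fderiv ℂ F (X t) v =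
      cc (fderiv ℂ g (X t) (cc (fderiv ℂ g (X t) v))) := fun t ht h v => by
    have h1 := cc.hasFDerivAt.comp (X t) ((hg (X t)).hasFDerivAt.restrictScalars ℝ)
    have h2 := HasFDerivAt.comp (X t) (g := cc ∘ g) (f := cc ∘ g)
      (by rw [Function.comp_apply, fx t ht h]; exact h1) h1
    have h3 := (hF (X t)).hasFDerivAt.restrictScalars ℝ
    rw [show F = (cc ∘ g) ∘ (cc ∘ g) from funext hFg] at h3 ⊢
    exact DFunLike.congr_fun (h3.unique h2) v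
  have hz : ∀ t, |t| ≤ r / 4 → f t = 0 → d t ≠ 0 := fun t ht h h' => by
    have h1 := (k2 t ht).2
    rw [h'] at h1
    simp only [ofReal_zero, Prod.mk_zero_zero, add_zero] at h1
    have h2 := hnd _ (fx t ht h) (X' t) (by rw [hN t ht h, h1, h1])
    have h3 := (k2 t ht).1
    rw [h2] at h3
    simp at h3
  have fin : ∀ t, |t| ≤ r / 4 → f t = 0 → ∃ u m : ℝ, tr (fderiv ℂ F (X t)) = u ∧ -2 < u ∧ m < 0 ∧
      2 - u = d t * m := fun t ht h => by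
    have h1 := hb _ (hX t ht).1
    have h2 := (fderiv ℂ g (X t) - L1).le_opNorm (1, 0)
    have h3 := (fderiv ℂ g (X t) - L1).le_opNorm (0, 1)
    simp [L1_apply, Prod.norm_def ((1 : ℂ), (0 : ℂ)), Prod.norm_def ((0 : ℂ), (1 : ℂ))] at h2 h3
    exact hal _ _ (by linarith) (by linarith) (hN t ht h) (hdt _) _ _ (k2 t ht).1 (k2 t ht).2
  have both : (∃ t, |t| ≤ r / 4 ∧ f t = 0 ∧ d t < 0) ∧ ∃ t, |t| ≤ r / 4 ∧ f t = 0 ∧ 0 < d t := by
    have y3 := abs_le.1 y2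
    rcases lt_or_gt_of_ne s0 with h | h
    · have I : ∀ x ∈ Icc s 0, |x| ≤ r / 4 := fun x hx => abs_le.2 ⟨by linarith [hx.1],
        by linarith [hx.2]⟩
      obtain ⟨⟨a, a1, a2⟩, b, b1, b2⟩ := oneD f d s 0 h (fun x hx => k3 x (I x hx)) fs f0
        (fun x hx => hz x (I x hx))
      exact ⟨⟨a, I a a1, a2⟩, b, I b b1, b2⟩
    · have I : ∀ x ∈ Icc 0 s, |x| ≤ r / 4 := fun x hx => abs_le.2 ⟨by linarith [hx.1],
        by linarith [hx.2]⟩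
      obtain ⟨⟨a, a1, a2⟩, b, b1, b2⟩ := oneD f d 0 s h (fun x hx => k3 x (I x hx)) f0 fs
        (fun x hx => hz x (I x hx))
      exact ⟨⟨a, I a a1, a2⟩, b, I b b1, b2⟩
  obtain ⟨⟨a, a1, a2, a3⟩, b, b1, b2, b3⟩ := both
  obtain ⟨u, m, u1, u2, u3, u4⟩ := fin a a1 a2
  obtain ⟨u', m', v1, v2, v3, v4⟩ := fin b b1 b2
  exact ⟨⟨X a, (hX a a1).1, fx a a1 a2, u, u1, u2, by nlinarith⟩,
    X b, (hX b b1).1, fx b b1 b2, u', v1, by nlinarith⟩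

end Pool.Agent.H68.Hn
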