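import Mathlib

set_option autoImplicit false

namespace Pool.Agent.H68.Hn

/-- The quadratic Henon map `(x, y) ↦ (y, x + y ^ 2)` of `ℂ ^ 2`. -/
def H (q : ℂ × ℂ) : ℂ × ℂ := (q.2, q.1 + q.2 ^ 2)

/-- `μ` is a multiplier of the cycle of `p`: an eigenvalue of the derivative at `p` of the `n`-th
iterate of `H`, where `n` is the minimal period of `p`. -/
def IsMultiplier (p : ℂ × ℂ) (μ : ℂ) : Prop :=
  ∃ v : ℂ × ℂ, v ≠ 0 ∧ fderiv ℂ (H^[Function.minimalPeriod H p]) p v = μ • v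

/-- one multiplier of modulus `< 1` and one of modulus `> 1` -/
def IsSaddle (p : ℂ × ℂ) : Prop :=
  ∃ μ ν : ℂ, IsMultiplier p μ ∧ IsMultiplier p ν ∧ ‖μ‖ < 1 ∧ 1 < ‖ν‖

/-- all multipliers have modulus `1` -/
def IsElliptic (p : ℂ × ℂ) : Prop := ∀ μ : ℂ, IsMultiplier p μ → ‖μ‖ = 1

/-- `p` is periodic and its whole cycle lies in `U` minus the origin -/
def CycleIn (U : Set (ℂ × ℂ)) (p : ℂ × ℂ) : Prop :=
  p ∈ Function.periodicPts H ∧ ∀ k : ℕ, H^[k] p ∈ U ∧ H^[k] p ≠ 0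

end Pool.Agent.H68.Hn
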