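import Pool.Agent.H68.Hn6
import Pool.Agent.H68.HnDefs

set_option autoImplicit false

namespace Pool.Agent.H68.Hn

lemma diffH : Differentiable ℂ H := by unfold H; fun_prop

lemma tanH (n : ℕ) (p v : ℂ × ℂ) : fderiv ℂ (H^[n + 1]) p v = ((fderiv ℂ (H^[n]) p v).2,
    (fderiv ℂ (H^[n]) p v).1 + 2 * (H^[n] p).2 * (fderiv ℂ (H^[n]) p v).2) := by
  have h := (diffH.iterate n p).hasFDerivAt
  have h2 := h.snd.prodMk (h.fst.add (h.snd.pow 2))
  have e : H^[n + 1] = fun x => ((H^[n] x).2, (H^[n] x).1 + (H^[n] x).2 ^ 2) := by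
    funext x; rw [Function.iterate_succ_apply']; rfl
  rw [e]
  erw [h2.fderiv]
  simp

lemma dtH (n : ℕ) (p : ℂ × ℂ) : dt (fderiv ℂ (H^[n]) p) = (-1) ^ n := by
  induction n with
  | zero => simp [dt]
  | succ n ih =>
    simp only [dt] at ih ⊢
    rw [tanH, tanH, pow_succ, ← ih]; ring

lemma exval : ∃ B : ValuationSubring ℂ, B.valuation 2 < 1 := by
  obtain ⟨B, -, h⟩ := Ideal.image_subset_nonunits_valuationSubring (A := (⊥ : Subring ℂ))
    (Ideal.span {2}) (by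
      rw [Ne, Ideal.span_singleton_eq_top, isUnit_iff_exists_inv]
      rintro ⟨⟨a, ha⟩, h⟩
      obtain ⟨n, rfl⟩ := Subring.mem_bot.1 ha
      have h1 : (2 : ℂ) * n = 1 := congrArg Subtype.val h
      have h2 : (2 : ℤ) * n = 1 := by exact_mod_cast h1
      omega)
  exact ⟨B, B.mem_nonunits_iff.1 (h ⟨2, Ideal.subset_span rfl, rfl⟩)⟩

lemma nondeg (p : ℂ × ℂ) (n : ℕ) (hn : 0 < n) (hp : H^[n] p = p) (w : ℂ) (hw : w ^ 3 = 1)
    (hw1 : w ≠ 1) (M : ℕ) (v : ℂ × ℂ) (h1 : w * (fderiv ℂ (H^[2 * M]) p v).1 = v.1)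
    (h2 : w ^ 2 * (fderiv ℂ (H^[2 * M]) p v).2 = v.2) : v = 0 := by
  obtain ⟨B, hB⟩ := exval
  generalize B.valuation = V at hB
  let y : ℕ → ℂ := fun k => (H^[k] p).2
  have ry : ∀ k, y (k + 2) = y k + y (k + 1) ^ 2 := fun k => by
    simp only [y, Function.iterate_succ_apply', H]
  have per : Function.IsPeriodicPt H n p := hp
  obtain ⟨k0, -, hk⟩ := Finset.exists_max_image (Finset.range n) (fun k => V (y k))
    ⟨0, Finset.mem_range.2 hn⟩
  have hk' : ∀ k, V (y k) ≤ V (y k0) := fun k => by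
    have := hk (k % n) (Finset.mem_range.2 (Nat.mod_lt _ hn))
    simpa only [y, per.iterate_mod_apply] using this
  have hy : ∀ k, V (y k) ≤ 1 := fun k => (hk' k).trans (by
    obtain ⟨j, hj⟩ : ∃ j, k0 + n = j + 1 := ⟨k0 + n - 1, by omega⟩
    have e : y (j + 1) = y k0 := by simp only [y]; rw [← hj, Function.iterate_add_apply, hp]
    have e2 : y k0 ^ 2 = y (j + 2) - y j := by rw [ry, e]; ring
    have e3 := V.map_sub_le (hk' (j + 2)) (hk' j)
    rw [← e2, map_pow] at e3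
    by_contra hc
    push Not at hc
    have := lt_mul_of_one_lt_right (zero_lt_one.trans hc) hc
    rw [← pow_two] at this
    exact absurd e3 (not_le.2 this))
  set m := max (V v.1) (V v.2) with hm
  have st : ∀ k (a : ℂ), V a ≤ m → V (2 * y k * a) ≤ V 2 * m := fun k a ha => by
    rw [map_mul, map_mul]
    calc _ ≤ V 2 * 1 * m := by gcongr; exact hy k
      _ = _ := by rw [mul_one]
  have le2 : V 2 * m ≤ m := mul_le_of_le_one_left' hB.le
  have b1 : ∀ k, V (fderiv ℂ (H^[k]) p v).1 ≤ m ∧ V (fderiv ℂ (H^[k]) p v).2 ≤ m := fun k => by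
    induction k with
    | zero => simp [hm]
    | succ k ih =>
      rw [tanH]; exact ⟨ih.2, V.map_add_le ih.1 ((st k _ ih.2).trans le2)⟩
  have b2 : ∀ k, V ((fderiv ℂ (H^[2 * k]) p v).1 - v.1) ≤ V 2 * m ∧
      V ((fderiv ℂ (H^[2 * k]) p v).2 - v.2) ≤ V 2 * m := fun k => by
    induction k with
    | zero => simp
    | succ k ih =>
      have c1 := st (2 * k + 1) _ (b1 (2 * k + 1)).2
      rw [show 2 * (k + 1) = 2 * k + 1 + 1 by ring, tanH]
      constructor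
      · rw [tanH, add_sub_right_comm]
        exact V.map_add_le ih.1 (st _ _ (b1 _).2)
      · rw [add_sub_right_comm]
        refine V.map_add_le ?_ c1
        rw [tanH]; exact ih.2
  have w0 : w ^ 2 + w + 1 = 0 := by
    apply mul_left_cancel₀ (sub_ne_zero.2 hw1); linear_combination hw
  have vw : V w ≤ 1 := by
    by_contra hc
    push Not at hc
    have := one_lt_pow₀ hc (by norm_num : 3 ≠ 0)
    rw [← map_pow, hw, map_one] at this
    exact lt_irrefl _ this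
  have v3 : V 3 = 1 := by
    rw [show (3 : ℂ) = 1 + 2 by norm_num]; exact V.map_one_add_of_lt hB
  have u1 : V (w - 1) ≤ 1 := V.map_sub_le vw (by simp)
  have u2 : V (w ^ 2 - 1) ≤ 1 := V.map_sub_le (by rw [map_pow]; exact pow_le_one' vw 2) (by simp)
  obtain ⟨d1, d2⟩ := b2 M
  generalize fderiv ℂ (H^[2 * M]) p v = t at *
  have e1 : 3 * v.1 = (w - 1) * (t.1 - v.1) := by
    rw [← h1]; linear_combination t.1 * w0
  have e2 : 3 * v.2 = (w ^ 2 - 1) * (t.2 - v.2) := by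
    rw [← h2]; linear_combination t.2 * (w ^ 2 - w + 1) * w0
  have f1 : V v.1 ≤ V 2 * m := by
    have := congrArg V e1
    rw [map_mul, map_mul, v3, one_mul] at this
    rw [this]; exact (mul_le_of_le_one_left' u1).trans d1
  have f2 : V v.2 ≤ V 2 * m := by
    have := congrArg V e2
    rw [map_mul, map_mul, v3, one_mul] at this
    rw [this]; exact (mul_le_of_le_one_left' u2).trans d2
  have m0 : m = 0 := by
    by_contra hc
    have := mul_lt_of_lt_one_left (zero_lt_iff.2 hc) hB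
    exact absurd (max_le f1 f2) (not_le.2 this)
  ext
  · exact V.zero_iff.1 (le_zero_iff.1 (m0 ▸ le_max_left _ _))
  · exact V.zero_iff.1 (le_zero_iff.1 (m0 ▸ le_max_right _ _))

def Eig (N : (ℂ × ℂ) →L[ℂ] (ℂ × ℂ)) (μ : ℂ) : Prop := ∃ v : ℂ × ℂ, v ≠ 0 ∧ N v = μ • v

lemma lin (A : (ℂ × ℂ) →L[ℂ] (ℂ × ℂ)) (u : ℂ × ℂ) : A u = (u.1 * (A (1, 0)).1 + u.2 * (A (0, 1)).1,
    u.1 * (A (1, 0)).2 + u.2 * (A (0, 1)).2) := by
  have : u = u.1 • ((1 : ℂ), (0 : ℂ)) + u.2 • ((0 : ℂ), (1 : ℂ)) := by ext <;> simp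
  conv_lhs => rw [this, map_add, map_smul, map_smul]
  ext <;> simp

lemma eig_iff (N : (ℂ × ℂ) →L[ℂ] (ℂ × ℂ)) (μ : ℂ) : Eig N μ ↔ μ ^ 2 - tr N * μ + dt N = 0 := by
  have hl := lin N
  simp only [tr, dt, Eig]
  generalize N (1, 0) = P at *
  generalize N (0, 1) = Q at *
  constructor
  · rintro ⟨v, hv, h⟩
    rw [hl, Prod.ext_iff] at h
    obtain ⟨h1, h2⟩ := h
    simp only [Prod.smul_fst, Prod.smul_snd, smul_eq_mul] at h1 h2
    by_contra hc
    apply hv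
    ext
    · apply mul_left_cancel₀ hc
      simp only [Prod.fst_zero]
      linear_combination (Q.2 - μ) * h1 - Q.1 * h2
    · apply mul_left_cancel₀ hc
      simp only [Prod.snd_zero]
      linear_combination (P.1 - μ) * h2 - P.2 * h1
  · intro h
    by_cases h1 : ((Q.1, μ - P.1) : ℂ × ℂ) = 0
    · by_cases h2 : ((μ - Q.2, P.2) : ℂ × ℂ) = 0
      · refine ⟨(1, 0), by simp, ?_⟩
        rw [hl]
        simp only [Prod.mk_eq_zero] at h1 h2
        ext
        · simp; linear_combination -h1.2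
        · simp [h2.2]
      · refine ⟨_, h2, ?_⟩
        rw [hl]
        ext
        · simp; linear_combination -h
        · simp; ring
    · refine ⟨_, h1, ?_⟩
      rw [hl]
      ext
      · simp; ring
      · simp; linear_combination -h

lemma ell (N : (ℂ × ℂ) →L[ℂ] (ℂ × ℂ)) (t : ℝ) (h1 : tr N = t) (h2 : dt N = 1) (a : -2 < t)
    (b : t < 2) (μ : ℂ) (h : Eig N μ) : ‖μ‖ = 1 := by
  rw [eig_iff, h1, h2, Complex.ext_iff] at h
  simp [pow_two] at h
  obtain ⟨e1, e2⟩ := h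
  have : ‖μ‖ ^ 2 = 1 := by
    rw [Complex.sq_norm, Complex.normSq_apply]
    by_cases hy : μ.im = 0
    · rw [hy] at e1; nlinarith [sq_nonneg (2 * μ.re - t)]
    · have : t = 2 * μ.re := by
        apply mul_left_cancel₀ hy; linarith
      rw [this] at e1; linarith
  exact (pow_eq_one_iff_of_nonneg (norm_nonneg _) two_ne_zero).1 this

lemma sad (N : (ℂ × ℂ) →L[ℂ] (ℂ × ℂ)) (t : ℝ) (h1 : tr N = t) (h2 : dt N = 1) (a : 2 < t) :
    ∃ μ ν, Eig N μ ∧ Eig N ν ∧ ‖μ‖ < 1 ∧ 1 < ‖ν‖ := by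
  have h0 : 0 ≤ t ^ 2 - 4 := by nlinarith
  have hs := Real.sq_sqrt h0
  have hs0 := Real.sqrt_nonneg (t ^ 2 - 4)
  generalize √(t ^ 2 - 4) = s at *
  have hs' : (s : ℂ) ^ 2 = t ^ 2 - 4 := by exact_mod_cast hs
  refine ⟨((t - s) / 2 : ℝ), ((t + s) / 2 : ℝ), ?_, ?_, ?_, ?_⟩
  · rw [eig_iff, h1, h2]; push_cast; linear_combination hs' / 4
  · rw [eig_iff, h1, h2]; push_cast; linear_combination hs' / 4
  · rw [Complex.norm_real, Real.norm_eq_abs, abs_lt]
    constructor <;> nlinarith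
  · rw [Complex.norm_real, Real.norm_eq_abs, lt_abs]; left; linarith

lemma eig_spec (N : (ℂ × ℂ) →L[ℂ] (ℂ × ℂ)) (μ : ℂ) :
    Eig N μ ↔ μ ∈ spectrum ℂ (N : Module.End ℂ (ℂ × ℂ)) := by
  rw [← Module.End.hasEigenvalue_iff_mem_spectrum]
  constructor
  · rintro ⟨v, hv, h⟩
    exact Module.End.hasEigenvalue_of_hasEigenvector ⟨Module.End.mem_eigenspace_iff.2 h, hv⟩
  · intro h
    obtain ⟨v, hv⟩ := h.exists_hasEigenvector
    exact ⟨v, hv.2, hv.apply_eq_smul⟩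

lemma eig_pow (A B : (ℂ × ℂ) →L[ℂ] (ℂ × ℂ)) (i j : ℕ) (hi : 0 < i) (hj : 0 < j) (h : A ^ i = B ^ j)
    (μ : ℂ) (hμ : Eig A μ) : ∃ ν, Eig B ν ∧ ‖ν‖ ^ j = ‖μ‖ ^ i := by
  have h1 : μ ^ i ∈ spectrum ℂ ((A : Module.End ℂ (ℂ × ℂ)) ^ i) := by
    rw [spectrum.map_pow_of_pos _ hi]; exact ⟨μ, (eig_spec A μ).1 hμ, rfl⟩
  rw [← ContinuousLinearMap.coe_pow, h, ContinuousLinearMap.coe_pow,
    spectrum.map_pow_of_pos _ hj] at h1
  obtain ⟨ν, h2, h3⟩ := h1
  exact ⟨ν, (eig_spec B ν).2 h2, by rw [← norm_pow, ← norm_pow]; exact congrArg _ h3⟩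

/-- passage from a root of an iterate to the multipliers of the cycle -/
lemma types (F : ℂ × ℂ → ℂ × ℂ) (hF : Differentiable ℂ F) (p : ℂ × ℂ) (hp : F p = p) (n : ℕ)
    (hn : 0 < n) (h : F^[3] = H^[n]) :
    p ∈ Function.periodicPts H ∧ ((∀ μ, Eig (fderiv ℂ F p) μ → ‖μ‖ = 1) → IsElliptic p) ∧
      ((∃ μ ν, Eig (fderiv ℂ F p) μ ∧ Eig (fderiv ℂ F p) ν ∧ ‖μ‖ < 1 ∧ 1 < ‖ν‖) → IsSaddle p) := by
  have per : Function.IsPeriodicPt H n p := by
    show H^[n] p = p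
    rw [← h]; exact Function.iterate_fixed hp 3
  obtain ⟨k, hk⟩ := per.minimalPeriod_dvd
  have k0 : 0 < k := Nat.pos_of_ne_zero (by rintro rfl; omega)
  have e : fderiv ℂ (H^[Function.minimalPeriod H p]) p ^ k = fderiv ℂ F p ^ 3 := by
    have h1 := (diffH.iterate (Function.minimalPeriod H p) p).hasFDerivAt.iterate
      (Function.isPeriodicPt_minimalPeriod H p) k
    have h2 := (hF p).hasFDerivAt.iterate hp 3
    rw [← Function.iterate_mul, ← hk, ← h] at h1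
    exact h1.unique h2
  refine ⟨Function.mk_mem_periodicPts hn per, fun h1 μ hμ => ?_, ?_⟩
  · obtain ⟨ν, h2, h3⟩ := eig_pow _ _ k 3 k0 (by norm_num) e μ hμ
    rw [h1 ν h2, one_pow] at h3
    exact (pow_eq_one_iff_of_nonneg (norm_nonneg _) k0.ne').1 h3.symm
  · rintro ⟨μ, ν, h1, h2, h3, h4⟩
    obtain ⟨μ', g1, g2⟩ := eig_pow _ _ 3 k (by norm_num) k0 e.symm μ h1
    obtain ⟨ν', g3, g4⟩ := eig_pow _ _ 3 k (by norm_num) k0 e.symm ν h2
    refine ⟨μ', ν', g1, g3, ?_, ?_⟩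
    · rw [← pow_lt_one_iff_of_nonneg (norm_nonneg _) k0.ne', g2]
      exact pow_lt_one₀ (norm_nonneg _) h3 (by norm_num)
    · rw [← one_lt_pow_iff_of_nonneg (norm_nonneg _) k0.ne', g4]
      exact one_lt_pow₀ h4 (by norm_num)

end Pool.Agent.H68.Hn
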