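import Pool.Agent.H68.Hn4
import Pool.Agent.H68.Hn7

set_option autoImplicit false

namespace Pool.Agent.H68.Hn

open Metric

noncomputable def cj (u : ℂ) (q : ℂ × ℂ) : ℂ × ℂ :=
  (u * (starRingEnd ℂ) q.1, u ^ 2 * (starRingEnd ℂ) q.2)

lemma HT (k : ℕ) : H^[2 * k] = T^[k] := by rw [Function.iterate_mul]; rfl

lemma cjw (w : ℂ) (hw : w ^ 3 = 1) : (starRingEnd ℂ) w = w ^ 2 := by
  have hn : ‖w‖ = 1 := Complex.norm_eq_one_of_pow_eq_one hw (by norm_num)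
  have h := Complex.mul_conj' w
  rw [hn] at h
  push_cast at h
  linear_combination w ^ 2 * h - (starRingEnd ℂ) w * hw

lemma chart (w : ℂ) (hw : w ^ 3 = 1) (hw1 : w ≠ 1) : ∃ (θ : (ℂ × ℂ) ≃L[ℂ] (ℂ × ℂ))
    (ρ : (ℂ × ℂ) →L[ℂ] (ℂ × ℂ)) (m : ℝ), m < 1 ∧ (∀ y, θ (cc (ρ y)) = cj (w ^ 2) y) ∧
    (∀ x : ℂ × ℂ, θ (-x.1, x.2) = J (θ x)) ∧ ∀ e : ℝ, 0 < e → ∀ᶠ x in nhds ((0, 1) : ℂ × ℂ),
      ∃ z s : ℂ, ‖s‖ ≤ m ∧ ‖s + z‖ ≤ m ∧ θ x = z • (S a s, S b s) ∧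
        ‖ρ (z * S b (s + z), z * S a (s + z)) - (x.1 + x.2 - 1, x.2)‖ ≤ e * ‖x - (0, 1)‖ := by
  obtain ⟨s, s1, s2, s3, s4⟩ := zero
  have hn : ‖w‖ = 1 := Complex.norm_eq_one_of_pow_eq_one hw (by norm_num)
  have hs : ‖(s : ℂ)‖ < 1 := nx s s1 (by linarith)
  have hs0 : (s : ℂ) ≠ 0 := by exact_mod_cast s2.ne
  have ct : (starRingEnd ℂ) s = s := Complex.conj_ofReal s
  have ca : (starRingEnd ℂ) (S a s) = S a s := by rw [Sre a s]; exact Complex.conj_ofReal _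
  have cw := cjw w hw
  have w0 : w ^ 2 + w + 1 = 0 := by
    apply mul_left_cancel₀ (sub_ne_zero.2 hw1); linear_combination hw
  have wn : w ≠ 0 := by rintro rfl; simp at hw
  have w1 : w - 1 ≠ 0 := sub_ne_zero.2 hw1
  generalize (s : ℂ) = t at *
  have ez : t + (w - 1) * t = w * t := by ring
  have hwt : ‖w * t‖ < 1 := by rw [norm_mul, hn, one_mul]; exact hs
  have eU := symU w hw t
  have eV := symV w hw t
  rw [s3] at eV
  set c := S a t with hc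
  let f1 := ContinuousLinearMap.fst ℂ ℂ ℂ
  let f2 := ContinuousLinearMap.snd ℂ ℂ ℂ
  obtain ⟨θ, hθ⟩ := mkE ℂ (((-3 * w * t ^ 2 * c ^ 2) • f1 + ((w - 1) * t * c) • f2).prod
    ((-3 * w * t ^ 2 * c ^ 2) • f1 - ((w - 1) * t * c) • f2)) (fun v hv => by
      simp only [f1, f2, Prod.ext_iff] at hv
      simp at hv
      obtain ⟨h1, h2⟩ := hv
      ext
      · apply mul_left_cancel₀ (show 6 * w * t ^ 2 * c ^ 2 ≠ 0 by simp [wn, hs0, s4])
        simp only [Prod.fst_zero]; linear_combination -h1 - h2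
      · apply mul_left_cancel₀ (show 2 * (w - 1) * t * c ≠ 0 by simp [w1, hs0, s4])
        simp only [Prod.snd_zero]; linear_combination h1 - h2)
  have θa : ∀ x : ℂ × ℂ, θ x = (-3 * w * t ^ 2 * c ^ 2 * x.1 + (w - 1) * t * c * x.2,
      -3 * w * t ^ 2 * c ^ 2 * x.1 - (w - 1) * t * c * x.2) := fun x => by
    rw [← ContinuousLinearEquiv.coe_coe, hθ]; simp [f1, f2]
  let ρ : (ℂ × ℂ) →L[ℂ] (ℂ × ℂ) := ((-6 * w * t ^ 2 * c ^ 2)⁻¹ • (f1 + w • f2)).prod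
    ((2 * w * (w - 1) * t * c)⁻¹ • (w • f2 - f1))
  have ρa : ∀ y : ℂ × ℂ, ρ y = ((-6 * w * t ^ 2 * c ^ 2)⁻¹ * (y.1 + w * y.2),
      (2 * w * (w - 1) * t * c)⁻¹ * (w * y.2 - y.1)) := fun y => by
    simp only [ρ, f1, f2]; ext <;> simp [mul_add, mul_sub]
  refine ⟨θ, ρ, (1 + ‖t‖) / 2, by linarith, fun y => ?_, fun x => ?_, fun e he => ?_⟩
  · have w2 : w ^ 2 - 1 ≠ 0 := by
      intro h; apply hw1; linear_combination hw - w * h
    rw [θa, ρa, cc_apply, cj]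
    simp only [map_mul, map_inv₀, map_add, map_sub, map_neg, map_pow, map_ofNat, map_one, cw, ct, ca]
    generalize (starRingEnd ℂ) y.1 = y1
    generalize (starRingEnd ℂ) y.2 = y2
    ext
    · field_simp
      grind
    · field_simp
      grind
  · rw [θa, θa, J]; ext <;> simp <;> ring
  let P : ℂ × ℂ → ℂ × ℂ := fun y => (y.1 * S a y.2, y.1 * S b y.2)
  let y0 : ℂ × ℂ := ((w - 1) * t, t)
  have d1 := ((hasFDerivAt_fst (𝕜 := ℂ) (p := y0)).mul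
    ((dU t hs).comp_hasFDerivAt y0 hasFDerivAt_snd)).prodMk
    ((hasFDerivAt_fst (𝕜 := ℂ) (p := y0)).mul ((dV t hs).comp_hasFDerivAt y0 hasFDerivAt_snd))
  have dP : ∃ D : (ℂ × ℂ) →L[ℂ] (ℂ × ℂ), HasFDerivAt P D y0 ∧ ∀ v : ℂ × ℂ,
      D v = (c * v.1 + (w - 1) * t * c ^ 2 * v.2, -c * v.1 + (w - 1) * t * c ^ 2 * v.2) :=
    ⟨_, d1, fun v => by ext <;> simp [y0, s3, ← hc] <;> ring⟩
  obtain ⟨D, d2, hD⟩ := dP
  obtain ⟨E, hE⟩ := mkE ℂ D (fun v hv => by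
    rw [hD, Prod.mk_eq_zero] at hv
    obtain ⟨h1, h2⟩ := hv
    ext
    · apply mul_left_cancel₀ (show 2 * c ≠ 0 by simp [s4])
      simp only [Prod.fst_zero]; linear_combination h1 - h2
    · apply mul_left_cancel₀ (show 2 * (w - 1) * t * c ^ 2 ≠ 0 by simp [w1, hs0, s4])
      simp only [Prod.snd_zero]; linear_combination h1 + h2)
  have an : ∀ f g : ℂ → ℂ, (∀ z, ‖z‖ < 1 → HasDerivAt f (g z) z) → ContDiffAt ℂ 1 f t :=
    fun f g h => (DifferentiableOn.analyticAt (s := ball 0 1)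
      (fun z hz => (h z (mem_ball_zero_iff.1 hz)).differentiableAt.differentiableWithinAt)
      (isOpen_ball.mem_nhds (mem_ball_zero_iff.2 hs))).contDiffAt
  have d3 : HasStrictFDerivAt P (E : (ℂ × ℂ) →L[ℂ] (ℂ × ℂ)) y0 := by
    rw [hE]
    exact ContDiffAt.hasStrictFDerivAt' (n := 1)
      ((contDiffAt_fst.mul ((an _ _ dU).comp y0 contDiffAt_snd)).prodMk
        (contDiffAt_fst.mul ((an _ _ dV).comp y0 contDiffAt_snd))) d2 one_ne_zero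
  have P0 : θ (0, 1) = P y0 := by
    rw [θa]; simp only [P, y0, s3, ← hc]; ext <;> simp
  let ψ := d3.localInverse P E y0
  have ψ0 : ψ (θ (0, 1)) = y0 := by rw [P0]; exact d3.localInverse_apply_image
  have dψ : HasFDerivAt (fun x => ψ (θ x))
      ((E.symm : (ℂ × ℂ) →L[ℂ] (ℂ × ℂ)).comp (θ : (ℂ × ℂ) →L[ℂ] (ℂ × ℂ))) (0, 1) :=
    HasFDerivAt.comp (0, 1) (g := ψ) (by rw [P0]; exact d3.to_localInverse.hasFDerivAt)
      θ.hasFDerivAt
  let Q : ℂ × ℂ → ℂ × ℂ := fun y => (y.1 * S b (y.2 + y.1), y.1 * S a (y.2 + y.1))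
  have hsum : HasFDerivAt (fun y : ℂ × ℂ => y.2 + y.1) (f2 + f1) y0 :=
    hasFDerivAt_snd.add hasFDerivAt_fst
  have d4 := ((hasFDerivAt_fst (𝕜 := ℂ) (p := y0)).mul
    ((dV (t + (w - 1) * t) (by rwa [ez])).comp_hasFDerivAt y0 hsum)).prodMk
    ((hasFDerivAt_fst (𝕜 := ℂ) (p := y0)).mul
      ((dU (t + (w - 1) * t) (by rwa [ez])).comp_hasFDerivAt y0 hsum))
  have dQ : ∃ D' : (ℂ × ℂ) →L[ℂ] (ℂ × ℂ), HasFDerivAt Q D' y0 ∧ ∀ v : ℂ × ℂ,
      D' v = (-w * c * v.1 + (w - 1) * t * c ^ 2 * (v.2 + v.1),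
        c * v.1 + (w - 1) * t * (w * c) ^ 2 * (v.2 + v.1)) :=
    ⟨_, d4, fun v => by ext <;> simp [y0, ez, eU, eV, f1, f2] <;> ring⟩
  obtain ⟨D', d5, hD'⟩ := dQ
  let W : ℂ × ℂ → ℂ × ℂ := fun x => ρ (Q (ψ (θ x))) - (x.1 + x.2 - 1, x.2)
  have dW : HasFDerivAt W (0 : (ℂ × ℂ) →L[ℂ] (ℂ × ℂ)) (0, 1) := by
    have h1 := (ρ.hasFDerivAt.comp (0, 1) (HasFDerivAt.comp (0, 1) (g := Q)
      (by rw [ψ0]; exact d5) dψ)).sub ((L1.hasFDerivAt (x := (0, 1))).sub_const (1, 0))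
    refine (h1.congr_fderiv ?_).congr_of_eventuallyEq
      (Filter.Eventually.of_forall fun y => by simp [W, L1_apply])
    refine ContinuousLinearMap.ext fun v => ?_
    have h2 : E.symm (θ v) = ((w - 1) * t * v.2, -3 * w * t * (w - 1)⁻¹ * v.1) := by
      rw [ContinuousLinearEquiv.symm_apply_eq, ← ContinuousLinearEquiv.coe_coe E, hE, hD, θa]
      ext <;> field_simp <;> ring
    simp only [ContinuousLinearMap.sub_apply, ContinuousLinearMap.comp_apply,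
      ContinuousLinearEquiv.coe_coe, h2, hD', ρa, L1_apply, ContinuousLinearMap.zero_apply,
      sub_eq_zero]
    ext
    · field_simp
      grind
    · field_simp
      grind
  have W0 : W (0, 1) = 0 := by
    simp only [W, ψ0, Q, y0, ez, eU, eV, ρa]
    ext
    · simp; right; ring
    · simp only [Prod.snd_sub, Prod.snd_zero]
      field_simp
      ring
  have cψ := dψ.continuousAt
  have v1 := (hasFDerivAt_iff_isLittleO.1 dW).def he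
  have v2 : ∀ᶠ x in nhds ((0, 1) : ℂ × ℂ), P (ψ (θ x)) = θ x :=
    θ.continuous.continuousAt.eventually (p := fun y => P (ψ y) = y)
      (by rw [P0]; exact d3.eventually_right_inverse)
  have v3 : ∀ᶠ x in nhds ((0, 1) : ℂ × ℂ), ‖(ψ (θ x)).2‖ < (1 + ‖t‖) / 2 :=
    cψ.snd.norm.eventually_lt continuousAt_const (by simp only [ψ0, y0]; linarith)
  have v4 : ∀ᶠ x in nhds ((0, 1) : ℂ × ℂ), ‖(ψ (θ x)).2 + (ψ (θ x)).1‖ < (1 + ‖t‖) / 2 :=
    (cψ.snd.add cψ.fst).norm.eventually_lt continuousAt_const (by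
      show ‖(ψ (θ (0, 1))).2 + (ψ (θ (0, 1))).1‖ < _
      simp only [ψ0, y0, ez, norm_mul, hn]; linarith)
  filter_upwards [v1, v2, v3, v4] with x h1 h2 h3 h4
  refine ⟨(ψ (θ x)).1, (ψ (θ x)).2, h3.le, h4.le, h2.symm, ?_⟩
  simpa [W0] using h1

end Pool.Agent.H68.Hn
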