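import Pool.Agent.H68.Hn8

set_option autoImplicit false

namespace Pool.Agent.H68.Hn

open Metric

lemma conv (w : ℂ) (hw : w ^ 3 = 1) (hw1 : w ≠ 1) : ∃ (θ : (ℂ × ℂ) ≃L[ℂ] (ℂ × ℂ))
    (ρ : (ℂ × ℂ) →L[ℂ] (ℂ × ℂ)), (∀ y, θ (cc (ρ y)) = cj (w ^ 2) y) ∧
    (∀ x : ℂ × ℂ, θ (-x.1, x.2) = J (θ x)) ∧ ∀ e : ℝ, 0 < e → ∃ r B K0 : ℝ, 0 < r ∧ r ≤ 1 / 2 ∧
      0 ≤ B ∧ ∀ K : ℕ, K0 < K → 0 < K → ∀ x ∈ ball ((0, 1) : ℂ × ℂ) (2 * r),
        ‖ρ ((K : ℂ) • H^[2 * K + 1] ((K : ℂ)⁻¹ • θ x)) - (x.1 + x.2 - 1, x.2)‖ ≤ e * r ∧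
        ∀ k ≤ K, ‖T^[k] ((K : ℂ)⁻¹ • θ x)‖ ≤ B / K := by
  obtain ⟨θ, ρ, m, hm, h1, h2, h3⟩ := chart w hw hw1
  refine ⟨θ, ρ, h1, h2, fun e he => ?_⟩
  obtain ⟨r0, hr0, h4⟩ := Metric.eventually_nhds_iff.1 (h3 (e / 4) (by positivity))
  obtain ⟨B, C, hB, hC, hap⟩ := approx m hm
  have r1 := min_le_left (r0 / 2) (1 / 2)
  have r2 := min_le_right (r0 / 2) (1 / 2)
  have r3 : 0 < min (r0 / 2) (1 / 2) := by positivity
  generalize min (r0 / 2) (1 / 2) = r at *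
  have q0 : 0 ≤ ‖ρ‖ * (2 * C + 4 * B ^ 2) / (e * r / 2) := by positivity
  refine ⟨r, 2 * B, C + ‖ρ‖ * (2 * C + 4 * B ^ 2) / (e * r / 2), r3, r2, by positivity,
    fun K hK K0 x hx => ?_⟩
  have hK' : (0 : ℝ) < K := by exact_mod_cast K0
  have hKc : (K : ℂ) ≠ 0 := by exact_mod_cast K0.ne'
  obtain ⟨z, s, s1, s2, s3, s4⟩ := @h4 x (by rw [mem_ball] at hx; linarith)
  obtain ⟨b1, b2, b3⟩ := hap s z s1 s2 K K0 (by rw [div_le_one hK']; linarith)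
  have z2 : ‖z‖ ≤ 2 := by
    have := norm_sub_le (s + z) s
    rw [add_sub_cancel_left] at this; linarith
  have e1 : (K : ℂ)⁻¹ • θ x = (z / K) • (S a s, S b s) := by
    rw [s3, smul_smul, div_eq_inv_mul]
  rw [e1]
  constructor
  · rw [Function.iterate_succ_apply', HT, TG]
    have b4 := (norm_snd_le _).trans (b1 K le_rfl)
    generalize (G (z / K))^[K] (S a s, S b s) = γ at *
    have e2 : (K : ℂ) • H ((z / K) • γ) - (z * S b (s + z), z * S a (s + z)) =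
        (z * (γ.2 - S b (s + z)), z * (γ.1 - S a (s + z)) + z ^ 2 * γ.2 ^ 2 / K) := by
      ext <;> simp [H] <;> field_simp <;> ring
    have n1 : ‖(K : ℂ) • H ((z / K) • γ) - (z * S b (s + z), z * S a (s + z))‖ ≤
        (2 * C + 4 * B ^ 2) / K := by
      have g1 : ‖z * (γ.2 - S b (s + z))‖ ≤ 2 * (C / K) := by rw [norm_mul]; gcongr
      have g2 : ‖z * (γ.1 - S a (s + z))‖ ≤ 2 * (C / K) := by rw [norm_mul]; gcongr
      have g3 : ‖z ^ 2 * γ.2 ^ 2 / K‖ ≤ 2 ^ 2 * B ^ 2 / K := by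
        rw [norm_div, norm_mul, norm_pow, norm_pow, Complex.norm_natCast]; gcongr
      have g4 : (2 * C + 4 * B ^ 2) / K = 2 * (C / K) + 2 ^ 2 * B ^ 2 / K := by ring
      have g5 : 0 ≤ 2 ^ 2 * B ^ 2 / K := by positivity
      rw [e2, Prod.norm_def, max_le_iff, g4]
      exact ⟨by linarith, (norm_add_le _ _).trans (by linarith)⟩
    have n2 := ρ.le_of_opNorm_le_of_le le_rfl n1
    rw [map_sub] at n2
    have n3 : ‖ρ‖ * ((2 * C + 4 * B ^ 2) / K) ≤ e * r / 2 := by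
      have : ‖ρ‖ * (2 * C + 4 * B ^ 2) / (e * r / 2) ≤ K := by linarith
      rw [div_le_iff₀ (by positivity)] at this
      rw [← mul_div_assoc, div_le_iff₀ hK']; linarith
    have n4 : ‖x - (0, 1)‖ ≤ 2 * r := (mem_ball_iff_norm.1 hx).le
    have n5 := norm_sub_le_norm_sub_add_norm_sub (ρ ((K : ℂ) • H ((z / K) • γ)))
      (ρ (z * S b (s + z), z * S a (s + z))) (x.1 + x.2 - 1, x.2)
    nlinarith
  · intro k hk
    rw [TG, norm_smul, norm_div, Complex.norm_natCast]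
    calc _ ≤ 2 / K * B := by gcongr; exact b1 k hk
      _ = _ := by ring

lemma Hcj (u : ℂ) (hu : u ^ 3 = 1) (q : ℂ × ℂ) : H (cj u q) = cj (u ^ 2) (H q) := by
  ext
  · simp only [H, cj]
  · simp only [H, cj, map_add, map_pow]
    linear_combination (-u * (starRingEnd ℂ) q.1) * hu

lemma sq3 (u : ℂ) (hu : u ^ 3 = 1) : (u ^ 2) ^ 3 = 1 := by rw [← pow_mul, mul_comm, pow_mul, hu]; simp

lemma Tcj (u : ℂ) (hu : u ^ 3 = 1) (k : ℕ) (q : ℂ × ℂ) : T^[k] (cj u q) = cj u (T^[k] q) := by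
  refine (Function.Commute.iterate_left (f := T) (g := cj u) (fun q => ?_) k) q
  show H (H (cj u q)) = cj u (H (H q))
  rw [Hcj u hu, Hcj _ (sq3 u hu), show (u ^ 2) ^ 2 = u by linear_combination u * hu]

lemma Mcj (u : ℂ) (hu : u ^ 3 = 1) (k : ℕ) (q : ℂ × ℂ) :
    H^[2 * k + 1] (cj u q) = cj (u ^ 2) (H^[2 * k + 1] q) := by
  rw [Function.iterate_succ_apply', Function.iterate_succ_apply', HT, Tcj u hu, Hcj u hu]

lemma ncj (j : ℕ) (u : ℂ) (hu : u ^ 3 = 1) (q : ℂ × ℂ) : ‖H^[j] (cj u q)‖ = ‖H^[j] q‖ := by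
  induction j generalizing u q with
  | zero =>
    have hn : ‖u‖ = 1 := Complex.norm_eq_one_of_pow_eq_one hu (by norm_num)
    simp [cj, Prod.norm_def, hn]
  | succ j ih => rw [Function.iterate_succ_apply, Function.iterate_succ_apply, Hcj u hu,
      ih _ (sq3 u hu)]

lemma cjcj (u : ℂ) (hu : u ^ 3 = 1) (q : ℂ × ℂ) : cj u (cj u q) = q := by
  ext <;> simp only [cj, map_mul, map_pow, cjw u hu, Complex.conj_conj] <;> grind

lemma cjcj2 (u : ℂ) (hu : u ^ 3 = 1) (q : ℂ × ℂ) : cj u (cj (u ^ 2) q) = R u q := by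
  ext <;> simp only [cj, R, map_mul, map_pow, cjw u hu, Complex.conj_conj] <;> grind

lemma Jcj (u : ℂ) (hu : u ^ 3 = 1) (q : ℂ × ℂ) : J (cj u q) = cj (u ^ 2) (J q) := by
  ext <;> simp only [cj, J, map_neg] <;> grind

lemma HJH (k : ℕ) (q : ℂ × ℂ) : H^[k] (J (H^[k] q)) = J q := by
  induction k generalizing q with
  | zero => rfl
  | succ k ih =>
    rw [Function.iterate_succ_apply H k q, Function.iterate_succ_apply', ih]
    ext <;> simp only [H, J] <;> ring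

lemma dt_comp (A B : (ℂ × ℂ) →L[ℂ] (ℂ × ℂ)) : dt (A.comp B) = dt A * dt B := by
  simp only [dt, ContinuousLinearMap.comp_apply]
  rw [lin A (B (1, 0)), lin A (B (0, 1))]; ring

noncomputable def Rl (u : ℂ) : (ℂ × ℂ) →L[ℂ] (ℂ × ℂ) :=
  (u ^ 2 • ContinuousLinearMap.fst ℂ ℂ ℂ).prod (u • ContinuousLinearMap.snd ℂ ℂ ℂ)

lemma Rl_apply (u : ℂ) (q : ℂ × ℂ) : Rl u q = R u q := rfl

lemma small (u : ℂ) (hu : u ^ 3 = 1) (K : ℕ) (p : ℂ × ℂ) (hp : cj u (H^[2 * K + 1] p) = p) (e : ℝ)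
    (he : e ≤ 1) (hb : ∀ k ≤ K, ‖T^[k] p‖ ≤ e) (j : ℕ) : ‖H^[j] p‖ ≤ 2 * e := by
  have e0 : 0 ≤ e := (norm_nonneg _).trans (hb 0 (Nat.zero_le _))
  have h1 : H^[2 * K + 1] p = cj u p := by
    conv_rhs => rw [← hp, cjcj u hu]
  induction j using Nat.strong_induction_on with
  | _ j ih =>
    rcases le_or_gt j (2 * K + 1) with h | h
    · obtain ⟨k, rfl | rfl⟩ := Nat.even_or_odd' j
      · rw [HT]; linarith [hb k (by omega)]
      · rw [Function.iterate_succ_apply', HT]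
        have h1 := hb k (by omega)
        generalize T^[k] p = q at *
        have h2 := norm_fst_le q
        have h3 := norm_snd_le q
        have h4 := norm_add_le q.1 (q.2 ^ 2)
        rw [norm_pow] at h4
        have h5 := norm_nonneg q.2
        rw [Prod.norm_def, max_le_iff]
        constructor
        · show ‖q.2‖ ≤ _
          linarith
        · show ‖q.1 + q.2 ^ 2‖ ≤ _
          nlinarith
    · rw [show j = (j - (2 * K + 1)) + (2 * K + 1) by omega, Function.iterate_add_apply, h1,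
        ncj _ u hu]
      exact ih _ (by omega)

end Pool.Agent.H68.Hn
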