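import Pool.Agent.H68.KlDefs

namespace Pool.Agent.H68.Kl

inductive G | e | a | b | ab | ba | w
  deriving DecidableEq

instance : Fintype G := ⟨{.e, .a, .b, .ab, .ba, .w}, by intro x; cases x <;> simp⟩

def G.mul : G → G → G
  | .e, .e => .e | .e, .a => .a | .e, .b => .b | .e, .ab => .ab | .e, .ba => .ba | .e, .w => .w
  | .a, .e => .a | .a, .a => .e | .a, .b => .ab | .a, .ab => .b | .a, .ba => .w | .a, .w => .ba
  | .b, .e => .b | .b, .a => .ba | .b, .b => .e | .b, .ab => .w | .b, .ba => .a | .b, .w => .ab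
  | .ab, .e => .ab | .ab, .a => .w | .ab, .b => .a | .ab, .ab => .ba | .ab, .ba => .e | .ab, .w => .b
  | .ba, .e => .ba | .ba, .a => .b | .ba, .b => .w | .ba, .ab => .e | .ba, .ba => .ab | .ba, .w => .a
  | .w, .e => .w | .w, .a => .ab | .w, .b => .ba | .w, .ab => .a | .w, .ba => .b | .w, .w => .e

def G.inv : G → G
  | .ab => .ba | .ba => .ab | x => x

instance : Group G where
  mul := G.mul
  one := .e
  inv := G.inv
  mul_assoc := by decide
  one_mul := by decide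
  mul_one := by decide
  inv_mul_cancel := by decide

def G.len : G → ℕ
  | .e => 0 | .a => 1 | .b => 1 | .ab => 2 | .ba => 2 | .w => 3

theorem G.sum {R : Type*} [AddCommMonoid R] (f : G → R) :
    ∑ x, f x = f .e + f .a + f .b + f .ab + f .ba + f .w := by
  have : (Finset.univ : Finset G) = {.e, .a, .b, .ab, .ba, .w} := rfl
  rw [this]
  simp [add_assoc]

variable {R : Type} [CommRing R]

def mulF (v : R) (f g : G → R) : G → R
  | .e => (f .e * g .e) + (v^2) * (f .a * g .a) + (v^2) * (f .b * g .b) + (v^4) * (f .ab * g .ba) + (v^4) * (f .ba * g .ab) + (v^6) * (f .w * g .w)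
  | .a => (f .e * g .a) + (f .a * g .e) + (v^2-1) * (f .a * g .a) + (v^2) * (f .b * g .ba) + (v^2) * (f .ab * g .b) + (v^4-v^2) * (f .ab * g .ba) + (v^4) * (f .ba * g .w) + (v^4) * (f .w * g .ab) + (v^6-v^4) * (f .w * g .w)
  | .b => (f .e * g .b) + (v^2) * (f .a * g .ab) + (f .b * g .e) + (v^2-1) * (f .b * g .b) + (v^4) * (f .ab * g .w) + (v^2) * (f .ba * g .a) + (v^4-v^2) * (f .ba * g .ab) + (v^4) * (f .w * g .ba) + (v^6-v^4) * (f .w * g .w)
  | .ab => (f .e * g .ab) + (f .a * g .b) + (v^2-1) * (f .a * g .ab) + (v^2) * (f .b * g .w) + (f .ab * g .e) + (v^2-1) * (f .ab * g .b) + (v^4-v^2) * (f .ab * g .w) + (v^2) * (f .ba * g .ba) + (v^4-v^2) * (f .ba * g .w) + (v^2) * (f .w * g .a) + (v^4-v^2) * (f .w * g .ab) + (v^4-v^2) * (f .w * g .ba) + (v^6-2*v^4+v^2) * (f .w * g .w)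
  | .ba => (f .e * g .ba) + (v^2) * (f .a * g .w) + (f .b * g .a) + (v^2-1) * (f .b * g .ba) + (v^2) * (f .ab * g .ab) + (v^4-v^2) * (f .ab * g .w) + (f .ba * g .e) + (v^2-1) * (f .ba * g .a) + (v^4-v^2) * (f .ba * g .w) + (v^2) * (f .w * g .b) + (v^4-v^2) * (f .w * g .ab) + (v^4-v^2) * (f .w * g .ba) + (v^6-2*v^4+v^2) * (f .w * g .w)
  | .w => (f .e * g .w) + (f .a * g .ba) + (v^2-1) * (f .a * g .w) + (f .b * g .ab) + (v^2-1) * (f .b * g .w) + (f .ab * g .a) + (v^2-1) * (f .ab * g .ab) + (v^2-1) * (f .ab * g .ba) + (v^4-2*v^2+1) * (f .ab * g .w) + (f .ba * g .b) + (v^2-1) * (f .ba * g .ab) + (v^2-1) * (f .ba * g .ba) + (v^4-2*v^2+1) * (f .ba * g .w) + (f .w * g .e) + (v^2-1) * (f .w * g .a) + (v^2-1) * (f .w * g .b) + (v^4-2*v^2+1) * (f .w * g .ab) + (v^4-2*v^2+1) * (f .w * g .ba) + (v^6-2*v^4+2*v^2-1) * (f .w * g .w)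

def tF (x : G) : G → R := fun y => if y = x then 1 else 0

theorem mulF_assoc (v : R) (f g h : G → R) : mulF v (mulF v f g) h = mulF v f (mulF v g h) := by
  funext x; cases x <;> simp only [mulF] <;> ring

theorem mulF_one (v : R) (f : G → R) : mulF v f (tF .e) = f := by
  funext x; cases x <;> simp [mulF, tF]

theorem one_mulF (v : R) (f : G → R) : mulF v (tF .e) f = f := by
  funext x; cases x <;> simp [mulF, tF]

theorem mulF_add (v : R) (f g h : G → R) : mulF v f (g + h) = mulF v f g + mulF v f h := by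
  funext x; cases x <;> simp only [mulF, Pi.add_apply] <;> ring

theorem add_mulF (v : R) (f g h : G → R) : mulF v (f + g) h = mulF v f h + mulF v g h := by
  funext x; cases x <;> simp only [mulF, Pi.add_apply] <;> ring

theorem mulF_smul (v c : R) (f g : G → R) : mulF v f (c • g) = c • mulF v f g := by
  funext x; cases x <;> simp only [mulF, Pi.smul_apply, smul_eq_mul] <;> ring

theorem smul_mulF (v c : R) (f g : G → R) : mulF v (c • f) g = c • mulF v f g := by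
  funext x; cases x <;> simp only [mulF, Pi.smul_apply, smul_eq_mul] <;> ring

theorem tF_mul (v : R) (x y : G) (h : (x * y).len = x.len + y.len) :
    mulF v (tF x) (tF y) = tF (x * y) := by
  have : x * y = G.mul x y := rfl
  rw [this] at h ⊢
  funext z
  cases x <;> cases y <;> simp [G.mul, G.len] at h <;> cases z <;> simp [mulF, tF, G.mul]

theorem tF_quad (v : R) (x : G) (hx : x = .a ∨ x = .b) :
    mulF v (tF x - v ^ 2 • tF .e) (tF x + tF .e) = 0 := by
  funext z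
  rcases hx with rfl | rfl <;> cases z <;> simp [mulF, tF] <;> ring

def barF (u : R) (f : G → R) : G → R
  | .e => (1) * (f .e) + (-1+u^2) * (f .a) + (-1+u^2) * (f .b) + (1-2*u^2+u^4) * (f .ab) + (1-2*u^2+u^4) * (f .ba) + (-1+2*u^2-2*u^4+u^6) * (f .w)
  | .a => (u^2) * (f .a) + (-u^2+u^4) * (f .ab) + (-u^2+u^4) * (f .ba) + (u^2-2*u^4+u^6) * (f .w)
  | .b => (u^2) * (f .b) + (-u^2+u^4) * (f .ab) + (-u^2+u^4) * (f .ba) + (u^2-2*u^4+u^6) * (f .w)
  | .ab => (u^4) * (f .ab) + (-u^4+u^6) * (f .w)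
  | .ba => (u^4) * (f .ba) + (-u^4+u^6) * (f .w)
  | .w => (u^6) * (f .w)

def cF (v u : R) : G → G → R
  | .e, .e => 1 | .e, .a => 0 | .e, .b => 0 | .e, .ab => 0 | .e, .ba => 0 | .e, .w => 0
  | .a, .e => -v | .a, .a => u | .a, .b => 0 | .a, .ab => 0 | .a, .ba => 0 | .a, .w => 0
  | .b, .e => -v | .b, .a => 0 | .b, .b => u | .b, .ab => 0 | .b, .ba => 0 | .b, .w => 0
  | .ab, .e => v^2 | .ab, .a => -1 | .ab, .b => -1 | .ab, .ab => u^2 | .ab, .ba => 0 | .ab, .w => 0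
  | .ba, .e => v^2 | .ba, .a => -1 | .ba, .b => -1 | .ba, .ab => 0 | .ba, .ba => u^2 | .ba, .w => 0
  | .w, .e => -v^3 | .w, .a => v | .w, .b => v | .w, .ab => -u | .w, .ba => -u | .w, .w => u^3

def hF (v u : R) : G → G → G → R
  | .e, .e, .e => 1
  | .e, .a, .a => 1
  | .e, .b, .b => 1
  | .e, .ab, .ab => 1
  | .e, .ba, .ba => 1
  | .e, .w, .w => 1
  | .a, .e, .a => 1
  | .a, .a, .a => -v-u
  | .a, .b, .ab => 1
  | .a, .ab, .ab => -v-u
  | .a, .ba, .a => 1 | .a, .ba, .w => 1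
  | .a, .w, .w => -v-u
  | .b, .e, .b => 1
  | .b, .a, .ba => 1
  | .b, .b, .b => -v-u
  | .b, .ab, .b => 1 | .b, .ab, .w => 1
  | .b, .ba, .ba => -v-u
  | .b, .w, .w => -v-u
  | .ab, .e, .ab => 1
  | .ab, .a, .a => 1 | .ab, .a, .w => 1
  | .ab, .b, .ab => -v-u
  | .ab, .ab, .ab => 1 | .ab, .ab, .w => -v-u
  | .ab, .ba, .a => -v-u | .ab, .ba, .w => -v-u
  | .ab, .w, .w => v^2+2+u^2
  | .ba, .e, .ba => 1
  | .ba, .a, .ba => -v-u
  | .ba, .b, .b => 1 | .ba, .b, .w => 1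
  | .ba, .ab, .b => -v-u | .ba, .ab, .w => -v-u
  | .ba, .ba, .ba => 1 | .ba, .ba, .w => -v-u
  | .ba, .w, .w => v^2+2+u^2
  | .w, .e, .w => 1
  | .w, .a, .w => -v-u
  | .w, .b, .w => -v-u
  | .w, .ab, .w => v^2+2+u^2
  | .w, .ba, .w => v^2+2+u^2
  | .w, .w, .w => -v^3-2*v-2*u-u^3
  | _, _, _ => 0

theorem barF_mul (v u : R) (h : v * u = 1) (f g : G → R) :
    barF u (mulF u f g) = mulF v (barF u f) (barF u g) := by
  funext x; cases x <;> simp only [mulF, barF] <;> grind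

theorem barF_T (v u : R) (h : v * u = 1) (x : G) : mulF v (barF u (tF x)) (tF x⁻¹) = tF .e := by
  have : x⁻¹ = G.inv x := rfl
  rw [this]
  funext z; cases x <;> cases z <;> simp [mulF, barF, tF, G.inv] <;> grind

theorem barF_C (v u : R) (h : v * u = 1) (x : G) : barF u (cF u v x) = cF v u x := by
  funext z; cases x <;> cases z <;> simp only [barF, cF] <;> grind

theorem cF_mul (v u : R) (h : v * u = 1) (x y : G) :
    mulF v (cF v u x) (cF v u y) = ∑ z, hF v u x y z • cF v u z := by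
  rw [G.sum]
  funext z; cases x <;> cases y <;> cases z <;>
    simp only [mulF, cF, hF, Pi.add_apply, Pi.smul_apply, smul_eq_mul] <;> grind

end Pool.Agent.H68.Kl
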