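import Pool.Agent.H68.Kl1

namespace Pool.Agent.H68.Kl

open LaurentPolynomial TensorProduct

noncomputable def v : A := T 1
noncomputable def u : A := T (-1)

theorem vu : v * u = 1 := by
  unfold v u; rw [← T_add]; rfl
theorem inv_v : invert v = u := invert_T 1
theorem inv_u : invert u = v := by
  unfold v u; rw [invert_T]; rfl

def H6 : Type := G → A

noncomputable instance : AddCommGroup H6 := inferInstanceAs (AddCommGroup (G → A))
noncomputable instance : Module A H6 := inferInstanceAs (Module A (G → A))

noncomputable instance : Ring H6 where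
  mul := mulF v
  one := tF .e
  mul_assoc := mulF_assoc v
  one_mul := one_mulF v
  mul_one := mulF_one v
  zero_mul f := by
    have := smul_mulF v 0 0 f
    rw [zero_smul, zero_smul] at this
    exact this
  mul_zero f := by
    have := mulF_smul v 0 f 0
    rw [zero_smul, zero_smul] at this
    exact this
  left_distrib := mulF_add v
  right_distrib := add_mulF v

noncomputable instance : Algebra A H6 := Algebra.ofModule (smul_mulF v) (mulF_smul v)

noncomputable def bs : Module.Basis G A H6 := Pi.basisFun A G

theorem bs_ap (x : G) : bs x = tF (R := A) x := by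
  have : bs x = Pi.single (M := fun _ => A) x 1 := Pi.basisFun_apply A G x
  rw [this]
  funext y
  rw [Pi.single_apply]; rfl

theorem bs_one : bs 1 = 1 := bs_ap _

theorem bs_mul (x y : G) (h : (x * y).len = x.len + y.len) : bs x * bs y = bs (x * y) := by
  rw [bs_ap, bs_ap, bs_ap]; exact tF_mul v x y h

theorem bs_quad (x : G) (hx : x = .a ∨ x = .b) :
    (bs x - algebraMap A H6 (T 2)) * (bs x + 1) = 0 := by
  have h2 : (T 2 : A) = v ^ 2 := by unfold v; rw [T_pow]; rfl
  rw [Algebra.algebraMap_eq_smul_one, h2, bs_ap]
  exact tF_quad v x hx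

noncomputable def iv : A →+* A := (invert : A ≃ₐ[ℤ] A)

theorem iv_ap (a : A) : iv a = invert a := rfl

noncomputable def ivF (f : G → A) : G → A := fun x => iv (f x)

theorem ivF_mul (f g : G → A) : ivF (mulF v f g) = mulF u (ivF f) (ivF g) := by
  have : iv v = u := inv_v
  funext x
  cases x <;> simp only [ivF, mulF, map_add, map_mul, map_sub, map_pow, map_one, map_ofNat, this]

theorem ivF_t (x : G) : ivF (tF x) = tF x := by
  funext y; unfold ivF tF; split_ifs <;> simp

theorem ivF_c (x : G) : ivF (cF v u x) = cF u v x := by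
  have h1 : iv v = u := inv_v
  have h2 : iv u = v := inv_u
  funext y
  cases x <;> cases y <;> simp only [ivF, cF, map_neg, map_pow, map_one, map_zero, h1, h2]

noncomputable def bar6 : H6 →ₛₗ[iv] H6 where
  toFun f := barF u (ivF f)
  map_add' f g := by
    change barF u (ivF (HAdd.hAdd (α := G → A) (β := G → A) f g)) =
      HAdd.hAdd (α := G → A) (β := G → A) (barF u (ivF f)) (barF u (ivF g))
    funext x
    cases x <;> simp only [barF, ivF, Pi.add_apply, map_add] <;> ring
  map_smul' c f := by
    change barF u (ivF (HSMul.hSMul (β := G → A) c f)) =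
      HSMul.hSMul (β := G → A) (iv c) (barF u (ivF f))
    funext x
    cases x <;> simp only [barF, ivF, Pi.smul_apply, smul_eq_mul, map_mul] <;> ring

theorem bar6_mul (f g : H6) : bar6 (f * g) = bar6 f * bar6 g := by
  change barF u (ivF (mulF v f g)) = mulF v (barF u (ivF f)) (barF u (ivF g))
  rw [ivF_mul, barF_mul v u vu]

theorem bar6_T (x : G) : bar6 (bs x) * bs x⁻¹ = 1 := by
  rw [bs_ap, bs_ap]
  change mulF v (barF u (ivF (tF x))) (tF x⁻¹) = tF .e
  rw [ivF_t, barF_T v u vu]

theorem bar6_one : bar6 1 = 1 := by
  have := bar6_T 1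
  rwa [inv_one, bs_one, mul_one] at this

noncomputable def c6 (x : G) : H6 := cF v u x

theorem bar6_C (x : G) : bar6 (c6 x) = c6 x := by
  change barF u (ivF (cF v u x)) = cF v u x
  rw [ivF_c, barF_C v u vu]

theorem c6_mul (x y : G) : c6 x * c6 y = ∑ z, hF v u x y z • c6 z := cF_mul v u vu x y

theorem c6_repr (x y : G) : bs.repr (c6 x) y = cF v u x y := Pi.basisFun_repr A G _ y

abbrev HH : Type := H6 ⊗[A] H6

noncomputable def bb : Module.Basis (G × G) A HH := bs.tensorProduct bs

theorem bb_ap (x : G × G) : bb x = bs x.1 ⊗ₜ bs x.2 := Module.Basis.tensorProduct_apply' _ _ _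

noncomputable def barH : HH →+* HH where
  toFun := TensorProduct.map bar6 bar6
  map_zero' := map_zero _
  map_add' := map_add _
  map_one' := by
    rw [Algebra.TensorProduct.one_def, TensorProduct.map_tmul, bar6_one]
  map_mul' x y := by
    induction x using TensorProduct.induction_on with
    | zero => simp
    | add a b ha hb => simp only [add_mul, map_add, ha, hb]
    | tmul a b =>
      induction y using TensorProduct.induction_on with
      | zero => simp
      | add c d hc hd => simp only [mul_add, map_add, hc, hd]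
      | tmul c d =>
        simp only [Algebra.TensorProduct.tmul_mul_tmul, TensorProduct.map_tmul, bar6_mul]

theorem barH_tmul (a b : H6) : barH (a ⊗ₜ b) = bar6 a ⊗ₜ bar6 b := TensorProduct.map_tmul _ _ _ _

theorem barH_smul (c : A) (x : HH) : barH (c • x) = invert c • barH x :=
  LinearMap.map_smulₛₗ (TensorProduct.map bar6 bar6) c x

noncomputable def cc (x : G × G) : HH := c6 x.1 ⊗ₜ c6 x.2

theorem cc_mul (x y : G × G) :
    cc x * cc y = ∑ z : G × G, (hF v u x.1 y.1 z.1 * hF v u x.2 y.2 z.2) • cc z := by
  unfold cc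
  rw [Algebra.TensorProduct.tmul_mul_tmul, c6_mul, c6_mul, Fintype.sum_prod_type, sum_tmul]
  refine Finset.sum_congr rfl fun a _ => ?_
  rw [tmul_sum]
  refine Finset.sum_congr rfl fun b _ => ?_
  rw [smul_tmul_smul]

theorem cc_repr (x y : G × G) : bb.repr (cc x) y = cF v u x.2 y.2 * cF v u x.1 y.1 := by
  unfold bb cc
  rw [Module.Basis.tensorProduct_repr_tmul_apply, c6_repr, c6_repr, smul_eq_mul]

end Pool.Agent.H68.Kl
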