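import Pool.Agent.H68.Kl2

namespace Pool.Agent.H68.Kl

open CoxeterSystem

def gen : Bool × Bool → G × G
  | (false, false) => (.a, 1)
  | (false, true) => (.b, 1)
  | (true, false) => (1, .a)
  | (true, true) => (1, .b)

def MM : CoxeterMatrix (Bool × Bool) where
  M := Matrix.of fun i j => if i = j then 1 else if i.1 = j.1 then 3 else 2
  isSymm := by decide
  diagonal := by decide
  off_diagonal := by decide

def sig {Γ : Type} [Group Γ] (p r : Γ) (hp : p * p = 1) (hr : r * r = 1)
    (h : r * p * r = p * r * p) : G →* Γ := MonoidHom.mk'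
  (fun x => match x with
    | .e => 1 | .a => p | .b => r | .ab => p * r | .ba => r * p | .w => p * r * p)
  (by
    have hp' : ∀ x, p * (p * x) = x := fun x => by rw [← mul_assoc, hp, one_mul]
    have hr' : ∀ x, r * (r * x) = x := fun x => by rw [← mul_assoc, hr, one_mul]
    have h1 : r * (p * r) = p * (r * p) := by simpa [mul_assoc] using h
    have h2 : ∀ x, r * (p * (r * x)) = p * (r * (p * x)) := fun x => by
      simp only [← mul_assoc, h]
    intro x y
    have : x * y = G.mul x y := rfl
    rw [this]
    cases x <;> cases y <;> simp [G.mul, mul_assoc, hp, hr, hp', hr', h1, h2])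

theorem braid3 {Γ : Type} [Group Γ] {p r : Γ} (hp : p * p = 1) (hr : r * r = 1)
    (h : (p * r) ^ 3 = 1) : r * p * r = p * r * p := by
  have h1 : p * r * p * (r * p * r) = 1 := by rw [← h]; simp [pow_succ, mul_assoc]
  have h2 : p * r * p * (p * r * p) = 1 := by
    calc p * r * p * (p * r * p) = p * (r * (p * p) * r) * p := by simp only [mul_assoc]
      _ = 1 := by rw [hp, mul_one, hr, mul_one, hp]
  exact mul_left_cancel (h1.trans h2.symm)

theorem comm2 {Γ : Type} [Group Γ] {p r : Γ} (hp : p * p = 1) (hr : r * r = 1)
    (h : (p * r) ^ 2 = 1) : Commute p r := by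
  have h1 : p * r * (p * r) = 1 := by rw [← h, pow_two]
  have h2 : p * r * (r * p) = 1 := by
    calc p * r * (r * p) = p * (r * r) * p := by simp only [mul_assoc]
      _ = 1 := by rw [hr, mul_one, hp]
  exact mul_left_cancel (h1.trans h2.symm)

abbrev c0 := MM.toCoxeterSystem

noncomputable def sg (k : Bool) : G →* MM.Group :=
  sig (c0.simple (k, false)) (c0.simple (k, true)) (c0.simple_mul_simple_self _)
    (c0.simple_mul_simple_self _)
    (braid3 (c0.simple_mul_simple_self _) (c0.simple_mul_simple_self _)
      (by have := c0.simple_mul_simple_pow (k, false) (k, true)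
          cases k <;> exact this))

theorem sg_comm (x y : G) : Commute (sg false x) (sg true y) := by
  have h : ∀ i j, Commute (c0.simple (false, i)) (c0.simple (true, j)) := fun i j =>
    comm2 (c0.simple_mul_simple_self _) (c0.simple_mul_simple_self _)
      (by have := c0.simple_mul_simple_pow (false, i) (true, j)
          cases i <;> cases j <;> exact this)
  have h2 : ∀ i, Commute (c0.simple (false, i)) (sg true y) := fun i => by
    cases y
    · exact Commute.one_right _
    · exact h _ _
    · exact h _ _
    · exact (h _ _).mul_right (h _ _)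
    · exact (h _ _).mul_right (h _ _)
    · exact ((h _ _).mul_right (h _ _)).mul_right (h _ _)
  cases x
  · exact Commute.one_left _
  · exact h2 _
  · exact h2 _
  · exact (h2 _).mul_left (h2 _)
  · exact (h2 _).mul_left (h2 _)
  · exact ((h2 _).mul_left (h2 _)).mul_left (h2 _)

noncomputable def psi : G × G →* MM.Group := (sg false).noncommCoprod (sg true) sg_comm

theorem liftable : MM.IsLiftable gen := by
  unfold CoxeterMatrix.IsLiftable; decide

noncomputable def phi : MM.Group →* G × G := c0.lift ⟨gen, liftable⟩

theorem phi_s (i : Bool × Bool) : phi (c0.simple i) = gen i := c0.lift_apply_simple liftable i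

theorem phi_sg (k : Bool) (x : G) : phi (sg k x) = if k then (1, x) else (x, 1) := by
  have e1 : sg k .e = 1 := rfl
  have e2 : sg k .a = c0.simple (k, false) := rfl
  have e3 : sg k .b = c0.simple (k, true) := rfl
  have e4 : sg k .ab = c0.simple (k, false) * c0.simple (k, true) := rfl
  have e5 : sg k .ba = c0.simple (k, true) * c0.simple (k, false) := rfl
  have e6 : sg k .w = c0.simple (k, false) * c0.simple (k, true) * c0.simple (k, false) := rfl
  cases x <;> simp only [e1, e2, e3, e4, e5, e6, map_mul, map_one, phi_s] <;> cases k <;> decide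

noncomputable def cs : CoxeterSystem MM (G × G) :=
  ⟨MonoidHom.toMulEquiv psi phi
    (by
      ext1 x
      simp only [MonoidHom.comp_apply, psi, MonoidHom.noncommCoprod_apply, map_mul, phi_sg,
        MonoidHom.id_apply]
      simp)
    (c0.ext_simple fun i => by
      rw [MonoidHom.comp_apply, phi_s, MonoidHom.id_apply]
      rcases i with ⟨_ | _, _ | _⟩ <;>
        simp only [gen, psi, MonoidHom.noncommCoprod_apply, map_one, mul_one, one_mul] <;> rfl)⟩

theorem cs_s (i : Bool × Bool) : cs.simple i = gen i := phi_s i

def LL (x : G × G) : ℕ := x.1.len + x.2.len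

def nf (k : Bool) : G → List (Bool × Bool)
  | .e => [] | .a => [(k, false)] | .b => [(k, true)] | .ab => [(k, false), (k, true)]
  | .ba => [(k, true), (k, false)] | .w => [(k, false), (k, true), (k, false)]

theorem wp (ω : List (Bool × Bool)) : cs.wordProd ω = (ω.map gen).prod := by
  have : cs.simple = gen := funext cs_s
  rw [wordProd, this]

theorem len_eq (x : G × G) : cs.length x = LL x := by
  apply le_antisymm
  · have h : ∀ x : G × G, ((nf false x.1 ++ nf true x.2).map gen).prod = x ∧
        (nf false x.1 ++ nf true x.2).length = LL x := by decide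
    have := cs.length_wordProd_le (nf false x.1 ++ nf true x.2)
    rwa [wp, (h x).1, (h x).2] at this
  · obtain ⟨ω, h1, rfl⟩ := cs.exists_reduced_word x
    rw [show cs.length (cs.wordProd ω) = ω.length from h1, wp]
    clear h1
    have h : ∀ i (y : G × G), LL (gen i * y) ≤ LL y + 1 := by decide
    induction ω with
    | nil => exact Nat.le_refl _
    | cons i ω ih =>
      rw [List.map_cons, List.prod_cons, List.length_cons]
      exact (h _ _).trans (Nat.succ_le_succ ih)

def b1 (y x : G) : Bool := y = x || y.len < x.len

def br (y x : G × G) : Bool := b1 y.1 x.1 && b1 y.2 x.2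

theorem br_Bruhat (y x : G × G) (h : br y x = true) : Bruhat cs y x := by
  have key : ∀ y x : G × G, br y x = true → y = x ∨ ∃ i, ∃ g ∈ [(1 : G × G), (.b, .b)],
      LL y < LL (y * (g * gen i * g⁻¹)) ∧ br (y * (g * gen i * g⁻¹)) x = true := by
    decide +kernel
  have hb : ∀ y : G × G, LL y ≤ 6 := by decide
  induction hn : 6 - LL y using Nat.strong_induction_on generalizing y with
  | _ n ih =>
    rcases key y x h with rfl | ⟨i, g, -, h1, h2⟩
    · exact Relation.ReflTransGen.refl
    · refine Relation.ReflTransGen.head ⟨⟨_, ⟨g, i, ?_⟩, rfl⟩, ?_⟩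
        (ih _ ?_ _ h2 rfl)
      · rw [cs_s]
      · rw [len_eq, len_eq]; exact h1
      · have := hb (y * (g * gen i * g⁻¹)); omega

theorem Bruhat.len {B W : Type} [Group W] {M : CoxeterMatrix B} {cs : CoxeterSystem M W} {y x : W}
    (h : Bruhat cs y x) : y = x ∨ cs.length y < cs.length x := by
  induction h with
  | refl => exact Or.inl rfl
  | tail _ h2 ih =>
    rcases ih with rfl | ih
    · exact Or.inr h2.2
    · exact Or.inr (ih.trans h2.2)

end Pool.Agent.H68.Kl
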