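import Pool.Agent.H68.Kl3

namespace Pool.Agent.H68.Kl

open LaurentPolynomial TensorProduct

theorem cF_eq (x y : G) : cF v u x y =
    (-1) ^ (x.len + y.len) * T ((x.len : ℤ) - 2 * (y.len : ℤ)) * (if b1 y x then 1 else 0) := by
  have h2 : (T 2 : A) = v ^ 2 := by unfold v; rw [T_pow]; rfl
  have h3 : (T 3 : A) = v ^ 3 := by unfold v; rw [T_pow]; rfl
  have h4 : (T (-2) : A) = u ^ 2 := by unfold u; rw [T_pow]; rfl
  have h5 : (T (-3) : A) = u ^ 3 := by unfold u; rw [T_pow]; rfl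
  have h6 : (T 1 : A) = v := rfl
  have h7 : (T (-1) : A) = u := rfl
  cases x <;> cases y <;> norm_num [cF, G.len, b1, h2, h3, h4, h5, h6, h7] <;> simp

noncomputable def KK : KL cs HH where
  Tb := bb
  T_one := by rw [bb_ap]; exact congrArg₂ _ bs_one bs_one
  T_mul x y h := by
    rw [len_eq, len_eq, len_eq] at h
    have hs : ∀ x y : G, (x * y).len ≤ x.len + y.len := by decide
    have h1 := hs x.1 y.1
    have h2 := hs x.2 y.2
    unfold LL at h
    rw [Prod.fst_mul, Prod.snd_mul] at h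
    rw [bb_ap, bb_ap, bb_ap, Algebra.TensorProduct.tmul_mul_tmul, bs_mul _ _ (by omega),
      bs_mul _ _ (by omega)]
    rfl
  T_quad i := by
    rw [cs_s, bb_ap]
    have hl : ∀ x : G, x = .a ∨ x = .b → (bs x ⊗ₜ[A] bs 1 - algebraMap A HH (T 2)) *
        (bs x ⊗ₜ[A] bs 1 + 1) = 0 := fun x hx => by
      have := congrArg (Algebra.TensorProduct.includeLeft : H6 →ₐ[A] HH) (bs_quad x hx)
      rw [map_mul, map_sub, map_add, map_one, map_zero, AlgHom.commutes] at this
      rw [bs_one]; exact this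
    have hr : ∀ x : G, x = .a ∨ x = .b → (bs 1 ⊗ₜ[A] bs x - algebraMap A HH (T 2)) *
        (bs 1 ⊗ₜ[A] bs x + 1) = 0 := fun x hx => by
      have := congrArg (Algebra.TensorProduct.includeRight : H6 →ₐ[A] HH) (bs_quad x hx)
      rw [map_mul, map_sub, map_add, map_one, map_zero, AlgHom.commutes] at this
      rw [bs_one]; exact this
    rcases i with ⟨_ | _, _ | _⟩
    · exact hl _ (Or.inl rfl)
    · exact hl _ (Or.inr rfl)
    · exact hr _ (Or.inl rfl)
    · exact hr _ (Or.inr rfl)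
  bar := barH
  bar_smul := barH_smul
  bar_T w := by
    rw [bb_ap, bb_ap, barH_tmul, Algebra.TensorProduct.tmul_mul_tmul, Prod.fst_inv, Prod.snd_inv,
      bar6_T, bar6_T]
    rfl
  P y w := if br y w then 1 else 0
  P_zero y w h := if_neg fun h' => h (br_Bruhat _ _ h')
  P_self w := if_pos (by revert w; decide)
  P_deg y w h hne := by
    have := h.len.resolve_left hne
    split_ifs <;> simp <;> omega
  Cb := cc
  C_repr w y := by
    rw [cc_repr, cF_eq, cF_eq, len_eq, len_eq]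
    have : (T (((LL w : ℕ) : ℤ) - 2 * ((LL y : ℕ) : ℤ)) : A) =
        T ((w.2.len : ℤ) - 2 * (y.2.len : ℤ)) * T ((w.1.len : ℤ) - 2 * (y.1.len : ℤ)) := by
      rw [← T_add]; congr 1; unfold LL; push_cast; ring
    rw [this]
    unfold br LL
    cases b1 y.1 w.1 <;> cases b1 y.2 w.2 <;>
      simp only [Bool.and_self, Bool.and_true, Bool.and_false, Bool.false_eq_true, if_true,
        if_false, map_zero, map_one, mul_zero, mul_one, zero_mul]
    ring
  bar_C w := by unfold cc; rw [barH_tmul, bar6_C, bar6_C]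
  h x y := Finsupp.equivFunOnFinite.symm fun z => hF v u x.1 y.1 z.1 * hF v u x.2 y.2 z.2
  C_mul x y := by
    rw [cc_mul, Finsupp.sum_fintype _ (fun z (c : A) => c • cc z) (fun _ => zero_smul _ _)]
    rfl

theorem KK_h (x y z : G × G) : KK.h x y z = hF v u x.1 y.1 z.1 * hF v u x.2 y.2 z.2 := rfl

theorem hF_poly (x y z : G) (hz : z = .a ∨ z = .b ∨ z = .ab) :
    ∃ p : Polynomial ℤ, u * hF v u x y z = Polynomial.aeval u p := by
  have h : hF v u x y z = 0 ∨ hF v u x y z = 1 ∨ hF v u x y z = -v - u := by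
    rcases hz with rfl | rfl | rfl <;> cases x <;> cases y <;> simp [hF]
  rcases h with h | h | h <;> rw [h]
  · exact ⟨0, by simp⟩
  · exact ⟨Polynomial.X, by simp⟩
  · refine ⟨-1 - Polynomial.X ^ 2, ?_⟩
    simp only [map_sub, map_neg, map_one, map_pow, Polynomial.aeval_X]
    linear_combination (-1 : A) * vu

theorem coeff_pos (p : Polynomial ℤ) (k : ℤ) (hk : 0 < k) :
    (Polynomial.aeval (T (-1) : A) p).coeff k = 0 := by
  induction p using Polynomial.induction_on' with
  | add p q hp hq => simp [hp, hq]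
  | monomial n a =>
    rw [Polynomial.aeval_monomial, T_pow, ← C_eq_algebraMap, ← single_eq_C_mul_T]
    rw [AddMonoidAlgebra.coeff_single, Finsupp.single_apply, if_neg (by omega)]

theorem isA (z1 z2 : G) (h1 : z1 = .a ∨ z1 = .b ∨ z1 = .ab) (h2 : z2 = .a ∨ z2 = .b ∨ z2 = .ab) :
    KK.IsA (z1, z2) 2 := by
  have h4 : (T (-2) : A) = u ^ 2 := by unfold u; rw [T_pow]; rfl
  constructor
  · intro x y
    obtain ⟨p, hp⟩ := hF_poly x.1 y.1 z1 h1
    obtain ⟨q, hq⟩ := hF_poly x.2 y.2 z2 h2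
    refine ⟨p * q, ?_⟩
    rw [KK_h, map_mul, h4]
    change _ = Polynomial.aeval u p * Polynomial.aeval u q
    rw [← hp, ← hq]; ring
  · intro m hm
    have hx : ∀ z : G, z = .a ∨ z = .b ∨ z = .ab → ∃ x, hF v u x z z = -v - u := by
      rintro z (rfl | rfl | rfl)
      exacts [⟨.a, rfl⟩, ⟨.b, rfl⟩, ⟨.a, rfl⟩]
    obtain ⟨x1, e1⟩ := hx _ h1
    obtain ⟨x2, e2⟩ := hx _ h2
    obtain ⟨p, hp⟩ := hm (x1, x2) (z1, z2)
    rw [KK_h, e1, e2] at hp
    by_contra hlt
    have hc := coeff_pos p (2 - m) (by omega)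
    have : (T (-m) : A) * ((-v - u) * (-v - u)) = T (2 - m) + (T (-m) + T (-m)) + T (-2 - m) := by
      have a1 : (T (2 - m) : A) = T (-m) * v ^ 2 := by
        unfold v; rw [T_pow, ← T_add]; congr 1; push_cast; ring
      have a2 : (T (-2 - m) : A) = T (-m) * u ^ 2 := by
        unfold u; rw [T_pow, ← T_add]; congr 1; push_cast; ring
      rw [a1, a2]; linear_combination (2 * T (-m) : A) * vu
    rw [← hp, this] at hc
    simp only [AddMonoidAlgebra.coeff_add, Finsupp.add_apply, T_apply] at hc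
    rw [if_pos trivial, if_neg (by omega), if_neg (by omega)] at hc
    omega

theorem inFin (x : G × G) : InFin cs x :=
  ⟨Set.univ, inferInstance, by
    rw [Set.image_univ, cs.subgroup_closure_range_simple]; trivial⟩

theorem df_bb : KK.Df (.b, .b) :=
  ⟨⟨2, isA _ _ (by simp) (by simp), by
    have : KK.P 1 (.b, .b) = 1 :=
      (if_pos (by decide) : (if br 1 (.b, .b) = true then (1 : Polynomial ℤ) else 0) = 1)
    rw [len_eq, this]; simp [LL, G.len]⟩, inFin _⟩

theorem mu_aa : ¬ KK.MuNe (.a, .a) (.ab, .ab) := by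
  rintro (⟨-, -, k, h, -⟩ | ⟨-, -, k, h, -⟩) <;> rw [len_eq, len_eq] at h <;>
    simp [LL, G.len] at h <;> omega

end Pool.Agent.H68.Kl
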