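import Mathlib

namespace Pool.Agent.H68.Kl

open LaurentPolynomial

/-- The ring `ℤ[q^{1/2}, q^{-1/2}]`; `T n` is `q^{n/2}`. -/
abbrev A : Type := LaurentPolynomial ℤ

variable {B W : Type} [Group W] {M : CoxeterMatrix B} (cs : CoxeterSystem M W)

/-- The Bruhat order `y ≤ w`: a chain of steps `y → y t`, `t` a reflection, raising length. -/
def Bruhat : W → W → Prop :=
  Relation.ReflTransGen
    (fun y z => (∃ t, cs.IsReflection t ∧ z = y * t) ∧ cs.length y < cs.length z)

/-- The Hecke algebra `H` of `cs` over `A` with its standard basis `Tb`, the bar involution, the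
Kazhdan-Lusztig polynomials `P`, the Kazhdan-Lusztig basis `Cb` and its structure constants `h`,
given by their defining properties (which determine them). -/
structure KL (H : Type) [Ring H] [Algebra A H] where
  Tb : Module.Basis W A H
  T_one : Tb 1 = 1
  T_mul : ∀ x y, cs.length (x * y) = cs.length x + cs.length y → Tb x * Tb y = Tb (x * y)
  T_quad : ∀ i, (Tb (cs.simple i) - algebraMap A H (T 2)) * (Tb (cs.simple i) + 1) = 0
  bar : H →+* H
  bar_smul : ∀ (a : A) (x : H), bar (a • x) = invert a • bar x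
  bar_T : ∀ w, bar (Tb w) * Tb w⁻¹ = 1
  P : W → W → Polynomial ℤ
  P_zero : ∀ y w, ¬ Bruhat cs y w → P y w = 0
  P_self : ∀ w, P w w = 1
  P_deg : ∀ y w, Bruhat cs y w → y ≠ w → 2 * (P y w).natDegree + 1 + cs.length y ≤ cs.length w
  Cb : W → H
  C_repr : ∀ w y, Tb.repr (Cb w) y = (-1) ^ (cs.length w + cs.length y) *
    T ((cs.length w : ℤ) - 2 * (cs.length y : ℤ)) * Polynomial.aeval (T (-2) : A) (P y w)
  bar_C : ∀ w, bar (Cb w) = Cb w
  h : W → W → W →₀ A
  C_mul : ∀ x y, Cb x * Cb y = (h x y).sum fun z c => c • Cb z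

/-- `z = x.y`: the product `x y` is length-additive. -/
def Red (x y : W) : Prop := cs.length (x * y) = cs.length x + cs.length y

/-- The product `x y z` is length-additive. -/
def Red3 (x y z : W) : Prop := cs.length (x * y * z) = cs.length x + cs.length y + cs.length z

/-- `v` lies in a finite standard parabolic subgroup `W_I`. -/
def InFin (v : W) : Prop :=
  ∃ I : Set B, Finite (Subgroup.closure (cs.simple '' I)) ∧ v ∈ Subgroup.closure (cs.simple '' I)

/-- `(x, v, y)` is a finite factorization of `w`. -/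
def FF (w x v y : W) : Prop := w = x * v * y ∧ Red3 cs x v y ∧ InFin cs v

/-- `(x, v, y)` is a maximal finite factorization of `w`: there is no finite factorization
`(x', v', y')` of `w` with `x = x'.p`, `y = r.y'`, `v' = p.v.r` and `l(p) + l(r) > 0`. -/
def MaxF (w x v y : W) : Prop :=
  FF cs w x v y ∧ ¬ ∃ x' v' y' p r, FF cs w x' v' y' ∧ x = x' * p ∧ Red cs x' p ∧
    y = r * y' ∧ Red cs r y' ∧ v' = p * v * r ∧ Red3 cs p v r ∧ 0 < cs.length p + cs.length r

/-- `v` at the position `w = x.v.y` is maximal (Bruhat version): there is no finite factorization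
`(x', v', y')` of `w` with `x' ≤ x`, `y' ≤ y`, `v' = p.v.r` and `l(v') > l(v)`. -/
def MaxB (w x v y : W) : Prop :=
  FF cs w x v y ∧ ¬ ∃ x' v' y' p r, FF cs w x' v' y' ∧ Bruhat cs x' x ∧ Bruhat cs y' y ∧
    v' = p * v * r ∧ Red3 cs p v r ∧ cs.length v < cs.length v'

variable {cs} {H : Type} [Ring H] [Algebra A H] (K : KL cs H)

/-- `a(z) = n`: `n` is the least integer with `q^{-n/2} h_{x,y,z} ∈ ℤ[q^{-1/2}]` for all `x, y`. -/
def KL.IsA (z : W) (n : ℤ) : Prop :=
  IsLeast {m : ℤ | ∀ x y, ∃ p : Polynomial ℤ,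
    T (-m) * K.h x y z = Polynomial.aeval (T (-1) : A) p} n

/-- `z` is a distinguished involution: `l(z) - a(z) - 2 δ(z) = 0` with `δ(z) = deg P_{e,z}`. -/
def KL.D (z : W) : Prop :=
  ∃ n : ℤ, K.IsA z n ∧ (cs.length z : ℤ) - n - 2 * ((K.P 1 z).natDegree : ℤ) = 0

/-- `z ∈ D_f`. -/
def KL.Df (z : W) : Prop := K.D z ∧ InFin cs z

/-- For `y < w`, the coefficient of `q^{(l(w)-l(y)-1)/2}` in `P_{y,w}` is nonzero. -/
def KL.MuUp (y w : W) : Prop :=
  Bruhat cs y w ∧ y ≠ w ∧
    ∃ k : ℕ, cs.length w = cs.length y + 1 + 2 * k ∧ (K.P y w).coeff k ≠ 0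

/-- `μ(y, w) ≠ 0` (symmetric). -/
def KL.MuNe (y w : W) : Prop := K.MuUp y w ∨ K.MuUp w y

/-- `a(y) ≤ a(z)`, where `a = ∞` when no integer works. -/
def KL.ALe (y z : W) : Prop := ∀ n, K.IsA z n → ∃ m, K.IsA y m ∧ m ≤ n

/-- `x.v.y` is rigid at `v`. -/
def KL.Rigid (x v y : W) : Prop :=
  K.Df v ∧ MaxB cs (x * v * y) x v y ∧ ∀ x' v' y', FF cs (x * v * y) x' v' y' → K.ALe v v' →
    cs.length x' = cs.length x ∧ cs.length y' = cs.length y

end Pool.Agent.H68.Kl
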