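import Mathlib

set_option autoImplicit false

namespace Pool.Agent.H68.Lf

/-- A class of groups. -/
abbrev Cl := (G : Type) → [Group G] → Prop

/-- A (possibly empty) Fitting class of finite groups. -/
structure IsFit (X : Cl) : Prop where
  fin : ∀ (G : Type) [Group G], X G → Finite G
  iso : ∀ (G H : Type) [Group G] [Group H], (G ≃* H) → X G → X H
  normal : ∀ (G : Type) [Group G] (N : Subgroup G), N.Normal → X G → X N
  sup : ∀ (G : Type) [Group G] [Finite G] (N M : Subgroup G),
    N.Normal → M.Normal → X N → X M → X ↥(N ⊔ M)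

/-- The class is non-empty. -/
def NE (X : Cl) : Prop := ∃ (G : Type) (_ : Group G), X G

/-- The radical `G_X`: the join of all normal `X`-subgroups. -/
def rad (X : Cl) (G : Type) [Group G] : Subgroup G := sSup {N | N.Normal ∧ X N}

instance rad_normal (X : Cl) (G : Type) [Group G] : (rad X G).Normal :=
  Subgroup.sSup_normal _ fun _ h => h.1

/-- The product `XY = {G : G / G_X ∈ Y}`, empty when `X` is empty. -/
def prodCl (X Y : Cl) : Cl := fun G _ => Finite G ∧ NE X ∧ Y (G ⧸ rad X G)

/-- The class of finite `p`-groups. -/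
def pGrp (p : ℕ) : Cl := fun G _ => Finite G ∧ IsPGroup p G

/-- The class of finite `p'`-groups. -/
def pPrime (p : ℕ) : Cl := fun G _ => Finite G ∧ ¬ p ∣ Nat.card G

/-- The class `E_π ∩ ⋂_{p ∈ π} h(p) N_p E_{p'}` with `π = {p : h(p) ≠ ∅}`. -/
def LR (h : ℕ → Cl) : Cl := fun G _ =>
  Finite G ∧ (∀ p : ℕ, p.Prime → p ∣ Nat.card G → NE (h p)) ∧
    ∀ p : ℕ, p.Prime → NE (h p) → prodCl (h p) (prodCl (pGrp p) (pPrime p)) G

/-- Local in the sense of Hartley. -/
def IsLocal (F : Cl) : Prop :=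
  ∃ h : ℕ → Cl, (∀ p : ℕ, p.Prime → IsFit (h p)) ∧ ∀ (G : Type) [Group G], F G ↔ LR h G

/-- `lFit M`: the intersection of all local Fitting classes containing `M`. -/
def lFit (M : Type) [Group M] : Cl := fun G _ => ∀ L : Cl, IsFit L → IsLocal L → L M → L G

/-- `K` is normal in `G` and `lFit (K ∩ M) = lFit M` for every subnormal subgroup `M` of `G`. -/
def PsiProp {G : Type} [Group G] (K : Subgroup G) : Prop :=
  K.Normal ∧ ∀ M : Subgroup G, M.IsSubnormal → lFit ↥(K ⊓ M) = lFit ↥M

/-- `F` is saturated: `Ψ(G) ∈ F` implies `G ∈ F`, where `Ψ(G)` is the smallest subgroup of the finite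
group `G` with `PsiProp`. -/
def Saturated (F : Cl) : Prop :=
  ∀ (G : Type) [Group G] [Finite G] (Ψ : Subgroup G),
    IsLeast {K : Subgroup G | PsiProp K} Ψ → F Ψ → F G

end Pool.Agent.H68.Lf
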