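import Pool.Agent.H68.Sch1
import Pool.Agent.H68.LfDefs

set_option autoImplicit false

namespace Pool.Agent.H68.Lf

open Function Pool.Agent.H68.Fit Pool.Agent.H68.Sat
open Subgroup (closure IsSubnormal)
open scoped commutatorElement

variable {G H : Type} [Group G] [Group H] {X : Cl} {p q : ℕ}

theorem IsFit.sub (hX : IsFit X) {K : Subgroup G} (h : K.IsSubnormal) (a : X G) : X K := by
  induction h with
  | top => exact hX.iso _ _ Subgroup.topEquiv.symm a
  | step A B h _ hN ih => exact hX.iso _ _ (Subgroup.subgroupOfEquivOfLe h) (hX.normal _ _ hN ih)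

theorem IsFit.subOf (hX : IsFit X) {A B : Subgroup G} (h : A ≤ B) (hs : A.IsSubnormal) (a : X B) :
    X A := hX.iso _ _ (Subgroup.subgroupOfEquivOfLe h) (hX.sub hs.subgroupOf a)

theorem IsFit.triv (hX : IsFit X) (h : NE X) [Subsingleton G] : X G := by
  obtain ⟨A, _, a⟩ := h
  haveI : Unique G := uniqueOfSubsingleton 1
  exact hX.iso _ _ (MulEquiv.ofUnique (M := (⊥ : Subgroup A)) (N := G)) (hX.normal A ⊥ inferInstance a)

theorem IsFit.map (hX : IsFit X) (f : H →* G) (hf : Injective f) {K : Subgroup H} :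
    X (K.map f) ↔ X K :=
  ⟨hX.iso _ _ (K.equivMapOfInjective f hf).symm, hX.iso _ _ (K.equivMapOfInjective f hf)⟩

theorem IsFit.top (hX : IsFit X) : X (⊤ : Subgroup G) ↔ X G :=
  ⟨hX.iso _ _ Subgroup.topEquiv, hX.iso _ _ Subgroup.topEquiv.symm⟩

theorem IsFit.rad [Finite G] (hX : IsFit X) (h : NE X) : X (rad X G) := by
  have key : ∀ s : Set (Subgroup G), s.Finite → (∀ N ∈ s, N.Normal ∧ X N) → X ↥(sSup s) := by
    intro s hs
    induction s, hs using Set.Finite.induction_on with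
    | empty => intro _; rw [sSup_empty]; exact hX.triv h
    | @insert N s _ _ ih =>
      intro h
      rw [sSup_insert]
      exact hX.sup G _ _ (h N (Or.inl rfl)).1 (Subgroup.sSup_normal _ fun N a => (h N (Or.inr a)).1)
        (h N (Or.inl rfl)).2 (ih fun N hN => h N (Or.inr hN))
  exact key _ (Set.toFinite _) fun _ h => h

theorem IsFit.le_rad [Finite G] (hX : IsFit X) {K : Subgroup G} (hs : K.IsSubnormal) (a : X K) :
    K ≤ Lf.rad X G := by
  induction hn : Nat.card G using Nat.strong_induction_on generalizing G with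
  | _ n ih =>
  rcases hs.lt_normal with rfl | ⟨N, h1, h2, h3⟩
  · exact le_sSup ⟨inferInstance, a⟩
  have : (Lf.rad X N).Characteristic := Subgroup.characteristic_iff_map_le.2 fun φ =>
    Subgroup.map_le_iff_le_comap.2 (sSup_le fun M hM => Subgroup.map_le_iff_le_comap.1
      (le_sSup ⟨hM.1.map _ φ.surjective, (hX.map _ φ.injective).2 hM.2⟩))
  rw [← Subgroup.map_subgroupOf_eq_of_le h2]
  exact (Subgroup.map_mono (ih _ (hn ▸ card_lt h3.ne) hs.subgroupOf
    (hX.iso _ _ (Subgroup.subgroupOfEquivOfLe h2).symm a) rfl)).trans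
    (le_sSup ⟨inferInstance, (hX.map _ N.subtype_injective).2 (hX.rad ⟨_, _, a⟩)⟩)

theorem IsFit.of_rad [Finite G] (hX : IsFit X) (h : NE X) {K : Subgroup G} (hs : K.IsSubnormal)
    (a : K ≤ Lf.rad X G) : X K := hX.subOf a hs (hX.rad h)

theorem sn_map (f : H →* G) (hf : f.range.IsSubnormal) {K : Subgroup H} (h : K.IsSubnormal) :
    (K.map f).IsSubnormal := by
  have := (h.map f.rangeRestrict_surjective).trans' hf
  rwa [Subgroup.map_map] at this

theorem IsFit.mem_rad [Finite G] (hX : IsFit X) (f : H →* G) (hi : Injective f)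
    (hf : f.range.IsSubnormal) {K : Subgroup H} (h : K.IsSubnormal) (a : X K) {x : H} (hx : x ∈ K) :
    f x ∈ Lf.rad X G := hX.le_rad (sn_map f hf h) ((hX.map f hi).2 a) ⟨x, hx, rfl⟩

theorem sn_nil [Finite G] [Group.IsNilpotent G] (K : Subgroup G) : K.IsSubnormal := by
  induction K using WellFoundedGT.induction with
  | _ K ih =>
  rcases eq_or_ne K ⊤ with rfl | h
  · exact .top
  · exact .step _ _ Subgroup.le_normalizer (ih _ (normalizerCondition_of_isNilpotent K h.lt_top))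
      inferInstance

theorem sn_comm {K D : Subgroup G} (hs : K.IsSubnormal) (h : D ≤ ⁅D, K⁆) : D ≤ K := by
  suffices ∀ L : Subgroup G, L.IsSubnormal → K ≤ L → D ≤ L from this K hs le_rfl
  intro L hL
  induction hL with
  | top => exact fun _ => le_top
  | step A B h1 _ hN ih =>
    exact fun h2 => h.trans (Subgroup.commutator_le.2 fun d hd k hk => mul_mem
      (hN.conj_mem ⟨k, h1 (h2 hk)⟩ (h2 hk) ⟨d, ih (h2.trans h1) hd⟩) (inv_mem (h2 hk)))

def Cz (π : ℕ → Prop) (T : Subgroup G) : Subgroup G := closure {x | x ∈ T ∧ PE π x}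

variable {π : ℕ → Prop} {T A : Subgroup G}

theorem cz_le {J : Subgroup G} (h : ∀ x ∈ T, PE π x → x ∈ J) : Cz π T ≤ J :=
  (Subgroup.closure_le _).2 fun x a => h x a.1 a.2

theorem cz_le' : Cz π T ≤ T := cz_le fun _ a _ => a

theorem cz_mem {x : G} (a : x ∈ T) (b : PE π x) : x ∈ Cz π T := Subgroup.subset_closure ⟨a, b⟩

theorem cz_map (f : G →* H) (hf : Injective f) : (Cz π T).map f = Cz π (T.map f) :=
  le_antisymm (Subgroup.map_le_iff_le_comap.2 (cz_le fun x a b => cz_mem ⟨x, a, rfl⟩ (b.map f)))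
    (cz_le (by rintro _ ⟨x, a, rfl⟩ b; exact ⟨x, cz_mem a (Sch.pe_inj' f hf b), rfl⟩))

instance [h : T.Normal] : (Cz π T).Normal :=
  ⟨fun _ a g => cz_le (J := (Cz π T).comap (MulAut.conj g).toMonoidHom)
    (fun _ b c => cz_mem (h.conj_mem _ b g) (c.map (MulAut.conj g).toMonoidHom)) a⟩

theorem cz_top : (Cz π ⊤).map T.subtype = Cz π T := by
  rw [cz_map _ T.subtype_injective, ← MonoidHom.range_eq_map, Subgroup.range_subtype]

theorem cz_sn (h : T.IsSubnormal) : (Cz π T).IsSubnormal :=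
  cz_top (T := T) ▸ (Subgroup.Normal.isSubnormal inferInstance).trans' h

abbrev OO (p : ℕ) (T : Subgroup G) : Subgroup G := Cz (· ≠ p) T
abbrev QQ (p : ℕ) (T : Subgroup G) : Subgroup G := Cz (fun r => ¬ r ≠ p) T
abbrev RR (p : ℕ) (T : Subgroup G) : Subgroup G := OO p (QQ p T)

theorem IsFit.rr (hX : IsFit X) : X (RR p (⊤ : Subgroup T)) ↔ X (RR p T) := by
  rw [← hX.map _ T.subtype_injective, cz_map _ T.subtype_injective, cz_top]

theorem pg_fit : IsFit (pGrp p) where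
  fin := fun _ _ h => h.1
  iso := fun _ _ _ _ e h => have := h.1; ⟨Finite.of_equiv _ e.toEquiv, h.2.of_equiv e⟩
  normal := fun _ _ N _ h => have := h.1; ⟨inferInstance, h.2.to_subgroup N⟩
  sup := fun _ _ _ _ _ _ _ a b => ⟨inferInstance, a.2.to_sup_of_normal_left b.2⟩

theorem pg_ne : NE (pGrp p) := ⟨Unit, inferInstance, inferInstance, fun _ => ⟨0, rfl⟩⟩

variable [hp : Fact p.Prime] [Finite G]

theorem oo_pe (f : G →* H) (h : OO p T ≤ f.ker) {x : G} (hx : x ∈ T) : pe p (f x) := by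
  obtain ⟨i, j, e, h1, h2⟩ := pe_split (· ≠ p) x
  rw [e, map_mul, show f (x ^ i) = 1 from h (cz_mem (zpow_mem hx i) h1), one_mul]
  exact (pe_iff.2 h2).map _

theorem sn_q {L : Subgroup G} (h : OO p ⊤ ≤ L) : L.IsSubnormal := by
  have : IsPGroup p (G ⧸ OO p ⊤) := fun x => by
    obtain ⟨x, rfl⟩ := mk_surj _ x
    exact oo_pe _ (QuotientGroup.ker_mk' _).ge trivial
  have := this.isNilpotent
  have := (sn_nil (L.map (QuotientGroup.mk' (OO p ⊤)))).comap (QuotientGroup.mk' _)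
  rwa [Subgroup.comap_map_eq_self ((QuotientGroup.ker_mk' _).le.trans h)] at this

omit [Finite G] in
theorem rr_le (f : G →* H) {P : Subgroup H} (hP : IsPGroup p P) (h : ∀ x, pe p x → f x ∈ P) :
    RR p ⊤ ≤ f.ker := cz_le fun x a b =>
  pq (pg_iff.1 hP _ (cz_le (J := P.comap f) (fun y _ c => h y (pe_iff.2 c)) a)) (b.map f)

theorem ex_pe (f : G →* H) (hf : Surjective f) (h : p ∣ Nat.card H) : ∃ x, pe p x ∧ f x ≠ 1 := by
  have := Finite.of_surjective f hf
  obtain ⟨y, hy⟩ := exists_prime_orderOf_dvd_card' p h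
  obtain ⟨x, rfl⟩ := hf y
  obtain ⟨i, h1, h2⟩ := qe_lift f x ((pe_iff (p := p)).1 ⟨1, by rw [pow_one, ← hy, pow_orderOf_eq_one]⟩)
  exact ⟨_, pe_iff.2 h1, fun e => hp.out.one_lt.ne' (by rw [← hy, ← h2, e, orderOf_one])⟩

theorem lp_iff (hX : IsFit X) (h : NE X) :
    prodCl X (prodCl (pGrp p) (pPrime p)) G ↔ X (RR p (⊤ : Subgroup G)) := by
  refine ⟨fun ⟨_, _, _, _, _, a⟩ => hX.of_rad h (cz_sn (cz_sn .top)) ((rr_le (QuotientGroup.mk' _)
    (pg_fit.rad pg_ne).2 fun x b => mk_one.1 (pq ((b.map _).map _) ⟨_, ⟨Nat.card_pos.ne',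
      fun r _ c (e : r = p) => a (e.symm.dvd.trans c)⟩, pow_card_eq_one'⟩)).trans (QuotientGroup.ker_mk' _).le),
    fun a => ⟨‹_›, h, inferInstance, pg_ne, inferInstance, fun c => ?_⟩⟩
  obtain ⟨x, h1, h2⟩ := ex_pe ((QuotientGroup.mk' _).comp (QuotientGroup.mk' _))
    ((mk_surj _).comp (mk_surj _)) c
  refine h2 (mk_one.2 (pg_fit.le_rad (K := (QQ p ⊤).map (QuotientGroup.mk' _))
    (Subgroup.Normal.isSubnormal (Subgroup.Normal.map inferInstance _ (mk_surj _)))
    ⟨inferInstance, pg_iff.2 ?_⟩ ⟨x, cz_mem trivial (pe_iff.1 h1), rfl⟩))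
  rintro _ ⟨y, hy, rfl⟩
  exact oo_pe _ ((hX.le_rad (cz_sn (cz_sn .top)) a).trans (QuotientGroup.ker_mk' _).ge) hy

omit hp in
theorem lr_iff {h : ℕ → Cl} (hh : ∀ p : ℕ, p.Prime → IsFit (h p)) : LR h T ↔
    (∀ p : ℕ, p.Prime → p ∣ Nat.card T → NE (h p)) ∧ ∀ p : ℕ, p.Prime → NE (h p) → h p (RR p T) :=
  (and_iff_right (inferInstance : Finite T)).trans (and_congr_right' (forall₃_congr fun p a b =>
    haveI := Fact.mk a
    (lp_iff (hh p a) b).trans (hh p a).rr))

theorem dvd_card {u : G} (h : u ∈ T) (h1 : u ≠ 1) (h2 : pe p u) : p ∣ Nat.card T :=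
  Int.natCast_dvd_natCast.1 (h2.dvd h1 (by
    rw [zpow_natCast]; exact congrArg Subtype.val (pow_card_eq_one' (x := (⟨u, h⟩ : T)))))

theorem loc_up {L : Cl} (hL : IsLocal L) (h : A ≤ T) (h1 : ∀ x ∈ T, qe p x → x ∈ A) {u : G}
    (h2 : u ∈ A) (h3 : u ≠ 1) (h4 : pe p u) (h5 : ∀ Y, IsFit Y → Y (RR p A) → Y (RR p T))
    (a : L A) : L T := by
  obtain ⟨f, hf, hL⟩ := hL
  rw [hL, lr_iff hf] at a ⊢
  have k : ∀ r, r ≠ p → ∀ x ∈ T, PE (fun s => ¬ s ≠ r) x → x ∈ A := fun r e x b c =>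
    h1 x b (Sch.PE.qe c fun d => d e.symm)
  refine ⟨fun r b c => a.1 r b ?_, fun r b c => ?_⟩
  · by_cases e : r = p
    · exact e ▸ dvd_card h2 h3 h4
    · have := Fact.mk b
      obtain ⟨x, d, d'⟩ := ex_pe (MonoidHom.id T) surjective_id c
      exact dvd_card (k r e _ x.2 (pe_iff.1 (d.map T.subtype))) (fun e => d' (Subtype.ext e))
        (d.map T.subtype)
  · by_cases e : r = p
    · subst e; exact h5 _ (hf r b) (a.2 r b c)
    · rw [RR, show QQ r T = QQ r A from le_antisymm (cz_le fun x b c => cz_mem (k r e x b c) c)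
        (cz_le fun x b c => cz_mem (h b) c)]
      exact a.2 r b c

omit hp in
theorem sat_use {F : Cl} (hF : IsFit F) (hS : Saturated F) {N K : Subgroup G} [K.Normal]
    (hN : N.IsSubnormal) (a : F ↥(K ⊓ N)) (h : ∀ T ≤ N, T.IsSubnormal → ∀ L, IsFit L → IsLocal L →
      L ↥(K ⊓ T) → L T) : F N := by
  have h1 : PsiProp (K.subgroupOf N) := ⟨inferInstance, fun M hM => funext₂ fun E _ => propext
    (forall₃_congr fun L b c => imp_congr_left ⟨fun d => ?_, b.subOf inf_le_right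
      ((Subgroup.Normal.isSubnormal inferInstance).inf hM)⟩)⟩
  · obtain ⟨Ψ, -, h2⟩ := exists_minimal_le_of_wellFoundedLT PsiProp _ h1
    have h3 : IsLeast {K : Subgroup N | PsiProp K} Ψ := ⟨h2.1, fun J hJ => inf_eq_left.1 (le_antisymm
      inf_le_left (h2.2 ⟨have := h2.1.1; have := hJ.1; inferInstance, fun M hM => by
        rw [inf_comm Ψ, inf_assoc, hJ.2 _ (h2.1.1.isSubnormal.inf hM), h2.1.2 M hM]⟩ inf_le_left))⟩
    refine hS N Ψ h3 (hF.subOf (h3.2 h1) h3.1.1.isSubnormal ((hF.map _ N.subtype_injective).1 ?_))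
    rwa [Subgroup.subgroupOf_map_subtype]
  · refine (b.map _ N.subtype_injective).1 (h _ (Subgroup.map_subtype_le M) (hM.trans' hN) L b c ?_)
    rw [← b.map _ N.subtype_injective, Subgroup.map_inf _ _ _ N.subtype_injective,
      Subgroup.subgroupOf_map_subtype, inf_assoc, inf_eq_right.2 (Subgroup.map_subtype_le M)] at d
    exact d

end Pool.Agent.H68.Lf
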