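import Pool.Agent.H68.Lf1

set_option autoImplicit false

namespace Pool.Agent.H68.Lf

open Function Pool.Agent.H68.Fit Pool.Agent.H68.Sat
open Subgroup (closure IsSubnormal zpowers)
open scoped commutatorElement

variable {G H S : Type} [Group G] [Group H] [Group S] {X F : Cl} {q : ℕ}

def Gd (q : ℕ) (a : S) : Prop := ∀ (g : S) (i : ℕ), pe q g → ¬ q ∣ i → g * (a ^ i)⁻¹ ∈ OO q ⊤ →
  g ≠ 1 ∧ OO q (⊤ : Subgroup S) ≤ ⁅OO q (⊤ : Subgroup S), zpowers g⁆

def ZZ (F : Cl) (q : ℕ) : Cl := fun E _ => ∃ (S : Type) (_ : Group S) (a : S), F S ∧ pe q a ∧ Gd q a ∧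
  ∀ Y, IsFit Y → Y (OO q (⊤ : Subgroup S)) → Y E

theorem zz_le (hF : IsFit F) (h : ZZ F q G) : F G := by
  obtain ⟨S, _, a, h1, -, -, h2⟩ := h
  exact h2 F hF (hF.normal _ _ inferInstance h1)

theorem inl_sn : (MonoidHom.inl G H).range.IsSubnormal := Subgroup.Normal.isSubnormal
  ⟨by rintro _ ⟨x, rfl⟩ g; exact ⟨g.1 * x * g.1⁻¹, by simp [Prod.ext_iff]⟩⟩

theorem inr_sn : (MonoidHom.inr G H).range.IsSubnormal := Subgroup.Normal.isSubnormal
  ⟨by rintro _ ⟨x, rfl⟩ g; exact ⟨g.2 * x * g.2⁻¹, by simp [Prod.ext_iff]⟩⟩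

theorem inl_inj : Injective (MonoidHom.inl G H) := fun _ _ e => congrArg Prod.fst e
theorem inr_inj : Injective (MonoidHom.inr G H) := fun _ _ e => congrArg Prod.snd e

theorem IsFit.prod (hX : IsFit X) (a : X G) (b : X H) : X (G × H) := by
  have := hX.fin _ a
  have := hX.fin _ b
  refine hX.top.1 (hX.of_rad ⟨_, _, a⟩ .top fun x _ => ?_)
  rw [← Prod.fst_mul_snd x]
  exact mul_mem (hX.mem_rad _ inl_inj inl_sn .top (hX.top.2 a) trivial)
    (hX.mem_rad _ inr_inj inr_sn .top (hX.top.2 b) trivial)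

theorem emb [Finite S] (hX : IsFit X) (j : S →* G) (hj : Injective j) (hr : j.range.IsSubnormal)
    {T : Subgroup G} (hT : T.IsSubnormal) {u : G} (hu : u ∈ T) {g : S}
    (e : ∀ d, u * j d * u⁻¹ = j (g * d * g⁻¹)) (h : OO q (⊤ : Subgroup S) ≤ ⁅OO q (⊤ : Subgroup S), zpowers g⁆)
    (a : X (OO q T)) : X (OO q (⊤ : Subgroup S)) := by
  have e' : ∀ (k : ℕ) d, u ^ k * j d * (u ^ k)⁻¹ = j (g ^ k * d * (g ^ k)⁻¹) := fun k => by
    induction k with
    | zero => simp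
    | succ k ih =>
      intro d
      rw [pow_succ, pow_succ, show g ^ k * g * d * (g ^ k * g)⁻¹ = g ^ k * (g * d * g⁻¹) * (g ^ k)⁻¹ by
        group, ← ih, ← e]
      group
  have h1 : (OO q ⊤).map j ≤ T := sn_comm hT (Subgroup.map_le_iff_le_comap.2 (h.trans
    (Subgroup.commutator_le.2 fun d hd y hy => by
      obtain ⟨k, rfl⟩ := mem_powers_iff_mem_zpowers.2 hy
      have := Subgroup.commutator_mem_commutator (Subgroup.mem_map_of_mem j hd) (pow_mem hu k)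
      rwa [commutatorElement_def, mul_assoc, mul_assoc, ← mul_assoc (u ^ k), ← map_inv, e',
        ← map_mul, ← mul_assoc, ← mul_assoc] at this)))
  exact (hX.map j hj).1 (hX.subOf (Subgroup.map_le_iff_le_comap.2 (cz_le (J := (OO q T).comap j) fun x _ b =>
    cz_mem (h1 ⟨x, cz_mem trivial b, rfl⟩) (b.map j))) (sn_map j hr (cz_sn .top)) a)

variable [hq : Fact q.Prime]

theorem gd_of [Finite S] [Group.IsSolvable S] {a : S} (ha : pe q a) (h1 : a ≠ 1)
    (m : ∀ N : Subgroup S, N.IsSubnormal → a ∈ N → N = ⊤) : Gd q a := by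
  have g1 : ∀ N : Subgroup S, N.Normal → N ⊔ OO q ⊤ = ⊤ → N = ⊤ := fun N _ e => by_contra fun hn => by
    have : Nontrivial (S ⧸ N) := QuotientGroup.nontrivial_iff.2 hn
    obtain ⟨M, _, hr⟩ := Sch.ex_q (G := S ⧸ N)
    let f := (QuotientGroup.mk' M).comp (QuotientGroup.mk' N)
    have k : f.ker ≠ ⊤ := fun e => by
      have := Fact.mk hr
      obtain ⟨x, -, h⟩ := ex_pe f ((mk_surj _).comp (mk_surj _)) dvd_rfl
      exact h (e.ge trivial)
    by_cases c : Nat.card ((S ⧸ N) ⧸ M) = q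
    · exact k (eq_top_iff.2 (e.ge.trans (sup_le (fun x b =>
        (congrArg (QuotientGroup.mk' M) (mk_one.2 b)).trans (map_one _)) (cz_le fun x _ b =>
          pq (p := q) ⟨1, by rw [pow_one, ← c]; exact pow_card_eq_one'⟩ (b.map f)))))
    · exact k (m _ (Subgroup.Normal.isSubnormal inferInstance) (pq (ha.map f) ⟨_, ⟨hr.ne_zero,
        fun r b d e => c (((Nat.prime_dvd_prime_iff_eq b hr).1 d).symm.trans e)⟩, pow_card_eq_one'⟩))
  intro g i hg hi h
  have g2 : OO q ⊤ ⊔ zpowers g = ⊤ := m _ (sn_q le_sup_left) (by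
    obtain ⟨k, hk⟩ := ha
    refine mem_of_cop (((Nat.Prime.coprime_iff_not_dvd hq.out).2 hi).symm.pow_right k) ?_
      (hk ▸ one_mem _)
    simpa using mul_mem (Subgroup.mem_sup_left (inv_mem h))
      (Subgroup.mem_sup_right (Subgroup.mem_zpowers g)))
  refine ⟨fun e => h1 (Subgroup.mem_bot.1 ((g1 ⊥ inferInstance (by simpa [e] using g2)).ge trivial)), ?_⟩
  have : (⁅OO q (⊤ : Subgroup S), zpowers g⁆).Normal := Subgroup.normalizer_eq_top_iff.1
    (eq_top_iff.2 (g2.ge.trans (sup_le (Subgroup.normalizer_commutator_ge_left _ _)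
      (Subgroup.normalizer_commutator_ge_right _ _))))
  let f := QuotientGroup.mk' ⁅OO q (⊤ : Subgroup S), zpowers g⁆
  have c : ∀ x, Commute (f x) (f g) := fun x => Subgroup.mem_centralizer_singleton_iff.1
    (sup_le (c := (Subgroup.centralizer {f g}).comap f) (fun d hd =>
      Subgroup.mem_centralizer_singleton_iff.2 (commutatorElement_eq_one_iff_mul_comm.1 (by
        rw [← map_commutatorElement]
        exact mk_one.2 (Subgroup.commutator_mem_commutator hd (Subgroup.mem_zpowers g)))))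
      (Subgroup.zpowers_le.2 (Subgroup.mem_centralizer_singleton_iff.2 rfl)) (g2.ge trivial))
  have g3 := g1 ((zpowers (f g)).comap f) ⟨fun y ⟨k, hk⟩ x => ⟨k, by
    rw [map_mul, map_mul, ← hk, ((c x).zpow_right k).eq]; simp⟩⟩ (eq_top_iff.2 (g2.ge.trans (sup_le
      le_sup_right (le_sup_of_le_left (Subgroup.zpowers_le.2 (Subgroup.mem_zpowers (f g)))))))
  refine cz_le fun x _ b => mk_one.1 (pq ?_ (b.map f))
  obtain ⟨k, hk⟩ := g3.ge (Subgroup.mem_top x)
  exact hk ▸ pe_iff.2 ((pe_iff.1 (hg.map f)).zpow k)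

theorem ex_gd [Finite G] [Group.IsSolvable G] {a : G} (ha : pe q a) (h1 : a ≠ 1) :
    ∃ T : Subgroup G, T.IsSubnormal ∧ ∃ h : a ∈ T, pe q (⟨a, h⟩ : T) ∧ Gd q (⟨a, h⟩ : T) := by
  obtain ⟨T, -, hT⟩ := exists_minimal_le_of_wellFoundedLT
    (fun T : Subgroup G => T.IsSubnormal ∧ a ∈ T) ⊤ ⟨.top, trivial⟩
  have k := pe_inj T.subtype T.subtype_injective (u := ⟨a, hT.1.2⟩) ha
  refine ⟨T, hT.1.1, hT.1.2, k, gd_of k (fun e => h1 (congrArg Subtype.val e)) fun N hN h =>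
    eq_top_iff.2 fun x _ => ?_⟩
  obtain ⟨y, h2, h3⟩ := hT.2 ⟨hN.trans' hT.1.1, _, h, rfl⟩ (Subgroup.map_subtype_le N) x.2
  exact (Subtype.ext h3 : y = x) ▸ h2

theorem Gd.self {a : S} (h : Gd q a) (ha : pe q a) :
    a ≠ 1 ∧ OO q (⊤ : Subgroup S) ≤ ⁅OO q (⊤ : Subgroup S), zpowers a⁆ :=
  h a 1 ha hq.out.not_dvd_one (by simp)

omit hq in
theorem IsFit.oo (hX : IsFit X) {T : Subgroup G} : X (OO q (⊤ : Subgroup T)) ↔ X (OO q T) := by
  rw [← hX.map _ T.subtype_injective, cz_top]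

theorem zz_fit (hF : IsFit F) (hs : ∀ (G : Type) [Group G], F G → Group.IsSolvable G) :
    IsFit (ZZ F q) where
  fin := fun _ _ h => hF.fin _ (zz_le hF h)
  iso := fun _ _ _ _ e ⟨S, _, a, h1, h2, h3, h⟩ =>
    ⟨S, _, a, h1, h2, h3, fun Y hY k => hY.iso _ _ e (h Y hY k)⟩
  normal := fun _ _ N hN ⟨S, _, a, h1, h2, h3, h⟩ =>
    ⟨S, _, a, h1, h2, h3, fun Y hY k => hY.normal _ N hN (h Y hY k)⟩
  sup := by
    rintro G _ _ N M hN hM ⟨S, _, a, h1, h2, h3, h⟩ ⟨S', _, a', h1', h2', h3', h'⟩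
    have k := hF.prod h1 h1'
    have := hF.fin _ h1
    have := hF.fin _ h1'
    have := hs _ k
    obtain ⟨T, t1, t2, t3, t4⟩ := ex_gd (q := q) (a := (a, a')) (by
      obtain ⟨i, hi⟩ := h2
      obtain ⟨j, hj⟩ := h2'
      exact ⟨i + j, Prod.ext (by simp [pow_add, pow_mul, hi]) (by simp [pow_add, pow_mul', hj])⟩)
      fun e => (h3.self h2).1 (congrArg Prod.fst e)
    exact ⟨T, _, _, hF.sub t1 k, t3, t4, fun Y hY c => hY.sup _ _ _ hN hM
      (h Y hY (emb hY _ inl_inj inl_sn t1 t2 (by simp) (h3.self h2).2 (hY.oo.1 c)))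
      (h' Y hY (emb hY _ inr_inj inr_sn t1 t2 (by simp) (h3'.self h2').2 (hY.oo.1 c)))⟩

open SemidirectProduct

abbrev Cq (q : ℕ) := Multiplicative (ZMod q)
abbrev WW (q : ℕ) (S : Type) [Group S] := (Cq q → S) ⋊[tw MulAction.toEndHom 1] Cq q

def al (q : ℕ) (a : S) : WW q S := ⟨Pi.mulSingle 1 a, Multiplicative.ofAdd 1⟩

theorem cq_pow (x : Cq q) : x ^ q = 1 := by
  simpa using pow_card_eq_one' (x := x)

theorem al_r (a : S) (k : ℕ) : (al q a ^ k).right = Multiplicative.ofAdd (k : ZMod q) := by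
  change rightHom _ = _
  rw [map_pow, ← nsmul_one, ofAdd_nsmul]; rfl

theorem al_pow (a : S) : al q a ^ q = inl fun _ => a := by
  have h : ∀ k ≤ q, ∀ j, (al q a ^ k).left j = if j.toAdd.val < k then a else 1 := fun k => by
    induction k with
    | zero => simp
    | succ k ih =>
      intro hk j
      rw [pow_succ, mul_left, Pi.mul_apply, ih (by omega), al_r]
      change _ * Pi.mulSingle (M := fun _ => S) 1 a ((Multiplicative.ofAdd (k : ZMod q))⁻¹ * j) = _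
      by_cases e : j = Multiplicative.ofAdd (k : ZMod q)
      · simp [e, ZMod.val_natCast_of_lt hk]
      · have : j.toAdd.val ≠ k := fun c => e (by simp [← c])
        rw [Pi.mulSingle_eq_of_ne fun c => e (inv_mul_eq_one.1 c).symm, mul_one]
        exact if_congr (by omega) rfl rfl
  exact SemidirectProduct.ext (funext fun j => (h q le_rfl j).trans (if_pos (ZMod.val_lt _)))
    (by simp [al_r])

theorem w_inl {w : WW q S} (h : w.right = 1) : w = inl w.left := SemidirectProduct.ext rfl h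

theorem oo_w {w : WW q S} (h : w ∈ OO q ⊤) : w.right = 1 ∧ ∀ j, w.left j ∈ OO q ⊤ := by
  obtain ⟨f, h1, rfl⟩ := cz_le (J := (Subgroup.pi Set.univ fun _ => OO q ⊤).map inl) (fun x _ b => by
    have e := w_inl (pq ⟨1, by rw [pow_one]; exact cq_pow _⟩ (b.map rightHom))
    exact ⟨x.left, fun j _ => cz_mem trivial ((Sch.pe_inj' inl inl_injective (e ▸ b)).map
      (Pi.evalMonoidHom _ j)), e.symm⟩) h
  exact ⟨rfl, fun j => h1 j trivial⟩

def jj (G : Type) [Group G] (i : Cq q) : S →* G × WW q S :=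
  (MonoidHom.inr _ _).comp (inl.comp (MonoidHom.mulSingle (fun _ => S) i))

theorem jj_inj (i : Cq q) : Injective (jj (S := S) G i) :=
  inr_inj.comp (inl_injective.comp (Pi.mulSingle_injective (M := fun _ => S) i))

theorem jj_sn (i : Cq q) : (jj (S := S) G i).range.IsSubnormal := by
  rw [jj, MonoidHom.range_comp, MonoidHom.range_comp]
  refine sn_map _ inr_sn (sn_map _ (by
    rw [range_inl_eq_ker_rightHom]; exact Subgroup.Normal.isSubnormal inferInstance)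
    (Subgroup.Normal.isSubnormal ⟨?_⟩))
  rintro _ ⟨x, rfl⟩ g
  exact ⟨g i * x * (g i)⁻¹, funext fun j => by by_cases e : j = i <;> simp [e]⟩

variable [Finite G] [Finite S]

theorem base (hX : IsFit X) {P : Subgroup S} {J : Subgroup G} (hP : P.IsSubnormal) (hJ : J.IsSubnormal)
    (a : X P) (b : X J) {x : G × WW q S} (h1 : x.1 ∈ J) (h2 : x.2.right = 1) (h3 : ∀ j, x.2.left j ∈ P) :
    x ∈ rad X (G × WW q S) := by
  rw [← Prod.fst_mul_snd x, w_inl h2]
  exact mul_mem (hX.mem_rad _ inl_inj inl_sn hJ b h1) (Subgroup.pi_mem_of_mulSingle_mem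
    (H := (rad X (G × WW q S)).comap ((MonoidHom.inr G (WW q S)).comp inl)) x.2.left
    fun j => hX.mem_rad (jj G j) (jj_inj j) (jj_sn j) hP a (h3 j))

def BB (q : ℕ) [Fact q.Prime] (a : S) : Subgroup (WW q S) := OO q ⊤ ⊔ zpowers (al q a)

def NN (l : G →* Cq q) (a : S) : Subgroup (G × WW q S) :=
  (BB q a).comap (MonoidHom.snd _ _) ⊓
    (l.comp (MonoidHom.fst _ _) / rightHom.comp (MonoidHom.snd _ _)).ker

omit [Finite G] [Finite S] in
theorem mem_nn {l : G →* Cq q} {a : S} {x : G × WW q S} :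
    x ∈ NN l a ↔ x.2 ∈ BB q a ∧ l x.1 = x.2.right := and_congr_right' div_eq_one

omit [Finite G] in
theorem nn_sn (l : G →* Cq q) (a : S) : (NN l a).IsSubnormal :=
  ((sn_q le_sup_left).comap _).inf (Subgroup.Normal.isSubnormal inferInstance)

theorem ext_q (hF : IsFit F) (hS : Saturated F) {a : S} (hs : F S) (hg : Gd q a) (l : G →* Cq q)
    (h1 : F l.ker) (h2 : ∀ Y, IsFit Y → Y (OO q (⊤ : Subgroup S)) → Y (OO q (⊤ : Subgroup G))) :
    F (NN l a) := by
  have n1 := (l.comp (MonoidHom.fst G (WW q S))).normal_ker.isSubnormal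
  refine sat_use hF hS (K := (l.comp (MonoidHom.fst G (WW q S))).ker) (nn_sn l a) (hF.of_rad ⟨_, _, hs⟩
    (n1.inf (nn_sn l a)) fun x hx => base hF .top l.normal_ker.isSubnormal (hF.top.2 hs) h1 hx.1
      ((mem_nn.1 hx.2).2.symm.trans (show l x.1 = 1 from hx.1)) fun _ => trivial) fun T hT sT L _ hL => ?_
  by_cases c : T ≤ (l.comp (MonoidHom.fst _ _)).ker
  · rw [inf_eq_right.2 c]; exact id
  obtain ⟨t, t1, t2⟩ := SetLike.not_le_iff_exists.1 c
  obtain ⟨i, t3, t4⟩ := qe_lift (l.comp (MonoidHom.fst _ _)) t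
    ((pe_iff (p := q)).1 ⟨1, by rw [pow_one]; exact cq_pow _⟩)
  have t5 := zpow_mem t1 i
  rw [MonoidHom.mem_ker, ← t4] at t2
  generalize t ^ i = t at *
  obtain ⟨t6, t7⟩ := mem_nn.1 (hT t5)
  rw [BB, ← SetLike.mem_coe, Subgroup.normal_mul] at t6
  obtain ⟨o, o1, _, o2, o3⟩ := t6
  obtain ⟨k, rfl⟩ := mem_powers_iff_mem_zpowers.2 o2
  have k1 : ¬ q ∣ k := fun e => t2 (t7.trans (by
    rw [← o3, mul_right, (oo_w o1).1, al_r, (ZMod.natCast_eq_zero_iff k q).2 e]; simp))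
  have k2 := oo_w (w := (t ^ q).2 * inl fun _ => (a ^ k)⁻¹) (mk_one.1 (by
    rw [show (inl fun _ => (a ^ k)⁻¹ : WW q S) = ((inl fun _ => a) ^ k)⁻¹ by
      rw [← map_pow, ← map_inv]; rfl, ← al_pow, Prod.pow_snd, ← o3, map_mul, map_pow, map_mul,
      mk_one.2 o1, one_mul, ← map_pow, ← map_mul, ← pow_mul, ← pow_mul, mul_comm q, mul_inv_cancel,
      map_one]))
  have k3 : (t ^ q).2.right = 1 := (mul_one _).symm.trans k2.1
  have k4 : pe q (t ^ q) := by simpa using pe_iff.2 (t3.zpow q)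
  have k5 : t ^ q ∈ (l.comp (MonoidHom.fst _ _)).ker ⊓ T :=
    ⟨(map_pow _ t q).trans (cq_pow _), pow_mem t5 q⟩
  generalize t ^ q = u at *
  obtain ⟨g1, g2⟩ := hg (u.2.left 1) k ((pe_inj inl inl_injective
    (w_inl k3 ▸ show pe q u.2 from k4.map (MonoidHom.snd _ _))).map (Pi.evalMonoidHom _ 1)) k1 (k2.2 1)
  refine loc_up hL inf_le_right (fun x b c => ⟨pq ⟨1, by rw [pow_one]; exact cq_pow _⟩ (c.map _), b⟩)
    k5 (fun e => g1 (by rw [e]; rfl)) k4 fun Y hY y => ?_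
  have y1 := emb hY _ (jj_inj 1) (jj_sn 1) (cz_sn (n1.inf sT)) (cz_mem k5 (pe_iff.1 k4)) (fun d => by
    refine Prod.ext (by simp [jj]) ?_
    change u.2 * inl _ * u.2⁻¹ = inl _
    rw [w_inl k3, ← map_inv, ← map_mul, ← map_mul]
    exact congrArg _ (funext fun j => by by_cases e : j = 1 <;> simp [e])) g2 y
  refine hY.of_rad ⟨_, _, y⟩ (cz_sn (cz_sn sT)) (cz_le fun x _ b => ?_)
  have := oo_w (cz_mem trivial (b.map (MonoidHom.snd _ _)))
  exact base hY (cz_sn .top) (cz_sn .top) y1 (h2 Y hY y1) (cz_mem trivial (b.map (MonoidHom.fst _ _)))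
    this.1 this.2

theorem up (hF : IsFit F) (hS : Saturated F) {a : S} (hs : F S) (hg : Gd q a) (l : G →* Cq q)
    (h1 : F l.ker) (h2 : ∀ Y, IsFit Y → Y (OO q (⊤ : Subgroup S)) → Y (OO q (⊤ : Subgroup G))) :
    F G := by
  have b : F (BB q a) := by
    have := ext_q hF hS hs hg (MonoidHom.id (Cq q)) (by
      rw [MonoidHom.ker_id]; exact hF.triv ⟨_, _, hs⟩) fun Y hY y => by
        rw [show OO q (⊤ : Subgroup (Cq q)) = ⊥ from eq_bot_iff.2 (cz_le fun x _ b =>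
          pq ⟨1, by rw [pow_one]; exact cq_pow _⟩ b)]
        exact hY.triv ⟨_, _, y⟩
    refine (hF.map (rightHom.prod (MonoidHom.id _)) fun _ _ e => congrArg Prod.snd e).1 ?_
    rwa [show (BB q a).map (rightHom.prod (MonoidHom.id _)) = NN (MonoidHom.id (Cq q)) a from
      Subgroup.ext fun x => ⟨by rintro ⟨y, h, rfl⟩; exact mem_nn.2 ⟨h, rfl⟩, fun h =>
        ⟨x.2, (mem_nn.1 h).1, Prod.ext (mem_nn.1 h).2.symm rfl⟩⟩]
  refine hF.top.1 ((hF.map (MonoidHom.inl G (WW q S)) inl_inj).1 (hF.of_rad ⟨_, _, hs⟩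
    (sn_map _ inl_sn .top) ?_))
  rintro _ ⟨g, -, rfl⟩
  have k : al q a ^ (l g).toAdd.val ∈ BB q a :=
    pow_mem (Subgroup.mem_sup_right (Subgroup.mem_zpowers _)) _
  simpa using mul_mem (hF.le_rad (nn_sn l a) (ext_q hF hS hs hg l h1 h2)
    (x := (g, al q a ^ (l g).toAdd.val)) (mem_nn.2 ⟨k, by simp [al_r]⟩))
    (inv_mem (hF.mem_rad (MonoidHom.inr G _) inr_inj inr_sn (sn_q le_sup_left) b k))

omit hq [Finite S] in
theorem main (hF : IsFit F) (hn : NE F) (hs : ∀ (G : Type) [Group G], F G → Group.IsSolvable G)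
    (hS : Saturated F) : IsLocal F := by
  have z : ∀ p : ℕ, p.Prime → IsFit (ZZ F p) := fun p a => haveI := Fact.mk a; zz_fit hF hs
  refine ⟨ZZ F, z, fun G _ => ⟨fun h => ?_, fun h => ?_⟩⟩
  · have := hF.fin _ h
    have := hs _ h
    refine ⟨‹_›, fun p a b => ?_, fun p a b => ?_⟩ <;> have := Fact.mk a
    · obtain ⟨x, h1, h2⟩ := ex_pe (MonoidHom.id G) surjective_id b
      obtain ⟨T, t1, _, t2, t3⟩ := ex_gd h1 h2
      exact ⟨_, _, T, _, _, hF.sub t1 h, t2, t3, fun _ _ k => k⟩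
    refine (lp_iff (z p a) b).2 ((z p a).of_rad b (cz_sn (cz_sn .top)) ((rr_le (QuotientGroup.mk' _)
      (pg_fit.rad pg_ne).2 fun x h1 => ?_).trans (QuotientGroup.ker_mk' _).le))
    by_cases h2 : x = 1
    · rw [h2, map_one]; exact one_mem _
    obtain ⟨T, t1, t0, t2, t3⟩ := ex_gd h1 h2
    refine pg_fit.le_rad (t1.map (mk_surj _)) ⟨inferInstance, pg_iff.2 ?_⟩ ⟨x, t0, rfl⟩
    rintro _ ⟨y, hy, rfl⟩
    exact oo_pe _ (((z p a).le_rad (cz_sn t1) ⟨T, _, _, hF.sub t1 h, t2, t3, fun _ hY =>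
      hY.oo.1⟩).trans (QuotientGroup.ker_mk' _).ge) hy
  induction hc : Nat.card G using Nat.strong_induction_on generalizing G with
  | _ n ih =>
  have := h.1
  have r : ∀ p : ℕ, p.Prime → NE (ZZ F p) → ZZ F p (RR p (⊤ : Subgroup G)) := fun p a b =>
    haveI := Fact.mk a; (lp_iff (z p a) b).1 (h.2.2 p a b)
  have k : ∀ N : Subgroup G, N.Normal → N ≠ ⊤ → F N := fun N hN e =>
    @ih _ (hc ▸ card_lt e) N _ ((lr_iff z).2 ⟨fun p a b => h.2.1 p a (b.trans N.card_subgroup_dvd_card),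
      fun p a b => (z p a).subOf (cz_le fun x c d => cz_mem (cz_le (J := QQ p ⊤)
        (fun y _ c => cz_mem trivial c) c) d)
        (cz_sn (cz_sn hN.isSubnormal)) (r p a b)⟩) rfl
  by_contra hG
  have : Nontrivial (G ⧸ rad F G) := QuotientGroup.nontrivial_iff.2 fun e =>
    hG (hF.top.1 (e ▸ hF.rad hn))
  obtain ⟨q, hq, h1⟩ := Nat.exists_prime_and_dvd (Finite.one_lt_card (α := G ⧸ rad F G)).ne'
  have := Fact.mk hq
  have h2 := r q hq (h.2.1 q hq (h1.trans (Subgroup.card_quotient_dvd_card _)))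
  obtain ⟨x, h3, h4⟩ := ex_pe _ (mk_surj _) h1
  have h5 : QQ q (⊤ : Subgroup G) = ⊤ := by_contra fun e => h4 (mk_one.2 (hF.le_rad (cz_sn .top)
    (k _ inferInstance e) (cz_mem trivial (pe_iff.1 h3))))
  rw [RR, h5] at h2
  have h6 : IsPGroup q (G ⧸ rad F G) := fun y => by
    obtain ⟨y, rfl⟩ := mk_surj _ y
    exact oo_pe _ ((hF.le_rad (cz_sn .top) (zz_le hF h2)).trans (QuotientGroup.ker_mk' _).ge) trivial
  have := h6.isNilpotent
  obtain ⟨M, _, hr⟩ := Sch.ex_q (G := G ⧸ rad F G)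
  obtain ⟨m, hm⟩ := IsPGroup.iff_card.1 (h6.to_quotient M)
  have h7 : Nat.card ((G ⧸ rad F G) ⧸ M) = q := ((Nat.Prime.pow_eq_iff hr).1 hm.symm).1.symm
  let ε : _ ≃* Cq q := mulEquivOfPrimeCardEq h7 (by simp)
  let l : G →* Cq q := ε.toMonoidHom.comp ((QuotientGroup.mk' M).comp (QuotientGroup.mk' _))
  obtain ⟨y, -, h8⟩ := ex_pe (p := q) l (ε.surjective.comp ((mk_surj M).comp (mk_surj _))) (by simp)
  obtain ⟨S, _, a, s1, -, s2, s3⟩ := h2
  have := hF.fin _ s1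
  exact hG (up hF hS s1 s2 l (k _ inferInstance fun e => h8 (e.ge trivial)) s3)

end Pool.Agent.H68.Lf
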