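import Pool.Agent.H68.Sat5

set_option autoImplicit false

namespace Pool.Agent.H68.Lp

open Function Pool.Agent.H68.Fit Pool.Agent.H68.Sat
open scoped Classical commutatorElement

variable {G A : Type} [Group G] [Group A]

instance : Fact (Nat.Prime 3) := Nat.fact_prime_three

def NN (G : Type) [Group G] : Prop :=
  ∃ P : Subgroup G, P.Normal ∧ IsPGroup 3 P ∧ ∀ g : G, ∃ k, g ^ 2 ^ k ∈ P

theorem pe_two {g : G} (h : pe 3 g) (h' : pe 2 g) : g = 1 := by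
  obtain ⟨k, hk⟩ := h'
  exact pq h ⟨_, PN.pw (π := (· ≠ 3)) Nat.prime_two (by norm_num) k, hk⟩

theorem mem_P {P : Subgroup G} [P.Normal] (h : ∀ g : G, ∃ k, g ^ 2 ^ k ∈ P) {g : G} (hg : pe 3 g) :
    g ∈ P := mk_one.1 (pe_two (hg.map _) ((h g).imp fun _ e => by rw [← map_pow]; exact mk_one.2 e))

def NN.TS (h : NN G) : Subgroup G where
  carrier := {g | pe 3 g}
  one_mem' := pe.one
  mul_mem' := fun ha hb => by
    obtain ⟨P, _, h1, h2⟩ := h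
    exact pg_iff.1 h1 _ (mul_mem (mem_P h2 ha) (mem_P h2 hb))
  inv_mem' := fun h => h.imp fun _ e => by rw [inv_pow, e, inv_one]

instance (h : NN G) : h.TS.Normal := ⟨fun _ ha g => ha.map (MulAut.conj g).toMonoidHom⟩

theorem NN.pg (h : NN G) : IsPGroup 3 h.TS := pg_iff.2 fun _ a => a

theorem NN.pw (h : NN G) (g : G) : ∃ k, g ^ 2 ^ k ∈ h.TS := by
  obtain ⟨P, _, h1, h2⟩ := id h
  exact (h2 g).imp fun _ e => pg_iff.1 h1 _ e

theorem NN.inj (h : NN G) (ι : A →* G) (hι : Injective ι) : NN A :=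
  ⟨h.TS.comap ι, inferInstance, pg_iff.2 fun _ a => pe_inj ι hι a,
    fun g => (h.pw (ι g)).imp fun _ e => by rwa [Subgroup.mem_comap, map_pow]⟩

theorem NN.sup [Finite G] (N K : Subgroup G) [N.Normal] [K.Normal] (a : NN N) (b : NN K) :
    NN ↥(N ⊔ K) := by
  have n : ∀ (L : Subgroup G) [L.Normal] (c : NN L), (c.TS.map L.subtype).Normal := fun L _ c =>
    ⟨by
      rintro _ ⟨x, hx, rfl⟩ g
      exact ⟨MulAut.conjNormal g x, pe.map hx (MulAut.conjNormal (H := L) g).toMonoidHom, rfl⟩⟩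
  have := n N a
  have := n K b
  let P := a.TS.map N.subtype ⊔ b.TS.map K.subtype
  have hP : IsPGroup 3 P := (a.pg.map _).to_sup_of_normal_left (b.pg.map _)
  have k : ∀ (L : Subgroup G) (c : NN L), c.TS.map L.subtype ≤ P →
      IsPGroup 2 (L.map (QuotientGroup.mk' P)) := fun L c h => pg_iff.2 (by
    rintro _ ⟨x, hx, rfl⟩
    exact (c.pw ⟨x, hx⟩).imp fun _ e => by rw [← map_pow]; exact mk_one.2 (h ⟨_, e, rfl⟩))
  have := Subgroup.Normal.map ‹N.Normal› _ (mk_surj P)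
  have h2 := (k N a le_sup_left).to_sup_of_normal_left (k K b le_sup_right)
  rw [← Subgroup.map_sup] at h2
  exact ⟨P.comap (N ⊔ K).subtype, inferInstance, hP.comap_of_injective _ (Subgroup.subtype_injective _),
    fun g => (pg_iff.1 h2 _ ⟨g.1, g.2, rfl⟩).imp fun _ e => mk_one (N := P).1 ((map_pow _ g.1 _).trans e)⟩

abbrev T (G : Type) [Group G] := {g : G // pe 3 g}

noncomputable instance [Finite G] : Fintype (T G) := Fintype.ofFinite _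

def cj : G →* Equiv.Perm (T G) := MonoidHom.mk' (fun g =>
  { toFun := fun x => ⟨g * x.1 * g⁻¹, x.2.map (MulAut.conj g).toMonoidHom⟩
    invFun := fun x => ⟨g⁻¹ * x.1 * g⁻¹⁻¹, x.2.map (MulAut.conj g⁻¹).toMonoidHom⟩
    left_inv := fun x => Subtype.ext (by dsimp only; group)
    right_inv := fun x => Subtype.ext (by dsimp only; group) })
  fun a b => Equiv.ext fun x => Subtype.ext (by
    change a * b * x.1 * (a * b)⁻¹ = a * (b * x.1 * b⁻¹) * a⁻¹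
    group)

noncomputable def sg [Finite G] : G →* ℤˣ := Equiv.Perm.sign.comp cj

theorem unit_one {u : ℤˣ} (h : pe 3 u) : u = 1 := pe_two h ⟨1, Int.units_sq u⟩

theorem sg_inj [Finite G] [Finite A] (h : NN G) (ι : A →* G) (hι : Injective ι)
    [hn : ι.range.Normal] (n : A) : sg (ι n) = sg n := by
  let Q := ι.range.subgroupOf h.TS
  have := Fintype.ofFinite (h.TS ⧸ Q)
  let e : (h.TS ⧸ Q) × T A → T G := fun x =>
    ⟨x.1.out * ι x.2.1, h.TS.mul_mem x.1.out.2 (x.2.2.map ι)⟩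
  have he : Bijective e := ⟨by
    rintro ⟨y, a⟩ ⟨z, b⟩ h1
    have h1 : y.out.1 * ι a.1 = z.out.1 * ι b.1 := congrArg Subtype.val h1
    obtain rfl : y = z := by
      rw [← y.out_eq, ← z.out_eq]
      exact QuotientGroup.eq.2 ⟨a.1 * b.1⁻¹, by
        rw [map_mul, map_inv, eq_inv_mul_of_mul_eq h1]; simp [mul_assoc]⟩
    exact Prod.ext rfl (Subtype.ext (hι (mul_left_cancel h1))), fun x => by
    let x' : h.TS := ⟨x.1, x.2⟩
    obtain ⟨a, ha⟩ := QuotientGroup.eq.1 (QuotientGroup.out_eq' (x' : h.TS ⧸ Q))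
    have ha : ι a = (x' : h.TS ⧸ Q).out.1⁻¹ * x.1 := ha
    have hb : ι a ∈ h.TS := ha ▸ mul_mem (inv_mem (x' : h.TS ⧸ Q).out.2) x'.2
    exact ⟨(x', ⟨a, pe_inj ι hι hb⟩), Subtype.ext (by
      change (x' : h.TS ⧸ Q).out.1 * ι a = _
      rw [ha, mul_inv_cancel_left])⟩⟩
  have c : ∀ y : h.TS ⧸ Q, ∃ c : (h.inj ι hι).TS,
      ι c.1 = y.out.1⁻¹ * ι n * y.out.1 * (ι n)⁻¹ := fun y => by
    obtain ⟨c, hc⟩ := mul_mem (hn.conj_mem' _ ⟨n, rfl⟩ y.out.1) (inv_mem ⟨n, rfl⟩)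
    refine ⟨⟨c, pe_inj ι hι ?_⟩, hc⟩
    have := mul_mem (inv_mem y.out.2) (Subgroup.Normal.conj_mem inferInstance _ y.out.2 (ι n))
    rwa [← mul_assoc, ← mul_assoc, ← hc] at this
  choose c hc using c
  let L : (h.inj ι hι).TS →* Equiv.Perm (T A) := MulAction.toPermHom _ (h.inj ι hι).TS
  have h1 := Equiv.Perm.sign_eq_sign_of_equiv (Equiv.prodCongrRight fun y => L (c y) * cj n)
    (cj (ι n)) (Equiv.ofBijective e he) fun x => Subtype.ext (by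
      change x.1.out.1 * ι ((c x.1).1 * (n * x.2.1 * n⁻¹)) = ι n * (x.1.out.1 * ι x.2.1) * (ι n)⁻¹
      simp only [map_mul, map_inv, hc]; group)
  have h2 : ∀ y, Equiv.Perm.sign (L (c y) * cj n) = sg n := fun y => by
    rw [map_mul, unit_one (u := Equiv.Perm.sign (L (c y)))
      (pe.map ((h.inj ι hι).pg (c y)) (Equiv.Perm.sign.comp L)), one_mul]; rfl
  rw [Equiv.Perm.sign_prodCongrRight, Finset.prod_congr rfl fun y _ => h2 y, Finset.prod_const] at h1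
  obtain ⟨k, hk⟩ := IsPGroup.iff_card.1 (h.pg.to_quotient Q)
  have h3 : Odd (Finset.univ : Finset (h.TS ⧸ Q)).card := by
    rw [Finset.card_univ, ← Nat.card_eq_fintype_card, hk]; exact Odd.pow (by decide)
  refine h1.symm.trans ?_
  rcases Int.units_eq_one_or (sg n) with e | e
  · rw [e, one_pow]
  · rw [e, h3.neg_one_pow]

def HH (G : Type) [Group G] : Prop := ∃ _ : Finite G, NN G ∧ ∀ g : G, sg g = 1

theorem HH.inj (h : HH G) (ι : A →* G) (hι : Injective ι) [ι.range.Normal] : HH A := by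
  obtain ⟨_, a, b⟩ := h
  have := Finite.of_injective ι hι
  exact ⟨this, a.inj ι hι, fun g => by rw [← sg_inj a ι hι, b]⟩

theorem HH.iso (h : HH G) (e : G ≃* A) : HH A :=
  haveI : e.symm.toMonoidHom.range.Normal := by
    rw [MonoidHom.range_eq_top.2 e.symm.surjective]; infer_instance
  h.inj e.symm.toMonoidHom e.symm.injective

theorem hh_ker [Finite G] (h : NN G) (K : Subgroup G) [K.Normal] :
    HH K ↔ ∀ g ∈ K, sg g = 1 := by
  have : K.subtype.range.Normal := by rwa [Subgroup.range_subtype]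
  exact ⟨fun ⟨_, _, b⟩ g hg => (sg_inj h _ K.subtype_injective ⟨g, hg⟩).trans (b _),
    fun b => ⟨inferInstance, h.inj _ K.subtype_injective,
      fun g => (sg_inj h _ K.subtype_injective g).symm.trans (b _ g.2)⟩⟩

theorem HH.sup [Finite G] (N K : Subgroup G) [N.Normal] [K.Normal] (a : HH N) (b : HH K) :
    HH ↥(N ⊔ K) := by
  have h := NN.sup N K a.2.1 b.2.1
  have k : ∀ L : Subgroup G, L.Normal → L ≤ N ⊔ K → HH L → L.subgroupOf (N ⊔ K) ≤ sg.ker :=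
    fun L _ e c => (hh_ker h _).1 (c.iso (Subgroup.subgroupOfEquivOfLe e).symm)
  refine ⟨inferInstance, h, fun g => (sup_le (k N ‹_› le_sup_left a) (k K ‹_› le_sup_right b)) ?_⟩
  rw [← Subgroup.subgroupOf_sup le_sup_left le_sup_right, Subgroup.subgroupOf_self]
  trivial

abbrev S3 := DihedralGroup 3

theorem s3_pe (x : S3) : pe 3 x ↔ x ^ 3 = 1 := by
  refine ⟨fun h => by_contra fun e => ?_, fun h => ⟨1, h⟩⟩
  have := pe_two h ⟨1, (by decide : ∀ x : S3, x ^ 3 ≠ 1 → x ^ 2 ^ 1 = 1) x e⟩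
  exact e (by rw [this, one_pow])

def R3 : Subgroup S3 where
  carrier := {x | x ^ 3 = 1}
  one_mem' := one_pow 3
  mul_mem' := fun {a b} => (by decide : ∀ a b : S3, a ^ 3 = 1 → b ^ 3 = 1 → (a * b) ^ 3 = 1) a b
  inv_mem' := fun {a} => (by decide : ∀ a : S3, a ^ 3 = 1 → a⁻¹ ^ 3 = 1) a

instance : R3.Normal :=
  ⟨fun a h b => (by decide : ∀ a b : S3, a ^ 3 = 1 → (b * a * b⁻¹) ^ 3 = 1) a b h⟩

theorem nn_s3 : NN S3 := ⟨R3, inferInstance, pg_iff.2 fun _ h => ⟨1, h⟩,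
  fun g => ⟨1, (by decide : ∀ g : S3, (g ^ 2 ^ 1) ^ 3 = 1) g⟩⟩

theorem not_s3 : ¬ HH S3 := fun ⟨_, _, h⟩ => by
  have e : cj (.sr 0 : S3) = Equiv.swap ⟨.r 1, 1, by decide⟩ ⟨.r 2, 1, by decide⟩ := by
    refine Equiv.ext fun x => ?_
    rcases (by decide : ∀ x : S3, x ^ 3 = 1 → x = .r 0 ∨ x = .r 1 ∨ x = .r 2) _ ((s3_pe _).1 x.2)
      with e | e | e
    · rw [Equiv.swap_apply_of_ne_of_ne (by simp [Subtype.ext_iff, e]; decide)
        (by simp [Subtype.ext_iff, e]; decide)]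
      exact Subtype.ext (show (.sr 0 : S3) * x.1 * (.sr 0 : S3)⁻¹ = x.1 by rw [e]; decide)
    · rw [show x = ⟨_, 1, by decide⟩ from Subtype.ext e, Equiv.swap_apply_left]
      exact Subtype.ext (show (.sr 0 : S3) * .r 1 * (.sr 0 : S3)⁻¹ = .r 2 by decide)
    · rw [show x = ⟨_, 1, by decide⟩ from Subtype.ext e, Equiv.swap_apply_right]
      exact Subtype.ext (show (.sr 0 : S3) * .r 2 * (.sr 0 : S3)⁻¹ = .r 1 by decide)
  have := h (.sr 0)
  rw [sg, MonoidHom.comp_apply, e] at this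
  have h1 : (⟨.r 1, 1, by decide⟩ : T S3) ≠ ⟨.r 2, 1, by decide⟩ := fun e =>
    (show (.r 1 : S3) ≠ .r 2 by decide) (congrArg Subtype.val e)
  exact (show (1 : ℤˣ) ≠ -1 by decide) (this.symm.trans (by convert Equiv.Perm.sign_swap h1))

theorem ex_D : ∃ (D : Type) (_ : Group D), HH D ∧ ∃ t a : D, pe 2 t ∧ pe 3 a ∧ t * a ≠ a * t := by
  have h : NN (S3 × S3) := ⟨R3.prod R3, inferInstance, pg_iff.2 fun _ h => ⟨1, Prod.ext h.1 h.2⟩,
    fun g => ⟨1, (by decide : ∀ g : S3, (g ^ 2 ^ 1) ^ 3 = 1) _,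
      (by decide : ∀ g : S3, (g ^ 2 ^ 1) ^ 3 = 1) _⟩⟩
  refine ⟨(sg (G := S3 × S3)).ker, _, (hh_ker h _).2 fun _ h => h, ?_⟩
  have a1 : ((.r 1, .r 1) : S3 × S3) ∈ sg.ker := unit_one (pe.map ⟨1, by decide⟩ sg)
  have k : ∀ t ∈ (sg (G := S3 × S3)).ker, t ^ 2 ^ 1 = 1 → t * (.r 1, .r 1) ≠ (.r 1, .r 1) * t →
      ∃ t a : (sg (G := S3 × S3)).ker, pe 2 t ∧ pe 3 a ∧ t * a ≠ a * t := fun t h1 h2 h3 =>
    ⟨⟨t, h1⟩, ⟨_, a1⟩, ⟨1, Subtype.ext h2⟩, ⟨1, Subtype.ext (show ((.r 1, .r 1) : S3 × S3) ^ 3 ^ 1 = 1 by decide)⟩,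
      fun e => h3 (congrArg Subtype.val e)⟩
  rcases Int.units_eq_one_or (sg ((.sr 0, 1) : S3 × S3)) with e | e
  · exact k _ e (by decide) (by decide)
  rcases Int.units_eq_one_or (sg ((1, .sr 0) : S3 × S3)) with e' | e'
  · exact k _ e' (by decide) (by decide)
  exact k ((.sr 0, 1) * (1, .sr 0)) (by rw [MonoidHom.mem_ker, map_mul, e, e']; simp) (by decide) (by decide)

abbrev Cl := (G : Type) → [Group G] → Prop

def Ft (C : Cl) : Prop :=
  (∀ (G K : Type) [Group G] [Group K], Nonempty (G ≃* K) → C G → C K) ∧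
  (∀ (G : Type) [Group G] [Finite G] (N : Subgroup G), N.Normal → C G → C ↥N) ∧
  (∀ (G : Type) [Group G] [Finite G] (N K : Subgroup G),
    N.Normal → K.Normal → C ↥N → C ↥K → C ↥(N ⊔ K))

def Pd (C D : Cl) (G : Type) [Group G] : Prop := ∀ (N : Subgroup G) [N.Normal],
  (C ↥N ∧ ∀ K : Subgroup G, K.Normal → C ↥K → K ≤ N) → D (G ⧸ N)

def NE (p : ℕ) : Cl := fun (Q : Type) [Group Q] =>
  ∃ P : Subgroup Q, P.Normal ∧ IsPGroup p ↥P ∧ Nat.Coprime P.index p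

def Nz (C : Cl) : Prop := ∃ (K : Type) (_ : Group K) (_ : Finite K), C K

def Lc (C : Cl) : Prop := ∃ f : ℕ → Cl, (∀ p, Ft (f p)) ∧ ∀ (G : Type) [Group G] [Finite G], C G ↔
  ((∀ p : ℕ, p.Prime → p ∣ Nat.card G → Nz (f p)) ∧ ∀ p : ℕ, p.Prime → Nz (f p) → Pd (f p) (NE p) G)

theorem pg_ft : Ft fun G _ => IsPGroup 3 G :=
  ⟨fun _ _ _ _ ⟨e⟩ h => h.of_equiv e, fun _ _ _ N _ h => h.to_subgroup N,
    fun _ _ _ _ _ _ _ a b => a.to_sup_of_normal_left b⟩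

theorem hh_ft : Ft HH := ⟨fun _ _ _ _ ⟨e⟩ h => h.iso e, fun _ _ _ N _ h =>
  haveI : N.subtype.range.Normal := by rwa [Subgroup.range_subtype]
  h.inj _ N.subtype_injective, fun _ _ _ N K _ _ a b => HH.sup N K a b⟩

variable {f : Cl}

theorem ex_rad [Finite G] (h : Ft f) (h0 : Nz f) : ∃ N : Subgroup G, N.Normal ∧ f N ∧
    ∀ K : Subgroup G, K.Normal → f K → K ≤ N := by
  obtain ⟨K, _, _, a⟩ := h0
  obtain ⟨N, ⟨h1, h2⟩, hm⟩ := (wellFounded_gt (α := Subgroup G)).has_min {N | N.Normal ∧ f N}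
    ⟨⊥, inferInstance, h.1 _ _ ⟨MulEquiv.ofUnique⟩ (h.2.1 K ⊥ inferInstance a)⟩
  exact ⟨N, h1, h2, fun L a b => le_sup_right.trans (eq_of_le_of_not_lt le_sup_left
    (hm _ ⟨inferInstance, h.2.2 G N L h1 a h2 b⟩)).ge⟩

theorem mem_cop {P : Subgroup G} [P.Normal] {p : ℕ} (h : P.index.Coprime p) {g : G} (hg : pe p g) :
    g ∈ P := by
  obtain ⟨k, hk⟩ := hg
  exact mem_of_cop (h.pow_right k) (P.pow_index_mem g) (hk ▸ one_mem _)

theorem all3 [Finite G] (h : Ft f) (h0 : Nz f) (hG : NN G) (h1 : Pd f (NE 2) G) {t a : G}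
    (ht : pe 2 t) (ha : pe 3 a) (hn : t * a ≠ a * t) (X : Type) [Group X] [Finite X]
    (hX : IsPGroup 3 X) : f X := by
  obtain ⟨N, _, h2, h3⟩ := ex_rad (G := G) h h0
  obtain ⟨P, _, h4, h5⟩ := h1 N ⟨h2, h3⟩
  have c1 : ⁅t, a⁆ ∈ hG.TS := Subgroup.commutator_le_right ⊤ _
    (Subgroup.commutator_mem_commutator (Subgroup.mem_top t) ha)
  have c2 : ⁅t, a⁆ ∈ N := mk_one.1 (pe_two (pe.map c1 _) (pg_iff.1 h4 _ (by
    rw [map_commutatorElement]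
    exact Subgroup.commutator_le_left _ ⊤ (Subgroup.commutator_mem_commutator
      (mem_cop h5 (ht.map _)) (Subgroup.mem_top _)))))
  have hF : FC fun G _ => f G ∧ Finite G ∧ IsPGroup 3 G :=
    ⟨fun _ _ ⟨_, _, a⟩ => ⟨inferInstance, haveI := a.isNilpotent; inferInstance⟩,
      ⟨h.1 _ _ ⟨MulEquiv.ofUnique⟩ (h.2.1 N ⊥ inferInstance h2), inferInstance,
        IsPGroup.of_subsingleton _ _⟩,
      fun _ _ _ _ e ⟨a, _, b⟩ => ⟨h.1 _ _ ⟨e⟩ a, Finite.of_equiv _ e.toEquiv, b.of_equiv e⟩,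
      fun G _ N n ⟨a, _, b⟩ => ⟨h.2.1 G N n a, inferInstance, b.to_subgroup N⟩,
      fun G _ _ N M n m a b => ⟨h.2.2 G N M n m a.1 b.1, inferInstance,
        a.2.2.to_sup_of_normal_left b.2.2⟩⟩
  have h6 : IsPGroup 3 (hG.TS.subgroupOf N) := hG.pg.comap_of_injective _ N.subtype_injective
  have : Nontrivial (hG.TS.subgroupOf N) := ⟨⟨⟨⟨_, c2⟩, c1⟩, 1, fun e =>
    hn (commutatorElement_eq_one_iff_mul_comm.1 (congrArg (fun x => x.1.1) e))⟩⟩
  obtain ⟨n, h7, h8⟩ := h6.nontrivial_iff_card.1 this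
  obtain ⟨u, hu⟩ := exists_prime_orderOf_dvd_card' (G := hG.TS.subgroupOf N) 3
    (h8 ▸ dvd_pow_self 3 h7.ne')
  exact (hF.pgroup ((Nat.card_zpowers u).trans hu) (hF.p_sub h6 _ (Subgroup.zpowers u).subtype_injective
    ⟨h.2.1 N _ inferInstance h2, inferInstance, h6⟩) hX).1

theorem NN.q2 (h : NN G) (N : Subgroup G) [N.Normal] (h1 : h.TS ≤ N) : IsPGroup 2 (G ⧸ N) := fun x => by
  obtain ⟨g, rfl⟩ := mk_surj N x
  exact (h.pw g).imp fun _ e => by rw [← map_pow]; exact mk_one.2 (h1 e)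

theorem NN.cd [Finite G] (h : NN G) : ∃ a b, Nat.card G = 2 ^ a * 3 ^ b := by
  obtain ⟨a, ha⟩ := IsPGroup.iff_card.1 (h.q2 _ le_rfl)
  obtain ⟨b, hb⟩ := IsPGroup.iff_card.1 h.pg
  exact ⟨a, b, by rw [Subgroup.card_eq_card_quotient_mul_card_subgroup h.TS, ha, hb]⟩

theorem NN.pr [Finite G] (h : NN G) {p : ℕ} (hp : p.Prime) (hd : p ∣ Nat.card G) : p = 2 ∨ p = 3 := by
  obtain ⟨a, b, e⟩ := h.cd
  rw [e, hp.dvd_mul] at hd
  exact hd.imp (fun h => (Nat.prime_dvd_prime_iff_eq hp Nat.prime_two).1 (hp.dvd_of_dvd_pow h))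
    fun h => (Nat.prime_dvd_prime_iff_eq hp Nat.prime_three).1 (hp.dvd_of_dvd_pow h)

theorem NN.surj (h : NN G) (π : G →* A) (hπ : Surjective π) : NN A :=
  ⟨h.TS.map π, Subgroup.Normal.map inferInstance π hπ, h.pg.map π, fun a => by
    obtain ⟨g, rfl⟩ := hπ a
    exact (h.pw g).imp fun _ e => ⟨_, e, map_pow _ _ _⟩⟩

theorem NN.lr [Finite G] (h : NN G) {g : ℕ → Cl} (h2 : ∀ (X : Type) [Group X] [Finite X],
    IsPGroup 3 X → g 2 X) (h3 : Nz (g 3)) : (∀ p : ℕ, p.Prime → p ∣ Nat.card G → Nz (g p)) ∧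
      ∀ p : ℕ, p.Prime → Nz (g p) → Pd (g p) (NE p) G := by
  refine ⟨fun p hp hd => ?_, fun p hp _ N _ hN => ?_⟩
  · rcases h.pr hp hd with rfl | rfl
    · exact ⟨Unit, _, inferInstance, h2 _ (IsPGroup.of_subsingleton _ _)⟩
    · exact h3
  have h' := h.surj _ (mk_surj N)
  by_cases e2 : p = 2
  · subst e2
    exact ⟨⊤, inferInstance, (h.q2 N (hN.2 _ inferInstance (h2 _ h.pg))).to_subgroup _, by simp⟩
  by_cases e3 : p = 3
  · subst e3
    obtain ⟨a, ha⟩ := IsPGroup.iff_card.1 (h'.q2 _ le_rfl)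
    exact ⟨h'.TS, inferInstance, h'.pg, by
      rw [Subgroup.index_eq_card, ha]; exact Nat.Coprime.pow_left _ (by norm_num)⟩
  · exact ⟨⊥, inferInstance, IsPGroup.of_bot, by
      rw [Subgroup.index_bot]
      exact (hp.coprime_iff_not_dvd.2 fun hd => (h'.pr hp hd).elim e2 e3).symm⟩

theorem nn_of [Finite G] (N : Subgroup G) [N.Normal] (h : IsPGroup 3 N) (h' : NN (G ⧸ N)) : NN G :=
  ⟨h'.TS.comap (QuotientGroup.mk' N), inferInstance,
    h'.pg.comap_of_ker_isPGroup _ (by rwa [QuotientGroup.ker_mk']),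
    fun g => (h'.pw (QuotientGroup.mk' N g)).imp fun _ e => by rwa [Subgroup.mem_comap, map_pow]⟩

theorem lr_of {g : ℕ → Cl} (hg : ∀ p, Ft (g p)) [Finite G] (hG : NN G) {t a : G} (ht : pe 2 t)
    (ha : pe 3 a) (hn : t * a ≠ a * t) (h : (∀ p : ℕ, p.Prime → p ∣ Nat.card G → Nz (g p)) ∧
      ∀ p : ℕ, p.Prime → Nz (g p) → Pd (g p) (NE p) G) [Finite A] (hA : NN A) :
    (∀ p : ℕ, p.Prime → p ∣ Nat.card A → Nz (g p)) ∧
      ∀ p : ℕ, p.Prime → Nz (g p) → Pd (g p) (NE p) A := by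
  have := Fact.mk Nat.prime_two
  have d : ∀ (p : ℕ) [Fact p.Prime] (x : G), pe p x → x ≠ 1 → Nz (g p) := fun p _ x h1 h2 =>
    h.1 p Fact.out (by exact_mod_cast h1.dvd h2 (c := Nat.card G) (by simp))
  have h2 := d 2 t ht fun e => hn (by simp [e])
  exact hA.lr (all3 (hg 2) h2 hG (h.2 2 Nat.prime_two h2) ht ha hn) (d 3 a ha fun e => hn (by simp [e]))

theorem nn_lc : Lc NN := by
  let g : ℕ → Cl := fun p G _ => (p = 2 ∨ p = 3) ∧ IsPGroup 3 G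
  refine ⟨g, fun p => ⟨fun _ _ _ _ e h => ⟨h.1, pg_ft.1 _ _ e h.2⟩,
    fun _ _ _ N n h => ⟨h.1, pg_ft.2.1 _ N n h.2⟩,
    fun _ _ _ N K n k a b => ⟨a.1, pg_ft.2.2 _ N K n k a.2 b.2⟩⟩, fun G _ _ => ⟨fun h => h.lr
      (fun _ _ _ h => ⟨Or.inl rfl, h⟩)
      ⟨Unit, _, inferInstance, Or.inr rfl, IsPGroup.of_subsingleton _ _⟩, fun ⟨h1, h2⟩ => ?_⟩⟩
  have z : Nz (g 3) := ⟨Unit, _, inferInstance, Or.inr rfl, IsPGroup.of_subsingleton _ _⟩
  obtain ⟨N, _, h3, h4⟩ := ex_rad (G := G) pg_ft (z.imp fun _ h => h.imp fun _ h => h.imp fun _ h => h.2)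
  obtain ⟨P, _, h5, h6⟩ := h2 3 Nat.prime_three z N ⟨⟨Or.inr rfl, h3⟩, fun K a b => h4 K a b.2⟩
  refine nn_of N h3 ⟨P, ‹_›, h5, fun x => ⟨P.index.primeFactorsList.length, ?_⟩⟩
  rw [← Nat.eq_prime_pow_of_unique_prime_dvd P.index_ne_zero_of_finite fun hq hd => ?_]
  · exact P.pow_index_mem x
  obtain ⟨_, _, _, e | e, -⟩ := h1 _ hq (hd.trans (P.index_dvd_card.trans (N.card_quotient_dvd_card)))
  · exact e
  · exact absurd (Nat.Coprime.eq_one_of_dvd h6.symm (e ▸ hd)) (by norm_num)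

theorem main : ¬ Lc HH := fun ⟨g, hg, h⟩ => by
  obtain ⟨D, _, ⟨_, a, b⟩, t, x, h1, h2, h3⟩ := ex_D
  exact not_s3 ((h S3).2 (lr_of hg a h1 h2 h3 ((h D).1 ⟨_, a, b⟩) nn_s3))

theorem nn_pd [Finite G] : NN G ↔ Pd (fun G _ => IsPGroup 3 G) HH G := by
  refine ⟨fun h N _ hN => ?_, fun h => ?_⟩
  · have h1 := h.q2 N (hN.2 _ inferInstance h.pg)
    have h2 := h.surj _ (mk_surj N)
    have : Subsingleton (T (G ⧸ N)) := ⟨fun a b => Subtype.ext
      ((pe_two a.2 (h1 _)).trans (pe_two b.2 (h1 _)).symm)⟩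
    exact ⟨inferInstance, h2, fun g => by
      rw [sg, MonoidHom.comp_apply, Subsingleton.elim (cj g) 1, map_one]⟩
  · obtain ⟨N, _, h3, h4⟩ := ex_rad (G := G) pg_ft
      ⟨Unit, _, inferInstance, IsPGroup.of_subsingleton _ _⟩
    exact nn_of N h3 (h N ⟨h3, h4⟩).2.1

theorem NN.sol [Finite G] (h : NN G) : Group.IsSolvable G :=
  haveI := Fact.mk Nat.prime_two
  haveI := h.pg.isNilpotent
  haveI := (h.q2 _ le_rfl).isNilpotent
  solvable_of_ker_le_range h.TS.subtype (QuotientGroup.mk' h.TS) (by simp)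

end Pool.Agent.H68.Lp
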