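import Mathlib

namespace Pool.Agent.H68.Md

open Relation

variable {T : Type*} (R : T → T → T → Prop)

def Sh (w : ℕ → T) (n : ℕ) : Prop := R (w n) (w (n + 1)) (w (n + 2))

def mv (w : ℕ → T) (n : ℕ) : ℕ → T :=
  fun k => if k = n then w (n + 2) else if k = n + 2 then w n else w k

def St (w w' : ℕ → T) : Prop := ∃ n, Sh R w n ∧ w' = mv w n

structure Ax : Prop where
  symm : ∀ a x b, R a x b → R b x a
  fn : ∀ a x b b', R a x b → R a x b' → b = b'
  irr : ∀ a x, ¬ R a x a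

def Lip (G : ℕ → ℤ) : Prop := ∀ k, G k ≤ G (k + 2) ∧ G (k + 2) ≤ G k + 1

def In (lo hi G : ℕ → ℤ) : Prop := Lip G ∧ ∀ k, lo k ≤ G k ∧ G k ≤ hi k

def Ph (tok : ℕ → ℤ → ℤ → T) (G : ℕ → ℤ) : ℕ → T := fun k => tok k (G k) (G (k + 2))

structure Str (m : ℕ) (lo hi : ℕ → ℤ) (tok : ℕ → ℤ → ℤ → T) : Prop where
  ll : Lip lo
  lh : Lip hi
  le : ∀ k, lo k ≤ hi k
  p0 : ∀ k, k < 2 ∨ m ≤ k → lo k = hi k
  sep : ∀ k, lo k = hi k ∨ lo (k + 1) = hi (k + 1)
  c1 : ∀ n a, lo (n + 2) ≤ a → a + 1 ≤ hi (n + 2) → tok n a a = tok (n + 2) (a + 1) (a + 1)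
  c2 : ∀ n a, lo (n + 2) ≤ a → a + 1 ≤ hi (n + 2) → tok (n + 2) a (a + 1) = tok n a (a + 1)
  c3 : ∀ n a, lo (n + 2) ≤ a → a + 1 ≤ hi (n + 2) →
    R (tok n a a) (tok (n + 1) (lo (n + 1)) (lo (n + 3))) (tok n a (a + 1))

variable {R} {m : ℕ} {lo hi G : ℕ → ℤ} {tok : ℕ → ℤ → ℤ → T} {w : ℕ → T}

theorem mv_out {n k : ℕ} (h : k ≠ n) (h2 : k ≠ n + 2) : mv w n k = w k := by simp [mv, h, h2]
theorem mv0 (n : ℕ) : mv w n n = w (n + 2) := by simp [mv]
theorem mv2 (n : ℕ) : mv w n (n + 2) = w n := by simp [mv]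

theorem mv_mv (n : ℕ) : mv (mv w n) n = w := by
  funext k
  by_cases h0 : k = n
  · rw [h0, mv0, mv2]
  by_cases h2 : k = n + 2
  · rw [h2, mv2, mv0]
  rw [mv_out h0 h2, mv_out h0 h2]

theorem Sh.mv (hA : Ax R) {n : ℕ} (h : Sh R w n) : Sh R (mv w n) n := by
  unfold Sh; rw [mv0, mv2, mv_out (by omega) (by omega)]; exact hA.symm _ _ _ h

theorem St.symm (hA : Ax R) {w' : ℕ → T} (h : St R w w') : St R w' w := by
  obtain ⟨n, h, rfl⟩ := h
  exact ⟨n, h.mv hA, (mv_mv n).symm⟩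

theorem Str.pin (hS : Str R m lo hi tok) (hG : In lo hi G) {n : ℕ} (h : lo (n + 2) < hi (n + 2)) :
    G (n + 1) = lo (n + 1) ∧ G (n + 3) = lo (n + 3) := by
  have a1 : _ ∨ lo (n + 2) = hi (n + 2) := hS.sep (n + 1)
  have a2 : _ ∨ lo (n + 3) = hi (n + 3) := hS.sep (n + 2)
  have := hG.2 (n + 1); have := hG.2 (n + 3); omega

theorem in_upd (hG : In lo hi G) {n : ℕ} {y : ℤ} (h1 : lo (n + 2) ≤ y) (h2 : y ≤ hi (n + 2))
    (h3 : G n ≤ y) (h4 : y ≤ G n + 1) (h5 : y ≤ G (n + 4)) (h6 : G (n + 4) ≤ y + 1) :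
    In lo hi (Function.update G (n + 2) y) := by
  refine ⟨fun k => ?_, fun k => ?_⟩
  · by_cases e : k = n
    · subst e; rw [Function.update_self, Function.update_of_ne (by omega)]; omega
    by_cases e2 : k = n + 2
    · subst e2; rw [Function.update_self, Function.update_of_ne (by omega)]; exact ⟨h5, h6⟩
    rw [Function.update_of_ne e2, Function.update_of_ne (by omega)]; exact hG.1 k
  · by_cases e2 : k = n + 2
    · subst e2; rw [Function.update_self]; omega
    rw [Function.update_of_ne e2]; exact hG.2 k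

theorem flipU (hS : Str R m lo hi tok) (hG : In lo hi G) {n : ℕ} {a : ℤ} (h0 : G n = a)
    (h2 : G (n + 2) = a) (h4 : G (n + 4) = a + 1) (hh : a + 1 ≤ hi (n + 2)) :
    Sh R (Ph tok G) n ∧ mv (Ph tok G) n = Ph tok (Function.update G (n + 2) (a + 1)) := by
  have hl : lo (n + 2) ≤ a := h2 ▸ (hG.2 _).1
  have hp := hS.pin hG (n := n) (by omega)
  constructor
  · have := hS.c3 n a hl hh
    rw [← hS.c2 n a hl hh] at this
    simpa only [Sh, Ph, h0, h2, h4, hp.1, hp.2] using this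
  · funext k
    by_cases e : k = n
    · subst e
      rw [mv0]; simp only [Ph]
      rw [Function.update_self, Function.update_of_ne (by omega), h0, h2, h4]
      exact hS.c2 k a hl hh
    by_cases e2 : k = n + 2
    · subst e2
      rw [mv2]; simp only [Ph]
      rw [Function.update_self, Function.update_of_ne (by omega), h0, h2, h4]
      exact hS.c1 n a hl hh
    rw [mv_out e e2]; simp only [Ph]
    rw [Function.update_of_ne e2, Function.update_of_ne (by omega)]

theorem flipD (hA : Ax R) (hS : Str R m lo hi tok) (hG : In lo hi G) {n : ℕ} {a : ℤ} (h0 : G n = a)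
    (h2 : G (n + 2) = a + 1) (h4 : G (n + 4) = a + 1) (hl : lo (n + 2) ≤ a) :
    Sh R (Ph tok G) n ∧ mv (Ph tok G) n = Ph tok (Function.update G (n + 2) a) := by
  have hh : a + 1 ≤ hi (n + 2) := h2 ▸ (hG.2 _).2
  have := flipU hS (in_upd (y := a) hG hl (by omega) (by omega) (by omega) (by omega) (by omega))
    (n := n) (a := a) (by rw [Function.update_of_ne (by omega), h0]) (by simp)
    (by rw [Function.update_of_ne (by omega), h4]) hh
  rw [Function.update_idem, ← h2, Function.update_eq_self] at this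
  rw [← this.2]
  exact ⟨this.1.mv hA, mv_mv n⟩

def dd (m : ℕ) (G G' : ℕ → ℤ) : ℕ := ∑ k ∈ Finset.range m, (G k - G' k).natAbs

theorem dd_upd {G' : ℕ → ℤ} {k : ℕ} (hk : k < m) (y : ℤ) :
    dd m (Function.update G k y) G' + (G k - G' k).natAbs = dd m G G' + (y - G' k).natAbs := by
  unfold dd
  rw [← Finset.add_sum_erase _ _ (Finset.mem_range.2 hk), ← Finset.add_sum_erase _ _ (Finset.mem_range.2 hk),
    Function.update_self, Finset.sum_congr rfl fun j hj => by
      rw [Function.update_of_ne (Finset.ne_of_mem_erase hj)]]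
  omega

theorem descent (hA : Ax R) (hS : Str R m lo hi tok) (hG : In lo hi G) {G' : ℕ → ℤ}
    (hG' : In lo hi G') (h : dd m G G' ≠ 0) : ∃ n G₁, In lo hi G₁ ∧ Sh R (Ph tok G) n ∧
      mv (Ph tok G) n = Ph tok G₁ ∧ dd m G₁ G' + 1 = dd m G G' := by
  classical
  have rg : ∀ k, G k ≠ G' k → 2 ≤ k ∧ k < m := fun k hk => by
    have := hS.p0 k; have := hG.2 k; have := hG'.2 k; omega
  by_cases h1 : ∃ k, G k < G' k
  · obtain ⟨k, hk, hm⟩ := Finset.exists_min_image ((Finset.range m).filter fun k => G k < G' k)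
      (fun k => 4 * G k - k) (by
        obtain ⟨k, hk⟩ := h1; exact ⟨k, by simp [hk, (rg k hk.ne).2]⟩)
    have hm' : ∀ j, G j < G' j → 4 * G k - k ≤ 4 * G j - j := fun j hj =>
      hm j (by simp [hj, (rg j hj.ne).2])
    have hk := (Finset.mem_filter.1 hk).2
    obtain ⟨n, rfl⟩ : ∃ n, k = n + 2 := ⟨k - 2, by have := rg k hk.ne; omega⟩
    have a1 := hG.1 n; have a2 : _ ∧ G (n + 4) ≤ _ := hG.1 (n + 2)
    have b1 := hG'.1 n; have b2 : _ ∧ G' (n + 4) ≤ _ := hG'.1 (n + 2)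
    have c1 := hm' n; have c2 := hm' (n + 4)
    have d1 := hG'.2 (n + 2); have d2 := hG.2 (n + 2)
    push_cast at c1 c2
    have e2 : (G (n + 2) ≤ G (n + 4)) := a2.1
    have e3 : (G' (n + 2) ≤ G' (n + 4)) := b2.1
    have := flipU hS hG (n := n) (a := G (n + 2)) (by omega) rfl (by omega) (by omega)
    refine ⟨n, _, in_upd hG ?_ ?_ ?_ ?_ ?_ ?_, this.1, this.2, ?_⟩
    iterate 6 omega
    have := dd_upd (G := G) (G' := G') (rg _ hk.ne).2 (G (n + 2) + 1)
    omega
  · have h2 : ∃ k, G' k < G k := by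
      by_contra h2
      push Not at h1 h2
      exact h (Finset.sum_eq_zero fun k _ => by have := h1 k; have := h2 k; omega)
    obtain ⟨k, hk, hm⟩ := Finset.exists_max_image ((Finset.range m).filter fun k => G' k < G k)
      (fun k => 4 * G k - k) (by
        obtain ⟨k, hk⟩ := h2; exact ⟨k, by simp [hk, (rg k hk.ne').2]⟩)
    have hm' : ∀ j, G' j < G j → 4 * G j - j ≤ 4 * G k - k := fun j hj =>
      hm j (by simp [hj, (rg j hj.ne').2])
    have hk := (Finset.mem_filter.1 hk).2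
    obtain ⟨n, rfl⟩ : ∃ n, k = n + 2 := ⟨k - 2, by have := rg k hk.ne'; omega⟩
    have a1 := hG.1 n; have a2 : _ ∧ G (n + 4) ≤ _ := hG.1 (n + 2)
    have b1 := hG'.1 n; have b2 : _ ∧ G' (n + 4) ≤ _ := hG'.1 (n + 2)
    have c1 := hm' n; have c2 := hm' (n + 4)
    have d1 := hG'.2 (n + 2); have d2 := hG.2 (n + 2)
    push_cast at c1 c2
    have e2 : (G (n + 2) ≤ G (n + 4)) := a2.1
    have e3 : (G' (n + 2) ≤ G' (n + 4)) := b2.1
    have := flipD hA hS hG (n := n) (a := G n) rfl (by omega) (by omega) (by omega)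
    refine ⟨n, _, in_upd hG ?_ ?_ ?_ ?_ ?_ ?_, this.1, this.2, ?_⟩
    iterate 6 omega
    have := dd_upd (G := G) (G' := G') (rg _ hk.ne').2 (G n)
    omega

theorem dd_zero (hS : Str R m lo hi tok) (hG : In lo hi G) {G' : ℕ → ℤ} (hG' : In lo hi G')
    (h : dd m G G' = 0) : G = G' := by
  funext k
  by_cases hk : k < m
  · have := Finset.sum_eq_zero_iff.1 h k (Finset.mem_range.2 hk); omega
  · have := hS.p0 k; have := hG.2 k; have := hG'.2 k; omega

theorem conn (hA : Ax R) (hS : Str R m lo hi tok) (hG : In lo hi G) {G' : ℕ → ℤ}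
    (hG' : In lo hi G') : ReflTransGen (St R) (Ph tok G) (Ph tok G') := by
  induction hd : dd m G G' generalizing G with
  | zero => rw [dd_zero hS hG hG' hd]
  | succ d ih =>
    obtain ⟨n, G₁, a1, a2, a3, a4⟩ := descent hA hS hG hG' (by omega)
    exact .head ⟨n, a2, a3.symm⟩ (ih a1 (by omega))

theorem Str.dA (hA : Ax R) (hS : Str R m lo hi tok) {n : ℕ} {a : ℤ} (h1 : lo (n + 2) ≤ a)
    (h2 : a + 1 ≤ hi (n + 2)) : tok n a a ≠ tok n a (a + 1) :=
  fun e => hA.irr _ _ (e ▸ hS.c3 n a h1 h2)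

theorem ph_inj (hA : Ax R) (hS : Str R m lo hi tok) (hG : In lo hi G) {G' : ℕ → ℤ}
    (hG' : In lo hi G') (h : Ph tok G = Ph tok G') : G = G' := by
  funext k
  induction k using Nat.strong_induction_on with
  | _ k ih =>
    by_cases hk : k < 2
    · have := hS.p0 k; have := hG.2 k; have := hG'.2 k; omega
    obtain ⟨n, rfl⟩ : ∃ n, k = n + 2 := ⟨k - 2, by omega⟩
    have e := congrFun h n
    simp only [Ph] at e
    have e1 := ih n (by omega)
    have := hG.1 n; have := hG'.1 n; have := hG.2 (n + 2); have := hG'.2 (n + 2)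
    by_contra hc
    rw [← e1] at e
    rcases lt_or_gt_of_ne hc with h1 | h1
    · rw [show G (n + 2) = G n by omega, show G' (n + 2) = G n + 1 by omega] at e
      exact hS.dA hA (by omega) (by omega) e
    · rw [show G' (n + 2) = G n by omega, show G (n + 2) = G n + 1 by omega] at e
      exact hS.dA hA (by omega) (by omega) e.symm

end Pool.Agent.H68.Md
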