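import Pool.Agent.H68.Md1

namespace Pool.Agent.H68.Md

open Relation

variable {T : Type*} {R : T → T → T → Prop} {m : ℕ} {lo hi G : ℕ → ℤ} {tok : ℕ → ℤ → ℤ → T}

theorem exists3 (hS : Str R m lo hi tok) (hG : In lo hi G) (v : ℕ) {x y z : ℤ}
    (hx : lo v ≤ x ∧ x ≤ hi v) (hy : lo (v + 2) ≤ y ∧ y ≤ hi (v + 2))
    (hz : lo (v + 4) ≤ z ∧ z ≤ hi (v + 4)) (h1 : x ≤ y ∧ y ≤ x + 1) (h2 : y ≤ z ∧ z ≤ y + 1) :
    ∃ G', In lo hi G' ∧ G' v = x ∧ G' (v + 2) = y ∧ G' (v + 4) = z ∧ ∀ k, k % 2 ≠ v % 2 → G' k = G k := by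
  let f : ℕ → ℤ := fun k => if k % 2 ≠ v % 2 then G k else if k ≤ v then x else if k ≤ v + 2 then y else z
  have hf : Lip f := fun k => by
    have := hG.1 k
    simp only [f]; split_ifs <;> omega
  refine ⟨fun k => max (lo k) (min (hi k) (f k)), ⟨fun k => ?_, fun k => ?_⟩, ?_, ?_, ?_, fun k hk => ?_⟩
  · have := hf k; have := hS.ll k; have := hS.lh k; simp only; omega
  · have := hS.le k; simp only; omega
  · have : f v = x := by simp [f]
    simp only; omega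
  · have : f (v + 2) = y := by simp [f]
    simp only; omega
  · have : f (v + 4) = z := by simp only [f]; rw [if_neg (by omega), if_neg (by omega), if_neg (by omega)]
    simp only; omega
  · have : f k = G k := by simp only [f]; rw [if_pos hk]
    have := hG.2 k
    simp only; omega

theorem mobile (hA : Ax R) (hS : Str R m lo hi tok) (hG : In lo hi G) {q : ℕ}
    (h : lo q < hi q ∨ lo (q + 2) < hi (q + 2)) :
    ∃ G', In lo hi G' ∧ G' q = G q ∧ G' (q + 2) = G (q + 2) ∧ (∀ k, k % 2 ≠ q % 2 → G' k = G k) ∧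
      (Sh R (Ph tok G') q ∨ ∃ p, q = p + 2 ∧ Sh R (Ph tok G') p) := by
  have a1 := hG.1 q; have a2 := hG.2 q; have a3 := hG.2 (q + 2)
  have b1 := hS.ll q; have b2 := hS.lh q
  have b3 : lo (q + 2) ≤ lo (q + 4) ∧ lo (q + 4) ≤ _ := hS.ll (q + 2)
  have b4 : hi (q + 2) ≤ hi (q + 4) ∧ hi (q + 4) ≤ _ := hS.lh (q + 2)
  by_cases h1 : (G (q + 2) = G q ∧ G q + 1 ≤ hi (q + 2)) ∨ (G (q + 2) = G q + 1 ∧ lo (q + 2) ≤ G q)
  · obtain ⟨G', c1, c2, c3, c4, c5⟩ := exists3 hS hG q (z := G q + 1) a2 a3 (by omega) a1 (by omega)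
    refine ⟨G', c1, c2, c3, c5, Or.inl ?_⟩
    rcases h1 with h1 | h1
    · exact (flipU hS c1 c2 (c3.trans h1.1) c4 h1.2).1
    · exact (flipD hA hS c1 c2 (c3.trans h1.1) c4 h1.2).1
  · obtain ⟨p, rfl⟩ : ∃ p, q = p + 2 := ⟨q - 2, by have := hS.p0 q; omega⟩
    have b5 := hS.ll p; have b6 := hS.lh p
    obtain ⟨G', c1, c2, c3, c4, c5⟩ := exists3 hS hG p (x := G (p + 2 + 2) - 1) (by omega) a2 a3
      (by omega) a1
    refine ⟨G', c1, c3, c4, fun k hk => c5 k (by omega), Or.inr ⟨p, rfl, ?_⟩⟩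
    by_cases h2 : G (p + 2 + 2) = G (p + 2)
    · exact (flipD hA hS c1 c2 (by omega) (by omega) (by omega)).1
    · exact (flipU hS c1 c2 (by omega) (by omega) (by omega)).1

def Good (R : T → T → T → Prop) (w : ℕ → T) : Prop :=
  ∀ w', ReflTransGen (St R) w w' → ∀ n, Sh R w' n → ¬ Sh R w' (n + 1)

theorem noadj (hA : Ax R) (hS : Str R m lo hi tok) (hG : In lo hi G) (hg : Good R (Ph tok G)) {n : ℕ}
    (hs : Sh R (Ph tok G) n) : lo (n + 1) = hi (n + 1) ∧ lo (n + 3) = hi (n + 3) := by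
  by_contra hc
  have l1 := hS.le (n + 1); have l2 := hS.le (n + 3)
  obtain ⟨G', c1, c2, c3, c4, c5⟩ := mobile hA hS hG (q := n + 1) (by
    change _ ∨ lo (n + 3) < hi (n + 3); omega)
  have hs' : Sh R (Ph tok G') n := by
    simp only [Sh, Ph] at hs ⊢
    rwa [c2, c3, c4 n (by omega), c4 (n + 2) (by omega), c4 (n + 2 + 2) (by omega)]
  rcases c5 with c5 | ⟨p, e, c5⟩
  · exact hg _ (conn hA hS hG c1) n hs' c5
  · exact hg _ (conn hA hS hG c1) p c5 (by rwa [show p + 1 = n by omega])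

theorem pinch (hA : Ax R) (hS : Str R m lo hi tok) (hG : In lo hi G) {n : ℕ}
    (hs : Sh R (Ph tok G) n) (h : G (n + 4) - G (n + 2) = G (n + 2) - G n) : lo (n + 2) = hi (n + 2) := by
  by_contra hc
  have l1 := hS.le (n + 2)
  have hp := hS.pin hG (n := n) (by omega)
  simp only [Sh, Ph] at hs
  rw [hp.1, show G (n + 1 + 2) = lo (n + 3) from hp.2, show n + 2 + 2 = n + 4 from rfl] at hs
  have a1 := hG.1 n; have a2 := hG.2 n; have a3 := hG.2 (n + 2); have a4 := hG.2 (n + 4)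
  have b1 := hS.ll n; have b2 := hS.lh n
  have b3 : lo (n + 2) ≤ lo (n + 4) ∧ lo (n + 4) ≤ _ := hS.ll (n + 2)
  have b4 : hi (n + 2) ≤ hi (n + 4) ∧ hi (n + 4) ≤ _ := hS.lh (n + 2)
  have dB : ∀ a, lo n ≤ a → a + 1 ≤ hi n → tok n (a + 1) (a + 1) ≠ tok n a (a + 1) := by
    intro a h1 h2
    obtain ⟨p, rfl⟩ : ∃ p, n = p + 2 := ⟨n - 2, by have := hS.p0 n; omega⟩
    rw [← hS.c1 p a h1 h2, hS.c2 p a h1 h2]; exact hS.dA hA h1 h2
  have dA : ∀ a, lo (n + 4) ≤ a → a + 1 ≤ hi (n + 4) → tok (n + 2) a a ≠ tok (n + 2) a (a + 1) :=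
    fun a h1 h2 => hS.dA hA h1 h2
  generalize G n = a at *
  by_cases h1 : G (n + 2) = a
  · rw [h1, show G (n + 4) = a by omega] at hs
    by_cases h2 : a + 1 ≤ hi (n + 2)
    · have := hA.fn _ _ _ _ hs (hS.c3 n a (by omega) h2)
      rw [← hS.c2 n a (by omega) h2] at this
      exact dA a (by omega) (by omega) this
    · obtain ⟨b, rfl⟩ : ∃ b, a = b + 1 := ⟨a - 1, by omega⟩
      have h3 := hS.c3 n b (by omega) (by omega)
      rw [hS.c1 n b (by omega) (by omega)] at h3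
      exact dB b (by omega) (by omega) (hA.fn _ _ _ _ (hA.symm _ _ _ hs) h3)
  · rw [show G (n + 2) = a + 1 by omega, show G (n + 4) = a + 1 + 1 by omega] at hs
    by_cases h2 : lo (n + 2) ≤ a
    · have h3 := hA.symm _ _ _ (hS.c3 n a h2 (by omega))
      rw [hS.c1 n a h2 (by omega)] at h3
      exact dA (a + 1) (by omega) (by omega) (hA.fn _ _ _ _ h3 hs)
    · have h3 := hS.c3 n (a + 1) (by omega) (by omega)
      rw [← hS.c2 n (a + 1) (by omega) (by omega)] at h3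
      exact dB a (by omega) (by omega) (hA.fn _ _ _ _ (hA.symm _ _ _ h3) (hA.symm _ _ _ hs))

theorem extend (hA : Ax R) (hS : Str R m lo hi tok) (hG : In lo hi G) (hg : Good R (Ph tok G)) {n : ℕ}
    (hs : Sh R (Ph tok G) n) (hm : n + 2 < m) (h2 : G (n + 2) = G n) (h4 : G (n + 4) = G n + 1)
    (hh : hi (n + 2) = G n) : ∃ hi' tok', Str R m lo hi' tok' ∧ In lo hi' G ∧ Ph tok' G = Ph tok G ∧
      dd m hi' lo = dd m hi lo + 1 := by
  classical
  have hn := noadj hA hS hG hg hs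
  have a2 := hG.2 n; have a3 := hG.2 (n + 2); have a4 := hG.2 (n + 4)
  have a5 := hG.2 (n + 1); have a6 := hG.2 (n + 3)
  have b1 := hS.ll n; have b2 := hS.lh n
  have b3 : lo (n + 2) ≤ lo (n + 4) ∧ lo (n + 4) ≤ _ := hS.ll (n + 2)
  have b4 : hi (n + 2) ≤ hi (n + 4) ∧ hi (n + 4) ≤ _ := hS.lh (n + 2)
  simp only [Sh, Ph] at hs
  rw [show n + 2 + 2 = n + 4 from rfl, show n + 1 + 2 = n + 3 from rfl, h2, h4,
    show G (n + 1) = lo (n + 1) by omega, show G (n + 3) = lo (n + 3) by omega] at hs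
  generalize G n = a at *
  let tok' : ℕ → ℤ → ℤ → T := fun k x y => if k = n ∧ y = a + 1 then tok (n + 2) a (a + 1)
    else if k = n + 2 ∧ x = a + 1 then tok n a a else tok k x y
  have t0 : ∀ k x y, ¬ (k = n ∧ y = a + 1) → ¬ (k = n + 2 ∧ x = a + 1) → tok' k x y = tok k x y :=
    fun k x y h1 h2 => by simp only [tok', if_neg h1, if_neg h2]
  have t1 : tok' n a (a + 1) = tok (n + 2) a (a + 1) := by simp [tok']
  have t2 : tok' (n + 2) (a + 1) (a + 1) = tok n a a := by simp [tok']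
  have u0 : ∀ k, k ≠ n + 2 → Function.update hi (n + 2) (a + 1) k = hi k :=
    fun k hk => Function.update_of_ne hk _ _
  have u1 : Function.update hi (n + 2) (a + 1) (n + 2) = a + 1 := Function.update_self ..
  have hI := in_upd (lo := lo) (hi := fun k => hi k + 1) (G := hi) (n := n) (y := a + 1)
    ⟨hS.lh, fun k => ⟨hS.le k, by simp⟩⟩ (by omega) (by omega) (by omega) (by omega) (by omega) (by omega)
  have old : ∀ k b, lo (k + 2) ≤ b → b + 1 ≤ Function.update hi (n + 2) (a + 1) (k + 2) →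
      ¬ (k = n ∧ b = a) → b + 1 ≤ hi (k + 2) := fun k b h1 h2 h3 => by
    by_cases e : k = n
    · subst e; rw [u1] at h2; omega
    · rwa [u0 _ (by omega)] at h2
  refine ⟨_, tok', ⟨hS.ll, hI.1, fun k => (hI.2 k).1, fun k hk => ?_, fun k => ?_, fun k b h1 h2 => ?_,
    fun k b h1 h2 => ?_, fun k b h1 h2 => ?_⟩, ⟨hG.1, fun k => ?_⟩, ?_, ?_⟩
  · rw [u0 k (by omega)]; exact hS.p0 k hk
  · by_cases e : k = n + 2
    · right; rw [e, u0 _ (by omega)]; exact hn.2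
    by_cases e2 : k = n + 1
    · left; rw [e2, u0 _ (by omega)]; exact hn.1
    rw [u0 _ e, u0 _ (by omega)]; exact hS.sep k
  · by_cases e : k = n ∧ b = a
    · rw [e.1, e.2, t2, t0 _ _ _ (by omega) (by omega)]
    · have h3 := old k b h1 h2 e
      rw [t0 _ _ _ (by rintro ⟨rfl, _⟩; omega) (by rintro ⟨rfl, _⟩; change _ ≤ hi (n + 4) at h3; omega),
        t0 _ _ _ (by rintro ⟨rfl, _⟩; omega) (by omega)]
      exact hS.c1 k b h1 h3
  · by_cases e : k = n ∧ b = a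
    · rw [e.1, e.2, t1, t0 _ _ _ (by omega) (by omega)]
    · have h3 := old k b h1 h2 e
      rw [t0 _ _ _ (by rintro ⟨rfl, _⟩; omega) (by rintro ⟨e, _⟩; rw [e] at h3; omega),
        t0 _ _ _ (by omega) (by rintro ⟨rfl, _⟩; change _ ≤ hi (n + 4) at h3; omega)]
      exact hS.c2 k b h1 h3
  · by_cases e : k = n ∧ b = a
    · rw [e.1, e.2, t1, t0 _ _ _ (by omega) (by omega), t0 _ _ _ (by omega) (by omega)]; exact hs
    · have h3 := old k b h1 h2 e
      rw [t0 _ _ _ (by rintro ⟨rfl, _⟩; omega) (by rintro ⟨rfl, _⟩; change _ ≤ hi (n + 4) at h3; omega),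
        t0 _ _ _ (by rintro ⟨rfl, h⟩; change lo (k + 1 + 2) = _ at h; omega)
          (by rintro ⟨e, h⟩; rw [e] at h; omega),
        t0 _ _ _ (by omega) (by rintro ⟨rfl, _⟩; change _ ≤ hi (n + 4) at h3; omega)]
      exact hS.c3 k b h1 h3
  · by_cases e : k = n + 2
    · rw [e, u1]; omega
    · rw [u0 k e]; exact hG.2 k
  · funext k
    exact t0 _ _ _ (by rintro ⟨rfl, _⟩; omega) (by rintro ⟨rfl, _⟩; omega)
  · have := dd_upd (G := hi) (G' := lo) hm (a + 1)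
    omega

theorem reflect (hA : Ax R) (hS : Str R m lo hi tok) {v : ℕ} (hv : lo v = hi v) :
    ∃ lo' hi' tok', Str R m lo' hi' tok' ∧ dd m hi' lo' = dd m hi lo ∧
      (∀ k, hi' k - lo' k = hi k - lo k) ∧ ∀ G, In lo hi G → ∃ G', In lo' hi' G' ∧
        Ph tok' G' = Ph tok G ∧ ∀ k, (¬ (v ≤ k ∧ k % 2 = v % 2) → G' (k + 2) - G' k = G (k + 2) - G k) ∧
          (v ≤ k ∧ k % 2 = v % 2 → G' (k + 2) - G' k = 1 - (G (k + 2) - G k) ∧
            hi' k - G' k = G k - lo k) := by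
  let c : ℕ → ℤ := fun k => 2 * lo v + ((k - v) / 2 : ℕ)
  let r : ℕ → ℤ → ℤ := fun k x => if v ≤ k ∧ k % 2 = v % 2 then c k - x else x
  have r1 : ∀ k x, v ≤ k ∧ k % 2 = v % 2 → r k x = c k - x := fun k x h => if_pos h
  have r0 : ∀ k x, ¬ (v ≤ k ∧ k % 2 = v % 2) → r k x = x := fun k x h => if_neg h
  have cs : ∀ k, v ≤ k → c (k + 2) = c k + 1 := fun k h => by simp only [c]; omega
  have cv : c v = 2 * lo v := by simp [c]
  have st : ∀ G, In lo hi G → ∀ k,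
      (¬ (v ≤ k ∧ k % 2 = v % 2) → r (k + 2) (G (k + 2)) - r k (G k) = G (k + 2) - G k) ∧
      (v ≤ k ∧ k % 2 = v % 2 → r (k + 2) (G (k + 2)) - r k (G k) = 1 - (G (k + 2) - G k)) := by
    intro G hG k
    refine ⟨fun h => ?_, fun h => ?_⟩
    · rw [r0 k _ h]
      by_cases e : k + 2 = v
      · have := hG.2 v
        rw [e, r1 v _ ⟨le_rfl, rfl⟩]; omega
      · rw [r0 _ _ (by omega)]
    · rw [r1 k _ h, r1 _ _ (by omega), cs k h.1]; omega
  have lp : ∀ G, In lo hi G → Lip fun k => r k (G k) := fun G hG k => by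
    have := st G hG k; have := hG.1 k; simp only; omega
  have Il : In lo hi lo := ⟨hS.ll, fun k => ⟨le_rfl, hS.le k⟩⟩
  have Ih : In lo hi hi := ⟨hS.lh, fun k => ⟨hS.le k, le_rfl⟩⟩
  let lo' : ℕ → ℤ := fun k => min (r k (lo k)) (r k (hi k))
  let hi' : ℕ → ℤ := fun k => max (r k (lo k)) (r k (hi k))
  have e1 : ∀ k, v ≤ k ∧ k % 2 = v % 2 → lo' k = c k - hi k ∧ hi' k = c k - lo k := fun k h => by
    have := hS.le k; simp only [lo', hi', r1 k _ h]; omega
  have e0 : ∀ k, ¬ (v ≤ k ∧ k % 2 = v % 2) → lo' k = lo k ∧ hi' k = hi k := fun k h => by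
    have := hS.le k; simp only [lo', hi', r0 k _ h]; omega
  have df : ∀ k, hi' k - lo' k = hi k - lo k := fun k => by have := e1 k; have := e0 k; omega
  have pin : ∀ k, lo k = hi k → r k (lo' k) = lo k := fun k h => by
    have := e1 k; have := e0 k; have := r1 k (lo' k); have := r0 k (lo' k); omega
  have cell : ∀ n a, lo' (n + 2) ≤ a → a + 1 ≤ hi' (n + 2) → ∃ b, lo (n + 2) ≤ b ∧ b + 1 ≤ hi (n + 2) ∧
      r n a = b ∧ r (n + 2 + 2) (a + 1) = b + 1 ∧ ((r (n + 2) a = b ∧ r (n + 2) (a + 1) = b + 1) ∨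
        (r (n + 2) a = b + 1 ∧ r (n + 2) (a + 1) = b)) := fun n a h1 h2 => by
    by_cases h : v ≤ n + 2 ∧ (n + 2) % 2 = v % 2
    · have := e1 _ h
      have h3 : v ≤ n := by
        by_contra h3
        obtain rfl : v = n + 2 := by omega
        omega
      have := cs n h3; have := cs (n + 2) h.1
      rw [r1 n _ (by omega), r1 _ _ h, r1 _ _ h, r1 _ _ (by omega)]
      exact ⟨_, by omega, by omega, rfl, by omega, Or.inr (by omega)⟩
    · have := e0 _ h
      rw [r0 n _ (by omega), r0 _ _ h, r0 _ _ h]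
      refine ⟨a, by omega, by omega, rfl, ?_, Or.inl ⟨rfl, rfl⟩⟩
      by_cases e : n + 2 + 2 = v
      · have := hS.ll (n + 2); have := hS.lh (n + 2)
        rw [e] at *
        rw [r1 v _ ⟨le_rfl, rfl⟩]; omega
      · exact r0 _ _ (by omega)
  refine ⟨lo', hi', fun k x y => tok k (r k x) (r (k + 2) y), ⟨fun k => ?_, fun k => ?_, fun k => ?_,
    fun k hk => ?_, fun k => ?_, fun n a h1 h2 => ?_, fun n a h1 h2 => ?_, fun n a h1 h2 => ?_⟩, ?_, df,
    fun G hG => ⟨fun k => r k (G k), ⟨lp G hG, fun k => ?_⟩, ?_, fun k => ⟨(st G hG k).1, fun h =>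
      ⟨(st G hG k).2 h, ?_⟩⟩⟩⟩
  · have := lp _ Il k; have := lp _ Ih k; simp only [lo'] at *; omega
  · have := lp _ Il k; have := lp _ Ih k; simp only [hi'] at *; omega
  · have := df k; have := hS.le k; omega
  · have := df k; have := hS.p0 k hk; omega
  · have := df k; have := df (k + 1); have := hS.sep k; omega
  · obtain ⟨b, g1, g2, g3, g4, ⟨g5, g6⟩ | ⟨g5, g6⟩⟩ := cell n a h1 h2 <;> simp only [g3, g4, g5, g6]
    · exact hS.c1 n b g1 g2
    · exact (hS.c2 n b g1 g2).symm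
  · obtain ⟨b, g1, g2, g3, g4, ⟨g5, g6⟩ | ⟨g5, g6⟩⟩ := cell n a h1 h2 <;> simp only [g3, g4, g5, g6]
    · exact hS.c2 n b g1 g2
    · exact (hS.c1 n b g1 g2).symm
  · have a1 : _ ∨ lo (n + 2) = hi (n + 2) := hS.sep (n + 1)
    have a2 : _ ∨ lo (n + 3) = hi (n + 3) := hS.sep (n + 2)
    obtain ⟨b, g1, g2, g3, g4, ⟨g5, g6⟩ | ⟨g5, g6⟩⟩ := cell n a h1 h2 <;>
      simp only [g3, g5, g6, pin (n + 1) (by omega), show n + 1 + 2 = n + 3 from rfl,
        pin (n + 3) (by omega)]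
    · exact hS.c3 n b g1 g2
    · exact hA.symm _ _ _ (hS.c3 n b g1 g2)
  · exact Finset.sum_congr rfl fun k _ => by rw [df]
  · have := e1 k; have := e0 k; have := r1 k (G k); have := r0 k (G k); have := hG.2 k
    simp only; omega
  · have rr : ∀ k x, r k (r k x) = x := fun k x => by
      have := r1 k x; have := r0 k x; have := r1 k (r k x); have := r0 k (r k x); omega
    funext k; simp only [Ph, rr]
  · have := e1 k h; simp only [r1 k _ h]; omega

end Pool.Agent.H68.Md
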