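import Mathlib

namespace Pool.Agent.H68.Md

/-- `x` lies on a shortest path between `u` and `v`. -/
def OnGeo {V : Type*} (G : SimpleGraph V) (u v x : V) : Prop :=
  ∃ p : G.Walk u v, p.length = G.dist u v ∧ x ∈ p.support

/-- Median graph. -/
def IsMedian {V : Type*} (G : SimpleGraph V) : Prop :=
  G.Connected ∧ ∀ u v w, ∃! x, OnGeo G u v x ∧ OnGeo G v w x ∧ OnGeo G u w x

end Pool.Agent.H68.Md
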