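import Pool.Agent.H68.Md2
import Pool.Agent.H68.MdDefs
import Pool.Agent.H68.Bg3

namespace Pool.Agent.H68.Md

open Relation

variable {T : Type*} {R : T → T → T → Prop} {m : ℕ} {lo hi G : ℕ → ℤ} {tok : ℕ → ℤ → ℤ → T}

def Big (R : T → T → T → Prop) (m d : ℕ) (w : ℕ → T) : Prop :=
  ∃ lo hi tok G, Str R m lo hi tok ∧ In lo hi G ∧ Ph tok G = w ∧ dd m hi lo = d

theorem ext_peak (hA : Ax R) (hS : Str R m lo hi tok) (hG : In lo hi G) (hg : Good R (Ph tok G)) {n : ℕ}
    (hs : Sh R (Ph tok G) n) (hm : n + 2 < m) (h2 : G (n + 2) = G n + 1) (h4 : G (n + 4) = G n + 1)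
    (hh : lo (n + 2) = G n + 1) : Big R m (dd m hi lo + 1) (Ph tok G) := by
  obtain ⟨lo', hi', tok', a1, a2, -, a4⟩ := reflect hA hS (v := n % 2) (hS.p0 _ (by omega))
  obtain ⟨G', b1, b2, b3⟩ := a4 G hG
  have c1 := (b3 n).2 (by omega)
  have c2 : G' (n + 4) - _ = 1 - (G (n + 4) - _) ∧ _ := (b3 (n + 2)).2 (by omega)
  rw [← b2] at hs hg ⊢
  obtain ⟨hi'', tok'', d1, d2, d3, d4⟩ := extend hA a1 b1 hg hs hm (by omega) (by omega) (by omega)
  exact ⟨_, _, _, _, d1, d2, d3, by omega⟩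

theorem step (hA : Ax R) (hS : Str R m lo hi tok) (hG : In lo hi G) (hg : Good R (Ph tok G)) {n : ℕ}
    (hs : Sh R (Ph tok G) n) (hm : n + 2 < m) : Big R m (dd m hi lo + 1) (Ph tok G) ∨
      ∃ y, In lo hi (Function.update G (n + 2) y) ∧ (y = G (n + 2) + 1 ∨ y + 1 = G (n + 2)) ∧
        mv (Ph tok G) n = Ph tok (Function.update G (n + 2) y) := by
  have a1 := hG.1 n; have a2 : G (n + 2) ≤ G (n + 4) ∧ G (n + 4) ≤ _ := hG.1 (n + 2)
  have a3 := hG.2 (n + 2)
  by_cases h : G (n + 4) - G (n + 2) = G (n + 2) - G n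
  · left
    have hp := pinch hA hS hG hs h
    obtain ⟨lo', hi', tok', b1, b2, b3, b4⟩ := reflect hA hS hp
    obtain ⟨G', c1, c2, c3⟩ := b4 G hG
    have d1 := (c3 n).1 (by omega)
    have d2 : G' (n + 4) - _ = 1 - (G (n + 4) - _) ∧ _ := (c3 (n + 2)).2 (by omega)
    have d3 := b3 (n + 2)
    rw [← c2] at hs hg ⊢
    rw [← b2]
    by_cases h2 : G (n + 2) = G n
    · obtain ⟨hi'', tok'', e1, e2, e3, e4⟩ := extend hA b1 c1 hg hs hm (by omega) (by omega) (by omega)
      exact ⟨_, _, _, _, e1, e2, e3, e4⟩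
    · exact ext_peak hA b1 c1 hg hs hm (by omega) (by omega) (by omega)
  by_cases h2 : G (n + 2) = G n
  · by_cases h3 : G n + 1 ≤ hi (n + 2)
    · exact Or.inr ⟨G n + 1, in_upd hG (by omega) h3 (by omega) (by omega) (by omega) (by omega),
        by omega, (flipU hS hG rfl h2 (by omega) h3).2⟩
    · obtain ⟨hi'', tok'', e1, e2, e3, e4⟩ := extend hA hS hG hg hs hm h2 (by omega) (by omega)
      exact Or.inl ⟨_, _, _, _, e1, e2, e3, e4⟩
  · by_cases h3 : lo (n + 2) ≤ G n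
    · exact Or.inr ⟨G n, in_upd hG h3 (by omega) (by omega) (by omega) (by omega) (by omega),
        by omega, (flipD hA hS hG rfl (by omega) (by omega) h3).2⟩
    · exact Or.inl (ext_peak hA hS hG hg hs hm (by omega) (by omega) (by omega))

theorem rsymm (hA : Ax R) {w w' : ℕ → T} (h : ReflTransGen (St R) w w') : ReflTransGen (St R) w' w := by
  induction h with
  | refl => exact .refl
  | tail _ h ih => exact .head (h.symm hA) ih

theorem struct (hA : Ax R) {w₀ : ℕ → T} (hg : Good R w₀) (m : ℕ)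
    (hm : ∀ w, ReflTransGen (St R) w₀ w → ∀ n, Sh R w n → n + 2 < m) :
    ∃ lo hi tok, Str R m lo hi tok ∧ (∀ w, ReflTransGen (St R) w₀ w ↔ ∃ G, In lo hi G ∧ Ph tok G = w) ∧
      ∀ G, In lo hi G → ∀ n, Sh R (Ph tok G) n → ∃ G₁, In lo hi G₁ ∧ mv (Ph tok G) n = Ph tok G₁ ∧
        ∀ G', dd m G G' ≤ dd m G₁ G' + 1 := by
  classical
  let P : ℕ → Prop := fun d => ∃ w, ReflTransGen (St R) w₀ w ∧ Big R m d w
  have L0 : Lip fun _ => 0 := fun _ => by simp
  have P0 : P 0 := ⟨w₀, .refl, fun _ => 0, fun _ => 0, fun k _ _ => w₀ k, fun _ => 0,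
    ⟨L0, L0, by simp, by simp, by simp, fun n a h1 h2 => by omega, fun n a h1 h2 => by omega,
      fun n a h1 h2 => by omega⟩, ⟨L0, by simp⟩, rfl, by simp [dd]⟩
  have Pb : ∀ d, P d → d ≤ m * m := by
    rintro _ ⟨w, -, lo, hi, tok, G, hS, -, -, rfl⟩
    have : ∀ k : ℕ, hi k - lo k ≤ k := fun k => by
      induction k using Nat.strong_induction_on with
      | _ k ih =>
        by_cases hk : k < 2
        · have := hS.p0 k; omega
        obtain ⟨n, rfl⟩ : ∃ n, k = n + 2 := ⟨k - 2, by omega⟩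
        have := ih n (by omega); have := hS.ll n; have := hS.lh n
        push_cast; omega
    refine (Finset.sum_le_card_nsmul _ _ m fun k hk => ?_).trans (by simp)
    have := this k; have := hS.le k; have := Finset.mem_range.1 hk; omega
  obtain ⟨w₁, r₁, lo, hi, tok, G₁, hS, h₁, rfl, hd⟩ := Nat.findGreatest_spec (P := P) (Nat.zero_le (m * m)) P0
  have key : ∀ G, In lo hi G → ∀ n, Sh R (Ph tok G) n → ∃ G₁, In lo hi G₁ ∧
      mv (Ph tok G) n = Ph tok G₁ ∧ ∀ G', dd m G G' ≤ dd m G₁ G' + 1 := by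
    intro G hG n hs
    have r := r₁.trans (conn hA hS h₁ hG)
    rcases step hA hS hG (fun w' h' => hg w' (r.trans h')) hs (hm _ r n hs) with h | ⟨y, a1, a2, a3⟩
    · have p : P (dd m hi lo + 1) := ⟨_, r, h⟩
      have := Nat.le_findGreatest (Pb _ p) p
      omega
    · refine ⟨_, a1, a3, fun G' => ?_⟩
      have := dd_upd (G := G) (G' := G') (hm _ r n hs) y
      omega
  refine ⟨lo, hi, tok, hS, fun w => ⟨fun h => ?_, ?_⟩, key⟩
  · replace h := (rsymm hA r₁).trans h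
    induction h with
    | refl => exact ⟨G₁, h₁, rfl⟩
    | tail _ h ih =>
      obtain ⟨G, hG, rfl⟩ := ih
      obtain ⟨n, hs, rfl⟩ := h
      obtain ⟨G', a1, a2, -⟩ := key G hG n hs
      exact ⟨G', a1, a2.symm⟩
  · rintro ⟨G, hG, rfl⟩
    exact r₁.trans (conn hA hS h₁ hG)

theorem onGeo_iff {V : Type*} {Γ : SimpleGraph V} (hc : Γ.Connected) (u v x : V) :
    OnGeo Γ u v x ↔ Γ.dist u x + Γ.dist x v = Γ.dist u v := by
  classical
  constructor
  · rintro ⟨p, hp, hx⟩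
    have h1 := congrArg SimpleGraph.Walk.length (p.take_spec hx)
    rw [SimpleGraph.Walk.length_append] at h1
    have := SimpleGraph.dist_le (p.takeUntil x hx)
    have := SimpleGraph.dist_le (p.dropUntil x hx)
    have := hc.dist_triangle (u := u) (v := x) (w := v)
    omega
  · intro h
    obtain ⟨p, hp⟩ := hc.exists_walk_length_eq_dist u x
    obtain ⟨q, hq⟩ := hc.exists_walk_length_eq_dist x v
    exact ⟨p.append q, by rw [SimpleGraph.Walk.length_append]; omega, by simp⟩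

theorem dd_btw {a b x : ℕ → ℤ} : dd m a x + dd m x b = dd m a b ↔
    ∀ k, k < m → (a k - x k).natAbs + (x k - b k).natAbs = (a k - b k).natAbs := by
  unfold dd
  rw [← Finset.sum_add_distrib, eq_comm, Finset.sum_eq_sum_iff_of_le (fun k _ => by omega)]
  simp only [Finset.mem_range, eq_comm]

theorem median {V : Type*} [Nonempty V] (Γ : SimpleGraph V) (hS : Str R m lo hi tok) (σ : V → ℕ → ℤ)
    (h1 : ∀ u, In lo hi (σ u)) (h2 : ∀ G, In lo hi G → ∃ u, σ u = G) (h3 : Function.Injective σ)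
    (h4 : ∀ u v, Γ.edist u v = dd m (σ u) (σ v)) : IsMedian Γ := by
  have hc : Γ.Connected := ⟨fun u v => SimpleGraph.reachable_of_edist_ne_top (by rw [h4]; simp)⟩
  have hd : ∀ u v, Γ.dist u v = dd m (σ u) (σ v) := fun u v => by rw [SimpleGraph.dist, h4]; rfl
  refine ⟨hc, fun u v w => ?_⟩
  simp only [onGeo_iff hc, hd, dd_btw]
  obtain ⟨x, hx⟩ := h2 (fun k => max (min (σ u k) (σ v k)) (min (max (σ u k) (σ v k)) (σ w k)))
    ⟨fun k => by
      have := (h1 u).1 k; have := (h1 v).1 k; have := (h1 w).1 k; simp only; omega,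
    fun k => by
      have := (h1 u).2 k; have := (h1 v).2 k; have := (h1 w).2 k; simp only; omega⟩
  refine ⟨x, ⟨fun k _ => ?_, fun k _ => ?_, fun k _ => ?_⟩, fun y ⟨a1, a2, a3⟩ => h3 (funext fun k => ?_)⟩
  iterate 3 (have := congrFun hx k; omega)
  have := congrFun hx k
  by_cases hk : k < m
  · have := a1 k hk; have := a2 k hk; have := a3 k hk; omega
  · have := hS.p0 k; have := (h1 x).2 k; have := (h1 y).2 k; omega

end Pool.Agent.H68.Md
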