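import Pool.Agent.H68.Qp1

namespace Pool.Agent.H68.Qp

open Finsupp Pool.Agent.H68.Sg

variable {B W : Type*} [Group W] {M : CoxeterMatrix B} (cs : CoxeterSystem M W)

noncomputable def cR (M : CoxeterMatrix B) (i j : B) : ℝ := 2 * Real.cos (Real.pi / M i j)

theorem cR_cast (i j : B) : (cR M i j : ℂ) = cc M i j := by
  rw [cR, cc, ze, ← Complex.exp_neg]
  push_cast
  rw [Complex.two_cos]
  congr 2 <;> ring

theorem cR_self (i : B) : cR M i i = -2 := by
  have := cR_cast (M := M) i i
  rw [cc_self] at this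
  exact_mod_cast this

theorem cR_symm (i j : B) : cR M i j = cR M j i := by rw [cR, cR, M.symmetric]

noncomputable def al (i : B) : B →₀ ℝ := single i 1

noncomputable def lf (M : CoxeterMatrix B) (i : B) : (B →₀ ℝ) →ₗ[ℝ] ℝ :=
  linearCombination ℝ (fun j => cR M i j)

theorem lf_al (i j : B) : lf M i (al j) = cR M i j := by simp [lf, al]

noncomputable def sig (M : CoxeterMatrix B) (i : B) : Module.End ℝ (B →₀ ℝ) :=
  LinearMap.id + (lf M i).smulRight (al i)

theorem sig_apply (i : B) (v : B →₀ ℝ) : sig M i v = v + lf M i v • al i := rfl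

noncomputable def pair (A : B → ℂ) : (B →₀ ℝ) →ₗ[ℝ] ℂ := linearCombination ℝ A

theorem pair_sig (A : B → ℂ) (i : B) (v : B →₀ ℝ) : pair A (sig M i v) = pair (Sg.refl M i A) v := by
  have : (pair A).comp (sig M i) = pair (Sg.refl M i A) := by
    refine Finsupp.lhom_ext' fun j => LinearMap.ext_ring ?_
    change pair A (sig M i (al j)) = pair (Sg.refl M i A) (al j)
    rw [sig_apply, lf_al, map_add, map_smul]
    simp [pair, al, Sg.refl, cR_cast]
  exact LinearMap.congr_fun this v

theorem pair_pow (i j : B) (k : ℕ) (A : B → ℂ) (v : B →₀ ℝ) :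
    pair A (((sig M j * sig M i) ^ k) v) = pair (((Sg.refl M i * Sg.refl M j) ^ k) A) v := by
  induction k generalizing A with
  | zero => rfl
  | succ k ih =>
    rw [pow_succ', pow_succ, Module.End.mul_apply, Module.End.mul_apply, pair_sig, pair_sig, ih]
    rfl

theorem sig_lift : M.IsLiftable (sig M) := by
  classical
  intro i j
  refine LinearMap.ext fun v => Finsupp.ext fun x => ?_
  have h := pair_pow (M := M) j i (M i j) (Pi.single x 1) v
  rw [M.symmetric i j, liftable j i] at h
  have k : ∀ u : B →₀ ℝ, pair (Pi.single x 1) u = (u x : ℂ) := fun u => by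
    induction u using Finsupp.induction_linear with
    | zero => simp
    | add f g hf hg => rw [map_add, hf, hg]; simp
    | single a b =>
      by_cases e : a = x
      · subst e; simp [pair]
      · simp [pair, e]
  change pair _ _ = pair (Pi.single x 1) v at h
  rw [k, k, ← M.symmetric i j] at h
  exact_mod_cast h

noncomputable def rho : W →* Module.End ℝ (B →₀ ℝ) := cs.lift ⟨sig M, sig_lift⟩

theorem rho_simple (i : B) : rho cs (cs.simple i) = sig M i := cs.lift_apply_simple _ i

theorem rho_mul (g h : W) (v : B →₀ ℝ) : rho cs (g * h) v = rho cs g (rho cs h v) := by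
  rw [map_mul]; rfl

theorem rho_inv (g : W) (v : B →₀ ℝ) : rho cs g⁻¹ (rho cs g v) = v := by
  rw [← rho_mul, inv_mul_cancel, map_one]; rfl

theorem rho_inv' (g : W) (v : B →₀ ℝ) : rho cs g (rho cs g⁻¹ v) = v := by
  rw [← rho_mul, mul_inv_cancel, map_one]; rfl

theorem sig_al (i j : B) : sig M i (al j) = al j + cR M i j • al i := by rw [sig_apply, lf_al]

theorem sig_self (i : B) : sig M i (al i) = -al i := by rw [sig_al, cR_self]; module

theorem order_eq {i j : B} (hij : i ≠ j) : orderOf (cs.simple i * cs.simple j) = M i j := by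
  by_cases h0 : M i j = 0
  · rw [h0, orderOf_eq_zero_iff']
    intro n hn e
    have c2 : cR M i j = 2 := by simp [cR, h0]
    have key : ∀ k : ℕ, rho cs ((cs.simple i * cs.simple j) ^ k) (al i) =
        al i + (2 * k : ℝ) • (al i + al j) := fun k => by
      induction k with
      | zero => simp
      | succ k ih =>
        rw [pow_succ', rho_mul, ih, rho_mul, rho_simple, rho_simple]
        simp only [map_add, map_smul, sig_self, sig_al, cR_symm j i, c2, map_neg]
        push_cast; module
    have := DFunLike.congr_fun (key n) j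
    rw [e, map_one] at this
    simp [al, hij.symm] at this
    omega
  · exact Nat.dvd_antisymm (orderOf_dvd_of_pow_eq_one (cs.simple_mul_simple_pow i j))
      (order_dvd cs h0 (pow_orderOf_eq_one _) hij)

theorem simple_inj {i j : B} (h : cs.simple i = cs.simple j) : i = j := by
  by_contra hij
  have := order_eq cs hij
  rw [h, cs.simple_mul_simple_self, orderOf_one] at this
  exact M.off_diagonal i j hij this.symm

def xs (c : ℝ) : ℕ → ℝ
  | 0 => 0
  | 1 => 1
  | n + 2 => c * xs c (n + 1) - xs c n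

theorem xs_nonneg {m : ℕ} (h1 : m ≠ 1) {n : ℕ} (hn : m = 0 ∨ n ≤ m) :
    0 ≤ xs (2 * Real.cos (Real.pi / m)) n := by
  rcases eq_or_ne m 0 with rfl | h0
  · have : ∀ n : ℕ, xs (2 * Real.cos (Real.pi / (0 : ℕ))) n = n := fun n => by
      induction n using Nat.twoStepInduction with
      | zero => simp [xs]
      | one => simp [xs]
      | more n h1 h2 => rw [xs, h1, h2]; simp; ring
    rw [this]; positivity
  · set θ := Real.pi / m with hθ
    have hm : (2 : ℝ) ≤ m := by exact_mod_cast (by omega : 2 ≤ m)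
    have key : ∀ n : ℕ, xs (2 * Real.cos θ) n * Real.sin θ = Real.sin (n * θ) := fun n => by
      induction n using Nat.twoStepInduction with
      | zero => simp [xs]
      | one => simp [xs]
      | more n h1 h2 =>
        have e1 : ((n + 2 : ℕ) : ℝ) * θ = ((n + 1 : ℕ) : ℝ) * θ + θ := by push_cast; ring
        have e2 : (n : ℝ) * θ = ((n + 1 : ℕ) : ℝ) * θ - θ := by push_cast; ring
        rw [xs, sub_mul, mul_assoc, h2, h1, e1, e2, Real.sin_add, Real.sin_sub]; ring
    have p0 : 0 < θ := by positivity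
    have p1 : θ < Real.pi := by
      rw [hθ, div_lt_iff₀ (by linarith)]; nlinarith [Real.pi_pos]
    have p2 : (n : ℝ) * θ ≤ Real.pi := by
      have : (n : ℝ) ≤ m := by exact_mod_cast (by omega : n ≤ m)
      rw [hθ, ← mul_div_assoc, div_le_iff₀ (by linarith)]; nlinarith [Real.pi_pos]
    have p3 := Real.sin_nonneg_of_nonneg_of_le_pi (by positivity) p2
    rw [← key] at p3
    exact nonneg_of_mul_nonneg_left p3 (Real.sin_pos_of_pos_of_lt_pi p0 p1)

theorem alt_succ' (a b : W) (n : ℕ) : alt a b (n + 1) = alt a b n * (if Even n then a else b) := by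
  induction n generalizing a b with
  | zero => simp [alt]
  | succ n ih =>
    rw [alt, ih, alt, mul_assoc]
    by_cases h : Even n <;> simp [h, Nat.even_add_one]

theorem alt_al (i j : B) (n : ℕ) : rho cs (alt (cs.simple j) (cs.simple i) n)⁻¹ (al i) =
    xs (cR M i j) (n + 1) • al (if Even n then i else j) +
      xs (cR M i j) n • al (if Even n then j else i) := by
  induction n with
  | zero => simp [alt, xs]
  | succ n ih =>
    rw [alt_succ', mul_inv_rev, rho_mul, ih, xs]
    by_cases h : Even n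
    · simp only [h, Nat.even_add_one, if_true, not_true, if_false, cs.inv_simple, rho_simple,
        map_add, map_smul, sig_self, sig_al, cR_symm j i]
      module
    · simp only [h, Nat.even_add_one, if_true, not_false_iff, if_false, cs.inv_simple, rho_simple,
        map_add, map_smul, sig_self, sig_al]
      module

theorem rf_z {a b : W} (ha : a * a = 1) (hb : b * b = 1) (k : ℤ) :
    a * (a * b) ^ k = (a * b) ^ (-k) * a := by
  have ia : a⁻¹ = a := inv_eq_of_mul_eq_one_right ha
  have ib : b⁻¹ = b := inv_eq_of_mul_eq_one_right hb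
  have h : a * (a * b) * a⁻¹ = (a * b)⁻¹ := by
    rw [← mul_assoc, ha, one_mul, mul_inv_rev, ia, ib]
  rw [zpow_neg, ← inv_zpow, ← h, conj_zpow]; simp

theorem dd_simple {i j : B} (hij : i ≠ j) : DD cs (cs.simple i) (cs.simple j)
    {t | t ∈ Subgroup.closure ({cs.simple i, cs.simple j} : Set W)} := by
  have hi : cs.simple i ∈ Subgroup.closure ({cs.simple i, cs.simple j} : Set W) :=
    Subgroup.subset_closure (Or.inl rfl)
  have hj : cs.simple j ∈ Subgroup.closure ({cs.simple i, cs.simple j} : Set W) :=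
    Subgroup.subset_closure (Or.inr rfl)
  exact ⟨cs.isReflection_simple i, cs.isReflection_simple j, fun e => hij (simple_inj cs e), hi, hj,
    fun t ht => mul_mem (mul_mem hi ht) hi, fun t ht => mul_mem (mul_mem hj ht) hj,
    fun t _ h => N_simple cs i h, fun t _ h => N_simple cs j h⟩

theorem al_nonneg (i : B) : 0 ≤ al i := by
  rw [al]; exact Finsupp.single_nonneg.2 zero_le_one

theorem pos_root (w : W) (i : B) (h : NN cs w⁻¹ (cs.simple i) = 0) : 0 ≤ rho cs w (al i) := by
  induction hn : cs.length w using Nat.strong_induction_on generalizing w i with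
  | _ n ih =>
  by_cases hw : w = 1
  · rw [hw, map_one]; exact al_nonneg i
  obtain ⟨j, hj⟩ := cs.exists_rightDescent_of_ne_one hw
  have hj' : cs.length (cs.simple j * w⁻¹) < cs.length w := by
    rw [← cs.length_inv, mul_inv_rev, inv_inv, cs.inv_simple]; exact hj
  have hij : i ≠ j := by
    rintro rfl
    exact (N_iff cs (cs.isReflection_simple i) w⁻¹).2 (by rwa [cs.length_inv]) h
  have D := dd_simple cs hij
  obtain ⟨d, hd, -, h2, h3⟩ := exists_min' (cs := cs)
    (Subgroup.closure ({cs.simple i, cs.simple j} : Set W)) _ (subset_refl _) w⁻¹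
  have l1 : cs.length (d⁻¹ * w⁻¹)⁻¹ < n := by
    have := h2 _ D.mb
    rw [cs.length_inv]; omega
  have p1 := ih _ l1 _ i (by rw [inv_inv]; exact h3 _ D.ma) rfl
  have p2 := ih _ l1 _ j (by rw [inv_inv]; exact h3 _ D.mb) rfl
  have e : w = (d⁻¹ * w⁻¹)⁻¹ * d⁻¹ := by group
  have hN : NN cs d (cs.simple i) = 0 := by
    rw [← D.N_coset h3 hd D.ma, mul_inv_cancel_left, h]
  have key : ∃ k, (M i j = 0 ∨ k + 1 ≤ M i j) ∧ d = alt (cs.simple j) (cs.simple i) k := by
    have ho := order_eq cs hij
    have z : ∀ k, (M i j = 0 ∨ k ≤ M i j) → d = alt (cs.simple i) (cs.simple j) k → k = 0 := by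
      intro k hk e
      by_contra h0
      have := D.N_rf (n := k) (k := 0) (by rwa [ho]) (by omega)
      rw [rf, pow_zero, one_mul, ← e] at this
      exact this hN
    have h1 := M.off_diagonal i j hij
    obtain ⟨k, hk, e | e⟩ := D.dh hd
    · rw [ho] at hk
      have := z k hk e
      subst this
      exact ⟨0, by omega, e⟩
    · rw [ho] at hk
      by_cases h4 : M i j = 0 ∨ k + 1 ≤ M i j
      · exact ⟨k, h4, e⟩
      · have e1 : k = M i j := by omega
        have e2 := D.alt_mul k
        rw [e1, cs.simple_mul_simple_pow, mul_inv_eq_one, ← e1] at e2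
        have := z k hk (e.trans e2.symm)
        omega
  obtain ⟨k, hk, rfl⟩ := key
  rw [e, rho_mul, alt_al, map_add, map_smul, map_smul]
  have x1 : 0 ≤ xs (cR M i j) (k + 1) := xs_nonneg (M.off_diagonal i j hij) hk
  have x2 : 0 ≤ xs (cR M i j) k := xs_nonneg (M.off_diagonal i j hij) (by omega)
  refine add_nonneg (smul_nonneg x1 ?_) (smul_nonneg x2 ?_) <;> split_ifs <;> assumption

theorem neg_root (w : W) (i : B) (h : NN cs w⁻¹ (cs.simple i) ≠ 0) : rho cs w (al i) ≤ 0 := by
  have := pos_root cs (w * cs.simple i) i (by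
    rw [mul_inv_rev, cs.inv_simple, N_mul', N_self cs (cs.isReflection_simple i), inv_mul_cancel,
      one_mul, z2 h]; decide)
  rw [rho_mul, rho_simple, sig_self, map_neg] at this
  exact neg_nonneg.1 this

def Root (t : W) (β : B →₀ ℝ) : Prop := ∃ u i, t = u * cs.simple i * u⁻¹ ∧ β = rho cs u (al i)

variable {cs}

theorem Root.refl {t : W} {β : B →₀ ℝ} (h : Root cs t β) : cs.IsReflection t := by
  obtain ⟨u, i, e, -⟩ := h; exact ⟨u, i, e⟩

theorem root_ex {t : W} (h : cs.IsReflection t) : ∃ β, Root cs t β := by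
  obtain ⟨u, i, e⟩ := h; exact ⟨_, u, i, e, rfl⟩

theorem root_al (i : B) : Root cs (cs.simple i) (al i) := ⟨1, i, by simp, by simp⟩

theorem Root.conj {t : W} {β : B →₀ ℝ} (h : Root cs t β) (g : W) :
    Root cs (g * t * g⁻¹) (rho cs g β) := by
  obtain ⟨u, i, rfl, rfl⟩ := h
  exact ⟨g * u, i, by group, by rw [rho_mul]⟩

theorem Root.apply {t : W} {β : B →₀ ℝ} (h : Root cs t β) (v : B →₀ ℝ) :
    ∃ c : ℝ, rho cs t v = v + c • β := by
  obtain ⟨u, i, rfl, rfl⟩ := h
  exact ⟨_, by rw [rho_mul, rho_mul, rho_simple, sig_apply, map_add, rho_inv', map_smul]⟩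

theorem Root.self {t : W} {β : B →₀ ℝ} (h : Root cs t β) : rho cs t β = -β := by
  obtain ⟨u, i, rfl, rfl⟩ := h
  rw [rho_mul, rho_mul, rho_inv, rho_simple, sig_self, map_neg]

theorem Root.neg {t : W} {β : B →₀ ℝ} (h : Root cs t β) : Root cs t (-β) := by
  have := h.conj t
  rwa [h.self, h.refl.mul_self, one_mul, h.refl.inv] at this

theorem Root.ne {t : W} {β : B →₀ ℝ} (h : Root cs t β) : β ≠ 0 := by
  obtain ⟨u, i, rfl, rfl⟩ := h
  intro e
  have := congrArg (rho cs u⁻¹) e
  rw [rho_inv, map_zero] at this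
  simp [al] at this

theorem Root.sign {t : W} {β : B →₀ ℝ} (h : Root cs t β) : 0 ≤ β ∨ β ≤ 0 := by
  obtain ⟨u, i, rfl, rfl⟩ := h
  by_cases h : NN cs u⁻¹ (cs.simple i) = 0
  exacts [Or.inl (pos_root cs u i h), Or.inr (neg_root cs u i h)]

theorem root_pos {t : W} (h : cs.IsReflection t) : ∃ β, Root cs t β ∧ 0 ≤ β := by
  obtain ⟨β, hβ⟩ := root_ex h
  rcases hβ.sign with h1 | h1
  exacts [⟨β, hβ, h1⟩, ⟨-β, hβ.neg, neg_nonneg.2 h1⟩]

theorem Root.N {t : W} {β : B →₀ ℝ} (h : Root cs t β) (hp : 0 ≤ β) (g : W) :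
    (NN cs g t = 0 → 0 ≤ rho cs g⁻¹ β) ∧ (NN cs g t ≠ 0 → rho cs g⁻¹ β ≤ 0) := by
  have hne := h.ne
  obtain ⟨u, i, rfl, rfl⟩ := h
  have h0 : NN cs u⁻¹ (cs.simple i) = 0 := by
    by_contra h1
    exact hne (le_antisymm (neg_root cs u i h1) hp)
  have e : NN cs (g⁻¹ * u)⁻¹ (cs.simple i) = NN cs g (u * cs.simple i * u⁻¹) := by
    rw [mul_inv_rev, inv_inv, N_mul', h0, zero_add, inv_inv]
  rw [← rho_mul, ← e]
  exact ⟨pos_root cs _ i, neg_root cs _ i⟩

theorem Root.prop {t : W} {β γ : B →₀ ℝ} (h : Root cs t β) (h' : Root cs t γ) :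
    ∃ c : ℝ, c ≠ 0 ∧ γ = c • β := by
  obtain ⟨c, hc⟩ := h.apply γ
  rw [h'.self] at hc
  have e : γ = (-c / 2) • β := by linear_combination (norm := module) (-1 / 2 : ℝ) • hc
  exact ⟨_, fun h0 => h'.ne (by rw [e, h0, zero_smul]), e⟩

theorem Root.eq_simple {t : W} {β : B →₀ ℝ} (h : Root cs t β) (hp : 0 ≤ β) {i : B} {c : ℝ}
    (e : β = c • al i) : t = cs.simple i := by
  refine N_simple cs i fun h0 => h.ne (le_antisymm ?_ hp)
  have := (h.N hp _).1 h0
  rw [cs.inv_simple, rho_simple, e, map_smul, sig_self, smul_neg, ← e] at this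
  exact neg_nonneg.1 this

end Pool.Agent.H68.Qp
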