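import Pool.Agent.H68.Md3
import Pool.Agent.H68.Bg4
import Pool.Agent.H68.Qp2

namespace Pool.Agent.H68.Md

open Relation Pool.Agent.H68.Bg

variable {B W : Type*} [Group W] {M : CoxeterMatrix B} (cs : CoxeterSystem M W)

def RR (x y z : Option W) : Prop := ∃ b c d, x = some b ∧ y = some c ∧ z = some d ∧
  c = b * d * b ∧ c = d * b * d ∧ b * b = 1 ∧ b ≠ d ∧ d * d = 1

theorem ax : Ax (RR (W := W)) := by
  refine ⟨fun _ _ _ ⟨b, c, d, h1, h2, h3, h4, h5, h6, h7, h8⟩ =>
    ⟨d, c, b, h3, h2, h1, h5, h4, h8, h7.symm, h6⟩, ?_, ?_⟩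
  · rintro _ _ _ _ ⟨b, c, d, rfl, rfl, rfl, h4, -⟩ ⟨_, _, d', ⟨⟩, ⟨⟩, rfl, h4', -⟩
    rw [mul_left_cancel (mul_right_cancel (h4.symm.trans h4'))]
  · rintro _ _ ⟨b, c, d, rfl, rfl, ⟨⟩, -, -, -, h, -⟩; exact h rfl

def tk (a : List B) : ℕ → Option W := fun k =>
  (a[k]?).map fun s => cs.wordProd (a.take k) * cs.simple s * (cs.wordProd (a.take k))⁻¹

theorem tk_app (x z : List B) (k : ℕ) : tk cs (x ++ z) (x.length + k) =
    (tk cs z k).map fun t => cs.wordProd x * t * (cs.wordProd x)⁻¹ := by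
  simp only [tk, List.getElem?_append_right (Nat.le_add_right _ _), Nat.add_sub_cancel_left,
    List.take_length_add_append, cs.wordProd_append, Option.map_map]
  congr 1; funext s; simp only [Function.comp]; group

theorem tk_lt (x z : List B) {k : ℕ} (h : k < x.length) : tk cs (x ++ z) k = tk cs x k := by
  simp only [tk, List.getElem?_append_left h, List.take_append_of_le_length h.le]

theorem tk0 (s : B) (y : List B) : tk cs (s :: y) 0 = some (cs.simple s) := by simp [tk]
theorem tk1 (s t : B) (y : List B) :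
    tk cs (s :: t :: y) 1 = some (cs.simple s * cs.simple t * cs.simple s) := by simp [tk]
theorem tk2 (s t u : B) (y : List B) : tk cs (s :: t :: u :: y) 2 =
    some (cs.simple s * (cs.simple t * cs.simple u * cs.simple t) * cs.simple s) := by
  simp [tk, cs.wordProd_cons, mul_assoc]

theorem tk_inj {a b : List B} (h : tk cs a = tk cs b) : a = b := by
  induction a generalizing b with
  | nil => cases b with
    | nil => rfl
    | cons t b => have := congrFun h 0; rw [tk0] at this; simp [tk] at this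
  | cons s a ih => cases b with
    | nil => have := congrFun h 0; rw [tk0] at this; simp [tk] at this
    | cons t b =>
      have h0 := congrFun h 0
      rw [tk0, tk0] at h0
      obtain rfl : s = t := Qp.simple_inj cs (Option.some.inj h0)
      congr 1
      refine ih (funext fun k => ?_)
      have h1 := congrFun h (1 + k)
      have e1 := tk_app cs [s] a k
      have e2 := tk_app cs [s] b k
      rw [List.singleton_append, List.length_singleton] at e1 e2
      rw [e1, e2] at h1
      exact Option.map_injective (fun x y e => by simpa using e) h1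

theorem spec {n : ℕ} {a b : List B} (h : Mv M n a b) :
    Sh RR (tk cs a) n ∧ tk cs b = mv (tk cs a) n := by
  obtain ⟨x, y, s, t, rfl, hm, rfl, rfl⟩ := h
  have e0 : ∀ z, tk cs (x ++ z) x.length = _ := fun z => tk_app cs x z 0
  have br := braid3 cs hm
  have b1 : cs.simple s * (cs.simple t * cs.simple s * cs.simple t) * cs.simple s = cs.simple t := by
    rw [mul_assoc (cs.simple t), ← br]; simp [mul_assoc]
  have b2 : cs.simple t * (cs.simple s * cs.simple t * cs.simple s) * cs.simple t = cs.simple s := by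
    rw [mul_assoc (cs.simple s), br]; simp [mul_assoc]
  have ne : s ≠ t := fun e => by rw [e, M.diagonal] at hm; omega
  constructor
  · unfold Sh
    rw [e0, tk_app, tk_app, tk0, tk1, tk2, b1]
    refine ⟨_, _, _, rfl, rfl, rfl, by group, ?_, by simp [mul_assoc], fun e => ?_, by simp [mul_assoc]⟩
    · rw [mul_assoc (cs.simple s), br]; group
    · exact ne (Qp.simple_inj cs (by simpa using e))
  funext k
  rcases lt_or_ge k x.length with hk | hk
  · rw [mv_out (by omega) (by omega), tk_lt cs _ _ hk, tk_lt cs _ _ hk]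
  · obtain ⟨j, rfl⟩ := Nat.exists_eq_add_of_le hk
    match j with
    | 0 => rw [add_zero, mv0, e0, tk_app, tk0, tk2, b1]
    | 1 => rw [mv_out (by omega) (by omega), tk_app, tk_app, tk1, tk1, mul_assoc (cs.simple s), br,
        mul_assoc (cs.simple t)]
    | 2 => rw [mv2, tk_app, e0, tk0, tk2, b2]
    | j + 3 =>
      rw [mv_out (by omega) (by omega), tk_app, tk_app, add_comm j]
      have e1 := tk_app cs [s, t, s] y j
      have e2 := tk_app cs [t, s, t] y j
      have e3 : cs.wordProd [s, t, s] = cs.wordProd [t, s, t] := by simpa [cs.wordProd_cons] using br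
      rw [e3] at e1
      exact congrArg _ (e2.trans e1.symm)

theorem sh_mv (hsl : ∀ s t, s ≠ t → M s t = 2 ∨ M s t = 3) {a : List B} {n : ℕ}
    (h : Sh RR (tk cs a) n) : ∃ b, Mv M n a b := by
  obtain ⟨b, c, d, h1, h2, h3, h4, h5, -, h7, -⟩ := h
  have l2 : n + 2 < a.length := by
    by_contra hc
    simp [tk, List.getElem?_eq_none (not_lt.1 hc)] at h3
  obtain ⟨x, y, s, t, u, rfl, rfl⟩ : ∃ (x y : List B) (s t u : B), x.length = n ∧ a = x ++ s :: t :: u :: y := by
    refine ⟨a.take n, a.drop (n + 3), a[n], a[n + 1], a[n + 2], by simp; omega, ?_⟩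
    conv_lhs => rw [← List.take_append_drop n a, List.drop_eq_getElem_cons (by omega),
      List.drop_eq_getElem_cons (by omega), List.drop_eq_getElem_cons l2]
  rw [tk_app, tk1] at h2
  rw [tk_app, tk2] at h3
  rw [← add_zero x.length, tk_app, tk0] at h1
  obtain rfl := Option.some.inj h1
  obtain rfl := Option.some.inj h2
  obtain rfl := Option.some.inj h3
  generalize cs.wordProd x = g at *
  have q1 : cs.simple s * cs.simple t * cs.simple s = cs.simple t * cs.simple u * cs.simple t := by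
    apply (MulAut.conj g).injective
    simpa [mul_assoc] using h4
  have q0 : cs.simple u = cs.simple t * (cs.simple s * cs.simple t * cs.simple s) * cs.simple t := by
    rw [q1]; simp [mul_assoc]
  have ne : s ≠ t := by
    rintro rfl
    apply h7
    rw [q0]; simp [mul_assoc]
  rcases hsl s t ne with hm | hm
  · exfalso
    have h1 := cs.simple_mul_simple_pow s t
    rw [hm, pow_two, mul_eq_one_iff_eq_inv, mul_inv_rev, cs.inv_simple, cs.inv_simple] at h1
    have h2 : cs.simple s * cs.simple t * cs.simple s = cs.simple t := by rw [h1]; simp [mul_assoc]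
    rw [← q1, h2, h2] at h5
    have h3 : cs.simple t = cs.simple t * cs.simple s * cs.simple t := by
      apply (MulAut.conj g).injective
      simpa [mul_assoc] using h5
    rw [← h1] at h3
    exact ne (Qp.simple_inj cs (by rw [h3]; simp [mul_assoc]))
  · rw [mul_assoc (cs.simple s), braid3 cs hm] at q0
    obtain rfl : u = s := Qp.simple_inj cs (by simpa [mul_assoc] using q0)
    exact ⟨_, x, y, u, t, rfl, hm, rfl, rfl⟩

theorem to_tk {a b : List B} (h : b ∈ Cls M a) : ReflTransGen (St RR) (tk cs a) (tk cs b) := by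
  induction h with
  | refl => exact .refl
  | tail _ h ih => obtain ⟨n, h⟩ := h; exact ih.tail ⟨n, spec cs h⟩

theorem of_tk (hsl : ∀ s t, s ≠ t → M s t = 2 ∨ M s t = 3) {a : List B} {w : ℕ → Option W}
    (h : ReflTransGen (St RR) (tk cs a) w) : ∃ b ∈ Cls M a, tk cs b = w := by
  induction h with
  | refl => exact ⟨a, .refl, rfl⟩
  | tail _ h ih =>
    obtain ⟨b, hb, rfl⟩ := ih
    obtain ⟨n, h, rfl⟩ := h
    obtain ⟨c, hc⟩ := sh_mv cs hsl h
    exact ⟨c, ReflTransGen.tail hb ⟨n, hc⟩, (spec cs hc).2⟩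

theorem main (hsl : ∀ s t, s ≠ t → M s t = 2 ∨ M s t = 3) {a : List B} (ha : cs.IsReduced a) :
    IsMedian (graph M a) := by
  obtain ⟨lo, hi, tok, hS, h1, h2⟩ := struct (w₀ := tk cs a) ax (by
    intro w h n s1 s2
    obtain ⟨b, hb, rfl⟩ := of_tk cs hsl h
    obtain ⟨c, hc⟩ := sh_mv cs hsl s1
    obtain ⟨d, hd⟩ := sh_mv cs hsl s2
    exact good cs ha _ (to_fun hb) n hc.spec.1 hd.spec.1) a.length (by
    intro w h n s1
    obtain ⟨b, hb, rfl⟩ := of_tk cs hsl h
    obtain ⟨c, x, y, s, t, rfl, -, rfl, -⟩ := sh_mv cs hsl s1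
    rw [← (cls_inv cs hb).2]; simp)
  have h3 : ∀ u : Cls M a, ∃ G, In lo hi G ∧ Ph tok G = tk cs u.1 := fun u => (h1 _).1 (to_tk cs u.2)
  choose σ hσ1 hσ2 using h3
  have inj : Function.Injective σ := fun u v e => Subtype.ext (tk_inj cs (by rw [← hσ2, ← hσ2, e]))
  haveI : Nonempty (Cls M a) := ⟨⟨a, ReflTransGen.refl⟩⟩
  refine median _ hS σ hσ1 (fun G hG => ?_) inj ?_
  · obtain ⟨b, hb, e⟩ := of_tk cs hsl ((h1 _).2 ⟨G, hG, rfl⟩)
    exact ⟨⟨b, hb⟩, ph_inj ax hS (hσ1 _) hG (by rw [hσ2, e])⟩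
  refine edist_eq _ (fun u v => dd a.length (σ u) (σ v)) (fun u => by simp [dd])
    (fun u v h => inj (dd_zero hS (hσ1 u) (hσ1 v) h)) (fun u u' v h => ?_) (fun u v h => ?_)
  · have : St RR (tk cs u.1) (tk cs u'.1) := by
      rcases ((SimpleGraph.fromRel_adj _ _ _).1 h).2 with ⟨n, h⟩ | ⟨n, h⟩
      · exact ⟨n, spec cs h⟩
      · exact St.symm ax ⟨n, spec cs h⟩
    obtain ⟨n, hs, e⟩ := this
    rw [← hσ2] at hs
    obtain ⟨G, a1, a2, a3⟩ := h2 _ (hσ1 u) n hs
    rw [hσ2, ← e, ← hσ2] at a2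
    simp only [ph_inj ax hS (hσ1 u') a1 a2]
    exact a3 _
  · obtain ⟨n, G, a1, a2, a3, a4⟩ := descent ax hS (hσ1 u) (hσ1 v) h
    rw [hσ2] at a2 a3
    obtain ⟨b, hb⟩ := sh_mv cs hsl a2
    let u' : Cls M a := ⟨b, ReflTransGen.tail u.2 ⟨n, hb⟩⟩
    have e : σ u' = G := ph_inj ax hS (hσ1 _) a1 (by rw [hσ2, ← a3]; exact (spec cs hb).2)
    refine ⟨u', (SimpleGraph.fromRel_adj _ _ _).2 ⟨fun e' => ?_, Or.inl ⟨n, hb⟩⟩, by simp only [e, a4]⟩
    rw [← e, ← e'] at a4
    omega

end Pool.Agent.H68.Md
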