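import Pool.Agent.H68.Sch1

set_option autoImplicit false

namespace Pool.Agent.H68.Mod

open Function SemidirectProduct Pool.Agent.H68.Fit Pool.Agent.H68.Sat Pool.Agent.H68.Nl
open scoped commutatorElement

abbrev F := ZMod 71
instance : Fact (Nat.Prime 71) := ⟨by norm_num⟩
abbrev V0 := Multiplicative (Fin 3 → F)
abbrev S3 := Equiv.Perm (Fin 3)
abbrev Om := (Fin 3 → Fˣ) ⋊[tw MulAction.toEndHom 1] S3

theorem om_mul (a b : Om) (j : Fin 3) : (a * b).left j = a.left j * b.left (a.right⁻¹ j) := rfl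
theorem om_inv (a : Om) (j : Fin 3) : a⁻¹.left j = (a.left (a.right j))⁻¹ := rfl

def act (ω : Om) (v : V0) : V0 := Multiplicative.ofAdd fun j => ω.left j * v.toAdd (ω.right⁻¹ j)

theorem act_mul (a b : Om) (v : V0) : act (a * b) v = act a (act b v) :=
  congrArg Multiplicative.ofAdd (funext fun j => by simp [act, om_mul, mul_assoc])

theorem act_one (v : V0) : act 1 v = v := congrArg Multiplicative.ofAdd (funext fun j => by simp; rfl)

def ψ : Om →* MulAut V0 := MonoidHom.mk' (fun ω =>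
  { toFun := act ω, invFun := act ω⁻¹
    left_inv := fun v => by rw [← act_mul, inv_mul_cancel, act_one]
    right_inv := fun v => by rw [← act_mul, mul_inv_cancel, act_one]
    map_mul' := fun v w => congrArg Multiplicative.ofAdd (funext fun j => by simp [act, mul_add]) })
  fun a b => MulEquiv.ext (act_mul a b)

theorem ψ_app (ω : Om) (v : V0) (j : Fin 3) :
    (ψ ω v).toAdd j = ω.left j * v.toAdd (ω.right⁻¹ j) := rfl

theorem v_ext {v w : V0} (h : ∀ j, v.toAdd j = w.toAdd j) : v = w :=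
  Multiplicative.toAdd.injective (funext h)

theorem ψ_inj : Injective ψ := (injective_iff_map_eq_one _).2 fun ω h => by
  have h1 : ∀ (v : Fin 3 → F) j, ω.left j * v (ω.right⁻¹ j) = v j := fun v j => by
    have := ψ_app ω (Multiplicative.ofAdd v) j
    rw [h] at this; exact this.symm
  have h2 : ∀ j, ω.left j = 1 := fun j => Units.ext (by simpa using h1 1 j)
  refine SemidirectProduct.ext (funext h2) (inv_eq_one.1 (Equiv.ext fun j => ?_))
  by_contra hn
  have := h1 (Pi.single j 1) j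
  rw [Pi.single_eq_of_ne (show ω.right⁻¹ j ≠ j from hn)] at this
  simp at this

def pr : Om →* Fˣ := MonoidHom.mk' (fun ω => ∏ j, ω.left j) fun a b => by
  simp only [om_mul, Finset.prod_mul_distrib, Equiv.prod_comp a.right⁻¹ b.left]

def sg : Om →* Fˣ := (Units.map (Int.castRingHom F).toMonoidHom).comp (Equiv.Perm.sign.comp rightHom)

def ep (b : Bool) : Fˣ := if b then -1 else 1
def ch (b : Bool) : Om →* Fˣ := if b then sg else 1

def LL (q : ℕ) : Subgroup Om where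
  carrier := {ω | (∀ j, ω.left j ^ q = pr ω) ∧ pr ω ^ 2 = 1}
  one_mem' := ⟨fun j => by simp, by simp⟩
  mul_mem' := fun ha hb => ⟨fun j => by rw [om_mul, mul_pow, ha.1, hb.1, map_mul], by
    rw [map_mul, mul_pow, ha.2, hb.2, one_mul]⟩
  inv_mem' := fun ha => ⟨fun j => by rw [om_inv, inv_pow, ha.1, map_inv], by
    rw [map_inv, inv_pow, ha.2, inv_one]⟩

def HH (q : ℕ) : Subgroup Om := LL q ⊓ (pr.ker ⊓ sg.ker)
def NN (q : ℕ) (b : Bool) : Subgroup Om := LL q ⊓ pr.eqLocus (ch b)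
def nu (b : Bool) : Om := ⟨fun _ => ep b, Equiv.swap 1 2⟩
def ss : Om := inr (finRotate 3)
def tt (a : Fˣ) : Om := inl ![a, a⁻¹, 1]

theorem sg_cases : ∀ σ : S3, (sg (inr σ) = 1 ∧ (σ = 1 ∨ σ = finRotate 3 ∨ σ = finRotate 3 ^ 2)) ∨
    sg (inr σ) = -1 := by decide +kernel

theorem sg_r (ω : Om) : sg ω = sg (inr ω.right) := rfl

theorem sg_one {ω : Om} (h : sg ω = 1) :
    ω.right = 1 ∨ ω.right = finRotate 3 ∨ ω.right = finRotate 3 ^ 2 :=
  ((sg_cases ω.right).resolve_right fun e => absurd (h.symm.trans e) (by decide)).2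

theorem inl_left {N G : Type} [Group N] [Group G] {φ : G →* MulAut N} {x : N ⋊[φ] G}
    (h : x.right = 1) : x = inl x.left := SemidirectProduct.ext rfl h

theorem diag_pow {x : Om} (h : x.right = 1) {n : ℕ} : (∀ j, x.left j ^ n = 1) ↔ x ^ n = 1 := by
  rw [inl_left h, ← map_pow, map_eq_one_iff _ inl_injective]
  exact funext_iff.symm

theorem diag_comm {x y : Om} (h : x.right = 1) (h' : y.right = 1) : Commute x y := by
  rw [inl_left h, inl_left h']; exact (Commute.all _ _).map _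

def QP (q : ℕ) : Prop := q = 5 ∨ q = 7

variable {q q' : ℕ}

theorem QP.ex (h : QP q) : ∃ a : Fˣ, Injective ![a, a⁻¹, 1] ∧ tt a ∈ HH q ∧ tt a ^ q = 1 := by
  have : ∀ a : Fˣ, a ^ q = 1 → tt a ∈ HH q ∧ tt a ^ q = 1 := fun a ha => by
    have e : pr (tt a) = 1 := by simp [pr, tt, Fin.prod_univ_three]
    have e' : ∀ j, (tt a).left j ^ q = 1 := fun j => by fin_cases j <;> simp [tt, ha]
    exact ⟨⟨⟨fun j => by rw [e', e], by rw [e, one_pow]⟩, e, by simp [tt, sg, MonoidHom.mem_ker]⟩, by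
      rw [tt, ← map_pow, show (![a, a⁻¹, 1] : Fin 3 → Fˣ) ^ q = 1 from funext e', map_one]⟩
  rcases h with rfl | rfl
  · exact ⟨⟨5, 57, by decide, by decide⟩, by decide, this _ (by decide)⟩
  · exact ⟨⟨20, 32, by decide, by decide⟩, by decide, this _ (by decide)⟩

theorem ss_mem : ss ∈ HH q := by
  have e : pr ss = 1 := by simp [pr, ss]
  exact ⟨⟨fun j => by simp [ss, e, pr], by rw [e, one_pow]⟩, e, (by decide +kernel : sg ss = 1)⟩

theorem hh_pow {h : Om} (hh : h ∈ HH q) (j : Fin 3) : h.left j ^ q = 1 := (hh.1.1 j).trans hh.2.1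

theorem hh_exp (hq : QP q) {h : Om} (hh : h ∈ HH q) : h ^ 105 = 1 := by
  have e : (h ^ 3).right = 1 := by
    change rightHom (h ^ 3) = 1
    rw [map_pow]
    rcases sg_one hh.2.2 with e | e | e <;> rw [show rightHom h = _ from e] <;> decide
  have : (h ^ 3) ^ q = 1 := by
    rw [inl_left e, ← map_pow, show (h ^ 3).left ^ q = 1 from funext (hh_pow (pow_mem hh 3)), map_one]
  rcases hq with rfl | rfl
  · rw [show 105 = 3 * 5 * 7 from rfl, pow_mul, pow_mul, this, one_pow]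
  · rw [show 105 = 3 * 7 * 5 from rfl, pow_mul, pow_mul, this, one_pow]

theorem diag (hq : QP q) {h : Om} (e : h ^ q = 1) : h.right = 1 := by
  have : rightHom h ^ q = 1 := by rw [← map_pow, e, map_one]
  rcases hq with rfl | rfl
  · exact (by decide +kernel : ∀ σ : S3, σ ^ 5 = 1 → σ = 1) _ this
  · exact (by decide +kernel : ∀ σ : S3, σ ^ 7 = 1 → σ = 1) _ this

theorem mono (B : MulAut V0) (t x : Fin 3 → Fˣ) (ht : Injective t)
    (h : ψ (inl t) * B = B * ψ (inl x)) : ∃ ω, B = ψ ω := by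
  let f : (Fin 3 → F) →ₗ[F] (Fin 3 → F) :=
    (AddMonoidHom.toMultiplicative.symm B.toMonoidHom).toZModLinearMap 71
  have hf : ∀ v, f v = (B (Multiplicative.ofAdd v)).toAdd := fun _ => rfl
  have fi : Injective f := fun v w e => Multiplicative.ofAdd.injective
    (B.injective (Multiplicative.toAdd.injective e))
  have h1 : ∀ i j, t j * f (Pi.single i 1) j = x i * f (Pi.single i 1) j := fun i j => by
    have : ψ (inl x) (Multiplicative.ofAdd (Pi.single i 1)) =
        Multiplicative.ofAdd ((x i : F) • Pi.single i 1) := v_ext fun k => by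
      rw [ψ_app]; by_cases e : k = i <;> simp [e]
    have e := congrArg (fun y => y.toAdd j) (DFunLike.congr_fun h (Multiplicative.ofAdd (Pi.single i 1)))
    simp only [MulAut.mul_apply, this, ψ_app, ← hf, map_smul] at e
    simpa using e
  have h2 : ∀ i, ∃ j, f (Pi.single i 1) j ≠ 0 := fun i => by
    by_contra hn
    push Not at hn
    have := congrFun (fi ((funext hn).trans (map_zero f).symm)) i
    simp at this
  choose π hπ using h2
  have h3 : ∀ i j, j ≠ π i → f (Pi.single i 1) j = 0 := fun i j hj => by_contra fun hn => hj (ht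
    (Units.ext ((mul_right_cancel₀ hn (h1 i j)).trans (mul_right_cancel₀ (hπ i) (h1 i _)).symm)))
  have h4 : Injective π := fun i i' e => by_contra fun hn => by
    have : f (f (Pi.single i' 1) (π i') • Pi.single i 1) = f (f (Pi.single i 1) (π i) • Pi.single i' 1) := by
      rw [map_smul, map_smul]
      funext j
      by_cases hj : j = π i
      · simp [hj, ← e, mul_comm]
      · simp [h3 i j hj, h3 i' j (e ▸ hj)]
    have := congrFun (fi this) i
    simp [hn, hπ] at this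
  let σ : S3 := Equiv.ofBijective π (Finite.injective_iff_bijective.1 h4)
  refine ⟨⟨fun j => Units.mk0 _ (hπ (σ⁻¹ j)), σ⟩, MulEquiv.ext fun v => v_ext fun j => ?_⟩
  obtain ⟨i, rfl⟩ := σ.surjective j
  rw [ψ_app, show B v = B (Multiplicative.ofAdd v.toAdd) from rfl, ← hf]
  conv_lhs => rw [pi_eq_sum_univ' v.toAdd]
  rw [map_sum, Finset.sum_apply, Finset.sum_eq_single i]
  · simp [mul_comm]; left; rfl
  · intro k _ hk
    simp [h3 k (σ i) fun e => hk (h4 e).symm]
  · simp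

theorem rig1 (hq : QP q) (hq' : QP q') (θ : MulAut V0) (h : ∀ a ∈ HH q', ∀ b ∈ HH q, ∃ c ∈ HH q,
    (θ * ψ a * θ⁻¹) * ψ b * (θ * ψ a * θ⁻¹)⁻¹ = ψ c) : q = q' ∧ ∃ ω, θ = ψ ω := by
  obtain ⟨a, a1, a2, a3⟩ := hq.ex
  obtain ⟨b, b1, b2, b3⟩ := hq'.ex
  obtain ⟨c, c1, c2⟩ := h _ b2 _ a2
  have c3 : c ^ q = 1 := ψ_inj (by rw [map_pow, ← c2, conj_pow, ← map_pow, a3]; simp)
  obtain ⟨y, hy⟩ := mono (θ * ψ (tt b) * θ⁻¹)⁻¹ _ c.left a1 (by
    rw [← inl_left (diag hq c3), ← c2]; simp [tt, mul_assoc])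
  have y1 : y⁻¹ ^ q' = 1 := ψ_inj (by
    rw [map_pow, map_inv, ← hy, inv_inv, conj_pow, ← map_pow, b3]; simp)
  obtain ⟨ω, hω⟩ := mono θ⁻¹ _ y⁻¹.left b1 (by
    rw [← inl_left (diag hq' y1), map_inv, ← hy]; simp [tt, mul_assoc])
  obtain rfl : θ = ψ ω⁻¹ := by rw [map_inv, ← hω, inv_inv]
  refine ⟨by_contra fun hn => ?_, _, rfl⟩
  obtain ⟨d, d1, d2⟩ := h _ b2 _ ss_mem
  simp only [← map_inv, ← map_mul] at d2
  obtain rfl := ψ_inj d2
  have r1 : (ω⁻¹ * tt b * ω⁻¹⁻¹).right = 1 := by simp [tt]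
  have r2 : (ω⁻¹ * tt b * ω⁻¹⁻¹) ^ q' = 1 := by rw [conj_pow, b3]; simp
  have r3 : ¬ Commute (ω⁻¹ * tt b * ω⁻¹⁻¹) ss := fun e => by
    have e' : Commute (tt b) (ω * ss * ω⁻¹) := by
      simpa [mul_assoc] using e.map (MulAut.conj ω).toMonoidHom
    have : (ω * ss * ω⁻¹).right⁻¹ = 1 := Equiv.ext fun j => b1 (mul_right_cancel (b := (ω * ss * ω⁻¹).left j)
      (by simpa [om_mul _ (ω * ss * ω⁻¹), om_mul (ω * ss * ω⁻¹), tt, mul_comm, -mul_left] using
        (congrArg (·.left j) e'.eq).symm))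
    simp only [inv_eq_one, mul_right, inv_right, conj_eq_one_iff] at this
    exact absurd this (by decide)
  generalize ω⁻¹ * tt b * ω⁻¹⁻¹ = z at *
  have r4 : (z * ss * z⁻¹ * ss⁻¹).right = 1 := by simp [r1]
  have r5 : (z * ss * z⁻¹ * ss⁻¹) ^ q = 1 := (diag_pow r4).1 (hh_pow (mul_mem d1 (inv_mem ss_mem)))
  have r6 : (z * (ss * z⁻¹ * ss⁻¹)) ^ q' = 1 := by
    rw [(diag_comm r1 (by simp [r1])).mul_pow, conj_pow, inv_pow, r2]; simp
  refine r3 (commutatorElement_eq_one_iff_commute.1 ?_)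
  rw [← mul_assoc, ← mul_assoc] at r6
  refine Subgroup.mem_bot.1 (mem_of_cop ?_ r5 r6)
  rcases hq with rfl | rfl <;> rcases hq' with rfl | rfl <;> first | exact absurd rfl hn | norm_num

theorem rig2 (b b' : Bool) (ω : Om) (h1 : pe 2 (nu b * (ω * nu b' * ω⁻¹)))
    (h2 : qe 2 ⁅nu b * (ω * nu b' * ω⁻¹), ss⁆) :
    nu b * (ω * nu b' * ω⁻¹) = inl fun _ => ep b * ep b' := by
  have e1 : sg (nu b * (ω * nu b' * ω⁻¹)) = 1 := by
    simp only [map_mul, map_inv, mul_inv_cancel_comm]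
    exact (by decide +kernel : sg (inr (Equiv.swap 1 2)) * sg (inr (Equiv.swap 1 2)) = 1)
  have e2 : pr (nu b * (ω * nu b' * ω⁻¹)) = ep b * ep b' := by
    simp only [map_mul, map_inv, mul_inv_cancel_comm]
    exact (by decide +kernel : ∀ b b', pr (nu b) * pr (nu b') = ep b * ep b') b b'
  generalize nu b * (ω * nu b' * ω⁻¹) = x at *
  have r1 : x.right = 1 := pq (h1.map rightHom) ⟨3, ⟨by norm_num, fun p hp h e => by
    subst e; norm_num at h⟩, by
      rcases sg_one e1 with e | e | e <;> rw [e] <;> decide⟩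
  have r2 : x ^ 2 = 1 := pq (by simpa using pe_iff.2 ((pe_iff.1 h1).zpow 2))
    ⟨35, ⟨by norm_num, fun p hp h e => by subst e; norm_num at h⟩, by
      rw [← pow_mul]; exact (diag_pow r1).1 fun j => ZMod.units_pow_card_sub_one_eq_one 71 _⟩
  have r3 : ⁅x, ss⁆ = 1 := pq ⟨1, by
    rw [commutatorElement_def, mul_assoc x, mul_assoc x, pow_one,
      (diag_comm r1 (by simp [r1])).mul_pow, conj_pow, inv_pow, r2]; simp⟩ h2
  have r4 : ∀ j, x.left j = x.left ((finRotate 3)⁻¹ j) := fun j => by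
    simpa [om_mul, r1, ss, -mul_left] using
      congrArg (·.left j) (commutatorElement_eq_one_iff_mul_comm.1 r3)
  have r5 : ∀ j, x.left j = x.left 0 := fun j => by
    fin_cases j
    · rfl
    · exact r4 1
    · exact (r4 0).symm
  rw [inl_left r1, ← e2]
  refine congrArg _ (funext fun j => ?_)
  simp only [pr, MonoidHom.mk'_apply, Fin.prod_univ_three, r5 1, r5 2, r5 j]
  rw [← sq, (diag_pow r1).2 r2, one_mul]

abbrev Hol := V0 ⋊[ψ] Om
def TT (q : ℕ) : Subgroup Hol := (HH q).comap rightHom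

instance : Group.IsSolvable S3 :=
  haveI : IsZGroup S3 := IsZGroup.of_squarefree (by
    rw [Nat.card_eq_fintype_card, Fintype.card_perm]; decide +kernel)
  inferInstance
instance : Group.IsSolvable Om := solvable_of_ker_le_range inl rightHom range_inl_eq_ker_rightHom.ge
instance : Group.IsSolvable Hol := solvable_of_ker_le_range inl rightHom range_inl_eq_ker_rightHom.ge

theorem v_exp (v : V0) : v ^ 71 = 1 := v_ext fun j => by
  rw [toAdd_pow, Pi.smul_apply, nsmul_eq_mul, show ((71 : ℕ) : F) = 0 from rfl, zero_mul]; rfl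

theorem hol_conj (x : Hol) (v : V0) : x * inl v * x⁻¹ = inl (ψ x.right v) := by
  conv_lhs => rw [← inl_left_mul_inr_right x]
  rw [mul_inv_rev, ← map_inv inr, mul_assoc, mul_assoc, ← mul_assoc (inl v), ← mul_assoc (inr _),
    ← mul_assoc (inr _), ← inl_aut, ← map_inv, ← map_mul, ← map_mul, mul_inv_cancel_comm_assoc]

theorem hh_qe (hq : QP q) {h : Om} (hh : h ∈ HH q) : qe 71 h ∧ qe 2 h :=
  ⟨⟨105, ⟨by norm_num, fun p hp h e => by subst e; norm_num at h⟩, hh_exp hq hh⟩,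
    ⟨105, ⟨by norm_num, fun p hp h e => by subst e; norm_num at h⟩, hh_exp hq hh⟩⟩

theorem t_pe (hq : QP q) {x : Hol} (h : x ∈ TT q) : pe 71 x ↔ x.right = 1 :=
  ⟨fun e => pq (e.map rightHom) (hh_qe hq h).1, fun e => by
    rw [inl_left e]; exact pe.map ⟨1, v_exp _⟩ _⟩

theorem t_odd (hq : QP q) {x : Hol} (h : x ∈ TT q) : qe 2 x :=
  PE.of_ker rightHom (fun a e => by
    rw [inl_left e]
    exact PE.map ⟨71, ⟨by norm_num, fun p hp h e => by subst e; norm_num at h⟩, v_exp _⟩ _)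
    (hh_qe hq h).2

theorem v_min (hq : QP q) (W : Subgroup V0) (h : ∀ a ∈ HH q, ∀ w ∈ W, ψ a w ∈ W) :
    W = ⊥ ∨ W = ⊤ := by
  refine or_iff_not_imp_left.2 fun hn => eq_top_iff.2 fun v _ => ?_
  obtain ⟨a, a1, a2, -⟩ := hq.ex
  let U : Submodule F (Fin 3 → F) := AddSubgroup.toZModSubmodule 71 (Subgroup.toAddSubgroup' W)
  have h1 : ∀ w ∈ U, ∀ j, (fun i => ((![a, a⁻¹, 1] i : Fˣ) - (![a, a⁻¹, 1] j : Fˣ) : F) * w i) ∈ U :=
    fun w hw j => by
      convert U.sub_mem (show (ψ (tt a) (Multiplicative.ofAdd w)).toAdd ∈ U from h _ a2 _ hw)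
        (U.smul_mem (![a, a⁻¹, 1] j : Fˣ) hw) using 1
      funext i
      simp [ψ_app, tt, sub_mul]
  have h2 : ∀ w ∈ U, ∀ j, w j ≠ 0 → Pi.single j 1 ∈ U := fun w hw j hj => by
    have k : ∀ i, i ≠ j → ((![a, a⁻¹, 1] j : Fˣ) - (![a, a⁻¹, 1] i : Fˣ) : F) ≠ 0 := fun i hi e =>
      hi (a1 (Units.ext (sub_eq_zero.1 e))).symm
    have k1 := k (j + 1) (by fin_cases j <;> decide)
    have k2 := k (j + 2) (by fin_cases j <;> decide)
    convert U.smul_mem (((![a, a⁻¹, 1] j : Fˣ) - (![a, a⁻¹, 1] (j + 1) : Fˣ) : F) *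
      (((![a, a⁻¹, 1] j : Fˣ) - (![a, a⁻¹, 1] (j + 2) : Fˣ) : F) * w j))⁻¹
      (h1 _ (h1 w hw (j + 2)) (j + 1)) using 1
    funext i
    rcases (by decide : ∀ i j : Fin 3, i = j ∨ i = j + 1 ∨ i = j + 2) i j with rfl | rfl | rfl
    · rw [Pi.single_eq_same, Pi.smul_apply, smul_eq_mul, inv_mul_cancel₀ (by simp [k1, k2, hj])]
    · rw [Pi.single_eq_of_ne (by fin_cases j <;> decide)]; simp
    · rw [Pi.single_eq_of_ne (by fin_cases j <;> decide)]; simp
  have h3 : ∀ j, Pi.single j 1 ∈ U → Pi.single (j + 1) 1 ∈ U := fun j hj =>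
    h2 _ (show (ψ ss (Multiplicative.ofAdd _)).toAdd ∈ U from h _ ss_mem _ hj) _ (by
      rw [ψ_app]; fin_cases j <;> decide)
  obtain ⟨w, hw, h4⟩ := (Subgroup.ne_bot_iff_exists_ne_one.1 hn).imp fun w h => And.intro w.2 h
  obtain ⟨j, hj⟩ : ∃ j, (w : V0).toAdd j ≠ 0 := by
    by_contra hc; push Not at hc; exact h4 (Subtype.ext (v_ext hc))
  have h5 := h2 _ hw j hj
  change v.toAdd ∈ U
  rw [pi_eq_sum_univ' v.toAdd]
  refine U.sum_mem fun i _ => U.smul_mem _ ?_
  rcases (by decide : ∀ i j : Fin 3, i = j ∨ i = j + 1 ∨ i = j + 1 + 1) i j with rfl | rfl | rfl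
  exacts [h5, h3 _ h5, h3 _ (h3 _ h5)]

theorem v_all (hq : QP q) (J : Subgroup Hol) (h : ∀ a ∈ HH q, ∀ w, inl w ∈ J → inl (ψ a w) ∈ J)
    {ω : Om} (h1 : ω ≠ 1) (h2 : ∀ v, ⁅(inl v : Hol), inr ω⁆ ∈ J) (v : V0) : inl v ∈ J := by
  refine ((v_min hq (J.comap inl) h).resolve_left fun e => h1 (ψ_inj (MulEquiv.ext fun w => ?_))).ge
    (Subgroup.mem_top v)
  have : w * (ψ ω w)⁻¹ ∈ J.comap inl := by
    have := h2 w
    rwa [commutatorElement_def, mul_assoc, mul_assoc, ← mul_assoc (inr ω), ← map_inv, hol_conj,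
      ← map_mul, map_inv] at this
  rw [e, Subgroup.mem_bot, mul_inv_eq_one] at this
  simpa using this.symm

theorem gen1 (hq : QP q) (J : Subgroup Hol) (h : ∀ x ∈ TT q, qe 71 x → x ∈ J) : TT q ≤ J := by
  have h1 : ∀ a ∈ HH q, inr a ∈ J := fun a ha => h _ ha ((hh_qe hq ha).1.map _)
  intro x hx
  rw [← inl_left_mul_inr_right x]
  refine mul_mem (v_all hq J (fun a ha w hw => ?_) (ω := ss) (by decide) (fun v => ?_) _) (h1 _ hx)
  · exact hol_conj (inr a) w ▸ mul_mem (mul_mem (h1 a ha) hw) (inv_mem (h1 a ha))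
  · exact mul_mem (h _ (by simpa [TT] using ss_mem)
      (((hh_qe hq ss_mem).1.map inr).map (MulAut.conj (inl v)).toMonoidHom)) (inv_mem (h1 _ ss_mem))

theorem nu_mem (hq : QP q) (b : Bool) : nu b ∈ NN q b := by
  rcases hq with rfl | rfl <;> cases b <;> exact ⟨⟨by decide +kernel, by decide +kernel⟩,
    by change pr _ = _; decide +kernel⟩

theorem hh_nor {g h : Om} (hg : g ∈ LL q) (hh : h ∈ HH q) : g * h * g⁻¹ ∈ HH q :=
  ⟨(LL q).mul_mem ((LL q).mul_mem hg hh.1) ((LL q).inv_mem hg), Subgroup.Normal.conj_mem inferInstance _ hh.2 g⟩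

theorem gen2 (hq : QP q) (b : Bool) (J : Subgroup Hol) (hn : ∀ x ∈ TT q, ∀ y ∈ J, x * y * x⁻¹ ∈ J)
    (h : ∀ x ∈ TT q, ⁅x, inr (nu b)⁆ ∈ J) : TT q ≤ J := by
  have h1 : inr ss ∈ J := by
    have := h (inr ss) ss_mem
    rw [← map_commutatorElement] at this
    have := mul_mem this this
    rwa [← map_mul, show ⁅ss, nu b⁆ * ⁅ss, nu b⁆ = ss by
      cases b <;> exact SemidirectProduct.ext (by decide +kernel) (by decide +kernel)] at this
  have h2 : ∀ a ∈ HH q, a.right = 1 → inr a ∈ J := fun a ha e => by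
    have p1 : a.left 0 * a.left 1 * a.left 2 = 1 := (Fin.prod_univ_three _).symm.trans ha.2.1
    have p2 : ∀ j, a.left j ^ 36 = a.left j := fun j => by
      have := hh_pow ha j
      rcases hq with rfl | rfl
      · rw [show 36 = 5 * 7 + 1 from rfl, pow_succ, pow_mul, this]; simp
      · rw [show 36 = 7 * 5 + 1 from rfl, pow_succ, pow_mul, this]; simp
    have w1 : (a ^ 2 * (ss * a * ss⁻¹)) ^ 12 ∈ HH q :=
      pow_mem (mul_mem (pow_mem ha 2) (hh_nor (ss_mem (q := q)).1 ha)) 12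
    have w2 : ⁅(a ^ 2 * (ss * a * ss⁻¹)) ^ 12, ss⁆ = a := by
      obtain ⟨u, rfl⟩ : ∃ u, a = inl u := ⟨_, inl_left e⟩
      have c : ∀ u : Fin 3 → Fˣ, ss * inl u * ss⁻¹ = inl fun j => u ((finRotate 3)⁻¹ j) := fun u =>
        (inl_aut _ _).symm
      rw [c, ← map_pow, ← map_mul, ← map_pow, commutatorElement_def, mul_assoc, mul_assoc,
        ← mul_assoc ss, ← map_inv inl, c, ← map_mul]
      refine congrArg _ (funext fun j => ?_)
      have p3 : u j * u ((finRotate 3)⁻¹ j) * u ((finRotate 3)⁻¹ ((finRotate 3)⁻¹ j)) = 1 := by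
        fin_cases j
        · exact (mul_right_comm _ _ _).trans p1
        · exact (congrArg (· * u 2) (mul_comm _ _)).trans p1
        · exact ((mul_comm _ _).trans ((congrArg (u 0 * ·) (mul_comm _ _)).trans
            (mul_assoc _ _ _).symm)).trans p1
      have p4 : u j ^ 36 = u j := p2 j
      change (u j ^ 2 * u ((finRotate 3)⁻¹ j)) ^ 12 * ((u ((finRotate 3)⁻¹ j) ^ 2 *
        u ((finRotate 3)⁻¹ ((finRotate 3)⁻¹ j))) ^ 12)⁻¹ = u j
      rw [eq_inv_of_mul_eq_one_right p3]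
      generalize u j = x at p4 ⊢
      generalize u _ = y
      rw [← inv_pow, ← mul_pow, show x ^ 2 * y * (y ^ 2 * (x * y)⁻¹)⁻¹ = x ^ 3 by
        rw [mul_inv, inv_inv, mul_comm _ (x * y), ← mul_assoc,
          mul_inv_eq_iff_eq_mul, mul_mul_mul_comm, ← pow_succ, sq y], ← pow_mul, p4]
    generalize (a ^ 2 * (ss * a * ss⁻¹)) ^ 12 = w at w1 w2
    rw [← w2, map_commutatorElement]
    exact mul_mem (hn _ w1 _ h1) (inv_mem h1)
  intro x hx
  rw [← inl_left_mul_inr_right x]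
  refine mul_mem (v_all hq J (fun a ha w hw => hol_conj (inr a) w ▸ hn _ ha _ hw) (ω := nu b)
    (by cases b <;> decide) (fun v => h _ (by simp [TT])) _) ?_
  have k : ∀ n : ℕ, x.right.right = finRotate 3 ^ n → inr x.right ∈ J := fun n e => by
    rw [← inv_mul_cancel_right x.right (ss ^ n), map_mul, map_pow]
    refine mul_mem (h2 _ (mul_mem hx (inv_mem (pow_mem ss_mem n))) ?_) (pow_mem h1 n)
    rw [mul_right, inv_right, e, ss, ← map_pow, right_inr, mul_inv_cancel]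
  rcases sg_one hx.2.2 with e | e | e
  exacts [k 0 e, k 1 e, k 2 e]

end Pool.Agent.H68.Mod
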