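import Pool.Agent.H68.Mod1

set_option autoImplicit false

namespace Pool.Agent.H68.Mod

open Function SemidirectProduct Pool.Agent.H68.Fit Pool.Agent.H68.Sat Pool.Agent.H68.Nl
open Subgroup (closure centralizer normalizer)
open scoped commutatorElement

variable {G : Type} [Group G] {C D : Subgroup G} {𝒜 ℬ : Set (Subgroup G)}

def So (C : Subgroup G) : Subgroup G := closure {c | c ∈ C ∧ pe 71 c}

structure Cm (C : Subgroup G) : Prop where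
  so : ∀ c, c ∈ So C ↔ c ∈ C ∧ pe 71 c
  comm : ∀ v ∈ So C, ∀ w ∈ So C, Commute v w
  min : ∀ W ≤ So C, (∀ c ∈ C, ∀ w ∈ W, c * w * c⁻¹ ∈ W) → W = ⊥ ∨ W = So C
  sc : ∀ c ∈ C, (∀ v ∈ So C, Commute c v) → c ∈ So C
  cl : ∀ c ∈ C, (∀ d ∈ C, Commute c d) → c = 1
  gen : ∀ J : Subgroup G, (∀ c ∈ C, qe 71 c → c ∈ J) → C ≤ J
  card : Nat.card (So C) = 71 ^ 3
  odd : ∀ c ∈ C, qe 2 c

structure Fam (𝒜 : Set (Subgroup G)) : Prop where
  cm : ∀ C ∈ 𝒜, Cm C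
  co : ∀ C ∈ 𝒜, ∀ D ∈ 𝒜, C ≠ D → ∀ c ∈ C, ∀ d ∈ D, Commute c d

theorem Fam.sub (h : Fam 𝒜) (hs : ℬ ⊆ 𝒜) : Fam ℬ :=
  ⟨fun C a => h.cm C (hs a), fun C a D b => h.co C (hs a) D (hs b)⟩

theorem sup_comm' {x y : G} (hx : x ∈ sSup 𝒜) (h : ∀ C ∈ 𝒜, ∀ c ∈ C, Commute c y) : Commute x y :=
  Subgroup.mem_centralizer_singleton_iff.1 (sSup_le (a := centralizer {y}) (fun C a c b =>
    Subgroup.mem_centralizer_singleton_iff.2 (h C a c b)) hx)

theorem sup_dec (h : ∀ c ∈ C, ∀ d ∈ D, Commute c d) {x : G} (hx : x ∈ C ⊔ D) :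
    ∃ c ∈ C, ∃ d ∈ D, x = c * d := by
  rw [← SetLike.mem_coe, Subgroup.coe_mul_of_left_le_normalizer_right C D fun c hc d =>
    ⟨fun hd => by rwa [(h c hc d hd).eq, mul_inv_cancel_right], fun hd => by
      have := (h _ (inv_mem hc) _ hd).eq
      rw [show c⁻¹ * (c * d * c⁻¹) = d * c⁻¹ by group, mul_left_inj] at this
      rwa [this]⟩] at hx
  obtain ⟨c, h1, d, h2, rfl⟩ := hx
  exact ⟨c, h1, d, h2, rfl⟩

theorem Fam.rest (h : Fam 𝒜) (hC : C ∈ 𝒜) {x : G} (hx : x ∈ sSup (𝒜 \ {C})) :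
    ∀ c ∈ C, Commute x c := fun c hc =>
  sup_comm' hx fun D a d b => h.co D a.1 C hC a.2 d b c hc

theorem Fam.dec (h : Fam 𝒜) (hC : C ∈ 𝒜) {x : G} (hx : x ∈ sSup 𝒜) :
    ∃ c ∈ C, ∃ ρ ∈ sSup (𝒜 \ {C}), x = c * ρ := by
  rw [← Set.insert_diff_self_of_mem hC, sSup_insert] at hx
  exact sup_dec (fun c a d b => (h.rest hC b c a).symm) hx

theorem Fam.ind [Finite G] (h : Fam 𝒜) (A : Subgroup G → Subgroup G) (hA : ∀ C ∈ 𝒜, A C ≤ C)
    (J : Subgroup G) (hJ : ∀ C ∈ 𝒜, ∀ c ∈ C, (∀ a ∈ A C, Commute c a) → c ∈ J) {z : G}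
    (hz : z ∈ sSup 𝒜) (hc : ∀ C ∈ 𝒜, ∀ a ∈ A C, Commute z a) : z ∈ J := by
  induction 𝒜, Set.toFinite 𝒜 using Set.Finite.induction_on generalizing z with
  | empty => rw [sSup_empty] at hz; rw [Subgroup.mem_bot.1 hz]; exact one_mem _
  | @insert C s hn _ ih =>
    have hC := Set.mem_insert C s
    obtain ⟨c, h1, ρ, h2, rfl⟩ := h.dec hC hz
    have h3 := h.rest hC h2
    rw [Set.insert_diff_self_of_notMem hn] at h2
    refine mul_mem (hJ C hC c h1 fun a ha => ?_) (ih (h.sub (Set.subset_insert _ _))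
      (fun D a => hA D (Or.inr a)) (fun D a => hJ D (Or.inr a)) h2 fun D a d b => ?_)
    · simpa using (hc C hC a ha).mul_left (h3 a (hA C hC ha)).inv_left
    · simpa using (h.co C hC D (Or.inr a) (fun e => hn (e ▸ a)) c h1 d
        (hA D (Or.inr a) b)).inv_left.mul_left (hc D (Or.inr a) d b)

theorem Fam.cl [Finite G] (h : Fam 𝒜) {z : G} (hz : z ∈ sSup 𝒜)
    (hc : ∀ C ∈ 𝒜, ∀ a ∈ C, Commute z a) : z = 1 :=
  h.ind id (fun _ _ => le_rfl) ⊥ (fun C a c b e => (h.cm C a).cl c b e) hz hc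

theorem Cm.le (h : Cm C) : So C ≤ C := fun c a => ((h.so c).1 a).1

theorem pe_mul {p : ℕ} {a b : G} (h : Commute a b) (x : pe p a) (y : pe p b) : pe p (a * b) := by
  obtain ⟨i, x⟩ := x
  obtain ⟨j, y⟩ := y
  exact ⟨i + j, by rw [h.mul_pow, pow_add, pow_mul, x, mul_comm, pow_mul, y]; simp⟩

def Fam.PV (h : Fam 𝒜) : Subgroup G where
  carrier := {x | pe 71 x ∧ x ∈ closure {v | ∃ C ∈ 𝒜, v ∈ So C}}
  one_mem' := ⟨pe.one, one_mem _⟩
  inv_mem' := fun a => ⟨a.1.imp fun _ e => by rw [inv_pow, e, inv_one], inv_mem a.2⟩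
  mul_mem' := fun {a b} x y => ⟨pe_mul (Subgroup.closure_induction₂ (p := fun a b _ _ => Commute a b)
    (by
      rintro v w ⟨C, h1, h2⟩ ⟨D, h3, h4⟩
      by_cases e : C = D
      · exact (h.cm C h1).comm v h2 w (e ▸ h4)
      · exact h.co C h1 D h3 e v ((h.cm C h1).le h2) w ((h.cm D h3).le h4))
    (fun _ _ => Commute.one_left _) (fun _ _ => Commute.one_right _)
    (fun _ _ _ _ _ _ a b => a.mul_left b) (fun _ _ _ _ _ _ a b => a.mul_right b)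
    (fun _ _ _ _ a => a.inv_left) (fun _ _ _ _ a => a.inv_right) x.2 y.2) x.1 y.1, mul_mem x.2 y.2⟩

theorem Fam.cv [Finite G] (h : Fam 𝒜) {z : G} (hz : z ∈ sSup 𝒜)
    (hc : ∀ C ∈ 𝒜, ∀ a ∈ So C, Commute z a) : z ∈ h.PV :=
  h.ind So (fun C a => (h.cm C a).le) h.PV (fun C a c b e => have k := (h.cm C a).sc c b e
    ⟨(((h.cm C a).so c).1 k).2, Subgroup.subset_closure ⟨C, a, k⟩⟩) hz hc

theorem Fam.pv [Finite G] (h : Fam 𝒜) {z : G} (hz : z ∈ sSup 𝒜) (hp : pe 71 z) : z ∈ h.PV :=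
  h.cv hz fun C a v b => by
    obtain ⟨c, h1, ρ, h2, rfl⟩ := h.dec a hz
    have h3 := h.rest a h2
    obtain ⟨k, hk⟩ := hp
    rw [(h3 c h1).symm.mul_pow, mul_eq_one_iff_eq_inv] at hk
    exact ((h.cm C a).comm c (((h.cm C a).so c).2 ⟨h1, k, (h.cm C a).cl _ (pow_mem h1 _) fun d hd =>
      hk ▸ ((h3 d hd).pow_left _).inv_left⟩) v b).mul_left (h3 v ((h.cm C a).le b))

theorem Fam.mem [Finite G] (h : Fam 𝒜) (hD : D ∈ 𝒜) {x : G} (hx : x ∈ sSup 𝒜)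
    (hc : ∀ C ∈ 𝒜, C ≠ D → ∀ c ∈ C, Commute x c) : x ∈ D := by
  obtain ⟨d, h1, ρ, h2, rfl⟩ := h.dec hD hx
  rwa [(h.sub Set.diff_subset).cl h2 fun C a c b => by
    simpa using (h.co D hD C a.1 (Ne.symm a.2) d h1 c b).inv_left.mul_left (hc C a.1 a.2 c b), mul_one]

theorem coc {k d c ρ : G} {n : ℕ} (hn : d ^ n = 1) (h1 : ∀ c ∈ C, d * c * d⁻¹ ∈ C) (hc : c ∈ C)
    (e : ⁅k, d⁆ = c * ρ) (h2 : Commute ρ c) (h3 : Commute ρ d) : ρ ^ n ∈ C := by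
  have k1 : ∀ m, (c * d) ^ m * (d ^ m)⁻¹ ∈ C := fun m => by
    induction m with
    | zero => simp
    | succ m ih =>
      rw [pow_succ', pow_succ']
      convert mul_mem hc (h1 _ ih) using 1
      group
  have k2 : (ρ * (c * d)) ^ n = 1 := by
    rw [← mul_assoc, h2.eq, ← e, commutatorElement_def, inv_mul_cancel_right, conj_pow, hn]; simp
  rw [(h2.mul_right h3).mul_pow, mul_eq_one_iff_eq_inv] at k2
  rw [k2]
  simpa [hn] using k1 n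

theorem Fam.l1 (h : Fam 𝒜) (hD : D ∈ 𝒜) {k d : G} (hd : d ∈ D) (h1 : qe 71 d)
    (h2 : ⁅k, d⁆ ∈ sSup 𝒜) (h3 : pe 71 ⁅k, d⁆) : ⁅k, d⁆ ∈ So D := by
  refine ((h.cm D hD).so _).2 ⟨?_, h3⟩
  obtain ⟨c, h4, ρ, h5, e⟩ := h.dec hD h2
  have h6 := h.rest hD h5
  obtain ⟨n, h7, h8⟩ := h1
  obtain ⟨j, hj⟩ := h3
  have k : ∀ m, ρ ^ m ∈ D → ρ ^ m = 1 := fun m a => (h.cm D hD).cl _ a fun x b => (h6 x b).pow_left _
  rw [e, (h6 c h4).symm.mul_pow, mul_eq_one_iff_inv_eq] at hj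
  rwa [e, pq ⟨j, k _ (hj ▸ inv_mem (pow_mem h4 _))⟩ ⟨n, h7, k _ (coc h8
    (fun x a => mul_mem (mul_mem hd a) (inv_mem hd)) h4 e (h6 c h4) (h6 d hd))⟩, mul_one]

theorem Cm.nor (h : Cm C) {c v : G} (hc : c ∈ C) (hv : v ∈ So C) : c * v * c⁻¹ ∈ So C :=
  (h.so _).2 ⟨mul_mem (mul_mem hc (h.le hv)) (inv_mem hc),
    ((h.so v).1 hv).2.map (MulAut.conj c).toMonoidHom⟩

theorem Fam.so_nor (h : Fam 𝒜) (hC : C ∈ 𝒜) {r v : G} (hr : r ∈ sSup 𝒜) (hv : v ∈ So C) :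
    r * v * r⁻¹ ∈ So C := by
  obtain ⟨c, h4, ρ, h5, rfl⟩ := h.dec hC hr
  convert (h.cm C hC).nor h4 hv using 1
  rw [mul_assoc c, (h.rest hC h5 v ((h.cm C hC).le hv)).eq]; group

def Nor (𝒜 : Set (Subgroup G)) : Prop := ∀ k, qe 2 k → ∀ x ∈ sSup 𝒜, k * x * k⁻¹ ∈ sSup 𝒜

theorem qe_inv {p : ℕ} {k : G} (h : qe p k) : qe p k⁻¹ := by simpa using h.zpow (-1)

variable [Finite G]

theorem Fam.l2 (h : Fam 𝒜) (hn : Nor 𝒜) (hC : C ∈ 𝒜) {k : G} (hk : qe 2 k) :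
    (∀ v ∈ So C, k * v * k⁻¹ ∈ So C) ∨ ∀ v ∈ So C, ∀ c ∈ C, Commute (k * v * k⁻¹) c := by
  let W := (So C).map (MulAut.conj k).toMonoidHom
  have m := h.cm C hC
  have h1 : ∀ c ∈ C, ∀ w ∈ W, c * w * c⁻¹ ∈ W := by
    rintro c hc _ ⟨v, hv, rfl⟩
    exact ⟨_, h.so_nor hC (hn _ (qe_inv hk) _ (le_sSup hC hc)) hv, by simp [mul_assoc]⟩
  rcases m.min (So C ⊓ W) inf_le_left fun c a w b => ⟨m.nor a b.1, h1 c a w b.2⟩ with e | e
  · refine Or.inr fun v hv c hc => (Subgroup.mem_centralizer_singleton_iff.1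
      (m.gen (centralizer {_}) (fun c hc hq => Subgroup.mem_centralizer_singleton_iff.2 ?_) hc)).symm
    have k1 : ⁅k * v * k⁻¹, c⁆ ∈ W := by
      have := mul_mem (⟨v, hv, rfl⟩ : k * v * k⁻¹ ∈ W) (h1 c hc _ (inv_mem ⟨v, hv, rfl⟩))
      simpa [commutatorElement_def, mul_assoc] using this
    obtain ⟨u, k2, k3⟩ := id k1
    refine (commutatorElement_eq_one_iff_commute.1 (Subgroup.mem_bot.1 (e ▸ ⟨h.l1 hC hc hq ?_ ?_, k1⟩))).symm
    · exact k3 ▸ hn k hk _ (le_sSup hC (m.le k2))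
    · exact k3 ▸ ((m.so u).1 k2).2.map _
  · refine Or.inl fun v hv => ?_
    rw [Subgroup.eq_of_le_of_card_ge (inf_eq_left.1 e)
      (Subgroup.card_map_of_injective (MulAut.conj k).injective).le]
    exact ⟨v, hv, rfl⟩

theorem l1' (h : Fam 𝒜) (hn : Nor 𝒜) (h' : Fam ℬ) (hn' : Nor ℬ) (hD : D ∈ ℬ) {v d : G}
    (hd : d ∈ D) (hq : qe 71 d) (hv : v ∈ sSup 𝒜) (hp : pe 71 v) : ⁅v, d⁆ ∈ So D :=
  h'.l1 hD hd hq (mul_mem (hn' v (by
      obtain ⟨k, hk⟩ := hp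
      exact ⟨_, PN.pw (by norm_num) (by norm_num) k, hk⟩) _ (le_sSup hD hd)) (inv_mem (le_sSup hD hd)))
    (by
      have := h.PV.mul_mem (h.pv hv hp) (h.PV.inv_mem (h.pv (hn d ((h'.cm D hD).odd d hd) _ hv)
        (hp.map (MulAut.conj d).toMonoidHom)))
      simpa [commutatorElement_def, mul_assoc] using this.1)

theorem l3a (h : Fam 𝒜) (hn : Nor 𝒜) (h' : Fam ℬ) (hn' : Nor ℬ) (hC : C ∈ 𝒜) (hD : D ∈ ℬ) :
    ∀ d ∈ D, ∀ v ∈ So C, d * v * d⁻¹ ∈ So C := by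
  refine fun d hd v => (((h'.cm D hD).gen (normalizer (So C : Set G)) (fun d hd hq => ?_) hd) v).1
  have m := h.cm C hC
  have o := (h'.cm D hD).odd d hd
  by_contra hc
  have a1 := (h.l2 hn hC o).resolve_left fun e => hc (Subgroup.mem_normalizer_fintype e)
  have a2 := (h.l2 hn hC (k := d ^ 2) (by simpa using o.zpow 2)).resolve_left fun e => hc (by
    obtain ⟨n, h1, h2⟩ := o
    exact mem_of_cop (a := 2) (b := n) (Nat.prime_two.coprime_iff_not_dvd.2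
        fun x => h1.2 2 Nat.prime_two x rfl) (Subgroup.mem_normalizer_fintype e) (h2 ▸ one_mem _))
  have b1 : ∀ v ∈ So C, ⁅v, d⁆ ∈ So D := fun v hv =>
    l1' h hn h' hn' hD hd hq (le_sSup hC (m.le hv)) ((m.so v).1 hv).2
  have b2 : ∀ v ∈ So C, ⁅d * v * d⁻¹, d⁆ ∈ So D := fun v hv => l1' h hn h' hn' hD hd hq
    (hn d o _ (le_sSup hC (m.le hv))) (((m.so v).1 hv).2.map (MulAut.conj d).toMonoidHom)
  have c1 : ∀ v ∈ So C, ∀ w ∈ So C, ∀ y z : G, (∀ c ∈ C, Commute y c) → (∀ c ∈ C, Commute z c) →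
      v * y = w * z → v = w := fun v hv w hw y z hy hz e => by
    rw [eq_comm, ← inv_mul_eq_one]
    refine m.cl _ (mul_mem (inv_mem (m.le hw)) (m.le hv)) fun c hc => ?_
    rw [show w⁻¹ * v = z * y⁻¹ by rw [eq_mul_inv_iff_mul_eq, mul_assoc, e, inv_mul_cancel_left]]
    exact (hz c hc).mul_left (hy c hc).inv_left
  have := Nat.card_le_card_of_injective (fun x : So C × So C => (⟨⁅(x.1 : G), d⁆ * ⁅d * x.2 * d⁻¹, d⁆,
    mul_mem (b1 _ x.1.2) (b2 _ x.2.2)⟩ : So D)) fun ⟨v, w⟩ ⟨v', w'⟩ e => by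
      have e := congrArg Subtype.val e
      have k : ∀ v w : So C, ⁅(v : G), d⁆ * ⁅d * w * d⁻¹, d⁆ = v * ((d * (v⁻¹ * w : So C) * d⁻¹) *
          (d ^ 2 * (w⁻¹ : So C) * (d ^ 2)⁻¹)) := fun v w => by
        simp only [commutatorElement_def, Subgroup.coe_mul, Subgroup.coe_inv]; group
      have e1 : v = v' := Subtype.ext (c1 _ v.2 _ v'.2 _ _
        (fun c hc => (a1 _ (v⁻¹ * w).2 c hc).mul_left (a2 _ (w⁻¹).2 c hc))
        (fun c hc => (a1 _ (v'⁻¹ * w').2 c hc).mul_left (a2 _ (w'⁻¹).2 c hc))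
        ((k v w).symm.trans (e.trans (k v' w'))))
      subst e1
      have e2 : (w : G) * (d * (w⁻¹ : So C) * d⁻¹) = w' * (d * (w'⁻¹ : So C) * d⁻¹) := by
        have := congrArg (fun x => d⁻¹ * x * d) (mul_left_cancel e)
        simpa [commutatorElement_def, mul_assoc] using this
      rw [Subtype.ext (c1 _ w.2 _ w'.2 _ _ (a1 _ (w⁻¹).2) (a1 _ (w'⁻¹).2) e2)]
  rw [Nat.card_prod, m.card, (h'.cm D hD).card] at this
  norm_num at this

theorem l3 (h : Fam 𝒜) (hn : Nor 𝒜) (h' : Fam ℬ) (hn' : Nor ℬ) (hC : C ∈ 𝒜) (hD : D ∈ ℬ) :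
    So C = So D ∨ ∀ c ∈ C, ∀ d ∈ D, Commute c d := by
  have m := h.cm C hC
  have m' := h'.cm D hD
  have n1 := l3a h hn h' hn' hC hD
  have n2 := l3a h' hn' h hn hD hC
  rcases m.min (So C ⊓ So D) inf_le_left fun c a w b => ⟨m.nor a b.1, n2 c a w b.2⟩ with e | e
  swap
  · exact Or.inl (Subgroup.eq_of_le_of_card_ge (inf_eq_left.1 e) (m'.card.trans m.card.symm).le)
  have e0 : ∀ x ∈ So C, x ∈ So D → x = 1 := fun x a b => Subgroup.mem_bot.1 (e ▸ ⟨a, b⟩)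
  have k1 : ∀ d ∈ D, ∀ v ∈ So C, Commute d v := fun d hd v hv =>
    Subgroup.mem_centralizer_singleton_iff.1 (m'.gen (centralizer {v}) (fun d hd hq =>
      Subgroup.mem_centralizer_singleton_iff.2 (commutatorElement_eq_one_iff_commute.1 (e0 _
        (by simpa [commutatorElement_def, mul_assoc] using mul_mem hv (n1 d hd _ (inv_mem hv)))
        (l1' h hn h' hn' hD hd hq (le_sSup hC (m.le hv)) ((m.so v).1 hv).2))).symm) hd)
  refine Or.inr fun c hc d hd => Subgroup.mem_centralizer_singleton_iff.1 (m.gen (centralizer {d})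
    (fun c hc hq => Subgroup.mem_centralizer_singleton_iff.2 (Commute.symm
      (Subgroup.mem_centralizer_singleton_iff.1 (m'.gen (centralizer {c}) (fun d hd hq' =>
        Subgroup.mem_centralizer_singleton_iff.2 ?_) hd)))) hc)
  have k2 : ⁅c, d⁆ ∈ sSup 𝒜 := by
    simpa [commutatorElement_def, mul_assoc] using
      mul_mem (le_sSup hC hc) (hn d (m'.odd d hd) _ (inv_mem (le_sSup hC hc)))
  have k3 : pe 71 ⁅c, d⁆ := (h.cv k2 fun E hE v hv => by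
    by_cases e' : E = C
    · subst e'
      have := (k1 d hd _ (m.nor (inv_mem hc) hv)).map (MulAut.conj c).toMonoidHom
      exact Commute.mul_left (by simpa [mul_assoc] using this) (k1 d hd v hv).inv_left
    · have o := fun v hv => h.co C hC E hE (Ne.symm e') c hc v ((h.cm E hE).le hv)
      have := (o _ (l3a h hn h' hn' hE hD _ (inv_mem hd) v hv)).inv_left.map (MulAut.conj d).toMonoidHom
      simpa [commutatorElement_def, mul_assoc] using (o v hv).mul_left (by simpa [mul_assoc] using this)).1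
  have k4 := h'.l1 hD hd hq' (mul_mem (hn' c (m.odd c hc) _ (le_sSup hD hd)) (inv_mem (le_sSup hD hd))) k3
  have k5 := h.l1 hC hc hq (k := d) (by simpa using inv_mem k2)
    (by simpa using (h.PV.inv_mem (h.pv k2 k3)).1)
  exact (commutatorElement_eq_one_iff_commute.1 (e0 _ (by simpa using inv_mem k5) k4)).symm

end Pool.Agent.H68.Mod
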