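import Pool.Agent.H68.Mod2

set_option autoImplicit false

namespace Pool.Agent.H68.Mod

open Function SemidirectProduct Pool.Agent.H68.Fit Pool.Agent.H68.Sat Pool.Agent.H68.Nl
open Subgroup (closure centralizer normalizer)
open scoped commutatorElement

variable {G G' : Type} [Group G] [Group G'] {C D : Subgroup G} {𝒜 ℬ : Set (Subgroup G)}
  {q q' : ℕ} {b b' : Bool} {τ α β : G}

theorem cm_r (x p q : G) : ⁅x, p * q⁆ = ⁅x, p⁆ * (p * ⁅x, q⁆ * p⁻¹) := by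
  simp only [commutatorElement_def]; group

theorem cm_l (x p q : G) : ⁅p * q, x⁆ = p * ⁅q, x⁆ * p⁻¹ * ⁅p, x⁆ := by
  simp only [commutatorElement_def]; group

def nh (b : Bool) : Hol := inr (nu b)

def Cp (q : ℕ) (b : Bool) (τ : G) (C : Subgroup G) : Prop :=
  ∃ ι : TT q →* G, Injective ι ∧ ι.range = C ∧
    ∀ x y : TT q, (y : Hol) = nh b * x * (nh b)⁻¹ → τ * ι x * τ⁻¹ = ι y

def iv (q : ℕ) : V0 →* TT q := inl.codRestrict _ fun v => by simp [TT]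

theorem iv_inj : Injective (iv q) := fun _ _ e => inl_injective (congrArg Subtype.val e)

theorem iv_conj (x : TT q) (v : V0) : x * iv q v * x⁻¹ = iv q (ψ x.1.right v) :=
  Subtype.ext (hol_conj _ _)

def nT (hq : QP q) (b : Bool) (x : TT q) : TT q :=
  ⟨nh b * x * (nh b)⁻¹, by simpa [TT, nh] using hh_nor (nu_mem hq b).1 x.2⟩

theorem so_eq (hq : QP q) {ι : TT q →* G} (hι : Injective ι) :
    So ι.range = (ι.comp (iv q)).range := by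
  refine le_antisymm ((Subgroup.closure_le _).2 ?_) ?_
  · rintro _ ⟨⟨x, rfl⟩, h⟩
    exact ⟨x.1.left, congrArg ι (Subtype.ext (inl_left ((t_pe hq x.2).1
      ((pe_inj ι hι h).map (TT q).subtype))).symm)⟩
  · rintro _ ⟨v, rfl⟩
    exact Subgroup.subset_closure ⟨⟨_, rfl⟩, pe.map ⟨1, v_exp v⟩ _⟩

theorem Cp.cm (hq : QP q) (h : Cp q b τ C) : Cm C := by
  obtain ⟨ι, hι, rfl, -⟩ := h
  have e := so_eq hq hι
  have sc : ∀ x : TT q, (∀ v, Commute (ι x) (ι (iv q v))) → x = iv q x.1.left := fun x h =>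
    Subtype.ext (inl_left (ψ_inj (MulEquiv.ext fun v => iv_inj (q := q) (hι (by
      rw [← iv_conj, map_mul, map_mul, (h v).eq]; simp)))))
  have mn : ∀ W ≤ So ι.range, (∀ c ∈ ι.range, ∀ w ∈ W, c * w * c⁻¹ ∈ W) → W = ⊥ ∨ W = So ι.range := by
    intro W h1 h2
    rw [← Subgroup.map_comap_eq_self (h1.trans e.le), e]
    refine (v_min hq (W.comap (ι.comp (iv q))) fun a ha w hw => ?_).imp (fun k => by
      rw [k, Subgroup.map_bot]) fun k => by rw [k, MonoidHom.range_eq_map]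
    have := h2 _ ⟨⟨inr a, ha⟩, rfl⟩ _ hw
    rwa [MonoidHom.comp_apply, ← map_inv, ← map_mul, ← map_mul, iv_conj] at this
  refine ⟨fun c => ⟨fun a => ?_, fun a => Subgroup.subset_closure a⟩, ?_, mn, ?_, ?_, fun J hJ => ?_,
    ?_, ?_⟩
  · obtain ⟨v, rfl⟩ := e.le a
    exact ⟨⟨_, rfl⟩, pe.map ⟨1, v_exp v⟩ _⟩
  · rw [e]; rintro _ ⟨v, rfl⟩ _ ⟨w, rfl⟩; exact (Commute.all v w).map _
  · rintro _ ⟨x, rfl⟩ h
    rw [sc x fun v => h _ (e.ge ⟨v, rfl⟩)]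
    exact e.ge ⟨_, rfl⟩
  · rintro _ ⟨x, rfl⟩ h
    have h1 := sc x fun v => h _ ⟨_, rfl⟩
    rcases mn (So ι.range ⊓ centralizer ι.range) inf_le_left (fun c a w k => by
      rwa [k.2 c a, mul_inv_cancel_right]) with k | k
    · exact Subgroup.mem_bot.1 (k ▸ ⟨e.ge ⟨_, congrArg ι h1.symm⟩, fun d a => (h d a).symm⟩)
    · have := congrArg (·.1.right) (sc ⟨inr ss, ss_mem⟩ fun v => (k.ge (e.ge ⟨v, rfl⟩)).2 _ ⟨_, rfl⟩)
      exact absurd this (by decide : ss ≠ 1)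
  · rintro _ ⟨x, rfl⟩
    obtain ⟨y, h1, h2⟩ := gen1 hq ((J.comap ι).map (TT q).subtype) (fun x a k => ⟨⟨x, a⟩,
      hJ _ ⟨_, rfl⟩ ((Sch.pe_inj' (TT q).subtype (TT q).subtype_injective k).map ι), rfl⟩) x.2
    exact (Subtype.ext h2 : y = x) ▸ h1
  · rw [e, ← Nat.card_congr (MonoidHom.ofInjective (f := ι.comp (iv q)) (hι.comp iv_inj)).toEquiv]
    simp [Nat.card_congr Multiplicative.toAdd]
  · rintro _ ⟨x, rfl⟩
    exact (Sch.pe_inj' (TT q).subtype (TT q).subtype_injective (t_odd hq x.2)).map ι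

theorem Cp.nor (hq : QP q) (h : Cp q b τ C) : ∀ c ∈ C, τ * c * τ⁻¹ ∈ C := by
  obtain ⟨ι, -, rfl, h⟩ := h
  rintro _ ⟨x, rfl⟩
  exact ⟨_, (h x (nT hq b x) rfl).symm⟩

theorem Cp.gen (hq : QP q) (h : Cp q b τ C) (J : Subgroup G) (h1 : ∀ c ∈ C, ∀ y ∈ J, c * y * c⁻¹ ∈ J)
    (h2 : ∀ c ∈ C, ⁅c, τ⁆ ∈ J) : C ≤ J := by
  obtain ⟨ι, -, rfl, h⟩ := h
  rintro _ ⟨x, rfl⟩
  obtain ⟨y, k1, k2⟩ := gen2 hq b ((J.comap ι).map (TT q).subtype) (by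
    rintro x a _ ⟨y, k, rfl⟩
    exact ⟨⟨x, a⟩ * y * ⟨x, a⟩⁻¹, by simpa using h1 _ ⟨⟨x, a⟩, rfl⟩ _ k, rfl⟩) (fun x a =>
    ⟨⟨x, a⟩ * nT hq b ⟨x, a⟩⁻¹, by
      have := h2 _ ⟨⟨x, a⟩, rfl⟩
      rwa [commutatorElement_def, mul_assoc, mul_assoc, ← mul_assoc τ, ← map_inv,
        h _ (nT hq b ⟨x, a⟩⁻¹) rfl, ← map_mul] at this, by
      simp [nT, nh, commutatorElement_def, mul_assoc]⟩) x.2
  exact (Subtype.ext k2 : y = x) ▸ k1

theorem Cp.congr (h : Cp q b τ C) (e : ∀ c ∈ C, α * c * α⁻¹ = τ * c * τ⁻¹) : Cp q b α C := by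
  obtain ⟨ι, h1, rfl, h⟩ := h
  exact ⟨ι, h1, rfl, fun x y k => (e _ ⟨x, rfl⟩).trans (h x y k)⟩

theorem Cp.sq (hq : QP q) (h : Cp q b τ C) : ∀ c ∈ C, τ * τ * c * (τ * τ)⁻¹ = c := by
  obtain ⟨ι, -, rfl, h⟩ := h
  rintro _ ⟨x, rfl⟩
  have e : nh b * nh b = 1 := by
    rw [nh, ← map_mul, show nu b * nu b = 1 by
      cases b <;> exact SemidirectProduct.ext (by decide +kernel) (by decide +kernel), map_one]
  conv_rhs => rw [← h (nT hq b x) x (by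
    calc _ = nh b * nh b * x * (nh b * nh b)⁻¹ := by rw [e]; simp
      _ = _ := by simp only [nT]; group), ← h x (nT hq b x) rfl]
  group

theorem l4a (hq : QP q) (hq' : QP q') (h : Cp q b α C) (h' : Cp q' b' β D) [Finite G] (e : So C = So D)
    (hn : ∀ c ∈ C, ∀ d ∈ D, d * c * d⁻¹ ∈ C) (h1 : pe 2 (α * β)) (h2 : ∀ c ∈ C, qe 2 ⁅α * β, c⁆) :
    q = q' ∧ ∀ v ∈ So C, α * β * v * (α * β)⁻¹ = if b = b' then v else v⁻¹ := by
  obtain ⟨ι, i1, rfl, i2⟩ := h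
  obtain ⟨ι', j1, rfl, j2⟩ := h'
  rw [so_eq hq' j1] at e
  rw [so_eq hq i1] at e ⊢
  let j := ι.comp (iv q)
  let ε := MonoidHom.ofInjective (f := j) (i1.comp iv_inj)
  let θ : MulAut V0 := ((MonoidHom.ofInjective (f := ι'.comp (iv q')) (j1.comp iv_inj)).trans
    (MulEquiv.subgroupCongr e.symm)).trans ε.symm
  have t1 : ∀ v, j (θ v) = ι' (iv q' v) := fun v => congrArg Subtype.val (ε.apply_symm_apply _)
  obtain ⟨φ, hφ⟩ : ∃ φ : normalizer (j.range : Set G) →* MulAut V0, ∀ g v,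
      j (φ g v) = g * j v * g⁻¹ :=
    ⟨(MulAut.congr ε.symm).toMonoidHom.comp j.range.normalizerMonoidHom, fun g v =>
      congrArg Subtype.val (ε.apply_symm_apply _)⟩
  have k : ∀ (g : G) (A : MulAut V0), (∀ v, g * j v * g⁻¹ = j (A v)) →
      ∃ h : g ∈ normalizer (j.range : Set G), φ ⟨g, h⟩ = A := fun g A h =>
    ⟨Subgroup.mem_normalizer_fintype (by rintro _ ⟨v, rfl⟩; exact ⟨_, (h v).symm⟩),
      MulEquiv.ext fun v => (i1.comp iv_inj) ((hφ _ v).trans (h v))⟩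
  have a1 : ∀ x : TT q, _ := fun x => k (ι x) (ψ x.1.right) fun v => by
    simp only [j, MonoidHom.comp_apply, ← map_inv, ← map_mul, iv_conj]
  have a2 : ∀ x : TT q', _ := fun x => k (ι' x) (θ * ψ x.1.right * θ⁻¹) fun v => by
    rw [MulAut.mul_apply, MulAut.mul_apply, t1, ← iv_conj, map_mul, map_mul, ← t1]; simp
  obtain ⟨a3, a4⟩ := k α (ψ (nu b)) fun v => i2 (iv q v) (iv q (ψ (nu b) v)) (hol_conj (nh b) v).symm
  obtain ⟨a5, a6⟩ := k β (θ * ψ (nu b') * θ⁻¹) fun v => by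
    rw [MulAut.mul_apply, MulAut.mul_apply, t1, ← j2 (iv q' (θ⁻¹ v)) (iv q' (ψ (nu b') (θ⁻¹ v)))
      (hol_conj (nh b') _).symm, ← t1]; simp
  obtain ⟨rfl, ω, hω⟩ := rig1 hq hq' θ fun a ha c hc => by
    obtain ⟨x, hx⟩ := hn _ ⟨⟨inr c, hc⟩, rfl⟩ _ ⟨⟨inr a, ha⟩, rfl⟩
    obtain ⟨u1, u2⟩ := a1 ⟨inr c, hc⟩
    obtain ⟨u3, u4⟩ := a2 ⟨inr a, ha⟩
    obtain ⟨u5, u6⟩ := a1 x
    refine ⟨x.1.right, x.2, ?_⟩
    rw [← u6, ← show _ = ψ c from u2, ← show _ = θ * ψ a * θ⁻¹ from u4, ← map_inv, ← map_mul,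
      ← map_mul]
    exact congrArg φ (Subtype.ext hx.symm)
  have a7 : φ ⟨α * β, mul_mem a3 a5⟩ = ψ (nu b * (ω * nu b' * ω⁻¹)) := by
    rw [map_mul, map_mul, map_mul, map_inv, ← hω, ← a4, ← a6, ← map_mul]; rfl
  obtain ⟨u1, u2⟩ := a1 ⟨inr ss, ss_mem⟩
  have a8 := rig2 b b' ω (pe_inj ψ ψ_inj (a7 ▸ (pe_inj (Subgroup.subtype _)
    (Subgroup.subtype_injective _) h1).map φ)) (Sch.pe_inj' ψ ψ_inj (by
      rw [map_commutatorElement, ← a7, ← show _ = ψ ss from u2, ← map_commutatorElement]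
      exact (Sch.pe_inj' (Subgroup.subtype _) (Subgroup.subtype_injective _)
        (h2 _ ⟨⟨inr ss, ss_mem⟩, rfl⟩)).map φ))
  refine ⟨rfl, ?_⟩
  rintro _ ⟨v, rfl⟩
  rw [← show j _ = α * β * j v * (α * β)⁻¹ from hφ ⟨α * β, mul_mem a3 a5⟩ v, a7, a8]
  split_ifs with hb
  · subst hb
    exact congrArg j (v_ext fun i => by cases b <;> simp [ψ_app, ep])
  · rw [← map_inv]
    exact congrArg j (v_ext fun i => by cases b <;> cases b' <;> simp_all [ψ_app, ep])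

structure Sy (S : ℕ → Bool → Prop) (τ : G) (𝒜 : Set (Subgroup G)) : Prop where
  cp : ∀ C ∈ 𝒜, ∃ q b, S q b ∧ QP q ∧ Cp q b τ C
  co : ∀ C ∈ 𝒜, ∀ D ∈ 𝒜, C ≠ D → ∀ c ∈ C, ∀ d ∈ D, Commute c d
  cov : ∀ k : G, qe 2 k → ⁅k, τ⁆ ∈ sSup 𝒜

variable {S S' : ℕ → Bool → Prop}

theorem Sy.fam (h : Sy S τ 𝒜) : Fam 𝒜 :=
  ⟨fun C a => by obtain ⟨q, b, -, h1, h2⟩ := h.cp C a; exact h2.cm h1, h.co⟩

theorem Sy.nor (m : MC (· ≠ 2) (⊤ : Subgroup G)) (h : Sy S τ 𝒜) : Nor 𝒜 := by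
  let J := closure {x | ∃ k : G, qe 2 k ∧ x = ⁅k, τ⁆}
  have h1 : ∀ k, qe 2 k → J ≤ J.comap (MulAut.conj k).toMonoidHom := fun k hk =>
    (Subgroup.closure_le _).2 (by
      rintro _ ⟨l, hl, rfl⟩
      have := J.mul_mem (Subgroup.subset_closure ⟨_, m k trivial l trivial hk hl, rfl⟩)
        (J.inv_mem (Subgroup.subset_closure ⟨_, hk, rfl⟩))
      rw [cm_l, mul_inv_cancel_right] at this
      exact this)
  have h2 : sSup 𝒜 = J := le_antisymm (sSup_le fun C a => by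
    obtain ⟨q, b, -, h3, h4⟩ := h.cp C a
    exact h4.gen h3 J (fun c x y z => h1 c ((h4.cm h3).odd c x) z) fun c x =>
      Subgroup.subset_closure ⟨c, (h4.cm h3).odd c x, rfl⟩)
    ((Subgroup.closure_le _).2 (by rintro _ ⟨k, hk, rfl⟩; exact h.cov k hk))
  intro k hk x hx
  exact h2 ▸ h1 k hk (h2 ▸ hx)

theorem Sy.tn (h : Sy S τ 𝒜) (hC : C ∈ 𝒜) : ∀ c ∈ C, τ * c * τ⁻¹ ∈ C := by
  obtain ⟨q, b, -, h1, h2⟩ := h.cp C hC; exact h2.nor h1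

theorem cop2 {x : G} (h1 : pe 2 τ) (h2 : qe 2 ⁅x, τ⁆) (h3 : Commute ⁅x, τ⁆ τ) : Commute x τ := by
  obtain ⟨n, hn⟩ := h1
  exact commutatorElement_eq_one_iff_commute.1 (pq ⟨n, Subgroup.mem_bot.1 (coc (C := ⊥) hn
    (fun c a => by simp [Subgroup.mem_bot.1 a]) (one_mem _) (one_mul _).symm (Commute.one_right _) h3)⟩ h2)

variable [Finite G]

theorem comm_t (hD : ∀ d ∈ D, β * d * β⁻¹ ∈ D) {c : G} (h : ∀ d ∈ D, Commute c d) :
    ∀ d ∈ D, Commute ⁅c, β⁆ d := fun d hd => by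
  have := (h _ ((Subgroup.mem_normalizer_iff''.1 (Subgroup.mem_normalizer_fintype hD) d).1 hd)).inv_left.map
    (MulAut.conj β).toMonoidHom
  simpa [commutatorElement_def, mul_assoc] using (h d hd).mul_left (by simpa [mul_assoc] using this)

theorem l4c (m : MC (· ≠ 2) (⊤ : Subgroup G)) (h : Sy S α 𝒜) (h' : Sy S' β ℬ) (hC : C ∈ 𝒜)
    (hD : D ∈ ℬ) (e : So C = So D) : (∀ c ∈ C, ⁅c, β⁆ ∈ D) ∧ ∀ c ∈ C, ∀ d ∈ D, c * d * c⁻¹ ∈ D := by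
  have k : ∀ E ∈ ℬ, E ≠ D → ∀ c ∈ C, ∀ d ∈ E, Commute c d := fun E hE hn =>
    (l3 h.fam (h.nor m) h'.fam (h'.nor m) hC hE).resolve_left fun e' => by
      have m1 := h'.fam.cm D hD
      have : So D = ⊥ := eq_bot_iff.2 fun v hv => m1.cl v (m1.le hv) fun d hd =>
        h'.co E hE D hD hn v ((h'.fam.cm E hE).le (e' ▸ e ▸ hv)) d hd
      have k := m1.card
      rw [this] at k; simp at k
  have o := (h.fam.cm C hC).odd
  exact ⟨fun c hc => h'.fam.mem hD (h'.cov c (o c hc)) fun E hE hn => comm_t (h'.tn hE) (k E hE hn c hc),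
    fun c hc d hd => h'.fam.mem hD (h'.nor m c (o c hc) d (le_sSup hD hd)) fun E hE hn x hx =>
      ((k E hE hn c hc x hx).mul_left (h'.co D hD E hE hn.symm d hd x hx)).mul_left
        (k E hE hn c hc x hx).inv_left⟩

theorem l4 (m : MC (· ≠ 2) (⊤ : Subgroup G)) (hS : ∀ q b b', S q b → S q b' → b = b')
    (h : Sy S α 𝒜) (h' : Sy S β ℬ) (hp : pe 2 (α * β)) (hC : C ∈ 𝒜) (hD : D ∈ ℬ) (e : So C = So D) :
    (∀ c ∈ C, Commute c (α * β)) ∧ D ≤ C := by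
  obtain ⟨k1, k2⟩ := l4c m h h' hC hD e
  obtain ⟨k3, k4⟩ := l4c m h' h hD hC e.symm
  obtain ⟨q, b, s1, s2, s3⟩ := h.cp C hC
  obtain ⟨q', b', s4, s5, s6⟩ := h'.cp D hD
  have m1 := s3.cm s2
  have m2 := s6.cm s5
  have o : ∀ x ∈ C ⊔ D, x ∈ m.sub := sup_le (c := m.sub) (fun x a => ⟨trivial, m1.odd x a⟩)
    fun x a => ⟨trivial, m2.odd x a⟩
  have o' : ∀ x ∈ C ⊔ D, ∀ g, qe 2 ⁅x, g⁆ := fun x a g =>
    (Subgroup.commutator_le_left m.sub ⊤ (Subgroup.commutator_mem_commutator (o x a) trivial)).2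
  obtain ⟨rfl, k5⟩ := l4a s2 s5 s3 s6 e (fun c a d b => k4 d b c a) hp fun c a => by
    simpa using qe_inv (o' c (Subgroup.mem_sup_left a) (α * β))
  obtain rfl := hS _ _ _ s1 s4
  have k6 : ∀ v ∈ So C, Commute v (α * β) := fun v a =>
    (mul_inv_eq_iff_eq_mul.1 ((k5 v a).trans (if_pos rfl))).symm
  have g : ∀ {C D : Subgroup G} {α : G}, (∀ c ∈ C, α * c * α⁻¹ ∈ C) → (∀ c ∈ D, ⁅c, α⁆ ∈ C) →
      (∀ c ∈ D, ∀ d ∈ C, c * d * c⁻¹ ∈ C) → ∀ x ∈ C ⊔ D, (∀ d ∈ C, x * d * x⁻¹ ∈ C) ∧ ⁅x, α⁆ ∈ C := by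
    intro C D α h1 h2 h3 x hx
    let J : Subgroup G :=
      { carrier := {x | x ∈ normalizer (C : Set G) ∧ ⁅x, α⁆ ∈ C}
        one_mem' := ⟨one_mem _, by simp⟩
        mul_mem' := fun {x y} a b => ⟨mul_mem a.1 b.1, by
          rw [cm_l]; exact mul_mem ((a.1 _).1 b.2) a.2⟩
        inv_mem' := fun {x} a => ⟨inv_mem a.1, by
          simpa [commutatorElement_def, mul_assoc] using (inv_mem a.1 _).1 (inv_mem a.2)⟩ }
    have : C ⊔ D ≤ J := sup_le (fun c a => ⟨Subgroup.le_normalizer a, by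
        simpa [commutatorElement_def, mul_assoc] using mul_mem a (h1 _ (inv_mem a))⟩)
      fun d a => ⟨Subgroup.mem_normalizer_fintype (h3 d a), h2 d a⟩
    exact ⟨fun d => ((this hx).1 d).1, (this hx).2⟩
  have g1 := g (h.tn hC) k3 k4
  have g2 := fun x (a : x ∈ C ⊔ D) => g (h'.tn hD) k1 k2 x (sup_comm C D ▸ a)
  have g3 : ∀ x ∈ C ⊔ D, ⁅x, α * β⁆ ∈ C ⊔ D := fun x a => by
    have k : ∀ y ∈ C ⊔ D, α * y * α⁻¹ ∈ C ⊔ D := fun y b => by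
      simpa [commutatorElement_def, mul_assoc] using
        mul_mem (inv_mem (Subgroup.mem_sup_left (g1 y b).2)) b
    rw [cm_r]
    exact mul_mem (Subgroup.mem_sup_left (g1 x a).2) (k _ (Subgroup.mem_sup_right (g2 x a).2))
  have n1 : ∀ x ∈ C ⊔ D, ∀ v ∈ So C, x * v * x⁻¹ ∈ So C := fun x a v b => (m1.so _).2
    ⟨(g1 x a).1 v (m1.le b), ((m1.so v).1 b).2.map (MulAut.conj x).toMonoidHom⟩
  have g4 : ∀ x ∈ C ⊔ D, Commute x (α * β) := fun x a => by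
    refine cop2 hp (o' x a _) (cop2 hp (o' _ (g3 x a) _) (k6 _ ?_))
    have z : ∀ v ∈ So C, Commute ⁅x, α * β⁆ v := fun v b => by
      have := (k6 _ (n1 _ (inv_mem a) v b)).symm.map (MulAut.conj x).toMonoidHom
      exact Commute.mul_left (by simpa [mul_assoc] using this) (k6 v b).symm.inv_left
    have a' := g3 x a
    generalize ⁅x, α * β⁆ = y at z a'
    have t1 : ∀ v ∈ So C, α * v * α⁻¹ ∈ So C := fun v b => (m1.so _).2
      ⟨h.tn hC v (m1.le b), ((m1.so v).1 b).2.map (MulAut.conj α).toMonoidHom⟩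
    have t2 : ∀ v ∈ So D, β * v * β⁻¹ ∈ So D := fun v b => (m2.so _).2
      ⟨h'.tn hD v (m2.le b), ((m2.so v).1 b).2.map (MulAut.conj β).toMonoidHom⟩
    rw [cm_r]
    exact mul_mem (m1.sc _ (g1 y a').2 (comm_t t1 z))
      (t1 _ (e ▸ m2.sc _ (g2 y a').2 (comm_t t2 (e ▸ z))))
  refine ⟨fun c a => g4 c (Subgroup.mem_sup_left a), s6.gen s5 C k4 fun d a => ?_⟩
  have := (Subgroup.mem_normalizer_iff''.1 (Subgroup.mem_normalizer_fintype (h.tn hC)) _).1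
    (inv_mem (k3 d a))
  convert this using 1
  have := (g4 d (Subgroup.mem_sup_right a)).inv_left.eq
  calc _ = d * α⁻¹ * (α * β * d⁻¹) * β⁻¹ := by rw [commutatorElement_def]; group
    _ = _ := by rw [← this, commutatorElement_def]; group

end Pool.Agent.H68.Mod
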