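import Pool.Agent.H68.Mod3

set_option autoImplicit false

namespace Pool.Agent.H68.Mod

open Function SemidirectProduct Pool.Agent.H68.Fit Pool.Agent.H68.Sat Pool.Agent.H68.Nl
open Subgroup (closure centralizer normalizer)
open scoped commutatorElement

variable {G H : Type} [Group G] [Group H] {C D : Subgroup G} {𝒜 ℬ : Set (Subgroup G)}
  {q : ℕ} {b : Bool} {τ α β : G} {S S' : ℕ → Bool → Prop}

theorem sup_nor {g x : G} (h : ∀ C ∈ 𝒜, ∀ c ∈ C, g * c * g⁻¹ ∈ C) (hx : x ∈ sSup 𝒜) :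
    g * x * g⁻¹ ∈ sSup 𝒜 :=
  sSup_le (a := (sSup 𝒜).comap (MulAut.conj g).toMonoidHom) (fun C a c b => le_sSup a (h C a c b)) hx

theorem Cm.ne (h : Cm C) : ¬ ∀ v ∈ So C, v = 1 := fun e => by
  have k := h.card
  rw [(Subgroup.eq_bot_iff_forall _).2 e] at k; simp at k

theorem odd_l (m : MC (· ≠ 2) (⊤ : Subgroup G)) {x : G} (h : qe 2 x) (g : G) : qe 2 ⁅x, g⁆ :=
  (Subgroup.commutator_le_left m.sub ⊤ (Subgroup.commutator_mem_commutator ⟨trivial, h⟩ trivial)).2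

theorem two_odd {R : Subgroup G} {x : G} {n : ℕ} (h : qe 2 x) (e : x ^ 2 ^ n ∈ R) : x ∈ R := by
  obtain ⟨a, h1, h2⟩ := h
  exact mem_of_cop (h1.cop (PN.pw (by norm_num) (by simp) n)) (h2 ▸ one_mem _) e

theorem mc_inj (f : H →* G) (hf : Injective f) (m : MC (· ≠ 2) (⊤ : Subgroup G)) :
    MC (· ≠ 2) (⊤ : Subgroup H) := fun a _ b _ x y =>
  Sch.pe_inj' f hf (by rw [map_mul]; exact m _ trivial _ trivial (x.map f) (y.map f))

theorem Sy.pull (f : H →* G) (hf : Injective f) (hn : f.range.Normal) {τ : H} (h : Sy S (f τ) 𝒜) :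
    Sy S τ (Subgroup.comap f '' 𝒜) := by
  have k : ∀ C ∈ 𝒜, C ≤ f.range := fun C a => by
    obtain ⟨q, b, -, s2, s3⟩ := h.cp C a
    exact s3.gen s2 _ (fun c _ y z => hn.conj_mem y z c) fun c _ =>
      mul_mem (hn.conj_mem _ ⟨τ, rfl⟩ c) (inv_mem ⟨τ, rfl⟩)
  refine ⟨?_, ?_, fun x hx => ?_⟩
  · rintro _ ⟨C, a, rfl⟩
    obtain ⟨q, b, s1, s2, ι, i1, rfl, i2⟩ := h.cp C a
    let ι' := (MonoidHom.ofInjective hf).symm.toMonoidHom.comp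
      (ι.codRestrict f.range fun x => k _ a ⟨x, rfl⟩)
    have e : ∀ x, f (ι' x) = ι x := fun x => MonoidHom.apply_ofInjective_symm hf _
    refine ⟨q, b, s1, s2, ι', fun x y z => i1 (by rw [← e, z, e]), ?_, fun x y z => hf ?_⟩
    · exact Subgroup.ext fun x => ⟨fun ⟨y, z⟩ => ⟨y, z ▸ (e y).symm⟩,
        fun ⟨y, z⟩ => ⟨y, hf ((e y).trans z)⟩⟩
    · rw [map_mul, map_mul, map_inv, e, e, i2 x y z]
  · rintro _ ⟨C, a, rfl⟩ _ ⟨D, a', rfl⟩ hn c hc d hd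
    exact hf (by simpa using (h.co C a D a' (fun e => hn (e ▸ rfl)) _ hc _ hd).eq)
  · obtain ⟨y, h1, h2⟩ := sSup_le (a := (sSup (Subgroup.comap f '' 𝒜)).map f) (fun C a c hc => by
      obtain ⟨c, rfl⟩ := k C a hc
      exact ⟨c, le_sSup (s := Subgroup.comap f '' 𝒜) ⟨C, a, rfl⟩ hc, rfl⟩) (h.cov _ (hx.map f))
    rwa [← hf (h2.trans (map_commutatorElement f x τ).symm)]

theorem coc2 [Finite G] {R : Subgroup G} {x α : G} {n : ℕ} (h1 : ∀ r ∈ R, x * r * x⁻¹ ∈ R)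
    (h2 : ∀ r ∈ R, α * r * α⁻¹ ∈ R) (h3 : ⁅x, α⁆ ∈ R) (h4 : α ^ n = 1) (h5 : (x * α) ^ n = 1) :
    x ^ n ∈ R := by
  let f := QuotientGroup.mk' (R.subgroupOf (normalizer (R : Set G)))
  let x' : normalizer (R : Set G) := ⟨x, Subgroup.mem_normalizer_fintype h1⟩
  let α' : normalizer (R : Set G) := ⟨α, Subgroup.mem_normalizer_fintype h2⟩
  have k : Commute (f x') (f α') := commutatorElement_eq_one_iff_commute.1 (by
    rw [← map_commutatorElement]; exact mk_one.2 h3)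
  have := k.mul_pow n
  rw [← map_mul, ← map_pow, ← map_pow, ← map_pow, show (x' * α') ^ n = 1 from Subtype.ext h5,
    show α' ^ n = 1 from Subtype.ext h4, map_one, mul_one] at this
  exact (mk_one (g := x' ^ n)).1 this.symm

theorem Sy.push [Finite H] (f : H →* G) (hf : Injective f) (hn : f.range.Normal)
    (m : MC (· ≠ 2) (⊤ : Subgroup G)) {τ : H} {𝒜 : Set (Subgroup H)} (hp : pe 2 τ) (h : Sy S τ 𝒜) :
    Sy S (f τ) (Subgroup.map f '' 𝒜) := by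
  refine ⟨?_, ?_, fun k hk => ?_⟩
  · rintro _ ⟨C, a, rfl⟩
    obtain ⟨q, b, s1, s2, ι, i1, rfl, i2⟩ := h.cp C a
    exact ⟨q, b, s1, s2, f.comp ι, hf.comp i1, MonoidHom.range_comp _ _, fun x y z => by
      rw [MonoidHom.comp_apply, MonoidHom.comp_apply, ← i2 x y z]; simp⟩
  · rintro _ ⟨C, a, rfl⟩ _ ⟨D, a', rfl⟩ hn _ ⟨c, hc, rfl⟩ _ ⟨d, hd, rfl⟩
    exact (h.co C a D a' (fun e => hn (e ▸ rfl)) _ hc _ hd).map f
  · obtain ⟨x, hx⟩ : ⁅k, f τ⁆ ∈ f.range := mul_mem (hn.conj_mem _ ⟨τ, rfl⟩ k) (inv_mem ⟨τ, rfl⟩)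
    have o : qe 2 x := Sch.pe_inj' f hf (hx ▸ odd_l m hk _)
    obtain ⟨n, e⟩ := hp
    exact hx ▸ sSup_le (a := (sSup (Subgroup.map f '' 𝒜)).comap f) (fun C a c hc =>
      le_sSup (s := Subgroup.map f '' 𝒜) ⟨C, a, rfl⟩ ⟨c, hc, rfl⟩) (two_odd o (coc2 (h.nor (mc_inj f hf m) x o)
        (fun r => sup_nor fun C => h.tn) (h.cov x o) e (hf (by
          rw [map_pow, map_mul, hx, commutatorElement_def, inv_mul_cancel_right, conj_pow, ← map_pow, e]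
          simp))))

variable [Finite G]

theorem Sy.cen (h : Sy S β ℬ) {c : G} (o : qe 2 c) (hc : ∀ D ∈ ℬ, ∀ d ∈ D, Commute c d) :
    Commute c β :=
  commutatorElement_eq_one_iff_commute.1 (h.fam.cl (h.cov c o) fun D a => comm_t (h.tn a) (hc D a))

theorem disj (m : MC (· ≠ 2) (⊤ : Subgroup G)) (h : Sy S τ 𝒜) (h' : Sy S' τ ℬ) (hp : pe 2 τ)
    (hS : ∀ q b, S q b → ¬ S' q b) : 𝒜 = ∅ := by
  refine Set.eq_empty_of_forall_notMem fun C hC => ?_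
  obtain ⟨q, b, s1, s2, s3⟩ := h.cp C hC
  have m1 := s3.cm s2
  refine m1.ne fun v hv => s3.gen s2 ⊥ (by simp) (fun c hc => ?_) (m1.le hv)
  refine commutatorElement_eq_one_iff_commute.2 (h'.cen (m1.odd c hc) fun D hD => ?_)
  refine (l3 h.fam (h.nor m) h'.fam (h'.nor m) hC hD).resolve_left (fun e => ?_) c hc
  obtain ⟨q', b', s4, s5, s6⟩ := h'.cp D hD
  obtain ⟨rfl, k⟩ := l4a s2 s5 s3 s6 e (fun c a d b => (l4c m h' h hD hC e.symm).2 d b c a)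
    (pe_mul (Commute.refl _) hp hp) fun c a => by simpa using qe_inv (odd_l m (m1.odd c a) (τ * τ))
  refine m1.ne fun v hv => ?_
  have := (s3.sq s2 v (m1.le hv)).symm.trans ((k v hv).trans (if_neg fun e : b = b' => hS _ _ s1 (e ▸ s4)))
  exact pq ⟨1, by rw [pow_one, sq, mul_eq_one_iff_eq_inv]; exact this⟩ (m1.odd v (m1.le hv))

theorem comb (m : MC (· ≠ 2) (⊤ : Subgroup G)) (hS : ∀ q b b', S q b → S q b' → b = b')
    (h : Sy S α 𝒜) (h' : Sy S β ℬ) (hp : pe 2 (α * β)) : Sy S (α * β) (𝒜 \ ℬ ∪ ℬ \ 𝒜) := by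
  have a1 : ∀ C ∈ 𝒜, ∀ D ∈ ℬ, C ≠ D → ∀ c ∈ C, ∀ d ∈ D, Commute c d := fun C hC D hD hn =>
    (l3 h.fam (h.nor m) h'.fam (h'.nor m) hC hD).resolve_left fun e => hn (le_antisymm
      (l4 m hS h' h (by simpa [mul_assoc] using hp.map (MulAut.conj β).toMonoidHom) hD hC e.symm).2
      (l4 m hS h h' hp hC hD e).2)
  have a2 : ∀ C ∈ 𝒜 \ ℬ, ∀ c ∈ C, Commute c β := fun C a c hc =>
    h'.cen ((h.fam.cm C a.1).odd c hc) fun D hD => a1 C a.1 D hD (fun e => a.2 (e ▸ hD)) c hc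
  have a3 : ∀ D ∈ ℬ \ 𝒜, ∀ d ∈ D, Commute d α := fun D a d hd =>
    h.cen ((h'.fam.cm D a.1).odd d hd) fun C hC c hc =>
      (a1 C hC D a.1 (fun e => a.2 (e ▸ hC)) c hc d hd).symm
  have a4 : Fam (𝒜 ∪ ℬ) := ⟨fun C a => a.elim (h.fam.cm C) (h'.fam.cm C), by
    rintro C (a | a) D (b | b) hn c hc d hd
    exacts [h.co C a D b hn c hc d hd, a1 C a D b hn c hc d hd, (a1 D b C a hn.symm d hd c hc).symm,
      h'.co C a D b hn c hc d hd]⟩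
  have a5 : ∀ C ∈ 𝒜 \ ℬ ∪ ℬ \ 𝒜, ∃ q b, S q b ∧ QP q ∧ Cp q b (α * β) C := by
    rintro C (a | a)
    · obtain ⟨q, b, s1, s2, s3⟩ := h.cp C a.1
      exact ⟨q, b, s1, s2, s3.congr fun c hc => by
        rw [mul_assoc α, ← (a2 C a c hc).eq]; group⟩
    · obtain ⟨q, b, s1, s2, s3⟩ := h'.cp C a.1
      exact ⟨q, b, s1, s2, s3.congr fun c hc => by
        rw [← mul_inv_cancel_right (β * c * β⁻¹) α, (a3 C a _ (h'.tn a.1 c hc)).eq]; group⟩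
  have a6 : 𝒜 \ ℬ ∪ ℬ \ 𝒜 ⊆ 𝒜 ∪ ℬ := Set.union_subset_union Set.diff_subset Set.diff_subset
  refine ⟨a5, (a4.sub a6).co, fun k hk => ?_⟩
  have b1 : ∀ C ∈ 𝒜 ∪ ℬ, C ≤ sSup (𝒜 \ ℬ ∪ ℬ \ 𝒜) ⊔ sSup (𝒜 ∩ ℬ) := fun C a => by
    by_cases e : C ∈ 𝒜 ∩ ℬ
    · exact le_sup_of_le_right (le_sSup e)
    · exact le_sup_of_le_left (le_sSup (a.imp (fun x => ⟨x, fun y => e ⟨x, y⟩⟩)
        fun x => ⟨x, fun y => e ⟨y, x⟩⟩))
  have b2 : ∀ c ∈ sSup (𝒜 \ ℬ ∪ ℬ \ 𝒜), ∀ d ∈ sSup (𝒜 ∩ ℬ), Commute c d := fun c hc d hd =>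
    sup_comm' hc fun C a c hc => (sup_comm' hd fun D b d hd => a4.co D (Or.inl b.1) C (a6 a)
      (fun e => a.elim (fun x => x.2 (e ▸ b.2)) fun x => x.2 (e ▸ b.1)) d hd c hc).symm
  obtain ⟨c, c1, ρ, c2, e⟩ := sup_dec b2 (x := ⁅k, α * β⁆) (by
    rw [cm_r]
    refine mul_mem (sSup_le (fun C a => b1 C (Or.inl a)) (h.cov k hk))
      (sSup_le (fun C a => b1 C (Or.inr a)) (sup_nor (fun D a d hd => ?_) (h'.cov k hk)))
    by_cases e : D ∈ 𝒜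
    · exact h.tn e d hd
    · rwa [← (a3 D ⟨a, e⟩ d hd).eq, mul_inv_cancel_right])
  obtain ⟨n, hn⟩ := id hp
  exact e ▸ mul_mem c1 (two_odd (sSup_le (a := m.sub) (fun C a c hc =>
    ⟨trivial, (h.fam.cm C a.1).odd c hc⟩) c2).2 (coc hn (fun c => sup_nor fun C a => by
      obtain ⟨q, b, -, s2, s3⟩ := a5 C a; exact s3.nor s2) c1 e (b2 c c1 ρ c2).symm
      (sup_comm' c2 fun C a => (l4 m hS h h' hp a.1 a.2 rfl).1)))

theorem dec2 (m : MC (· ≠ 2) (⊤ : Subgroup G)) {N M : Subgroup G} [N.Normal] [M.Normal]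
    (e : N ⊔ M = ⊤) (hp : pe 2 τ) : ∃ α ∈ N, ∃ β ∈ M, pe 2 α ∧ pe 2 β ∧ τ = α * β := by
  obtain ⟨P, hP⟩ := (zp_p hp.choose_spec).exists_le_sylow
  have p : ∀ x ∈ P, pe 2 x := fun x a => (P.isPGroup' ⟨x, a⟩).imp fun _ e => congrArg Subtype.val e
  have k : ∀ (L : Subgroup G) [L.Normal], ∀ x ∈ L, ∃ y ∈ L, y ∈ P ∧
      QuotientGroup.mk' m.sub y = QuotientGroup.mk' m.sub x := fun L _ x hx => by
    obtain ⟨y, h1, h2⟩ := ((P.mapSurjective (mk_surj m.sub)).is_maximal' (Q := ⊤) (fun g => by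
      obtain ⟨g, rfl⟩ := mk_surj m.sub g.1 |>.imp fun a e => (show g = ⟨_, trivial⟩ from Subtype.ext e.symm)
      exact (pe_quo m trivial).imp fun _ e => Subtype.ext e) le_top).le
        (Subgroup.mem_top (QuotientGroup.mk' m.sub x))
    refine ⟨y, mk_one.1 (pq ((p y h1).map _) ?_), h1, h2⟩
    have := (mk_one.1 (show QuotientGroup.mk' m.sub (y * x⁻¹) = 1 by
      rw [map_mul, map_inv, h2, mul_inv_cancel])).2.map (QuotientGroup.mk' L)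
    rwa [map_mul, mk_one.2 (inv_mem hx), mul_one] at this
  have := e.ge (Subgroup.mem_top τ)
  rw [← SetLike.mem_coe, Subgroup.normal_mul] at this
  obtain ⟨x, hx, y, hy, rfl⟩ := this
  obtain ⟨a, a1, a2, a3⟩ := k N x hx
  obtain ⟨b, b1, b2, b3⟩ := k M y hy
  refine ⟨a, a1, b, b1, p a a2, p b b2, mul_inv_eq_one.1 (pq (p _ (mul_mem (hP (Subgroup.mem_zpowers _))
    (inv_mem (mul_mem a2 b2)))) (mk_one.1 (show QuotientGroup.mk' m.sub _ = 1 from ?_)).2)⟩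
  rw [map_mul, map_inv, map_mul, map_mul, a3, b3, mul_inv_cancel]

end Pool.Agent.H68.Mod
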