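import Pool.Agent.H68.Mod4

set_option autoImplicit false

namespace Pool.Agent.H68.Mod

open Function SemidirectProduct Pool.Agent.H68.Fit Pool.Agent.H68.Sat Pool.Agent.H68.Nl
open Subgroup (closure centralizer normalizer)
open scoped commutatorElement

variable {G H : Type} [Group G] [Group H] {q : ℕ} {b : Bool} {S S' : ℕ → Bool → Prop}

def KK (S : ℕ → Bool → Prop) (G : Type) [Group G] : Prop :=
  Finite G ∧ Group.IsSolvable G ∧ MC (· ≠ 2) (⊤ : Subgroup G) ∧ ∀ τ : G, pe 2 τ → ∃ 𝒜, Sy S τ 𝒜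

theorem KK.inj (f : H →* G) (hf : Injective f) (hn : f.range.Normal) (h : KK S G) : KK S H := by
  obtain ⟨_, _, m, h⟩ := h
  exact ⟨Finite.of_injective f hf, solvable_of_solvable_injective hf, mc_inj f hf m, fun τ a =>
    (h _ (a.map f)).elim fun _ k => ⟨_, k.pull f hf hn⟩⟩

theorem KK.iso (e : G ≃* H) (h : KK S G) : KK S H :=
  h.inj e.symm.toMonoidHom e.symm.injective (by
    rw [MonoidHom.range_eq_top.2 e.symm.surjective]; infer_instance)

theorem KK.top [Finite G] (hS : ∀ q b b', S q b → S q b' → b = b') {N M : Subgroup G} [hN : N.Normal]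
    [hM : M.Normal] (e : N ⊔ M = ⊤) (h : KK S N) (h' : KK S M) : KK S G := by
  obtain ⟨-, _, m1, h⟩ := h
  obtain ⟨-, _, m2, h'⟩ := h'
  have m : MC (· ≠ 2) (⊤ : Subgroup G) := by
    have a := mc_map m1 N.subtype
    have b := mc_map m2 M.subtype
    rw [← MonoidHom.range_eq_map, Subgroup.range_subtype] at a b
    exact e ▸ mc_join a b
  have : Group.IsSolvable (G ⧸ N) := solvable_of_surjective
    (f := (QuotientGroup.mk' N).comp M.subtype) fun x => by
      obtain ⟨x, rfl⟩ := mk_surj N x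
      have := e.ge (Subgroup.mem_top x)
      rw [← SetLike.mem_coe, Subgroup.normal_mul] at this
      obtain ⟨a, ha, b, hb, rfl⟩ := this
      exact ⟨⟨b, hb⟩, by rw [map_mul, mk_one.2 ha, one_mul]; rfl⟩
  refine ⟨‹_›, solvable_of_ker_le_range N.subtype (QuotientGroup.mk' N) (by simp), m, fun τ hp => ?_⟩
  obtain ⟨α, a1, β, b1, a2, b2, rfl⟩ := dec2 m e hp
  have a3 := pe_inj N.subtype N.subtype_injective (u := ⟨α, a1⟩) a2
  have b3 := pe_inj M.subtype M.subtype_injective (u := ⟨β, b1⟩) b2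
  obtain ⟨𝒜, a4⟩ := h _ a3
  obtain ⟨ℬ, b4⟩ := h' _ b3
  exact ⟨_, comb m hS (a4.push N.subtype N.subtype_injective (N.range_subtype.symm ▸ hN) m a3)
    (b4.push M.subtype M.subtype_injective (M.range_subtype.symm ▸ hM) m b3) hp⟩

theorem kk_fc (hS : ∀ q b b', S q b → S q b' → b = b') : FC (KK S) where
  fin := fun _ _ h => ⟨h.1, h.2.1⟩
  unit := ⟨inferInstance, inferInstance, fun _ _ _ _ h _ => h, fun _ _ =>
    ⟨∅, by simp, by simp, fun _ _ => one_mem _⟩⟩
  iso := fun _ _ _ _ => KK.iso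
  normal := fun _ _ N hN => KK.inj N.subtype N.subtype_injective (N.range_subtype.symm ▸ hN)
  sup := fun _ _ _ N M _ _ a b => KK.top hS (N := N.subgroupOf (N ⊔ M)) (M := M.subgroupOf (N ⊔ M))
    (by rw [← Subgroup.subgroupOf_sup le_sup_left le_sup_right, Subgroup.subgroupOf_self])
    (a.iso (Subgroup.subgroupOfEquivOfLe le_sup_left).symm)
    (b.iso (Subgroup.subgroupOfEquivOfLe le_sup_right).symm)

theorem Sy.mono {τ : G} {𝒜 : Set (Subgroup G)} (hS : ∀ q b, S q b → S' q b) (h : Sy S τ 𝒜) :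
    Sy S' τ 𝒜 :=
  ⟨fun C a => (h.cp C a).imp fun _ k => k.imp fun _ k => ⟨hS _ _ k.1, k.2⟩, h.co, h.cov⟩

theorem KK.mono (hS : ∀ q b, S q b → S' q b) (h : KK S G) : KK S' G :=
  ⟨h.1, h.2.1, h.2.2.1, fun τ a => (h.2.2.2 τ a).imp fun _ k => k.mono hS⟩

theorem KK.disj (h : KK S G) (h' : KK S' G) (hS : ∀ q b, S q b → ¬ S' q b) : KK (fun _ _ => False) G := by
  obtain ⟨_, _, m, h⟩ := h
  refine ⟨‹_›, ‹_›, m, fun τ a => ?_⟩
  obtain ⟨𝒜, k⟩ := h τ a
  obtain ⟨ℬ, k'⟩ := h'.2.2.2 τ a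
  obtain rfl := Mod.disj m k k' a hS
  exact ⟨∅, by simp, k.co, k.cov⟩

def EE (q : ℕ) (b : Bool) : Subgroup Hol := (NN q b).comap rightHom

theorem sg_sq (ω : Om) : sg ω = 1 ∨ sg ω = -1 := (sg_cases ω.right).imp And.left id

theorem ee_t {x : Hol} (h : x ∈ EE q b) (e : sg x.right = 1) : x ∈ TT q :=
  ⟨h.1, (show pr x.right = ch b x.right from h.2).trans (by cases b; exacts [rfl, e]), e⟩

theorem t_ee : TT q ≤ EE q b := fun x h =>
  ⟨h.1, (show pr x.right = 1 from h.2.1).trans (by cases b; exacts [rfl, h.2.2.symm])⟩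

theorem ee_odd {x : EE q b} (h : qe 2 x) : x.1 ∈ TT q := ee_t x.2 (pq ⟨1, by
  rcases sg_sq x.1.right with e | e <;> rw [e] <;> simp⟩
    (h.map ((sg.comp rightHom).comp (EE q b).subtype)))

theorem t_odd' (hq : QP q) {x : EE q b} (h : x.1 ∈ TT q) : qe 2 x :=
  Sch.pe_inj' (EE q b).subtype (EE q b).subtype_injective (t_odd hq h)

theorem nh_sq : nh b * nh b = 1 := by
  rw [nh, ← map_mul, show nu b * nu b = 1 by
    cases b <;> exact SemidirectProduct.ext (by decide +kernel) (by decide +kernel), map_one]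

theorem sg_nu : sg (nu b) = -1 := (by decide +kernel : sg (inr (Equiv.swap 1 2)) = -1)

theorem dih {x ν : G} (h : qe 2 x) (h1 : ν * ν = 1) (h2 : x * ν * (x * ν) = 1) :
    ∃ y, x * ν = y * ν * y⁻¹ := by
  obtain ⟨n, h3, h4⟩ := h
  obtain ⟨k, rfl⟩ := Nat.not_even_iff_odd.1 fun e => h3.2 2 Nat.prime_two e.two_dvd rfl
  have : SemiconjBy ν (x ^ (k + 1))⁻¹ (x ^ (k + 1)) := by
    rw [← inv_pow]
    refine SemiconjBy.pow_right ?_ _
    rw [SemiconjBy, mul_inv_eq_iff_eq_mul, eq_comm, ← mul_left_inj ν, h1, mul_assoc, h2]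
  refine ⟨x ^ (k + 1), ?_⟩
  rw [mul_assoc, this.eq, ← mul_assoc, ← pow_add, show k + 1 + (k + 1) = 2 * k + 1 + 1 by ring,
    pow_succ, h4, one_mul]

theorem ee_kk (hq : QP q) (hS : S q b) : KK S (EE q b) := by
  have m : MC (· ≠ 2) (⊤ : Subgroup (EE q b)) := fun x _ y _ a c =>
    t_odd' hq (mul_mem (ee_odd a) (ee_odd c))
  let ν : EE q b := ⟨nh b, nu_mem hq b⟩
  have n1 : ν * ν = 1 := Subtype.ext nh_sq
  have h : Sy S ν {(Subgroup.inclusion t_ee).range} := ⟨by
    rintro _ rfl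
    exact ⟨q, b, hS, hq, _, Subgroup.inclusion_injective _, rfl, fun x y e => Subtype.ext e.symm⟩,
    fun _ a _ b e => absurd (a.trans b.symm) e, fun k hk => by
      rw [sSup_singleton]; exact ⟨⟨_, ee_odd (odd_l m hk ν)⟩, rfl⟩⟩
  refine ⟨inferInstance, inferInstance, m, fun τ hp => ?_⟩
  rcases sg_sq τ.1.right with e | e
  · rw [pq hp (t_odd' hq (ee_t τ.2 e))]
    exact ⟨∅, by simp, by simp, fun _ _ => by simp⟩
  have k : ∀ {x y : EE q b}, sg x.1.right = -1 → sg y.1.right = -1 → qe 2 (x * y) := fun {x y} a c =>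
    t_odd' hq (ee_t (x * y).2 (by
      rw [Subgroup.coe_mul, mul_right, map_mul, a, c]; simp))
  obtain ⟨y, hy⟩ := dih (k e (y := ν) sg_nu) n1 (by
    rw [mul_assoc τ, n1, mul_one]; exact pq (pe_mul (Commute.refl _) hp hp) (k e e))
  rw [mul_assoc τ, n1, mul_one] at hy
  rw [hy]
  exact ⟨_, h.push (MulAut.conj y).toMonoidHom (MulAut.conj y).injective (by
    rw [MonoidHom.range_eq_top.2 (MulAut.conj y).surjective]; infer_instance) m ⟨1, by
      rw [pow_one, sq, n1]⟩⟩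

theorem ee_not (hq : QP q) : ¬ KK (fun _ _ => False) (EE q b) := fun h => by
  obtain ⟨𝒜, k⟩ := h.2.2.2 ⟨nh b, nu_mem hq b⟩ ⟨1, Subtype.ext ((sq _).trans nh_sq)⟩
  obtain rfl : 𝒜 = ∅ := Set.eq_empty_of_forall_notMem fun C a => by
    obtain ⟨_, _, e, -⟩ := k.cp C a; exact e
  have := k.cov ⟨inr ss, t_ee (q := q) ss_mem⟩ (t_odd' hq ss_mem)
  rw [sSup_empty, Subgroup.mem_bot] at this
  have := congrArg (rightHom.comp (rightHom.comp (EE q b).subtype)) this
  rw [map_commutatorElement, map_one] at this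
  exact absurd this (by decide : ⁅finRotate 3, Equiv.swap (1 : Fin 3) 2⁆ ≠ 1)

theorem step {F : (G : Type) → [Group G] → Prop} (hF : FC F) [Finite G] (L : Subgroup G)
    {A B C : Subgroup G} (a : A ≤ L) (b : B ≤ L) (c : C ≤ A ⊔ B) [a' : (A.subgroupOf L).Normal]
    [b' : (B.subgroupOf L).Normal] [(C.subgroupOf L).Normal] (h : F A) (h' : F B) : F C :=
  hF.iso _ _ (Subgroup.subgroupOfEquivOfLe (c.trans (sup_le a b))) (hF.subOf
    (Subgroup.subgroupOf_sup a b ▸ Subgroup.comap_mono c) inferInstance (hF.sup _ _ _ a' b'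
      (hF.iso _ _ (Subgroup.subgroupOfEquivOfLe a).symm h)
      (hF.iso _ _ (Subgroup.subgroupOfEquivOfLe b).symm h')))

def LE (q : ℕ) : Subgroup Hol := (LL q).comap rightHom
def mo : Om := inl fun _ => -1
def JJ : Subgroup Hol := (Subgroup.zpowers mo).comap rightHom

instance : ((EE q b).subgroupOf (LE q)).Normal :=
  ⟨fun x a g => ⟨(g * x * g⁻¹).2, by
    have : pr x.1.right = ch b x.1.right := a.2
    change pr _ = ch b _
    simpa using this⟩⟩

instance : JJ.Normal := by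
  have : (Subgroup.zpowers mo).Normal := ⟨by
    rintro _ ⟨i, rfl⟩ g
    have : Commute g mo := SemidirectProduct.ext (funext fun j => by
      simp [om_mul, mo, -mul_left]) (by simp [mo])
    rw [(this.zpow_right i).eq, mul_inv_cancel_right]
    exact ⟨i, rfl⟩⟩
  exact Subgroup.Normal.comap this _

theorem mo_eq : nu true * nu false = mo := SemidirectProduct.ext (by decide +kernel) (by decide +kernel)

theorem jj_le (hq : QP q) : JJ ≤ EE q true ⊔ EE q false := by
  rw [EE, EE, Subgroup.comap_sup_eq _ _ _ rightHom_surjective]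
  exact Subgroup.comap_mono (Subgroup.zpowers_le.2 (mo_eq ▸ mul_mem
    (Subgroup.mem_sup_left (nu_mem hq _)) (Subgroup.mem_sup_right (nu_mem hq _))))

theorem ee_le : EE q b ≤ LE q := fun _ h => h.1

theorem ee_jj (hq : QP q) : EE q true ≤ JJ ⊔ EE q false := by
  rw [JJ, EE, EE, Subgroup.comap_sup_eq _ _ _ rightHom_surjective]
  refine Subgroup.comap_mono fun x h => ?_
  rcases sg_sq x with e | e
  · exact Subgroup.mem_sup_right ⟨h.1, (show pr x = sg x from h.2).trans e⟩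
  · rw [← mul_inv_cancel_left mo x]
    refine mul_mem (Subgroup.mem_sup_left (Subgroup.mem_zpowers _)) (Subgroup.mem_sup_right
      ⟨(LL q).mul_mem ((LL q).inv_mem (mo_eq ▸ (LL q).mul_mem (nu_mem hq _).1 (nu_mem hq _).1)) h.1, ?_⟩)
    change pr _ = 1
    rw [map_mul, map_inv, show pr x = sg x from h.2, e, show pr mo = -1 by decide +kernel, inv_mul_cancel]

theorem chain {F : (G : Type) → [Group G] → Prop} (hF : FC F) (h1 : F (EE 5 true))
    (h2 : F (EE 5 false)) (h3 : F (EE 7 false)) : F (EE 7 true) :=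
  step hF (LE 7) ((jj_le (Or.inr rfl)).trans (sup_le ee_le ee_le)) ee_le (ee_jj (Or.inr rfl))
    (step hF (LE 5) ee_le ee_le (jj_le (Or.inl rfl)) h1 h2) h3

theorem main : ∃ X Y Z : (G : Type) → [Group G] → Prop, FC X ∧ FC Y ∧ FC Z ∧
    (∀ (G : Type) [Group G], X G → Z G) ∧ (∀ (G : Type) [Group G], Y G ∧ Z G → X G) ∧
    Z (EE 7 true) ∧ ¬ X (EE 7 true) ∧ ∀ F, FC F → (∀ (G : Type) [Group G], X G → F G) →
      (∀ (G : Type) [Group G], Y G → F G) → F (EE 7 true) :=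
  ⟨KK fun q b => q = 5 ∧ b = true, KK fun _ b => b = false, KK fun _ b => b = true,
    kk_fc fun _ _ _ a b => a.2.trans b.2.symm, kk_fc fun _ _ _ a b => a.trans b.symm,
    kk_fc fun _ _ _ a b => a.trans b.symm, fun _ _ => KK.mono fun _ _ => And.right,
    fun _ _ h => (h.1.disj h.2 (by simp)).mono (by simp), ee_kk (Or.inr rfl) rfl,
    fun h => ee_not (Or.inr rfl) (h.disj (ee_kk (S := fun q _ => q = 7) (Or.inr rfl) rfl) (by simp)),
    fun F hF a b => chain hF (a _ (ee_kk (Or.inl rfl) ⟨rfl, rfl⟩)) (b _ (ee_kk (Or.inl rfl) rfl))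
      (b _ (ee_kk (Or.inr rfl) rfl))⟩

end Pool.Agent.H68.Mod
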