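import Mathlib

set_option autoImplicit false

namespace Pool.Agent.H68.Nl

/-- `NL k G`: the group `G` has nilpotent length at most `k`, i.e. lies in the class `𝔑^k`:
`𝔑^0` is the class of trivial groups, and `G ∈ 𝔑^(k+1)` when `G` has a nilpotent normal
subgroup `N` with `G ⧸ N ∈ 𝔑^k`. -/
def NL : ℕ → (G : Type) → [Group G] → Prop
  | 0, G, _ => Subsingleton G
  | k + 1, G, _ => ∃ (N : Subgroup G) (_ : N.Normal), Group.IsNilpotent N ∧ NL k (G ⧸ N)

/-- The nilpotent (Fitting) length of a finite soluble group. -/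
noncomputable def nilLength (G : Type) [Group G] : ℕ := sInf {k | NL k G}

end Pool.Agent.H68.Nl
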