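import Pool.Agent.H68.Sat10
import Pool.Agent.H68.NlDefs

set_option autoImplicit false

namespace Pool.Agent.H68.Nl

open Function SemidirectProduct Pool.Agent.H68.Fit Pool.Agent.H68.Sat
open scoped commutatorElement

variable {G A B : Type} [Group G] [Group A] [Group B] {p : ℕ}

theorem nil_inj (ι : A →* B) (hι : Injective ι) [Group.IsNilpotent B] : Group.IsNilpotent A :=
  Group.nilpotent_of_mulEquiv (MonoidHom.ofInjective hι).symm

theorem nil_map (K : Subgroup A) (ι : A →* B) (hι : Injective ι) (L : Subgroup B)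
    [Group.IsNilpotent L] (h : ∀ a ∈ K, ι a ∈ L) : Group.IsNilpotent K :=
  nil_inj ((ι.comp K.subtype).codRestrict L fun a => h a a.2) fun _ _ e =>
    Subtype.ext (hι (congrArg Subtype.val e))

theorem nil_img (K : Subgroup A) [Group.IsNilpotent K] (φ : A →* B) :
    Group.IsNilpotent (K.map φ) := Group.nilpotent_of_surjective _ (φ.subgroupMap_surjective K)

theorem nl_surj : ∀ (k : ℕ) {A B : Type} [Group A] [Group B] (φ : A →* B), Surjective φ →
    NL k A → NL k B
  | 0, _, _, _, _, _, h, a => haveI : Subsingleton _ := a; h.subsingleton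
  | k + 1, _, _, _, _, φ, h, ⟨N, hN, n, a⟩ => by
    have := hN.map φ h
    obtain ⟨γ, hγ⟩ := exists_lift _ (mk_surj N) ((QuotientGroup.mk' (N.map φ)).comp φ)
      fun g hg => mk_one.2 ⟨g, mk_one.1 hg, rfl⟩
    refine ⟨N.map φ, this, nil_img N φ, nl_surj k γ (fun y => ?_) a⟩
    obtain ⟨g, rfl⟩ := ((mk_surj _).comp h) y
    exact ⟨_, hγ g⟩

theorem nl_inj : ∀ (k : ℕ) {A B : Type} [Group A] [Group B] (φ : A →* B), Injective φ →
    NL k B → NL k A
  | 0, _, _, _, _, _, h, a => haveI : Subsingleton _ := a; h.subsingleton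
  | k + 1, _, _, _, _, φ, h, ⟨N, hN, n, a⟩ => by
    obtain ⟨γ, hγ⟩ := exists_lift _ (mk_surj (N.comap φ)) ((QuotientGroup.mk' N).comp φ)
      fun g hg => mk_one.2 (Subgroup.mem_comap.1 (mk_one.1 hg))
    refine ⟨N.comap φ, inferInstance, nil_map _ φ h N fun _ e => e,
      nl_inj k γ ((injective_iff_map_eq_one _).2 fun y hy => ?_) a⟩
    obtain ⟨g, rfl⟩ := mk_surj _ y
    rw [hγ] at hy
    exact mk_one.2 (Subgroup.mem_comap.2 (mk_one.1 hy))

theorem nl_ext {k : ℕ} (φ : A →* B) (h : Group.IsNilpotent φ.ker) (a : NL k B) : NL (k + 1) A :=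
  ⟨φ.ker, inferInstance, h, nl_inj k _ (QuotientGroup.kerLift_injective φ) a⟩

theorem nl_one [Group.IsNilpotent A] : NL 1 A :=
  nl_ext (k := 0) (1 : A →* Unit) inferInstance (inferInstanceAs (Subsingleton Unit))

theorem nl_le {k l : ℕ} (h : k ≤ l) (a : NL k A) : NL l A := by
  induction h with
  | refl => exact a
  | step _ ih => exact nl_ext (MonoidHom.id A) (by rw [MonoidHom.ker_id]; infer_instance) ih

theorem nil_of_one (a : NL 1 A) : Group.IsNilpotent A := by
  obtain ⟨N, _, n, a⟩ := a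
  have : Subsingleton (A ⧸ N) := a
  exact Group.nilpotent_of_surjective N.subtype fun g => ⟨⟨g, mk_one.1 (Subsingleton.elim _ _)⟩, rfl⟩

theorem nil_comm {A : Type} [Group A] (h : ∀ a b : A, a * b = b * a) : Group.IsNilpotent A :=
  letI : CommGroup A := { (inferInstance : Group A) with mul_comm := h }
  inferInstance

theorem nl_ex [Finite A] [h : Group.IsSolvable A] : ∃ k, NL k A := by
  obtain ⟨n, hn⟩ := h
  suffices H : ∀ n, ∃ k, NL k (A ⧸ derivedSeries A n) by
    obtain ⟨k, hk⟩ := H n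
    exact ⟨k, nl_inj k (QuotientGroup.mk' _) ((injective_iff_map_eq_one _).2 fun g hg => by
      have := mk_one.1 hg; rwa [hn] at this) hk⟩
  intro n
  induction n with
  | zero => exact ⟨0, QuotientGroup.subsingleton_quotient_top⟩
  | succ n ih =>
    obtain ⟨k, hk⟩ := ih
    obtain ⟨γ, hγ⟩ := exists_lift _ (mk_surj (derivedSeries A (n + 1))) (QuotientGroup.mk' (derivedSeries A n))
      fun g hg => mk_one.2 (Subgroup.commutator_le_left _ _ (mk_one.1 hg))
    refine ⟨k + 1, nl_ext γ (nil_comm fun ⟨a, ha⟩ ⟨b, hb⟩ => Subtype.ext ?_) hk⟩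
    obtain ⟨a, rfl⟩ := mk_surj _ a
    obtain ⟨b, rfl⟩ := mk_surj _ b
    rw [MonoidHom.mem_ker, hγ, mk_one] at ha hb
    refine commutatorElement_eq_one_iff_mul_comm.1 ?_
    rw [← map_commutatorElement, mk_one]
    exact Subgroup.commutator_mem_commutator ha hb

theorem syl_nil [Finite A] [h : Group.IsNilpotent A] [Fact p.Prime] (P : Sylow p A) :
    (P : Subgroup A).Normal := by
  have h6 : ∀ (p : ℕ) (_ : Fact p.Prime) (P : Sylow p A), (P : Subgroup A).Normal :=
    ((Group.isNilpotent_of_finite_tfae (G := A)).out 0 3).1 h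
  exact h6 p inferInstance P

theorem frat_nil [Finite A] (φ : A →* B) (hφ : Surjective φ) (hk : ∀ a, φ a = 1 → a ∈ frattini A)
    (M : Subgroup B) [M.Normal] [Group.IsNilpotent M] : Group.IsNilpotent (M.comap φ) := by
  have : Finite B := Finite.of_surjective φ hφ
  suffices h6 : ∀ (p : ℕ) (_ : Fact p.Prime) (P : Sylow p (M.comap φ)),
      (P : Subgroup (M.comap φ)).Normal from
    ((Group.isNilpotent_of_finite_tfae (G := M.comap φ)).out 0 3).2 h6
  intro p _ P
  let ψ := φ.subgroupComap M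
  have hψ : Surjective ψ := φ.subgroupComap_surjective_of_surjective M hφ
  let Q := P.mapSurjective hψ
  have := syl_nil Q
  have : (Q : Subgroup M).Characteristic := Sylow.characteristic_of_normal Q this
  let X := ((Q : Subgroup M).map M.subtype).comap φ
  have hX : X ≤ M.comap φ := Subgroup.comap_mono (Subgroup.map_subtype_le _)
  let P' := (P : Subgroup (M.comap φ)).map (M.comap φ).subtype
  have h1 : P' ≤ X := by rintro _ ⟨x, hx, rfl⟩; exact ⟨ψ x, ⟨x, hx, rfl⟩, rfl⟩
  have h2 : X ≤ P' ⊔ frattini A := by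
    rintro x ⟨_, ⟨y, hy, rfl⟩, e⟩
    rw [← mul_inv_cancel_left (y : A) x]
    exact Subgroup.mul_mem_sup ⟨y, hy, rfl⟩ (hk _ (by rw [map_mul, map_inv, ← e]; exact inv_mul_cancel _))
  obtain ⟨R, hR⟩ := ((P.isPGroup'.map (M.comap φ).subtype).comap_subtype (K := X)).exists_le_sylow
  have h3 : (R : Subgroup X).map X.subtype = P' := by
    have h4 : P' ≤ (R : Subgroup X).map X.subtype := fun x hx => ⟨⟨x, h1 hx⟩, hR hx, rfl⟩
    have h5 := P.is_maximal' ((R.isPGroup'.map X.subtype).comap_subtype (K := M.comap φ))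
      fun x hx => h4 ⟨x, hx, rfl⟩
    refine le_antisymm ?_ h4
    rintro _ ⟨x, hx, rfl⟩
    exact ⟨⟨x, hX x.2⟩, h5 ▸ (⟨x, hx, rfl⟩ : _ ∈ (R : Subgroup X).map X.subtype), rfl⟩
  have h6 := Sylow.normalizer_sup_eq_top R
  rw [h3] at h6
  have h7 : Subgroup.normalizer (P' : Set A) = ⊤ := frattini_nongenerating (eq_top_iff.2
    (h6 ▸ sup_le le_sup_left (h2.trans (sup_le_sup_right Subgroup.le_normalizer _))))
  rw [Subgroup.normalizer_eq_top_iff] at h7
  rw [← Subgroup.comap_map_eq_self_of_injective (M.comap φ).subtype_injective (P : Subgroup _)]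
  exact h7.comap _

theorem nl_frat {k : ℕ} [Finite A] (φ : A →* B) (hφ : Surjective φ)
    (hk : ∀ a, φ a = 1 → a ∈ frattini A) (h : NL (k + 1) B) : NL (k + 1) A := by
  obtain ⟨M, _, n, h⟩ := h
  refine nl_ext ((QuotientGroup.mk' M).comp φ) ?_ h
  rw [← MonoidHom.comap_ker, QuotientGroup.ker_mk']
  exact frat_nil φ hφ hk M

theorem fq [Fact p.Prime] [Finite A] (φ : A →* B) (hφ : Surjective φ)
    (hk : ∀ a, φ a = 1 → a ∈ frattini A) (h : ∀ b : B, qe p b) (a : A) : qe p a := by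
  obtain ⟨γ, hγ⟩ := exists_lift φ hφ (QuotientGroup.mk' (frattini A)) fun g hg => mk_one.2 (hk g hg)
  refine frat_qe (fun g => ?_) a
  obtain ⟨g, rfl⟩ := mk_surj _ g
  exact hγ g ▸ (h _).map γ

/-- the `p`-elements of a nilpotent subgroup -/
def Op (p : ℕ) [Fact p.Prime] [Finite G] (N : Subgroup G) [Group.IsNilpotent N] : Subgroup G where
  carrier := {g | g ∈ N ∧ pe p g}
  one_mem' := ⟨one_mem _, pe.one⟩
  inv_mem' := fun h => ⟨inv_mem h.1, h.2.imp fun _ e => by rw [inv_pow, e, inv_one]⟩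
  mul_mem' := fun {a b} ha hb => ⟨mul_mem ha.1 hb.1, by
    obtain ⟨P⟩ := (inferInstance : Nonempty (Sylow p N))
    have := syl_nil P
    have h : ∀ g : N, pe p (g : G) → g ∈ P := fun g hg => by
      obtain ⟨k, hk⟩ := pe_inj N.subtype N.subtype_injective hg
      obtain ⟨R, hR⟩ := (zp_p hk).exists_le_sylow
      have := Sylow.unique_of_normal P this
      exact Subsingleton.elim R P ▸ hR (Subgroup.mem_zpowers _)
    exact pe.map (pg_iff.1 P.isPGroup' _ (mul_mem (h ⟨a, ha.1⟩ ha.2) (h ⟨b, hb.1⟩ hb.2))) N.subtype⟩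

instance [Fact p.Prime] [Finite G] (N : Subgroup G) [hN : N.Normal] [Group.IsNilpotent N] :
    (Op p N).Normal :=
  ⟨fun a ha g => ⟨hN.conj_mem _ ha.1 g, ha.2.map (MulAut.conj g).toMonoidHom⟩⟩

theorem cop_comm [Fact p.Prime] [Finite G] (N : Subgroup G) [Group.IsNilpotent N] {x y : G}
    (hx : x ∈ N) (hy : y ∈ N) (h1 : pe p x) (h2 : qe p y) : Commute x y := by
  have h3 : pe p (⁅x, y⁆) := ((Op p N).mul_mem (x := x) (y := (y * x * y⁻¹)⁻¹) ⟨hx, h1⟩
    ((Op p N).inv_mem ⟨mul_mem (mul_mem hy hx) (inv_mem hy),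
      h1.map (MulAut.conj y).toMonoidHom⟩)).2.imp fun k e => by
      convert e using 2; simp [commutatorElement_def, mul_assoc]
  have h4 : qe p ⁅x, y⁆ := ((mc_nil N).sub.mul_mem (x := x * y * x⁻¹)
    ⟨mul_mem (mul_mem hx hy) (inv_mem hx), h2.map (MulAut.conj x).toMonoidHom⟩
    ((mc_nil N).sub.inv_mem ⟨hy, h2⟩)).2
  exact commutatorElement_eq_one_iff_commute.1 (pq h3 h4)

theorem nil_prod (X Z K : Subgroup G) [Group.IsNilpotent X] [Group.IsNilpotent Z]
    (hc : ∀ x ∈ X, ∀ z ∈ Z, Commute x z) (h : ∀ k ∈ K, ∃ x ∈ X, ∃ z ∈ Z, k = x * z) :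
    Group.IsNilpotent K := by
  let φ := X.subtype.noncommCoprod Z.subtype fun x z => hc x x.2 z z.2
  have : Group.IsNilpotent φ.range := Group.nilpotent_of_surjective _ φ.rangeRestrict_surjective
  refine nil_map K (MonoidHom.id G) injective_id φ.range fun k hk => ?_
  obtain ⟨x, hx, z, hz, rfl⟩ := h k hk
  exact ⟨(⟨x, hx⟩, ⟨z, hz⟩), rfl⟩

theorem nil_cent (K : Subgroup A) (φ : A →* B) (L : Subgroup B) [Group.IsNilpotent L]
    (h : ∀ a ∈ K, φ a ∈ L) (hc : ∀ a ∈ K, φ a = 1 → ∀ b ∈ K, b * a = a * b) :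
    Group.IsNilpotent K :=
  isNilpotent_of_ker_le_center ((φ.comp K.subtype).codRestrict L fun a => h a a.2)
    (fun a ha => Subgroup.mem_center_iff.2 fun b => Subtype.ext
      (hc a a.2 (congrArg Subtype.val ha) b b.2))

/-- Hall–Higman -/
theorem hall_higman [Fact p.Prime] [Finite G] [hs : Group.IsSolvable G] (Q : Subgroup G)
    (hQ : ∀ x ∈ Rd p G, ∃ q ∈ Q, qe p (q⁻¹ * x) ∧ q ∈ Rd p G) {g : G}
    (hg : ∀ q ∈ Q, Commute g q) : g ∈ Rd p G := by
  obtain ⟨_, m⟩ := rd_spec (p := p) (G := G)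
  let π := QuotientGroup.mk' m.sub
  have : ((Rd p G).map π).Normal := Subgroup.Normal.map inferInstance _ (mk_surj _)
  let C := (Subgroup.centralizer ((Rd p G).map π : Set (G ⧸ m.sub))).comap π
  have hC : g ∈ C := by
    rintro _ ⟨x, hx, rfl⟩
    obtain ⟨q, h1, h2, h3⟩ := hQ x hx
    rw [← mul_inv_cancel_left q x, map_mul, (mk_one (N := m.sub) (g := q⁻¹ * x)).2 ⟨mul_mem (inv_mem h3) hx, h2⟩,
      mul_one]
    exact ((hg q h1).map π).symm
  obtain ⟨n, hn⟩ := hs
  suffices H : ∀ n, (fun X => ⁅X, X⁆)^[n] C ≤ Rd p G → C ≤ Rd p G by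
    refine H n (le_trans ?_ (hn ▸ bot_le : derivedSeries G n ≤ _)) hC
    clear hn
    induction n with
    | zero => exact le_top
    | succ n ih => rw [iterate_succ_apply']; exact Subgroup.commutator_mono ih ih
  have H : ∀ n, ((fun X => ⁅X, X⁆)^[n] C).Normal ∧ (fun X => ⁅X, X⁆)^[n] C ≤ C := fun n => by
    induction n with
    | zero => exact ⟨inferInstanceAs C.Normal, le_rfl⟩
    | succ n ih =>
      obtain ⟨_, h⟩ := ih
      rw [iterate_succ_apply']
      exact ⟨inferInstance, (Subgroup.commutator_le_left _ _).trans h⟩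
  intro n
  induction n with
  | zero => exact id
  | succ n ih =>
    rw [iterate_succ_apply']
    intro h
    obtain ⟨_, h1⟩ := H n
    refine ih ?_
    generalize (fun X => ⁅X, X⁆)^[n] C = M at *
    have : (M.map π).Normal := Subgroup.Normal.map inferInstance _ (mk_surj _)
    let φ := QuotientGroup.mk' ((Rd p G).map π)
    have : Group.IsNilpotent ((M.map π).map φ) := nil_comm <| by
      rintro ⟨_, _, ⟨a, ha, rfl⟩, rfl⟩ ⟨_, _, ⟨b, hb, rfl⟩, rfl⟩
      refine Subtype.ext (commutatorElement_eq_one_iff_mul_comm.1 ?_)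
      rw [← map_commutatorElement, ← map_commutatorElement, mk_one]
      exact ⟨_, h (Subgroup.commutator_mem_commutator ha hb), rfl⟩
    have : Group.IsNilpotent (M.map π) := nil_cent _ φ ((M.map π).map φ) (fun a ha => ⟨a, ha, rfl⟩) <| by
      rintro a - ha _ ⟨b, hb, rfl⟩
      exact (h1 hb a (mk_one.1 ha)).symm
    exact (Subgroup.le_comap_map π M).trans
      (le_rd inferInstance (mc_comap (mc_nil _) π fun g hg => (mk_one.1 hg).2))

end Pool.Agent.H68.Nl
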