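import Pool.Agent.H68.Nl1

set_option autoImplicit false

namespace Pool.Agent.H68.Nl

open Function SemidirectProduct Pool.Agent.H68.Fit Pool.Agent.H68.Sat
open scoped commutatorElement

abbrev U := Multiplicative (ZMod 5 × ZMod 5)
abbrev C4 := Multiplicative (ZMod 4)
abbrev L := DihedralGroup 3 × C4
abbrev D := QuaternionGroup 3

def rr (v : ZMod 5 × ZMod 5) : ZMod 5 × ZMod 5 := (-v.2, v.1 - v.2)

def act0 : DihedralGroup 3 → ZMod 5 × ZMod 5 → ZMod 5 × ZMod 5
  | .r k, v => rr^[k.val] v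
  | .sr k, v => ((rr^[k.val] v).1 - (rr^[k.val] v).2, -(rr^[k.val] v).2)

def act (l : L) (u : U) : U :=
  Multiplicative.ofAdd (2 ^ l.2.toAdd.val * (act0 l.1 u.toAdd).1, 2 ^ l.2.toAdd.val * (act0 l.1 u.toAdd).2)

def φ0 : L →* MulAut U := MonoidHom.mk' (fun l =>
  { toFun := act l, invFun := act l⁻¹
    left_inv := fun u => (by decide +kernel : ∀ l u, act l⁻¹ (act l u) = u) l u
    right_inv := fun u => (by decide +kernel : ∀ l u, act l (act l⁻¹ u) = u) l u
    map_mul' := (by decide +kernel : ∀ l u v, act l (u * v) = act l u * act l v) l })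
  fun a b => MulEquiv.ext ((by decide +kernel : ∀ a b u, act (a * b) u = act a (act b u)) a b)

def j1 : D → L
  | .a i => (.r (-(i.val : ZMod 3)), Multiplicative.ofAdd (2 * (i.val : ZMod 4)))
  | .xa i => (.sr (-(i.val : ZMod 3)), Multiplicative.ofAdd (1 + 2 * (i.val : ZMod 4)))

def j0 : D →* L := MonoidHom.mk' j1 (by decide +kernel)

def φ1 : D →* MulAut U := φ0.comp j0

abbrev Y := U ⋊[φ1] D
abbrev G0 := U ⋊[φ0] L

def jj : Y →* G0 := SemidirectProduct.map (MonoidHom.id U) j0 fun _ => rfl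

def dr : D := .a 2
def dt : D := .xa 0
def e1 : U := Multiplicative.ofAdd (1, 0)
def e2 : U := Multiplicative.ofAdd (0, 1)

theorem u_span : ∀ v : U, v ≠ 1 → ∀ u, ∃ m n : Fin 5, u = v ^ m.val * φ1 dr v ^ n.val := by
  decide +kernel

theorem u_gen (u : U) : ∃ m n : Fin 5, u = e1 ^ m.val * e2 ^ n.val := by
  revert u; decide +kernel

theorem u_faith : ∀ d : D, d ≠ 1 → ∃ u, φ1 d u * u⁻¹ ≠ 1 := by decide +kernel

theorem d_gen : ∀ x y : D, x * y ≠ y * x → ∀ d, ∃ i : Fin 3, ∃ j k : Fin 4,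
    d = (x * y * x⁻¹ * y⁻¹) ^ i.val * x ^ j.val * y ^ k.val := by decide +kernel

theorem jj_inj (y : Y) (h : jj y = 1) : y = 1 :=
  SemidirectProduct.ext (show (jj y).left = 1 by rw [h]; rfl)
    ((by decide +kernel : ∀ d, j0 d = 1 → d = 1) _ (congrArg SemidirectProduct.right h))

theorem y_span (W : Subgroup Y) {v : U} (hv : v ≠ 1) (h1 : inl v ∈ W) (h2 : inl (φ1 dr v) ∈ W)
    (u : U) : inl u ∈ W := by
  obtain ⟨m, n, rfl⟩ := u_span v hv u
  rw [map_mul, map_pow, map_pow]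
  exact mul_mem (pow_mem h1 _) (pow_mem h2 _)

theorem y_conj (y : Y) (u : U) : y * inl u * y⁻¹ = inl (φ1 y.right u) := by
  ext <;> simp [mul_comm, mul_assoc]

theorem y_ker {y : Y} (h : rightHom y = 1) : y = inl y.left := SemidirectProduct.ext rfl h

theorem y_min (M : Subgroup Y) [hM : M.Normal] {y : Y} (hy : y ∈ M) (h : y ≠ 1) (u : U) :
    inl u ∈ M := by
  obtain ⟨v, h1, h2⟩ : ∃ v : U, v ≠ 1 ∧ inl v ∈ M := by
    by_cases e : y.right = 1
    · exact ⟨y.left, fun e' => h (SemidirectProduct.ext e' e), y_ker e ▸ hy⟩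
    · obtain ⟨u, hu⟩ := u_faith _ e
      refine ⟨_, hu, ?_⟩
      rw [map_mul, ← y_conj, map_inv, mul_assoc, mul_assoc]
      exact mul_mem hy (by simpa [mul_assoc] using hM.conj_mem _ (inv_mem hy) (inl u))
  exact y_span M h1 h2 (y_conj (inr dr) v ▸ hM.conj_mem _ h2 _) u

theorem y_exp (y : Y) : y ^ 60 = 1 := by
  obtain ⟨u, d⟩ := y
  revert u d; decide +kernel

theorem y_qe (y : Y) : qe 7 y := ⟨60, ⟨by norm_num, fun p _ h e => by subst e; norm_num at h⟩, y_exp y⟩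

theorem d_qe (d : D) : qe 5 d := ⟨12, ⟨by norm_num, fun p _ h e => by subst e; norm_num at h⟩,
  (by decide +kernel : ∀ d : D, d ^ 12 = 1) d⟩

def κ : D →* C4 := (MonoidHom.snd _ _).comp j0

theorem k_ker : ∀ d : D, κ d = 1 → d = 1 ∨ d = dr ∨ d = dr * dr := by decide +kernel

instance : Group.IsNilpotent κ.ker := nil_comm fun a b => Subtype.ext
  ((by decide +kernel : ∀ a b : D, κ a = 1 → κ b = 1 → a * b = b * a) a b a.2 b.2)

theorem d_nl : NL 2 D := nl_ext κ inferInstance nl_one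

instance : Fact (Nat.Prime 7) := ⟨by norm_num⟩
instance : Fact (Nat.Prime 5) := ⟨by norm_num⟩

theorem y_nl : ¬ NL 2 Y := by
  rintro ⟨N, _, _, h⟩
  have := nil_of_one h
  have h1 := cop_comm (p := 3) (⊤ : Subgroup (Y ⧸ N)) (x := QuotientGroup.mk' N (inr dr))
    (y := QuotientGroup.mk' N (inr dt)) trivial trivial (pe.map ⟨1, by decide +kernel⟩ _)
    (PE.map ⟨4, ⟨by norm_num, fun p _ h e => by subst e; norm_num at h⟩, by decide +kernel⟩ _)
  rw [← commutatorElement_eq_one_iff_commute, ← map_commutatorElement, mk_one] at h1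
  have h2 := cop_comm (p := 5) N (y_min N h1 (by decide +kernel) e1) h1 ⟨1, by decide +kernel⟩
    ⟨3, ⟨by norm_num, fun p _ h e => by subst e; norm_num at h⟩, by decide +kernel⟩
  exact absurd h2.eq (by decide +kernel)

theorem d_ab (W : Subgroup D) (h : W ≠ ⊤) : Group.IsNilpotent W := nil_comm fun a b => Subtype.ext <| by
  by_contra hn
  refine h (eq_top_iff.2 fun d _ => ?_)
  obtain ⟨i, j, k, rfl⟩ := d_gen a b hn d
  exact mul_mem (mul_mem (pow_mem (mul_mem (mul_mem (mul_mem a.2 b.2) (inv_mem a.2)) (inv_mem b.2)) _)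
    (pow_mem a.2 _)) (pow_mem b.2 _)

variable {A : Type} [CommGroup A]

theorem hom_ext {B : Type} [Group B] (f g : U →* B) (h1 : f e1 = g e1) (h2 : f e2 = g e2) : f = g :=
  MonoidHom.ext fun u => by
    obtain ⟨m, n, rfl⟩ := u_gen u
    simp only [map_mul, map_pow, h1, h2]

def pw (v : A) (h : v ^ 5 = 1) : Multiplicative (ZMod 5) →* A :=
  MonoidHom.mk' (fun i => v ^ i.toAdd.val) fun a b => by
    rw [toAdd_mul, ZMod.val_add, ← pow_add, ← pow_eq_pow_mod _ h]

theorem recog (χ : D →* MulAut A) (hz : ∀ x, χ (dt * dt) x * x = 1)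
    (hr : ∀ x, x * χ dr x * χ (dr * dr) x = 1) {w : A} (h1 : w ≠ 1) (h5 : w ^ 5 = 1) :
    ∃ θ : U →* A, (∀ u, θ u = 1 → u = 1) ∧ ∀ d u, θ (φ1 d u) = χ d (θ u) := by
  have m : ∀ a b x, χ a (χ b x) = χ (a * b) x := fun a b x => by rw [map_mul]; rfl
  have c : ∀ {x : A} d, x ^ 5 = 1 → χ d x ^ 5 = 1 := fun d h => by rw [← map_pow, h, map_one]
  obtain ⟨v, h1, h5, ht⟩ : ∃ v : A, v ≠ 1 ∧ v ^ 5 = 1 ∧ χ dt v = v ^ 2 := by
    have k : ∀ x : A, x ^ 5 = 1 → (χ dt x * x ^ 2) ^ 5 = 1 ∧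
        χ dt (χ dt x * x ^ 2) = (χ dt x * x ^ 2) ^ 2 := fun x hx =>
      ⟨by rw [mul_pow, c _ hx, ← pow_mul, mul_comm 2, pow_mul, hx]; simp, by
        rw [map_mul, m, map_pow, eq_inv_of_mul_eq_one_left (hz x), mul_pow, mul_comm, ← pow_mul,
          inv_eq_of_mul_eq_one_right (by rw [← pow_succ', hx] : x * x ^ (2 * 2) = 1)]⟩
    by_cases a : χ dt w * w ^ 2 = 1
    · refine ⟨_, fun b => h1 ?_, k _ (c dr h5)⟩
      have e : χ dr w = χ (dr * dr) w := by
        rw [m, show dt * dr = dr * dr * dt by decide, ← m, eq_inv_of_mul_eq_one_left a, map_inv,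
          map_pow, inv_mul_eq_one] at b
        have := congrArg (· ^ 3) b
        simp only [← pow_mul] at this
        rwa [pow_succ, pow_succ _ 5, c _ h5, c _ h5, one_mul, one_mul, eq_comm] at this
      have e' : w = χ dr w := (χ dr).injective (by rw [m]; exact e)
      have := hr w
      rw [← e, ← e'] at this
      calc w = w ^ 5 * w := by rw [h5, one_mul]
        _ = (w * w * w) ^ 2 := by simp only [pow_succ, mul_assoc, pow_zero, one_mul]
        _ = 1 := by rw [this, one_pow]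
    · exact ⟨_, a, k _ h5⟩
  let θ : U →* A := ((pw v h5).coprod (pw _ (c dr h5))).comp (MulEquiv.prodMultiplicative _ _).toMonoidHom
  have t1 : θ e1 = v := by
    change v ^ 1 * _ ^ 0 = v; simp
  have t2 : θ e2 = χ dr v := by
    change v ^ 0 * _ ^ 1 = _; simp
  have h3 : χ (dr * dr) v = v ^ 4 * χ dr v ^ 4 := by
    rw [eq_inv_of_mul_eq_one_right (hr v), ← mul_pow, inv_eq_iff_mul_eq_one, ← pow_succ', mul_pow, h5,
      c _ h5, one_mul]
  have eq : ∀ d, (∀ u, θ (φ1 d u) = χ d (θ u)) ↔ θ (φ1 d e1) = χ d v ∧ θ (φ1 d e2) = χ (d * dr) v :=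
    fun d => ⟨fun h => ⟨by rw [h, t1], by rw [h, t2, m]⟩, fun h => DFunLike.congr_fun (hom_ext
      (θ.comp (φ1 d).toMonoidHom) ((χ d).toMonoidHom.comp θ) (h.1.trans (congrArg _ t1.symm))
      (h.2.trans ((m _ _ _).symm.trans (congrArg _ t2.symm))))⟩
  have er := (eq dr).2 ⟨t2, by
    rw [show φ1 dr e2 = e1 ^ 4 * e2 ^ 4 by decide +kernel, map_mul, map_pow, map_pow, t1, t2, h3]⟩
  have et := (eq dt).2 ⟨by rw [show φ1 dt e1 = e1 ^ 2 by decide +kernel, map_pow, t1, ht], by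
    rw [show φ1 dt e2 = (e1 ^ 4 * e2 ^ 4) ^ 2 by decide +kernel, map_pow, map_mul, map_pow, map_pow,
      t1, t2, show dt * dr = dr * dr * dt by decide, ← m, ht, map_pow, h3]⟩
  clear_value θ
  let S : Subgroup D :=
    { carrier := {d | ∀ u, θ (φ1 d u) = χ d (θ u)}
      one_mem' := fun u => by simp
      mul_mem' := fun ha hb u => by rw [map_mul, MulAut.mul_apply, ha, hb, m]
      inv_mem' := fun {d} hd u => (χ d).injective (by rw [← hd, m]; simp) }
  have hS : S = ⊤ := by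
    refine eq_top_iff.2 fun d _ => ?_
    obtain ⟨i, j, k, rfl⟩ := d_gen dr dt (by decide) d
    have a : dr ∈ S := er
    have b : dt ∈ S := et
    exact mul_mem (mul_mem (pow_mem (mul_mem (mul_mem (mul_mem a b) (inv_mem a)) (inv_mem b)) _)
      (pow_mem a _)) (pow_mem b _)
  refine ⟨θ, fun u hu => by_contra fun hn => h1 ?_, fun d => (hS ▸ trivial : d ∈ S)⟩
  obtain ⟨m, n, e⟩ := u_span u hn e1
  rw [← t1, e, map_mul, map_pow, map_pow, er, hu]; simp

end Pool.Agent.H68.Nl
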