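import Pool.Agent.H68.Nl2

set_option autoImplicit false

namespace Pool.Agent.H68.Nl

open Function SemidirectProduct Pool.Agent.H68.Fit Pool.Agent.H68.Sat
open scoped commutatorElement

def Sc (G : Type) [Group G] (R : Subgroup G) : Prop :=
  ∃ (Γ : Type) (_ : Group Γ) (_ : Finite Γ) (α : Γ →* G) (f : Γ →* Y),
    Surjective f ∧ ∀ γ, α γ ∈ R → f γ = 1

variable {G A B E Γ : Type} [Group G] [Group A] [Group B] [Group E] [Group Γ]

theorem sc_pull [Finite G] [Finite Γ] (π : G →* A) (α : Γ →* A) (f : Γ →* Y) (hf : Surjective f)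
    (hr : ∀ γ, ∃ g, π g = α γ) {R : Subgroup G} (h : ∀ γ, ∀ g ∈ R, π g = α γ → f γ = 1) : Sc G R :=
  ⟨FP α π, inferInstance, inferInstance, p2 α π, f.comp (p1 α π), hf.comp fun γ => by
    obtain ⟨g, hg⟩ := hr γ
    exact ⟨⟨(γ, g), hg.symm⟩, rfl⟩, fun γ e => h _ _ e (fp_rel α π γ).symm⟩

theorem Sc.pull [Finite G] {R : Subgroup G} {R' : Subgroup A} (h : Sc A R') (π : G →* A)
    (hπ : Surjective π) (hR : ∀ g ∈ R, π g ∈ R') : Sc G R := by
  obtain ⟨Γ, _, _, α, f, hf, h⟩ := h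
  exact sc_pull π α f hf (fun _ => hπ _) fun γ g hg e => h γ (e ▸ hR g hg)

theorem Sc.push {R : Subgroup G} {R' : Subgroup A} (h : Sc G R) (π : G →* A)
    (hR : ∀ g, π g ∈ R' → g ∈ R) : Sc A R' := by
  obtain ⟨Γ, _, _, α, f, hf, h⟩ := h
  exact ⟨Γ, _, inferInstance, π.comp α, f, hf, fun γ e => h γ (hR _ e)⟩

theorem cov (f : E →* Y) (hf : Surjective f) (hk : ∀ e, f e = 1 → e ∈ frattini E)
    (M : Subgroup E) [M.Normal] (hM : ∀ u, ∃ m ∈ M, f m = inl u)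
    (hψ : ∀ m ∈ M, rightHom (f m) = 1) : ∃ ψ : E ⧸ M →* D, Surjective ψ ∧
      (∀ e, ψ (QuotientGroup.mk' M e) = rightHom (f e)) ∧ ∀ x, ψ x = 1 → x ∈ frattini (E ⧸ M) := by
  obtain ⟨ψ, h⟩ := exists_lift _ (mk_surj M) (rightHom.comp f) fun g hg => hψ g (mk_one.1 hg)
  refine ⟨ψ, fun d => ?_, h, fun x hx => ?_⟩
  · obtain ⟨e, he⟩ := hf (inr d)
    exact ⟨_, (h e).trans (by simp [he])⟩
  · obtain ⟨e, rfl⟩ := mk_surj M x
    obtain ⟨m, h1, h2⟩ := hM (f e).left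
    rw [← mul_inv_cancel_left m e, map_mul, mk_one.2 h1, one_mul]
    refine frattini_le_comap_frattini_of_surjective (mk_surj M) (hk _ ?_)
    rw [map_mul, map_inv, h2, ← y_ker ((h e).symm.trans hx), inv_mul_cancel]

theorem cover [Finite E] (f : E →* Y) (hf : Surjective f) (hk : ∀ e, f e = 1 → e ∈ frattini E)
    (M : Subgroup E) [M.Normal] (hM : ∀ u, ∃ m ∈ M, f m = inl u) {e : E} (he : pe 5 e) : e ∈ M := by
  obtain ⟨ψ, h1, -, h2⟩ := cov f hf hk (M ⊓ (rightHom.comp f).ker) (fun u => by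
    obtain ⟨m, h1, h2⟩ := hM u
    exact ⟨m, ⟨h1, by simp [MonoidHom.mem_ker, h2]⟩, h2⟩) fun m hm => hm.2
  exact (mk_one.1 (pq (he.map _) (fq ψ h1 h2 d_qe _))).1

theorem ex_act (π : E →* B) (ψ : E →* D) (hψ : Surjective ψ) (X : Subgroup B) [X.Normal]
    (hN : ∀ e, ψ e = 1 → ∀ x ∈ X, Commute (π e) x) :
    ∃ χ : D →* MulAut X, ∀ e x, (χ (ψ e) x : B) = π e * x * (π e)⁻¹ := by
  obtain ⟨χ, h⟩ := exists_lift ψ hψ ((MulAut.conjNormal (H := X)).comp π) fun e he =>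
    MulEquiv.ext fun x => Subtype.ext (by simp [(hN e he x x.2).eq])
  exact ⟨χ, fun e x => by rw [h]; rfl⟩

def Bz {A : Type} [CommGroup A] (χ : D →* MulAut A) : Subgroup A where
  carrier := {x | χ (dt * dt) x * x = 1 ∧ x * χ dr x * χ (dr * dr) x = 1}
  one_mem' := by simp
  mul_mem' := fun {a b} ha hb => ⟨by rw [map_mul (χ _), mul_mul_mul_comm, ha.1, hb.1, one_mul], by
    rw [map_mul (χ _), map_mul (χ _), mul_mul_mul_comm a, mul_mul_mul_comm, ha.2, hb.2, one_mul]⟩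
  inv_mem' := fun {a} ha => ⟨by rw [map_inv (χ _), ← mul_inv, ha.1, inv_one], by
    rw [map_inv (χ _), map_inv (χ _), ← mul_inv, ← mul_inv, ha.2, inv_one]⟩

theorem bz_inv {A : Type} [CommGroup A] (χ : D →* MulAut A) (d : D) {x : A} (h : x ∈ Bz χ) :
    χ d x ∈ Bz χ := by
  have m : ∀ a b x, χ a (χ b x) = χ (a * b) x := fun a b x => by rw [map_mul]; rfl
  refine ⟨by rw [m, (by decide : ∀ d, dt * dt * d = d * (dt * dt)), ← m, ← map_mul, h.1, map_one], ?_⟩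
  rcases (by decide : ∀ d, dr * d = d * dr ∧ dr * dr * d = d * (dr * dr) ∨
    dr * d = d * (dr * dr) ∧ dr * dr * d = d * dr) d with e | e <;>
    rw [m, m, e.1, e.2, ← m d, ← m d, ← map_mul, ← map_mul]
  · rw [h.2, map_one]
  · rw [mul_right_comm, h.2, map_one]

theorem bz_proj {A : Type} [CommGroup A] (χ : D →* MulAut A) (y : A) :
    y * (χ (dt * dt) y)⁻¹ * (χ dr (y * (χ (dt * dt) y)⁻¹))⁻¹ ∈ Bz χ := by
  have m : ∀ a b x, χ a (χ b x) = χ (a * b) x := fun a b x => by rw [map_mul]; rfl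
  have h : χ (dt * dt) (y * (χ (dt * dt) y)⁻¹) = (y * (χ (dt * dt) y)⁻¹)⁻¹ := by
    rw [map_mul (χ _), map_inv (χ _), m, show dt * dt * (dt * dt) = 1 by decide]; simp [mul_comm]
  generalize y * (χ (dt * dt) y)⁻¹ = x at h
  refine ⟨?_, ?_⟩
  · rw [map_mul (χ _), map_inv (χ _), m, show dt * dt * dr = dr * (dt * dt) by decide, ← m dr, h,
      mul_mul_mul_comm]
    simp
  · rw [map_mul (χ _), map_mul (χ _), map_inv (χ _), map_inv (χ _), m, m,
      show dr * dr * dr = 1 by decide]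
    simp [mul_assoc]

theorem sec {T : Type} [Group T] [Finite T] {X : Type} [CommGroup X] (ι : X →* B)
    (hι : Injective ι) (h5 : ∀ x : X, pe 5 x) (τ : T →* B) (hT : ∀ t : T, qe 5 t) (σ : T →* D)
    (hs : Surjective σ) (χ : D →* MulAut X) (hχ : ∀ t x, ι (χ (σ t) x) = τ t * ι x * (τ t)⁻¹)
    (hz : ∀ x, x ∈ Bz χ) {w : X} (hw : w ≠ 1) :
    ∃ (Γ : Type) (_ : Group Γ) (_ : Finite Γ) (α : Γ →* B) (f : Γ →* Y), Surjective f ∧
      (∀ γ, α γ = 1 → f γ = 1) ∧ ∀ γ, ∃ x t, α γ = ι x * τ t := by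
  obtain ⟨w, hw, h⟩ : ∃ w : X, w ≠ 1 ∧ w ^ 5 = 1 := by
    obtain ⟨k, hk⟩ := h5 w
    induction k with
    | zero => exact absurd (by simpa using hk) hw
    | succ k ih =>
      by_cases e : w ^ 5 ^ k = 1
      · exact ih e
      · exact ⟨_, e, by rw [← pow_mul, ← pow_succ, hk]⟩
  obtain ⟨θ, h1, h2⟩ := recog χ (fun x => (hz x).1) (fun x => (hz x).2) hw h
  let α : U ⋊[φ1.comp σ] T →* B := SemidirectProduct.lift (ι.comp θ) τ fun t =>
    MonoidHom.ext fun u => by simp [h2, hχ]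
  have hα : ∀ γ, α γ = ι (θ γ.left) * τ γ.right := fun γ => rfl
  refine ⟨_, _, inferInstance, α, SemidirectProduct.map (MonoidHom.id U) σ fun _ => rfl,
    fun y => ?_, fun γ e => ?_, fun γ => ⟨_, _, hα γ⟩⟩
  · obtain ⟨t, ht⟩ := hs y.right
    exact ⟨⟨y.left, t⟩, SemidirectProduct.ext rfl ht⟩
  · rw [hα] at e
    have e1 : τ γ.right = 1 := pq (by
      rw [eq_inv_of_mul_eq_one_right e, ← map_inv]; exact (h5 _).map ι) ((hT _).map τ)
    rw [e1, mul_one, map_eq_one_iff _ hι] at e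
    refine SemidirectProduct.ext (h1 _ e) (by_contra fun hn => ?_)
    obtain ⟨u, hu⟩ := u_faith _ hn
    refine hu (h1 _ (hι ?_))
    change ι (θ (φ1 (σ γ.right) u * u⁻¹)) = _
    rw [map_mul, map_mul, h2, hχ, e1]; simp

theorem comm1 {x y u v : G} (h1 : Commute u x) (h2 : Commute u y) (h3 : Commute v x)
    (h4 : Commute v y) (h5 : Commute u v) (h6 : Commute ⁅x, y⁆ x) (h7 : Commute ⁅x, y⁆ y) :
    ⁅u * x⁻¹, v * y⁻¹⁆ = ⁅x, y⁆ ∧ ⁅y, y⁻¹ * x⁻¹ * u⁆ = ⁅x, y⁆ := by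
  have e : x⁻¹ * y⁻¹ * x * y = ⁅x, y⁆ := by
    calc _ = (y * x)⁻¹ * (⁅x, y⁆ * (y * x)) := by rw [commutatorElement_def]; group
      _ = _ := by rw [(h7.mul_right h6).eq]; group
  rw [← e]
  constructor
  · calc _ = u * (x⁻¹ * v * y⁻¹ * x) * u⁻¹ * y * v⁻¹ := by rw [commutatorElement_def]; group
      _ = x⁻¹ * v * y⁻¹ * x * y * v⁻¹ := by
        rw [(((h1.inv_right.mul_right h5).mul_right h2.inv_right).mul_right h1).eq]; group
      _ = v * (x⁻¹ * y⁻¹ * x * y) * v⁻¹ := by rw [← h3.inv_right.eq]; group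
      _ = _ := by rw [(((h3.inv_right.mul_right h4.inv_right).mul_right h3).mul_right h4).eq]; group
  · calc _ = x⁻¹ * (u * y⁻¹) * u⁻¹ * x * y := by rw [commutatorElement_def]; group
      _ = _ := by rw [h2.inv_right.eq]; group

theorem cm_r (x p q : G) : ⁅x, p * q⁆ = ⁅x, p⁆ * (p * ⁅x, q⁆ * p⁻¹) := by
  simp only [commutatorElement_def]; group

theorem cm_l (x p q : G) : ⁅p * q, x⁆ = p * ⁅q, x⁆ * p⁻¹ * ⁅p, x⁆ := by
  simp only [commutatorElement_def]; group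

theorem cm_c (g p q : G) : g * ⁅p, q⁆ * g⁻¹ = ⁅g * p * g⁻¹, g * q * g⁻¹⁆ := by
  simp only [commutatorElement_def]; group

theorem crit [Finite E] (f : E →* Y) (hf : Surjective f) (hk : ∀ e, f e = 1 → e ∈ frattini E)
    (W : Subgroup Y) (hW1 : ∀ u, inl u ∈ W → u = 1) (hW2 : ∀ d, ∃ w ∈ W, rightHom w = d)
    (hno : ¬ Sc (W.comap f) ⊥) : NL 2 (W.comap f) := by
  let ψ : E →* D := rightHom.comp f
  have hψ : Surjective ψ := rightHom_surjective.comp hf
  have : Group.IsNilpotent (rightHom : Y →* D).ker := nil_comm fun a b => Subtype.ext (by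
    rw [Subgroup.coe_mul, Subgroup.coe_mul, y_ker a.2, y_ker b.2, ← map_mul, ← map_mul, mul_comm])
  have : Group.IsNilpotent ψ.ker := frat_nil f hf hk rightHom.ker
  let P := Op 5 ψ.ker
  have hP : ∀ u, ∃ p ∈ P, f p = inl u := fun u => by
    obtain ⟨e, he⟩ := hf (inl u)
    obtain ⟨i, h1, h2⟩ := qe_lift f e (pe_iff.1 (he ▸ pe.map
      ⟨1, (by decide +kernel : ∀ u : U, u ^ 5 ^ 1 = 1) u⟩ _))
    exact ⟨_, ⟨by simp [ψ, MonoidHom.mem_ker, h2, he, -map_zpow], pe_iff.2 h1⟩, h2.trans he⟩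
  have hN : ∀ X : Subgroup E, X ≤ P → ∀ n, ψ n = 1 → ∀ x ∈ X, ⁅x, n⁆ ∈ ⁅X, P⁆ := by
    intro X hX n hn x hx
    obtain ⟨i, j, e, h1, h2⟩ := pe_split (· ≠ 5) n
    rw [e, zpow_mul_comm, cm_r, commutatorElement_eq_one_iff_commute.2
      (cop_comm ψ.ker (hX hx).1 (zpow_mem hn i) (hX hx).2 h1)]
    simpa using Subgroup.commutator_mem_commutator hx (⟨zpow_mem hn j, pe_iff.2 h2⟩ : _ ∈ P)
  obtain ⟨T, hT1, hT2⟩ := min_supp (ψ.comp (W.comap f).subtype) fun d => by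
    obtain ⟨w, h1, rfl⟩ := hW2 d
    obtain ⟨e, rfl⟩ := hf w
    exact ⟨⟨e, h1⟩, rfl⟩
  obtain ⟨a, ha⟩ := hψ dr
  obtain ⟨b, hb⟩ := hψ (dt * dt)
  have rel : ∀ (X M : Subgroup E) [X.Normal] [M.Normal], X ≤ P → ⁅X, P⁆ ≤ M → ∃ H : Subgroup E,
      H.Normal ∧ (∀ x ∈ X, x ∈ H ↔ b * x * b⁻¹ * x ∈ M ∧
        x * (a * x * a⁻¹) * (a * a * x * (a * a)⁻¹) ∈ M) ∧
      (∀ x ∈ X, x * (b * x * b⁻¹)⁻¹ * (a * (x * (b * x * b⁻¹)⁻¹) * a⁻¹)⁻¹ ∈ H) ∧
      (X ≤ H → X ≤ f.ker → X ≤ M) := by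
    intro X M _ _ h1 h2
    let π := QuotientGroup.mk' M
    have : (X.map π).Normal := Subgroup.Normal.map inferInstance _ (mk_surj _)
    have hc : ∀ e, ψ e = 1 → ∀ x ∈ X.map π, Commute (π e) x := by
      rintro e he _ ⟨x, hx, rfl⟩
      rw [Commute.symm_iff, ← commutatorElement_eq_one_iff_commute, ← map_commutatorElement, mk_one]
      exact h2 (hN X h1 e he x hx)
    obtain ⟨χ, hχ⟩ := ex_act π ψ hψ (X.map π) hc
    let _ : CommGroup (X.map π) := { (inferInstance : Group (X.map π)) with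
      mul_comm := by rintro ⟨_, x, hx, rfl⟩ y; exact Subtype.ext (hc x (h1 hx).1 y y.2) }
    have h3 : ∀ x (hx : x ∈ X), x ∈ ((Bz χ).map (X.map π).subtype).comap π ↔
        (⟨π x, x, hx, rfl⟩ : X.map π) ∈ Bz χ := by
      refine fun x hx => ⟨?_, fun h => ⟨_, h, rfl⟩⟩
      rintro ⟨y, h, e⟩
      rwa [← (Subtype.ext e : y = ⟨π x, x, hx, rfl⟩)]
    refine ⟨((Bz χ).map (X.map π).subtype).comap π, ⟨?_⟩, fun x hx => ?_, fun x hx => ?_,
      fun h4 h5 x hx => ?_⟩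
    · rintro x ⟨y, h, e⟩ g
      exact ⟨_, bz_inv χ (ψ g) h, (hχ g y).trans (by rw [map_mul, map_mul, map_inv, ← e]; rfl)⟩
    · rw [h3 x hx, ← mk_one (N := M), ← mk_one (N := M)]
      refine and_congr ?_ ?_ <;> rw [Subtype.ext_iff] <;>
        simp only [Subgroup.coe_mul, ← hb, ← ha, ← map_mul ψ, hχ, map_mul π, map_inv π] <;> rfl
    · refine ⟨_, bz_proj χ ⟨π x, x, hx, rfl⟩, ?_⟩
      simp only [Subgroup.coe_subtype, Subgroup.coe_mul, Subgroup.coe_inv, ← hb, ← ha, hχ, map_mul π,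
        map_inv π]
    · by_contra hn
      obtain ⟨Γ, _, _, α, f', h6, h7, h8⟩ := sec (X.map π).subtype (X.map π).subtype_injective
        (fun ⟨_, y, hy, rfl⟩ => pe_inj (X.map π).subtype (X.map π).subtype_injective
          ((h1 hy).2.map π)) (π.comp ((W.comap f).subtype.comp T.subtype)) (fq _ hT1 hT2 d_qe) _ hT1 χ
        (fun t y => hχ _ y) (fun ⟨_, y, hy, rfl⟩ => (h3 y hy).1 (h4 hy)) (w := ⟨π x, x, hx, rfl⟩)
        fun e => hn (mk_one.1 (congrArg Subtype.val e))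
      refine hno (sc_pull (π.comp (W.comap f).subtype) α f' h6 (fun γ => ?_) fun γ g hg e => h7 γ ?_)
      · obtain ⟨⟨_, y, hy, rfl⟩, t, e⟩ := h8 γ
        exact ⟨⟨y, by rw [Subgroup.mem_comap, h5 hy]; exact one_mem _⟩ * t, by rw [e, map_mul]; rfl⟩
      · rw [← e, Subgroup.mem_bot.1 hg, map_one]
  obtain ⟨H, _, r1, r2, -⟩ := rel P ⁅P, P⁆ le_rfl le_rfl
  have r3 : ∀ p ∈ P, b * p * b⁻¹ * p ∈ ⁅P, P⁆ ∧
      p * (a * p * a⁻¹) * (a * a * p * (a * a)⁻¹) ∈ ⁅P, P⁆ := fun p hp => (r1 p hp).1 <|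
    cover f hf hk H (fun u => by
      obtain ⟨v, rfl⟩ := (by decide +kernel : ∀ u : U, ∃ v, u = v * (φ1 (dt * dt) v)⁻¹ *
        (φ1 dr (v * (φ1 (dt * dt) v)⁻¹))⁻¹) u
      obtain ⟨q, h1, h2⟩ := hP v
      refine ⟨_, r2 q h1, ?_⟩
      simp only [map_mul f, map_inv f, h2, y_conj, ← map_inv inl, ← map_mul inl]
      rw [← ha, ← hb]; rfl) hp.2
  have r4 : P ⊓ f.ker ≤ ⁅P, P⁆ := by
    obtain ⟨H, _, r1, -, r2⟩ := rel (P ⊓ f.ker) ⁅P, P⁆ inf_le_left
      (Subgroup.commutator_mono inf_le_left le_rfl)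
    exact r2 (fun p hp => (r1 p hp).2 (r3 p hp.1)) inf_le_right
  have r5 : ⁅P, P⁆ ≤ P := Subgroup.commutator_le_left _ _
  obtain ⟨x, hx, fx⟩ := hP e1
  have hy : a * x * a⁻¹ ∈ P := Subgroup.Normal.conj_mem inferInstance _ hx _
  have all : ∀ H : Subgroup E, x ∈ H → a * x * a⁻¹ ∈ H → ⁅P, P⁆ ≤ H → P ≤ H := by
    intro H h1 h2 h3 p hp
    obtain ⟨m, n, e⟩ := u_gen (f p).left
    rw [← mul_inv_cancel_left (x ^ m.val * (a * x * a⁻¹) ^ n.val) p]
    refine mul_mem (mul_mem (pow_mem h1 _) (pow_mem h2 _)) (h3 (r4 ⟨P.mul_mem (P.inv_mem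
      (P.mul_mem (P.pow_mem hx _) (P.pow_mem hy _))) hp, MonoidHom.mem_ker.2 ?_⟩))
    rw [map_mul, y_ker hp.1, e]
    simp only [map_mul, map_inv, map_pow, fx, y_conj]
    rw [show (f a).right = dr from ha, show φ1 dr e1 = e2 by decide +kernel, inv_mul_cancel]
  let π := QuotientGroup.mk' ⁅⁅P, P⁆, P⁆
  have c3 : ∀ w ∈ ⁅P, P⁆, ∀ p ∈ P, Commute (π w) (π p) := fun w hw p hp => by
    rw [← commutatorElement_eq_one_iff_commute, ← map_commutatorElement, mk_one]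
    exact Subgroup.commutator_mem_commutator hw hp
  let J := (Subgroup.centralizer {π a, π b}).comap π
  have hJ : ⁅P, P⁆ ≤ J := by
    let Lp : ∀ p ∈ P, Subgroup E := fun p hp =>
      { carrier := {q | q ∈ P ∧ ⁅p, q⁆ ∈ J}
        one_mem' := ⟨one_mem _, by simp⟩
        mul_mem' := fun {q r} hq hr => ⟨mul_mem hq.1 hr.1, by
          rw [cm_r]
          refine mul_mem hq.2 ?_
          rw [Subgroup.mem_comap, map_mul, map_mul, ← (c3 _
            (Subgroup.commutator_mem_commutator hp hr.1) _ hq.1).eq, map_inv, mul_inv_cancel_right]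
          exact hr.2⟩
        inv_mem' := fun {q} hq => ⟨inv_mem hq.1, by
          rw [show ⁅p, q⁻¹⁆ = q⁻¹ * ⁅p, q⁆⁻¹ * q by simp only [commutatorElement_def]; group,
            Subgroup.mem_comap, map_mul, map_mul, ← (c3 _ (inv_mem
            (Subgroup.commutator_mem_commutator hp hq.1)) _ (inv_mem hq.1)).eq, map_inv π q,
            inv_mul_cancel_right]
          exact inv_mem hq.2⟩ }
    have l1 : ∀ p hp, ⁅P, P⁆ ≤ Lp p hp := fun p hp w hw => ⟨r5 hw, by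
      rw [Subgroup.mem_comap, map_commutatorElement,
        commutatorElement_eq_one_iff_commute.2 (c3 w hw p hp).symm]
      exact one_mem _⟩
    have l2 : ⁅x, a * x * a⁻¹⁆ ∈ J := by
      have k := Subgroup.commutator_mem_commutator hx hy
      have k1 := comm1 (c3 _ (r3 _ hx).1 _ hx) (c3 _ (r3 _ hx).1 _ hy) (c3 _ (r3 _ hy).1 _ hx)
        (c3 _ (r3 _ hy).1 _ hy) (c3 _ (r3 _ hx).1 _ (r5 (r3 _ hy).1))
        (map_commutatorElement π _ _ ▸ c3 _ k _ hx) (map_commutatorElement π _ _ ▸ c3 _ k _ hy)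
      have k2 := comm1 (c3 _ (r3 _ hx).2 _ hx) (c3 _ (r3 _ hx).2 _ hy) (Commute.one_left _)
        (Commute.one_left _) (Commute.one_right _)
        (map_commutatorElement π _ _ ▸ c3 _ k _ hx) (map_commutatorElement π _ _ ▸ c3 _ k _ hy)
      rintro _ (rfl | rfl) <;> rw [← mul_inv_eq_iff_eq_mul, map_commutatorElement, cm_c]
      · rw [← k2.2]; simp only [map_mul, map_inv]; group
      · rw [← k1.1]; simp only [map_mul, map_inv]; group
    have l3 : ∀ p hp, ⁅x, p⁆ ∈ J → ⁅a * x * a⁻¹, p⁆ ∈ J → P ≤ Lp p hp := fun p hp h1 h2 =>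
      all _ ⟨hx, by simpa using inv_mem h1⟩ ⟨hy, by simpa using inv_mem h2⟩ (l1 p hp)
    exact Subgroup.commutator_le.2 fun p hp q hq => (l3 p hp
      (l3 x hx (by simp) (by simpa using inv_mem l2) hp).2 (l3 _ hy l2 (by simp) hp).2 hq).2
  have r6 : ⁅⁅P, P⁆, P⁆ ≤ P := Subgroup.commutator_le_right _ _
  have r7 : ⁅⁅P, P⁆, P⁆ = ⊥ := by
    have := nil_of_pe P fun g hg => hg.2
    refine comm_ne r6 (le_antisymm (Subgroup.commutator_le_left _ _) ?_)
    obtain ⟨H, _, r1, -, r2⟩ := rel ⁅⁅P, P⁆, P⁆ _ r6 le_rfl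
    refine r2 (Subgroup.commutator_le.2 fun w hw p hp => (r1 _
      (Subgroup.commutator_mem_commutator hw hp)).2 ?_) ((Subgroup.commutator_le_left _ _).trans
      (Subgroup.commutator_le.2 fun p hp q hq => ?_))
    · let ρ := QuotientGroup.mk' ⁅⁅⁅P, P⁆, P⁆, P⁆
      have c4 : ∀ w ∈ ⁅⁅P, P⁆, P⁆, ∀ p ∈ P, Commute (ρ w) (ρ p) := fun w hw p hp => by
        rw [← commutatorElement_eq_one_iff_commute, ← map_commutatorElement, mk_one]
        exact Subgroup.commutator_mem_commutator hw hp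
      let θ : P →* E ⧸ ⁅⁅⁅P, P⁆, P⁆, P⁆ := MonoidHom.mk' (fun q => ρ ⁅w, q⁆) fun q r => by
        rw [Subgroup.coe_mul, cm_r, map_mul, map_mul, map_mul,
          ← (c4 _ (Subgroup.commutator_mem_commutator hw r.2) _ q.2).eq, map_inv, mul_inv_cancel_right]
      have t1 : ∀ q : P, (q : E) ∈ ⁅P, P⁆ → θ q = 1 := fun q hq => by
        have : ⁅P, P⁆ ≤ θ.ker.map P.subtype := Subgroup.commutator_le.2 fun s hs t ht =>
          ⟨⁅(⟨s, hs⟩ : P), (⟨t, ht⟩ : P)⁆, by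
            rw [SetLike.mem_coe, MonoidHom.mem_ker, map_commutatorElement,
              commutatorElement_eq_one_iff_commute]
            exact c4 _ (Subgroup.commutator_mem_commutator hw hs) _
              (r6 (Subgroup.commutator_mem_commutator hw ht)), rfl⟩
        obtain ⟨r, h1, h2⟩ := this hq
        rwa [← (Subtype.ext h2 : r = q)]
      have t2 : ∀ g, Commute (π g) (π w) → ρ (g * ⁅w, p⁆ * g⁻¹) =
          θ ⟨g * p * g⁻¹, Subgroup.Normal.conj_mem inferInstance _ hp _⟩ := fun g hg => by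
        rw [cm_c, ← mul_inv_cancel_left w (g * w * g⁻¹), cm_l, map_mul, mk_one.2, one_mul]
        · rfl
        refine Subgroup.Normal.conj_mem inferInstance _ (Subgroup.commutator_mem_commutator (mk_one.1 ?_)
          (Subgroup.Normal.conj_mem inferInstance _ hp _)) _
        change π _ = 1
        simp only [map_mul, map_inv]
        rw [hg.eq]; group
      have ta : Commute (π a) (π w) := hJ hw _ (Or.inl rfl)
      have tb : Commute (π b) (π w) := hJ hw _ (Or.inr rfl)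
      constructor <;> rw [← mk_one]
      · rw [map_mul, t2 b tb]
        exact (θ.map_mul _ ⟨p, hp⟩).symm.trans (t1 _ (r3 p hp).1)
      · rw [map_mul, map_mul, t2 a ta, t2 (a * a) (map_mul π a a ▸ ta.mul_left ta)]
        exact ((congrArg (· * _) (θ.map_mul ⟨p, hp⟩ _).symm).trans (θ.map_mul _ _).symm).trans
          (t1 _ (r3 p hp).2)
    · rw [MonoidHom.mem_ker, map_commutatorElement, y_ker hp.1, y_ker hq.1, ← map_commutatorElement,
        commutatorElement_eq_one_iff_mul_comm.2 (mul_comm _ _), map_one]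
  obtain ⟨ψ', h1, h2, h3⟩ := cov f hf hk P hP fun m hm => hm.1
  have := frat_nil ψ' h1 h3 κ.ker
  refine nl_ext ((κ.comp ψ).comp (W.comap f).subtype) (nil_cent _
    ((QuotientGroup.mk' P).comp (W.comap f).subtype) (κ.ker.comap ψ') (fun g hg => ?_)
    fun g hg e g' hg' => Subtype.ext ?_) nl_one
  · rw [Subgroup.mem_comap, MonoidHom.comp_apply, h2]; exact hg
  · have h4 := mk_one.1 e
    have h5 : (g : E) ∈ ⁅P, P⁆ := r4 ⟨h4, MonoidHom.mem_ker.2 (by
      have h5 : f g = inl (f g).left := y_ker h4.1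
      rw [h5, hW1 (f g).left (h5 ▸ g.2), map_one])⟩
    have h6 : ∀ n, ψ n = 1 → Commute (g : E) n := fun n hn =>
      commutatorElement_eq_one_iff_commute.1 (Subgroup.mem_bot.1 (r7 ▸ hN _ r5 n hn g h5))
    have h7 : Commute (g : E) a := by
      have : Commute (π a) (π g) := hJ h5 _ (Or.inl rfl)
      rw [← commutatorElement_eq_one_iff_commute, ← map_commutatorElement, mk_one, r7] at this
      exact (commutatorElement_eq_one_iff_commute.1 this).symm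
    refine Commute.eq (Commute.symm ?_)
    rcases k_ker _ hg' with e | e | e
    · exact h6 _ e
    · simpa using (h6 (g' * a⁻¹) (by rw [map_mul, map_inv, ha, mul_inv_eq_one]; exact e)).mul_right h7
    · simpa [mul_assoc] using (h6 (g' * (a * a)⁻¹) (by
        rw [map_mul, map_inv, map_mul, ha, mul_inv_eq_one]; exact e)).mul_right (h7.mul_right h7)

end Pool.Agent.H68.Nl
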