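import Pool.Agent.H68.Nl3

set_option autoImplicit false

namespace Pool.Agent.H68.Nl

open Function SemidirectProduct Pool.Agent.H68.Fit Pool.Agent.H68.Sat
open scoped commutatorElement

variable {G A B E Γ : Type} [Group G] [Group A] [Group B] [Group E] [Group Γ]

def Bad (G : Type) [Group G] : Prop := Sc G (Rd 7 G)

def FF (G : Type) [Group G] : Prop := Finite G ∧ Group.IsSolvable G ∧ ¬ Bad G

theorem rd_inj [Finite A] (ι : G →* A) (hι : Injective ι) {g : G} (h : ι g ∈ Rd 7 A) : g ∈ Rd 7 G :=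
  haveI := (rd_spec (p := 7) (G := A)).1
  le_rd inferInstance (mc_comap rd_spec.2 ι fun g e => by
    rw [(injective_iff_map_eq_one ι).1 hι g e]; exact PE.one) h

theorem FF.surj (h : FF G) (π : G →* A) (hπ : Surjective π) : FF A := by
  obtain ⟨_, _, h⟩ := h
  exact ⟨Finite.of_surjective π hπ, solvable_of_surjective hπ,
    fun b => h (b.pull π hπ fun g hg => rd_map π hπ hg)⟩

theorem FF.inj (h : FF A) (ι : G →* A) (hι : Injective ι) : FF G := by
  obtain ⟨_, _, h⟩ := h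
  exact ⟨Finite.of_injective ι hι, solvable_of_solvable_injective hι,
    fun b => h (b.push ι fun g => rd_inj ι hι)⟩

theorem FF.st [Finite G] (h : FF (G ⧸ frattini G)) : FF G := by
  obtain ⟨_, _, h⟩ := h
  have := frattini_nilpotent (G := G)
  have := (rd_spec (p := 7) (G := G ⧸ frattini G)).1
  exact ⟨inferInstance, solvable_of_ker_le_range (frattini G).subtype (QuotientGroup.mk' (frattini G)) (by simp),
    fun b => h (b.push (QuotientGroup.mk' _) fun g hg => le_rd inferInstance (frat_mc rd_spec.2) hg)⟩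

theorem FF.pair [Finite G] (α : G →* A) (β : G →* B) (hi : ∀ g, α g = 1 → β g = 1 → g = 1)
    (a : FF A) (b : FF B) : FF G := by
  obtain ⟨_, _, a⟩ := a
  obtain ⟨_, _, b⟩ := b
  refine ⟨inferInstance, solvable_of_solvable_injective (f := α.prod β)
    ((injective_iff_map_eq_one _).2 fun g e => hi g (congrArg Prod.fst e) (congrArg Prod.snd e)), ?_⟩
  rintro ⟨Γ, _, _, γ, f, hf, h⟩
  obtain ⟨S, h1, h2⟩ := min_supp f hf
  obtain ⟨s, hs⟩ := h1 (inl e1)
  obtain ⟨i, h3, h4⟩ := qe_lift (f.comp S.subtype) s (pe_iff.1 (hs ▸ pe.map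
      ⟨1, (by decide +kernel : e1 ^ 5 ^ 1 = 1)⟩ _))
  have key : ∀ {C : Type} [Group C] [Finite C] (δ : G →* C), ¬ Bad C → δ (γ (s ^ i : S)) ∈ Rd 7 C := by
    intro C _ _ δ hC
    have := (rd_spec (p := 7) (G := C)).1
    let M := (Rd 7 C).comap (δ.comp (γ.comp S.subtype))
    have : (M.map (f.comp S.subtype)).Normal := Subgroup.Normal.map inferInstance _ h1
    refine cover _ h1 h2 M (fun u => ?_) (pe_iff.2 h3)
    by_contra hn
    exact hC ⟨S, _, inferInstance, _, _, h1, fun t ht => by_contra fun e =>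
      hn (y_min (M.map (f.comp S.subtype)) ⟨t, ht, rfl⟩ e u)⟩
  obtain ⟨_, m1⟩ := rd_spec (p := 7) (G := A)
  obtain ⟨_, m2⟩ := rd_spec (p := 7) (G := B)
  have := h _ (le_rd (N := (Rd 7 A).comap α ⊓ (Rd 7 B).comap β) inferInstance
    (fun x hx y hy h1 h2 => qe_pair' α β hi
      (by rw [map_mul]; exact m1 _ hx.1 _ hy.1 (h1.map α) (h2.map α))
      (by rw [map_mul]; exact m2 _ hx.2 _ hy.2 (h1.map β) (h2.map β))) ⟨key α a, key β b⟩)
  exact absurd (this.symm.trans (h4.trans hs)) (by decide +kernel)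

theorem ofQ [Finite G] [Finite Γ] (H Q : Subgroup G) (hQ : ∀ q ∈ Q, pe 7 q) (α : Γ →* G)
    (hα : ∀ γ, α γ ∈ H) (hn : ∀ γ, ∀ q ∈ Q, α γ * q * (α γ)⁻¹ ∈ Q) (f : Γ →* Y) (hf : Surjective f)
    (hc : ∀ γ, (∀ q ∈ Q, q ∈ H → Commute (α γ) q) → f γ = 1) : Bad H := by
  refine ⟨Γ, _, inferInstance, α.codRestrict H hα, f, hf, fun γ h => ?_⟩
  obtain ⟨_, m⟩ := rd_spec (p := 7) (G := H)
  obtain ⟨i, j, e, h1, h2⟩ := pe_split (· ≠ 7) γ
  rw [e, map_mul, pq ((pe_iff.2 h2).map f) (y_qe _), mul_one]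
  refine hc _ fun q hq hq' => commutatorElement_eq_one_iff_commute.1 (pq (hQ _ ?_) ?_)
  · exact mul_mem (hn _ q hq) (inv_mem hq)
  · have h3 : α.codRestrict H hα (γ ^ i) ∈ m.sub := ⟨by rw [map_zpow]; exact zpow_mem h i, h1.map _⟩
    have := (mul_mem h3 (Subgroup.Normal.conj_mem inferInstance _ (inv_mem h3) ⟨q, hq'⟩)).2.map H.subtype
    convert this using 1
    simp [commutatorElement_def, mul_assoc]

theorem toQ [Finite G] [Group.IsSolvable G] (h : Bad G) : ∃ (Q : Subgroup G) (S : Type) (_ : Group S)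
    (_ : Finite S) (ι : S →* G) (f : S →* Y), (∀ q ∈ Q, pe 7 q) ∧ Injective ι ∧ Surjective f ∧
      (∀ s, f s = 1 → s ∈ frattini S) ∧ (∀ s, ι s ∈ Subgroup.normalizer (Q : Set G)) ∧
      ∀ s, (∀ q ∈ Q, Commute (ι s) q) → f s = 1 := by
  obtain ⟨Γ, _, _, α, f, hf, h⟩ := h
  obtain ⟨_, m⟩ := rd_spec (p := 7) (G := G)
  obtain ⟨P⟩ := (inferInstance : Nonempty (Sylow 7 (Rd 7 G)))
  let Q := (P : Subgroup (Rd 7 G)).map (Rd 7 G).subtype
  let N := Subgroup.normalizer (Q : Set G)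
  let π := QuotientGroup.mk' (Rd 7 G)
  let β := N.subtype.comp (p2 (π.comp α) (π.comp N.subtype))
  have hb : ∀ x, β x ∈ Rd 7 G → f (p1 _ _ x) = 1 := fun x hx =>
    h _ (mk_one.1 ((fp_rel _ _ x).trans (mk_one.2 hx)))
  obtain ⟨g, hg⟩ := exists_lift _ β.rangeRestrict_surjective (f.comp (p1 _ _)) fun x hx =>
    hb x (by rw [show β x = 1 from congrArg Subtype.val hx]; exact one_mem _)
  obtain ⟨S, h1, h2⟩ := min_supp g fun y => by
    obtain ⟨γ, rfl⟩ := hf y
    obtain ⟨n, hn, r, hr, e⟩ := Subgroup.mem_sup_of_normal_right.1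
      (Sylow.normalizer_sup_eq_top P ▸ Subgroup.mem_top (α γ))
    exact ⟨_, hg ⟨(γ, ⟨n, hn⟩), show π (α γ) = π n by rw [← e, map_mul, mk_one.2 hr, mul_one]⟩⟩
  refine ⟨Q, S, inferInstance, inferInstance, β.range.subtype.comp S.subtype, g.comp S.subtype, ?_,
    β.range.subtype_injective.comp S.subtype_injective, h1, h2, ?_, ?_⟩
  · rintro _ ⟨q, hq, rfl⟩
    exact pe.map (pg_iff.1 P.isPGroup' q hq) _
  · rintro ⟨⟨_, x, rfl⟩, -⟩
    exact (p2 _ _ x).2
  · rintro ⟨⟨_, x, rfl⟩, _⟩ hc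
    refine (hg x).trans (hb x (hall_higman Q (fun r hr => ?_) hc))
    let ρ := (QuotientGroup.mk' m.sub).comp (Rd 7 G).subtype
    have h3 : IsPGroup 7 ρ.range := pg_iff.2 <| by rintro _ ⟨y, rfl⟩; exact pe_quo m y.2
    have h4 := (P.mapSurjective ρ.rangeRestrict_surjective).is_maximal' (h3.to_subgroup ⊤) le_top
    obtain ⟨q, hq, e⟩ : ρ.rangeRestrict ⟨r, hr⟩ ∈ (P : Subgroup _).map ρ.rangeRestrict :=
      (h4 ▸ Subgroup.mem_top _ :
        ρ.rangeRestrict ⟨r, hr⟩ ∈ (P.mapSurjective ρ.rangeRestrict_surjective : Subgroup ρ.range))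
    exact ⟨q, ⟨q, hq, rfl⟩, (QuotientGroup.eq.1 (congrArg Subtype.val e)).2, q.2⟩

theorem bad_nl [Finite G] (h : Bad G) : ¬ NL 3 G := by
  rintro ⟨N, _, _, h1⟩
  obtain ⟨Γ, _, _, α, f, hf, h⟩ := h
  let β := (QuotientGroup.mk' N).comp α
  obtain ⟨g, hg⟩ := exists_lift _ β.rangeRestrict_surjective f fun x hx =>
    h x (le_rd inferInstance (mc_nil N) (mk_one.1 (congrArg Subtype.val hx)))
  exact y_nl (nl_surj 2 g (fun y => by obtain ⟨x, rfl⟩ := hf y; exact ⟨_, hg x⟩)
    (nl_inj 2 _ β.range.subtype_injective h1))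

theorem min_nl [Finite G] [Group.IsSolvable G] (h : Bad G) (hm : ∀ H : Subgroup G, H ≠ ⊤ → ¬ Bad H)
    (H : Subgroup G) (hH : H ≠ ⊤) : NL 3 H := by
  obtain ⟨Q, S, _, _, ι, f, hQ, hι, hf, hk, hn, hc⟩ := toQ h
  have top : Q ⊔ ι.range = ⊤ := by_contra fun e => hm _ e (ofQ _ Q hQ ι
    (fun s => Subgroup.mem_sup_right ⟨s, rfl⟩) (fun s q hq => (hn s q).1 hq) f hf
    fun s h => hc s fun q hq => h q hq (Subgroup.mem_sup_left hq))
  have : Q.Normal := Subgroup.normalizer_eq_top_iff.1 (eq_top_iff.2 (top ▸ sup_le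
    Subgroup.le_normalizer (by rintro _ ⟨s, rfl⟩; exact hn s)))
  have := nil_of_pe Q hQ
  have dec : ∀ g, ∃ q ∈ Q, ∃ s, q * ι s = g := fun g => by
    obtain ⟨q, hq, _, ⟨s, rfl⟩, e⟩ := Subgroup.mem_sup_of_normal_left.1 (top ▸ Subgroup.mem_top g)
    exact ⟨q, hq, s, e⟩
  have i1 : ∀ s, ι s ∈ Q → s = 1 := fun s h => pq (pe_inj ι hι (hQ _ h)) (fq f hf hk y_qe s)
  let ε := MulEquiv.ofBijective ((QuotientGroup.mk' Q).comp ι) ⟨(injective_iff_map_eq_one _).2
    fun s h => i1 s (mk_one.1 h), fun x => by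
      obtain ⟨g, rfl⟩ := mk_surj _ x
      obtain ⟨q, hq, s, rfl⟩ := dec g
      exact ⟨s, by rw [map_mul, mk_one.2 hq, one_mul]; rfl⟩⟩
  let π : G →* S := ε.symm.toMonoidHom.comp (QuotientGroup.mk' Q)
  have p0 : ∀ g, π g = 1 ↔ g ∈ Q := fun g => ε.symm.map_eq_one_iff.trans mk_one
  have p1 : ∀ s, π (ι s) = s := fun s => ε.symm_apply_apply s
  clear_value π
  have : Group.IsNilpotent (rightHom : Y →* D).ker := nil_comm fun a b => Subtype.ext (by
    rw [Subgroup.coe_mul, Subgroup.coe_mul, y_ker a.2, y_ker b.2, ← map_mul, ← map_mul, mul_comm])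
  have : Group.IsNilpotent (rightHom.comp f).ker := frat_nil f hf hk rightHom.ker
  let W := H.map (f.comp π)
  by_cases c1 : W.map rightHom = ⊤
  swap
  · have := d_ab _ c1
    let S1 := (W.map rightHom).comap (rightHom.comp f)
    refine nl_ext ((π.comp H.subtype).codRestrict S1 fun g => ⟨_, ⟨_, g.2, rfl⟩, rfl⟩)
      (nil_map _ H.subtype H.subtype_injective Q fun a ha => (p0 _).1 (congrArg Subtype.val ha))
      (nl_ext ((rightHom.comp f).subgroupComap _) (nil_map _ S1.subtype S1.subtype_injective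
        (rightHom.comp f).ker fun a ha => congrArg Subtype.val ha) nl_one)
  have c2 : ∀ d, ∃ w ∈ W, rightHom w = d := fun d => (c1 ▸ Subgroup.mem_top d : d ∈ W.map rightHom)
  by_cases c3 : ∀ u, inl u ∈ W → u = 1
  · let C := (Subgroup.centralizer (Q : Set G)).comap ι
    let ρ := QuotientGroup.mk' C
    have c4 : ∀ s ∈ C, f s = 1 := fun s hs => hc s fun q hq => (hs q hq).symm
    obtain ⟨g, hg⟩ := exists_lift ρ (mk_surj _) f fun s hs => c4 s (mk_one.1 hs)
    have := frattini_nilpotent (G := S)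
    have : Group.IsNilpotent C := nil_map C (MonoidHom.id S) injective_id (frattini S)
      fun s hs => hk s (c4 s hs)
    have := nil_img C ι
    refine nl_ext ((ρ.comp (π.comp H.subtype)).codRestrict (W.comap g) fun a =>
      ⟨a, a.2, (hg _).symm⟩) (?_) (crit g (fun y => by obtain ⟨s, rfl⟩ := hf y; exact ⟨_, hg s⟩)
      (fun e he => ?_) W c3 c2 fun hs => hm (W.comap (f.comp π)) (fun e => ?_) ?_)
    · have := nil_prod Q (C.map ι) (C.comap π) (by rintro q hq _ ⟨s, hs, rfl⟩; exact hs q hq)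
        fun k hk => by
          obtain ⟨q, hq, s, rfl⟩ := dec k
          refine ⟨q, hq, _, ⟨s, ?_, rfl⟩, rfl⟩
          rwa [Subgroup.mem_comap, map_mul, (p0 q).2 hq, one_mul, p1] at hk
      exact nil_map _ H.subtype H.subtype_injective (C.comap π) fun a ha =>
        (mk_one (N := C)).1 (congrArg Subtype.val ha)
    · obtain ⟨s, rfl⟩ := mk_surj C e
      exact frattini_le_comap_frattini_of_surjective (mk_surj C) (hk s ((hg s).symm.trans he))
    · obtain ⟨s, hs⟩ := hf (inl e1)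
      have : ι s ∈ W.comap (f.comp π) := e ▸ Subgroup.mem_top _
      rw [Subgroup.mem_comap, MonoidHom.comp_apply, p1, hs] at this
      exact absurd (c3 _ this) (by decide)
    · obtain ⟨Γ, _, _, α, f', h1, h2⟩ := Sc.pull (R := C.subgroupOf (W.comap f)) hs
        ((ρ.comp (W.comap f).subtype).codRestrict (W.comap g) fun a => (hg _ ▸ a.2 : g _ ∈ W))
        (fun ⟨e, he⟩ => by
          obtain ⟨s, rfl⟩ := mk_surj C e
          exact ⟨⟨s, (hg s ▸ he : f s ∈ W)⟩, rfl⟩) fun s hs => Subtype.ext (mk_one.2 hs)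
      refine ofQ _ Q hQ (ι.comp ((W.comap f).subtype.comp α)) (fun γ => ?_)
        (fun γ q hq => Subgroup.Normal.conj_mem inferInstance q hq _) f' h1 fun γ h => h2 γ
        fun q hq => (h q hq ?_).symm
      · change f (π (ι _)) ∈ W
        rw [p1]; exact (α γ).2
      · rw [Subgroup.mem_comap, MonoidHom.comp_apply, (p0 q).2 hq, map_one]; exact one_mem _
  · push Not at c3
    obtain ⟨v, v1, v2⟩ := c3
    obtain ⟨w, w1, w2⟩ := c2 dr
    have c4 := y_span W v2 v1 (by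
      rw [← w2]; exact y_conj w v ▸ mul_mem (mul_mem w1 v1) (inv_mem w1))
    have c5 : ∀ y, ∃ h : H, f (π h) = y := fun y => by
      obtain ⟨w, w1, w2⟩ := c2 y.right
      have := mul_mem (c4 (y * w⁻¹).left) w1
      rw [← y_ker (by rw [map_mul, map_inv, w2]; exact mul_inv_cancel _), inv_mul_cancel_right] at this
      obtain ⟨h, h1, h2⟩ := this
      exact ⟨⟨h, h1⟩, h2⟩
    have c6 : Surjective (π.comp H.subtype) := surj_of_frat _ fun s => by
      obtain ⟨h, e⟩ := c5 (f s)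
      exact ⟨h, (π h)⁻¹ * s, hk _ (by rw [map_mul, map_inv, e, inv_mul_cancel]), by simp⟩
    let C := Subgroup.centralizer (Q.subgroupOf H : Set H)
    let C1 := C ⊓ ((rightHom.comp f).comp (π.comp H.subtype)).ker
    let M := C1.map (π.comp H.subtype)
    have : M.Normal := Subgroup.Normal.map inferInstance _ c6
    have : (C.map (f.comp (π.comp H.subtype))).Normal := Subgroup.Normal.map inferInstance _ c5
    obtain ⟨ψ, h1, -, h2⟩ := cov f hf hk M (fun u => by
      by_contra hu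
      refine hm H hH (ofQ H Q hQ H.subtype (fun h => h.2) (fun γ q hq =>
        Subgroup.Normal.conj_mem inferInstance q hq _) (f.comp (π.comp H.subtype)) c5
        fun h hh => by_contra fun e => hu ?_)
      obtain ⟨c, h3, h4⟩ := y_min (C.map (f.comp (π.comp H.subtype)))
        ⟨h, fun q hq => Subtype.ext (hh q hq q.2).symm, rfl⟩ e u
      exact ⟨_, ⟨c, ⟨h3, (congrArg rightHom h4).trans (rightHom_inl u)⟩, rfl⟩, h4⟩)
      (by rintro _ ⟨c, hc, rfl⟩; exact hc.2)
    have : Group.IsNilpotent C1 := nil_cent C1 (π.comp H.subtype) (rightHom.comp f).ker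
      (fun a ha => ha.2) fun a _ e b hb => (hb.1 a ((p0 _).1 e)).symm
    have : Group.IsNilpotent (Q.subgroupOf H) := nil_map _ H.subtype H.subtype_injective Q fun _ h => h
    refine nl_ext ((QuotientGroup.mk' M).comp (π.comp H.subtype))
      (nil_prod (Q.subgroupOf H) C1 _ (fun x hx z hz => hz.1 x hx) fun k hk => ?_)
      (nl_frat ψ h1 h2 d_nl)
    obtain ⟨c, h3, h4⟩ := mk_one.1 hk
    exact ⟨k * c⁻¹, (p0 _).1 (by
      change π.comp H.subtype _ = 1
      rw [map_mul, map_inv, h4, mul_inv_cancel]), c, h3, by simp⟩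

abbrev C7 := Multiplicative (ZMod 7)
abbrev G1 := (G0 → C7) ⋊[tw MulAction.toEndHom 1] G0

instance : Group.IsSolvable (DihedralGroup 3) :=
  haveI : IsZGroup (DihedralGroup 3) := IsZGroup.of_squarefree (by
    rw [DihedralGroup.nat_card]; decide +kernel)
  inferInstance

instance : Group.IsSolvable G0 := solvable_of_ker_le_range inl rightHom range_inl_eq_ker_rightHom.ge
instance : Group.IsSolvable G1 := solvable_of_ker_le_range inl rightHom range_inl_eq_ker_rightHom.ge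

theorem g1_pe (q : G1) (h : rightHom q = 1) : pe 7 q := by
  rw [show q = inl q.left from SemidirectProduct.ext rfl h]
  exact (pe_pi fun _ => ⟨1, (by decide : ∀ c : C7, c ^ 7 ^ 1 = 1) _⟩).map _

theorem g1_ff (K : Subgroup G0) (n : ℕ) (h : ∀ g ∈ K, g ^ n = 1) (y : Y) (hy : y ^ n ≠ 1) :
    FF (K.comap (rightHom : G1 →* G0)) := by
  refine ⟨inferInstance, inferInstance, ?_⟩
  rintro ⟨Γ, _, _, α, f, hf, h1⟩
  obtain ⟨γ, rfl⟩ := hf y
  refine hy ((map_pow f γ n).symm.trans (h1 _ (le_rd (N := (rightHom.comp (Subgroup.subtype _)).ker)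
    inferInstance (mc_pe (by norm_num) fun g hg => pe_inj _ (Subgroup.subtype_injective _)
      (g1_pe _ hg)) ?_)))
  rw [MonoidHom.mem_ker, map_pow, map_pow]
  exact h _ (α γ).2

theorem not_rad : ∃ M N : Subgroup G1, M.Normal ∧ N.Normal ∧ FF M ∧ FF N ∧ ¬ FF ↥(M ⊔ N) := by
  let A0 := ((MonoidHom.snd _ _).comp (rightHom : G0 →* L)).ker
  let B0 := ((MonoidHom.fst _ _).comp (rightHom : G0 →* L)).ker
  refine ⟨A0.comap rightHom, B0.comap rightHom, inferInstance, inferInstance,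
    g1_ff _ 30 (fun ⟨u, l⟩ => (by decide +kernel : ∀ u l, l.2 = 1 → (⟨u, l⟩ : G0) ^ 30 = 1) u l)
      (inr dt) (by decide +kernel),
    g1_ff _ 20 (fun ⟨u, l⟩ => (by decide +kernel : ∀ u l, l.1 = 1 → (⟨u, l⟩ : G0) ^ 20 = 1) u l)
      (inr dr) (by decide +kernel), fun h => h.2.2 ?_⟩
  refine ofQ _ rightHom.ker g1_pe (inr.comp jj) (fun y => ?_) (fun γ q hq =>
    Subgroup.Normal.conj_mem inferInstance q hq _) (MonoidHom.id Y) surjective_id fun y h => ?_
  · have : jj y = ⟨(jj y).left, ((jj y).right.1, 1)⟩ * ⟨1, (1, (jj y).right.2)⟩ := by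
      ext <;> simp
    rw [MonoidHom.comp_apply, this, map_mul]
    exact Subgroup.mul_mem_sup (show _ = _ from rfl) (show _ = _ from rfl)
  · refine jj_inj y (reg_inj (C := C7) (z := Multiplicative.ofAdd 1) (by decide) fun v => ?_)
    have := congrArg SemidirectProduct.left (h (inl v) (rightHom_inl v)
      (Subgroup.mem_sup_left (show _ = _ from rfl))).eq
    simpa using this

end Pool.Agent.H68.Nl
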