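import Pool.Agent.H68.Sat2

set_option autoImplicit false

namespace Pool.Agent.H68.Og

open Function Pool.Agent.H68.Fit Pool.Agent.H68.Sat

def OS {G : Type} {k l : ℕ} (a : Fin k → G) (b : Fin l → G) : Prop :=
  ∃ t : Fin l → Fin k, a ∘ t = b ∧ ∀ i, ∃ j, t j = i ∧ ∀ j' < j, t j' < i

abbrev YY (G : Type) := G × Σ k, Fin k → G

def Le {G : Type} (x y : YY G) : Prop := x.1 = y.1 ∧ OS x.2.2 y.2.2

def seen {G : Type} {k : ℕ} (a : Fin k → G) (i : ℕ) : Set G := {x | ∃ j : Fin k, j.1 < i ∧ a j = x}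

def enc {G : Type} (x : YY G) : List (G × Set G × Bool) :=
  List.ofFn fun i : Fin (x.2.1 + 1) =>
    if h : i.1 < x.2.1 then (x.2.2 ⟨i, h⟩, seen x.2.2 i, true) else (x.1, seen x.2.2 x.2.1, false)

theorem wqo {G : Type} [Finite G] (f : ℕ → YY G) : ∃ m n, m < n ∧ Le (f m) (f n) := by
  obtain ⟨m, n, h, e⟩ := ((Set.finite_univ.partiallyWellOrderedOn (r := Eq)).partiallyWellOrderedOn_sublistForall₂
    Eq).exists_lt (f := fun n => enc (f n)) fun _ _ _ => trivial
  refine ⟨m, n, h, ?_⟩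
  obtain ⟨_, e1, e⟩ := List.sublistForall₂_iff.1 e
  rw [List.forall₂_eq_eq_eq] at e1
  subst e1
  obtain ⟨g, hg⟩ := List.sublist_iff_exists_orderEmbedding_getElem?_eq.1 e
  generalize f m = x at hg
  generalize f n = y at hg
  obtain ⟨γ, k, a⟩ := x
  obtain ⟨δ, l, b⟩ := y
  simp only [enc, List.getElem?_ofFn] at hg
  have h1 : ∀ i : Fin k, ∃ h : g i < l, b ⟨_, h⟩ = a i ∧ seen b (g i) = seen a i := fun i => by
    have := hg i
    rw [dif_pos (by omega), dif_pos i.2] at this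
    split_ifs at this with c d
    · simp only [Option.some.injEq, Prod.mk.injEq] at this
      exact ⟨d, this.1.symm, this.2.1.symm⟩
    · simp at this
  have h2 : γ = δ ∧ seen a k = seen b l := by
    have := hg k
    rw [dif_pos (by omega), dif_neg (lt_irrefl _)] at this
    split_ifs at this with c d <;> simp at this
    exact this
  have h3 : ∀ j : Fin l, ∃ i, a i = b j ∧ (∀ i' : Fin k, g i' = j → i = i') ∧
      ∀ i' : Fin k, j < g i' → i < i' := fun j => by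
    by_cases c : ∃ i : Fin k, g i = j
    · obtain ⟨i, c⟩ := c
      obtain ⟨d, e, -⟩ := h1 i
      exact ⟨i, e.symm.trans (congrArg b (Fin.ext c)), fun i' e => Fin.ext (g.injective (c.trans e.symm)),
        fun i' e => g.lt_iff_lt.1 (c.trans_lt e)⟩
    obtain ⟨i, hi, hm⟩ := wellFounded_lt.has_min {i | a i = b j} (by
      obtain ⟨i, -, e⟩ := h2.2.ge ⟨j, j.2, rfl⟩
      exact ⟨i, e⟩)
    refine ⟨i, hi, fun i' e => absurd ⟨i', e⟩ c, fun i' e => ?_⟩
    obtain ⟨_, -, e'⟩ := h1 i'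
    obtain ⟨i'', e1, e2⟩ := e'.le ⟨j, e, rfl⟩
    exact (not_lt.1 (hm i'' e2)).trans_lt e1
  choose t t1 t2 t3 using h3
  exact ⟨h2.1, t, funext t1, fun i => ⟨⟨_, (h1 i).1⟩, t2 _ i rfl, fun j' e => t3 j' i e⟩⟩

theorem acc (G : Type) [Finite G] : WellFounded fun U' U : Set (YY G) =>
    (∀ x ∈ U', ∀ y, Le x y → y ∈ U') ∧ U ⊂ U' := by
  refine wellFounded_iff_isEmpty_descending_chain.2 ⟨fun ⟨f, hf⟩ => ?_⟩
  choose x h1 h2 using fun n => Set.exists_of_ssubset (hf n).2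
  obtain ⟨m, n, h, e⟩ := wqo x
  exact h2 n (monotone_nat_of_le_succ (fun n => (hf n).2.le) h ((hf m).1 _ (h1 m) _ e))

def Fk {P X G : Type} [Group P] [Group G] [LT X] (ι : P →* (X → G)) (V : Subgroup P) (a : X) (γ : G) :
    Prop := ∃ f ∈ V, ι f a = γ ∧ ∀ c < a, ι f c = 1

theorem fk_le {P X G : Type} [Group P] [Group G] [LinearOrder X] [Finite X] {ι : P →* (X → G)}
    (hι : Injective ι) {V W : Subgroup P} (h : W ≤ V) (hf : ∀ a γ, Fk ι V a γ → Fk ι W a γ) :
    V ≤ W := by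
  have k : ∀ f, (∀ a, (∀ c < a, ι f c = 1) → ι f a ≠ 1 → f ∈ W) → f ∈ W := fun f h => by
    by_cases e : ∃ c, ι f c ≠ 1
    · obtain ⟨a, h1, h2⟩ := wellFounded_lt.has_min {c | ι f c ≠ 1} e
      exact h a (fun c b => by_contra fun d => h2 c d b) h1
    · push Not at e
      rw [hι ((funext e).trans (map_one ι).symm)]; exact one_mem _
  have key : ∀ a, ∀ f ∈ V, (∀ c < a, ι f c = 1) → f ∈ W := fun a => by
    induction a using WellFoundedGT.induction with
    | _ a ih =>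
    intro f h1 h2
    obtain ⟨g, h3, h4, h5⟩ := hf a _ ⟨f, h1, rfl, h2⟩
    rw [← inv_mul_cancel_right f g]
    refine mul_mem (k _ fun b h6 h7 => ih b (lt_of_not_ge fun e => h7 ?_) _
      (mul_mem h1 (inv_mem (h h3))) h6) h3
    rcases e.eq_or_lt with rfl | e
    · simp [h4]
    · simp [h2 b e, h5 b e]
  exact fun f a => k f fun b h _ => key b f a h

variable {F E : (G : Type) → [Group G] → Prop} {G A : Type} [Group G] [Group A]

def Fo (K : Type) [Group K] : (G : Type) → [Group G] → Prop := fun H _ => ∀ E, Fm E → E K → E H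

theorem fo_fo (K : Type) [Group K] [Finite K] : FO (Fo K) where
  fin := fun _ _ h => h (fun G _ => Finite G) ⟨fun _ _ h => h, fun _ _ _ _ ⟨e⟩ _ =>
    Finite.of_equiv _ e.toEquiv, fun _ _ _ _ _ => inferInstance, fun _ _ h _ _ _ _ _ _ _ => h⟩ ‹_›
  iso := fun _ _ _ _ e h E a b => a.iso _ _ e (h E a b)
  quo := fun _ _ N _ h E a b => a.quo _ N (h E a b)
  res := fun _ _ _ N L _ _ e h h' E a b => a.res _ N L e (h E a b) (h' E a b)
  one := fun _ a b => a.surj 1 (fun _ => ⟨1, rfl⟩) b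

def XG (G : Type) [Group G] (k : ℕ) := {a : Fin k → G // Surjective (FreeGroup.lift a)}

def Ph (G : Type) [Group G] (k : ℕ) : FreeGroup (Fin k) →* (XG G k → G) :=
  Pi.monoidHom fun a => FreeGroup.lift a.1

instance [Finite G] (k : ℕ) : Finite (XG G k) := Subtype.finite

noncomputable instance [LinearOrder G] (k : ℕ) : LinearOrder (XG G k) :=
  LinearOrder.lift' (fun a => toLex a.1) fun _ _ e => Subtype.ext e

theorem cover [Finite G] (h : Fo G A) : ∃ k, ∃ π : (Ph G k).range →* A, Surjective π := by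
  obtain ⟨-, D, _, _, π, h1, h2⟩ := h (fun A _ => Finite A ∧ ∃ (D : Type) (_ : Group D) (_ : Finite D)
    (π : D →* A), Surjective π ∧ ∀ d : D, (∀ f : D →* G, Surjective f → f d = 1) → d = 1) (by
    have s : ∀ (A B : Type) [Group A] [Group B] (f : A →* B), Surjective f → (Finite A ∧ ∃ (D : Type)
        (_ : Group D) (_ : Finite D) (π : D →* A), Surjective π ∧ ∀ d : D, (∀ f : D →* G,
        Surjective f → f d = 1) → d = 1) → Finite B ∧ ∃ (D : Type) (_ : Group D) (_ : Finite D)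
        (π : D →* B), Surjective π ∧ ∀ d : D, (∀ f : D →* G, Surjective f → f d = 1) → d = 1 :=
      fun _ _ _ _ f hf ⟨_, D, _, _, π, h1, h2⟩ =>
        ⟨Finite.of_surjective f hf, D, _, ‹_›, f.comp π, hf.comp h1, h2⟩
    refine ⟨fun _ _ h => h.1, fun _ _ _ _ ⟨e⟩ => s _ _ e.toMonoidHom e.surjective,
      fun _ _ N _ => s _ _ _ (mk_surj N), ?_⟩
    rintro A _ _ N L _ _ e ⟨-, D, _, _, π, h1, h2⟩ ⟨-, D', _, _, π', h1', h2'⟩
    let χ := (QuotientGroup.mk' L).comp (p2 π (QuotientGroup.mk' N))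
    have s1 : Surjective (p1 π (QuotientGroup.mk' N)) := fun d => by
      obtain ⟨a, ha⟩ := mk_surj N (π d)
      exact ((fp_ran _ _ d a).1 ha.symm).imp fun _ => And.left
    have s2 : Surjective (p2 π (QuotientGroup.mk' N)) := fun a => by
      obtain ⟨d, hd⟩ := h1 (QuotientGroup.mk' N a)
      exact ((fp_ran _ _ d a).1 hd).imp fun _ => And.right
    have s3 : Surjective (p1 χ π') := fun a => by
      obtain ⟨d, hd⟩ := h1' (χ a)
      exact ((fp_ran _ _ a d).1 hd.symm).imp fun _ => And.left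
    have s4 : Surjective (p2 χ π') := fun d => by
      obtain ⟨a, ha⟩ := (mk_surj L).comp s2 (π' d)
      exact ((fp_ran _ _ a d).1 ha).imp fun _ => And.right
    refine ⟨‹_›, FP χ π', _, inferInstance, (p2 _ _).comp (p1 _ _), s2.comp s3, fun d h => ?_⟩
    have a1 := h2 _ fun f hf => h (f.comp ((p1 _ _).comp (p1 χ π'))) (hf.comp (s1.comp s3))
    have a2 := h2' _ fun f hf => h (f.comp (p2 χ π')) (hf.comp s4)
    refine fp_inj _ _ d (fp_inj _ _ _ a1 (Subgroup.mem_bot.1 (e.le ⟨mk_one.1 ?_, mk_one.1 ?_⟩))) a2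
    · rw [← fp_rel, show p1 _ _ (p1 χ π' d) = 1 from a1, map_one]
    · exact (fp_rel χ π' d).trans (by rw [a2, map_one]))
    ⟨‹_›, G, _, ‹_›, MonoidHom.id G, surjective_id, fun d h => h (MonoidHom.id G) surjective_id⟩
  let e := Finite.equivFin D
  have s : Surjective (FreeGroup.lift e.symm) := fun d => ⟨.of (e d), by simp⟩
  obtain ⟨γ, hγ⟩ := exists_lift (Ph G _).rangeRestrict (MonoidHom.rangeRestrict_surjective _)
    (π.comp (FreeGroup.lift e.symm)) fun w hw => by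
      rw [MonoidHom.comp_apply, h2 (FreeGroup.lift e.symm w) fun f hf => ?_, map_one]
      have k : f.comp (FreeGroup.lift e.symm) = FreeGroup.lift (f ∘ e.symm) := by ext; simp
      exact (DFunLike.congr_fun k w).trans
        (congrFun (congrArg Subtype.val hw) ⟨_, k ▸ hf.comp s⟩)
  exact ⟨_, γ, fun a => by
    obtain ⟨w, rfl⟩ := (h1.comp s) a
    exact ⟨_, hγ w⟩⟩

def UU (G : Type) [Group G] [LinearOrder G] (F : (G : Type) → [Group G] → Prop) : Set (YY G) :=
  {x | ∀ h, ¬ Fk (Ph G _).range.subtype (Res F _) ⟨x.2.2, h⟩ x.1}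

theorem uu_up [LinearOrder G] [Finite G] (hF : FO F) : ∀ x ∈ UU G F, ∀ y, Le x y → y ∈ UU G F := by
  rintro ⟨γ, k, a⟩ h ⟨δ, l, b⟩ ⟨rfl, hab⟩ hb ⟨f, h1, h2, h3⟩
  obtain ⟨t, rfl, ht⟩ : OS a b := hab
  have e : ∀ c : Fin k → G, FreeGroup.lift (c ∘ t) = (FreeGroup.lift c).comp (FreeGroup.map t) :=
    fun c => by ext; simp
  have s := FreeGroup.map_surjective (f := t) fun i => (ht i).imp fun _ => And.left
  let T : XG G k → XG G l := fun c => ⟨c.1 ∘ t, e c.1 ▸ c.2.comp s⟩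
  have e' : ∀ w c, Ph G k (FreeGroup.map t w) c = Ph G l w (T c) := fun w c =>
    (DFunLike.congr_fun (e c.1) w).symm
  obtain ⟨τ, hτ⟩ := exists_lift (Ph G l).rangeRestrict (MonoidHom.rangeRestrict_surjective _)
    ((Ph G k).rangeRestrict.comp (FreeGroup.map t)) fun w hw => Subtype.ext (funext fun c =>
      (e' w c).trans (congrFun (congrArg Subtype.val hw) _))
  have h4 := hF.res_map τ (fun x => by
    obtain ⟨w, rfl⟩ := ((MonoidHom.rangeRestrict_surjective _).comp s) x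
    exact ⟨_, hτ w⟩) h1
  obtain ⟨w, rfl⟩ := (Ph G l).rangeRestrict_surjective f
  rw [hτ] at h4
  refine h (Surjective.of_comp (g := FreeGroup.map t) (show Surjective ((FreeGroup.lift a).comp _) from
    e a ▸ hb)) ⟨_, h4, (e' w _).trans h2, fun c hc => (e' w c).trans (h3 _ ?_)⟩
  obtain ⟨i, c1, c2⟩ := hc
  obtain ⟨j, rfl, c3⟩ := ht i
  exact ⟨j, fun j' b => c1 _ (c3 j' b), c2⟩

theorem res_anti [Finite A] (hE : FO E) (hF : Fm F) (h : ∀ (X : Type) [Group X], E X → F X) :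
    Res F A ≤ Res E A := fun _ a => mk_one.1 (hF.res_le _ (mk_surj _) (h _ hE.res_mem) a)

theorem main [Finite G] (hF : FO F) (h : ∀ (X : Type) [Group X], F X → Fo G X) :
    ∃ (K : Type) (_ : Group K), F K ∧ ∀ (X : Type) [Group X], F X → Fo K X := by
  let _ : LinearOrder G := LinearOrder.lift' _ (Finite.equivFin G).injective
  obtain ⟨_, ⟨K, _, hK, rfl⟩, hm⟩ := (acc G).has_min
    {U | ∃ (K : Type) (_ : Group K), F K ∧ U = UU G (Fo K)} ⟨_, Unit, _, hF.one, rfl⟩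
  refine ⟨K, _, hK, fun X _ hX => ?_⟩
  have := hF.fin _ hK
  have := hF.fin _ hX
  have h1 : F (K × X) := hF.toFm.sub (MonoidHom.fst _ _) (MonoidHom.snd _ _) Prod.fst_surjective
    Prod.snd_surjective (fun _ a b => Prod.ext a b) hK hX
  have h2 : ∀ k, Res (Fo (K × X)) (Ph G k).range ≤ Res (Fo K) _ := fun k =>
    res_anti (fo_fo K) (fo_fo _).toFm fun Y _ a E b c =>
      a E b (b.surj (MonoidHom.fst _ _) Prod.fst_surjective c)
  have h3 : UU G (Fo (K × X)) ⊆ UU G (Fo K) := by_contra fun c => hm _ ⟨_, _, h1, rfl⟩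
    ⟨uu_up (fo_fo _), fun x a b ⟨f, d, e⟩ => a b ⟨f, h2 _ d, e⟩, c⟩
  obtain ⟨k, π, hπ⟩ := cover (h X hX)
  refine (fo_fo K).of_ker π hπ fun g hg => (fo_fo (K × X)).toFm.res_le π hπ (fun E b c =>
    b.surj (MonoidHom.snd _ _) Prod.snd_surjective c) (fk_le (Subgroup.subtype_injective _) (h2 k)
      (fun a γ d => by_contra fun c => h3 (a := (γ, ⟨k, a.1⟩)) (fun _ => c) a.2 d) hg)

end Pool.Agent.H68.Og
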