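import Mathlib

set_option autoImplicit false

namespace Pool.Agent.H68.Pf

open Equiv Polynomial

theorem std_zero {R E κ : Type*} [CommRing R] [Ring E] [Algebra R E] [Fintype κ]
    (b : Module.Basis κ R E) {D : ℕ} (hD : Fintype.card κ < D) (x : Fin D → E) :
    ∑ σ : Perm (Fin D), Perm.sign σ • (List.ofFn (fun i => x (σ i))).prod = 0 := by
  have h : MultilinearMap.alternatization (MultilinearMap.mkPiAlgebraFin R D E) = 0 := by
    refine b.ext_alternating fun v hv => ?_
    have := Fintype.card_le_of_injective v hv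
    simp at this
    omega
  have h2 := congrArg (fun f => f x) h
  simpa [MultilinearMap.alternatization_apply] using h2

theorem nil_comm {R C : Type*} [CommRing R] [CommRing C] [Algebra R C] (χ : R[X]) (hχ : χ.Monic)
    (z g : C) (h : ∀ k : ℕ, aeval (z ^ k * g) χ = 0) :
    IsNilpotent ((z ^ (χ.natDegree).factorial - 1) * (z ^ χ.natDegree * g)) := by
  classical
  rw [nilpotent_iff_mem_prime]
  intro P hP
  set n := χ.natDegree
  let π := Ideal.Quotient.mkₐ R P
  have hm : (χ.map (algebraMap R (C ⧸ P))).Monic := hχ.map _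
  have hr : ∀ k : ℕ, π (z ^ k * g) ∈ (χ.map (algebraMap R (C ⧸ P))).roots.toFinset := by
    intro k
    rw [Multiset.mem_toFinset, mem_roots hm.ne_zero, IsRoot, eval_map_algebraMap,
      aeval_algHom_apply, h k, map_zero]
  have hc : (χ.map (algebraMap R (C ⧸ P))).roots.toFinset.card < (Finset.range (n + 1)).card := by
    have h1 := Multiset.toFinset_card_le (χ.map (algebraMap R (C ⧸ P))).roots
    have h2 := card_roots' (χ.map (algebraMap R (C ⧸ P)))
    have h3 : (χ.map (algebraMap R (C ⧸ P))).natDegree ≤ n := natDegree_map_le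
    simp only [Finset.card_range]; omega
  have key : ∀ i j, i < j → j ≤ n → π (z ^ i * g) = π (z ^ j * g) →
      (z ^ n.factorial - 1) * (z ^ n * g) ∈ P := by
    intro i j hij hj e
    have e1 : z ^ i * g - z ^ j * g ∈ P := Ideal.Quotient.eq.1 e
    obtain ⟨q, hq⟩ : (j - i) ∣ n.factorial := Nat.dvd_factorial (by omega) (by omega)
    obtain ⟨w, hw⟩ := sub_one_dvd_pow_sub_one (z ^ (j - i)) q
    have : (z ^ n.factorial - 1) * (z ^ n * g) = (-(w * z ^ (n - i))) * (z ^ i * g - z ^ j * g) := by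
      have a1 : z ^ n = z ^ (n - i) * z ^ i := by rw [← pow_add]; congr 1; omega
      have a2 : z ^ j = z ^ (j - i) * z ^ i := by rw [← pow_add]; congr 1; omega
      rw [hq, pow_mul, hw, a1, a2]; ring
    rw [this]; exact P.mul_mem_left _ e1
  obtain ⟨i, hi, j, hj, hne, e⟩ := Finset.exists_ne_map_eq_of_card_lt_of_maps_to hc
    (f := fun k => π (z ^ k * g)) (fun k _ => hr k)
  simp only [Finset.mem_range] at hi hj
  rcases lt_or_gt_of_ne hne with a | a
  · exact key i j a (by omega) e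
  · exact key j i a (by omega) e.symm

section
variable {M Λ : Type*} [AddCommGroup M] [Ring Λ] (ι : M → Λ) (h0 : ι 0 = 1)
  (ha : ∀ u v, ι (u + v) = ι u * ι v)
include ha

theorem i_comm (u v : M) : Commute (ι u) (ι v) := by
  rw [Commute, SemiconjBy, ← ha, ← ha, add_comm]

include h0
theorem i_nsmul (u : M) (k : ℕ) : ι (k • u) = ι u ^ k := by
  induction k with
  | zero => simpa using h0
  | succ k ih => rw [succ_nsmul, ha, ih, pow_succ]

open scoped IsMulCommutative in
theorem unip {R : Type*} [CommRing R] [Algebra R Λ] [Module.Finite R Λ] (c : Λ →ₐ[R] Λ) (u t : M)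
    (h1 : c (ι u) = ι (u + t)) (h2 : c (ι t) = ι t) :
    ∃ m : ℕ, 0 < m ∧ IsNilpotent (ι (m • t) - 1) := by
  obtain ⟨χ, hχ, hz⟩ : IsIntegral R (ι u) := Algebra.IsIntegral.isIntegral _
  have hk : ∀ k : ℕ, aeval (ι t ^ k * ι u) χ = 0 := by
    intro k
    induction k with
    | zero => simpa [aeval_def] using hz
    | succ k ih =>
      have : ι t ^ (k + 1) * ι u = c (ι t ^ k * ι u) := by
        rw [map_mul, map_pow, h1, h2, add_comm u, ha, pow_succ, mul_assoc]
      rw [this, aeval_algHom_apply, ih, map_zero]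
  let C := Algebra.adjoin R (Set.range ι)
  have hC : IsMulCommutative C := Algebra.isMulCommutative_adjoin R (by
    rintro _ ⟨a, rfl⟩ _ ⟨b, rfl⟩; exact i_comm ι ha a b)
  let z : C := ⟨ι t, Algebra.subset_adjoin ⟨t, rfl⟩⟩
  let g : C := ⟨ι u, Algebra.subset_adjoin ⟨u, rfl⟩⟩
  have hn := nil_comm (C := C) χ hχ z g (fun k => by
    apply Subtype.ext
    have := aeval_algHom_apply C.val (z ^ k * g) χ
    exact this.symm.trans (hk k))
  have hn2 := hn.map C.val
  set n := χ.natDegree
  refine ⟨n.factorial, Nat.factorial_pos _, ?_⟩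
  have e : C.val ((z ^ n.factorial - 1) * (z ^ n * g)) =
      (ι (n.factorial • t) - 1) * ι (n • t + u) := by
    rw [ha, i_nsmul ι h0 ha, i_nsmul ι h0 ha]; simp [z, g]
  rw [e] at hn2
  have e2 : ι (n.factorial • t) - 1 =
      (ι (n.factorial • t) - 1) * ι (n • t + u) * ι (-(n • t + u)) := by
    rw [mul_assoc, ← ha, add_neg_cancel, h0, mul_one]
  rw [e2]
  refine Commute.isNilpotent_mul_right ?_ hn2
  exact ((i_comm ι ha _ _).sub_left (Commute.one_left _)).mul_left (i_comm ι ha _ _)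

theorem core {S : Type*} [CommRing S] [Algebra S Λ] {D : ℕ} (inj : ∀ u, ι u = 1 → u = 0)
    (U : AddSubgroup M) (T : Fin D → M → M) (c : Fin D → Λ →ₐ[S] Λ)
    (hT : ∀ i u, ι (u + T i u) = c i (ι u)) (hU : ∀ i, ∀ u ∈ U, T i u ∈ U)
    (hV : IsNilpotent (Submodule.span S ((fun u => ι u - 1) '' U)))
    (PI : ∀ s : Λ, ∑ σ : Perm (Fin D),
      Perm.sign σ • (List.ofFn σ).foldr (fun i s => c i s - s) s = 0) :
    ∃ N : ℕ, ∀ u ∈ U, (fun u => ∑ σ : Perm (Fin D),
      Perm.sign σ • (List.ofFn σ).foldr T u)^[N] u = 0 := by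
  set V := Submodule.span S ((fun u => ι u - 1) '' U) with hVd
  have mV : ∀ u ∈ U, ι u - 1 ∈ V := fun u hu => Submodule.subset_span ⟨u, hu, rfl⟩
  have e1 : ∀ u v, ι (u + v) - 1 = (ι u - 1) * (ι v - 1) + (ι u - 1) + (ι v - 1) := by
    intro u v; rw [ha]; noncomm_ring
  have VV : V * V ≤ V := by
    rw [hVd, Submodule.span_mul_span, Submodule.span_le]
    rintro _ ⟨_, ⟨u, hu, rfl⟩, _, ⟨v, hv, rfl⟩, rfl⟩
    have : (ι u - 1) * (ι v - 1) = (ι (u + v) - 1) - (ι u - 1) - (ι v - 1) := by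
      rw [e1]; abel
    simp only [this]
    exact V.sub_mem (V.sub_mem (mV _ (U.add_mem hu hv)) (mV _ hu)) (mV _ hv)
  have Vd : ∀ j, V ^ (j + 2) ≤ V ^ (j + 1) := by
    intro j
    rw [pow_succ, pow_succ, mul_assoc]
    exact mul_le_mul_right VV _
  have cV : ∀ i, V.map (c i).toLinearMap ≤ V := by
    intro i
    rw [hVd, Submodule.map_span, Submodule.span_le]
    rintro _ ⟨_, ⟨u, hu, rfl⟩, rfl⟩
    have : (c i).toLinearMap (ι u - 1) = ι (u + T i u) - 1 := by simp [hT]
    rw [this]; exact mV _ (U.add_mem hu (hU i u hu))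
  have cP : ∀ i k s, s ∈ V ^ k → c i s ∈ V ^ k := by
    intro i k s hs
    have : (V ^ k).map (c i).toLinearMap ≤ V ^ k := by
      rw [Submodule.map_pow]; exact pow_le_pow_left' (cV i) k
    exact this ⟨s, hs, rfl⟩
  have mm : ∀ j u v, ι u - 1 ∈ V ^ (j + 1) → v ∈ U → (ι u - 1) * (ι v - 1) ∈ V ^ (j + 2) := by
    intro j u v hu hv
    rw [pow_succ]; exact Submodule.mul_mem_mul hu (mV v hv)
  let W : ℕ → AddSubgroup (M × Λ) := fun j =>
    { carrier := {p | p.1 ∈ U ∧ ι p.1 - 1 ∈ V ^ (j + 1) ∧ ι p.1 - 1 - p.2 ∈ V ^ (j + 2)}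
      zero_mem' := by simp [h0]
      add_mem' := by
        rintro ⟨u, s⟩ ⟨v, r⟩ ⟨a1, a2, a3⟩ ⟨b1, b2, b3⟩
        refine ⟨U.add_mem a1 b1, ?_, ?_⟩
        · simp only [Prod.fst_add, e1]
          exact add_mem (add_mem (Vd j (mm j u v a2 b1)) a2) b2
        · have : ι (u + v) - 1 - (s + r) =
              (ι u - 1) * (ι v - 1) + (ι u - 1 - s) + (ι v - 1 - r) := by rw [e1]; abel
          simp only [Prod.fst_add, Prod.snd_add, this]
          exact add_mem (add_mem (mm j u v a2 b1) a3) b3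
      neg_mem' := by
        rintro ⟨u, s⟩ ⟨a1, a2, a3⟩
        have e := e1 u (-u)
        rw [add_neg_cancel, h0, sub_self] at e
        have e' : ι (-u) - 1 = -((ι u - 1) * (ι (-u) - 1)) - (ι u - 1) := by
          rw [eq_sub_iff_add_eq, eq_neg_iff_add_eq_zero, e]; abel
        have m1 := mm j u (-u) a2 (U.neg_mem a1)
        refine ⟨U.neg_mem a1, ?_, ?_⟩
        · simp only [Prod.fst_neg]
          rw [e']; exact sub_mem (neg_mem (Vd j m1)) a2
        · have : ι (-u) - 1 - (-s) = -((ι u - 1) * (ι (-u) - 1)) - (ι u - 1 - s) := by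
            conv_lhs => rw [e']
            abel
          simp only [Prod.fst_neg, Prod.snd_neg, this]
          exact sub_mem (neg_mem m1) a3 }
  have w1 : ∀ j i u s, (u, s) ∈ W j → (T i u, c i s - s) ∈ W j := by
    rintro j i u s h
    have h' : (u + T i u, c i s) ∈ W j := by
      obtain ⟨a1, a2, a3⟩ := h
      refine ⟨U.add_mem a1 (hU i u a1), ?_, ?_⟩
      · have := cP i _ _ a2
        simpa [hT] using this
      · have := cP i _ _ a3
        simpa [hT] using this
    simpa using (W j).sub_mem h' h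
  have w2 : ∀ j (l : List (Fin D)) u s, (u, s) ∈ W j →
      (l.foldr T u, l.foldr (fun i s => c i s - s) s) ∈ W j := by
    intro j l u s h
    induction l with
    | nil => exact h
    | cons i l ih => exact w1 j i _ _ ih
  set f : M → M := fun u => ∑ σ : Perm (Fin D), Perm.sign σ • (List.ofFn σ).foldr T u
  have w3 : ∀ j u, u ∈ U → ι u - 1 ∈ V ^ (j + 1) → f u ∈ U ∧ ι (f u) - 1 ∈ V ^ (j + 2) := by
    intro j u hu h
    have h1 : (u, ι u - 1) ∈ W j := ⟨hu, h, by simp⟩
    have h2 : ∑ σ : Perm (Fin D), Perm.sign σ • (((List.ofFn σ).foldr T u,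
        (List.ofFn σ).foldr (fun i s => c i s - s) (ι u - 1)) : M × Λ) ∈ W j :=
      sum_mem fun σ _ => by
        rw [Units.smul_def]; exact zsmul_mem (w2 j _ _ _ h1) _
    obtain ⟨a1, -, a3⟩ := h2
    simp only [Prod.fst_sum, Prod.snd_sum, Prod.smul_fst, Prod.smul_snd, PI, sub_zero] at a1 a3
    exact ⟨a1, a3⟩
  obtain ⟨N, hN⟩ := hV
  have w4 : ∀ j u, u ∈ U → f^[j] u ∈ U ∧ ι (f^[j] u) - 1 ∈ V ^ (j + 1) := by
    intro j u hu
    induction j with
    | zero => exact ⟨hu, by simpa using mV u hu⟩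
    | succ j ih => rw [Function.iterate_succ_apply']; exact w3 j _ ih.1 ih.2
  refine ⟨N, fun u hu => inj _ ?_⟩
  have := (w4 N u hu).2
  rw [pow_succ, hN, zero_mul] at this
  exact sub_eq_zero.1 (by simpa using this)

omit h0 in
theorem nilV {S : Type*} [CommRing S] [Algebra S Λ] (U : Set M)
    (hn : ∀ u ∈ U, IsNilpotent (ι u - 1))
    (hf : (Submodule.span S ((fun u => ι u - 1) '' U)).FG) :
    IsNilpotent (Submodule.span S ((fun u => ι u - 1) '' U)) := by
  classical
  obtain ⟨s, hs, e⟩ := (Submodule.fg_span_iff_fg_span_finset_subset _).1 hf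
  rw [e]
  have : Submodule.span S (s : Set Λ) = ∑ a ∈ s, Submodule.span S {a} := by
    clear hs e
    induction s using Finset.induction_on with
    | empty => simp
    | insert a s h ih =>
      rw [Finset.sum_insert h, ← ih, Finset.coe_insert, Submodule.span_insert,
        Submodule.add_eq_sup]
  rw [this]
  refine Commute.isNilpotent_sum ?_ ?_
  · intro a ha'
    obtain ⟨u, hu, rfl⟩ := hs ha'
    obtain ⟨k, hk⟩ := hn u hu
    refine ⟨k, ?_⟩
    rw [Submodule.span_pow, Set.singleton_pow, hk]; simp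
  · intro a b ha' hb'
    obtain ⟨u, hu, rfl⟩ := hs ha'
    obtain ⟨v, hv, rfl⟩ := hs hb'
    have hc : Commute (ι u - 1) (ι v - 1) :=
      ((i_comm ι ha u v).sub_right (Commute.one_right _)).sub_left (Commute.one_left _)
    rw [Commute, SemiconjBy, Submodule.span_mul_span, Submodule.span_mul_span,
      Set.singleton_mul_singleton, Set.singleton_mul_singleton, hc.eq]

end

end Pool.Agent.H68.Pf
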