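import Pool.Agent.H68.Pf1

set_option autoImplicit false

namespace Pool.Agent.H68.Pf

open Equiv Finsupp

abbrev M := List ℕ →₀ ℤ
abbrev F := FreeGroup ℕ

noncomputable def T (x : ℕ) : Module.End ℤ M :=
  linearCombination ℤ (fun w => if w.head? = some x then 0 else single (x :: w) 1)

theorem T_single (x : ℕ) (w : List ℕ) (a : ℤ) :
    T x (single w a) = if w.head? = some x then 0 else single (x :: w) a := by
  simp only [T, linearCombination_single]; split_ifs <;> simp

theorem T_nil (x : ℕ) (u : M) : T x u [] = 0 := by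
  induction u using Finsupp.induction_linear with
  | zero => simp
  | add a b ha hb => simp [ha, hb]
  | single w a => rw [T_single]; split_ifs <;> simp

theorem T_cons (x y : ℕ) (w : List ℕ) (u : M) :
    T x u (y :: w) = if y = x ∧ w.head? ≠ some x then u w else 0 := by
  induction u using Finsupp.induction_linear with
  | zero => simp
  | add a b ha hb => simp only [map_add, Finsupp.add_apply, ha, hb]; split_ifs <;> simp
  | single v a =>
    rw [T_single]
    by_cases h : v = w
    · subst h
      by_cases h1 : v.head? = some x <;> by_cases h2 : y = x <;> simp [h1, h2, single_apply, Ne.symm]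
    · by_cases h1 : v.head? = some x <;> simp [h1, single_apply, h]

theorem T_head (x : ℕ) (u : M) (w : List ℕ) (h : w.head? ≠ some x) : T x u w = 0 := by
  cases w with
  | nil => exact T_nil _ _
  | cons y w => rw [T_cons, if_neg]; rintro ⟨rfl, -⟩; exact h rfl

theorem T_T (x : ℕ) (u : M) : T x (T x u) = 0 := by
  ext w
  cases w with
  | nil => exact T_nil _ _
  | cons y w =>
    rw [T_cons]; split_ifs with h
    · exact T_head _ _ _ h.2
    · rfl

theorem T_sq (x : ℕ) : T x * T x = 0 := LinearMap.ext fun u => T_T x u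

noncomputable def A (x : ℕ) : (Module.End ℤ M)ˣ :=
  ⟨1 + T x, 1 - T x, by rw [add_mul, mul_sub, mul_sub, T_sq]; simp,
    by rw [sub_mul, mul_add, mul_add, T_sq]; simp⟩

noncomputable def ρ : F →* Module.End ℤ M := (Units.coeHom _).comp (FreeGroup.lift A)

theorem ρ_of (x : ℕ) (u : M) : ρ (FreeGroup.of x) u = u + T x u := by simp [ρ, A]

theorem ρ_inv (x : ℕ) (u : M) : ρ (FreeGroup.of x)⁻¹ u = u - T x u := by
  have : ρ (FreeGroup.of x)⁻¹ = 1 - T x := by
    simp only [ρ, MonoidHom.comp_apply, map_inv, FreeGroup.lift_apply_of]; rfl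
  simp [this]

theorem ρ_mul (f g : F) (u : M) : ρ (f * g) u = ρ f (ρ g u) := by simp

theorem ρ_mk (x : ℕ) (b : Bool) (L : List (ℕ × Bool)) (u : M) :
    ρ (FreeGroup.mk ((x, b) :: L)) u =
      ρ (FreeGroup.mk L) u + (if b then 1 else -1 : ℤ) • T x (ρ (FreeGroup.mk L) u) := by
  have : FreeGroup.mk ((x, b) :: L) = FreeGroup.mk [(x, b)] * FreeGroup.mk L := by
    rw [FreeGroup.mul_mk]; rfl
  rw [this, ρ_mul]
  cases b
  · have : FreeGroup.mk [(x, false)] = (FreeGroup.of x)⁻¹ := rfl
    rw [this, ρ_inv]; simp [sub_eq_add_neg]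
  · have : FreeGroup.mk [(x, true)] = FreeGroup.of x := rfl
    rw [this, ρ_of]; simp

def Top (u : M) (c : List ℕ) : Prop := u c ≠ 0 ∧ ∀ w : List ℕ, c.length ≤ w.length → w ≠ c → u w = 0

theorem Top.step {u : M} {c : List ℕ} (h : Top u c) {x : ℕ} (hx : c.head? ≠ some x) {e : ℤ}
    (he : e ≠ 0) : Top (u + e • T x u) (x :: c) := by
  constructor
  · have e1 := h.2 (x :: c) (by simp) (by simp)
    simp only [Finsupp.add_apply, Finsupp.smul_apply, T_cons, e1]
    simpa [hx, he] using h.1
  · intro w hw hne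
    cases w with
    | nil => simp at hw
    | cons a w =>
      simp only [List.length_cons] at hw
      have e1 := h.2 (a :: w) (by simp; omega) (by rintro rfl; simp at hw)
      simp only [Finsupp.add_apply, Finsupp.smul_apply, T_cons, e1]
      split_ifs with h5
      · rw [h.2 w (by omega) (by rintro rfl; exact hne (by rw [h5.1]))]; simp
      · simp

theorem faith_aux (L' : List (ℕ × Bool)) : ∀ (x : ℕ) (b : Bool),
    FreeGroup.IsReduced ((x, b) :: L') → ∃ (c : List ℕ) (v : M) (k : ℤ), c.head? ≠ some x ∧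
      Top v c ∧ 0 < k ∧ ρ (FreeGroup.mk ((x, b) :: L')) (single [] 1) =
        v + ((if b then 1 else -1) * k) • T x v := by
  induction L' with
  | nil =>
    intro x b _
    have h1 : ρ (FreeGroup.mk ([] : List (ℕ × Bool))) (single [] 1) = single [] 1 := by
      rw [← FreeGroup.one_eq_mk]; simp
    refine ⟨[], single [] 1, 1, by simp, ⟨by simp, fun w _ hw => ?_⟩, one_pos, ?_⟩
    · exact single_eq_of_ne hw
    · rw [ρ_mk, h1, mul_one]
  | cons p L' ih =>
    intro x b hL
    obtain ⟨y, d⟩ := p
    have hr := FreeGroup.isReduced_cons_cons.1 hL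
    obtain ⟨c, v, k, h1, h2, hk, h4⟩ := ih y d hr.2
    rw [ρ_mk, h4]
    by_cases hxy : x = y
    · subst hxy
      have hd : b = d := hr.1 rfl
      subst hd
      refine ⟨c, v, k + 1, h1, h2, by omega, ?_⟩
      rw [map_add, map_smul, T_T, smul_zero, add_zero, mul_add, add_smul, mul_one, add_assoc]
    · refine ⟨y :: c, _, 1, by simpa using fun h => hxy h.symm, h2.step h1 (e := _) ?_, one_pos,
        by rw [mul_one]⟩
      refine mul_ne_zero ?_ hk.ne'
      split_ifs <;> simp

theorem faith (f : F) (h : ρ f (single [] 1) = single [] 1) : f = 1 := by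
  have e : FreeGroup.mk f.toWord = f := FreeGroup.mk_toWord
  have hr : FreeGroup.IsReduced f.toWord := FreeGroup.isReduced_toWord
  cases hw : f.toWord with
  | nil => exact FreeGroup.toWord_eq_nil_iff.1 hw
  | cons p L =>
    obtain ⟨x, b⟩ := p
    rw [hw] at e hr
    obtain ⟨c, v, k, h1, h2, hk, h4⟩ := faith_aux L x b hr
    have := (h2.step h1 (e := (if b then 1 else -1) * k)
      (mul_ne_zero (by split_ifs <;> simp) hk.ne')).1
    rw [← h4, e, h] at this
    simp at this

@[ext] structure G where
  l : M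
  r : F

noncomputable instance : Mul G := ⟨fun a b => ⟨a.l + ρ a.r b.l, a.r * b.r⟩⟩
noncomputable instance : One G := ⟨⟨0, 1⟩⟩
noncomputable instance : Inv G := ⟨fun a => ⟨-ρ a.r⁻¹ a.l, a.r⁻¹⟩⟩

@[simp] theorem mul_l (a b : G) : (a * b).l = a.l + ρ a.r b.l := rfl
@[simp] theorem mul_r (a b : G) : (a * b).r = a.r * b.r := rfl
@[simp] theorem one_l : (1 : G).l = 0 := rfl
@[simp] theorem one_r : (1 : G).r = 1 := rfl
@[simp] theorem inv_l (a : G) : (a⁻¹).l = -ρ a.r⁻¹ a.l := rfl
@[simp] theorem inv_r (a : G) : (a⁻¹).r = a.r⁻¹ := rfl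

noncomputable instance : Group G := Group.ofLeftAxioms
  (fun a b c => by ext1 <;> simp [add_assoc, mul_assoc])
  (fun a => by ext1 <;> simp)
  (fun a => by ext1 <;> simp)

def il (u : M) : G := ⟨u, 1⟩
@[simp] theorem il_l (u : M) : (il u).l = u := rfl
@[simp] theorem il_r (u : M) : (il u).r = 1 := rfl
theorem il_add (u v : M) : il (u + v) = il u * il v := by ext1 <;> simp
theorem il_zero : il 0 = 1 := rfl

noncomputable def ir : F →* G where
  toFun f := ⟨0, f⟩
  map_one' := rfl
  map_mul' a b := by ext1 <;> simp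
@[simp] theorem ir_l (f : F) : (ir f).l = 0 := rfl
@[simp] theorem ir_r (f : F) : (ir f).r = f := rfl

noncomputable def pr : G →* F where
  toFun g := g.r
  map_one' := rfl
  map_mul' _ _ := rfl

theorem ρ_cancel (f : F) (u : M) : ρ f (ρ f⁻¹ u) = u := by rw [← ρ_mul]; simp

theorem conj_il (g : G) (u : M) : g * il u * g⁻¹ = il (ρ g.r u) := by
  ext1
  · simp [ρ_cancel]
  · simp

theorem split (g : G) : g = il g.l * ir g.r := by ext1 <;> simp

/-! coefficient extraction -/

theorem fold_ne (l : List ℕ) : ∀ (p : List ℕ), l.length = p.length → l ≠ p → ∀ (u : M) (v : List ℕ),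
    (l.foldr (fun i u => T i u) u) (p ++ v) = 0 := by
  induction l with
  | nil => intro p h hne; exact absurd (List.length_eq_zero_iff.1 h.symm).symm hne
  | cons a l ih =>
    intro p h hne u v
    cases p with
    | nil => simp at h
    | cons b p =>
      rw [List.foldr_cons, List.cons_append, T_cons]
      split_ifs with h1
      · exact ih p (by simpa using h) (by rintro rfl; exact hne (by rw [h1.1])) u v
      · rfl

theorem fold_eq (p : List ℕ) (u : M) (v : List ℕ) (h : (p ++ v).IsChain (· ≠ ·)) :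
    (p.foldr (fun i u => T i u) u) (p ++ v) = u v := by
  induction p with
  | nil => rfl
  | cons a p ih =>
    rw [List.cons_append, List.isChain_cons] at h
    rw [List.foldr_cons, List.cons_append, T_cons, if_pos ⟨rfl, fun e => h.1 a e rfl⟩, ih h.2]

theorem std_coef (D : ℕ) (u : M) (v : List ℕ) (h : (List.range D ++ v).IsChain (· ≠ ·)) :
    (∑ σ : Perm (Fin D), Perm.sign σ • (List.ofFn σ).foldr (fun i u => T i.1 u) u)
      (List.range D ++ v) = u v := by
  have e : ∀ σ : Perm (Fin D), (List.ofFn σ).foldr (fun i u => T i.1 u) u =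
      (List.ofFn (fun i => (σ i).1)).foldr (fun i u => T i u) u := by
    intro σ
    have : List.ofFn (fun i => (σ i).1) = (List.ofFn σ).map Fin.val := by
      rw [List.map_ofFn]; rfl
    rw [this, List.foldr_map]
  have e1 : List.ofFn (fun i : Fin D => i.1) = List.range D := by
    apply List.ext_getElem <;> simp
  rw [Finsupp.finset_sum_apply, Finset.sum_eq_single 1]
  · rw [e]; simp only [Perm.sign_one, one_smul, Perm.coe_one, id, e1]; exact fold_eq _ _ _ h
  · intro σ _ hσ
    rw [Units.smul_def, Finsupp.smul_apply, e, fold_ne _ _ (by simp), smul_zero]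
    rw [← e1]
    intro h2
    exact hσ (Equiv.ext fun i => Fin.ext (congrFun (List.ofFn_injective h2) i))
  · simp

theorem std_ne (d N : ℕ) (m : ℤ) (hm : m ≠ 0) :
    (fun u : M => ∑ σ : Perm (Fin (d + 2)), Perm.sign σ •
      (List.ofFn σ).foldr (fun i u => T i.1 u) u)^[N] (single [0] m) ≠ 0 := by
  have hc : (List.range (d + 2)).IsChain (· ≠ ·) :=
    (List.nodup_range (n := d + 2)).isChain
  have : ∃ v : List ℕ, v.IsChain (· ≠ ·) ∧ v.head? = some 0 ∧
      ((fun u : M => ∑ σ : Perm (Fin (d + 2)), Perm.sign σ •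
      (List.ofFn σ).foldr (fun i u => T i.1 u) u)^[N] (single [0] m)) v = m := by
    induction N with
    | zero => exact ⟨[0], by simp, rfl, by simp⟩
    | succ N ih =>
      obtain ⟨v, h1, h2, h3⟩ := ih
      have h4 : (List.range (d + 2) ++ v).IsChain (· ≠ ·) := by
        rw [List.isChain_append]
        refine ⟨hc, h1, ?_⟩
        simp [h2, List.getLast?_range]
      refine ⟨_, h4, by simp [List.range_succ_eq_map], ?_⟩
      rw [Function.iterate_succ_apply', std_coef _ _ _ h4, h3]
  obtain ⟨v, -, -, h⟩ := this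
  intro e
  rw [e] at h
  exact hm h.symm

end Pool.Agent.H68.Pf
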