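import Pool.Agent.H68.Pf2

set_option autoImplicit false

namespace Pool.Agent.H68.Pf

open Equiv Finsupp

noncomputable def cj {S Λ : Type*} [CommSemiring S] [Ring Λ] [Algebra S Λ] (φ : G →* Λ) (g : G) :
    Λ →ₐ[S] Λ where
  toFun s := φ g * s * φ g⁻¹
  map_one' := by rw [mul_one, ← map_mul, mul_inv_cancel, map_one]
  map_mul' a b := by
    have : φ g⁻¹ * φ g = 1 := by rw [← map_mul, inv_mul_cancel, map_one]
    calc φ g * (a * b) * φ g⁻¹ = φ g * a * (φ g⁻¹ * φ g) * b * φ g⁻¹ := by
          rw [this]; noncomm_ring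
      _ = _ := by noncomm_ring
  map_zero' := by simp
  map_add' a b := by noncomm_ring
  commutes' r := by
    rw [← Algebra.commutes, mul_assoc, ← map_mul, mul_inv_cancel, map_one, mul_one]

theorem cj_apply {S Λ : Type*} [CommSemiring S] [Ring Λ] [Algebra S Λ] (φ : G →* Λ) (g : G)
    (s : Λ) : cj (S := S) φ g s = φ g * s * φ g⁻¹ := rfl

theorem cj_il {S Λ : Type*} [CommSemiring S] [Ring Λ] [Algebra S Λ] (φ : G →* Λ) (x : ℕ) (u : M) :
    cj (S := S) φ (ir (.of x)) (φ (il u)) = φ (il (u + T x u)) := by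
  rw [cj_apply, ← map_mul, ← map_mul, conj_il, ir_r, ρ_of]

theorem nonlin {R : Type*} [CommRing R] (n : ℕ) (φ : G →* Matrix (Fin n) (Fin n) R) :
    ¬ Function.Injective φ := by
  classical
  intro hφ
  set d := n * n * (n * n)
  let ι : M → Matrix (Fin n) (Fin n) R := fun u => φ (il u)
  have h0 : ι 0 = 1 := by simp only [ι, il_zero, map_one]
  have ha : ∀ u v, ι (u + v) = ι u * ι v := fun u v => by simp only [ι, il_add, map_mul]
  have inj : ∀ u, ι u = 1 → u = 0 := fun u h => by
    have := hφ (h.trans (map_one φ).symm)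
    exact congrArg G.l this
  let x : Fin (d + 2) → G := fun i => ir (.of i.1)
  obtain ⟨m, hm, hnil⟩ := unip ι h0 ha (R := R) (cj φ (ir (.of 0))) (single [] 1)
    (T 0 (single [] 1)) (cj_il φ 0 _) (by rw [cj_il, T_T, add_zero])
  set u0 : M := m • T 0 (single [] 1) with hu0
  have hu0' : u0 = single [0] (m : ℤ) := by rw [hu0, T_single]; simp
  let E : Set (Matrix (Fin n) (Fin n) R) :=
    {ι u0, ι (-u0)} ∪ (Set.range (fun i => φ (x i)) ∪ Set.range (fun i => φ (x i)⁻¹))
  have hE : E.Finite := (Set.toFinite _).union ((Set.finite_range _).union (Set.finite_range _))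
  let s : Set R := ⋃ a ∈ E, Set.range (fun p : Fin n × Fin n => a p.1 p.2)
  have hs : s.Finite := hE.biUnion fun _ _ => Set.finite_range _
  let S := Subring.closure s
  have hS : IsNoetherianRing S := is_noetherian_subring_closure s hs
  let Y : Subring (Matrix (Fin n) (Fin n) R) :=
    { carrier := {a | ∀ i j, a i j ∈ S}
      mul_mem' := fun {a b} h1 h2 i j => by
        rw [Matrix.mul_apply]; exact sum_mem fun k _ => mul_mem (h1 i k) (h2 k j)
      one_mem' := fun i j => by
        rw [Matrix.one_apply]; split_ifs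
        · exact one_mem _
        · exact zero_mem _
      add_mem' := fun {a b} h1 h2 i j => add_mem (h1 i j) (h2 i j)
      zero_mem' := fun i j => zero_mem _
      neg_mem' := fun {a} h i j => neg_mem (h i j) }
  have hEY : ∀ a ∈ E, a ∈ Y := fun a h i j =>
    Subring.subset_closure (Set.mem_biUnion h ⟨(i, j), rfl⟩)
  have nadd : ∀ u v, IsNilpotent (ι u - 1) → IsNilpotent (ι v - 1) →
      IsNilpotent (ι (u + v) - 1) := by
    intro u v h1 h2
    have : ι (u + v) - 1 = (ι u - 1) * ι v + (ι v - 1) := by rw [ha]; noncomm_ring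
    have c1 : Commute (ι u - 1) (ι v) := (i_comm ι ha u v).sub_left (Commute.one_left _)
    rw [this]
    refine Commute.isNilpotent_add ?_ (c1.isNilpotent_mul_right h1) h2
    exact (c1.sub_right (Commute.one_right _)).mul_left
      ((Commute.refl _).sub_right (Commute.one_right _))
  have nneg : ∀ u, IsNilpotent (ι u - 1) → IsNilpotent (ι (-u) - 1) := by
    intro u h
    have e : ι u * ι (-u) = 1 := by rw [← ha, add_neg_cancel, h0]
    have : ι (-u) - 1 = -((ι u - 1) * ι (-u)) := by rw [sub_mul, e]; noncomm_ring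
    rw [this]
    exact (((i_comm ι ha u (-u)).sub_left (Commute.one_left _)).isNilpotent_mul_right h).neg
  let U : AddSubgroup M :=
    { carrier := {u | IsNilpotent (ι u - 1) ∧ ι u ∈ Y ∧ ι (-u) ∈ Y}
      zero_mem' := by simp [h0]
      add_mem' := by
        rintro u v ⟨a1, a2, a3⟩ ⟨b1, b2, b3⟩
        refine ⟨nadd u v a1 b1, by rw [ha]; exact mul_mem a2 b2, ?_⟩
        rw [neg_add, ha]; exact mul_mem a3 b3
      neg_mem' := by
        rintro u ⟨a1, a2, a3⟩
        exact ⟨nneg u a1, a3, by rwa [neg_neg]⟩ }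
  have hx : ∀ i a, a ∈ Y → cj (S := S) φ (x i) a ∈ Y := fun i a h =>
    mul_mem (mul_mem (hEY _ (Or.inr (Or.inl ⟨i, rfl⟩))) h) (hEY _ (Or.inr (Or.inr ⟨i, rfl⟩)))
  have hT : ∀ (i : Fin (d + 2)) u, ι (u + T i.1 u) = cj (S := S) φ (x i) (ι u) :=
    fun i u => (cj_il φ i.1 u).symm
  have hU : ∀ i : Fin (d + 2), ∀ u ∈ U, T i.1 u ∈ U := by
    intro i u hu
    have : u + T i.1 u ∈ U := by
      refine ⟨?_, hT i u ▸ hx i _ hu.2.1, ?_⟩
      · have := hu.1.map (cj (S := S) φ (x i))
        rwa [map_sub, map_one, ← hT] at this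
      · rw [neg_add, ← map_neg, hT]; exact hx i _ hu.2.2
    simpa using U.sub_mem this hu
  have hfg : (Submodule.span S ((fun u => ι u - 1) '' U)).FG := by
    let B := Submodule.span S
      (Set.range fun p : Fin n × Fin n => (Matrix.single p.1 p.2 1 : Matrix (Fin n) (Fin n) R))
    have hB : B.FG := Submodule.fg_span (Set.finite_range _)
    refine hB.of_le ?_
    rw [Submodule.span_le]
    rintro _ ⟨u, hu, rfl⟩
    have h1 : ι u - 1 ∈ Y := sub_mem hu.2.1 (one_mem _)
    change ι u - 1 ∈ B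
    rw [Matrix.matrix_eq_sum_single (ι u - 1)]
    refine sum_mem fun i _ => sum_mem fun j _ => ?_
    have : Matrix.single i j ((ι u - 1) i j) =
        (⟨_, h1 i j⟩ : S) • (Matrix.single i j 1 : Matrix (Fin n) (Fin n) R) := by
      rw [Matrix.smul_single]; simp [Subring.smul_def]
    rw [this]
    exact B.smul_mem _ (Submodule.subset_span ⟨(i, j), rfl⟩)
  have PI : ∀ a : Matrix (Fin n) (Fin n) R, ∑ σ : Perm (Fin (d + 2)),
      Perm.sign σ • (List.ofFn σ).foldr (fun i s => cj (S := S) φ (x i) s - s) a = 0 := by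
    intro a
    let C : Fin (d + 2) → Module.End R (Matrix (Fin n) (Fin n) R) :=
      fun i => (cj (S := R) φ (x i)).toLinearMap - 1
    have h1 := std_zero (Matrix.stdBasis R (Fin n) (Fin n)).end (D := d + 2) (by simp [d]) C
    have h2 : ∀ l : List (Fin (d + 2)), (l.map C).prod a =
        l.foldr (fun i s => cj (S := S) φ (x i) s - s) a := by
      intro l
      induction l with
      | nil => rfl
      | cons i l ih => rw [List.map_cons, List.prod_cons, Module.End.mul_apply, ih]; rfl
    have h3 := congrArg (fun f => f a) h1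
    simp only [LinearMap.sum_apply, LinearMap.zero_apply, Units.smul_def,
      LinearMap.smul_apply] at h3 ⊢
    rw [← h3]
    refine Finset.sum_congr rfl fun σ _ => ?_
    rw [← h2, List.map_ofFn]; rfl
  obtain ⟨N, hN⟩ := core ι h0 ha inj U (fun i u => T i.1 u) (fun i => cj (S := S) φ (x i)) hT hU
    (nilV ι ha _ (fun u hu => hu.1) hfg) PI
  have := hN u0 ⟨hnil, hEY _ (Or.inl (by simp)), hEY _ (Or.inl (by simp))⟩
  rw [hu0'] at this
  exact std_ne d N m (by omega) this

end Pool.Agent.H68.Pf
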