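import Pool.Agent.H68.Pf3

set_option autoImplicit false

namespace Pool.Agent.H68.Pf

open Equiv Finsupp Subgroup
open scoped commutatorElement

def dep : List ℕ → ℕ
  | [] => 0
  | x :: w => if w.head? = some x then 0 else dep w + 1

noncomputable def Mi (i : ℕ) : Submodule ℤ M := supported ℤ ℤ {w | i ≤ dep w}

theorem mem_Mi {i : ℕ} {u : M} : u ∈ Mi i ↔ ∀ w, dep w < i → u w = 0 := by
  simp [Mi, mem_supported']

theorem Mi_le {i j : ℕ} (h : i ≤ j) {u : M} (hu : u ∈ Mi j) : u ∈ Mi i :=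
  mem_Mi.2 fun w hw => mem_Mi.1 hu w (by omega)

theorem Mi_zero (u : M) : u ∈ Mi 0 := mem_Mi.2 fun w hw => by omega

theorem T_mem {i : ℕ} (x : ℕ) {u : M} (hu : u ∈ Mi i) : T x u ∈ Mi (i + 1) := by
  refine mem_Mi.2 fun w hw => ?_
  cases w with
  | nil => exact T_nil _ _
  | cons y w =>
    rw [T_cons]; split_ifs with h
    · obtain ⟨rfl, h⟩ := h
      rw [dep, if_neg h] at hw
      exact mem_Mi.1 hu w (by omega)
    · rfl

theorem ρ_sub (f : F) : ∀ j u, u ∈ Mi j → ρ f u - u ∈ Mi (j + 1) := by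
  induction f using FreeGroup.induction_on with
  | C1 => intro j u _; simp
  | of x => intro j u hu; rw [ρ_of]; simpa using T_mem x hu
  | inv_of x _ => intro j u hu; rw [ρ_inv]; simpa using T_mem x hu
  | mul f g hf hg =>
    intro j u hu
    have h1 := hg j u hu
    have h2 : ρ g u ∈ Mi j := by simpa using add_mem (Mi_le (by omega) h1) hu
    rw [ρ_mul]
    simpa using add_mem (hf j _ h2) h1

theorem ρ_mem (f : F) {j : ℕ} {u : M} (hu : u ∈ Mi j) : ρ f u ∈ Mi j := by
  simpa using add_mem (Mi_le (Nat.le_succ j) (ρ_sub f j u hu)) hu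

def DD (i : ℕ) : Subgroup F where
  carrier := {f | ∀ j u, u ∈ Mi j → ρ f u - u ∈ Mi (j + i + 1)}
  one_mem' := by intro j u _; simp
  mul_mem' := by
    intro f g hf hg j u hu
    rw [ρ_mul]
    simpa using add_mem (hf j _ (ρ_mem g hu)) (hg j u hu)
  inv_mem' := by
    intro f hf j u hu
    have := neg_mem (hf j _ (ρ_mem f⁻¹ hu))
    rwa [ρ_cancel, neg_sub] at this

abbrev L (H : Type) [Group H] (i : ℕ) : Subgroup H := (⊤ : Subgroup H).lowerCentralSeries i

theorem L_DD (i : ℕ) : L F i ≤ DD i := by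
  induction i with
  | zero => intro f _ j u hu; exact ρ_sub f j u hu
  | succ i ih =>
    rw [L, Subgroup.lowerCentralSeries_succ, commutator_le]
    intro a ha b _ j u hu
    have hv : ρ (a⁻¹ * b⁻¹) u ∈ Mi j := ρ_mem _ hu
    set v := ρ (a⁻¹ * b⁻¹) u with hvd
    have e1 : u = ρ b (ρ a v) := by rw [hvd, ← ρ_mul, ← ρ_mul]; simp
    have e2 : ρ ⁅a, b⁆ u = ρ a (ρ b v) := by
      rw [hvd, ← ρ_mul, ← ρ_mul, commutatorElement_def, mul_assoc (a * b)]
    have h1 := ih ha (j + 1) _ (ρ_sub b j v hv)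
    have h2 := ρ_sub b _ _ (ih ha j v hv)
    have h3 := sub_mem (Mi_le (i := j + (i + 1) + 1) (by omega) h1) h2
    rw [e2]
    convert h3 using 1
    rw [e1]; simp only [map_sub]; abel

def KK (i : ℕ) : Subgroup G where
  carrier := {g | g.l ∈ Mi i ∧ g.r ∈ L F i}
  one_mem' := ⟨zero_mem _, one_mem _⟩
  mul_mem' := fun h1 h2 => ⟨add_mem h1.1 (ρ_mem _ h2.1), mul_mem h1.2 h2.2⟩
  inv_mem' := fun h => ⟨neg_mem (ρ_mem _ h.1), inv_mem h.2⟩

theorem L_KK (i : ℕ) : L G i ≤ KK i := by
  induction i with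
  | zero => intro g _; exact ⟨Mi_zero _, mem_top _⟩
  | succ i ih =>
    rw [L, Subgroup.lowerCentralSeries_succ, commutator_le]
    intro a ha b _
    obtain ⟨h1, h2⟩ := ih ha
    have h3 : ⁅a.r, b.r⁆ ∈ L F (i + 1) := commutator_mem_commutator h2 (mem_top _)
    refine ⟨?_, h3⟩
    have a1 := ρ_sub (a.r * b.r * a.r⁻¹) i _ h1
    have a2 := L_DD i h2 0 _ (Mi_zero b.l)
    have a3 := Mi_le (i := i + 1) (by omega) (L_DD _ h3 0 _ (Mi_zero b.l))
    rw [zero_add] at a2
    convert sub_mem (sub_mem a2 a1) a3 using 1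
    simp only [commutatorElement_def, mul_l, mul_r, inv_l, inv_r, map_neg, ρ_mul]
    abel

theorem il_mem (i : ℕ) : ∀ u ∈ Mi i, il u ∈ L G i := by
  induction i with
  | zero => intro u _; exact mem_top _
  | succ i ih =>
    let U : AddSubgroup M :=
      { carrier := {u | il u ∈ L G (i + 1)}
        zero_mem' := (L G (i + 1)).one_mem
        add_mem' := fun h1 h2 => by rw [Set.mem_setOf_eq, il_add]; exact mul_mem h1 h2
        neg_mem' := fun {u} h => by
          have : il (-u) = (il u)⁻¹ := by ext1 <;> simp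
          rw [Set.mem_setOf_eq, this]; exact inv_mem h }
    have : Mi (i + 1) ≤ AddSubgroup.toIntSubmodule U := by
      rw [Mi, supported_eq_span_single, Submodule.span_le]
      rintro _ ⟨w, hw, rfl⟩
      change il (single w 1) ∈ L G (i + 1)
      cases w with
      | nil => simp [dep] at hw
      | cons x w =>
        have hw' : i + 1 ≤ dep (x :: w) := hw
        rw [dep] at hw'
        split_ifs at hw' with h
        · omega
        have h1 : (single w 1 : M) ∈ Mi i := single_mem_supported _ _ (by simp; omega)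
        have h2 : ⁅il (-single w 1), ir (.of x)⁆ ∈ L G (i + 1) :=
          commutator_mem_commutator (ih _ (neg_mem h1)) (mem_top _)
        convert h2 using 1
        ext1
        · simp [commutatorElement_def, ρ_of, T_single, h]
        · simp [commutatorElement_def]
    exact fun u hu => this hu

theorem mem_L {i : ℕ} {g : G} : g ∈ L G i ↔ g.l ∈ Mi i ∧ g.r ∈ L F i := by
  refine ⟨fun h => L_KK i h, fun h => ?_⟩
  rw [split g]
  refine mul_mem (il_mem i _ h.1) ?_
  have : (L F i).map ir ≤ L G i := by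
    rw [map_lowerCentralSeries]; exact lowerCentralSeries_mono i le_top
  exact this ⟨_, h.2, rfl⟩

theorem resnil : ⨅ i, L G i = ⊥ := by
  rw [eq_bot_iff]
  intro g hg
  rw [mem_iInf] at hg
  rw [mem_bot]
  have z : ∀ u : M, (∀ i, u ∈ Mi i) → u = 0 := fun u h =>
    Finsupp.ext fun w => mem_Mi.1 (h (dep w + 1)) w (by omega)
  ext1
  · exact z _ fun i => (mem_L.1 (hg i)).1
  · refine faith _ (sub_eq_zero.1 (z _ fun i => ?_))
    exact Mi_le (by omega) (L_DD i (mem_L.1 (hg i)).2 0 _ (Mi_zero _))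

end Pool.Agent.H68.Pf
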