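import Pool.Agent.H68.Pf4

set_option autoImplicit false

namespace Pool.Agent.H68.Pf

open Equiv Finsupp Subgroup
open scoped commutatorElement

abbrev gr (H : Type) [Group H] (i : ℕ) : Type := L H i ⧸ (L H (i + 1)).subgroupOf (L H i)

abbrev P (i : ℕ) : Type := {w : List ℕ // dep w = i} →₀ ℤ

theorem swindle {Q B : Type} [Group Q] (hc : ∀ a b : Q, a * b = b * a) [Infinite B]
    (f : Q →* Multiplicative (B →₀ ℤ)) (hf : Function.Surjective f) :
    Nonempty (Q × Multiplicative (B →₀ ℤ) ≃* Q) := by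
  letI : CommGroup Q := { (inferInstance : Group Q) with mul_comm := hc }
  let f' : Additive Q →ₗ[ℤ] (B →₀ ℤ) := (MonoidHom.toAdditiveLeft f).toIntLinearMap
  have hf' : Function.Surjective f' := fun y => hf (Multiplicative.ofAdd y)
  obtain ⟨s, hs⟩ := Module.projective_lifting_property f' LinearMap.id hf'
  have hs' : ∀ p, f' (s p) = p := fun p => LinearMap.congr_fun hs p
  obtain ⟨e0⟩ : Nonempty (B ⊕ B ≃ B) := Cardinal.eq.1 (by simp)
  let e : ((B →₀ ℤ) × (B →₀ ℤ)) ≃ₗ[ℤ] (B →₀ ℤ) :=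
    (sumFinsuppLEquivProdFinsupp ℤ).symm.trans (Finsupp.domLCongr e0)
  let Θ : (Additive Q × (B →₀ ℤ)) ≃+ Additive Q :=
    { toFun := fun x => x.1 - s (f' x.1) + s (e (f' x.1, x.2))
      invFun := fun a => (a - s (f' a) + s (e.symm (f' a)).1, (e.symm (f' a)).2)
      left_inv := fun x => by simp [hs']
      right_inv := fun a => by simp [hs']
      map_add' := fun x y => by
        have : e (f' x.1 + f' y.1, x.2 + y.2) = e (f' x.1, x.2) + e (f' y.1, y.2) := by
          rw [← map_add e]; rfl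
        simp only [Prod.fst_add, Prod.snd_add, map_add f', this, map_add s]; abel }
  exact ⟨{ toFun := fun x => Additive.toMul (Θ (Additive.ofMul x.1, Multiplicative.toAdd x.2))
           invFun := fun a => (Additive.toMul (Θ.symm (Additive.ofMul a)).1,
             Multiplicative.ofAdd (Θ.symm (Additive.ofMul a)).2)
           left_inv := fun x => by simp
           right_inv := fun a => by simp
           map_mul' := fun x y => by
             rw [← toMul_add, ← map_add]; rfl }⟩

theorem dep_long (i k : ℕ) : ∃ w : List ℕ, dep w = i ∧ k ≤ w.length := by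
  induction i with
  | zero => exact ⟨0 :: 0 :: List.replicate k 0, by simp [dep], by simp; omega⟩
  | succ i ih =>
    obtain ⟨w, h1, h2⟩ := ih
    refine ⟨(w.headD 0 + 1) :: w, ?_, by simp; omega⟩
    rw [dep, if_neg, h1]
    cases w <;> simp

instance (i : ℕ) : Infinite {w : List ℕ // dep w = i} := by
  by_contra h
  rw [not_infinite_iff_finite] at h
  obtain ⟨k, hk⟩ := (Set.finite_range (fun w : {w : List ℕ // dep w = i} => w.1.length)).bddAbove
  obtain ⟨w, h1, h2⟩ := dep_long i (k + 1)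
  have := hk ⟨⟨w, h1⟩, rfl⟩
  simp only at this
  omega

noncomputable def π (i : ℕ) : M →+ P i := subtypeDomainAddMonoidHom

theorem π_apply (i : ℕ) (u : M) (w : {w : List ℕ // dep w = i}) : π i u w = u w.1 := rfl

theorem π_zero {i : ℕ} {u : M} (h : u ∈ Mi (i + 1)) : π i u = 0 :=
  Finsupp.ext fun w => mem_Mi.1 h _ (by rw [w.2]; omega)

noncomputable def Φ2 (i : ℕ) : L G i →* Multiplicative (P i) where
  toFun g := Multiplicative.ofAdd (π i g.1.l)
  map_one' := by simp
  map_mul' a b := by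
    have := π_zero (ρ_sub a.1.r i _ (mem_L.1 b.2).1)
    rw [map_sub, sub_eq_zero] at this
    rw [← ofAdd_add, Subgroup.coe_mul, mul_l, map_add, this]

noncomputable def Φ1 (i : ℕ) : L G i →* gr F i :=
  (QuotientGroup.mk' _).comp ((pr.comp (L G i).subtype).codRestrict (L F i)
    fun g => (mem_L.1 g.2).2)

theorem Φ_ker (i : ℕ) : ((Φ1 i).prod (Φ2 i)).ker = (L G (i + 1)).subgroupOf (L G i) := by
  ext g
  rw [MonoidHom.mem_ker, mem_subgroupOf, mem_L, MonoidHom.prod_apply, Prod.mk_eq_one, and_comm]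
  refine and_congr ⟨fun h => mem_Mi.2 fun w hw => ?_, fun h => ?_⟩ ?_
  · by_cases h1 : dep w = i
    · have : π i g.1.l = 0 := h
      rw [← π_apply i _ ⟨w, h1⟩, this]; rfl
    · exact mem_Mi.1 (mem_L.1 g.2).1 w (by omega)
  · exact π_zero h
  · exact QuotientGroup.eq_one_iff _

theorem Φ_surj (i : ℕ) : Function.Surjective ((Φ1 i).prod (Φ2 i)) := by
  classical
  rintro ⟨a, p⟩
  obtain ⟨f, rfl⟩ := QuotientGroup.mk_surjective a
  refine ⟨⟨⟨extendDomain (Multiplicative.toAdd p), f.1⟩, mem_L.2 ⟨mem_Mi.2 fun w hw => ?_, f.2⟩⟩,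
    Prod.ext rfl ?_⟩
  · simp [extendDomain, hw.ne]
  · exact congrArg Multiplicative.ofAdd (subtypeDomain_extendDomain _)

theorem gr_comm (H : Type) [Group H] (i : ℕ) (a b : gr H i) : a * b = b * a := by
  obtain ⟨a, rfl⟩ := QuotientGroup.mk_surjective a
  obtain ⟨b, rfl⟩ := QuotientGroup.mk_surjective b
  rw [← commutatorElement_eq_one_iff_mul_comm]
  have : ((⁅a, b⁆ : L H i) : gr H i) = 1 :=
    (QuotientGroup.eq_one_iff _).2 (commutator_mem_commutator a.2 (mem_top b.1))
  exact this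

instance : Countable F := inferInstanceAs (Countable (Quot _))

instance : Countable G :=
  Function.Injective.countable (f := fun g : G => (g.l, g.r))
    fun _ _ h => G.ext (congrArg Prod.fst h) (congrArg Prod.snd h)

theorem gr_iso (i : ℕ) : Nonempty (gr G i ≃* gr F i) := by
  obtain ⟨s, hs⟩ := exists_surjective_nat G
  let ψ : F →* G := FreeGroup.lift s
  have hψ : Function.Surjective ψ := fun g => by
    obtain ⟨k, rfl⟩ := hs g
    exact ⟨.of k, by simp [ψ]⟩
  have hm : ∀ j, (L F j).map ψ = L G j := fun j => by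
    rw [map_lowerCentralSeries, map_top_of_surjective _ hψ]
  let ψ' : L F i →* L G i :=
    (ψ.comp (L F i).subtype).codRestrict _ fun g => hm i ▸ mem_map_of_mem ψ g.2
  let χ : gr F i →* Multiplicative (P i) := QuotientGroup.lift _ ((Φ2 i).comp ψ') fun g hg => by
    have : ψ g.1 ∈ L G (i + 1) := hm (i + 1) ▸ mem_map_of_mem ψ hg
    exact π_zero (mem_L.1 this).1
  have hχ : Function.Surjective χ := fun p => by
    obtain ⟨g, hg⟩ := Φ_surj i (1, p)
    obtain ⟨f, hf, e⟩ : g.1 ∈ (L F i).map ψ := (hm i).symm ▸ g.2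
    refine ⟨QuotientGroup.mk ⟨f, hf⟩, ?_⟩
    have : ψ' ⟨f, hf⟩ = g := Subtype.ext e
    change Φ2 i (ψ' ⟨f, hf⟩) = p
    rw [this]; exact congrArg Prod.snd hg
  obtain ⟨e⟩ := swindle (gr_comm F i) χ hχ
  exact ⟨((QuotientGroup.quotientMulEquivOfEq (Φ_ker i).symm).trans
    (QuotientGroup.quotientKerEquivOfSurjective _ (Φ_surj i))).trans e⟩

end Pool.Agent.H68.Pf
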