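import Pool.Agent.H68.CubeForm

set_option autoImplicit false

namespace Pool.Agent.H68.Q8C9

open Pool.Agent.H68.CubeForm

structure F4 where
  x : Bool
  y : Bool
deriving DecidableEq, Fintype

instance : Add F4 := ⟨fun a b => ⟨xor a.x b.x, xor a.y b.y⟩⟩
instance : Neg F4 := ⟨fun a => a⟩
instance : Zero F4 := ⟨⟨false, false⟩⟩
instance : One F4 := ⟨⟨true, false⟩⟩
instance : Mul F4 := ⟨fun a b => ⟨xor (a.x && b.x) (a.y && b.y),
  xor (xor (a.x && b.y) (a.y && b.x)) (a.y && b.y)⟩⟩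

instance : CommRing F4 := CommRing.ofMinimalAxioms (by decide) (by decide) (by decide) (by decide)
  (by decide) (by decide) (by decide)

def w : F4 := ⟨false, true⟩
def c (a : F4) : F4 := a * a
theorem c_add : ∀ a b : F4, c (a + b) = c a + c b := by decide
theorem c_zero : c 0 = 0 := by decide
theorem two : (1 : F4) + 1 = 0 := by decide

@[ext] structure P where
  a0 : F4
  a1 : F4
  a2 : F4
  b : F4
deriving DecidableEq, Fintype

instance : Mul P := ⟨fun x y => ⟨x.a0 + y.a0, x.a1 + y.a1, x.a2 + y.a2,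
  x.b + y.b + x.a0 * c y.a0 + w * (x.a1 * c y.a1) + w * w * (x.a2 * c y.a2)⟩⟩
instance : One P := ⟨⟨0, 0, 0, 0⟩⟩
instance : Inv P := ⟨fun x => x * x * x⟩

@[simp] theorem mul_a0 (x y : P) : (x * y).a0 = x.a0 + y.a0 := rfl
@[simp] theorem mul_a1 (x y : P) : (x * y).a1 = x.a1 + y.a1 := rfl
@[simp] theorem mul_a2 (x y : P) : (x * y).a2 = x.a2 + y.a2 := rfl
theorem mul_b (x y : P) : (x * y).b =
  x.b + y.b + x.a0 * c y.a0 + w * (x.a1 * c y.a1) + w * w * (x.a2 * c y.a2) := rfl

instance : Group P := Group.ofLeftAxioms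
  (fun x y z => by
    apply P.ext
    · simp [add_assoc]
    · simp [add_assoc]
    · simp [add_assoc]
    · simp only [mul_b, mul_a0, mul_a1, mul_a2, c_add]; ring)
  (by decide +kernel) (by decide +kernel)

theorem pow4 : ∀ x : P, x ^ 4 = 1 := by decide +kernel
theorem pow9 : ∀ x : P, (x ^ 3) ^ 3 = x := by decide +kernel

theorem cw : ∀ a b : F4, w * a * c (w * b) = a * c b := by decide
theorem w3 : w * w * w = 1 := by decide

def g : MulAut P where
  toFun x := ⟨w * x.a2, x.a0, x.a1, w * x.b⟩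
  invFun x := ⟨x.a1, x.a2, w * w * x.a0, w * w * x.b⟩
  left_inv := by decide +kernel
  right_inv := by decide +kernel
  map_mul' x y := by
    apply P.ext
    · simp [mul_add]
    · simp
    · simp
    · simp only [mul_b, cw]
      linear_combination (x.a2 * c y.a2) * w3

theorem g9 : g ^ 9 = 1 := by
  ext1 x; revert x; decide +kernel

abbrev C9 := Multiplicative (ZMod 9)

def φ : C9 →* MulAut P where
  toFun k := g ^ (Multiplicative.toAdd k).val
  map_one' := by simp
  map_mul' k l := by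
    rw [toAdd_mul, ZMod.val_add, ← pow_add, ← pow_eq_pow_mod _ g9]

abbrev G := P ⋊[φ] C9

instance : Finite G := Finite.of_equiv _ SemidirectProduct.equivProd.symm

open SemidirectProduct

theorem pP : IsPGroup 2 P := fun x => ⟨2, pow4 x⟩

instance : Group.IsNilpotent P := pP.isNilpotent

theorem solv : IsSolvable G :=
  solvable_of_ker_le_range (inl : P →* G) rightHom range_inl_eq_ker_rightHom.ge

abbrev V := F4 × F4 × F4

def A (K : Subgroup G) (v : V) : Prop := ∃ b, (inl ⟨v.1, v.2.1, v.2.2, b⟩ : G) ∈ K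

theorem full (K : Subgroup G) (h : ∀ v, A K v) (x : P) : (inl x : G) ∈ K := by
  have hc : ∀ x y : P, (inl x : G) ∈ K → (inl y : G) ∈ K → (inl (x * y * (y * x)⁻¹) : G) ∈ K := by
    intro x y hx hy
    rw [map_mul, map_mul, map_inv, map_mul]
    exact K.mul_mem (K.mul_mem hx hy) (K.inv_mem (K.mul_mem hy hx))
  have z1 : (inl ⟨0, 0, 0, 1⟩ : G) ∈ K := by
    obtain ⟨b, hb⟩ := h (1, 0, 0)
    obtain ⟨b', hb'⟩ := h (w, 0, 0)
    have := hc _ _ hb hb'
    convert this using 2
    clear this hb hb'; revert b b'; decide +kernel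
  have z2 : (inl ⟨0, 0, 0, w⟩ : G) ∈ K := by
    obtain ⟨b, hb⟩ := h (0, 1, 0)
    obtain ⟨b', hb'⟩ := h (0, w, 0)
    have := hc _ _ hb hb'
    convert this using 2
    clear this hb hb'; revert b b'; decide +kernel
  have z : ∀ b, (inl ⟨0, 0, 0, b⟩ : G) ∈ K := by
    have : ∀ b : F4, (⟨0, 0, 0, b⟩ : P) = 1 ∨ (⟨0, 0, 0, b⟩ : P) = ⟨0, 0, 0, 1⟩ ∨
        (⟨0, 0, 0, b⟩ : P) = ⟨0, 0, 0, w⟩ ∨
        (⟨0, 0, 0, b⟩ : P) = ⟨0, 0, 0, 1⟩ * ⟨0, 0, 0, w⟩ := by decide
    intro b
    rcases this b with h | h | h | h <;> rw [h]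
    · rw [map_one]; exact K.one_mem
    · exact z1
    · exact z2
    · rw [map_mul]; exact K.mul_mem z1 z2
  obtain ⟨b, hb⟩ := h (x.a0, x.a1, x.a2)
  have := K.mul_mem hb (z (x.b - b))
  rw [← map_mul] at this
  convert this using 2
  apply P.ext <;> simp [mul_b, c_zero]

theorem ker_full (H : Type) [Group H] (hH : F H) (f : G →* H) (x : P) : f (inl x) = 1 := by
  obtain ⟨n, hn⟩ := hH
  have key : ∀ n v, A ((cubes G).lowerCentralSeries n) v := by
    intro n
    induction n with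
    | zero =>
      intro v
      refine ⟨0, ?_⟩
      rw [← pow9 ⟨_, _, _, _⟩, map_pow]
      exact Subgroup.subset_closure ⟨_, rfl⟩
    | succ n ih =>
      intro v
      obtain ⟨b, hb⟩ := ih (w * v.1, w * v.2.1, w * v.2.2)
      have ht : (inr (Multiplicative.ofAdd 1) : G) ^ 3 ∈ cubes G :=
        Subgroup.subset_closure ⟨_, rfl⟩
      have h1 := Subgroup.commutator_mem_commutator hb ht
      rw [← map_pow, commutatorElement_def, ← map_inv, ← map_inv, mul_assoc, mul_assoc,
        ← mul_assoc (inr _), ← inl_aut, ← map_mul] at h1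
      have e : ∀ (v : V) (b : F4), ∃ b', (⟨w * v.1, w * v.2.1, w * v.2.2, b⟩ : P) *
          φ (Multiplicative.ofAdd 1 ^ 3) (⟨w * v.1, w * v.2.1, w * v.2.2, b⟩ : P)⁻¹ =
          ⟨v.1, v.2.1, v.2.2, b'⟩ := by decide +kernel
      obtain ⟨b', hb'⟩ := e v b
      refine ⟨b', ?_⟩
      rw [← hb']; exact h1
  exact lcs_map f n n le_rfl hn _ (full _ (key n) x)

def γ (v : V) : V := (w * v.2.2, v.1, v.2.1)
def sel (t : Bool) (v : V) : V := if t then v else 0
def comb (v : V) (t : Bool × Bool × Bool × Bool × Bool × Bool) : V :=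
  sel t.1 v + sel t.2.1 (γ v) + sel t.2.2.1 (γ (γ v)) + sel t.2.2.2.1 (γ (γ (γ v))) +
    sel t.2.2.2.2.1 (γ (γ (γ (γ v)))) + sel t.2.2.2.2.2 (γ (γ (γ (γ (γ v)))))

theorem irr1 : ∀ v : V, v ≠ 0 → ∃ t, comb v t = (1, 0, 0) := by decide +kernel
theorem irr2 : ∀ v : V, ∃ t, comb (1, 0, 0) t = v := by decide +kernel

theorem proper (K : Subgroup G) (hK : K ≠ ⊤) : F K := by
  by_cases h3 : ∀ h ∈ K, (h : G).right ^ 3 = 1
  · apply F_of_nilpotent K ((rightHom : G →* C9).ker.subgroupOf K)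
    · apply IsPGroup.isNilpotent (p := 2)
      rw [← range_inl_eq_ker_rightHom]
      exact (pP.of_surjective _ (inl : P →* G).rangeRestrict_surjective).comap_of_injective
        K.subtype K.subtype_injective
    · intro x
      simp only [Subgroup.mem_subgroupOf, MonoidHom.mem_ker, SubgroupClass.coe_pow, map_pow]
      exact h3 x x.2
  push Not at h3
  obtain ⟨h0, hh0, hne⟩ := h3
  have hm : ∀ k : C9, k ^ 3 ≠ 1 → ∃ m : Fin 9, k ^ (m : ℕ) = Multiplicative.ofAdd 1 := by decide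
  obtain ⟨m, hm⟩ := hm _ hne
  set h := h0 ^ (m : ℕ) with hh
  have hhK : h ∈ K := K.pow_mem hh0 _
  have hr : h.right = Multiplicative.ofAdd 1 := by
    rw [← hm, hh]; exact map_pow (rightHom : G →* C9) h0 m
  have A0 : A K 0 := ⟨0, K.one_mem⟩
  have Aadd : ∀ u v, A K u → A K v → A K (u + v) := by
    rintro u v ⟨b, hb⟩ ⟨b', hb'⟩
    have := K.mul_mem hb hb'
    rw [← map_mul] at this
    exact ⟨_, this⟩
  have Aγ : ∀ v, A K v → A K (γ v) := by
    rintro v ⟨b, hb⟩
    have h1 := K.mul_mem (K.mul_mem hhK hb) (K.inv_mem hhK)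
    have h2 : ∀ x : P, h * inl x * h⁻¹ = inl (h.left * g x * h.left⁻¹) := by
      intro x
      have e : g x = φ h.right x := by rw [hr]; rfl
      rw [e, map_mul, map_mul, inl_aut]
      conv_lhs => rw [← inl_left_mul_inr_right h]
      simp only [map_inv]; group
    rw [h2] at h1
    refine ⟨(h.left * g ⟨v.1, v.2.1, v.2.2, b⟩ * h.left⁻¹).b, ?_⟩
    convert h1 using 2
    have e0 : ∀ a y : F4, y = a + y + (a + a + a) := by decide
    apply P.ext
    · exact e0 _ _
    · exact e0 _ _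
    · exact e0 _ _
    · rfl
  have Asel : ∀ t v, A K v → A K (sel t v) := by
    intro t v hv; unfold sel; split_ifs; exact hv; exact A0
  have Acomb : ∀ v t, A K v → A K (comb v t) := by
    intro v t hv
    have h1 := Aγ _ hv
    have h2 := Aγ _ h1
    have h3 := Aγ _ h2
    have h4 := Aγ _ h3
    have h5 := Aγ _ h4
    exact Aadd _ _ (Aadd _ _ (Aadd _ _ (Aadd _ _ (Aadd _ _ (Asel _ _ hv) (Asel _ _ h1))
      (Asel _ _ h2)) (Asel _ _ h3)) (Asel _ _ h4)) (Asel _ _ h5)
  by_cases hA : ∃ v, v ≠ 0 ∧ A K v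
  · exfalso
    obtain ⟨v, hv0, hv⟩ := hA
    obtain ⟨t, ht⟩ := irr1 v hv0
    have he : A K (1, 0, 0) := ht ▸ Acomb v t hv
    have hall : ∀ v, A K v := fun v => by
      obtain ⟨t, ht⟩ := irr2 v
      exact ht ▸ Acomb _ t he
    have hP := full K hall
    apply hK
    rw [eq_top_iff]
    intro x _
    have h1 : (inr (Multiplicative.ofAdd 1) : G) ∈ K := by
      have := K.mul_mem (K.inv_mem (hP h.left)) hhK
      rw [← hr]; convert this using 1
      rw [eq_inv_mul_iff_mul_eq, inl_left_mul_inr_right]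
    have h2 : ∀ k : C9, ∃ m : Fin 9, k = Multiplicative.ofAdd 1 ^ (m : ℕ) := by decide
    obtain ⟨m, hm⟩ := h2 x.right
    rw [← inl_left_mul_inr_right x, hm, map_pow]
    exact K.mul_mem (hP _) (K.pow_mem h1 _)
  · push Not at hA
    let ρ : K →* C9 := (powMonoidHom 3).comp ((rightHom : G →* C9).comp K.subtype)
    apply F_of_nilpotent K ρ.ker
    · apply Subgroup.isNilpotent_of_ker_le_center
        (((rightHom : G →* C9).comp K.subtype).comp ρ.ker.subtype)
      intro x hx
      rw [Subgroup.mem_center_iff]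
      intro y
      have hx' : ((x : K) : G).right = 1 := hx
      have hy' : ((y : K) : G).right ^ 3 = 1 := y.2
      have hxx : ((x : K) : G) = inl ((x : K) : G).left := by
        conv_lhs => rw [← inl_left_mul_inr_right ((x : K) : G), hx']
        simp
      have hz : (((x : K) : G).left.a0, ((x : K) : G).left.a1, ((x : K) : G).left.a2) = (0 : V) := by
        by_contra hne
        exact hA _ hne ⟨((x : K) : G).left.b, by
          have := (x : K).2
          rw [hxx] at this; exact this⟩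
      simp only [Prod.mk_eq_zero] at hz
      have e1 : ∀ (k : C9) (b : F4), k ^ 3 = 1 → φ k ⟨0, 0, 0, b⟩ = ⟨0, 0, 0, b⟩ := by
        decide +kernel
      have e2 : ∀ (p : P) (b : F4), p * ⟨0, 0, 0, b⟩ = ⟨0, 0, 0, b⟩ * p := by decide +kernel
      have e3 : ((x : K) : G).left = ⟨0, 0, 0, ((x : K) : G).left.b⟩ :=
        P.ext hz.1 hz.2.1 hz.2.2 rfl
      apply Subtype.ext
      apply Subtype.ext
      change ((y : K) : G) * ((x : K) : G) = ((x : K) : G) * ((y : K) : G)
      ext1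
      · rw [mul_left, mul_left, hx', e3, e1 _ _ hy', e2]; simp
      · rw [mul_right, mul_right, mul_comm]
    · intro x
      have : ∀ k : C9, (k ^ 3) ^ 3 = 1 := by decide
      simp only [MonoidHom.mem_ker, map_pow]
      exact this _

theorem notF : ¬ F G := by
  intro h
  have := ker_full G h (MonoidHom.id G) ⟨0, 0, 0, 1⟩
  rw [MonoidHom.id_apply, ← map_one (inl : P →* G), inl_inj] at this
  exact absurd this (by decide)

theorem FC9 : F C9 := F_of_nilpotent C9 ⊤ inferInstance (fun _ => trivial)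

theorem resid : (inl : P →* G).range =
    sInf {K : Subgroup G | ∃ (H : Type) (_ : Group H) (_ : Finite H),
      F H ∧ ∃ f : G →* H, Function.Surjective f ∧ f.ker = K} := by
  apply le_antisymm
  · apply le_sInf
    rintro _ ⟨H, _, _, hH, f, _, rfl⟩ _ ⟨x, rfl⟩
    exact ker_full H hH f x
  · apply sInf_le
    exact ⟨C9, inferInstance, inferInstance, FC9, rightHom, rightHom_surjective,
      range_inl_eq_ker_rightHom.symm⟩

theorem sylow : ∃ Q : Sylow 2 G, (Q : Subgroup G) = (inl : P →* G).range := by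
  refine ⟨IsPGroup.toSylow (pP.of_surjective _ (inl : P →* G).rangeRestrict_surjective) ?_, rfl⟩
  rw [range_inl_eq_ker_rightHom, Subgroup.index_ker,
    MonoidHom.range_eq_top.2 rightHom_surjective]
  simp

theorem noncomm : ∀ y : P, (y * ⟨1, 0, 0, 0⟩)⁻¹ * (⟨1, 0, 0, 0⟩ * y) ≠
    ((⟨0, w, 0, 0⟩ : P) * ⟨0, 1, 0, 0⟩)⁻¹ * (⟨0, 1, 0, 0⟩ * ⟨0, w, 0, 0⟩) := by decide +kernel

end Pool.Agent.H68.Q8C9
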