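import Pool.Agent.H68.Sg2

namespace Pool.Agent.H68.Qp

open Finsupp Pool.Agent.H68.Sg

variable {B W : Type*} [Group W] {M : CoxeterMatrix B} (cs : CoxeterSystem M W)

theorem z2 {a : ZMod 2} (h : a ≠ 0) : a = 1 := by revert a; decide

theorem N_mul' (v w t : W) : NN cs (v * w) t = NN cs v t + NN cs w (v⁻¹ * t * v) := by
  have e : t = v * (v⁻¹ * t * v) * v⁻¹ := by group
  rw [NN_mul, Finsupp.add_apply]
  nth_rewrite 2 [e]
  rw [act_apply]

theorem N_inv (g t : W) : NN cs g⁻¹ (g⁻¹ * t * g) = NN cs g t := by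
  have h := N_mul' cs g g⁻¹ t
  rw [mul_inv_cancel, NN_one, Finsupp.zero_apply] at h
  revert h; generalize NN cs g t = x; generalize NN cs g⁻¹ _ = y; revert x y; decide

theorem N_refl {g t : W} (h : NN cs g t ≠ 0) : cs.IsReflection t := by
  obtain ⟨ω, -, rfl⟩ := cs.exists_isReduced g
  exact cs.isReflection_of_mem_leftInvSeq ω (NN_mem cs ω t h)

theorem N_self {t : W} (ht : cs.IsReflection t) : NN cs t t = 1 := by
  obtain ⟨u, i, rfl⟩ := ht
  rw [N_mul', NN_mul_simple, Finsupp.add_apply, single_eq_same, ← N_inv cs u]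
  have e1 : u⁻¹ * (u * cs.simple i * u⁻¹) * u = cs.simple i := by group
  have e2 : (u * cs.simple i)⁻¹ * (u * cs.simple i * u⁻¹) * (u * cs.simple i) = cs.simple i := by group
  rw [e1, e2]
  generalize NN cs u⁻¹ _ = y; revert y; decide

theorem N_iff {t : W} (ht : cs.IsReflection t) (g : W) :
    NN cs g t ≠ 0 ↔ cs.length (t * g) < cs.length g := by
  refine ⟨NN_len cs g t, fun h h0 => ?_⟩
  have h1 : NN cs (t * g) t ≠ 0 := by
    rw [N_mul', N_self cs ht, inv_mul_cancel, one_mul, h0]; decide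
  have := NN_len cs _ _ h1
  rw [← mul_assoc, ht.mul_self, one_mul] at this
  omega

theorem N_simple (i : B) {t : W} (h : NN cs (cs.simple i) t ≠ 0) : t = cs.simple i := by
  by_contra h1
  rw [NN_simple, single_eq_of_ne h1] at h
  exact h rfl

theorem palin {t : W} (ht : cs.IsReflection t) :
    ∃ u i, t = u * cs.simple i * u⁻¹ ∧ 2 * cs.length u + 1 ≤ cs.length t := by
  obtain ⟨ω, hω, e⟩ := cs.exists_isReduced t
  have hm : t ∈ cs.leftInvSeq ω := NN_mem cs ω t (by rw [← e, N_self cs ht]; decide)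
  obtain ⟨j, hj, ej⟩ := List.getElem_of_mem hm
  rw [cs.length_leftInvSeq] at hj
  have h1 := cs.getElem_leftInvSeq ω j hj
  have h2 := cs.getD_leftInvSeq_mul_wordProd ω j
  rw [List.getD_eq_getElem _ _ (by rwa [cs.length_leftInvSeq]), ej, ← e, ht.mul_self,
    List.eraseIdx_eq_take_drop_succ, cs.wordProd_append, eq_comm, mul_eq_one_iff_eq_inv] at h2
  refine ⟨cs.wordProd (ω.take j), ω[j], by rw [← ej, h1], ?_⟩
  have l1 := cs.length_wordProd_le (ω.take j)
  have l2 := cs.length_wordProd_le (ω.drop (j + 1))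
  rw [← cs.length_inv, ← h2] at l2
  have l3 : cs.length t = ω.length := by rw [e]; exact hω
  simp only [List.length_take, List.length_drop] at l1 l2
  omega

theorem shorter {t t' : W} (ht : cs.IsReflection t) (h : NN cs t t' ≠ 0) (hne : t' ≠ t) :
    ∃ x, (x = t' ∨ x = t * t' * t) ∧ cs.length x < cs.length t ∧
      cs.length (x * t * x) < cs.length t := by
  obtain ⟨u, i, e, hl⟩ := palin cs ht
  have key : ∀ x, NN cs u x ≠ 0 → cs.length x < cs.length t ∧ cs.length (x * t * x) < cs.length t := by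
    intro x hx
    have l1 := NN_len cs _ _ hx
    have hxr := N_refl cs hx
    constructor
    · have := cs.length_mul_le (x * u) u⁻¹
      rw [mul_inv_cancel_right, cs.length_inv] at this
      omega
    · have e2 : x * t * x = (x * u) * cs.simple i * (x * u)⁻¹ := by
        rw [e, mul_inv_rev, hxr.inv]; group
      have a1 := cs.length_mul_le (x * u * cs.simple i) (x * u)⁻¹
      have a2 := cs.length_mul_le (x * u) (cs.simple i)
      rw [cs.length_inv] at a1
      rw [cs.length_simple] at a2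
      rw [e2]; omega
  by_cases h1 : NN cs u t' = 0
  · refine ⟨t * t' * t, Or.inr rfl, key _ fun h2 => h ?_⟩
    have e3 : NN cs t t' = NN cs (u * cs.simple i * u⁻¹) t' := by rw [← e]
    rw [e3, N_mul', NN_mul_simple, Finsupp.add_apply, ← e, h1, single_eq_of_ne hne, zero_add,
      zero_add, ← h2, ← N_inv cs u]
    congr 1
    rw [e, mul_inv_rev, cs.inv_simple]; group
  · exact ⟨t', Or.inl rfl, key _ h1⟩

/-- Bruhat order, as the reflexive transitive closure of length-decreasing reflection steps. -/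
def Step (x y : W) : Prop := ∃ t, cs.IsReflection t ∧ x = t * y ∧ cs.length x < cs.length y

def alt : W → W → ℕ → W
  | _, _, 0 => 1
  | a, b, n + 1 => a * alt b a n

def rf (a b : W) (l : ℕ) : W := (a * b) ^ l * a

structure DD (a b : W) (R : Set W) : Prop where
  ra : cs.IsReflection a
  rb : cs.IsReflection b
  ne : a ≠ b
  ma : a ∈ R
  mb : b ∈ R
  ca : ∀ t ∈ R, a * t * a ∈ R
  cb : ∀ t ∈ R, b * t * b ∈ R
  na : ∀ t ∈ R, NN cs a t ≠ 0 → t = a
  nb : ∀ t ∈ R, NN cs b t ≠ 0 → t = b

variable {cs}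

theorem DD.symm {a b : W} {R : Set W} (h : DD cs a b R) : DD cs b a R :=
  ⟨h.rb, h.ra, h.ne.symm, h.mb, h.ma, h.cb, h.ca, h.nb, h.na⟩

theorem rf_succ {a b : W} (l : ℕ) : rf a b (l + 1) = a * rf b a l * a := by
  have : ∀ l : ℕ, (a * b) ^ l * a = a * (b * a) ^ l := fun l => by
    induction l with
    | zero => simp
    | succ l ih => rw [pow_succ', mul_assoc, ih, pow_succ']; simp only [mul_assoc]
  rw [rf, rf, pow_succ, ← mul_assoc _ a b, this]; simp only [mul_assoc]

theorem order_symm (a b : W) : orderOf (b * a) = orderOf (a * b) := by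
  have : b * a = b * (a * b) * b⁻¹ := by group
  rw [this]; exact (MulAut.conj b).orderOf_eq (a * b)

theorem rf_inj {a b : W} {k l : ℕ} (h : rf a b k = rf a b l) (hk : k < l)
    (hm : orderOf (a * b) = 0 ∨ l < k + orderOf (a * b)) : False := by
  obtain ⟨c, rfl⟩ := Nat.exists_eq_add_of_lt hk
  have h1 := mul_right_cancel h
  rw [add_assoc, pow_add, left_eq_mul] at h1
  have h2 := orderOf_dvd_of_pow_eq_one h1
  rcases hm with hm | hm
  · rw [hm, zero_dvd_iff] at h2; omega
  · have := Nat.le_of_dvd (by omega) h2; omega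

open Classical in
theorem DD.N_alt {a b : W} {R : Set W} (h : DD cs a b R) (n : ℕ) {t : W} (ht : t ∈ R) :
    NN cs (alt a b n) t = ∑ l ∈ Finset.range n, if rf a b l = t then 1 else 0 := by
  induction n generalizing a b t with
  | zero => simp [alt, NN_one]
  | succ n ih =>
    rw [alt, N_mul', h.ra.inv, ih h.symm (h.ca t ht), Finset.sum_range_succ', add_comm]
    congr 1
    · refine Finset.sum_congr rfl fun l _ => ?_
      have : rf b a l = a * t * a ↔ rf a b (l + 1) = t := by
        rw [rf_succ]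
        constructor
        · intro e; rw [e, ← mul_assoc, ← mul_assoc, h.ra.mul_self, one_mul, mul_assoc,
            h.ra.mul_self, mul_one]
        · intro e; rw [← e, ← mul_assoc, ← mul_assoc, h.ra.mul_self, one_mul, mul_assoc,
            h.ra.mul_self, mul_one]
      simp only [this]
    · have e : rf a b 0 = a := by simp [rf]
      rw [e]
      split_ifs with h1
      · rw [← h1, N_self cs h.ra]
      · by_contra h2
        exact h1 (h.na t ht h2).symm

theorem DD.rf_mem {a b : W} {R : Set W} (h : DD cs a b R) (l : ℕ) :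
    rf a b l ∈ R ∧ cs.IsReflection (rf a b l) := by
  induction l generalizing a b with
  | zero => simpa [rf] using ⟨h.ma, h.ra⟩
  | succ l ih =>
    rw [rf_succ]
    refine ⟨h.ca _ (ih h.symm).1, ?_⟩
    have := (ih h.symm).2.conj a
    rwa [h.ra.inv] at this

theorem DD.N_rf {a b : W} {R : Set W} (h : DD cs a b R) {n k : ℕ}
    (hn : orderOf (a * b) = 0 ∨ n ≤ orderOf (a * b)) (hk : k < n) :
    NN cs (alt a b n) (rf a b k) ≠ 0 := by
  rw [h.N_alt n (h.rf_mem k).1, Finset.sum_eq_single_of_mem k (Finset.mem_range.2 hk), if_pos rfl]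
  · decide
  · intro l hl hlk
    have := Finset.mem_range.1 hl
    refine if_neg fun e => ?_
    rcases lt_or_gt_of_ne hlk with h1 | h1
    · exact rf_inj e h1 (by omega)
    · exact rf_inj e.symm h1 (by omega)

theorem DD.rf_alt {a b : W} {R : Set W} (h : DD cs a b R) (n : ℕ) :
    rf a b n * alt a b (n + 1) = alt a b n := by
  induction n generalizing a b with
  | zero => simp [rf, alt, h.ra.mul_self]
  | succ n ih =>
    rw [rf_succ, alt, mul_assoc, ← mul_assoc a a, h.ra.mul_self, one_mul, mul_assoc, ih h.symm, alt]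

theorem DD.alt_mul {a b : W} {R : Set W} (h : DD cs a b R) (n : ℕ) :
    alt a b n * (alt b a n)⁻¹ = (a * b) ^ n := by
  induction n generalizing a b with
  | zero => simp [alt]
  | succ n ih =>
    rw [alt, alt, mul_inv_rev, h.rb.inv, mul_assoc, ← mul_assoc (alt b a n), ih h.symm]
    have := rf_succ (a := a) (b := b) n
    rw [rf, rf] at this
    have e := mul_right_cancel this
    rw [e]

def Dh (a b d : W) : Prop :=
  ∃ n, (orderOf (a * b) = 0 ∨ n ≤ orderOf (a * b)) ∧ (d = alt a b n ∨ d = alt b a n)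

theorem Dh.symm {a b d : W} (h : Dh a b d) : Dh b a d := by
  obtain ⟨n, h1, h2⟩ := h
  exact ⟨n, by rwa [order_symm], h2.symm⟩

theorem DD.dh_mul {a b : W} {R : Set W} (h : DD cs a b R) {d : W} (hd : Dh a b d) :
    Dh a b (a * d) := by
  have h1 : orderOf (a * b) ≠ 1 := fun e => h.ne (by
    rw [orderOf_eq_one_iff, mul_eq_one_iff_eq_inv, h.rb.inv] at e; exact e)
  have key : ∀ n, (orderOf (a * b) = 0 ∨ n ≤ orderOf (a * b)) → Dh a b (a * alt a b n) := by
    intro n hn
    cases n with
    | zero => exact ⟨1, by omega, Or.inl rfl⟩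
    | succ n => exact ⟨n, by omega, Or.inr (by rw [alt, ← mul_assoc, h.ra.mul_self, one_mul])⟩
  obtain ⟨n, hn, rfl | rfl⟩ := hd
  · exact key n hn
  · by_cases h2 : orderOf (a * b) = 0 ∨ n + 1 ≤ orderOf (a * b)
    · exact ⟨n + 1, h2, Or.inl rfl⟩
    · have e : n = orderOf (a * b) := by omega
      have e2 := h.alt_mul n
      rw [e, pow_orderOf_eq_one, mul_inv_eq_one, ← e] at e2
      rw [← e2]; exact key n hn

theorem DD.dh {a b : W} {R : Set W} (h : DD cs a b R) {d : W}
    (hd : d ∈ Subgroup.closure ({a, b} : Set W)) : Dh a b d := by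
  induction hd using Subgroup.closure_induction_left with
  | one => exact ⟨0, by omega, Or.inl rfl⟩
  | mul_left x hx y _ ih =>
    rcases hx with rfl | rfl
    · exact h.dh_mul ih
    · exact (h.symm.dh_mul ih.symm).symm
  | inv_mul_cancel x hx y _ ih =>
    rcases hx with rfl | rfl
    · rw [h.ra.inv]; exact h.dh_mul ih
    · rw [h.rb.inv]; exact (h.symm.dh_mul ih.symm).symm

theorem DD.conj_mem {a b : W} {R : Set W} (h : DD cs a b R) {d : W}
    (hd : d ∈ Subgroup.closure ({a, b} : Set W)) {t : W} (ht : t ∈ R) : d⁻¹ * t * d ∈ R := by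
  induction hd using Subgroup.closure_induction_left generalizing t with
  | one => simpa using ht
  | mul_left x hx y _ ih =>
    have e : (x * y)⁻¹ * t * (x * y) = y⁻¹ * (x⁻¹ * t * x) * y := by group
    rw [e]
    rcases hx with rfl | rfl
    · rw [h.ra.inv]; exact ih (h.ca t ht)
    · rw [h.rb.inv]; exact ih (h.cb t ht)
  | inv_mul_cancel x hx y _ ih =>
    have e : (x⁻¹ * y)⁻¹ * t * (x⁻¹ * y) = y⁻¹ * (x * t * x⁻¹) * y := by group
    rw [e]
    rcases hx with rfl | rfl
    · rw [h.ra.inv]; exact ih (h.ca t ht)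
    · rw [h.rb.inv]; exact ih (h.cb t ht)

theorem alt_mem (a b : W) (n : ℕ) : alt a b n ∈ Subgroup.closure ({a, b} : Set W) := by
  induction n generalizing a b with
  | zero => exact one_mem _
  | succ n ih =>
    exact mul_mem (Subgroup.subset_closure (Or.inl rfl)) (by rw [Set.pair_comm]; exact ih b a)

theorem exists_min' (D : Subgroup W) (R : Set W) (hR : R ⊆ D) (w : W) :
    ∃ d ∈ D, cs.length (d⁻¹ * w) ≤ cs.length w ∧ (∀ e ∈ D, cs.length (d⁻¹ * w) ≤ cs.length (e * w)) ∧
      ∀ t ∈ R, NN cs (d⁻¹ * w) t = 0 := by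
  obtain ⟨d, hd, hmin⟩ := WellFounded.has_min (measure fun d : W => cs.length (d⁻¹ * w)).wf
    (D : Set W) ⟨1, D.one_mem⟩
  have k : ∀ e ∈ D, cs.length (d⁻¹ * w) ≤ cs.length (e * w) := fun e he => by
    have := hmin e⁻¹ (D.inv_mem he)
    change ¬ cs.length (e⁻¹⁻¹ * w) < cs.length (d⁻¹ * w) at this
    rw [inv_inv] at this; omega
  refine ⟨d, hd, by simpa using k 1 D.one_mem, k, fun t ht => by_contra fun h => ?_⟩
  have h1 := NN_len cs _ _ h
  have := k (t * d⁻¹) (D.mul_mem (hR ht) (D.inv_mem hd))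
  rw [mul_assoc] at this; omega

theorem DD.N_coset {a b : W} {R : Set W} (h : DD cs a b R) {x : W} (hx : ∀ t ∈ R, NN cs x t = 0)
    {d : W} (hd : d ∈ Subgroup.closure ({a, b} : Set W)) {t : W} (ht : t ∈ R) :
    NN cs (d * x) t = NN cs d t := by
  rw [N_mul', hx _ (h.conj_mem hd ht), add_zero]

theorem DD.step {a b : W} {R : Set W} (h : DD cs a b R) {x : W} (hx : ∀ t ∈ R, NN cs x t = 0)
    {n : ℕ} (hn : orderOf (a * b) = 0 ∨ n + 1 ≤ orderOf (a * b)) :
    Step cs (alt a b n * x) (alt a b (n + 1) * x) ∧ Step cs (alt b a n * x) (alt a b (n + 1) * x) := by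
  have k : ∀ k < n + 1, Step cs (rf a b k * (alt a b (n + 1) * x)) (alt a b (n + 1) * x) := fun k hk =>
    ⟨_, (h.rf_mem k).2, rfl, NN_len cs _ _ (by
      rw [h.N_coset hx (alt_mem a b _) (h.rf_mem k).1]; exact h.N_rf hn hk)⟩
  constructor
  · have := k n (by omega)
    rwa [← mul_assoc, h.rf_alt] at this
  · have := k 0 (by omega)
    rwa [rf, pow_zero, one_mul, alt, ← mul_assoc, ← mul_assoc, h.ra.mul_self, one_mul] at this

theorem DD.chain {a b : W} {R : Set W} (h : DD cs a b R) {x : W} (hx : ∀ t ∈ R, NN cs x t = 0)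
    {n k : ℕ} (hn : orderOf (a * b) = 0 ∨ n ≤ orderOf (a * b)) (hk : k < n) :
    Relation.TransGen (Step cs) (alt a b k * x) (alt a b n * x) ∧
      Relation.TransGen (Step cs) (alt b a k * x) (alt a b n * x) := by
  induction n with
  | zero => omega
  | succ n ih =>
    have s := h.step hx hn
    rcases Nat.lt_succ_iff_lt_or_eq.1 hk with h1 | rfl
    · have := ih (by omega) h1
      exact ⟨this.1.tail s.1, this.2.tail s.1⟩
    · exact ⟨.single s.1, .single s.2⟩

theorem DD.len {i j : B} {R : Set W} (h : DD cs (cs.simple i) (cs.simple j) R) {x : W}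
    (hx : ∀ t ∈ R, NN cs x t = 0) {n : ℕ}
    (hn : orderOf (cs.simple i * cs.simple j) = 0 ∨ n ≤ orderOf (cs.simple i * cs.simple j)) :
    cs.length (alt (cs.simple i) (cs.simple j) n * x) = cs.length x + n := by
  induction n generalizing i j with
  | zero => simp [alt]
  | succ n ih =>
    obtain ⟨-, t, -, -, h2⟩ := h.step hx hn
    have h3 := ih h.symm (by rw [order_symm]; omega)
    have h4 := cs.length_mul_le (cs.simple i) (alt (cs.simple j) (cs.simple i) n * x)
    rw [cs.length_simple, ← mul_assoc] at h4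
    rw [alt] at h2 ⊢
    omega

end Pool.Agent.H68.Qp
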