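import Pool.Agent.H68.Qp2

namespace Pool.Agent.H68.Qp

open Finsupp Pool.Agent.H68.Sg

variable {B W : Type*} [Group W] {M : CoxeterMatrix B} (cs : CoxeterSystem M W)

def RR (P : Submodule ℝ (B →₀ ℝ)) : Set W := {t | ∃ β ∈ P, Root cs t β}

def Cn (P : Submodule ℝ (B →₀ ℝ)) (t : W) : Prop :=
  t ∈ RR cs P ∧ ∀ t' ∈ RR cs P, NN cs t t' ≠ 0 → t' = t

variable {cs} {P : Submodule ℝ (B →₀ ℝ)}

theorem RR_all {t : W} (h : t ∈ RR cs P) {γ : B →₀ ℝ} (hγ : Root cs t γ) : γ ∈ P := by
  obtain ⟨β, hβ, h1⟩ := h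
  obtain ⟨c, -, rfl⟩ := h1.prop hγ
  exact P.smul_mem c hβ

theorem RR_refl {t : W} (h : t ∈ RR cs P) : cs.IsReflection t := by
  obtain ⟨β, -, h1⟩ := h; exact h1.refl

theorem RR_sub {t : W} (h : t ∈ RR cs P) (v : B →₀ ℝ) : rho cs t v - v ∈ P := by
  obtain ⟨β, hβ, h1⟩ := h
  obtain ⟨c, hc⟩ := h1.apply v
  rw [hc, add_sub_cancel_left]; exact P.smul_mem c hβ

theorem RR_conj {t t' : W} (h : t ∈ RR cs P) (h' : t' ∈ RR cs P) : t * t' * t ∈ RR cs P := by
  obtain ⟨β, hβ, h1⟩ := h'
  have := h1.conj t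
  rw [(RR_refl h).inv] at this
  exact ⟨_, by simpa using P.add_mem (RR_sub h β) hβ, this⟩

theorem cn_pos {t t' : W} (h : Cn cs P t) (h' : t' ∈ RR cs P) (hne : t' ≠ t) {β : B →₀ ℝ}
    (hβ : Root cs t' β) (hp : 0 ≤ β) : 0 ≤ rho cs t β := by
  have := (hβ.N hp t).1 (by_contra fun h0 => hne (h.2 t' h' h0))
  rwa [(RR_refl h.1).inv] at this

theorem three {β γ : B →₀ ℝ} (hP : P = Submodule.span ℝ {β, γ}) (t : Fin 3 → W)
    (ht : ∀ i, Cn cs P (t i)) (inj : Function.Injective t) : False := by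
  classical
  choose b hb hp using fun i => root_pos (RR_refl (ht i).1)
  have hm : ∀ i, b i ∈ P := fun i => RR_all (ht i).1 (hb i)
  have hli : ¬ LinearIndependent ℝ b := by
    intro h
    haveI : Module.Finite ℝ P := hP ▸ Module.Finite.span_of_finite ℝ (Set.toFinite _)
    have h1 : LinearIndependent ℝ (fun i => (⟨b i, hm i⟩ : P)) :=
      LinearIndependent.of_comp P.subtype h
    have h2 := h1.fintype_card_le_finrank
    have h3 : Module.finrank ℝ P ≤ 2 := by
      rw [hP]
      have := finrank_span_finset_le_card (R := ℝ) ({β, γ} : Finset (B →₀ ℝ))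
      rw [Set.finrank, Finset.coe_pair] at this
      exact this.trans Finset.card_le_two
    simp at h2; omega
  have L0 : ∀ (i j k : Fin 3) (x y z : ℝ), x • b i + y • b j + z • b k = 0 → 0 < x → 0 ≤ y → 0 ≤ z →
      False := by
    intro i j k x y z e hx hy hz
    have h1 : x • b i = -(y • b j + z • b k) := by linear_combination (norm := module) e
    have h2 : x • b i ≤ 0 := by
      rw [h1]; exact neg_nonpos.2 (add_nonneg (smul_nonneg hy (hp j)) (smul_nonneg hz (hp k)))
    have h3 := le_antisymm h2 (smul_nonneg hx.le (hp i))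
    exact (hb i).ne ((smul_eq_zero.1 h3).resolve_left hx.ne')
  have L1 : ∀ (i j k : Fin 3) (x y z : ℝ), j ≠ i → k ≠ i → x • b i + y • b j + z • b k = 0 → x < 0 →
      0 ≤ y → 0 ≤ z → False := by
    intro i j k x y z hj hk e hx hy hz
    have e1 := congrArg (rho cs (t i)) e
    rw [map_add, map_add, map_smul, map_smul, map_smul, (hb i).self, map_zero] at e1
    have h1 : (-x) • b i = -(y • rho cs (t i) (b j) + z • rho cs (t i) (b k)) := by
      linear_combination (norm := module) e1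
    have h2 : (-x) • b i ≤ 0 := by
      rw [h1]
      exact neg_nonpos.2 (add_nonneg
        (smul_nonneg hy (cn_pos (ht i) (ht j).1 (fun h => hj (inj h)) (hb j) (hp j)))
        (smul_nonneg hz (cn_pos (ht i) (ht k).1 (fun h => hk (inj h)) (hb k) (hp k))))
    have h3 := le_antisymm h2 (smul_nonneg (neg_nonneg.2 hx.le) (hp i))
    exact (hb i).ne ((smul_eq_zero.1 h3).resolve_left (by linarith))
  have L : ∀ (i j k : Fin 3) (x y z : ℝ), j ≠ i → k ≠ i → j ≠ k → x • b i + y • b j + z • b k = 0 →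
      0 < x → False := by
    intro i j k x y z hj hk hjk e hx
    rcases le_or_gt 0 y with hy | hy <;> rcases le_or_gt 0 z with hz | hz
    · exact L0 i j k x y z e hx hy hz
    · exact L1 k i j z x y hk.symm hjk (by linear_combination (norm := module) e) hz hx.le hy
    · exact L1 j i k y x z hj.symm hjk.symm (by linear_combination (norm := module) e) hy hx.le hz
    · exact L1 i j k (-x) (-y) (-z) hj hk (by linear_combination (norm := module) -e)
        (by linarith) (by linarith) (by linarith)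
  have L' : ∀ (i j k : Fin 3) (x y z : ℝ), j ≠ i → k ≠ i → j ≠ k → x • b i + y • b j + z • b k = 0 →
      x = 0 := by
    intro i j k x y z hj hk hjk e
    rcases lt_trichotomy x 0 with h | h | h
    · exact (L i j k (-x) (-y) (-z) hj hk hjk (by linear_combination (norm := module) -e)
        (by linarith)).elim
    · exact h
    · exact (L i j k x y z hj hk hjk e h).elim
  refine hli (Fintype.linearIndependent_iff.2 fun g hg i => ?_)
  rw [Fin.sum_univ_three] at hg
  fin_cases i
  · exact L' 0 1 2 _ _ _ (by decide) (by decide) (by decide) hg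
  · exact L' 1 0 2 (g 1) (g 0) (g 2) (by decide) (by decide) (by decide)
      (by linear_combination (norm := module) hg)
  · exact L' 2 0 1 (g 2) (g 0) (g 1) (by decide) (by decide) (by decide)
      (by linear_combination (norm := module) hg)

theorem gen (Q : W → Prop) (h1 : ∀ t, Cn cs P t → Q t)
    (h2 : ∀ x ∈ RR cs P, ∀ y ∈ RR cs P, Q x → Q y → Q (x * y * x)) (t : W) (ht : t ∈ RR cs P) :
    Q t := by
  induction hn : cs.length t using Nat.strong_induction_on generalizing t with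
  | _ n ih =>
  by_cases hc : Cn cs P t
  · exact h1 t hc
  have : ∃ t' ∈ RR cs P, NN cs t t' ≠ 0 ∧ t' ≠ t := by
    by_contra h
    exact hc ⟨ht, fun t' h3 h4 => by_contra fun h5 => h ⟨t', h3, h4, h5⟩⟩
  obtain ⟨t', h3, h4, h5⟩ := this
  obtain ⟨x, hx, l1, l2⟩ := shorter cs (RR_refl ht) h4 h5
  have xm : x ∈ RR cs P := by
    rcases hx with rfl | rfl
    exacts [h3, RR_conj ht h3]
  have := h2 x xm _ (RR_conj xm ht) (ih _ (hn ▸ l1) x xm rfl) (ih _ (hn ▸ l2) _ (RR_conj xm ht) rfl)
  rwa [← mul_assoc, ← mul_assoc, (RR_refl xm).mul_self, one_mul, mul_assoc, (RR_refl xm).mul_self,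
    mul_one] at this

theorem exists_dd {β γ : B →₀ ℝ} (hP : P = Submodule.span ℝ {β, γ}) {r r' : W} (hr : r ∈ RR cs P)
    (hr' : r' ∈ RR cs P) (hne : r ≠ r') : ∃ a b, DD cs a b (RR cs P) ∧
      (∀ t, Cn cs P t → t = a ∨ t = b) ∧ ∀ t ∈ RR cs P, ∃ i : ℤ, t = (a * b) ^ i * a := by
  have : ∃ a b, Cn cs P a ∧ Cn cs P b ∧ a ≠ b := by
    by_contra h
    obtain ⟨a, ha⟩ := gen (cs := cs) (P := P) (fun _ => ∃ a, Cn cs P a) (fun t h => ⟨t, h⟩)
      (fun _ _ _ _ h _ => h) r hr
    have k := gen (cs := cs) (P := P) (fun t => t = a)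
      (fun t ht => by_contra fun e => h ⟨t, a, ht, ha, e⟩)
      (fun x hx y _ e1 e2 => by rw [e2, ← e1, (RR_refl hx).mul_self, one_mul])
    exact hne ((k r hr).trans (k r' hr').symm)
  obtain ⟨a, b, ha, hb, hab⟩ := this
  have two : ∀ t, Cn cs P t → t = a ∨ t = b := by
    intro t ht
    by_contra h
    push Not at h
    refine three hP ![a, b, t] (fun i => by fin_cases i <;> simpa) ?_
    intro i j
    fin_cases i <;> fin_cases j <;> simp [hab, hab.symm, h.1, h.2, h.1.symm, h.2.symm]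
  have a2 := (RR_refl ha.1).mul_self
  have b2 := (RR_refl hb.1).mul_self
  refine ⟨a, b, ⟨RR_refl ha.1, RR_refl hb.1, hab, ha.1, hb.1, fun t => RR_conj ha.1,
    fun t => RR_conj hb.1, ha.2, hb.2⟩, two, gen _ (fun t ht => ?_) ?_⟩
  · rcases two t ht with rfl | rfl
    · exact ⟨0, by simp⟩
    · exact ⟨-1, by rw [← rf_z a2 b2, zpow_one, ← mul_assoc, a2, one_mul]⟩
  · rintro x - y - ⟨i, rfl⟩ ⟨j, rfl⟩
    refine ⟨i + -j + i, ?_⟩
    rw [mul_assoc _ a, ← mul_assoc a, rf_z a2 b2, mul_assoc _ a a, a2, mul_one, zpow_add, zpow_add]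
    simp only [mul_assoc]

theorem generic (T : Finset (B →₀ ℝ)) (hT : ∀ v ∈ T, v ≠ 0) :
    ∃ c : B → ℝ, (∀ s, 0 < c s) ∧ ∀ v ∈ T, linearCombination ℝ c v ≠ 0 := by
  classical
  induction T using Finset.induction_on with
  | empty => exact ⟨fun _ => 1, fun _ => one_pos, by simp⟩
  | insert v T hv ih =>
    obtain ⟨c, hc, h⟩ := ih fun u hu => hT u (Finset.mem_insert_of_mem hu)
    obtain ⟨s, hs⟩ := Finsupp.ne_iff.1 (hT v (Finset.mem_insert_self _ _))
    obtain ⟨ε, h1, h2⟩ := (Set.Ioi_infinite (0 : ℝ)).exists_notMem_finset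
      ((insert v T).image fun u => -linearCombination ℝ c u / u s)
    have e : ∀ u : B →₀ ℝ, linearCombination ℝ (c + Pi.single s ε) u =
        linearCombination ℝ c u + ε * u s := fun u => by
      induction u using Finsupp.induction_linear with
      | zero => simp
      | add f g hf hg => rw [map_add, map_add, hf, hg, Finsupp.add_apply]; ring
      | single a b =>
        by_cases e : a = s
        · subst e; simp; ring
        · simp [e]
    refine ⟨c + Pi.single s ε, fun x => ?_, fun u hu h3 => ?_⟩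
    · have := hc x
      have h1' : (0 : ℝ) < ε := h1
      by_cases e : x = s
      · subst e; simp; linarith
      · simpa [e] using this
    · rw [e] at h3
      by_cases h4 : u s = 0
      · rw [h4, mul_zero, add_zero] at h3
        rcases Finset.mem_insert.1 hu with rfl | hu
        exacts [hs h4, h u hu h3]
      · exact h2 (Finset.mem_image.2 ⟨u, hu, by field_simp; linarith⟩)

theorem dominant (n : ℕ) (p : (B →₀ ℝ) →ₗ[ℝ] ℝ)
    (hf : {t | ∃ β, Root cs t β ∧ 0 ≤ β ∧ p β < 0}.Finite)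
    (hn : {t | ∃ β, Root cs t β ∧ 0 ≤ β ∧ p β < 0}.ncard ≤ n) :
    ∃ u, ∀ s, 0 ≤ p (rho cs u (al s)) := by
  induction n generalizing p with
  | zero =>
    refine ⟨1, fun s => not_lt.1 fun h => ?_⟩
    have := (Set.ncard_eq_zero hf).1 (by omega)
    exact this.subset ⟨_, root_al s, al_nonneg s, by simpa using h⟩
  | succ n ih =>
    by_cases h : ∀ s, 0 ≤ p (al s)
    · exact ⟨1, by simpa using h⟩
    push Not at h
    obtain ⟨s, hs⟩ := h
    have sub : {t | ∃ β, Root cs t β ∧ 0 ≤ β ∧ (p.comp (rho cs (cs.simple s))) β < 0} ⊆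
        (fun t => cs.simple s * t * cs.simple s) ''
          ({t | ∃ β, Root cs t β ∧ 0 ≤ β ∧ p β < 0} \ {cs.simple s}) := by
      rintro t ⟨β, h1, h2, h3⟩
      have hts : t ≠ cs.simple s := by
        rintro rfl
        rw [LinearMap.comp_apply, h1.self, map_neg] at h3
        obtain ⟨c, hc, rfl⟩ := (root_al s).prop h1
        have : 0 ≤ c := by simpa [al] using h2 s
        rw [map_smul, smul_eq_mul] at h3
        nlinarith
      have h4 := (h1.N h2 _).1 (by_contra fun h0 => hts (N_simple cs s h0))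
      rw [cs.inv_simple] at h4
      refine ⟨_, ⟨⟨_, h1.conj (cs.simple s), h4, h3⟩, fun e => hts ?_⟩, by simp [mul_assoc]⟩
      have e' : cs.simple s * t * (cs.simple s)⁻¹ = cs.simple s := e
      rw [mul_inv_eq_iff_eq_mul] at e'
      exact mul_left_cancel e'
    have fin2 := (hf.diff (t := {cs.simple s})).image (fun t => cs.simple s * t * cs.simple s)
    obtain ⟨u, hu⟩ := ih _ (fin2.subset sub) (by
      have a1 := Set.ncard_le_ncard sub fin2
      have a2 := Set.ncard_image_le (f := fun t => cs.simple s * t * cs.simple s)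
        (hf.diff (t := {cs.simple s}))
      have a3 := Set.ncard_diff_singleton_lt_of_mem (a := cs.simple s)
        (show _ ∈ {t | ∃ β, Root cs t β ∧ 0 ≤ β ∧ p β < 0} from ⟨_, root_al s, al_nonneg s, hs⟩) hf
      omega)
    exact ⟨cs.simple s * u, fun x => by rw [rho_mul]; exact hu x⟩

theorem lc_nonneg {c : B → ℝ} (hc : ∀ s, 0 ≤ c s) {v : B →₀ ℝ} (hv : 0 ≤ v) :
    0 ≤ linearCombination ℝ c v ∧ (linearCombination ℝ c v = 0 → ∀ s, v s ≠ 0 → c s = 0) := by
  rw [linearCombination_apply, Finsupp.sum]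
  have h : ∀ s ∈ v.support, 0 ≤ v s • c s := fun s _ => smul_nonneg (hv s) (hc s)
  refine ⟨Finset.sum_nonneg h, fun e s hs => ?_⟩
  have := (Finset.sum_eq_zero_iff_of_nonneg h).1 e s (mem_support_iff.2 hs)
  exact (smul_eq_zero.1 this).resolve_left hs

theorem finite_case {a b : W} (h : DD cs a b (RR cs P))
    (hg : ∀ t ∈ RR cs P, t ∈ Subgroup.closure ({a, b} : Set W)) (hm : orderOf (a * b) ≠ 0) :
    ∃ u i j, i ≠ j ∧ u * cs.simple i * u⁻¹ ∈ RR cs P ∧ u * cs.simple j * u⁻¹ ∈ RR cs P := by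
  classical
  set D := Subgroup.closure ({a, b} : Set W) with hD
  have hfin : (D : Set W).Finite := by
    refine (((Set.finite_Iic (orderOf (a * b))).image (alt a b)).union
      ((Set.finite_Iic (orderOf (a * b))).image (alt b a))).subset fun d hd => ?_
    obtain ⟨n, hn, e | e⟩ := h.dh hd
    exacts [Or.inl ⟨n, hn.resolve_left hm, e.symm⟩, Or.inr ⟨n, hn.resolve_left hm, e.symm⟩]
  let S : (B →₀ ℝ) →ₗ[ℝ] (B →₀ ℝ) := ∑ d ∈ hfin.toFinset, rho cs d
  have hS : ∀ v, S v = ∑ d ∈ hfin.toFinset, rho cs d v := fun v => LinearMap.sum_apply _ _ _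
  have S0 : ∀ t ∈ RR cs P, ∀ β, Root cs t β → S β = 0 := by
    intro t ht β hβ
    have e : S (rho cs t β) = S β := by
      rw [hS, hS]
      refine Finset.sum_nbij' (fun d => d * t) (fun d => d * t⁻¹) ?_ ?_ (by simp) (by simp)
        (fun d _ => (rho_mul cs d t β).symm)
      · intro d hd; simpa using D.mul_mem (by simpa using hd) (hg t ht)
      · intro d hd; simpa using D.mul_mem (by simpa using hd) (D.inv_mem (hg t ht))
    rw [hβ.self, map_neg] at e
    linear_combination (norm := module) (-1 / 2 : ℝ) • e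
  have sub : ∀ d ∈ D, ∀ v, rho cs d v - v ∈ P := by
    intro d hd
    induction hd using Subgroup.closure_induction with
    | mem x hx =>
      rcases hx with rfl | rfl
      exacts [RR_sub h.ma, RR_sub h.mb]
    | one => intro v; simp
    | mul x y _ _ hx hy =>
      intro v
      have := P.add_mem (hx (rho cs y v)) (hy v)
      rwa [sub_add_sub_cancel, ← rho_mul] at this
    | inv x _ hx =>
      intro v
      have := P.neg_mem (hx (rho cs x⁻¹ v))
      rwa [rho_inv', neg_sub] at this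
  have S1 : ∀ v, S v = 0 → v ∈ P := by
    intro v hv
    have h1 : ∑ d ∈ hfin.toFinset, (rho cs d v - v) ∈ P :=
      P.sum_mem fun d hd => sub d (by simpa using hd) v
    rw [Finset.sum_sub_distrib, ← hS, hv, Finset.sum_const, zero_sub, neg_mem_iff,
      ← Nat.cast_smul_eq_nsmul ℝ] at h1
    have h2 : (hfin.toFinset.card : ℝ) ≠ 0 := by
      have : 0 < hfin.toFinset.card := Finset.card_pos.2 ⟨1, by simp⟩
      positivity
    exact (P.smul_mem_iff h2).1 h1
  let T0 : Finset W := hfin.toFinset.biUnion fun d => (NN cs d⁻¹).support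
  have hch : ∀ t : W, ∃ β, cs.IsReflection t → Root cs t β := fun t => by
    by_cases ht : cs.IsReflection t
    · exact (root_ex ht).imp fun _ h _ => h
    · exact ⟨0, fun h => absurd h ht⟩
  choose rt hrt using hch
  obtain ⟨c, hc, hc2⟩ := generic ((T0.image fun t => S (rt t)).erase 0)
    (fun v hv => (Finset.mem_erase.1 hv).1)
  let p : (B →₀ ℝ) →ₗ[ℝ] ℝ := (linearCombination ℝ c).comp S
  have ppos : ∀ t β, Root cs t β → 0 ≤ β → t ∉ T0 → 0 < p β := by
    intro t β h1 h2 h3
    have k : ∀ d ∈ hfin.toFinset, 0 ≤ rho cs d β := fun d hd => by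
      have := (h1.N h2 d⁻¹).1 (by_contra fun h0 => h3
        (Finset.mem_biUnion.2 ⟨d, hd, mem_support_iff.2 h0⟩))
      rwa [inv_inv] at this
    have hn : 0 ≤ S β := by rw [hS]; exact Finset.sum_nonneg k
    obtain ⟨k1, k2⟩ := lc_nonneg (fun s => (hc s).le) hn
    refine lt_of_le_of_ne k1 fun e => ?_
    have k3 : S β = 0 := Finsupp.ext fun s => by_contra fun h5 => (hc s).ne' (k2 e.symm s h5)
    rw [hS] at k3
    have := (Finset.sum_eq_zero_iff_of_nonneg k).1 k3 1 (by simp)
    rw [map_one] at this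
    exact h1.ne this
  have pz : ∀ t β, Root cs t β → p β = 0 → t ∈ RR cs P := by
    intro t β h1 h2
    by_cases h3 : t ∈ T0
    · obtain ⟨e, he, rfl⟩ := (hrt t h1.refl).prop h1
      rw [map_smul, smul_eq_zero] at h2
      refine ⟨_, S1 _ (by_contra fun h4 => ?_), hrt t h1.refl⟩
      exact hc2 _ (Finset.mem_erase.2 ⟨h4, Finset.mem_image_of_mem _ h3⟩) (h2.resolve_left he)
    · rcases h1.sign with h4 | h4
      · exact absurd h2 (ppos t β h1 h4 h3).ne'
      · have := ppos t _ h1.neg (neg_nonneg.2 h4) h3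
        rw [map_neg, h2] at this
        simp at this
  obtain ⟨u, hu⟩ := dominant (cs := cs) _ p (T0.finite_toSet.subset fun t ⟨β, h1, h2, h3⟩ =>
    by_contra fun h4 => absurd (ppos t β h1 h2 h4) (not_lt.2 h3.le)) le_rfl
  have key : ∀ t ∈ RR cs P, ∃ γ, Root cs (u⁻¹ * t * u) γ ∧ 0 ≤ γ ∧
      ∀ s, γ s ≠ 0 → u * cs.simple s * u⁻¹ ∈ RR cs P := by
    intro t ht
    obtain ⟨γ, h1, h2⟩ := root_pos (by simpa using (RR_refl ht).conj u⁻¹ :
      cs.IsReflection (u⁻¹ * t * u))
    refine ⟨γ, h1, h2, fun s hs => pz _ _ ((root_al s).conj u) ?_⟩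
    refine (lc_nonneg hu h2).2 ?_ s hs
    have e : linearCombination ℝ (fun s => p (rho cs u (al s))) = p.comp (rho cs u) :=
      Finsupp.lhom_ext' fun j => LinearMap.ext_ring (by simp [al])
    have h3 := h1.conj u
    rw [show u * (u⁻¹ * t * u) * u⁻¹ = t by group] at h3
    rw [e]
    change linearCombination ℝ c (S _) = 0
    rw [S0 t ht _ h3, map_zero]
  by_contra hno
  push Not at hno
  obtain ⟨γ, g1, g2, g3⟩ := key a h.ma
  obtain ⟨s, hs⟩ := Finsupp.ne_iff.1 g1.ne
  have fin : ∀ t ∈ RR cs P, u⁻¹ * t * u = cs.simple s := by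
    intro t ht
    obtain ⟨δ, d1, d2, d3⟩ := key t ht
    refine d1.eq_simple d2 (c := δ s) (Finsupp.ext fun x => ?_)
    by_cases e : x = s
    · subst e; simp [al]
    · have : δ x = 0 := by_contra fun h5 => hno u s x (Ne.symm e) (g3 s hs) (d3 x h5)
      simp [al, e, this]
  exact h.ne (mul_left_cancel (mul_right_cancel ((fin a h.ma).trans (fin b h.mb).symm)))

end Pool.Agent.H68.Qp
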