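import Pool.Agent.H68.Qp3

namespace Pool.Agent.H68.Qp

open Finsupp Pool.Agent.H68.Sg

variable {B W : Type*} [Group W] {M : CoxeterMatrix B} {cs : CoxeterSystem M W}
  {θ : MulAut W} {σ : B → B}

theorem len_th (hσ : ∀ i, θ (cs.simple i) = cs.simple (σ i)) (h2 : ∀ g, θ (θ g) = g) (g : W) :
    cs.length (θ g) = cs.length g := by
  have k : ∀ g, cs.length (θ g) ≤ cs.length g := fun g => by
    obtain ⟨ω, hω, rfl⟩ := cs.exists_isReduced g
    have e : ∀ ω : List B, θ (cs.wordProd ω) = cs.wordProd (ω.map σ) := fun ω => by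
      induction ω with
      | nil => simp
      | cons i ω ih => rw [List.map_cons, cs.wordProd_cons, cs.wordProd_cons, map_mul, ih, hσ]
    rw [e, hω.eq]
    simpa using cs.length_wordProd_le (ω.map σ)
  have := k (θ g)
  rw [h2] at this
  exact le_antisymm (k g) this

theorem refl_th (hσ : ∀ i, θ (cs.simple i) = cs.simple (σ i)) {t : W} (h : cs.IsReflection t) :
    cs.IsReflection (θ t) := by
  obtain ⟨u, i, rfl⟩ := h
  exact ⟨θ u, σ i, by rw [map_mul, map_mul, map_inv, hσ]⟩

theorem N_th (hσ : ∀ i, θ (cs.simple i) = cs.simple (σ i)) (h2 : ∀ g, θ (θ g) = g) (g t : W) :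
    NN cs (θ g) (θ t) = NN cs g t := by
  have k : ∀ g t, NN cs g t ≠ 0 → NN cs (θ g) (θ t) ≠ 0 := fun g t h => by
    rw [N_iff cs (refl_th hσ (N_refl cs h)), ← map_mul, len_th hσ h2, len_th hσ h2]
    exact NN_len cs g t h
  have k1 := k g t
  have k2 := k (θ g) (θ t)
  rw [h2, h2] at k2
  revert k1 k2
  generalize NN cs g t = x; generalize NN cs (θ g) (θ t) = y; revert x y; decide

theorem root_th (hσ : ∀ i, θ (cs.simple i) = cs.simple (σ i)) {t : W} {β : B →₀ ℝ}
    (h : Root cs t β) : Root cs (θ t) (lmapDomain ℝ ℝ σ β) := by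
  have hM : ∀ i j, M (σ i) (σ j) = M i j := fun i j => by
    by_cases e : i = j
    · rw [e, M.diagonal, M.diagonal]
    · have e' : σ i ≠ σ j := fun h => e (simple_inj cs (θ.injective (by rw [hσ, hσ, h])))
      rw [← order_eq cs e, ← order_eq cs e', ← hσ, ← hσ, ← map_mul, θ.orderOf_eq]
  have ha : ∀ i, lmapDomain ℝ ℝ σ (al i) = al (σ i) := fun i => by simp [al]
  have hl : ∀ i v, lf M (σ i) (lmapDomain ℝ ℝ σ v) = lf M i v := fun i v => by
    have : (lf M (σ i)).comp (lmapDomain ℝ ℝ σ) = lf M i :=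
      Finsupp.lhom_ext' fun j => LinearMap.ext_ring (by simp [lf, cR, hM])
    exact LinearMap.congr_fun this v
  have he : ∀ g v, lmapDomain ℝ ℝ σ (rho cs g v) = rho cs (θ g) (lmapDomain ℝ ℝ σ v) := by
    intro g
    induction g using cs.simple_induction_left with
    | one => intro v; simp
    | mul_simple_left g i ih =>
      intro v
      rw [map_mul θ, rho_mul, rho_mul, hσ, rho_simple, rho_simple, sig_apply, sig_apply, map_add,
        map_smul, ← ih, hl, ha]
  obtain ⟨u, i, rfl, rfl⟩ := h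
  exact ⟨θ u, σ i, by rw [map_mul, map_mul, map_inv, hσ], by rw [he, ha]⟩

theorem alt_conj (u a b : W) (n : ℕ) :
    u⁻¹ * alt a b n * u = alt (u⁻¹ * a * u) (u⁻¹ * b * u) n := by
  induction n generalizing a b with
  | zero => simp [alt]
  | succ n ih => rw [alt, alt, ← ih]; group

theorem alt_even (a b : W) (j : ℕ) : alt a b (2 * j) = (a * b) ^ j ∧
    alt a b (2 * j + 1) = (a * b) ^ j * a := by
  induction j with
  | zero => simp [alt]
  | succ j ih =>
    have e : alt a b (2 * (j + 1)) = (a * b) ^ (j + 1) := by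
      rw [mul_add, mul_one, alt_succ', ih.2, if_neg (by simp), pow_succ, mul_assoc]
    exact ⟨e, by rw [alt_succ', e, if_pos (by simp)]⟩

structure Cfg (cs : CoxeterSystem M W) (θ : MulAut W) (P : Submodule ℝ (B →₀ ℝ)) (a b x : W) :
    Prop where
  dd : DD cs a b (RR cs P)
  two : ∀ t, Cn cs P t → t = a ∨ t = b
  gen : ∀ t ∈ RR cs P, ∃ i : ℤ, t = (a * b) ^ i * a
  hx : ∀ t ∈ RR cs P, NN cs x t = 0
  t1 : ∀ t ∈ RR cs P, x * θ t * x⁻¹ ∈ RR cs P
  t2 : ∀ t ∈ RR cs P, θ (x⁻¹ * t * x) ∈ RR cs P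

variable {P : Submodule ℝ (B →₀ ℝ)} {a b x : W}

theorem Cfg.symm (h : Cfg cs θ P a b x) : Cfg cs θ P b a x := by
  refine ⟨h.dd.symm, fun t ht => (h.two t ht).symm, fun t ht => ?_, h.hx, h.t1, h.t2⟩
  obtain ⟨i, rfl⟩ := h.gen t ht
  have e : a * b = (b * a)⁻¹ := by rw [mul_inv_rev, h.dd.ra.inv, h.dd.rb.inv]
  refine ⟨-i + -1, ?_⟩
  rw [zpow_add, zpow_neg_one, ← e, e, inv_zpow', ← e, mul_assoc, mul_assoc, h.dd.rb.mul_self, mul_one]

theorem Cfg.mem (h : Cfg cs θ P a b x) {t : W} (ht : t ∈ RR cs P) :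
    t ∈ Subgroup.closure ({a, b} : Set W) := by
  obtain ⟨i, rfl⟩ := h.gen t ht
  have ha : a ∈ Subgroup.closure ({a, b} : Set W) := Subgroup.subset_closure (Or.inl rfl)
  exact mul_mem (zpow_mem (mul_mem ha (Subgroup.subset_closure (Or.inr rfl))) i) ha

theorem Cfg.fin (h : Cfg cs θ P a b x) (hσ : ∀ i, θ (cs.simple i) = cs.simple (σ i))
    (h2 : ∀ g, θ (θ g) = g) (hm : orderOf (a * b) ≠ 0) {n : ℕ} (hn : n ≤ orderOf (a * b)) :
    ∃ u, cs.length (u⁻¹ * (alt a b n * x) * θ u) = cs.length (u⁻¹ * (alt b a n * x) * θ u) := by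
  obtain ⟨u0, i, j, hij, hi, hj⟩ := finite_case h.dd (fun t => h.mem) hm
  obtain ⟨e, he, -, -, hu⟩ := exists_min' (cs := cs) _ _ (fun t => h.mem) u0
  set u := e⁻¹ * u0 with hu0
  have N1 : ∀ y, u * y * u⁻¹ ∈ RR cs P → NN cs u⁻¹ y = 0 := fun y hy => by
    rw [← hu _ hy, ← N_inv cs u]; congr 1; group
  have can : ∀ i, u0 * cs.simple i * u0⁻¹ ∈ RR cs P → Cn cs P (u * cs.simple i * u⁻¹) := by
    intro i hi
    have m : u * cs.simple i * u⁻¹ ∈ RR cs P := by
      have := h.dd.conj_mem he hi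
      rwa [show e⁻¹ * (u0 * cs.simple i * u0⁻¹) * e = u * cs.simple i * u⁻¹ by rw [hu0]; group] at this
    refine ⟨m, fun t ht h0 => by_contra fun hne => h0 ?_⟩
    rw [N_mul', NN_mul_simple, Finsupp.add_apply, hu t ht, single_eq_of_ne hne, zero_add, zero_add]
    refine N1 _ ?_
    have := RR_conj m ht
    rwa [show u * cs.simple i * u⁻¹ * t * (u * cs.simple i * u⁻¹) =
      u * ((u * cs.simple i)⁻¹ * t * (u * cs.simple i)) * u⁻¹ by
        rw [mul_inv_rev u, cs.inv_simple]; group] at this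
  have key : ∃ i j, u⁻¹ * a * u = cs.simple i ∧ u⁻¹ * b * u = cs.simple j := by
    have ne : u * cs.simple i * u⁻¹ ≠ u * cs.simple j * u⁻¹ := fun e =>
      hij (simple_inj cs (mul_left_cancel (mul_right_cancel e)))
    rcases h.two _ (can i hi) with e1 | e1 <;> rcases h.two _ (can j hj) with e2 | e2
    · exact absurd (e1.trans e2.symm) ne
    · exact ⟨i, j, by rw [← e1]; group, by rw [← e2]; group⟩
    · exact ⟨j, i, by rw [← e2]; group, by rw [← e1]; group⟩
    · exact absurd (e1.trans e2.symm) ne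
  obtain ⟨i, j, ei, ej⟩ := key
  have D : DD cs (cs.simple i) (cs.simple j) {t | u * t * u⁻¹ ∈ RR cs P} := by
    refine ⟨cs.isReflection_simple i, cs.isReflection_simple j, fun e => h.dd.ne ?_, ?_, ?_, ?_, ?_,
      fun t _ k => N_simple cs i k, fun t _ k => N_simple cs j k⟩
    · rw [← ei, ← ej] at e; exact mul_left_cancel (mul_right_cancel e)
    · change _ ∈ RR cs P; rw [← ei]; simpa [mul_assoc] using h.dd.ma
    · change _ ∈ RR cs P; rw [← ej]; simpa [mul_assoc] using h.dd.mb
    · intro t ht; change _ ∈ RR cs P; rw [← ei]; simpa [mul_assoc] using h.dd.ca _ ht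
    · intro t ht; change _ ∈ RR cs P; rw [← ej]; simpa [mul_assoc] using h.dd.cb _ ht
  have hx' : ∀ t ∈ {t | u * t * u⁻¹ ∈ RR cs P}, NN cs (u⁻¹ * (x * θ u)) t = 0 := by
    intro t ht
    rw [N_mul', N1 t ht, zero_add, inv_inv, N_mul', h.hx _ ht, zero_add, ← hu _ (h.t2 _ ht),
      ← N_th hσ h2 u, h2]
  have ho : orderOf (cs.simple i * cs.simple j) = orderOf (a * b) := by
    rw [← ei, ← ej, show u⁻¹ * a * u * (u⁻¹ * b * u) = u⁻¹ * (a * b) * u⁻¹⁻¹ by group]
    exact (MulAut.conj u⁻¹).orderOf_eq (a * b)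
  have l1 := D.len hx' (n := n) (by omega)
  have l2 := D.symm.len hx' (n := n) (by rw [order_symm]; omega)
  refine ⟨u, ?_⟩
  rw [← l2, ← ei, ← ej, ← alt_conj, ← alt_conj] at l1
  convert l1 using 2 <;> group

theorem Cfg.inf (h : Cfg cs θ P a b x) (hσ : ∀ i, θ (cs.simple i) = cs.simple (σ i))
    (h2 : ∀ g, θ (θ g) = g) (hm : orderOf (a * b) = 0) {n : ℕ} {r : W} (hr : r ∈ RR cs P)
    (hw : alt a b n * x * θ (alt a b n * x) = 1)
    (hv : r * (alt a b n * x) * θ r = alt b a n * x) : n = 0 := by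
  let τ : W →* W := (MulAut.conj x).toMonoidHom.comp θ.toMonoidHom
  have hτ : ∀ g, τ g = x * θ g * x⁻¹ := fun g => rfl
  have can : ∀ c, Cn cs P c → Cn cs P (τ c) := by
    intro c hc
    refine ⟨h.t1 c hc.1, fun t ht h0 => ?_⟩
    have m0 := h.t2 t ht
    rw [hτ, N_mul', N_mul', h.hx t ht, zero_add, ← h2 (x⁻¹ * t * x), N_th hσ h2] at h0
    have z : NN cs x⁻¹ ((x * θ c)⁻¹ * t * (x * θ c)) = 0 := by
      rw [← h.hx _ (h.t1 _ (RR_conj hc.1 m0)), ← N_inv cs x, map_mul θ, map_mul θ, h2,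
        mul_inv_rev x, ← map_inv θ, (RR_refl hc.1).inv]
      congr 1; group
    rw [z, add_zero] at h0
    rw [hτ, ← hc.2 _ m0 h0, h2]; group
  have ca : Cn cs P a := ⟨h.dd.ma, h.dd.na⟩
  have cb : Cn cs P b := ⟨h.dd.mb, h.dd.nb⟩
  have ne : τ a ≠ τ b := fun e => h.dd.ne (θ.injective (mul_left_cancel (mul_right_cancel e)))
  have a2 := h.dd.ra.mul_self
  have b2 := h.dd.rb.mul_self
  have tm : ∀ d ∈ Subgroup.closure ({a, b} : Set W), τ d ∈ Subgroup.closure ({a, b} : Set W) := by
    intro d hd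
    have : Subgroup.closure ({a, b} : Set W) ≤ (Subgroup.closure ({a, b} : Set W)).comap τ := by
      rw [Subgroup.closure_le]
      rintro y (rfl | rfl)
      exacts [h.mem (can _ ca).1, h.mem (can _ cb).1]
    exact this hd
  have e0 : alt a b n * τ (alt a b n) * (x * θ x) = 1 := by rw [← hw, hτ, map_mul]; group
  have xx : x * θ x = 1 := by
    have m : x * θ x ∈ Subgroup.closure ({a, b} : Set W) := by
      rw [eq_inv_of_mul_eq_one_right e0]
      exact inv_mem (mul_mem (alt_mem a b n) (tm _ (alt_mem a b n)))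
    have z : ∀ t ∈ RR cs P, NN cs (x * θ x) t = 0 := fun t ht => by
      rw [N_mul', h.hx t ht, zero_add, ← h2 (x⁻¹ * t * x), N_th hσ h2, h.hx _ (h.t2 t ht)]
    obtain ⟨k, hk, e | e⟩ := h.dd.dh m
    · rcases k with _ | k
      · exact e
      · exact absurd (e ▸ z _ (h.dd.rf_mem 0).1) (h.dd.N_rf hk (by omega))
    · rcases k with _ | k
      · exact e
      · exact absurd (e ▸ z _ (h.dd.symm.rf_mem 0).1)
          (h.dd.symm.N_rf (by rwa [order_symm]) (by omega))
  rw [xx, mul_one] at e0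
  have e1 : r * alt a b n * τ r = alt b a n := by
    apply mul_right_cancel (b := x); rw [← hv, hτ]; group
  obtain ⟨i, rfl⟩ := h.gen r hr
  have inj : Function.Injective (fun k : ℤ => (a * b) ^ k) :=
    injective_zpow_iff_not_isOfFinOrder.2 (orderOf_eq_zero_iff.1 hm)
  have ba : b * a = (a * b) ^ (-1 : ℤ) := by
    rw [zpow_neg_one, mul_inv_rev, h.dd.ra.inv, h.dd.rb.inv]
  have bb : b = (a * b) ^ (-1 : ℤ) * a := by rw [← ba, mul_assoc, a2, mul_one]
  have q := rf_z a2 b2
  have q' : ∀ (k : ℤ) (y : W), a * ((a * b) ^ k * y) = (a * b) ^ (-k) * (a * y) := fun k y => by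
    rw [← mul_assoc, q, mul_assoc]
  have q2 : ∀ (k l : ℤ) (y : W), (a * b) ^ k * ((a * b) ^ l * y) = (a * b) ^ (k + l) * y :=
    fun k l y => by rw [← mul_assoc, ← zpow_add]
  generalize hp : a * b = p at *
  have hcase : (τ a = a ∧ τ p = p) ∨ (τ a = p ^ (-1 : ℤ) * a ∧ τ p = p ^ (-1 : ℤ)) := by
    rw [← ba, ← hp, map_mul]
    rcases h.two _ (can _ ca) with f1 | f1 <;> rcases h.two _ (can _ cb) with f2 | f2
    · exact absurd (f1.trans f2.symm) ne
    · exact Or.inl ⟨f1, by rw [f1, f2]⟩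
    · exact Or.inr ⟨by rw [f1, mul_assoc, a2, mul_one], by rw [f1, f2]⟩
    · exact absurd (f1.trans f2.symm) ne
  obtain ⟨j, rfl | rfl⟩ := Nat.even_or_odd' n
  · rw [(alt_even a b j).1, hp, ← zpow_natCast] at e0 e1
    rw [(alt_even b a j).1, ba, ← zpow_natCast, ← zpow_mul] at e1
    rcases hcase with ⟨f1, f2⟩ | ⟨f1, f2⟩
    · rw [map_zpow, f2, ← zpow_add, ← zpow_zero p] at e0
      have := inj e0
      omega
    · rw [map_mul, map_zpow, f1, f2, ← zpow_mul] at e1
      simp only [mul_assoc, q', q2, a2, mul_one, ← zpow_add] at e1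
      have := inj e1
      omega
  · rw [(alt_even a b j).2, hp, ← zpow_natCast] at e0 e1
    rw [(alt_even b a j).2, ba, ← zpow_natCast, ← zpow_mul, bb] at e1
    rcases hcase with ⟨f1, f2⟩ | ⟨f1, f2⟩
    · rw [map_mul, map_zpow, f1, f2] at e1
      simp only [mul_assoc, q', q2, a2, mul_one] at e1
      have := inj (mul_right_cancel e1)
      omega
    · rw [map_mul, map_zpow, f1, f2, ← zpow_mul, ← zpow_zero p] at e0
      simp only [mul_assoc, q', q2, a2, mul_one, ← zpow_add] at e0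
      have := inj e0
      omega

theorem comparable (hσ : ∀ i, θ (cs.simple i) = cs.simple (σ i)) (h2 : ∀ g, θ (θ g) = g)
    (K : Set W) (hK : ∀ w ∈ K, ∀ u, u⁻¹ * w * θ u ∈ K) (hi : ∀ w ∈ K, w * θ w = 1)
    (h1 : ∀ r, cs.IsReflection r → ∀ w ∈ K, cs.length (r * w * θ r) = cs.length w → r * w * θ r = w)
    {r w : W} (hr : cs.IsReflection r) (hw : w ∈ K) :
    r * w * θ r = w ∨ Relation.TransGen (Step cs) (r * w * θ r) w ∨
      Relation.TransGen (Step cs) w (r * w * θ r) := by
  by_cases hne : r = w * θ r * w⁻¹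
  · left
    rw [show r * w * θ r = r * (w * θ r * w⁻¹) * w by group, ← hne, hr.mul_self, one_mul]
  obtain ⟨β, hβ⟩ := root_ex hr
  have hwi : θ w = w⁻¹ := eq_inv_of_mul_eq_one_right (hi w hw)
  have T : ∀ {t γ}, Root cs t γ → Root cs (w * θ t * w⁻¹) (rho cs w (lmapDomain ℝ ℝ σ γ)) :=
    fun h => (root_th hσ h).conj w
  set P := Submodule.span ℝ {β, rho cs w (lmapDomain ℝ ℝ σ β)} with hP
  have mr : r ∈ RR cs P := ⟨β, Submodule.subset_span (Or.inl rfl), hβ⟩
  have mr' : w * θ r * w⁻¹ ∈ RR cs P := ⟨_, Submodule.subset_span (Or.inr rfl), T hβ⟩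
  have psi : ∀ t ∈ RR cs P, w * θ t * w⁻¹ ∈ RR cs P := by
    rintro t ⟨γ, hγ, h⟩
    refine ⟨_, ?_, T h⟩
    have : P ≤ P.comap ((rho cs w).comp (lmapDomain ℝ ℝ σ)) := by
      rw [hP, Submodule.span_le]
      rintro y (rfl | rfl)
      · exact Submodule.subset_span (Or.inr rfl)
      · have k := T (T hβ)
        rw [map_mul, map_mul, map_inv, h2, hwi, show w * (w⁻¹ * r * w⁻¹⁻¹) * w⁻¹ = r by group] at k
        exact RR_all mr k
    exact this hγ
  obtain ⟨a, b, dd, two, gen⟩ := exists_dd hP mr mr' hne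
  have mem : ∀ t ∈ RR cs P, t ∈ Subgroup.closure ({a, b} : Set W) := fun t ht => by
    obtain ⟨i, rfl⟩ := gen t ht
    have ha : a ∈ Subgroup.closure ({a, b} : Set W) := Subgroup.subset_closure (Or.inl rfl)
    exact mul_mem (zpow_mem (mul_mem ha (Subgroup.subset_closure (Or.inr rfl))) i) ha
  obtain ⟨d, hd, -, -, hx⟩ := exists_min' (cs := cs) _ _ mem w
  obtain ⟨x, rfl⟩ : ∃ x, w = d * x := ⟨d⁻¹ * w, by group⟩
  rw [inv_mul_cancel_left] at hx
  have C : Cfg cs θ P a b x := by
    refine ⟨dd, two, gen, hx, fun t ht => ?_, fun t ht => ?_⟩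
    · have := dd.conj_mem hd (psi t ht)
      rwa [show d⁻¹ * (d * x * θ t * (d * x)⁻¹) * d = x * θ t * x⁻¹ by group] at this
    · have := psi _ (dd.conj_mem (inv_mem hd) ht)
      have e : d * x = (θ x)⁻¹ * (θ d)⁻¹ := by rw [← mul_inv_rev, ← map_mul, hwi, inv_inv]
      rw [e] at this
      simpa [mul_assoc] using this
  have ev : r * (d * x) * θ r = (r * d * (x * θ r * x⁻¹)) * x := by group
  have hd' : r * d * (x * θ r * x⁻¹) ∈ Subgroup.closure ({a, b} : Set W) :=
    mul_mem (mul_mem (mem r mr) hd) (mem _ (C.t1 r mr))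
  have opp : ∀ {a b : W}, Cfg cs θ P a b x → ∀ n, (orderOf (a * b) = 0 ∨ n ≤ orderOf (a * b)) →
      d = alt a b n → r * (d * x) * θ r = alt b a n * x → r * (d * x) * θ r = d * x := by
    intro a b C n hn e1 e2
    by_cases hm : orderOf (a * b) = 0
    · have := C.inf hσ h2 hm mr (n := n) (by rw [← e1]; exact hi _ hw) (by rw [← e1]; exact e2)
      subst this
      rw [e2, e1]; rfl
    · obtain ⟨u, hu⟩ := C.fin hσ h2 hm (hn.resolve_left hm)
      rw [← e1, ← e2] at hu
      have e3 : u⁻¹ * (r * (d * x) * θ r) * θ u =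
          (u⁻¹ * r * u) * (u⁻¹ * (d * x) * θ u) * θ (u⁻¹ * r * u) := by
        simp only [map_mul, map_inv]; group
      have := h1 _ (by simpa using hr.conj u⁻¹) _ (hK _ hw u) (by rw [← e3]; exact hu.symm)
      rw [← e3] at this
      exact mul_left_cancel (mul_right_cancel this)
  obtain ⟨n, hn, e1⟩ := dd.dh hd
  obtain ⟨k, hk, e2⟩ := dd.dh hd'
  have hn' : orderOf (b * a) = 0 ∨ n ≤ orderOf (b * a) := by rwa [order_symm]
  have hk' : orderOf (b * a) = 0 ∨ k ≤ orderOf (b * a) := by rwa [order_symm]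
  rcases lt_trichotomy k n with l | rfl | l
  · right; left
    rw [ev]
    rcases e1 with e1 | e1 <;> rcases e2 with e2 | e2 <;> rw [e2, e1]
    exacts [(dd.chain hx hn l).1, (dd.chain hx hn l).2, (dd.symm.chain hx hn' l).2,
      (dd.symm.chain hx hn' l).1]
  · left
    rcases e1 with e1 | e1 <;> rcases e2 with e2 | e2
    · rw [ev, e2, e1]
    · exact opp C k hn e1 (by rw [ev, e2])
    · exact opp C.symm k hn' e1 (by rw [ev, e2])
    · rw [ev, e2, e1]
  · right; right
    rw [ev]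
    rcases e1 with e1 | e1 <;> rcases e2 with e2 | e2 <;> rw [e2, e1]
    exacts [(dd.chain hx hk l).1, (dd.symm.chain hx hk' l).2, (dd.chain hx hk l).2,
      (dd.symm.chain hx hk' l).1]

theorem len_lt {x y : W} (h : Relation.TransGen (Step cs) x y) : cs.length x < cs.length y := by
  induction h with
  | single h => exact h.choose_spec.2.2
  | tail _ h ih => exact ih.trans h.choose_spec.2.2

theorem cover {x y : W} (h : Step cs x y) (hl : cs.length y = cs.length x + 1) {i : B}
    (h1 : cs.length (cs.simple i * y) < cs.length y) (h2 : cs.length x < cs.length (cs.simple i * x)) :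
    y = cs.simple i * x := by
  obtain ⟨t, ht, rfl, h3⟩ := h
  by_cases e : t = cs.simple i
  · rw [e, cs.simple_mul_simple_cancel_left]
  have n1 := (N_iff cs ht y).2 h3
  have n2 : NN cs (cs.simple i * y) (cs.simple i * t * cs.simple i) ≠ 0 := by
    rw [N_mul', cs.inv_simple, NN_simple, single_eq_of_ne, zero_add]
    · simpa [mul_assoc] using n1
    · intro k
      apply e
      have := congrArg (fun z => cs.simple i * z * cs.simple i) k
      simpa [mul_assoc] using this
  have := NN_len cs _ _ n2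
  rw [mul_assoc, cs.simple_mul_simple_cancel_left, mul_assoc] at this
  omega

theorem step_inv {x y : W} (h : Step cs x y) : Step cs x⁻¹ y⁻¹ := by
  obtain ⟨t, ht, rfl, h3⟩ := h
  refine ⟨y⁻¹ * t * y, by simpa using ht.conj y⁻¹, by rw [mul_inv_rev, ht.inv]; group, ?_⟩
  rwa [cs.length_inv, cs.length_inv]

theorem cover' {x y : W} (h : Step cs x y) (hl : cs.length y = cs.length x + 1) {i : B}
    (h1 : cs.length (y * cs.simple i) < cs.length y) (h2 : cs.length x < cs.length (x * cs.simple i)) :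
    y = x * cs.simple i := by
  have k : ∀ z, cs.length (cs.simple i * z⁻¹) = cs.length (z * cs.simple i) := fun z => by
    rw [← cs.length_inv, mul_inv_rev, inv_inv, cs.inv_simple]
  have := cover (step_inv h) (by rwa [cs.length_inv, cs.length_inv]) (i := i)
    (by rwa [k, cs.length_inv]) (by rwa [k, cs.length_inv])
  rw [← inv_inv y, this, mul_inv_rev, inv_inv, cs.inv_simple]

theorem lift2 {w v : W} (h : Relation.TransGen (Step cs) w v) {i j : B}
    (hpar : cs.length v % 2 = cs.length w % 2)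
    (hl : cs.length (cs.simple i * v * cs.simple j) < cs.length (cs.simple i * w * cs.simple j)) :
    v = cs.simple i * w * cs.simple j := by
  have l0 := len_lt h
  have a1 := cs.length_simple_mul v i
  have a2 := cs.length_mul_simple (cs.simple i * v) j
  have a3 := cs.length_simple_mul w i
  have a4 := cs.length_mul_simple (cs.simple i * w) j
  have a5 := cs.length_mul_simple v j
  have a6 := cs.length_simple_mul (v * cs.simple j) i
  have a7 := cs.length_mul_simple w j
  have a8 := cs.length_simple_mul (w * cs.simple j) i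
  rw [← mul_assoc] at a6 a8
  obtain ⟨y, hy, s2⟩ := Relation.TransGen.tail'_iff.1 h
  have l2 : cs.length y < cs.length v := s2.choose_spec.2.2
  have p2 : cs.length y % 2 ≠ cs.length v % 2 := by
    obtain ⟨t, ht, rfl, -⟩ := s2
    have := cs.length_mul_mod_two t v
    have := Nat.odd_iff.1 ht.odd_length
    omega
  rcases Relation.reflTransGen_iff_eq_or_transGen.1 hy with rfl | hy
  · omega
  obtain ⟨z, hz, s1⟩ := Relation.TransGen.tail'_iff.1 hy
  have l1 : cs.length z < cs.length y := s1.choose_spec.2.2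
  rcases Relation.reflTransGen_iff_eq_or_transGen.1 hz with rfl | hz
  swap
  · have := len_lt hz; omega
  have b1 := cs.length_simple_mul y i
  have b2 := cs.length_mul_simple y j
  by_cases c1 : cs.length y < cs.length (cs.simple i * y)
  · have e1 := cover s2 (by omega) (i := i) (by omega) c1
    by_cases c2 : cs.length y < cs.length (y * cs.simple j)
    · have e2 := cover' s2 (by omega) (i := j) (by omega) c2
      have : cs.simple i * v * cs.simple j = v := by
        rw [e1, cs.simple_mul_simple_cancel_left, ← e2, ← e1]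
      rw [this] at a2 a6 hl; omega
    · rw [e1, cover' s1 (by omega) (i := j) (by omega) (by omega), mul_assoc]
  · have e1 := cover s1 (by omega) (i := i) (by omega) (by omega)
    by_cases c2 : cs.length y < cs.length (y * cs.simple j)
    · rw [cover' s2 (by omega) (i := j) (by omega) c2, e1]
    · have e2 := cover' s1 (by omega) (i := j) (by omega) (by omega)
      have : cs.simple i * z * cs.simple j = z := by
        rw [← e1, e2, cs.simple_mul_simple_cancel_right]
      rw [this] at a4 a8 hl; omega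

end Pool.Agent.H68.Qp
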