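import Mathlib

namespace Pool.Agent.H68.Qp

open Pointwise SemidirectProduct

variable {B W : Type} [Group W] {M : CoxeterMatrix B} (cs : CoxeterSystem M W)

/-- `Aut(W,S)`: the automorphisms of `W` mapping the set of simple reflections onto itself. -/
def AutS : Subgroup (MulAut W) := MulAction.stabilizer (MulAut W) (Set.range cs.simple)

/-- `W⁺ = W ⋊ Aut(W,S)`. -/
abbrev Wp : Type := W ⋊[(AutS cs).subtype] AutS cs

/-- The length on `W⁺`. -/
noncomputable def lenP (x : Wp cs) : ℕ := cs.length x.left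

/-- The Bruhat order on `W`: generated by `u ≤ u t` for reflections `t` with `ℓ(u) < ℓ(u t)`. -/
def BLe (x y : W) : Prop :=
  Relation.ReflTransGen
    (fun u v => ∃ t, cs.IsReflection t ∧ v = u * t ∧ cs.length u < cs.length v) x y

/-- The strict Bruhat order on `W⁺`. -/
def BLtP (x y : Wp cs) : Prop := (x.right = y.right ∧ BLe cs x.left y.left) ∧ x ≠ y

/-- The `W`-conjugacy class of an element of `W⁺`. -/
def cls (x : Wp cs) : Set (Wp cs) := {y | ∃ u : W, y = inl u * x * (inl u)⁻¹}

/-- Condition (QP1). -/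
def QP1 (K : Set (Wp cs)) : Prop :=
  ∀ r : W, cs.IsReflection r → ∀ w ∈ K,
    lenP cs (inl r * w * inl r) = lenP cs w → inl r * w * inl r = w

/-- Condition (QP2). -/
def QP2 (K : Set (Wp cs)) : Prop :=
  ∀ r : W, cs.IsReflection r → ∀ w ∈ K, ∀ i : B,
    lenP cs w < lenP cs (inl r * w * inl r) →
    lenP cs (inl (cs.simple i) * (inl r * w * inl r) * inl (cs.simple i)) <
      lenP cs (inl (cs.simple i) * w * inl (cs.simple i)) →
    inl r * w * inl r = inl (cs.simple i) * w * inl (cs.simple i)

end Pool.Agent.H68.Qp
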