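import Pool.Agent.H68.Qp4
import Pool.Agent.H68.QpDefs

namespace Pool.Agent.H68.Qp

open Pointwise SemidirectProduct

variable {B W : Type} [Group W] {M : CoxeterMatrix B} {cs : CoxeterSystem M W}

theorem conj_left (r r' : W) (w : Wp cs) :
    (inl r * w * inl r' : Wp cs).left = r * w.left * (w.right : MulAut W) r' := by simp

theorem conj_right (r r' : W) (w : Wp cs) : (inl r * w * inl r' : Wp cs).right = w.right := by simp

theorem exists_sigma (θ : AutS cs) : ∃ σ : B → B, ∀ i, (θ : MulAut W) (cs.simple i) = cs.simple (σ i) := by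
  have h : (θ : MulAut W) • Set.range cs.simple = Set.range cs.simple := θ.2
  have k : ∀ i, ∃ j, (θ : MulAut W) (cs.simple i) = cs.simple j := fun i => by
    have : (θ : MulAut W) • cs.simple i ∈ Set.range cs.simple :=
      h ▸ Set.smul_mem_smul_set ⟨i, rfl⟩
    obtain ⟨j, hj⟩ := this
    exact ⟨j, hj.symm⟩
  exact ⟨_, fun i => (k i).choose_spec⟩

theorem core {x : Wp cs} (hx : x ^ 2 = 1) (h1 : QP1 cs (cls cs x)) {r : W} (hr : cs.IsReflection r)
    {w : Wp cs} (hw : w ∈ cls cs x) :
    (∀ g, (w.right : MulAut W) ((w.right : MulAut W) g) = g) ∧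
    ((inl r * w * inl r : Wp cs).left = w.left ∨
      Relation.TransGen (Step cs) (inl r * w * inl r : Wp cs).left w.left ∨
      Relation.TransGen (Step cs) w.left (inl r * w * inl r : Wp cs).left) := by
  have hright : ∀ y ∈ cls cs x, y.right = x.right := by
    rintro y ⟨u, rfl⟩; rw [← map_inv, conj_right]
  have hsq : ∀ y ∈ cls cs x, y * y = 1 := by
    rintro y ⟨u, rfl⟩
    rw [← pow_two, conj_pow, hx]; simp
  obtain ⟨σ, hσ⟩ := exists_sigma x.right
  have h2 : ∀ g, (x.right : MulAut W) ((x.right : MulAut W) g) = g := fun g => by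
    have e := congrArg SemidirectProduct.right hx
    rw [pow_two, mul_right, one_right] at e
    rw [← MulAut.mul_apply, ← Subgroup.coe_mul, e]; rfl
  rw [conj_left, hright w hw]
  refine ⟨h2, comparable hσ h2 (SemidirectProduct.left '' cls cs x) ?_ ?_ ?_ hr ⟨w, hw, rfl⟩⟩
  · rintro _ ⟨y, hy, rfl⟩ u
    refine ⟨inl u⁻¹ * y * inl u, ?_, by rw [conj_left, hright y hy]⟩
    obtain ⟨v, rfl⟩ := hy
    exact ⟨u⁻¹ * v, by simp only [map_mul, map_inv]; group⟩
  · rintro _ ⟨y, hy, rfl⟩
    have e := congrArg SemidirectProduct.left (hsq y hy)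
    rw [mul_left, one_left, hright y hy] at e
    exact e
  · rintro t ht _ ⟨y, hy, rfl⟩ hl
    have := h1 t ht y hy (by rw [lenP, conj_left, hright y hy]; exact hl)
    have e := congrArg SemidirectProduct.left this
    rwa [conj_left, hright y hy] at e

theorem ble {x y : W} (h : Relation.TransGen (Step cs) x y) : BLe cs x y := by
  refine Relation.ReflTransGen.mono (r := Step cs) ?_ x y h.to_reflTransGen
  rintro u v ⟨t, ht, rfl, hl⟩
  refine ⟨v⁻¹ * t * v, by simpa using ht.conj v⁻¹, ?_, hl⟩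
  rw [show t * v * (v⁻¹ * t * v) = t * t * v by group, ht.mul_self, one_mul]

theorem strong {x : Wp cs} (hx : x ^ 2 = 1) (h1 : QP1 cs (cls cs x)) {r : W}
    (hr : cs.IsReflection r) {w : Wp cs} (hw : w ∈ cls cs x)
    (hl : lenP cs (inl r * w * inl r) < lenP cs w) : BLtP cs (inl r * w * inl r) w := by
  refine ⟨⟨conj_right _ _ _, ?_⟩, fun e => by rw [e] at hl; omega⟩
  rw [lenP, lenP] at hl
  rcases (core hx h1 hr hw).2 with h | h | h
  · rw [h] at hl; omega
  · exact ble h
  · have := len_lt h; omega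

theorem qp2 {x : Wp cs} (hx : x ^ 2 = 1) (h1 : QP1 cs (cls cs x)) : QP2 cs (cls cs x) := by
  intro r hr w hw i l1 l2
  obtain ⟨h2, h⟩ := core hx h1 hr hw
  obtain ⟨σ, hσ⟩ := exists_sigma w.right
  rw [lenP, lenP] at l1 l2
  rw [conj_left (cs.simple i), conj_left (cs.simple i), conj_right, hσ] at l2
  refine SemidirectProduct.ext ?_ (by rw [conj_right, conj_right])
  rw [conj_left (cs.simple i), hσ]
  rcases h with h | h | h
  · rw [h] at l1; omega
  · have := len_lt h; omega
  · refine lift2 h ?_ l2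
    rw [conj_left]
    have a1 := cs.length_mul_mod_two (r * w.left) ((w.right : MulAut W) r)
    have a2 := cs.length_mul_mod_two r w.left
    have a3 := len_th hσ h2 r
    omega

end Pool.Agent.H68.Qp
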