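import Pool.Agent.H68.QpDefs

namespace Pool.Agent.H68.Qp

open SemidirectProduct

variable {B W : Type} [Group W] {M : CoxeterMatrix B} (cs : CoxeterSystem M W)

/-- The product `r w r` in `W⁺`, for `r` in `W`. -/
def cj (r : W) (w : Wp cs) : Wp cs := inl r * w * inl r

/-- Condition (QP2), written with `cj`. -/
def QP2s (K : Set (Wp cs)) : Prop :=
  ∀ r : W, cs.IsReflection r → ∀ w ∈ K, ∀ i : B,
    lenP cs w < lenP cs (cj cs r w) →
    lenP cs (cj cs (cs.simple i) (cj cs r w)) < lenP cs (cj cs (cs.simple i) w) →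
    cj cs r w = cj cs (cs.simple i) w

end Pool.Agent.H68.Qp
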