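import Mathlib

set_option autoImplicit false

namespace Pool.Agent.H68.Realize

variable {W : Type} [MetricSpace W]

def seg (u v : W) (t : ℝ) : W → ℝ := fun y => (1 - t) * dist u y + t * dist v y

@[ext] structure Pt (W : Type) [MetricSpace W] (ℓ : ℝ) where
  f : W → ℝ
  ex : ∃ u v t, dist u v ≤ 1 ∧ 0 ≤ t ∧ t ≤ 1 ∧ f = seg u v t

variable {ℓ : ℝ}

theorem seg_near {u v : W} {t : ℝ} (h : dist u v ≤ 1) (h0 : 0 ≤ t) (h1 : t ≤ 1) (y : W) :
    |seg u v t y - dist u y| ≤ 1 := by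
  have e : seg u v t y - dist u y = t * (dist v y - dist u y) := by simp only [seg]; ring
  rw [e, abs_mul, abs_of_nonneg h0]
  have := abs_dist_sub_le v u y
  rw [dist_comm v u] at this
  nlinarith [abs_nonneg (dist v y - dist u y)]

theorem Pt.near (p : Pt W ℓ) : ∃ u, ∀ y, |p.f y - dist u y| ≤ 1 := by
  obtain ⟨u, v, t, h, h0, h1, e⟩ := p.ex
  exact ⟨u, fun y => e ▸ seg_near h h0 h1 y⟩

theorem bdd (p q : Pt W ℓ) : BddAbove (Set.range fun y => |p.f y - q.f y|) := by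
  obtain ⟨u, hu⟩ := p.near
  obtain ⟨v, hv⟩ := q.near
  refine ⟨dist u v + 2, ?_⟩
  rintro _ ⟨y, rfl⟩
  have h1 := abs_le.1 (hu y)
  have h2 := abs_le.1 (hv y)
  have h3 := abs_le.1 (abs_dist_sub_le u v y)
  exact abs_le.2 ⟨by linarith [h1.1, h2.2, h3.1], by linarith [h1.2, h2.1, h3.2]⟩

variable [hℓ : Fact (0 < ℓ)] [Nonempty W]

noncomputable instance : MetricSpace (Pt W ℓ) where
  dist p q := ℓ * ⨆ y, |p.f y - q.f y|
  dist_self p := by simp
  dist_comm p q := by simp only [abs_sub_comm]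
  dist_triangle p q r := by
    rw [← mul_add]
    refine mul_le_mul_of_nonneg_left (ciSup_le fun y => ?_) hℓ.out.le
    exact (abs_sub_le _ _ _).trans (add_le_add (le_ciSup (bdd p q) y) (le_ciSup (bdd q r) y))
  eq_of_dist_eq_zero {p q} h := by
    ext y
    have h1 := le_ciSup (bdd p q) y
    rw [(mul_eq_zero.1 h).resolve_left hℓ.out.ne'] at h1
    exact sub_eq_zero.1 (abs_nonpos_iff.1 h1)

theorem le_dist (p q : Pt W ℓ) (y : W) : ℓ * |p.f y - q.f y| ≤ dist p q :=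
  mul_le_mul_of_nonneg_left (le_ciSup (bdd p q) y) hℓ.out.le

theorem dist_le (p q : Pt W ℓ) {c : ℝ} (h : ∀ y, |p.f y - q.f y| ≤ c) : dist p q ≤ ℓ * c :=
  mul_le_mul_of_nonneg_left (ciSup_le h) hℓ.out.le

def ι (ℓ : ℝ) (u : W) : Pt W ℓ :=
  ⟨fun y => dist u y, u, u, 0, by simp, le_rfl, zero_le_one, by ext y; simp [seg]⟩

theorem dist_ι (u v : W) : dist (ι ℓ u) (ι ℓ v) = ℓ * dist u v := by
  refine le_antisymm (dist_le _ _ fun y => abs_dist_sub_le u v y) ?_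
  simpa [ι] using le_dist (ι ℓ u) (ι ℓ v) v

theorem near_ι (p : Pt W ℓ) : ∃ u, dist p (ι ℓ u) ≤ ℓ := by
  obtain ⟨u, hu⟩ := p.near
  exact ⟨u, by simpa using dist_le p (ι ℓ u) hu⟩

noncomputable def itp (a : ℤ → ℝ) (s : ℝ) : ℝ :=
  (1 - Int.fract s) * a ⌊s⌋ + Int.fract s * a (⌊s⌋ + 1)

theorem itp_mono {a : ℤ → ℝ} (ha : Monotone a) : Monotone (itp a) := by
  intro s t hst
  have h0 := Int.fract_nonneg s
  have h1 := Int.fract_lt_one s
  have h2 := Int.fract_nonneg t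
  have h3 := ha (show ⌊s⌋ ≤ ⌊s⌋ + 1 by omega)
  have h4 := ha (show ⌊t⌋ ≤ ⌊t⌋ + 1 by omega)
  rcases (Int.floor_mono hst).eq_or_lt with h | h
  · have : Int.fract s ≤ Int.fract t := by
      rw [Int.fract, Int.fract, h]; linarith
    simp only [itp, h] at *
    nlinarith
  · have h5 := ha (show ⌊s⌋ + 1 ≤ ⌊t⌋ by omega)
    simp only [itp]
    nlinarith

theorem itp_lip {a : ℤ → ℝ} (ha : ∀ i, |a (i + 1) - a i| ≤ 1) (s t : ℝ) :
    |itp a s - itp a t| ≤ |s - t| := by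
  have m1 : Monotone (itp fun i => i + a i) := itp_mono (monotone_int_of_le_succ fun i => by
    have := abs_le.1 (ha i); push_cast; linarith [this.1])
  have m2 : Monotone (itp fun i => i - a i) := itp_mono (monotone_int_of_le_succ fun i => by
    have := abs_le.1 (ha i); push_cast; linarith [this.2])
  have e1 : ∀ s, itp (fun i => i + a i) s = s + itp a s := by
    intro s; simp only [itp, Int.fract]; push_cast; ring
  have e2 : ∀ s, itp (fun i => i - a i) s = s - itp a s := by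
    intro s; simp only [itp, Int.fract]; push_cast; ring
  rcases le_total s t with h | h
  · have a1 := m1 h
    have a2 := m2 h
    rw [e1, e1] at a1; rw [e2, e2] at a2
    rw [abs_of_nonpos (sub_nonpos.2 h), abs_le]; constructor <;> linarith
  · have a1 := m1 h
    have a2 := m2 h
    rw [e1, e1] at a1; rw [e2, e2] at a2
    rw [abs_of_nonneg (sub_nonneg.2 h), abs_le]; constructor <;> linarith

noncomputable def path (ℓ : ℝ) (x : ℤ → W) (hx : ∀ i, dist (x i) (x (i + 1)) ≤ 1) (s : ℝ) :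
    Pt W ℓ :=
  ⟨seg (x ⌊s⌋) (x (⌊s⌋ + 1)) (Int.fract s), _, _, _, hx _, Int.fract_nonneg s,
    (Int.fract_lt_one s).le, rfl⟩

theorem path_le (x : ℤ → W) (hx : ∀ i, dist (x i) (x (i + 1)) ≤ 1) (s t : ℝ) :
    dist (path ℓ x hx s) (path ℓ x hx t) ≤ ℓ * |s - t| := by
  refine dist_le _ _ fun y => itp_lip (a := fun i => dist (x i) y) (fun i => ?_) s t
  exact (abs_dist_sub_le _ _ _).trans (by rw [dist_comm]; exact hx i)

omit hℓ [Nonempty W] in
theorem path_f (x : ℤ → W) (hx : ∀ i, dist (x i) (x (i + 1)) ≤ 1) (i : ℤ) (t : ℝ)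
    (h0 : 0 ≤ t) (h1 : t ≤ 1) : (path ℓ x hx (i + t)).f = seg (x i) (x (i + 1)) t := by
  rcases h1.eq_or_lt with rfl | h1
  · ext y
    have : ((i : ℝ) + 1) = ((i + 1 : ℤ) : ℝ) := by push_cast; ring
    simp only [path, this, Int.floor_intCast, Int.fract_intCast, seg]; ring
  · have h2 : ⌊t⌋ = 0 := Int.floor_eq_zero_iff.2 ⟨h0, h1⟩
    simp only [path, Int.floor_intCast_add, Int.fract_intCast_add, h2, add_zero,
      Int.fract_eq_self.2 ⟨h0, h1⟩]

theorem path_eq (x : ℤ → W) (hx : ∀ i, dist (x i) (x (i + 1)) ≤ 1) (n : ℤ)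
    (hg : ∀ i, 0 ≤ i → i ≤ n → dist (x i) (x 0) = i) (s t : ℝ) (s0 : 0 ≤ s) (s1 : s ≤ n)
    (t0 : 0 ≤ t) (t1 : t ≤ n) : dist (path ℓ x hx s) (path ℓ x hx t) = ℓ * |s - t| := by
  refine le_antisymm (path_le x hx s t) ?_
  have key : ∀ s : ℝ, 0 ≤ s → s ≤ n → (path ℓ x hx s).f (x 0) = s := by
    intro s s0 s1
    have a0 : 0 ≤ ⌊s⌋ := Int.floor_nonneg.2 s0
    rcases s1.eq_or_lt with rfl | s1
    · simp only [Int.floor_intCast] at a0
      simp [path, seg, hg n a0 le_rfl]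
    · have a1 : ⌊s⌋ < n := Int.floor_lt.2 s1
      simp only [path, seg, hg _ a0 a1.le, hg (⌊s⌋ + 1) (by omega) (by omega), Int.fract]
      push_cast; ring
  have := le_dist (path ℓ x hx s) (path ℓ x hx t) (x 0)
  rwa [key s s0 s1, key t t0 t1] at this

omit hℓ [Nonempty W] in
theorem seg_swap (u v : W) (t : ℝ) : seg u v t = seg v u (1 - t) := by
  ext y; simp only [seg]; ring

theorem geodesic (hnb : ∀ u v : W, dist u v ≤ 1 → u = v ∨ dist u v = 1)
    (hex : ∀ u : W, ∃ v, dist u v = 1)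
    (hedge : ∀ u u' v v' : W, dist u u' = 1 → dist v v' = 1 → ∃ (x : ℤ → W) (n j : ℤ),
      (∀ i, dist (x i) (x (i + 1)) ≤ 1) ∧ (∀ i, 0 ≤ i → i ≤ n → dist (x i) (x 0) = i) ∧
      0 ≤ j ∧ j + 1 ≤ n ∧ ((u = x 0 ∧ u' = x 1) ∨ (u' = x 0 ∧ u = x 1)) ∧
      ((v = x j ∧ v' = x (j + 1)) ∨ (v' = x j ∧ v = x (j + 1))))
    (p q : Pt W ℓ) : ∃ γ : ℝ → Pt W ℓ, γ 0 = p ∧ γ (dist p q) = q ∧
        ∀ s ∈ Set.Icc (0:ℝ) (dist p q), ∀ t ∈ Set.Icc (0:ℝ) (dist p q),
          dist (γ s) (γ t) = |s - t| := by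
  have rep : ∀ p : Pt W ℓ, ∃ u v t, dist u v = 1 ∧ 0 ≤ t ∧ t ≤ 1 ∧ p.f = seg u v t := by
    intro p
    obtain ⟨u, v, t, h, h0, h1, e⟩ := p.ex
    rcases hnb u v h with rfl | h
    · obtain ⟨v, hv⟩ := hex u
      exact ⟨u, v, 0, hv, le_rfl, zero_le_one, by rw [e]; ext y; simp only [seg]; ring⟩
    · exact ⟨u, v, t, h, h0, h1, e⟩
  obtain ⟨u, u', a, hu, a0, a1, ea⟩ := rep p
  obtain ⟨v, v', b, hv, b0, b1, eb⟩ := rep q
  obtain ⟨x, n, j, hx, hg, j0, j1, h1, h2⟩ := hedge u u' v v' hu hv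
  have on : ∀ (p : Pt W ℓ) (u u' : W) (a : ℝ) (i : ℤ), 0 ≤ a → a ≤ 1 → p.f = seg u u' a →
      0 ≤ i → i + 1 ≤ n → ((u = x i ∧ u' = x (i + 1)) ∨ (u' = x i ∧ u = x (i + 1))) →
      ∃ s : ℝ, 0 ≤ s ∧ s ≤ n ∧ p = path ℓ x hx s := by
    intro p u u' a i a0 a1 e i0 i1 h
    have i0' : (0 : ℝ) ≤ i := by exact_mod_cast i0
    have i1' : (i : ℝ) + 1 ≤ n := by exact_mod_cast i1
    rcases h with ⟨rfl, rfl⟩ | ⟨rfl, rfl⟩
    · exact ⟨i + a, by linarith, by linarith, Pt.ext (by rw [path_f x hx i a a0 a1, e])⟩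
    · exact ⟨i + (1 - a), by linarith, by linarith, Pt.ext (by
        rw [path_f x hx i (1 - a) (by linarith) (by linarith), e, seg_swap])⟩
  obtain ⟨s, s0, s1, rfl⟩ := on p u u' a 0 a0 a1 ea le_rfl (by omega) (by simpa using h1)
  obtain ⟨t, t0, t1, rfl⟩ := on q v v' b j b0 b1 eb j0 j1 h2
  have hl := hℓ.out
  rw [path_eq x hx n hg s t s0 s1 t0 t1]
  rcases le_total s t with h | h
  · rw [abs_of_nonpos (sub_nonpos.2 h)]
    refine ⟨fun r => path ℓ x hx (s + r / ℓ), by simp, by congr 1; field_simp; ring, ?_⟩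
    rintro r ⟨r0, r1⟩ r' ⟨r0', r1'⟩
    have c0 := div_nonneg r0 hl.le
    have c0' := div_nonneg r0' hl.le
    have c1 : r / ℓ ≤ -(s - t) := by rwa [div_le_iff₀ hl, mul_comm]
    have c1' : r' / ℓ ≤ -(s - t) := by rwa [div_le_iff₀ hl, mul_comm]
    rw [path_eq x hx n hg _ _ (by linarith) (by linarith) (by linarith) (by linarith),
      add_sub_add_left_eq_sub, ← sub_div, abs_div, abs_of_pos hl]
    field_simp
  · rw [abs_of_nonneg (sub_nonneg.2 h)]
    refine ⟨fun r => path ℓ x hx (s - r / ℓ), by simp, by congr 1; field_simp; ring, ?_⟩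
    rintro r ⟨r0, r1⟩ r' ⟨r0', r1'⟩
    have c0 := div_nonneg r0 hl.le
    have c0' := div_nonneg r0' hl.le
    have c1 : r / ℓ ≤ s - t := by rwa [div_le_iff₀ hl, mul_comm]
    have c1' : r' / ℓ ≤ s - t := by rwa [div_le_iff₀ hl, mul_comm]
    rw [path_eq x hx n hg _ _ (by linarith) (by linarith) (by linarith) (by linarith),
      sub_sub_sub_cancel_left, ← sub_div, abs_div, abs_of_pos hl, abs_sub_comm]
    field_simp

theorem proper (hfin : ∀ (o : W) (R : ℝ), {u | dist o u ≤ R}.Finite) : ProperSpace (Pt W ℓ) := by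
  have hl := hℓ.out
  have hE : ∀ u v : W, dist u v ≤ 1 →
      IsCompact {p : Pt W ℓ | ∃ t, 0 ≤ t ∧ t ≤ 1 ∧ p.f = seg u v t} := by
    intro u v h
    have hx : ∀ i : ℤ, dist (if i ≤ 0 then u else v) (if i + 1 ≤ 0 then u else v) ≤ 1 := by
      intro i
      split_ifs <;> simp [h, dist_comm v u]
    have hc : Continuous (path ℓ _ hx) := by
      refine LipschitzWith.continuous (K := ⟨ℓ, hl.le⟩) (LipschitzWith.of_dist_le_mul fun s t => ?_)
      exact path_le _ hx s t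
    have hp : ∀ t, 0 ≤ t → t ≤ 1 → (path ℓ _ hx t).f = seg u v t := by
      intro t h0 h1
      simpa using path_f (ℓ := ℓ) _ hx 0 t h0 h1
    convert (isCompact_Icc (a := (0 : ℝ)) (b := 1)).image hc using 1
    ext p
    constructor
    · rintro ⟨t, h0, h1, e⟩
      exact ⟨t, ⟨h0, h1⟩, Pt.ext (by rw [hp t h0 h1, e])⟩
    · rintro ⟨t, ⟨h0, h1⟩, rfl⟩
      exact ⟨t, h0, h1, hp t h0 h1⟩
  refine ⟨fun p R => ?_⟩
  obtain ⟨o, ho⟩ := near_ι p
  have hF : {e : W × W | dist o e.1 ≤ R / ℓ + 3 ∧ dist o e.2 ≤ R / ℓ + 3 ∧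
      dist e.1 e.2 ≤ 1}.Finite :=
    ((hfin o (R / ℓ + 3)).prod (hfin o (R / ℓ + 3))).subset fun e he => ⟨he.1, he.2.1⟩
  refine (hF.isCompact_biUnion fun e he => hE e.1 e.2 he.2.2).of_isClosed_subset
    Metric.isClosed_closedBall fun q hq => ?_
  obtain ⟨u, v, t, h, h0, h1, e⟩ := q.ex
  have h2 : dist q (ι ℓ u) ≤ ℓ * 1 := dist_le _ _ fun y => e ▸ seg_near h h0 h1 y
  have h3 : dist o u ≤ R / ℓ + 2 := by
    have := dist_triangle4 (ι ℓ o) p q (ι ℓ u)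
    rw [dist_ι, dist_comm (ι ℓ o) p, dist_comm p q] at this
    have h4 : dist q p ≤ R := hq
    have : ℓ * dist o u ≤ ℓ * (R / ℓ + 2) := by
      rw [mul_add, mul_div_cancel₀ _ hl.ne']; linarith
    exact le_of_mul_le_mul_left this hl
  simp only [Set.mem_iUnion]
  exact ⟨(u, v), ⟨by linarith, by linarith [dist_triangle o u v], h⟩, t, h0, h1, e⟩

theorem hyper (h : ∀ x y z w : W, min ((dist x w + dist y w - dist x y) / 2)
      ((dist y w + dist z w - dist y z) / 2) ≤ (dist x w + dist z w - dist x z) / 2) :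
    ∃ δ : ℝ, ∀ x y z w : Pt W ℓ,
        min ((dist x w + dist y w - dist x y) / 2) ((dist y w + dist z w - dist y z) / 2) - δ
          ≤ (dist x w + dist z w - dist x z) / 2 := by
  have hl := hℓ.out
  refine ⟨6 * ℓ, fun x y z w => ?_⟩
  choose n hn using near_ι (W := W) (ℓ := ℓ)
  have c : ∀ p q : Pt W ℓ, |dist p q - ℓ * dist (n p) (n q)| ≤ 2 * ℓ := by
    intro p q
    rw [← dist_ι]
    exact (dist_dist_dist_le _ _ _ _).trans (by linarith [hn p, hn q])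
  have c1 := abs_le.1 (c x w)
  have c2 := abs_le.1 (c y w)
  have c3 := abs_le.1 (c z w)
  have c4 := abs_le.1 (c x y)
  have c5 := abs_le.1 (c y z)
  have c6 := abs_le.1 (c x z)
  rcases min_le_iff.1 (h (n x) (n y) (n z) (n w)) with h1 | h1
  · have := mul_le_mul_of_nonneg_left h1 hl.le
    have := min_le_left ((dist x w + dist y w - dist x y) / 2)
      ((dist y w + dist z w - dist y z) / 2)
    linarith [c1.1, c1.2, c2.1, c2.2, c3.1, c3.2, c4.1, c4.2, c5.1, c5.2, c6.1, c6.2]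
  · have := mul_le_mul_of_nonneg_left h1 hl.le
    have := min_le_right ((dist x w + dist y w - dist x y) / 2)
      ((dist y w + dist z w - dist y z) / 2)
    linarith [c1.1, c1.2, c2.1, c2.2, c3.1, c3.2, c4.1, c4.2, c5.1, c5.2, c6.1, c6.2]

variable {G : Type} [Group G] [MulAction G W] [IsIsometricSMul G W]

instance : MulAction G (Pt W ℓ) where
  smul g p := ⟨fun y => p.f (g⁻¹ • y), by
    obtain ⟨u, v, t, h, h0, h1, e⟩ := p.ex
    refine ⟨g • u, g • v, t, by rwa [dist_smul], h0, h1, ?_⟩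
    ext y
    rw [e, seg, seg, ← dist_smul g u, ← dist_smul g v, smul_inv_smul]⟩
  one_smul p := by ext y; show p.f (1⁻¹ • y) = _; simp
  mul_smul g h p := by
    ext y; show p.f ((g * h)⁻¹ • y) = p.f (h⁻¹ • g⁻¹ • y); rw [mul_inv_rev, mul_smul]

omit hℓ [Nonempty W] in
theorem smul_f (g : G) (p : Pt W ℓ) (y : W) : (g • p).f y = p.f (g⁻¹ • y) := rfl

instance : IsIsometricSMul G (Pt W ℓ) where
  isometry_smul g := by
    have key : ∀ (g : G) (p q : Pt W ℓ), dist (g • p) (g • q) ≤ dist p q := fun g p q =>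
      dist_le _ _ fun y => le_ciSup (bdd p q) (g⁻¹ • y)
    refine Isometry.of_dist_eq fun p q => le_antisymm (key g p q) ?_
    simpa using key g⁻¹ (g • p) (g • q)

omit hℓ [Nonempty W] in
theorem smul_ι (g : G) (u : W) : g • ι ℓ u = ι ℓ (g • u) := by
  ext y
  show dist u (g⁻¹ • y) = dist (g • u) y
  rw [← dist_smul g, smul_inv_smul]

theorem propdisc (o : W) (h : ∀ R : ℝ, {g : G | dist (g • o) o ≤ R}.Finite) :
    ProperlyDiscontinuousSMul G (Pt W ℓ) := by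
  have hl := hℓ.out
  refine ⟨fun {K L} hK hL => ?_⟩
  obtain ⟨R, hR⟩ := (hK.isBounded.union hL.isBounded).subset_closedBall (ι ℓ o)
  refine (h (2 * R / ℓ)).subset ?_
  rintro g ⟨_, ⟨k, hk, rfl⟩, hk'⟩
  have h1 : dist k (ι ℓ o) ≤ R := hR (Or.inl hk)
  have h2 : dist (g • k) (ι ℓ o) ≤ R := hR (Or.inr hk')
  have h3 := dist_triangle_left (g • ι ℓ o) (ι ℓ o) (g • k)
  rw [dist_smul, smul_ι, dist_ι] at h3
  show dist (g • o) o ≤ 2 * R / ℓ
  rw [le_div_iff₀ hl]; linarith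

theorem cocompact [ProperSpace (Pt W ℓ)] (o : W) (R : ℝ)
    (h : ∀ u : W, ∃ g : G, dist (g • u) o ≤ R) :
    ∃ K : Set (Pt W ℓ), IsCompact K ∧ ∀ x : Pt W ℓ, ∃ g : G, g • x ∈ K := by
  have hl := hℓ.out
  refine ⟨Metric.closedBall (ι ℓ o) (ℓ + ℓ * R), isCompact_closedBall _ _, fun x => ?_⟩
  obtain ⟨u, hu⟩ := near_ι x
  obtain ⟨g, hg⟩ := h u
  refine ⟨g, ?_⟩
  have := dist_triangle (g • x) (g • ι ℓ u) (ι ℓ o)
  rw [dist_smul, smul_ι, dist_ι] at this
  have h2 := mul_le_mul_of_nonneg_left hg hl.le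
  show dist _ _ ≤ _
  linarith

end Pool.Agent.H68.Realize
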