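import Pool.Agent.H68.RgDefs

set_option autoImplicit false

namespace Pool.Agent.H68.Rg

open Pool.Agent.H68.RgD

def L (m : ℕ) : AddSubgroup ℚ where
  carrier := {q | ∃ (k : ℕ) (z : ℤ), q * (m : ℚ) ^ k = z}
  zero_mem' := ⟨0, 0, by simp⟩
  add_mem' := by
    rintro a b ⟨k, z, h⟩ ⟨j, w, h'⟩
    exact ⟨k + j, z * m ^ j + w * m ^ k, by push_cast; rw [← h, ← h']; ring⟩
  neg_mem' := by
    rintro a ⟨k, z, h⟩
    exact ⟨k, -z, by push_cast; rw [← h]; ring⟩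

theorem L_int (m : ℕ) (z : ℤ) : (z : ℚ) ∈ L m := ⟨0, z, by simp⟩

theorem L_le {m : ℕ} (n : ℕ) (hd : m ∣ n) {q : ℚ} (h : q ∈ L m) : q ∈ L n := by
  obtain ⟨k, z, h⟩ := h
  obtain ⟨c, rfl⟩ := hd
  exact ⟨k, z * c ^ k, by push_cast; rw [← h]; ring⟩

theorem L_mul {m : ℕ} (z : ℤ) {q : ℚ} (h : q ∈ L m) : z * q ∈ L m := by
  simpa using (L m).zsmul_mem h z

theorem L_div {m p : ℕ} (hp : p ≠ 0) (hd : p ∣ m) {q : ℚ} (h : q ∈ L m) (k : ℕ) :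
    q / (p : ℚ) ^ k ∈ L m := by
  obtain ⟨j, z, h⟩ := h
  obtain ⟨c, rfl⟩ := hd
  refine ⟨j + k, z * c ^ k, ?_⟩
  have : (p : ℚ) ≠ 0 := by exact_mod_cast hp
  push_cast at h ⊢
  rw [← h]; field_simp; ring

theorem L_dvd {m n : ℕ} (hn : n ≠ 0) (hc : Nat.Coprime n m) {z : ℤ} (h : (z : ℚ) / n ∈ L m) :
    (n : ℤ) ∣ z := by
  obtain ⟨k, w, h⟩ := h
  have h0 : (n : ℚ) ≠ 0 := by exact_mod_cast hn
  have : z * (m : ℤ) ^ k = n * w := by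
    have : (z : ℚ) * (m : ℚ) ^ k = n * w := by rw [← h]; field_simp
    exact_mod_cast this
  exact (Nat.isCoprime_iff_coprime.2 hc).pow_right.dvd_of_dvd_mul_right ⟨w, this⟩

theorem L_inter {m n : ℕ} (hc : Nat.Coprime m n) {q : ℚ} (h : q ∈ L m) (h' : q ∈ L n) :
    ∃ z : ℤ, q = z := by
  obtain ⟨k, z, h⟩ := h
  obtain ⟨j, w, h'⟩ := h'
  obtain ⟨u, v, e⟩ : IsCoprime ((m : ℤ) ^ k) ((n : ℤ) ^ j) := (Nat.isCoprime_iff_coprime.2 hc).pow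
  refine ⟨u * z + v * w, ?_⟩
  have e' : (u : ℚ) * (m : ℚ) ^ k + v * (n : ℚ) ^ j = 1 := by exact_mod_cast e
  push_cast; rw [← h, ← h']
  linear_combination (-q) * e'

theorem L_num {m n : ℕ} (hn : n ≠ 0) (hc : Nat.Coprime n m) {q : ℚ} (h : q / n ∈ L m) :
    (n : ℤ) ∣ q.num := by
  refine L_dvd hn hc ?_
  have := L_mul q.den h
  rwa [← mul_div_assoc, Int.cast_natCast, Rat.den_mul_eq_num] at this

theorem L_key {m p : ℕ} (hp : p.Prime) (hd : ¬ p ∣ m) {q : ℚ}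
    (h : ∀ k : ℕ, q / (p : ℚ) ^ k ∈ L m) : q = 0 := by
  rw [← Rat.num_eq_zero]
  have : ∀ k : ℕ, ((p ^ k : ℕ) : ℤ) ∣ q.num := fun k =>
    L_num (pow_ne_zero _ hp.ne_zero) (((Nat.Prime.coprime_iff_not_dvd hp).2 hd).pow_left k)
      (by simpa using h k)
  by_contra h0
  have h1 := Int.le_of_dvd (abs_pos.2 h0) ((dvd_abs _ _).2 (this q.num.natAbs))
  have h2 := Nat.lt_pow_self hp.one_lt (n := q.num.natAbs)
  rw [Int.abs_eq_natAbs] at h1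
  omega

theorem L3_split {q : ℚ} (h : q ∈ L 3) : ∃ m : ℤ, (q - m) / 4 ∈ L 3 := by
  obtain ⟨k, z, h⟩ := h
  obtain ⟨c, hc⟩ : (4 : ℤ) ∣ 1 - 9 ^ k := by
    have := sub_dvd_pow_sub_pow (1 : ℤ) 9 k
    rw [one_pow] at this
    exact Dvd.dvd.trans (by norm_num) this
  refine ⟨z * 3 ^ k, k, z * c, ?_⟩
  have hc' : (1 : ℚ) - 9 ^ k = 4 * c := by exact_mod_cast hc
  have h9 : (9 : ℚ) ^ k = 3 ^ k * 3 ^ k := by rw [← mul_pow]; norm_num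
  push_cast at h ⊢
  linear_combination (1 / 4) * h + (z / 4) * hc' + (z / 4) * h9

abbrev V : Type := Fin 5 → ℚ

def N : AddSubgroup V where
  carrier := {x | x 0 ∈ L 15 ∧ x 1 ∈ L 21 ∧ x 2 ∈ L 33 ∧
    ∃ α ∈ L 3, x 3 - α ∈ L 13 ∧ x 4 - α ∈ L 17}
  zero_mem' := ⟨zero_mem _, zero_mem _, zero_mem _, 0, zero_mem _, by simp, by simp⟩
  add_mem' := by
    rintro a b ⟨a0, a1, a2, α, a3, a4, a5⟩ ⟨b0, b1, b2, β, b3, b4, b5⟩
    refine ⟨add_mem a0 b0, add_mem a1 b1, add_mem a2 b2, α + β, add_mem a3 b3, ?_, ?_⟩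
    · convert add_mem a4 b4 using 1; simp; ring
    · convert add_mem a5 b5 using 1; simp; ring
  neg_mem' := by
    rintro a ⟨a0, a1, a2, α, a3, a4, a5⟩
    refine ⟨neg_mem a0, neg_mem a1, neg_mem a2, -α, neg_mem a3, ?_, ?_⟩
    · convert neg_mem a4 using 1; simp; ring
    · convert neg_mem a5 using 1; simp; ring

def a : V := ![1 / 4, 1 / 4, 0, 1 / 2, 1 / 2]
def w1 : V := ![1 / 2, 1 / 2, 0, 0, 0]
def w2 : V := ![1 / 2, 0, 1 / 2, 0, 0]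
def s : V := ![0, 0, 0, 1, 1]

def G : AddSubgroup V where
  carrier := {x | ∃ i j : ℤ, x - i • a - j • w2 ∈ N}
  zero_mem' := ⟨0, 0, by simp⟩
  add_mem' := by
    rintro x y ⟨i, j, h⟩ ⟨k, l, h'⟩
    exact ⟨i + k, j + l, by convert add_mem h h' using 1; simp only [add_smul]; abel⟩
  neg_mem' := by
    rintro x ⟨i, j, h⟩
    exact ⟨-i, -j, by convert neg_mem h using 1; simp only [neg_smul]; abel⟩

def Z (t : V) : AddSubgroup V where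
  carrier := {x | ∃ i : ℤ, x - i • t ∈ N}
  zero_mem' := ⟨0, by simp⟩
  add_mem' := by
    rintro x y ⟨i, h⟩ ⟨k, h'⟩
    exact ⟨i + k, by convert add_mem h h' using 1; simp only [add_smul]; abel⟩
  neg_mem' := by
    rintro x ⟨i, h⟩
    exact ⟨-i, by convert neg_mem h using 1; simp only [neg_smul]; abel⟩

theorem N_G : N ≤ G := fun _ h => ⟨0, 0, by simpa using h⟩
theorem N_Z (t : V) : N ≤ Z t := fun _ h => ⟨0, by simpa using h⟩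

theorem N_int (x : V) (h : ∀ i, ∃ z : ℤ, x i = z) : x ∈ N := by
  have : ∀ i m, x i ∈ L m := fun i m => by obtain ⟨z, e⟩ := h i; rw [e]; exact L_int _ _
  exact ⟨this _ _, this _ _, this _ _, 0, zero_mem _, by simpa using this _ _,
    by simpa using this _ _⟩

theorem four {x : V} (h : x ∈ G) : (4 : ℚ) • x ∈ N := by
  obtain ⟨i, j, h⟩ := h
  have h1 : (4 : ℚ) • (i • a + j • w2) ∈ N := N_int _ fun k => by
    fin_cases k
    · exact ⟨i + 2 * j, by simp [a, w2]; ring⟩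
    · exact ⟨i, by simp [a, w2]; ring⟩
    · exact ⟨2 * j, by simp [a, w2]; ring⟩
    · exact ⟨2 * i, by simp [a, w2]; ring⟩
    · exact ⟨2 * i, by simp [a, w2]; ring⟩
  convert add_mem (N.nsmul_mem h 4) h1 using 1
  ext k; simp; ring

/-- the subspace of elements of infinite `p`-height -/
def P (p : ℕ) (x : V) : Prop :=
  (p ≠ 3 → p ≠ 5 → x 0 = 0) ∧ (p ≠ 3 → p ≠ 7 → x 1 = 0) ∧ (p ≠ 3 → p ≠ 11 → x 2 = 0) ∧
  (p ≠ 3 → p ≠ 13 → x 3 = 0) ∧ (p ≠ 3 → p ≠ 17 → x 4 = 0) ∧ (p = 3 → x 3 = x 4)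

theorem nd {p a b : ℕ} (hp : p.Prime) (ha : a.Prime) (hb : b.Prime) (h1 : p ≠ a) (h2 : p ≠ b) :
    ¬ p ∣ a * b := fun h => by
  rcases (Nat.Prime.dvd_mul hp).1 h with h | h
  · exact h1 ((Nat.prime_dvd_prime_iff_eq hp ha).1 h)
  · exact h2 ((Nat.prime_dvd_prime_iff_eq hp hb).1 h)

theorem N3 {x : V} (h : x ∈ N) : x 3 ∈ L 39 ∧ x 4 ∈ L 51 ∧ x 3 - x 4 ∈ L 221 := by
  obtain ⟨-, -, -, α, a3, a4, a5⟩ := h
  refine ⟨?_, ?_, ?_⟩
  · simpa using add_mem (L_le 39 (by norm_num) a4) (L_le 39 (by norm_num) a3)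
  · simpa using add_mem (L_le 51 (by norm_num) a5) (L_le 51 (by norm_num) a3)
  · simpa using sub_mem (L_le 221 (by norm_num) a4) (L_le 221 (by norm_num) a5)

theorem P_of {p : ℕ} (hp : p.Prime) {x : V} (h : ∀ k : ℕ, ((p : ℚ) ^ k)⁻¹ • x ∈ N) : P p x := by
  have e : ∀ (k : ℕ) i, (((p : ℚ) ^ k)⁻¹ • x) i = x i / (p : ℚ) ^ k := fun k i => by
    simp [div_eq_inv_mul]
  refine ⟨fun h1 h2 => ?_, fun h1 h2 => ?_, fun h1 h2 => ?_, fun h1 h2 => ?_, fun h1 h2 => ?_,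
    fun h1 => ?_⟩
  · exact L_key hp (nd hp Nat.prime_three Nat.prime_five h1 h2) fun k => e k 0 ▸ (h k).1
  · exact L_key hp (nd hp Nat.prime_three Nat.prime_seven h1 h2) fun k => e k 1 ▸ (h k).2.1
  · exact L_key hp (nd hp Nat.prime_three Nat.prime_eleven h1 h2) fun k => e k 2 ▸ (h k).2.2.1
  · exact L_key hp (nd hp Nat.prime_three (by norm_num) h1 h2) fun k => e k 3 ▸ (N3 (h k)).1
  · exact L_key hp (nd hp Nat.prime_three (by norm_num) h1 h2) fun k => e k 4 ▸ (N3 (h k)).2.1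
  · subst h1
    refine sub_eq_zero.1 (L_key hp (m := 221) (by norm_num) fun k => ?_)
    have := (N3 (h k)).2.2
    rwa [e, e, ← sub_div] at this

theorem N34 {x : V} (h : x ∈ N) : (x 3 = x 4 → x 3 ∈ L 3) ∧ (x 4 = 0 → x 3 ∈ L 13) ∧
    (x 3 = 0 → x 4 ∈ L 17) := by
  obtain ⟨-, -, -, α, a3, a4, a5⟩ := h
  refine ⟨fun e => ?_, fun e => ?_, fun e => ?_⟩
  · obtain ⟨z, hz⟩ := L_inter (by norm_num) a4 (e ▸ a5)
    simpa [← hz] using add_mem a3 (L_int 3 z)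
  · obtain ⟨z, hz⟩ := L_inter (n := 17) (by norm_num) a3 (by simpa [e] using neg_mem a5)
    simpa [← hz] using add_mem a4 (L_int 13 z)
  · obtain ⟨z, hz⟩ := L_inter (n := 13) (by norm_num) a3 (by simpa [e] using neg_mem a4)
    simpa [← hz] using add_mem a5 (L_int 17 z)

theorem N_div {p : ℕ} (hp : p.Prime) {x : V} (h : x ∈ N) (hP : P p x) (k : ℕ) :
    ((p : ℚ) ^ k)⁻¹ • x ∈ N := by
  have e : ∀ i, (((p : ℚ) ^ k)⁻¹ • x) i = x i / (p : ℚ) ^ k := fun i => by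
    simp [div_eq_inv_mul]
  have d : ∀ (m q : ℕ) (y : ℚ), y ∈ L m → 3 ∣ m → q ∣ m → (p ≠ 3 → p ≠ q → y = 0) →
      y / (p : ℚ) ^ k ∈ L m := by
    intro m q y hy h3 hq h0
    by_cases c1 : p = 3
    · exact L_div hp.ne_zero (c1 ▸ h3) hy k
    by_cases c2 : p = q
    · exact L_div hp.ne_zero (c2 ▸ hq) hy k
    rw [h0 c1 c2, zero_div]; exact zero_mem _
  obtain ⟨p0, p1, p2, p3, p4, p5⟩ := hP
  refine ⟨e 0 ▸ d 15 5 _ h.1 (by norm_num) (by norm_num) p0,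
    e 1 ▸ d 21 7 _ h.2.1 (by norm_num) (by norm_num) p1,
    e 2 ▸ d 33 11 _ h.2.2.1 (by norm_num) (by norm_num) p2, ?_⟩
  rw [e, e]
  by_cases c1 : p = 3
  · refine ⟨x 3 / (p : ℚ) ^ k, L_div hp.ne_zero (c1 ▸ dvd_rfl) ((N34 h).1 (p5 c1)) k, by simp, ?_⟩
    rw [p5 c1]; simp
  refine ⟨0, zero_mem _, ?_, ?_⟩
  · by_cases c2 : p = 13
    · simpa using L_div hp.ne_zero (c2 ▸ dvd_rfl) ((N34 h).2.1 (p4 c1 (by omega))) k
    · simp [p3 c1 c2]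
  · by_cases c2 : p = 17
    · simpa using L_div hp.ne_zero (c2 ▸ dvd_rfl) ((N34 h).2.2 (p3 c1 (by omega))) k
    · simp [p4 c1 c2]

end Pool.Agent.H68.Rg
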