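import Pool.Agent.H68.Rg1

set_option autoImplicit false

namespace Pool.Agent.H68.Rg

open Pool.Agent.H68.RgD

theorem P_smul {p : ℕ} {x : V} (c : ℚ) (h : P p x) : P p (c • x) := by
  obtain ⟨p0, p1, p2, p3, p4, p5⟩ := h
  refine ⟨fun a b => ?_, fun a b => ?_, fun a b => ?_, fun a b => ?_, fun a b => ?_, fun a => ?_⟩
  · simp [p0 a b]
  · simp [p1 a b]
  · simp [p2 a b]
  · simp [p3 a b]
  · simp [p4 a b]
  · simp [p5 a]

theorem P_add {p : ℕ} {x y : V} (h : P p x) (h' : P p y) : P p (x + y) := by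
  obtain ⟨p0, p1, p2, p3, p4, p5⟩ := h
  obtain ⟨q0, q1, q2, q3, q4, q5⟩ := h'
  refine ⟨fun a b => ?_, fun a b => ?_, fun a b => ?_, fun a b => ?_, fun a b => ?_, fun a => ?_⟩
  · simp [p0 a b, q0 a b]
  · simp [p1 a b, q1 a b]
  · simp [p2 a b, q2 a b]
  · simp [p3 a b, q3 a b]
  · simp [p4 a b, q4 a b]
  · simp [p5 a, q5 a]

theorem V_ext {x : V} (h0 : x 0 = 0) (h1 : x 1 = 0) (h2 : x 2 = 0) (h3 : x 3 = 0) (h4 : x 4 = 0) :
    x = 0 := by
  ext i; fin_cases i <;> assumption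

theorem ht_ge {H : AddSubgroup V} {x : V} {p : Nat.Primes} {k : ℕ} (h : (k : ℕ∞) < ht H x p) :
    ∃ y ∈ H, x = (p : ℕ) ^ (k + 1) • y := by
  simp only [ht, lt_iSup_iff] at h
  obtain ⟨j, ⟨y, hy, e⟩, hj⟩ := h
  have hj' : k < j := by exact_mod_cast hj
  refine ⟨(p : ℕ) ^ (j - (k + 1)) • y, H.nsmul_mem hy _, ?_⟩
  rw [smul_smul, ← pow_add, e]; congr 2; omega

section
variable {H : AddSubgroup V} (hN : N ≤ H) (hG : H ≤ G)
include hN hG

theorem ht_top {x : V} (hx : x ∈ H) (p : Nat.Primes) : ht H x p = ⊤ ↔ P p x := by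
  have p0 : ((p : ℕ) : ℚ) ≠ 0 := by exact_mod_cast p.2.ne_zero
  constructor
  · intro h
    have : P p ((4 : ℚ) • x) := P_of p.2 fun k => by
      obtain ⟨y, hy, e⟩ := ht_ge (H := H) (x := x) (p := p) (k := k) (by rw [h]; exact ENat.coe_lt_top k)
      convert four (hG (H.nsmul_mem hy p)) using 1
      rw [e]; ext i; simp; field_simp; ring
    simpa [smul_smul] using P_smul (1 / 4) this
  · intro h
    have : ∀ k : ℕ, ∃ y ∈ H, x = (p : ℕ) ^ k • y := by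
      intro k
      by_cases h2 : (p : ℕ) = 2
      · obtain ⟨a0, a1, a2, a3, a4, -⟩ := h
        refine ⟨0, zero_mem _, ?_⟩
        rw [smul_zero]
        exact V_ext (a0 (by omega) (by omega)) (a1 (by omega) (by omega))
          (a2 (by omega) (by omega)) (a3 (by omega) (by omega)) (a4 (by omega) (by omega))
      have hc : Nat.Coprime (2 ^ 2) ((p : ℕ) ^ k) :=
        Nat.Coprime.pow _ _ ((Nat.coprime_primes Nat.prime_two p.2).2 (Ne.symm h2))
      obtain ⟨u, v, e⟩ := Nat.isCoprime_iff_coprime.2 hc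
      have e' : (u : ℚ) * 4 + v * ((p : ℕ) : ℚ) ^ k = 1 := by exact_mod_cast e
      refine ⟨_, add_mem (H.zsmul_mem (hN (N_div p.2 (four (hG hx)) (P_smul 4 h) k)) u)
        (H.zsmul_mem hx v), ?_⟩
      ext i
      simp only [Pi.smul_apply, Pi.add_apply, smul_eq_mul, zsmul_eq_mul, nsmul_eq_mul, Pi.mul_apply,
        Pi.natCast_apply, Pi.intCast_apply]
      push_cast
      field_simp
      linear_combination (-x i) * e'
    simp only [ht, this, iSup_pos]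
    exact ENat.iSup_natCast

omit hN in
theorem ht_fin {x : V} (h0 : x ≠ 0) : {p | ht H x p ≠ 0}.Finite := by
  obtain ⟨i, hi⟩ := Function.ne_iff.1 h0
  have hn : (4 * x i).num ≠ 0 := by simpa using hi
  refine ((Set.finite_Iic (255255 + (4 * x i).num.natAbs)).preimage
    (f := fun p : Nat.Primes => (p : ℕ)) Subtype.val_injective.injOn).subset fun p hp => ?_
  obtain ⟨y, hy, e⟩ := ht_ge (H := H) (x := x) (p := p) (k := 0) (pos_iff_ne_zero.2 hp)
  have p0 : ((p : ℕ) : ℚ) ≠ 0 := by exact_mod_cast p.2.ne_zero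
  have h4 := four (hG hy)
  have h5 : ((4 : ℚ) • y) i ∈ L 255255 := by
    fin_cases i
    · exact L_le _ (by norm_num) h4.1
    · exact L_le _ (by norm_num) h4.2.1
    · exact L_le _ (by norm_num) h4.2.2.1
    · exact L_le _ (by norm_num) (N3 h4).1
    · exact L_le _ (by norm_num) (N3 h4).2.1
  have h6 : 4 * x i / (p : ℕ) = ((4 : ℚ) • y) i := by rw [e]; simp; field_simp
  simp only [Set.mem_preimage, Set.mem_Iic]
  by_cases hd : (p : ℕ) ∣ 255255
  · have := Nat.le_of_dvd (by norm_num) hd; omega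
  · have := L_num p.2.ne_zero ((Nat.Prime.coprime_iff_not_dvd p.2).2 hd) (h6 ▸ h5)
    have := Nat.le_of_dvd (Int.natAbs_pos.2 hn) (Int.natCast_dvd.1 this)
    omega

end

def Fn (χ : Ch) : Prop := {p | χ p ≠ 0}.Finite

def W (χ : Ch) : Submodule ℚ V where
  carrier := {x | x = 0 ∨ (Fn χ ∧ ∀ p : Nat.Primes, χ p = ⊤ → P p x)}
  zero_mem' := Or.inl rfl
  add_mem' := by
    rintro x y (rfl | h) h'
    · simpa using h'
    rcases h' with rfl | h'
    · right; simpa using h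
    · exact Or.inr ⟨h.1, fun p hp => P_add (h.2 p hp) (h'.2 p hp)⟩
  smul_mem' := by
    rintro c x (rfl | h)
    · left; simp
    · exact Or.inr ⟨h.1, fun p hp => P_smul c (h.2 p hp)⟩

def Ws (χ : Ch) : Submodule ℚ V := ⨆ (ψ : Ch) (_ : tle χ ψ ∧ ¬ tle ψ χ), W ψ

theorem Fn_of {χ ψ : Ch} (h : tle χ ψ) (hf : Fn ψ) : Fn χ :=
  (h.1.union hf).subset fun p hp => by
    by_cases h1 : ψ p = 0
    · left; simpa [h1, pos_iff_ne_zero] using hp
    · right; exact h1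

theorem tle_of {χ ψ : Ch} (hf : Fn χ) (h : ∀ p, χ p = ⊤ → ψ p = ⊤) : tle χ ψ :=
  ⟨hf.subset fun _ hp => ne_bot_of_gt hp, h⟩

theorem tle_trans {χ ψ ω : Ch} (h : tle χ ψ) (h' : tle ψ ω) : tle χ ω :=
  ⟨(h.1.union h'.1).subset fun p hp => by
    by_contra hc
    simp only [Set.mem_union, Set.mem_setOf_eq, not_or, not_lt] at hc
    exact absurd hp (not_lt.2 (hc.1.trans hc.2)), fun p hp => h'.2 p (h.2 p hp)⟩

theorem W_anti {χ ψ : Ch} (h : tle χ ψ) : W ψ ≤ W χ := by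
  rintro x (rfl | hx)
  · exact Or.inl rfl
  · exact Or.inr ⟨Fn_of h hx.1, fun p hp => hx.2 p (h.2 p hp)⟩

theorem Ws_le (χ : Ch) : Ws χ ≤ W χ := iSup₂_le fun _ h => W_anti h.1

theorem Ws_anti {χ ψ : Ch} (h : tle χ ψ) (h' : tle ψ χ) : Ws ψ ≤ Ws χ :=
  iSup₂_le fun ω hω => le_iSup₂_of_le (f := fun (ψ : Ch) (_ : tle χ ψ ∧ ¬ tle ψ χ) => W ψ) ω
    ⟨tle_trans h hω.1, fun c => hω.2 (tle_trans c h)⟩ le_rfl

section
variable {H : AddSubgroup V} (hN : N ≤ H) (hG : H ≤ G)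
include hN hG

theorem soc_eq (χ : Ch) : soc H χ = H ⊓ (W χ).toAddSubgroup := by
  rw [soc, ← AddSubgroup.closure_eq (H ⊓ (W χ).toAddSubgroup)]
  congr 1
  ext x
  refine and_congr_right fun hx => ?_
  by_cases h0 : x = 0
  · subst h0
    refine ⟨fun _ => Or.inl rfl, fun _ => ?_⟩
    have : ∀ p, ht H 0 p = ⊤ := fun p => (ht_top hN hG hx p).2 (by simp [P])
    simp [tle, this]
  refine ⟨fun h => Or.inr ⟨Fn_of h (ht_fin hG h0), fun p hp => (ht_top hN hG hx p).1 (h.2 p hp)⟩,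
    fun h => ?_⟩
  rcases h with h | h
  · exact absurd h h0
  · exact tle_of h.1 fun p hp => (ht_top hN hG hx p).2 (h.2 p hp)

omit hG in
theorem exists_mul (x : V) : ∃ n : ℕ, n ≠ 0 ∧ n • x ∈ H := by
  refine ⟨∏ i, (x i).den, Finset.prod_ne_zero_iff.2 fun i _ => (x i).den_nz, hN (N_int _ fun i => ?_)⟩
  obtain ⟨c, hc⟩ := Finset.dvd_prod_of_mem (fun i => (x i).den) (Finset.mem_univ i)
  refine ⟨c * (x i).num, ?_⟩
  rw [hc, Pi.smul_apply, nsmul_eq_mul]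
  push_cast
  rw [← Rat.den_mul_eq_num]; ring

theorem sharp_eq (χ : Ch) : sharp H χ = H ⊓ (Ws χ).toAddSubgroup := by
  rw [sharp, ← AddSubgroup.closure_eq (H ⊓ (Ws χ).toAddSubgroup)]
  congr 1
  ext x
  refine and_congr_right fun _ => ⟨?_, fun h => ?_⟩
  · rintro ⟨n, hn, h⟩
    have h1 : star H χ ≤ (Ws χ).toAddSubgroup := iSup₂_le fun ψ hψ => by
      rw [soc_eq hN hG]
      exact fun y hy => le_iSup₂_of_le
        (f := fun (ψ : Ch) (_ : tle χ ψ ∧ ¬ tle ψ χ) => W ψ) ψ hψ le_rfl hy.2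
    have h2 := (Ws χ).smul_mem ((n : ℚ)⁻¹) (h1 h)
    rwa [← Nat.cast_smul_eq_nsmul ℚ, smul_smul, inv_mul_cancel₀ (by exact_mod_cast hn),
      one_smul] at h2
  · refine Submodule.iSup_induction (fun ψ => ⨆ (_ : tle χ ψ ∧ ¬ tle ψ χ), W ψ)
      (motive := fun x => ∃ n : ℕ, n ≠ 0 ∧ n • x ∈ RgD.star H χ) h ?_ ⟨1, one_ne_zero, by simp⟩ ?_
    · intro ψ y hy
      by_cases hψ : tle χ ψ ∧ ¬ tle ψ χ
      · rw [iSup_pos hψ] at hy
        obtain ⟨n, hn, h⟩ := exists_mul hN y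
        refine ⟨n, hn, le_iSup₂_of_le
          (f := fun (ψ : Ch) (_ : tle χ ψ ∧ ¬ tle ψ χ) => soc H ψ) ψ hψ le_rfl ?_⟩
        rw [soc_eq hN hG]
        exact ⟨h, (W ψ).toAddSubgroup.nsmul_mem hy n⟩
      · rw [iSup_neg hψ, Submodule.mem_bot] at hy
        exact ⟨1, one_ne_zero, by simp [hy]⟩
    · rintro y z ⟨n, hn, h1⟩ ⟨m, hm, h2⟩
      refine ⟨n * m, mul_ne_zero hn hm, ?_⟩
      rw [smul_add, mul_smul n m z, mul_comm n, mul_smul]
      exact add_mem (nsmul_mem h1 _) (nsmul_mem h2 _)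

end

end Pool.Agent.H68.Rg
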