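import Pool.Agent.H68.Rg2

set_option autoImplicit false

namespace Pool.Agent.H68.Rg

open Pool.Agent.H68.RgD

noncomputable def ch (a b : ℕ) : Ch := fun p => if (p : ℕ) = a ∨ (p : ℕ) = b then ⊤ else 0

theorem ch_top {a b : ℕ} {p : Nat.Primes} : ch a b p = ⊤ ↔ (p : ℕ) = a ∨ (p : ℕ) = b := by
  unfold ch; split_ifs with h <;> simp [h]

theorem ch_fn (a b : ℕ) : Fn (ch a b) :=
  ((Set.toFinite ({a, b} : Set ℕ)).preimage (f := fun p : Nat.Primes => (p : ℕ))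
    Subtype.val_injective.injOn).subset fun p hp => by
      by_contra h
      simp only [Set.mem_preimage, Set.mem_insert_iff, Set.mem_singleton_iff] at h
      exact hp (by simp only [ch, if_neg h])

theorem W_ch {a b : ℕ} {x : V} (h1 : P a x) (h2 : P b x) : x ∈ W (ch a b) :=
  Or.inr ⟨ch_fn a b, fun p hp => by rcases ch_top.1 hp with h | h <;> rwa [h]⟩

theorem mem_Ws {χ : Ch} (hf : Fn χ) {a b : ℕ} (hb : b.Prime) (h1 : χ ⟨b, hb⟩ ≠ ⊤)
    (h2 : ∀ p : Nat.Primes, χ p = ⊤ → (p : ℕ) = a) {x : V} (ha : P a x) (hb' : P b x) :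
    x ∈ Ws χ :=
  le_iSup₂_of_le (f := fun (ψ : Ch) (_ : tle χ ψ ∧ ¬ tle ψ χ) => W ψ) (ch a b)
    ⟨tle_of hf fun p hp => ch_top.2 (Or.inl (h2 p hp)),
      fun h => h1 (h.2 _ (ch_top.2 (Or.inr rfl)))⟩ le_rfl (W_ch ha hb')

theorem Ws_sub {χ : Ch} (S : Submodule ℚ V) (h : ∀ x, (∀ p : Nat.Primes, χ p = ⊤ → P p x) →
    ∀ p : Nat.Primes, χ p ≠ ⊤ → P p x → x ∈ S) : Ws χ ≤ S := by
  refine iSup₂_le fun ψ hψ => ?_
  rintro x (rfl | hx)
  · exact zero_mem _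
  by_contra hc
  refine hψ.2 (tle_of hx.1 fun p hp => ?_)
  by_contra hp'
  exact hc (h x (fun q hq => hx.2 q (hψ.1.2 q hq)) p hp' (hx.2 p hp))

def e (i : Fin 5) : V := Pi.single i 1

theorem V_sum (x : V) : x = x 0 • e 0 + x 1 • e 1 + x 2 • e 2 + x 3 • e 3 + x 4 • e 4 := by
  ext i; fin_cases i <;> simp [e]

def Sp (χ : Ch) : Prop := Fn χ ∧ ∀ p : Nat.Primes, χ p = ⊤ ↔ (p : ℕ) = 3

theorem e_Ws {χ : Ch} (hf : Fn χ) (h2 : ∀ p : Nat.Primes, χ p = ⊤ → (p : ℕ) = 3) :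
    e 0 ∈ Ws χ ∧ e 1 ∈ Ws χ ∧ e 2 ∈ Ws χ :=
  ⟨mem_Ws hf Nat.prime_five (fun h => by simpa using h2 _ h) h2 (by simp [P, e]) (by simp [P, e]),
   mem_Ws hf Nat.prime_seven (fun h => by simpa using h2 _ h) h2 (by simp [P, e]) (by simp [P, e]),
   mem_Ws hf Nat.prime_eleven (fun h => by simpa using h2 _ h) h2 (by simp [P, e])
    (by simp [P, e])⟩

theorem Sp_W {χ : Ch} (h : Sp χ) (x : V) : x ∈ W χ ↔ x 3 = x 4 := by
  constructor
  · rintro (rfl | hx)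
    · rfl
    · exact (hx.2 ⟨3, Nat.prime_three⟩ ((h.2 _).2 rfl)).2.2.2.2.2 rfl
  · exact fun hx => Or.inr ⟨h.1, fun p hp => by rw [(h.2 p).1 hp]; simp [P, hx]⟩

theorem Sp_Ws {χ : Ch} (h : Sp χ) (x : V) : x ∈ Ws χ ↔ x 3 = 0 ∧ x 4 = 0 := by
  constructor
  · intro hx
    have := Ws_sub (χ := χ) (LinearMap.ker (LinearMap.proj (R := ℚ) (φ := fun _ : Fin 5 => ℚ) 3) ⊓
      LinearMap.ker (LinearMap.proj (R := ℚ) (φ := fun _ : Fin 5 => ℚ) 4)) (fun x h1 p hp h2 => by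
        have a1 := (h1 ⟨3, Nat.prime_three⟩ ((h.2 _).2 rfl)).2.2.2.2.2 rfl
        have a2 : (p : ℕ) ≠ 3 := fun c => hp ((h.2 p).2 c)
        change x 3 = 0 ∧ x 4 = 0
        by_cases c : (p : ℕ) = 13
        · have := h2.2.2.2.2.1 a2 (by omega); exact ⟨a1.trans this, this⟩
        · have := h2.2.2.2.1 a2 c; exact ⟨this, a1 ▸ this⟩) hx
    exact this
  · rintro ⟨h3, h4⟩
    obtain ⟨a0, a1, a2⟩ := e_Ws h.1 fun p hp => (h.2 p).1 hp
    rw [V_sum x, h3, h4, zero_smul, zero_smul, add_zero, add_zero]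
    exact add_mem (add_mem (Submodule.smul_mem _ _ a0) (Submodule.smul_mem _ _ a1))
      (Submodule.smul_mem _ _ a2)

theorem line_of {p : ℕ} (h : p ≠ 3) : ∃ i : Fin 5, ∀ x, P p x → x = x i • e i := by
  by_cases c0 : p = 5
  · exact ⟨0, fun x ⟨_, a1, a2, a3, a4, _⟩ => by
      ext i; fin_cases i <;> simp [e, a1 h (by omega), a2 h (by omega), a3 h (by omega),
        a4 h (by omega)]⟩
  by_cases c1 : p = 7
  · exact ⟨1, fun x ⟨a0, _, a2, a3, a4, _⟩ => by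
      ext i; fin_cases i <;> simp [e, a0 h (by omega), a2 h (by omega), a3 h (by omega),
        a4 h (by omega)]⟩
  by_cases c2 : p = 11
  · exact ⟨2, fun x ⟨a0, a1, _, a3, a4, _⟩ => by
      ext i; fin_cases i <;> simp [e, a0 h (by omega), a1 h (by omega), a3 h (by omega),
        a4 h (by omega)]⟩
  by_cases c3 : p = 13
  · exact ⟨3, fun x ⟨a0, a1, a2, _, a4, _⟩ => by
      ext i; fin_cases i <;> simp [e, a0 h (by omega), a1 h (by omega), a2 h (by omega),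
        a4 h (by omega)]⟩
  · exact ⟨4, fun x ⟨a0, a1, a2, a3, _, _⟩ => by
      ext i; fin_cases i <;> simp [e, a0 h c0, a1 h c1, a2 h c2, a3 h c3]⟩

theorem tri {χ : Ch} (h1 : ¬ Sp χ) (h2 : ¬ W χ ≤ Ws χ) :
    Ws χ = ⊥ ∧ ∃ i : Fin 5, ∀ x ∈ W χ, x = x i • e i := by
  obtain ⟨x, hx, hx'⟩ := SetLike.not_le_iff_exists.1 h2
  have hf : Fn χ := by
    rcases hx with rfl | h
    · exact absurd (zero_mem _) hx'
    · exact h.1
  have : ∃ p : Nat.Primes, χ p = ⊤ ∧ (p : ℕ) ≠ 3 := by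
    by_contra hc
    push Not at hc
    have h3 : ∀ p : Nat.Primes, χ p ≠ ⊤ := fun p hp =>
      h1 ⟨hf, fun q => ⟨hc q, fun c => by rwa [show q = p from Subtype.ext (c.trans (hc p hp).symm)]⟩⟩
    obtain ⟨a0, a1, a2⟩ := e_Ws hf hc
    have a3 : e 3 ∈ Ws χ := mem_Ws hf (a := 13) (b := 13) (by norm_num) (h3 _)
      (fun p hp => absurd hp (h3 p)) (by simp [P, e]) (by simp [P, e])
    have a4 : e 4 ∈ Ws χ := mem_Ws hf (a := 17) (b := 17) (by norm_num) (h3 _)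
      (fun p hp => absurd hp (h3 p)) (by simp [P, e]) (by simp [P, e])
    apply hx'
    rw [V_sum x]
    exact add_mem (add_mem (add_mem (add_mem (Submodule.smul_mem _ _ a0)
      (Submodule.smul_mem _ _ a1)) (Submodule.smul_mem _ _ a2)) (Submodule.smul_mem _ _ a3))
      (Submodule.smul_mem _ _ a4)
  obtain ⟨p, hp, hp3⟩ := this
  obtain ⟨i, hi⟩ := line_of hp3
  have hl : ∀ x ∈ W χ, x = x i • e i := by
    rintro x (rfl | h)
    · simp
    · exact hi x (h.2 p hp)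
  refine ⟨eq_bot_iff.2 fun y hy => ?_, i, hl⟩
  by_contra h0
  have hy' := hl y (Ws_le χ hy)
  have h5 : y i ≠ 0 := fun c => h0 (by rw [hy', c, zero_smul]; exact zero_mem _)
  apply hx'
  have : x = (x i / y i) • y := by
    conv_rhs => rw [hy']
    rw [smul_smul, Pi.smul_apply]; simp only [e, Pi.single_eq_same, smul_eq_mul, mul_one]
    rw [div_mul_cancel₀ _ h5]; exact hl x hx
  rw [this]; exact Submodule.smul_mem _ _ hy

theorem Ws_bot {a b : ℕ} (ha : a.Prime) (hb : b.Prime)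
    (h : ∀ x p, p ≠ a → p ≠ b → P a x → P b x → P p x → x = 0) : Ws (ch a b) = ⊥ :=
  eq_bot_iff.2 (Ws_sub _ fun x h1 p hp h2 =>
    h x p (fun c => hp (ch_top.2 (Or.inl c))) (fun c => hp (ch_top.2 (Or.inr c)))
      (h1 ⟨a, ha⟩ (ch_top.2 (Or.inl rfl))) (h1 ⟨b, hb⟩ (ch_top.2 (Or.inr rfl))) h2)

def line (t : V) : AddSubgroup V :=
  (L 3).map (LinearMap.toSpanSingleton ℚ V t).toAddMonoidHom

theorem mem_line {t x : V} : x ∈ line t ↔ ∃ α ∈ L 3, α • t = x := Iff.rfl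

theorem zs (k : ℤ) (x : V) (i : Fin 5) : (k • x) i = k * x i := by simp
theorem qs (k : ℚ) (x : V) (i : Fin 5) : (k • x) i = k * x i := rfl
theorem a_c : a 0 = 1 / 4 ∧ a 1 = 1 / 4 ∧ a 2 = 0 ∧ a 3 = 1 / 2 ∧ a 4 = 1 / 2 :=
  ⟨rfl, rfl, rfl, rfl, rfl⟩
theorem w1_c : w1 0 = 1 / 2 ∧ w1 1 = 1 / 2 ∧ w1 2 = 0 ∧ w1 3 = 0 ∧ w1 4 = 0 :=
  ⟨rfl, rfl, rfl, rfl, rfl⟩
theorem w2_c : w2 0 = 1 / 2 ∧ w2 1 = 0 ∧ w2 2 = 1 / 2 ∧ w2 3 = 0 ∧ w2 4 = 0 :=
  ⟨rfl, rfl, rfl, rfl, rfl⟩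
theorem s_c : s 0 = 0 ∧ s 1 = 0 ∧ s 2 = 0 ∧ s 3 = 1 ∧ s 4 = 1 :=
  ⟨rfl, rfl, rfl, rfl, rfl⟩

theorem G_line {x : V} (h : x ∈ G) {i : Fin 5} (hx : x = x i • e i) : x ∈ N := by
  obtain ⟨k, j, h⟩ := h
  have h1 := h.2.1
  have h2 := h.2.2.1
  have h0 := h.1
  simp only [Pi.sub_apply, zs, a_c, w2_c] at h0 h1 h2
  have d1 : x 1 = 0 → (4 : ℤ) ∣ k := fun c =>
    L_dvd (m := 21) (n := 4) (by norm_num) (by norm_num)
      (by convert neg_mem h1 using 1; rw [c]; push_cast; ring)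
  have d2 : x 2 = 0 → (2 : ℤ) ∣ j := fun c =>
    L_dvd (m := 33) (n := 2) (by norm_num) (by norm_num)
      (by convert neg_mem h2 using 1; rw [c]; push_cast; ring)
  have d0 : x 0 = 0 → (4 : ℤ) ∣ k + 2 * j := fun c =>
    L_dvd (m := 15) (n := 4) (by norm_num) (by norm_num)
      (by convert neg_mem h0 using 1; rw [c]; push_cast; ring)
  have z : ∀ l, l ≠ i → x l = 0 := fun l hl => by rw [hx]; simp [e, hl]
  have d : (4 : ℤ) ∣ k ∧ (2 : ℤ) ∣ j := by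
    by_cases c1 : i = 1
    · have := d2 (z _ (by rw [c1]; decide)); have := d0 (z _ (by rw [c1]; decide)); omega
    by_cases c2 : i = 2
    · have := d1 (z _ (Ne.symm c1)); have := d0 (z _ (by rw [c2]; decide)); omega
    · exact ⟨d1 (z _ (Ne.symm c1)), d2 (z _ (Ne.symm c2))⟩
  obtain ⟨⟨k, rfl⟩, ⟨j, rfl⟩⟩ := d
  have h4 : (4 * k) • a + (2 * j) • w2 ∈ N := N_int _ fun l => by
    fin_cases l
    · exact ⟨k + j, by simp [a, w2]; ring⟩
    · exact ⟨k, by simp [a, w2]; ring⟩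
    · exact ⟨j, by simp [a, w2]; ring⟩
    · exact ⟨2 * k, by simp [a, w2]; ring⟩
    · exact ⟨2 * k, by simp [a, w2]; ring⟩
  convert add_mem h h4 using 1
  abel

theorem exists_reg {H : AddSubgroup V} (hN : N ≤ H) (hG : H ≤ G) (t : V) (h3 : t 3 ≠ 0)
    (h4 : t 3 = t 4) (hl : line t ≤ H) (hq : ∀ x ∈ H, x 3 = x 4 → x 3 / t 3 ∈ L 3) :
    ∃ U, IsRegulating H U ∧ U ≤ N ⊔ line t := by
  classical
  let C : Ch → AddSubgroup V := fun χ =>
    if Sp χ then line t else if W χ ≤ Ws χ then ⊥ else H ⊓ (W χ).toAddSubgroup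
  refine ⟨_, ⟨C, fun χ ψ h h' => ?_, fun χ => ?_, rfl⟩, iSup_le fun χ => ?_⟩
  · have e1 : W χ = W ψ := le_antisymm (W_anti h') (W_anti h)
    have e2 : Ws χ = Ws ψ := le_antisymm (Ws_anti h' h) (Ws_anti h h')
    have e3 : Sp χ ↔ Sp ψ := and_congr ⟨Fn_of h', Fn_of h⟩
      (forall_congr' fun p => iff_congr ⟨h.2 p, h'.2 p⟩ Iff.rfl)
    simp only [C, e1, e2, e3]
  · rw [soc_eq hN hG, sharp_eq hN hG]
    simp only [C]
    split_ifs with c1 c2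
    · constructor
      · refine eq_bot_iff.2 ?_
        rintro _ ⟨⟨α, -, rfl⟩, -, h⟩
        have := ((Sp_Ws c1 _).1 h).1
        simp only [LinearMap.toAddMonoidHom_coe, LinearMap.toSpanSingleton_apply, Pi.smul_apply,
          smul_eq_mul, mul_eq_zero, h3, or_false] at this
        simp [this]
      · refine le_antisymm (sup_le (fun x hx => ⟨hl hx, ?_⟩) (inf_le_inf_left _ (Ws_le χ))) ?_
        · obtain ⟨α, -, rfl⟩ := mem_line.1 hx
          exact (Sp_W c1 _).2 (by simp [h4])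
        · rintro x ⟨hx, hx'⟩
          have h5 := (Sp_W c1 _).1 hx'
          have h6 : (x 3 / t 3) • t ∈ line t := ⟨_, hq x hx h5, rfl⟩
          refine AddSubgroup.mem_sup.2 ⟨_, h6, x - (x 3 / t 3) • t,
            ⟨H.sub_mem hx (hl h6), (Sp_Ws c1 _).2 ⟨?_, ?_⟩⟩, by abel⟩
          · simp [h3]
          · simp [← h4, ← h5, h3]
    · simp [le_antisymm c2 (Ws_le χ)]
    · simp [(tri c1 c2).1]
  · simp only [C]
    split_ifs with c1 c2
    · exact le_sup_right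
    · exact bot_le
    · obtain ⟨i, hi⟩ := (tri c1 c2).2
      exact fun x hx => AddSubgroup.mem_sup_left (G_line (hG hx.1) (hi x hx.2))

end Pool.Agent.H68.Rg
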