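import Pool.Agent.H68.Rg3

set_option autoImplicit false

namespace Pool.Agent.H68.Rg

open Pool.Agent.H68.RgD

theorem N_smul {β : ℚ} (h : β ∈ L 3) (z0 z1 z2 z3 : ℤ) :
    β • (![z0, z1, z2, z3, z3] : V) ∈ N := by
  refine ⟨?_, ?_, ?_, z3 * β, L_mul _ h, ?_, ?_⟩
  · simpa [mul_comm] using L_le 15 (by norm_num) (L_mul z0 h)
  · simpa [mul_comm] using L_le 21 (by norm_num) (L_mul z1 h)
  · simpa [mul_comm] using L_le 33 (by norm_num) (L_mul z2 h)
  · simp [mul_comm]
  · simp [mul_comm]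

theorem line_Z {t : V} (z0 z1 z2 z3 : ℤ) (h : (4 : ℚ) • t = ![(z0 : ℚ), z1, z2, z3, z3]) :
    line t ≤ Z t := by
  rintro _ ⟨α, hα, rfl⟩
  obtain ⟨m, hm⟩ := L3_split hα
  refine ⟨m, ?_⟩
  convert N_smul hm z0 z1 z2 z3 using 1
  rw [← h]; ext i; simp; ring

theorem Z_G {t : V} (h : t ∈ G) : Z t ≤ G := by
  rintro x ⟨i, hx⟩
  simpa using add_mem (N_G hx) (G.zsmul_mem h i)

theorem a_e : a = (1 / 4 : ℚ) • e 0 + (1 / 4 : ℚ) • e 1 + (1 / 2 : ℚ) • e 3 + (1 / 2 : ℚ) • e 4 := by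
  rw [V_sum a]; simp [a_c]
theorem w1_e : w1 = (1 / 2 : ℚ) • e 0 + (1 / 2 : ℚ) • e 1 := by rw [V_sum w1]; simp [w1_c]
theorem w2_e : w2 = (1 / 2 : ℚ) • e 0 + (1 / 2 : ℚ) • e 2 := by rw [V_sum w2]; simp [w2_c]
theorem rle {H U : AddSubgroup V} (h : IsRegulating H U) : regulator H ≤ U := sInf_le h

theorem a_G : a ∈ G := ⟨1, 0, by simp⟩
theorem w2_G : w2 ∈ G := ⟨0, 1, by simp⟩
theorem s_N : line s ≤ N := by
  rintro _ ⟨α, hα, rfl⟩
  convert N_smul hα 0 0 0 1 using 1
  ext i; fin_cases i <;> simp [s]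
theorem one_L (m : ℕ) : (1 : ℚ) ∈ L m := by simpa using L_int m 1
theorem w1_eq : w1 = (2 : ℤ) • a - s := by ext i; fin_cases i <;> simp [a, s, w1] <;> norm_num
theorem w1_G : w1 ∈ G := by
  rw [w1_eq]; exact sub_mem (G.zsmul_mem a_G 2) (N_G (s_N ⟨1, one_L 3, by simp⟩))
theorem la : line a ≤ Z a :=
  line_Z 1 1 0 2 (by ext i; fin_cases i <;> simp [a] <;> norm_num)
theorem law : line (a + w2) ≤ Z (a + w2) :=
  line_Z 3 1 2 2 (by ext i; fin_cases i <;> simp [a, w2] <;> norm_num)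
theorem lw2 : line w2 ≤ Z w2 :=
  line_Z 2 0 2 0 (by ext i; fin_cases i <;> simp [w2] <;> norm_num)
theorem lw1 : line w1 ≤ Z w1 :=
  line_Z 2 2 0 0 (by ext i; fin_cases i <;> simp [w1] <;> norm_num)

theorem hqG {x : V} (h : x ∈ G) (h3 : x 3 = x 4) : x 3 / (1 / 2) ∈ L 3 := by
  obtain ⟨i, j, h⟩ := h
  have := (N34 h).1 (by simp only [Pi.sub_apply, zs, a_c, w2_c, h3])
  simp only [Pi.sub_apply, zs, a_c, w2_c] at this
  convert add_mem (L_mul 2 this) (L_int 3 i) using 1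
  push_cast; ring

theorem reg_le : regulator G ≤ Z w1 := by
  obtain ⟨U, hU, h⟩ := exists_reg N_G le_rfl a (by norm_num [a_c]) rfl (la.trans (Z_G a_G))
    fun x hx h3 => hqG hx h3
  obtain ⟨U', hU', h'⟩ := exists_reg N_G le_rfl (a + w2) (by norm_num [a_c, w2_c])
    (by simp only [Pi.add_apply, a_c, w2_c]) (law.trans (Z_G (add_mem a_G w2_G)))
    fun x hx h3 => by simpa only [Pi.add_apply, a_c, w2_c, add_zero] using hqG hx h3
  intro x hx
  obtain ⟨i, hi⟩ := ((rle hU).trans (h.trans (sup_le (N_Z a) la))) hx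
  obtain ⟨j, hj⟩ := ((rle hU').trans (h'.trans (sup_le (N_Z _) law))) hx
  have h1 := (sub_mem hi hj).2.1
  have h2 := (sub_mem hi hj).2.2.1
  simp only [Pi.sub_apply, Pi.add_apply, zs, a_c, w2_c] at h1 h2
  have d1 : (4 : ℤ) ∣ j - i := L_dvd (m := 21) (n := 4) (by norm_num) (by norm_num)
    (by convert h1 using 1; push_cast; ring)
  have d2 : (2 : ℤ) ∣ j := L_dvd (m := 33) (n := 2) (by norm_num) (by norm_num)
    (by convert h2 using 1; push_cast; ring)
  obtain ⟨k, rfl⟩ : (2 : ℤ) ∣ i := by omega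
  refine ⟨k, ?_⟩
  convert add_mem hi (N.zsmul_mem (s_N ⟨1, one_L 3, rfl⟩) k) using 1
  rw [w1_eq]; ext l; simp; ring

theorem le_reg : Z w1 ≤ regulator G := by
  refine le_sInf ?_
  rintro _ ⟨C, -, hC, rfl⟩
  set U := ⨆ χ, C χ
  have key : ∀ {p q : ℕ}, Ws (ch p q) = ⊥ → ∀ x ∈ N, P p x → P q x → x ∈ U := by
    intro p q h x hx h1 h2
    have := (hC (ch p q)).2
    rw [sharp_eq N_G le_rfl, soc_eq N_G le_rfl, h] at this
    refine le_iSup C (ch p q) ?_
    have h3 : x ∈ G ⊓ (W (ch p q)).toAddSubgroup := ⟨N_G hx, W_ch h1 h2⟩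
    simpa [← this] using h3
  have u0 : ∀ q ∈ L 15, q • e 0 ∈ U := fun q hq =>
    key (Ws_bot Nat.prime_three Nat.prime_five fun x p h1 h2 _ b c =>
      V_ext (c.1 h1 h2) (b.2.1 (by omega) (by omega)) (b.2.2.1 (by omega) (by omega))
        (b.2.2.2.1 (by omega) (by omega)) (b.2.2.2.2.1 (by omega) (by omega))) _
      ⟨by simpa [e] using hq, by simp [e], by simp [e], 0, zero_mem _, by simp [e], by simp [e]⟩
      (by simp [P, e]) (by simp [P, e])
  have u1 : ∀ q ∈ L 21, q • e 1 ∈ U := fun q hq =>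
    key (Ws_bot Nat.prime_three Nat.prime_seven fun x p h1 h2 _ b c =>
      V_ext (b.1 (by omega) (by omega)) (c.2.1 h1 h2) (b.2.2.1 (by omega) (by omega))
        (b.2.2.2.1 (by omega) (by omega)) (b.2.2.2.2.1 (by omega) (by omega))) _
      ⟨by simp [e], by simpa [e] using hq, by simp [e], 0, zero_mem _, by simp [e], by simp [e]⟩
      (by simp [P, e]) (by simp [P, e])
  have u2 : ∀ q ∈ L 33, q • e 2 ∈ U := fun q hq =>
    key (Ws_bot Nat.prime_three Nat.prime_eleven fun x p h1 h2 _ b c =>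
      V_ext (b.1 (by omega) (by omega)) (b.2.1 (by omega) (by omega)) (c.2.2.1 h1 h2)
        (b.2.2.2.1 (by omega) (by omega)) (b.2.2.2.2.1 (by omega) (by omega))) _
      ⟨by simp [e], by simp [e], by simpa [e] using hq, 0, zero_mem _, by simp [e], by simp [e]⟩
      (by simp [P, e]) (by simp [P, e])
  have u3 : ∀ q ∈ L 13, q • e 3 ∈ U := fun q hq =>
    key (Ws_bot (a := 13) (b := 13) (by norm_num) (by norm_num) fun x p h1 _ _ b c =>
      have h4 := b.2.2.2.2.1 (by omega) (by omega)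
      V_ext (b.1 (by omega) (by omega)) (b.2.1 (by omega) (by omega))
        (b.2.2.1 (by omega) (by omega))
        (if h : p = 3 then (c.2.2.2.2.2 h).trans h4 else c.2.2.2.1 h h1) h4) _
      ⟨by simp [e], by simp [e], by simp [e], 0, zero_mem _, by simpa [e] using hq, by simp [e]⟩
      (by simp [P, e]) (by simp [P, e])
  have u4 : ∀ q ∈ L 17, q • e 4 ∈ U := fun q hq =>
    key (Ws_bot (a := 17) (b := 17) (by norm_num) (by norm_num) fun x p h1 _ _ b c =>
      have h3 := b.2.2.2.1 (by omega) (by omega)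
      V_ext (b.1 (by omega) (by omega)) (b.2.1 (by omega) (by omega))
        (b.2.2.1 (by omega) (by omega)) h3
        (if h : p = 3 then (c.2.2.2.2.2 h).symm.trans h3 else c.2.2.2.2.1 h h1)) _
      ⟨by simp [e], by simp [e], by simp [e], 0, zero_mem _, by simp [e], by simpa [e] using hq⟩
      (by simp [P, e]) (by simp [P, e])
  have sp : Sp (ch 3 3) := ⟨ch_fn 3 3, fun p => by simp [ch_top]⟩
  have u5 : ∀ α ∈ L 3, (2 * α) • a ∈ U := by
    intro α hα
    have := (hC (ch 3 3)).2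
    rw [sharp_eq N_G le_rfl, soc_eq N_G le_rfl] at this
    have h3 : α • a ∈ G ⊓ (W (ch 3 3)).toAddSubgroup :=
      ⟨Z_G a_G (la ⟨α, hα, rfl⟩), (Sp_W sp _).2 rfl⟩
    rw [← this] at h3
    obtain ⟨c, hc, y, ⟨⟨i, j, hy⟩, hy'⟩, e'⟩ := AddSubgroup.mem_sup.1 h3
    obtain ⟨y3, y4⟩ := (Sp_Ws sp y).1 hy'
    have h0 := hy.1
    have h1 := hy.2.1
    have h2 := hy.2.2.1
    have h4 := (N3 hy).1
    simp only [Pi.sub_apply, zs, a_c, w2_c] at h0 h1 h2 h4
    obtain ⟨k, rfl⟩ : (2 : ℤ) ∣ i := L_dvd (m := 39) (n := 2) (by norm_num) (by norm_num)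
      (by convert neg_mem h4 using 1; rw [y3]; push_cast; ring)
    have b0 := u0 (2 * y 0) (by
      convert add_mem (L_mul 2 h0) (L_int 15 (k + j)) using 1; push_cast; ring)
    have b1 := u1 (2 * y 1) (by
      convert add_mem (L_mul 2 h1) (L_int 21 k) using 1; push_cast; ring)
    have b2 := u2 (2 * y 2) (by
      convert add_mem (L_mul 2 h2) (L_int 33 j) using 1; push_cast; ring)
    have b3 : c ∈ U := le_iSup C _ hc
    convert add_mem (add_mem (add_mem (add_mem b3 b3) b0) b1) b2 using 1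
    rw [mul_smul, ← e']
    conv_lhs => rw [V_sum y, y3, y4]
    module
  have v1 : w1 ∈ U := by
    convert sub_mem (sub_mem (u5 1 (one_L 3)) (u3 1 (one_L 13))) (u4 1 (one_L 17)) using 1
    rw [a_e, w1_e]; module
  have hN : N ≤ U := by
    rintro x ⟨a0, a1, a2, α, a3, a4, a5⟩
    obtain ⟨m, hm⟩ := L3_split a3
    have c0 := u0 _ (sub_mem a0 (L_le 15 (by norm_num) (L_mul 2 hm)))
    have c1 := u1 _ (sub_mem a1 (L_le 21 (by norm_num) (L_mul 2 hm)))
    convert sub_mem (add_mem (add_mem (add_mem (add_mem (add_mem c0 c1) (u2 _ a2)) (u3 _ a4))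
      (u4 _ a5)) (u5 α a3)) (U.zsmul_mem v1 m) using 1
    conv_lhs => rw [V_sum x]
    rw [a_e, w1_e]; push_cast; module
  rintro x ⟨i, hx⟩
  simpa using add_mem (hN hx) (U.zsmul_mem v1 i)

theorem reg2 : regulator (Z w1) ≠ Z w1 := by
  obtain ⟨U, hU, h⟩ := exists_reg (N_Z w1) (Z_G w1_G) s (by norm_num [s_c]) rfl
    (s_N.trans (N_Z _)) fun x ⟨i, hx⟩ h3 => by
      have := (N34 hx).1 (by simp only [Pi.sub_apply, zs, w1_c, h3])
      simpa only [Pi.sub_apply, zs, w1_c, s_c, mul_zero, sub_zero, div_one] using this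
  intro e
  have h1 : w1 ∈ regulator (Z w1) := by rw [e]; exact ⟨1, by simp⟩
  have h2 := (((rle hU).trans (h.trans (sup_le le_rfl s_N))) h1).1
  have : (2 : ℤ) ∣ 1 := L_dvd (m := 15) (n := 2) (by norm_num) (by norm_num)
    (by simpa [w1_c] using h2)
  omega

theorem butler : IsButler G := by
  let A : Fin 7 → AddSubgroup ℚ := ![L 15, L 21, L 33, L 13, L 17, L 3, L 3]
  let v : Fin 7 → V := ![e 0, e 1, e 2, e 3, e 4, a, w2]
  let f : (∀ i, A i) →+ V :=
    { toFun := fun c => ∑ i, (c i : ℚ) • v i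
      map_zero' := by simp
      map_add' := fun c d => by simp [add_smul, Finset.sum_add_distrib] }
  refine ⟨7, A, f, le_antisymm ?_ ?_⟩
  · rintro _ ⟨c, rfl⟩
    change ∑ i, (c i : ℚ) • v i ∈ G
    refine G.sum_mem fun i _ => ?_
    have := (c i).2
    generalize (c i : ℚ) = q at this
    fin_cases i
    · exact N_G ⟨by simpa [v, e, A] using this, by simp [v, e], by simp [v, e], 0, zero_mem _,
        by simp [v, e], by simp [v, e]⟩
    · exact N_G ⟨by simp [v, e], by simpa [v, e, A] using this, by simp [v, e], 0, zero_mem _,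
        by simp [v, e], by simp [v, e]⟩
    · exact N_G ⟨by simp [v, e], by simp [v, e], by simpa [v, e, A] using this, 0, zero_mem _,
        by simp [v, e], by simp [v, e]⟩
    · exact N_G ⟨by simp [v, e], by simp [v, e], by simp [v, e], 0, zero_mem _,
        by simpa [v, e, A] using this, by simp [v, e]⟩
    · exact N_G ⟨by simp [v, e], by simp [v, e], by simp [v, e], 0, zero_mem _,
        by simp [v, e], by simpa [v, e, A] using this⟩
    · exact Z_G a_G (la ⟨q, this, rfl⟩)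
    · exact Z_G w2_G (lw2 ⟨q, this, rfl⟩)
  · rintro x ⟨i, j, a0, a1, a2, α, a3, a4, a5⟩
    obtain ⟨m, hm⟩ := L3_split a3
    set n := x - i • a - j • w2 with hn
    let cf : Fin 7 → ℚ := ![n 0 - (2 : ℤ) * ((α - m) / 4), n 1 - (2 : ℤ) * ((α - m) / 4), n 2,
      n 3 - α + m, n 4 - α + m, (2 : ℤ) * α + ((i - 2 * m : ℤ) : ℚ), j]
    have hc : ∀ k, cf k ∈ A k := by
      intro k
      fin_cases k
      · exact sub_mem a0 (L_le 15 (by norm_num) (L_mul 2 hm))
      · exact sub_mem a1 (L_le 21 (by norm_num) (L_mul 2 hm))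
      · exact a2
      · exact add_mem a4 (L_int _ _)
      · exact add_mem a5 (L_int _ _)
      · exact add_mem (L_mul 2 a3) (L_int _ _)
      · exact L_int _ _
    refine ⟨fun k => ⟨cf k, hc k⟩, ?_⟩
    have hx : x = n + i • a + j • w2 := by rw [hn]; abel
    clear_value n
    rw [hx]
    conv_rhs => rw [V_sum n]
    simp only [f, cf, v, Fin.sum_univ_seven, AddMonoidHom.coe_mk, ZeroHom.coe_mk, Matrix.cons_val]
    rw [a_e, w2_e]; push_cast; module

end Pool.Agent.H68.Rg
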