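import Mathlib

set_option autoImplicit false

namespace Pool.Agent.H68.RgD

variable {V : Type} [AddCommGroup V]

/-- Height sequences (characteristics). -/
abbrev Ch : Type := Nat.Primes → ℕ∞

/-- The height sequence of `x` in `G`. -/
noncomputable def ht (G : AddSubgroup V) (x : V) : Ch :=
  fun p => ⨆ (k : ℕ) (_ : ∃ y ∈ G, x = (p : ℕ) ^ k • y), (k : ℕ∞)

/-- The type of `χ` is at most the type of `ψ`. -/
def tle (χ ψ : Ch) : Prop := {p | ψ p < χ p}.Finite ∧ ∀ p, χ p = ⊤ → ψ p = ⊤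

/-- `G(τ)`, for `τ` the type of `χ`. -/
def soc (G : AddSubgroup V) (χ : Ch) : AddSubgroup V :=
  AddSubgroup.closure {x | x ∈ G ∧ tle χ (ht G x)}

/-- `G^*(τ)`. -/
def star (G : AddSubgroup V) (χ : Ch) : AddSubgroup V :=
  ⨆ (ψ : Ch) (_ : tle χ ψ ∧ ¬ tle ψ χ), soc G ψ

/-- `G^#(τ)`, the purification of `G^*(τ)` in `G`. -/
def sharp (G : AddSubgroup V) (χ : Ch) : AddSubgroup V :=
  AddSubgroup.closure {x | x ∈ G ∧ ∃ n : ℕ, n ≠ 0 ∧ n • x ∈ star G χ}

/-- `U` is the sum of one complement of `G^#(τ)` in `G(τ)` for each type `τ`. -/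
def IsRegulating (G U : AddSubgroup V) : Prop :=
  ∃ C : Ch → AddSubgroup V, (∀ χ ψ, tle χ ψ → tle ψ χ → C χ = C ψ) ∧
    (∀ χ, C χ ⊓ sharp G χ = ⊥ ∧ C χ ⊔ sharp G χ = soc G χ) ∧ U = ⨆ χ, C χ

/-- The regulator: the intersection of all regulating subgroups. -/
def regulator (G : AddSubgroup V) : AddSubgroup V := sInf {U | IsRegulating G U}

/-- `G` is a homomorphic image of a finite direct sum of subgroups of `ℚ`. -/
def IsButler (G : AddSubgroup V) : Prop :=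
  ∃ (n : ℕ) (A : Fin n → AddSubgroup ℚ) (f : (∀ i, A i) →+ V), f.range = G

end Pool.Agent.H68.RgD
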