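import Pool.Agent.H68.Sat2

set_option autoImplicit false

namespace Pool.Agent.H68.Rm

open Function Pool.Agent.H68.Fit Pool.Agent.H68.Sat Matrix
open Subgroup (center)
open scoped commutatorElement

abbrev K5 := ZMod 5
instance : Fact (Nat.Prime 5) := ⟨by norm_num⟩
abbrev GG := GL (Fin 2) K5
abbrev SS := SpecialLinearGroup (Fin 2) K5
abbrev sc : K5ˣ →* GG := GeneralLinearGroup.scalar (Fin 2)
def sg : GG →* K5ˣ := (powMonoidHom 2).comp GeneralLinearGroup.det
def XX : Subgroup GG := (SpecialLinearGroup.toGL : SS →* GG).range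
abbrev CC := center GG

theorem cl {G : Type} [Group G] {A B : Subgroup G} (C : Subgroup G)
    (h : ∀ a ∈ A, ∀ b ∈ B, ⁅a, b⁆ ∈ C) : ⁅A, B⁆ ≤ C := Subgroup.commutator_le.2 h

theorem mem_x {g : GG} : g ∈ XX ↔ GeneralLinearGroup.det g = 1 :=
  ⟨by rintro ⟨x, rfl⟩; exact Units.ext x.2, fun h => ⟨⟨g, congrArg Units.val h⟩, Units.ext rfl⟩⟩

theorem comm_x (g h : GG) : ⁅g, h⁆ ∈ XX := mem_x.2 (by
  rw [map_commutatorElement, commutatorElement_eq_one_iff_mul_comm, mul_comm])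

theorem mem_c {g : GG} : g ∈ CC ↔ ∃ u, sc u = g := by
  rw [CC, GeneralLinearGroup.center_eq_range_scalar]; rfl

theorem sc_inj : Injective sc := fun u v e => Units.ext (by
  simpa using congrArg (fun g : GG => g.1 0 0) e)

theorem sg_x {g : GG} (h : g ∈ XX) : sg g = 1 := by simp [sg, mem_x.1 h]

theorem sg_sc (u : K5ˣ) : sg (sc u) = 1 := by
  simp only [sg, MonoidHom.comp_apply, GeneralLinearGroup.det_scalar]
  revert u; decide

theorem sg_c {g : GG} (h : g ∈ CC) : sg g = 1 := by obtain ⟨u, rfl⟩ := mem_c.1 h; exact sg_sc u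

theorem sg_or (g : GG) : sg g = 1 ∨ sg g = -1 :=
  (by decide : ∀ u : K5ˣ, u ^ 2 = 1 ∨ u ^ 2 = -1) _

theorem sg_one {g : GG} (h : sg g = 1) : ∃ u, g * sc u ∈ XX := by
  simp only [mem_x, map_mul, GeneralLinearGroup.det_scalar]
  exact (by decide : ∀ d : K5ˣ, d ^ 2 = 1 → ∃ u, d * u ^ Fintype.card (Fin 2) = 1) _ h

theorem s_perf : commutator SS = ⊤ := SL2.commutator_eq_top (a := 2) (by decide) (by decide)

theorem x_perf : XX ≤ ⁅XX, XX⁆ := by
  rw [XX, MonoidHom.range_eq_map, ← Subgroup.map_commutator]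
  exact Subgroup.map_mono s_perf.ge

theorem x_nor {M : Subgroup GG} (h : ∀ x ∈ XX, ∀ m ∈ M, x * m * x⁻¹ ∈ M) : M ≤ CC ∨ XX ≤ M := by
  have := ProjectiveSpecialLinearGroup.rank_two_simple (F := K5) (by simp)
  have n : (M.comap (SpecialLinearGroup.toGL : SS →* GG)).Normal := ⟨fun m a x => by
    simpa using h _ ⟨x, rfl⟩ _ a⟩
  rcases (n.map _ (mk_surj (center SS))).eq_bot_or_eq_top with e | e
  · refine Or.inl fun m a => GeneralLinearGroup.mem_center_iff_val_mem_range_scalar.2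
      (mem_range_scalar_of_commute_transvectionStruct fun t => ?_)
    have k : ⁅⁅XX, M⁆, XX⁆ = ⊥ := Subgroup.commutator_eq_bot_iff_le_centralizer.2
      ((cl CC fun x b m a => by
        obtain ⟨y, hy⟩ := comm_x x m
        rw [← hy, SpecialLinearGroup.toGL_mem_center_iff]
        exact mk_one.1 (Subgroup.mem_bot.1 (e.le ⟨y, by
          rw [SetLike.mem_coe, Subgroup.mem_comap, hy]; exact mul_mem (h x b m a) (inv_mem a),
          rfl⟩))).trans (Subgroup.center_le_centralizer _))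
    exact congrArg Units.val ((Subgroup.commutator_eq_bot_iff_le_centralizer.1
      (Subgroup.commutator_commutator_eq_bot_of_rotate k (Subgroup.commutator_comm M XX ▸ k))
        (x_perf ⟨⟨t.toMatrix, by simp⟩, rfl⟩)) m a).symm
  · right
    rintro _ ⟨x, rfl⟩
    refine cl (M.comap (SpecialLinearGroup.toGL : SS →* GG))
      (fun x _ y _ => ?_) (s_perf.ge (Subgroup.mem_top x))
    obtain ⟨m, a, b⟩ := e.ge (Subgroup.mem_top (QuotientGroup.mk' _ y))
    obtain ⟨z, c, rfl⟩ := (QuotientGroup.mk'_eq_mk' _).1 b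
    have := mul_mem (n.conj_mem m a x) (inv_mem a)
    convert this using 1
    rw [commutatorElement_def, _root_.mul_inv_rev, ← mul_assoc x, mul_assoc _ z, ← Subgroup.mem_center_iff.1 c]
    simp [mul_assoc]

def y0 : GG := SpecialLinearGroup.toGL (⟨!![0, -1; 1, 0], by simp⟩ : SS)
def dl : GG := ⟨!![2, 0; 0, 1], !![3, 0; 0, 1], by decide, by decide⟩

theorem y0_c : y0 ∉ CC := fun h => by
  obtain ⟨u, e⟩ := mem_c.1 h
  simpa [y0] using congrArg (fun g : GG => g.1 1 0) e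

theorem y0_sq : y0 ^ 2 = sc (-1) := Units.ext (by decide)

theorem sg_dl : sg dl = -1 := Units.ext (by simp [sg, dl]; rfl)

theorem x_sq {x : GG} (h : x ∈ XX) (h1 : x ∉ CC) (h2 : x ^ 2 ∈ CC) : x ^ 2 = sc (-1) := by
  obtain ⟨u, e⟩ := mem_c.1 h2
  have d : x.1 0 0 * x.1 1 1 - x.1 0 1 * x.1 1 0 = 1 :=
    (det_fin_two _).symm.trans (congrArg Units.val (mem_x.1 h))
  have k := fun i j => congrArg (fun g : GG => g.1 i j) e
  have k1 := k 0 0
  have k2 := k 0 1
  have k3 := k 1 0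
  have k4 := k 1 1
  simp [sq, Matrix.mul_apply, Fin.sum_univ_two] at k1 k2 k3 k4
  rcases (by decide +kernel : ∀ a b c d : K5, a * d - b * c = 1 → 0 = a * b + b * d →
    0 = c * a + d * c → a * a + b * c = c * b + d * d → a * a + b * c = -1 ∨ (b = 0 ∧ c = 0 ∧ a = d))
      _ _ _ _ d k2 k3 (k1.symm.trans k4) with a | ⟨a, b, c⟩
  · rw [← e, show u = -1 from Units.ext (k1.trans a)]
  · refine absurd (GeneralLinearGroup.mem_center_iff_val_mem_range_scalar.2 ⟨x.1 0 0, ?_⟩) h1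
    ext i j
    fin_cases i <;> fin_cases j <;> simp [a, b, c]

variable {D A B : Type} [Group D] [Group A] [Group B]

def Ad (T : Subgroup GG) : Prop := T ≤ CC ∨ XX ≤ T

theorem img {f : D →* GG} (h : Ad f.range) (N : Subgroup D) [hN : N.Normal] : Ad (N.map f) :=
  h.elim (fun a => Or.inl ((N.map_le_range f).trans a)) fun a => x_nor (by
    rintro x b _ ⟨m, c, rfl⟩
    obtain ⟨y, rfl⟩ := a b
    exact ⟨_, hN.conj_mem m c y, by simp⟩)

theorem x_not : ¬ XX ≤ CC := fun h => y0_c (h ⟨_, rfl⟩)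

theorem x_comm {f : D →* GG} {M N : Subgroup D} (a : XX ≤ M.map f) (b : XX ≤ N.map f) :
    XX ≤ ⁅M, N⁆.map f := by
  rw [Subgroup.map_commutator]; exact x_perf.trans (Subgroup.commutator_mono a b)

theorem one_cl [Finite D] {g : D →* GG} (hg : XX ≤ g.range) : ∃ w : D, ∀ f : D →* GG, Ad f.range →
    (CC.comap f = CC.comap g → f w = sc (-1)) ∧ (CC.comap f ≠ CC.comap g → f w = 1) := by
  have key : ∀ s : Set (Subgroup D), s.Finite → (∀ N ∈ s, N.Normal ∧ ¬ N ≤ CC.comap g) →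
      ∃ M : Subgroup D, M.Normal ∧ XX ≤ M.map g ∧ ∀ N ∈ s, M ≤ N := fun s hs => by
    induction s, hs using Set.Finite.induction_on with
    | empty => exact fun _ => ⟨⊤, inferInstance, by rwa [← MonoidHom.range_eq_map], by simp⟩
    | @insert N s _ _ ih =>
      intro h
      obtain ⟨M, _, h1, h2⟩ := ih fun L a => h L (Or.inr a)
      obtain ⟨_, h3⟩ := h N (Or.inl rfl)
      refine ⟨⁅N, M⁆, inferInstance, x_comm ((img (Or.inr hg) N).resolve_left fun e =>
        h3 (Subgroup.map_le_iff_le_comap.1 e)) h1, ?_⟩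
      rintro L (rfl | a)
      exacts [Subgroup.commutator_le_left _ _, (Subgroup.commutator_le_right _ _).trans (h2 L a)]
  obtain ⟨M, _, h1, h2⟩ := key {N | N.Normal ∧ ¬ N ≤ CC.comap g} (Set.toFinite _) fun _ a => a
  obtain ⟨y, h3, h4⟩ := x_comm h1 h1 (⟨_, rfl⟩ : y0 ∈ XX)
  have h5 : ∀ f : D →* GG, ∀ d ∈ ⁅(⊤ : Subgroup D), (⊤ : Subgroup D)⁆, f d ∈ XX := fun f =>
    cl (XX.comap f) fun a _ b _ => by
      rw [Subgroup.mem_comap, map_commutatorElement]; exact comm_x _ _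
  refine ⟨y ^ 2, fun f hf => ⟨fun e => ?_, fun e => ?_⟩⟩
  · rw [map_pow]
    refine x_sq (h5 f y (Subgroup.commutator_mono le_top le_top h3)) (fun c => y0_c (h4 ▸ e.le c)) ?_
    rw [← map_pow]
    exact e.ge (show g _ ∈ CC by rw [map_pow, h4, y0_sq]; exact mem_c.2 ⟨_, rfl⟩)
  have : ¬ CC.comap f ≤ CC.comap g := fun c => e (le_antisymm c (Subgroup.map_le_iff_le_comap.1
    ((img hf _).resolve_right fun d => x_not fun x b => ?_)))
  · rw [map_pow, show f y = 1 from cl (f.ker) (fun a b c d => ?_) h3, one_pow]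
    rw [MonoidHom.mem_ker, map_commutatorElement, commutatorElement_eq_one_iff_mul_comm]
    exact Subgroup.mem_center_iff.1 (h2 _ ⟨inferInstance, this⟩ d) _
  · rw [MonoidHom.range_eq_map] at hg
    obtain ⟨u, u1, rfl⟩ := x_comm hg hg b
    obtain ⟨k, k1, k2⟩ := d (h5 f u u1)
    simpa using mul_mem (c (show u * k⁻¹ ∈ CC.comap f by simp [k2])) k1

def Gd {r : ℕ} (a : Fin r → D) (f : D →* GG) : Prop := ∀ j, sg (f (a j)) ≠ 1

def Ze {r : ℕ} (a : Fin r → D) (w : D) : Prop :=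
  ∀ f : D →* GG, Ad f.range → (Gd a f → f w = sc (-1)) ∧ (¬ Gd a f → f w = 1)

theorem ex_ze [Finite D] {r : ℕ} (a : Fin (r + 1) → D) : ∃ w, Ze a w := by
  have x : ∀ {f : D →* GG}, Ad f.range → Gd a f → XX ≤ f.range := fun h b =>
    h.resolve_left fun c => b 0 (sg_c (c ⟨_, rfl⟩))
  have key : ∀ s : Set (Subgroup D), s.Finite → (∀ N ∈ s, ∃ g : D →* GG, XX ≤ g.range ∧ N = CC.comap g) →
      ∃ w : D, ∀ f : D →* GG, Ad f.range → (CC.comap f ∈ s → f w = sc (-1)) ∧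
        (CC.comap f ∉ s → f w = 1) := fun s hs => by
    induction s, hs using Set.Finite.induction_on with
    | empty => exact fun _ => ⟨1, by simp⟩
    | @insert N s hn _ ih =>
      intro h
      obtain ⟨w, h1⟩ := ih fun L a => h L (Or.inr a)
      obtain ⟨g, h2, rfl⟩ := h N (Or.inl rfl)
      obtain ⟨v, h3⟩ := one_cl h2
      refine ⟨v * w, fun f hf => ⟨fun e => ?_, fun e => ?_⟩⟩ <;> rw [map_mul]
      · rcases e with e | e
        · rw [(h3 f hf).1 e, (h1 f hf).2 (e ▸ hn), mul_one]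
        · rw [(h3 f hf).2 fun c => hn (c ▸ e), (h1 f hf).1 e, one_mul]
      · rw [(h3 f hf).2 fun c => e (Or.inl c), (h1 f hf).2 fun c => e (Or.inr c), one_mul]
  obtain ⟨w, h⟩ := key {N | ∃ g : D →* GG, Ad g.range ∧ Gd a g ∧ N = CC.comap g} (Set.toFinite _)
    fun _ ⟨g, b, c, d⟩ => ⟨g, x b c, d⟩
  refine ⟨w, fun f hf => ⟨fun e => (h f hf).1 ⟨f, hf, e, rfl⟩, fun e => (h f hf).2 ?_⟩⟩
  rintro ⟨g, b, c, d⟩
  refine e fun j k => c j ?_
  have h1 := hf.resolve_left fun e => x_not ((x b c).trans (by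
    rintro _ ⟨y, rfl⟩; exact d.le (e ⟨y, rfl⟩)))
  obtain ⟨u, hu⟩ := sg_one k
  rw [MonoidHom.range_eq_map] at h1
  obtain ⟨y, y1, y2⟩ := x_comm h1 h1 hu
  have := sg_c (d.le (show y⁻¹ * a j ∈ CC.comap f from mem_c.2 ⟨u⁻¹, by
    rw [map_mul, map_inv f, y2, map_inv]; simp⟩))
  rwa [map_mul, map_mul, map_inv, map_inv, sg_x (cl (XX.comap g)
    (fun a _ b _ => by rw [Subgroup.mem_comap, map_commutatorElement]; exact comm_x _ _) y1), inv_one,
    one_mul] at this

end Pool.Agent.H68.Rm
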