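import Pool.Agent.H68.Rm1

set_option autoImplicit false

namespace Pool.Agent.H68.Rm

open Function Pool.Agent.H68.Fit Pool.Agent.H68.Sat

variable {D E A B C : Type} [Group D] [Group E] [Group A] [Group B] [Group C] {r k : ℕ}

def HH (r : ℕ) (A : Type) [Group A] : Prop :=
  ∃ (D : Type) (_ : Group D) (_ : Finite D) (π : D →* A), Surjective π ∧
    (∀ d : D, (∀ f : D →* GG, Ad f.range → f d = 1) → d = 1) ∧ ∀ (a : Fin r → D) w, Ze a w → π w = 1

theorem ad_comp {f : E →* GG} (h : Ad f.range) {θ : D →* E} (hθ : θ.range.Normal) :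
    Ad (f.comp θ).range := MonoidHom.range_comp f θ ▸ img h _

theorem nor_of {θ : D →* E} (h : Surjective θ) : θ.range.Normal := by
  rw [MonoidHom.range_eq_top.2 h]; infer_instance

theorem Ze.map {a : Fin r → D} {w : D} (h : Ze a w) {θ : D →* E} (hθ : θ.range.Normal) :
    Ze (θ ∘ a) (θ w) := fun f hf => h (f.comp θ) (ad_comp hf hθ)

theorem HH.fin (h : HH r A) : Finite A := by
  obtain ⟨D, _, _, π, h, -⟩ := h; exact Finite.of_surjective π h

theorem HH.surj (h : HH r A) (f : A →* B) (hf : Surjective f) : HH r B := by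
  obtain ⟨D, _, _, π, h1, h2, h3⟩ := h
  exact ⟨D, _, ‹_›, f.comp π, hf.comp h1, h2, fun a w b => (congrArg f (h3 a w b)).trans (map_one f)⟩

theorem HH.nor (h : HH r A) (N : Subgroup A) [N.Normal] : HH r N := by
  obtain ⟨D, _, _, π, h1, h2, h3⟩ := h
  have n : (N.comap π).subtype.range.Normal := by rw [Subgroup.range_subtype]; infer_instance
  exact ⟨N.comap π, _, inferInstance, π.subgroupComap N, π.subgroupComap_surjective_of_surjective N h1,
    fun d b => Subtype.ext (h2 _ fun f hf => b _ (ad_comp hf n)),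
    fun a w b => Subtype.ext (h3 _ _ (b.map n))⟩

theorem s1 (χ : A →* C) {δ : B →* C} (h : Surjective δ) : Surjective (p1 χ δ) := fun a => by
  obtain ⟨b, hb⟩ := h (χ a)
  exact ((fp_ran _ _ a b).1 hb.symm).imp fun _ => And.left

theorem s2 {χ : A →* C} (δ : B →* C) (h : Surjective χ) : Surjective (p2 χ δ) := fun b => by
  obtain ⟨a, ha⟩ := h (δ b)
  exact ((fp_ran _ _ a b).1 ha).imp fun _ => And.right

theorem HH.pair (α : A →* B) (β : A →* C) (ha : Surjective α) (hb : Surjective β)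
    (hi : ∀ x, α x = 1 → β x = 1 → x = 1) (h : HH r B) (h' : HH r C) : HH r A := by
  have := h.fin
  have := h'.fin
  have : Finite A := Finite.of_injective (α.prod β) ((injective_iff_map_eq_one _).2 fun x e =>
    hi x (congrArg Prod.fst e) (congrArg Prod.snd e))
  obtain ⟨D, _, _, π, h1, h2, h3⟩ := h
  obtain ⟨D', _, _, π', h1', h2', h3'⟩ := h'
  let χ := β.comp (p2 π α)
  have n1 := nor_of (θ := (p1 π α).comp (p1 χ π')) ((s1 π ha).comp (s1 χ h1'))
  have n2 := nor_of (s2 (χ := χ) π' (hb.comp (s2 α h1)))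
  have k : ∀ d, π (p1 π α (p1 χ π' d)) = 1 → π' (p2 χ π' d) = 1 → p2 π α (p1 χ π' d) = 1 :=
    fun d a b => hi _ ((fp_rel _ _ _).symm.trans a) ((fp_rel χ π' d).trans b)
  refine ⟨FP χ π', _, inferInstance, (p2 _ _).comp (p1 _ _), (s2 α h1).comp (s1 χ h1'), fun d h => ?_,
    fun a w b => k w (h3 _ _ (b.map n1)) (h3' _ _ (b.map n2))⟩
  have a1 : p1 π α (p1 χ π' d) = 1 := h2 _ fun f hf => h _ (ad_comp hf n1)
  have a2 := h2' _ fun f hf => h _ (ad_comp hf n2)
  exact fp_inj _ _ d (fp_inj _ _ _ a1 (k d (by rw [a1, map_one]) (by rw [a2, map_one]))) a2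

abbrev G1 := (T : {T : Subgroup GG // Ad T}) → T.1

theorem HH.fm {F : (G : Type) → [Group G] → Prop} (hF : Fm F) (a : F G1) (h : HH r A) : F A := by
  obtain ⟨D, _, _, π, h1, h2, -⟩ := h
  have hF' : FO F := ⟨hF, hF.surj 1 (fun _ => ⟨1, rfl⟩) a⟩
  exact hF.surj π h1 (hF'.of_res fun g hg => h2 g fun f hf => congrArg Subtype.val
    (hF.res_le f.rangeRestrict f.rangeRestrict_surjective
      (hF.surj (Pi.evalMonoidHom (fun T : {T : Subgroup GG // Ad T} => T.1) ⟨_, hf⟩)
        (surjective_eval _) a) hg))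

abbrev II (k : ℕ) := Fin k → ℤˣ

def DD (k : ℕ) : Subgroup (II k → GG) where
  carrier := {g | ∀ s t, sg (g (s * t)) = sg (g s) * sg (g t)}
  one_mem' := by simp
  mul_mem' := fun a b s t => by simp only [Pi.mul_apply, map_mul, a s t, b s t, mul_mul_mul_comm]
  inv_mem' := fun a s t => by simp only [Pi.inv_apply, map_inv, a s t, mul_inv]

def ev (s : II k) : DD k →* GG := (Pi.evalMonoidHom _ s).comp (DD k).subtype

theorem ev_ad (s : II k) : Ad (ev s).range := Or.inr fun x a => by
  have : ∀ t, sg (Pi.mulSingle (M := fun _ => GG) s x t) = 1 := fun t => by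
    by_cases e : t = s <;> simp [e, sg_x a]
  exact ⟨⟨Pi.mulSingle s x, fun _ _ => by simp only [this, mul_one]⟩, by simp [ev]⟩

def io (k : ℕ) : (II k → K5ˣ) →* DD k :=
  (sc.compLeft (II k)).codRestrict _ fun c s t => by simp [sg_sc]

def rho (k : ℕ) : (II k → K5ˣ) →* K5ˣ := MonoidHom.mk' (fun c => ∏ s, c s) fun _ _ => Finset.prod_mul_distrib

def NN (k : ℕ) : Subgroup (DD k) := (rho k).ker.map (io k)

instance : (NN k).Normal := ⟨by
  rintro _ ⟨c, h, rfl⟩ g
  exact ⟨c, h, eq_mul_inv_of_mul_eq (Subtype.ext (funext fun s =>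
    Matrix.GeneralLinearGroup.scalar_commute _ _))⟩⟩

open Classical in
theorem ze_one {a : Fin r → DD k} {w : DD k} (h : Ze a w) : QuotientGroup.mk' (NN k) w = 1 ↔
    ∏ s, (if Gd a (ev s) then (-1 : K5ˣ) else 1) = 1 := by
  have e : w = io k fun s => if Gd a (ev s) then -1 else 1 := Subtype.ext (funext fun s => by
    change ev s w = sc (if _ then _ else _)
    split_ifs with c
    exacts [(h _ (ev_ad s)).1 c, ((h _ (ev_ad s)).2 c).trans (map_one sc).symm])
  rw [mk_one, e]
  exact ⟨fun ⟨c, h1, h2⟩ => by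
    rwa [← show c = _ from funext fun s => sc_inj (congrFun (congrArg Subtype.val h2) s)],
    fun h => ⟨_, h, rfl⟩⟩

theorem hh_mem (h : r < k) : HH r (DD k ⧸ NN k) := by
  refine ⟨DD k, _, inferInstance, _, mk_surj _, fun d b => Subtype.ext (funext fun s => b _ (ev_ad s)),
    fun a w b => (ze_one b).2 ?_⟩
  obtain ⟨s, t, h1, h2⟩ := Fintype.exists_ne_map_eq_of_card_lt
    (fun (s : II k) j => decide (sg (ev s (a j)) = 1)) (by
      simpa using Nat.pow_lt_pow_right (by norm_num) h)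
  have q : ∀ x : II k, x * x = 1 := fun x => funext fun i => Int.units_mul_self _
  have e : ∀ x j, sg (ev (x * (s * t)) (a j)) = sg (ev x (a j)) := fun x j => by
    have := congrFun h2 j
    change sg ((a j).1 _) = sg ((a j).1 _)
    rw [(a j).2, (a j).2, mul_eq_left]
    change sg (ev s _) * sg (ev t _) = 1
    rcases sg_or (ev s (a j)) with c | c <;> rcases sg_or (ev t (a j)) with d | d <;>
      rw [c, d] at this ⊢ <;> revert this <;> decide
  refine Finset.prod_involution (fun x _ => x * (s * t)) (fun x _ => ?_) (fun x _ _ c => h1 ?_)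
    (fun _ _ => Finset.mem_univ _) fun x _ => by rw [mul_assoc, q, mul_one]
  · simp only [Gd, e]
    split_ifs <;> simp
  · rw [mul_eq_left] at c
    rw [← mul_one s, ← c, ← mul_assoc, q, one_mul]

def aa (k : ℕ) (j : Fin k) : DD k := ⟨fun s => if s j = 1 then 1 else dl, fun s t => by
  rcases Int.units_eq_one_or (s j) with c | c <;> rcases Int.units_eq_one_or (t j) with d | d <;>
    simp [c, d, sg_dl]⟩

theorem gd_aa (s : II k) : Gd (aa k) (ev s) ↔ s = -1 := by
  have e : ∀ j, ev s (aa k j) = if s j = 1 then 1 else dl := fun _ => rfl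
  refine ⟨fun h => funext fun j => (Int.units_eq_one_or (s j)).resolve_left fun c => h j ?_,
    fun h j => ?_⟩
  · rw [e, if_pos c, map_one]
  · rw [e, if_neg (by rw [h]; exact (by decide : (-1 : ℤˣ) ≠ 1)), sg_dl]; decide

theorem hh_not : ¬ HH (k + 1) (DD (k + 1) ⧸ NN (k + 1)) := by
  rintro ⟨D, _, _, π, h1, -, h3⟩
  choose b hb using fun j => s2 (QuotientGroup.mk' (NN (k + 1))) h1 (aa _ j)
  obtain ⟨w, hw⟩ := ex_ze b
  have k1 := (ze_one (hw.map (nor_of (s2 _ h1)))).1
    ((fp_rel _ _ w).symm.trans (h3 _ _ (hw.map (nor_of (s1 π (mk_surj _))))))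
  rw [show _ ∘ b = aa _ from funext hb] at k1
  simp only [gd_aa] at k1
  simp at k1
  exact absurd k1 (by decide)

theorem hh_inj : Injective fun r : ℕ => (HH (r + 1) : (A : Type) → [Group A] → Prop) := by
  have k : ∀ r s, r < s → (HH (r + 1) : (A : Type) → [Group A] → Prop) ≠ HH (s + 1) := fun r s h e =>
    hh_not (k := s) (by rw [← e]; exact hh_mem (by omega))
  exact fun r s e => by_contra fun h => (lt_or_gt_of_ne h).elim (fun c => k r s c e) fun c => k s r c e.symm

end Pool.Agent.H68.Rm
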