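import Mathlib

set_option autoImplicit false

namespace Pool.Agent.H68.Sat

structure Fm (F : (G : Type) → [Group G] → Prop) : Prop where
  fin : ∀ (G : Type) [Group G], F G → Finite G
  iso : ∀ (G K : Type) [Group G] [Group K], Nonempty (G ≃* K) → F G → F K
  quo : ∀ (G : Type) [Group G] (N : Subgroup G) [N.Normal], F G → F (G ⧸ N)
  res : ∀ (G : Type) [Group G] [Finite G] (N L : Subgroup G) [N.Normal] [L.Normal],
    N ⊓ L = ⊥ → F (G ⧸ N) → F (G ⧸ L) → F G

def St (F : (G : Type) → [Group G] → Prop) : Prop :=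
  ∀ (G : Type) [Group G] [Finite G], F (G ⧸ frattini G) → F G

variable {F : (G : Type) → [Group G] → Prop}
variable {G A B : Type} [Group G] [Group A] [Group B]

theorem Fm.surj (hF : Fm F) (f : G →* A) (hf : Function.Surjective f) (h : F G) : F A :=
  hF.iso _ _ ⟨QuotientGroup.quotientKerEquivOfSurjective f hf⟩ (hF.quo G f.ker h)

theorem Fm.sub (hF : Fm F) [Finite G] (α : G →* A) (β : G →* B) (ha : Function.Surjective α)
    (hb : Function.Surjective β) (hi : ∀ g, α g = 1 → β g = 1 → g = 1) (a : F A) (b : F B) :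
    F G :=
  hF.res G α.ker β.ker (eq_bot_iff.2 fun g hg => hi g hg.1 hg.2)
    (hF.iso _ _ ⟨(QuotientGroup.quotientKerEquivOfSurjective α ha).symm⟩ a)
    (hF.iso _ _ ⟨(QuotientGroup.quotientKerEquivOfSurjective β hb).symm⟩ b)

/-- factor through -/
theorem Fm.fac (hF : Fm F) (α : G →* A) (β : G →* B) (ha : Function.Surjective α)
    (hb : Function.Surjective β) (hk : ∀ g, α g = 1 → β g = 1) (a : F A) : F B := by
  refine hF.surj (α.liftOfRightInverse _ (Function.rightInverse_surjInv ha) ⟨β, fun g => hk g⟩) ?_ a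
  intro y
  obtain ⟨g, rfl⟩ := hb y
  exact ⟨α g, MonoidHom.liftOfRightInverse_comp_apply _ _ _ _ _⟩

theorem Fm.rng (hF : Fm F) [Finite G] (α : G →* A) (β : G →* B) (ha : Function.Surjective α)
    (hb : Function.Surjective β) (a : F A) (b : F B) : F (α.prod β).range := by
  have : Finite (α.prod β).range := Finite.of_surjective _ (α.prod β).rangeRestrict_surjective
  refine hF.sub ((MonoidHom.fst A B).comp (Subgroup.subtype _))
    ((MonoidHom.snd A B).comp (Subgroup.subtype _)) ?_ ?_ ?_ a b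
  · intro x; obtain ⟨g, rfl⟩ := ha x; exact ⟨⟨_, g, rfl⟩, rfl⟩
  · intro x; obtain ⟨g, rfl⟩ := hb x; exact ⟨⟨_, g, rfl⟩, rfl⟩
  · intro g h1 h2; exact Subtype.ext (Prod.ext h1 h2)

theorem St.of (hF : Fm F) (hS : St F) [Finite G] (α : G →* A) (ha : Function.Surjective α)
    (hk : ∀ g, α g = 1 → g ∈ frattini G) (a : F A) : F G :=
  hS G (hF.fac α (QuotientGroup.mk' _) ha (QuotientGroup.mk'_surjective _)
    (fun g h => (QuotientGroup.eq_one_iff g).2 (hk g h)) a)

theorem surj_of_frat [Finite A] (f : G →* A) (h : ∀ a, ∃ g, ∃ x ∈ frattini A, a = f g * x) :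
    Function.Surjective f := by
  rw [← MonoidHom.range_eq_top]
  apply frattini_nongenerating
  rw [eq_top_iff]
  intro a _
  obtain ⟨g, x, hx, rfl⟩ := h a
  exact Subgroup.mul_mem_sup ⟨g, rfl⟩ hx

/-- minimal supplement -/
theorem min_supp [Finite G] (α : G →* A) (ha : Function.Surjective α) :
    ∃ S : Subgroup G, Function.Surjective (α.comp S.subtype) ∧
      ∀ g : S, α g = 1 → g ∈ frattini S := by
  obtain ⟨S, hS, hm⟩ := (wellFounded_lt (α := Subgroup G)).has_min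
    {S | Function.Surjective (α.comp S.subtype)} ⟨⊤, fun a => by
      obtain ⟨g, rfl⟩ := ha a; exact ⟨⟨g, trivial⟩, rfl⟩⟩
  refine ⟨S, hS, fun g hg => ?_⟩
  refine Subgroup.mem_iInf.2 fun M => Subgroup.mem_iInf.2 fun hM => ?_
  by_contra hn
  have h1 : M ⊔ (α.comp S.subtype).ker = ⊤ :=
    hM.2 _ (lt_of_le_of_ne le_sup_left fun e => hn (e ▸ Subgroup.mem_sup_right hg))
  refine hm (M.map S.subtype) ?_ (lt_of_le_of_ne (Subgroup.map_subtype_le M) fun e => hM.1 ?_)
  · intro a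
    obtain ⟨s, rfl⟩ := hS a
    have : s ∈ M ⊔ (α.comp S.subtype).ker := h1 ▸ trivial
    rw [Subgroup.mem_sup_of_normal_right] at this
    obtain ⟨m, hm, k, hk, rfl⟩ := this
    refine ⟨⟨m, m, hm, rfl⟩, ?_⟩
    rw [map_mul, (MonoidHom.mem_ker).1 hk, mul_one]; rfl
  · rw [eq_top_iff]
    intro s _
    have : (s : G) ∈ M.map S.subtype := by rw [e]; exact s.2
    obtain ⟨m, hm, e⟩ := this
    rwa [← (Subtype.ext e : m = s)]

def Jn (F₁ F₂ : (G : Type) → [Group G] → Prop) (G : Type) [Group G] : Prop :=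
  ∃ (T A B : Type) (_ : Group T) (_ : Group A) (_ : Group B) (_ : Finite T) (π : T →* G)
    (α : T →* A) (β : T →* B), Function.Surjective π ∧ Function.Surjective α ∧
    Function.Surjective β ∧ F₁ A ∧ F₂ B ∧ ∀ t, α t = 1 → β t = 1 → t = 1

variable {H F₁ F₂ : (G : Type) → [Group G] → Prop}

theorem jn_form (h1 : Fm F₁) (h2 : Fm F₂) : Fm (Jn F₁ F₂) where
  fin := by
    rintro G _ ⟨T, A, B, _, _, _, _, π, α, β, hπ, -⟩
    exact Finite.of_surjective π hπ
  iso := by
    rintro G K _ _ ⟨e⟩ ⟨T, A, B, _, _, _, _, π, α, β, hπ, h⟩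
    exact ⟨T, A, B, _, _, _, inferInstance, e.toMonoidHom.comp π, α, β, e.surjective.comp hπ, h⟩
  quo := by
    rintro G _ N _ ⟨T, A, B, _, _, _, _, π, α, β, hπ, h⟩
    exact ⟨T, A, B, _, _, _, inferInstance, (QuotientGroup.mk' N).comp π, α, β,
      (QuotientGroup.mk'_surjective N).comp hπ, h⟩
  res := by
    rintro G _ _ N L _ _ hNL ⟨T, A, B, _, _, _, _, π, α, β, hπ, ha, hb, a, b, hi⟩
      ⟨T', A', B', _, _, _, _, π', α', β', hπ', ha', hb', a', b', hi'⟩
    let q₁ : (T × T') × G →* T := (MonoidHom.fst _ _).comp (MonoidHom.fst _ _)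
    let q₂ : (T × T') × G →* T' := (MonoidHom.snd _ _).comp (MonoidHom.fst _ _)
    let W : Subgroup ((T × T') × G) :=
      (π.comp q₁).eqLocus ((QuotientGroup.mk' N).comp (MonoidHom.snd _ _)) ⊓
      (π'.comp q₂).eqLocus ((QuotientGroup.mk' L).comp (MonoidHom.snd _ _))
    have s1 : Function.Surjective (q₁.comp W.subtype) := by
      intro t
      obtain ⟨g, hg⟩ := QuotientGroup.mk'_surjective N (π t)
      obtain ⟨t', ht⟩ := hπ' (QuotientGroup.mk' L g)
      exact ⟨⟨((t, t'), g), hg.symm, ht⟩, rfl⟩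
    have s2 : Function.Surjective (q₂.comp W.subtype) := by
      intro t'
      obtain ⟨g, hg⟩ := QuotientGroup.mk'_surjective L (π' t')
      obtain ⟨t, ht⟩ := hπ (QuotientGroup.mk' N g)
      exact ⟨⟨((t, t'), g), ht, hg.symm⟩, rfl⟩
    refine ⟨W, _, _, inferInstance, inferInstance, inferInstance, inferInstance,
      (MonoidHom.snd _ _).comp W.subtype,
      ((α.comp (q₁.comp W.subtype)).prod (α'.comp (q₂.comp W.subtype))).rangeRestrict,
      ((β.comp (q₁.comp W.subtype)).prod (β'.comp (q₂.comp W.subtype))).rangeRestrict, ?_,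
      MonoidHom.rangeRestrict_surjective _, MonoidHom.rangeRestrict_surjective _,
      h1.rng _ _ (ha.comp s1) (ha'.comp s2) a a', h2.rng _ _ (hb.comp s1) (hb'.comp s2) b b', ?_⟩
    · intro g
      obtain ⟨t, ht⟩ := hπ (QuotientGroup.mk' N g)
      obtain ⟨t', ht'⟩ := hπ' (QuotientGroup.mk' L g)
      exact ⟨⟨((t, t'), g), ht, ht'⟩, rfl⟩
    · rintro ⟨⟨⟨t, t'⟩, g⟩, e1, e2⟩ x y
      have x := congrArg Subtype.val x
      have y := congrArg Subtype.val y
      obtain rfl : t = 1 := hi t (congrArg Prod.fst x) (congrArg Prod.fst y)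
      obtain rfl : t' = 1 := hi' t' (congrArg Prod.snd x) (congrArg Prod.snd y)
      have e1 : π 1 = (g : G ⧸ N) := e1
      have e2 : π' 1 = (g : G ⧸ L) := e2
      rw [map_one, eq_comm, QuotientGroup.eq_one_iff] at e1 e2
      have : g ∈ N ⊓ L := ⟨e1, e2⟩
      rw [hNL] at this
      obtain rfl : g = 1 := this
      rfl

theorem jn_left (h1 : Fm F₁) (h2 : Fm F₂) (b : F₂ B) (a : F₁ G) : Jn F₁ F₂ G :=
  ⟨G, G, Unit, _, _, inferInstance, h1.fin G a, MonoidHom.id G, MonoidHom.id G, 1,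
    Function.surjective_id, Function.surjective_id, fun _ => ⟨1, rfl⟩, a,
    h2.surj (1 : B →* Unit) (fun _ => ⟨1, rfl⟩) b, fun _ h _ => h⟩

theorem jn_right (h1 : Fm F₁) (h2 : Fm F₂) (a : F₁ A) (b : F₂ G) : Jn F₁ F₂ G :=
  ⟨G, Unit, G, _, inferInstance, _, h2.fin G b, MonoidHom.id G, 1, MonoidHom.id G,
    Function.surjective_id, fun _ => ⟨1, rfl⟩, Function.surjective_id,
    h1.surj (1 : A →* Unit) (fun _ => ⟨1, rfl⟩) a, b, fun _ _ h => h⟩

theorem key (hH : Fm H) (sH : St H) (h1 : Fm F₁) (h2 : Fm F₂)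
    (i1 : ∀ (G : Type) [Group G], H G → F₁ G) (i : ∀ (G : Type) [Group G], F₁ G → F₂ G → H G)
    [Finite G] (hG : Jn F₁ F₂ G) (hf : F₁ (G ⧸ frattini G)) : F₁ G := by
  obtain ⟨T, A, B, _, _, _, _, π, α, β, hπ, ha, hb, a, b, hi⟩ := hG
  have : Finite B := Finite.of_surjective β hb
  let γ := (α.prod ((QuotientGroup.mk' (frattini G)).comp π)).rangeRestrict
  have hγ : Function.Surjective γ := MonoidHom.rangeRestrict_surjective _
  have c := h1.rng α ((QuotientGroup.mk' (frattini G)).comp π) ha ((QuotientGroup.mk'_surjective (frattini G)).comp hπ) a hf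
  have : (γ.ker.map β).Normal := Subgroup.Normal.map inferInstance β hb
  let δ := QuotientGroup.mk' (γ.ker.map β)
  have hδ : Function.Surjective δ := QuotientGroup.mk'_surjective _
  have d : H (B ⧸ γ.ker.map β) := i _ (h1.fac γ (δ.comp β) hγ (hδ.comp hb)
    (fun t ht => (QuotientGroup.eq_one_iff _).2 ⟨t, ht, rfl⟩) c) (h2.quo B _ b)
  obtain ⟨S, hS, hk⟩ := min_supp δ hδ
  have e : F₁ S := i1 _ (St.of hH sH _ hS hk d)
  have dec : ∀ t : T, ∃ s ∈ S.comap β, ∃ r ∈ γ.ker, t = s * r := by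
    intro t
    obtain ⟨s, hs⟩ := hS (δ (β t))
    have hs : ((s : B) : B ⧸ γ.ker.map β) = (β t : B) := hs
    obtain ⟨r, hr, e⟩ := QuotientGroup.eq.1 hs
    refine ⟨t * r⁻¹, ?_, r, hr, by simp⟩
    rw [Subgroup.mem_comap, map_mul, map_inv, e]
    simpa using s.2
  have f : F₁ (S.comap β) := by
    refine h1.sub (γ.comp (Subgroup.subtype _)) (β.subgroupComap S) ?_
      (MonoidHom.subgroupComap_surjective_of_surjective _ _ hb) ?_ c e
    · intro x
      obtain ⟨t, rfl⟩ := hγ x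
      obtain ⟨s, hs, r, hr, rfl⟩ := dec t
      exact ⟨⟨s, hs⟩, by rw [map_mul, (MonoidHom.mem_ker).1 hr, mul_one]; rfl⟩
    · intro g x y
      exact Subtype.ext (hi g (congrArg Prod.fst (congrArg Subtype.val x)) (congrArg Subtype.val y))
  refine h1.surj (π.comp (Subgroup.subtype _)) (surj_of_frat _ fun g => ?_) f
  obtain ⟨t, rfl⟩ := hπ g
  obtain ⟨s, hs, r, hr, rfl⟩ := dec t
  exact ⟨⟨s, hs⟩, π r, (QuotientGroup.eq_one_iff _).1
    (congrArg Prod.snd (congrArg Subtype.val ((MonoidHom.mem_ker).1 hr))), map_mul _ _ _⟩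

theorem main {M : (G : Type) → [Group G] → Prop} (hH : Fm H) (sH : St H) (sM : St M)
    (h1 : Fm F₁) (h2 : Fm F₂)
    (i1 : ∀ (G : Type) [Group G], H G → F₁ G) (j1 : ∀ (G : Type) [Group G], F₁ G → M G)
    (i : ∀ (G : Type) [Group G], F₁ G → F₂ G → H G)
    (j : ∀ X : (G : Type) → [Group G] → Prop, Fm X → (∀ (G : Type) [Group G], F₁ G → X G) →
      (∀ (G : Type) [Group G], F₂ G → X G) → ∀ (G : Type) [Group G], M G → X G) : St F₁ := by
  intro G _ _ hf
  have m := sM G (j1 _ hf)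
  by_cases hb : ∃ (B : Type) (_ : Group B), F₂ B
  · obtain ⟨B, _, b⟩ := hb
    exact key hH sH h1 h2 i1 i (j _ (jn_form h1 h2) (fun _ _ a => jn_left h1 h2 b a)
      (fun _ _ b => jn_right h1 h2 hf b) G m) hf
  · exact j F₁ h1 (fun _ _ a => a) (fun B _ b => (hb ⟨B, _, b⟩).elim) G m

end Pool.Agent.H68.Sat
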