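import Pool.Agent.H68.Sat9

set_option autoImplicit false

namespace Pool.Agent.H68.Sat

open Function SemidirectProduct Pool.Agent.H68.Fit
open scoped commutatorElement

variable {F : (G : Type) → [Group G] → Prop}
variable {G A B : Type} [Group G] [Group A] [Group B] {p : ℕ}

def H0 (G : Type) [Group G] : Prop :=
  Finite G ∧ ∀ p q : ℕ, p.Prime → q.Prime → q ∣ p - 1 → ∀ R : Subgroup G, IsPGroup q R →
    ∀ x ∈ R, ∀ y ∈ R, ⁅x, y⁆ ∈ Rd p G

theorem lift_q [Finite G] {q : ℕ} [Fact q.Prime] (f : G →* A) (hf : Surjective f) {R : Subgroup A}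
    (h : IsPGroup q R) : ∃ S : Subgroup G, IsPGroup q S ∧ R ≤ S.map f := by
  obtain ⟨P, hP⟩ := h.exists_le_sylow
  obtain ⟨Q, rfl⟩ := Sylow.mapSurjective_surjective hf q P
  exact ⟨Q, Q.isPGroup', hP⟩

theorem qe_pair' (α : G →* A) (β : G →* B) (hi : ∀ g, α g = 1 → β g = 1 → g = 1) {g : G}
    (a : qe p (α g)) (b : qe p (β g)) : qe p g := by
  obtain ⟨m, h1, h2⟩ := a
  obtain ⟨n, h3, h4⟩ := b
  exact ⟨m * n, h1.mul h3, hi _ (by rw [map_pow, pow_mul, h2, one_pow])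
    (by rw [map_pow, mul_comm, pow_mul, h4, one_pow])⟩

theorem H0.surj (h : H0 G) (f : G →* A) (hf : Surjective f) : H0 A := by
  obtain ⟨_, h⟩ := h
  refine ⟨Finite.of_surjective f hf, fun p q hp hq hd R hR x hx y hy => ?_⟩
  have := Fact.mk hp
  have := Fact.mk hq
  obtain ⟨S, h1, h2⟩ := lift_q f hf hR
  obtain ⟨a, ha, rfl⟩ := h2 hx
  obtain ⟨b, hb, rfl⟩ := h2 hy
  rw [← map_commutatorElement]
  exact rd_map f hf (h p q hp hq hd S h1 a ha b hb)

theorem H0.pair [Finite G] (α : G →* A) (β : G →* B) (hi : ∀ g, α g = 1 → β g = 1 → g = 1)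
    (a : H0 A) (b : H0 B) : H0 G := by
  obtain ⟨_, a⟩ := a
  obtain ⟨_, b⟩ := b
  refine ⟨inferInstance, fun p q hp hq hd R hR x hx y hy => ?_⟩
  have := Fact.mk hp
  have := (rd_spec (p := p) (G := A)).1
  have := (rd_spec (p := p) (G := B)).1
  refine le_rd (N := (Rd p A).comap α ⊓ (Rd p B).comap β) inferInstance (fun x hx y hy u v =>
    qe_pair' α β hi ?_ ?_) ⟨?_, ?_⟩
  · rw [map_mul]; exact rd_spec.2 _ hx.1 _ hy.1 (u.map α) (v.map α)
  · rw [map_mul]; exact rd_spec.2 _ hx.2 _ hy.2 (u.map β) (v.map β)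
  · change α _ ∈ Rd p A
    rw [map_commutatorElement]
    exact a p q hp hq hd _ (hR.map α) _ ⟨x, hx, rfl⟩ _ ⟨y, hy, rfl⟩
  · change β _ ∈ Rd p B
    rw [map_commutatorElement]
    exact b p q hp hq hd _ (hR.map β) _ ⟨x, hx, rfl⟩ _ ⟨y, hy, rfl⟩

theorem H0.sub (h : H0 G) (K : Subgroup G) : H0 K :=
  haveI := h.1
  H0.pair K.subtype K.subtype (fun _ a _ => Subtype.ext a) h h

theorem H0.st : St H0 := by
  rintro G _ _ ⟨-, h⟩
  refine ⟨inferInstance, fun p q hp hq hd R hR x hx y hy => ?_⟩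
  have := Fact.mk hp
  have := (rd_spec (p := p) (G := G ⧸ frattini G)).1
  refine le_rd inferInstance (frat_mc rd_spec.2) ?_
  rw [Subgroup.mem_comap, map_commutatorElement]
  exact h p q hp hq hd _ (hR.map _) _ ⟨x, hx, rfl⟩ _ ⟨y, hy, rfl⟩

theorem SS.h0 [Finite G] (h : SS G) : H0 G :=
  ⟨inferInstance, fun _ _ hp _ _ _ _ _ _ _ _ => haveI := Fact.mk hp; haveI := h.nil;
    le_rd inferInstance (mc_nil (commutator G))
      (Subgroup.commutator_mem_commutator (Subgroup.mem_top _) (Subgroup.mem_top _))⟩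

theorem rd_cent [Fact p.Prime] [Finite G] (V : Subgroup G) [V.Normal] (he : ∀ v ∈ V, pe p v)
    (hm : ∀ W : Subgroup G, W.Normal → W ≤ V → W = ⊥ ∨ W = V) :
    ∀ g ∈ Rd p G, ∀ v ∈ V, Commute g v := by
  obtain ⟨_, m⟩ := rd_spec (p := p) (G := G)
  rcases hm ⁅V, Rd p G⁆ inferInstance (Subgroup.commutator_le_left _ _) with e | e
  · exact fun g hg v hv => (commutatorElement_eq_one_iff_commute.1
      (Subgroup.mem_bot.1 (e.le (Subgroup.commutator_mem_commutator hv hg)))).symm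
  have := nil_of_pe (p := p) ((Rd p G).map (QuotientGroup.mk' m.sub)) (by
    rintro _ ⟨g, hg, rfl⟩; exact pe_quo m hg)
  have h1 := comm_ne (Subgroup.map_mono (f := QuotientGroup.mk' m.sub)
    (le_rd inferInstance (mc_pe Fact.out he))) (by rw [← Subgroup.map_commutator, e])
  intro g _ v hv
  rw [pq (he v hv) (mk_one (N := m.sub).1 (Subgroup.mem_bot.1 (h1.le ⟨v, hv, rfl⟩))).2]
  exact Commute.one_right g

theorem ss_cent [Fact p.Prime] (A V : Subgroup G) [hA : A.Normal] [hV : V.Normal] (h : SS A)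
    (he : ∀ v ∈ V, v ^ p = 1) (hm : ∀ W : Subgroup G, W.Normal → W ≤ V → W = ⊥ ∨ W = V) :
    ∀ a ∈ A, ∀ v ∈ V, Commute (a ^ (p - 1)) v ∧ ∀ b ∈ A, Commute ⁅a, b⁆ v := by
  rcases hm (A ⊓ V) inferInstance inf_le_right with e | e
  · have : ∀ a ∈ A, ∀ v ∈ V, Commute a v := fun a ha v hv =>
      Subgroup.commute_of_normal_of_disjoint A V hA hV (disjoint_iff.2 e) a v ha hv
    exact fun a ha v hv => ⟨this _ (pow_mem ha _) v hv, fun b hb => this _
      (Subgroup.commutator_le_left A A (Subgroup.commutator_mem_commutator ha hb)) v hv⟩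
  by_cases h0 : V = ⊥
  · intro a _ v hv
    simp [Subgroup.mem_bot.1 (h0.le hv)]
  obtain ⟨w, h1, h2, h3⟩ := Cs.cyc h (V.subgroupOf A) (by
    rw [top_inf_eq, Ne, Subgroup.subgroupOf_eq_bot, disjoint_iff, inf_comm, e]; exact h0)
  let W : Subgroup G := V ⊓ Subgroup.centralizer {x | ∃ a ∈ A, x = a ^ (p - 1) ∨ ∃ b ∈ A, x = ⁅a, b⁆}
  have hW : W.Normal := ⟨fun v hv g => ⟨hV.conj_mem _ hv.1 g, fun x ⟨a, ha, hx⟩ => by
    have := hv.2 (g⁻¹ * x * g⁻¹⁻¹) ⟨_, hA.conj_mem _ ha g⁻¹, hx.imp (fun e => by rw [e, conj_pow])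
      fun ⟨b, hb, e⟩ => ⟨_, hA.conj_mem _ hb g⁻¹, by rw [e, conjugate_commutatorElement]⟩⟩
    calc _ = g * (g⁻¹ * x * g⁻¹⁻¹ * v) * g⁻¹ := by group
      _ = _ := by rw [this]; group⟩⟩
  have h4 := (hm W hW inf_le_left).resolve_left fun e => h2 (Subtype.ext (Subgroup.mem_bot.1 (e.le
    ⟨h1, by
      rintro _ ⟨a, ha, rfl | ⟨b, hb, rfl⟩⟩
      · exact congrArg Subtype.val (cyc_pow h3 (Subtype.ext (he _ h1)) ⟨a, ha⟩).eq
      · exact congrArg Subtype.val (cyc_comm h3 ⟨a, ha⟩ ⟨b, hb⟩).eq⟩)))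
  exact fun a ha v hv => ⟨(h4.ge hv).2 _ ⟨a, ha, Or.inl rfl⟩,
    fun b hb => (h4.ge hv).2 _ ⟨a, ha, Or.inr ⟨b, hb, rfl⟩⟩⟩

theorem bil [Finite G] {n : ℕ} (A B : Subgroup G) [hA : A.Normal] [hB : B.Normal]
    (a1 : ∀ x ∈ A, ∀ y ∈ A, x * y = y * x) (b1 : ∀ x ∈ B, ∀ y ∈ B, x * y = y * x)
    (a2 : ∀ x ∈ A, x ^ n = 1)
    (h : ∀ q : ℕ, q.Prime → q ∣ n → ∀ R : Subgroup G, IsPGroup q R → ∀ x ∈ R, ∀ y ∈ R, ⁅x, y⁆ = 1) :
    ∀ x ∈ A, ∀ y ∈ B, ⁅x, y⁆ = 1 := by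
  have mA : ∀ x ∈ A, ∀ y, ⁅x, y⁆ ∈ A := fun x hx y => Subgroup.commutator_le_left A ⊤
    (Subgroup.commutator_mem_commutator hx trivial)
  have mB : ∀ x, ∀ y ∈ B, ⁅x, y⁆ ∈ B := fun x y hy => Subgroup.commutator_le_right ⊤ B
    (Subgroup.commutator_mem_commutator trivial hy)
  let l : G → A →* G := fun y => MonoidHom.mk' (fun x => ⁅(x : G), y⁆) fun u v => by
    have := a1 _ u.2 _ (mA _ v.2 y)
    calc _ = u * ⁅(v : G), y⁆ * (u : G)⁻¹ * ⁅(u : G), y⁆ := by simp [commutatorElement_def]; group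
      _ = _ := by rw [this, mul_inv_cancel_right, a1 _ (mA _ v.2 y) _ (mA _ u.2 y)]
  let r : G → B →* G := fun x => MonoidHom.mk' (fun y => ⁅x, (y : G)⁆) fun u v => by
    have := b1 _ u.2 _ (mB x _ v.2)
    calc _ = ⁅x, (u : G)⁆ * (u * ⁅x, (v : G)⁆ * (u : G)⁻¹) := by simp [commutatorElement_def]; group
      _ = _ := by rw [this, mul_inv_cancel_right]
  have sy : ∀ (q : ℕ) (C : Subgroup G) [C.Normal], (∀ x ∈ C, ∀ y ∈ C, x * y = y * x) →
      ∃ S : Subgroup G, S.Normal ∧ IsPGroup q S ∧ ∀ x ∈ C, pe q x → x ∈ S := fun q C hC c =>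
    ⟨{ carrier := {x | x ∈ C ∧ pe q x}
       one_mem' := ⟨one_mem _, pe.one⟩
       mul_mem' := fun ⟨a, i, x⟩ ⟨b, j, y⟩ => ⟨mul_mem a b, i + j, by
        rw [Commute.mul_pow (c _ a _ b), pow_add, pow_mul, x, mul_comm (q ^ i), pow_mul, y]; simp⟩
       inv_mem' := fun ⟨a, i, x⟩ => ⟨inv_mem a, i, by rw [inv_pow, x, inv_one]⟩ },
      ⟨fun x hx g => ⟨hC.conj_mem _ hx.1 g, hx.2.map (MulAut.conj g).toMonoidHom⟩⟩,
      pg_iff.2 fun _ h => h.2, fun _ a b => ⟨a, b⟩⟩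
  intro x hx y hy
  by_contra hn
  obtain ⟨q, hq, h1⟩ := ex_prime hn
  have := Fact.mk hq
  obtain ⟨i, j, e, h2, h3⟩ := pe_split (· ≠ q) (⟨x, hx⟩ : A)
  obtain ⟨k, m, e', h4, h5⟩ := pe_split (· ≠ q) (⟨y, hy⟩ : B)
  have h6 : ⁅x ^ j, y ^ m⁆ = 1 := by
    obtain ⟨S, _, s1, s2⟩ := sy q A a1
    obtain ⟨T, _, t1, t2⟩ := sy q B b1
    refine h q hq (by_contra fun hd => h1 ⟨n, ⟨fun e => hd (e ▸ dvd_zero q), fun s _ hs e =>
      hd (e ▸ hs)⟩, a2 _ (mA x hx y)⟩) _ (s1.to_sup_of_normal_left t1) _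
      (Subgroup.mem_sup_left (s2 _ (zpow_mem hx j) ((pe_iff.2 h3).map A.subtype))) _
      (Subgroup.mem_sup_right (t2 _ (zpow_mem hy m) ((pe_iff.2 h5).map B.subtype)))
  have h7 : ⁅x, y⁆ = l y (⟨x, hx⟩ ^ i) * r (x ^ j) (⟨y, hy⟩ ^ k) := by
    have := congrArg (r (x ^ j)) e'
    rw [map_mul, show r (x ^ j) (⟨y, hy⟩ ^ m) = 1 from h6, mul_one] at this
    rw [← this]
    exact (congrArg (l y) e).trans (map_mul _ _ _)
  obtain ⟨c, c1, c2⟩ := h2.map (l y)
  obtain ⟨d, d1, d2⟩ := h4.map (r (x ^ j))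
  refine h1 ⟨c * d, c1.mul d1, ?_⟩
  have h8 : Commute (l y (⟨x, hx⟩ ^ i)) (r (x ^ j) (⟨y, hy⟩ ^ k)) :=
    a1 _ (mA _ (zpow_mem hx i) _) _ (mA _ (zpow_mem hx j) _)
  rw [h7, h8.mul_pow, pow_mul, c2, mul_comm c, pow_mul, d2]; simp

theorem H0.rad (h : H0 G) (A B : Subgroup G) [A.Normal] [B.Normal] (a : SS A) (b : SS B)
    (e : A ⊔ B = ⊤) : SS G := by
  have := h.1
  induction hn : Nat.card G using Nat.strong_induction_on generalizing G with
  | _ n ih =>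
  by_cases h0 : A = ⊥
  · rw [h0, bot_sup_eq] at e
    subst e
    exact b.surj (Subgroup.topEquiv (G := G)).toMonoidHom (MulEquiv.surjective _)
  obtain ⟨P, _, _, h1⟩ : ∃ P : Subgroup G, P.Normal ∧ Group.IsNilpotent P ∧ P ≠ ⊥ := by
    by_cases e : commutator A = ⊥
    · exact ⟨A, inferInstance, (Subgroup.isNilpotent_iff_lowerCentralSeries A).2 ⟨1, by
        rw [← Subgroup.top_subtype_lowerCentralSeries, Subgroup.top_lowerCentralSeries_one, e,
          Subgroup.map_bot]⟩, h0⟩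
    have := a.nil
    exact ⟨(commutator A).map A.subtype, inferInstance, Group.nilpotent_of_mulEquiv
      ((commutator A).equivMapOfInjective _ A.subtype_injective),
      mt (Subgroup.map_eq_bot_iff_of_injective _ A.subtype_injective).1 e⟩
  obtain ⟨p, hp, V, _, h2, h3, h4, h5, h6⟩ := min_nil P h1
  have := Fact.mk hp
  let φ : G →* MulAut V := MulAut.conjNormal
  have hφ : ∀ g, φ.rangeRestrict g = 1 ↔ ∀ v ∈ V, Commute g v := fun g =>
    ⟨fun h v hv => mul_inv_eq_iff_eq_mul.1 (congrArg Subtype.val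
      (MulEquiv.congr_fun (congrArg Subtype.val h) ⟨v, hv⟩)), fun h => Subtype.ext
      (MulEquiv.ext fun v => Subtype.ext (mul_inv_eq_iff_eq_mul.2 (h v v.2).eq))⟩
  have hs := φ.rangeRestrict_surjective
  generalize φ.rangeRestrict = f at hφ hs
  have c : ∀ (C : Subgroup G) [C.Normal], SS C → (∀ x ∈ C.map f, ∀ y ∈ C.map f, x * y = y * x) ∧
      ∀ x ∈ C.map f, x ^ (p - 1) = 1 := fun C _ s => ⟨by
    rintro _ ⟨x, hx, rfl⟩ _ ⟨y, hy, rfl⟩
    rw [← commutatorElement_eq_one_iff_mul_comm, ← map_commutatorElement, hφ]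
    exact fun v hv => (ss_cent C V s h5 h6 x hx v hv).2 y hy, by
    rintro _ ⟨x, hx, rfl⟩
    rw [← map_pow, hφ]
    exact fun v hv => (ss_cent C V s h5 h6 x hx v hv).1⟩
  have := Subgroup.Normal.map (inferInstance : A.Normal) f hs
  have := Subgroup.Normal.map (inferInstance : B.Normal) f hs
  have d := bil (A.map f) (B.map f) (c A a).1 (c B b).1 (c A a).2 fun q hq hd R hR x hx y hy => by
    have := Fact.mk hq
    obtain ⟨S, s1, s2⟩ := lift_q f hs hR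
    obtain ⟨x, hx', rfl⟩ := s2 hx
    obtain ⟨y, hy', rfl⟩ := s2 hy
    rw [← map_commutatorElement, hφ]
    exact rd_cent V (fun v hv => ⟨1, by simpa using h5 v hv⟩) h6 _ (h.2 p q hp hq hd S s1 x hx' y hy')
  have dec : ∀ g, ∃ x ∈ A.map f, ∃ y ∈ B.map f, f g = x * y := fun g => by
    obtain ⟨x, hx, y, hy, rfl⟩ := Subgroup.mem_sup_of_normal_left.1 (e.ge (Subgroup.mem_top g))
    exact ⟨_, ⟨x, hx, rfl⟩, _, ⟨y, hy, rfl⟩, map_mul _ _ _⟩
  simp only [commutatorElement_eq_one_iff_commute] at d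
  obtain ⟨v, rfl⟩ := cyc_min (p := p) V h3 (fun x y z w => h4 z w x (h2 y)) h5 h6
    (fun g h => (hφ _).1 (by
      obtain ⟨x, hx, y, hy, e1⟩ := dec g
      obtain ⟨z, hz, w, hw, e2⟩ := dec h
      rw [map_commutatorElement, e1, e2, commutatorElement_eq_one_iff_commute]
      exact (Commute.mul_right ((c A a).1 x hx z hz) (d x hx w hw)).mul_left
        ((d z hz y hy).symm.mul_right ((c B b).1 y hy w hw))))
    fun g => (hφ _).1 (by
      obtain ⟨x, hx, y, hy, e1⟩ := dec g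
      rw [map_pow, e1, (d x hx y hy).mul_pow, (c A a).2 x hx, (c B b).2 y hy, one_mul])
  let π := QuotientGroup.mk' (Subgroup.zpowers v)
  have := Subgroup.Normal.map (inferInstance : A.Normal) π (mk_surj _)
  have := Subgroup.Normal.map (inferInstance : B.Normal) π (mk_surj _)
  exact SS.ext π (mk_surj _) (QuotientGroup.ker_mk' _) (ih _ (hn ▸ card_quo_lt h3)
    (h.surj π (mk_surj _)) (A.map π) (B.map π) (a.surj _ (π.subgroupMap_surjective A))
    (b.surj _ (π.subgroupMap_surjective B))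
    (by rw [← Subgroup.map_sup, e, Subgroup.map_top_of_surjective _ (mk_surj _)]) inferInstance rfl)

theorem Good.reg [hp : Fact p.Prime] [Finite G] (h : Good F p G) {C : Type} [CommGroup C] [Finite C]
    (hC : ∀ c : C, pe p c) : Md F p (tw MulAction.toEndHom 1 : G →* MulAut (G → C)) :=
  ⟨inferInstance, fun _ => pe_pi fun _ => hC _, h _ rightHom rightHom_surjective fun y hy => by
    rw [← inl_left_mul_inr_right y, show y.right = 1 from hy, map_one, mul_one]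
    exact (pe_pi fun _ => hC _).map _⟩

theorem reg_inj {C : Type} [Group C] {z : C} (hz : z ≠ 1) {g : G}
    (h : ∀ f : G → C, (tw MulAction.toEndHom 1 : G →* MulAut (G → C)) g f = f) : g = 1 := by
  classical
  have := congrFun (h (Pi.mulSingle 1 z)) 1
  change Pi.mulSingle (M := fun _ : G => C) 1 z (g⁻¹ * 1) = _ at this
  by_contra hn
  rw [Pi.mulSingle_eq_of_ne (by simpa using hn), Pi.mulSingle_eq_same] at this
  exact hz this.symm

theorem Fm.prod (hF : Fm F) (a : F A) (b : F B) : F (A × B) :=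
  haveI := hF.fin _ a
  haveI := hF.fin _ b
  hF.sub (MonoidHom.fst A B) (MonoidHom.snd A B) Prod.fst_surjective Prod.snd_surjective
    (fun _ x y => Prod.ext x y) a b

theorem Md.comp {V : Type} [CommGroup V] {φ : A →* MulAut V} (hF : Fm F)
    (hs : ∀ (G : Type) [Group G] (K : Subgroup G), F G → F K) (h : Md F p φ) (f : G →* A)
    (hG : F G) : Md F p (φ.comp f) := by
  have := h.fin
  have := hF.fin _ hG
  have := hF.fin _ h.mem
  let θ := (SemidirectProduct.map (φ₁ := φ.comp f) (φ₂ := φ) (MonoidHom.id V) f fun _ => rfl).prod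
    rightHom
  refine ⟨h.fin, h.pg, hF.iso _ _ ⟨(MonoidHom.ofInjective (f := θ) ?_).symm⟩ (hs _ _
    (hF.prod h.mem hG))⟩
  exact (injective_iff_map_eq_one _).2 fun g e => SemidirectProduct.ext
    (congrArg (fun x => x.1.left) e) (congrArg Prod.snd e)

theorem Good.pair [hp : Fact p.Prime] (hF : FO F) (hS : St F)
    (hs : ∀ (G : Type) [Group G] (K : Subgroup G), F G → F K) [Finite A] [Finite B]
    (α : G →* A) (β : G →* B) (hi : ∀ g, α g = 1 → β g = 1 → g = 1)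
    (a : Good F p A) (b : Good F p B) : Good F p G := by
  obtain ⟨C, _, _, z, -, oz, ez⟩ := ex_cyc hp.out.ne_zero
  have z1 : z ≠ 1 := fun e => hp.out.one_lt.ne (by rw [← oz, e, orderOf_one])
  have hC : ∀ c : C, pe p c := fun c => ⟨1, by simpa using ez c⟩
  have hG : F G := hF.iso _ _ ⟨(MonoidHom.ofInjective (f := α.prod β)
    ((injective_iff_map_eq_one _).2 fun g e => hi g (congrArg Prod.fst e)
      (congrArg Prod.snd e))).symm⟩ (hs _ _ (hF.toFm.prod (hF.toFm.surj _ rightHom_surjective (a.reg hC).mem)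
      (hF.toFm.surj _ rightHom_surjective (b.reg hC).mem)))
  have := hF.fin _ hG
  exact (((a.reg hC).comp hF.toFm hs α hG).prod hF.toFm ((b.reg hC).comp hF.toFm hs β hG)).good hF hS
    (fun t e => hi t (reg_inj z1 fun f => congrArg Prod.fst (MulEquiv.congr_fun e (f, 1)))
      (reg_inj z1 fun f => congrArg Prod.snd (MulEquiv.congr_fun e (1, f))))
    (fun _ => z, 1) fun e => z1 (congrFun (congrArg Prod.fst e) 1)

theorem cls2 {q : ℕ} [hq : Fact q.Prime] [Finite G] (h : ∀ g : G, pe q g) (x y : G)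
    (hxy : ⁅x, y⁆ ≠ 1) : ∃ (N : Subgroup G) (_ : N.Normal), (∃ a b : G ⧸ N, ⁅a, b⁆ ≠ 1) ∧
      ∀ a b : G ⧸ N, ⁅a, b⁆ ^ q = 1 ∧ ∀ c, Commute c ⁅a, b⁆ := by
  obtain ⟨N, ⟨_, a, b, h1⟩, hm⟩ := (wellFounded_gt (α := Subgroup G)).has_min
    {N | N.Normal ∧ ∃ a b, ⁅a, b⁆ ∉ N} ⟨⊥, inferInstance, x, y, hxy⟩
  have h2 : ⁅QuotientGroup.mk' N a, QuotientGroup.mk' N b⁆ ≠ 1 := by
    rwa [← map_commutatorElement, Ne, mk_one]
  refine ⟨N, inferInstance, ⟨_, _, h2⟩, fun c d => ?_⟩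
  have h3 : ∀ g : G ⧸ N, pe q g := fun g => by
    obtain ⟨g, rfl⟩ := mk_surj N g; exact (h g).map _
  have := nil_of_pe (p := q) ⊤ fun g _ => h3 g
  obtain ⟨r, hr, U, _, -, u1, u2, u3, -⟩ := min_nil (⊤ : Subgroup (G ⧸ N)) fun e =>
    h2 (Subgroup.mem_bot.1 (e.le trivial))
  obtain ⟨u, hu⟩ := (Subgroup.ne_bot_iff_exists_ne_one).1 u1
  have hu : (u : G ⧸ N) ≠ 1 := fun e => hu (Subtype.ext e)
  obtain rfl : q = r := (Nat.prime_dvd_prime_iff_eq hq.out hr).1 (by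
    exact_mod_cast (h3 u).dvd hu (c := r) (by exact_mod_cast u3 u u.2))
  have : ⁅c, d⁆ ∈ U := by
    obtain ⟨c, rfl⟩ := mk_surj N c
    obtain ⟨d, rfl⟩ := mk_surj N d
    rw [← map_commutatorElement]
    by_contra hn
    refine hm (U.comap (QuotientGroup.mk' N)) ⟨inferInstance, c, d, hn⟩ (lt_of_le_of_ne
      (fun g hg => by rw [Subgroup.mem_comap, mk_one.2 hg]; exact one_mem _) fun e => hu ?_)
    obtain ⟨g, hg⟩ := mk_surj N u
    exact hg ▸ mk_one.2 (e.ge (show QuotientGroup.mk' N g ∈ U from hg ▸ u.2))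
  exact ⟨u3 _ this, fun e => u2 _ this e trivial⟩

theorem comm_pow {a b : G} (h : Commute a ⁅a, b⁆) (n : ℕ) : ⁅a ^ n, b⁆ = ⁅a, b⁆ ^ n := by
  induction n with
  | zero => simp
  | succ n ih =>
    calc _ = a * ⁅a ^ n, b⁆ * a⁻¹ * ⁅a, b⁆ := by simp [commutatorElement_def, pow_succ']; group
      _ = _ := by rw [ih, (h.pow_right n).eq, mul_inv_cancel_right, pow_succ]

theorem no_good [hp : Fact p.Prime] {q : ℕ} (hq : q.Prime) (hd : q ∣ p - 1)
    (hr : ∀ (G : Type) [Group G], F G → ∀ A B : Subgroup G, A.Normal → B.Normal →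
      SS A → SS B → SS ↥(A ⊔ B)) [Finite G] (h : Good F p G)
    (hc : ∀ a b : G, ⁅a, b⁆ ^ q = 1 ∧ ∀ c, Commute c ⁅a, b⁆) {a b : G} (ha : a ^ q = 1)
    (hb : b ^ q = 1) : ⁅a, b⁆ = 1 := by
  obtain ⟨C, _, _, z, -, oz, ez⟩ := ex_cyc hp.out.ne_zero
  have z1 : z ≠ 1 := fun e => hp.out.one_lt.ne (by rw [← oz, e, orderOf_one])
  have hC : ∀ c : C, pe p c := fun c => ⟨1, by simpa using ez c⟩
  let φ : G →* MulAut (G → C) := tw MulAction.toEndHom 1
  have k1 : ∀ e : (G → C) ⋊[φ] G, e.right = 1 → e = inl e.left := fun e he =>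
    SemidirectProduct.ext rfl he
  have key : ∀ a : G, a ^ q = 1 → ∃ A : Subgroup ((G → C) ⋊[φ] G), A.Normal ∧ SS A ∧ inr a ∈ A ∧
      rightHom.ker ≤ A := fun a ha => by
    let A : Subgroup G :=
      { carrier := {x | ∃ i : ℤ, ∃ c, x = a ^ i * c ∧ c ^ q = 1 ∧ ∀ d, Commute d c}
        one_mem' := ⟨0, 1, by simp⟩
        mul_mem' := by
          rintro _ _ ⟨i, c, rfl, c1, c2⟩ ⟨j, d, rfl, d1, d2⟩
          exact ⟨i + j, c * d, by rw [mul_assoc, ← mul_assoc c, ← (c2 _).eq, zpow_add]; group,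
            by rw [(d2 c).mul_pow, c1, d1, one_mul], fun e => (c2 e).mul_right (d2 e)⟩
        inv_mem' := by
          rintro _ ⟨i, c, rfl, c1, c2⟩
          exact ⟨-i, c⁻¹, by rw [(c2 _).eq]; group, by rw [inv_pow, c1, inv_one],
            fun e => (c2 e).inv_right⟩ }
    have hA : A.Normal := ⟨fun x hx g => by
      have : ⁅g, x⁆ ∈ A := ⟨0, _, by simp, hc g x⟩
      simpa [commutatorElement_def] using mul_mem this hx⟩
    let ρ := rightHom.comp (A.comap (rightHom (φ := φ))).subtype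
    refine ⟨A.comap rightHom, inferInstance, ss_of (p := p) ρ.ker (fun x hx y hy => Subtype.ext ?_)
      (fun x hx => Subtype.ext ?_) (fun x y => ?_) fun x => ?_, ⟨1, 1, by simp⟩, fun x hx => ?_⟩
    · rw [Subgroup.coe_mul, Subgroup.coe_mul, k1 x hx, k1 y hy, ← map_mul, ← map_mul, mul_comm]
    · rw [Subgroup.coe_pow, k1 x hx, ← map_pow, show x.1.left ^ p = 1 from funext fun _ => ez _]
      rfl
    · obtain ⟨i, c, e1, -, c2⟩ := x.2
      obtain ⟨j, d, e2, -, d2⟩ := y.2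
      rw [MonoidHom.mem_ker, map_commutatorElement, show ρ x = _ from e1, show ρ y = _ from e2,
        commutatorElement_eq_one_iff_commute]
      exact ((Commute.zpow_zpow_self a i j).mul_left (c2 _).symm).mul_right (d2 _)
    · obtain ⟨i, c, e1, c1, c2⟩ := x.2
      obtain ⟨k, hk⟩ := hd
      rw [MonoidHom.mem_ker, map_pow, show ρ x = _ from e1, hk, pow_mul, (c2 _).mul_pow, c1,
        ← zpow_natCast (a ^ i), zpow_comm, zpow_natCast, ha]; simp
    · rw [Subgroup.mem_comap, show rightHom x = 1 from hx]; exact one_mem _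
  obtain ⟨A, a1, a2, a3, a4⟩ := key a ha
  obtain ⟨B, b1, b2, b3, -⟩ := key b hb
  have := (hr _ (h.reg hC).mem A B a1 b1 a2 b2).nil
  have m := mc_nil (p := p) (commutator ↥(A ⊔ B))
  have m1 : ⁅(⟨_, Subgroup.mem_sup_left a3⟩ : ↥(A ⊔ B)), ⟨_, Subgroup.mem_sup_right b3⟩⁆ ∈ m.sub :=
    ⟨Subgroup.commutator_mem_commutator trivial trivial, q ^ 1, PN.pw hq (fun e => by
      have := Nat.le_of_dvd (by have := hp.out.two_le; omega) hd
      have := hp.out.two_le; omega) 1, Subtype.ext (by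
        change ⁅(inr a : (G → C) ⋊[φ] G), (inr b : (G → C) ⋊[φ] G)⁆ ^ q ^ 1 = 1
        rw [← map_commutatorElement, ← map_pow, pow_one, (hc a b).1, map_one])⟩
  refine reg_inj z1 fun f => inl_injective (φ := φ) ?_
  have m2 := (Subgroup.commutator_le_left m.sub ⊤ (Subgroup.commutator_mem_commutator m1
    (Subgroup.mem_top ⟨inl f, Subgroup.mem_sup_left (a4 rfl)⟩))).2.map (A ⊔ B).subtype
  change qe p ⁅⁅(inr a : (G → C) ⋊[φ] G), (inr b : (G → C) ⋊[φ] G)⁆, (inl f : (G → C) ⋊[φ] G)⁆ at m2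
  rw [← map_commutatorElement, commutatorElement_def (inr _), ← map_inv, ← inl_aut, ← map_inv,
    ← map_mul] at m2
  rw [← mul_inv_eq_one, ← map_inv, ← map_mul]
  exact pq ((pe_pi fun _ => hC _).map _) m2

theorem h0_max (hF : FO F) (hS : St F)
    (hs : ∀ (G : Type) [Group G] (K : Subgroup G), F G → F K)
    (hr : ∀ (G : Type) [Group G], F G → ∀ A B : Subgroup G, A.Normal → B.Normal →
      SS A → SS B → SS ↥(A ⊔ B)) (h : F G) : H0 G := by
  have := hF.fin _ h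
  refine ⟨this, fun p q hp hq hd R hR x hx y hy => ?_⟩
  have := Fact.mk hp
  have := Fact.mk hq
  by_cases h0 : ∀ g : G, qe p g
  · exact le_rd (N := ⊤) inferInstance (fun _ _ _ _ _ _ => h0 _) trivial
  push Not at h0
  obtain ⟨g, hg⟩ := h0
  refine le_rd inferInstance (tr_mc hF.toFm hS h) (mk_one.1 (by_contra fun hn => ?_))
  let S := R.map (QuotientGroup.mk' (Tr F p G))
  obtain ⟨N, _, ⟨a, b, h1⟩, h2⟩ := cls2 (G := S) (q := q) (hR.map _) ⟨_, x, hx, rfl⟩ ⟨_, y, hy, rfl⟩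
    fun e => hn ((map_commutatorElement _ _ _).trans (congrArg Subtype.val e))
  have h3 := (Good.pair hF hS hs S.subtype S.subtype (fun _ a _ => Subtype.ext a)
    (gls hF hS h g hg) (gls hF hS h g hg)).surj hF.toFm _ (mk_surj N)
  have h4 := Good.pair hF hS hs (MonoidHom.fst _ _) (MonoidHom.snd (S ⧸ N) _)
    (fun _ a b => Prod.ext a b) h3 (Good.pair hF hS hs (MonoidHom.fst _ (S ⧸ N))
      (MonoidHom.snd (S ⧸ N) _) (fun _ a b => Prod.ext a b) h3 h3)
  have h5 : ∀ c d : S ⧸ N, Commute d (c ^ q) := fun c d => (commutatorElement_eq_one_iff_commute.1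
    ((comm_pow ((h2 c d).2 c) q).trans (h2 c d).1)).symm
  let L : Subgroup ((S ⧸ N) × (S ⧸ N) × (S ⧸ N)) :=
    { carrier := {w | w.1 = w.2.1 * w.2.2 ∧ (∀ d, Commute d w.2.1) ∧ ∀ d, Commute d w.2.2}
      one_mem' := by simp
      mul_mem' := fun {u v} ⟨u1, u2, u3⟩ ⟨v1, v2, v3⟩ => ⟨by
        simp only [Prod.fst_mul, Prod.snd_mul, u1, v1, mul_assoc]
        rw [← mul_assoc u.2.2, (v2 u.2.2).eq, mul_assoc], fun d => (u2 d).mul_right (v2 d),
        fun d => (u3 d).mul_right (v3 d)⟩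
      inv_mem' := fun {u} ⟨u1, u2, u3⟩ => ⟨by
        simp only [Prod.fst_inv, Prod.snd_inv, u1, (u3 u.2.1).eq, mul_inv_rev],
        fun d => (u2 d).inv_right, fun d => (u3 d).inv_right⟩ }
  have : L.Normal := ⟨fun u ⟨u1, u2, u3⟩ g => by
    have : g * u * g⁻¹ = u := mul_inv_eq_iff_eq_mul.2
      (Prod.ext (by simpa [u1] using ((u2 g.1).mul_right (u3 g.1)).eq)
      (Prod.ext (u2 _).eq (u3 _).eq))
    rw [this]; exact ⟨u1, u2, u3⟩⟩
  have := no_good hq hd hr (h4.surj hF.toFm _ (mk_surj L)) (fun c d => ?_)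
    (a := QuotientGroup.mk' L (a, a, 1)) (b := QuotientGroup.mk' L (b, 1, b))
    (by rw [← map_pow, mk_one]; exact ⟨by simp, h5 a, by simp⟩)
    (by rw [← map_pow, mk_one]; exact ⟨by simp, by simp, h5 b⟩)
  · rw [← map_commutatorElement, mk_one] at this
    exact h1 (by simpa [commutatorElement_def] using this.1)
  obtain ⟨c, rfl⟩ := mk_surj L c
  obtain ⟨d, rfl⟩ := mk_surj L d
  rw [← map_commutatorElement, ← map_pow]
  refine ⟨by rw [show ⁅c, d⁆ ^ q = 1 from Prod.ext (h2 _ _).1 (Prod.ext (h2 _ _).1 (h2 _ _).1),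
    map_one], fun e => ?_⟩
  obtain ⟨e, rfl⟩ := mk_surj L e
  exact Commute.map (show Commute e ⁅c, d⁆ from Prod.ext ((h2 c.1 d.1).2 _)
    (Prod.ext ((h2 c.2.1 d.2.1).2 _) ((h2 c.2.2 d.2.2).2 _))) _

theorem ss_iff : SS G ↔ ∃ (n : ℕ) (s : Fin (n + 1) → Subgroup G), s 0 = ⊥ ∧ s (Fin.last n) = ⊤ ∧
    (∀ i, (s i).Normal) ∧ ∀ i : Fin n, s i.castSucc ≤ s i.succ ∧
      ∃ g ∈ s i.succ, ∀ x ∈ s i.succ, ∃ k : ℤ, x * (g ^ k)⁻¹ ∈ s i.castSucc := by
  constructor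
  · unfold SS
    generalize (⊤ : Subgroup G) = N
    intro h
    induction h with
    | bot => exact ⟨0, fun _ => ⊥, rfl, rfl, fun _ => inferInstance, fun i => i.elim0⟩
    | step N L g _ a b c d e ih =>
      obtain ⟨n, s, h1, h2, h3, h4⟩ := ih
      refine ⟨n + 1, Fin.snoc s L, by rw [← h1]; exact Fin.snoc_castSucc (i := 0) .., by simp,
        fun i => ?_, fun i => ?_⟩
      · induction i using Fin.lastCases <;> simp [*]
      · induction i using Fin.lastCases with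
        | last => simpa [h2] using ⟨c, g, d, e⟩
        | cast i => simpa [← Fin.castSucc_succ] using h4 i
  · rintro ⟨n, s, h1, h2, h3, h4⟩
    have : ∀ i, Cs (s i) := fun i => by
      induction i using Fin.induction with
      | zero => exact h1 ▸ Cs.bot
      | succ i ih =>
        obtain ⟨a, g, b, c⟩ := h4 i
        exact ih.step _ _ g (h3 _) (h3 _) a b c
    exact (h2 ▸ this _ : Cs ⊤)

end Pool.Agent.H68.Sat
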