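import Pool.Agent.H68.Sat2

set_option autoImplicit false

namespace Pool.Agent.H68.Sat

open Function SemidirectProduct
open scoped commutatorElement

variable {F : (G : Type) → [Group G] → Prop}
variable {G A B : Type} [Group G] [Group A] [Group B] {p : ℕ}

def pe (p : ℕ) (u : G) : Prop := ∃ k, u ^ p ^ k = 1

theorem pe.map {u : G} (h : pe p u) (f : G →* A) : pe p (f u) :=
  h.imp fun _ e => by rw [← map_pow, e, map_one]

theorem pe.of_ker {u : G} (f : G →* A) (hk : ∀ a, f a = 1 → pe p a) (h : pe p (f u)) : pe p u := by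
  obtain ⟨a, h2⟩ := h
  obtain ⟨b, h4⟩ := hk (u ^ p ^ a) (by rw [map_pow, h2])
  exact ⟨a + b, by rw [pow_add, pow_mul, h4]⟩

theorem pe.one : pe p (1 : G) := ⟨0, by simp⟩

theorem pe_inj {u : G} (f : G →* A) (hf : Injective f) (h : pe p (f u)) : pe p u :=
  h.of_ker f fun a e => by rw [(injective_iff_map_eq_one f).1 hf a e]; exact pe.one

theorem pe_pi {Ω : Type} [Finite Ω] {f : Ω → G} (h : ∀ x, pe p (f x)) : pe p f := by
  choose k hk using h
  obtain ⟨m, hm⟩ := (Set.finite_range k).bddAbove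
  refine ⟨m, funext fun x => ?_⟩
  obtain ⟨c, rfl⟩ := Nat.exists_eq_add_of_le (hm ⟨x, rfl⟩)
  rw [Pi.pow_apply, pow_add, pow_mul, hk, one_pow]; rfl

theorem pe.dvd [hp : Fact p.Prime] {u : G} (h : pe p u) (h1 : u ≠ 1) {c : ℤ} (e : u ^ c = 1) :
    (p : ℤ) ∣ c := by
  obtain ⟨k, hk⟩ := h
  obtain ⟨j, -, hj⟩ := (Nat.dvd_prime_pow hp.out).1 (orderOf_dvd_of_pow_eq_one hk)
  refine dvd_trans ?_ (orderOf_dvd_iff_zpow_eq_one.2 e)
  rw [hj]
  rcases j with _ | j
  · exact absurd (orderOf_eq_one_iff.1 hj) h1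
  · exact_mod_cast dvd_pow_self p j.succ_ne_zero

theorem nil_of_pe [Fact p.Prime] [Finite G] (Q : Subgroup G) (h : ∀ g ∈ Q, pe p g) :
    Group.IsNilpotent Q := (Fit.pg_iff.2 h).isNilpotent

theorem min_norm [Finite G] (V : Subgroup G) [V.Normal] (h : V ≠ ⊥) : ∃ U : Subgroup G,
    U.Normal ∧ U ≤ V ∧ U ≠ ⊥ ∧ ∀ W : Subgroup G, W.Normal → W ≤ U → W = ⊥ ∨ W = U := by
  obtain ⟨U, ⟨h1, h2, h3⟩, hm⟩ := (wellFounded_lt (α := Subgroup G)).has_min
    {U | U.Normal ∧ U ≤ V ∧ U ≠ ⊥} ⟨V, inferInstance, le_rfl, h⟩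
  refine ⟨U, h1, h2, h3, fun W a b => ?_⟩
  by_contra hc
  push Not at hc
  exact hm W ⟨a, b.trans h2, hc.1⟩ (lt_of_le_of_ne b hc.2)

theorem min_nil [Finite G] (P : Subgroup G) [hP : P.Normal] [Group.IsNilpotent P] (h : P ≠ ⊥) :
    ∃ q : ℕ, q.Prime ∧ ∃ U : Subgroup G, U.Normal ∧ U ≤ P ∧ U ≠ ⊥ ∧
      (∀ u ∈ U, ∀ x ∈ P, x * u = u * x) ∧ (∀ u ∈ U, u ^ q = 1) ∧
      ∀ W : Subgroup G, W.Normal → W ≤ U → W = ⊥ ∨ W = U := by
  obtain ⟨U, h1, h2, h3, h4⟩ := min_norm P h
  have hc : ∀ u ∈ U, ∀ x ∈ P, x * u = u * x := by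
    rcases h4 ⁅U, P⁆ inferInstance (Subgroup.commutator_le_left _ _) with e | e
    · intro u hu x hx
      have := Subgroup.commutator_mem_commutator hu hx
      rw [e, Subgroup.mem_bot, commutatorElement_eq_one_iff_mul_comm] at this
      exact this.symm
    · exact absurd (comm_ne h2 e) h3
  have : Nontrivial U := (Subgroup.nontrivial_iff_ne_bot U).2 h3
  obtain ⟨q, hq, hd⟩ := Nat.exists_prime_and_dvd (Finite.one_lt_card (α := U)).ne'
  have := Fact.mk hq
  obtain ⟨x, hx⟩ := exists_prime_orderOf_dvd_card' q hd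
  let W : Subgroup G :=
    { carrier := {u | u ∈ U ∧ u ^ q = 1}
      one_mem' := ⟨one_mem _, one_pow _⟩
      mul_mem' := fun ha hb => ⟨mul_mem ha.1 hb.1, by
        rw [Commute.mul_pow (hc _ hb.1 _ (h2 ha.1)), ha.2, hb.2, one_mul]⟩
      inv_mem' := fun ha => ⟨inv_mem ha.1, by rw [inv_pow, ha.2, inv_one]⟩ }
  refine ⟨q, hq, U, h1, h2, h3, hc, ?_, h4⟩
  rcases h4 W ⟨fun u hu g => ⟨h1.conj_mem _ hu.1 g, by rw [conj_pow, hu.2]; simp⟩⟩
    (fun _ h => h.1) with e | e
  · have : (x : G) ∈ W := ⟨x.2, by rw [← hx]; exact_mod_cast congrArg Subtype.val (pow_orderOf_eq_one x)⟩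
    rw [e, Subgroup.mem_bot] at this
    rw [show x = 1 from Subtype.ext this, orderOf_one] at hx
    exact absurd hx hq.one_lt.ne
  · exact fun u hu => (e.ge hu).2

theorem pi_all {Ω : Type} [Finite Ω] [DecidableEq Ω] (S : Subgroup (Ω → G))
    (h : ∀ x d, Pi.mulSingle x d ∈ S) (f : Ω → G) : f ∈ S :=
  Subgroup.pi_mem_of_mulSingle_mem f fun _ => h _ _

def tw {Λ Ω D : Type} [Group Λ] [Group D] (a : Λ →* Function.End Ω) (χ : Λ →* MulAut D) :
    Λ →* MulAut (Ω → D) :=
  MonoidHom.mk' (fun l =>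
    { toFun := fun f x => χ l (f (a l⁻¹ x))
      invFun := fun f x => χ l⁻¹ (f (a l x))
      left_inv := fun f => funext fun x => by
        have : a l⁻¹ (a l x) = x := by
          change (a l⁻¹ * a l) x = x
          rw [← map_mul, inv_mul_cancel, map_one]; rfl
        simp [this]
      right_inv := fun f => funext fun x => by
        have : a l (a l⁻¹ x) = x := by
          change (a l * a l⁻¹) x = x
          rw [← map_mul, mul_inv_cancel, map_one]; rfl
        simp [this]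
      map_mul' := fun f g => funext fun x => by simp })
    fun l m => by
      ext f x
      change χ (l * m) (f (a (l * m)⁻¹ x)) = χ l (χ m (f (a m⁻¹ (a l⁻¹ x))))
      rw [mul_inv_rev, map_mul, map_mul]; rfl

theorem tw_apply {Λ Ω D : Type} [Group Λ] [Group D] (a : Λ →* Function.End Ω) (χ : Λ →* MulAut D)
    (l : Λ) (f : Ω → D) (x : Ω) : tw a χ l f x = χ l (f (a l⁻¹ x)) := rfl

def Good (F : (G : Type) → [Group G] → Prop) (p : ℕ) (T : Type) [Group T] : Prop :=
  ∀ (E : Type) [Group E] [Finite E] (π : E →* T), Surjective π → (∀ e, π e = 1 → pe p e) → F E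

structure Md (F : (G : Type) → [Group G] → Prop) (p : ℕ) {T V : Type} [Group T] [CommGroup V]
    (φ : T →* MulAut V) : Prop where
  fin : Finite V
  pg : ∀ v : V, pe p v
  mem : F (V ⋊[φ] T)

def aff {V T : Type} [Group V] [Group T] (φ : T →* MulAut V) : V ⋊[φ] T →* Function.End V :=
  { toFun := fun l x => l.left * φ l.right x
    map_one' := funext fun x => by simp; rfl
    map_mul' := fun l m => funext fun x => by
      change _ = l.left * φ l.right (m.left * φ m.right x)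
      simp [mul_assoc] }

instance sd_fin {V T : Type} [Group V] [Group T] (φ : T →* MulAut V) [Finite V] [Finite T] :
    Finite (V ⋊[φ] T) := Finite.of_equiv _ SemidirectProduct.equivProd.symm

variable {T V : Type} [Group T] [CommGroup V] {φ : T →* MulAut V}

theorem Md.big [Fact p.Prime] [Finite T] (hF : Fm F) (hS : St F) (h : Md F p φ) :
    F ((V → V) ⋊[tw (aff φ) (φ.comp rightHom)] (V ⋊[φ] T)) := by
  classical
  have := h.fin
  have := Fintype.ofFinite V
  let ν : (V → V) →* V := MonoidHom.mk' (fun f => ∏ x, f x) fun f g => Finset.prod_mul_distrib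
  have ν1 : ∀ x d, ν (Pi.mulSingle x d) = d := fun x d => Fintype.prod_pi_mulSingle' x d
  have h1 : F (V ⋊[φ.comp rightHom] (V ⋊[φ] T)) :=
    hF.sub (SemidirectProduct.map (MonoidHom.id V) rightHom fun _ => rfl) rightHom
      (fun x => ⟨⟨x.left, inr x.right⟩, rfl⟩) rightHom_surjective
      (fun g a b => SemidirectProduct.ext (by simpa using congrArg SemidirectProduct.left a) b)
      h.mem h.mem
  refine St.of hF hS (SemidirectProduct.map ν (MonoidHom.id _) fun l => ?_)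
    (fun x => ⟨⟨Pi.mulSingle 1 x.left, x.right⟩, SemidirectProduct.ext (ν1 _ _) rfl⟩) ?_ h1
  · refine MonoidHom.ext fun f => ?_
    change ∏ x, φ l.right (f (l⁻¹.left * φ l⁻¹.right x)) = φ l.right (∏ x, f x)
    rw [map_prod]
    exact Equiv.prod_comp ((φ l⁻¹.right).toEquiv.trans (Equiv.mulLeft l⁻¹.left))
      fun x => φ l.right (f x)
  intro g hg
  let Q := ((rightHom (φ := φ)).comp (rightHom (φ := tw (aff φ) (φ.comp rightHom)))).ker
  have : Group.IsNilpotent Q := nil_of_pe (p := p) Q fun x hx => by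
    refine pe.of_ker rightHom (fun y hy => ?_) ?_
    · rw [← inl_left_mul_inr_right y, show y.right = 1 from hy, map_one, mul_one]
      exact (pe_pi fun _ => h.pg _).map _
    · rw [← inl_left_mul_inr_right (rightHom x), show (rightHom x).right = 1 from hx, map_one,
        mul_one]
      exact (h.pg _).map _
  refine comm_frat Q (mk_one.1 ?_)
  have h2 := pi_all (((QuotientGroup.mk' ⁅Q, Q⁆).comp inl).eqLocus
    (((QuotientGroup.mk' ⁅Q, Q⁆).comp inl).comp ((MonoidHom.mulSingle (fun _ : V => V) 1).comp ν)))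
    (fun x d => ?_) g.left
  · rw [← inl_left_mul_inr_right g, show g.right = 1 from congrArg SemidirectProduct.right hg,
      map_one, mul_one]
    refine Eq.trans h2 ?_
    simp [show ν g.left = 1 from congrArg SemidirectProduct.left hg]
  · change QuotientGroup.mk' ⁅Q, Q⁆ (inl (Pi.mulSingle x d)) =
      QuotientGroup.mk' ⁅Q, Q⁆ (inl (Pi.mulSingle 1 (ν (Pi.mulSingle x d))))
    rw [ν1, ← mul_inv_eq_one, ← map_inv, ← map_mul, mk_one]
    have e : tw (aff φ) (φ.comp rightHom) (inl x) (Pi.mulSingle 1 d) = Pi.mulSingle x d := by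
      ext y
      simp [tw_apply, aff, Pi.mulSingle_apply, inv_mul_eq_one, eq_comm]
    rw [← e, inl_aut, map_inv]
    exact Subgroup.commutator_mem_commutator (g₁ := inr (inl x)) rfl rfl

theorem Md.split [Fact p.Prime] [Finite T] (hF : Fm F) (hS : St F) (h : Md F p φ) (v a : V)
    (hv : ∀ t, φ t v = v → t = 1) (ha : a ≠ 1) {E : Type} [Group E] [Finite E]
    (π : E →* T) (σ : T →* E) (hσ : ∀ t, π (σ t) = t)
    (hc : ∀ a b, π a = 1 → π b = 1 → a * b = b * a) (he : ∀ a, π a = 1 → a ^ p = 1)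
    (hm : ∀ U : Subgroup E, U.Normal → U ≤ π.ker → U = ⊥ ∨ U = π.ker)
    (u : E) (hu : π u = 1) (hu1 : u ≠ 1) : F E := by
  classical
  have := h.fin
  have := Fintype.ofFinite T
  let _ : CommGroup π.ker :=
    { (inferInstance : Group π.ker) with mul_comm := fun a b => Subtype.ext (hc _ _ a.2 b.2) }
  let w : T → π.ker := fun t => MulAut.conjNormal (σ t) ⟨u, hu⟩
  let ρ := (rightHom (φ := φ)).comp (rightHom (φ := tw (aff φ) (φ.comp rightHom)))
  have : Group.IsNilpotent ρ.ker := nil_of_pe (p := p) _ fun x hx => by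
    refine pe.of_ker rightHom (fun y hy => ?_) ?_
    · rw [← inl_left_mul_inr_right y, show y.right = 1 from hy, map_one, mul_one]
      exact (pe_pi fun _ => h.pg _).map _
    · rw [← inl_left_mul_inr_right (rightHom x), show (rightHom x).right = 1 from hx, map_one,
        mul_one]
      exact (h.pg _).map _
  let A : Subgroup (((V → V) ⋊[tw (aff φ) (φ.comp rightHom)] (V ⋊[φ] T)) × E) :=
    { carrier := {x | x.1.right = 1 ∧ ∃ c : T → ℤ, (∀ t, x.1.left (φ t v) = φ t a ^ c t) ∧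
        x.2 = (∏ t, w t ^ c t : π.ker)}
      one_mem' := ⟨rfl, 0, by simp, by simp⟩
      mul_mem' := by
        rintro x y ⟨h1, c, h2, h3⟩ ⟨h4, d, h5, h6⟩
        refine ⟨by simp [h1, h4], c + d, fun t => by simp [h1, h2, h5, zpow_add], ?_⟩
        simp only [Prod.snd_mul, h3, h6, Pi.add_apply, zpow_add, Finset.prod_mul_distrib]; rfl
      inv_mem' := by
        rintro x ⟨h1, c, h2, h3⟩
        refine ⟨by simp [h1], -c, fun t => by simp [h1, h2], ?_⟩
        simp only [Prod.snd_inv, h3, Pi.neg_apply, zpow_neg, Finset.prod_inv_distrib]; rfl }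
  refine locate hF (h.big hF hS) ρ (inr.comp inr) (fun _ => rfl) π σ hσ hc hm A ?_ ?_ ?_ ?_
  · rintro x ⟨h1, c, -, h3⟩
    exact ⟨congrArg SemidirectProduct.right h1, h3 ▸ (∏ t, w t ^ c t).2⟩
  · rintro x ⟨h1, c, h2, h3⟩ s
    refine ⟨by simp [h1], fun t => c (s⁻¹ * t), fun t => ?_, ?_⟩
    · have := h2 (s⁻¹ * t)
      simp only [map_mul, map_inv, MulAut.mul_apply, MulAut.inv_apply] at this
      simp only [MonoidHom.comp_apply, mul_left, mul_right, left_inr, right_inr, inv_left, h1]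
      simp [tw_apply, aff, this]
    · change σ s * x.2 * (σ s)⁻¹ = _
      rw [h3, ← MulAut.conjNormal_apply, map_prod]
      congr 1
      refine Fintype.prod_equiv (Equiv.mulLeft s) _ _ fun t => ?_
      simp [w]
  · rintro y ⟨-, c, h2, h3⟩
    have h3 : y = _ := h3
    rw [h3, Finset.prod_eq_one fun t _ => ?_]
    · rfl
    obtain ⟨k, hk⟩ := (h.pg (φ t a)).dvd (by simpa using ha) (h2 t).symm
    rw [hk, zpow_mul, zpow_natCast, show w t ^ p = 1 from Subtype.ext (he _ (w t).2), one_zpow]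
  · refine ⟨(inl (Pi.mulSingle v a), u), ⟨rfl, Pi.single 1 1, fun t => ?_, ?_⟩, hu1⟩
    · by_cases e : t = 1
      · simp [e]
      · simp [e, Pi.mulSingle_apply, mt (hv t) e]
    · rw [Finset.prod_eq_single 1 (fun t _ e => by simp [e]) (by simp)]
      simp [w]

theorem Md.good0 [hp : Fact p.Prime] [Finite T] (hF : Fm F) (hS : St F) (h : Md F p φ) (v a : V)
    (hv : ∀ t, φ t v = v → t = 1) (ha : a ≠ 1) : Good F p T := by
  intro E _ _
  induction hn : Nat.card E using Nat.strong_induction_on generalizing E with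
  | _ n ih =>
  intro π hπ hk
  have := h.fin
  by_cases h0 : π.ker = ⊥
  · exact hF.fac π (MonoidHom.id E) hπ surjective_id
      (fun g hg => Subgroup.mem_bot.1 (h0 ▸ hg)) (hF.surj rightHom rightHom_surjective h.mem)
  have := nil_of_pe π.ker hk
  obtain ⟨q, hq, U, hU, h1, h2, h3, h4, h5⟩ := min_nil π.ker h0
  have quo : ∀ (D : Subgroup E) [D.Normal], D ≠ ⊥ → D ≤ π.ker → F (E ⧸ D) := by
    intro D _ a b
    obtain ⟨π', e⟩ := exists_lift _ (mk_surj D) π fun g hg => b (mk_one.1 hg)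
    refine ih _ ?_ (E ⧸ D) rfl π' (fun t => ?_) fun x hx => ?_
    · rw [← hn, Subgroup.card_eq_card_quotient_mul_card_subgroup D]
      exact lt_mul_of_one_lt_right Nat.card_pos ((Subgroup.one_lt_card_iff_ne_bot D).2 a)
    · obtain ⟨g, rfl⟩ := hπ t; exact ⟨_, e g⟩
    · obtain ⟨g, rfl⟩ := mk_surj D x
      exact (hk g (e g ▸ hx)).map _
  by_cases hf : U ≤ frattini E
  · exact St.of hF hS _ (mk_surj U) (fun g hg => hf (mk_one.1 hg)) (quo U h2 h1)
  obtain ⟨M, hM, hUM⟩ : ∃ M : Subgroup E, IsCoatom M ∧ ¬ U ≤ M := by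
    by_contra hc
    push Not at hc
    exact hf fun x hx => Subgroup.mem_iInf.2 fun M => Subgroup.mem_iInf.2 fun hM => hc M hM hx
  have dec : ∀ g : E, ∃ m ∈ M, ∃ u ∈ U, m * u = g := fun g => by
    have : M ⊔ U = ⊤ := hM.2 _ (lt_of_le_of_ne le_sup_left fun e => hUM (e ▸ le_sup_right))
    exact Subgroup.mem_sup_of_normal_right.1 (this ▸ trivial)
  have nor : ∀ D : Subgroup E, D.Normal → D ≤ π.ker → (D ⊓ M).Normal := fun D a b => ⟨by
    intro x hx g
    obtain ⟨m, hm, u, hu, rfl⟩ := dec g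
    rw [mul_assoc m, ← h3 u hu x (b hx.1), show m * (x * u) * (m * u)⁻¹ = m * x * m⁻¹ by group]
    exact ⟨a.conj_mem _ hx.1 m, M.mul_mem (M.mul_mem hm hx.2) (M.inv_mem hm)⟩⟩
  have hUM' : U ⊓ M = ⊥ := (h5 _ (nor U hU h1) inf_le_left).resolve_right
    fun e => hUM (e.ge.trans inf_le_right)
  have := nor _ inferInstance (le_refl π.ker)
  by_cases hD : π.ker ⊓ M = ⊥
  · have hs : Surjective (π.comp M.subtype) := fun t => by
      obtain ⟨g, rfl⟩ := hπ t
      obtain ⟨m, hm, u, hu, rfl⟩ := dec g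
      exact ⟨⟨m, hm⟩, by rw [map_mul, show π u = 1 from h1 hu, mul_one]; rfl⟩
    obtain ⟨σ, hσ⟩ := exists_lift _ hs M.subtype fun g hg =>
      Subgroup.mem_bot.1 (hD ▸ (⟨hg, g.2⟩ : g.1 ∈ π.ker ⊓ M))
    have hUk : U = π.ker := le_antisymm h1 fun g hg => by
      obtain ⟨m, hm, u, hu, rfl⟩ := dec g
      have : m ∈ π.ker ⊓ M := ⟨by simpa using mul_mem hg (inv_mem (h1 hu)), hm⟩
      rw [hD, Subgroup.mem_bot] at this
      rwa [this, one_mul]
    obtain ⟨⟨u, hu⟩, hu1⟩ := (Subgroup.ne_bot_iff_exists_ne_one).1 h2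
    have hu1 : u ≠ 1 := fun e => hu1 (Subtype.ext e)
    obtain rfl : p = q := (Nat.prime_dvd_prime_iff_eq hp.out hq).1 (by
      exact_mod_cast (hk u (h1 hu)).dvd hu1 (c := q) (by exact_mod_cast h4 u hu))
    refine h.split hF hS v a hv ha π σ (fun t => ?_) (fun a b x y => h3 b (hUk.ge y) a x)
      (fun a x => h4 a (hUk.ge x)) (fun W x y => hUk ▸ h5 W x (y.trans hUk.ge)) u (h1 hu) hu1
    obtain ⟨m, rfl⟩ := hs t
    rw [hσ]; rfl
  · refine hF.res E U (π.ker ⊓ M) (eq_bot_iff.2 fun x hx => hUM'.le ⟨hx.1, hx.2.2⟩)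
      (quo U h2 h1) (quo _ hD inf_le_left)

theorem Md.good [hp : Fact p.Prime] [Finite T] (hF : FO F) (hS : St F) (h : Md F p φ)
    (hφ : ∀ t, φ t = 1 → t = 1) (a : V) (ha : a ≠ 1) : Good F p T := by
  have := h.fin
  have h' : Md F p (tw (1 : T →* Function.End V) φ) := ⟨inferInstance, fun _ => pe_pi fun _ => h.pg _,
    hF.of_res fun g hg => ?_⟩
  · exact h'.good0 hF.toFm hS id (fun _ => a) (fun t e => hφ t (MulEquiv.ext (congrFun e)))
      fun e => ha (congrFun e 1)
  have : ∀ x, g.left x = 1 ∧ g.right = 1 := fun x => by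
    have := hF.toFm.res_le (SemidirectProduct.map (φ₁ := tw (1 : T →* Function.End V) φ) (φ₂ := φ)
      (Pi.evalMonoidHom (fun _ => V) x) (MonoidHom.id T) fun _ => rfl)
      (fun y => ⟨⟨fun _ => y.left, y.right⟩, rfl⟩) h.mem hg
    exact ⟨congrArg SemidirectProduct.left this, congrArg SemidirectProduct.right this⟩
  exact SemidirectProduct.ext (funext fun x => (this x).1) (this 1).2

theorem Good.surj (hF : Fm F) [Finite G] (h : Good F p G) (f : G →* A) (hf : Surjective f) :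
    Good F p A := fun E _ _ π hπ hk =>
  hF.surj (Fit.p2 f π) (fun e => by
      obtain ⟨g, hg⟩ := hf (π e); exact ⟨⟨(g, e), hg⟩, rfl⟩)
    (h _ (Fit.p1 f π) (fun g => by obtain ⟨e, he⟩ := hπ (f g); exact ⟨⟨(g, e), he.symm⟩, rfl⟩)
      fun x hx => (hk (Fit.p2 f π x) (by rw [← Fit.fp_rel, hx, map_one])).imp fun k e =>
        Fit.fp_inj _ _ _ (by rw [map_pow, hx, one_pow]) (by rw [map_pow, e]))

theorem Good.ext (h : Good F p A) (f : G →* A) (hf : Surjective f) (hk : ∀ e, f e = 1 → pe p e) :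
    Good F p G := fun E _ _ π hπ hk' =>
  h E (f.comp π) (hf.comp hπ) fun e he => (hk _ he).of_ker π hk'

end Pool.Agent.H68.Sat
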