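import Pool.Agent.H68.Sat3

set_option autoImplicit false

namespace Pool.Agent.H68.Sat

open Function SemidirectProduct Pool.Agent.H68.Fit
open scoped commutatorElement

variable {F : (G : Type) → [Group G] → Prop}
variable {G A B D Q : Type} [Group G] [Group A] [Group B] [Group D] [Group Q] {p : ℕ}

noncomputable def cc (Y : Subgroup G) (g : G) (ω : G ⧸ Y) : Y :=
  ⟨ω.out⁻¹ * g * (g⁻¹ • ω).out, by
    rw [mul_assoc, ← QuotientGroup.eq, ← smul_eq_mul, ← MulAction.Quotient.smul_coe]; simp⟩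

abbrev Wr (Y : Subgroup G) (D : Type) [Group D] :=
  (G ⧸ Y → D) ⋊[tw (MulAction.toEndHom (M := G) (α := G ⧸ Y)) 1] G

theorem wr_mul {Y : Subgroup G} (a b : Wr Y D) (ω : G ⧸ Y) :
    (a * b).left ω = a.left ω * b.left (a.right⁻¹ • ω) := rfl

def KK (Y : Subgroup G) (χ : D →* Q) (ξ : Y →* Q) : Subgroup (Wr Y D) where
  carrier := {w | ∀ ω, χ (w.left ω) = ξ (cc Y w.right ω)}
  one_mem' := fun ω => by
    rw [show cc Y (1 : Wr Y D).right ω = 1 from Subtype.ext (by simp [cc])]; simp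
  mul_mem' := fun {a b} ha hb ω => by
    rw [wr_mul, map_mul, ha, hb, ← map_mul]
    congr 1
    exact Subtype.ext (by simp [cc, mul_smul, mul_assoc])
  inv_mem' := fun {a} ha ω => by
    change χ (a.left (a.right⁻¹⁻¹ • ω))⁻¹ = _
    rw [map_inv, ha, ← map_inv]
    congr 1
    exact Subtype.ext (by simp [cc, mul_assoc])

theorem kk_ex {Y : Subgroup G} {χ : D →* Q} {ξ : Y →* Q} (h : ∀ y, ∃ d, χ d = ξ y) (g : G)
    (ω : G ⧸ Y) (d : D) (hd : χ d = ξ (cc Y g ω)) :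
    ∃ w : KK Y χ ξ, w.1.right = g ∧ w.1.left ω = d := by
  classical
  choose s hs using h
  refine ⟨⟨⟨update (fun x => s (cc Y g x)) ω d, g⟩, fun x => ?_⟩, rfl, by simp⟩
  by_cases e : x = ω
  · subst e; simpa using hd
  · simp [update_of_ne e, hs]

theorem kk_surj {Y : Subgroup G} {χ : D →* Q} {ξ : Y →* Q} (h : ∀ y, ∃ d, χ d = ξ y) :
    Surjective (rightHom.comp (KK Y χ ξ).subtype) := fun g => by
  obtain ⟨d, hd⟩ := h (cc Y g (1 : G))
  obtain ⟨w, h1, -⟩ := kk_ex h g _ d hd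
  exact ⟨w, h1⟩

theorem wr_pow {Y : Subgroup G} (a : Wr Y D) (ω : G ⧸ Y) (h : a.right⁻¹ • ω = ω) (n : ℕ) :
    (a ^ n).left ω = a.left ω ^ n := by
  induction n with
  | zero => simp
  | succ n ih => rw [pow_succ', wr_mul, h, ih, pow_succ']

/-- `p'`-elements -/
abbrev qe (p : ℕ) (g : G) : Prop := PE (· ≠ p) g

theorem pe_iff [hp : Fact p.Prime] {g : G} : pe p g ↔ PE (fun q => ¬ q ≠ p) g := by
  refine ⟨fun ⟨k, h⟩ => ⟨_, PN.pw hp.out (by simp) k, h⟩, fun ⟨n, h1, h2⟩ => ?_⟩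
  rw [Nat.eq_prime_pow_of_unique_prime_dvd h1.1 fun hq hd => not_not.1 (h1.2 _ hq hd)] at h2
  exact ⟨_, h2⟩

theorem pq [Fact p.Prime] {g : G} (h : pe p g) (h' : qe p g) : g = 1 := h'.eq_one (pe_iff.1 h)

theorem qe_lift [Finite G] {π : ℕ → Prop} (f : G →* A) (g : G) (h : PE π (f g)) :
    ∃ i : ℤ, PE π (g ^ i) ∧ f (g ^ i) = f g := by
  obtain ⟨i, j, e, h1, h2⟩ := pe_split π g
  refine ⟨i, h1, ?_⟩
  conv_rhs => rw [e, map_mul, (by rw [map_zpow]; exact h.zpow j : PE π (f (g ^ j))).eq_one (h2.map f),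
    mul_one]

theorem ex_pe [Finite G] [Fact p.Prime] {g : G} (h : ¬ qe p g) :
    ∃ i : ℤ, pe p (g ^ i) ∧ g ^ i ≠ 1 := by
  obtain ⟨i, j, e, h1, h2⟩ := pe_split (· ≠ p) g
  exact ⟨j, pe_iff.2 h2, fun e' => h (by rwa [e, e', mul_one])⟩

def Tr (F : (G : Type) → [Group G] → Prop) (p : ℕ) (G : Type) [Group G] : Subgroup G where
  carrier := {g | ∀ (V : Type) [CommGroup V] (φ : G →* MulAut V), Md F p φ → φ g = 1}
  one_mem' := fun _ _ φ _ => map_one φ
  mul_mem' := fun ha hb V _ φ h => by rw [map_mul, ha V φ h, hb V φ h, one_mul]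
  inv_mem' := fun ha V _ φ h => by rw [map_inv, ha V φ h, inv_one]

instance : (Tr F p G).Normal := ⟨fun _ h g V _ φ hφ => by simp [h V φ hφ]⟩

theorem tr_comm (hF : Fm F) {E : Type} [Group E] [Finite E] (h : F E) (π : E →* G)
    (hπ : Surjective π) (V : Subgroup E) [V.Normal] (hc : ∀ a ∈ V, ∀ b ∈ V, a * b = b * a)
    (hk : ∀ e, π e = 1 → ∀ v ∈ V, e * v = v * e) (hp : ∀ v ∈ V, pe p v) {e v : E}
    (he : π e ∈ Tr F p G) (hv : v ∈ V) : e * v = v * e := by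
  obtain ⟨φ, h1, h2⟩ := spl hF h π hπ V hc hk
  let _ : CommGroup V :=
    { (inferInstance : Group V) with mul_comm := fun a b => Subtype.ext (hc _ a.2 _ b.2) }
  have := h1 e ⟨v, hv⟩
  rw [he V φ ⟨inferInstance, fun v => pe_inj V.subtype V.subtype_injective (hp _ v.2), h2⟩] at this
  exact (eq_mul_inv_iff_mul_eq.1 this).symm

theorem ex_cyc {n : ℕ} (h : n ≠ 0) : ∃ (Z : Type) (_ : CommGroup Z) (_ : Finite Z) (z : Z),
    (∀ x, x ∈ Subgroup.zpowers z) ∧ orderOf z = n ∧ ∀ x : Z, x ^ n = 1 := by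
  have : NeZero n := ⟨h⟩
  obtain ⟨z, hz⟩ := IsCyclic.exists_generator (α := Multiplicative (ZMod n))
  have c : Nat.card (Multiplicative (ZMod n)) = n := by simp
  exact ⟨_, inferInstance, inferInstance, z, hz,
    (orderOf_eq_card_of_forall_mem_zpowers hz).trans c,
    fun x => (congrArg (x ^ ·) c.symm).trans pow_card_eq_one'⟩

theorem tr_mc [hp : Fact p.Prime] (hF : Fm F) (hS : St F) [Finite G] (h : F G) :
    MC (· ≠ p) (Tr F p G) := by
  let R := Subgroup.closure {y | y ∈ Tr F p G ∧ qe p y}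
  suffices H : ∀ x ∈ R, qe p x from fun a ha b hb h1 h2 =>
    H _ (mul_mem (Subgroup.subset_closure ⟨ha, h1⟩) (Subgroup.subset_closure ⟨hb, h2⟩))
  have hR : R ≤ Tr F p G := (Subgroup.closure_le _).2 fun _ h => h.1
  intro x0 hx0
  by_contra hn
  obtain ⟨j, ⟨k, hk⟩, hx1⟩ := ex_pe hn
  have hx : x0 ^ j ∈ R := zpow_mem hx0 j
  generalize x0 ^ j = x at hk hx1 hx
  obtain ⟨Z, _, _, z, hz, oz, ez⟩ := ex_cyc (pow_ne_zero (k + Nat.card G) hp.out.ne_zero)
  let χ : Z →* G := monoidHomOfForallMemZpowers hz (g' := x)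
    (orderOf_dvd_of_pow_eq_one (by rw [oz, pow_add, pow_mul, hk, one_pow]))
  have χz : χ z = x := monoidHomOfForallMemZpowers_apply_gen _ _
  let Y := Subgroup.zpowers x
  have hχ : ∀ y : Y, ∃ d, χ d = Y.subtype y := by
    rintro ⟨_, i, rfl⟩; exact ⟨z ^ i, by rw [map_zpow, χz]; rfl⟩
  obtain ⟨S, hs, hf⟩ := min_supp _ (kk_surj hχ)
  let π := (rightHom.comp (KK Y χ Y.subtype).subtype).comp S.subtype
  let ι := (KK Y χ Y.subtype).subtype.comp S.subtype
  have hι : Injective ι := Subtype.val_injective.comp Subtype.val_injective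
  have k1 : ∀ e, π e = 1 → ι e = inl (ι e).left := fun e he => SemidirectProduct.ext rfl he
  have k2 : ∀ a, π a = 1 → ∀ b, π b = 1 → a * b = b * a := fun a ha b hb => hι (by
    rw [map_mul, map_mul, k1 a ha, k1 b hb, ← map_mul, ← map_mul, mul_comm])
  have k3 : ∀ a, π a = 1 → pe p a := fun a ha => pe_inj ι hι (by
    rw [k1 a ha]
    exact (pe_pi fun ω => ⟨k + Nat.card G, ez _⟩).map _)
  let π' := π.comp (R.comap π).subtype
  have cen : π'.ker ≤ Subgroup.center _ := fun v hv => Subgroup.mem_center_iff.2 fun e =>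
    Subtype.ext (tr_comm hF (St.of hF hS π hs hf h) π hs π.ker k2 k2 k3 (hR e.2) hv)
  obtain ⟨c, hc⟩ := Subgroup.index_dvd_of_le cen
  let θ := MonoidHom.mk' (fun g => MonoidHom.transferCenterPow (R.comap π) g ^ c) fun a b => by
    rw [map_mul, Commute.mul_pow (mul_comm' _ _)]
  have hθ : ∀ g, (θ g : R.comap π) = g ^ π'.ker.index := fun g => by
    rw [hc, pow_mul, ← MonoidHom.transferCenterPow_apply]; rfl
  have key : R ≤ θ.ker.map π' := (Subgroup.closure_le _).2 fun y hy => by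
    obtain ⟨g, rfl⟩ := hs y
    obtain ⟨i, h1, h2⟩ := qe_lift π' ⟨g, Subgroup.subset_closure hy⟩ hy.2
    refine ⟨_, Subtype.ext ?_, h2⟩
    rw [hθ]
    exact pq (pe_inj _ (R.comap π).subtype_injective (k3 _ (π'.ker.pow_index_mem _)))
      (by exact_mod_cast h1.zpow π'.ker.index)
  obtain ⟨y, h1, h2⟩ := key hx
  have h3 : (ι y) ^ π'.ker.index = 1 := by
    have := hθ y
    rw [show θ y = 1 from h1] at this
    rw [← map_pow, ← Subgroup.coe_pow, ← this]; rfl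
  have h4 : (ι y).right = x := h2
  have h5 : x⁻¹ • ((1 : G) : G ⧸ Y) = (1 : G) := by
    rw [MulAction.Quotient.smul_coe, QuotientGroup.eq]; simp [Y]
  have h6 := wr_pow (ι y) (1 : G) (h4 ▸ h5) π'.ker.index
  have h7 : χ ((ι y).left (1 : G)) = (cc Y (ι y).right (1 : G) : G) := y.1.1.2 _
  obtain ⟨i, hi⟩ := hz ((ι y).left (1 : G))
  have hi : z ^ i = (ι y).left (1 : G) := hi
  rw [h3, ← hi, ← zpow_natCast, ← zpow_mul, eq_comm] at h6
  have h8 := orderOf_dvd_iff_zpow_eq_one.2 h6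
  have h9 : x ^ (i - 1) = 1 := by
    obtain ⟨⟨_, l, rfl⟩, hl⟩ := QuotientGroup.mk_out_eq_mul Y (1 : G)
    rw [← hi, map_zpow, χz, h4] at h7
    simp only [cc, h5, hl] at h7
    rw [zpow_sub_one, h7]; group
  obtain ⟨l, hl⟩ := pe.dvd ⟨k, hk⟩ hx1 h9
  have h10 : IsCoprime ((p : ℤ) ^ (k + Nat.card G)) i :=
    IsCoprime.pow_left ⟨-l, 1, by linear_combination hl⟩
  rw [oz] at h8
  push_cast at h8
  have h11 := Nat.le_of_dvd (Nat.pos_of_ne_zero Subgroup.FiniteIndex.index_ne_zero)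
    (by exact_mod_cast h10.dvd_of_dvd_mul_left h8 : p ^ (k + Nat.card G) ∣ π'.ker.index)
  rw [Subgroup.index_ker] at h11
  have h12 := Finite.card_subtype_le (· ∈ π'.range)
  have h13 : k + Nat.card G < p ^ (k + Nat.card G) := Nat.lt_pow_self hp.out.one_lt
  omega

variable {V W : Type} [CommGroup V] [CommGroup W] {φ : G →* MulAut V} {ψ : G →* MulAut W}

def pr (φ : G →* MulAut V) (ψ : G →* MulAut W) : G →* MulAut (V × W) :=
  MonoidHom.mk' (fun t => (φ t).prodCongr (ψ t)) fun a b => by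
    rw [map_mul, map_mul]; rfl

theorem Md.prod (hF : Fm F) [Finite G] (a : Md F p φ) (b : Md F p ψ) : Md F p (pr φ ψ) := by
  have := a.fin
  have := b.fin
  refine ⟨inferInstance, fun v => pe.of_ker (MonoidHom.fst V W) (fun x hx => ?_) (a.pg _), ?_⟩
  · exact (b.pg x.2).imp fun k e => Prod.ext (by simp [show x.1 = 1 from hx]) e
  refine hF.sub (SemidirectProduct.map (MonoidHom.fst V W) (MonoidHom.id G) fun _ => rfl)
    (SemidirectProduct.map (MonoidHom.snd V W) (MonoidHom.id G) fun _ => rfl)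
    (fun x => ⟨⟨(x.left, 1), x.right⟩, rfl⟩) (fun x => ⟨⟨(1, x.left), x.right⟩, rfl⟩)
    (fun g x y => ?_) a.mem b.mem
  exact SemidirectProduct.ext (Prod.ext (by simpa using congrArg SemidirectProduct.left x)
    (by simpa using congrArg SemidirectProduct.left y))
    (by simpa using congrArg SemidirectProduct.right x)

theorem Md.gls [Fact p.Prime] (hF : FO F) (hS : St F) [Finite G] (h : Md F p φ) (a : V)
    (ha : a ≠ 1) : Good F p (G ⧸ Tr F p G) := by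
  obtain ⟨_, ⟨U, _, χ, hχ, ⟨u, hu⟩, rfl⟩, hm⟩ := (wellFounded_lt (α := Subgroup G)).has_min
    {K | ∃ (U : Type) (_ : CommGroup U) (χ : G →* MulAut U), Md F p χ ∧ (∃ u : U, u ≠ 1) ∧
      K = χ.ker} ⟨_, V, _, φ, h, ⟨a, ha⟩, rfl⟩
  obtain ⟨χ', e⟩ := exists_lift _ (mk_surj (Tr F p G)) χ fun g hg => mk_one.1 hg U χ hχ
  refine Md.good (φ := χ') hF hS ⟨hχ.fin, hχ.pg, hF.toFm.surj
    (SemidirectProduct.map (MonoidHom.id U) (QuotientGroup.mk' _) fun g => by rw [e]; rfl)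
    (fun x => ?_) hχ.mem⟩ (fun t ht => ?_) u hu
  · obtain ⟨g, hg⟩ := mk_surj _ x.right
    exact ⟨⟨x.left, g⟩, SemidirectProduct.ext rfl hg⟩
  obtain ⟨g, rfl⟩ := mk_surj _ t
  refine mk_one.2 fun W _ ψ hψ => ?_
  have h1 : (pr χ ψ).ker ≤ χ.ker := fun x hx => MulEquiv.ext fun v =>
    congrArg Prod.fst (MulEquiv.congr_fun hx (v, 1))
  have h2 : g ∈ (pr χ ψ).ker := (eq_of_le_of_not_lt h1 (hm _ ⟨_, _, _, hχ.prod hF.toFm hψ,
    ⟨(u, 1), fun e => hu (congrArg Prod.fst e)⟩, rfl⟩)).ge (by rwa [e] at ht)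
  exact MulEquiv.ext fun w => congrArg Prod.snd (MulEquiv.congr_fun h2 (1, w))

theorem pe_quo [Finite G] [Fact p.Prime] {K : Subgroup G} [K.Normal] (h : MC (· ≠ p) K) {g : G}
    (hg : g ∈ K) : pe p (QuotientGroup.mk' h.sub g) := by
  obtain ⟨i, j, e, h1, h2⟩ := pe_split (· ≠ p) g
  rw [e, map_mul, mk_one.2 (⟨zpow_mem hg i, h1⟩ : _ ∈ h.sub), one_mul]
  exact (pe_iff.2 h2).map _

theorem gls [Fact p.Prime] (hF : FO F) (hS : St F) [Finite G] (h : F G) (g : G) (hg : ¬ qe p g) :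
    Good F p (G ⧸ Tr F p G) := by
  by_cases h0 : ∃ (V : Type) (_ : CommGroup V) (φ : G →* MulAut V), Md F p φ ∧ ∃ a : V, a ≠ 1
  · obtain ⟨V, _, φ, h1, a, ha⟩ := h0
    exact h1.gls hF hS a ha
  exfalso
  have ht : ∀ x, x ∈ Tr F p G := fun x V _ φ h1 => MulEquiv.ext fun v => by
    by_contra hc
    exact h0 ⟨V, _, φ, h1, v, fun e => hc (by simp [e])⟩
  have m := tr_mc (p := p) hF.toFm hS h
  have : Group.IsNilpotent (⊤ : Subgroup (G ⧸ m.sub)) := nil_of_pe (p := p) _ fun x _ => by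
    obtain ⟨y, rfl⟩ := mk_surj _ x
    exact pe_quo m (ht y)
  obtain ⟨q, -, U, _, -, h2, h3, -⟩ := min_nil (⊤ : Subgroup (G ⧸ m.sub)) fun e =>
    hg (mk_one (N := m.sub).1 (Subgroup.mem_bot.1 (e.le (Subgroup.mem_top _)))).2
  let _ : CommGroup U :=
    { (inferInstance : Group U) with mul_comm := fun a b => Subtype.ext (h3 _ b.2 _ trivial) }
  obtain ⟨u, hu⟩ := (Subgroup.ne_bot_iff_exists_ne_one).1 h2
  refine h0 ⟨U, _, 1, ⟨inferInstance, fun v => pe_inj _ U.subtype_injective ?_, ?_⟩, u, hu⟩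
  · obtain ⟨y, e⟩ := mk_surj _ v.1
    exact (e ▸ pe_quo m (ht y) : pe p v.1)
  · exact hF.toFm.sub (MonoidHom.mk' (fun x => x.left) fun _ _ => rfl) rightHom
      (fun v => ⟨inl v, rfl⟩) rightHom_surjective (fun _ a b => SemidirectProduct.ext a b)
      (central hF.toFm (hF.toFm.quo G _ h) U fun z hz g => h3 z hz g trivial) h

end Pool.Agent.H68.Sat
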