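import Pool.Agent.H68.Sat4

set_option autoImplicit false

namespace Pool.Agent.H68.Sat

open Function SemidirectProduct Pool.Agent.H68.Fit
open scoped commutatorElement

variable {F : (G : Type) → [Group G] → Prop}
variable {G A B : Type} [Group G] [Group A] [Group B] {p : ℕ}

theorem mc_map [Finite G] {π : ℕ → Prop} {N : Subgroup G} (h : MC π N) (f : G →* A) :
    MC π (N.map f) := by
  rintro _ ⟨a, ha, rfl⟩ _ ⟨b, hb, rfl⟩ h1 h2
  obtain ⟨i, h3, e⟩ := qe_lift f a h1
  obtain ⟨j, h4, e'⟩ := qe_lift f b h2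
  rw [← e, ← e', ← map_mul]
  exact (h _ (zpow_mem ha i) _ (zpow_mem hb j) h3 h4).map f

theorem mc_comap {π : ℕ → Prop} {N : Subgroup A} (h : MC π N) (f : G →* A)
    (hk : ∀ g, f g = 1 → PE π g) : MC π (N.comap f) := fun a ha b hb h1 h2 =>
  PE.of_ker f hk (by rw [map_mul]; exact h _ ha _ hb (h1.map f) (h2.map f))

theorem ex_prime [Finite G] {x : G} (h : x ≠ 1) : ∃ p : ℕ, p.Prime ∧ ¬ qe p x := by
  obtain ⟨p, hp, hd⟩ := Nat.exists_prime_and_dvd (mt orderOf_eq_one_iff.1 h)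
  exact ⟨p, hp, fun ⟨n, h1, h2⟩ => h1.2 p hp (hd.trans (orderOf_dvd_of_pow_eq_one h2)) rfl⟩

theorem card_quo_lt [Finite G] {D : Subgroup G} (h : D ≠ ⊥) : Nat.card (G ⧸ D) < Nat.card G := by
  rw [Subgroup.card_eq_card_quotient_mul_card_subgroup D]
  exact lt_mul_of_one_lt_right Nat.card_pos ((Subgroup.one_lt_card_iff_ne_bot D).2 h)

theorem of_good (hF : FO F) [Finite G] (h : ∀ p : ℕ, p.Prime → ∀ g : G, ¬ qe p g →
    ∃ (N : Subgroup G) (_ : N.Normal), MC (· ≠ p) N ∧ Good F p (G ⧸ N)) : F G := by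
  induction hn : Nat.card G using Nat.strong_induction_on generalizing G with
  | _ n ih =>
  refine hF.of_res fun x hx => ?_
  by_contra h1
  obtain ⟨p, hp, h2⟩ := ex_prime h1
  have := Fact.mk hp
  obtain ⟨N, _, m, hg⟩ := h p hp x h2
  by_cases h0 : m.sub = ⊥
  · refine h1 (hF.toFm.res_le (MonoidHom.id G) surjective_id
      (hg G _ (mk_surj N) fun e he => pe.of_ker _ (fun a ha => ?_) (pe_quo m (mk_one.1 he))) hx)
    rw [Subgroup.mem_bot.1 (h0.le (mk_one.1 ha))]; exact pe.one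
  refine h2 (mk_one (N := m.sub).1 (hF.toFm.res_le _ (mk_surj _)
    (ih _ (hn ▸ card_quo_lt h0) (fun q hq g hg => ?_) rfl) hx)).2
  obtain ⟨g, rfl⟩ := mk_surj _ g
  obtain ⟨L, _, a, b⟩ := h q hq g fun e => hg (e.map _)
  have : (L.map (QuotientGroup.mk' m.sub)).Normal := Subgroup.Normal.map inferInstance _ (mk_surj _)
  obtain ⟨γ, e⟩ := exists_lift _ (mk_surj L) ((QuotientGroup.mk' (L.map (QuotientGroup.mk' m.sub))).comp
    (QuotientGroup.mk' m.sub)) fun g hg => mk_one.2 ⟨g, mk_one.1 hg, rfl⟩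
  refine ⟨_, this, mc_map a _, b.surj hF.toFm γ fun y => ?_⟩
  obtain ⟨z, rfl⟩ := ((mk_surj _).comp (mk_surj m.sub)) y
  exact ⟨_, e z⟩

theorem Md.triv {V : Type} [CommGroup V] (hF : Fm F) (a : F V) (b : F G) (h : ∀ v : V, pe p v) :
    Md F p (1 : G →* MulAut V) :=
  haveI := hF.fin _ a
  haveI := hF.fin _ b
  ⟨inferInstance, h, hF.sub (MonoidHom.mk' (fun x => x.left) fun _ _ => rfl) rightHom
    (fun v => ⟨inl v, rfl⟩) rightHom_surjective (fun _ a b => SemidirectProduct.ext a b) a b⟩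

theorem Good.pg (hF : Fm F) [Finite G] (h : Good F p G) [Finite A] (hA : ∀ a : A, pe p a) : F A :=
  hF.surj (MonoidHom.fst A G) Prod.fst_surjective (h _ (MonoidHom.snd A G) Prod.snd_surjective
    fun e he => (hA e.1).imp fun k e' => Prod.ext e' (by simp [show e.2 = 1 from he]))

/-- `F`-subnormal subgroups -/
inductive Sn (F : (G : Type) → [Group G] → Prop) {G : Type} [Group G] : Subgroup G → Prop
  | top : Sn F ⊤
  | step (K L : Subgroup G) : Sn F K → L < K → (∀ M : Subgroup G, L ≤ M → M ≤ K → M = L ∨ M = K) →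
      (∃ N : Subgroup K, ∃ _ : N.Normal, F (K ⧸ N) ∧ N ≤ L.subgroupOf K) → Sn F L

theorem Sn.of_mem (hF : Fm F) {K L : Subgroup G} (h : Sn F K) (h1 : L < K)
    (h2 : ∀ M : Subgroup G, L ≤ M → M ≤ K → M = L ∨ M = K) (h3 : F K) : Sn F L :=
  h.step K L h1 h2 ⟨⊥, inferInstance, hF.quo _ _ h3, bot_le⟩

theorem cop_step [Fact p.Prime] {C : Type} [CommGroup C] (hC : ∀ c : C, pe p c) (U : Subgroup G)
    {y : G} (hy : y ∈ U) (hq : qe p y) (k : ℕ) (a : G → C)
    (h : ∀ x ∈ U, (fun (f : G → C) x => f (y⁻¹ * x) * (f x)⁻¹)^[k] a x = 1) :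
    k = 0 ∨ ∀ x ∈ U, a (y⁻¹ * x) = a x := by
  induction k generalizing a with
  | zero => exact Or.inl rfl
  | succ k ih =>
    right
    rcases ih _ h with rfl | h1
    · exact fun x hx => mul_inv_eq_one.1 (h x hx)
    intro x hx
    have h2 : ∀ n : ℕ, a (y⁻¹ ^ n * x) = (a (y⁻¹ * x) * (a x)⁻¹) ^ n * a x ∧
        a (y⁻¹ * (y⁻¹ ^ n * x)) * (a (y⁻¹ ^ n * x))⁻¹ = a (y⁻¹ * x) * (a x)⁻¹ := fun n => by
      induction n with
      | zero => simp
      | succ n ih =>
        rw [pow_succ', mul_assoc]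
        refine ⟨?_, (h1 _ (mul_mem (pow_mem (inv_mem hy) n) hx)).trans ih.2⟩
        rw [pow_succ', mul_assoc, ← ih.1, ← ih.2, inv_mul_cancel_right]
    obtain ⟨n, h3, h4⟩ := hq
    have := (h2 n).1
    rw [inv_pow, h4, inv_one, one_mul, right_eq_mul] at this
    exact mul_inv_eq_one.1 (pq (hC _) ⟨n, h3, this⟩)

theorem good_coatom [hp : Fact p.Prime] (hF : FO F) (hS : St F)
    (hJ : ∀ (G : Type) [Group G] [Finite G] (A B : Subgroup G), Sn F A → Sn F B → Sn F (A ⊔ B))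
    [Finite G] (hG : Good F p G) {U : Subgroup G} (hU : IsCoatom U) : Good F p U := by
  classical
  obtain ⟨C, _, _, z, -, oz, ez⟩ := ex_cyc (pow_ne_zero 2 hp.out.ne_zero)
  have hC : ∀ c : C, pe p c := fun c => ⟨2, ez c⟩
  have z2 : z ^ 2 ≠ 1 := fun e => by
    have := Nat.le_of_dvd two_pos (oz ▸ orderOf_dvd_of_pow_eq_one e)
    nlinarith [hp.out.two_le]
  have z1 : z ≠ 1 := fun e => z2 (by simp [e])
  let φ : G →* MulAut (G → C) := tw MulAction.toEndHom 1
  have hφ : ∀ g f x, φ g f x = f (g⁻¹ * x) := fun _ _ _ => rfl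
  have k1 : ∀ e : (G → C) ⋊[φ] G, e.right = 1 → e = inl e.left := fun e he =>
    SemidirectProduct.ext rfl he
  have hB : ∀ B : Subgroup ((G → C) ⋊[φ] G), Surjective (rightHom.comp B.subtype) → F B :=
    fun B h => hG B _ h fun e he => pe_inj _ B.subtype_injective (by
      rw [Subgroup.subtype_apply, k1 e he]; exact (pe_pi fun _ => hC _).map _)
  have hB' : ∀ B : Subgroup ((G → C) ⋊[φ] G), Surjective (rightHom.comp B.subtype) → Sn F B := by
    intro B
    induction B using WellFoundedGT.induction with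
    | ind B ih =>
    intro h
    rcases eq_top_or_lt_top B with rfl | h1
    · exact Sn.top
    obtain ⟨K, h2, -⟩ := exists_covBy_le_of_lt h1
    have h3 : Surjective (rightHom.comp K.subtype) := fun g => by
      obtain ⟨b, e⟩ := h g; exact ⟨⟨b, h2.le b.2⟩, e⟩
    exact (ih K h2.lt h3).of_mem hF.toFm h2.lt (fun M a b => h2.eq_or_eq a b) (hB K h3)
  let τ : (G → C) → G →* (G → C) ⋊[φ] G := fun v => (MulAut.conj (inl v)).toMonoidHom.comp inr
  have hτ : ∀ v g, τ v g = ⟨v * φ g v⁻¹, g⟩ := fun v g => by ext <;> simp [τ]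
  have hτi : ∀ v, Injective (τ v) := fun v a b e => by
    simpa [hτ] using congrArg SemidirectProduct.right e
  have hτs : ∀ v, Sn F (U.map (τ v)) := fun v => by
    have h1 : Surjective (rightHom.comp (Subgroup.map (τ v) ⊤).subtype) := fun g =>
      ⟨⟨_, g, trivial, rfl⟩, by simp [hτ]⟩
    refine (hB' _ h1).of_mem hF.toFm ((Subgroup.map_lt_map_iff_of_injective (hτi v)).2 hU.lt_top)
      (fun M a b => ?_) (hB _ h1)
    have e : (M.comap (τ v)).map (τ v) = M :=
      Subgroup.map_comap_eq_self (by rwa [MonoidHom.range_eq_map])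
    rcases hU.le_iff.1 (Subgroup.map_le_iff_le_comap.1 a) with h | h <;> rw [← e, h] <;> simp
  let X : Subgroup ((G → C) ⋊[φ] G) :=
    { carrier := {e | e.right ∈ U ∧ ∀ x ∈ U, e.left x = 1}
      one_mem' := ⟨one_mem _, fun _ _ => rfl⟩
      mul_mem' := fun {a b} ha hb => ⟨mul_mem ha.1 hb.1, fun x hx => by
        simp [hφ, ha.2 x hx, hb.2 _ (mul_mem (inv_mem ha.1) hx)]⟩
      inv_mem' := fun {a} ha => ⟨inv_mem ha.1, fun x hx => by
        rw [inv_left, hφ]; simp [ha.2 _ (mul_mem ha.1 hx)]⟩ }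
  have hX : ∀ v : G → C, (∀ x ∈ U, v x = 1) → U.map (τ v) ≤ X := by
    rintro v hv _ ⟨u, hu, rfl⟩
    rw [hτ]
    exact ⟨hu, fun x hx => by simp [hφ, hv x hx, hv _ (mul_mem (inv_mem hu) hx)]⟩
  obtain ⟨A, ⟨a1, a2⟩, hm⟩ := (wellFounded_gt (α := Subgroup _)).has_min
    {A | Sn F A ∧ A ≤ X} ⟨_, hτs 1, hX 1 fun _ _ => rfl⟩
  have a3 : ∀ v : G → C, (∀ x ∈ U, v x = 1) → U.map (τ v) ≤ A := fun v hv =>
    le_sup_right.trans (eq_of_le_of_not_lt le_sup_left
      (hm _ ⟨hJ _ _ _ a1 (hτs v), sup_le a2 (hX v hv)⟩)).ge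
  have key : ∀ y : U, qe p y → QuotientGroup.mk' (Res F U) y ∈ Tr F p _ → y = 1 := by
    intro y hq hy
    by_contra y1
    obtain ⟨g, hg⟩ : ∃ g, g ∉ U := by
      by_contra hc
      push Not at hc
      exact hU.1 (eq_top_iff.2 fun g _ => hc g)
    let v : G → C := Pi.mulSingle g z
    have hv : ∀ x ∈ U, v x = 1 := fun x hx => Pi.mulSingle_eq_of_ne (fun e : x = g => hg (e ▸ hx)) _
    let δ := fun (f : G → C) x => f ((y : G)⁻¹ * x) * (f x)⁻¹
    have main : ∀ L : Subgroup ((G → C) ⋊[φ] G), Sn F L → A ≤ L →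
        ∃ k, inl (δ^[k] (φ g⁻¹ (v * φ y v⁻¹))) ∈ L := by
      intro L hL
      have iu : ∀ L, A ≤ L → ∀ u ∈ U, inr u ∈ L := fun L h u hu =>
        h (a3 1 (fun _ _ => rfl) ⟨u, hu, by rw [hτ]; ext <;> simp⟩)
      induction hL with
      | top => exact fun _ => ⟨0, trivial⟩
      | step K L hK h1 h2 h3 ih =>
      intro hA
      rcases hU.le_iff.1 (show U ≤ L.map rightHom from fun u hu => ⟨_, iu L hA u hu, rfl⟩) with e | e
      · obtain ⟨l, hl, el⟩ : g⁻¹ ∈ L.map rightHom := e ▸ trivial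
        have h4 := mul_mem (hA (a3 v hv ⟨y, y.2, rfl⟩)) (inv_mem (iu L hA y y.2))
        refine ⟨0, ?_⟩
        convert mul_mem (mul_mem hl h4) (inv_mem hl) using 1
        have e3 : τ v y * (inr (y : G))⁻¹ = inl (v * φ y v⁻¹) := by rw [hτ]; ext <;> simp
        rw [e3, iterate_zero_apply, ← show l.right = g⁻¹ from el]
        ext <;> simp
      obtain ⟨k, hk⟩ := ih (hA.trans h1.le)
      refine ⟨k + 1, ?_⟩
      rw [iterate_succ_apply']
      generalize δ^[k] _ = a at hk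
      have e1 : inl (δ a) = ⁅(inr (y : G) : (G → C) ⋊[φ] G), (inl a : (G → C) ⋊[φ] G)⁆ := by
        rw [commutatorElement_def, ← map_inv, ← inl_aut, ← map_inv, ← map_mul]; rfl
      rw [e1]
      rcases h2 (K ⊓ U.comap rightHom) (le_inf h1.le fun l hl => e.le ⟨l, hl, rfl⟩) inf_le_left
        with e2 | e2
      · have : inl a ∈ L := e2.le ⟨hk, one_mem U⟩
        have h4 := iu L hA y y.2
        exact mul_mem (mul_mem (mul_mem h4 this) (inv_mem h4)) (inv_mem this)
      obtain ⟨N, _, h4, h5⟩ := h3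
      let ρ : K →* U := (rightHom.comp K.subtype).codRestrict U fun x => (e2.ge x.2).2
      have hρ : Surjective ρ := fun u => ⟨⟨_, iu K (hA.trans h1.le) u u.2⟩, rfl⟩
      obtain ⟨π, hπ⟩ := exists_lift _ (mk_surj (Res F K)) ((QuotientGroup.mk' (Res F U)).comp ρ)
        fun x hx => mk_one.2 (hF.res_map ρ hρ (mk_one.1 hx))
      have : (ρ.ker.map (QuotientGroup.mk' (Res F K))).Normal :=
        Subgroup.Normal.map inferInstance _ (mk_surj _)
      have c1 : ∀ a ∈ ρ.ker.map (QuotientGroup.mk' (Res F K)),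
          ∀ b ∈ ρ.ker.map (QuotientGroup.mk' (Res F K)), a * b = b * a := by
        rintro _ ⟨a, ha, rfl⟩ _ ⟨b, hb, rfl⟩
        rw [← map_mul, ← map_mul]
        congr 1
        apply Subtype.ext
        rw [Subgroup.coe_mul, Subgroup.coe_mul, k1 a (congrArg Subtype.val ha),
          k1 b (congrArg Subtype.val hb), ← map_mul, ← map_mul, mul_comm]
      have := tr_comm (p := p) hF.toFm hF.res_mem π (fun t => ?_) _ c1 (fun e he => c1 e ?_) ?_
        (e := QuotientGroup.mk' _ ⟨_, iu K (hA.trans h1.le) y y.2⟩) (by rw [hπ]; exact hy)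
        ⟨⟨_, hk⟩, Subtype.ext rfl, rfl⟩
      · rw [← commutatorElement_eq_one_iff_mul_comm, ← map_commutatorElement, mk_one] at this
        exact h5 (mk_one.1 (hF.toFm.res_le _ (mk_surj N) h4 this))
      · obtain ⟨x, rfl⟩ := ((mk_surj _).comp hρ) t
        exact ⟨_, hπ x⟩
      · obtain ⟨x, rfl⟩ := mk_surj _ e
        rw [hπ] at he
        obtain ⟨r, h6, h7⟩ := hF.res_surj ρ hρ (mk_one.1 he)
        exact ⟨x * r⁻¹, by simp [MonoidHom.mem_ker, h7], by
          rw [map_mul, map_inv, mk_one.2 h6, inv_one, mul_one]⟩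
      · rintro _ ⟨a, ha, rfl⟩
        refine (pe_inj _ K.subtype_injective ?_).map _
        rw [Subgroup.subtype_apply, k1 a (congrArg Subtype.val ha)]
        exact (pe_pi fun _ => hC _).map _
    obtain ⟨k, hk⟩ := main A a1 le_rfl
    have y2 : (y : G) ≠ 1 := fun e => y1 (Subtype.ext e)
    have w1 : φ g⁻¹ (v * φ y v⁻¹) 1 = z := by
      rw [hφ, Pi.mul_apply, hφ]
      simp [v, Pi.mulSingle_apply, inv_mul_eq_iff_eq_mul, y2]
    rcases cop_step hC U y.2 (hq.map U.subtype) k _ (a2 hk).2 with rfl | h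
    · exact z1 (w1 ▸ (a2 hk).2 1 (one_mem _))
    have := h 1 (one_mem _)
    rw [w1, hφ, Pi.mul_apply, hφ] at this
    simp [v, Pi.mulSingle_apply, y2] at this
    split_ifs at this
    · exact z2 (by rw [pow_two]; nth_rw 1 [← this]; simp)
    · exact z1 (by simpa using this.symm)
  refine ((Md.triv hF.toFm (hG.pg hF.toFm hC) hF.res_mem hC).gls hF hS z z1).ext
    ((QuotientGroup.mk' _).comp (QuotientGroup.mk' (Res F U))) ((mk_surj _).comp (mk_surj _))
    fun y hy => ?_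
  obtain ⟨i, j, e, h1, h2⟩ := pe_split (· ≠ p) y
  rw [e, key _ h1 (by rw [map_zpow]; exact zpow_mem (mk_one.1 hy) i), one_mul]
  exact pe_iff.2 h2

theorem good_sub [hp : Fact p.Prime] (hF : FO F) (hS : St F)
    (hJ : ∀ (G : Type) [Group G] [Finite G] (A B : Subgroup G), Sn F A → Sn F B → Sn F (A ⊔ B))
    [Finite G] (hG : Good F p G) (U : Subgroup G) : Good F p U := by
  induction hn : Nat.card G using Nat.strong_induction_on generalizing G with
  | _ n ih =>
  rcases eq_top_or_exists_le_coatom U with rfl | ⟨M, hM, hle⟩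
  · exact hG.surj hF.toFm (Subgroup.topEquiv (G := G)).symm.toMonoidHom (MulEquiv.surjective _)
  · exact (ih _ (hn ▸ card_lt hM.1) (good_coatom hF hS hJ hG hM) (U.subgroupOf M) rfl).surj hF.toFm
      (Subgroup.subgroupOfEquivOfLe hle).toMonoidHom (Subgroup.subgroupOfEquivOfLe hle).surjective

theorem hered (hF : FO F) (hS : St F)
    (hJ : ∀ (G : Type) [Group G] [Finite G] (A B : Subgroup G), Sn F A → Sn F B → Sn F (A ⊔ B))
    [Finite G] (hG : F G) (U : Subgroup G) : F U := by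
  refine of_good hF fun p hp u hu => ?_
  have := Fact.mk hp
  let f := (QuotientGroup.mk' (Tr F p G)).comp U.subtype
  have hi : ∀ g : U, U.subtype g = 1 → qe p g := fun g h => by
    rw [show g = 1 from Subtype.ext h]; exact PE.one
  refine ⟨f.ker, inferInstance, fun a ha b hb => mc_comap (tr_mc hF.toFm hS hG) U.subtype hi a
    (mk_one (N := Tr F p G).1 ha) b (mk_one (N := Tr F p G).1 hb), ?_⟩
  refine (good_sub hF hS hJ (gls hF hS hG u fun h => hu ?_) f.range).surj hF.toFm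
    (QuotientGroup.quotientKerEquivRange f).symm.toMonoidHom (MulEquiv.surjective _)
  exact PE.of_ker U.subtype hi h

end Pool.Agent.H68.Sat
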