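import Pool.Agent.H68.Sat5

set_option autoImplicit false

namespace Pool.Agent.H68.Sat

open Function SemidirectProduct Pool.Agent.H68.Fit
open scoped commutatorElement

variable {F : (G : Type) → [Group G] → Prop}
variable {G A B : Type} [Group G] [Group A] [Group B] {p : ℕ}

theorem pe_mem [Fact p.Prime] {K : Subgroup G} [K.Normal] {g : G} (h : qe p g)
    (h' : pe p (QuotientGroup.mk' K g)) : g ∈ K := mk_one.1 (pq h' (h.map _))

theorem mc_join [Finite G] [Fact p.Prime] {N M : Subgroup G} [N.Normal] [M.Normal]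
    (a : MC (· ≠ p) N) (b : MC (· ≠ p) M) : MC (· ≠ p) (N ⊔ M) := by
  have h1 : ∀ {L : Subgroup G} [L.Normal] (c : MC (· ≠ p) L), c.sub ≤ a.sub ⊔ b.sub → ∀ g ∈ L,
      pe p (QuotientGroup.mk' (a.sub ⊔ b.sub) g) := fun c h g hg =>
    (pe_quo c hg).imp fun k e => by
      rw [← map_pow, mk_one] at e ⊢; exact h e
  have h2 : ∀ g ∈ N ⊔ M, qe p g → g ∈ a.sub ⊔ b.sub := fun g hg hq => by
    obtain ⟨x, hx, y, hy, rfl⟩ := Subgroup.mem_sup_of_normal_left.1 hg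
    refine pe_mem hq ?_
    obtain ⟨k, hk⟩ := h1 b le_sup_right y hy
    rw [← map_pow, mk_one] at hk
    have : (x * y) ^ p ^ k ∈ N ⊔ (a.sub ⊔ b.sub) := by
      rw [← mk_one, map_pow, map_mul, mk_one.2 (Subgroup.mem_sup_left hx), one_mul, ← map_pow]
      exact mk_one.2 (Subgroup.mem_sup_right hk)
    obtain ⟨u, hu, v, hv, e⟩ := Subgroup.mem_sup_of_normal_left.1 this
    obtain ⟨l, hl⟩ := h1 a le_sup_left u hu
    exact ⟨k + l, by rw [pow_add, pow_mul, ← map_pow, ← e, map_mul, mk_one.2 hv, mul_one, hl]⟩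
  exact fun x hx y hy h3 h4 => a.sup_pe b _ (mul_mem (h2 x hx h3) (h2 y hy h4))

def Rd (p : ℕ) (G : Type) [Group G] : Subgroup G := sSup {N | N.Normal ∧ MC (· ≠ p) N}

theorem rd_spec [Finite G] [Fact p.Prime] : (Rd p G).Normal ∧ MC (· ≠ p) (Rd p G) := by
  obtain ⟨N, ⟨h1, h2⟩, hm⟩ := (wellFounded_gt (α := Subgroup G)).has_min
    {N | N.Normal ∧ MC (· ≠ p) N} ⟨⊥, inferInstance, fun a ha b hb _ _ => by
      rw [Subgroup.mem_bot.1 ha, Subgroup.mem_bot.1 hb, one_mul]; exact PE.one⟩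
  have : Rd p G = N := le_antisymm (sSup_le fun M ⟨h3, h4⟩ => le_sup_right.trans
    (eq_of_le_of_not_lt le_sup_left (hm _ ⟨inferInstance, mc_join h2 h4⟩)).ge) (le_sSup ⟨h1, h2⟩)
  exact this ▸ ⟨h1, h2⟩

theorem le_rd {N : Subgroup G} (h1 : N.Normal) (h2 : MC (· ≠ p) N) : N ≤ Rd p G := le_sSup ⟨h1, h2⟩

theorem rd_map [Finite G] [Fact p.Prime] (f : G →* A) (hf : Surjective f) {g : G}
    (hg : g ∈ Rd p G) : f g ∈ Rd p A :=
  le_rd (rd_spec.1.map f hf) (mc_map rd_spec.2 f) ⟨g, hg, rfl⟩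

theorem qe_sep [Finite G] [Fact p.Prime] {g : G}
    (h : ∀ i : ℤ, pe p (g ^ i) → g ^ i = 1) : qe p g := by
  by_contra hn
  obtain ⟨i, h1, h2⟩ := ex_pe hn
  exact h2 (h i h1)

theorem bary [Finite G] [hp : Fact p.Prime] (V C C' : Subgroup G) [hV : V.Normal]
    (hc : ∀ a ∈ V, ∀ b ∈ V, a * b = b * a) (he : ∀ v ∈ V, v ^ p = 1) (hd : ∀ v ∈ V, v ∈ C → v = 1)
    (hq : ∀ c ∈ C', qe p c) (hs : ∀ x ∈ C', ∃ v ∈ V, v⁻¹ * x ∈ C) :
    ∃ u ∈ V, ∀ x ∈ C', u⁻¹ * x * u ∈ C := by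
  let _ : CommGroup V :=
    { (inferInstance : Group V) with mul_comm := fun a b => Subtype.ext (hc _ a.2 _ b.2) }
  have := Fintype.ofFinite C'
  choose θ h1 h2 using hs
  let t : C' → V := fun x => ⟨θ x x.2, h1 x x.2⟩
  have co : ∀ x y, t (x * y) = t x * MulAut.conjNormal (x : G) (t y) := fun x y => by
    rw [mul_comm (t x), eq_comm, ← inv_mul_eq_one]
    refine Subtype.ext (hd _ (Subtype.property _) ?_)
    convert mul_mem (mul_mem (h2 x x.2) (h2 y y.2)) (inv_mem (h2 _ (x * y).2)) using 1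
    simp [t]; group
  have cop : Nat.Coprime (Fintype.card C') p := by
    rw [Nat.coprime_comm, hp.out.coprime_iff_not_dvd]
    intro h
    obtain ⟨x, hx⟩ := exists_prime_orderOf_dvd_card p h
    have : (x : G) = 1 := pq ⟨1, by
      rw [pow_one, ← hx]; exact_mod_cast congrArg Subtype.val (pow_orderOf_eq_one x)⟩ (hq x x.2)
    rw [show x = 1 from Subtype.ext this, orderOf_one] at hx
    exact hp.out.one_lt.ne hx
  obtain ⟨k, hk⟩ := Nat.exists_mul_mod_eq_one_of_coprime cop hp.out.one_lt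
  refine ⟨((∏ y, t y) ^ k : V), Subtype.property _, fun x hx => ?_⟩
  have e1 : ∏ y, t y = t ⟨x, hx⟩ ^ Fintype.card C' * MulAut.conjNormal x (∏ y, t y) := by
    rw [map_prod, ← Finset.card_univ, ← Finset.prod_const, ← Finset.prod_mul_distrib]
    exact (Fintype.prod_equiv (Equiv.mulLeft ⟨x, hx⟩) _ _ fun y => (co ⟨x, hx⟩ y).symm).symm
  have e2 : (∏ y, t y) ^ k = t ⟨x, hx⟩ * MulAut.conjNormal x ((∏ y, t y) ^ k) := by
    rw [map_pow]
    conv_lhs => rw [e1, mul_pow, ← pow_mul, ← pow_mod_orderOf]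
    have : t ⟨x, hx⟩ ^ p = 1 := Subtype.ext (he _ (h1 x hx))
    rw [pow_mod_orderOf, ← Nat.div_add_mod (_ * k) p, pow_add, pow_mul, this, hk.2]; simp
  have e3 := congrArg Subtype.val (e2.trans (mul_comm _ _))
  rw [Subgroup.coe_mul, MulAut.conjNormal_apply] at e3
  convert h2 x hx using 1
  nth_rw 1 [e3]
  simp [t]; group

theorem frat_step [Finite G] [hp : Fact p.Prime] (V K : Subgroup G) [V.Normal] [hK : K.Normal]
    (hf : V ≤ frattini G) (hc : ∀ a ∈ V, ∀ b ∈ V, a * b = b * a) (he : ∀ v ∈ V, v ^ p = 1)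
    (hVK : V ≤ K) (hq : ∀ k ∈ K, qe p (QuotientGroup.mk' V k)) :
    ∃ C : Subgroup G, C.Normal ∧ C ≤ K ∧ (∀ c ∈ C, qe p c) ∧ ∀ x ∈ K, ∃ v ∈ V, v⁻¹ * x ∈ C := by
  have h1 : IsPGroup p (V.subgroupOf K) := fun v => ⟨1, Subtype.ext (Subtype.ext (by
    simpa using he _ v.2))⟩
  obtain ⟨n, hn⟩ := IsPGroup.iff_card.1 h1
  obtain ⟨C, hC⟩ := Subgroup.exists_right_complement'_of_coprime (N := V.subgroupOf K) (by
    rw [hn]
    refine Nat.Coprime.pow_left _ (hp.out.coprime_iff_not_dvd.2 fun h => ?_)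
    obtain ⟨x, hx⟩ := exists_prime_orderOf_dvd_card' (G := K ⧸ V.subgroupOf K) p h
    obtain ⟨y, rfl⟩ := mk_surj _ x
    obtain ⟨m, h2, h3⟩ := hq y y.2
    rw [← map_pow, mk_one] at h3
    have : QuotientGroup.mk' (V.subgroupOf K) y = 1 := pq ⟨1, by rw [pow_one, ← hx, pow_orderOf_eq_one]⟩
      ⟨m, h2, by rw [← map_pow, mk_one]; exact h3⟩
    rw [this, orderOf_one] at hx
    exact hp.out.one_lt.ne hx)
  have hd : ∀ v ∈ V, v ∈ C.map K.subtype → v = 1 := by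
    rintro _ hv ⟨c, h2, rfl⟩
    exact congrArg Subtype.val (Subgroup.disjoint_def.1 hC.disjoint hv h2)
  have h2 : ∀ c ∈ C.map K.subtype, qe p c := by
    rintro _ ⟨c, h2, rfl⟩
    obtain ⟨m, h3, h4⟩ := hq c c.2
    rw [← map_pow, mk_one] at h4
    exact ⟨m, h3, hd _ h4 (pow_mem (Subgroup.mem_map_of_mem _ h2) m)⟩
  have h3 : ∀ x ∈ K, ∃ v ∈ V, v⁻¹ * x ∈ C.map K.subtype := fun x hx => by
    obtain ⟨⟨v, c⟩, e, -⟩ := Subgroup.IsComplement.existsUnique hC ⟨x, hx⟩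
    exact ⟨v.1, v.2, c, c.2, by rw [← show (v.1 : G) * c.1 = x from congrArg Subtype.val e]; simp⟩
  refine ⟨C.map K.subtype, ?_, Subgroup.map_subtype_le C, h2, h3⟩
  have h4 := Subgroup.map_subtype_le C
  generalize C.map K.subtype = D at *
  rw [← Subgroup.normalizer_eq_top_iff]
  refine frattini_nongenerating (eq_top_iff.2 fun g _ => ?_)
  obtain ⟨u, h5, h6⟩ := bary V D (D.map (MulAut.conj g).toMonoidHom) hc he hd
    (by rintro _ ⟨d, h, rfl⟩; exact (h2 d h).map _)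
    (by rintro _ ⟨d, h, rfl⟩; exact h3 _ (hK.conj_mem _ (h4 h) g))
  have : u⁻¹ * g ∈ Subgroup.normalizer (D : Set G) := Subgroup.mem_normalizer_fintype fun d h => by
    simpa [mul_assoc] using h6 _ ⟨d, h, rfl⟩
  simpa using mul_mem (Subgroup.mem_sup_right (hf h5)) (Subgroup.mem_sup_left this)

theorem frat_comp [hp : Fact p.Prime] [Finite G] (D K : Subgroup G) [D.Normal] [K.Normal]
    (hf : D ≤ frattini G) (hDK : D ≤ K) (hq : ∀ k ∈ K, qe p (QuotientGroup.mk' D k)) :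
    ∃ C : Subgroup G, C.Normal ∧ (∀ c ∈ C, qe p c) ∧ (∀ x ∈ K, qe p x → x ∈ C) ∧
      ∀ x ∈ K, ∃ v ∈ D, v⁻¹ * x ∈ C := by
  induction hn : Nat.card G using Nat.strong_induction_on generalizing G with
  | _ n ih =>
  by_cases h0 : D = ⊥
  · subst h0
    exact ⟨K, inferInstance, fun c hc => PE.of_ker _ (fun a ha => by
      rw [Subgroup.mem_bot.1 (mk_one.1 ha)]; exact PE.one) (hq c hc), fun _ h _ => h,
      fun x hx => ⟨1, one_mem _, by simpa⟩⟩
  have := frattini_nilpotent (G := G)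
  have : Group.IsNilpotent D := Group.nilpotent_of_mulEquiv (Subgroup.subgroupOfEquivOfLe hf)
  obtain ⟨q, hq', V, _, h1, h2, h3, h4, -⟩ := min_nil D h0
  let f := QuotientGroup.mk' V
  have : (D.map f).Normal := Subgroup.Normal.map inferInstance _ (mk_surj _)
  have : (K.map f).Normal := Subgroup.Normal.map inferInstance _ (mk_surj _)
  obtain ⟨C, _, c1, c2, c3⟩ := ih _ (hn ▸ card_quo_lt h2) (D.map f) (K.map f)
    (Subgroup.map_le_iff_le_comap.2 (hf.trans (frattini_le_comap_frattini_of_surjective (mk_surj V))))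
    (Subgroup.map_mono hDK) (by
      rintro _ ⟨k, hk, rfl⟩
      exact (hq k hk).imp fun m e => ⟨e.1, by
        rw [← map_pow, ← map_pow, mk_one]
        exact ⟨_, mk_one.1 (by rw [map_pow, e.2]), rfl⟩⟩) rfl
  have c4 : ∀ x ∈ K, ∃ v ∈ D, v⁻¹ * x ∈ C.comap f := fun x hx => by
    obtain ⟨_, ⟨v, hv, rfl⟩, e⟩ := c3 _ ⟨x, hx, rfl⟩
    exact ⟨v, hv, by simpa using e⟩
  by_cases e : q = p
  · subst e
    obtain ⟨E, _, -, e2, e3⟩ := frat_step V (C.comap f) (h1.trans hf) (fun a ha b hb => h3 b hb a (h1 ha))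
      h4 (fun v hv => by rw [Subgroup.mem_comap, mk_one.2 hv]; exact one_mem _) fun k hk => c1 _ hk
    refine ⟨E, inferInstance, e2, fun x hx h => pe_mem h ?_, fun x hx => ?_⟩
    · obtain ⟨v, hv, e⟩ := e3 x (c2 _ ⟨x, hx, rfl⟩ (h.map f))
      rw [← mul_inv_cancel_left v x, map_mul, mk_one.2 e, mul_one]
      exact (show pe q v from ⟨1, by simpa using h4 v hv⟩).map _
    · obtain ⟨v, hv, e⟩ := c4 x hx
      obtain ⟨w, hw, e'⟩ := e3 _ e
      exact ⟨v * w, mul_mem hv (h1 hw), by simpa [mul_assoc] using e'⟩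
  · exact ⟨C.comap f, inferInstance, fun c hc => PE.of_ker f (fun a ha =>
      ⟨q ^ 1, PN.pw hq' e 1, by simpa using h4 a (mk_one.1 ha)⟩) (c1 _ hc),
      fun x hx h => c2 _ ⟨x, hx, rfl⟩ (h.map f), c4⟩

theorem frat_qe [Fact p.Prime] [Finite G] (h : ∀ g : G ⧸ frattini G, qe p g) (g : G) : qe p g := by
  obtain ⟨C, -, h1, -, h2⟩ := frat_comp (p := p) (frattini G) ⊤ le_rfl le_top fun k _ => h _
  have : C = ⊤ := frattini_nongenerating (eq_top_iff.2 fun x _ => by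
    obtain ⟨v, hv, e⟩ := h2 x trivial
    simpa using mul_mem (Subgroup.mem_sup_right hv) (Subgroup.mem_sup_left e))
  exact h1 g (this ▸ trivial)

theorem frat_mc [Fact p.Prime] [Finite G] {N : Subgroup (G ⧸ frattini G)} [N.Normal]
    (h : MC (· ≠ p) N) : MC (· ≠ p) (N.comap (QuotientGroup.mk' (frattini G))) := by
  obtain ⟨C, -, h1, h2, -⟩ := frat_comp (p := p) (frattini G) (h.sub.comap (QuotientGroup.mk' _))
    le_rfl (fun v hv => by rw [Subgroup.mem_comap, mk_one.2 hv]; exact one_mem _) fun k hk => hk.2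
  exact fun a ha b hb x y => h1 _ (mul_mem (h2 a ⟨ha, x.map _⟩ x) (h2 b ⟨hb, y.map _⟩ y))

end Pool.Agent.H68.Sat
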