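import Pool.Agent.H68.Sat6

set_option autoImplicit false

namespace Pool.Agent.H68.Sat

open Function SemidirectProduct Pool.Agent.H68.Fit
open scoped commutatorElement

variable {H : (G : Type) → [Group G] → Prop}
variable {G A B D : Type} [Group G] [Group A] [Group B] [Group D] {p : ℕ}

theorem bbh (hH : FO H) [Finite G] {V X : Type} [CommGroup V] [Finite V] [Group X]
    {φ : X →* MulAut V} (κ : G →* V ⋊[φ] X) (hκ : Surjective (rightHom.comp κ))
    (h : H (V ⋊[φ] X)) {r : G} (hr : r ∈ Res H G) : κ r = 1 := by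
  let ψ := φ.comp (rightHom.comp κ)
  obtain ⟨w, hw, rfl⟩ := hH.res_surj (rightHom (φ := pr ψ ψ)) rightHom_surjective hr
  have key : ∀ a : V × V →* V, (∀ g x, a (pr ψ ψ g x) = ψ g (a x)) → Surjective a →
      inl (a w.left) * κ w.right = 1 := fun a h1 h2 => by
    refine hH.toFm.res_le (SemidirectProduct.lift (φ := pr ψ ψ) (inl.comp a) κ fun g => ?_)
      (fun y => ?_) h hw
    · refine MonoidHom.ext fun x => ?_
      change inl (a (pr ψ ψ g x)) = κ g * inl (a x) * (κ g)⁻¹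
      rw [h1]; ext <;> simp [ψ, mul_comm]
    · obtain ⟨g, hg⟩ := hκ y.right
      obtain ⟨x, hx⟩ := h2 (y.left * (κ g).left⁻¹)
      refine ⟨⟨x, g⟩, ?_⟩
      change inl (a x) * κ g = y
      ext
      · simp [hx]
      · simpa using hg
  have h1 := key (MonoidHom.fst V V) (fun _ _ => rfl) Prod.fst_surjective
  have h2 := key (MonoidHom.snd V V) (fun _ _ => rfl) Prod.snd_surjective
  have h3 := key (MonoidHom.fst V V * MonoidHom.snd V V) (fun g x => (map_mul (ψ g) _ _).symm)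
    fun v => ⟨(v, 1), by simp⟩
  rw [MonoidHom.mul_apply, map_mul, mul_assoc, h2, mul_one] at h3
  rwa [h3, one_mul] at h1

def Jj (H : (G : Type) → [Group G] → Prop) (G : Type) [Group G] : Subgroup G where
  carrier := {r | ∀ (A : Type) [Group A] [Finite A], ((1, r) : A × G) ∈ Res H (A × G)}
  one_mem' := fun _ _ _ => one_mem _
  mul_mem' := fun ha hb A _ _ => by simpa using mul_mem (ha A) (hb A)
  inv_mem' := fun ha A _ _ => by simpa using inv_mem (ha A)

theorem mem_jj (hH : FO H) [Finite G] (α : G →* G) (hα : Surjective α) {r : G} (hr : r ∈ Res H G) :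
    α r * r⁻¹ ∈ Jj H G := fun A _ _ => by
  obtain ⟨⟨a, _⟩, hw, rfl⟩ := hH.res_surj (MonoidHom.snd A G) Prod.snd_surjective hr
  simpa using mul_mem (hH.res_map ((MonoidHom.id A).prodMap α) (surjective_id.prodMap hα) hw)
    (inv_mem hw)

def Nab (H : (G : Type) → [Group G] → Prop) (S : Type) [Group S] : Prop :=
  (∃ s : S, s ≠ 1) ∧ ∃ (G : Type) (_ : Group G) (_ : Finite G) (ξ : Res H G →* S),
    ∀ s, ∃ r : Res H G, ξ r = s ∧ (r : G) ∈ Jj H G

def Perf (H : (G : Type) → [Group G] → Prop) (D : Type) [Group D] : Prop :=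
  ∀ N : Subgroup D, N.Normal → N ≠ ⊤ → ∃ (S : Type) (_ : Group S) (σ : D →* S),
    Surjective σ ∧ (∀ n ∈ N, σ n = 1) ∧ Nab H S

theorem smul_res {Y : Subgroup G} [Y.Normal] {g : G} (hg : g ∈ Y) (ω : G ⧸ Y) : g⁻¹ • ω = ω := by
  obtain ⟨x, rfl⟩ := mk_surj Y ω
  change QuotientGroup.mk' Y (g⁻¹ * x) = _
  rw [map_mul, map_inv, mk_one.2 hg, inv_one, one_mul]

theorem cc_surj {Y : Subgroup G} [hY : Y.Normal] (ω : G ⧸ Y) (y : Y) : ∃ g ∈ Y, cc Y g ω = y :=
  ⟨_, hY.conj_mem _ y.2 ω.out, Subtype.ext (by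
    simp only [cc]; rw [smul_res (hY.conj_mem _ y.2 _)]; group)⟩

theorem nab_comm (hH : FO H) [Finite G] {S : Type} [CommGroup S] [Finite S] (ξ : Res H G →* S)
    (h1 : ∃ r, ξ r ≠ 1) (h2 : ∀ K : Subgroup S, K = ⊥ ∨ K = ⊤) : Nab H S := by
  let X := G ⧸ Res H G
  let φ : X →* MulAut (X → S) := tw MulAction.toEndHom 1
  have h3 : ¬ H ((X → S) ⋊[φ] X) := fun h => by
    let κ : G →* (X → S) ⋊[φ] X := MonoidHom.mk' (fun g => ⟨fun ω => ξ (cc _ g ω), g⟩) fun a b => by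
      refine SemidirectProduct.ext (funext fun ω => ?_) rfl
      change ξ (cc _ (a * b) ω) = ξ (cc _ a ω) * ξ (cc _ b (a⁻¹ • ω))
      rw [← map_mul]
      exact congrArg ξ (Subtype.ext (by simp [cc, mul_smul, mul_assoc]))
    obtain ⟨r, hr⟩ := h1
    obtain ⟨g, hg, rfl⟩ := cc_surj (1 : X) r
    exact hr (congrFun (congrArg SemidirectProduct.left (bbh hH κ (mk_surj _) h hg)) 1)
  have h4 : ∀ {V : Type} [Group V] {ψ : X →* MulAut V} {w : V ⋊[ψ] X}, w ∈ Res H _ → w.right = 1 :=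
    fun hw => hH.toFm.res_le rightHom rightHom_surjective hH.res_mem hw
  obtain ⟨w, hw, x, hx⟩ : ∃ w ∈ Res H ((X → S) ⋊[φ] X), ∃ x, w.left x ≠ 1 := by
    by_contra hc
    push Not at hc
    exact h3 (hH.of_res fun w hw => SemidirectProduct.ext (funext (hc w hw)) (h4 hw))
  obtain ⟨u, hu, rfl⟩ := hH.res_surj (SemidirectProduct.map (φ₁ := pr φ φ) (MonoidHom.snd _ _)
    (MonoidHom.id X) fun _ => rfl) (fun y => ⟨⟨(1, y.left), y.right⟩, rfl⟩) hw
  let ζ : Res H (((X → S) × (X → S)) ⋊[pr φ φ] X) →* S := MonoidHom.mk' (fun w => w.1.left.1 x)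
    fun a b => by simp [h4 a.2]
  let α := SemidirectProduct.map (φ₁ := pr φ φ) (φ₂ := pr φ φ)
    ((MonoidHom.fst (X → S) _ * MonoidHom.snd _ (X → S)).prod (MonoidHom.snd _ _)) (MonoidHom.id X) fun g =>
      MonoidHom.ext fun y => Prod.ext (map_mul (φ g) _ _).symm rfl
  have hα : Surjective α := fun y => ⟨⟨(y.left.1 * y.left.2⁻¹, y.left.2), y.right⟩,
    SemidirectProduct.ext (Prod.ext (by simp [α]) rfl) rfl⟩
  refine ⟨⟨_, hx⟩, _, _, inferInstance, ζ, fun s => ?_⟩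
  rcases h2 (((Jj H _).subgroupOf _).map ζ) with e | e
  · have : ζ ⟨_, mul_mem (hH.res_map α hα hu) (inv_mem hu)⟩ ∈ ((Jj H _).subgroupOf _).map ζ :=
      ⟨_, mem_jj hH α hα hu, rfl⟩
    rw [e, Subgroup.mem_bot] at this
    refine absurd (Eq.trans ?_ this) hx
    simp [ζ, α, h4 hu]
  · obtain ⟨r, a, b⟩ := e.ge (Subgroup.mem_top s)
    exact ⟨r, b, a⟩

theorem perf_res (hH : FO H) [Finite G] : Perf H (Res H G) := by
  intro N hN h1
  rcases eq_top_or_exists_le_coatom (N ⊔ commutator (Res H G)) with e | ⟨L, hL, hle⟩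
  · refine ⟨_, _, _, mk_surj N, fun _ h => mk_one.2 h, ?_, G, _, inferInstance,
      QuotientGroup.mk' N, fun s => ?_⟩
    · by_contra hc
      push Not at hc
      exact h1 (eq_top_iff.2 fun g _ => mk_one.1 (hc _))
    obtain ⟨g, rfl⟩ := mk_surj N s
    obtain ⟨n, hn, c, hc, rfl⟩ := Subgroup.mem_sup_of_normal_left.1 (e.ge (Subgroup.mem_top g))
    refine ⟨c, by rw [map_mul, mk_one.2 hn, one_mul], ?_⟩
    refine (Subgroup.commutator_le.2 fun a _ b _ => ?_ :
      commutator _ ≤ (Jj H G).subgroupOf (Res H G)) hc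
    exact mem_jj hH (MulAut.conj (a : G)).toMonoidHom (MulEquiv.surjective _) b.2
  have hc : ∀ a b, ⁅a, b⁆ ∈ L := fun a b => hle (Subgroup.mem_sup_right
    (Subgroup.commutator_mem_commutator (Subgroup.mem_top a) (Subgroup.mem_top b)))
  have : L.Normal := ⟨fun n hn g => by simpa [commutatorElement_def] using mul_mem (hc g n) hn⟩
  let _ : CommGroup (Res H G ⧸ L) :=
    { (inferInstance : Group (Res H G ⧸ L)) with
      mul_comm := fun a b => by
        obtain ⟨a, rfl⟩ := mk_surj L a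
        obtain ⟨b, rfl⟩ := mk_surj L b
        rw [← commutatorElement_eq_one_iff_mul_comm, ← map_commutatorElement, mk_one]
        exact hc a b }
  refine ⟨_, _, _, mk_surj L, fun n hn => mk_one.2 (hle (Subgroup.mem_sup_left hn)),
    nab_comm hH (QuotientGroup.mk' L) ?_ fun K => ?_⟩
  · by_contra hc
    push Not at hc
    exact hL.1 (eq_top_iff.2 fun g _ => mk_one.1 (hc _))
  rcases hL.le_iff.1 (show L ≤ K.comap (QuotientGroup.mk' L) from fun x hx => by
    rw [Subgroup.mem_comap, mk_one.2 hx]; exact one_mem _) with e | e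
  · exact Or.inr (eq_top_iff.2 fun s _ => by
      obtain ⟨g, rfl⟩ := mk_surj L s; exact e.ge (Subgroup.mem_top g))
  · exact Or.inl (eq_bot_iff.2 fun s hs => by
      obtain ⟨g, rfl⟩ := mk_surj L s; exact mk_one.2 (e.le hs))

theorem twist (hH : FO H) [Finite G] [Finite D] (hD : Perf H D) (ψ : D →* Res H G)
    (hψ : Surjective ψ) : ∃ (W : Type) (_ : Group W) (_ : Finite W) (π : W →* G) (ι : Type)
      (ε : ι → Res H W →* D) (x : ι), Surjective π ∧ (∀ y, Surjective (ε y)) ∧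
      (∀ w, (∀ y, ε y w = 1) → w = 1) ∧ ∀ w : Res H W, π w = ψ (ε x w) := by
  obtain ⟨_, ⟨E, _, _, ρ, Q, _, χ, ξ, ω, h1, h2, h3, h4, h5, rfl⟩, hm⟩ :=
    (wellFounded_lt (α := Subgroup D)).has_min
    {K | ∃ (E : Type) (_ : Group E) (_ : Finite E) (ρ : E →* G) (Q : Type) (_ : Group Q)
      (χ : D →* Q) (ξ : Res H E →* Q) (ω : Q →* G), Surjective ρ ∧ Surjective χ ∧ Surjective ξ ∧
      (∀ d, ω (χ d) = ψ d) ∧ (∀ r, ω (ξ r) = ρ r) ∧ K = χ.ker}
    ⟨_, G, _, inferInstance, MonoidHom.id G, _, _, ψ, MonoidHom.id _, Subgroup.subtype _,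
      surjective_id, hψ, surjective_id, fun _ => rfl, fun _ => rfl, rfl⟩
  have hmin : ∀ N : Subgroup D, N.Normal → (∀ q, ∃ n ∈ N, χ n = q) → N = ⊤ := by
    intro N hN h
    by_contra hn
    obtain ⟨S, _, σ, a1, a2, ⟨s, hs⟩, G', _, _, ξ', a3⟩ := hD N hN hn
    have a4 : Surjective (χ.prod σ) := fun ⟨q, s⟩ => by
      obtain ⟨d, rfl⟩ := a1 s
      obtain ⟨n, b1, b2⟩ := h (q * (χ d)⁻¹)
      exact ⟨n * d, by simp [b2, a2 n b1]⟩
    refine hm _ ⟨E × G', _, inferInstance, ρ.comp (MonoidHom.fst _ _), Q × S, _, χ.prod σ,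
      (ξ.comp (hH.rs (MonoidHom.fst _ _) Prod.fst_surjective)).prod
        (ξ'.comp (hH.rs (MonoidHom.snd _ _) Prod.snd_surjective)), ω.comp (MonoidHom.fst _ _),
      h1.comp Prod.fst_surjective, a4, fun ⟨q, t⟩ => ?_, h4, fun r => h5 _, rfl⟩
      (lt_of_le_of_ne (fun d hd => congrArg Prod.fst hd) fun e => ?_)
    · obtain ⟨w, hw⟩ := (h3.comp (hH.rs_surj (MonoidHom.fst E G') Prod.fst_surjective)) q
      obtain ⟨r, b1, b2⟩ := a3 (t * (ξ' (hH.rs (MonoidHom.snd _ _) Prod.snd_surjective w))⁻¹)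
      refine ⟨⟨_, b2 E⟩ * w, ?_⟩
      rw [map_mul]
      refine Prod.ext ?_ ?_
      · exact (congrArg (· * _) (map_one ξ)).trans ((one_mul _).trans hw)
      · exact (congrArg (· * _) b1).trans (inv_mul_cancel_right _ _)
    · obtain ⟨d, hd⟩ := a4 (1, s)
      have : d ∈ (χ.prod σ).ker := e.ge (congrArg Prod.fst hd)
      exact hs (congrArg Prod.snd (hd.symm.trans this))
  have hk : ∀ y, ∃ d, χ d = ξ y := fun y => h2 _
  let R := Res H E
  let π' := rightHom.comp (KK R χ ξ).subtype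
  let f : KK R χ ξ →* ((E ⧸ R → D) ⋊[tw MulAction.toEndHom 1] (E ⧸ R)) × G :=
    ((SemidirectProduct.map (MonoidHom.id _) (QuotientGroup.mk' R) fun _ => rfl).comp
      (KK R χ ξ).subtype).prod (ρ.comp π')
  have r1 : ∀ w : Res H f.range, w.1.1.1.right = 1 := fun w => by
    refine hH.toFm.res_le ((rightHom.comp (MonoidHom.fst _ _)).comp f.range.subtype) (fun x => ?_)
      hH.res_mem w.2
    obtain ⟨u, hu⟩ := ((mk_surj R).comp (kk_surj hk)) x
    exact ⟨⟨_, u, rfl⟩, hu⟩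
  let ε : E ⧸ R → Res H f.range →* D := fun y => MonoidHom.mk' (fun w => w.1.1.1.left y)
    fun a b => by simp [r1 a]
  have lf : ∀ w : Res H f.range, ∃ u ∈ Res H (KK R χ ξ), f u = w.1.1 := fun w => by
    obtain ⟨u, h, e⟩ := hH.res_surj _ f.rangeRestrict_surjective w.2
    exact ⟨u, h, congrArg Subtype.val e⟩
  have pe : ∀ (w : Res H f.range) y, ω (χ (ε y w)) = (ρ y.out)⁻¹ * w.1.1.2 * ρ y.out := by
    intro w y
    obtain ⟨u, b1, b2⟩ := lf w
    have := u.2 y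
    change ω (χ (w.1.1.1.left y)) = _
    rw [← b2]
    refine (congrArg ω this).trans ((h5 _).trans ?_)
    simp only [cc]
    rw [smul_res (g := u.1.right) (hH.res_map π' (kk_surj hk) b1), map_mul, map_mul, map_inv]; rfl
  let c := MulAut.conj (ρ (1 : E ⧸ R).out)⁻¹
  refine ⟨f.range, _, inferInstance,
    c.toMonoidHom.comp ((MonoidHom.snd _ _).comp f.range.subtype), _, ε, 1, ?_, fun y => ?_,
    fun w h => ?_, fun w => ?_⟩
  · refine c.surjective.comp fun g => ?_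
    obtain ⟨u, hu⟩ := (h1.comp (kk_surj hk)) g
    exact ⟨⟨_, u, rfl⟩, hu⟩
  · refine MonoidHom.range_eq_top.1 (hmin _ ⟨?_⟩ fun q => ?_)
    · rintro _ ⟨w, rfl⟩ d
      obtain ⟨r, hr⟩ := h3 (χ d)
      obtain ⟨g, b1, rfl⟩ := cc_surj y r
      obtain ⟨u, b2, b3⟩ := kk_ex hk g y d hr.symm
      refine ⟨⟨_, Subgroup.Normal.conj_mem inferInstance _ w.2 (f.rangeRestrict u)⟩, ?_⟩
      have : (f u).1.right = 1 := mk_one.2 (b2 ▸ b1)
      have b4 : (f u).1.left y = d := b3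
      simp [ε, this, r1 w, b4]
    · obtain ⟨r, rfl⟩ := h3 q
      obtain ⟨g, b1, rfl⟩ := cc_surj y r
      obtain ⟨u, b2, rfl⟩ := hH.res_surj π' (kk_surj hk) b1
      exact ⟨_, ⟨⟨_, hH.res_map _ f.rangeRestrict_surjective b2⟩, rfl⟩, u.2 y⟩
  · refine Subtype.ext (Subtype.ext (Prod.ext (SemidirectProduct.ext (funext h) (r1 w)) ?_))
    have := pe w 1
    rw [h, map_one, map_one, eq_comm, mul_assoc, inv_mul_eq_one] at this
    simpa using this
  · rw [← h4, pe]; simp [c]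

end Pool.Agent.H68.Sat
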