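import Pool.Agent.H68.Sat6

set_option autoImplicit false

namespace Pool.Agent.H68.Sat

open Function SemidirectProduct Pool.Agent.H68.Fit
open scoped commutatorElement

variable {G A B : Type} [Group G] [Group A] [Group B] {p : ℕ}

open Polynomial in
theorem eigen0 [hp : Fact p.Prime] {V : Type} [AddCommGroup V] [Module (ZMod p) V]
    (F : Module.End (ZMod p) V) (u : V) (hf : F^[p] u = F u) (hu : u ≠ 0) :
    ∃ v ≠ 0, ∃ k : ℕ, F v = k • v := by
  by_contra hc
  push Not at hc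
  have h1 : ∀ s : Multiset (ZMod p), Injective (aeval F (s.map fun a => X - C a).prod) := by
    intro s
    induction s using Multiset.induction_on with
    | empty => simp only [Multiset.map_zero, Multiset.prod_zero, map_one]; exact injective_id
    | cons a s ih =>
      rw [Multiset.map_cons, Multiset.prod_cons, map_mul]
      refine Injective.comp (g := aeval F (X - C a)) ((injective_iff_map_eq_zero _).2 fun v hv => ?_) ih
      by_contra h
      refine hc v h a.val ?_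
      have : F v = a • v := by simpa [sub_eq_zero] using hv
      rwa [← ZMod.natCast_zmod_val a, Nat.cast_smul_eq_nsmul] at this
  have h2 := h1 Finset.univ.val
  have h3 := FiniteField.roots_X_pow_card_sub_X (ZMod p)
  rw [ZMod.card] at h3
  rw [← h3, prod_multiset_X_sub_C_of_monic_of_roots_card_eq
    (monic_X_pow_sub (by simpa using hp.out.one_lt))
    (by rw [h3, FiniteField.X_pow_card_sub_X_natDegree_eq _ hp.out.one_lt]; simp)] at h2
  refine hu (h2 ?_)
  rw [map_zero, map_sub, map_pow, aeval_X, LinearMap.sub_apply, sub_eq_zero, Module.End.pow_apply]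
  exact hf

theorem eigen [hp : Fact p.Prime] {V : Type} [CommGroup V] (he : ∀ v : V, v ^ p = 1) (f : V →* V)
    (hf : ∀ v, f^[p] v = f v) (u : V) (hu : u ≠ 1) : ∃ v ≠ 1, ∃ k : ℕ, f v = v ^ k :=
  letI : Module (ZMod p) (Additive V) := AddCommGroup.zmodModule fun x => he x.toMul
  eigen0 (f.toAdditive.toZModLinearMap p) (Additive.ofMul u) (hf u) hu

theorem cyc_min [hp : Fact p.Prime] (V : Subgroup G) [hV : V.Normal] (h0 : V ≠ ⊥)
    (hc : ∀ a ∈ V, ∀ b ∈ V, a * b = b * a) (he : ∀ v ∈ V, v ^ p = 1)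
    (hm : ∀ W : Subgroup G, W.Normal → W ≤ V → W = ⊥ ∨ W = V)
    (h1 : ∀ g h : G, ∀ v ∈ V, Commute ⁅g, h⁆ v) (h2 : ∀ g : G, ∀ v ∈ V, Commute (g ^ (p - 1)) v) :
    ∃ v, V = Subgroup.zpowers v := by
  let _ : CommGroup V :=
    { (inferInstance : Group V) with mul_comm := fun a b => Subtype.ext (hc _ a.2 _ b.2) }
  obtain ⟨u, hu⟩ := (Subgroup.ne_bot_iff_exists_ne_one).1 h0
  refine ⟨u, ((hm _ ⟨?_⟩ (Subgroup.zpowers_le.2 u.2)).resolve_left fun e => hu
    (Subtype.ext (Subgroup.zpowers_eq_bot.1 e))).symm⟩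
  rintro _ ⟨i, rfl⟩ g
  obtain ⟨v, h3, k, h4⟩ := eigen (p := p) (fun v : V => Subtype.ext (he _ v.2))
    (MulAut.conjNormal g).toMonoidHom (fun v => by
      have : ∀ n, ((MulAut.conjNormal g).toMonoidHom^[n] v : V) = MulAut.conjNormal (g ^ n) v :=
        fun n => by
          induction n with
          | zero => simp
          | succ n ih => rw [iterate_succ_apply', ih, pow_succ', map_mul]; rfl
      rw [this, ← Nat.succ_pred_eq_of_pos hp.out.pos, pow_succ', map_mul]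
      exact congrArg (MulAut.conjNormal g) (Subtype.ext
        (mul_inv_eq_iff_eq_mul.2 (h2 g v v.2).eq))) u hu
  let W : Subgroup G := (((MulAut.conjNormal g).toMonoidHom).eqLocus (powMonoidHom k)).map V.subtype
  have hW : W.Normal := ⟨by
    rintro _ ⟨w, hw, rfl⟩ h
    have hw : g * w * g⁻¹ = w ^ k := congrArg Subtype.val hw
    refine ⟨MulAut.conjNormal h w, Subtype.ext ?_, rfl⟩
    change g * (h * w * h⁻¹) * g⁻¹ = (h * w * h⁻¹) ^ k
    rw [conj_pow, ← hw]
    have := (h1 g⁻¹ h⁻¹ w w.2).eq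
    calc _ = h * g * (⁅g⁻¹, h⁻¹⁆ * w) * h⁻¹ * g⁻¹ := by group
      _ = _ := by rw [this]; group⟩
  have := (hm W hW (Subgroup.map_subtype_le _)).resolve_left fun e =>
    h3 (Subtype.ext (Subgroup.mem_bot.1 (e.le ⟨v, h4, rfl⟩)))
  obtain ⟨w, hw, e⟩ := this.ge u.2
  obtain rfl : w = u := Subtype.ext e
  have hw : g * w * g⁻¹ = w ^ k := congrArg Subtype.val hw
  change g * (w : G) ^ i * g⁻¹ ∈ _
  rw [← conj_zpow, hw]
  exact zpow_mem (pow_mem (Subgroup.mem_zpowers _) k) i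

inductive Cs {G : Type} [Group G] : Subgroup G → Prop
  | bot : Cs ⊥
  | step (N L : Subgroup G) (g : G) : Cs N → N.Normal → L.Normal → N ≤ L → g ∈ L →
      (∀ x ∈ L, ∃ k : ℤ, x * (g ^ k)⁻¹ ∈ N) → Cs L

/-- supersoluble -/
def SS (G : Type) [Group G] : Prop := Cs (⊤ : Subgroup G)

theorem Cs.map {N : Subgroup G} (h : Cs N) (f : G →* A) (hf : Surjective f) : Cs (N.map f) := by
  induction h with
  | bot => rw [Subgroup.map_bot]; exact Cs.bot
  | step N L g _ a b c d e ih =>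
    refine ih.step _ _ (f g) (a.map f hf) (b.map f hf) (Subgroup.map_mono c) ⟨g, d, rfl⟩ ?_
    rintro _ ⟨x, hx, rfl⟩
    exact (e x hx).imp fun k h => ⟨_, h, by simp⟩

theorem SS.surj (h : SS G) (f : G →* A) (hf : Surjective f) : SS A := by
  have := Cs.map h f hf
  rwa [Subgroup.map_top_of_surjective f hf] at this

theorem SS.ext (f : G →* A) (hf : Surjective f) {v : G} (hv : f.ker = Subgroup.zpowers v)
    (h : SS A) : SS G := by
  have : ∀ N : Subgroup A, Cs N → Cs (N.comap f) := fun N hN => by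
    induction hN with
    | bot =>
      refine Cs.bot.step _ _ v inferInstance inferInstance bot_le
        (hv.ge (Subgroup.mem_zpowers v)) fun x hx => ?_
      obtain ⟨k, rfl⟩ := hv.le hx
      exact ⟨k, by simp⟩
    | step N L g _ a b c d e ih =>
      obtain ⟨g, rfl⟩ := hf g
      exact ih.step _ _ g inferInstance inferInstance (Subgroup.comap_mono c) d fun x hx =>
        (e _ hx).imp fun k h => by simpa using h
  exact this ⊤ h

theorem Cs.cyc {N : Subgroup G} (h : Cs N) (V : Subgroup G) [V.Normal] (h0 : N ⊓ V ≠ ⊥) :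
    ∃ w ∈ V, w ≠ 1 ∧ (Subgroup.zpowers w).Normal := by
  induction h with
  | bot => simp at h0
  | step N L g _ a b c d e ih =>
    by_cases h1 : N ⊓ V = ⊥
    swap
    · exact ih h1
    have : IsCyclic ↥(L ⊓ V) := isCyclic_of_injective
      (((QuotientGroup.mk' N).comp (L ⊓ V).subtype).codRestrict
        (Subgroup.zpowers (QuotientGroup.mk' N g)) fun x => by
          obtain ⟨k, hk⟩ := e x x.2.1
          exact ⟨k, Eq.symm (by simpa [mul_inv_eq_one] using mk_one.2 hk)⟩)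
      ((injective_iff_map_eq_one _).2 fun x hx => Subtype.ext
        (Subgroup.mem_bot.1 (h1.le ⟨mk_one.1 (congrArg Subtype.val hx), x.2.2⟩)))
    obtain ⟨w, hw⟩ := (Subgroup.isCyclic_iff_exists_zpowers_eq_top _).1 this
    exact ⟨w, (hw.le (Subgroup.mem_zpowers w)).2, fun e' => h0 (by rw [← hw, e']; simp),
      hw ▸ inferInstance⟩

theorem cyc_comm {w : G} (h : (Subgroup.zpowers w).Normal) (a b : G) : Commute ⁅a, b⁆ w := by
  obtain ⟨k, hk⟩ := h.conj_mem _ (Subgroup.mem_zpowers w) a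
  obtain ⟨l, hl⟩ := h.conj_mem _ (Subgroup.mem_zpowers w) b
  have hk : w ^ k = a * w * a⁻¹ := hk
  have hl : w ^ l = b * w * b⁻¹ := hl
  have h1 : a * (b * w * b⁻¹) * a⁻¹ = b * (a * w * a⁻¹) * b⁻¹ := by
    rw [← hk, ← hl, ← conj_zpow, ← conj_zpow, ← hk, ← hl, zpow_comm]
  obtain ⟨m, hm⟩ := h.conj_mem _ (Subgroup.mem_zpowers w) (b * a)⁻¹
  have hm : w ^ m = (b * a)⁻¹ * w * (b * a)⁻¹⁻¹ := hm
  have h2 : a * b * w * (a * b)⁻¹ = b * a * w * (b * a)⁻¹ := by
    simpa [mul_assoc] using h1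
  have h3 := congrArg (· ^ m) h2
  simp only [conj_zpow, hm] at h3
  calc ⁅a, b⁆ * w = a * b * ((b * a)⁻¹ * w * (b * a)⁻¹⁻¹) * (a * b)⁻¹ * ⁅a, b⁆ := by group
    _ = _ := by rw [h3]; group

theorem cyc_pow [hp : Fact p.Prime] {w : G} (h : (Subgroup.zpowers w).Normal) (he : w ^ p = 1)
    (a : G) : Commute (a ^ (p - 1)) w := by
  by_cases h0 : w = 1
  · simp [h0]
  obtain ⟨k, hk⟩ := h.conj_mem _ (Subgroup.mem_zpowers w) a
  have hk : w ^ k = a * w * a⁻¹ := hk
  have h1 : ∀ n : ℕ, a ^ n * w * (a ^ n)⁻¹ = w ^ k ^ n := fun n => by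
    induction n with
    | zero => simp
    | succ n ih => rw [pow_succ' k, zpow_mul, hk, conj_zpow, ← ih, pow_succ']; group
  have h2 : IsCoprime k p := (Int.isCoprime_iff_gcd_eq_one.2 ?_)
  · obtain ⟨c, hc⟩ := (Int.ModEq.pow_card_sub_one_eq_one hp.out h2).symm.dvd
    have := h1 (p - 1)
    rw [sub_eq_iff_eq_add.1 hc, zpow_add, zpow_mul, zpow_natCast, he, one_zpow, one_mul,
      zpow_one] at this
    exact mul_inv_eq_iff_eq_mul.1 this
  rw [Int.gcd_comm]
  refine (Nat.Prime.coprime_iff_not_dvd hp.out).2 fun hd => h0 ?_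
  obtain ⟨c, rfl⟩ := Int.natCast_dvd.2 hd
  rw [zpow_mul, zpow_natCast, he, one_zpow] at hk
  simpa using hk.symm

theorem SS.nil (h : SS G) : Group.IsNilpotent (commutator G) := by
  have : ∀ N : Subgroup G, Cs N → ∃ k, (fun I => ⁅I, commutator G⁆)^[k] N = ⊥ := fun N hN => by
    induction hN with
    | bot => exact ⟨0, rfl⟩
    | step N L g _ a b c d e ih =>
      obtain ⟨k, hk⟩ := ih
      refine ⟨k + 1, le_bot_iff.1 (hk ▸ Monotone.iterate
        (fun _ _ h => Subgroup.commutator_mono h le_rfl) k ?_)⟩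
      refine Subgroup.commutator_le.2 fun x hx y hy => mk_one.1 ?_
      have h1 : (Subgroup.zpowers (QuotientGroup.mk' N g)).Normal := ⟨by
        rintro _ ⟨i, rfl⟩ z
        obtain ⟨z, rfl⟩ := mk_surj N z
        obtain ⟨k, hk⟩ := e _ (b.conj_mem _ (zpow_mem d i) z)
        exact ⟨k, Eq.symm (by simpa [mul_inv_eq_one] using mk_one.2 hk)⟩⟩
      have h2 : commutator G ≤ (Subgroup.centralizer {QuotientGroup.mk' N g}).comap
          (QuotientGroup.mk' N) := Subgroup.commutator_le.2 fun u _ v _ => by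
        rw [Subgroup.mem_comap, Subgroup.mem_centralizer_singleton_iff, map_commutatorElement]
        exact cyc_comm h1 _ _
      obtain ⟨k, hk⟩ := e x hx
      have h3 : QuotientGroup.mk' N x = QuotientGroup.mk' N g ^ k := by
        simpa [mul_inv_eq_one] using mk_one.2 hk
      rw [map_commutatorElement, h3]
      exact (Commute.zpow_right (Subgroup.mem_centralizer_singleton_iff.1 (h2 hy)) k).symm.commutator_eq
  obtain ⟨k, hk⟩ := this ⊤ h
  refine (Subgroup.isNilpotent_iff_lowerCentralSeries _).2 ⟨k, le_bot_iff.1 (hk ▸ ?_)⟩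
  clear hk
  induction k with
  | zero => exact le_top
  | succ k ih => rw [iterate_succ_apply']; exact Subgroup.commutator_mono ih le_rfl

theorem mc_pe [Fact p.Prime] {q : ℕ} (hq : q.Prime) {N : Subgroup G} (h : ∀ g ∈ N, pe q g) :
    MC (· ≠ p) N := fun a ha b hb x y => by
  by_cases e : q = p
  · subst e
    rw [pq (h a ha) x, pq (h b hb) y, one_mul]; exact PE.one
  · obtain ⟨k, hk⟩ := h _ (mul_mem ha hb)
    exact ⟨_, PN.pw hq e k, hk⟩

theorem mc_nil [Fact p.Prime] [Finite G] (N : Subgroup G) [hN : Group.IsNilpotent N] :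
    MC (· ≠ p) N := by
  have := (rd_spec (p := p) (G := N)).1
  have h : ∀ g : N, g ∈ Rd p N := fun g => by
    by_contra hn
    obtain ⟨q, hq, h1⟩ := ex_prime (mt mk_one.1 hn)
    have := Fact.mk hq
    obtain ⟨i, h2, h3⟩ := ex_pe h1
    rw [← map_zpow] at h2 h3
    obtain ⟨j, h4, h5⟩ := qe_lift _ _ (pe_iff.1 h2)
    obtain ⟨k, hk⟩ := pe_iff.2 h4
    obtain ⟨P, hP⟩ := (zp_p hk).exists_le_sylow
    have h6 : ∀ (p : ℕ) (_ : Fact p.Prime) (P : Sylow p N), (P : Subgroup N).Normal :=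
      ((Group.isNilpotent_of_finite_tfae (G := N)).out 0 3).1 hN
    exact h3 (h5 ▸ mk_one.2 (le_rd (h6 q this P)
      (mc_pe hq (pg_iff.1 P.isPGroup')) (hP (Subgroup.mem_zpowers _))))
  intro a ha b hb x y
  have hi : ∀ g : N, N.subtype g = 1 → qe p g := fun g h => by
    rw [show g = 1 from Subtype.ext h]; exact PE.one
  exact (rd_spec.2 ⟨a, ha⟩ (h _) ⟨b, hb⟩ (h _) (PE.of_ker (g := ⟨a, ha⟩) N.subtype hi (by exact x))
    (PE.of_ker (g := ⟨b, hb⟩) N.subtype hi (by exact y))).map N.subtype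

theorem ss_of [hp : Fact p.Prime] [Finite G] (V : Subgroup G) [V.Normal]
    (hc : ∀ a ∈ V, ∀ b ∈ V, a * b = b * a) (he : ∀ v ∈ V, v ^ p = 1)
    (h1 : ∀ g h : G, ⁅g, h⁆ ∈ V) (h2 : ∀ g : G, g ^ (p - 1) ∈ V) : SS G := by
  induction hn : Nat.card G using Nat.strong_induction_on generalizing G with
  | _ n ih =>
  by_cases h0 : (⊤ : Subgroup G) = ⊥
  · rw [SS, h0]; exact Cs.bot
  obtain ⟨v, h3, h4⟩ : ∃ v : G, v ≠ 1 ∧ (Subgroup.zpowers v).Normal := by
    by_cases hV : V = ⊥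
    · obtain ⟨u, hu⟩ := (Subgroup.ne_bot_iff_exists_ne_one).1 h0
      refine ⟨u, fun e => hu (Subtype.ext e), ⟨fun x hx g => ?_⟩⟩
      rw [commutatorElement_eq_one_iff_mul_comm.1 (Subgroup.mem_bot.1 (hV.le (h1 g x)))]
      simpa
    obtain ⟨U, a, b, c, d⟩ := min_norm V hV
    obtain ⟨v, rfl⟩ := cyc_min (p := p) U c (fun x y z w => hc x (b y) z (b w)) (fun v h => he v (b h)) d
      (fun g h v w => hc _ (h1 g h) _ (b w)) fun g v w => hc _ (h2 g) _ (b w)
    exact ⟨v, mt Subgroup.zpowers_eq_bot.2 c, a⟩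
  let f := QuotientGroup.mk' (Subgroup.zpowers v)
  have : (V.map f).Normal := Subgroup.Normal.map inferInstance _ (mk_surj _)
  refine SS.ext f (mk_surj _) (QuotientGroup.ker_mk' _)
    (ih _ (hn ▸ card_quo_lt (mt Subgroup.zpowers_eq_bot.1 h3)) (V.map f) ?_ ?_ ?_ ?_ rfl)
  · rintro _ ⟨a, x, rfl⟩ _ ⟨b, y, rfl⟩; rw [← map_mul, hc a x b y, map_mul]
  · rintro _ ⟨a, x, rfl⟩; rw [← map_pow, he a x, map_one]
  · intro g h
    obtain ⟨g, rfl⟩ := mk_surj _ g
    obtain ⟨h, rfl⟩ := mk_surj _ h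
    exact ⟨_, h1 g h, map_commutatorElement _ _ _⟩
  · intro g
    obtain ⟨g, rfl⟩ := mk_surj _ g
    exact ⟨_, h2 g, map_pow _ _ _⟩

end Pool.Agent.H68.Sat
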