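import Pool.Agent.H68.Nl1

set_option autoImplicit false

namespace Pool.Agent.H68.Sch

open Function SemidirectProduct Pool.Agent.H68.Fit Pool.Agent.H68.Sat Pool.Agent.H68.Nl
open scoped commutatorElement

variable {G A B : Type} [Group G] [Group A] [Group B] {n : ℕ} {π : ℕ → Prop}

def XX (n : ℕ) (G : Type) [Group G] : Prop := Finite G ∧ Group.IsSolvable G ∧
  (∀ g : G, PE (n ≤ ·) g) ∧ ∀ m, MC (m ≤ ·) (⊤ : Subgroup G)

theorem pe_inj' (ι : G →* A) (hι : Injective ι) {g : G} (h : PE π (ι g)) : PE π g :=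
  PE.of_ker ι (fun a e => by rw [(injective_iff_map_eq_one ι).1 hι a e]; exact PE.one) h

theorem XX.inj (h : XX n A) (ι : G →* A) (hι : Injective ι) : XX n G := by
  obtain ⟨_, _, h1, h2⟩ := h
  exact ⟨Finite.of_injective ι hι, solvable_of_solvable_injective hι, fun g => pe_inj' ι hι (h1 _),
    fun m a _ b _ x y => pe_inj' ι hι (by
      rw [map_mul]; exact h2 m _ trivial _ trivial (x.map ι) (y.map ι))⟩

theorem XX.surj (h : XX n G) (f : G →* A) (hf : Surjective f) : XX n A := by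
  obtain ⟨_, _, h1, h2⟩ := h
  refine ⟨Finite.of_surjective f hf, solvable_of_surjective hf, fun a => ?_, fun m => ?_⟩
  · obtain ⟨g, rfl⟩ := hf a; exact (h1 g).map f
  · exact Subgroup.map_top_of_surjective f hf ▸ mc_map (h2 m) f

theorem xx_iff [Finite G] [Group.IsSolvable G] {F : Subgroup G} :
    XX n F ↔ (∀ g ∈ F, PE (n ≤ ·) g) ∧ ∀ m, MC (m ≤ ·) F :=
  ⟨fun h => ⟨fun g hg => (h.2.2.1 ⟨g, hg⟩).map F.subtype, fun m a ha b hb x y =>
    (h.2.2.2 m ⟨a, ha⟩ trivial ⟨b, hb⟩ trivial (pe_inj' _ F.subtype_injective x)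
      (pe_inj' _ F.subtype_injective y)).map F.subtype⟩,
  fun h => ⟨inferInstance, inferInstance, fun g => pe_inj' _ F.subtype_injective (h.1 g g.2),
    fun m a _ b _ x y => pe_inj' _ F.subtype_injective
      (h.2 m a a.2 b b.2 (x.map F.subtype) (y.map F.subtype))⟩⟩

theorem pe_all [Finite G] {g : G} (h : ∀ p : ℕ, p.Prime → ¬ π p → qe p g) : PE π g :=
  ⟨orderOf g, ⟨(orderOf_pos g).ne', fun p hp hd => by_contra fun hn => by
    obtain ⟨k, h1, h2⟩ := h p hp hn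
    exact h1.2 p hp (hd.trans (orderOf_dvd_of_pow_eq_one h2)) rfl⟩, pow_orderOf_eq_one g⟩

theorem PE.mono {ρ : ℕ → Prop} {g : G} (h : PE π g) (hi : ∀ p, π p → ρ p) : PE ρ g :=
  h.imp fun _ e => ⟨⟨e.1.1, fun p hp hd => hi p (e.1.2 p hp hd)⟩, e.2⟩

theorem PE.qe {g : G} (h : PE π g) {p : ℕ} (hp : ¬ π p) : qe p g :=
  PE.mono h fun _ hq e => hp (e ▸ hq)

theorem pe_frat [Finite G] {g : G} (h : ∀ M : Subgroup G, IsCoatom M →
    PE π (QuotientGroup.mk' M.normalCore g)) : PE π (QuotientGroup.mk' (frattini G) g) := by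
  obtain ⟨i, j, e, h1, h2⟩ := pe_split π g
  rw [e, map_mul, (mk_one (g := g ^ j)).2, mul_one]
  · exact h1.map _
  refine Subgroup.mem_iInf.2 fun M => Subgroup.mem_iInf.2 fun hM => M.normalCore_le (mk_one.1 ?_)
  exact PE.eq_one (by rw [map_zpow]; exact (h M hM).zpow j) (h2.map _)

theorem prim_core {M : Subgroup G} (hM : IsCoatom M) : ∃ K : Subgroup (G ⧸ M.normalCore),
    IsCoatom K ∧ K.normalCore = ⊥ := by
  have h : (M.map (QuotientGroup.mk' M.normalCore)).comap (QuotientGroup.mk' M.normalCore) = M := by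
    rw [Subgroup.comap_map_eq, QuotientGroup.ker_mk', sup_eq_left.2 M.normalCore_le]
  refine ⟨M.map (QuotientGroup.mk' _), ⟨fun e => hM.1 (by rw [← h, e]; rfl), fun K hK => ?_⟩, ?_⟩
  · exact Subgroup.comap_injective (mk_surj _) (hM.2 _ (h.ge.trans_lt (lt_of_le_of_ne
      (Subgroup.comap_mono hK.le) fun e => hK.ne (Subgroup.comap_injective (mk_surj _) e))))
  · refine eq_bot_iff.2 fun x hx => ?_
    obtain ⟨g, rfl⟩ := mk_surj _ x
    exact mk_one.2 (Subgroup.normal_le_normalCore.2 ((Subgroup.comap_mono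
      (Subgroup.normalCore_le _)).trans h.le) hx)

theorem xx_prim [Finite G] (hs : Group.IsSolvable G) (h : ∀ (N : Subgroup G) [N.Normal],
    (∃ M : Subgroup (G ⧸ N), IsCoatom M ∧ M.normalCore = ⊥) → XX n (G ⧸ N)) : XX n G := by
  refine ⟨inferInstance, hs, fun g => pe_all fun p hp hn => ?_, fun m a _ b _ x y =>
    pe_all fun p hp hn => ?_⟩ <;> have := Fact.mk hp
  · refine frat_qe (fun x => ?_) g
    obtain ⟨g, rfl⟩ := mk_surj _ x
    exact PE.qe (pe_frat fun M hM => (h _ (prim_core hM)).2.2.1 _) hn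
  · have k : MC (m ≤ ·) (⊤ : Subgroup (G ⧸ frattini G)) := fun a _ b _ x y => by
      obtain ⟨a, rfl⟩ := mk_surj _ a
      obtain ⟨b, rfl⟩ := mk_surj _ b
      obtain ⟨i, x, e⟩ := qe_lift _ a x
      obtain ⟨j, y, e'⟩ := qe_lift _ b y
      rw [← e, ← e', ← map_mul]
      exact pe_frat fun M hM => by
        rw [map_mul]; exact (h _ (prim_core hM)).2.2.2 m _ trivial _ trivial (x.map _) (y.map _)
    obtain ⟨C, -, h1, h2, -⟩ := frat_comp (p := p) (frattini G) (k.sub.comap (QuotientGroup.mk' _))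
      le_rfl (fun v hv => by rw [Subgroup.mem_comap, mk_one.2 hv]; exact one_mem _)
      fun k hk => PE.qe hk.2 hn
    exact h1 _ (mul_mem (h2 a ⟨trivial, x.map _⟩ (PE.qe x hn)) (h2 b ⟨trivial, y.map _⟩ (PE.qe y hn)))

def Pj (C : (G : Type) → [Group G] → Prop) (E : Subgroup G) : Prop :=
  ∀ (H : Type) [Group H] (φ : G →* H), Surjective φ →
    C (E.map φ) ∧ ∀ K : Subgroup H, E.map φ ≤ K → C K → K ≤ E.map φ

theorem pj_of {C : (G : Type) → [Group G] → Prop}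
    (hC : ∀ (G H : Type) [Group G] [Group H], Nonempty (G ≃* H) → C G → C H) {E : Subgroup G}
    (h : ∀ (N : Subgroup G) [N.Normal], C ↥(E.map (QuotientGroup.mk' N)) ∧
      ∀ K : Subgroup (G ⧸ N), E.map (QuotientGroup.mk' N) ≤ K → C ↥K →
        K = E.map (QuotientGroup.mk' N)) : Pj C E := by
  intro H _ φ hφ
  let e := QuotientGroup.quotientKerEquivOfSurjective φ hφ
  have h1 : E.map φ = (E.map (QuotientGroup.mk' φ.ker)).map e.toMonoidHom := by
    rw [Subgroup.map_map]; rfl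
  obtain ⟨h2, h3⟩ := h φ.ker
  refine ⟨h1 ▸ hC _ _ ⟨e.subgroupMap _⟩ h2, fun K h4 h5 => ?_⟩
  rw [h1, ← h3 (K.map e.symm.toMonoidHom) _ (hC _ _ ⟨e.symm.subgroupMap K⟩ h5)]
  · exact fun k hk => ⟨_, ⟨k, hk, rfl⟩, e.apply_symm_apply k⟩
  · rintro x hx
    exact ⟨e x, h4 (h1 ▸ ⟨x, hx, rfl⟩), e.symm_apply_apply x⟩

theorem step [Finite G] [Group.IsSolvable G] {r : ℕ} (hr : r.Prime) (N : Subgroup G) [N.Normal]
    (hc : ∀ a ∈ N, ∀ b ∈ N, a * b = b * a) (he : ∀ v ∈ N, v ^ r = 1) (F : Subgroup G)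
    (h1 : Pj (XX n) (F.map (QuotientGroup.mk' N))) (h2 : XX n F)
    (h3 : r < n ∨ ∃ R ≤ F, (∀ x ∈ R, PE (r + 1 ≤ ·) x) ∧ ∀ v ∈ N, (∀ x ∈ R, Commute v x) → v ∈ F) :
    Pj (XX n) F := by
  intro H _ ψ hψ
  have := Fact.mk hr
  have : Finite H := Finite.of_surjective ψ hψ
  have : Group.IsSolvable H := solvable_of_surjective hψ
  refine ⟨h2.surj _ (ψ.subgroupMap_surjective F), fun K h4 h5 k hk => ?_⟩
  have : (N.map ψ).Normal := Subgroup.Normal.map inferInstance _ hψ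
  let ρ := QuotientGroup.mk' (N.map ψ)
  obtain ⟨χ, hχ⟩ := exists_lift _ (mk_surj N) (ρ.comp ψ) fun g hg => mk_one.2 ⟨g, mk_one.1 hg, rfl⟩
  obtain ⟨_, ⟨f, hf, rfl⟩, e⟩ := (h1 _ χ fun y => by
    obtain ⟨g, rfl⟩ := ((mk_surj _).comp hψ) y; exact ⟨_, hχ g⟩).2 (K.map ρ)
    (by rintro _ ⟨_, ⟨f, hf, rfl⟩, rfl⟩; exact ⟨_, h4 ⟨f, hf, rfl⟩, (hχ f).symm⟩)
    (h5.surj _ (ρ.subgroupMap_surjective K)) ⟨k, hk, rfl⟩
  obtain ⟨v, hv, e⟩ := QuotientGroup.eq.1 ((hχ f).symm.trans e)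
  have h6 : ψ v ∈ K := e ▸ mul_mem (inv_mem (h4 ⟨f, hf, rfl⟩)) hk
  rw [← mul_inv_cancel_left (ψ f) k, ← e]
  refine mul_mem ⟨f, hf, rfl⟩ ?_
  have pv : ∀ v ∈ N, pe r (ψ v) := fun v hv => pe.map ⟨1, by rw [pow_one, he v hv]⟩ ψ
  obtain ⟨h7, h8⟩ := xx_iff.1 h5
  rcases h3 with h3 | ⟨R, h3, h9, h10⟩
  · rw [pq (pv v hv) (PE.qe (h7 _ h6) h3.not_ge)]; exact one_mem _
  · have c : ∀ x ∈ R, ψ (x * v * x⁻¹) = ψ v := fun x hx => by
      have k1 := h4 ⟨x, h3 hx, rfl⟩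
      have k2 := h8 (r + 1) _ k1 _ (mul_mem (mul_mem h6 (inv_mem k1)) (inv_mem h6)) ((h9 x hx).map ψ)
        (by simpa using ((h9 x hx).zpow (-1)).map ((MulAut.conj (ψ v)).toMonoidHom.comp ψ))
      rw [← mul_inv_eq_one, ← map_inv, ← map_mul]
      refine pq (pv _ (mul_mem (Subgroup.Normal.conj_mem inferInstance _ hv _) (inv_mem hv))) ?_
      simpa [mul_assoc] using PE.qe k2 (p := r) (by simp)
    let _ : CommGroup N :=
      { (inferInstance : Group N) with mul_comm := fun a b => Subtype.ext (hc _ a.2 _ b.2) }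
    have := Fintype.ofFinite R
    let w : N := ∏ x : R, MulAut.conjNormal (x : G) ⟨v, hv⟩
    have w1 : ψ w = ψ v ^ Fintype.card R := by
      let _ : CommGroup (N.map ψ) := { (inferInstance : Group (N.map ψ)) with
        mul_comm := by
          rintro ⟨_, a, ha, rfl⟩ ⟨_, b, hb, rfl⟩
          exact Subtype.ext (by simp [← map_mul, hc a ha b hb]) }
      have : ψ.subgroupMap N w = ψ.subgroupMap N ⟨v, hv⟩ ^ Fintype.card R := by
        rw [map_prod, ← Finset.card_univ, ← Finset.prod_const]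
        exact Finset.prod_congr rfl fun x _ => Subtype.ext (c x x.2)
      exact congrArg Subtype.val this
    have w2 : (w : G) ∈ F := h10 _ w.2 fun x hx => by
      have : MulAut.conjNormal x w = w := by
        rw [map_prod]
        exact Fintype.prod_equiv (Equiv.mulLeft ⟨x, hx⟩) _ _ fun y => Subtype.ext (by simp [mul_assoc])
      exact (mul_inv_eq_iff_eq_mul.1 (congrArg Subtype.val this)).symm
    have cop : Nat.Coprime (Fintype.card R) r := by
      rw [Nat.coprime_comm, hr.coprime_iff_not_dvd]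
      intro h
      obtain ⟨x, hx⟩ := exists_prime_orderOf_dvd_card r h
      have : (x : G) = 1 := pq (p := r) ⟨1, by
        rw [pow_one, ← hx]; exact_mod_cast congrArg Subtype.val (pow_orderOf_eq_one x)⟩
        (PE.qe (h9 x x.2) (by simp))
      rw [show x = 1 from Subtype.ext this, orderOf_one] at hx
      exact hr.one_lt.ne hx
    obtain ⟨j, -, hj⟩ := Nat.exists_mul_mod_eq_one_of_coprime cop hr.one_lt
    refine ⟨w ^ j, pow_mem w2 j, ?_⟩
    rw [map_pow, w1, ← pow_mul, pow_eq_pow_mod _ (by rw [← map_pow, he v hv, map_one] : ψ v ^ r = 1),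
      hj, pow_one]

theorem compl [Finite G] {r : ℕ} [Fact r.Prime] (N : Subgroup G) [N.Normal] (he : ∀ v ∈ N, v ^ r = 1)
    (K : Subgroup (G ⧸ N)) (hK : ∀ k ∈ K, qe r k) : ∃ R ≤ K.comap (QuotientGroup.mk' N),
      (∀ v ∈ N, v ∈ R → v = 1) ∧ (∀ x ∈ R, qe r x) ∧
      ∀ x ∈ K.comap (QuotientGroup.mk' N), ∃ v ∈ N, v⁻¹ * x ∈ R := by
  obtain ⟨S, h1, h2⟩ := min_supp _ ((QuotientGroup.mk' N).subgroupComap_surjective_of_surjective K
    (mk_surj N))
  have h3 : ∀ x ∈ S.map (Subgroup.subtype _), qe r x := by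
    rintro _ ⟨s, hs, rfl⟩
    exact (fq _ h1 h2 (fun k => pe_inj' _ K.subtype_injective (hK k k.2)) ⟨s, hs⟩).map
      ((Subgroup.subtype _).comp S.subtype)
  refine ⟨_, Subgroup.map_subtype_le S, fun v hv h => pq ⟨1, by rw [pow_one, he v hv]⟩ (h3 v h), h3,
    fun x hx => ?_⟩
  obtain ⟨s, hs⟩ := h1 ⟨_, hx⟩
  refine ⟨x * (s : G)⁻¹, mk_one.1 ?_, s, s.2, by simp⟩
  rw [map_mul, map_inv, mul_inv_eq_one]
  exact (congrArg Subtype.val hs).symm

theorem ex_ab [Finite G] [Group.IsSolvable G] [Nontrivial G] : ∃ r : ℕ, r.Prime ∧ ∃ N : Subgroup G,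
    N.Normal ∧ N ≠ ⊥ ∧ (∀ a ∈ N, ∀ b ∈ N, a * b = b * a) ∧ ∀ v ∈ N, v ^ r = 1 := by
  obtain ⟨U, _, -, h1, h2⟩ := min_norm (⊤ : Subgroup G) top_ne_bot
  have h3 := (h2 ⁅U, U⁆ inferInstance (Subgroup.commutator_le_left _ _)).resolve_right
    (IsSolvable.commutator_lt_of_ne_bot h1).ne
  have : Group.IsNilpotent U := nil_comm fun a b => Subtype.ext
    (commutatorElement_eq_one_iff_mul_comm.1 (Subgroup.mem_bot.1
      (h3 ▸ Subgroup.commutator_mem_commutator a.2 b.2)))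
  obtain ⟨q, hq, V, _, k1, k2, k3, k4, -⟩ := min_nil U h1
  exact ⟨q, hq, V, inferInstance, k2, fun a ha b hb => k3 b hb a (k1 ha), k4⟩

theorem pair [Finite G] [Group.IsSolvable G] : ∃ (F : Subgroup G) (m : MC (n + 1 ≤ ·) F),
    Pj (XX n) F ∧ Pj (XX (n + 1)) m.sub := by
  induction hn : Nat.card G using Nat.strong_induction_on generalizing G with
  | _ k ih =>
  rcases subsingleton_or_nontrivial G with _ | _
  · have : ∀ j (E : Subgroup G), Pj (XX j) E := fun j E H _ φ hφ => by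
      have := hφ.subsingleton
      have : Finite H := Finite.of_subsingleton
      exact ⟨xx_iff.2 ⟨fun g _ => Subsingleton.elim 1 g ▸ PE.one,
        fun _ a _ b _ _ _ => Subsingleton.elim 1 (a * b) ▸ PE.one⟩,
        fun K _ _ g _ => Subsingleton.elim 1 g ▸ one_mem _⟩
    exact ⟨⊥, fun a _ b _ _ _ => Subsingleton.elim 1 (a * b) ▸ PE.one, this _ _, this _ _⟩
  obtain ⟨r, hr, N, _, h0, hc, he⟩ := ex_ab (G := G)
  have := Fact.mk hr
  let φ := QuotientGroup.mk' N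
  obtain ⟨F', m', p1, p2⟩ := ih _ (hn ▸ card_quo_lt h0) (G := G ⧸ N) rfl
  obtain ⟨x1, x2⟩ := xx_iff.1 (Subgroup.map_id F' ▸ (p1 _ (MonoidHom.id _) surjective_id).1 : XX n F')
  have pv : ∀ j ≤ r, ∀ v, φ v = 1 → PE (j ≤ ·) v := fun j hj v hv =>
    ⟨r ^ 1, PN.pw hr hj 1, by rw [pow_one, he v (mk_one.1 hv)]⟩
  obtain ⟨F, f1, f2, f3⟩ : ∃ F : Subgroup G, F.map φ = F' ∧ XX n F ∧ (r < n ∨ ∃ R ≤ F,
      (∀ x ∈ R, PE (r + 1 ≤ ·) x) ∧ ∀ v ∈ N, (∀ x ∈ R, Commute v x) → v ∈ F) := by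
    rcases lt_or_ge r n with h | h
    · obtain ⟨R, r1, r2, -, r4⟩ := compl N he F' fun k hk => PE.qe (x1 k hk) h.not_ge
      refine ⟨R, le_antisymm (Subgroup.map_le_iff_le_comap.2 r1) fun y hy => ?_,
        (xx_iff.2 ⟨x1, x2⟩).inj ((φ.comp R.subtype).codRestrict F' fun x => r1 x.2)
          ((injective_iff_map_eq_one _).2 fun x e => Subtype.ext
            (r2 _ (mk_one.1 (congrArg Subtype.val e)) x.2)), Or.inl h⟩
      obtain ⟨g, rfl⟩ := mk_surj N y
      obtain ⟨v, hv, e⟩ := r4 g hy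
      exact ⟨_, e, by rw [map_mul, map_inv, mk_one.2 hv]; simp [φ]⟩
    · obtain ⟨R, r1, r2, r3, r4⟩ := compl N he (x2 (r + 1)).sub fun k hk => PE.qe hk.2 (by simp)
      have r5 : ∀ j, ∀ x ∈ R, PE (j ≤ ·) (φ x) → PE (j ≤ ·) x := fun j x hx h =>
        h.imp fun i e => ⟨e.1, r2 _ (mk_one.1 (by rw [map_pow, e.2])) (pow_mem hx i)⟩
      let F := Subgroup.normalizer (R : Set G) ⊓ F'.comap φ
      have r6 : R ≤ F := le_inf Subgroup.le_normalizer fun x hx => (r1 hx).1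
      refine ⟨F, le_antisymm (Subgroup.map_le_iff_le_comap.2 inf_le_right) fun y hy => ?_,
        xx_iff.2 ⟨fun g hg => PE.of_ker φ (pv n h) (x1 _ hg.2), fun j a ha b hb x y => ?_⟩,
        Or.inr ⟨R, r6, fun x hx => r5 _ x hx (r1 hx).2, fun v hv hh => ⟨?_, ?_⟩⟩⟩
      · obtain ⟨g, rfl⟩ := mk_surj N y
        obtain ⟨u, h5, h6⟩ := bary N R (R.map (MulAut.conj g).toMonoidHom) hc he r2
          (by rintro _ ⟨d, h, rfl⟩; exact (r3 d h).map _) (by
            rintro _ ⟨d, h, rfl⟩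
            exact r4 _ ⟨by simpa using mul_mem (mul_mem hy (r1 h).1) (inv_mem hy), by
              simpa [φ] using (r1 h).2.map (MulAut.conj (φ g)).toMonoidHom⟩)
        have e : φ (u⁻¹ * g) = φ g := by rw [map_mul, map_inv, mk_one.2 h5]; simp
        exact ⟨u⁻¹ * g, ⟨Subgroup.mem_normalizer_fintype fun d h => by
          simpa [mul_assoc] using h6 _ ⟨d, h, rfl⟩, show φ _ ∈ F' from e ▸ hy⟩, e⟩
      · have e := x2 j _ ha.2 _ hb.2 (x.map φ) (y.map φ)
        rw [← map_mul] at e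
        rcases le_or_gt j r with hj | hj
        · exact PE.of_ker φ (pv j hj) e
        · have : (R.subgroupOf F).Normal := Subgroup.normal_subgroupOf_of_le_normalizer inf_le_left
          have k : ∀ a ∈ F, PE (j ≤ ·) a → a ∈ R := fun a ha x => by
            obtain ⟨v, hv, e⟩ := r4 a ⟨ha.2, PE.mono (x.map φ) fun p hp => hj.trans_le hp⟩
            refine pe_mem (p := r) (K := R.subgroupOf F) (g := ⟨a, ha⟩)
              (pe_inj' _ F.subtype_injective (PE.qe x hj.not_ge)) ?_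
            have hv' : v ∈ F := by simpa using mul_mem ha (inv_mem (r6 e))
            rw [show (⟨a, ha⟩ : F) = ⟨v, hv'⟩ * ⟨_, r6 e⟩ from Subtype.ext (by simp), map_mul,
              (mk_one (g := (⟨_, r6 e⟩ : F))).2 e, mul_one]
            exact pe.map ⟨1, Subtype.ext (by simpa using he v hv)⟩ _
          exact r5 j _ (mul_mem (k a ha x) (k b hb y)) e
      · exact Subgroup.mem_normalizer_fintype fun d h => by rwa [(hh d h).eq, mul_inv_cancel_right]
      · change φ v ∈ F'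
        rw [mk_one.2 hv]; exact one_mem _
  obtain ⟨y1, y2⟩ := xx_iff.1 f2
  refine ⟨F, y2 _, step hr N hc he F (f1 ▸ p1) f2 f3, step hr N hc he _ ?_
    (xx_iff.2 ⟨fun g hg => hg.2, fun j a ha b hb => y2 j a ha.1 b hb.1⟩) ?_⟩
  · convert p2
    refine le_antisymm (by rintro _ ⟨g, hg, rfl⟩; exact ⟨f1 ▸ ⟨g, hg.1, rfl⟩, hg.2.map φ⟩) ?_
    rintro y ⟨h1, h2⟩
    obtain ⟨g, hg, rfl⟩ := f1.ge h1
    obtain ⟨i, h3, e⟩ := qe_lift φ g h2
    exact ⟨_, ⟨zpow_mem hg i, h3⟩, e⟩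
  · rcases lt_or_ge r (n + 1) with h | h
    · exact Or.inl h
    obtain h' | ⟨R, r1, r2, r3⟩ := f3
    · omega
    exact Or.inr ⟨R, fun x hx => ⟨r1 hx, PE.mono (r2 x hx) fun p hp => by omega⟩, r2,
      fun v hv hh => ⟨r3 v hv hh, pv _ h v (mk_one.2 hv)⟩⟩

structure Sk (C : (G : Type) → [Group G] → Prop) : Prop where
  fin : ∀ (G : Type) [Group G], C G → Finite G ∧ Group.IsSolvable G
  iso : ∀ (G H : Type) [Group G] [Group H], Nonempty (G ≃* H) → C G → C H
  quo : ∀ (G : Type) [Group G] (N : Subgroup G) [N.Normal], C G → C (G ⧸ N)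
  prim : ∀ (G : Type) [Group G] [Finite G], Group.IsSolvable G → (∀ (N : Subgroup G) [N.Normal],
    (∃ M : Subgroup (G ⧸ N), IsCoatom M ∧ M.normalCore = ⊥) → C (G ⧸ N)) → C G

theorem xx_sk : Sk (XX n) := ⟨fun _ _ h => ⟨h.1, h.2.1⟩, fun _ _ _ _ ⟨e⟩ h => h.surj e.toMonoidHom
  e.surjective, fun _ _ N _ h => h.surj _ (mk_surj N), fun _ _ _ => xx_prim⟩

variable {C : (G : Type) → [Group G] → Prop} {p : ℕ}

theorem Sk.surj (hC : Sk C) (h : C G) (f : G →* A) (hf : Surjective f) : C A :=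
  hC.iso _ _ ⟨QuotientGroup.quotientKerEquivOfSurjective f hf⟩ (hC.quo G f.ker h)

theorem Sk.top (hC : Sk C) {E : Subgroup G} (h : C E) (f : G →* A) (hf : E.map f = ⊤) : C A :=
  hC.surj h (f.comp E.subtype) fun a => by
    obtain ⟨g, hg, rfl⟩ := hf.ge (Subgroup.mem_top a); exact ⟨⟨g, hg⟩, rfl⟩

theorem Pj.cover (hC : Sk C) {E : Subgroup G} (h : Pj C E) (f : G →* A) (hf : Surjective f)
    (a : C A) : E.map f = ⊤ :=
  eq_top_iff.2 ((h _ f hf).2 ⊤ le_top (hC.iso _ _ ⟨Subgroup.topEquiv.symm⟩ a))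

theorem Pj.mem (hC : Sk C) {E : Subgroup G} (h : Pj C E) : C E :=
  Subgroup.map_id E ▸ (h _ (MonoidHom.id _) surjective_id).1

theorem ex_q [Finite G] [Group.IsSolvable G] [Nontrivial G] :
    ∃ (N : Subgroup G) (_ : N.Normal), (Nat.card (G ⧸ N)).Prime := by
  obtain ⟨M, hM, h⟩ := (eq_top_or_exists_le_coatom (commutator G)).resolve_left
    (IsSolvable.commutator_lt_top_of_nontrivial G).ne
  have hN : M.Normal := ⟨fun m hm g => by
    simpa [commutatorElement_def] using mul_mem (h (Subgroup.commutator_mem_commutator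
      (Subgroup.mem_top g) (Subgroup.mem_top m))) hm⟩
  let _ : CommGroup (G ⧸ M) := { (inferInstance : Group (G ⧸ M)) with
    mul_comm := fun a b => by
      obtain ⟨a, rfl⟩ := mk_surj _ a
      obtain ⟨b, rfl⟩ := mk_surj _ b
      rw [← commutatorElement_eq_one_iff_mul_comm, ← map_commutatorElement, mk_one]
      exact h (Subgroup.commutator_mem_commutator (Subgroup.mem_top a) (Subgroup.mem_top b)) }
  have : Nontrivial (G ⧸ M) := QuotientGroup.nontrivial_iff.2 hM.1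
  have : IsSimpleGroup (G ⧸ M) := ⟨fun K _ => by
    rcases (hM.le_iff.1 (show M ≤ K.comap (QuotientGroup.mk' M) from fun g hg => by
      rw [Subgroup.mem_comap, mk_one.2 hg]; exact one_mem _)) with e | e
    · exact Or.inr (Subgroup.comap_injective (mk_surj _) e)
    · exact Or.inl (Subgroup.comap_injective (mk_surj _) (by
        rw [e, MonoidHom.comap_bot, QuotientGroup.ker_mk']))⟩
  exact ⟨M, hN, IsSimpleGroup.prime_card⟩

theorem prim_c [Finite G] [hp : Fact p.Prime] {M : Subgroup G} (hM : IsCoatom M)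
    (h : M.normalCore = ⊥) {v : G} (h1 : v ≠ 1) (h2 : v ^ p = 1) (h3 : ∀ g, g * v = v * g) :
    Nat.card G = p := by
  have : (Subgroup.zpowers v).Normal := ⟨by
    rintro _ ⟨i, rfl⟩ g
    exact ⟨i, by rw [(Commute.zpow_right (h3 g) i).eq, mul_inv_cancel_right]⟩⟩
  have h4 : M ⊔ Subgroup.zpowers v = ⊤ := hM.2 _ (lt_of_le_of_ne le_sup_left fun e => h1 (by
    have : Subgroup.zpowers v ≤ M.normalCore := Subgroup.normal_le_normalCore.2 (e ▸ le_sup_right)
    exact Subgroup.mem_bot.1 (h ▸ this (Subgroup.mem_zpowers v))))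
  have : M.Normal := Subgroup.normalizer_eq_top_iff.1 (eq_top_iff.2 (h4 ▸ sup_le
    Subgroup.le_normalizer (Subgroup.zpowers_le.2 (Subgroup.mem_normalizer_fintype fun m hm => by
      rwa [← h3, mul_inv_cancel_right]))))
  rw [Subgroup.normalCore_eq_self] at h
  rw [h, bot_sup_eq] at h4
  rw [← Subgroup.card_top, ← h4, Nat.card_zpowers, orderOf_eq_prime h2 h1]

theorem Sk.pg (hC : Sk C) [hp : Fact p.Prime] (hZ : ∀ (Z : Type) [Group Z], Nat.card Z = p → C Z)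
    [Finite G] (h : ∀ g : G, pe p g) : C G := by
  have k : IsPGroup p G := h
  have := k.isNilpotent
  refine hC.prim G inferInstance fun N _ ⟨M, h1, h2⟩ => hZ _ ?_
  have : Nontrivial (G ⧸ N) := Subgroup.nontrivial_iff.1 ⟨M, ⊤, h1.1⟩
  have k' := k.to_quotient N
  have := k'.center_nontrivial
  obtain ⟨j, hj⟩ := IsPGroup.iff_card.1 (k'.to_subgroup (Subgroup.center _))
  obtain ⟨v, hv⟩ := exists_prime_orderOf_dvd_card' (G := Subgroup.center (G ⧸ N)) p (by
    rw [hj]; refine dvd_pow_self p fun e => ?_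
    rw [e, pow_zero] at hj
    exact Finite.one_lt_card.ne' hj)
  refine prim_c h1 h2 (v := v) (fun e => hp.out.one_lt.ne ?_) ?_ (Subgroup.mem_center_iff.1 v.2)
  · rw [← hv, show v = 1 from Subtype.ext e, orderOf_one]
  · rw [← hv]; exact_mod_cast congrArg Subtype.val (pow_orderOf_eq_one v)

theorem Sk.ext (hC : Sk C) [hp : Fact p.Prime] (hZ : ∀ (Z : Type) [Group Z], Nat.card Z = p → C Z)
    [Finite G] [Group.IsSolvable G] {E : Subgroup G} (h : C E) {v : G} (h2 : v ^ p = 1)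
    (h3 : ∀ g ∈ E, Commute g v) : C ↥(E ⊔ Subgroup.zpowers v) := by
  have hv : v ∈ E ⊔ Subgroup.zpowers v := Subgroup.mem_sup_right (Subgroup.mem_zpowers v)
  have h4 : E ⊔ Subgroup.zpowers v ≤ Subgroup.centralizer {v} := sup_le
    (fun g hg => Subgroup.mem_centralizer_singleton_iff.2 (h3 g hg))
    (Subgroup.zpowers_le.2 (Subgroup.mem_centralizer_singleton_iff.2 rfl))
  refine hC.prim _ inferInstance fun N _ ⟨M, k1, k2⟩ => ?_
  by_cases e : QuotientGroup.mk' N ⟨v, hv⟩ = 1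
  · refine hC.surj h ((QuotientGroup.mk' N).comp (Subgroup.inclusion le_sup_left))
      (MonoidHom.range_eq_top.1 (eq_top_iff.2 fun x _ => ?_))
    obtain ⟨⟨g, hg⟩, rfl⟩ := mk_surj N x
    have : E ⊔ Subgroup.zpowers v ≤ (((QuotientGroup.mk' N).comp
        (Subgroup.inclusion le_sup_left)).range.comap (QuotientGroup.mk' N)).map (Subgroup.subtype _) :=
      sup_le (fun g hg => ⟨⟨g, Subgroup.mem_sup_left hg⟩, ⟨⟨g, hg⟩, rfl⟩, rfl⟩)
        (Subgroup.zpowers_le.2 ⟨⟨v, hv⟩, by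
          rw [SetLike.mem_coe, Subgroup.mem_comap, e]; exact one_mem _, rfl⟩)
    obtain ⟨y, h5, rfl⟩ := this hg
    exact h5
  · refine hZ _ (prim_c k1 k2 e (by rw [← map_pow, show (⟨v, hv⟩ : ↥(E ⊔ _)) ^ p = 1 from
      Subtype.ext h2, map_one]) fun x => ?_)
    obtain ⟨g, rfl⟩ := mk_surj N x
    rw [← map_mul, ← map_mul]
    exact congrArg _ (Subtype.ext (Subgroup.mem_centralizer_singleton_iff.1 (h4 g.2)))

theorem below (hC : Sk C) (hle : ∀ (G : Type) [Group G] [Finite G], Group.IsSolvable G →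
    ∃ E F : Subgroup G, Pj C E ∧ Pj (XX 0) F ∧ E ≤ F) (h0 : ∃ (G : Type) (_ : Group G), C G ∧ Nontrivial G) :
    ∃ p : ℕ, p.Prime ∧ ∀ (G : Type) [Group G], C G ↔ XX p G := by
  classical
  have hex : ∃ p : ℕ, p.Prime ∧ ∃ (Z : Type) (_ : Group Z), C Z ∧ Nat.card Z = p := by
    obtain ⟨G, _, h, _⟩ := h0
    obtain ⟨_, _⟩ := hC.fin G h
    obtain ⟨N, _, hN⟩ := ex_q (G := G)
    exact ⟨_, hN, _, _, hC.quo G N h, rfl⟩
  obtain ⟨hp, Z, _, hZ, cZ⟩ := Nat.find_spec hex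
  have hm := fun q => Nat.find_min' hex (m := q)
  generalize Nat.find hex = p at *
  have := Fact.mk hp
  have hZ' : ∀ (Y : Type) [Group Y], Nat.card Y = p → C Y := fun Y _ h =>
    hC.iso _ _ ⟨mulEquivOfPrimeCardEq cZ h⟩ hZ
  refine ⟨p, hp, fun G _ => ⟨fun h => ?_, fun h => ?_⟩⟩
  · obtain ⟨_, hs⟩ := hC.fin G h
    obtain ⟨E, F, h1, h2, h3⟩ := hle G hs
    have h4 := xx_sk.top (h2.mem xx_sk) (MonoidHom.id G) (eq_top_iff.2
      ((h1.cover hC _ surjective_id h).ge.trans (Subgroup.map_mono h3)))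
    refine ⟨inferInstance, hs, fun g => ?_, h4.2.2.2⟩
    let R := (h4.2.2.2 p).sub
    rcases subsingleton_or_nontrivial (G ⧸ R) with _ | _
    · exact ((mk_one (N := R)).1 (Subsingleton.elim _ _)).2
    obtain ⟨N, _, hN⟩ := ex_q (G := G ⧸ R)
    have := Fact.mk hN
    have := Finite.one_lt_card_iff_nontrivial.1 hN.one_lt
    obtain ⟨z, hz⟩ := exists_ne (1 : (G ⧸ R) ⧸ N)
    obtain ⟨x, rfl⟩ := ((mk_surj N).comp (mk_surj R)) z
    refine absurd (pq (p := Nat.card ((G ⧸ R) ⧸ N)) ⟨1, by rw [pow_one, pow_card_eq_one']⟩ ?_) hz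
    obtain ⟨i, j, e, k1, k2⟩ := pe_split (p ≤ ·) x
    rw [e, comp_apply, map_mul, (mk_one (N := R)).2 ⟨trivial, k1⟩, one_mul]
    exact PE.qe ((k2.map _).map _) (not_not.2 (hm _ ⟨hN, _, _, hC.quo _ N (hC.quo G R h), rfl⟩))
  · obtain ⟨_, hs, h1, h2⟩ := h
    obtain ⟨Y, _, _, z, -, oz, ez⟩ := ex_cyc hp.ne_zero
    let W := (G → Y) ⋊[tw MulAction.toEndHom 1] G
    have : Group.IsSolvable W := solvable_of_ker_le_range inl rightHom range_inl_eq_ker_rightHom.ge
    obtain ⟨E, F, k1, k2, k3⟩ := hle W this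
    let R := (h2 (p + 1)).sub
    have k4 := k1.cover hC ((QuotientGroup.mk' R).comp rightHom) ((mk_surj R).comp rightHom_surjective)
      (hC.pg hZ' fun x => by
        obtain ⟨g, rfl⟩ := mk_surj R x
        obtain ⟨i, j, e, a, b⟩ := pe_split (p + 1 ≤ ·) g
        rw [e, map_mul, (mk_one (N := R)).2 ⟨trivial, a⟩, one_mul]
        refine pe.map (pe_iff.2 (pe_all fun q hq hn => ?_)) _
        rcases lt_or_gt_of_ne (not_not.1 hn) with l | l
        · exact PE.qe (h1 _) l.not_ge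
        · exact PE.qe b (not_not.2 l))
    let f : G → Y := fun x => if x ∈ E.map rightHom then z else 1
    have k5 : inl f ∈ E := by
      have := (k1 _ (MonoidHom.id _) surjective_id).2 _ (by rw [Subgroup.map_id]; exact le_sup_left)
        (hC.ext hZ' (k1.mem hC) (v := inl f) (by
          rw [← map_pow, show f ^ p = 1 from funext fun x => ez _, map_one]) fun g hg => by
          refine SemidirectProduct.ext (funext fun x => ?_) ((mul_one _).trans (one_mul _).symm)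
          have : g.right⁻¹ * x ∈ E.map rightHom ↔ x ∈ E.map rightHom :=
            Subgroup.mul_mem_cancel_left _ (inv_mem ⟨g, hg, rfl⟩)
          change g.left x * f (g.right⁻¹ * x) = f x * g.left (1⁻¹ * x)
          simp only [f, this, inv_one, one_mul, mul_comm])
      rw [Subgroup.map_id] at this
      exact this (Subgroup.mem_sup_right (Subgroup.mem_zpowers _))
    have k6 := k2.cover xx_sk rightHom rightHom_surjective
      ⟨inferInstance, hs, fun g => PE.mono (h1 g) fun _ _ => Nat.zero_le _, h2⟩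
    refine hC.top (k1.mem hC) rightHom (eq_top_iff.2 fun g _ => ?_)
    obtain ⟨e, k7, k8⟩ := k4.ge (Subgroup.mem_top (QuotientGroup.mk' R g))
    have k9 := QuotientGroup.eq.1 k8
    rw [← mul_inv_cancel_left (rightHom e) g]
    refine mul_mem ⟨e, k7, rfl⟩ ?_
    generalize (rightHom e)⁻¹ * g = r at k9
    obtain ⟨y, l1, rfl⟩ := k6.ge (Subgroup.mem_top r)
    obtain ⟨i, l2, l3⟩ := qe_lift rightHom y k9.2
    rw [← l3]
    have l4 := zpow_mem l1 i
    generalize y ^ i = w at l2 l4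
    have l5 := (xx_iff.1 (k2.mem xx_sk)).2 (p + 1) _ (mul_mem (mul_mem (k3 k5) l4) (inv_mem (k3 k5)))
      _ (inv_mem l4) (l2.map (MulAut.conj (inl f)).toMonoidHom) (by simpa using l2.zpow (-1))
    have l6 : ⁅inl f, w⁆ = 1 := pq (p := p) (by
      rw [show ⁅inl f, w⁆ = inl (⁅inl f, w⁆).left from SemidirectProduct.ext rfl
        (show rightHom _ = 1 by rw [map_commutatorElement, rightHom_inl]; simp)]
      exact (pe_pi fun _ => ⟨1, by rw [pow_one, ez]⟩).map _) (PE.qe (p := p) l5 (by simp))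
    have l7 := congrFun (congrArg SemidirectProduct.left
      (commutatorElement_eq_one_iff_mul_comm.1 l6)) 1
    change f 1 * w.left (1⁻¹ * 1) = w.left 1 * f (w.right⁻¹ * 1) at l7
    rw [inv_one, mul_one, mul_one, mul_comm, mul_right_inj] at l7
    by_contra hn
    simp only [f] at l7
    rw [if_pos (one_mem _), if_neg fun h : w.right⁻¹ ∈ _ => hn (inv_mem_iff.1 h)] at l7
    rw [l7, orderOf_one] at oz
    exact hp.one_lt.ne oz

theorem xx_cyc {q : ℕ} (hq : q.Prime) : ∃ (Z : Type) (_ : Group Z), Nontrivial Z ∧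
    ∀ n, XX n Z ↔ n ≤ q := by
  obtain ⟨Y, _, _, z, -, oz, ez⟩ := ex_cyc hq.ne_zero
  have := Fact.mk hq
  have hz : z ≠ 1 := fun e => hq.one_lt.ne (by rw [← oz, e, orderOf_one])
  refine ⟨Y, inferInstance, ⟨z, 1, hz⟩, fun n => ⟨fun h => by_contra fun hn => hz
    (pq ⟨1, by rw [pow_one, ez]⟩ (PE.qe (h.2.2.1 z) hn)), fun h => ⟨inferInstance, inferInstance,
    fun g => ⟨q ^ 1, PN.pw hq h 1, by rw [pow_one, ez]⟩, fun m a _ b _ ⟨i, x, e⟩ ⟨j, y, e'⟩ =>
    ⟨i * j, x.mul y, by rw [mul_pow, pow_mul, e, mul_comm i, pow_mul, e']; simp⟩⟩⟩⟩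

end Pool.Agent.H68.Sch
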