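import Mathlib

namespace Pool.Agent.H68.Sg

open Complex

variable {B W : Type*} [Group W] {M : CoxeterMatrix B}

noncomputable def ze (m : ℕ) : ℂ := exp (Real.pi * I / m)

theorem ze_ne (m : ℕ) : ze m ≠ 0 := exp_ne_zero _

theorem ze_prim {m : ℕ} (hm : m ≠ 0) : IsPrimitiveRoot (ze m ^ 2) m := by
  have := Complex.isPrimitiveRoot_exp m hm
  convert this using 1
  rw [ze, ← Complex.exp_nat_mul]; congr 1; push_cast; ring

noncomputable def cc (M : CoxeterMatrix B) (i j : B) : ℂ := ze (M i j) + (ze (M i j))⁻¹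

theorem cc_self (i : B) : cc M i i = -2 := by
  have : ze 1 = -1 := by rw [ze]; simp [Complex.exp_pi_mul_I]
  rw [cc, M.diagonal, this]; norm_num

theorem cc_symm (i j : B) : cc M i j = cc M j i := by rw [cc, cc, M.symmetric]

noncomputable def refl (M : CoxeterMatrix B) (i : B) : Function.End (B → ℂ) :=
  fun A j => A j + cc M i j * A i

theorem eig (i j : B) (l : ℂ) (hl : l * cc M i j = l ^ 2 + 1) (k : ℕ) (A : B → ℂ) :
    ((refl M i * refl M j) ^ k) A i + l * ((refl M i * refl M j) ^ k) A j =
      (l ^ 2) ^ k * (A i + l * A j) := by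
  induction k generalizing A with
  | zero => simp [Function.End.one_def]
  | succ k ih =>
    rw [pow_succ, pow_succ]
    change ((refl M i * refl M j) ^ k) (refl M i (refl M j A)) i +
      l * ((refl M i * refl M j) ^ k) (refl M i (refl M j A)) j = _
    rw [ih]
    simp only [refl, cc_self, cc_symm j i]
    linear_combination ((l ^ 2) ^ k * (A i + cc M i j * A j + l * A j)) * hl

theorem inv' (i j x : B) (p q : ℂ) (hp : 2 * p - cc M i j * q = cc M i x)
    (hq : 2 * q - cc M i j * p = cc M j x) (k : ℕ) (A : B → ℂ) :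
    ((refl M i * refl M j) ^ k) A x + p * ((refl M i * refl M j) ^ k) A i +
      q * ((refl M i * refl M j) ^ k) A j = A x + p * A i + q * A j := by
  induction k generalizing A with
  | zero => simp [Function.End.one_def]
  | succ k ih =>
    rw [pow_succ]
    change ((refl M i * refl M j) ^ k) (refl M i (refl M j A)) x +
      p * ((refl M i * refl M j) ^ k) (refl M i (refl M j A)) i +
      q * ((refl M i * refl M j) ^ k) (refl M i (refl M j A)) j = _
    rw [ih]
    simp only [refl, cc_self, cc_symm j i]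
    linear_combination (-(A i + cc M i j * A j)) * hp - A j * hq

theorem liftable : M.IsLiftable (refl M) := by
  intro i j
  by_cases hij : i = j
  · subst hij
    rw [M.diagonal, pow_one]
    funext A x
    change refl M i (refl M i A) x = A x
    simp only [refl, cc_self]; ring
  by_cases h0 : M i j = 0
  · rw [h0, pow_zero]
  have h1 : M i j ≠ 1 := M.off_diagonal i j hij
  set z := ze (M i j) with hz
  have z0 : z ≠ 0 := ze_ne _
  have pr : IsPrimitiveRoot (z ^ 2) (M i j) := ze_prim h0
  have z1 : z ^ 2 ≠ 1 := pr.ne_one (by omega)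
  have hc : cc M i j = z + z⁻¹ := rfl
  have hd : z - z⁻¹ ≠ 0 := fun h => z1 (by
    have : z = z⁻¹ := sub_eq_zero.1 h
    rw [pow_two]; nth_rewrite 2 [this]; exact mul_inv_cancel₀ z0)
  have hzz : z * z⁻¹ = 1 := mul_inv_cancel₀ z0
  funext A x
  have e1 := eig (M := M) i j z (by rw [hc]; linear_combination hzz) (M i j) A
  have e2 := eig (M := M) i j z⁻¹ (by rw [hc]; linear_combination hzz) (M i j) A
  rw [pr.pow_eq_one, one_mul] at e1
  rw [inv_pow, inv_pow, pr.pow_eq_one, inv_one, one_mul] at e2
  set A' := ((refl M i * refl M j) ^ M i j) A with hA'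
  have ej : A' j = A j := by
    apply mul_left_cancel₀ hd
    linear_combination e1 - e2
  have ei : A' i = A i := by rw [ej] at e1; linear_combination e1
  have hD : 4 - cc M i j ^ 2 ≠ 0 := by
    have : 4 - cc M i j ^ 2 = -(z - z⁻¹) ^ 2 := by rw [hc]; linear_combination (-4) * hzz
    rw [this]; exact neg_ne_zero.2 (pow_ne_zero 2 hd)
  have e3 := inv' (M := M) i j x ((2 * cc M i x + cc M i j * cc M j x) / (4 - cc M i j ^ 2))
    ((2 * cc M j x + cc M i j * cc M i x) / (4 - cc M i j ^ 2)) (by field_simp; ring)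
    (by field_simp; ring) (M i j) A
  rw [← hA', ei, ej] at e3
  change A' x = A x
  linear_combination e3

theorem order_dvd (cs : CoxeterSystem M W) {i j : B} (h0 : M i j ≠ 0) {k : ℕ}
    (hk : (cs.simple i * cs.simple j) ^ k = 1) (hij : i ≠ j) : M i j ∣ k := by
  classical
  have h := congrArg (cs.lift ⟨refl M, liftable⟩) hk
  rw [map_pow, map_mul, cs.lift_apply_simple, cs.lift_apply_simple, map_one] at h
  have z0 := ze_ne (M i j)
  have e1 := eig (M := M) i j (ze (M i j)) (by
    rw [cc]; linear_combination mul_inv_cancel₀ z0) k (Pi.single i 1)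
  rw [h] at e1
  change (Pi.single i 1 : B → ℂ) i + _ * (Pi.single i 1 : B → ℂ) j = _ at e1
  rw [Pi.single_eq_same, Pi.single_eq_of_ne hij.symm, mul_zero, add_zero, mul_one] at e1
  exact ((ze_prim h0).pow_eq_one_iff_dvd k).1 e1.symm

end Pool.Agent.H68.Sg
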