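import Pool.Agent.H68.Sg1

namespace Pool.Agent.H68.Sg

open Finsupp

variable {B W : Type*} [Group W] {M : CoxeterMatrix B} (cs : CoxeterSystem M W)

noncomputable def act (w : W) (x : W →₀ ZMod 2) : W →₀ ZMod 2 := mapDomain (fun r => w * r * w⁻¹) x

theorem act_add (w : W) (x y : W →₀ ZMod 2) : act w (x + y) = act w x + act w y := mapDomain_add
theorem act_single (w r : W) : act w (single r 1) = single (w * r * w⁻¹) 1 := mapDomain_single
theorem act_one (x : W →₀ ZMod 2) : act (1 : W) x = x := by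
  rw [act]; simp only [one_mul, inv_one, mul_one]; exact mapDomain_id
theorem act_mul (v w : W) (x : W →₀ ZMod 2) : act (v * w) x = act v (act w x) := by
  rw [act, act, act, ← mapDomain_comp]; congr 1; funext r; simp [mul_assoc]
theorem act_zero (w : W) : act w 0 = 0 := mapDomain_zero
theorem act_apply (w r : W) (x : W →₀ ZMod 2) : act w x (w * r * w⁻¹) = x r :=
  mapDomain_apply (f := fun r => w * r * w⁻¹) (MulAut.conj w).injective x r
theorem two (x : W →₀ ZMod 2) : x + x = 0 := by
  ext r; rw [Finsupp.add_apply, Finsupp.zero_apply]; generalize x r = a; revert a; decide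

noncomputable def eta (i : B) : Function.End (W →₀ ZMod 2) :=
  fun x => single (cs.simple i) 1 + act (cs.simple i) x

/-- the `l`-th reflection of the dihedral subgroup -/
def rr (i j : B) (l : ℕ) : W := (cs.simple i * cs.simple j) ^ l * cs.simple i

noncomputable def seg (i j : B) (k : ℕ) : W →₀ ZMod 2 :=
  ∑ l ∈ Finset.range k, single (rr cs i j l) 1

theorem s_conj (i j : B) (k : ℕ) :
    cs.simple i * (cs.simple i * cs.simple j) ^ k = ((cs.simple i * cs.simple j) ^ k)⁻¹ * cs.simple i := by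
  have h : cs.simple i * (cs.simple i * cs.simple j) * (cs.simple i)⁻¹ = (cs.simple i * cs.simple j)⁻¹ := by
    simp [mul_assoc]
  rw [← inv_pow, ← h, conj_pow]; simp

theorem s_conj' (i j : B) (k : ℕ) :
    cs.simple i * ((cs.simple i * cs.simple j) ^ k)⁻¹ = (cs.simple i * cs.simple j) ^ k * cs.simple i := by
  rw [mul_inv_eq_iff_eq_mul, mul_assoc, s_conj, mul_inv_cancel_left]

theorem rr_even (i j : B) (k : ℕ) : (cs.simple i * cs.simple j) ^ k * cs.simple i *
    ((cs.simple i * cs.simple j) ^ k)⁻¹ = rr cs i j (2 * k) := by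
  rw [mul_assoc, s_conj', rr, two_mul, pow_add, mul_assoc]

theorem rr_odd (i j : B) (k : ℕ) : (cs.simple i * cs.simple j) ^ k * cs.simple i * cs.simple j *
    ((cs.simple i * cs.simple j) ^ k * cs.simple i)⁻¹ = rr cs i j (2 * k + 1) := by
  rw [mul_inv_rev, cs.inv_simple, s_conj', rr, two_mul, add_right_comm, pow_add, pow_succ]
  simp only [mul_assoc]

theorem eta_pow (i j : B) (k : ℕ) (x : W →₀ ZMod 2) :
    ((eta cs i * eta cs j) ^ k) x = seg cs i j (2 * k) + act ((cs.simple i * cs.simple j) ^ k) x := by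
  induction k generalizing x with
  | zero => simp [seg, act_one, Function.End.one_def]
  | succ k ih =>
    rw [pow_succ]
    change ((eta cs i * eta cs j) ^ k) (eta cs i (eta cs j x)) = _
    rw [ih, eta, eta, act_add, act_add, act_add, act_single, act_single, act_single, ← act_mul,
      ← act_mul, rr_even, mul_add 2 k 1, seg, seg, Finset.sum_range_succ, Finset.sum_range_succ,
      ← rr_odd, pow_succ]
    simp only [mul_assoc, add_assoc, mul_inv_rev, mul_one]

theorem rr_add (i j : B) (l : ℕ) : rr cs i j (M i j + l) = rr cs i j l := by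
  rw [rr, rr, pow_add, cs.simple_mul_simple_pow, one_mul]

theorem seg_add (i j : B) (k : ℕ) : seg cs i j (M i j + k) = seg cs i j (M i j) + seg cs i j k := by
  rw [seg, Finset.sum_range_add]; simp only [rr_add]; rfl

theorem eta_lift : M.IsLiftable (eta cs) := by
  intro i j
  funext x
  rw [eta_pow, cs.simple_mul_simple_pow, act_one, two_mul, seg_add, two, zero_add]; rfl

noncomputable def NN (w : W) : W →₀ ZMod 2 := cs.lift ⟨eta cs, eta_lift cs⟩ w 0

theorem lift_eq (w : W) (x : W →₀ ZMod 2) :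
    cs.lift ⟨eta cs, eta_lift cs⟩ w x = NN cs w + act w x := by
  induction w using cs.simple_induction_left generalizing x with
  | one => rw [NN, map_one, act_one]; exact (zero_add _).symm
  | mul_simple_left w i ih =>
    rw [NN, map_mul, cs.lift_apply_simple]
    change eta cs i (cs.lift ⟨eta cs, eta_lift cs⟩ w x) = eta cs i (NN cs w) + _
    rw [ih, eta, eta, act_add, act_mul, add_assoc]

theorem NN_mul (v w : W) : NN cs (v * w) = NN cs v + act v (NN cs w) := by
  rw [← lift_eq, NN, map_mul]; rfl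

theorem NN_one : NN cs 1 = 0 := by rw [NN, map_one]; rfl

theorem NN_simple (i : B) : NN cs (cs.simple i) = single (cs.simple i) 1 := by
  rw [NN, cs.lift_apply_simple, eta, act_zero, add_zero]

theorem NN_mul_simple (w : W) (i : B) :
    NN cs (w * cs.simple i) = NN cs w + single (w * cs.simple i * w⁻¹) 1 := by
  rw [NN_mul, NN_simple, act_single]

theorem NN_pow (i j : B) (k : ℕ) : NN cs ((cs.simple i * cs.simple j) ^ k) = seg cs i j (2 * k) := by
  rw [NN, map_pow, map_mul, cs.lift_apply_simple, cs.lift_apply_simple, eta_pow, act_zero, add_zero]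

theorem NN_rr (i j : B) (k : ℕ) : NN cs (rr cs i j k) = seg cs i j (2 * k + 1) := by
  rw [rr, NN_mul_simple, NN_pow, rr_even, seg, seg, Finset.sum_range_succ]

theorem NN_mem (ω : List B) (r : W) (h : NN cs (cs.wordProd ω) r ≠ 0) : r ∈ cs.leftInvSeq ω := by
  induction ω generalizing r with
  | nil => simp [NN_one] at h
  | cons i ω ih =>
    rw [cs.wordProd_cons, NN_mul, NN_simple, Finsupp.add_apply] at h
    rw [CoxeterSystem.leftInvSeq]
    by_cases hr : r = cs.simple i
    · exact hr ▸ List.mem_cons_self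
    · rw [single_eq_of_ne hr, zero_add] at h
      have e : r = cs.simple i * ((cs.simple i)⁻¹ * r * cs.simple i) * (cs.simple i)⁻¹ := by group
      rw [e, act_apply] at h
      exact List.mem_cons_of_mem _ (List.mem_map.2 ⟨_, ih _ h, e.symm⟩)

theorem NN_len (w r : W) (h : NN cs w r ≠ 0) : cs.length (r * w) < cs.length w := by
  obtain ⟨ω, hω, rfl⟩ := cs.exists_isReduced w
  exact (cs.isLeftInversion_of_mem_leftInvSeq hω (NN_mem cs ω r h)).2

theorem rr_inj {i j : B} (hij : i ≠ j) (h0 : M i j ≠ 0) {a b : ℕ} (ha : a < M i j) (hb : b < M i j)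
    (h : rr cs i j a = rr cs i j b) : a = b := by
  have h1 := mul_right_cancel h
  wlog hab : a ≤ b generalizing a b
  · exact (this hb ha h.symm h1.symm (by omega)).symm
  obtain ⟨c, rfl⟩ := Nat.exists_eq_add_of_le hab
  rw [pow_add, left_eq_mul] at h1
  have := Nat.eq_zero_of_dvd_of_lt (order_dvd cs h0 h1 hij) (by omega)
  omega

theorem seg_apply {i j : B} (hij : i ≠ j) (h0 : M i j ≠ 0) {k a : ℕ} (hk : k ≤ M i j)
    (ha : a < M i j) : seg cs i j k (rr cs i j a) = if a < k then 1 else 0 := by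
  classical
  rw [seg, finset_sum_apply]
  split_ifs with h
  · rw [Finset.sum_eq_single_of_mem a (Finset.mem_range.2 h), single_eq_same]
    intro b hb hba
    exact single_eq_of_ne fun e => hba (rr_inj cs hij h0 (by have := Finset.mem_range.1 hb; omega) ha e.symm)
  · refine Finset.sum_eq_zero fun b hb => single_eq_of_ne fun e => h ?_
    have := Finset.mem_range.1 hb
    rwa [rr_inj cs hij h0 ha (by omega) e]

def Mono (m : ℕ) (X : ℕ → Prop) : Prop :=
  (∀ a b, a ≤ b → b < m → X b → X a) ∨ (∀ a b, a ≤ b → b < m → X a → X b)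

theorem seg_mono {i j : B} (hij : i ≠ j) (h0 : M i j ≠ 0) {k : ℕ} (hk : k ≤ 2 * M i j) :
    Mono (M i j) (fun a => seg cs i j k (rr cs i j a) ≠ 0) := by
  by_cases h : k ≤ M i j
  · left
    intro a b hab hb
    beta_reduce
    rw [seg_apply cs hij h0 h hb, seg_apply cs hij h0 h (by omega)]
    split_ifs with h1 h2 <;> simp; omega
  · right
    obtain ⟨c, rfl⟩ := Nat.exists_eq_add_of_le (not_le.1 h).le
    intro a b hab hb
    have hc : c ≤ M i j := by omega
    beta_reduce
    rw [seg_add, Finsupp.add_apply, Finsupp.add_apply, seg_apply cs hij h0 hc hb, seg_apply cs hij h0 hc (by omega),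
      seg_apply cs hij h0 le_rfl hb, seg_apply cs hij h0 le_rfl (by omega), if_pos hb,
      if_pos (by omega : a < M i j)]
    split_ifs with h1 h2 h2
    · exact id
    · intro _; decide
    · omega
    · exact id

/-- the dihedral subgroup, as a set -/
def Dih (i j : B) (d : W) : Prop :=
  ∃ k < M i j, d = (cs.simple i * cs.simple j) ^ k ∨ d = rr cs i j k

theorem pow_mod' {i j : B} (h0 : M i j ≠ 0) (z : ℤ) :
    ∃ k < M i j, (cs.simple i * cs.simple j) ^ z = (cs.simple i * cs.simple j) ^ k := by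
  have h1 : (0 : ℤ) < M i j := by omega
  refine ⟨(z % M i j).toNat, by have := Int.emod_lt_of_pos z h1; omega, ?_⟩
  rw [← zpow_natCast, Int.toNat_of_nonneg (Int.emod_nonneg z h1.ne')]
  exact zpow_eq_zpow_emod' z (cs.simple_mul_simple_pow i j)

theorem dih_mul_rr {i j : B} (h0 : M i j ≠ 0) {d : W} (hd : Dih cs i j d) (l : ℕ) :
    Dih cs i j (d * rr cs i j l) := by
  obtain ⟨k, -, rfl | rfl⟩ := hd
  · obtain ⟨a, ha, e⟩ := pow_mod' cs h0 ((k + l : ℕ) : ℤ)
    rw [zpow_natCast] at e
    exact ⟨a, ha, Or.inr (by rw [rr, rr, ← mul_assoc, ← pow_add, e])⟩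
  · obtain ⟨a, ha, e⟩ := pow_mod' cs h0 ((k : ℤ) - l)
    refine ⟨a, ha, Or.inl ?_⟩
    rw [← e, rr, rr, mul_assoc, ← mul_assoc (cs.simple i), s_conj, zpow_sub, zpow_natCast,
      zpow_natCast, mul_assoc, cs.simple_mul_simple_self, mul_one]

theorem dih_conj {i j : B} (h0 : M i j ≠ 0) {d : W} (hd : Dih cs i j d) (l : ℕ) :
    (∃ a < M i j, d⁻¹ * rr cs i j l * d = rr cs i j a) ∧
      ∃ a < M i j, d * rr cs i j l * d⁻¹ = rr cs i j a := by
  obtain ⟨k, -, rfl | rfl⟩ := hd
  · constructor
    · obtain ⟨a, ha, e⟩ := pow_mod' cs h0 (-(k : ℤ) + l + -k)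
      refine ⟨a, ha, ?_⟩
      rw [rr, rr, ← e, mul_assoc, mul_assoc, s_conj, zpow_add, zpow_add, zpow_neg, zpow_natCast,
        zpow_natCast]
      simp only [mul_assoc]
    · obtain ⟨a, ha, e⟩ := pow_mod' cs h0 ((k : ℤ) + l + k)
      refine ⟨a, ha, ?_⟩
      rw [rr, rr, ← e, mul_assoc, mul_assoc, s_conj', zpow_add, zpow_add, zpow_natCast,
        zpow_natCast]
      simp only [mul_assoc]
  · have hi : (rr cs i j k)⁻¹ = rr cs i j k := by
      rw [rr, mul_inv_rev, cs.inv_simple, s_conj']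
    obtain ⟨a, ha, e⟩ := pow_mod' cs h0 ((k : ℤ) + -l + k)
    have key : rr cs i j k * rr cs i j l * rr cs i j k = rr cs i j a := by
      rw [rr, rr, rr, ← e, zpow_add, zpow_add, zpow_neg, zpow_natCast, zpow_natCast,
        mul_assoc _ (cs.simple i), ← mul_assoc (cs.simple i), s_conj, mul_assoc _ (cs.simple i),
        cs.simple_mul_simple_self, mul_one]
      simp only [mul_assoc]
    rw [hi]
    exact ⟨⟨a, ha, key⟩, ⟨a, ha, key⟩⟩

theorem exists_min {i j : B} (h0 : M i j ≠ 0) (w : W) :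
    ∃ d, Dih cs i j d ∧ ∀ l, NN cs (d⁻¹ * w) (rr cs i j l) = 0 := by
  obtain ⟨d, hd, hmin⟩ := WellFounded.has_min (measure fun d : W => cs.length (d⁻¹ * w)).wf
    {d | Dih cs i j d} ⟨1, 0, by omega, Or.inl (pow_zero _).symm⟩
  refine ⟨d, hd, fun l => by_contra fun h => hmin _ (dih_mul_rr cs h0 hd l) ?_⟩
  have hi : (rr cs i j l)⁻¹ = rr cs i j l := by
    rw [rr, mul_inv_rev, cs.inv_simple, s_conj']
  change cs.length ((d * rr cs i j l)⁻¹ * w) < cs.length (d⁻¹ * w)
  rw [mul_inv_rev, hi, mul_assoc]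
  exact NN_len cs _ _ h

theorem NN_mono {i j : B} (hij : i ≠ j) (h0 : M i j ≠ 0) (w : W) :
    Mono (M i j) (fun a => NN cs w (rr cs i j a) ≠ 0) := by
  obtain ⟨d, hd, h⟩ := exists_min cs h0 w
  have e : ∀ a, NN cs w (rr cs i j a) = NN cs d (rr cs i j a) := fun a => by
    obtain ⟨b, -, hb⟩ := (dih_conj cs h0 hd a).1
    have e1 : rr cs i j a = d * rr cs i j b * d⁻¹ := by rw [← hb]; group
    have e2 : NN cs w = NN cs d + act d (NN cs (d⁻¹ * w)) := by
      rw [← NN_mul, mul_inv_cancel_left]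
    rw [e2, Finsupp.add_apply]
    nth_rewrite 2 [e1]
    rw [act_apply, h, add_zero]
  simp only [e]
  obtain ⟨k, hk, rfl | rfl⟩ := hd
  · rw [NN_pow]; exact seg_mono cs hij h0 (by omega)
  · rw [NN_rr]; exact seg_mono cs hij h0 (by omega)

end Pool.Agent.H68.Sg
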