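import Mathlib

namespace Pool.Agent.H68.Sg

open FreeGroup

/-- The defining relators of `W'` on the generators `some s` (`s` simple) and `q = none`. -/
def rels {B : Type} (M : CoxeterMatrix B) (c : B → B → ℤˣ) : Set (FreeGroup (Option B)) :=
  {w | (∃ s : B, w = of (some s) ^ 2) ∨
    w = of none ^ 2 ∨
    (∃ s : B, w = of none * of (some s) * (of (some s) * of none)⁻¹) ∨
    (∃ s t : B, s ≠ t ∧ M s t ≠ 0 ∧ c s t = 1 ∧ w = (of (some s) * of (some t)) ^ M s t) ∨
    (∃ s t : B, s ≠ t ∧ M s t ≠ 0 ∧ c s t = -1 ∧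
      w = (of (some s) * of (some t)) ^ M s t * (of none)⁻¹)}

/-- A sign choice: constant on simultaneous conjugacy classes of pairs, and symmetric. -/
def IsSignChoice {B W : Type} [Group W] {M : CoxeterMatrix B} (cs : CoxeterSystem M W)
    (c : B → B → ℤˣ) : Prop :=
  (∀ s t s' t' : B, s ≠ t → M s t ≠ 0 → s' ≠ t' → M s' t' ≠ 0 →
    (∃ g : W, g * cs.simple s * g⁻¹ = cs.simple s' ∧ g * cs.simple t * g⁻¹ = cs.simple t') →
      c s t = c s' t') ∧
  ∀ s t : B, s ≠ t → M s t ≠ 0 → c s t = c t s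

end Pool.Agent.H68.Sg
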