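import Pool.Agent.H68.Sg2
import Pool.Agent.H68.SgDefs

namespace Pool.Agent.H68.Sg

open Finsupp

variable {B W : Type} [Group W] {M : CoxeterMatrix B} (cs : CoxeterSystem M W) (c : B → B → ℤˣ)

def Can (r r' : W) : Prop := ∃ (u : W) (s t : B), s ≠ t ∧ M s t ≠ 0 ∧ c s t = -1 ∧
  r = u * cs.simple s * u⁻¹ ∧ r' = u * cs.simple t * u⁻¹ ∧ NN cs u r = 0 ∧ NN cs u r' = 0

open Classical in
noncomputable def ff (r r' : W) : ZMod 2 := if WellOrderingRel r r' ∧ Can cs c r r' then 1 else 0

theorem ff_self (r : W) : ff cs c r r = 0 := if_neg fun h => irrefl r h.1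

noncomputable def FF (x : W →₀ ZMod 2) (r : W) : ZMod 2 :=
  linearCombination (ZMod 2) (fun r' => ff cs c r' r) x

theorem FF_add (x y : W →₀ ZMod 2) (r : W) : FF cs c (x + y) r = FF cs c x r + FF cs c y r :=
  map_add _ _ _

theorem FF_single (a r : W) : FF cs c (single a 1) r = ff cs c a r := by
  rw [FF, linearCombination_single, one_smul]

theorem two' (a : ZMod 2) : a + a = 0 := by revert a; decide

noncomputable def sg (i : B) : Equiv.Perm (W × ZMod 2) :=
  Function.Involutive.toPerm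
    (fun x => (x.1 * cs.simple i, x.2 + FF cs c (NN cs x.1) (x.1 * cs.simple i * x.1⁻¹))) (by
      rintro ⟨w, e⟩
      have h : w * cs.simple i * cs.simple i * (w * cs.simple i)⁻¹ = w * cs.simple i * w⁻¹ := by
        simp [mul_assoc]
      refine Prod.ext (by simp [mul_assoc]) ?_
      simp only
      rw [h, NN_mul_simple, FF_add, FF_single, ff_self, add_zero, add_assoc, two', add_zero])

theorem sg_apply (i : B) (w : W) (e : ZMod 2) : sg cs c i (w, e) =
    (w * cs.simple i, e + FF cs c (NN cs w) (w * cs.simple i * w⁻¹)) := rfl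

theorem sg_pow (i j : B) (k : ℕ) (w : W) (e : ZMod 2) :
    ((sg cs c j * sg cs c i) ^ k) (w, e) = (w * (cs.simple i * cs.simple j) ^ k,
      e + ∑ l ∈ Finset.range (2 * k), FF cs c (NN cs w + act w (seg cs i j l))
        (w * rr cs i j l * w⁻¹)) := by
  induction k with
  | zero => simp
  | succ k ih =>
    rw [pow_succ', Equiv.Perm.mul_apply, ih, Equiv.Perm.mul_apply, sg_apply, sg_apply,
      mul_add 2 k 1, mul_one, Finset.sum_range_succ, Finset.sum_range_succ, ← NN_pow, ← NN_rr,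
      ← NN_mul, ← NN_mul, ← rr_even, ← rr_odd, rr, pow_succ]
    simp only [mul_assoc, add_assoc, mul_inv_rev]

theorem sum_conj {i j : B} (hij : i ≠ j) (h0 : M i j ≠ 0) {d : W} (hd : Dih cs i j d)
    (g : W → ZMod 2) : ∑ a ∈ Finset.range (M i j), g (d⁻¹ * rr cs i j a * d) =
      ∑ a ∈ Finset.range (M i j), g (rr cs i j a) := by
  classical
  have inj : Set.InjOn (rr cs i j) (Finset.range (M i j) : Set ℕ) := fun a ha b hb h =>
    rr_inj cs hij h0 (by simpa using ha) (by simpa using hb) h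
  rw [← Finset.sum_image (f := fun x => g (d⁻¹ * x * d)) inj, ← Finset.sum_image (f := g) inj]
  refine Finset.sum_nbij' (fun x => d⁻¹ * x * d) (fun x => d * x * d⁻¹) ?_ ?_ ?_ ?_ ?_
  · intro x hx
    obtain ⟨a, -, rfl⟩ := Finset.mem_image.1 hx
    obtain ⟨b, hb, e⟩ := (dih_conj cs h0 hd a).1
    exact Finset.mem_image.2 ⟨b, Finset.mem_range.2 hb, e.symm⟩
  · intro x hx
    obtain ⟨a, -, rfl⟩ := Finset.mem_image.1 hx
    obtain ⟨b, hb, e⟩ := (dih_conj cs h0 hd a).2
    exact Finset.mem_image.2 ⟨b, Finset.mem_range.2 hb, e.symm⟩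
  · intro x _; group
  · intro x _; group
  · intro x _; rfl

theorem mono_aux {m a b : ℕ} {X : ℕ → Prop} (hab : a < b) (hb : b < m) (ha' : ¬ X a) (hb' : ¬ X b)
    (h1 : Mono m (fun l => X l ∨ l = a)) (h2 : Mono m (fun l => X l ∨ l = b)) :
    a = 0 ∧ b = m - 1 := by
  rcases h1 with h1 | h1
  · rcases h2 with h2 | h2
    · rcases h2 a b hab.le hb (Or.inr rfl) with h | h
      exacts [absurd h ha', by omega]
    · constructor
      · by_contra h
        rcases h1 0 a (by omega) (by omega) (Or.inr rfl) with h3 | h3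
        · rcases h2 0 a (by omega) (by omega) (Or.inl h3) with h4 | h4
          exacts [ha' h4, by omega]
        · exact h h3.symm
      · by_contra h
        rcases h2 b (m - 1) (by omega) (by omega) (Or.inr rfl) with h3 | h3
        · rcases h1 b (m - 1) (by omega) (by omega) (Or.inl h3) with h4 | h4
          exacts [hb' h4, by omega]
        · exact h h3.symm
  · rcases h1 a b hab.le hb (Or.inr rfl) with h | h
    exacts [absurd h hb', by omega]

theorem mono_congr {m : ℕ} {X Y : ℕ → Prop} (h : ∀ l < m, X l ↔ Y l) (hX : Mono m X) : Mono m Y := by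
  rcases hX with hX | hX
  · exact Or.inl fun a b hab hb k => (h a (by omega)).1 (hX a b hab hb ((h b hb).2 k))
  · exact Or.inr fun a b hab hb k => (h b hb).1 (hX a b hab hb ((h a (by omega)).2 k))

theorem rr_zero (i j : B) : rr cs i j 0 = cs.simple i := by simp [rr]

theorem rr_last {i j : B} (h0 : M i j ≠ 0) : rr cs i j (M i j - 1) = cs.simple j := by
  have h := cs.simple_mul_simple_pow i j
  rw [show M i j = M i j - 1 + 1 by omega, pow_succ, ← mul_assoc, mul_eq_one_iff_eq_inv,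
    cs.inv_simple] at h
  exact h

theorem can_ends {i j : B} (hij : i ≠ j) (h0 : M i j ≠ 0) {u : W}
    (hu : ∀ l, NN cs u (u * rr cs i j l * u⁻¹) = 0) {a b : ℕ} (ha : a < M i j) (hb : b < M i j)
    (hab : a ≠ b) (h : Can cs c (u * rr cs i j a * u⁻¹) (u * rr cs i j b * u⁻¹)) :
    (a = 0 ∧ b = M i j - 1) ∨ (b = 0 ∧ a = M i j - 1) := by
  obtain ⟨v, s, t, -, -, -, e1, e2, n1, n2⟩ := h
  have tr : ∀ (x : W) l, NN cs (u⁻¹ * x) (rr cs i j l) = NN cs x (u * rr cs i j l * u⁻¹) := by
    intro x l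
    have : NN cs x = NN cs u + act u (NN cs (u⁻¹ * x)) := by rw [← NN_mul, mul_inv_cancel_left]
    rw [this, Finsupp.add_apply, hu, zero_add, act_apply]
  have key : ∀ (k : ℕ) (y : B), k < M i j → u * rr cs i j k * u⁻¹ = v * cs.simple y * v⁻¹ →
      NN cs v (u * rr cs i j k * u⁻¹) = 0 →
      Mono (M i j) (fun l => NN cs v (u * rr cs i j l * u⁻¹) ≠ 0 ∨ l = k) := by
    intro k y hk e n
    refine mono_congr (fun l hl => ?_) (NN_mono cs hij h0 (u⁻¹ * (v * cs.simple y)))
    rw [tr, NN_mul_simple, ← e, Finsupp.add_apply]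
    by_cases hlk : l = k
    · subst hlk; rw [n, single_eq_same]; simp
    · rw [single_eq_of_ne fun e' => hlk (rr_inj cs hij h0 hl hk
        (mul_left_cancel (mul_right_cancel e'))), add_zero]
      simp [hlk]
  have k1 := key a s ha e1 n1
  have k2 := key b t hb e2 n2
  rcases lt_or_gt_of_ne hab with h | h
  · exact Or.inl (mono_aux h hb (fun x => x n1) (fun x => x n2) k1 k2)
  · exact Or.inr (mono_aux h ha (fun x => x n2) (fun x => x n1) k2 k1)

theorem can_iff (hc : IsSignChoice cs c) {i j : B} (hij : i ≠ j) (h0 : M i j ≠ 0) {u : W}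
    (h1 : NN cs u (u * cs.simple i * u⁻¹) = 0) (h2 : NN cs u (u * cs.simple j * u⁻¹) = 0) :
    Can cs c (u * cs.simple i * u⁻¹) (u * cs.simple j * u⁻¹) ↔ c i j = -1 := by
  refine ⟨?_, fun h => ⟨u, i, j, hij, h0, h, rfl, rfl, h1, h2⟩⟩
  rintro ⟨v, s, t, hst, m0, hc', e1, e2, -, -⟩
  rw [← hc']
  refine hc.1 i j s t hij h0 hst m0 ⟨v⁻¹ * u, ?_, ?_⟩
  · rw [mul_inv_rev, inv_inv, mul_assoc v⁻¹, mul_assoc v⁻¹, ← mul_assoc _ u⁻¹, e1]; group
  · rw [mul_inv_rev, inv_inv, mul_assoc v⁻¹, mul_assoc v⁻¹, ← mul_assoc _ u⁻¹, e2]; group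

theorem kappa (hc : IsSignChoice cs c) {i j : B} (hij : i ≠ j) (h0 : M i j ≠ 0) (w : W) :
    ∑ l ∈ Finset.range (M i j), ∑ a ∈ Finset.range (M i j),
      ff cs c (w * rr cs i j a * w⁻¹) (w * rr cs i j l * w⁻¹) = if c i j = -1 then 1 else 0 := by
  obtain ⟨d, hd, h⟩ := exists_min cs h0 w⁻¹
  obtain ⟨u, rfl⟩ : ∃ u, w = u * d⁻¹ := ⟨w * d, by group⟩
  have hu : ∀ l, NN cs u (u * rr cs i j l * u⁻¹) = 0 := fun l => by
    have e : NN cs u + act u (NN cs u⁻¹) = 0 := by rw [← NN_mul, mul_inv_cancel, NN_one]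
    have e2 := DFunLike.congr_fun e (u * rr cs i j l * u⁻¹)
    have e3 := h l
    rw [mul_inv_rev, inv_inv, inv_mul_cancel_left] at e3
    rwa [Finsupp.add_apply, act_apply, e3, add_zero] at e2
  have e : ∀ x, u * d⁻¹ * x * (u * d⁻¹)⁻¹ = u * (d⁻¹ * x * d) * u⁻¹ := fun x => by group
  simp only [e]
  rw [sum_conj cs hij h0 hd (fun y => ∑ a ∈ Finset.range (M i j),
    ff cs c (u * (d⁻¹ * rr cs i j a * d) * u⁻¹) (u * y * u⁻¹))]
  simp only [fun y => sum_conj cs hij h0 hd (fun x => ff cs c (u * x * u⁻¹) y)]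
  have h1 : M i j ≠ 1 := M.off_diagonal i j hij
  have z : ∀ a < M i j, ∀ b < M i j, ¬((a = 0 ∧ b = M i j - 1) ∨ (b = 0 ∧ a = M i j - 1)) →
      ff cs c (u * rr cs i j a * u⁻¹) (u * rr cs i j b * u⁻¹) = 0 := by
    intro a ha b hb hn
    by_cases hab : a = b
    · rw [hab, ff_self]
    · exact if_neg fun k => hn (can_ends cs c hij h0 hu ha hb hab k.2)
  rw [Finset.sum_eq_add_of_mem 0 (M i j - 1) (Finset.mem_range.2 (by omega))
    (Finset.mem_range.2 (by omega)) (by omega) (fun l hl hl' => Finset.sum_eq_zero fun a ha =>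
      z a (Finset.mem_range.1 ha) l (Finset.mem_range.1 hl) (by omega)),
    Finset.sum_eq_single_of_mem (M i j - 1) (Finset.mem_range.2 (by omega)) (fun a ha ha' =>
      z a (Finset.mem_range.1 ha) 0 (by omega) (by omega)),
    Finset.sum_eq_single_of_mem 0 (Finset.mem_range.2 (by omega)) (fun a ha ha' =>
      z a (Finset.mem_range.1 ha) _ (by omega) (by omega))]
  have n1 := hu 0
  have n2 := hu (M i j - 1)
  have ne : u * rr cs i j 0 * u⁻¹ ≠ u * rr cs i j (M i j - 1) * u⁻¹ := fun e' => by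
    have := rr_inj cs hij h0 (by omega) (by omega) (mul_left_cancel (mul_right_cancel e'))
    omega
  rw [rr_zero] at n1 ne ⊢
  rw [rr_last cs h0] at n2 ne ⊢
  have c1 := can_iff cs c hc hij h0 n1 n2
  have c2 := can_iff cs c hc hij.symm (M.symmetric i j ▸ h0) n2 n1
  rw [← hc.2 i j hij h0] at c2
  rw [ff, ff, c1, c2]
  rcases trichotomous_of WellOrderingRel (u * cs.simple i * u⁻¹) (u * cs.simple j * u⁻¹) with k | k | k
  · simp [k, asymm k]
  · exact absurd k ne
  · simp [k, asymm k]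

theorem sg_rel (hc : IsSignChoice cs c) {i j : B} (hij : i ≠ j) (h0 : M i j ≠ 0) (w : W)
    (e : ZMod 2) : ((sg cs c j * sg cs c i) ^ M i j) (w, e) =
      (w, e + if c i j = -1 then 1 else 0) := by
  rw [sg_pow, cs.simple_mul_simple_pow, mul_one, ← kappa cs c hc hij h0 w, two_mul,
    Finset.sum_range_add, ← Finset.sum_add_distrib]
  congr 2
  refine Finset.sum_congr rfl fun l _ => ?_
  rw [rr_add, seg_add, act_add, FF_add, FF_add, FF_add]
  have : FF cs c (act w (seg cs i j (M i j))) (w * rr cs i j l * w⁻¹) =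
      ∑ a ∈ Finset.range (M i j), ff cs c (w * rr cs i j a * w⁻¹) (w * rr cs i j l * w⁻¹) := by
    rw [seg, act, ← mapDomain.addMonoidHom_apply, map_sum, FF, map_sum]
    refine Finset.sum_congr rfl fun a _ => ?_
    rw [mapDomain.addMonoidHom_apply, mapDomain_single, linearCombination_single, one_smul]
  rw [← this]
  generalize FF cs c (NN cs w) _ = x
  generalize FF cs c (act w (seg cs i j l)) _ = y
  generalize FF cs c (act w (seg cs i j (M i j))) _ = z
  revert x y z; decide

def qq : Equiv.Perm (W × ZMod 2) :=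
  Function.Involutive.toPerm (fun x => (x.1, x.2 + 1)) (by
    rintro ⟨w, e⟩; simp only; rw [add_assoc, two', add_zero])

theorem main (hc : IsSignChoice cs c) :
    (PresentedGroup.of none : PresentedGroup (rels M c)) ≠ 1 := by
  let f : Option B → Equiv.Perm (W × ZMod 2) := fun o => o.elim qq (sg cs c)
  have hf : ∀ r ∈ rels M c, FreeGroup.lift f r = 1 := by
    rintro r (⟨s, rfl⟩ | rfl | ⟨s, rfl⟩ | ⟨s, t, hst, h0, h1, rfl⟩ | ⟨s, t, hst, h0, h1, rfl⟩)
    · rw [map_pow, FreeGroup.lift_apply_of, pow_two]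
      exact Equiv.ext fun x => (sg cs c s).left_inv x
    · rw [map_pow, FreeGroup.lift_apply_of, pow_two]
      exact Equiv.ext fun x => (qq (W := W)).left_inv x
    · simp only [map_mul, map_inv, FreeGroup.lift_apply_of]
      rw [mul_inv_eq_one]
      refine Equiv.ext fun ⟨w, e⟩ => ?_
      change (w * cs.simple s, e + _ + 1) = (w * cs.simple s, e + 1 + _)
      rw [add_right_comm]; rfl
    · simp only [map_mul, map_pow, FreeGroup.lift_apply_of]
      refine Equiv.ext fun ⟨w, e⟩ => ?_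
      have := sg_rel cs c hc hst.symm (M.symmetric s t ▸ h0) w e
      rw [← hc.2 s t hst h0, h1, if_neg (by decide), add_zero, M.symmetric t s] at this
      exact this
    · simp only [map_mul, map_pow, map_inv, FreeGroup.lift_apply_of]
      rw [mul_inv_eq_one]
      refine Equiv.ext fun ⟨w, e⟩ => ?_
      have := sg_rel cs c hc hst.symm (M.symmetric s t ▸ h0) w e
      rw [← hc.2 s t hst h0, h1, if_pos rfl, M.symmetric t s] at this
      exact this
  intro h
  have := congrArg (PresentedGroup.toGroup hf) h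
  rw [PresentedGroup.toGroup.of, map_one] at this
  have h2 := congrArg Prod.snd (DFunLike.congr_fun this ((1 : W), (0 : ZMod 2)))
  change (0 : ZMod 2) + 1 = 0 at h2
  exact absurd h2 (by decide)

end Pool.Agent.H68.Sg
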