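import Pool.Agent.H68.Fit4

set_option autoImplicit false

namespace Pool.Agent.H68.Sx

open scoped commutatorElement
open Pool.Agent.H68.Fit Subgroup

variable {G H : Type} [Group G] [Group H]

def pe (p : ℕ) (u : G) : Prop := ∃ k, u ^ p ^ k = 1

def QQ (p : ℕ) (N : Subgroup G) : Subgroup G := closure {u | u ∈ N ∧ pe p u}

def PP (p r : ℕ) (N : Subgroup G) : Subgroup G :=
  closure {x | ∃ u ∈ N, pe p u ∧ ∃ γ ∈ N, pe r γ ∧ x = ⁅u, γ⁆}

def Cen (r : ℕ) (N : Subgroup G) : Subgroup G := centralizer {γ | γ ∈ N ∧ pe r γ}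

def Br (p r : ℕ) (N : Subgroup G) (w : G) : Subgroup G :=
  closure {x | ∃ a ∈ PP p r N, x = ⁅w, a⁆}

structure YY (p r q : ℕ) (N : Subgroup G) : Prop where
  h0 : ∀ u ∈ QQ p N, pe p u
  h1 : ∀ g ∈ N, ∃ k, pe p (g ^ r ^ k)
  c1 : ∀ a ∈ PP p r N, ∀ b ∈ PP p r N, ⁅a, b⁆ ∈ Cen r N
  c2 : ∀ w ∈ PP p r N, (∀ a ∈ PP p r N, Commute w a) → w ∈ Cen r N
  c3 : PP p r N ≤ closure {w | w ∈ PP p r N ∧ Nat.card (Br p r N w) ≤ q}
  c4 : ∀ w ∈ PP p r N, Br p r N w = ⊥ ∨ q ≤ Nat.card (Br p r N w)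
  c5 : ∀ w ∈ PP p r N, ∀ w' ∈ PP p r N, Nat.card (Br p r N w) ≤ q → Nat.card (Br p r N w') ≤ q →
    Br p r N w = Br p r N w' ∨ Commute w w'

variable {p r q : ℕ}

theorem pe.map {u : G} (h : pe p u) (f : G →* H) : pe p (f u) :=
  h.imp fun _ e => by rw [← map_pow, e, map_one]

theorem pe.conj {u : G} (h : pe p u) (g : G) : pe p (g * u * g⁻¹) :=
  h.map (MulAut.conj g).toMonoidHom

theorem pe.inv {u : G} (h : pe p u) : pe p u⁻¹ := h.imp fun _ e => by rw [inv_pow, e, inv_one]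

theorem pe_of_inj {u : G} {f : G →* H} (hf : Function.Injective f) (h : pe p (f u)) : pe p u :=
  h.imp fun _ e => hf (by rw [map_pow, e, map_one])

theorem mem_cen {N : Subgroup G} {w : G} : w ∈ Cen r N ↔ ∀ γ ∈ N, pe r γ → Commute w γ :=
  ⟨fun h γ a b => (h γ ⟨a, b⟩).symm, fun h γ a => (h γ a.1 a.2).symm⟩

theorem closure_nor {s : Set G} (h : ∀ a ∈ s, ∀ g, g * a * g⁻¹ ∈ s) : (closure s).Normal :=
  ⟨fun a ha g => (show closure s ≤ (closure s).comap (MulAut.conj g).toMonoidHom from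
    (closure_le _).2 fun b hb => subset_closure (h b hb g)) ha⟩

instance (N : Subgroup G) [h : N.Normal] : (QQ p N).Normal :=
  closure_nor fun _ ha g => ⟨h.conj_mem _ ha.1 g, ha.2.conj g⟩

instance (N : Subgroup G) [h : N.Normal] : (PP p r N).Normal :=
  closure_nor (by
    rintro _ ⟨u, a, b, γ, c, d, rfl⟩ g
    exact ⟨_, h.conj_mem _ a g, b.conj g, _, h.conj_mem _ c g, d.conj g,
      conjugate_commutatorElement _ _ _⟩)

instance (N : Subgroup G) [h : N.Normal] : (Cen r N).Normal :=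
  ⟨fun a ha g => mem_cen.2 fun γ b c => by
    have := (mem_cen.1 ha _ (h.conj_mem _ b g⁻¹) (c.conj g⁻¹)).map (MulAut.conj g)
    simpa [mul_assoc] using this⟩

theorem qq_le (N : Subgroup G) : QQ p N ≤ N := (closure_le _).2 fun _ h => h.1

theorem qq_mono {N M : Subgroup G} (h : N ≤ M) : QQ p N ≤ QQ p M :=
  closure_mono fun _ a => ⟨h a.1, a.2⟩

theorem pp_mono {N M : Subgroup G} (h : N ≤ M) : PP p r N ≤ PP p r M :=
  closure_mono fun _ ⟨u, a, b, γ, c, d, e⟩ => ⟨u, h a, b, γ, h c, d, e⟩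

theorem cen_anti {N M : Subgroup G} (h : N ≤ M) : Cen r M ≤ Cen r N := fun _ a =>
  mem_cen.2 fun γ b => mem_cen.1 a γ (h b)

theorem pp_le_qq (N : Subgroup G) : PP p r N ≤ QQ p N := (closure_le _).2 (by
  rintro _ ⟨u, a, b, γ, c, d, rfl⟩
  rw [show ⁅u, γ⁆ = u * (γ * u⁻¹ * γ⁻¹) by simp [commutatorElement_def, mul_assoc]]
  exact mul_mem (subset_closure ⟨a, b⟩)
    (subset_closure ⟨mul_mem (mul_mem c (inv_mem a)) (inv_mem c), b.inv.conj γ⟩))

theorem pp_le {N D : Subgroup G} (h : ∀ γ ∈ N, pe r γ → γ ∈ D) : PP p r N ≤ D :=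
  (closure_le _).2 (by
    rintro _ ⟨u, a, b, γ, c, d, rfl⟩
    exact mul_mem (h _ (mul_mem (mul_mem a c) (inv_mem a)) (d.conj u)) (inv_mem (h _ c d)))

theorem comm_pp {N : Subgroup G} (f : G →* H) {x : H} (h : ∀ γ ∈ N, pe r γ → Commute x (f γ))
    {a : G} (ha : a ∈ PP p r N) : Commute x (f a) :=
  (mem_centralizer_singleton_iff.1 (pp_le (D := (centralizer {x}).comap f)
    (fun γ a b => mem_centralizer_singleton_iff.2 (h γ a b).symm) ha)).symm

theorem cen_pp {N : Subgroup G} {x a : G} (h : x ∈ Cen r N) (ha : a ∈ PP p r N) : Commute x a :=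
  comm_pp (MonoidHom.id G) (mem_cen.1 h) ha

theorem br_mem {N : Subgroup G} (w : G) {a : G} (ha : a ∈ PP p r N) : ⁅w, a⁆ ∈ Br p r N w :=
  subset_closure ⟨a, ha, rfl⟩

theorem br_le {N T : Subgroup G} {w : G} (h : ∀ a ∈ PP p r N, ⁅w, a⁆ ∈ T) : Br p r N w ≤ T :=
  (closure_le _).2 (by rintro _ ⟨a, ha, rfl⟩; exact h a ha)

theorem br_bot {N : Subgroup G} {w : G} : Br p r N w = ⊥ ↔ ∀ a ∈ PP p r N, Commute w a :=
  ⟨fun h a ha => commutatorElement_eq_one_iff_commute.1 (mem_bot.1 (h ▸ br_mem w ha)),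
    fun h => eq_bot_iff.2 (br_le fun a ha => (h a ha).commutator_eq)⟩

theorem pp_map (f : G →* H) (hf : Function.Injective f) (K : Subgroup G) :
    PP p r (K.map f) = (PP p r K).map f := by
  rw [PP, PP, MonoidHom.map_closure]
  congr 1
  ext x
  constructor
  · rintro ⟨_, ⟨u, a, rfl⟩, b, _, ⟨γ, c, rfl⟩, d, rfl⟩
    exact ⟨_, ⟨u, a, pe_of_inj hf b, γ, c, pe_of_inj hf d, rfl⟩, map_commutatorElement _ _ _⟩
  · rintro ⟨_, ⟨u, a, b, γ, c, d, rfl⟩, rfl⟩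
    exact ⟨_, ⟨u, a, rfl⟩, b.map f, _, ⟨γ, c, rfl⟩, d.map f, map_commutatorElement _ _ _⟩

theorem qq_map (f : G →* H) (hf : Function.Injective f) (K : Subgroup G) :
    QQ p (K.map f) = (QQ p K).map f := by
  rw [QQ, QQ, MonoidHom.map_closure]
  congr 1
  ext x
  constructor
  · rintro ⟨⟨u, a, rfl⟩, b⟩
    exact ⟨_, ⟨a, pe_of_inj hf b⟩, rfl⟩
  · rintro ⟨u, ⟨a, b⟩, rfl⟩
    exact ⟨⟨u, a, rfl⟩, b.map f⟩

theorem br_map (f : G →* H) (hf : Function.Injective f) (K : Subgroup G) (w : G) :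
    Br p r (K.map f) (f w) = (Br p r K w).map f := by
  rw [Br, Br, MonoidHom.map_closure, pp_map f hf]
  congr 1
  ext x
  constructor
  · rintro ⟨_, ⟨u, a, rfl⟩, rfl⟩
    exact ⟨_, ⟨u, a, rfl⟩, map_commutatorElement _ _ _⟩
  · rintro ⟨_, ⟨u, a, rfl⟩, rfl⟩
    exact ⟨_, ⟨u, a, rfl⟩, map_commutatorElement _ _ _⟩

theorem card_br (f : G →* H) (hf : Function.Injective f) (K : Subgroup G) (w : G) :
    Nat.card (Br p r (K.map f) (f w)) = Nat.card (Br p r K w) := by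
  rw [br_map f hf, card_map_of_injective hf]

theorem comm_inj {f : G →* H} (hf : Function.Injective f) {a b : G} :
    Commute (f a) (f b) ↔ Commute a b :=
  ⟨fun h => hf (by rw [map_mul, map_mul, h]), fun h => h.map f⟩

theorem cen_map (f : G →* H) (hf : Function.Injective f) (K : Subgroup G) (w : G) :
    f w ∈ Cen r (K.map f) ↔ w ∈ Cen r K := by
  rw [mem_cen, mem_cen]
  constructor
  · intro h γ a b
    exact (comm_inj hf).1 (h _ ⟨γ, a, rfl⟩ (b.map f))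
  · rintro h _ ⟨γ, a, rfl⟩ b
    exact (h γ a (pe_of_inj hf b)).map f

theorem yy_map (f : G →* H) (hf : Function.Injective f) (K : Subgroup G) :
    YY p r q (K.map f) ↔ YY p r q K := by
  have e := pp_map (p := p) (r := r) f hf K
  have m : ∀ {a}, a ∈ PP p r K → f a ∈ PP p r (K.map f) := fun h => e ▸ ⟨_, h, rfl⟩
  have e3 : closure {w | w ∈ PP p r (K.map f) ∧ Nat.card (Br p r (K.map f) w) ≤ q} =
      (closure {w | w ∈ PP p r K ∧ Nat.card (Br p r K w) ≤ q}).map f := by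
    rw [MonoidHom.map_closure, e]
    congr 1
    ext x
    constructor
    · rintro ⟨⟨u, a, rfl⟩, b⟩
      exact ⟨_, ⟨a, card_br f hf K u ▸ b⟩, rfl⟩
    · rintro ⟨u, ⟨a, b⟩, rfl⟩
      exact ⟨⟨u, a, rfl⟩, (card_br f hf K u).symm ▸ b⟩
  constructor
  · intro h
    refine ⟨fun u hu => pe_of_inj hf (h.h0 _ (qq_map f hf K ▸ ⟨u, hu, rfl⟩)),
      fun g hg => (h.h1 _ ⟨g, hg, rfl⟩).imp fun k a => pe_of_inj hf (by rwa [map_pow]),
      fun a ha b hb => (cen_map f hf K _).1 (by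
        rw [map_commutatorElement]; exact h.c1 _ (m ha) _ (m hb)),
      fun w hw a => (cen_map f hf K _).1 (h.c2 _ (m hw) ?_), ?_, fun w hw => ?_,
      fun w hw w' hw' a b => ?_⟩
    · rw [e]; rintro _ ⟨x, hx, rfl⟩; exact (a x hx).map f
    · rw [← map_le_map_iff_of_injective hf, ← e, ← e3]; exact h.c3
    · have := h.c4 _ (m hw)
      rwa [card_br f hf, br_map f hf, map_eq_bot_iff_of_injective _ hf] at this
    · have := h.c5 _ (m hw) _ (m hw') (by rwa [card_br f hf]) (by rwa [card_br f hf])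
      rwa [br_map f hf, br_map f hf, (map_injective hf).eq_iff, comm_inj hf] at this
  · intro h
    refine ⟨?_, ?_, ?_, ?_, ?_, ?_, ?_⟩
    · rw [qq_map f hf]; rintro _ ⟨u, hu, rfl⟩; exact (h.h0 u hu).map f
    · rintro _ ⟨g, hg, rfl⟩
      exact (h.h1 g hg).imp fun k a => by rw [← map_pow]; exact a.map f
    · rw [e]; rintro _ ⟨a, ha, rfl⟩ _ ⟨b, hb, rfl⟩
      rw [← map_commutatorElement, cen_map f hf]; exact h.c1 a ha b hb
    · rw [e]; rintro _ ⟨a, ha, rfl⟩ hb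
      rw [cen_map f hf]; exact h.c2 a ha fun x hx => (comm_inj hf).1 (hb _ ⟨x, hx, rfl⟩)
    · rw [e3, e]; exact map_mono h.c3
    · rw [e]; rintro _ ⟨a, ha, rfl⟩
      rw [card_br f hf, br_map f hf, map_eq_bot_iff_of_injective _ hf]; exact h.c4 a ha
    · rw [e]; rintro _ ⟨a, ha, rfl⟩ _ ⟨b, hb, rfl⟩
      rw [card_br f hf, card_br f hf, br_map f hf, br_map f hf, (map_injective hf).eq_iff,
        comm_inj hf]
      exact h.c5 a ha b hb

variable [hp : Fact p.Prime] [hr : Fact r.Prime] (hne : p ≠ r)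
include hne

theorem cop (a b : ℕ) : Nat.Coprime (p ^ a) (r ^ b) :=
  Nat.Coprime.pow _ _ ((Nat.coprime_primes hp.out hr.out).2 hne)

theorem star {u γ : G} (h1 : pe p ⁅u, γ⁆) (h2 : pe r γ) (h3 : Commute ⁅u, γ⁆ γ) :
    Commute u γ := by
  obtain ⟨a, ha⟩ := h1
  obtain ⟨b, hb⟩ := h2
  have : (⁅u, γ⁆ * γ) ^ r ^ b = 1 := by
    rw [show ⁅u, γ⁆ * γ = u * γ * u⁻¹ by simp [commutatorElement_def], conj_pow, hb]; simp
  rw [h3.mul_pow, hb, mul_one] at this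
  exact commutatorElement_eq_one_iff_commute.1 (mem_bot.1 (mem_of_cop (cop hne a b) ha this))

theorem comm_mk {M : Subgroup G} [M.Normal] {a b : G} :
    Commute (QuotientGroup.mk' M a) (QuotientGroup.mk' M b) ↔ ⁅a, b⁆ ∈ M := by
  rw [← commutatorElement_eq_one_iff_commute, ← map_commutatorElement]
  exact QuotientGroup.eq_one_iff _

theorem b4 {N B : Subgroup G} [hN : N.Normal] [hB : B.Normal] (pB : ∀ u ∈ B, pe p u) {u γ : G}
    (hu : u ∈ B) (h1 : γ ∈ N) (h2 : pe r γ) : ⁅u, γ⁆ ∈ PP p r N := by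
  have a := pB _ (commutator_le_left B N (commutator_mem_commutator hu h1))
  have b := commutator_le_right B N (commutator_mem_commutator hu h1)
  rw [← comm_mk hne]
  refine star hne (map_commutatorElement (QuotientGroup.mk' (PP p r N)) u γ ▸ a.map _) (h2.map _) ?_
  rw [← map_commutatorElement, comm_mk hne]
  exact subset_closure ⟨_, b, a, γ, h1, h2, rfl⟩

theorem dec [Finite G] (N : Subgroup G) [hN : N.Normal] (h0 : ∀ u ∈ QQ p N, pe p u)
    (h1 : ∀ g ∈ N, ∃ k, pe p (g ^ r ^ k)) (B : Subgroup G) [hB : B.Normal] (pB : ∀ u ∈ B, pe p u)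
    (b : G) (hb : b ∈ B) : ∃ c ∈ B, b * c⁻¹ ∈ PP p r N ∧
      ∀ γ ∈ N, pe r γ → ∃ v ∈ PP p r N, ⁅c, γ⁆ = ⁅c, v⁆ := by
  obtain ⟨P⟩ : Nonempty (Sylow r N) := inferInstance
  set S : Subgroup G := (P : Subgroup N).map N.subtype with hS
  have l1 : S ≤ N := map_subtype_le _
  have l2 : IsPGroup r S := P.2.map _
  have mS : ∀ Q : Subgroup G, IsPGroup r Q → S ≤ Q → Q ≤ N → Q = S := by
    intro Q hQ a b
    rw [hS, ← P.3 (hQ.comap_subtype (K := N)) (map_le_iff_le_comap.1 a)]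
    exact (map_subgroupOf_eq_of_le b).symm
  have key : ∀ (B : Subgroup G) [B.Normal], (∀ u ∈ B, pe p u) → ∀ T : Subgroup G, IsPGroup r T →
      T ≤ (B ⊓ N) ⊔ S → ∃ d ∈ B ⊓ N, ∀ t ∈ T, d * t * d⁻¹ ∈ S := by
    intro B _ pB T pT lT
    obtain ⟨d, hd, h⟩ := conj_into _ S T le_sup_right l2 (fun Q x y z => mS Q x y
      (z.trans (sup_le inf_le_right l1))) lT pT
    rw [sup_comm, ← SetLike.mem_coe, mul_normal] at hd
    obtain ⟨s, hs, d, hd, rfl⟩ := hd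
    refine ⟨d, hd, fun t ht => ?_⟩
    have := mul_mem (mul_mem (inv_mem hs) (h t ht)) hs
    simpa [mul_assoc] using this
  have pBP : ∀ u ∈ B ⊓ PP p r N, pe p u := fun u hu => pB u hu.1
  obtain ⟨d, hd, h⟩ := key (B ⊓ PP p r N) pBP (S.map (MulAut.conj b).toMonoidHom) (l2.map _) (by
    rintro _ ⟨s, hs, rfl⟩
    have := mul_mem_sup (S := B ⊓ PP p r N ⊓ N) (T := S)
      ⟨⟨commutator_le_left B N (commutator_mem_commutator hb (l1 hs)),
        b4 hne pB hb (l1 hs) (pg_iff.1 l2 s hs)⟩,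
        commutator_le_right B N (commutator_mem_commutator hb (l1 hs))⟩ hs
    simpa [commutatorElement_def] using this)
  have hc : d * b ∈ B := mul_mem hd.1.1 hb
  have cS : ∀ s ∈ S, ⁅d * b, s⁆ = 1 := fun s hs => by
    refine pq_one hne (pg_iff.2 pB) l2 (commutator_le_left B N
      (commutator_mem_commutator hc (l1 hs))) ?_
    have := mul_mem (h _ ⟨s, hs, rfl⟩) (inv_mem hs)
    simpa [commutatorElement_def, mul_assoc] using this
  refine ⟨d * b, hc, ?_, fun γ a e => ?_⟩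
  · have := Normal.conj_mem inferInstance _ (inv_mem hd.1.2) 1
    simpa using this
  obtain ⟨k, hk⟩ := e
  have l3 : N ≤ (QQ p N ⊓ N) ⊔ S := by
    obtain ⟨S', a1, a2, -, -, a3⟩ := syl r N
    obtain ⟨n, hn, a4⟩ := conj_into N S S' l1 l2 mS a1 a2
    intro g hg
    obtain ⟨s, b1, b2⟩ := a3 (QQ p N) inferInstance (fun n hn => (h1 n hn).imp fun k e =>
      subset_closure ⟨pow_mem hn _, e⟩) _ (hN.conj_mem _ hg n⁻¹)
    have b3 := Normal.conj_mem inferInstance _ b2 n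
    have := mul_mem_sup (S := QQ p N ⊓ N) ⟨b3, qq_le N b3⟩ (a4 s b1)
    simpa [mul_assoc] using this
  obtain ⟨v, hv, h'⟩ := key (QQ p N) h0 (zpowers γ) (zp_p hk) ((zpowers_le.2 a).trans l3)
  have h2 := h' γ (mem_zpowers γ)
  refine ⟨⁅v⁻¹, v * γ * v⁻¹⁆, b4 hne h0 (inv_mem hv.1) (l1 h2) (pg_iff.1 l2 _ h2), ?_⟩
  have e : γ = ⁅v⁻¹, v * γ * v⁻¹⁆ * (v * γ * v⁻¹) := by simp [commutatorElement_def, mul_assoc]
  conv_lhs => rw [e, commutatorElement_mul_right_eq_mul_conj, cS _ h2]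
  simp only [mul_one, mul_inv_cancel_right]

theorem dec2 [Finite G] (N : Subgroup G) [hN : N.Normal] (h0 : ∀ u ∈ QQ p N, pe p u)
    (h1 : ∀ g ∈ N, ∃ k, pe p (g ^ r ^ k)) (B : Subgroup G) [hB : B.Normal] (pB : ∀ u ∈ B, pe p u)
    (f : G →* H) (hc : ∀ b ∈ B, ∀ a ∈ PP p r N, ∀ γ ∈ N, pe r γ → Commute (f ⁅b, a⁆) (f γ))
    (b : G) (hb : b ∈ B) : ∃ c ∈ B, b * c⁻¹ ∈ PP p r N ∧
      ∀ γ ∈ N, pe r γ → Commute (f c) (f γ) := by
  obtain ⟨c, a1, a2, a3⟩ := dec hne N h0 h1 B pB b hb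
  refine ⟨c, a1, a2, fun γ x y => ?_⟩
  obtain ⟨v, hv, e⟩ := a3 γ x y
  refine star hne ?_ (y.map f) ?_ <;> rw [← map_commutatorElement]
  · exact (pB _ (commutator_le_left B N (commutator_mem_commutator a1 x))).map f
  · rw [e]; exact hc c a1 v hv γ x y

end Pool.Agent.H68.Sx
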