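import Pool.Agent.H68.Sx1

set_option autoImplicit false

namespace Pool.Agent.H68.Sx

open scoped commutatorElement
open Pool.Agent.H68.Fit Subgroup

variable {G H : Type} [Group G] [Group H] {p r q : ℕ}

theorem cm_l {a c x : G} (h : Commute c x) : ⁅a * c, x⁆ = ⁅a, x⁆ := by
  rw [commutatorElement_mul_left_eq_conj_mul, h.commutator_eq]; simp

theorem cm_r {a c x : G} (h : Commute x c) : ⁅x, a * c⁆ = ⁅x, a⁆ := by
  rw [commutatorElement_mul_right_eq_mul_conj, h.commutator_eq]; simp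

theorem two [Finite G] {N T T' : Subgroup G} (h : YY p r q N) {x x' : G} (hx : x ∈ PP p r N)
    (hx' : x' ∈ PP p r N) (l : Br p r N x ≤ T) (l' : Br p r N x' ≤ T') (c : Nat.card T ≤ q)
    (c' : Nat.card T' ≤ q) (hT : T ≠ T') : Commute x x' := by
  refine (h.c5 x hx x' hx' ((card_le_of_le l).trans c) ((card_le_of_le l').trans c')).elim
    (fun e => ?_) id
  rcases h.c4 x hx with e' | e'
  · exact br_bot.1 e' x' hx'
  · exact absurd ((eq_of_le_of_card_ge l (c.trans e')).symm.trans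
      (e.trans (eq_of_le_of_card_ge l' (c'.trans (e ▸ e'))))) hT

theorem gen {N₁ N₂ M : Subgroup G} [N₁.Normal] [N₂.Normal] [M.Normal] (e : N₁ ⊔ N₂ = ⊤) {s : ℕ}
    (h1 : ∀ g ∈ N₁, ∃ k, g ^ s ^ k ∈ M) (h2 : ∀ g ∈ N₂, ∃ k, g ^ s ^ k ∈ M) (g : G) :
    ∃ k, g ^ s ^ k ∈ M := by
  have key : ∀ N : Subgroup G, (∀ g ∈ N, ∃ k, g ^ s ^ k ∈ M) →
      IsPGroup s (N.map (QuotientGroup.mk' M)) := fun N h => pg_iff.2 (by
    rintro _ ⟨g, hg, rfl⟩
    exact (h g hg).imp fun k a => by rw [← map_pow]; exact (QuotientGroup.eq_one_iff _).2 a)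
  have : (N₂.map (QuotientGroup.mk' M)).Normal :=
    Normal.map inferInstance _ (QuotientGroup.mk'_surjective M)
  have h := (key _ h1).to_sup_of_normal_right (key _ h2)
  rw [← Subgroup.map_sup, e] at h
  exact (pg_iff.1 h _ ⟨g, trivial, rfl⟩).imp fun k a => by
    rw [← map_pow] at a; exact (QuotientGroup.eq_one_iff _).1 a

variable [hp : Fact p.Prime] [hr : Fact r.Prime] (hne : p ≠ r) [Finite G]
include hne

theorem dec3 (N : Subgroup G) [N.Normal] (h0 : ∀ u ∈ QQ p (⊤ : Subgroup G), pe p u)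
    (h1 : ∀ g : G, ∃ k, pe p (g ^ r ^ k))
    (c1 : ∀ a ∈ PP p r (⊤ : Subgroup G), ∀ b ∈ PP p r (⊤ : Subgroup G), ⁅a, b⁆ ∈ Cen r ⊤)
    (B : Subgroup G) [B.Normal] (hB : B ≤ PP p r ⊤) (b : G) (hb : b ∈ B) :
    ∃ a ∈ PP p r N, ∃ c ∈ B, c ∈ Cen r N ∧ b = a * c := by
  obtain ⟨c, a1, a2, a3⟩ := dec2 hne N (fun u hu => h0 u (qq_mono le_top hu)) (fun g _ => h1 g) B
    (fun u hu => h0 u (pp_le_qq _ (hB hu))) (MonoidHom.id G) (fun b hb a ha γ _ y =>
      mem_cen.1 (c1 b (hB hb) a (pp_mono le_top ha)) γ trivial y) b hb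
  exact ⟨_, a2, c, a1, mem_cen.2 a3, by group⟩

theorem br_eq (N : Subgroup G) [N.Normal] (h0 : ∀ u ∈ QQ p (⊤ : Subgroup G), pe p u)
    (h1 : ∀ g : G, ∃ k, pe p (g ^ r ^ k))
    (c1 : ∀ a ∈ PP p r (⊤ : Subgroup G), ∀ b ∈ PP p r (⊤ : Subgroup G), ⁅a, b⁆ ∈ Cen r ⊤)
    {w : G} (hw : w ∈ PP p r N) : Br p r N w = Br p r ⊤ w := by
  refine le_antisymm (br_le fun a ha => br_mem w (pp_mono le_top ha)) (br_le fun b hb => ?_)
  obtain ⟨a, a1, c, -, a3, rfl⟩ := dec3 hne N h0 h1 c1 _ le_rfl b hb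
  rw [cm_r (cen_pp a3 hw).symm]
  exact br_mem w a1

theorem YY.nor (hq : 1 ≤ q) (h : YY p r q (⊤ : Subgroup G)) (N : Subgroup G) [N.Normal] :
    YY p r q N := by
  have h1 := fun g => h.h1 g trivial
  have m : PP p r N ≤ PP p r ⊤ := pp_mono le_top
  have e := fun w => br_eq hne N h.h0 h1 h.c1 (w := w)
  refine ⟨fun u hu => h.h0 u (qq_mono le_top hu), fun g _ => h1 g,
    fun a ha b hb => cen_anti le_top (h.c1 a (m ha) b (m hb)),
    fun w hw a => cen_anti le_top (h.c2 w (m hw) (br_bot.1 (e w hw ▸ br_bot.2 a))), fun w hw => ?_,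
    fun w hw => e w hw ▸ h.c4 w (m hw), fun w hw w' hw' => ?_⟩
  swap
  · rw [e w hw, e w' hw']; exact h.c5 w (m hw) w' (m hw')
  set M := closure {w | w ∈ PP p r N ∧ Nat.card (Br p r N w) ≤ q}
  have lM : M ≤ PP p r N := (closure_le _).2 fun _ a => a.1
  have key : ∀ x ∈ closure {w | w ∈ PP p r (⊤ : Subgroup G) ∧ Nat.card (Br p r ⊤ w) ≤ q},
      ∃ a ∈ M, ∃ c ∈ Cen r N, x = a * c := by
    intro x hx
    induction hx using closure_induction with
    | mem u hu =>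
      obtain ⟨a, a1, c, -, a3, rfl⟩ := dec3 hne N h.h0 h1 h.c1 _ le_rfl u hu.1
      refine ⟨a, subset_closure ⟨a1, le_trans (card_le_of_le (br_le fun x hx => ?_)) hu.2⟩,
        c, a3, rfl⟩
      rw [← cm_l (cen_pp a3 hx)]
      exact br_mem _ (m hx)
    | one => exact ⟨1, one_mem _, 1, one_mem _, by simp⟩
    | mul x y _ _ hx hy =>
      obtain ⟨a, a1, c, a2, rfl⟩ := hx
      obtain ⟨b, b1, d, b2, rfl⟩ := hy
      exact ⟨_, mul_mem a1 b1, _, mul_mem a2 b2,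
        (cen_pp a2 (lM b1)).mul_mul_mul_comm _ _⟩
    | inv x _ hx =>
      obtain ⟨a, a1, c, a2, rfl⟩ := hx
      exact ⟨_, inv_mem a1, _, inv_mem a2, by
        rw [mul_inv_rev, (cen_pp a2 (lM a1)).inv_inv.eq]⟩
  obtain ⟨a, a1, c, a2, rfl⟩ := key w (h.c3 (m hw))
  refine mul_mem a1 (subset_closure ⟨((PP p r N).mul_mem_cancel_left (lM a1)).1 hw, ?_⟩)
  rw [br_bot.2 fun x hx => cen_pp a2 hx]
  simpa using hq

theorem step1 (h5 : 3 < p) {N₁ N₂ : Subgroup G} [N₁.Normal] [N₂.Normal] (h1 : YY p r q N₁)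
    (h2 : YY p r q N₂) {a a' : G} (ha : a ∈ PP p r N₁) (ha' : a' ∈ PP p r N₁) :
    ⁅a, a'⁆ ∈ Cen r N₂ := by
  have pA : ∀ u ∈ PP p r N₁, pe p u := fun u hu => h1.h0 u (pp_le_qq _ hu)
  have pB : ∀ u ∈ PP p r N₂, pe p u := fun u hu => h2.h0 u (pp_le_qq _ hu)
  have hA : (PP p r N₁).Normal := inferInstance
  have hB : (PP p r N₂).Normal := inferInstance
  have key : ∀ g ∈ PP p r N₁, Nat.card (Br p r N₁ g) ≤ q → Br p r N₁ g ≤ Cen r N₂ := by
    intro g hg hc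
    set T := Br p r N₁ g with hT
    have TA : T ≤ PP p r N₁ := br_le fun x hx => commutator_le_self _ (commutator_mem_commutator hg hx)
    have bc : ∀ y : G, Br p r N₁ (y * g * y⁻¹) = T.map (MulAut.conj y).toMonoidHom := fun y => by
      have := br_map (p := p) (r := r) (MulAut.conj y).toMonoidHom (MulAut.conj y).injective N₁ g
      rwa [show N₁.map (MulAut.conj y).toMonoidHom = N₁ from
        Normal.conj_smul_eq_self y N₁] at this
    have nT : ∀ y ∈ PP p r N₂, y ∈ normalizer (T : Set G) := by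
      intro y hy
      by_contra hn
      obtain ⟨k, hk⟩ := pB y hy
      have b1 : ∀ i : ℕ, i ≠ 0 → i ≤ 3 → ∀ x ∈ PP p r N₁, Br p r N₁ x = T →
          Commute (y ^ i * g * (y ^ i)⁻¹) x := by
        intro i i0 i3 x hx ex
        refine two h1 (hA.conj_mem _ hg _) hx le_rfl ex.le ?_ hc fun e => hn ?_
        · rw [bc, card_map_of_injective (MulAut.conj _).injective]; exact hc
        · refine mem_of_cop (a := i) (b := p ^ k) (Nat.Coprime.pow_right _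
            ((Nat.coprime_of_lt_prime i0 (i3.trans_lt h5) hp.out).symm)) ?_ (hk ▸ one_mem _)
          refine mem_normalizer_fintype fun t ht => ?_
          rw [bc] at e
          exact e.le ⟨t, ht, rfl⟩
      have b2 : Commute ⁅y, ⁅y, g⁆⁆ y :=
        cen_pp (h2.c1 _ hy _ (commutator_le_left _ ⊤ (commutator_mem_commutator hy trivial))) hy
      have b3 : g = (y ^ 1 * g * (y ^ 1)⁻¹) * (y ^ 2 * g * (y ^ 2)⁻¹)⁻¹ * (y ^ 3 * g * (y ^ 3)⁻¹) *
          (y ^ 2 * g * (y ^ 2)⁻¹)⁻¹ * (y ^ 1 * g * (y ^ 1)⁻¹) * (y ^ 2 * g * (y ^ 2)⁻¹)⁻¹ *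
          (y ^ 1 * g * (y ^ 1)⁻¹) := by
        have : ⁅y, ⁅y, g⁆⁆ = y * ⁅y, ⁅y, g⁆⁆ * y⁻¹ := by rw [← b2.eq]; simp
        calc g = (y * g * y⁻¹) * (y ^ 2 * g * (y ^ 2)⁻¹)⁻¹ * ⁅y, ⁅y, g⁆⁆ * (y * g * y⁻¹) := by
              simp only [commutatorElement_def]; group
          _ = _ := by rw [this]; simp only [commutatorElement_def]; group
      have b4 : T = ⊥ := br_bot.2 fun x hx => mem_centralizer_singleton_iff.1
        ((h1.c3.trans ((closure_le (centralizer {g})).2 fun x hx => ?_)) hx) |>.symm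
      · exact hn (by rw [b4, normalizer_eq_top]; trivial)
      refine mem_centralizer_singleton_iff.2 ?_
      by_cases ex : Br p r N₁ x = T
      · have c1 := b1 1 (by simp) (by simp) x hx.1 ex
        have c2 := (b1 2 (by simp) (by simp) x hx.1 ex).inv_left
        have c3 := b1 3 (by simp) (by simp) x hx.1 ex
        rw [b3]
        exact ((((((c1.mul_left c2).mul_left c3).mul_left c2).mul_left c1).mul_left c2).mul_left
          c1).symm
      · exact two h1 hx.1 hg le_rfl le_rfl hx.2 hc ex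
    have tT : ∀ t ∈ T, ∀ y ∈ PP p r N₂, ⁅t, y⁆ ∈ T := fun t ht y hy => by
      have := mul_mem ht ((mem_normalizer_iff.1 (nT y hy) _).1 (inv_mem ht))
      simpa [commutatorElement_def, mul_assoc] using this
    by_contra hn
    have U : ∀ m ∈ PP p r N₂, Br p r N₂ m ≤ T → m ∈ Cen r N₂ := fun m hm l =>
      (h2.c4 m hm).elim (fun e => h2.c2 m hm (br_bot.1 e)) fun e => absurd
        ((eq_of_le_of_card_ge l (hc.trans e)).ge.trans (br_le (h2.c1 m hm))) hn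
    refine hn fun t ht => mem_cen.2 fun γ a b => ?_
    have e1 : ⁅t, γ⁆ ∈ PP p r N₂ := b4 hne pA (TA ht) a b
    refine star hne (pB _ e1) b (mem_cen.1 (U _ e1 (br_le fun y hy => ?_)) γ a b)
    have y' : γ⁻¹ * y * γ ∈ PP p r N₂ := hB.conj_mem' _ hy γ
    have e2 := tT _ (inv_mem ht) _ y'
    have e3 : Commute ⁅t⁻¹, γ⁻¹ * y * γ⁆ γ := mem_cen.1 (U _
      (commutator_le_right ⊤ _ (commutator_mem_commutator trivial y'))
      (br_le fun z hz => tT _ e2 z hz)) γ a b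
    have e4 : ⁅⁅t, γ⁆, y⁆ = t * (γ * ⁅t⁻¹, γ⁻¹ * y * γ⁆ * γ⁻¹) * t⁻¹ * ⁅t, y⁆ := by
      simp only [commutatorElement_def]; group
    rw [e4, ← e3.eq, mul_inv_cancel_right]
    exact mul_mem (mul_mem (mul_mem ht e2) (inv_mem ht)) (tT t ht y hy)
  have lM : closure {w | w ∈ PP p r N₁ ∧ Nat.card (Br p r N₁ w) ≤ q} ≤ PP p r N₁ :=
    (closure_le _).2 fun _ a => a.1
  replace ha := h1.c3 ha
  induction ha using closure_induction with
  | mem u hu => exact key u hu.1 hu.2 (br_mem u ha')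
  | one => rw [commutatorElement_one_left]; exact one_mem _
  | mul x y hx hy a b =>
    rw [commutatorElement_mul_left_eq_conj_mul, ← (cen_pp (h1.c1 y (lM hy) a' ha') (lM hx)).eq,
      mul_inv_cancel_right]
    exact mul_mem b a
  | inv x hx a =>
    rw [commutatorElement_inv_left, mul_assoc, (cen_pp (h1.c1 a' ha' x (lM hx)) (lM hx)).eq,
      inv_mul_cancel_left, ← commutatorElement_inv]
    exact inv_mem a

theorem step2 (h5 : 3 < p) {N₁ N₂ : Subgroup G} [N₁.Normal] [N₂.Normal] (h1 : YY p r q N₁)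
    (h2 : YY p r q N₂) {a b : G} (ha : a ∈ PP p r N₁) (hb : b ∈ PP p r N₂) :
    ⁅a, b⁆ ∈ Cen r N₁ := by
  set A := PP p r N₁
  set B := PP p r N₂
  have pA : ∀ u ∈ A, pe p u := fun u hu => h1.h0 u (pp_le_qq _ hu)
  have s1 := fun a a' => step1 hne h5 h1 h2 (a := a) (a' := a')
  have s2 := fun a a' => step1 hne h5 h2 h1 (a := a) (a' := a')
  have t : ⁅⁅A, B⁆, A ⊓ B⁆ = ⊥ := by
    apply commutator_commutator_eq_bot_of_rotate <;>
      rw [commutator_eq_bot_iff_le_centralizer, commutator_le] <;> intro x hx y hy z hz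
    · exact (cen_pp (s2 x y hx hy.2) hz).symm
    · exact (cen_pp (s1 x y hx.1 hy) hz).symm
  rw [commutator_eq_bot_iff_le_centralizer] at t
  let Z := A ⊓ centralizer (A : Set G)
  have ZC : Z ≤ Cen r N₁ := fun z hz => h1.c2 z hz.1 fun x hx => (hz.2 x hx).symm
  obtain ⟨c, c1, c2, c3⟩ := dec2 hne N₂ h2.h0 h2.h1 A pA (QuotientGroup.mk' Z) (by
    intro x hx y hy γ u v
    rw [comm_mk hne]
    have d1 : ⁅x, y⁆ ∈ ⁅A, B⁆ := commutator_mem_commutator hx hy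
    have d2 := commutator_le_left A B d1
    refine ⟨commutator_le_left _ ⊤ (commutator_mem_commutator d2 trivial), fun z hz => ?_⟩
    generalize ⁅x, y⁆ = d at d1 d2
    have z1 : z⁻¹ * (γ⁻¹ * z * γ) ∈ A ⊓ B := by
      rw [show z⁻¹ * (γ⁻¹ * z * γ) = ⁅z⁻¹, γ⁻¹⁆ by simp [commutatorElement_def, mul_assoc]]
      exact ⟨commutator_le_left _ ⊤ (commutator_mem_commutator (inv_mem hz) trivial),
        b4 hne pA (inv_mem hz) (inv_mem u) v.inv⟩
    have z2 : ⁅d⁻¹, z * (z⁻¹ * (γ⁻¹ * z * γ))⁆ = ⁅d⁻¹, z⁆ := cm_r (t (inv_mem d1) _ z1).symm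
    have z3 : Commute ⁅d⁻¹, z⁆ γ := mem_cen.1 (s1 _ _ (inv_mem d2) hz) γ u v
    have e4 : ⁅⁅d, γ⁆, z⁆ = d * (γ * ⁅d⁻¹, z * (z⁻¹ * (γ⁻¹ * z * γ))⁆ * γ⁻¹) * d⁻¹ * ⁅d, z⁆ := by
      simp only [commutatorElement_def]; group
    rw [z2, ← z3.eq, mul_inv_cancel_right] at e4
    refine (commutatorElement_eq_one_iff_mul_comm.1 (e4.trans ?_)).symm
    simp only [commutatorElement_def]; group) a ha
  have c4 := ZC ((comm_mk hne).1 (comm_pp _ c3 hb))
  rw [show a = a * c⁻¹ * c by group, commutatorElement_mul_left_eq_conj_mul]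
  exact mul_mem (Normal.conj_mem inferInstance _ c4 _) (s2 _ _ c2 hb)

theorem YY.sup (h5 : 3 < p) {N₁ N₂ : Subgroup G} [N₁.Normal] [N₂.Normal] (h1 : YY p r q N₁)
    (h2 : YY p r q N₂) (e : N₁ ⊔ N₂ = ⊤) : YY p r q (⊤ : Subgroup G) := by
  have g1 := gen (M := QQ p N₁ ⊔ QQ p N₂) (s := r) e
    (fun g hg => (h1.h1 g hg).imp fun k a => mem_sup_left (subset_closure ⟨pow_mem hg _, a⟩))
    (fun g hg => (h2.h1 g hg).imp fun k a => mem_sup_right (subset_closure ⟨pow_mem hg _, a⟩))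
  have g2 := pg_iff.1 ((pg_iff.2 h1.h0).to_sup_of_normal_right (pg_iff.2 h2.h0))
  have h0 : ∀ u ∈ QQ p (⊤ : Subgroup G), pe p u := fun u hu => g2 u (((closure_le _).2 (by
    rintro u ⟨-, k, hk⟩
    obtain ⟨j, hj⟩ := g1 u
    exact mem_of_cop (cop hne k j) (hk ▸ one_mem _) hj)) hu)
  have hh1 : ∀ g : G, ∃ k, pe p (g ^ r ^ k) := fun g => (g1 g).imp fun k a => g2 _ a
  have RE : ∀ D : Subgroup G, (∀ γ ∈ N₁, pe r γ → γ ∈ D) → (∀ γ ∈ N₂, pe r γ → γ ∈ D) →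
      ∀ γ, pe r γ → γ ∈ D := by
    rintro D d1 d2 γ ⟨k, hk⟩
    let K := closure {γ | (γ ∈ N₁ ∨ γ ∈ N₂) ∧ pe r γ}
    have : K.Normal := closure_nor fun a ha g => ⟨ha.1.imp (Normal.conj_mem inferInstance _ · g)
      (Normal.conj_mem inferInstance _ · g), ha.2.conj g⟩
    have u : ∀ g, g ∈ N₁ ∨ g ∈ N₂ → ∃ k, g ^ p ^ k ∈ K := fun g hg => by
      obtain ⟨i, j, h⟩ := hh1 g
      exact ⟨j, subset_closure ⟨hg.imp (pow_mem · _) (pow_mem · _), i, by rwa [← pow_mul, mul_comm, pow_mul]⟩⟩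
    obtain ⟨j, hj⟩ := gen (M := K) e (fun g hg => u g (Or.inl hg)) (fun g hg => u g (Or.inr hg)) γ
    exact (closure_le D).2 (fun a ha => ha.1.elim (d1 a · ha.2) (d2 a · ha.2))
      (mem_of_cop (cop hne j k) hj (hk ▸ one_mem _))
  have RC : ∀ {K : Type} [Group K] (f : G →* K) (x : K), (∀ γ ∈ N₁, pe r γ → Commute x (f γ)) →
      (∀ γ ∈ N₂, pe r γ → Commute x (f γ)) → ∀ γ, pe r γ → Commute x (f γ) :=
    fun f x a b γ c => (mem_centralizer_singleton_iff.1 (RE ((centralizer {x}).comap f)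
      (fun γ u v => mem_centralizer_singleton_iff.2 (a γ u v).symm)
      (fun γ u v => mem_centralizer_singleton_iff.2 (b γ u v).symm) γ c)).symm
  have CC : ∀ {w}, w ∈ Cen r N₁ → w ∈ Cen r N₂ → w ∈ Cen r (⊤ : Subgroup G) := fun a b =>
    mem_cen.2 fun γ _ => RC (MonoidHom.id G) _ (mem_cen.1 a) (mem_cen.1 b) γ
  set A := PP p r N₁
  set B := PP p r N₂
  have lA : A ≤ PP p r ⊤ := pp_mono le_top
  have lB : B ≤ PP p r ⊤ := pp_mono le_top
  have lP : PP p r ⊤ ≤ A ⊔ B := (closure_le _).2 (by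
    rintro _ ⟨u, -, a, γ, -, b, rfl⟩
    have hu : u ∈ QQ p (⊤ : Subgroup G) := subset_closure ⟨trivial, a⟩
    exact (comm_mk hne).1 (RC _ _
      (fun γ x y => (comm_mk hne).2 (mem_sup_left (b4 hne h0 hu x y)))
      (fun γ x y => (comm_mk hne).2 (mem_sup_right (b4 hne h0 hu x y))) γ b))
  have cP : ∀ {K : Type} [Group K] (f : G →* K) (x : K), (∀ a ∈ A, Commute x (f a)) →
      (∀ a ∈ B, Commute x (f a)) → ∀ a ∈ PP p r (⊤ : Subgroup G), Commute x (f a) :=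
    fun f x a b γ c => (mem_centralizer_singleton_iff.1 ((sup_le (c := (centralizer {x}).comap f)
      (fun γ u => mem_centralizer_singleton_iff.2 (a γ u).symm)
      (fun γ u => mem_centralizer_singleton_iff.2 (b γ u).symm)) (lP c))).symm
  have AB : ∀ a ∈ A, ∀ b ∈ B, ⁅a, b⁆ ∈ Cen r (⊤ : Subgroup G) := fun a ha b hb =>
    CC (step2 hne h5 h1 h2 ha hb) (by
      rw [← commutatorElement_inv]; exact inv_mem (step2 hne h5 h2 h1 hb ha))
  have c1 : ∀ a ∈ PP p r (⊤ : Subgroup G), ∀ b ∈ PP p r (⊤ : Subgroup G), ⁅a, b⁆ ∈ Cen r ⊤ := by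
    intro a ha b hb
    rw [← comm_mk hne]
    refine cP _ _ (fun x hx => (cP _ _ (fun y hy => ?_) (fun y hy => ?_) a ha).symm)
      (fun x hx => (cP _ _ (fun y hy => ?_) (fun y hy => ?_) a ha).symm) b hb
    · exact (comm_mk hne).2 (CC (h1.c1 x hx y hy) (step1 hne h5 h1 h2 hx hy))
    · exact (comm_mk hne).2 (AB x hx y hy)
    · exact ((comm_mk hne).2 (AB y hy x hx)).symm
    · exact (comm_mk hne).2 (CC (step1 hne h5 h2 h1 hx hy) (h2.c1 x hx y hy))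
  have pP : ∀ u ∈ PP p r (⊤ : Subgroup G), pe p u := fun u hu => h0 u (pp_le_qq _ hu)
  have d1 := dec3 hne N₁ h0 hh1 c1
  have k4 : ∀ (N : Subgroup G) [N.Normal], YY p r q N → ∀ w ∈ PP p r (⊤ : Subgroup G),
      (∀ a ∈ PP p r N, Commute w a) ∨ q ≤ Nat.card (Br p r ⊤ w) := by
    intro N _ h w hw
    obtain ⟨a, a1, c, -, a3, rfl⟩ := dec3 hne N h0 hh1 c1 _ le_rfl w hw
    refine (h.c4 a a1).imp (fun e x hx => (br_bot.1 e x hx).mul_left (cen_pp a3 hx)) fun e =>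
      e.trans (card_le_of_le (br_le fun x hx => ?_))
    rw [← cm_l (cen_pp a3 hx)]
    exact br_mem _ (pp_mono le_top hx)
  have k2 : ∀ (N : Subgroup G) [N.Normal], YY p r q N → ∀ w ∈ PP p r (⊤ : Subgroup G),
      (∀ a ∈ PP p r (⊤ : Subgroup G), Commute w a) → w ∈ Cen r N := by
    intro N _ h w hw hc
    refine mem_cen.2 fun γ a b => ?_
    have e1 := b4 hne pP hw a b
    refine star hne (pP _ (pp_mono le_top e1)) b (mem_cen.1 (h.c2 _ e1 fun x hx => ?_) γ a b)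
    have := ((hc _ (Normal.conj_mem' inferInstance _ (pp_mono le_top hx) γ)).inv_left).map
      (MulAut.conj γ)
    rw [show ⁅w, γ⁆ = w * (γ * w⁻¹ * γ⁻¹) by simp [commutatorElement_def, mul_assoc]]
    exact (hc _ (pp_mono le_top hx)).mul_left (by simpa [mul_assoc] using this)
  refine ⟨h0, fun g _ => hh1 g, c1, fun w hw hc => CC (k2 N₁ h1 w hw hc) (k2 N₂ h2 w hw hc),
    lP.trans (sup_le (h1.c3.trans (closure_mono fun w hw => ⟨lA hw.1, ?_⟩))
      (h2.c3.trans (closure_mono fun w hw => ⟨lB hw.1, ?_⟩))), fun w hw => ?_,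
    fun w hw w' hw' a b => or_iff_not_imp_left.2 fun hT => ?_⟩
  · exact br_eq hne N₁ h0 hh1 c1 hw.1 ▸ hw.2
  · exact br_eq hne N₂ h0 hh1 c1 hw.1 ▸ hw.2
  · rcases k4 N₁ h1 w hw with a | a
    · exact (k4 N₂ h2 w hw).imp (fun b => br_bot.2 (cP (MonoidHom.id G) w a b)) id
    · exact Or.inr a
  have k5 : ∀ w ∈ PP p r (⊤ : Subgroup G), ∃ a ∈ A, ∃ c ∈ B, c ∈ Cen r N₁ ∧ w = a * c ∧
      Br p r N₁ a ≤ Br p r ⊤ w ∧ Br p r N₂ c ≤ Br p r ⊤ w := by
    intro w hw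
    have := lP hw
    rw [← SetLike.mem_coe, normal_mul] at this
    obtain ⟨x, hx, y, hy, rfl⟩ := this
    obtain ⟨a, a1, c, a2, a3, rfl⟩ := d1 B lB y hy
    have xa := mul_mem hx a1
    refine ⟨x * a, xa, c, a2, a3, by simp [mul_assoc], br_le fun z hz => ?_, br_le fun z hz => ?_⟩
    · rw [← cm_l (cen_pp a3 hz), mul_assoc]
      exact br_mem _ (lA hz)
    · obtain ⟨a', b1, c', b2, b3, rfl⟩ := d1 B lB z hz
      have e1 : ⁅c, a' * c'⁆ = ⁅c, c'⁆ := by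
        rw [commutatorElement_mul_right_eq_mul_conj, (cen_pp a3 b1).commutator_eq, one_mul,
          ← (cen_pp (c1 _ (lB a2) _ (lB b2)) (lA b1)).eq, mul_inv_cancel_right]
      have e2 : ⁅x * a * c, c'⁆ = ⁅c, c'⁆ := by
        rw [commutatorElement_mul_left_eq_conj_mul, (cen_pp b3 xa).symm.commutator_eq, mul_one,
          ← (cen_pp (c1 _ (lB a2) _ (lB b2)) (lA xa)).eq, mul_inv_cancel_right]
      rw [e1, ← e2, mul_assoc]
      exact br_mem _ (lB b2)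
  obtain ⟨x, x1, c, x2, x3, e1, x4, x5⟩ := k5 w hw
  obtain ⟨y, y1, d, y2, y3, e2, y4, y5⟩ := k5 w' hw'
  have u1 := two h1 x1 y1 x4 y4 a b hT
  have u2 := two h2 x2 y2 x5 y5 a b hT
  rw [e1, e2]
  exact (u1.mul_right (cen_pp y3 x1).symm).mul_left ((cen_pp x3 y1).mul_right u2)

end Pool.Agent.H68.Sx
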