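import Pool.Agent.H68.Sx2

set_option autoImplicit false

namespace Pool.Agent.H68.Sx

open scoped commutatorElement
open Pool.Agent.H68.Fit Subgroup

instance : Fact (Nat.Prime 5) := ⟨by norm_num⟩

def XX (q : ℕ) (G : Type) [Group G] : Prop := Finite G ∧ YY 5 2 q (⊤ : Subgroup G)

theorem xx_sub {q : ℕ} {G : Type} [Group G] (N : Subgroup G) :
    YY 5 2 q (⊤ : Subgroup N) ↔ YY 5 2 q N := by
  rw [← yy_map N.subtype N.subtype_injective, ← MonoidHom.range_eq_map, range_subtype]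

theorem solv_sup {G : Type} [Group G] (N M : Subgroup G) [N.Normal] [Group.IsSolvable N]
    [Group.IsSolvable M] : Group.IsSolvable ↥(N ⊔ M) := by
  let f := QuotientGroup.mk' (N.subgroupOf (N ⊔ M))
  have : Group.IsSolvable (↥(N ⊔ M) ⧸ N.subgroupOf (N ⊔ M)) := by
    refine solvable_of_surjective (f := f.comp (inclusion (le_sup_right : M ≤ N ⊔ M))) fun x => ?_
    obtain ⟨⟨x, hx⟩, rfl⟩ := QuotientGroup.mk'_surjective _ x
    have := hx
    rw [← SetLike.mem_coe, normal_mul] at this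
    obtain ⟨a, ha, b, hb, rfl⟩ := this
    refine ⟨⟨b, hb⟩, QuotientGroup.eq.2 ?_⟩
    simpa [mem_subgroupOf, mul_assoc] using Normal.conj_mem' inferInstance a ha b
  refine solvable_of_ker_le_range (inclusion (le_sup_left : N ≤ N ⊔ M)) f fun x hx => ?_
  exact ⟨⟨x, (QuotientGroup.eq_one_iff x).1 hx⟩, rfl⟩

theorem fin_sup {G : Type} [Group G] (N M : Subgroup G) [N.Normal] [Finite N] [Finite M] :
    Finite ↥(N ⊔ M) := by
  have : ((N ⊔ M : Subgroup G) : Set G).Finite := by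
    rw [normal_mul]; exact (Set.toFinite _).mul (Set.toFinite _)
  exact this

theorem xx_fc {q : ℕ} (hq : 1 ≤ q) : FC (XX q) := by
  refine ⟨fun G _ h => ⟨h.1, ?_⟩, ⟨inferInstance, ?_⟩, fun G H _ _ e h => ?_, fun G _ N hN h => ?_,
    fun G _ _ N M hN hM a b => ⟨inferInstance, ?_⟩⟩
  · have := h.1
    have := (pg_iff.2 h.2.h0).isNilpotent
    have : IsPGroup 2 (G ⧸ QQ 5 (⊤ : Subgroup G)) := fun g => by
      obtain ⟨g, rfl⟩ := QuotientGroup.mk'_surjective _ g
      exact (h.2.h1 g trivial).imp fun k a => by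
        rw [← map_pow]; exact (QuotientGroup.eq_one_iff _).2 (subset_closure ⟨trivial, a⟩)
    have := this.isNilpotent
    exact solvable_of_ker_le_range (QQ 5 ⊤).subtype (QuotientGroup.mk' (QQ 5 ⊤)) (by simp)
  · refine ⟨fun _ _ => ⟨0, rfl⟩, fun _ _ => ⟨0, 0, rfl⟩, fun _ _ _ _ => one_mem _,
      fun _ _ _ => one_mem _, fun _ _ => one_mem _, fun _ _ => Or.inl (Subsingleton.elim _ _),
      fun _ _ _ _ _ _ => Or.inl rfl⟩
  · have := h.1
    refine ⟨Finite.of_equiv _ e.toEquiv, ?_⟩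
    have := (yy_map e.toMonoidHom e.injective ⊤).2 h.2
    rwa [map_top_of_surjective _ e.surjective] at this
  · have := h.1
    exact ⟨inferInstance, (xx_sub N).2 (h.2.nor (by norm_num) hq N)⟩
  · refine YY.sup (by norm_num) (by norm_num) (N₁ := N.subgroupOf (N ⊔ M))
      (N₂ := M.subgroupOf (N ⊔ M)) ?_ ?_ ?_
    · rw [← yy_map _ (N ⊔ M).subtype_injective, map_subgroupOf_eq_of_le le_sup_left]
      exact (xx_sub N).1 a.2
    · rw [← yy_map _ (N ⊔ M).subtype_injective, map_subgroupOf_eq_of_le le_sup_right]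
      exact (xx_sub M).1 b.2
    · rw [← subgroupOf_sup le_sup_left le_sup_right, subgroupOf_self]

@[ext] structure E {V C : Type} [AddCommGroup V] [AddCommGroup C] (β : V →+ V →+ C) where
  v : V
  c : C
  s : ℤˣ

variable {V C : Type} [AddCommGroup V] [AddCommGroup C] {β : V →+ V →+ C}

instance : Mul (E β) := ⟨fun x y => ⟨x.v + x.s • y.v, x.c + y.c + x.s • β x.v y.v, x.s * y.s⟩⟩
instance : One (E β) := ⟨⟨0, 0, 1⟩⟩
instance : Inv (E β) := ⟨fun x => ⟨-(x.s • x.v), -x.c + β x.v x.v, x.s⟩⟩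
@[simp] theorem mul_v (x y : E β) : (x * y).v = x.v + x.s • y.v := rfl
@[simp] theorem mul_c (x y : E β) : (x * y).c = x.c + y.c + x.s • β x.v y.v := rfl
@[simp] theorem mul_s (x y : E β) : (x * y).s = x.s * y.s := rfl
@[simp] theorem one_v : (1 : E β).v = 0 := rfl
@[simp] theorem one_c : (1 : E β).c = 0 := rfl
@[simp] theorem one_s : (1 : E β).s = 1 := rfl
@[simp] theorem inv_v (x : E β) : x⁻¹.v = -(x.s • x.v) := rfl
@[simp] theorem inv_c (x : E β) : x⁻¹.c = -x.c + β x.v x.v := rfl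
@[simp] theorem inv_s (x : E β) : x⁻¹.s = x.s := rfl

instance : Group (E β) := Group.ofLeftAxioms
  (fun x y z => by
    rcases Int.units_eq_one_or x.s with h | h <;> rcases Int.units_eq_one_or y.s with h' | h' <;>
      ext <;> simp [h, h'] <;> abel)
  (fun x => by ext <;> simp)
  (fun x => by rcases Int.units_eq_one_or x.s with h | h <;> ext <;> simp [h])

instance [Finite V] [Finite C] : Finite (E β) :=
  Finite.of_injective (fun x : E β => (x.v, x.c, x.s)) fun x y h => by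
    simp only [Prod.mk.injEq] at h; ext <;> simp [h]

def sg : E β →* ℤˣ := MonoidHom.mk' E.s fun _ _ => rfl

def ce (β : V →+ V →+ C) : Multiplicative C →* E β :=
  MonoidHom.mk' (fun c => ⟨0, c.toAdd, 1⟩) fun _ _ => by ext <;> simp

theorem ce_comm {x : E β} (h1 : x.v = 0) (h2 : x.s = 1) (y : E β) : Commute x y := by
  ext <;> simp [h1, h2, add_comm]

theorem cm_eq {x y : E β} (h1 : x.s = 1) (h2 : y.s = 1) :
    ⁅x, y⁆ = ⟨0, β x.v y.v - β y.v x.v, 1⟩ := by
  ext <;> simp [commutatorElement_def, h1, h2]; abel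

theorem pe_s {x : E β} (h : pe 5 x) : x.s = 1 := by
  obtain ⟨k, hk⟩ := h.map sg
  rcases Int.units_eq_one_or x.s with h | h
  · exact h
  · rw [show sg x = -1 from h, Odd.neg_one_pow (Odd.pow (by decide))] at hk
    exact absurd hk (by decide)

theorem qq_s {x : E β} (h : x ∈ QQ 5 (⊤ : Subgroup (E β))) : x.s = 1 :=
  (closure_le (sg (β := β)).ker).2 (fun _ a => pe_s a.2) h

variable (hV : ∀ v : V, 5 • v = 0) (hC : ∀ c : C, 5 • c = 0)
include hV hC

theorem s_pe {x : E β} (h : x.s = 1) : pe 5 x := ⟨1, by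
  have : x ^ 5 ^ 1 = ⟨5 • x.v, 5 • (x.c + 2 • β x.v x.v), 1⟩ := by
    ext <;> simp [pow_succ, h] <;> abel
  rw [this, hV, hC]; rfl⟩

theorem pp_v (v : V) : ∃ a ∈ PP 5 2 (⊤ : Subgroup (E β)), a.v = v := by
  refine ⟨⁅⟨3 • v, 0, 1⟩, ⟨0, 0, -1⟩⁆, subset_closure ⟨_, trivial, s_pe hV hC rfl, _, trivial,
    ⟨1, by ext <;> simp [pow_succ]⟩, rfl⟩, ?_⟩
  have : 3 • v + 3 • v = v + 5 • v := by abel
  simpa [commutatorElement_def, hV] using this

theorem br_e (hs : ∀ v ≠ 0, ∀ c, ∃ v', β v v' - β v' v = c) {w : E β}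
    (hw : w ∈ PP 5 2 (⊤ : Subgroup (E β))) (h : w.v ≠ 0) : Br 5 2 ⊤ w = (ce β).range := by
  have h1 := qq_s (pp_le_qq _ hw)
  refine le_antisymm (br_le fun a ha => ?_) ?_
  · rw [cm_eq h1 (qq_s (pp_le_qq _ ha))]; exact ⟨Multiplicative.ofAdd _, rfl⟩
  · rintro _ ⟨c, rfl⟩
    obtain ⟨v, hv⟩ := hs _ h c.toAdd
    obtain ⟨a, ha, rfl⟩ := pp_v (β := β) hV hC v
    have := br_mem w ha
    rwa [cm_eq h1 (qq_s (pp_le_qq _ ha)), hv] at this

omit hV hC in
theorem card_ce : Nat.card (ce β).range = Nat.card C :=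
  (Nat.card_congr (MonoidHom.ofInjective (f := ce β) fun _ _ e => congrArg E.c e).toEquiv).symm

theorem e_xx [Finite V] [Finite C] (hs : ∀ v ≠ 0, ∀ c, ∃ v', β v v' - β v' v = c)
    [Nontrivial C] : XX (Nat.card C) (E β) := by
  have hp : ∀ {w : E β}, w ∈ PP 5 2 (⊤ : Subgroup (E β)) → w.s = 1 := fun h => qq_s (pp_le_qq _ h)
  have b0 : ∀ {w : E β}, w ∈ PP 5 2 (⊤ : Subgroup (E β)) → w.v = 0 → Br 5 2 ⊤ w = ⊥ :=
    fun h h' => br_bot.2 fun a _ => ce_comm h' (hp h) a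
  refine ⟨inferInstance, fun u hu => s_pe hV hC (qq_s hu), fun g _ => ⟨1, s_pe hV hC (by simp [pow_succ])⟩,
    fun a ha b hb => mem_cen.2 fun γ _ _ => ?_, fun w hw h => mem_cen.2 fun γ _ _ => ?_,
    fun w hw => subset_closure ⟨hw, ?_⟩, fun w hw => ?_, fun w hw w' hw' _ _ => ?_⟩
  · rw [cm_eq (hp ha) (hp hb)]; exact ce_comm rfl rfl _
  · refine ce_comm (by_contra fun hv => ?_) (hp hw) _
    have := card_ce (β := β)
    rw [← br_e hV hC hs hw hv, br_bot.2 h, card_bot] at this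
    exact Finite.one_lt_card.ne this
  · by_cases hv : w.v = 0
    · rw [b0 hw hv, card_bot]; exact Nat.card_pos
    · rw [br_e hV hC hs hw hv, card_ce]
  · by_cases hv : w.v = 0
    · exact Or.inl (b0 hw hv)
    · rw [br_e hV hC hs hw hv, card_ce]; exact Or.inr le_rfl
  · by_cases hv : w.v = 0
    · exact Or.inr (ce_comm hv (hp hw) _)
    by_cases hv' : w'.v = 0
    · exact Or.inr (ce_comm hv' (hp hw') _).symm
    · rw [br_e hV hC hs hw hv, br_e hV hC hs hw' hv']; exact Or.inl rfl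

theorem e_eq [Finite C] (hs : ∀ v ≠ 0, ∀ c, ∃ v', β v v' - β v' v = c)
    [Nontrivial C] [Nontrivial V] {q : ℕ} (h : XX q (E β)) : q = Nat.card C := by
  obtain ⟨v, hv⟩ := exists_ne (0 : V)
  obtain ⟨a, ha, rfl⟩ := pp_v (β := β) hV hC v
  apply le_antisymm
  · have := card_ce (β := β)
    rw [← br_e hV hC hs ha hv] at this
    refine (h.2.c4 a ha).elim (fun e => ?_) fun e => this ▸ e
    rw [e, card_bot] at this
    exact absurd this Finite.one_lt_card.ne
  · by_contra hq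
    let K : Subgroup (E β) :=
      { carrier := {x | x.v = 0}
        one_mem' := rfl
        mul_mem' := fun {a b} (ha : a.v = 0) (hb : b.v = 0) => by simp [ha, hb]
        inv_mem' := fun {a} (ha : a.v = 0) => by simp [ha] }
    refine hv ((h.2.c3.trans ((closure_le K).2 fun w hw => by_contra fun hv => hq ?_)) ha)
    have := hw.2
    rwa [br_e hV hC hs hw.1 hv, card_ce] at this

omit hV hC

def hb (R : Type) [Ring R] : R × R →+ R × R →+ R :=
  (AddMonoidHom.mul.comp (AddMonoidHom.fst R R)).compl₂ (AddMonoidHom.snd R R)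

@[simp] theorem hb_ap {R : Type} [Ring R] (x y : R × R) : hb R x y = x.1 * y.2 := rfl

theorem hb_s (R : Type) [Field R] : ∀ v ≠ 0, ∀ c, ∃ v', hb R v v' - hb R v' v = c := by
  rintro ⟨a, b⟩ h c
  by_cases ha : a = 0
  · have hb : b ≠ 0 := fun e => h (by rw [ha, e]; rfl)
    exact ⟨(-c / b, 0), by simp [hb]⟩
  · exact ⟨(0, c / a), by simp [mul_div_cancel₀, ha]⟩

theorem c5 (R : Type) [Ring R] [CharP R 5] (x : R) : 5 • x = 0 := by
  rw [nsmul_eq_mul, CharP.cast_eq_zero, zero_mul]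

theorem c55 (R : Type) [Ring R] [CharP R 5] (x : R × R) : 5 • x = 0 :=
  Prod.ext (c5 R _) (c5 R _)

/-- generalised dihedral group -/
abbrev Dih (V : Type) [AddCommGroup V] := E (0 : V →+ V →+ Unit)

def dm {V W : Type} [AddCommGroup V] [AddCommGroup W] (f : V →+ W) : Dih V →* Dih W :=
  MonoidHom.mk' (fun x => ⟨f x.v, (), x.s⟩) fun x y => by
    rcases Int.units_eq_one_or x.s with h | h <;> ext <;> simp [h]

@[ext] structure Bor (R : Type) where
  a : R
  b : R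
  c : R
  s : ℤˣ
  t : ℤˣ

section
variable {R : Type} [Ring R]
instance : Mul (Bor R) := ⟨fun x y => ⟨x.a + x.s • y.a, x.b + x.t • y.b,
  x.c + (x.s * x.t) • y.c + x.t • (x.a * y.b), x.s * y.s, x.t * y.t⟩⟩
instance : One (Bor R) := ⟨⟨0, 0, 0, 1, 1⟩⟩
instance : Inv (Bor R) :=
  ⟨fun x => ⟨-(x.s • x.a), -(x.t • x.b), (x.s * x.t) • (x.a * x.b - x.c), x.s, x.t⟩⟩
theorem bmul (x y : Bor R) : x * y = ⟨x.a + x.s • y.a, x.b + x.t • y.b,
  x.c + (x.s * x.t) • y.c + x.t • (x.a * y.b), x.s * y.s, x.t * y.t⟩ := rfl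
theorem bone : (1 : Bor R) = ⟨0, 0, 0, 1, 1⟩ := rfl
theorem binv (x : Bor R) :
  x⁻¹ = ⟨-(x.s • x.a), -(x.t • x.b), (x.s * x.t) • (x.a * x.b - x.c), x.s, x.t⟩ := rfl

instance : Group (Bor R) := Group.ofLeftAxioms
  (fun x y z => by
    rcases Int.units_eq_one_or x.s with h | h <;> rcases Int.units_eq_one_or x.t with h1 | h1 <;>
      rcases Int.units_eq_one_or y.s with h' | h' <;> rcases Int.units_eq_one_or y.t with h2 | h2 <;>
      ext <;> simp [bmul, h, h', h1, h2, mul_add, add_mul] <;> abel)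
  (fun x => by ext <;> simp [bmul, bone])
  (fun x => by
    rcases Int.units_eq_one_or x.s with h | h <;> rcases Int.units_eq_one_or x.t with h1 | h1 <;>
      ext <;> simp [bmul, bone, binv, h, h1, sub_eq_add_neg])

instance [Finite R] : Finite (Bor R) :=
  Finite.of_injective (fun x : Bor R => (x.a, x.b, x.c, x.s, x.t)) fun x y h => by
    simp only [Prod.mk.injEq] at h; ext <;> simp [h]
end

theorem uu (a b : ℤˣ) : a * b * a = b := by rw [mul_right_comm, Int.units_mul_self, one_mul]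

variable {F : (G : Type) → [Group G] → Prop} (hF : FC F)
include hF

theorem dih_prod {V W : Type} [AddCommGroup V] [AddCommGroup W] (a : F (Dih V)) (b : F (Dih W)) :
    F (Dih (V × W)) :=
  hF.fib1 (dm (AddMonoidHom.fst V W)) (dm (AddMonoidHom.snd V W)) sg sg (fun _ _ => mul_comm _ _)
    (fun _ _ => mul_comm _ _) (fun g x y => E.ext (Prod.ext (congrArg E.v x) (congrArg E.v y)) rfl
      (by have := congrArg E.s x; exact this)) (fun x y => ⟨fun e => ⟨⟨(x.v, y.v), (), x.s⟩, rfl, E.ext rfl rfl e⟩, by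
        rintro ⟨g, rfl, rfl⟩; rfl⟩) a b

theorem dih_eqv {V W : Type} [AddCommGroup V] [AddCommGroup W] (e : V ≃+ W) (a : F (Dih V)) :
    F (Dih W) :=
  hF.iso _ _ (MonoidHom.toMulEquiv (dm e.toAddMonoidHom) (dm e.symm.toAddMonoidHom)
    (MonoidHom.ext fun x => E.ext (e.symm_apply_apply _) rfl rfl)
    (MonoidHom.ext fun x => E.ext (e.apply_symm_apply _) rfl rfl)) a

theorem dih_fun (a : F (Dih (ZMod 5))) (n : ℕ) : F (Dih (Fin (n + 1) → ZMod 5)) := by
  induction n with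
  | zero => exact dih_eqv hF (AddEquiv.funUnique (Fin 1) (ZMod 5)).symm a
  | succ n ih =>
    exact dih_eqv hF (Fin.consLinearEquiv (ZMod 5) fun _ => ZMod 5).toAddEquiv (dih_prod hF a ih)

theorem heis_mem {R : Type} [Ring R] [Finite R] (a : F (Dih R)) : F (E (hb R)) := by
  have b := dih_prod hF a a
  let f1 : Dih (R × R) →* Bor R := MonoidHom.mk' (fun x => ⟨x.v.1, 0, x.v.2, x.s, 1⟩) fun x y => by
    ext <;> simp [bmul]
  let f2 : Dih (R × R) →* Bor R := MonoidHom.mk' (fun x => ⟨0, x.v.1, x.v.2, 1, x.s⟩) fun x y => by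
    ext <;> simp [bmul]
  let f3 : E (hb R) →* Bor R := MonoidHom.mk' (fun x => ⟨x.v.1, x.v.2, x.c, x.s, x.s⟩) fun x y => by
    ext <;> simp [bmul]
  have h : F (Bor R) := by
    refine hF.sup_top (N := f1.range) (M := f2.range) ⟨?_⟩ ⟨?_⟩
      (hF.range _ (fun x y e => E.ext (Prod.ext (congrArg Bor.a e) (congrArg Bor.c e)) rfl
        (congrArg Bor.s e)) b)
      (hF.range _ (fun x y e => E.ext (Prod.ext (congrArg Bor.b e) (congrArg Bor.c e)) rfl
        (congrArg Bor.t e)) b) (eq_top_iff.2 fun x _ => ?_)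
    · rintro _ ⟨x, rfl⟩ g
      refine ⟨⟨((g * f1 x * g⁻¹).a, (g * f1 x * g⁻¹).c), (), x.s⟩, Bor.ext rfl ?_ rfl ?_ ?_⟩ <;>
        rcases Int.units_eq_one_or g.t with h | h <;> simp [f1, bmul, binv, h, uu]
    · rintro _ ⟨x, rfl⟩ g
      refine ⟨⟨((g * f2 x * g⁻¹).b, (g * f2 x * g⁻¹).c), (), x.s⟩, Bor.ext ?_ rfl rfl ?_ ?_⟩ <;>
        rcases Int.units_eq_one_or g.s with h | h <;> simp [f2, bmul, binv, h, uu]
    · have := mul_mem_sup (S := f1.range) (T := f2.range)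
        ⟨⟨(x.a, x.c - x.a * x.b), (), x.s⟩, rfl⟩ ⟨⟨(x.b, 0), (), x.t⟩, rfl⟩
      convert this
      ext <;> simp [f1, f2, bmul]
  refine hF.inj f3 (fun x y e => E.ext (Prod.ext (congrArg Bor.a e) (congrArg Bor.b e))
    (congrArg Bor.c e) (congrArg Bor.s e)) ⟨?_⟩ h
  rintro _ ⟨x, rfl⟩ g
  exact ⟨⟨((g * f3 x * g⁻¹).a, (g * f3 x * g⁻¹).b), (g * f3 x * g⁻¹).c, x.s⟩,
    Bor.ext rfl rfl rfl (by simp [f3, bmul, binv, uu])
      (by simp [f3, bmul, binv, uu])⟩

theorem gal_mem (a : F (Dih (ZMod 5))) (n : ℕ) : F (E (hb (GaloisField 5 (n + 1)))) :=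
  heis_mem hF (dih_eqv hF (Module.finBasisOfFinrankEq (ZMod 5) _
    (GaloisField.finrank 5 n.succ_ne_zero)).equivFun.symm.toAddEquiv (dih_fun hF a n))

omit hF in
theorem gal_xx (n : ℕ) : XX (5 ^ (n + 1)) (E (hb (GaloisField 5 (n + 1)))) := by
  have := e_xx (c55 _) (c5 _) (hb_s (GaloisField 5 (n + 1)))
  rwa [GaloisField.card 5 _ n.succ_ne_zero] at this

omit hF in
theorem gal_eq (n q : ℕ) (h : XX q (E (hb (GaloisField 5 (n + 1))))) : q = 5 ^ (n + 1) := by
  have := e_eq (c55 _) (c5 _) (hb_s (GaloisField 5 (n + 1))) h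
  rwa [GaloisField.card 5 _ n.succ_ne_zero] at this

omit hF in
theorem e_solv : Group.IsSolvable (E β) := by
  have : Group.IsSolvable (sg (β := β)).ker := by
    let f : (sg (β := β)).ker →* Multiplicative V := MonoidHom.mk'
      (fun x => Multiplicative.ofAdd x.1.v) fun x y => by
        have : x.1.s = 1 := x.2
        simp [this]
    refine solvable_of_ker_le_range ((ce β).codRestrict _ fun _ => rfl) f fun x hx => ?_
    exact ⟨Multiplicative.ofAdd x.1.c, Subtype.ext (E.ext (Eq.symm hx) rfl (Eq.symm x.2))⟩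
  exact solvable_of_ker_le_range (sg (β := β)).ker.subtype sg (by simp)

end Pool.Agent.H68.Sx
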