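import Pool.Agent.H68.Sx3
import Pool.Agent.H68.Fit5

set_option autoImplicit false

namespace Pool.Agent.H68.Sx

open scoped commutatorElement
open Pool.Agent.H68.Fit Subgroup

variable {G H : Type} [Group G] [Group H]

theorem sub_rad {F : (G : Type) → [Group G] → Prop} (hF : FC F) [Finite G] {K : Subgroup G}
    (h : K.IsSubnormal) : (Rad F K).map K.subtype ≤ Rad F G := by
  induction h with
  | top =>
    exact le_rad (Normal.map hF.rad.1 (⊤ : Subgroup G).subtype fun g => ⟨⟨g, trivial⟩, rfl⟩)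
      (hF.map _ (subtype_injective _) _ hF.rad.2)
  | step H K hle _ hN ih =>
    refine le_trans ?_ ih
    have := hF.rad_char (G := H.subgroupOf K)
    have h1 : (Rad F (H.subgroupOf K)).map (H.subgroupOf K).subtype ≤ Rad F K :=
      le_rad inferInstance (hF.map _ (subtype_injective _) _ hF.rad.2)
    have h2 : (Rad F H).map (subgroupOfEquivOfLe hle).symm.toMonoidHom ≤ Rad F (H.subgroupOf K) :=
      le_rad (Normal.map hF.rad.1 _ (MulEquiv.surjective _))
        (hF.map _ (MulEquiv.injective _) _ hF.rad.2)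
    rintro _ ⟨x, hx, rfl⟩
    exact ⟨_, h1 ⟨_, h2 ⟨x, hx, rfl⟩, rfl⟩, rfl⟩

theorem fc_n0 {F : (G : Type) → [Group G] → Prop} (hF : FC F) [Finite G] (s : Set (Subgroup G))
    (h : ∀ N ∈ s, N.IsSubnormal ∧ F N) (e : sSup s = ⊤) : F G :=
  hF.of_top (eq_top_iff.2 (e ▸ sSup_le fun N hN g hg => sub_rad hF (h N hN).1
    ⟨⟨g, hg⟩, le_rad (N := ⊤) inferInstance (hF.normal _ _ inferInstance (h N hN).2) trivial, rfl⟩))
    hF.rad.2

def TT (G : Type) [Group G] : Prop := ∀ p : ℕ, p.Prime → ∀ a b : G, pe p a → pe p b → pe p (a * b)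

theorem tt_nil [Finite G] [Group.IsNilpotent G] : TT G := by
  rintro p hp a b ⟨i, hi⟩ ⟨j, hj⟩
  have := Fact.mk hp
  obtain ⟨P, hP⟩ := (zp_p hi).exists_le_sylow
  obtain ⟨Q, hQ⟩ := (zp_p hj).exists_le_sylow
  have := Sylow.unique_of_normal P inferInstance
  rw [Subsingleton.elim Q P] at hQ
  exact pg_iff.1 P.2 _ (mul_mem (hP (mem_zpowers a)) (hQ (mem_zpowers b)))

theorem TT.r0 {A B : Type} [Group A] [Group B] (α : G →* A) (β : G →* B)
    (hi : ∀ g, α g = 1 → β g = 1 → g = 1) (a : TT A) (b : TT B) : TT G := by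
  intro p hp x y hx hy
  obtain ⟨n, h1⟩ := a p hp _ _ (hx.map α) (hy.map α)
  obtain ⟨m, h2⟩ := b p hp _ _ (hx.map β) (hy.map β)
  refine ⟨n + m, hi _ ?_ ?_⟩
  · rw [map_pow, map_mul, pow_add, pow_mul, h1, one_pow]
  · rw [map_pow, map_mul, pow_add, pow_mul', h2, one_pow]

theorem pe_iff [Finite G] {p : ℕ} (hp : p.Prime) {g : G} : pe p g ↔ PE (· = p) g := by
  refine ⟨fun ⟨k, h⟩ => ⟨_, PN.pw (π := (· = p)) hp rfl k, h⟩, fun ⟨n, h1, h2⟩ => ?_⟩
  exact ⟨_, by rwa [← Nat.eq_prime_pow_of_unique_prime_dvd h1.1 fun a b => h1.2 _ a b]⟩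

theorem TT.quot [Finite G] (f : G →* H) (hf : Function.Surjective f) (a : TT G) : TT H := by
  intro p hp x y hx hy
  have : Finite H := Finite.of_surjective f hf
  have key : ∀ x : H, pe p x → ∃ g, pe p g ∧ f g = x := fun x hx => by
    obtain ⟨g, rfl⟩ := hf x
    obtain ⟨i, j, e, h1, h2⟩ := pe_split (· = p) g
    refine ⟨_, (pe_iff hp).2 h1, ?_⟩
    conv_rhs => rw [e, map_mul, PE.eq_one (map_zpow f g j ▸ ((pe_iff hp).1 hx).zpow j) (h2.map f),
      mul_one]
  obtain ⟨g, h1, rfl⟩ := key x hx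
  obtain ⟨g', h2, rfl⟩ := key y hy
  rw [← map_mul]
  exact (a p hp _ _ h1 h2).map f

theorem TT.sup [Finite G] {N M : Subgroup G} [N.Normal] [M.Normal] (a : TT N) (b : TT M)
    (e : N ⊔ M = ⊤) : TT G := by
  intro p hp
  have k : ∀ {N : Subgroup G}, TT N → MC (· = p) N := fun {N} a x hx y hy h1 h2 =>
    (pe_iff hp).1 ((a p hp ⟨x, hx⟩ ⟨y, hy⟩ (pe_of_inj N.subtype_injective ((pe_iff hp).2 h1))
      (pe_of_inj N.subtype_injective ((pe_iff hp).2 h2))).map N.subtype)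
  let K := (k a).sub ⊔ (k b).sub
  let f := QuotientGroup.mk' K
  have k1 : ∀ N : Subgroup G, (∀ x ∈ N, PE (· = p) x → x ∈ K) → ∀ x ∈ N,
      PE (fun q => ¬ q = p) (f x) := fun N h x hx => by
    obtain ⟨i, j, e, h1, h2⟩ := pe_split (· = p) x
    rw [e, map_mul, show f (x ^ i) = 1 from (QuotientGroup.eq_one_iff _).2 (h _ (zpow_mem hx i) h1),
      one_mul]
    exact h2.map f
  have : (N.map f).Normal := Normal.map inferInstance _ (QuotientGroup.mk'_surjective K)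
  have k2 : ∀ x, pe p x → x ∈ K := fun x hx => by
    have h : x ∈ N ⊔ M := e ▸ mem_top x
    rw [← SetLike.mem_coe, normal_mul] at h
    obtain ⟨u, hu, v, hv, rfl⟩ := h
    refine (QuotientGroup.eq_one_iff _).1 ((((pe_iff hp).1 hx).map f).eq_one
      (PE.of_ker (QuotientGroup.mk' (N.map f)) (fun c hc => ?_) ?_))
    · obtain ⟨d, hd, rfl⟩ := (QuotientGroup.eq_one_iff c).1 hc
      exact k1 N (fun x a b => mem_sup_left ⟨a, b⟩) d hd
    · rw [map_mul, map_mul, show QuotientGroup.mk' (N.map f) (f u) = 1 from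
        (QuotientGroup.eq_one_iff _).2 ⟨u, hu, rfl⟩, one_mul]
      exact (k1 M (fun x a b => mem_sup_right ⟨a, b⟩) v hv).map _
  intro x y hx hy
  exact (pe_iff hp).2 ((k a).sup_pe (k b) _ (mul_mem (k2 x hx) (k2 y hy)))

def WW (F : (G : Type) → [Group G] → Prop) (G : Type) [Group G] : Prop :=
  Finite G ∧ Group.IsSolvable G ∧ ∃ (K : Subgroup G) (_ : K.Normal), F K ∧ TT (G ⧸ K)

variable {F : (G : Type) → [Group G] → Prop} (hF : FC F)
include hF

theorem ww_sub (h : WW F G) (f : H →* G) (hf : Function.Injective f) (C : Subgroup G) [C.Normal]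
    (hC : C ≤ f.range) (hT : TT (H ⧸ C.comap f)) : WW F H := by
  obtain ⟨_, _, K, _, h1, h2⟩ := h
  refine ⟨Finite.of_injective f hf, solvable_of_solvable_injective hf, (K ⊓ C).comap f,
    inferInstance, ?_, TT.r0 (QuotientGroup.map _ K f (comap_mono inf_le_left))
      (QuotientGroup.map _ (C.comap f) (MonoidHom.id H) (comap_mono inf_le_right))
      (fun g a b => ?_) h2 hT⟩
  · refine hF.iso _ _ (((K ⊓ C).comap f).equivMapOfInjective f hf).symm ?_
    rw [map_comap_eq_self (inf_le_right.trans hC)]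
    exact hF.subOf inf_le_left inferInstance h1
  · obtain ⟨g, rfl⟩ := QuotientGroup.mk_surjective g
    exact (QuotientGroup.eq_one_iff g).2
      ⟨(QuotientGroup.eq_one_iff (f g)).1 a, (QuotientGroup.eq_one_iff g).1 b⟩

theorem ww_nor (h : WW F G) (f : H →* G) (hf : Function.Injective f) (hn : f.range.Normal) :
    WW F H := by
  refine ww_sub hF h f hf f.range le_rfl fun p _ a b _ _ => ⟨0, ?_⟩
  obtain ⟨g, e⟩ := QuotientGroup.mk_surjective (a * b)
  rw [← e, pow_zero, pow_one]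
  exact (QuotientGroup.eq_one_iff g).2 ⟨g, rfl⟩

theorem ww_fc : FC (WW F) := by
  have k : ∀ (G : Type) [Group G] [Finite G] (N M : Subgroup G), N.Normal → M.Normal → WW F N →
      WW F M → N ⊔ M = ⊤ → ∃ (K : Subgroup G) (_ : K.Normal), F K ∧ TT (G ⧸ K) := by
    intro G _ _ N M _ _ a b e
    have := (hF.rad (G := G)).1
    let f := QuotientGroup.mk' (Rad F G)
    have hf := QuotientGroup.mk'_surjective (Rad F G)
    have k : ∀ (N : Subgroup G) [N.Normal], WW F N → TT (N.map f) := by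
      rintro N _ ⟨-, -, K, _, h1, h2⟩
      refine h2.quot (QuotientGroup.lift K (f.subgroupMap N) fun x hx => Subtype.ext
        ((QuotientGroup.eq_one_iff _).2 (sub_rad hF (Normal.isSubnormal inferInstance)
          ⟨x, le_rad inferInstance h1 hx, rfl⟩))) fun y => ?_
      obtain ⟨x, rfl⟩ := f.subgroupMap_surjective N y
      exact ⟨x, rfl⟩
    have : (N.map f).Normal := Normal.map inferInstance _ hf
    have : (M.map f).Normal := Normal.map inferInstance _ hf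
    exact ⟨_, inferInstance, hF.rad.2, (k N a).sup (k M b) (by
      rw [← Subgroup.map_sup, e, map_top_of_surjective _ hf])⟩
  refine ⟨fun G _ h => ⟨h.1, h.2.1⟩, ⟨inferInstance, inferInstance, ⊥, inferInstance, hF.triv,
    tt_nil⟩, fun G H _ _ e h => ww_nor hF h e.symm.toMonoidHom e.symm.injective (by
      rw [MonoidHom.range_eq_top.2 e.symm.surjective]; infer_instance),
    fun G _ N hN h => ww_nor hF h N.subtype N.subtype_injective (by rwa [range_subtype]),
    fun G _ _ N M hN hM a b => ⟨inferInstance, ?_, ?_⟩⟩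
  · have := a.2.1
    have := b.2.1
    exact solv_sup N M
  · refine k _ (N.subgroupOf (N ⊔ M)) (M.subgroupOf (N ⊔ M)) inferInstance inferInstance ?_ ?_
      (by rw [← subgroupOf_sup le_sup_left le_sup_right, subgroupOf_self])
    · exact ww_nor hF a (subgroupOfEquivOfLe le_sup_left).toMonoidHom (MulEquiv.injective _) (by
        rw [MonoidHom.range_eq_top.2 (MulEquiv.surjective _)]; infer_instance)
    · exact ww_nor hF b (subgroupOfEquivOfLe le_sup_right).toMonoidHom (MulEquiv.injective _) (by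
        rw [MonoidHom.range_eq_top.2 (MulEquiv.surjective _)]; infer_instance)

omit hF

def XY (p r q : ℕ) (G : Type) [Group G] : Prop := Finite G ∧ YY p r q (⊤ : Subgroup G)

theorem xy_sub {p r q : ℕ} (N : Subgroup G) : YY p r q (⊤ : Subgroup N) ↔ YY p r q N := by
  rw [← yy_map N.subtype N.subtype_injective, ← MonoidHom.range_eq_map, range_subtype]

theorem xy_fc {p r q : ℕ} [Fact p.Prime] [Fact r.Prime] (hne : p ≠ r) (h3 : 3 < p) (hq : 1 ≤ q) :
    FC (XY p r q) := by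
  refine ⟨fun G _ h => ⟨h.1, ?_⟩, ⟨inferInstance, ?_⟩, fun G H _ _ e h => ?_, fun G _ N hN h => ?_,
    fun G _ _ N M hN hM a b => ⟨inferInstance, ?_⟩⟩
  · have := h.1
    have := (pg_iff.2 h.2.h0).isNilpotent
    have : IsPGroup r (G ⧸ QQ p (⊤ : Subgroup G)) := fun g => by
      obtain ⟨g, rfl⟩ := QuotientGroup.mk'_surjective _ g
      exact (h.2.h1 g trivial).imp fun k a => by
        rw [← map_pow]; exact (QuotientGroup.eq_one_iff _).2 (subset_closure ⟨trivial, a⟩)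
    have := this.isNilpotent
    exact solvable_of_ker_le_range (QQ p ⊤).subtype (QuotientGroup.mk' (QQ p ⊤)) (by simp)
  · refine ⟨fun _ _ => ⟨0, rfl⟩, fun _ _ => ⟨0, 0, rfl⟩, fun _ _ _ _ => one_mem _,
      fun _ _ _ => one_mem _, fun _ _ => one_mem _, fun _ _ => Or.inl (Subsingleton.elim _ _),
      fun _ _ _ _ _ _ => Or.inl rfl⟩
  · have := h.1
    refine ⟨Finite.of_equiv _ e.toEquiv, ?_⟩
    have := (yy_map e.toMonoidHom e.injective ⊤).2 h.2
    rwa [map_top_of_surjective _ e.surjective] at this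
  · have := h.1
    exact ⟨inferInstance, (xy_sub N).2 (h.2.nor hne hq N)⟩
  · refine YY.sup hne h3 (N₁ := N.subgroupOf (N ⊔ M)) (N₂ := M.subgroupOf (N ⊔ M)) ?_ ?_ ?_
    · rw [← yy_map _ (N ⊔ M).subtype_injective, map_subgroupOf_eq_of_le le_sup_left]
      exact (xy_sub N).1 a.2
    · rw [← yy_map _ (N ⊔ M).subtype_injective, map_subgroupOf_eq_of_le le_sup_right]
      exact (xy_sub M).1 b.2
    · rw [← subgroupOf_sup le_sup_left le_sup_right, subgroupOf_self]

abbrev S3 := Equiv.Perm (Fin 3)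

class Inv' {V C : Type} [AddCommGroup V] [AddCommGroup C] [DistribMulAction S3 V]
    (β : V →+ V →+ C) : Prop where
  inv : ∀ (l : S3) v w, β (l • v) (l • w) = β v w
  h5 : ∀ v : V, 5 • v = 0
  c5 : ∀ v : C, 5 • v = 0
  fpf : ∀ v : V, ∃ w, w - finRotate 3 • w = v

@[ext] structure EE {V C : Type} [AddCommGroup V] [AddCommGroup C] (β : V →+ V →+ C) where
  v : V
  c : C
  l : S3

variable {V C : Type} [AddCommGroup V] [AddCommGroup C] [DistribMulAction S3 V]
  {β : V →+ V →+ C} [hβ : Inv' β]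

instance : Mul (EE β) := ⟨fun x y => ⟨x.v + x.l • y.v, x.c + y.c + β x.v (x.l • y.v), x.l * y.l⟩⟩
instance : One (EE β) := ⟨⟨0, 0, 1⟩⟩
instance : Inv (EE β) := ⟨fun x => ⟨-(x.l⁻¹ • x.v), -x.c + β x.v x.v, x.l⁻¹⟩⟩
omit hβ
@[simp] theorem mul_v' (x y : EE β) : (x * y).v = x.v + x.l • y.v := rfl
@[simp] theorem mul_c' (x y : EE β) : (x * y).c = x.c + y.c + β x.v (x.l • y.v) := rfl
@[simp] theorem mul_l' (x y : EE β) : (x * y).l = x.l * y.l := rfl
omit [DistribMulAction S3 V] in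
@[simp] theorem one_v' : (1 : EE β).v = 0 := rfl
omit [DistribMulAction S3 V] in
@[simp] theorem one_c' : (1 : EE β).c = 0 := rfl
omit [DistribMulAction S3 V] in
@[simp] theorem one_l' : (1 : EE β).l = 1 := rfl
@[simp] theorem inv_v' (x : EE β) : x⁻¹.v = -(x.l⁻¹ • x.v) := rfl
@[simp] theorem inv_c' (x : EE β) : x⁻¹.c = -x.c + β x.v x.v := rfl
@[simp] theorem inv_l' (x : EE β) : x⁻¹.l = x.l⁻¹ := rfl
include hβ

instance : Group (EE β) := Group.ofLeftAxioms
  (fun x y z => EE.ext (by simp [mul_smul, add_assoc])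
    (by simp [mul_smul, hβ.inv]; abel) (mul_assoc _ _ _))
  (fun x => EE.ext (by simp) (by simp) (one_mul _))
  (fun x => EE.ext (by simp) (by simp [hβ.inv]) (inv_mul_cancel _))

instance [Finite V] [Finite C] : Finite (EE β) :=
  Finite.of_injective (fun x : EE β => (x.v, x.c, x.l)) fun x y h => by
    simp only [Prod.mk.injEq] at h; exact EE.ext h.1 h.2.1 h.2.2

def lg : EE β →* S3 := MonoidHom.mk' EE.l fun _ _ => rfl

def il : S3 →* EE β := MonoidHom.mk' (fun l => ⟨0, 0, l⟩) fun _ _ =>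
  EE.ext (by simp) (by simp) rfl

def ce' (β : V →+ V →+ C) [Inv' β] : Multiplicative C →* EE β :=
  MonoidHom.mk' (fun c => ⟨0, c.toAdd, 1⟩) fun _ _ => EE.ext (by simp) (by simp) (by simp)

theorem ce_comm' {x : EE β} (h1 : x.v = 0) (h2 : x.l = 1) (y : EE β) : Commute x y :=
  EE.ext (by simp [h1, h2]) (by simp [h1, h2, add_comm]) (by simp [h2])

theorem cm_eq' {x y : EE β} (h1 : x.l = 1) (h2 : y.l = 1) :
    ⁅x, y⁆ = ⟨0, β x.v y.v - β y.v x.v, 1⟩ :=
  EE.ext (by simp [commutatorElement_def, h1, h2])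
    (by simp [commutatorElement_def, h1, h2]; abel) (by simp [commutatorElement_def, h1, h2])

theorem pe_l {x : EE β} (h : pe 5 x) : x.l = 1 := by
  obtain ⟨k, hk⟩ := h.map lg
  exact mem_bot.1 (mem_of_cop (K := ⊥) (Nat.Coprime.pow_left k (by norm_num : Nat.Coprime 5 6)) hk
    ((by decide +kernel : ∀ l : S3, l ^ 6 = 1) x.l))

theorem pp_l {N : Subgroup (EE β)} {x : EE β} (h : x ∈ QQ 5 N) : x.l = 1 :=
  (closure_le (lg (β := β)).ker).2 (fun _ a => pe_l a.2) h

theorem l_pe {x : EE β} (h : x.l = 1) : pe 5 x := ⟨1, by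
  have : x ^ 5 ^ 1 = ⟨5 • x.v, 5 • (x.c + 2 • β x.v x.v), 1⟩ :=
    EE.ext (by simp [pow_succ, h]; abel) (by simp [pow_succ, h]; abel) (by simp [pow_succ, h])
  rw [this, hβ.h5, hβ.c5]; rfl⟩

theorem pp_v' {N : Subgroup (EE β)} [N.Normal] (hN : il (finRotate 3) ∈ N) (v : V) :
    ∃ a ∈ PP 5 3 N, a.v = v := by
  obtain ⟨v, rfl⟩ := hβ.fpf v
  obtain ⟨v, rfl⟩ := hβ.fpf v
  have k : ∀ x : EE β, x.l = 1 → ⁅x, il (finRotate 3)⁆.v = x.v - finRotate 3 • x.v ∧
      ⁅x, il (finRotate 3)⁆.l = 1 := fun x h => by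
    rw [commutatorElement_def]
    simp [h, il, sub_eq_add_neg]
  obtain ⟨a, b⟩ := k ⟨v, 0, 1⟩ rfl
  refine ⟨_, subset_closure ⟨_, commutator_le_right ⊤ N (commutator_mem_commutator
    (mem_top ⟨v, 0, 1⟩) hN), l_pe b, _, hN, pe.map ⟨1, by decide⟩ il, rfl⟩, ?_⟩
  rw [(k _ b).1, a]

theorem br_e' {N : Subgroup (EE β)} [N.Normal] (hN : il (finRotate 3) ∈ N) {w : EE β}
    (hw : w ∈ PP 5 3 N) (h : ∀ c, ∃ v', β w.v v' - β v' w.v = c) : Br 5 3 N w = (ce' β).range := by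
  have h1 := pp_l (pp_le_qq _ hw)
  refine le_antisymm (br_le fun a ha => ?_) ?_
  · rw [cm_eq' h1 (pp_l (pp_le_qq _ ha))]; exact ⟨Multiplicative.ofAdd _, rfl⟩
  · rintro _ ⟨c, rfl⟩
    obtain ⟨v, hv⟩ := h c.toAdd
    obtain ⟨a, ha, rfl⟩ := pp_v' hN v
    have := br_mem w ha
    rwa [cm_eq' h1 (pp_l (pp_le_qq _ ha)), hv] at this

theorem card_ce' : Nat.card (ce' β).range = Nat.card C :=
  (Nat.card_congr (MonoidHom.ofInjective (f := ce' β) fun _ _ e => congrArg EE.c e).toEquiv).symm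

theorem ee_solv : Group.IsSolvable (EE β) := by
  have : Group.IsSolvable (lg (β := β)).ker := by
    let f : (lg (β := β)).ker →* Multiplicative V := MonoidHom.mk'
      (fun x => Multiplicative.ofAdd x.1.v) fun x y => by
        have : x.1.l = 1 := x.2
        simp [this]
    refine solvable_of_ker_le_range ((ce' β).codRestrict _ fun _ => rfl) f fun x hx => ?_
    exact ⟨Multiplicative.ofAdd x.1.c, Subtype.ext (EE.ext (Eq.symm hx) rfl (Eq.symm x.2))⟩
  have : Group.IsSolvable S3 := by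
    have : IsCyclic (alternatingGroup (Fin 3)) := isCyclic_of_prime_card (p := 3) (by
      rw [nat_card_alternatingGroup]; simp [Nat.factorial])
    have : Group.IsSolvable (alternatingGroup (Fin 3)) :=
      isSolvable_of_comm (IsCyclic.commGroup (α := alternatingGroup (Fin 3))).mul_comm
    exact solvable_of_ker_le_range (alternatingGroup (Fin 3)).subtype Equiv.Perm.sign (by
      rw [range_subtype]; rfl)
  exact solvable_of_ker_le_range (lg (β := β)).ker.subtype lg (by simp)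

theorem ee_ww [Finite V] [Finite C] (hs : ∀ v ≠ 0, ∀ c, ∃ v', β v v' - β v' v = c)
    [Nontrivial C] : WW (XY 5 3 (Nat.card C)) (EE β) := by
  let χ := Equiv.Perm.sign.comp (lg (β := β))
  refine ⟨inferInstance, ee_solv, χ.ker, inferInstance, ⟨inferInstance, (xy_sub _).2 ?_⟩,
    TT.r0 (QuotientGroup.kerLift χ) (QuotientGroup.kerLift χ) (fun g a _ => QuotientGroup.kerLift_injective χ (a.trans (map_one _).symm))
      tt_nil tt_nil⟩
  have hN : il (finRotate 3) ∈ χ.ker := by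
    show Equiv.Perm.sign (finRotate 3) = 1
    decide
  have hp : ∀ {w : EE β}, w ∈ PP 5 3 χ.ker → w.l = 1 := fun h => pp_l (pp_le_qq _ h)
  have b0 : ∀ {w : EE β}, w ∈ PP 5 3 χ.ker → w.v = 0 → Br 5 3 χ.ker w = ⊥ :=
    fun h h' => br_bot.2 fun a _ => ce_comm' h' (hp h) a
  have b1 := fun {w : EE β} (hw : w ∈ PP 5 3 χ.ker) (hv : w.v ≠ 0) => br_e' hN hw (hs _ hv)
  refine ⟨fun u hu => l_pe (pp_l hu), fun g hg => ⟨1, l_pe ?_⟩,
    fun a ha b hb => mem_cen.2 fun γ _ _ => ?_, fun w hw h => mem_cen.2 fun γ _ _ => ?_,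
    fun w hw => subset_closure ⟨hw, ?_⟩, fun w hw => ?_, fun w hw w' hw' _ _ => ?_⟩
  · exact (map_pow lg g _).trans
      ((by decide : ∀ l : S3, Equiv.Perm.sign l = 1 → l ^ 3 ^ 1 = 1) g.l hg)
  · rw [cm_eq' (hp ha) (hp hb)]; exact ce_comm' rfl rfl _
  · refine ce_comm' (by_contra fun hv => ?_) (hp hw) _
    have := card_ce' (β := β)
    rw [← b1 hw hv, br_bot.2 h, card_bot] at this
    exact Finite.one_lt_card.ne this
  · by_cases hv : w.v = 0
    · rw [b0 hw hv, card_bot]; exact Nat.card_pos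
    · rw [b1 hw hv, card_ce']
  · by_cases hv : w.v = 0
    · exact Or.inl (b0 hw hv)
    · rw [b1 hw hv, card_ce']; exact Or.inr le_rfl
  · by_cases hv : w.v = 0
    · exact Or.inr (ce_comm' hv (hp hw) _)
    by_cases hv' : w'.v = 0
    · exact Or.inr (ce_comm' hv' (hp hw') _).symm
    · rw [b1 hw hv, b1 hw' hv']; exact Or.inl rfl

theorem ee_not {q : ℕ} (hq : q < Nat.card C) (A : AddSubgroup V) (hA : A ≠ ⊤)
    (hA' : ∀ (l : S3), ∀ v ∈ A, l • v ∈ A)
    (hs : ∀ v ∉ A, ∀ c, ∃ v', β v v' - β v' v = c) : ¬ WW (XY 5 3 q) (EE β) := by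
  rintro ⟨_, -, K, _, ⟨-, h1⟩, h2⟩
  rw [xy_sub] at h1
  let f := (QuotientGroup.mk' K).comp il
  have hN : il (finRotate 3) ∈ K := by
    obtain ⟨k, hk⟩ := h2 2 Nat.prime_two _ _ (pe.map (u := Equiv.swap 0 2) ⟨1, by decide⟩ f)
      (pe.map (u := Equiv.swap 1 2) ⟨1, by decide⟩ f)
    rw [← map_mul, show Equiv.swap 0 2 * Equiv.swap 1 2 = (finRotate 3)⁻¹ by decide] at hk
    have := mem_of_cop (K := ⊥) (Nat.Coprime.pow_left k (by norm_num : Nat.Coprime 2 3)) hk (by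
      rw [← map_pow, show (finRotate 3)⁻¹ ^ 3 = 1 by decide, map_one]; exact one_mem _)
    rw [mem_bot, map_inv, inv_eq_one] at this
    exact (QuotientGroup.eq_one_iff _).1 this
  let M : Subgroup (EE β) :=
    { carrier := {x | x.v ∈ A}
      one_mem' := A.zero_mem
      mul_mem' := fun a b => A.add_mem a (hA' _ _ b)
      inv_mem' := fun a => A.neg_mem (hA' _ _ a) }
  refine hA (eq_top_iff.2 fun v _ => ?_)
  obtain ⟨a, ha, rfl⟩ := pp_v' hN v
  refine (h1.c3.trans ((closure_le M).2 fun w hw => by_contra fun hv => hq.not_ge ?_)) ha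
  have := hw.2
  rwa [br_e' hN hw.1 (hs _ hv), card_ce'] at this

omit hβ

def U : AddSubgroup (Fin 3 → ZMod 5) where
  carrier := {f | ∑ i, f i = 0}
  zero_mem' := by simp
  add_mem' := fun {a b} (ha : ∑ i, a i = 0) (hb : ∑ i, b i = 0) => by
    simp [Finset.sum_add_distrib, ha, hb]
  neg_mem' := fun {a} (ha : ∑ i, a i = 0) => by simp [ha]

instance : DistribMulAction S3 U where
  smul l f := ⟨fun i => f.1 (l⁻¹ i), (Equiv.sum_comp l⁻¹ f.1).trans f.2⟩
  one_smul _ := rfl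
  mul_smul _ _ _ := rfl
  smul_zero _ := rfl
  smul_add _ _ _ := rfl

def dot : U →+ U →+ ZMod 5 := AddMonoidHom.mk' (fun a => AddMonoidHom.mk'
  (fun b => ∑ i, a.1 i * b.1 i) fun _ _ => by simp [mul_add, Finset.sum_add_distrib])
  fun _ _ => by ext; simp [add_mul, Finset.sum_add_distrib]

theorem dot_inv (l : S3) (a b : U) : dot (l • a) (l • b) = dot a b :=
  Equiv.sum_comp l⁻¹ fun i => a.1 i * b.1 i

theorem dot_s (a : U) (h : a ≠ 0) (c : ZMod 5) : ∃ b, dot a b = c ∧ dot b a = c := by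
  have k : ∀ x y z : ZMod 5, x + y + z = 0 → ¬ (x = 0 ∧ y = 0 ∧ z = 0) → ∀ c : ZMod 5,
      ∃ u v : ZMod 5, x * u + y * v + z * (-u - v) = c := by decide +kernel
  obtain ⟨u, v, e⟩ := k (a.1 0) (a.1 1) (a.1 2) ((Fin.sum_univ_three a.1).symm.trans a.2)
    (fun e => h (by ext i; fin_cases i <;> simp [e.1, e.2.1, e.2.2])) c
  refine ⟨⟨![u, v, -u - v], by simp [U, Fin.sum_univ_three]⟩, ?_, ?_⟩ <;>
    simp [dot, Fin.sum_univ_three, ← e, mul_comm]

theorem u5 (a : U) : 5 • a = 0 := Subtype.ext (funext fun i => c5 (ZMod 5) (a.1 i))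

theorem ufpf (a : U) : ∃ w, w - finRotate 3 • w = a := by
  refine ⟨2 • (a - finRotate 3 • finRotate 3 • a), ?_⟩
  have h : a.1 0 + a.1 1 + a.1 2 = 0 := (Fin.sum_univ_three a.1).symm.trans a.2
  have h5 : (5 : ZMod 5) = 0 := rfl
  ext i
  fin_cases i
  · show 2 • (a.1 0 - a.1 1) - 2 • (a.1 2 - a.1 0) = a.1 0
    simp only [nsmul_eq_mul]; push_cast; linear_combination (-2) * h + a.1 0 * h5
  · show 2 • (a.1 1 - a.1 2) - 2 • (a.1 0 - a.1 1) = a.1 1
    simp only [nsmul_eq_mul]; push_cast; linear_combination (-2) * h + a.1 1 * h5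
  · show 2 • (a.1 2 - a.1 0) - 2 • (a.1 1 - a.1 2) = a.1 2
    simp only [nsmul_eq_mul]; push_cast; linear_combination (-2) * h + a.1 2 * h5

def b1 : U × U →+ U × U →+ ZMod 5 := (dot.comp (AddMonoidHom.fst U U)).compl₂ (AddMonoidHom.snd U U)

def b2 : U × U × U →+ U × U × U →+ ZMod 5 × ZMod 5 := AddMonoidHom.mk' (fun a => AddMonoidHom.mk'
  (fun b => (dot a.1 b.2.1, dot a.1 b.2.2)) fun _ _ => by simp) fun _ _ => by ext <;> simp

instance : Inv' b1 := ⟨fun _ _ _ => dot_inv _ _ _, fun _ => Prod.ext (u5 _) (u5 _), c5 _, fun v => by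
  obtain ⟨a, h⟩ := ufpf v.1
  obtain ⟨b, h'⟩ := ufpf v.2
  exact ⟨(a, b), Prod.ext h h'⟩⟩

instance : Inv' b2 := ⟨fun _ _ _ => Prod.ext (dot_inv _ _ _) (dot_inv _ _ _),
  fun _ => Prod.ext (u5 _) (Prod.ext (u5 _) (u5 _)), c55 _, fun v => by
  obtain ⟨a, h⟩ := ufpf v.1
  obtain ⟨b, h'⟩ := ufpf v.2.1
  obtain ⟨c, h''⟩ := ufpf v.2.2
  exact ⟨(a, b, c), Prod.ext h (Prod.ext h' h'')⟩⟩

theorem b1_ww : WW (XY 5 3 5) (EE b1) := by
  have := ee_ww (β := b1) fun v hv c => by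
    by_cases h : v.1 = 0
    · obtain ⟨b, -, e⟩ := dot_s v.2 (fun e => hv (Prod.ext h e)) (-c)
      exact ⟨(b, 0), by simp [b1, e]⟩
    · obtain ⟨b, e, -⟩ := dot_s v.1 h c
      exact ⟨(0, b), by simp [b1, e]⟩
  rwa [Nat.card_zmod] at this

theorem b2_not : ¬ WW (XY 5 3 5) (EE b2) := by
  refine ee_not (by simp) (AddMonoidHom.fst _ _).ker (fun e => ?_) (fun l v hv => ?_) fun v hv c => ?_
  · have : ((⟨![1, -1, 0], by simp [U, Fin.sum_univ_three]⟩, 0) : U × U × U) ∈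
      (AddMonoidHom.fst U (U × U)).ker := e ▸ AddSubgroup.mem_top _
    exact absurd (congrFun (congrArg Subtype.val this) 0) (by decide)
  · show l • v.1 = 0
    rw [show v.1 = 0 from hv, smul_zero]
  · obtain ⟨a, e, -⟩ := dot_s v.1 hv c.1
    obtain ⟨b, e', -⟩ := dot_s v.1 hv c.2
    exact ⟨(0, a, b), by simp [b2, e, e']⟩

def q1 : EE b2 →* EE b1 := MonoidHom.mk' (fun x => ⟨(x.v.1, x.v.2.1), x.c.1, x.l⟩) fun _ _ => rfl
def q2 : EE b2 →* EE b1 := MonoidHom.mk' (fun x => ⟨(x.v.1, x.v.2.2), x.c.2, x.l⟩) fun _ _ => rfl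

end Pool.Agent.H68.Sx
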