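import Mathlib

set_option autoImplicit false

namespace Pool.Agent.H68.SymExt

open Equiv

theorem ext1 {α : Type} [Countable α] (S W : Set α) (φ : α → α) (hSW : S ⊆ W)
    (hφ : Set.InjOn φ S) (hφW : φ '' S ⊆ W) (h1 : (W \ S).Infinite) (h2 : (W \ φ '' S).Infinite) :
    ∃ p : Perm α, (∀ x ∈ S, p x = φ x) ∧ ∀ x, x ∉ W → p x = x := by
  classical
  let s : Set α := S ∪ Wᶜ
  let f : s ↪ α := ⟨fun x => if x.1 ∈ S then φ x.1 else x.1, by
    rintro ⟨x, hx⟩ ⟨y, hy⟩ h
    simp only at h
    apply Subtype.ext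
    split_ifs at h with a b b
    · exact hφ a b h
    · exact absurd (h ▸ hφW ⟨x, a, rfl⟩) (hy.resolve_left b)
    · exact absurd (h ▸ hφW ⟨y, b, rfl⟩) (hx.resolve_left a)
    · exact h⟩
  have e1 : (sᶜ : Set α) = W \ S := by ext x; simp [s]; tauto
  have e2 : ((Set.range f)ᶜ : Set α) = W \ φ '' S := by
    ext x
    simp only [Set.mem_compl_iff, Set.mem_range, Set.mem_diff]
    constructor
    · intro h
      refine ⟨?_, ?_⟩
      · by_contra hx
        exact h ⟨⟨x, Or.inr hx⟩, by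
          change (if x ∈ S then φ x else x) = x
          rw [if_neg (fun h => hx (hSW h))]⟩
      · rintro ⟨y, hy, rfl⟩
        exact h ⟨⟨y, Or.inl hy⟩, by
          change (if y ∈ S then φ y else y) = φ y
          rw [if_pos hy]⟩
    · rintro ⟨h3, h4⟩ ⟨⟨y, hy⟩, rfl⟩
      change (if y ∈ S then φ y else y) ∈ W at h3
      change (if y ∈ S then φ y else y) ∉ _ at h4
      split_ifs at h3 h4 with a
      · exact h4 ⟨y, a, rfl⟩
      · exact hy.resolve_left a h3
  have := h1.to_subtype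
  have := h2.to_subtype
  obtain ⟨g, hg⟩ := Cardinal.extend_function f (by
    rw [e1, e2]; exact nonempty_equiv_of_countable)
  refine ⟨g, fun x hx => ?_, fun x hx => ?_⟩
  · rw [hg ⟨x, Or.inl hx⟩]
    change (if x ∈ S then φ x else x) = φ x
    rw [if_pos hx]
  · rw [hg ⟨x, Or.inr hx⟩]
    change (if x ∈ S then φ x else x) = x
    rw [if_neg (fun h => hx (hSW h))]

theorem ext2 {α : Type} [Countable α] (S T W : Set α) (hSW : S ⊆ W) (hTW : T ⊆ W)
    (hT : T.Infinite) (h1 : (W \ S).Infinite) (h2 : (W \ T).Infinite) :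
    ∃ p : Perm α, (∀ x ∈ S, p x ∈ T) ∧ ∀ x, x ∉ W → p x = x := by
  obtain ⟨e, he⟩ := exists_injective_nat α
  let φ : α → α := fun x => (hT.natEmbedding T (e x) : α)
  have hφ : Function.Injective φ := fun x y h =>
    he ((hT.natEmbedding T).injective (Subtype.ext h))
  have hφT : φ '' S ⊆ T := by rintro _ ⟨x, _, rfl⟩; exact (hT.natEmbedding T (e x)).2
  obtain ⟨p, hp1, hp2⟩ := ext1 S W φ hSW hφ.injOn (hφT.trans hTW) h1
    (h2.mono (Set.diff_subset_diff_right hφT))
  exact ⟨p, fun x hx => by rw [hp1 x hx]; exact hφT ⟨x, hx, rfl⟩, hp2⟩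

abbrev I := Option ℕ × ℕ
abbrev L := Option (I × ℕ)

def cls : L → ℕ
  | none => 6
  | some x => x.2 % 6

theorem inf_cls (r : ℕ) (hr : r < 6) (S : Set L) (h : ∀ x, cls x = r → x ∈ S) : S.Infinite := by
  apply Set.infinite_of_injective_forall_mem (f := fun n : ℕ => (some ((none, 0), 6 * n + r) : L))
  · intro n m h; simp at h; omega
  · intro n; apply h; simp [cls]; omega

theorem cls_le (x : L) : cls x ≤ 6 ∧ (cls x = 6 → x = none) := by
  cases x with
  | none => simp [cls]
  | some x => simp only [cls]; omega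

def S0 : Set L := {x | cls x = 0 ∨ cls x = 3}
def Wa : Set L := {x | cls x = 1 ∨ cls x = 2 ∨ cls x = 4 ∨ cls x = 5}
def Wb : Set L := {x | cls x = 0 ∨ cls x = 1 ∨ cls x = 3 ∨ cls x = 4}

theorem dnt (σ : Perm L) (hσ : σ none = none) : ∃ a b c : Perm L,
    (∀ x, x ∉ Wa → a x = x) ∧ (∀ x, x ∉ Wb → b x = x) ∧ (∀ x, x ∉ Wb → c x = x) ∧
      ∀ x ∈ S0, b (a (σ (c x))) = x := by
  have h0 : ∃ r, (r = 0 ∨ r = 3) ∧ (Wa \ σ '' {x | cls x = r}).Infinite := by
    by_contra hc
    push Not at hc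
    have h1 := (hc 0 (Or.inl rfl)).union (hc 3 (Or.inr rfl))
    apply inf_cls 1 (by omega) Wa (fun x hx => Or.inl hx)
    apply h1.subset
    intro x hx
    by_contra hx'
    simp only [Set.mem_union, Set.mem_diff, hx, true_and, not_or, not_not] at hx'
    obtain ⟨⟨y, hy, e1⟩, ⟨z, hz, e2⟩⟩ := hx'
    have := σ.injective (e1.trans e2.symm)
    subst this
    simp only [Set.mem_ofPred_eq] at hy hz
    omega
  obtain ⟨r, hr, hinf⟩ := h0
  obtain ⟨c, hc1, hc2⟩ := ext2 S0 {x | cls x = r} Wb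
    (fun x hx => by simp only [S0, Wb, Set.mem_ofPred_eq] at *; omega)
    (fun x hx => by simp only [Wb, Set.mem_ofPred_eq] at *; omega)
    (inf_cls r (by omega) _ (fun x hx => hx))
    (inf_cls 1 (by omega) _ (fun x hx => by
      simp only [S0, Wb, Set.mem_diff, Set.mem_ofPred_eq]; omega))
    (inf_cls 1 (by omega) _ (fun x hx => by
      simp only [Wb, Set.mem_diff, Set.mem_ofPred_eq]; omega))
  obtain ⟨a, ha1, ha2⟩ := ext2 (Wa ∩ σ '' {x | cls x = r}) {x | cls x = 1} Wa
    Set.inter_subset_left (fun x hx => Or.inl hx) (inf_cls 1 (by omega) _ (fun x hx => hx))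
    (hinf.mono (fun x hx => ⟨hx.1, fun h => hx.2 h.2⟩))
    (inf_cls 2 (by omega) _ (fun x hx => by
      simp only [Wa, Set.mem_diff, Set.mem_ofPred_eq]; omega))
  have key : ∀ x ∈ S0, cls (a (σ (c x))) = 0 ∨ cls (a (σ (c x))) = 1 ∨ cls (a (σ (c x))) = 3 := by
    intro x hx
    by_cases h : σ (c x) ∈ Wa
    · exact Or.inr (Or.inl (ha1 _ ⟨h, c x, hc1 x hx, rfl⟩))
    · rw [ha2 _ h]
      have h1 := cls_le (σ (c x))
      have h2 : cls (σ (c x)) ≠ 6 := fun h3 => by
        have h4 := σ.injective ((h1.2 h3).trans hσ.symm)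
        have h5 : cls (c x) = r := hc1 x hx
        rw [h4] at h5; simp [cls] at h5; omega
      simp only [Wa, Set.mem_ofPred_eq] at h
      omega
  obtain ⟨b, hb1, hb2⟩ := ext1 S0 Wb (fun x => a (σ (c x)))
    (fun x hx => by simp only [S0, Wb, Set.mem_ofPred_eq] at *; omega)
    (fun x _ y _ h => c.injective (σ.injective (a.injective h)))
    (by
      rintro _ ⟨x, hx, rfl⟩
      have := key x hx
      simp only [Wb, Set.mem_ofPred_eq]; omega)
    (inf_cls 1 (by omega) _ (fun x hx => by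
      simp only [S0, Wb, Set.mem_diff, Set.mem_ofPred_eq]; omega))
    (inf_cls 4 (by omega) _ (fun x hx => ⟨by simp only [Wb, Set.mem_ofPred_eq]; omega, by
      rintro ⟨y, hy, rfl⟩
      have := key y hy
      simp only at hx
      omega⟩))
  refine ⟨a, b⁻¹, c, ha2, fun x hx => ?_, hc2, fun x hx => ?_⟩
  · rw [Perm.inv_eq_iff_eq, hb2 x hx]
  · rw [Perm.inv_eq_iff_eq, hb1 x hx]

def W0 : Set L := {x | x.map Prod.fst = some (none, 0)}

theorem to_W0 (W : Set L) (h0 : none ∉ W) (r : ℕ) (hr : r < 6) (h : ∀ x, cls x = r → x ∉ W) :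
    ∃ p : Perm L, (∀ x ∈ W, p x ∈ W0) ∧ p none = none := by
  obtain ⟨p, hp1, hp2⟩ := ext2 W W0 {x | x ≠ none} (fun x hx e => h0 (e ▸ hx))
    (fun x hx e => by subst e; simp [W0] at hx)
    (by
      apply Set.infinite_of_injective_forall_mem (f := fun n : ℕ => (some ((none, 0), n) : L))
      · intro n m h; simpa using h
      · intro n; simp [W0])
    (inf_cls r hr _ (fun x hx => ⟨fun e => by subst e; simp [cls] at hx; omega, h x hx⟩))
    (by
      apply Set.infinite_of_injective_forall_mem (f := fun n : ℕ => (some ((none, 1), n) : L))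
      · intro n m h; simpa using h
      · intro n; simp [W0])
  exact ⟨p, hp1, hp2 none (by simp)⟩

def τ (n : ℕ) : Perm I where
  toFun x := if x.1 = some n then (if x.2 = 0 then (none, 0) else (some n, x.2 - 1))
    else if x.1 = none then (none, x.2 + 1) else x
  invFun x := if x.1 = some n then (some n, x.2 + 1)
    else if x.1 = none then (if x.2 = 0 then (some n, 0) else (none, x.2 - 1)) else x
  left_inv := by
    rintro ⟨c, k⟩
    by_cases h1 : c = some n
    · subst h1; cases k <;> simp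
    · by_cases h2 : c = none
      · subst h2; simp
      · simp [h1, h2]
  right_inv := by
    rintro ⟨c, k⟩
    by_cases h1 : c = some n
    · subst h1; simp
    · by_cases h2 : c = none
      · subst h2; cases k <;> simp
      · simp [h1, h2]

theorem τ_zero (n : ℕ) : ((τ n).symm (none, 0)).1 = some n := by simp [τ]

theorem τ_ne (n : ℕ) (i : I) (h : i ≠ (none, 0)) : ((τ n).symm i).1 = i.1 := by
  obtain ⟨c, k⟩ := i
  by_cases h1 : c = some n
  · subst h1; simp [τ]
  · by_cases h2 : c = none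
    · subst h2
      have : k ≠ 0 := fun e => h (by rw [e])
      simp [τ, this]
    · simp [τ, h1, h2]

end Pool.Agent.H68.SymExt
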