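import Mathlib
import Pool.Agent.H68.Cay2
import Pool.Agent.H68.Realize

set_option autoImplicit false

namespace Pool.Agent.H68.TreeW

open Pool.Agent.H68.Lcp Pool.Agent.H68.Cay

section td
variable {A : Type} [DecidableEq A]

def td (u v : List A) : ℤ := u.length + v.length - 2 * lcp u v

theorem td_nonneg (u v : List A) : 0 ≤ td u v := by
  have := lcp_le_left u v; have := lcp_le_right u v; unfold td; omega

theorem td_cons (a : A) (u v : List A) : td (a :: u) (a :: v) = td u v := by
  simp [td, lcp_cons]; ring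

theorem td_append (p u v : List A) : td (p ++ u) (p ++ v) = td u v := by
  simp [td, lcp_append]; ring

theorem td_comm (u v : List A) : td u v = td v u := by
  simp [td, lcp_comm u v]; ring

theorem td_tri (u v w : List A) : td u w ≤ td u v + td v w := by
  have := lcp_ultra u v w
  have := lcp_le_right u v
  have := lcp_le_left v w
  unfold td; omega

theorem eq_of_td {u v : List A} (h : td u v = 0) : u = v := by
  have h1 := lcp_le_left u v
  have h2 := lcp_le_right u v
  have h3 := ((le_lcp_iff _ u v).1 le_rfl).2.2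
  unfold td at h
  rw [List.take_of_length_le (by omega), List.take_of_length_le (by omega)] at h3
  exact h3

theorem td_nil (u : List A) : td u [] = u.length := by simp [td]

theorem td_one {u v : List A} (h : td u v = 1) : (∃ a, v = u ++ [a]) ∨ ∃ a, u = v ++ [a] := by
  induction u generalizing v with
  | nil =>
    rw [td_comm, td_nil] at h
    obtain ⟨a, rfl⟩ := List.length_eq_one_iff.1 (show v.length = 1 by omega)
    exact Or.inl ⟨a, rfl⟩
  | cons a u ih =>
    cases v with
    | nil =>
      rw [td_nil] at h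
      obtain ⟨b, hb⟩ := List.length_eq_one_iff.1 (show (a :: u).length = 1 by omega)
      exact Or.inr ⟨b, hb⟩
    | cons b v =>
      by_cases e : a = b
      · subst e
        rw [td_cons] at h
        simpa using ih h
      · simp [td, lcp_cons, e] at h; omega

theorem td_take (w : List A) (i j : ℕ) (hij : i ≤ j) :
    td (w.take i) (w.take j) = (min j w.length : ℕ) - (min i w.length : ℕ) := by
  have : lcp (w.take i) (w.take j) = min i w.length := by
    apply le_antisymm ((lcp_le_left _ _).trans (by simp))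
    rw [le_lcp_iff]
    refine ⟨by simp, by simp; omega, ?_⟩
    rw [List.take_take, List.take_take]; congr 1; omega
  simp only [td, this, List.length_take]; omega

def lf (a : A) : List A → List A
  | [] => [a]
  | b :: w => if b = a then w else a :: b :: w

theorem lf_self (a : A) (w : List A) : lf a (a :: w) = w := by simp [lf]

theorem lf_ne (a : A) (w : List A) (h : w.head? ≠ some a) : lf a w = a :: w := by
  cases w with
  | nil => rfl
  | cons b w => simp only [lf]; rw [if_neg]; simpa using h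

theorem lf_cases (a : A) (w : List A) (hw : w.IsChain (· ≠ ·)) :
    (w.head? ≠ some a ∧ lf a w = a :: w) ∨ ((lf a w).head? ≠ some a ∧ w = a :: lf a w) := by
  by_cases h : w.head? = some a
  · obtain ⟨w, rfl⟩ := List.head?_eq_some_iff.1 h
    right
    rw [lf_self]
    refine ⟨?_, rfl⟩
    cases w with
    | nil => simp
    | cons b w => simpa using (List.isChain_cons_cons.1 hw).1.symm
  · exact Or.inl ⟨h, lf_ne a w h⟩

theorem td_mixed (a : A) (u v : List A) (hu : u.head? ≠ some a) (hv : v.head? ≠ some a) :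
    td (a :: u) v = u.length + v.length + 1 := by
  cases v with
  | nil => simp [td]
  | cons b v =>
    have : a ≠ b := by rintro rfl; simp at hv
    simp [td, lcp_cons, this]; ring

end td

@[ext] structure W (A : Type) where
  l : List A
  ch : l.IsChain (· ≠ ·)

variable {A : Type} [DecidableEq A]

def root (A : Type) : W A := ⟨[], List.isChain_nil⟩

instance : Nonempty (W A) := ⟨root A⟩

instance : MetricSpace (W A) where
  dist u v := td u.l v.l
  dist_self u := by simp [td, lcp_self]; ring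
  dist_comm u v := by rw [td_comm]
  dist_triangle u v w := by exact_mod_cast td_tri _ _ _
  eq_of_dist_eq_zero h := W.ext (eq_of_td (by exact_mod_cast h))

theorem dist_def (u v : W A) : dist u v = td u.l v.l := rfl

theorem dist_root (u : W A) : dist u (root A) = u.l.length := by
  simp [dist_def, root, td_nil]

def lam (a : A) : Equiv.Perm (W A) :=
  Function.Involutive.toPerm (fun w => ⟨lf a w.l, by
    rcases lf_cases a w.l w.ch with ⟨h1, h2⟩ | ⟨h1, h2⟩
    · rw [h2, List.isChain_cons]
      exact ⟨fun y hy e => h1 (by rw [e]; exact hy), w.ch⟩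
    · have := w.ch; rw [h2] at this; exact this.tail⟩) (by
    intro w
    ext1
    rcases lf_cases a w.l w.ch with ⟨h1, h2⟩ | ⟨h1, h2⟩
    · simp only [h2, lf_self]
    · simp only; rw [lf_ne _ _ h1, ← h2])

theorem lam_l (a : A) (w : W A) : (lam a w).l = lf a w.l := rfl

theorem lam_lam (a : A) : lam a * lam a = 1 := by
  ext1 w; exact (lam a).left_inv w

theorem lam_dist (a : A) (u v : W A) : dist (lam a u) (lam a v) = dist u v := by
  simp only [dist_def, lam_l]
  congr 1
  rcases lf_cases a u.l u.ch with ⟨h1, h2⟩ | ⟨h1, h2⟩ <;>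
    rcases lf_cases a v.l v.ch with ⟨h3, h4⟩ | ⟨h3, h4⟩
  · rw [h2, h4, td_cons]
  · rw [h2, td_mixed a _ _ h1 h3]
    conv_rhs => rw [h4, td_comm, td_mixed a _ _ h3 h1]
    ring
  · rw [h4, td_comm, td_mixed a _ _ h3 h1]
    conv_rhs => rw [h2, td_mixed a _ _ h1 h3]
    ring
  · conv_rhs => rw [h2, h4, td_cons]

theorem ev_dist (w : List A) (u v : W A) : dist (ev lam w u) (ev lam w v) = dist u v := by
  induction w with
  | nil => rfl
  | cons a w ih => rw [ev_cons, Equiv.Perm.mul_apply, Equiv.Perm.mul_apply, lam_dist, ih]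

theorem ev_root (w : List A) (hw : w.IsChain (· ≠ ·)) : (ev lam w (root A)).l = w := by
  induction w with
  | nil => rfl
  | cons a w ih =>
    rw [ev_cons, Equiv.Perm.mul_apply, lam_l, ih hw.tail, lf_ne]
    cases w with
    | nil => simp
    | cons b w => simpa using (List.isChain_cons_cons.1 hw).1.symm

theorem to_root (u : W A) : ∃ g : Equiv.Perm (W A), (∀ x y, dist (g x) (g y) = dist x y) ∧
    g u = root A := by
  refine ⟨(ev lam u.l)⁻¹, fun x y => ?_, ?_⟩
  · rw [← ev_dist u.l]; simp
  · rw [Equiv.Perm.inv_eq_iff_eq]; exact W.ext (ev_root _ u.ch).symm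

theorem hyp (x y z w : W A) : min ((dist x w + dist y w - dist x y) / 2)
    ((dist y w + dist z w - dist y z) / 2) ≤ (dist x w + dist z w - dist x z) / 2 := by
  obtain ⟨g, hg, e⟩ := to_root w
  rw [← hg x w, ← hg y w, ← hg z w, ← hg x y, ← hg y z, ← hg x z, e]
  simp only [dist_root]
  simp only [dist_def, td]
  have := lcp_ultra (g x).l (g y).l (g z).l
  rcases min_le_iff.1 this with h | h
  · have : (lcp (g x).l (g y).l : ℝ) ≤ lcp (g x).l (g z).l := by exact_mod_cast h
    refine (min_le_left _ _).trans ?_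
    push_cast; linarith
  · have : (lcp (g y).l (g z).l : ℝ) ≤ lcp (g x).l (g z).l := by exact_mod_cast h
    refine (min_le_right _ _).trans ?_
    push_cast; linarith

theorem ball_fin [Finite A] (o : W A) (R : ℝ) : {u | dist o u ≤ R}.Finite := by
  obtain ⟨n, hn⟩ := exists_nat_ge (R + dist (root A) o)
  refine ((List.finite_length_le A n).preimage (f := W.l) fun _ _ _ _ h => W.ext h).subset ?_
  intro u hu
  have h1 := dist_triangle (root A) o u
  have h2 : dist o u ≤ R := hu
  rw [dist_comm, dist_root] at h1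
  show u.l.length ≤ n
  exact_mod_cast (show (u.l.length : ℝ) ≤ n by linarith)

theorem nb (u v : W A) (h : dist u v ≤ 1) : u = v ∨ dist u v = 1 := by
  have h0 := td_nonneg u.l v.l
  have h1 : td u.l v.l ≤ 1 := by rw [dist_def] at h; exact_mod_cast h
  rcases h1.eq_or_lt with e | e
  · right; rw [dist_def, e]; simp
  · left; exact W.ext (eq_of_td (by omega))

theorem ex_nb (a : A) (u : W A) : ∃ v, dist u v = 1 := by
  obtain ⟨g, hg, e⟩ := to_root u
  refine ⟨g⁻¹ ⟨[a], List.isChain_singleton a⟩, ?_⟩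
  rw [← hg, e, dist_comm, dist_root]; simp

def Good (u u' v v' : W A) : Prop := ∃ (x : ℤ → W A) (n j : ℤ),
      (∀ i, dist (x i) (x (i + 1)) ≤ 1) ∧ (∀ i, 0 ≤ i → i ≤ n → dist (x i) (x 0) = i) ∧
      0 ≤ j ∧ j + 1 ≤ n ∧ ((u = x 0 ∧ u' = x 1) ∨ (u' = x 0 ∧ u = x 1)) ∧
      ((v = x j ∧ v' = x (j + 1)) ∨ (v' = x j ∧ v = x (j + 1)))

theorem Good.of_map {u u' v v' : W A} (g : Equiv.Perm (W A))
    (hg : ∀ x y, dist (g x) (g y) = dist x y) (h : Good (g u) (g u') (g v) (g v')) :
    Good u u' v v' := by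
  obtain ⟨x, n, j, h1, h2, h3, h4, h5, h6⟩ := h
  refine ⟨fun i => g⁻¹ (x i), n, j, fun i => ?_, fun i a b => ?_, h3, h4, ?_, ?_⟩
  · rw [← hg]; simpa using h1 i
  · rw [← hg]; simpa using h2 i a b
  · simpa only [Equiv.Perm.eq_inv_iff_eq] using h5
  · simpa only [Equiv.Perm.eq_inv_iff_eq] using h6

theorem Good.swap1 {u u' v v' : W A} (h : Good u u' v v') : Good u' u v v' := by
  obtain ⟨x, n, j, h1, h2, h3, h4, h5, h6⟩ := h
  exact ⟨x, n, j, h1, h2, h3, h4, h5.symm, h6⟩

theorem Good.swap2 {u u' v v' : W A} (h : Good u u' v v') : Good u u' v' v := by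
  obtain ⟨x, n, j, h1, h2, h3, h4, h5, h6⟩ := h
  exact ⟨x, n, j, h1, h2, h3, h4, h5, h6.symm⟩

theorem good0 (u' v v' : W A) (a b : A) (h1 : u'.l = [a]) (h2 : v'.l = v.l ++ [b])
    (h3 : v'.l.head? = some a) : Good (root A) u' v v' := by
  refine ⟨fun i => ⟨v'.l.take i.toNat, v'.ch.take _⟩, v'.l.length, v.l.length, fun i => ?_,
    fun i a b => ?_, by omega, by simp [h2], Or.inl ⟨W.ext (by simp [root]), W.ext ?_⟩,
    Or.inl ⟨W.ext (by simp [h2]), W.ext ?_⟩⟩
  · have : td (v'.l.take i.toNat) (v'.l.take (i + 1).toNat) ≤ 1 := by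
      rw [td_take _ _ _ (by omega)]; omega
    rw [dist_def]; exact_mod_cast this
  · have : td (v'.l.take (0 : ℤ).toNat) (v'.l.take i.toNat) = i := by
      rw [td_take _ _ _ (by omega)]; omega
    rw [dist_comm, dist_def]; exact_mod_cast this
  · obtain ⟨w, hw⟩ := List.head?_eq_some_iff.1 h3
    simp [h1, hw]
  · simp only; rw [List.take_of_length_le (by simp [h2])]

theorem good1 (u' v v' : W A) (a b : A) (h1 : u'.l = [a]) (h2 : v'.l = v.l ++ [b]) :
    Good (root A) u' v v' := by
  by_cases h3 : v'.l.head? = some a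
  · exact good0 u' v v' a b h1 h2 h3
  · apply Good.of_map (lam a) (lam_dist a)
    have e : lam a u' = root A := W.ext (by rw [lam_l, h1, lf_self]; rfl)
    rw [e]
    have h4 : v.l.head? ≠ some a := by
      intro h; apply h3; rw [h2, List.head?_append, h]; rfl
    refine (good0 _ _ _ a b rfl ?_ ?_).swap1
    · rw [lam_l, lam_l, lf_ne _ _ h3, lf_ne _ _ h4, h2]; rfl
    · rw [lam_l, lf_ne _ _ h3]; rfl

theorem good (u u' v v' : W A) (h1 : dist u u' = 1) (h2 : dist v v' = 1) : Good u u' v v' := by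
  obtain ⟨g, hg, e⟩ := to_root u
  apply Good.of_map g hg
  rw [← hg, e, dist_comm, dist_root] at h1
  rw [← hg, dist_def] at h2
  obtain ⟨a, ha⟩ := List.length_eq_one_iff.1 (show (g u').l.length = 1 by exact_mod_cast h1)
  rw [e]
  rcases td_one (show td (g v).l (g v').l = 1 by exact_mod_cast h2) with ⟨b, hb⟩ | ⟨b, hb⟩
  · exact good1 _ _ _ a b ha hb
  · exact (good1 _ _ _ a b ha hb).swap2

/-! the group -/

def mu : Fin 4 → Equiv.Perm (W (Fin 3))
  | 0 => lam 1
  | 1 => lam 2
  | 2 => lam 0 * lam 1 * lam 0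
  | 3 => lam 0 * lam 2 * lam 0

def pref : Fin 4 → List (Fin 3)
  | 0 => [1]
  | 1 => [2]
  | 2 => [0, 1]
  | 3 => [0, 2]

def r (i : Fin 4) : Equiv.Perm (W (Fin 4)) × Equiv.Perm (W (Fin 3)) := (lam i, mu i)

theorem mu_mu (i : Fin 4) : mu i * mu i = 1 := by
  have k : ∀ a : Fin 3, lam 0 * lam a * lam 0 * (lam 0 * lam a * lam 0) = 1 := by
    intro a
    calc _ = lam 0 * (lam a * (lam 0 * lam 0) * lam a) * lam 0 := by group
      _ = 1 := by rw [lam_lam, mul_one, lam_lam, mul_one, lam_lam]
  fin_cases i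
  exacts [lam_lam _, lam_lam _, k 1, k 2]

theorem rr (i : Fin 4) : r i * r i = 1 := Prod.ext (lam_lam i) (mu_mu i)

def GG : Subgroup (Equiv.Perm (W (Fin 4)) × Equiv.Perm (W (Fin 3))) :=
  Hs rr (mul_one 1) (fun _ => Commute.one_right _)

theorem ev_r (w : List (Fin 4)) : ev r w = (ev lam w, ev mu w) := by
  induction w with
  | nil => rfl
  | cons a w ih => rw [ev_cons, ev_cons, ev_cons, ih]; rfl

theorem mem_GG (g : GG) : ∃ w : List (Fin 4), w.IsChain (· ≠ ·) ∧ g.1 = (ev lam w, ev mu w) := by
  obtain ⟨w, hw, e, he, h⟩ := g.2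
  exact ⟨w, hw, by rw [h, ← ev_r]; rcases he with rfl | rfl <;> simp⟩

def gen (w : List (Fin 4)) (hw : w.IsChain (· ≠ ·)) : GG :=
  ⟨ev r w, w, hw, 1, Or.inl rfl, by simp⟩

theorem gen_val (w : List (Fin 4)) (hw : w.IsChain (· ≠ ·)) :
    (gen w hw).1 = (ev lam w, ev mu w) := ev_r w

instance : MulAction GG (W (Fin 4)) :=
  MulAction.compHom _ ((MonoidHom.fst _ _).comp GG.subtype)
instance : MulAction GG (W (Fin 3)) :=
  MulAction.compHom _ ((MonoidHom.snd _ _).comp GG.subtype)

theorem smul4 (g : GG) (u : W (Fin 4)) : g • u = g.1.1 u := rfl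
theorem smul3 (g : GG) (u : W (Fin 3)) : g • u = g.1.2 u := rfl

theorem mu_dist (w : List (Fin 4)) (u v : W (Fin 3)) :
    dist (ev mu w u) (ev mu w v) = dist u v := by
  induction w with
  | nil => rfl
  | cons a w ih =>
    rw [ev_cons, Equiv.Perm.mul_apply, Equiv.Perm.mul_apply, ← ih]
    fin_cases a <;> simp [mu, lam_dist]

instance : IsIsometricSMul GG (W (Fin 4)) := ⟨fun g => Isometry.of_dist_eq fun u v => by
  obtain ⟨w, -, e⟩ := mem_GG g
  simp only [smul4, e, ev_dist]⟩

instance : IsIsometricSMul GG (W (Fin 3)) := ⟨fun g => Isometry.of_dist_eq fun u v => by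
  obtain ⟨w, -, e⟩ := mem_GG g
  simp only [smul3, e, mu_dist]⟩

theorem mu_pref (a : Fin 4) (w : List (Fin 4)) (hw : (a :: w).IsChain (· ≠ ·)) :
    ∃ s, (ev mu (a :: w) (root _)).l = pref a ++ s := by
  induction w generalizing a with
  | nil => fin_cases a <;> simp [ev, mu, lam_l, root, lf, pref]
  | cons b w ih =>
    obtain ⟨s, hs⟩ := ih b hw.tail
    have hab : a ≠ b := (List.isChain_cons_cons.1 hw).1
    rw [ev_cons, Equiv.Perm.mul_apply]
    generalize ev mu (b :: w) (root _) = v at hs
    fin_cases a <;> fin_cases b <;> simp [mu, lam_l, lf, pref, hs] at hab ⊢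

theorem free_fin {B : Type} [DecidableEq B] [Finite B] [MulAction GG (W B)]
    (h : ∀ g : GG, g • root B = root B → g = 1) (R : ℝ) :
    {g : GG | dist (g • root B) (root B) ≤ R}.Finite := by
  refine ((ball_fin (root B) R).preimage (f := fun g : GG => g • root B) ?_).subset ?_
  · intro g _ g' _ e
    have := h (g'⁻¹ * g) (by rw [mul_smul, inv_smul_eq_iff]; exact e)
    exact (inv_mul_eq_one.1 this).symm
  · intro g hg
    simpa [dist_comm] using hg

theorem free4 (g : GG) (h : g • root (Fin 4) = root _) : g = 1 := by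
  obtain ⟨w, hw, e⟩ := mem_GG g
  have := congrArg W.l h
  rw [smul4, e, ev_root w hw] at this
  obtain rfl : w = [] := this
  exact Subtype.ext e

theorem free3 (g : GG) (h : g • root (Fin 3) = root _) : g = 1 := by
  obtain ⟨w, hw, e⟩ := mem_GG g
  cases w with
  | nil => exact Subtype.ext e
  | cons a w =>
    obtain ⟨s, hs⟩ := mu_pref a w hw
    have := congrArg W.l h
    rw [smul3, e, hs] at this
    fin_cases a <;> simp [pref, root] at this

theorem cc4 (u : W (Fin 4)) : ∃ g : GG, dist (g • u) (root _) ≤ 1 := by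
  refine ⟨(gen u.l u.ch)⁻¹, ?_⟩
  have : (gen u.l u.ch) • root (Fin 4) = u := W.ext (by
    rw [smul4, gen_val]; exact ev_root _ u.ch)
  rw [inv_smul_eq_iff.2 this.symm, dist_self]; exact zero_le_one

theorem cc3 (u : W (Fin 3)) : ∃ g : GG, dist (g • u) (root _) ≤ 1 := by
  induction h : u.l.length using Nat.strong_induction_on generalizing u with
  | _ n ih =>
  by_cases h1 : n ≤ 1
  · exact ⟨1, by rw [one_smul, dist_root, h]; exact_mod_cast h1⟩
  have : ∃ i, (mu i u).l.length < n := by
    obtain ⟨_ | ⟨a, _ | ⟨b, w⟩⟩, hu⟩ := u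
    · simp at h; omega
    · simp at h; omega
    have hab : a ≠ b := (List.isChain_cons_cons.1 hu).1
    have hl : ∀ (c : Fin 3) (w : List (Fin 3)), (lf c w).length ≤ w.length + 1 := by
      intro c w
      cases w with
      | nil => simp [lf]
      | cons b w => simp only [lf]; split_ifs <;> simp only [List.length_cons] <;> omega
    subst h
    fin_cases a
    · fin_cases b
      · simp at hab
      · exact ⟨2, by simpa [mu, lam_l, lf_self, Nat.lt_succ_iff] using hl 0 w⟩
      · exact ⟨3, by simpa [mu, lam_l, lf_self, Nat.lt_succ_iff] using hl 0 w⟩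
    · exact ⟨0, by simp [mu, lam_l, lf_self]⟩
    · exact ⟨1, by simp [mu, lam_l, lf_self]⟩
  obtain ⟨i, hi⟩ := this
  obtain ⟨g, hg⟩ := ih _ hi _ rfl
  refine ⟨g * gen [i] (List.isChain_singleton i), ?_⟩
  rw [mul_smul]
  convert hg using 3
  rw [smul3, gen_val]; simp [ev]

end Pool.Agent.H68.TreeW
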