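import Mathlib
import Pool.Agent.H68.TreeW

set_option autoImplicit false

namespace Pool.Agent.H68.TreeW

open Pool.Agent.H68.Lcp

section code
variable {A B : Type} [DecidableEq A] [DecidableEq B] (c : A → List B) (p q : ℕ)

omit [DecidableEq A] [DecidableEq B] in
theorem code_len (hl : ∀ x, p ≤ (c x).length ∧ (c x).length ≤ q) (u : List A) :
    p * u.length ≤ (u.flatMap c).length ∧ (u.flatMap c).length ≤ q * u.length := by
  induction u with
  | nil => simp
  | cons a u ih =>
    have := hl a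
    simp only [List.flatMap_cons, List.length_append, List.length_cons, mul_add, mul_one]
    omega

theorem code_td (hl : ∀ x, p ≤ (c x).length ∧ (c x).length ≤ q)
    (hpf : ∀ x y, x ≠ y → ∀ s t, lcp (c x ++ s) (c y ++ t) ≤ q) (u v : List A) :
    p * td u v - 2 * q ≤ td (u.flatMap c) (v.flatMap c) ∧
      td (u.flatMap c) (v.flatMap c) ≤ q * td u v := by
  have key : ∀ u v : List A, lcp u v = 0 → lcp (u.flatMap c) (v.flatMap c) ≤ q →
      p * td u v - 2 * q ≤ td (u.flatMap c) (v.flatMap c) ∧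
      td (u.flatMap c) (v.flatMap c) ≤ q * td u v := by
    intro u v h1 h2
    have a1 := code_len c p q hl u
    have a2 := code_len c p q hl v
    simp only [td, h1]
    zify at a1 a2 h2
    constructor <;> push_cast <;> nlinarith [a1.1, a1.2, a2.1, a2.2]
  induction u generalizing v with
  | nil => exact key _ _ (by simp) (by simp)
  | cons a u ih =>
    cases v with
    | nil => exact key _ _ (by simp) (by simp)
    | cons b v =>
      by_cases e : a = b
      · subst e
        rw [List.flatMap_cons, List.flatMap_cons, td_append, td_cons]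
        exact ih v
      · exact key _ _ (by simp [lcp_cons, e]) (hpf a b e _ _)

omit [DecidableEq A] [DecidableEq B] in
theorem code_onto (hp : ∀ x, 1 ≤ (c x).length)
    (hc : ∀ z : List B, q ≤ z.length → ∃ x s, z = c x ++ s) (z : List B) :
    ∃ u : List A, ∃ s, z = u.flatMap c ++ s ∧ s.length ≤ q := by
  induction h : z.length using Nat.strong_induction_on generalizing z with
  | _ n ih =>
  by_cases hz : q ≤ z.length
  · obtain ⟨x, s, rfl⟩ := hc z hz
    have := hp x
    obtain ⟨u, s', rfl, h'⟩ := ih s.length (by rw [← h]; simp; omega) s rfl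
    exact ⟨x :: u, s', by simp, h'⟩
  · exact ⟨[], z, rfl, by omega⟩

end code

def dec {k : ℕ} : Fin (k + 1) → List (Fin k) → List (Fin (k + 1))
  | _, [] => []
  | l, j :: w => l.succAbove j :: dec (l.succAbove j) w

theorem dec_len {k : ℕ} (l : Fin (k + 1)) (w : List (Fin k)) : (dec l w).length = w.length := by
  induction w generalizing l with
  | nil => rfl
  | cons j w ih => simp [dec, ih]

theorem dec_lcp {k : ℕ} (l : Fin (k + 1)) (u v : List (Fin k)) :
    lcp (dec l u) (dec l v) = lcp u v := by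
  induction u generalizing l v with
  | nil => simp [dec]
  | cons a u ih =>
    cases v with
    | nil => simp [dec]
    | cons b v =>
      by_cases e : a = b
      · subst e; simp [dec, lcp_cons, ih]
      · simp [dec, lcp_cons, e]

theorem dec_td {k : ℕ} (l : Fin (k + 1)) (u v : List (Fin k)) :
    td (dec l u) (dec l v) = td u v := by simp only [td, dec_len, dec_lcp]

theorem dec_chain {k : ℕ} (l : Fin (k + 1)) (w : List (Fin k)) :
    (l :: dec l w).IsChain (· ≠ ·) := by
  induction w generalizing l with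
  | nil => exact List.isChain_singleton l
  | cons j w ih => exact List.isChain_cons_cons.2 ⟨(Fin.succAbove_ne l j).symm, ih _⟩

theorem dec_onto {k : ℕ} (l : Fin (k + 1)) (z : List (Fin (k + 1)))
    (h : (l :: z).IsChain (· ≠ ·)) : ∃ w, dec l w = z := by
  induction z generalizing l with
  | nil => exact ⟨[], rfl⟩
  | cons a z ih =>
    obtain ⟨j, rfl⟩ := Fin.exists_succAbove_eq (List.isChain_cons_cons.1 h).1.symm
    obtain ⟨w, rfl⟩ := ih _ h.tail
    exact ⟨j :: w, rfl⟩

def DD {A : Type} [DecidableEq A] (y z : Fin 4 × List A) : ℤ :=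
  if y.1 = z.1 then td y.2 z.2 else y.2.length + z.2.length

theorem DD_nonneg {A : Type} [DecidableEq A] (y z : Fin 4 × List A) : 0 ≤ DD y z := by
  unfold DD; split_ifs
  · exact td_nonneg _ _
  · omega

theorem embed {A : Type} [DecidableEq A] {k : ℕ} (c : A → List (Fin k)) (p q : ℕ) (hp : 1 ≤ p)
    (hl : ∀ x, p ≤ (c x).length ∧ (c x).length ≤ q)
    (hpf : ∀ x y, x ≠ y → ∀ s t, lcp (c x ++ s) (c y ++ t) ≤ q)
    (hc : ∀ z : List (Fin k), q ≤ z.length → ∃ x s, z = c x ++ s)
    (ini : Fin 4 → List (Fin (k + 1))) (la : Fin 4 → Fin (k + 1))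
    (h1 : ∀ i, (ini i ++ [la i]).IsChain (· ≠ ·)) (h2 : ∀ i, (ini i).length ≤ 1)
    (h3 : ∀ i j, i ≠ j → ∀ s t, lcp (ini i ++ la i :: s) (ini j ++ la j :: t) ≤ 1)
    (h4 : ∀ z : List (Fin (k + 1)), z.IsChain (· ≠ ·) → 2 ≤ z.length →
      ∃ i s, z = ini i ++ la i :: s) :
    ∃ E : Fin 4 × List A → W (Fin (k + 1)),
      (∀ y z, p * (DD y z : ℝ) - 2 * q ≤ dist (E y) (E z) ∧
        dist (E y) (E z) ≤ q * (DD y z : ℝ) + 4) ∧ ∀ z, ∃ y, dist (E y) z ≤ q + 4 := by
  refine ⟨fun y => ⟨ini y.1 ++ la y.1 :: dec (la y.1) (y.2.flatMap c),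
    (List.isChain_split).2 ⟨h1 _, dec_chain _ _⟩⟩, ?_, ?_⟩
  · rintro ⟨i, u⟩ ⟨j, v⟩
    simp only [dist_def, DD]
    by_cases e : i = j
    · subst e
      rw [td_append, td_cons, dec_td, if_pos rfl]
      have := code_td c p q hl hpf u v
      constructor
      · exact_mod_cast this.1
      · exact_mod_cast this.2.trans (by omega)
    · rw [if_neg e]
      have a1 := code_len c p q hl u
      have a2 := code_len c p q hl v
      have a3 := h3 i j e (dec (la i) (u.flatMap c)) (dec (la j) (v.flatMap c))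
      have a4 := h2 i
      have a5 := h2 j
      simp only [td, List.length_append, List.length_cons, dec_len]
      generalize lcp (ini i ++ la i :: dec (la i) (u.flatMap c)) _ = m at a3 ⊢
      generalize (ini i).length = m1 at a4 ⊢
      generalize (ini j).length = m2 at a5 ⊢
      obtain ⟨a1, a1'⟩ := a1
      obtain ⟨a2, a2'⟩ := a2
      rify at a1 a2 a1' a2' a3 a4 a5
      have : (0 : ℝ) ≤ m := by positivity
      have : (0 : ℝ) ≤ m1 := by positivity
      have : (0 : ℝ) ≤ m2 := by positivity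
      have : (0 : ℝ) ≤ q := by positivity
      push_cast
      constructor <;> nlinarith
  · intro z
    by_cases hz : 2 ≤ z.l.length
    · obtain ⟨i, s, e⟩ := h4 z.l z.ch hz
      have hch := z.ch
      rw [e] at hch
      obtain ⟨w, rfl⟩ := dec_onto _ _ (List.isChain_split.1 hch).2
      obtain ⟨u, s', rfl, h'⟩ := code_onto c q (fun x => hp.trans (hl x).1) hc w
      refine ⟨(i, u), ?_⟩
      rw [dist_def, e, td_append, td_cons, dec_td]
      have := td_append (u.flatMap c) [] s'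
      rw [List.append_nil, td_comm [], td_nil] at this
      rw [this]
      exact_mod_cast (by omega)
    · refine ⟨(0, []), (dist_triangle_right _ _ (root _)).trans ?_⟩
      rw [dist_root, dist_root]
      have := h2 0
      simp only [List.flatMap_nil, dec, List.length_append, List.length_cons, List.length_nil]
      exact_mod_cast (by omega)

theorem exists_split {B : Type} (n : ℕ) (z : List B) (h : n ≤ z.length) :
    ∃ (f : Fin n → B) (s : List B), z = List.ofFn f ++ s := by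
  refine ⟨fun i => z[i.1], z.drop n, ?_⟩
  conv_lhs => rw [← List.take_append_drop n z]
  congr 1
  apply List.ext_getElem <;> simp [h]

theorem ofFn_lcp {B : Type} [DecidableEq B] {n : ℕ} (f g : Fin n → B) (s t : List B)
    (h : n ≤ lcp (List.ofFn f ++ s) (List.ofFn g ++ t)) : f = g := by
  have := ((le_lcp_iff _ _ _).1 h).2.2
  rw [List.take_left' (by simp), List.take_left' (by simp)] at this
  exact List.ofFn_injective this

theorem embed4 (b : ℕ) (hb : 1 ≤ b) : ∃ E : Fin 4 × List (Fin b → Fin 3) → W (Fin 4),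
      (∀ y z, b * (DD y z : ℝ) - 2 * b ≤ dist (E y) (E z) ∧
        dist (E y) (E z) ≤ b * (DD y z : ℝ) + 4) ∧ ∀ z, ∃ y, dist (E y) z ≤ b + 4 := by
  refine embed List.ofFn b b hb (by simp) ?_ (exists_split b) (fun _ => []) id (by simp) (by simp)
    ?_ ?_
  · intro x y h s t
    by_contra hc
    exact h (ofFn_lcp x y s t (by omega))
  · intro i j h s t; simp [lcp_cons, h]
  · rintro (_ | ⟨a, z⟩) _ h
    · simp at h
    · exact ⟨a, z, rfl⟩

theorem exists_code (a N : ℕ) (h1 : 2 ^ a ≤ N) (h2 : N ≤ 2 ^ (a + 1)) (A : Type) [Fintype A]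
    (hA : Fintype.card A = N) : ∃ c : A → List (Fin 2),
    (∀ x, a ≤ (c x).length ∧ (c x).length ≤ a + 1) ∧
    (∀ x y, x ≠ y → ∀ s t, lcp (c x ++ s) (c y ++ t) ≤ a + 1) ∧
    (∀ z : List (Fin 2), a + 1 ≤ z.length → ∃ x s, z = c x ++ s) := by
  obtain ⟨T, -, hT⟩ := Finset.exists_subset_card_eq (s := (Finset.univ : Finset (Fin a → Fin 2)))
    (n := N - 2 ^ a) (by simp; omega)
  have hcard : Fintype.card A = Fintype.card ({p // p ∉ T} ⊕ (T × Fin 2)) := by
    simp [hA, hT]; omega
  let e := Fintype.equivOfCardEq hcard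
  let c : {p // p ∉ T} ⊕ (T × Fin 2) → List (Fin 2) := fun x =>
    x.elim (fun p => List.ofFn p.1) fun p => List.ofFn p.1.1 ++ [p.2]
  refine ⟨fun x => c (e x), fun x => ?_, fun x y h s t => ?_, fun z hz => ?_⟩
  · beta_reduce
    generalize e x = x'
    rcases x' with p | p <;> simp [c]
  · by_contra hc
    have h' : e x ≠ e y := e.injective.ne h
    apply h'
    beta_reduce at hc
    generalize e x = x' at hc ⊢
    generalize e y = y' at hc ⊢
    rcases x' with ⟨p, hp⟩ | ⟨⟨p, hp⟩, i⟩ <;> rcases y' with ⟨p', hp'⟩ | ⟨⟨p', hp'⟩, j⟩ <;>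
      simp only [c, Sum.elim_inl, Sum.elim_inr, List.append_assoc] at hc <;>
      obtain rfl := ofFn_lcp p p' _ _ (Nat.le_of_succ_le (not_le.1 hc).le)
    · rfl
    · exact absurd hp' hp
    · exact absurd hp hp'
    · rw [lcp_append] at hc
      by_cases hij : i = j
      · rw [hij]
      · simp [lcp_cons, hij] at hc
  · obtain ⟨f, s, rfl⟩ := exists_split a z (by omega)
    by_cases hf : f ∈ T
    · cases s with
      | nil => simp at hz
      | cons j s => exact ⟨e.symm (Sum.inr (⟨f, hf⟩, j)), s, by simp [c]⟩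
    · exact ⟨e.symm (Sum.inl ⟨f, hf⟩), s, by simp [c]⟩

theorem embed3 (a b : ℕ) (ha : 1 ≤ a) (h1 : 2 ^ a ≤ 3 ^ b) (h2 : 3 ^ b ≤ 2 ^ (a + 1)) :
    ∃ E : Fin 4 × List (Fin b → Fin 3) → W (Fin 3),
      (∀ y z, a * (DD y z : ℝ) - 2 * (a + 1 : ℕ) ≤ dist (E y) (E z) ∧
        dist (E y) (E z) ≤ (a + 1 : ℕ) * (DD y z : ℝ) + 4) ∧
        ∀ z, ∃ y, dist (E y) z ≤ (a + 1 : ℕ) + 4 := by
  obtain ⟨c, c1, c2, c3⟩ := exists_code a _ h1 h2 (Fin b → Fin 3) (by simp)
  refine embed c a (a + 1) ha c1 c2 c3 ![[], [], [0], [0]] ![1, 2, 1, 2] (by decide) (by decide)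
    ?_ ?_
  · intro i j h s t
    fin_cases i <;> fin_cases j <;> simp [lcp_cons] at h ⊢
  · rintro (_ | ⟨x, _ | ⟨y, z⟩⟩) hz h
    · simp at h
    · simp at h
    have hxy := (List.isChain_cons_cons.1 hz).1
    fin_cases x
    · fin_cases y
      · simp at hxy
      · exact ⟨2, z, rfl⟩
      · exact ⟨3, z, rfl⟩
    · exact ⟨0, _, rfl⟩
    · exact ⟨1, _, rfl⟩

theorem qi_of {X₀ X₁ Y : Type} [MetricSpace X₀] [MetricSpace X₁] (D : Y → Y → ℝ)
    (e₀ : Y → X₀) (e₁ : Y → X₁) (L c : ℝ) (hL : 1 ≤ L) (hc : 0 ≤ c)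
    (h0 : ∀ y z, |dist (e₀ y) (e₀ z) - D y z| ≤ c)
    (h1 : ∀ y z, D y z / L - c ≤ dist (e₁ y) (e₁ z) ∧ dist (e₁ y) (e₁ z) ≤ L * D y z + c)
    (o0 : ∀ x, ∃ y, dist (e₀ y) x ≤ c) (o1 : ∀ x, ∃ y, dist (e₁ y) x ≤ c) :
    ∃ f : X₀ → X₁, ∃ c : ℝ, (∀ x y : X₀, dist x y / L - c ≤ dist (f x) (f y) ∧
      dist (f x) (f y) ≤ L * dist x y + c) ∧ ∀ z : X₁, ∃ x : X₀, dist (f x) z ≤ c := by
  choose n hn using o0
  have hL0 : 0 < L := by linarith
  have key : ∀ x y, |dist (e₀ (n x)) (e₀ (n y)) - dist x y| ≤ 2 * c := fun x y =>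
    (dist_dist_dist_le _ _ _ _).trans (by linarith [hn x, hn y])
  have hLc : c ≤ L * c := by nlinarith
  refine ⟨fun x => e₁ (n x), 5 * L * c, fun x y => ?_, fun z => ?_⟩
  · have a1 := abs_le.1 (key x y)
    have a2 := abs_le.1 (h0 (n x) (n y))
    obtain ⟨a3, a4⟩ := h1 (n x) (n y)
    constructor
    · have : dist x y / L ≤ D (n x) (n y) / L + 3 * c := by
        rw [div_add' _ _ _ hL0.ne']
        exact div_le_div_of_nonneg_right (by nlinarith [a1.1, a2.2]) hL0.le
      nlinarith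
    · nlinarith [a1.2, a2.1]
  · obtain ⟨y, hy⟩ := o1 z
    refine ⟨e₀ y, (dist_triangle _ (e₁ y) _).trans ?_⟩
    have a2 := abs_le.1 (h0 (n (e₀ y)) y)
    have a3 := (h1 (n (e₀ y)) y).2
    have a4 := hn (e₀ y)
    nlinarith [a2.1]

end Pool.Agent.H68.TreeW
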