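import Mathlib
import Pool.Agent.H68.TreeQI

set_option autoImplicit false

namespace Pool.Agent.H68.TreeW

open Pool.Agent.H68.Lcp

theorem arith (a m : ℕ → ℕ) (B : ℕ) (hm : ∀ n, m n ≤ m (n + 1)) (h1 : ∀ n, 2 ^ n ≤ 3 ^ m n)
    (h2 : ∀ n, 3 ^ m n ≤ 3 * 2 ^ n) (a1 : ∀ n, 1 ≤ a n) (aB : ∀ n, a n ≤ B)
    (h : ∀ n, 1 ≤ n → 3 ^ (m (n + 1) - m n) * a n ≤ 2 * a (n + 1)) : False := by
  let r : ℕ → ℚ := fun n => a n * 2 ^ n / 3 ^ m n
  have step : ∀ n (e : ℕ), 3 ^ (m (n + 1) - m n) * a n + e ≤ 2 * a (n + 1) →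
      r n + e / 6 ≤ r (n + 1) := by
    intro n e he
    obtain ⟨d, hd⟩ := Nat.exists_eq_add_of_le (hm n)
    have h3 := h2 (n + 1)
    rw [hd, Nat.add_sub_cancel_left] at he
    simp only [r]
    rw [hd] at h3 ⊢
    have he' : (3 : ℚ) ^ d * a n + e ≤ 2 * a (n + 1) := by exact_mod_cast he
    have h3' : (3 : ℚ) ^ (m n + d) ≤ 3 * 2 ^ (n + 1) := by exact_mod_cast h3
    rw [le_div_iff₀ (by positivity)]
    have e1 : ((a n : ℚ) * 2 ^ n / 3 ^ m n + e / 6) * 3 ^ (m n + d) =
        3 ^ d * a n * 2 ^ n + e / 6 * 3 ^ (m n + d) := by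
      rw [pow_add]; field_simp
    rw [e1, pow_succ] at *
    have : (0 : ℚ) ≤ e := by positivity
    have : (0 : ℚ) < 2 ^ n := by positivity
    nlinarith
  have mono : ∀ n, 1 ≤ n → ∀ k, r n ≤ r (n + k) := by
    intro n hn k
    induction k with
    | zero => exact le_rfl
    | succ k ih =>
      have := step (n + k) 0 (h _ (by omega))
      rw [← add_assoc]; push_cast at this; linarith
  have win : ∀ n, 1 ≤ n → ∀ k, r n + 1 / 6 ≤ r (n + k) ∨ ∃ j, 2 ^ k * a (n + k) = 3 ^ j * a n := by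
    intro n hn k
    induction k with
    | zero => exact Or.inr ⟨0, by simp⟩
    | succ k ih =>
      rcases ih with ih | ⟨j, hj⟩
      · exact Or.inl (ih.trans (mono (n + k) (by omega) 1))
      · rcases (h (n + k) (by omega)).eq_or_lt with e | e
        · refine Or.inr ⟨m (n + k + 1) - m (n + k) + j, ?_⟩
          rw [pow_succ, mul_assoc, ← add_assoc, ← e, pow_add, mul_assoc, ← hj]; ring
        · have := step (n + k) 1 e
          have := mono n hn k
          left; rw [← add_assoc]; push_cast at *; linarith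
  have win' : ∀ n, 1 ≤ n → r n + 1 / 6 ≤ r (n + B) := by
    intro n hn
    refine (win n hn B).resolve_right ?_
    rintro ⟨j, hj⟩
    have h3 : 2 ^ B ∣ a n :=
      (Nat.Coprime.pow B j (by norm_num)).dvd_of_dvd_mul_left ⟨_, hj.symm⟩
    have := Nat.le_of_dvd (a1 n) h3
    have := aB n
    have := Nat.lt_two_pow_self (n := B)
    omega
  have big : ∀ j : ℕ, (j : ℚ) / 6 ≤ r (1 + j * B) := by
    intro j
    induction j with
    | zero => simp only [r, Nat.cast_zero, zero_div]; positivity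
    | succ j ih =>
      have := win' (1 + j * B) (by omega)
      rw [show 1 + (j + 1) * B = 1 + j * B + B by ring]
      push_cast; linarith
  have small : ∀ n, r n ≤ B := by
    intro n
    simp only [r]
    rw [div_le_iff₀ (by positivity)]
    exact_mod_cast Nat.mul_le_mul (aB n) (h1 n)
  have := (big (6 * B + 1)).trans (small _)
  push_cast at this; linarith

theorem chain_last {k : ℕ} (v : List (Fin (k + 1))) (c : Fin (k + 1)) (s : List (Fin (k + 1)))
    (h : (v ++ c :: s).IsChain (· ≠ ·)) (hv : v ≠ []) :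
    ∃ j, (v.getLastD 0).succAbove j = c := by
  obtain ⟨v, l, rfl⟩ := List.eq_nil_or_concat v |>.resolve_left hv
  rw [List.isChain_append] at h
  apply Fin.exists_succAbove_eq
  have := h.2.2 l (by simp) c (by simp)
  simpa using this.symm

def ext1 (u : W (Fin 4)) (j : Fin 3) : W (Fin 4) :=
  ⟨u.l ++ [(u.l.getLastD 0).succAbove j], by
    rw [List.isChain_append]
    refine ⟨u.ch, List.isChain_singleton _, fun x hx y hy => ?_⟩
    obtain rfl : (u.l.getLastD 0).succAbove j = y := by simpa using hy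
    rw [List.getLastD_eq_getLast?, Option.mem_def.1 hx]
    exact (Fin.succAbove_ne _ _).symm⟩

theorem comb (F : W (Fin 4) → W (Fin 3)) (K : ℕ) (m : ℕ → ℕ) (hm : ∀ n, m n ≤ m (n + 1))
    (h1 : ∀ n, 2 ^ n ≤ 3 ^ m n) (h2 : ∀ n, 3 ^ m n ≤ 3 * 2 ^ n)
    (hA : ∀ n u v, m n + K ≤ lcp u.l v.l → n ≤ lcp (F u).l (F v).l)
    (hB : ∀ n u v, n ≤ lcp (F u).l (F v).l → m n ≤ lcp u.l v.l + K + 1) : False := by
  let S : List (Fin 3) → ℕ → ℕ → Set (W (Fin 4)) := fun v n M =>
    {u | u.l.length = M ∧ (F u).l.take n = v}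
  have fin : ∀ v n M, (S v n M).Finite := fun v n M =>
    ((List.finite_length_eq (Fin 4) M).preimage (f := W.l) fun _ _ _ _ h => W.ext h).subset
      fun u hu => hu.1
  have hlen : ∀ n u, m n + K ≤ u.l.length → n ≤ (F u).l.length := by
    intro n u h
    have := hA n u u (by rwa [lcp_self])
    rwa [lcp_self] at this
  have grow : ∀ v n M, m n + K ≤ M → 3 * (S v n M).ncard ≤ (S v n (M + 1)).ncard := by
    intro v n M hM
    have : 3 * (S v n M).ncard = (S v n M ×ˢ (Set.univ : Set (Fin 3))).ncard := by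
      rw [Set.ncard_prod, Set.ncard_univ]; simp [mul_comm]
    rw [this]
    refine Set.ncard_le_ncard_of_injOn (fun p => ext1 p.1 p.2) ?_ ?_ (fin _ _ _)
    · rintro ⟨u, j⟩ ⟨⟨a, b⟩, -⟩
      dsimp only at a b
      refine ⟨by simp [ext1, a], ?_⟩
      have := hA n u (ext1 u j) (by
        rw [le_lcp_iff]
        refine ⟨by omega, by simp [ext1]; omega, ?_⟩
        rw [ext1, List.take_append_of_le_length (by omega)])
      rw [← ((le_lcp_iff _ _ _).1 this).2.2]; exact b
    · rintro ⟨u, j⟩ - ⟨u', j'⟩ - e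
      have := congrArg W.l e
      simp only [ext1] at this
      obtain ⟨e1, e2⟩ := List.append_inj' this rfl
      obtain rfl := W.ext e1
      simpa using e2
  have grow' : ∀ v n d, 3 ^ d * (S v n (m n + K)).ncard ≤ (S v n (m n + K + d)).ncard := by
    intro v n d
    induction d with
    | zero => simp
    | succ d ih =>
      have := grow v n (m n + K + d) (by omega)
      rw [pow_succ, ← add_assoc]; nlinarith
  have split : ∀ v n, 1 ≤ n → ∃ v', (S v n (m (n + 1) + K)).ncard ≤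
      2 * (S v' (n + 1) (m (n + 1) + K)).ncard := by
    intro v n hn
    have hsub : S v n (m (n + 1) + K) ⊆
        S (v ++ [(v.getLastD 0).succAbove 0]) (n + 1) (m (n + 1) + K) ∪
        S (v ++ [(v.getLastD 0).succAbove 1]) (n + 1) (m (n + 1) + K) := by
      rintro u ⟨a, b⟩
      have h3 := hlen (n + 1) u a.ge
      have h4 : (F u).l.take (n + 1) = v ++ [(F u).l[n]] := by
        rw [← b, List.take_succ_eq_append_getElem]
      have h5 := (F u).ch.take (n + 1)
      rw [h4] at h5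
      obtain ⟨j, hj⟩ := chain_last v _ [] h5 (by
        rintro rfl
        have := congrArg List.length b
        simp only [List.length_take, List.length_nil] at this; omega)
      rw [← hj] at h4
      fin_cases j
      · exact Or.inl ⟨a, h4⟩
      · exact Or.inr ⟨a, h4⟩
    have := (Set.ncard_le_ncard hsub ((fin _ _ _).union (fin _ _ _))).trans (Set.ncard_union_le _ _)
    rcases le_total (S (v ++ [(v.getLastD 0).succAbove 0]) (n + 1) (m (n + 1) + K)).ncard
      (S (v ++ [(v.getLastD 0).succAbove 1]) (n + 1) (m (n + 1) + K)).ncard with h | h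
    · exact ⟨v ++ [(v.getLastD 0).succAbove 1], by omega⟩
    · exact ⟨v ++ [(v.getLastD 0).succAbove 0], by omega⟩
  let B := {l : List (Fin 4) | l.length ≤ 2 * K + 1}.ncard
  have bound : ∀ v n, (S v n (m n + K)).ncard ≤ B := by
    intro v n
    refine Set.ncard_le_ncard_of_injOn (fun u => u.l.drop (m n - (K + 1))) ?_ ?_
      (List.finite_length_le _ _)
    · rintro u ⟨a, -⟩
      simp only [Set.mem_ofPred_eq, List.length_drop]; omega
    · rintro u ⟨a, b⟩ u' ⟨a', b'⟩ e
      have h3 := hB n u u' ((le_lcp_iff _ _ _).2 ⟨hlen n u a.ge, hlen n u' a'.ge, b.trans b'.symm⟩)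
      have h4 := ((le_lcp_iff (m n - (K + 1)) u.l u'.l).1 (by omega)).2.2
      ext1
      rw [← List.take_append_drop (m n - (K + 1)) u.l, h4, show u.l.drop _ = _ from e,
        List.take_append_drop]
  let a : ℕ → ℕ := fun n => sSup (Set.range fun v => (S v n (m n + K)).ncard)
  have bdd : ∀ n, BddAbove (Set.range fun v => (S v n (m n + K)).ncard) := fun n =>
    ⟨B, by rintro _ ⟨v, rfl⟩; exact bound v n⟩
  have ha : ∀ n, ∃ v, (S v n (m n + K)).ncard = a n := fun n =>
    Nat.sSup_mem (Set.range_nonempty _) (bdd n)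
  have ha' : ∀ n v, (S v n (m n + K)).ncard ≤ a n := fun n v => le_csSup (bdd n) ⟨v, rfl⟩
  refine arith a m B hm h1 h2 (fun n => ?_) (fun n => ?_) (fun n hn => ?_)
  · let u : W (Fin 4) := ⟨dec 0 (List.replicate (m n + K) 0), (dec_chain _ _).tail⟩
    refine le_trans ?_ (ha' n ((F u).l.take n))
    exact (Set.ncard_pos (fin _ _ _)).2 ⟨u, by simp [u, dec_len], rfl⟩
  · obtain ⟨v, hv⟩ := ha n
    rw [← hv]; exact bound v n
  · obtain ⟨v, hv⟩ := ha n
    obtain ⟨v', hv'⟩ := split v n hn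
    have := grow' v n (m (n + 1) - m n)
    rw [hv, show m n + K + (m (n + 1) - m n) = m (n + 1) + K by have := hm n; omega] at this
    have := ha' (n + 1) v'
    omega

theorem no_rough (F : W (Fin 4) → W (Fin 3)) (C : ℝ)
    (h : ∀ u v, |Real.log 2 * dist (F u) (F v) - Real.log 3 * dist u v| ≤ C) : False := by
  obtain ⟨g, hg, e⟩ := to_root (F (root _))
  have l2 : 0 < Real.log 2 := Real.log_pos (by norm_num)
  have l3 : 0 < Real.log 3 := Real.log_pos (by norm_num)
  obtain ⟨K, hK⟩ := exists_nat_ge (3 * C / 2 / Real.log 3)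
  rw [div_le_iff₀ l3] at hK
  have key : ∀ u v, |Real.log 2 * lcp (g (F u)).l (g (F v)).l - Real.log 3 * lcp u.l v.l| ≤
      3 * C / 2 := by
    intro u v
    have a1 := abs_le.1 (h u v)
    have a2 := abs_le.1 (h u (root _))
    have a3 := abs_le.1 (h v (root _))
    rw [← hg] at a1 a2 a3
    rw [e, dist_root, dist_root] at a2 a3
    simp only [dist_def, td] at a1
    push_cast at a1
    rw [abs_le]; constructor <;> linarith [a1.1, a1.2, a2.1, a2.2, a3.1, a3.2]
  have h1 : ∀ n, 2 ^ n ≤ 3 ^ Nat.clog 3 (2 ^ n) := fun n => Nat.le_pow_clog (by norm_num) _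
  have h2 : ∀ n, 3 ^ Nat.clog 3 (2 ^ n) ≤ 3 * 2 ^ n := by
    intro n
    rcases Nat.eq_zero_or_pos n with rfl | hn
    · simp
    · have h3 : 1 < 2 ^ n := Nat.one_lt_two_pow hn.ne'
      have h4 := Nat.pow_pred_clog_lt_self (b := 3) (by norm_num) h3
      have h5 := Nat.clog_pos (b := 3) (by norm_num) h3
      obtain ⟨k, hk⟩ := Nat.exists_eq_succ_of_ne_zero h5.ne'
      rw [hk] at h4 ⊢
      rw [pow_succ]; simp at h4; omega
  refine comb (fun u => g (F u)) K (fun n => Nat.clog 3 (2 ^ n))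
    (fun n => Nat.clog_mono_right _ (Nat.pow_le_pow_right (by norm_num) (by omega))) h1 h2
    (fun n u v hh => ?_) (fun n u v hh => ?_)
  · have a1 := abs_le.1 (key u v)
    have a2 : (2 : ℝ) ^ n ≤ 3 ^ Nat.clog 3 (2 ^ n) := by exact_mod_cast h1 n
    have a3 := Real.log_le_log (by positivity) a2
    rw [Real.log_pow, Real.log_pow] at a3
    have a4 : (Nat.clog 3 (2 ^ n) : ℝ) + K ≤ lcp u.l v.l := by exact_mod_cast hh
    have : Real.log 2 * n ≤ Real.log 2 * lcp (g (F u)).l (g (F v)).l := by nlinarith [a1.1]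
    exact_mod_cast le_of_mul_le_mul_left this l2
  · have a1 := abs_le.1 (key u v)
    have a2 : (3 : ℝ) ^ Nat.clog 3 (2 ^ n) ≤ 3 * 2 ^ n := by exact_mod_cast h2 n
    have a3 := Real.log_le_log (by positivity) a2
    rw [Real.log_mul (by norm_num) (by positivity), Real.log_pow, Real.log_pow] at a3
    have a4 : (n : ℝ) ≤ lcp (g (F u)).l (g (F v)).l := by exact_mod_cast hh
    have : Real.log 3 * Nat.clog 3 (2 ^ n) ≤ Real.log 3 * (lcp u.l v.l + K + 1) := by
      nlinarith [a1.2]
    exact_mod_cast le_of_mul_le_mul_left this l3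

end Pool.Agent.H68.TreeW
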