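import Mathlib
import Pool.Agent.H68.TreeNo

set_option autoImplicit false

namespace Pool.Agent.H68.TreeW

open Pool.Agent.H68.Realize

instance : Fact (0 < Real.log 3) := ⟨Real.log_pos (by norm_num)⟩
instance : Fact (0 < Real.log 2) := ⟨Real.log_pos (by norm_num)⟩

abbrev X0 := Pt (W (Fin 4)) (Real.log 3)
abbrev X1 := Pt (W (Fin 3)) (Real.log 2)

instance : Nonempty X0 := ⟨ι _ (root _)⟩
instance : Nonempty X1 := ⟨ι _ (root _)⟩
instance : ProperSpace X0 := proper ball_fin
instance : ProperSpace X1 := proper ball_fin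
instance : ProperlyDiscontinuousSMul GG X0 := propdisc (root _) (free_fin free4)
instance : ProperlyDiscontinuousSMul GG X1 := propdisc (root _) (free_fin free3)

theorem no_one (f : X0 → X1) (c : ℝ)
    (h : ∀ x y, dist x y / 1 - c ≤ dist (f x) (f y) ∧ dist (f x) (f y) ≤ 1 * dist x y + c) :
    False := by
  choose n hn using near_ι (W := W (Fin 3)) (ℓ := Real.log 2)
  refine no_rough (fun u => n (f (ι _ u))) (c + 2 * Real.log 2) fun u v => ?_
  rw [← dist_ι, ← dist_ι]
  have a1 := abs_le.1 (dist_dist_dist_le (f (ι _ u)) (f (ι _ v)) (ι _ (n (f (ι _ u))))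
    (ι _ (n (f (ι _ v)))))
  have a2 := h (ι _ u) (ι _ v)
  have a3 := hn (f (ι _ u))
  have a4 := hn (f (ι _ v))
  rw [abs_le]; constructor <;> linarith [a1.1, a1.2, a2.1, a2.2]

theorem near_one (L : ℝ) (hL : 1 < L) : ∃ L' : ℝ, 1 ≤ L' ∧ L' < L ∧ ∃ f : X0 → X1, ∃ c : ℝ,
    (∀ x y, dist x y / L' - c ≤ dist (f x) (f y) ∧ dist (f x) (f y) ≤ L' * dist x y + c) ∧
    ∀ z, ∃ x, dist (f x) z ≤ c := by
  obtain ⟨b, hb⟩ := exists_nat_gt (1 / (L - 1))
  have hb0 : (0 : ℝ) < b := lt_trans (by apply div_pos <;> linarith) hb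
  have hb1 : 1 ≤ b := by exact_mod_cast hb0
  obtain ⟨a, h1, h2⟩ : ∃ a, 2 ^ a ≤ 3 ^ b ∧ 3 ^ b < 2 ^ (a + 1) :=
    ⟨_, Nat.pow_log_le_self 2 (by positivity), Nat.lt_pow_succ_log_self (by norm_num) _⟩
  have hab : b ≤ a := by
    have : 2 ^ b < 2 ^ (a + 1) := (Nat.pow_le_pow_left (by norm_num) b).trans_lt h2
    have := (Nat.pow_lt_pow_iff_right (by norm_num)).1 this
    omega
  have ha : (b : ℝ) ≤ a := by exact_mod_cast hab
  have ha0 : (0 : ℝ) < a := by linarith
  have l2 : 0 < Real.log 2 := Real.log_pos (by norm_num)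
  have l3 : 0 < Real.log 3 := Real.log_pos (by norm_num)
  have k1 : a * Real.log 2 ≤ b * Real.log 3 := by
    rw [← Real.log_pow, ← Real.log_pow]
    exact Real.log_le_log (by positivity) (by exact_mod_cast h1)
  have k2 : b * Real.log 3 ≤ (a + 1 : ℕ) * Real.log 2 := by
    rw [← Real.log_pow, ← Real.log_pow]
    exact Real.log_le_log (by positivity) (by exact_mod_cast h2.le)
  push_cast at k2
  obtain ⟨E, hE, oE⟩ := embed4 b hb1
  obtain ⟨F, hF, oF⟩ := embed3 a b (by omega) h1 h2.le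
  push_cast at hF oF
  have hL' : 1 ≤ ((a : ℝ) + 1) / a := by rw [le_div_iff₀ ha0]; linarith
  refine ⟨(a + 1) / a, hL', ?_, ?_⟩
  · rw [div_lt_iff₀ (by linarith)] at hb
    rw [div_lt_iff₀ ha0]; nlinarith
  refine qi_of (fun y z => b * Real.log 3 * DD y z) (fun y => ι _ (E y)) (fun y => ι _ (F y)) _
    ((Real.log 2 + Real.log 3) * (2 * a + 6)) hL' (by positivity) (fun y z => ?_) (fun y z => ?_)
    (fun x => ?_) (fun x => ?_)
  · rw [dist_ι, abs_le]
    obtain ⟨e1, e2⟩ := hE y z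
    constructor <;> nlinarith
  · rw [dist_ι]
    obtain ⟨e1, e2⟩ := hF y z
    have d0 : (0 : ℝ) ≤ DD y z := by exact_mod_cast DD_nonneg y z
    constructor
    · have : b * Real.log 3 * DD y z / ((a + 1) / a) ≤ Real.log 2 * (a * DD y z) := by
        rw [div_le_iff₀ (by positivity)]
        have : Real.log 2 * (a * DD y z) * ((a + 1) / a) = (a + 1) * Real.log 2 * DD y z := by
          field_simp
        rw [this]; exact mul_le_mul_of_nonneg_right k2 d0
      nlinarith
    · have : Real.log 2 * ((a + 1) * DD y z) ≤ (a + 1) / a * (b * Real.log 3 * DD y z) := by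
        have : Real.log 2 * ((a + 1) * DD y z) = (a + 1) / a * (a * Real.log 2 * DD y z) := by
          field_simp
        rw [this]
        exact mul_le_mul_of_nonneg_left (mul_le_mul_of_nonneg_right k1 d0) (by positivity)
      nlinarith
  · obtain ⟨u, hu⟩ := near_ι x
    obtain ⟨y, hy⟩ := oE u
    refine ⟨y, (dist_triangle_right _ _ (ι _ u)).trans ?_⟩
    rw [dist_ι]; nlinarith
  · obtain ⟨u, hu⟩ := near_ι x
    obtain ⟨y, hy⟩ := oF u
    refine ⟨y, (dist_triangle_right _ _ (ι _ u)).trans ?_⟩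
    rw [dist_ι]; nlinarith

end Pool.Agent.H68.TreeW
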