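import Mathlib
import Pool.Agent.H68.Auto

set_option autoImplicit false

namespace Pool.Agent.H68.Twist

open Pool.Agent.H68.Auto

@[ext] structure G where
  x : ℤ
  y : ℤ
  z : ℤ
  w : ℤ
  deriving DecidableEq

def sw (n a b : ℤ) : ℤ := if n % 2 = 0 then a else b

def disp (g h : G) : G :=
  ⟨sw (g.z + g.w) h.x h.y, sw (g.z + g.w) h.y h.x, sw (g.x + g.y) h.z h.w, sw (g.x + g.y) h.w h.z⟩

def add (g h : G) : G := ⟨g.x + h.x, g.y + h.y, g.z + h.z, g.w + h.w⟩
def sub (g h : G) : G := ⟨g.x - h.x, g.y - h.y, g.z - h.z, g.w - h.w⟩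

instance : Mul G := ⟨fun g h => add g (disp g h)⟩
instance : One G := ⟨⟨0, 0, 0, 0⟩⟩
instance : Inv G := ⟨fun g => sub 1 (disp g g)⟩

theorem mul_def (g h : G) : g * h = add g (disp g h) := rfl
theorem one_def : (1 : G) = ⟨0, 0, 0, 0⟩ := rfl
theorem inv_def (g : G) : g⁻¹ = sub 1 (disp g g) := rfl

instance : Group G := Group.ofLeftAxioms
  (fun a b c => by ext <;> simp only [mul_def, add, disp, sw] <;> split_ifs <;> omega)
  (fun a => by ext <;> simp [mul_def, one_def, add, disp, sw])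
  (fun a => by ext <;> simp only [mul_def, one_def, inv_def, sub, add, disp, sw] <;>
    split_ifs <;> omega)

def N (g : G) : ℕ := g.x.natAbs + g.y.natAbs + g.z.natAbs + g.w.natAbs

theorem N_disp (g h : G) : N (disp g h) = N h := by
  simp only [N, disp, sw]; split_ifs <;> omega

theorem N_diff (g h : G) : N (g⁻¹ * h) = N (sub h g) := by
  rw [← N_disp g (sub h g)]
  congr 1
  ext <;> simp only [mul_def, inv_def, one_def, add, sub, disp, sw] <;> split_ifs <;> omega

theorem N_mul (g h : G) : N (g * h) ≤ N g + N h := by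
  rw [← N_disp g h, mul_def]
  generalize disp g h = k
  simp only [N, add]
  linarith [Int.natAbs_add_le g.x k.x, Int.natAbs_add_le g.y k.y, Int.natAbs_add_le g.z k.z,
    Int.natAbs_add_le g.w k.w]

theorem N_inv (g : G) : N g⁻¹ = N g := by
  rw [← N_disp g g, inv_def]; simp [N, sub, one_def]

theorem disp_disp (g h : G) : disp g (disp g h) = h := by
  ext <;> simp only [disp, sw] <;> split_ifs <;> rfl

def A : Finset G := {⟨1, 0, 0, 0⟩, ⟨-1, 0, 0, 0⟩, ⟨0, 1, 0, 0⟩, ⟨0, -1, 0, 0⟩,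
  ⟨0, 0, 1, 0⟩, ⟨0, 0, -1, 0⟩, ⟨0, 0, 0, 1⟩, ⟨0, 0, 0, -1⟩}

theorem mem_A (g : G) : g ∈ A ↔ N g = 1 := by
  constructor
  · revert g; decide
  · obtain ⟨x, y, z, w⟩ := g
    intro h
    simp only [N] at h
    have hx : x = -1 ∨ x = 0 ∨ x = 1 := by omega
    have hy : y = -1 ∨ y = 0 ∨ y = 1 := by omega
    have hz : z = -1 ∨ z = 0 ∨ z = 1 := by omega
    have hw : w = -1 ∨ w = 0 ∨ w = 1 := by omega
    rcases hx with rfl | rfl | rfl <;> rcases hy with rfl | rfl | rfl <;>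
      rcases hz with rfl | rfl | rfl <;> rcases hw with rfl | rfl | rfl <;>
      revert h <;> decide

theorem ball_fin (k : ℕ) : {g | N g ≤ k}.Finite := by
  refine ((Set.finite_Icc ((-k, -k, -k, -k) : ℤ × ℤ × ℤ × ℤ) (k, k, k, k)).preimage
    (f := fun g : G => (g.x, g.y, g.z, g.w)) ?_).subset ?_
  · intro g _ h _ e
    simp only [Prod.mk.injEq] at e
    exact G.ext e.1 e.2.1 e.2.2.1 e.2.2.2
  · intro g hg
    simp only [Set.mem_ofPred_eq, N] at hg
    simp only [Set.mem_preimage, Set.mem_Icc, Prod.mk_le_mk]; omega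

theorem N_ev (w : List A) : N (ev w) ≤ w.length := by
  induction w with
  | nil => simp [ev_nil, N, one_def]
  | cons a w ih =>
    have := N_mul a (ev w)
    have := (mem_A _).1 a.2
    rw [ev_cons, List.length_cons]; omega

def Cv (d v : G) : Prop :=
  (d.x = 1 → 0 ≤ v.x) ∧ (d.x = -1 → v.x ≤ 0) ∧ (d.y ≠ 0 → v.x = 0) ∧
  (d.y = 1 → 0 ≤ v.y) ∧ (d.y = -1 → v.y ≤ 0) ∧ (d.z ≠ 0 → v.x = 0 ∧ v.y = 0) ∧
  (d.z = 1 → 0 ≤ v.z) ∧ (d.z = -1 → v.z ≤ 0) ∧ (d.w ≠ 0 → v.x = 0 ∧ v.y = 0 ∧ v.z = 0) ∧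
  (d.w = 1 → 0 ≤ v.w) ∧ (d.w = -1 → v.w ≤ 0)

def Ok : G → G → List A → Prop
  | _, _, [] => True
  | g, d, a :: w => Cv d (disp g a) ∧ Ok (g * a) (disp g a) w

def LL : Language A := {w | Ok 1 1 w}

theorem Ok_par (w : List A) (g g' d : G) (h1 : (g.x + g.y) % 2 = (g'.x + g'.y) % 2)
    (h2 : (g.z + g.w) % 2 = (g'.z + g'.w) % 2) : Ok g d w ↔ Ok g' d w := by
  induction w generalizing g g' d with
  | nil => rfl
  | cons a w ih =>
    have e : disp g a = disp g' a := by simp only [disp, sw, h1, h2]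
    simp only [Ok, e]
    rw [ih (g * a) (g' * a)] <;> simp only [mul_def, e, add] <;> omega

theorem Ok_append (p : List A) (g d : G) (hd : N d ≤ 1) : ∃ g' d', N d' ≤ 1 ∧
    ∀ w, Ok g d (p ++ w) ↔ Ok g d p ∧ Ok g' d' w := by
  induction p generalizing g d with
  | nil => exact ⟨g, d, hd, by simp [Ok]⟩
  | cons a p ih =>
    obtain ⟨g', d', h1, h2⟩ := ih (g * a) (disp g a) (by rw [N_disp, (mem_A _).1 a.2])
    exact ⟨g', d', h1, fun w => by simp only [List.cons_append, Ok, h2, and_assoc]⟩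

theorem LL_regular : LL.IsRegular := by
  apply Language.IsRegular.of_finite_range_leftQuotient
  refine ((((ball_fin 2).prod (ball_fin 1)).image
    fun q => ({w | Ok q.1 q.2 w} : Language A)).insert (0 : Language A)).subset ?_
  rintro _ ⟨p, rfl⟩
  obtain ⟨g, d, h1, h2⟩ := Ok_append p 1 1 (by simp [N, one_def])
  by_cases hp : Ok 1 1 p
  · refine Or.inr ⟨(⟨(g.x + g.y) % 2, 0, (g.z + g.w) % 2, 0⟩, d), ⟨?_, h1⟩, ?_⟩
    · simp only [Set.mem_ofPred_eq, N]; omega
    · ext w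
      refine Iff.trans ?_ (h2 w).symm
      rw [and_iff_right hp]
      exact Ok_par w _ _ _ (by simp) (by simp)
  · left
    ext w
    exact ⟨fun h => hp ((h2 w).1 h).1, fun h => h.elim⟩

def cl (x : ℤ) (t : ℕ) : ℤ := max (min x t) (-t)

def stair (v : G) (t : ℕ) : G :=
  ⟨cl v.x t, cl v.y (t - v.x.natAbs), cl v.z (t - v.x.natAbs - v.y.natAbs),
    cl v.w (t - v.x.natAbs - v.y.natAbs - v.z.natAbs)⟩

theorem cl0 (t : ℕ) : cl 0 t = 0 := by simp only [cl]; omega
theorem cl1 {x : ℤ} (h : 0 ≤ x) (t : ℕ) : cl (1 + x) (t + 1) = 1 + cl x t := by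
  simp only [cl]; omega
theorem cl2 {x : ℤ} (h : x ≤ 0) (t : ℕ) : cl (-1 + x) (t + 1) = -1 + cl x t := by
  simp only [cl]; omega
theorem ab1 {x : ℤ} (h : 0 ≤ x) : (1 + x).natAbs = x.natAbs + 1 := by omega
theorem ab2 {x : ℤ} (h : x ≤ 0) : (-1 + x).natAbs = x.natAbs + 1 := by omega

theorem key (d e v : G) (he : e ∈ A) (h1 : Cv d e) (h2 : Cv e v) : Cv d (add e v) ∧
    N (add e v) = N v + 1 ∧ ∀ t, stair (add e v) (t + 1) = add e (stair v t) := by
  simp only [A, Finset.mem_insert, Finset.mem_singleton] at he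
  rcases he with rfl | rfl | rfl | rfl | rfl | rfl | rfl | rfl <;>
    refine ⟨by simp [Cv, add] at h1 h2 ⊢; omega, ?_⟩ <;>
    simp [Cv] at h2 <;> simp [N, add, stair, h2, cl0, cl1, cl2, ab1, ab2] <;> ring

theorem Ok_spec (w : List A) (g d : G) (h : Ok g d w) : Cv d (sub (g * ev w) g) ∧
    w.length = N (sub (g * ev w) g) ∧
    ∀ t, g * ev (w.take t) = add g (stair (sub (g * ev w) g) t) := by
  induction w generalizing g d with
  | nil => simp [ev_nil, Cv, sub, N, add, stair, cl]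
  | cons a w ih =>
    obtain ⟨h1, h2, h3⟩ := ih _ _ h.2
    obtain ⟨k1, k2, k3⟩ := key d _ _ ((mem_A _).2 (by rw [N_disp, (mem_A _).1 a.2])) h.1 h1
    have e : sub (g * ev (a :: w)) g = add (disp g a) (sub (g * a * ev w) (g * a)) := by
      rw [ev_cons, ← mul_assoc]
      generalize g * a * ev w = E
      ext <;> simp only [mul_def, add, sub] <;> omega
    rw [e]
    refine ⟨k1, by rw [k2, List.length_cons, h2], fun t => ?_⟩
    cases t with
    | zero => simp [ev_nil, add, stair, cl]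
    | succ t =>
      rw [List.take_succ_cons, ev_cons, ← mul_assoc, h3, k3]
      generalize stair _ t = s
      ext <;> simp only [mul_def, add] <;> omega

theorem Ok_ex (n : ℕ) (g d v : G) (hn : N v = n) (h : Cv d v) :
    ∃ w, Ok g d w ∧ g * ev w = add g v := by
  induction n generalizing g d v with
  | zero =>
    refine ⟨[], trivial, ?_⟩
    simp only [N] at hn
    rw [ev_nil, mul_one]; ext <;> simp only [add] <;> omega
  | succ n ih =>
    obtain ⟨e, h1, h2, h3, h4⟩ : ∃ e, N e = 1 ∧ Cv d e ∧ Cv e (sub v e) ∧ N (sub v e) = n := by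
      simp only [N] at hn
      simp only [Cv] at h
      rcases lt_trichotomy v.x 0 with a | a | a
      · exact ⟨⟨-1, 0, 0, 0⟩, rfl, by clear hn; simp [Cv]; omega,
            by clear h hn; simp [Cv, sub]; omega, by simp [N, sub]; clear h; omega⟩
      · rcases lt_trichotomy v.y 0 with b | b | b
        · exact ⟨⟨0, -1, 0, 0⟩, rfl, by clear hn; simp [Cv]; omega,
            by clear h hn; simp [Cv, sub]; omega, by simp [N, sub]; clear h; omega⟩
        · rcases lt_trichotomy v.z 0 with c | c | c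
          · exact ⟨⟨0, 0, -1, 0⟩, rfl, by clear hn; simp [Cv]; omega,
            by clear h hn; simp [Cv, sub]; omega, by simp [N, sub]; clear h; omega⟩
          · rcases lt_trichotomy v.w 0 with d | d | d
            · exact ⟨⟨0, 0, 0, -1⟩, rfl, by clear hn; simp [Cv]; omega,
            by clear h hn; simp [Cv, sub]; omega, by simp [N, sub]; clear h; omega⟩
            · clear h; omega
            · exact ⟨⟨0, 0, 0, 1⟩, rfl, by clear hn; simp [Cv]; omega,
            by clear h hn; simp [Cv, sub]; omega, by simp [N, sub]; clear h; omega⟩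
          · exact ⟨⟨0, 0, 1, 0⟩, rfl, by clear hn; simp [Cv]; omega,
            by clear h hn; simp [Cv, sub]; omega, by simp [N, sub]; clear h; omega⟩
        · exact ⟨⟨0, 1, 0, 0⟩, rfl, by clear hn; simp [Cv]; omega,
            by clear h hn; simp [Cv, sub]; omega, by simp [N, sub]; clear h; omega⟩
      · exact ⟨⟨1, 0, 0, 0⟩, rfl, by clear hn; simp [Cv]; omega,
            by clear h hn; simp [Cv, sub]; omega, by simp [N, sub]; clear h; omega⟩
    obtain ⟨w, k1, k2⟩ := ih (g * disp g e) e _ h4 h3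
    refine ⟨⟨disp g e, (mem_A _).2 (by rw [N_disp, h1])⟩ :: w, ⟨?_, ?_⟩, ?_⟩
    · simpa only [disp_disp] using h2
    · simpa only [disp_disp] using k1
    · rw [ev_cons, ← mul_assoc, k2, mul_def, disp_disp]
      ext <;> simp only [add, sub] <;> omega

theorem LL_onto (g : G) : ∃ w ∈ LL, ev w = g := by
  obtain ⟨w, h1, h2⟩ := Ok_ex _ 1 1 g rfl (by simp [Cv, one_def])
  exact ⟨w, h1, by rw [← one_mul (ev w), h2]; ext <;> simp [add, one_def]⟩

theorem sub_one (g : G) : sub g 1 = g := by ext <;> simp [sub, one_def]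

theorem LL_geo (w : List A) (h : w ∈ LL) : IsGeodesic w := by
  intro w' e
  have := (Ok_spec w 1 1 h).2.1
  rw [one_mul, sub_one, ← e] at this
  exact this ▸ N_ev w'

theorem cl_lip (x x' : ℤ) (t a b : ℕ) :
    (cl x (t - a) - cl x' (t - b)).natAbs ≤ (x - x').natAbs + ((a : ℤ) - b).natAbs := by
  have : (((t - a : ℕ) : ℤ) - (t - b : ℕ)).natAbs ≤ ((a : ℤ) - b).natAbs := by omega
  refine le_trans ?_ (Nat.add_le_add_left this _)
  clear this
  generalize t - a = s
  generalize t - b = s'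
  simp only [cl]; omega

theorem ab_lip (x x' : ℤ) (a b : ℕ) : (((a + x.natAbs : ℕ) : ℤ) - (b + x'.natAbs : ℕ)).natAbs ≤
    ((a : ℤ) - b).natAbs + (x - x').natAbs := by omega

theorem ar {A1 A2 A3 A4 d1 d2 d3 d4 e2 e3 e4 : ℕ} (hx : d1 + d2 + d3 + d4 ≤ 1) (a1 : A1 ≤ d1)
    (a2 : A2 ≤ d2 + e2) (a3 : A3 ≤ d3 + e3) (a4 : A4 ≤ d4 + e4) (b2 : e2 ≤ d1)
    (b3 : e3 ≤ e2 + d2) (b4 : e4 ≤ e3 + d3) : A1 + A2 + A3 + A4 ≤ 7 := by omega

theorem LL_mult (x : G) (hx : N x ≤ 1) : (mult LL x).IsRegular := by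
  refine mult_regular LL_regular x _ (ball_fin 7) fun u hu v hv e t => ?_
  have h1 := (Ok_spec u 1 1 hu).2.2 t
  have h2 := (Ok_spec v 1 1 hv).2.2 t
  rw [one_mul, one_mul, sub_one] at h1 h2
  have h3 := N_diff (ev u) (ev v)
  rw [← e, inv_mul_cancel_left, e] at h3
  rw [Set.mem_ofPred_eq, N_diff, h1, h2]
  generalize ev u = p at *
  generalize ev v = q at *
  have a1 := cl_lip q.x p.x t 0 0
  have a2 := cl_lip q.y p.y t (0 + q.x.natAbs) (0 + p.x.natAbs)
  have a3 := cl_lip q.z p.z t (0 + q.x.natAbs + q.y.natAbs) (0 + p.x.natAbs + p.y.natAbs)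
  have a4 := cl_lip q.w p.w t (0 + q.x.natAbs + q.y.natAbs + q.z.natAbs)
    (0 + p.x.natAbs + p.y.natAbs + p.z.natAbs)
  have b2 := ab_lip q.x p.x 0 0
  have b3 := ab_lip q.y p.y (0 + q.x.natAbs) (0 + p.x.natAbs)
  have b4 := ab_lip q.z p.z (0 + q.x.natAbs + q.y.natAbs) (0 + p.x.natAbs + p.y.natAbs)
  rw [h3] at hx
  simp only [N, sub, add, stair, one_def, zero_add, Nat.sub_sub, Nat.sub_zero, sub_self,
    Int.natAbs_zero, add_zero] at hx a1 a2 a3 a4 b2 b3 b4 ⊢
  exact ar hx a1 a2 a3 a4 b2 b3 b4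

theorem A_gen : Subgroup.closure (A : Set G) = ⊤ := by
  rw [eq_top_iff]
  intro g _
  obtain ⟨w, -, rfl⟩ := LL_onto g
  induction w with
  | nil => exact one_mem _
  | cons a w ih => rw [ev_cons]; exact mul_mem (Subgroup.subset_closure a.2) (ih trivial)

def SL (o : LinearOrder A) (w : List A) : Prop :=
  w.length = N (ev w) ∧ ∀ w', ev w' = ev w → w'.length = w.length → w' ≠ w → List.Lex o.lt w w'

theorem SL.mem {o : LinearOrder A} {w : List A} (h : SL o w) : w ∈ shortLex A o := by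
  intro w' e hne
  have := N_ev w'
  rw [e, ← h.1] at this
  rcases this.eq_or_lt with c | c
  · exact List.Shortlex.of_lex c (h.2 w' e c.symm hne)
  · exact List.Shortlex.of_length_lt c

theorem SL.cons {o : LinearOrder A} {w : List A} (h : SL o w) (a : A)
    (h1 : N (a * ev w) = N (ev w) + 1)
    (h2 : ∀ b : A, N ((b : G)⁻¹ * (a * ev w)) ≤ N (ev w) → o.le a b) : SL o (a :: w) := by
  refine ⟨by rw [ev_cons, h1, List.length_cons, h.1], fun w' e hl hne => ?_⟩
  cases w' with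
  | nil => simp at hl
  | cons b w' =>
    rw [ev_cons, ev_cons] at e
    have hl' : w'.length = w.length := by simpa using hl
    have h3 := N_ev w'
    rw [eq_inv_mul_of_mul_eq e, hl', h.1] at h3
    rcases (h2 b h3).eq_or_lt with rfl | c
    · exact List.Lex.cons (h.2 w' (mul_left_cancel e) hl' fun e' => hne (by rw [e']))
    · exact List.Lex.rel c

def V (c c' : G) (i j : ℕ) : G :=
  ⟨i * c.x + j * c'.x, i * c.y + j * c'.y, i * c.z + j * c'.z, i * c.w + j * c'.w⟩

def Tr (m c c' : G) : Prop :=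
  ((m = ⟨1, 0, 0, 0⟩ ∨ m = ⟨0, 1, 0, 0⟩) ∧ ((c = ⟨0, 0, 1, 0⟩ ∧ c' = ⟨0, 0, 0, 1⟩) ∨
    (c = ⟨0, 0, 0, 1⟩ ∧ c' = ⟨0, 0, 1, 0⟩))) ∨
  ((m = ⟨0, 0, 1, 0⟩ ∨ m = ⟨0, 0, 0, 1⟩) ∧ ((c = ⟨1, 0, 0, 0⟩ ∧ c' = ⟨0, 1, 0, 0⟩) ∨
    (c = ⟨0, 1, 0, 0⟩ ∧ c' = ⟨1, 0, 0, 0⟩)))

theorem facts {m c c' : G} (h : Tr m c c') (i j : ℕ) :
    N (V c c' i j) = i + j ∧ c * V c c' i j = V c c' (i + 1) j ∧
    c' * V c c' i j = V c c' i (j + 1) ∧ N (m * V c c' i i) = i + i + 1 ∧
    (∃ x ∈ A, V c c' i i * x = m * V c c' i i) ∧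
    i ≤ N ((V c c' i 1)⁻¹ * (m * V c c' i 0)) ∧
    ∀ b ∈ A, (N (b⁻¹ * V c c' i j) < i + j → b = c' ∨ (b = c ∧ 0 < i)) ∧
      (N (b⁻¹ * (m * V c c' i i)) ≤ i + i → b = m ∨ b = c ∨ b = c') := by
  refine ⟨?_, ?_, ?_, ?_, ⟨disp (V c c' i i) m, ?_, ?_⟩, ?_, fun b hb => ?_⟩
  on_goal 5 => rw [mem_A, N_disp]
  on_goal 6 => rw [mul_def, disp_disp]
  on_goal 7 => rw [N_diff]
  on_goal 8 =>
    simp only [A, Finset.mem_insert, Finset.mem_singleton] at hb
    rw [N_diff, N_diff]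
    rcases hb with rfl | rfl | rfl | rfl | rfl | rfl | rfl | rfl
  all_goals
    rcases h with ⟨rfl | rfl, ⟨rfl, rfl⟩ | ⟨rfl, rfl⟩⟩ | ⟨rfl | rfl, ⟨rfl, rfl⟩ | ⟨rfl, rfl⟩⟩ <;>
    simp [N, V, mul_def, add, sub, disp, sw] <;> omega

theorem not_auto (o : LinearOrder A) (m c c' : A) (h : Tr m c c') (h1 : o.le m c) (h2 : o.le c c') :
    ¬ IsAutomatic A (shortLex A o) := by
  rintro ⟨-, -, -, hA⟩
  have e0 : ∀ j, ev (List.replicate j c') = V c c' 0 j := by
    intro j
    induction j with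
    | zero => simp [ev_nil, V, one_def]
    | succ j ih => rw [List.replicate_succ, ev_cons, ih, (facts h 0 j).2.2.1]
  have e1 : ∀ i j, ev (List.replicate i c ++ List.replicate j c') = V c c' i j := by
    intro i j
    induction i with
    | zero => simpa using e0 j
    | succ i ih => rw [List.replicate_succ, List.cons_append, ev_cons, ih, (facts h i j).2.1]
  have s0 : ∀ j, SL o (List.replicate j c') := by
    intro j
    induction j with
    | zero => exact ⟨by simp [ev_nil, N, one_def], fun w' _ a b => (b (by simpa using a)).elim⟩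
    | succ j ih =>
      refine ih.cons c' ?_ fun b hb => ?_
      · rw [e0, (facts h 0 j).2.2.1, (facts h _ _).1, (facts h _ _).1]; rfl
      · rw [e0, (facts h 0 j).2.2.1, (facts h _ _).1] at hb
        rcases ((facts h 0 (j + 1)).2.2.2.2.2.2 b b.2).1 (by omega) with e | e
        · exact (Subtype.ext e).ge
        · omega
  have s1 : ∀ i j, SL o (List.replicate i c ++ List.replicate j c') := by
    intro i j
    induction i with
    | zero => simpa using s0 j
    | succ i ih =>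
      refine ih.cons c ?_ fun b hb => ?_
      · rw [e1, (facts h i j).2.1, (facts h _ _).1, (facts h _ _).1]; omega
      · rw [e1, (facts h i j).2.1, (facts h _ _).1] at hb
        rcases ((facts h (i + 1) j).2.2.2.2.2.2 b b.2).1 (by omega) with e | e
        · exact h2.trans (Subtype.ext e).ge
        · exact (Subtype.ext e.1).ge
  have s2 : ∀ i, SL o (m :: (List.replicate i c ++ List.replicate i c')) := by
    intro i
    refine (s1 i i).cons m ?_ fun b hb => ?_
    · rw [e1, (facts h i i).2.2.2.1, (facts h _ _).1]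
    · rw [e1, (facts h _ _).1] at hb
      rcases ((facts h i i).2.2.2.2.2.2 b b.2).2 hb with e | e | e
      · exact (Subtype.ext e).ge
      · exact h1.trans (Subtype.ext e).ge
      · exact h1.trans (h2.trans (Subtype.ext e).ge)
  choose B hB using fun a : A => fellow (hA a a.2)
  obtain ⟨K, hK⟩ := (Set.finite_range B).bddAbove
  obtain ⟨i, hi⟩ : ∃ i, i = 2 * K + 2 := ⟨_, rfl⟩
  obtain ⟨x, hx, e⟩ := (facts h i i).2.2.2.2.1
  obtain ⟨u', v', a1, a2, a3⟩ := hB ⟨x, hx⟩ _ (s1 i i).mem _ (s2 i).mem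
    (by rw [ev_cons, e1]; exact e) (i + 1)
  have a4 : B ⟨x, hx⟩ ≤ K := hK ⟨_, rfl⟩
  have t1 : (List.replicate i c ++ List.replicate i c').take (i + 1) =
      List.replicate i c ++ List.replicate 1 c' := by
    rw [List.take_append, List.take_replicate, List.take_replicate]
    congr 2 <;> simp <;> omega
  have t2 : (List.replicate i c ++ List.replicate i c').take i =
      List.replicate i c ++ List.replicate 0 c' := by simp
  rw [List.take_succ_cons, t1, t2, ev_cons, e1, e1] at a3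
  have b1 := (facts h i i).2.2.2.2.2.1
  have b2 : (V c c' i 1)⁻¹ * (m * V c c' i 0) = ev u' * x * (ev v')⁻¹ := by
    rw [inv_mul_eq_iff_eq_mul, ← mul_assoc, ← mul_assoc, a3]; group
  have b3 := N_mul (ev u' * x) (ev v')⁻¹
  have b4 := N_mul (ev u') x
  have b5 := N_ev u'
  have b6 := N_ev v'
  have b7 := (mem_A x).1 hx
  rw [N_inv] at b3
  rw [b2] at b1
  omega

theorem no_order (o : LinearOrder A) : ¬ IsAutomatic A (shortLex A o) := by
  let a0 : A := ⟨⟨1, 0, 0, 0⟩, by decide⟩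
  let b0 : A := ⟨⟨0, 1, 0, 0⟩, by decide⟩
  let a1 : A := ⟨⟨0, 0, 1, 0⟩, by decide⟩
  let b1 : A := ⟨⟨0, 0, 0, 1⟩, by decide⟩
  rcases o.le_total a0 b0 with h0 | h0 <;> rcases o.le_total a1 b1 with h1 | h1
  · rcases o.le_total a0 a1 with h | h
    · exact not_auto o a0 a1 b1 (by simp [Tr, a0, a1, b1]) h h1
    · exact not_auto o a1 a0 b0 (by simp [Tr, a0, a1, b0]) h h0
  · rcases o.le_total a0 b1 with h | h
    · exact not_auto o a0 b1 a1 (by simp [Tr, a0, a1, b1]) h h1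
    · exact not_auto o b1 a0 b0 (by simp [Tr, a0, b1, b0]) h h0
  · rcases o.le_total b0 a1 with h | h
    · exact not_auto o b0 a1 b1 (by simp [Tr, b0, a1, b1]) h h1
    · exact not_auto o a1 b0 a0 (by simp [Tr, a0, a1, b0]) h h0
  · rcases o.le_total b0 b1 with h | h
    · exact not_auto o b0 b1 a1 (by simp [Tr, b0, a1, b1]) h h1
    · exact not_auto o b1 b0 a0 (by simp [Tr, a0, b1, b0]) h h0

end Pool.Agent.H68.Twist
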