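import Mathlib

set_option autoImplicit false

namespace Pool.Agent.H68.Wi

open Function

structure Dat (Γ X : Type) [Group Γ] [MulAction Γ X] where
  L : Subgroup Γ
  A : Bool → Subgroup Γ
  lb : X → ℕ
  lb_inj : Injective lb
  lb_ne : ∀ x, lb x ≠ 1
  tr : ∀ x y : X, ∃ γ ∈ L, γ • x = y
  nt : ∀ x : X, ∃ y, y ≠ x
  fa : ∀ γ : Γ, (∀ x : X, γ • x = x) → γ = 1
  nc : ∃ a ∈ L, ∃ b ∈ L, a * b * a⁻¹ * b⁻¹ ≠ 1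
  mn : ∀ σ (K : Subgroup Γ), K ≤ A σ → (∀ l ∈ L, ∀ k ∈ K, l * k * l⁻¹ ∈ K) →
    (∃ k ∈ K, k ≠ 1) → L ≤ K
  cm : ∀ a ∈ A true, ∀ b ∈ A false, a * b * a⁻¹ * b⁻¹ ∈ A true → a ∈ A false ∨ b ∈ A true

variable {Γ X : Type} [Group Γ] [MulAction Γ X] (d : Dat Γ X)
variable {G Y : Type} [Group G] (a : G →* Equiv.Perm Y)

def R (κ : X → Y) (g : G) (γ : Γ) : Prop := ∀ x, a g (κ x) = κ (γ • x)

variable {a} in
theorem R.mul {κ : X → Y} {g h : G} {γ δ : Γ} (p : R a κ g γ) (q : R a κ h δ) :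
    R a κ (g * h) (γ * δ) := fun x => by
  rw [map_mul, Equiv.Perm.mul_apply, q, p, mul_smul]

variable {a} in
theorem R.inv {κ : X → Y} {g : G} {γ : Γ} (p : R a κ g γ) : R a κ g⁻¹ γ⁻¹ := fun x => by
  have := p (γ⁻¹ • x)
  rw [smul_inv_smul] at this
  rw [← this, map_inv]; simp

def Im (κ : X → Y) (N : Subgroup G) : Subgroup Γ where
  carrier := {γ | ∃ g ∈ N, R a κ g γ}
  one_mem' := ⟨1, one_mem _, fun x => by simp⟩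
  mul_mem' := fun ⟨g, h1, h2⟩ ⟨g', h3, h4⟩ => ⟨g * g', mul_mem h1 h3, h2.mul h4⟩
  inv_mem' := fun ⟨g, h1, h2⟩ => ⟨g⁻¹, inv_mem h1, h2.inv⟩

def Mv (N : Subgroup G) (y : Y) : Prop := ∃ g ∈ N, a g y ≠ y

def Ty (κ : X → Y) (N : Subgroup G) (σ : Bool) : Prop := ∀ g ∈ N, ∃ γ ∈ d.A σ, R a κ g γ

structure Pt (l : Y → ℕ) (N : Subgroup G) (κ : X → Y) : Prop where
  lab : ∀ x, l (κ x) = d.lb x
  le : d.L ≤ Im a κ N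
  ty : ∃ σ, Ty d a κ N σ

def Pat (l : Y → ℕ) (N : Subgroup G) (y : Y) : Prop := ∃ κ, Pt d a l N κ ∧ ∃ x, κ x = y

def El (ob : Y → Prop) (l : Y → ℕ) (N : Subgroup G) (y : Y) : Prop := ob y ∧ l y ≠ 1 ∧ Mv a N y

def Ru (ob : Y → Prop) (l : Y → ℕ) (N : Subgroup G) : Prop :=
  (∀ y, El a ob l N y → Pat d a l N y) ∧ ∀ y y', El a ob l N y → El a ob l N y' →
    (∀ g ∈ N, a g y ≠ y') → ∃ g ∈ N, (∀ n ∈ N, a g (a n y') = a n y') ∧ a g y ≠ y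

variable {d a} {ob : Y → Prop} {l : Y → ℕ} {N K : Subgroup G} {κ : X → Y}

theorem Pt.inj (p : Pt d a l N κ) : Injective κ := fun x y h =>
  d.lb_inj (by rw [← p.lab, ← p.lab, h])

theorem r_uniq (d : Dat Γ X) (hk : Injective κ) {g : G} {γ δ : Γ} (p : R a κ g γ) (q : R a κ g δ) : γ = δ := by
  rw [← inv_mul_eq_one]
  refine d.fa _ fun x => hk ?_
  have := p.inv.mul q x
  rw [← this]; simp

theorem Ty.le (hk : Injective κ) {σ : Bool} (t : Ty d a κ N σ) : Im a κ N ≤ d.A σ := by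
  rintro γ ⟨g, h1, h2⟩
  obtain ⟨δ, h3, h4⟩ := t g h1
  rwa [r_uniq d hk h2 h4]

theorem Pt.orb (p : Pt d a l N κ) (x y : X) : ∃ g ∈ N, a g (κ x) = κ y := by
  obtain ⟨γ, h1, rfl⟩ := d.tr x y
  obtain ⟨g, h2, h3⟩ := p.le h1
  exact ⟨g, h2, h3 x⟩

theorem Pt.f1 (p : Pt d a l N κ) (hK : K ≤ N) (hn : ∀ n ∈ N, ∀ k ∈ K, n * k * n⁻¹ ∈ K) {x : X}
    (hm : Mv a K (κ x)) : Pt d a l K κ := by
  obtain ⟨σ, t⟩ := p.ty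
  have t' : Ty d a κ K σ := fun g hg => t g (hK hg)
  refine ⟨p.lab, d.mn σ _ (t'.le p.inj) ?_ ?_, σ, t'⟩
  · rintro γ hγ δ ⟨k, h1, h2⟩
    obtain ⟨n, h3, h4⟩ := p.le hγ
    exact ⟨_, hn n h3 k h1, (h4.mul h2).mul h4.inv⟩
  · obtain ⟨g, h1, h2⟩ := hm
    obtain ⟨γ, -, h4⟩ := t' g h1
    refine ⟨γ, ⟨g, h1, h4⟩, fun h => h2 ?_⟩
    rw [h4, h, one_smul]

theorem Pt.mv (p : Pt d a l N κ) (x : X) : Mv a N (κ x) := by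
  obtain ⟨y, hy⟩ := d.nt x
  obtain ⟨g, h1, h2⟩ := p.orb x y
  exact ⟨g, h1, fun h => hy (p.inj (h2.symm.trans h))⟩

def Fx (a : G →* Equiv.Perm Y) (N : Subgroup G) (y : Y) : Subgroup G where
  carrier := {g | g ∈ N ∧ ∀ n ∈ N, a g (a n y) = a n y}
  one_mem' := ⟨one_mem _, fun n _ => by simp⟩
  mul_mem' := fun h1 h2 => ⟨mul_mem h1.1 h2.1, fun n hn => by
    rw [map_mul, Equiv.Perm.mul_apply, h2.2 n hn, h1.2 n hn]⟩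
  inv_mem' := fun h => ⟨inv_mem h.1, fun n hn => by
    rw [map_inv, Equiv.Perm.inv_eq_iff_eq, h.2 n hn]⟩

theorem fx_conj {y : Y} : ∀ n ∈ N, ∀ k ∈ Fx a N y, n * k * n⁻¹ ∈ Fx a N y := fun n hn k hk =>
  ⟨mul_mem (mul_mem hn hk.1) (inv_mem hn), fun m hm => by
    have := hk.2 _ (mul_mem (inv_mem hn) hm)
    simp only [map_mul, Equiv.Perm.mul_apply] at this ⊢
    rw [this]; simp⟩

theorem Ru.sub (r : Ru d a ob l N) (hK : K ≤ N) (hn : ∀ n ∈ N, ∀ k ∈ K, n * k * n⁻¹ ∈ K) :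
    Ru d a ob l K := by
  have up : ∀ y, El a ob l K y → El a ob l N y := fun y ⟨h1, h2, g, h3, h4⟩ =>
    ⟨h1, h2, g, hK h3, h4⟩
  refine ⟨fun y e => ?_, fun y y' e e' h => ?_⟩
  · obtain ⟨κ, p, x, rfl⟩ := r.1 y (up y e)
    exact ⟨κ, p.f1 hK hn e.2.2, x, rfl⟩
  obtain ⟨κ, p, x, rfl⟩ := r.1 y (up y e)
  have pK := p.f1 hK hn e.2.2
  obtain ⟨g, h1, h2, h3⟩ := r.2 _ y' (up _ e) (up _ e') fun g hg hy => by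
    obtain ⟨σ, t⟩ := p.ty
    obtain ⟨γ, -, h4⟩ := t g hg
    obtain ⟨k, h5, h6⟩ := pK.orb x (γ • x)
    exact h k h5 (by rw [h6, ← h4, hy])
  have pF : Pt d a l (Fx a N y') κ := p.f1 (fun _ h => h.1) fx_conj ⟨g, ⟨h1, h2⟩, h3⟩
  obtain ⟨γ, h4, δ, h5, h6⟩ := d.nc
  obtain ⟨k, h7, h8⟩ := pK.le h4
  obtain ⟨k', h9, h10⟩ := pF.le h5
  have h11 := ((h8.mul h10).mul h8.inv).mul h10.inv
  have : ∃ z : X, (γ * δ * γ⁻¹ * δ⁻¹) • z ≠ z := by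
    by_contra hc
    exact h6 (d.fa _ (by simpa using hc))
  obtain ⟨z, hz⟩ := this
  have pI : Pt d a l (K ⊓ Fx a N y') κ := p.f1 (x := z) (inf_le_left.trans hK)
    (fun n hn' k hk => ⟨hn n hn' k hk.1, fx_conj n hn' k hk.2⟩)
    ⟨k * k' * k⁻¹ * k'⁻¹, ⟨by
      have := mul_mem h7 (hn k' h9.1 _ (inv_mem h7))
      simpa [mul_assoc] using this, mul_mem (fx_conj k (hK h7) k' h9) ((Fx a N y').inv_mem h9)⟩,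
      fun h => hz (p.inj ((h11 z).symm.trans h))⟩
  obtain ⟨g', h12, h13⟩ := pI.mv x
  exact ⟨g', h12.1, fun n hn => h12.2.2 n (hK hn), h13⟩

variable {N₁ N₂ : Subgroup G}

theorem fix_conj [hN : N.Normal] {y : Y} (h : ¬Mv a N y) (g : G) {n : G} (hn : n ∈ N) :
    a n (a g y) = a g y := by
  have : a (g⁻¹ * n * g⁻¹⁻¹) y = y := by
    by_contra hc
    exact h ⟨_, hN.conj_mem n hn g⁻¹, hc⟩
  conv_rhs => rw [← this]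
  simp

theorem keyA [h₁ : N₁.Normal] [h₂ : N₂.Normal] (hob : ∀ g y, ob y → ob (a g y))
    (r₁ : Ru d a ob l N₁) {κ₂ : X → Y} (p : Pt d a l N₂ κ₂) {x : X}
    (e : El a ob l N₁ (κ₂ x)) (x' : X) : ∃ n ∈ N₁, a n (κ₂ x) = κ₂ x' := by
  by_contra hc
  obtain ⟨m, hm, h1⟩ := p.orb x x'
  have e' : El a ob l N₁ (κ₂ x') := by
    refine ⟨h1 ▸ hob m _ e.1, by rw [p.lab]; exact d.lb_ne _, ?_⟩
    by_contra h
    obtain ⟨g, h2, h3⟩ := e.2.2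
    have := fix_conj h m⁻¹ h2
    rw [← h1] at this
    exact h3 (by simpa using this)
  obtain ⟨g, h2, h3, h4⟩ := r₁.2 _ _ e e' fun g hg h => hc ⟨g, hg, h⟩
  have h5 : a g (κ₂ x') = κ₂ x' := by simpa using h3 1 (one_mem _)
  have pI : Pt d a l (N₁ ⊓ N₂) κ₂ := p.f1 (x := x) inf_le_right
    (fun n _ k hk => ⟨h₁.conj_mem k hk.1 n, h₂.conj_mem k hk.2 n⟩)
    ⟨g * (m⁻¹ * g⁻¹ * m⁻¹⁻¹), ⟨mul_mem h2 (h₁.conj_mem _ (inv_mem h2) _), by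
      have := mul_mem (h₂.conj_mem _ (inv_mem hm) g) hm
      simpa [mul_assoc] using this⟩, by
      have h6 : a g⁻¹ (κ₂ x') = κ₂ x' := by rw [map_inv, Equiv.Perm.inv_eq_iff_eq, h5]
      have h7 : a m⁻¹ (κ₂ x') = κ₂ x := by rw [map_inv, Equiv.Perm.inv_eq_iff_eq, h1]
      simp only [map_mul, Equiv.Perm.mul_apply, inv_inv, h1, h6, h7]
      exact h4⟩
  obtain ⟨n, h6, h7⟩ := pI.orb x x'
  exact hc ⟨n, h6.1, h7⟩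

theorem ty_sup [N₂.Normal] {σ : Bool} (t₁ : Ty d a κ N₁ σ) (t₂ : Ty d a κ N₂ σ) :
    Ty d a κ (N₁ ⊔ N₂) σ := fun g hg => by
  obtain ⟨n, h1, m, h2, rfl⟩ := Subgroup.mem_sup_of_normal_right.1 hg
  obtain ⟨γ, h3, h4⟩ := t₁ n h1
  obtain ⟨δ, h5, h6⟩ := t₂ m h2
  exact ⟨_, mul_mem h3 h5, h4.mul h6⟩

theorem ty_cm [h₁ : N₁.Normal] [N₂.Normal] (hk : Injective κ) (t₁ : Ty d a κ N₁ true)
    (t₂ : Ty d a κ N₂ false) : ∃ σ, Ty d a κ (N₁ ⊔ N₂) σ := by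
  by_cases h : Ty d a κ N₁ false
  · exact ⟨_, ty_sup h t₂⟩
  refine ⟨true, ty_sup t₁ fun m hm => ?_⟩
  obtain ⟨n, h⟩ := not_forall.1 h
  obtain ⟨hn, h⟩ := Classical.not_imp.1 h
  obtain ⟨γ, h3, h4⟩ := t₁ n hn
  obtain ⟨δ, h5, h6⟩ := t₂ m hm
  rcases d.cm γ h3 δ h5 (t₁.le hk ⟨_, by
    have := mul_mem hn (h₁.conj_mem _ (inv_mem hn) m)
    simpa [mul_assoc] using this, ((h4.mul h6).mul h4.inv).mul h6.inv⟩) with h7 | h7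
  · exact (h ⟨γ, h7, h4⟩).elim
  · exact ⟨δ, h7, h6⟩

theorem keyB [h₁ : N₁.Normal] [h₂ : N₂.Normal] (hob : ∀ g y, ob y → ob (a g y))
    (r₁ : Ru d a ob l N₁) (r₂ : Ru d a ob l N₂) (p : Pt d a l N₁ κ) {x : X}
    (e : El a ob l N₁ (κ x)) : Pt d a l (N₁ ⊔ N₂) κ := by
  refine ⟨p.lab, fun γ hγ => ?_, ?_⟩
  · obtain ⟨g, h1, h2⟩ := p.le hγ
    exact ⟨g, Subgroup.mem_sup_left h1, h2⟩
  obtain ⟨σ, t⟩ := p.ty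
  by_cases hm : Mv a N₂ (κ x)
  · obtain ⟨κ₂, q, x₂, h1⟩ := r₂.1 _ ⟨e.1, e.2.1, hm⟩
    obtain rfl : κ₂ = κ := funext fun z => by
      obtain ⟨n, h2, h3⟩ := keyA hob r₁ q (h1 ▸ e) z
      obtain ⟨γ, -, h4⟩ := t n h2
      rw [h1, h4] at h3
      have : γ • x = z := d.lb_inj (by rw [← p.lab, h3, q.lab])
      rw [← h3, this]
    obtain ⟨τ, s⟩ := q.ty
    cases σ <;> cases τ
    · exact ⟨_, ty_sup t s⟩
    · rw [sup_comm]; exact ty_cm p.inj s t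
    · exact ty_cm p.inj t s
    · exact ⟨_, ty_sup t s⟩
  · refine ⟨σ, ty_sup t fun m hm' => ⟨1, one_mem _, fun z => ?_⟩⟩
    obtain ⟨n, -, h2⟩ := p.orb x z
    rw [one_smul, ← h2, fix_conj hm n hm']

theorem el_sup [N₂.Normal] {y : Y} (e : El a ob l (N₁ ⊔ N₂) y) :
    El a ob l N₁ y ∨ El a ob l N₂ y := by
  obtain ⟨h1, h2, g, h3, h4⟩ := e
  obtain ⟨n, h5, m, h6, rfl⟩ := Subgroup.mem_sup_of_normal_right.1 h3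
  by_cases h : a m y = y
  · exact .inl ⟨h1, h2, n, h5, by simpa [h] using h4⟩
  · exact .inr ⟨h1, h2, m, h6, h⟩

theorem keyC [h₁ : N₁.Normal] [h₂ : N₂.Normal] (hob : ∀ g y, ob y → ob (a g y))
    (r₁ : Ru d a ob l N₁) (r₂ : Ru d a ob l N₂) {y y' : Y} (e : El a ob l N₁ y)
    (e' : El a ob l (N₁ ⊔ N₂) y') (h : ∀ g ∈ N₁ ⊔ N₂, a g y ≠ y') :
    ∃ g ∈ N₁ ⊔ N₂, (∀ n ∈ N₁ ⊔ N₂, a g (a n y') = a n y') ∧ a g y ≠ y := by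
  by_cases hm : Mv a N₁ y'
  · have e'' : El a ob l N₁ y' := ⟨e'.1, e'.2.1, hm⟩
    obtain ⟨g, h1, h2, h3⟩ := r₁.2 y y' e e'' fun g hg => h g (Subgroup.mem_sup_left hg)
    refine ⟨g, Subgroup.mem_sup_left h1, fun n hn => ?_, h3⟩
    obtain ⟨κ, p, x, rfl⟩ := r₁.1 _ e''
    obtain ⟨σ, t⟩ := (keyB hob r₁ r₂ p e'').ty
    obtain ⟨γ, -, h4⟩ := t n hn
    obtain ⟨m, h5, h6⟩ := p.orb x (γ • x)
    rw [h4, ← h6, h2 m h5]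
  · obtain ⟨g, h1, h2⟩ := e.2.2
    exact ⟨g, Subgroup.mem_sup_left h1, fun n _ => fix_conj hm n h1, h2⟩

theorem Ru.sup [N₁.Normal] [N₂.Normal] (hob : ∀ g y, ob y → ob (a g y))
    (r₁ : Ru d a ob l N₁) (r₂ : Ru d a ob l N₂) : Ru d a ob l (N₁ ⊔ N₂) := by
  refine ⟨fun y e => ?_, fun y y' e e' h => ?_⟩
  · rcases el_sup e with e | e
    · obtain ⟨κ, p, x, rfl⟩ := r₁.1 _ e
      exact ⟨κ, keyB hob r₁ r₂ p e, x, rfl⟩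
    · obtain ⟨κ, p, x, rfl⟩ := r₂.1 _ e
      exact ⟨κ, sup_comm N₂ N₁ ▸ keyB hob r₂ r₁ p e, x, rfl⟩
  · rcases el_sup e with e | e
    · exact keyC hob r₁ r₂ e e' h
    · rw [sup_comm] at e' h ⊢
      exact keyC hob r₂ r₁ e e' h

theorem ru_tr {G' Y' : Type} [Group G'] {a' : G' →* Equiv.Perm Y'} {ob' : Y' → Prop} {l' : Y' → ℕ}
    (f : G →* G') (φ : Y → Y') (Z : Y → Prop) (h0 : ∀ g y, Z y → Z (a g y))
    (h1 : ∀ g y, φ (a g y) = a' (f g) (φ y)) (h2 : ∀ y y', Z y → Z y' → φ y = φ y' → y = y')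
    (h3 : ∀ y, l' (φ y) = l y) (h4 : ∀ y, ob y → l y ≠ 1 → Z y ∧ ob' (φ y))
    (h5 : ∀ y', ob' y' → Mv a' f.range y' → ∃ y, ob y ∧ Z y ∧ φ y = y') :
    Ru d a ob l ⊤ ↔ Ru d a' ob' l' f.range := by
  have fw : ∀ y, El a ob l ⊤ y → El a' ob' l' f.range (φ y) := fun y ⟨p, q, g, _, r⟩ =>
    ⟨(h4 y p q).2, by rwa [h3], f g, ⟨g, rfl⟩, fun h =>
      r (h2 _ _ (h0 g y (h4 y p q).1) (h4 y p q).1 (by rw [h1, h]))⟩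
  have bw : ∀ y', El a' ob' l' f.range y' → ∃ y, El a ob l ⊤ y ∧ φ y = y' := by
    rintro y' ⟨p, q, r⟩
    obtain ⟨y, s, -, rfl⟩ := h5 y' p r
    obtain ⟨_, ⟨g, rfl⟩, r⟩ := r
    exact ⟨y, ⟨s, by rwa [← h3], g, trivial, fun h => r (by rw [← h1, h])⟩, rfl⟩
  refine ⟨fun r => ⟨fun y' e => ?_, fun y₁ y₂ e₁ e₂ h => ?_⟩,
    fun r => ⟨fun y e => ?_, fun y₁ y₂ e₁ e₂ h => ?_⟩⟩
  · obtain ⟨y, e', rfl⟩ := bw y' e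
    obtain ⟨κ, p, x, rfl⟩ := r.1 y e'
    have hr : ∀ g (γ : Γ), R a κ g γ → R a' (φ ∘ κ) (f g) γ := fun g γ h x => by
      simp only [comp_apply, ← h1, h x]
    refine ⟨φ ∘ κ, ⟨fun x => (h3 _).trans (p.lab x), fun γ hγ => ?_, ?_⟩, x, rfl⟩
    · obtain ⟨g, -, q⟩ := p.le hγ
      exact ⟨f g, ⟨g, rfl⟩, hr g γ q⟩
    · obtain ⟨σ, t⟩ := p.ty
      refine ⟨σ, ?_⟩
      rintro _ ⟨g, rfl⟩
      obtain ⟨γ, q, s⟩ := t g trivial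
      exact ⟨γ, q, hr g γ s⟩
  · obtain ⟨y₁, e₁', rfl⟩ := bw y₁ e₁
    obtain ⟨y₂, e₂', rfl⟩ := bw y₂ e₂
    obtain ⟨g, -, p, q⟩ := r.2 y₁ y₂ e₁' e₂' fun g _ q => h (f g) ⟨g, rfl⟩ (by rw [← h1, q])
    have z := (h4 _ e₁'.1 e₁'.2.1).1
    refine ⟨f g, ⟨g, rfl⟩, ?_, fun s => q (h2 _ _ (h0 g _ z) z (by rw [h1, s]))⟩
    rintro _ ⟨n, rfl⟩
    rw [← h1, ← h1, p n trivial]
  · obtain ⟨κ', p, x, q⟩ := r.1 _ (fw y e)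
    have z := (h4 _ e.1 e.2.1).1
    have : ∀ x', ∃ w, Z w ∧ φ w = κ' x' := fun x' => by
      obtain ⟨_, ⟨g, rfl⟩, s⟩ := p.orb x x'
      exact ⟨a g y, h0 g y z, by rw [h1, ← q, s]⟩
    choose κ k1 k2 using this
    have hr : ∀ g (γ : Γ), R a' κ' (f g) γ → R a κ g γ := fun g γ h x =>
      h2 _ _ (h0 g _ (k1 x)) (k1 _) (by rw [h1, k2, k2, h])
    refine ⟨κ, ⟨fun x => by rw [← h3, k2, p.lab], fun γ hγ => ?_, ?_⟩, x,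
      h2 _ _ (k1 x) z ((k2 x).trans q)⟩
    · obtain ⟨_, ⟨g, rfl⟩, s⟩ := p.le hγ
      exact ⟨g, trivial, hr g γ s⟩
    · obtain ⟨σ, t⟩ := p.ty
      refine ⟨σ, fun g _ => ?_⟩
      obtain ⟨γ, q, s⟩ := t (f g) ⟨g, rfl⟩
      exact ⟨γ, q, hr g γ s⟩
  · have z₁ := (h4 _ e₁.1 e₁.2.1).1
    have z₂ := (h4 _ e₂.1 e₂.2.1).1
    obtain ⟨_, ⟨g, rfl⟩, p, q⟩ := r.2 _ _ (fw y₁ e₁) (fw y₂ e₂) (by
      rintro _ ⟨g, rfl⟩ s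
      exact h g trivial (h2 _ _ (h0 g _ z₁) z₂ (by rw [h1, s])))
    refine ⟨g, trivial, fun n _ => h2 _ _ (h0 _ _ (h0 _ _ z₂)) (h0 _ _ z₂) ?_,
      fun s => q (by rw [← h1, s])⟩
    rw [h1, h1, p _ ⟨n, rfl⟩]

end Pool.Agent.H68.Wi
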