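import Pool.Agent.H68.Wi1

set_option autoImplicit false

namespace Pool.Agent.H68.Wi

open Function
open Subgroup (IsSubnormal)
open scoped commutatorElement

variable {G G' : Type} [Group G] [Group G']

def Nm (A B : Subgroup G) : Prop := ∀ a ∈ A, ∀ b ∈ B, a * b * a⁻¹ ∈ B

structure Ob (D : Subgroup G) : Prop where
  sn : D.IsSubnormal
  ne : D ≠ ⊥
  pf : D ≤ ⁅D, D⁆
  ji : ∀ A B : Subgroup G, A ≤ D → B ≤ D → Nm D A → Nm D B → D ≤ A ⊔ B → D ≤ A ∨ D ≤ B

variable {A B D D' K M : Subgroup G}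

theorem Nm.mono (h : Nm A B) (hK : K ≤ A) : Nm K B := fun a ha => h a (hK ha)

theorem nm_self : Nm A A := fun _ ha _ hb => mul_mem (mul_mem ha hb) (inv_mem ha)

theorem nm_normal [h : B.Normal] : Nm A B := fun a _ b hb => h.conj_mem b hb a

theorem Nm.inf (h : Nm K A) (h' : Nm K B) : Nm K (A ⊓ B) := fun k hk x hx =>
  ⟨h k hk x hx.1, h' k hk x hx.2⟩

theorem nm_iff (h : A ≤ B) : (A.subgroupOf B).Normal ↔ Nm B A := by
  rw [Subgroup.normal_subgroupOf_iff_le_normalizer h, Subgroup.le_normalizer_iff]; rfl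

theorem Nm.split (h : Nm B A) {x : G} (hx : x ∈ A ⊔ B) : ∃ a ∈ A, ∃ b ∈ B, a * b = x := by
  have := Subgroup.coe_mul_of_right_le_normalizer_left A B (Subgroup.le_normalizer_iff.2 h)
  rw [← SetLike.mem_coe, this] at hx
  exact hx

theorem Ob.two (o : Ob D) (h1 : Nm A D) (h2 : Nm B D) (h3 : Nm D A) (h4 : Nm D B)
    (h : ∀ x ∈ D, ∃ a ∈ A, ∃ b ∈ B, a * b = x) : D ≤ A ∨ D ≤ B := by
  have key : ∀ {C : Subgroup G}, Nm C D → Nm D C → ∀ x ∈ D, ∀ c ∈ C, ⁅x, c⁆ ∈ D ⊓ C :=
    fun p q x hx c hc => ⟨by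
      have := mul_mem hx (p c hc _ (inv_mem hx))
      simpa [commutatorElement_def, mul_assoc] using this, mul_mem (q x hx c hc) (Subgroup.inv_mem _ hc)⟩
  rcases o.ji (D ⊓ A) (D ⊓ B) inf_le_left inf_le_left (nm_self.inf h3) (nm_self.inf h4)
    (o.pf.trans (Subgroup.commutator_le.2 fun x hx y hy => by
      obtain ⟨a, ha, b, hb, rfl⟩ := h y hy
      have c := key h2 h4 x hx b hb
      have := mul_mem (mul_mem (Subgroup.mem_sup_left (T := D ⊓ B) (key h1 h3 x hx a ha))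
        (Subgroup.mem_sup_right c)) (Subgroup.mem_sup_left (key h1 h3 _ (inv_mem c.1) a ha))
      convert this using 1
      simp only [commutatorElement_def]; group)) with p | p
  · exact .inl (p.trans inf_le_right)
  · exact .inr (p.trans inf_le_right)

def ac (G : Type) [Group G] : G →* Equiv.Perm (Subgroup G) :=
  open Pointwise in (MulAction.toPermHom (MulAut G) (Subgroup G)).comp MulAut.conj

theorem mem_ac {g x : G} : x ∈ ac G g D ↔ g⁻¹ * x * g ∈ D := by
  simp [ac, Subgroup.mem_pointwise_smul_iff_inv_smul_mem]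

theorem ac_eq {g : G} : ac G g D = D.map (MulAut.conj g).toMonoidHom := rfl

theorem Nm.ac (h : Nm A D) {g : G} (hg : g ∈ A) : ac G g D = D := by
  ext x
  rw [mem_ac]
  exact ⟨fun p => by simpa [mul_assoc] using h g hg _ p, fun p => by
    simpa using h _ (inv_mem hg) _ p⟩

theorem nm_of_ac (h : ∀ g ∈ A, ac G g D = D) : Nm A D := fun g hg x hx => by
  rw [← h g hg, mem_ac]; simpa [mul_assoc] using hx

theorem map_ac (f : G →* G') (g : G) (D : Subgroup G) :
    (ac G g D).map f = ac G' (f g) (D.map f) := by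
  simp only [ac_eq, Subgroup.map_map]
  congr 1
  ext x; simp

def Q (D K : Subgroup G) : Prop := ∀ B ≤ K, Nm K B → ¬D ≤ B → Nm B D

theorem Ob.step (o : Ob D) (h1 : D ≤ M) (h2 : M ≤ K) (h3 : Nm K M) (q : Q D M) : Q D K := by
  intro B hB hn hD
  have hD' : ¬D ≤ B ⊓ M := fun h => hD (h.trans inf_le_left)
  have n1 : Nm M (B ⊓ M) := (hn.mono h2).inf nm_self
  have n2 := q _ inf_le_right n1 hD'
  have c : ∀ b ∈ B, ∀ x ∈ D, x⁻¹ * (b * x * b⁻¹) ∈ B ⊓ M := fun b hb x hx => ⟨by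
    have := mul_mem (hn _ (inv_mem (h2 (h1 hx))) b hb) (inv_mem hb)
    simpa [mul_assoc] using this, mul_mem (M.inv_mem (h1 hx)) (h3 b (hB hb) x (h1 hx))⟩
  intro b hb x hx
  have n3 : Nm (B ⊓ M) (ac G b⁻¹ D) := fun m hm y hy => by
    rw [mem_ac] at hy ⊢
    have := n2 _ ((hn.inf h3) b (hB hb) m hm) _ hy
    simpa [mul_assoc] using this
  have s : ∀ y ∈ D, ∃ a ∈ ac G b⁻¹ D, ∃ m ∈ B ⊓ M, a * m = y := fun y hy =>
    ⟨b⁻¹ * y * b, by rw [mem_ac]; simpa [mul_assoc] using hy, _, inv_mem (c _ (inv_mem hb) y hy), by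
      group⟩
  rcases o.two (A := ac G b⁻¹ D) (B := B ⊓ M) (fun y hy z hz => by
      rw [mem_ac] at hy
      have := nm_self _ hy _ (n2 _ (c _ (inv_mem hb) _ hy) z hz)
      simpa [mul_assoc] using this) n2 (fun y hy z hz => by
      obtain ⟨a, ha, m, hm, rfl⟩ := s y hy
      have := nm_self a ha _ (n3 m hm z hz)
      simpa [mul_assoc] using this) (n1.mono h1) s with p | p
  · simpa using mem_ac.1 (p hx)
  · exact (hD' p).elim

theorem Ob.w1 (o : Ob D) (h : D ≤ K) (hB : B ≤ K) (hn : Nm K B) (hD : ¬D ≤ B) : Nm B D := by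
  have : ∀ M : Subgroup G, M.IsSubnormal → D ≤ M → Q D (M ⊓ K) → Q D K := by
    intro M hM
    induction hM with
    | top => exact fun _ q => by rwa [top_inf_eq] at q
    | step H M h1 _ h2 ih =>
      exact fun h3 q => ih (h3.trans h1) (o.step (le_inf h3 h) (inf_le_inf_right K h1)
        ((((nm_iff h1).1 h2).mono inf_le_left).inf (nm_self.mono inf_le_right)) q)
  exact this D o.sn le_rfl (fun C hC _ _ => nm_self.mono (hC.trans inf_le_left)) B hB hn hD

theorem Ob.w0 (o : Ob D) [B.Normal] (hD : ¬D ≤ B) : Nm B D := o.w1 le_top le_top nm_normal hD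

theorem Ob.w2 (o : Ob D) (hA : A.IsSubnormal) :
    D ≤ A ∨ ∃ B, A ≤ B ∧ Nm B D ∧ Nm D B ∧ ¬D ≤ B := by
  induction hA with
  | top => exact .inl le_top
  | step H M h1 _ h2 ih =>
    rcases ih with p | ⟨B, p, q⟩
    · by_cases h : D ≤ H
      · exact .inl h
      · have := (nm_iff h1).1 h2
        exact .inr ⟨H, le_rfl, o.w1 p h1 this h, this.mono p, h⟩
    · exact .inr ⟨B, h1.trans p, q⟩

theorem Ob.le_of (f : G →* G') (o : Ob D) (o' : D'.IsSubnormal) (h : ¬D ≤ f.ker)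
    (e : D.map f ≤ D'.map f) : D ≤ D' := by
  rcases o.w2 o' with p | ⟨B, p, q, r, s⟩
  · exact p
  · rcases o.two q (o.w0 h) r nm_normal (fun x hx => by
      obtain ⟨y, hy, h1⟩ := e ⟨x, hx, rfl⟩
      exact ⟨y, p hy, y⁻¹ * x, by simp [MonoidHom.mem_ker, h1], by simp⟩) with t | t
    · exact (s t).elim
    · exact (h t).elim

theorem Ob.uq (f : G →* G') (o : Ob D) (o' : Ob D') (h : ¬D ≤ f.ker) (e : D.map f = D'.map f) :
    D = D' := le_antisymm (o.le_of f o'.sn h e.le) (o'.le_of f o.sn (fun p => h (by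
      rw [← Subgroup.map_eq_bot_iff] at p ⊢; rw [e, p])) e.ge)

theorem Ob.map (f : G →* G') (hf : f.range.IsSubnormal) (o : Ob D) (h : ¬D ≤ f.ker) :
    Ob (D.map f) where
  sn := by
    have := (o.sn.map f.rangeRestrict_surjective).trans' hf
    rwa [Subgroup.map_map] at this
  ne := by rwa [Ne, Subgroup.map_eq_bot_iff]
  pf := by rw [← Subgroup.map_commutator]; exact Subgroup.map_mono o.pf
  ji A B hA hB nA nB h := by
    have n : ∀ {C : Subgroup G'}, Nm (D.map f) C → Nm D (D ⊓ C.comap f) := fun p =>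
      nm_self.inf fun x hx y hy => by simpa using p _ ⟨x, hx, rfl⟩ _ hy
    rcases o.ji _ _ inf_le_left inf_le_left (n nA) (n nB) (fun x hx => by
      obtain ⟨a, ha, b, hb, e⟩ := (nA.mono hB).split (h ⟨x, hx, rfl⟩)
      obtain ⟨y, hy, rfl⟩ := hA ha
      rw [← mul_inv_cancel_left y x]
      exact mul_mem (Subgroup.mem_sup_left ⟨hy, ha⟩) (Subgroup.mem_sup_right
        ⟨mul_mem (D.inv_mem hy) hx, by simpa [← e] using hb⟩)) with p | p
    · exact .inl (Subgroup.map_le_iff_le_comap.2 (p.trans inf_le_right))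
    · exact .inr (Subgroup.map_le_iff_le_comap.2 (p.trans inf_le_right))

theorem Ob.lift [Finite G] (f : G →* G') {E : Subgroup G'} (o : Ob E) (h : E ≤ f.range) :
    ∃ D, Ob D ∧ ¬D ≤ f.ker ∧ D.map f = E := by
  obtain ⟨D, ⟨h1, rfl⟩, h2⟩ := exists_minimal_of_wellFoundedLT
    (fun D : Subgroup G => D.IsSubnormal ∧ D.map f = E)
    ⟨E.comap f, o.sn.comap f, Subgroup.map_comap_eq_self h⟩
  have key : ∀ C ≤ D, Nm D C → D.map f ≤ C.map f → D ≤ C := fun C p q r =>
    h2 ⟨.step _ _ p h1 ((nm_iff p).2 q), le_antisymm (Subgroup.map_mono p) r⟩ p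
  have n : ∀ {C : Subgroup G}, Nm D C → Nm (D.map f) (C.map f) := fun p => by
    rintro _ ⟨x, hx, rfl⟩ _ ⟨y, hy, rfl⟩
    exact ⟨_, p x hx y hy, by simp⟩
  have hk : ¬D ≤ f.ker := fun p => o.ne (Subgroup.map_eq_bot_iff _ |>.2 p)
  refine ⟨D, ⟨h1, fun p => hk (p ▸ bot_le), key _ (Subgroup.commutator_le.2 fun x hx y hy =>
    mul_mem (nm_self x hx y hy) (inv_mem hy)) ?_ ?_, fun A B hA hB nA nB p => ?_⟩, hk, rfl⟩
  · exact fun x hx y hy => Subgroup.le_normalizer_iff.1
      (Subgroup.normalizer_commutator_ge_left D D) x hx y hy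
  · rw [Subgroup.map_commutator]; exact o.pf
  · rcases o.ji _ _ (Subgroup.map_mono hA) (Subgroup.map_mono hB) (n nA) (n nB)
      (by rw [← Subgroup.map_sup]; exact Subgroup.map_mono p) with q | q
    · exact .inl (key _ hA nA q)
    · exact .inr (key _ hB nB q)

theorem conj_range (g : G) : (MulAut.conj g).toMonoidHom.range = ⊤ :=
  MonoidHom.range_eq_top.2 (MulAut.conj g).surjective

theorem conj_ker (o : Ob D) (g : G) : ¬D ≤ (MulAut.conj g).toMonoidHom.ker := fun h =>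
  o.ne (le_bot_iff.1 (by rwa [(MonoidHom.ker_eq_bot_iff _).2 (MulAut.conj g).injective] at h))

theorem Ob.ac (o : Ob D) (g : G) : Ob (ac G g D) :=
  o.map _ (conj_range g ▸ .top) (conj_ker o g)

theorem ac_ker (f : G →* G') (g : G) (h : ¬D ≤ f.ker) : ¬ac G g D ≤ f.ker := fun p => h fun x hx => by
  have := p (x := g * x * g⁻¹) (by simpa [mem_ac, mul_assoc] using hx)
  simpa [MonoidHom.mem_ker] using this

def st (D : Subgroup G) : Subgroup G := (MulAction.stabilizer (Equiv.Perm (Subgroup G)) D).comap (ac G)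

theorem mem_st {g : G} : g ∈ st D ↔ ac G g D = D := Iff.rfl

noncomputable def lab (D E : Subgroup G) : ℕ := (st D).relIndex E

theorem lab_one : lab D A = 1 ↔ ∀ g ∈ A, ac G g D = D := Subgroup.relIndex_eq_one

theorem st_map (f : G →* G') (o : Ob D) (h : ¬D ≤ f.ker) : (st (D.map f)).comap f = st D := by
  ext g
  rw [Subgroup.mem_comap, mem_st, mem_st, ← map_ac]
  exact ⟨(o.ac g).uq f o (ac_ker f g h), fun p => by rw [p]⟩

theorem lab_map (f : G →* G') (o : Ob D) (h : ¬D ≤ f.ker) (E : Subgroup G) :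
    lab (D.map f) (E.map f) = lab D E := by
  rw [lab, ← Subgroup.relIndex_comap, st_map f o h, lab]

variable {Γ X : Type} [Group Γ] [MulAction Γ X] (d : Dat Γ X)

def At (N D : Subgroup G) : Prop := Ru d (ac G) Ob (lab D) N

theorem Ob.le_mv (o : Ob D) (hA : A.IsSubnormal) (h : Mv (Wi.ac G) A D) : D ≤ A := by
  rcases o.w2 hA with p | ⟨B, p, q, -⟩
  · exact p
  · obtain ⟨g, h1, h2⟩ := h
    exact (h2 (q.ac (p h1))).elim

theorem at_map [Finite G] (f : G →* G') (hf : f.range.IsSubnormal) (o : Ob D) (h : ¬D ≤ f.ker) :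
    At d ⊤ D ↔ At d f.range (D.map f) :=
  ru_tr f (fun E => E.map f) (fun E => Ob E ∧ ¬E ≤ f.ker) (fun g _ p => ⟨p.1.ac g, ac_ker f g p.2⟩)
    (map_ac f) (fun _ _ p q => p.1.uq f q.1 p.2) (lab_map f o h)
    (fun E p q =>
      have : ¬E ≤ f.ker := fun r => q (lab_one.2 fun _ hg => (o.w0 h).ac (r hg))
      ⟨⟨p, this⟩, p.map f hf this⟩)
    fun E p q => by
      obtain ⟨C, r, s, t⟩ := p.lift f (p.le_mv hf q)
      exact ⟨C, r, ⟨r, s⟩, t⟩

theorem at_vac {N : Subgroup G} (h : ∀ E, Ob E → Mv (ac G) N E → ∀ g ∈ E, ac G g D = D) :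
    At d N D :=
  ⟨fun E e => (e.2.1 (lab_one.2 (h E e.1 e.2.2))).elim,
    fun E _ e => (e.2.1 (lab_one.2 (h E e.1 e.2.2))).elim⟩

def F (G : Type) [Group G] : Prop := ∀ D : Subgroup G, Ob D → At d ⊤ D

variable {d}

theorem at_surj [Finite G] (f : G →* G') (hf : Surjective f) (o : Ob D) (h : ¬D ≤ f.ker) :
    At d ⊤ D ↔ At d ⊤ (D.map f) := by
  have e := MonoidHom.range_eq_top.2 hf
  rw [at_map d f (e ▸ .top) o h, e]

theorem at_sub [Finite G] (hK : K.IsSubnormal) {D : Subgroup K} (o : Ob D) :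
    Ob (D.map K.subtype) ∧ (At d ⊤ D ↔ At d K (D.map K.subtype)) := by
  have h : ¬D ≤ K.subtype.ker := fun p => o.ne (by simpa using p)
  have e : K.subtype.range.IsSubnormal := by rwa [Subgroup.range_subtype]
  exact ⟨o.map _ e h, by rw [at_map d _ e o h, Subgroup.range_subtype]⟩

theorem f_of [Finite G] (f : G →* G') (hf : Surjective f)
    (h : ∀ D : Subgroup G, Ob D → ¬D ≤ f.ker → At d ⊤ D) : F d G' := fun E o => by
  obtain ⟨D, p, q, rfl⟩ := o.lift f (by rw [MonoidHom.range_eq_top.2 hf]; exact le_top)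
  exact (at_surj f hf p q).1 (h D p q)

theorem F.back [Finite G] (f : G →* G') (hf : Surjective f) (h : F d G') (o : Ob D)
    (k : ¬D ≤ f.ker) : At d ⊤ D :=
  (at_surj f hf o k).2 (h _ (o.map f (by rw [MonoidHom.range_eq_top.2 hf]; exact .top) k))

theorem F.quo [Finite G] (h : F d G) (f : G →* G') (hf : Surjective f) : F d G' :=
  f_of f hf fun D o _ => h D o

theorem f_sd [Finite G] {Q₁ Q₂ : Type} [Group Q₁] [Group Q₂] (f₁ : G →* Q₁) (f₂ : G →* Q₂)
    (f : G →* G') (s₁ : Surjective f₁) (s₂ : Surjective f₂) (s : Surjective f)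
    (e : f.ker = f₁.ker ⊓ f₂.ker) (h₁ : F d Q₁) (h₂ : F d Q₂) : F d G' :=
  f_of f s fun D o k => by
    by_cases p : D ≤ f₁.ker
    · exact h₂.back f₂ s₂ o fun q => k (e ▸ le_inf p q)
    · exact h₁.back f₁ s₁ o p

theorem F.sub [Finite G] (h : F d G) (N : Subgroup G) (hN : N.Normal) : F d N := fun _ o =>
  (at_sub hN.isSubnormal o).2.2 ((h _ (at_sub (d := d) hN.isSubnormal o).1).sub le_top nm_normal)

theorem F.at [Finite G] {N : Subgroup G} [hN : N.Normal] (h : F d N) (o : Ob D) : At d N D := by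
  by_cases p : D ≤ N
  · obtain ⟨E, q, -, rfl⟩ := o.lift N.subtype (by rwa [Subgroup.range_subtype])
    exact (at_sub hN.isSubnormal q).2.1 (h E q)
  · exact at_vac d fun E q r g hg => (o.w0 p).ac (q.le_mv hN.isSubnormal r hg)

theorem F.sup [Finite G] {N M : Subgroup G} [N.Normal] [M.Normal] (h : F d N) (h' : F d M) :
    F d ↥(N ⊔ M) := fun _ o =>
  have p := at_sub (d := d) (Subgroup.sup_normal N M).isSubnormal o
  p.2.2 (Ru.sup (fun g _ q => q.ac g) (h.at p.1) (h'.at p.1))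

theorem Ob.not_solv (o : Ob D) (hN : Group.IsSolvable K) : ¬D ≤ K := fun h => by
  haveI : Group.IsSolvable D := Group.isSolvable_of_isSolvable_injective (Subgroup.inclusion_injective h)
  haveI := D.nontrivial_iff_ne_bot.2 o.ne
  have := Subgroup.map_subtype_lt_map_subtype.2 (Group.IsSolvable.commutator_lt_top_of_nontrivial D)
  rw [Subgroup.map_subtype_commutator, ← MonoidHom.range_eq_map, Subgroup.range_subtype] at this
  exact this.not_ge o.pf

theorem f_sat [Finite G] (N : Subgroup G) [N.Normal] (hN : Group.IsSolvable N)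
    (h : ∀ (Q : Type) [Group Q] (f : G →* Q), Surjective f →
      f.ker = (frattini ↥N).map N.subtype → F d Q) : F d G := fun D o =>
  (h _ _ (QuotientGroup.mk'_surjective ((frattini ↥N).map N.subtype))
    (QuotientGroup.ker_mk' _)).back _ (QuotientGroup.mk'_surjective _) o fun p =>
      o.not_solv hN (p.trans (by rw [QuotientGroup.ker_mk']; exact Subgroup.map_subtype_le _))

theorem f_low [Finite G] (hK : K = ⊤) (o : Ob D) (h : ¬At d ⊤ D) :
    ∃ E : Subgroup K, E.map K.subtype = D ∧ ∀ (Q : Type) [Group Q] (f : K →* Q), Surjective f →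
      F d Q → E ≤ f.ker := by
  obtain ⟨E, q, -, rfl⟩ := o.lift K.subtype (by rw [Subgroup.range_subtype, hK]; exact le_top)
  refine ⟨E, rfl, fun Q _ f hf p => by_contra fun k => h ?_⟩
  have := (at_sub (d := d) (hK ▸ .top) q).2.1 (p.back f hf q k)
  generalize E.map K.subtype = C at this
  rwa [hK] at this

theorem f_up [Finite G] (hK : K.IsSubnormal) (h : ∀ D, Ob D → ¬D ≤ A → At d K D) :
    ∃ N : Subgroup K, N.Normal ∧ N.map K.subtype ≤ A ∧ ∀ (Q : Type) [Group Q] (f : K →* Q),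
      Surjective f → f.ker = N → F d Q := by
  refine ⟨(A.comap K.subtype).normalCore, inferInstance, Subgroup.map_le_iff_le_comap.2
    (Subgroup.normalCore_le _), fun Q _ f hf e => f_of f hf fun D o k => ?_⟩
  obtain ⟨g, hg⟩ : ∃ g, ¬ac K g D ≤ A.comap K.subtype := by
    by_contra hc
    refine k (e ▸ fun x hx g => not_not.1 (not_exists.1 hc g) ?_)
    simpa [mem_ac, mul_assoc] using hx
  have p := at_sub (d := d) hK (o.ac g)
  exact (at_surj _ (MulAut.conj g).surjective o (conj_ker o g)).2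
    (p.2.2 (h _ p.1 (by rwa [Subgroup.map_le_iff_le_comap])))

end Pool.Agent.H68.Wi
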