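import Pool.Agent.H68.Wi2

set_option autoImplicit false

namespace Pool.Agent.H68.Wi

open Function SemidirectProduct
open Subgroup (IsSubnormal)
open scoped commutatorElement Classical

abbrev Wr (S H I : Type) [Group S] [Group H] [MulAction H I] : Type := (I → S) ⋊[mulAutArrow] H

variable {S H I : Type} [Group S] [Group H] [MulAction H I]

theorem arr (h : H) (f : I → S) (i : I) : mulAutArrow (M := S) h f i = f (h⁻¹ • i) := rfl

noncomputable def C0 (S : Type) [Group S] (i : I) : Subgroup (I → S) :=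
  (⊤ : Subgroup S).map (MonoidHom.mulSingle (fun _ => S) i)

theorem mem_C0 {i : I} {f : I → S} : f ∈ C0 S i ↔ ∀ j, j ≠ i → f j = 1 := by
  refine ⟨?_, fun h => ⟨f i, trivial, funext fun j => ?_⟩⟩
  · rintro ⟨s, -, rfl⟩ j hj
    simp [hj]
  · by_cases e : j = i
    · simp [e]
    · simp [e, h j e]

variable (S H) in
noncomputable def C (i : I) : Subgroup (Wr S H I) := (C0 S i).map inl

theorem mem_C {i : I} {w : Wr S H I} : w ∈ C S H i ↔ w.right = 1 ∧ ∀ j, j ≠ i → w.left j = 1 := by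
  refine ⟨?_, fun h => ⟨w.left, mem_C0.2 h.2, by ext <;> simp [h.1]⟩⟩
  rintro ⟨f, h, rfl⟩
  exact ⟨rfl, mem_C0.1 h⟩

theorem ac_C (w : Wr S H I) (i : I) : ac _ w (C S H i) = C S H (w.right • i) := by
  ext x
  rw [mem_ac, mem_C, mem_C]
  have e : (w⁻¹ * x * w).right = 1 ↔ x.right = 1 := by
    simp [mul_assoc, inv_mul_eq_one]
  have k : x.right = 1 → ∀ j, (w⁻¹ * x * w).left j = 1 ↔ x.left (w.right • j) = 1 := fun h j => by
    simp only [mul_left, inv_left, mul_right, inv_right, h, mul_one, Pi.mul_apply, arr, inv_inv,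
      Pi.inv_apply]
    simp [mul_assoc, inv_mul_eq_one]
  refine ⟨fun h => ⟨e.1 h.1, fun j hj => ?_⟩, fun h => ⟨e.2 h.1, fun j hj => ?_⟩⟩
  · have := (k (e.1 h.1) _).1 (h.2 (w.right⁻¹ • j) (fun p => hj (by rw [← p, smul_inv_smul])))
    rwa [smul_inv_smul] at this
  · exact (k h.1 j).2 (h.2 (w.right • j) (fun p => hj (smul_left_cancel _ p)))

theorem ob_top [IsSimpleGroup S] (h : ∃ a b : S, a * b ≠ b * a) : Ob (⊤ : Subgroup S) where
  sn := .top
  ne := top_ne_bot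
  pf := by
    rcases (Subgroup.commutator_normal (⊤ : Subgroup S) ⊤).eq_bot_or_eq_top with p | p
    · obtain ⟨a, b, h⟩ := h
      have := Subgroup.commutator_mem_commutator (Subgroup.mem_top a) (Subgroup.mem_top b)
      rw [p, Subgroup.mem_bot, commutatorElement_eq_one_iff_mul_comm] at this
      exact (h this).elim
    · exact p.ge
  ji A B _ _ hA _ h := by
    rcases (⟨fun n hn g => hA g trivial n hn⟩ : A.Normal).eq_bot_or_eq_top with rfl | rfl
    · exact .inr (by simpa using h)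
    · exact .inl le_rfl

theorem C0_ev (i : I) : (C0 S i).map (Pi.evalMonoidHom (fun _ => S) i) = ⊤ :=
  top_le_iff.1 fun s _ => ⟨_, ⟨s, trivial, rfl⟩, by simp⟩

variable [IsSimpleGroup S] (hS : ∃ a b : S, a * b ≠ b * a)

include hS in
theorem ob_C0 (i : I) : Ob (C0 S i) := by
  refine (ob_top hS).map _ ?_ fun h => ?_
  · rw [MonoidHom.range_eq_map]
    exact Subgroup.Normal.isSubnormal ⟨fun n hn g => mem_C0.2 fun j hj => by
      simp [mem_C0.1 hn j hj]⟩
  · obtain ⟨s, hs⟩ := exists_ne (1 : S)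
    exact hs (by simpa using congrFun (h (Subgroup.mem_top s)) i)

include hS in
theorem ob_C (i : I) : Ob (C S H i) := by
  refine (ob_C0 hS i).map _ ?_ fun h => (ob_C0 hS i).ne ?_
  · rw [range_inl_eq_ker_rightHom]; exact Subgroup.Normal.isSubnormal inferInstance
  · rwa [(MonoidHom.ker_eq_bot_iff _).2 inl_injective, le_bot_iff] at h

theorem C_ex (i : I) : ∃ w ∈ C S H i, w.left i ≠ 1 := by
  obtain ⟨s, hs⟩ := exists_ne (1 : S)
  exact ⟨_, ⟨_, ⟨s, trivial, rfl⟩, rfl⟩, by simpa using hs⟩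

theorem C_inj : Injective (C S H : I → _) := fun i j h => by
  obtain ⟨w, p, q⟩ := C_ex (S := S) (H := H) i
  by_contra e
  exact q ((mem_C.1 (h ▸ p)).2 i e)

include hS in
theorem eq_C [Finite S] [Finite I] {D : Subgroup (Wr S H I)} (o : Ob D) (h : D ≤ rightHom.ker) :
    ∃ i, D = C S H i := by
  obtain ⟨E, p, -, rfl⟩ := o.lift inl (by rwa [range_inl_eq_ker_rightHom])
  obtain ⟨i, hi⟩ : ∃ i, ¬E ≤ (Pi.evalMonoidHom (fun _ => S) i).ker := by
    by_contra hc
    exact p.ne (le_bot_iff.1 fun f hf => funext fun i => not_not.1 (not_exists.1 hc i) hf)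
  refine ⟨i, congrArg _ (p.uq _ (ob_C0 hS i) hi ?_)⟩
  rw [C0_ev]
  exact ((p.sn.map (surjective_eval (β := fun _ => S) i)).eq_bot_or_top_of_isSimpleGroup
    inferInstance).resolve_left (by rwa [Subgroup.map_eq_bot_iff])

instance [Finite S] [Finite H] [Finite I] : Finite (Wr S H I) :=
  Finite.of_equiv _ equivProd.symm

variable {Γ X : Type} [Group Γ] [MulAction Γ X] (d : Dat Γ X) (P : X → Subgroup S)

variable (Γ) in
def Qs : Subgroup (Wr S Γ X) := (Subgroup.pi Set.univ P).map inl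

variable (Γ) in
abbrev G0 : Type := Wr S (Wr S Γ X) (Wr S Γ X ⧸ Qs Γ P)

variable [Finite S] [Finite Γ] [Finite X]

include hS in
theorem ex_D : ∃ D : X → Subgroup (G0 Γ P), (∀ x, Ob (D x) ∧ ¬D x ≤ rightHom.ker ∧
    (D x).map rightHom = C S Γ x) ∧ ∀ g x, ac _ g (D x) = D (g.right.right • x) := by
  choose D h using fun x : X => (ob_C (H := Γ) hS x).lift (rightHom : G0 Γ P →* _)
    (by rw [MonoidHom.range_eq_top.2 rightHom_surjective]; exact le_top)
  refine ⟨D, h, fun g x => ((h x).1.ac g).uq rightHom (h _).1 (ac_ker _ g (h x).2.1) ?_⟩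
  rw [map_ac, (h x).2.2, (h _).2.2, ac_C]; rfl

theorem st_C : st (C S (Wr S Γ X) ((1 : Wr S Γ X) : Wr S Γ X ⧸ Qs Γ P)) =
    (Qs Γ P).comap rightHom := by
  ext g
  rw [mem_st, ac_C, C_inj.eq_iff, ← MulAction.mem_stabilizer_iff, MulAction.stabilizer_quotient]
  rfl

theorem lab_C {D : Subgroup (G0 Γ P)} {x : X} (h : D.map rightHom = C S Γ x) :
    lab (C S (Wr S Γ X) ((1 : Wr S Γ X) : Wr S Γ X ⧸ Qs Γ P)) D = (P x).index := by
  rw [lab, st_C, Subgroup.relIndex_comap, h, C, ← Subgroup.relIndex_comap, Qs,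
    Subgroup.comap_map_eq_self_of_injective inl_injective, C0, ← Subgroup.relIndex_comap,
    Subgroup.relIndex_top_right]
  congr 1
  ext s
  simp only [Subgroup.mem_comap, Subgroup.mem_pi, Set.mem_univ, forall_true_left]
  refine ⟨fun h => by simpa using h x, fun h y => ?_⟩
  by_cases e : y = x
  · simpa [e] using h
  · simp [e]

include hS in
theorem main (hP : ∀ x, (P x).index = d.lb x) (hΓ : ∀ D : Subgroup Γ, Ob D → D.Normal)
    (hL : ∀ σ, d.L ≤ d.A σ) (hA : ∀ σ, d.A σ ≠ ⊤) (x₀ : X) :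
    ∃ A D : Subgroup (G0 Γ P), Ob D ∧ ¬At d ⊤ D ∧ ¬D ≤ A ∧ ∀ σ E, Ob E → ¬E ≤ A →
      At d ((d.A σ).comap (rightHom.comp rightHom)) E := by
  obtain ⟨D, h1, h2⟩ := ex_D (Γ := Γ) hS P
  set ω : Wr S Γ X ⧸ Qs Γ P := ((1 : Wr S Γ X) : Wr S Γ X ⧸ Qs Γ P)
  have sj : ∀ {A B : Type} [Group A] [Group B] {φ : B →* MulAut A},
      (rightHom : A ⋊[φ] B →* B).range.IsSubnormal := by
    intro _ _ _ _ _
    rw [MonoidHom.range_eq_top.2 rightHom_surjective]; exact .top
  have cl : ∀ E : Subgroup (G0 Γ P), Ob E → (∀ g, ac _ g E = E) ∨ (∃ x, E = D x) ∨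
      E ≤ rightHom.ker := fun E o => by
    by_cases p : E ≤ rightHom.ker
    · exact .inr (.inr p)
    have o₁ := o.map _ sj p
    by_cases q : E.map rightHom ≤ rightHom.ker
    · obtain ⟨x, hx⟩ := eq_C hS o₁ q
      exact .inr (.inl ⟨x, o.uq _ (h1 x).1 p (hx.trans (h1 x).2.2.symm)⟩)
    · haveI := hΓ _ (o₁.map _ sj q)
      refine .inl fun g => (o.ac g).uq _ o (ac_ker _ g p) ?_
      rw [map_ac]
      refine (o₁.ac _).uq _ o₁ (ac_ker _ _ q) ?_
      rw [map_ac]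
      exact nm_normal.ac (Subgroup.mem_top _)
  have hl : ∀ x, lab (C S (Wr S Γ X) ω) (D x) = d.lb x := fun x =>
    (lab_C P (h1 x).2.2).trans (hP x)
  have el : ∀ N E, El (ac _) Ob (lab (C S (Wr S Γ X) ω)) N E → ∃ x, E = D x := by
    rintro N E ⟨o, p, g, -, q⟩
    rcases cl E o with r | r | r
    · exact (q (r g)).elim
    · exact r
    · exact (p (lab_one.2 fun g hg => by rw [ac_C, show g.right = 1 from r hg, one_smul])).elim
  let A : Subgroup (G0 Γ P) :=
    { carrier := {w | w.right = 1 ∧ w.left ω = 1}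
      one_mem' := ⟨rfl, rfl⟩
      mul_mem' := fun p q => ⟨by simp [p.1, q.1], by simp [p.1, p.2, q.2]⟩
      inv_mem' := fun p => ⟨by simp [p.1], by simp [p.1, p.2]⟩ }
  refine ⟨A, C S _ ω, ob_C hS ω, fun r => ?_, fun h => ?_, fun σ E o hE => ?_⟩
  · obtain ⟨y, hy⟩ := d.nt x₀
    obtain ⟨γ, -, rfl⟩ := d.tr x₀ y
    have inj : Injective D := fun x y h => d.lb_inj (by rw [← hl, h, hl])
    obtain ⟨κ, p, x, q⟩ := r.1 (D x₀) ⟨(h1 _).1, by rw [hl]; exact d.lb_ne _, inr (inr γ), trivial,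
      fun h => hy (inj ((h2 _ _).symm.trans h))⟩
    obtain rfl : κ = D := funext fun z => by
      obtain ⟨g, -, s⟩ := p.orb x z
      rw [q, h2] at s
      rw [← s, show g.right.right • x₀ = z from d.lb_inj (by rw [← hl, s, p.lab])]
    obtain ⟨σ, t⟩ := p.ty
    exact hA σ (top_le_iff.1 fun γ _ => t.le inj ⟨inr (inr γ), trivial, h2 _⟩)
  · obtain ⟨w, p, q⟩ := C_ex (S := S) (H := Wr S Γ X) ω
    exact q (h p).2
  by_cases p : E ≤ rightHom.ker
  · obtain ⟨i, rfl⟩ := eq_C hS o p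
    obtain rfl : ω = i := by
      by_contra e
      exact hE fun w hw => ⟨(mem_C.1 hw).1, (mem_C.1 hw).2 ω e⟩
    have pt : Pt d (ac _) (lab (C S (Wr S Γ X) ω)) ((d.A σ).comap (rightHom.comp rightHom)) D :=
      ⟨hl, fun γ hγ => ⟨inr (inr γ), hL σ hγ, h2 _⟩, σ, fun g hg => ⟨_, hg, h2 g⟩⟩
    refine ⟨fun E e => ?_, fun E E' e e' h => ?_⟩
    · obtain ⟨x, rfl⟩ := el _ E e
      exact ⟨D, pt, x, rfl⟩
    · obtain ⟨x, rfl⟩ := el _ E e
      obtain ⟨x', rfl⟩ := el _ E' e'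
      obtain ⟨g, q, s⟩ := pt.orb x x'
      exact (h g q s).elim
  · refine at_vac d fun E' o' ⟨g', _, q⟩ g hg => ?_
    rcases cl E' o' with r | ⟨x, rfl⟩ | r
    · exact (q (r g')).elim
    · rcases cl E o with s | ⟨x', rfl⟩ | s
      · exact s g
      · have : g.right ∈ C S Γ x := (h1 x).2.2 ▸ ⟨g, hg, rfl⟩
        rw [h2, (mem_C.1 this).1, one_smul]
      · exact (p s).elim
    · exact (o.w0 p).ac (r hg)

end Pool.Agent.H68.Wi
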