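import Pool.Agent.H68.Wi3

set_option autoImplicit false

namespace Pool.Agent.H68.Wi

open Function SemidirectProduct Equiv DihedralGroup
open Subgroup (IsSubnormal)

theorem ex_T (n : ℕ) : ∃ (T : Type) (_ : Group T) (_ : Finite T) (_ : IsSimpleGroup T)
    (P : Fin n → Subgroup T), (∃ a b : T, a * b ≠ b * a) ∧ (Injective fun i => (P i).index) ∧
      ∀ i, (P i).index ≠ 1 := by
  have h5 : 5 ≤ 2 ^ (n + 3) := by
    have := Nat.one_le_two_pow (n := n)
    rw [pow_add]; omega
  generalize hN : 2 ^ (n + 3) = N at h5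
  haveI : Nontrivial (Fin N) := Fin.nontrivial_iff_two_le.2 (by omega)
  haveI s : IsSimpleGroup (alternatingGroup (Fin N)) :=
    alternatingGroup.isSimpleGroup (by simpa using h5)
  have hd : 2 ^ (n + 2) ∣ Nat.card (alternatingGroup (Fin N)) := by
    have h := two_mul_nat_card_alternatingGroup (α := Fin N)
    rw [Nat.card_perm, Nat.card_fin] at h
    have := Nat.dvd_factorial (show 0 < N by omega) le_rfl
    rw [← h] at this
    nth_rewrite 1 [← hN, pow_succ, mul_comm] at this
    exact Nat.dvd_of_mul_dvd_mul_left two_pos this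
  have ex : ∀ i ≤ n + 1, ∃ K : Subgroup (alternatingGroup (Fin N)), Nat.card K = 2 ^ i ∧ K ≠ ⊤ :=
    fun i hi => by
    obtain ⟨K, hK⟩ := Sylow.exists_subgroup_card_pow_prime 2 ((pow_dvd_pow 2 (hi.trans (by omega))).trans hd)
    refine ⟨K, hK, ?_⟩
    rintro rfl
    rw [Subgroup.card_top] at hK
    rw [hK, Nat.pow_dvd_pow_iff_le_right one_lt_two] at hd
    omega
  choose P h1 h2 using fun i : Fin n => ex i (by omega)
  refine ⟨_, inferInstance, inferInstance, s, P, ?_, fun i j h => ?_,
    fun i h => h2 i (Subgroup.index_eq_one.1 h)⟩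
  · by_contra hc
    obtain ⟨K, p, q⟩ := ex 1 (by omega)
    have : K.Normal := ⟨fun x hx g => by
      rwa [not_not.1 (not_exists.1 (not_exists.1 hc g) x), mul_inv_cancel_right]⟩
    rcases this.eq_bot_or_eq_top with rfl | rfl
    · simp at p
    · exact q rfl
  · have a := (P i).card_mul_index
    have b := (P j).card_mul_index
    rw [h1] at a b
    rw [show (P i).index = (P j).index from h, ← b] at a
    exact Fin.ext (Nat.pow_right_injective le_rfl
      (Nat.eq_of_mul_eq_mul_right (Nat.pos_of_ne_zero (P j).index_ne_zero_of_finite) a))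

def rho : Perm (Fin 6) := swap 0 1 * swap 1 2 * swap 2 3 * swap 4 5

def io0 : DihedralGroup 4 → Perm (Fin 6)
  | r i => rho ^ i.val
  | sr i => swap 1 3 * rho ^ i.val

def io : DihedralGroup 4 →* Perm (Fin 6) := MonoidHom.mk' io0 (by decide +kernel)

theorem io_one : ∀ x, io x = 1 → x = 1 := by decide +kernel

abbrev A6 : Type := alternatingGroup (Fin 6)

instance : IsSimpleGroup A6 := alternatingGroup.isSimpleGroup (by simp)

def cy (i : Fin 6) : Perm (Fin 6) :=
  swap 0 i * (swap 1 2 * swap 2 3 * swap 3 4 * swap 4 5) * swap 0 i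

theorem cent (g : Perm (Fin 6)) (h : ∀ x : A6, g * x * g⁻¹ = x) : g = 1 := by
  have : ∀ i : Fin 6, Perm.sign (cy i) = 1 ∧ ∀ j, cy i j = j ↔ j = i := by decide +kernel
  ext i
  obtain ⟨p, q⟩ := this i
  generalize cy i = c at p q
  have := congrArg (· (g i)) (h ⟨c, p⟩)
  simp only [Perm.mul_apply, Perm.coe_inv, symm_apply_apply, (q i).2 rfl] at this
  rw [(q _).1 this.symm]; rfl

abbrev Ga : Type := A6 ⋊[MulAut.conjNormal.comp io] DihedralGroup 4

instance : Finite Ga := Finite.of_equiv _ equivProd.symm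

instance : MulAction Ga A6 where
  smul γ x := γ.left * MulAut.conjNormal (io γ.right) x
  one_smul x := by change 1 * MulAut.conjNormal (io 1) x = x; simp
  mul_smul γ δ x := by
    change (γ * δ).left * MulAut.conjNormal (io (γ * δ).right) x = γ.left *
      MulAut.conjNormal (io γ.right) (δ.left * MulAut.conjNormal (io δ.right) x)
    simp [mul_assoc]

theorem ga_smul (γ : Ga) (x : A6) : γ • x = γ.left * MulAut.conjNormal (io γ.right) x := rfl

def sg (σ : Bool) : DihedralGroup 4 := sr (if σ then 0 else 1)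

def Z (σ : Bool) : Subgroup (DihedralGroup 4) where
  carrier := {x | x = 1 ∨ x = sg σ}
  one_mem' := .inl rfl
  mul_mem' {a b} := by simp only [Set.mem_setOf_eq]; revert a b σ; decide +kernel
  inv_mem' {a} := by simp only [Set.mem_setOf_eq]; revert a σ; decide +kernel

theorem mem_Z {σ : Bool} {x : DihedralGroup 4} : x ∈ Z σ ↔ x = 1 ∨ x = sg σ := Iff.rfl

def dat (lb : A6 → ℕ) (h1 : Injective lb) (h2 : ∀ x, lb x ≠ 1) : Dat Ga A6 where
  L := rightHom.ker
  A σ := (Z σ).comap rightHom
  lb := lb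
  lb_inj := h1
  lb_ne := h2
  tr x y := ⟨inl (y * x⁻¹), by simp [MonoidHom.mem_ker], by simp [ga_smul]⟩
  nt x := exists_ne x
  fa γ h := by
    have p : γ.left = 1 := by simpa [ga_smul] using h 1
    refine SemidirectProduct.ext p (io_one _ (cent _ fun x => ?_))
    simpa [ga_smul, p, Subtype.ext_iff] using h x
  nc := ⟨inl ⟨swap 0 1 * swap 1 2, by simp⟩, by simp [MonoidHom.mem_ker],
    inl ⟨swap 1 2 * swap 2 3, by simp⟩, by simp [MonoidHom.mem_ker], by
      simp only [← map_inv, ← map_mul, Ne, map_eq_one_iff _ inl_injective, Subtype.ext_iff]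
      decide +kernel⟩
  mn σ K hK hn := by
    rintro ⟨k, hk, k1⟩
    have il : ∀ x : A6, (inl x : Ga) ∈ rightHom.ker := fun x => by simp [MonoidHom.mem_ker]
    have nK : (K.comap inl).Normal := ⟨fun x hx g => by simpa using hn _ (il g) _ hx⟩
    rcases nK.eq_bot_or_eq_top with p | p
    · refine (k1 ?_).elim
      have c : (k.left : Perm (Fin 6)) * io k.right = 1 := cent _ fun x => by
        have q : x * (k.left * MulAut.conjNormal (io k.right) x⁻¹ * k.left⁻¹) ∈ K.comap inl := by
          have := mul_mem (hn _ (il x) k hk) (inv_mem hk)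
          rw [Subgroup.mem_comap]
          convert this using 1
          ext : 1 <;> simp [mul_assoc]
        rw [p, Subgroup.mem_bot, mul_eq_one_iff_eq_inv, Subtype.ext_iff] at q
        rw [eq_comm]
        simpa [mul_assoc] using q
      have s : Perm.sign (io k.right) = 1 := by
        have := congrArg Perm.sign c
        rwa [map_mul, Perm.mem_alternatingGroup.1 k.left.2, one_mul, map_one] at this
      have : ∀ σ, Perm.sign (io (sg σ)) ≠ 1 := by decide +kernel
      have r1 : k.right = 1 := (mem_Z.1 (hK hk)).resolve_right fun e => this σ (by rw [← e]; exact s)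
      exact SemidirectProduct.ext (Subtype.ext (by simpa [r1] using c)) r1
    · rw [← range_inl_eq_ker_rightHom]
      rintro _ ⟨x, rfl⟩
      exact (p.ge (Subgroup.mem_top x) :)
  cm a ha b hb h := by
    simp only [Subgroup.mem_comap, map_mul, map_inv, mem_Z] at *
    generalize rightHom a = x, rightHom b = y at *
    revert x y
    decide +kernel

instance : Group.IsNilpotent (DihedralGroup 4) :=
  (IsPGroup.of_card (p := 2) (n := 3) (by rw [DihedralGroup.nat_card]; rfl)).isNilpotent

theorem sn_nil' {G : Type} [Group G] [Finite G] [Group.IsNilpotent G] (K : Subgroup G) :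
    K.IsSubnormal := by
  induction K using WellFoundedGT.induction with
  | _ K ih =>
  rcases eq_or_ne K ⊤ with rfl | h
  · exact .top
  · exact .step _ _ Subgroup.le_normalizer (ih _ (normalizerCondition_of_isNilpotent K h.lt_top))
      inferInstance

theorem ga_ob (D : Subgroup Ga) (o : Ob D) : D.Normal := by
  have p : D ≤ rightHom.ker := by_contra fun h =>
    (o.map _ (sn_nil' _) h).not_solv (K := ⊤) inferInstance le_top
  obtain ⟨E, q, -, rfl⟩ := o.lift inl (by rwa [range_inl_eq_ker_rightHom])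
  rw [(q.sn.eq_bot_or_top_of_isSimpleGroup inferInstance).resolve_left q.ne,
    ← MonoidHom.range_eq_map, range_inl_eq_ker_rightHom]
  infer_instance

theorem z_sup : Z true ⊔ Z false = ⊤ := top_le_iff.1 fun x _ => by
  have u : sg true ∈ Z true ⊔ Z false := Subgroup.mem_sup_left (.inr rfl)
  have v : sg false ∈ Z true ⊔ Z false := Subgroup.mem_sup_right (.inr rfl)
  have : ∀ x, ∃ n : Fin 4, x = (sg true * sg false) ^ n.1 ∨ x = sg true * (sg true * sg false) ^ n.1 := by
    decide +kernel
  obtain ⟨n, rfl | rfl⟩ := this x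
  · exact pow_mem (mul_mem u v) _
  · exact mul_mem u (pow_mem (mul_mem u v) _)

theorem final : ∃ (d : Dat Ga A6) (G : Type) (_ : Group G) (_ : Finite G) (U : Bool → Subgroup G)
    (A D : Subgroup G), (∀ σ, (U σ).IsSubnormal) ∧ U true ⊔ U false = ⊤ ∧ Ob D ∧ ¬At d ⊤ D ∧
      ¬D ≤ A ∧ ∀ σ E, Ob E → ¬E ≤ A → At d (U σ) E := by
  obtain ⟨T, _, _, _, P, h1, h2, h3⟩ := ex_T (Nat.card A6)
  let e := Finite.equivFin A6
  let d := dat (fun x => (P (e x)).index) (h2.comp e.injective) fun x => h3 _
  obtain ⟨A, D, h⟩ := main h1 d (fun x => P (e x)) (fun _ => rfl) ga_ob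
    (fun σ γ hγ => .inl hγ) (fun σ h => by
      have := mem_Z.1 (h.ge (Subgroup.mem_top (inr (r (1 : ZMod 4)))))
      have k : ∀ σ, ¬(r (1 : ZMod 4) = 1 ∨ r 1 = sg σ) := by decide +kernel
      exact k σ this) 1
  refine ⟨d, _, _, inferInstance, _, A, D, fun σ => ((sn_nil' _).comap _).comap _, ?_, h⟩
  rw [Subgroup.comap_sup_eq (rightHom.comp rightHom) _ _
    (rightHom_surjective.comp rightHom_surjective)]
  change Subgroup.comap _ ((Z true).comap _ ⊔ (Z false).comap _) = _
  rw [Subgroup.comap_sup_eq _ _ _ rightHom_surjective, z_sup]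
  rfl

theorem chain {G : Type} [Group G] {U W : Subgroup G} (h : U.IsSubnormal) (hW : W = ⊤) :
    ∃ n : ℕ, ∃ c : ℕ → Subgroup G, c 0 = U ∧ c n = W ∧
      ∀ i < n, c i ≤ c (i + 1) ∧ ((c i).subgroupOf (c (i + 1))).Normal := by
  obtain ⟨n, c, p, q, s, t⟩ := h.exists_chain
  exact ⟨n, c, s, t.trans hW.symm, fun i _ => ⟨p i.le_succ, q i⟩⟩

end Pool.Agent.H68.Wi
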